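import Pool.Agent.MTF.C10b

/-!
# MTF : part C, restriction of dot products: the sphere
-/

set_option linter.unusedSectionVars false

namespace Pool.Agent.MTF

open AffGrp TensorProduct

section
variable {G : AffGrp} {K W X : Type} [Field K] [Algebra ℂ K] [Group W] [Fintype W]
  [MulSemiringAction W K] [SMulCommClass W ℂ K] [AddCommGroup X] [DistribMulAction W X]
variable {L : Type} [Finite L] [DecidableEq L] {Q : TQD G K W X}
variable {L' : Type} [Finite L'] [DecidableEq L'] {g g' : ℕ} {ε : L → Bool} {ε' : L' → Bool}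
  {B B' : Type} [CommRing B] [Algebra ℂ B] [CommRing B'] [Algebra ℂ B']

theorem c10c_tot_w (w : W) (F : RR G K X L) : tot (wRR G K X L w F) = wO _ w (tot F) := by
  rw [tot_eq, tot_eq]
  induction F using AddMonoidAlgebra.induction_linear with
  | zero => simp only [map_zero]
  | add a b ha hb => rw [map_add, map_add, ha, hb, map_add, map_add]
  | single m a => simp [wRR, totH]

theorem c10c_tot_sum (F : RR G K X L) (s : Finset X) (hs : F.coeff.support ⊆ s) (k : L → G.X) :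
    (tot F).1 k = ∑ m ∈ s, (F.coeff m).1 k := by
  unfold tot
  rw [Finsupp.sum_of_support_subset _ hs _ (fun _ _ => rfl)]
  exact KO_sum s (fun m => F.coeff m) k

theorem c10c_r {g : ℕ} {ε : L → Bool} {E : Rep G} (φ : F1 Q g ε E) (m : X) (k : L → G.X) :
    (Q.sE E).mulVec (fun a => ((φ.1 a).coeff m).1 k) = Q.val m • fun a => ((φ.1 a).coeff m).1 k := by
  funext a
  have h := congrArg (fun F : (G.pow L).KO K => F.1 k) (φ.2.slot m a)
  simp only [KO_sum, KO_smul] at h
  exact h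

theorem c10c_l {g : ℕ} {ε : L → Bool} {E : Rep G} (φ : F1' Q g ε E) (m : X) (k : L → G.X) :
    (Q.sE E).vecMul (fun a => ((φ.1 a).coeff m).1 k) = Q.val m • fun a => ((φ.1 a).coeff m).1 k := by
  funext a
  have h := congrArg (fun F : (G.pow L).KO K => F.1 k) (φ.2.slot m a)
  simp only [KO_sum, KO_smul] at h
  refine Eq.trans ?_ h
  exact Finset.sum_congr rfl fun b _ => mul_comm _ _

/-- [C10c] PROOF. If `g + g' = 0 → Nonempty (L ⊕ L')`: `mem_AG`, `dot_fam`. Otherwise `g = g' = 0` and `L`, `L'` are empty (`subst` after obtaining `g = 0`, `g' = 0`): `mem_AG_sph`. `L'` is empty, so `tot (φ'.1 a) = algebraMap K _ (r a)` with `r a := (tot (φ'.1 a)).1 (isEmptyElim)`, `r a ∈ Q.A` (`reg0`) and `w • r a = r a` (`inv`: `wO w (tot F) = tot F` by reindexing the sum). `F' := fm X (pb K e) (∑ a, r a • ind E φ.1 a)` with `e : Option L ≃ Option (L ⊕ L')` (`Equiv.optionCongr (Equiv.equivOfIsEmpty _ _)`), in `Fam 0 (optS true _)` by `Fam_ind φ.2 a`, `Fam_smul`,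 `Fam_sum`, `Fam_pb`.
`fm X (ev1 K) F' = dgn (Ph2 (dot ..))`: `RR_ext`; at degree `m`: left `∑ a, r a * (φ a)_m (q)`, right (`Ph2_dot`) `∑ a, (φ a)_m (q) * (φ' a)_m (q')`, and `∑ a, (φ a)_m (q) * (φ' a)_n (q') = 0` for `n ≠ m` (`orthoK`), so the right side is `∑ a, (φ a)_m (q) * (tot (φ' a)) (q')`. All points `q`, `q'` are equal (empty index types). -/
theorem dot_AG (hT : TQ Q) (P : RP Q g (optS true ε) B) (P' : RP Q g' (optS false ε') B') (E : Rep G)
    (φ : F1 Q g ε E) (φ' : F1' Q g' ε' E) :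
    dgn _ X (Ph2 P P' (dot P P' E φ φ')) ∈ AG hT (g + g') (Sum.elim ε ε') := by
  classical
  by_cases hgL : g + g' = 0 → Nonempty (L ⊕ L')
  · exact (mem_AG hT hgL).2 (dot_fam hT P P' E φ φ')
  obtain ⟨hg0, hne⟩ : g + g' = 0 ∧ ¬ Nonempty (L ⊕ L') := by
    constructor
    · by_contra h
      exact hgL fun h' => absurd h' h
    · intro h
      exact hgL fun _ => h
  obtain rfl : g = 0 := by omega
  obtain rfl : g' = 0 := by omega
  have hLL : IsEmpty (L ⊕ L') := not_nonempty_iff.1 hne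
  have hL : IsEmpty L := ⟨fun l => hLL.false (Sum.inl l)⟩
  have hL' : IsEmpty L' := ⟨fun l => hLL.false (Sum.inr l)⟩
  have hq : ∀ q q' : L → G.X, q = q' := fun q q' => funext fun l => (hL.false l).elim
  have hq' : ∀ q q' : L' → G.X, q = q' := fun q q' => funext fun l => (hL'.false l).elim
  show _ ∈ AG hT 0 _
  rw [mem_AG_sph hT hLL]
  have hA : ∀ a, (tot (φ'.1 a)).1 (fun _ => 1) ∈ Q.A := fun a => (φ'.2.fam a).reg0 rfl _
  have hW : ∀ a, ∀ w : W, w • (tot (φ'.1 a)).1 (fun _ => 1) = (tot (φ'.1 a)).1 (fun _ => 1) := by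
    intro a w
    have h1 := c10c_tot_w w (φ'.1 a)
    rw [(wRR_iff _).1 (φ'.2.fam a).inv w] at h1
    have h2 := congrArg (fun F : (G.pow L').KO K => F.1 (fun _ => 1)) h1
    exact h2.symm
  have hfam : Q.Fam 0 (optS true ε) (∑ a, (tot (φ'.1 a)).1 (fun _ => 1) • ind E φ.1 a) :=
    Fam_sum _ _ fun a _ => Fam_smul (Fam_ind φ.2 a) (hA a) (hW a)
  refine ⟨fm X (pb K (Equiv.optionCongr (Equiv.equivOfIsEmpty L (L ⊕ L'))))
    (∑ a, (tot (φ'.1 a)).1 (fun _ => 1) • ind E φ.1 a), Fam_pb _ ?_ hfam, ?_⟩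
  · intro o
    cases o with
    | none => rfl
    | some l => exact (hL.false l).elim
  apply RR_ext
  intro m k
  rw [coeff_fm, ev1_apply, coeff_fm, pb_apply, coeff_dgn, Ph2_dot, KO_sum,
    AddMonoidAlgebra.coeff_sum, Finsupp.finsetSum_apply, KO_sum]
  set S : Finset X := insert m (Finset.univ.biUnion fun a => (φ'.1 a).coeff.support) with hS
  have h1 : ∀ a, (tot (φ'.1 a)).1 (fun _ => 1) = ∑ n ∈ S, ((φ'.1 a).coeff n).1 (k ∘ Sum.inr) := by
    intro a
    rw [hq' (fun _ => 1) (k ∘ Sum.inr)]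
    refine c10c_tot_sum _ S ?_ _
    intro n hn
    exact Finset.mem_insert_of_mem (Finset.mem_biUnion.2 ⟨a, Finset.mem_univ a, hn⟩)
  have h2 : ∀ a, (((tot (φ'.1 a)).1 (fun _ => 1) • ind E φ.1 a).coeff m).1
      ((optP 1 k : Option (L ⊕ L') → G.X) ∘ (Equiv.optionCongr (Equiv.equivOfIsEmpty L (L ⊕ L')))) =
      ∑ n ∈ S, ((φ.1 a).coeff m).1 (k ∘ Sum.inl) * ((φ'.1 a).coeff n).1 (k ∘ Sum.inr) := by
    intro a
    rw [AddMonoidAlgebra.coeff_smul_apply, KO_smul, ind_coeff, h1 a, ← Finset.mul_sum, mul_comm]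
    congr 1
    have h3 : ∀ b, algebraMap ℂ K (E.ρ (((optP 1 k : Option (L ⊕ L') → G.X) ∘
        (Equiv.optionCongr (Equiv.equivOfIsEmpty L (L ⊕ L')))) none) a b) =
        if a = b then 1 else 0 := by
      intro b
      have h4 : ((optP 1 k : Option (L ⊕ L') → G.X) ∘
        (Equiv.optionCongr (Equiv.equivOfIsEmpty L (L ⊕ L')))) none = 1 := rfl
      rw [h4, map_one E.ρ, Matrix.one_apply]
      by_cases hab : a = b
      · rw [if_pos hab, if_pos hab, map_one]
      · rw [if_neg hab, if_neg hab, map_zero]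
    simp only [h3, ite_mul, one_mul, zero_mul, Finset.sum_ite_eq, Finset.mem_univ, if_true]
    rw [hq (k ∘ Sum.inl)]
  rw [Finset.sum_congr rfl fun a _ => h2 a, Finset.sum_comm, Finset.sum_eq_single m]
  · rfl
  · intro n _ hn
    exact orthoK hT E (Ne.symm hn) (c10c_r φ m (k ∘ Sum.inl)) (c10c_l φ' n (k ∘ Sum.inr))
  · intro hm
    exact absurd (Finset.mem_insert_self _ _) hm

end

end Pool.Agent.MTF
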