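import Pool.Agent.MTF.C8d
import Pool.Agent.MTF.C10c

/-!
# MTF : part C, joining: surjectivity
-/

set_option linter.unusedSectionVars false

namespace Pool.Agent.MTF

open AffGrp TensorProduct

section
variable {G : AffGrp} {K W X : Type} [Field K] [Algebra ℂ K] [Group W] [Fintype W]
  [MulSemiringAction W K] [SMulCommClass W ℂ K] [AddCommGroup X] [DistribMulAction W X]
variable {L : Type} [Finite L] [DecidableEq L] {Q : TQD G K W X}
variable {L' : Type} [Finite L'] [DecidableEq L'] {g g' : ℕ} {ε : L → Bool} {ε' : L' → Bool}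
  {B B' : Type} [CommRing B] [Algebra ℂ B] [CommRing B'] [Algebra ℂ B']

/-- the families as an additive group -/
def c10e_F (Q : TQD G K W X) (g : ℕ) (ε : L → Bool) : AddSubgroup (RR G K X L) where
  carrier := {F | Q.Fam g ε F}
  add_mem' := Fam_add
  zero_mem' := Fam_zero
  neg_mem' := Fam_neg

/-- the components -/
def c10e_co (Q : TQD G K W X) (g : ℕ) (ε : L → Bool) :
    c10e_F Q g ε →+ (X → (G.pow L).KO K) where
  toFun z m := z.1.coeff m
  map_zero' := rfl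
  map_add' _ _ := rfl

theorem c10es_add (P : RP Q g (optS true ε) B) (P' : RP Q g' (optS false ε') B') (C C' : RR G K X (L ⊕ L'))
    (h : ∃ z, (∀ x, actT P P' x z = z) ∧ dgn _ X (Ph2 P P' z) = C)
    (h' : ∃ z, (∀ x, actT P P' x z = z) ∧ dgn _ X (Ph2 P P' z) = C') :
    ∃ z, (∀ x, actT P P' x z = z) ∧ dgn _ X (Ph2 P P' z) = C + C' := by
  obtain ⟨z, h1, h2⟩ := h
  obtain ⟨z', h1', h2'⟩ := h'
  exact ⟨z + z', fun x => ((actT P P' x).map_add' z z').trans (congrArg₂ (· + ·) (h1 x) (h1' x)),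
    (congrArg (dgn _ X) ((Ph2 P P').map_add' z z')).trans
      (((dgn _ X).map_add' _ _).trans (congrArg₂ (· + ·) h2 h2'))⟩

theorem c10es_zero (P : RP Q g (optS true ε) B) (P' : RP Q g' (optS false ε') B') :
    ∃ z, (∀ x, actT P P' x z = z) ∧ dgn _ X (Ph2 P P' z) = 0 :=
  ⟨0, fun x => (actT P P' x).map_zero', (congrArg (dgn _ X) (Ph2 P P').map_zero').trans (LinearMap.map_zero _)⟩

theorem c10es_neg (P : RP Q g (optS true ε) B) (P' : RP Q g' (optS false ε') B') (C : RR G K X (L ⊕ L'))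
    (h : ∃ z, (∀ x, actT P P' x z = z) ∧ dgn _ X (Ph2 P P' z) = C) :
    ∃ z, (∀ x, actT P P' x z = z) ∧ dgn _ X (Ph2 P P' z) = -C := by
  obtain ⟨z, h1, h2⟩ := h
  refine ⟨-z, fun x => ?_, ?_⟩
  · rw [map_neg, h1]
  · rw [map_neg (Ph2 P P'), map_neg, h2]

/-- the families that are restrictions of invariants -/
noncomputable def c10e_S (P : RP Q g (optS true ε) B) (P' : RP Q g' (optS false ε') B') :
    AddSubgroup (c10e_F Q (g + g') (Sum.elim ε ε')) where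
  carrier := {C | ∃ z, (∀ x, actT P P' x z = z) ∧ dgn _ X (Ph2 P P' z) = C.1}
  add_mem' := fun {C C'} h h' => c10es_add P P' C.1 C'.1 h h'
  zero_mem' := c10es_zero P P'
  neg_mem' := fun {C} h => c10es_neg P P' C.1 h

theorem c10e_sum {H : AffGrp} {ι : Type} (t : Finset ι) (f : ι → H.KO K) (k : H.X) :
    (∑ i ∈ t, f i).1 k = ∑ i ∈ t, (f i).1 k := by
  classical
  induction t using Finset.induction_on with
  | empty => rfl
  | insert i t hi ih =>
    rw [Finset.sum_insert hi, Finset.sum_insert hi, ← ih]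
    rfl

theorem c10es_abs {A R : Type} [AddCommGroup A] [AddCommGroup R] (N : X → ℕ)
    (hN : ∀ (w : W) m, N (w • m) = N m) (cf : A → X → R) (c0 : cf 0 = 0)
    (ca : ∀ a b, cf (a + b) = cf a + cf b) (hfin : ∀ a, (Function.support (cf a)).Finite)
    (F S : A → Prop) (F0 : F 0) (Fa : ∀ a b, F a → F b → F (a + b)) (Fn : ∀ a, F a → F (-a))
    (S0 : S 0) (Sa : ∀ a b, S a → S b → S (a + b)) (Sn : ∀ a, S a → S (-a))
    (orb : ∀ a, F a → ∀ (w : W) m, cf a m = 0 → cf a (w • m) = 0) (zero : ∀ a, cf a = 0 → a = 0)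
    (step : ∀ a, F a → ∀ l, (∀ m, cf a m ≠ 0 → N m ≤ N l) → ∃ a', F a' ∧ S a' ∧
      (∀ m, cf a' m ≠ 0 → (∃ w : W, m = w • l) ∨ N m < N l) ∧ cf a' l = cf a l)
    (n : ℕ) (a : A) (ha : F a) (hn : ∀ m, cf a m ≠ 0 → N m < n) : S a := by
  let F' : AddSubgroup A :=
    { carrier := {a | F a}, add_mem' := fun {a b} h h' => Fa a b h h', zero_mem' := F0,
      neg_mem' := fun {a} h => Fn a h }
  let co : F' →+ (X → R) :=
    { toFun := fun z => cf z.1, map_zero' := c0, map_add' := fun z z' => ca z.1 z'.1 }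
  let S' : AddSubgroup F' :=
    { carrier := {z | S z.1}, add_mem' := fun {a b} h h' => Sa a.1 b.1 h h', zero_mem' := S0,
      neg_mem' := fun {a} h => Sn a.1 h }
  have h1 : (⟨a, ha⟩ : F') ∈ S' := by
    refine peel (W := W) N hN co (fun z => hfin z.1) (fun z w m h => orb z.1 z.2 w m h)
      (fun _ => S') (fun _ => le_rfl) (fun z hz => ?_) (fun z l _ h2 => ?_) n ⟨a, ha⟩ hn
    · have h2 : z.1 = 0 := zero z.1 hz
      show S z.1
      rw [h2]
      exact S0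
    · obtain ⟨a', h3, h4, h5, h6⟩ := step z.1 z.2 l h2
      exact ⟨⟨a', h3⟩, h4, h5, h6⟩
  exact h1

theorem c10es_co (P : RP Q g (optS true ε) B) (P' : RP Q g' (optS false ε') B') (E : Rep G) {n : ℕ}
    (ψ : Fin n → F1 Q g ε E) (ψ' : Fin n → F1' Q g' ε' E) (x : X) :
    (dgn _ X (Ph2 P P' (∑ j, dot P P' E (ψ j) (ψ' j)))).coeff x =
      ∑ j, ∑ a, pb K Sum.inl (((ψ j).1 a).coeff x) * pb K Sum.inr (((ψ' j).1 a).coeff x) := by
  rw [coeff_dgn, map_sum (Ph2 P P'), AddMonoidAlgebra.coeff_sum, Finsupp.finsetSum_apply]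
  exact Finset.sum_congr rfl fun j _ => Ph2_dot P P' _ _ _ x x

theorem c10es_inv (P : RP Q g (optS true ε) B) (P' : RP Q g' (optS false ε') B') (E : Rep G) {n : ℕ}
    (ψ : Fin n → F1 Q g ε E) (ψ' : Fin n → F1' Q g' ε' E) (x : G.X) :
    actT P P' x (∑ j, dot P P' E (ψ j) (ψ' j)) = ∑ j, dot P P' E (ψ j) (ψ' j) := by
  rw [map_sum]
  exact Finset.sum_congr rfl fun j _ => dot_inv P P' _ _ _ x

theorem c10es_fam (hT : TQ Q) (P : RP Q g (optS true ε) B) (P' : RP Q g' (optS false ε') B') (E : Rep G) {n : ℕ}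
    (ψ : Fin n → F1 Q g ε E) (ψ' : Fin n → F1' Q g' ε' E) :
    Q.Fam (g + g') (Sum.elim ε ε') (dgn _ X (Ph2 P P' (∑ j, dot P P' E (ψ j) (ψ' j)))) := by
  rw [map_sum (Ph2 P P'), map_sum]
  exact Fam_sum _ _ fun j _ => dot_fam hT P P' _ _ _

theorem c10es_alg {R S S' : Type} [CommRing R] (ev : S → R) (ev' : S' → R) (E : R) {n : ℕ} {ι : Type}
    [Fintype ι] (f : Fin n → ι → S) (f' : Fin n → ι → S') (m m' : Fin n → R) (v v' : ι → R) (g g' : ℕ)
    (p c : R) (hE : ∀ a b : R, E ^ 2 * a = E ^ 2 * b → a = b)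
    (h1 : ∀ j a, E * ev (f j a) = E ^ g * (v a * m j)) (h2 : ∀ j a, E * ev' (f' j a) = E ^ g' * (v' a * m' j))
    (h3 : E * c = E ^ (g + g') * p) (h4 : p = ∑ j, m j * m' j) (h5 : ∑ a, v a * v' a = E) :
    ∑ j, ∑ a, ev (f j a) * ev' (f' j a) = c := by
  apply hE
  calc E ^ 2 * ∑ j, ∑ a, ev (f j a) * ev' (f' j a)
      = ∑ j, ∑ a, (E * ev (f j a)) * (E * ev' (f' j a)) := by
        rw [Finset.mul_sum]
        refine Finset.sum_congr rfl fun j _ => ?_
        rw [Finset.mul_sum]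
        refine Finset.sum_congr rfl fun a _ => ?_
        ring
    _ = ∑ j, ∑ a, E ^ (g + g') * (m j * m' j) * (v a * v' a) := by
        refine Finset.sum_congr rfl fun j _ => Finset.sum_congr rfl fun a _ => ?_
        rw [h1, h2, pow_add]
        ring
    _ = ∑ j, E ^ (g + g') * (m j * m' j) * E := by
        refine Finset.sum_congr rfl fun j _ => ?_
        rw [← Finset.mul_sum, h5]
    _ = E * (E ^ (g + g') * p) := by
        rw [h4, Finset.mul_sum, Finset.mul_sum]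
        refine Finset.sum_congr rfl fun j _ => ?_
        ring
    _ = E ^ 2 * c := by
        rw [← h3]
        ring

theorem c10es_step (hT : TQ Q) (P : RP Q g (optS true ε) B) (P' : RP Q g' (optS false ε') B')
    (h : g + g' = 0 → Nonempty (L ⊕ L')) (C : RR G K X (L ⊕ L')) (hC : Q.Fam (g + g') (Sum.elim ε ε') C)
    (l : X) (hl : ∀ m, C.coeff m ≠ 0 → Q.N m ≤ Q.N l) :
    ∃ C' : RR G K X (L ⊕ L'), Q.Fam (g + g') (Sum.elim ε ε') C' ∧
      (∃ z, (∀ x, actT P P' x z = z) ∧ dgn _ X (Ph2 P P' z) = C') ∧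
      (∀ m, C'.coeff m ≠ 0 → (∃ w : W, m = w • l) ∨ Q.N m < Q.N l) ∧ C'.coeff l = C.coeff l := by
  classical
  obtain ⟨p, hp, hi, hlead⟩ := lead0 hT (hL := h) hC hl
  obtain ⟨n, m, m', hm, hm', hpm⟩ := prodS hT hp hi
  choose ψ hψs hψ using fun j => liftT hT g (hm j).1 (hm j).2
  choose ψ' hψs' hψ' using fun j => liftT' hT g' (hm' j).1 (hm' j).2
  refine ⟨_, c10es_fam hT P P' (Vr hT l) ψ ψ', ⟨_, c10es_inv P P' (Vr hT l) ψ ψ', rfl⟩, fun x hx => ?_, ?_⟩
  · rw [c10es_co P P' (Vr hT l) ψ ψ' x] at hx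
    obtain ⟨j, -, hj⟩ := Finset.exists_ne_zero_of_sum_ne_zero hx
    obtain ⟨a, -, ha⟩ := Finset.exists_ne_zero_of_sum_ne_zero hj
    refine hψs j a x fun h0 => ha ?_
    rw [h0, map_zero, zero_mul]
  · rw [c10es_co P P' (Vr hT l) ψ ψ' l]
    have hE := hT.Eu_ne l
    apply Subtype.ext
    funext k
    have hk : Sum.elim (k ∘ Sum.inl) (k ∘ Sum.inr) = k := Sum.elim_comp_inl_inr k
    have h4 := hpm (k ∘ Sum.inl) (k ∘ Sum.inr)
    rw [hk] at h4
    have h6 : (∑ j, ∑ a, pb K Sum.inl (((ψ j).1 a).coeff l) *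
        pb K (Sum.inr : L' → L ⊕ L') (((ψ' j).1 a).coeff l)).1 k =
        ∑ j, ∑ a, (((ψ j).1 a).coeff l).1 (k ∘ Sum.inl) *
          (((ψ' j).1 a).coeff l).1 (k ∘ Sum.inr) := by
      rw [c10e_sum]
      refine Finset.sum_congr rfl fun j _ => ?_
      rw [c10e_sum]
      rfl
    rw [h6]
    exact c10es_alg (fun F : (G.pow L).KO K => F.1 (k ∘ Sum.inl)) (fun F : (G.pow L').KO K => F.1 (k ∘ Sum.inr))
      (Q.Eu l) (fun j a => ((ψ j).1 a).coeff l) (fun j a => ((ψ' j).1 a).coeff l)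
      (fun j => (m j).1 (k ∘ Sum.inl)) (fun j => (m' j).1 (k ∘ Sum.inr)) (vr hT l) (vr' hT l) g g'
      (p.1 k) ((C.coeff l).1 k) (fun _ _ h => mul_left_cancel₀ (pow_ne_zero 2 hE) h)
      (fun j a => congrFun (congrArg Subtype.val (hψ j a)) (k ∘ Sum.inl))
      (fun j a => congrFun (congrArg Subtype.val (hψ' j a)) (k ∘ Sum.inr))
      (congrFun (congrArg Subtype.val hlead) k) h4 (Vr_hw hT l).pair

theorem c10es_orb (C : RR G K X (L ⊕ L')) (hC : Q.Fam (g + g') (Sum.elim ε ε') C) (w : W) (m : X)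
    (h0 : C.coeff m = 0) : C.coeff (w • m) = 0 := by
  have h1 := hC.inv w m
  rw [h0, map_zero] at h1
  exact h1.symm

theorem c10es_coz (C : RR G K X (L ⊕ L')) (hz : (fun m => C.coeff m) = 0) : C = 0 :=
  AddMonoidAlgebra.coeff_injective (Finsupp.ext fun m => congrFun hz m)

/-- [C10e] PROOF. `mem_AG`: `C` is a family. `peel` with `M :=` the additive group of the families `Q.Fam (g + g') (Sum.elim ε ε')` (an `AddSubgroup` of `RR G K X (L ⊕ L')` by `Fam_add`, `Fam_neg`, `Fam_zero`), `co z := fun m => z.1.coeff m`, `N := Q.N`, `P n :=` (for all `n`) the additive group of those `C` with `∃ z, (∀ x, actT P P' x z = z) ∧ dgn _ X (Ph2 P P' z) = C` (closed under sums: `map_add`). `step` for `C`, `l`, `rp W l = l`, `C.coeff m ≠ 0 → N m ≤ N l`: `lead0 hT (hL := h)` gives `p` with `Eu l • C_l = Eu l ^ (g + g') • p`;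
`prodS` gives `m j`, `m' j` with `p (q, q') = ∑ j, m j q * m' j q'` (`Sum.elim (k ∘ inl) (k ∘ inr) = k`); `liftT hT g`, `liftT' hT g'` give `ψ j`, `ψ' j`; `z := ∑ j, dot P P' (Vr hT l) (ψ j) (ψ' j)` is invariant (`dot_inv`), its value `C' := dgn (Ph2 z)` is a family (`dot_fam`, sums). Support: `(C')_m = ∑ j a, pb inl (ψ j a)_m * pb inr (ψ' j a)_m` (`Ph2_dot`) nonzero only if some `(ψ j a)_m ≠ 0` (`SuppLe`). At `l`: `Eu l ^ 2 • C'_l = ∑ j a, (Eu l ^ g * Eu l ^ g' * v a * v' a) • (m j * m' j) = Eu l ^ (g + g' + 1) • p = Eu l ^ 2 • C_l` (`(Vr_hw hT l).pair`), cancel. -/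
theorem onto1 (hT : TQ Q) (P : RP Q g (optS true ε) B) (P' : RP Q g' (optS false ε') B')
    (h : g + g' = 0 → Nonempty (L ⊕ L')) {C : RR G K X (L ⊕ L')} (hC : Q.Fam (g + g') (Sum.elim ε ε') C) :
    ∃ z, (∀ x, actT P P' x z = z) ∧ dgn _ X (Ph2 P P' z) = C := by
  obtain ⟨n, hn⟩ : ∃ n, ∀ m, C.coeff m ≠ 0 → Q.N m < n := by
    refine ⟨(C.coeff.support.sup Q.N) + 1, fun m hm => ?_⟩
    exact Nat.lt_succ_of_le (Finset.le_sup (f := Q.N) (Finsupp.mem_support_iff.2 hm))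
  exact c10es_abs (A := RR G K X (L ⊕ L')) (R := (G.pow (L ⊕ L')).KO K) (W := W) Q.N hT.N_w (fun (C : RR G K X (L ⊕ L')) m => C.coeff m) rfl (fun _ _ => rfl)
    (fun C => Finsupp.finite_support C.coeff) (Q.Fam (g + g') (Sum.elim ε ε'))
    (fun C => ∃ z, (∀ x, actT P P' x z = z) ∧ dgn _ X (Ph2 P P' z) = C) Fam_zero (fun _ _ => Fam_add)
    (fun _ => Fam_neg) (c10es_zero P P') (c10es_add P P') (c10es_neg P P') c10es_orb c10es_coz
    (c10es_step hT P P' h) n C hC hn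

end

end Pool.Agent.MTF
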