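import Pool.Agent.MTF.C1a

/-!
# MTF : part C, products
-/

set_option linter.unusedSectionVars false

namespace Pool.Agent.MTF

open AffGrp

section
variable {G : AffGrp} {K W X : Type} [Field K] [Algebra ℂ K] [Group W] [Fintype W]
  [MulSemiringAction W K] [SMulCommClass W ℂ K] [AddCommGroup X] [DistribMulAction W X]
variable {L : Type} [Finite L] [DecidableEq L] {Q : TQD G K W X}

/-- [C1d] PROOF. `AddMonoidAlgebra.coeff_mul` (with `classical`): the coefficient at `m` is `∑ m₁ ∑ m₂ if m₁ + m₂ = m then F m₁ * F' m₂ else 0`. `wt`: `s_leib` for every term: `s (F m₁ * F' m₂) = (val (ε m₂) + val (ε m₁)) • (F m₁ * F' m₂)`, `Q.val (sgn • (m₁ + m₂))` (`smul_add`, `map_add`). `inv`: `wRR_iff` (a ring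
homomorphism). `reg0`: `tot_eq`, `map_mul`, `Q.A` is closed under multiplication. `regS`: each term with `m₁ + m₂ = m`: `hT.Eu_add m₁ m₂`: `Eu m₁ * Eu m₂ = a * Eu m`, so `(Eu m ^ (g - 1))⁻¹ = a ^ (g - 1) * (Eu m₁ ^ (g - 1))⁻¹ * (Eu m₂ ^ (g - 1))⁻¹` (`hT.Eu_ne`). -/
theorem Fam_mul (hT : TQ Q) {g : ℕ} {ε : L → Bool} {F F' : RR G K X L} (h : Q.Fam g ε F) (h' : Q.Fam g ε F') :
    Q.Fam g ε (F * F') := by
  classical
  refine ⟨fun m l => ?_, fun w m => ?_, fun hg x => ?_, fun m k hg => ?_⟩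
  · rw [AddMonoidAlgebra.coeff_mul]
    unfold Finsupp.sum
    rw [map_sum, Finset.smul_sum]
    refine Finset.sum_congr rfl fun m1 _ => ?_
    rw [map_sum, Finset.smul_sum]
    refine Finset.sum_congr rfl fun m2 _ => ?_
    beta_reduce
    by_cases hm : m1 + m2 = m
    · rw [if_pos hm, s_leib, h.wt, h'.wt, ← hm, smul_add, map_add, add_smul, mul_smul_comm,
        mul_smul_comm, mul_comm (F'.coeff m2) (F.coeff m1), add_comm]
    · rw [if_neg hm, map_zero, smul_zero]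
  · refine (wRR_iff (F * F')).2 (fun w => ?_) w m
    rw [map_mul, (wRR_iff F).1 h.inv w, (wRR_iff F').1 h'.inv w]
  · rw [tot_eq, map_mul, ← tot_eq, ← tot_eq, KO_mul]
    exact Q.A.mul_mem (h.reg0 hg x) (h'.reg0 hg x)
  · rw [AddMonoidAlgebra.coeff_mul]
    unfold Finsupp.sum
    rw [KO_sum, Finset.mul_sum]
    refine Subalgebra.sum_mem _ fun m1 _ => ?_
    rw [KO_sum, Finset.mul_sum]
    refine Subalgebra.sum_mem _ fun m2 _ => ?_
    beta_reduce
    by_cases hm : m1 + m2 = m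
    · rw [if_pos hm, KO_mul]
      obtain ⟨a, ha, he⟩ := hT.Eu_add m1 m2
      rw [hm] at he
      have h1 := h.regS m1 k hg
      have h2 := h'.regS m2 k hg
      have n1 := pow_ne_zero (g - 1) (hT.Eu_ne m1)
      have n2 := pow_ne_zero (g - 1) (hT.Eu_ne m2)
      have n := pow_ne_zero (g - 1) (hT.Eu_ne m)
      have he' : Q.Eu m1 ^ (g - 1) * Q.Eu m2 ^ (g - 1) = a ^ (g - 1) * Q.Eu m ^ (g - 1) := by
        rw [← mul_pow, he, mul_pow]
      have e : (Q.Eu m ^ (g - 1))⁻¹ * ((F.coeff m1).1 k * (F'.coeff m2).1 k) =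
          a ^ (g - 1) * (((Q.Eu m1 ^ (g - 1))⁻¹ * (F.coeff m1).1 k) *
            ((Q.Eu m2 ^ (g - 1))⁻¹ * (F'.coeff m2).1 k)) := by
        have e1 : (Q.Eu m ^ (g - 1))⁻¹ =
            a ^ (g - 1) * ((Q.Eu m1 ^ (g - 1))⁻¹ * (Q.Eu m2 ^ (g - 1))⁻¹) := by
          rw [← mul_inv, he', mul_inv]
          by_cases ha0 : a ^ (g - 1) = 0
          · exfalso
            rw [ha0, zero_mul] at he'
            exact mul_ne_zero n1 n2 he'
          · rw [mul_inv_cancel_left₀ ha0]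
        rw [e1]; ring
      rw [e]
      exact Q.A.mul_mem (Q.A.pow_mem ha _) (Q.A.mul_mem h1 h2)
    · rw [if_neg hm, KO_zero, mul_zero]
      exact Q.A.zero_mem

end

end Pool.Agent.MTF
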