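import Pool.Agent.MTF.C1c
import Pool.Agent.MTF.C1d

/-!
# MTF : part C, the rings `A_{g;L}`
-/

set_option linter.unusedSectionVars false

namespace Pool.Agent.MTF

open AffGrp

section
variable {G : AffGrp} {K W X : Type} [Field K] [Algebra ℂ K] [Group W] [Fintype W]
  [MulSemiringAction W K] [SMulCommClass W ℂ K] [AddCommGroup X] [DistribMulAction W X]
variable {L : Type} [Finite L] [DecidableEq L] {Q : TQD G K W X}

/-- the ring of families of genus `g` (for `g = 0` and no legs this is not the ring of the sphere) -/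
def AF (hT : TQ Q) (g : ℕ) (ε : L → Bool) : Subalgebra ℂ (RR G K X L) where
  carrier := {F | Q.Fam g ε F}
  mul_mem' h h' := Fam_mul hT h h'
  add_mem' h h' := Fam_add h h'
  algebraMap_mem' a := by
    have h := Fam_const hT g ε (a := algebraMap ℂ K a) (Subalgebra.algebraMap_mem _ a)
      (fun w => smul_algebraMap w a)
    rw [← IsScalarTower.algebraMap_apply] at h
    exact h

theorem mem_AF (hT : TQ Q) {g : ℕ} {ε : L → Bool} {F : RR G K X L} : F ∈ AF hT g ε ↔ Q.Fam g ε F := Iff.rfl

open Classical in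
/-- The ring `A_{g; L}` of the connected surface of genus `g` with legs `L`. For the sphere (`g = 0`, no legs) it consists of the restrictions to `1` of the functions for one leg. -/
noncomputable def AG (hT : TQ Q) (g : ℕ) (ε : L → Bool) : Subalgebra ℂ (RR G K X L) :=
  if g = 0 ∧ IsEmpty L then (AF hT 0 (optS true ε)).map ((fm X (ev1 K)).restrictScalars ℂ) else AF hT g ε

theorem mem_AG (hT : TQ Q) {g : ℕ} {ε : L → Bool} (h : g = 0 → Nonempty L) {F : RR G K X L} :
    F ∈ AG hT g ε ↔ Q.Fam g ε F := by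
  unfold AG
  rw [if_neg]
  · exact Iff.rfl
  · rintro ⟨h1, h2⟩
    exact not_isEmpty_iff.2 (h h1) h2

theorem mem_AG_sph (hT : TQ Q) (hL : IsEmpty L) {ε : L → Bool} {F : RR G K X L} :
    F ∈ AG hT 0 ε ↔ ∃ F' : RR G K X (Option L), Q.Fam 0 (optS true ε) F' ∧ fm X (ev1 K) F' = F := by
  unfold AG
  rw [if_pos ⟨rfl, hL⟩, Subalgebra.mem_map]
  rfl

theorem AG_fam (hT : TQ Q) {g : ℕ} {ε : L → Bool} {F : RR G K X L} (h : F ∈ AG hT g ε) : Q.Fam g ε F := by
  by_cases h1 : g = 0 ∧ IsEmpty L
  · obtain ⟨rfl, h2⟩ := h1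
    obtain ⟨F', h3, rfl⟩ := (mem_AG_sph hT h2).1 h
    exact Fam_ev1 h3
  · refine (mem_AG hT fun h2 => ?_).1 h
    by_contra h3
    exact h1 ⟨h2, not_nonempty_iff.1 h3⟩

end

/-- the ring structure of a subalgebra of `RR G K X L` (type class inference does not find it) -/
noncomputable instance instRR {G : AffGrp} {K X L : Type} [Field K] [Algebra ℂ K] [AddCommGroup X] [Finite L]
    (B : Subalgebra ℂ (RR G K X L)) : CommRing B :=
  @Subalgebra.toCommRing ℂ (RR G K X L) _ (AddMonoidAlgebra.commRing : CommRing (RR G K X L)) _ B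

end Pool.Agent.MTF
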