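import Pool.Agent.MTF.C3D

/-!
# MTF : part C, extension of `Hom_J(E, E')` to polynomial maps
-/

set_option linter.unusedSectionVars false

namespace Pool.Agent.MTF

open AffGrp

section
variable {G : AffGrp}

theorem Rep.inv_mul {G : AffGrp} (E : Rep G) (x : G.X) (a b : E.ι) :
    ∑ c, E.ρ x⁻¹ a c * E.ρ x c b = if a = b then 1 else 0 := by
  have h : E.ρ x⁻¹ * E.ρ x = 1 := by rw [← map_mul, inv_mul_cancel, map_one]
  have h1 := congrFun (congrFun h a) b
  rw [Matrix.mul_apply, Matrix.one_apply] at h1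
  exact h1

theorem Rep.mul_inv {G : AffGrp} (E : Rep G) (x : G.X) (a b : E.ι) :
    ∑ c, E.ρ x a c * E.ρ x⁻¹ c b = if a = b then 1 else 0 := by
  have h : E.ρ x * E.ρ x⁻¹ = 1 := by rw [← map_mul, mul_inv_cancel, map_one]
  have h1 := congrFun (congrFun h a) b
  rw [Matrix.mul_apply, Matrix.one_apply] at h1
  exact h1

/-- the representation on `Hom(E, E')` -/
noncomputable def Rep.hom (E E' : Rep G) : Rep G where
  ι := E'.ι × E.ι
  ρ :=
    { toFun := fun x => Matrix.of fun p q => E'.ρ x p.1 q.1 * E.ρ x⁻¹ q.2 p.2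
      map_one' := by
        ext p q
        simp only [inv_one, map_one, Matrix.of_apply, Matrix.one_apply]
        by_cases h1 : p.1 = q.1
        · by_cases h2 : q.2 = p.2
          · rw [if_pos h1, if_pos h2, if_pos (Prod.ext h1 h2.symm), mul_one]
          · rw [if_neg h2, mul_zero, if_neg (fun h => h2 (by rw [h]))]
        · rw [if_neg h1, zero_mul, if_neg (fun h => h1 (by rw [h]))]
      map_mul' := fun x y => by
        ext p q
        rw [Matrix.mul_apply, Matrix.of_apply, mul_inv_rev, map_mul, map_mul, Matrix.mul_apply, Matrix.mul_apply,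
          Fintype.sum_prod_type, Finset.sum_mul_sum]
        refine Finset.sum_congr rfl fun c _ => Finset.sum_congr rfl fun d _ => ?_
        simp only [Matrix.of_apply]
        ring }
  mem p q := G.O.mul_mem (E'.mem p.1 q.1) (G.inv_mem _ (E.mem q.2 p.2))

theorem Rep.hom_ρ (E E' : Rep G) (x : G.X) (p q : E'.ι × E.ι) :
    (E.hom E').ρ x p q = E'.ρ x p.1 q.1 * E.ρ x⁻¹ q.2 p.2 := rfl

theorem Rep.hom_co (E E' : Rep G) (p q : E'.ι × E.ι) :
    (E.hom E').co p q = E'.co p.1 q.1 * E.coi q.2 p.2 := rfl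

end

theorem c6a_one {G : AffGrp} (D : G.Lie) : D.1 1 = 0 := by
  have h := D.2 1 1
  rw [mul_one] at h
  have h2 : (1 : G.O).1 1 = 1 := rfl
  rw [h2] at h
  linear_combination -h

theorem c6a_coi {G : AffGrp} (E : Rep G) (D : G.Lie) (a b : E.ι) :
    D.1 (E.coi a b) = - D.1 (E.co a b) := by
  have h1 : ∑ c, E.co a c * E.coi c b = (if a = b then (1 : ℂ) else 0) • (1 : G.O) := by
    apply Subtype.ext
    funext x
    have h2 := E.mul_inv x a b
    simp only [AddSubmonoidClass.coe_finsetSum, Finset.sum_apply]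
    refine h2.trans ?_
    show _ = (if a = b then (1 : ℂ) else 0) * 1
    rw [mul_one]
  have h3 := congrArg D.1 h1
  rw [map_sum, map_smul, c6a_one, smul_zero] at h3
  have h4 : ∀ c, D.1 (E.co a c * E.coi c b) = (if a = c then D.1 (E.coi c b) else 0) +
      if c = b then D.1 (E.co a c) else 0 := by
    intro c
    have h5 : (E.co a c).1 1 = if a = c then 1 else 0 := by
      show E.ρ 1 a c = _
      rw [map_one, Matrix.one_apply]
    have h6 : (E.coi c b).1 1 = if c = b then 1 else 0 := by
      show E.ρ 1⁻¹ c b = _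
      rw [inv_one, map_one, Matrix.one_apply]
    rw [D.2, h5, h6]
    simp only [ite_mul, one_mul, zero_mul]
  rw [Finset.sum_congr rfl fun c _ => h4 c, Finset.sum_add_distrib, Finset.sum_ite_eq,
    Finset.sum_ite_eq', if_pos (Finset.mem_univ _), if_pos (Finset.mem_univ _)] at h3
  linear_combination h3

section
variable {G : AffGrp} {K W X : Type} [Field K] [Algebra ℂ K] [Group W] [Fintype W]
  [MulSemiringAction W K] [SMulCommClass W ℂ K] [AddCommGroup X] [DistribMulAction W X]
variable {Q : TQD G K W X}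

theorem c6a_sE (E E' : Rep G) (a c : E'.ι) (b d : E.ι) :
    Q.sE (E.hom E') (a, b) (c, d) = (if d = b then Q.sE E' a c else 0) -
      if a = c then Q.sE E d b else 0 := by
  unfold TQD.sE
  have h1 : ∀ j, Q.c j * algebraMap ℂ K ((Q.D j).1 ((E.hom E').co (a, b) (c, d))) =
      (if d = b then Q.c j * algebraMap ℂ K ((Q.D j).1 (E'.co a c)) else 0) -
        if a = c then Q.c j * algebraMap ℂ K ((Q.D j).1 (E.co d b)) else 0 := by
    intro j
    have h5 : (E'.co a c).1 1 = if a = c then 1 else 0 := by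
      show E'.ρ 1 a c = _
      rw [map_one, Matrix.one_apply]
    have h6 : (E.coi d b).1 1 = if d = b then 1 else 0 := by
      show E.ρ 1⁻¹ d b = _
      rw [inv_one, map_one, Matrix.one_apply]
    rw [Rep.hom_co, (Q.D j).2]
    simp only
    rw [h5, h6, c6a_coi]
    by_cases h7 : a = c
    · by_cases h8 : d = b
      · rw [if_pos h7, if_pos h8, if_pos h8, if_pos h7]
        simp only [one_mul, map_add, map_neg]
        ring
      · rw [if_pos h7, if_neg h8, if_neg h8, if_pos h7]
        simp only [one_mul, zero_mul, add_zero, map_neg]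
        ring
    · by_cases h8 : d = b
      · rw [if_neg h7, if_pos h8, if_pos h8, if_neg h7]
        simp only [one_mul, zero_mul, zero_add, sub_zero]
      · rw [if_neg h7, if_neg h8, if_neg h8, if_neg h7]
        simp only [zero_mul, zero_add, map_zero, mul_zero, sub_zero]
  rw [Finset.sum_congr rfl fun j _ => h1 j, Finset.sum_sub_distrib]
  congr 1
  · by_cases h8 : d = b
    · simp only [if_pos h8]
    · simp only [if_neg h8, Finset.sum_const_zero]
  · by_cases h7 : a = c
    · simp only [if_pos h7]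
    · simp only [if_neg h7, Finset.sum_const_zero]

end

section
variable {G : AffGrp} {K W X : Type} [Field K] [Algebra ℂ K] [Group W] [Fintype W]
  [MulSemiringAction W K] [SMulCommClass W ℂ K] [AddCommGroup X] [DistribMulAction W X]
variable {Q : TQD G K W X}

/-- [C6a] PROOF. (1) `D.1 (E.coi a b) = - D.1 (E.co a b)` for `D : G.Lie`: apply the point derivation `D` (`D.2`) to `∑ c, E.co a c * E.coi c b = const` (`Rep.mul_inv`; `D.1 1 = 0`, so `D.1` of a constant is `0`; values at `1`: `E.ρ 1 = 1`). (2) `(Q.sE (E.hom E')) (a, b) (c, d) = ∑ j, Q.c j * algebraMap ((Q.D j).1 (E'.co a c * E.coi d b))`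
`= Q.sE E' a c * δ d b - δ a c * Q.sE E d b` (`Rep.hom_co`, `D.2`, (1)). (3) So the entry `(a, b)` of the left side is `∑ c, Q.sE E' a c * T c b - ∑ d, T a d * Q.sE E d b = 0` by `h.comm` (`Fintype.sum_prod_type`). -/
theorem hom_sE {E E' : Rep G} {T : Matrix E'.ι E.ι K} (h : Q.HomJ E E' T) :
    (Q.sE (E.hom E')).mulVec (fun p => T p.1 p.2) = 0 := by
  funext p
  obtain ⟨a, b⟩ := p
  show ∑ q : E'.ι × E.ι, Q.sE (E.hom E') (a, b) q * T q.1 q.2 = 0
  rw [Fintype.sum_prod_type]
  have h1 : ∀ c : E'.ι, ∑ d : E.ι, Q.sE (E.hom E') (a, b) (c, d) * T c d =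
      Q.sE E' a c * T c b - if a = c then ∑ d, T c d * Q.sE E d b else 0 := by
    intro c
    have h2 : ∀ d : E.ι, Q.sE (E.hom E') (a, b) (c, d) * T c d =
        (if d = b then Q.sE E' a c * T c d else 0) - if a = c then T c d * Q.sE E d b else 0 := by
      intro d
      rw [c6a_sE, sub_mul]
      simp only [ite_mul, zero_mul]
      congr 1
      by_cases h3 : a = c
      · rw [if_pos h3, if_pos h3, mul_comm]
      · rw [if_neg h3, if_neg h3]
    rw [Finset.sum_congr rfl fun d _ => h2 d, Finset.sum_sub_distrib, Finset.sum_ite_eq',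
      if_pos (Finset.mem_univ _)]
    congr 1
    by_cases h3 : a = c
    · simp only [if_pos h3]
    · simp only [if_neg h3, Finset.sum_const_zero]
  have h4 := congrFun (congrFun h.comm a) b
  rw [Matrix.mul_apply, Matrix.mul_apply] at h4
  simp only [h1]
  rw [Finset.sum_sub_distrib, Finset.sum_ite_eq, if_pos (Finset.mem_univ _), h4, sub_self]

end

end Pool.Agent.MTF
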