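import Pool.Agent.MTF.C5
import Pool.Agent.MTF.C6a

/-!
# MTF : part C, restriction of dot products
-/

set_option linter.unusedSectionVars false

namespace Pool.Agent.MTF

open AffGrp TensorProduct

section
variable {G : AffGrp} {K W X : Type} [Field K] [Algebra ℂ K] [Group W] [Fintype W]
  [MulSemiringAction W K] [SMulCommClass W ℂ K] [AddCommGroup X] [DistribMulAction W X]
variable {L : Type} [Finite L] [DecidableEq L] {Q : TQD G K W X}
variable {L' : Type} [Finite L'] [DecidableEq L'] {g g' : ℕ} {ε : L → Bool} {ε' : L' → Bool}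
  {B B' : Type} [CommRing B] [Algebra ℂ B] [CommRing B'] [Algebra ℂ B']

theorem c10a_ev1 (E : Rep G) (F : E.ι → RR G K X L) (a : E.ι) (m : X) :
    ev1 K ((ind E F a).coeff m) = (F a).coeff m := by
  apply KO_ext
  intro k
  rw [ev1_apply, ind_coeff]
  show ∑ b, algebraMap ℂ K (E.ρ 1 a b) * ((F b).coeff m).1 k = _
  rw [map_one]
  rw [Finset.sum_eq_single a]
  · rw [Matrix.one_apply_eq, map_one, one_mul]
  · intro b _ hb
    rw [Matrix.one_apply_ne (Ne.symm hb), map_zero, zero_mul]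
  · intro h
    exact absurd (Finset.mem_univ a) h

theorem c10a_ev1' (E : Rep G) (F : E.ι → RR G K X L) (a : E.ι) (m : X) :
    ev1 K ((ind' E F a).coeff m) = (F a).coeff m := by
  apply KO_ext
  intro k
  rw [ev1_apply, ind'_coeff]
  show ∑ b, algebraMap ℂ K (E.ρ (1 : G.X)⁻¹ b a) * ((F b).coeff m).1 k = _
  rw [inv_one, map_one]
  rw [Finset.sum_eq_single a]
  · rw [Matrix.one_apply_eq, map_one, one_mul]
  · intro b _ hb
    rw [Matrix.one_apply_ne hb, map_zero, zero_mul]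
  · intro h
    exact absurd (Finset.mem_univ a) h

theorem c10a_smul (c : ℂ) (F : (G.pow L).KO K) (k : L → G.X) : (c • F).1 k = algebraMap ℂ K c * F.1 k := by
  rw [← Algebra.smul_def]
  rfl

theorem c10a_coeff_smul (c : ℂ) (F : RR G K X L) (m : X) : (c • F).coeff m = c • F.coeff m := rfl

theorem c10a_pt (x : G.X) (k : Option L → G.X) : ((pt1 x)⁻¹ * k : Option L → G.X) none = x⁻¹ * k none := rfl

theorem c10a_pt' (x : G.X) (k : Option L → G.X) : ((pt1 x)⁻¹ * k : Option L → G.X) ∘ some = k ∘ some := by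
  funext l
  show (1 : G.X)⁻¹ * k (some l) = k (some l)
  rw [inv_one, one_mul]

theorem c10a_act (P : RP Q g (optS true ε) B) (E : Rep G) (φ : F1 Q g ε E) (x : G.X) (a : E.ι) :
    P.act (pt1 x) (P.indB E a φ) = ∑ b, E.ρ x⁻¹ a b • P.indB E b φ := by
  apply P.inj
  rw [P.i_act, P.i_indB, map_sum]
  apply RR_ext
  intro m k
  rw [gact_apply, ind_coeff, AddMonoidAlgebra.coeff_sum, Finsupp.finsetSum_apply, KO_sum]
  have h1 : ∀ b, ((P.i (E.ρ x⁻¹ a b • P.indB E b φ)).coeff m).1 k =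
      algebraMap ℂ K (E.ρ x⁻¹ a b) * ∑ c, algebraMap ℂ K (E.ρ (k none) b c) * ((φ.1 c).coeff m).1 (k ∘ some) := by
    intro b
    rw [map_smul, P.i_indB, c10a_coeff_smul, c10a_smul, ind_coeff]
  rw [Finset.sum_congr rfl fun b _ => h1 b]
  simp only [Finset.mul_sum]
  rw [Finset.sum_comm]
  refine Finset.sum_congr rfl fun c _ => ?_
  have h2 := c10a_pt x k
  have h3 := c10a_pt' x k
  rw [h2, h3, map_mul, Matrix.mul_apply, map_sum, Finset.sum_mul]
  refine Finset.sum_congr rfl fun b _ => ?_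
  rw [map_mul, mul_assoc]

theorem c10a_act' (P : RP Q g (optS false ε) B) (E : Rep G) (φ : F1' Q g ε E) (x : G.X) (a : E.ι) :
    P.act (pt1 x) (P.indB' E a φ) = ∑ b, E.ρ x b a • P.indB' E b φ := by
  apply P.inj
  rw [P.i_act, P.i_indB', map_sum]
  apply RR_ext
  intro m k
  rw [gact_apply, ind'_coeff, AddMonoidAlgebra.coeff_sum, Finsupp.finsetSum_apply, KO_sum]
  have h1 : ∀ b, ((P.i (E.ρ x b a • P.indB' E b φ)).coeff m).1 k =
      algebraMap ℂ K (E.ρ x b a) * ∑ c, algebraMap ℂ K (E.ρ (k none)⁻¹ c b) * ((φ.1 c).coeff m).1 (k ∘ some) := by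
    intro b
    rw [map_smul, P.i_indB', c10a_coeff_smul, c10a_smul, ind'_coeff]
  rw [Finset.sum_congr rfl fun b _ => h1 b]
  simp only [Finset.mul_sum]
  rw [Finset.sum_comm]
  refine Finset.sum_congr rfl fun c _ => ?_
  have h2 := c10a_pt x k
  have h3 := c10a_pt' x k
  have h4 : (x⁻¹ * k none)⁻¹ = (k none)⁻¹ * x := by
    rw [mul_inv_rev, inv_inv]
  rw [h2, h3, h4, map_mul, Matrix.mul_apply, map_sum, Finset.sum_mul]
  refine Finset.sum_congr rfl fun b _ => ?_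
  rw [map_mul]
  ring

/-- [C10a] PROOF. `dot_apply`, `map_sum`, `AddMonoidAlgebra.coeff_sum`, `Ph2_tmul`, `P.i_indB`, `P'.i_indB'`; `ev1 K ((ind E F a).coeff m) = (F a).coeff m` (`KO_ext`, `ind_coeff` at `optP 1 k`: `E.ρ 1 = 1`), the same for `ind'` (`inv_one`). -/
theorem Ph2_dot (P : RP Q g (optS true ε) B) (P' : RP Q g' (optS false ε') B') (E : Rep G) (φ : F1 Q g ε E)
    (φ' : F1' Q g' ε' E) (m m' : X) :
    (Ph2 P P' (dot P P' E φ φ')).coeff (m, m') =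
      ∑ a, pb K Sum.inl ((φ.1 a).coeff m) * pb K Sum.inr ((φ'.1 a).coeff m') := by
  rw [dot_apply, map_sum, AddMonoidAlgebra.coeff_sum, Finsupp.finsetSum_apply]
  refine Finset.sum_congr rfl fun a _ => ?_
  rw [Ph2_tmul, P.i_indB, P'.i_indB', c10a_ev1, c10a_ev1']

/-- [C10a2] PROOF. `Ph2_dot`, pointwise; `orthoK hT E h` for the vectors `fun a => ((φ.1 a).coeff m).1 (k ∘ inl)` (`φ.2.slot`: `mulVec`) and `fun a => ((φ'.1 a).coeff m').1 (k ∘ inr)` (`φ'.2.slot`: `vecMul`). -/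
theorem dot_off (hT : TQ Q) (P : RP Q g (optS true ε) B) (P' : RP Q g' (optS false ε') B') (E : Rep G)
    (φ : F1 Q g ε E) (φ' : F1' Q g' ε' E) {m m' : X} (h : m ≠ m') :
    (Ph2 P P' (dot P P' E φ φ')).coeff (m, m') = 0 := by
  rw [Ph2_dot]
  apply KO_ext
  intro k
  rw [KO_sum, KO_zero]
  have h1 : (Q.sE E).mulVec (fun a => ((φ.1 a).coeff m).1 (k ∘ Sum.inl)) =
      Q.val m • (fun a => ((φ.1 a).coeff m).1 (k ∘ Sum.inl)) := by
    funext a
    have h3 := congrArg (fun F => F.1 (k ∘ Sum.inl)) (φ.2.slot m a)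
    simp only [KO_sum, KO_smul] at h3
    exact h3
  have h2 : (Q.sE E).vecMul (fun a => ((φ'.1 a).coeff m').1 (k ∘ Sum.inr)) =
      Q.val m' • (fun a => ((φ'.1 a).coeff m').1 (k ∘ Sum.inr)) := by
    funext a
    have h3 := congrArg (fun F => F.1 (k ∘ Sum.inr)) (φ'.2.slot m' a)
    simp only [KO_sum, KO_smul] at h3
    rw [Pi.smul_apply, smul_eq_mul, ← h3]
    show ∑ b, _ * _ = _
    refine Finset.sum_congr rfl fun b _ => ?_
    rw [mul_comm]
  exact orthoK hT E h h1 h2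

/-- [C10a3] PROOF. `P.act (pt1 x) (P.indB E a φ) = ∑ b, E.ρ x⁻¹ a b • P.indB E b φ` (`P.inj`, `P.i_act`, `gact_apply`, `ind_coeff`, `E.ρ (x⁻¹ * k) = E.ρ x⁻¹ * E.ρ k`) and `P'.act (pt1 x) (P'.indB' E a φ') = ∑ b, E.ρ x b a • P'.indB' E b φ'`; so `actT x (dot ..) = ∑ a b c, (E.ρ x⁻¹ a b * E.ρ x c a) • u b ⊗ u' c` and `∑ a, E.ρ x c a * E.ρ x⁻¹ a b = δ` (`Rep.mul_inv`). -/
theorem dot_inv (P : RP Q g (optS true ε) B) (P' : RP Q g' (optS false ε') B') (E : Rep G)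
    (φ : F1 Q g ε E) (φ' : F1' Q g' ε' E) (x : G.X) :
    actT P P' x (dot P P' E φ φ') = dot P P' E φ φ' := by
  rw [dot_apply, map_sum]
  have h1 : ∀ a, actT P P' x (P.indB E a φ ⊗ₜ[ℂ] P'.indB' E a φ') =
      ∑ b, ∑ c, (E.ρ x c a * E.ρ x⁻¹ a b) • (P.indB E b φ ⊗ₜ[ℂ] P'.indB' E c φ') := by
    intro a
    rw [actT_tmul, c10a_act, c10a_act', TensorProduct.sum_tmul]
    refine Finset.sum_congr rfl fun b _ => ?_
    rw [TensorProduct.tmul_sum]
    refine Finset.sum_congr rfl fun c _ => ?_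
    rw [TensorProduct.tmul_smul, TensorProduct.smul_tmul', smul_smul]
    exact (TensorProduct.smul_tmul' _ _ _).symm
  rw [Finset.sum_congr rfl fun a _ => h1 a, Finset.sum_comm]
  refine Finset.sum_congr rfl fun b _ => ?_
  rw [Finset.sum_comm]
  have h2 : ∀ c, ∑ a, (E.ρ x c a * E.ρ x⁻¹ a b) • (P.indB E b φ ⊗ₜ[ℂ] P'.indB' E c φ') =
      (if c = b then (1 : ℂ) else 0) • (P.indB E b φ ⊗ₜ[ℂ] P'.indB' E c φ') := by
    intro c
    rw [← Finset.sum_smul, Rep.mul_inv]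
  rw [Finset.sum_congr rfl fun c _ => h2 c, Finset.sum_eq_single b]
  · rw [if_pos rfl, one_smul]
  · intro c _ hc
    rw [if_neg hc, zero_smul]
  · intro h
    exact absurd (Finset.mem_univ b) h

end

end Pool.Agent.MTF
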