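import Pool.Agent.MTF.C5

/-!
# MTF : part C, the actions are rational
-/

set_option linter.unusedSectionVars false

namespace Pool.Agent.MTF

open AffGrp TensorProduct

section
variable {G : AffGrp} {K W X : Type} [Field K] [Algebra ℂ K] [Group W] [Fintype W]
  [MulSemiringAction W K] [SMulCommClass W ℂ K] [AddCommGroup X] [DistribMulAction W X]
variable {L : Type} [Finite L] [DecidableEq L] {Q : TQD G K W X}
variable {L' : Type} [Finite L'] [DecidableEq L'] {g g' : ℕ} {ε : L → Bool} {ε' : L' → Bool}
  {B B' : Type} [CommRing B] [Algebra ℂ B] [CommRing B'] [Algebra ℂ B']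

/-- the action of `G` on families through the leg `none` -/
noncomputable def c9b_T1 (G : AffGrp) (K X L : Type) [Field K] [Algebra ℂ K] [AddCommGroup X] [Finite L] [DecidableEq L] :
    G.X →* Module.End ℂ (RR G K X (Option L)) where
  toFun x := ((gact (G := G) (K := K) (X := X) (pt1 x : Option L → G.X)).restrictScalars ℂ).toLinearMap
  map_one' := LinearMap.ext fun F => by
    show gact (pt1 1) F = F
    rw [pt1_one, gact_one]
  map_mul' x y := LinearMap.ext fun F => by
    show gact (pt1 (x * y)) F = gact (pt1 x) (gact (pt1 y) F)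
    rw [pt1_mul, gact_mul]

/-- the action of `G` on families through the legs `none` and `some none` -/
noncomputable def c9b_T2 (G : AffGrp) (K X L : Type) [Field K] [Algebra ℂ K] [AddCommGroup X] [Finite L] [DecidableEq L] :
    G.X →* Module.End ℂ (RR G K X (Option (Option L))) where
  toFun x := ((gact (G := G) (K := K) (X := X) (pt2 x : Option (Option L) → G.X)).restrictScalars ℂ).toLinearMap
  map_one' := LinearMap.ext fun F => by
    show gact (pt2 1) F = F
    rw [pt2_one, gact_one]
  map_mul' x y := LinearMap.ext fun F => by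
    show gact (pt2 (x * y)) F = gact (pt2 x) (gact (pt2 y) F)
    rw [pt2_mul, gact_mul]

theorem c9b_rat1 (G : AffGrp) (K X L : Type) [Field K] [Algebra ℂ K] [AddCommGroup X] [Finite L] [DecidableEq L] :
    RatAct (V := RR G K X (Option L)) (c9b_T1 G K X L) := by
  refine rat_RR (fun x => (pt1 x : Option L → G.X)) ?_ ?_ ?_
  · intro f hf
    refine pow_mem G (H := G) (fun x => (pt1 x : Option L → G.X)) (fun o f hf => ?_) hf
    cases o with
    | none => exact hf
    | some l => exact const_mem G (f 1)
  · intro x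
    funext o
    cases o with
    | none => rfl
    | some l => exact (inv_one (G := G.X)).symm
  · intro x F m
    exact coeff_gact (pt1 x : Option L → G.X) F m

theorem c9b_rat2 (G : AffGrp) (K X L : Type) [Field K] [Algebra ℂ K] [AddCommGroup X] [Finite L] [DecidableEq L] :
    RatAct (V := RR G K X (Option (Option L))) (c9b_T2 G K X L) := by
  refine rat_RR (fun x => (pt2 x : Option (Option L) → G.X)) ?_ ?_ ?_
  · intro f hf
    refine pow_mem G (H := G) (fun x => (pt2 x : Option (Option L) → G.X)) (fun o f hf => ?_) hf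
    cases o with
    | none => exact hf
    | some o =>
      cases o with
      | none => exact hf
      | some l => exact const_mem G (f 1)
  · intro x
    funext o
    cases o with
    | none => rfl
    | some o =>
      cases o with
      | none => rfl
      | some l => exact (inv_one (G := G.X)).symm
  · intro x F m
    exact coeff_gact (pt2 x : Option (Option L) → G.X) F m

/-- [C9b1] PROOF. `rat_inj` with `i := P.i.toLinearMap` (`P.inj`, `P.i_act`) and the action `T x := (gact (pt1 x))` of `G` on `RR G K X (Option L)` (as a monoid homomorphism to `Module.End ℂ`: `pt1_one`, `pt1_mul`, `gact_one`, `gact_mul`), rational by `rat_RR` with `j := pt1`: `hj` by `pow_mem` (coordinates of `pt1 x`: `x` or `1`; `const_mem`), `hinv`: `pt1 x⁻¹ = (pt1 x)⁻¹`, `hT`: `coeff_gact`, `tr`. -/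
theorem rat_act1 {b : Bool} (P : RP Q g (optS b ε) B) : RatAct P.act1 :=
  rat_inj (V := RR G K X (Option L)) (c9b_rat1 G K X L) P.i.toLinearMap P.inj
    fun x v => P.i_act (pt1 x) v

/-- [C9b2] PROOF. `rat_tensor` and `rat_act1` twice (`actT_tmul`). -/
theorem rat_actT (P : RP Q g (optS true ε) B) (P' : RP Q g' (optS false ε') B') : RatAct (actTH P P') :=
  rat_tensor (rat_act1 P) (rat_act1 P') fun _ _ _ => rfl

/-- [C9b3] PROOF. As `rat_act1` with `j := pt2` (`pt2_one`, `pt2_mul`). -/
theorem rat_actD (P : RP Q g (optS true (optS false ε)) B) : RatAct (actDH P) :=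
  rat_inj (V := RR G K X (Option (Option L))) (c9b_rat2 G K X L) P.i.toLinearMap P.inj
    fun x v => P.i_act (pt2 x) v

/-- [C9b4] PROOF. `hT.cr` gives `I`; `reynolds` for `actTH P P'` and `N := (IT hT P P').restrictScalars ℂ`. -/
theorem invT (hT : TQ Q) (P : RP Q g (optS true ε) B) (P' : RP Q g' (optS false ε') B') (z : B ⊗[ℂ] B')
    (hz : ∀ x, actT P P' x z - z ∈ IT hT P P') :
    ∃ z₀, (∀ x, actT P P' x z₀ = z₀) ∧ z - z₀ ∈ IT hT P P' := by
  obtain ⟨I, h1, h2, -⟩ := hT.cr
  obtain ⟨z₀, h3, h4⟩ := reynolds h1 h2 (rat_actT P P') ((IT hT P P').restrictScalars ℂ) z hz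
  exact ⟨z₀, h3, h4⟩

/-- [C9b5] PROOF. `hT.cr`, `reynolds` for `actDH P` and `N := (ID hT P).restrictScalars ℂ`. -/
theorem invD (hT : TQ Q) (P : RP Q g (optS true (optS false ε)) B) (z : B)
    (hz : ∀ x, P.act (pt2 x) z - z ∈ ID hT P) :
    ∃ z₀, (∀ x, P.act (pt2 x) z₀ = z₀) ∧ z - z₀ ∈ ID hT P := by
  obtain ⟨I, h1, h2, -⟩ := hT.cr
  obtain ⟨z₀, h3, h4⟩ := reynolds h1 h2 (rat_actD P) ((ID hT P).restrictScalars ℂ) z hz
  exact ⟨z₀, h3, h4⟩

end

end Pool.Agent.MTF
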