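import Pool.Agent.MTF.C3

/-!
# MTF : part C, families of vectors without legs
-/

set_option linter.unusedSectionVars false

namespace Pool.Agent.MTF

open AffGrp TensorProduct

section
variable {G : AffGrp} {K W X : Type} [Field K] [Algebra ℂ K] [Group W] [Fintype W]
  [MulSemiringAction W K] [SMulCommClass W ℂ K] [AddCommGroup X] [DistribMulAction W X]
variable {L : Type} [Finite L] [DecidableEq L] {Q : TQD G K W X}

/-- the coefficients of the family -/
noncomputable def c9i_pr (Q : TQD G K W X) (E : Rep G) (Ω : Finset X) (m : X) : Matrix E.ι E.ι K :=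
  open Classical in Polynomial.aeval (Q.sE E) (Lagrange.basis Ω (fun x => Q.val x) m)

omit [SMulCommClass W ℂ K] [Fintype W] [DistribMulAction W X] in
theorem c9i_basis_mul (Q : TQD G K W X) [DecidableEq X] (Ω : Finset X) {m : X} (hm : m ∈ Ω) :
    ∃ c : K, Lagrange.basis Ω (fun x => Q.val x) m * (Polynomial.X - Polynomial.C (Q.val m)) =
      Polynomial.C c * ∏ j ∈ Ω, (Polynomial.X - Polynomial.C (Q.val j)) := by
  refine ⟨∏ j ∈ Ω.erase m, (Q.val m - Q.val j)⁻¹, ?_⟩
  unfold Lagrange.basis Lagrange.basisDivisor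
  rw [Finset.prod_mul_distrib, map_prod, mul_assoc, Finset.prod_erase_mul _ _ hm]

omit [SMulCommClass W ℂ K] [Fintype W] [DistribMulAction W X] in
theorem c9i_pr_mul (Q : TQD G K W X) (E : Rep G) (Ω : Finset X)
    (hΩ : Polynomial.aeval (Q.sE E) (∏ m ∈ Ω, (Polynomial.X - Polynomial.C (Q.val m))) = 0)
    {m : X} (hm : m ∈ Ω) : c9i_pr Q E Ω m * Q.sE E = Q.val m • c9i_pr Q E Ω m := by
  classical
  obtain ⟨c, hc⟩ := c9i_basis_mul Q Ω hm
  have h1 := congrArg (Polynomial.aeval (Q.sE E)) hc
  rw [map_mul, map_mul, hΩ, mul_zero, map_sub, Polynomial.aeval_X, Polynomial.aeval_C, mul_sub,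
    sub_eq_zero] at h1
  unfold c9i_pr
  have h2 : Polynomial.aeval (Q.sE E) (Lagrange.basis Ω (fun x => Q.val x) m) * Q.sE E =
      Polynomial.aeval (Q.sE E) (Lagrange.basis Ω (fun x => Q.val x) m) *
        (algebraMap K (Matrix E.ι E.ι K)) (Q.val m) := h1
  have h3 : Polynomial.aeval (Q.sE E) (Lagrange.basis Ω (fun x => Q.val x) m) *
        (algebraMap K (Matrix E.ι E.ι K)) (Q.val m) =
      Q.val m • Polynomial.aeval (Q.sE E) (Lagrange.basis Ω (fun x => Q.val x) m) := by
    rw [← Algebra.commutes, ← Algebra.smul_def]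
  convert h2.trans h3

omit [Fintype W] in
theorem c9i_smul_alg (w : W) (z : ℂ) : w • algebraMap ℂ K z = algebraMap ℂ K z := by
  have := (MulSemiringAction.toAlgHom ℂ K w).commutes z
  exact this

theorem c9i_sE_w (hT : TQ Q) (E : Rep G) (w : W) :
    (MulSemiringAction.toRingHom W K w).mapMatrix (Q.sE E) = Q.sE E := by
  ext a b
  change w • (Q.sE E a b) = Q.sE E a b
  unfold TQD.sE
  rw [Finset.smul_sum]
  refine Finset.sum_congr rfl fun j _ => ?_
  rw [smul_mul', hT.c_w, c9i_smul_alg]

theorem c9i_pr_w (hT : TQ Q) (E : Rep G) (Ω : Finset X) (hst : ∀ (w : W), ∀ m ∈ Ω, w • m ∈ Ω)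
    (w : W) (m : X) (a b : E.ι) :
    w • (c9i_pr Q E Ω m a b) = c9i_pr Q E Ω (w • m) a b := by
  classical
  have h1 : (MulSemiringAction.toRingHom W K w).mapMatrix (c9i_pr Q E Ω m) =
      c9i_pr Q E Ω (w • m) := by
    unfold c9i_pr
    have h2 : ∀ p : Polynomial K, (MulSemiringAction.toRingHom W K w).mapMatrix
        (Polynomial.aeval (Q.sE E) p) =
        Polynomial.aeval (Q.sE E) (p.map (MulSemiringAction.toRingHom W K w)) := by
      intro p
      rw [Polynomial.aeval_def, Polynomial.hom_eval₂, c9i_sE_w hT, Polynomial.aeval_def,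
        Polynomial.eval₂_map]
      congr 1
      ext x i j
      change w • (algebraMap K (Matrix E.ι E.ι K) x i j) = algebraMap K (Matrix E.ι E.ι K) (w • x) i j
      rw [Matrix.algebraMap_matrix_apply, Matrix.algebraMap_matrix_apply]
      by_cases hij : i = j
      · simp [hij]
      · simp [hij]
    rw [h2]
    congr 1
    unfold Lagrange.basis Lagrange.basisDivisor
    rw [Polynomial.map_prod]
    refine Finset.prod_bij (fun j _ => w • j) ?_ ?_ ?_ ?_
    · intro j hj
      rw [Finset.mem_erase] at hj ⊢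
      refine ⟨fun h => hj.1 (smul_left_cancel w h), hst w j hj.2⟩
    · intro j _ j' _ h
      exact smul_left_cancel w h
    · intro j hj
      rw [Finset.mem_erase] at hj
      refine ⟨w⁻¹ • j, ?_, smul_inv_smul w j⟩
      rw [Finset.mem_erase]
      refine ⟨fun h => hj.1 ?_, hst w⁻¹ j hj.2⟩
      rw [← h, smul_inv_smul]
    · intro j _
      rw [Polynomial.map_mul, Polynomial.map_sub, Polynomial.map_X, Polynomial.map_C,
        Polynomial.map_C]
      have e1 : (MulSemiringAction.toRingHom W K w) (Q.val j) = Q.val (w • j) := (hT.val_w w j).symm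
      have e2 : (MulSemiringAction.toRingHom W K w) ((Q.val m - Q.val j)⁻¹) =
          (Q.val (w • m) - Q.val (w • j))⁻¹ := by
        rw [map_inv₀, map_sub, e1]
        congr 2
        exact (hT.val_w w m).symm
      rw [e1, e2]
  have h3 := congrFun (congrFun h1 a) b
  exact h3

omit [DecidableEq L] [Group W] [Fintype W] [MulSemiringAction W K] [SMulCommClass W ℂ K]
  [DistribMulAction W X] in
theorem c9i_tot_single (m : X) (a : (G.pow L).KO K) :
    tot (AddMonoidAlgebra.single m a : RR G K X L) = a := by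
  rw [tot_eq]
  simp [totH]

/-- [C9i] PROOF. `hT.dec E` gives `Ω`; enlarge it to a finite `W`-stable set `Ω` (the union of the `w • Ω`; the product is divisible by the old one, so it still annihilates `Q.sE E`). For `m ∈ Ω` let `pr m := aeval (Q.sE E) (Lagrange.basis Ω Q.val m)`, i. e. `∏ m' ∈ Ω \ {m}, (Q.val m - Q.val m')⁻¹ • (Q.sE E - Q.val m')` (`hT.val_inj`). (i) `∑ m ∈ Ω, pr m = 1` (`Lagrange.sum_basis`, `Ω` nonempty; if `Ω` is empty then `1 = 0` as matrices, `E.ι` is empty: trivial). (ii) `pr m * Q.sE E = Q.val m • pr m` (`(X - C (val m)) * basis m` is a multiple of the annihilating product).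
(iii) `w • (pr m)` (entrywise) `= pr (w • m)` (`hT.c_w`: the entries of `Q.sE E` are invariant; `hT.val_w`; `Ω` is `W`-stable). `(φ a).coeff m := algebraMap K _ (∑ b, r b * pr m b a)` for `m ∈ Ω`, `0` otherwise. `fam`: `wt` is vacuous (`L` is empty), `inv` by (iii) and `hw`, `reg0`: `tot (φ a) = algebraMap (r a)` by (i), `regS` is vacuous. `slot`: (ii). -/
theorem vec1' (hT : TQ Q) [IsEmpty L] (ε : L → Bool) (E : Rep G) (r : E.ι → K) (hr : ∀ a, r a ∈ Q.A)
    (hw : ∀ (w : W) a, w • r a = r a) :
    ∃ φ : F1' Q 0 ε E, ∀ a, tot (φ.1 a) = algebraMap K ((G.pow L).KO K) (r a) := by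
  classical
  obtain ⟨Ω₀, hΩ₀⟩ := hT.dec E
  -- a stable set
  let Ω : Finset X := Finset.univ.biUnion (fun w : W => Ω₀.image (fun m => w • m))
  have hmemΩ : ∀ x, x ∈ Ω ↔ ∃ w : W, ∃ m ∈ Ω₀, w • m = x := by
    intro x
    simp only [Ω, Finset.mem_biUnion, Finset.mem_univ, true_and, Finset.mem_image]
  have hst : ∀ (w : W), ∀ m ∈ Ω, w • m ∈ Ω := by
    intro w m hm
    obtain ⟨w', m', hm', rfl⟩ := (hmemΩ m).1 hm
    exact (hmemΩ _).2 ⟨w * w', m', hm', mul_smul w w' m'⟩
  have hst' : ∀ (w : W) (m : X), w • m ∈ Ω ↔ m ∈ Ω := by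
    intro w m
    constructor
    · intro h
      have := hst w⁻¹ _ h
      rwa [inv_smul_smul] at this
    · exact hst w m
  have hsub : Ω₀ ⊆ Ω := by
    intro m hm
    exact (hmemΩ m).2 ⟨1, m, hm, one_smul W m⟩
  have hΩ : Polynomial.aeval (Q.sE E) (∏ m ∈ Ω, (Polynomial.X - Polynomial.C (Q.val m))) = 0 := by
    rw [← Finset.prod_sdiff hsub, map_mul, hΩ₀, mul_zero]
  by_cases hne : Ω.Nonempty
  · have hsum : ∑ m ∈ Ω, c9i_pr Q E Ω m = 1 := by
      have h1 := Lagrange.sum_basis (v := fun x => Q.val x) (s := Ω)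
        (fun x _ y _ h => hT.val_inj h) hne
      have h2 := congrArg (Polynomial.aeval (Q.sE E)) h1
      rw [map_sum, map_one] at h2
      rw [← h2]
      unfold c9i_pr
      refine Finset.sum_congr rfl fun m _ => ?_
      congr!
    let φ : E.ι → RR G K X L := fun a => ∑ m ∈ Ω, AddMonoidAlgebra.single m
      (algebraMap K ((G.pow L).KO K) (∑ b, r b * c9i_pr Q E Ω m b a))
    have hco : ∀ a m, (φ a).coeff m = if m ∈ Ω then
        algebraMap K ((G.pow L).KO K) (∑ b, r b * c9i_pr Q E Ω m b a) else 0 := by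
      intro a m
      simp only [φ]
      rw [AddMonoidAlgebra.coeff_sum, Finsupp.finsetSum_apply]
      simp only [AddMonoidAlgebra.coeff_single, Finsupp.single_apply]
      rw [Finset.sum_ite_eq']
    have htot : ∀ a, tot (φ a) = algebraMap K ((G.pow L).KO K) (r a) := by
      intro a
      simp only [φ]
      rw [tot_eq, map_sum]
      simp only [← tot_eq, c9i_tot_single]
      rw [← map_sum]
      congr 1
      rw [Finset.sum_comm]
      simp only [← Finset.mul_sum]
      have h3 : ∀ b, ∑ m ∈ Ω, c9i_pr Q E Ω m b a = (1 : Matrix E.ι E.ι K) b a := by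
        intro b
        rw [← hsum, Matrix.sum_apply]
      simp only [h3, Matrix.one_apply]
      simp
    refine ⟨⟨φ, ⟨fun a => ⟨fun m l => isEmptyElim l, ?_, ?_, ?_⟩, ?_⟩⟩, htot⟩
    · intro w m
      rw [hco, hco]
      by_cases hm : m ∈ Ω
      · rw [if_pos hm, if_pos ((hst' w m).2 hm)]
        apply KO_ext
        intro x
        rw [wO_apply]
        change w • (∑ b, r b * c9i_pr Q E Ω m b a) = ∑ b, r b * c9i_pr Q E Ω (w • m) b a
        rw [Finset.smul_sum]
        refine Finset.sum_congr rfl fun b _ => ?_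
        rw [smul_mul', hw, c9i_pr_w hT E Ω hst]
      · rw [if_neg hm, if_neg (fun h => hm ((hst' w m).1 h)), map_zero]
    · intro _ x
      rw [htot]
      exact hr a
    · intro m k h
      exact absurd h (lt_irrefl 0)
    · intro m a
      simp only [hco]
      by_cases hm : m ∈ Ω
      · simp only [if_pos hm]
        have h1 := c9i_pr_mul Q E Ω hΩ hm
        have h2 : ∑ b, Q.sE E b a * (∑ c, r c * c9i_pr Q E Ω m c b) =
            Q.val m * ∑ c, r c * c9i_pr Q E Ω m c a := by
          have h3 : ∀ c, ∑ b, c9i_pr Q E Ω m c b * Q.sE E b a = Q.val m * c9i_pr Q E Ω m c a := by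
            intro c
            have h4 := congrFun (congrFun h1 c) a
            rw [Matrix.mul_apply] at h4
            exact h4
          simp only [Finset.mul_sum]
          rw [Finset.sum_comm]
          refine Finset.sum_congr rfl fun c _ => ?_
          have h5 := h3 c
          calc ∑ b, Q.sE E b a * (r c * c9i_pr Q E Ω m c b) =
              r c * ∑ b, c9i_pr Q E Ω m c b * Q.sE E b a := by
                rw [Finset.mul_sum]
                refine Finset.sum_congr rfl fun b _ => by ring
            _ = Q.val m * (r c * c9i_pr Q E Ω m c a) := by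
                rw [h5]
                ring
        simp only [Algebra.smul_def, ← map_mul, ← map_sum]
        rw [h2]
      · simp only [if_neg hm, smul_zero, Finset.sum_const_zero]
  · have hemp : IsEmpty E.ι := by
      rw [Finset.not_nonempty_iff_eq_empty] at hne
      rw [hne, Finset.prod_empty, map_one] at hΩ
      refine ⟨fun a => ?_⟩
      have := congrFun (congrFun hΩ a) a
      rw [Matrix.one_apply_eq] at this
      exact one_ne_zero this
    exact ⟨0, fun a => isEmptyElim a⟩

end

end Pool.Agent.MTF
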