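import Pool.Agent.MTF.C9a
import Pool.Agent.MTF.C9b
import Pool.Agent.MTF.C9i
import Pool.Agent.MTF.C10a
import Pool.Agent.MTF.C1

/-!
# MTF : part C, joining: surjectivity for the sphere
-/

set_option linter.unusedSectionVars false

namespace Pool.Agent.MTF

open AffGrp TensorProduct

section
variable {G : AffGrp} {K W X : Type} [Field K] [Algebra ℂ K] [Group W] [Fintype W]
  [MulSemiringAction W K] [SMulCommClass W ℂ K] [AddCommGroup X] [DistribMulAction W X]
variable {L : Type} [Finite L] [DecidableEq L] {Q : TQD G K W X}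
variable {L' : Type} [Finite L'] [DecidableEq L'] {ε : L → Bool} {ε' : L' → Bool}
  {B B' : Type} [CommRing B] [Algebra ℂ B] [CommRing B'] [Algebra ℂ B']

/-- the dual representation -/
def c10f_dual (E : Rep G) : Rep G where
  ι := E.ι
  ρ :=
    { toFun := fun x => (E.ρ x⁻¹).transpose
      map_one' := by rw [inv_one, map_one, Matrix.transpose_one]
      map_mul' := fun x y => by rw [mul_inv_rev, map_mul, Matrix.transpose_mul] }
  mem a b := G.inv_mem _ (E.mem b a)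

theorem c10f_dual_ρ (E : Rep G) (x : G.X) (a b : E.ι) : (c10f_dual E).ρ x a b = E.ρ x⁻¹ b a := rfl

theorem c10f_csmul {H : AffGrp} (c : ℂ) (F : H.KO K) (x : H.X) :
    (c • F).1 x = algebraMap ℂ K c * F.1 x := by
  rw [← Algebra.smul_def]
  rfl

theorem c10f_tot (F : RR G K X L) (s : Finset X) (hs : F.coeff.support ⊆ s) :
    tot F = ∑ n ∈ s, F.coeff n := by
  unfold tot
  exact Finsupp.sum_of_support_subset _ hs _ (fun _ _ => rfl)

/-- [C10f] PROOF. `mem_AG_sph` gives `F' : RR G K X (Option (L ⊕ L'))` in `Fam 0 (optS true _)` with `fm X (ev1 K) F' = C`. Relabel by `e : Option (L ⊕ L') ≃ Option L` (`Equiv.optionCongr (Equiv.equivOfIsEmpty _ _)`, `Fam_pb`): `F := P.el (fm X (pb K e) F') _ : B`. `rep_of (rat_act1 P)` for the single vector `F` gives `E₀`, `b`, `P.act (pt1 x) (b j) = ∑ k, E₀.ρ x k j • b k`, `F = ∑ j, c j • b j`. `E :=` the dual of `E₀` (`E.ρ x j k := E₀.ρ x⁻¹ k j`); `restr P E b` gives `φ` with `φ.1 j = fm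 X (ev1 K) (P.i (b j))`. `vec1' hT ε' E (fun j => algebraMap ℂ K (c j))` gives `φ' : F1' Q 0 ε' E` with `tot (φ'.1 j) = algebraMap (c j)`.
`z := dot P P' E φ φ'` is invariant (`dot_inv`). `dgn (Ph2 z) = C`: at degree `m` (`coeff_dgn`, `Ph2_dot`, all points are equal): `∑ j, (φ j)_m (q) * (φ' j)_m (q') = ∑ j, (φ j)_m (q) * (tot (φ' j)) (q')` (`orthoK` kills `∑ j, (φ j)_m (q) * (φ' j)_n (q')` for `n ≠ m`) `= ∑ j, c j * (P.i (b j))_m (optP 1 q) = (P.i F)_m (optP 1 q) = F'_m (1) = C_m`. -/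
theorem onto1_sph (hT : TQ Q) [IsEmpty L] [IsEmpty L'] (P : RP Q 0 (optS true ε) B) (P' : RP Q 0 (optS false ε') B')
    {C : RR G K X (L ⊕ L')} (hC : C ∈ AG hT 0 (Sum.elim ε ε')) :
    ∃ z, (∀ x, actT P P' x z = z) ∧ dgn _ X (Ph2 P P' z) = C := by
  classical
  have hLL : IsEmpty (L ⊕ L') := inferInstance
  obtain ⟨F', hF', rfl⟩ := (mem_AG_sph hT hLL).1 hC
  let e : Option (L ⊕ L') ≃ Option L := Equiv.optionCongr (Equiv.equivOfIsEmpty (L ⊕ L') L)
  have hFe : Q.Fam 0 (optS true ε) (fm X (pb K e) F') := by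
    refine Fam_pb e ?_ hF'
    intro l
    cases l with
    | none => rfl
    | some l => exact isEmptyElim l
  obtain ⟨E₀, b, _, hact, hspan, _⟩ := rep_of (rat_act1 P) (fun _ : Fin 1 => P.el _ hFe)
  obtain ⟨c, hc⟩ := (Submodule.mem_span_range_iff_exists_fun ℂ).1 (hspan 0)
  obtain ⟨φ, hφ, _⟩ := restr P (c10f_dual E₀) b (fun x j => by
    have h := hact x j
    rw [RP.act1_apply] at h
    rw [h]
    refine Finset.sum_congr rfl fun k _ => ?_
    rw [c10f_dual_ρ, inv_inv])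
  obtain ⟨φ', hφ'⟩ := vec1' hT ε' (c10f_dual E₀) (fun j : E₀.ι => algebraMap ℂ K (c j))
    (fun a => Subalgebra.algebraMap_mem _ _) (fun w a => smul_algebraMap w _)
  refine ⟨dot P P' (c10f_dual E₀) φ φ', dot_inv P P' _ φ φ', ?_⟩
  apply RR_ext
  intro m k
  rw [coeff_dgn, Ph2_dot, coeff_fm, ev1_apply, KO_sum]
  -- orthogonality
  have horth : ∀ n, n ≠ m → ∑ a, ((φ.1 a).coeff m).1 (k ∘ Sum.inl) *
      ((φ'.1 a).coeff n).1 (k ∘ Sum.inr) = 0 := by
    intro n hn
    have h1 := dot_off hT P P' (c10f_dual E₀) φ φ' (m := m) (m' := n) (Ne.symm hn)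
    rw [Ph2_dot] at h1
    have h2 : (∑ a, pb K Sum.inl ((φ.1 a).coeff m) * pb K Sum.inr ((φ'.1 a).coeff n) :
      (G.pow (L ⊕ L')).KO K).1 k = 0 := by
      rw [h1]
      rfl
    rw [KO_sum] at h2
    exact h2
  -- a finite set of degrees
  let s : Finset X := insert m (Finset.univ.biUnion (fun a : (c10f_dual E₀).ι => (φ'.1 a).coeff.support))
  have hs : ∀ a, (φ'.1 a).coeff.support ⊆ s := by
    intro a x hx
    exact Finset.mem_insert_of_mem (Finset.mem_biUnion.2 ⟨a, Finset.mem_univ a, hx⟩)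
  have hms : m ∈ s := Finset.mem_insert_self _ _
  have h1 : ∑ a, ((φ.1 a).coeff m).1 (k ∘ Sum.inl) * ((φ'.1 a).coeff m).1 (k ∘ Sum.inr) =
      ∑ a, ((φ.1 a).coeff m).1 (k ∘ Sum.inl) * algebraMap ℂ K (c a) := by
    have h2 : ∀ a, algebraMap ℂ K (c a) = ∑ n ∈ s, ((φ'.1 a).coeff n).1 (k ∘ Sum.inr) := by
      intro a
      have h3 := hφ' a
      rw [c10f_tot _ s (hs a)] at h3
      have h4 : (∑ n ∈ s, (φ'.1 a).coeff n : (G.pow L').KO K).1 (k ∘ Sum.inr) =
          algebraMap ℂ K (c a) := by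
        rw [h3]
        rfl
      rw [← h4, KO_sum]
    have h5 : ∑ a, ((φ.1 a).coeff m).1 (k ∘ Sum.inl) * algebraMap ℂ K (c a) =
        ∑ n ∈ s, ∑ a, ((φ.1 a).coeff m).1 (k ∘ Sum.inl) * ((φ'.1 a).coeff n).1 (k ∘ Sum.inr) := by
      rw [Finset.sum_comm]
      refine Finset.sum_congr rfl fun a _ => ?_
      rw [h2 a, Finset.mul_sum]
    rw [h5]
    exact (Finset.sum_eq_single m (fun n _ hn => horth n hn) (fun h => absurd hms h)).symm
  have hPi : P.i (P.el _ hFe) = fm X (pb K e) F' := P.i_el _ hFe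
  have h6 : ∑ a, ((φ.1 a).coeff m).1 (k ∘ Sum.inl) * algebraMap ℂ K (c a) =
      ((P.i (P.el _ hFe)).coeff m).1 (optP 1 (k ∘ Sum.inl)) := by
    have h7 : P.i (P.el _ hFe) = ∑ a, c a • P.i (b a) := by
      have h8 : P.el (fm X (pb K e) F') hFe = ∑ a, c a • b a := hc.symm
      rw [h8, map_sum P.i]
      refine Finset.sum_congr rfl fun a _ => map_smul P.i _ _
    rw [h7, AddMonoidAlgebra.coeff_sum, Finsupp.finsetSum_apply, KO_sum]
    refine Finset.sum_congr rfl fun a _ => ?_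
    rw [hφ a, coeff_fm, ev1_apply, AddMonoidAlgebra.coeff_smul_apply, c10f_csmul, mul_comm]
  have h9 : ((P.i (P.el _ hFe)).coeff m).1 (optP 1 (k ∘ Sum.inl)) = (F'.coeff m).1 (optP 1 k) := by
    rw [hPi, coeff_fm, pb_apply]
    refine congrArg (F'.coeff m).1 (funext fun o => ?_)
    cases o with
    | none => rfl
    | some l => exact isEmptyElim l
  rw [← h9, ← h6, ← h1]
  rfl

end

end Pool.Agent.MTF
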