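import Pool.Agent.MTF.C2e

/-!
# MTF : part C, moment maps
-/

set_option linter.unusedSectionVars false

namespace Pool.Agent.MTF

open AffGrp

section
variable {G : AffGrp} {K W X : Type} [Field K] [Algebra ℂ K] [Group W] [Fintype W]
  [MulSemiringAction W K] [SMulCommClass W ℂ K] [AddCommGroup X] [DistribMulAction W X]
variable {L : Type} [Finite L] [DecidableEq L] {Q : TQD G K W X}

/-- [C2f] PROOF. Degree `0` only: `wt`: `s_momO`, `val 0 = 0`. `inv`: `momO_apply`, `hT.c_w`, `smul_algebraMap`; `w • m = 0 ↔ m = 0`. `reg0`: `tot` of `single 0 a` is `a` (`tot_eq`, `totH` unfolds to `lift`, `lift_single`). `regS`: `hT.Eu_zero`. `hT.c_mem` for `Reg`. -/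
theorem Fam_mom (hT : TQ Q) (g : ℕ) (ε : L → Bool) (l : L) (lam : Module.Dual ℂ G.Lie) :
    Q.Fam g ε (momF Q l lam) := by
  classical
  have hc : ∀ m, (momF Q l lam).coeff m = if m = 0 then momO Q l lam else 0 := by
    intro m
    rw [momF_apply, AddMonoidAlgebra.coeff_single, Finsupp.single_apply]
    simp only [eq_comm]
  have hreg : Q.Reg (momO Q l lam) := by
    intro k
    rw [momO_apply]
    exact Subalgebra.sum_mem _ fun j _ =>
      Subalgebra.mul_mem _ (hT.c_mem j) (Subalgebra.algebraMap_mem _ _)
  refine ⟨?_, ?_, ?_, ?_⟩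
  · intro m i
    rw [hc]
    split_ifs with h
    · rw [s_momO, h, smul_zero, map_zero, zero_smul]
    · rw [map_zero, smul_zero]
  · intro w m
    rw [hc, hc]
    by_cases h : m = 0
    · subst h
      rw [if_pos rfl, smul_zero, if_pos rfl]
      apply KO_ext
      intro k
      rw [wO_apply, momO_apply, Finset.smul_sum]
      refine Finset.sum_congr rfl fun j _ => ?_
      rw [smul_mul', hT.c_w, smul_algebraMap]
    · rw [if_neg h, if_neg (by rwa [smul_eq_zero_iff_eq]), map_zero]
  · intro _
    have h1 : tot (momF Q l lam) = momO Q l lam := by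
      unfold tot
      rw [momF_apply, AddMonoidAlgebra.coeff_single, Finsupp.sum_single_index rfl]
    rw [h1]
    exact hreg
  · intro m k _
    rw [hc]
    split_ifs with h
    · rw [h, hT.Eu_zero, one_pow, inv_one, one_mul]
      exact hreg k
    · rw [KO_zero, mul_zero]
      exact Subalgebra.zero_mem _

end

end Pool.Agent.MTF
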