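import Pool.Agent.MTF.C2d
import Pool.Agent.MTF.C2f

/-!
# MTF : part C, moment maps
-/

set_option linter.unusedSectionVars false

namespace Pool.Agent.MTF

open AffGrp

section
variable {G : AffGrp} {K W X : Type} [Field K] [Algebra ℂ K] [Group W] [Fintype W]
  [MulSemiringAction W K] [SMulCommClass W ℂ K] [AddCommGroup X] [DistribMulAction W X]
variable {L : Type} [Finite L] [DecidableEq L] {Q : TQD G K W X}

theorem Fam_mu (hT : TQ Q) (g : ℕ) (ε : L → Bool) (l : L) (D : G.Lie) : Q.Fam g ε (muF Q l D) :=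
  Fam_mom hT g ε l _

end

end Pool.Agent.MTF
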