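import Pool.Agent.MTF.C5
import Pool.Agent.MTF.C2

/-!
# MTF : part C, the moment ideals are in the kernels
-/

set_option linter.unusedSectionVars false

namespace Pool.Agent.MTF

open AffGrp TensorProduct

section
variable {G : AffGrp} {K W X : Type} [Field K] [Algebra ℂ K] [Group W] [Fintype W]
  [MulSemiringAction W K] [SMulCommClass W ℂ K] [AddCommGroup X] [DistribMulAction W X]
variable {L : Type} [Finite L] [DecidableEq L] {Q : TQD G K W X}
variable {L' : Type} [Finite L'] [DecidableEq L'] {g g' : ℕ} {ε : L → Bool} {ε' : L' → Bool}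
  {B B' : Type} [CommRing B] [Algebra ℂ B] [CommRing B'] [Algebra ℂ B']

theorem c10d_mom {M : Type} [Finite M] (l : M) (lam : Module.Dual ℂ G.Lie) {k : M → G.X} (hk : k l = 1) :
    (momO Q l lam).1 k = ∑ j, Q.c j * algebraMap ℂ K (lam (G.Ad 1 (Q.D j))) := by
  rw [momO_apply, hk]

open Classical in
theorem c10d_one {M : Type} [Finite M] (m : X) :
    (1 : RR G K X M).coeff m = if 0 = m then 1 else 0 := by
  rw [AddMonoidAlgebra.one_def, AddMonoidAlgebra.coeff_single, Finsupp.single_apply]

open Classical in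
theorem c10d_momF {M : Type} [Finite M] (l : M) (lam : Module.Dual ℂ G.Lie) (m : X) :
    (momF Q l lam).coeff m = if 0 = m then momO Q l lam else 0 := by
  rw [momF_apply, AddMonoidAlgebra.coeff_single, Finsupp.single_apply]

/-- [C10d] PROOF. `Ideal.span_le` for the kernel of the ring homomorphism `Ph2 P P'` (`RingHom.mem_ker`). A generator: `Ph2 (P.mom .. ⊗ 1) = jL (momF Q none lam) * 1`, `Ph2 (1 ⊗ P'.mom ..) = 1 * jR (momF Q none lam)` (`Algebra.TensorProduct.productMap_apply_tmul`, `P.i_mom`), with `lam := killD G D`; both are `single (0, 0) (const)`: by `Ph2_tmul` (and `map_one P.i`) their coefficients at `(m, m')` are `pb inl (ev1 ((momF ..).coeff m)) * pb inr (ev1 ((1 : RR ..).coeff m'))` and `pb inl (ev1 ((1).coeff m)) * pb inr (ev1 ((momF ..).coeff m'))`: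
zero unless `m = 0` and `m' = 0` (`momF_apply`, `AddMonoidAlgebra.coeff_single`, `coeff_one`), and then both have the constant value `∑ j, Q.c j * algebraMap (lam (G.Ad 1 (Q.D j)))` (`momO_apply` at `optP 1 _`). -/
theorem Ph2_IT (hT : TQ Q) (P : RP Q g (optS true ε) B) (P' : RP Q g' (optS false ε') B') {z : B ⊗[ℂ] B'}
    (hz : z ∈ IT hT P P') : Ph2 P P' z = 0 := by
  have hle : IT hT P P' ≤ RingHom.ker (Ph2 P P') := by
    unfold IT
    rw [Ideal.span_le]
    rintro _ ⟨D, rfl⟩
    show Ph2 P P' _ = 0
    rw [map_sub, sub_eq_zero]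
    apply AddMonoidAlgebra.coeff_injective
    ext ⟨m, m'⟩ : 1
    rw [Ph2_tmul, Ph2_tmul, P.i_mom, P'.i_mom, map_one P.i, map_one P'.i, c10d_one, c10d_one,
      c10d_momF, c10d_momF]
    by_cases h : 0 = m
    · by_cases h' : 0 = m'
      · rw [if_pos h, if_pos h', if_pos h, if_pos h', map_one, map_one, map_one, map_one, mul_one, one_mul]
        apply KO_ext
        intro k
        rw [pb_apply, pb_apply, ev1_apply, ev1_apply, c10d_mom none (killD G D) rfl,
          c10d_mom none (killD G D) rfl]
      · rw [if_neg h', if_neg h', map_zero, map_zero, mul_zero, mul_zero]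
    · rw [if_neg h, if_neg h, map_zero, map_zero, zero_mul, zero_mul]
  exact hle hz

/-- [C10d2] PROOF. The same for `Ph P`: `(Ph P (P.mom hT none lam)).coeff m = ev1 K (ev1 K ((momF Q none lam).coeff m))` (`Ph_coeff`, `P.i_mom`), and for the leg `some none`; both are `0` for `m ≠ 0` and the same constant for `m = 0`. -/
theorem Ph_ID (hT : TQ Q) (P : RP Q g (optS true (optS false ε)) B) {z : B} (hz : z ∈ ID hT P) : Ph P z = 0 := by
  have hle : ID hT P ≤ RingHom.ker (Ph P) := by
    unfold ID
    rw [Ideal.span_le]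
    rintro _ ⟨D, rfl⟩
    show Ph P _ = 0
    rw [map_sub, sub_eq_zero]
    apply AddMonoidAlgebra.coeff_injective
    ext m : 1
    rw [Ph_coeff, Ph_coeff, P.i_mom, P.i_mom, c10d_momF, c10d_momF]
    by_cases h : 0 = m
    · rw [if_pos h, if_pos h]
      apply KO_ext
      intro k
      rw [ev1_apply, ev1_apply, ev1_apply, ev1_apply, c10d_mom none (killD G D) rfl,
        c10d_mom (some none) (killD G D) rfl]
    · rw [if_neg h, if_neg h]
  exact hle hz

end

end Pool.Agent.MTF
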