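import Pool.Agent.MTF.C9a
import Pool.Agent.MTF.C9b

/-!
# MTF : part C, invariants (S1)
-/

set_option linter.unusedSectionVars false

namespace Pool.Agent.MTF

open AffGrp TensorProduct

/-- every tensor is a combination of tensors with second factors in the span of a finite family -/
theorem c9c_fin {V V' : Type} [AddCommGroup V] [Module ℂ V] [AddCommGroup V'] [Module ℂ V'] (z : V ⊗[ℂ] V') :
    ∃ (n : ℕ) (v : Fin n → V'), ∀ (m : Type) [Fintype m] (b : m → V'),
      (∀ i, v i ∈ Submodule.span ℂ (Set.range b)) → ∃ w : m → V, z = ∑ j, w j ⊗ₜ[ℂ] b j := by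
  induction z using TensorProduct.induction_on with
  | zero => exact ⟨0, Fin.elim0, fun m _ b _ => ⟨0, by simp⟩⟩
  | tmul u v =>
    refine ⟨1, fun _ => v, fun m _ b hb => ?_⟩
    obtain ⟨c, hc⟩ := (Submodule.mem_span_range_iff_exists_fun ℂ).1 (hb 0)
    refine ⟨fun j => c j • u, ?_⟩
    have hc' : v = ∑ i, c i • b i := hc.symm
    rw [hc', TensorProduct.tmul_sum]
    refine Finset.sum_congr rfl fun j _ => ?_
    rw [TensorProduct.tmul_smul, TensorProduct.smul_tmul']
  | add x y hx hy =>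
    obtain ⟨n, v, hv⟩ := hx
    obtain ⟨n', v', hv'⟩ := hy
    refine ⟨n + n', Fin.append v v', fun m _ b hb => ?_⟩
    obtain ⟨w, hw⟩ := hv m b fun i => by simpa using hb (Fin.castAdd n' i)
    obtain ⟨w', hw'⟩ := hv' m b fun i => by simpa using hb (Fin.natAdd n i)
    refine ⟨w + w', ?_⟩
    rw [hw, hw', ← Finset.sum_add_distrib]
    exact Finset.sum_congr rfl fun j _ => by rw [Pi.add_apply, TensorProduct.add_tmul]

section
variable {G : AffGrp} {K W X : Type} [Field K] [Algebra ℂ K] [Group W] [Fintype W]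
  [MulSemiringAction W K] [SMulCommClass W ℂ K] [AddCommGroup X] [DistribMulAction W X]
variable {L : Type} [Finite L] [DecidableEq L] {Q : TQD G K W X}
variable {L' : Type} [Finite L'] [DecidableEq L'] {g g' : ℕ} {ε : L → Bool} {ε' : L' → Bool}
  {B B' : Type} [CommRing B] [Algebra ℂ B] [CommRing B'] [Algebra ℂ B']

/-- [C9c] (S1) PROOF. `z = ∑ i, u i ⊗ₜ v i` (finite sum over `Fin n`; `TensorProduct.induction_on` or `TensorProduct.exists_finset`). `rep_of (rat_act1 P') v` gives `E`, `b : E.ι → B'` linearly independent, `P'.act (pt1 x) (b j) = ∑ k, E.ρ x k j • b k`, `v i ∈ span (range b)`, so `z = ∑ j, w j ⊗ₜ b j` (`Submodule.mem_span_range_iff_exists_fun`, `tmul_smul`, `smul_tmul`). Invariance: `z = actT x z = ∑ j, act (w j) ⊗ ∑ k, E.ρ x k j • b k = ∑ k, (∑ j, E.ρ x k j • P.act (pt1 x) (w j)) ⊗ₜ b k`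
(`actT_tmul`), so by `tmul_coeff` `w k = ∑ j, E.ρ x k j • P.act (pt1 x) (w j)`, hence `P.act (pt1 x) (w j) = ∑ k, E.ρ x⁻¹ j k • w k` (`Rep.inv_mul`). `restr P E w` gives `φ`, `restr' P' E b` gives `φ'`, and `dot_apply`. -/
theorem S1 (P : RP Q g (optS true ε) B) (P' : RP Q g' (optS false ε') B') (z : B ⊗[ℂ] B')
    (hz : ∀ x, actT P P' x z = z) :
    ∃ (E : Rep G) (φ : F1 Q g ε E) (φ' : F1' Q g' ε' E), z = dot P P' E φ φ' := by
  obtain ⟨n, v, hv⟩ := c9c_fin z
  obtain ⟨E, b, hb, hact, hspan, -⟩ := rep_of (rat_act1 P') v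
  obtain ⟨w, hw⟩ := hv E.ι b hspan
  have hact' : ∀ x j, P'.act (pt1 x) (b j) = ∑ k, E.ρ x k j • b k := fun x j => by
    rw [← RP.act1_apply]; exact hact x j
  have h1 : ∀ x, w = fun k => ∑ j, E.ρ x k j • P.act (pt1 x) (w j) := fun x => by
    apply tmul_coeff hb
    rw [← hw]
    have h2 := hz x
    rw [hw, map_sum] at h2
    rw [hw, ← h2]
    have h3 : ∀ j, actT P P' x (w j ⊗ₜ[ℂ] b j) = ∑ k, (E.ρ x k j • P.act (pt1 x) (w j)) ⊗ₜ[ℂ] b k := fun j => by
      rw [actT_tmul, hact', TensorProduct.tmul_sum]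
      exact Finset.sum_congr rfl fun k _ => by rw [TensorProduct.tmul_smul, TensorProduct.smul_tmul']
    rw [Finset.sum_congr rfl fun j _ => h3 j, Finset.sum_comm]
    exact Finset.sum_congr rfl fun k _ => by rw [TensorProduct.sum_tmul]
  have h4 : ∀ x j, P.act (pt1 x) (w j) = ∑ k, E.ρ x⁻¹ j k • w k := fun x j => by
    have h5 : ∀ k, w k = ∑ i, E.ρ x k i • P.act (pt1 x) (w i) := fun k => congrFun (h1 x) k
    calc P.act (pt1 x) (w j) = ∑ i, (if j = i then (1 : ℂ) else 0) • P.act (pt1 x) (w i) := by simp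
      _ = ∑ i, (∑ k, E.ρ x⁻¹ j k * E.ρ x k i) • P.act (pt1 x) (w i) := by
        refine Finset.sum_congr rfl fun i _ => ?_
        rw [Rep.inv_mul E x j i]
      _ = ∑ k, E.ρ x⁻¹ j k • w k := by
        simp only [Finset.sum_smul]
        rw [Finset.sum_comm]
        refine Finset.sum_congr rfl fun k _ => ?_
        conv_rhs => rw [h5 k, Finset.smul_sum]
        exact Finset.sum_congr rfl fun i _ => by rw [mul_smul]
  obtain ⟨φ, -, hφ⟩ := restr P E w h4
  obtain ⟨φ', -, hφ'⟩ := restr' P' E b hact'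
  refine ⟨E, φ, φ', ?_⟩
  rw [dot_apply, hw]
  exact Finset.sum_congr rfl fun a _ => by rw [hφ, hφ']

end

end Pool.Agent.MTF
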