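import Pool.Agent.MTF.C10h
import Pool.Agent.MTF.C10d
import Pool.Agent.MTF.C9c

/-!
# MTF : part C, joining: the kernel
-/

set_option linter.unusedSectionVars false

namespace Pool.Agent.MTF

open AffGrp TensorProduct

section
variable {G : AffGrp} {K W X : Type} [Field K] [Algebra ℂ K] [Group W] [Fintype W]
  [MulSemiringAction W K] [SMulCommClass W ℂ K] [AddCommGroup X] [DistribMulAction W X]
variable {L : Type} [Finite L] [DecidableEq L] {Q : TQD G K W X}
variable {L' : Type} [Finite L'] [DecidableEq L'] {g g' : ℕ} {ε : L → Bool} {ε' : L' → Bool}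
  {B B' : Type} [CommRing B] [Algebra ℂ B] [CommRing B'] [Algebra ℂ B']

theorem c10i_sum (hT : TQ Q) (P : RP Q g (optS true ε) B) (P' : RP Q g' (optS false ε') B') (l : X)
    {z : B ⊗[ℂ] B'} (hz : z ∈ ZT hT P P' l) :
    ∃ (n : ℕ) (φ : Fin n → F1 Q g ε (Vr hT l)) (φ' : Fin n → F1' Q g' ε' (Vr hT l)),
      z = ∑ j, dot P P' (Vr hT l) (φ j) (φ' j) := by
  unfold ZT at hz
  induction hz using AddSubgroup.closure_induction with
  | mem x hx =>
    obtain ⟨φ, φ', rfl⟩ := hx
    exact ⟨1, fun _ => φ, fun _ => φ', by simp⟩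
  | zero => exact ⟨0, fun j => j.elim0, fun j => j.elim0, by simp⟩
  | add x y _ _ hx hy =>
    obtain ⟨n, φ, φ', rfl⟩ := hx
    obtain ⟨n', ψ, ψ', rfl⟩ := hy
    refine ⟨n + n', Fin.append φ ψ, Fin.append φ' ψ', ?_⟩
    rw [Fin.sum_univ_add]
    simp only [Fin.append_left, Fin.append_right]
  | neg x _ hx =>
    obtain ⟨n, φ, φ', rfl⟩ := hx
    refine ⟨n, fun j => -φ j, φ', ?_⟩
    rw [← Finset.sum_neg_distrib]
    refine Finset.sum_congr rfl fun j _ => ?_
    rw [map_neg (dot P P' (Vr hT l)), AddMonoidHom.neg_apply]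

theorem c10i_bound (Q : TQD G K W X) {E : Rep G} (φ : E.ι → RR G K X L) :
    ∃ n : ℕ, ∀ a m, (φ a).coeff m ≠ 0 → Q.N m < n := by
  classical
  refine ⟨(Finset.univ.biUnion (fun a : E.ι => (φ a).coeff.support)).sup Q.N + 1, ?_⟩
  intro a m hm
  refine Nat.lt_succ_of_le ?_
  exact Finset.le_sup (f := Q.N) (Finset.mem_biUnion.2 ⟨a, Finset.mem_univ a, Finsupp.mem_support_iff.2 hm⟩)

/-- [C10i] PROOF. `invT` gives `z = z₀ + i`, `i ∈ IT`, `z₀` invariant; `Ph2_IT`: `Ph2 z = Ph2 z₀`. `S1 P P' z₀` gives `z₀ = dot E φ φ'`. There is `n` with `(φ.1 a).coeff m ≠ 0 → Q.N m < n` for all `a`, `m` (finite supports), so `z₀ ∈ ZCT n` (`dot_ZC`). `filt` with `N := Q.N` (`hT.N_w`), `Φ := PhT P P'`, `I := (IT hT P P').toAddSubgroup` (`hI`: `Ph2_IT`), `Zl := ZT hT P P'`: `supp`: closure induction, `Ph2_dot` and `supp1 (Vr_hw hT l) φ.2`: if all `(φ a)_m = 0` then the component vanishes (the property `Φ z m ≠ 0 → ..` for sums: contrapositive, `Φ z m = 0` for `m` outside is closed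 under sums).
`key`: every element of the closure `ZT l` is `∑ j : Fin n, dot (φ j) (φ' j)` (closure induction; `0`: `n = 0`; sums: `Fin.append`/`Fin.addCases`; negatives: `dot (-φ) φ' = - dot φ φ'`), then `keyT`. `Φ z₀ = 0` is the hypothesis `h0` (`coeff_dgn`). So `z₀ ∈ IT` and `z ∈ IT`. -/
theorem ker1 (hT : TQ Q) (P : RP Q g (optS true ε) B) (P' : RP Q g' (optS false ε') B') (z : B ⊗[ℂ] B')
    (hz : ∀ x, actT P P' x z - z ∈ IT hT P P') (h0 : dgn _ X (Ph2 P P' z) = 0) : z ∈ IT hT P P' := by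
  obtain ⟨z₀, h1, h2⟩ := invT hT P P' z hz
  have hPh : Ph2 P P' z = Ph2 P P' z₀ := by
    have h3 := Ph2_IT hT P P' h2
    rw [map_sub (Ph2 P P') z z₀] at h3
    exact sub_eq_zero.1 h3
  obtain ⟨E, φ, φ', h4⟩ := S1 P P' z₀ h1
  obtain ⟨n, hn⟩ := c10i_bound Q φ.1
  have h5 : z₀ ∈ ZCT hT P P' n := by
    rw [h4]
    exact dot_ZC hT P P' φ φ' n hn
  have h6 : PhT P P' z₀ = 0 := by
    funext m
    rw [PhT_apply, ← hPh, ← coeff_dgn, h0]
    rfl
  have h7 : z₀ ∈ (IT hT P P').toAddSubgroup := by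
    refine filt (W := W) Q.N hT.N_w (PhT P P') (IT hT P P').toAddSubgroup (ZT hT P P') ?_ ?_ ?_ n z₀ h5 h6
    · intro y hy
      funext m
      rw [PhT_apply, Ph2_IT hT P P' hy]
      rfl
    · intro l hl y hy m hm
      by_contra hcon
      apply hm
      unfold ZT at hy
      induction hy using AddSubgroup.closure_induction with
      | mem x hx =>
        obtain ⟨ψ, ψ', rfl⟩ := hx
        rw [PhT_apply, Ph2_dot]
        refine Finset.sum_eq_zero fun a _ => ?_
        have h8 : (ψ.1 a).coeff m = 0 := by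
          by_contra hne
          exact hcon (supp1 (Vr_hw hT l) ψ.2 a m hne)
        rw [h8, map_zero, zero_mul]
      | zero =>
        rw [map_zero (PhT P P')]
        rfl
      | add x y _ _ hx hy =>
        have hx' : PhT P P' x m = 0 := by
          by_contra hne
          exact hne (hx hne)
        have hy' : PhT P P' y m = 0 := by
          by_contra hne
          exact hne (hy hne)
        rw [map_add (PhT P P'), Pi.add_apply, hx', hy', add_zero]
      | neg x _ hx =>
        have hx' : PhT P P' x m = 0 := by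
          by_contra hne
          exact hne (hx hne)
        rw [map_neg (PhT P P'), Pi.neg_apply, hx', neg_zero]
    · intro l hl y hy hy0
      obtain ⟨n', ψ, ψ', rfl⟩ := c10i_sum hT P P' l hy
      refine keyT hT P P' l n' ψ ψ' ?_
      rw [PhT_apply, map_sum (Ph2 P P'), AddMonoidAlgebra.coeff_sum, Finsupp.finsetSum_apply] at hy0
      exact hy0
  have h8 : z = (z - z₀) + z₀ := by abel
  rw [h8]
  exact (IT hT P P').add_mem h2 h7

end

end Pool.Agent.MTF
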