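import Pool.Agent.MTF.C5
import Pool.Agent.MTF.C6a
import Pool.Agent.MTF.C1

/-!
# MTF : part C, self-glueing: values
-/

set_option linter.unusedSectionVars false

namespace Pool.Agent.MTF

open AffGrp TensorProduct

section
variable {G : AffGrp} {K W X : Type} [Field K] [Algebra ℂ K] [Group W] [Fintype W]
  [MulSemiringAction W K] [SMulCommClass W ℂ K] [AddCommGroup X] [DistribMulAction W X]
variable {L : Type} [Finite L] [DecidableEq L] {Q : TQD G K W X}
variable {g : ℕ} {ε : L → Bool} {B : Type} [CommRing B] [Algebra ℂ B]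

theorem c11a_ind2 (E : Rep G) (Ψ : E.ι → E.ι → RR G K X L) (m : X) (k : Option (Option L) → G.X) :
    ((ind2 E Ψ).coeff m).1 k = ∑ b, ∑ b', algebraMap ℂ K (E.ρ ((k (some none))⁻¹ * k none) b' b) *
      ((Ψ b b').coeff m).1 (fun l => k (some (some l))) := by
  rw [ind2_coeff, Finset.sum_comm]
  refine Finset.sum_congr rfl fun b _ => ?_
  rw [Finset.sum_comm]
  refine Finset.sum_congr rfl fun b' _ => ?_
  rw [map_mul, Matrix.mul_apply, map_sum, Finset.sum_mul]
  refine Finset.sum_congr rfl fun a _ => ?_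
  congr 2
  exact mul_comm _ _

theorem c11a_i (P : RP Q g (optS true (optS false ε)) B) (E : Rep G) (Ψ : F2 Q g ε E E) :
    P.i (indT P E Ψ) = ind2 E Ψ.1 := by
  rw [indT_apply, map_sum P.i]
  unfold ind2
  exact Finset.sum_congr rfl fun a _ => i_indM P E E a a Ψ

/-- the matrix of the values -/
def c11a_M (E : Rep G) (Ψ : E.ι → E.ι → RR G K X L) (m : X) (k : L → G.X) : Matrix E.ι E.ι K :=
  fun a b => ((Ψ a b).coeff m).1 k

theorem c11a_slot {E : Rep G} {Ψ : E.ι → E.ι → RR G K X L} (h : Q.Fam2 (W := W) g ε E E Ψ) (m : X)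
    (k : L → G.X) : Q.sE E * c11a_M E Ψ m k = Q.val m • c11a_M E Ψ m k := by
  funext a a'
  have h1 := congrArg (fun F : (G.pow L).KO K => F.1 k) (h.slot m a a')
  have h2 : (∑ b, Q.sE E a b • (Ψ b a').coeff m : (G.pow L).KO K).1 k =
      (Q.val m • (Ψ a a').coeff m : (G.pow L).KO K).1 k := h1
  rw [KO_sum, KO_smul] at h2
  rw [Matrix.mul_apply]
  exact h2

theorem c11a_slot' {E : Rep G} {Ψ : E.ι → E.ι → RR G K X L} (h : Q.Fam2 (W := W) g ε E E Ψ) (m : X)
    (k : L → G.X) : c11a_M E Ψ m k * Q.sE E = Q.val m • c11a_M E Ψ m k := by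
  funext a a'
  have h1 := congrArg (fun F : (G.pow L).KO K => F.1 k) (h.slot' m a a')
  have h2 : (∑ b, Q.sE E b a' • (Ψ a b).coeff m : (G.pow L).KO K).1 k =
      (Q.val m • (Ψ a a').coeff m : (G.pow L).KO K).1 k := h1
  rw [KO_sum, KO_smul] at h2
  rw [Matrix.mul_apply]
  refine Eq.trans ?_ h2
  refine Finset.sum_congr rfl fun b _ => ?_
  rw [KO_smul]
  exact mul_comm _ _

/-- the matrices of the values of all weights -/
noncomputable def c11a_S (E : Rep G) (Ψ : E.ι → E.ι → RR G K X L) (k : L → G.X) :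
    X →₀ Matrix E.ι E.ι K := by
  classical
  exact Finsupp.onFinset (Finset.univ.biUnion fun p : E.ι × E.ι => (Ψ p.1 p.2).coeff.support)
    (fun m => c11a_M E Ψ m k) (by
      intro m hm
      by_contra hcon
      refine hm ?_
      funext a b
      have h1 : (Ψ a b).coeff m = 0 := by
        by_contra h2
        refine hcon (Finset.mem_biUnion.2 ⟨(a, b), Finset.mem_univ _, ?_⟩)
        exact Finsupp.mem_support_iff.2 h2
      show ((Ψ a b).coeff m).1 k = 0
      rw [h1]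
      rfl)

theorem c11a_S_apply (E : Rep G) (Ψ : E.ι → E.ι → RR G K X L) (k : L → G.X) (m : X) :
    c11a_S E Ψ k m = c11a_M E Ψ m k := rfl

theorem c11a_S_sum (E : Rep G) (Ψ : E.ι → E.ι → RR G K X L) (k : L → G.X) (a b : E.ι) :
    ((c11a_S E Ψ k).sum fun _ z => z) a b = (tot (Ψ a b)).1 k := by
  classical
  have h1 : ((c11a_S E Ψ k).sum fun _ z => z) =
      ∑ m ∈ (Finset.univ.biUnion fun p : E.ι × E.ι => (Ψ p.1 p.2).coeff.support),
        c11a_M E Ψ m k := by
    refine Finsupp.sum_of_support_subset _ ?_ _ (fun _ _ => rfl)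
    exact Finsupp.support_onFinset_subset
  have h2 : tot (Ψ a b) = ∑ m ∈ (Finset.univ.biUnion fun p : E.ι × E.ι => (Ψ p.1 p.2).coeff.support),
      (Ψ a b).coeff m := by
    unfold tot
    refine Finsupp.sum_of_support_subset _ ?_ _ (fun _ _ => rfl)
    intro m hm
    exact Finset.mem_biUnion.2 ⟨(a, b), Finset.mem_univ _, hm⟩
  rw [h1, h2, KO_sum, Matrix.sum_apply]
  rfl

/-- [C11a] PROOF. `indT_apply`, `map_sum`, `AddMonoidAlgebra.coeff_sum`, `Ph_coeff`, `i_indM`; `ev1 (ev1 ((ind2m E E Ψ.1 a a).coeff m)) = (Ψ.1 a a).coeff m` (`KO_ext`, `ind2m_coeff` at `optP 1 (optP 1 k)`: `E.ρ 1 = 1`, `inv_one`; `Matrix.one_apply`). -/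
theorem Ph_indT (P : RP Q g (optS true (optS false ε)) B) (E : Rep G) (Ψ : F2 Q g ε E E) (m : X) :
    (Ph P (indT P E Ψ)).coeff m = ∑ a, (Ψ.1 a a).coeff m := by
  rw [Ph_coeff, c11a_i]
  apply KO_ext
  intro k
  rw [ev1_apply, ev1_apply, c11a_ind2, KO_sum]
  refine Finset.sum_congr rfl fun b _ => ?_
  have h1 : ((optP 1 (optP 1 k) : Option (Option L) → G.X) (some none))⁻¹ *
      (optP 1 (optP 1 k) : Option (Option L) → G.X) none = 1 := by
    show (1 : G.X)⁻¹ * 1 = 1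
    rw [inv_one, one_mul]
  rw [h1, map_one, Finset.sum_eq_single b]
  · rw [Matrix.one_apply_eq, map_one, one_mul]
    rfl
  · intro b' _ hb
    rw [Matrix.one_apply_ne hb, map_zero, zero_mul]
  · intro h2
    exact absurd (Finset.mem_univ b) h2

/-- [C11a2] PROOF. `Ph_indT`. `wt`: `Q.s l` is linear, `(Ψ.2.fam a a).wt`. `inv`: `map_sum`, `(fam a a).inv`. `reg0` is vacuous (`g + 1 ≠ 0`). `regS` (exponent `g + 1 - 1 = g`) at `m`, `k`: `M a b := ((Ψ.1 a b).coeff m).1 k`, `Q.sE E * M = Q.val m • M` (`slot`), `M * Q.sE E = Q.val m • M` (`slot'`). `0 < g`: `traceK1` for `(Eu m ^ (g - 1))⁻¹ • M` (entries in `A` by `regS`): `(Eu m)⁻¹ * ((Eu m ^ (g - 1))⁻¹ * trace M)`. `g = 0`: `traceK0 hT` for `M' : X →₀ Matrix`, `M' m := fun a b => ((Ψ.1 a b).coeff m).1 k` (`Finsupp.onFinset` with the union of the supports), whose total has entries `(tot (Ψ.1 a b)).1 k ∈ A` (`reg0`). -/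
theorem indT_fam (hT : TQ Q) (P : RP Q g (optS true (optS false ε)) B) (E : Rep G) (Ψ : F2 Q g ε E E) :
    Q.Fam (g + 1) ε (Ph P (indT P E Ψ)) := by
  have hΨ : Q.Fam2 g ε E E Ψ.1 := Ψ.2
  refine ⟨?_, ?_, ?_, ?_⟩
  · intro m l
    rw [Ph_indT, map_sum, Finset.smul_sum]
    exact Finset.sum_congr rfl fun a _ => (hΨ.fam a a).wt m l
  · intro w m
    rw [Ph_indT, Ph_indT, map_sum]
    exact Finset.sum_congr rfl fun a _ => (hΨ.fam a a).inv w m
  · intro h
    exact absurd h (Nat.succ_ne_zero g)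
  · intro m k _
    have htr : ((Ph P (indT P E Ψ)).coeff m).1 k = (c11a_M E Ψ.1 m k).trace := by
      rw [Ph_indT, KO_sum]
      rfl
    rw [htr, Nat.add_sub_cancel]
    rcases Nat.eq_zero_or_pos g with hg | hg
    · subst hg
      rw [pow_zero, inv_one, one_mul]
      have h1 := traceK0 hT (c11a_S E Ψ.1 k) (fun a b => by
        rw [c11a_S_sum]
        exact (hΨ.fam a b).reg0 rfl k)
        (fun m => by rw [c11a_S_apply]; exact c11a_slot hΨ m k)
        (fun m => by rw [c11a_S_apply]; exact c11a_slot' hΨ m k) m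
      rw [c11a_S_apply] at h1
      exact h1
    · have h1 := traceK1 hT (E := E) (m := m) (M := (Q.Eu m ^ (g - 1))⁻¹ • c11a_M E Ψ.1 m k)
        (fun a b => (hΨ.fam a b).regS m k hg)
        (by rw [Matrix.mul_smul, c11a_slot hΨ m k, smul_comm])
        (by rw [Matrix.smul_mul, c11a_slot' hΨ m k, smul_comm])
      rw [Matrix.trace_smul, smul_eq_mul, ← mul_assoc] at h1
      have h2 : (Q.Eu m ^ g)⁻¹ = (Q.Eu m)⁻¹ * (Q.Eu m ^ (g - 1))⁻¹ := by
        rw [← mul_inv, ← pow_succ', Nat.sub_add_cancel hg]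
      rw [h2]
      exact h1

/-- [C11a3] PROOF. `P.inj`, `P.i_act`, `indT_apply`, `i_indM`, `RR_ext`, `gact_apply`, `ind2m_coeff`: the value at `k` is `∑ a b b', E.ρ (x⁻¹ * k₁) a b * E.ρ ((x⁻¹ * k₂)⁻¹) b' a * Ψ b b'`, and `∑ a, E.ρ ((x⁻¹ k₂)⁻¹) b' a * E.ρ (x⁻¹ k₁) a b = E.ρ (k₂⁻¹ * x * x⁻¹ * k₁) b' b = E.ρ (k₂⁻¹ * k₁) b' b` does not depend on `x`. -/
theorem indT_inv (P : RP Q g (optS true (optS false ε)) B) (E : Rep G) (Ψ : F2 Q g ε E E) (x : G.X) :
    P.act (pt2 x) (indT P E Ψ) = indT P E Ψ := by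
  apply P.inj
  rw [P.i_act, c11a_i]
  apply RR_ext
  intro m k
  rw [gact_apply]
  have key : ∀ k : Option (Option L) → G.X,
      ((ind2 E Ψ.1).coeff m).1 ((pt2 x : Option (Option L) → G.X)⁻¹ * k) =
        ((ind2 E Ψ.1).coeff m).1 k := by
    intro k
    rw [c11a_ind2, c11a_ind2]
    refine Finset.sum_congr rfl fun b _ => Finset.sum_congr rfl fun b' _ => ?_
    have h1 : (((pt2 x : Option (Option L) → G.X)⁻¹ * k) (some none))⁻¹ *
        ((pt2 x : Option (Option L) → G.X)⁻¹ * k) none = (k (some none))⁻¹ * k none := by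
      show (x⁻¹ * k (some none))⁻¹ * (x⁻¹ * k none) = (k (some none))⁻¹ * k none
      group
    have h2 : (fun l => ((pt2 x : Option (Option L) → G.X)⁻¹ * k) (some (some l))) =
        fun l => k (some (some l)) := by
      funext l
      show (1 : G.X)⁻¹ * k (some (some l)) = k (some (some l))
      rw [inv_one, one_mul]
    rw [h1, h2]
  exact key k

end

end Pool.Agent.MTF
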