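import Pool.Agent.MTF.C8d
import Pool.Agent.MTF.C11a

/-!
# MTF : part C, self-glueing: surjectivity
-/

set_option linter.unusedSectionVars false

namespace Pool.Agent.MTF

open AffGrp TensorProduct

attribute [-instance] RingConeClass.toSubsemiringClass SubringClass.toSubsemiringClass NormedAlgebra.toAlgebra NormedSpace.toModule

section
variable {G : AffGrp} {K W X : Type} [Field K] [Algebra ℂ K] [Group W] [Fintype W]
  [MulSemiringAction W K] [SMulCommClass W ℂ K] [AddCommGroup X] [DistribMulAction W X]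
variable {L : Type} [Finite L] [DecidableEq L] {Q : TQD G K W X}
variable {g : ℕ} {ε : L → Bool} {B : Type} [CommRing B] [Algebra ℂ B]

/-- the additive group of the families -/
def c11b_FF (Q : TQD G K W X) (g : ℕ) (ε : L → Bool) : AddSubgroup (RR G K X L) where
  carrier := {F | Q.Fam g ε F}
  add_mem' h h' := Fam_add h h'
  zero_mem' := Fam_zero
  neg_mem' h := Fam_neg h

/-- the components -/
def c11b_co (Q : TQD G K W X) (g : ℕ) (ε : L → Bool) : c11b_FF Q g ε →+ (X → (G.pow L).KO K) where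
  toFun F m := F.1.coeff m
  map_zero' := rfl
  map_add' _ _ := rfl

/-- the families in the image of the invariants -/
def c11b_P (P : RP Q g (optS true (optS false ε)) B) : AddSubgroup (c11b_FF Q (g + 1) ε) where
  carrier := {C | ∃ F : B, (∀ x, P.act (pt2 x) F = F) ∧ Ph P F = C.1}
  zero_mem' := ⟨0, fun x => map_zero _, map_zero _⟩
  add_mem' := by
    rintro C C' ⟨F, h1, h2⟩ ⟨F', h1', h2'⟩
    exact ⟨F + F', fun x => by rw [map_add, h1, h1'], by rw [map_add, h2, h2']; rfl⟩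
  neg_mem' := by
    rintro C ⟨F, h1, h2⟩
    refine ⟨-F, fun x => by rw [map_neg, h1], ?_⟩
    have h3 : Ph P (-F) + Ph P F = 0 := by rw [← map_add, neg_add_cancel, map_zero]
    rw [h2] at h3
    exact eq_neg_of_add_eq_zero_left h3

/-- [C11b] PROOF. `peel` with `M :=` the additive group of the families `Q.Fam (g + 1) ε` (an `AddSubgroup` of `RR G K X L`), `co z := fun m => z.1.coeff m`, `N := Q.N` (`hT.N_w`), `P n :=` (for all `n`) the additive group of those `C` with `∃ F, (∀ x, P.act (pt2 x) F = F) ∧ Ph P F = C`. `step` for `C`, `l`: `lead0 hT` (`g + 1 ≠ 0`) gives `p` with `Eu l • C_l = Eu l ^ (g + 1) • p`; `liftT2 hT g` gives `Ψ` with `Eu l • (Ψ a a')_l = Eu l ^ g • (v a * v' a') • p`; `F := indT P (Vr hT l) Ψ` (`indT_inv`, `indT_fam`),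
`Eu l • (Ph F)_l = Eu l ^ g • (∑ a, v a * v' a) • p = Eu l ^ (g + 1) • p = Eu l • C_l` (`Ph_indT`, `pair`), cancel `Eu l`; support: `Ph_indT` and `SuppLe`. -/
theorem onto2 (hT : TQ Q) (P : RP Q g (optS true (optS false ε)) B) {C : RR G K X L} (hC : Q.Fam (g + 1) ε C) :
    ∃ F : B, (∀ x, P.act (pt2 x) F = F) ∧ Ph P F = C := by
  have hfin : ∀ z, (Function.support (c11b_co Q (g + 1) ε z)).Finite := fun z =>
    Finsupp.hasFiniteSupport z.1.coeff
  have orb : ∀ z (w : W) m, c11b_co Q (g + 1) ε z m = 0 → c11b_co Q (g + 1) ε z (w • m) = 0 := by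
    intro z w m hz
    have h1 : wO _ w (z.1.coeff m) = z.1.coeff (w • m) := z.2.inv w m
    have h2 : z.1.coeff m = 0 := hz
    rw [h2, map_zero] at h1
    exact h1.symm
  have zero : ∀ z, c11b_co Q (g + 1) ε z = 0 → z ∈ c11b_P P := by
    intro z hz
    have h1 : z = 0 := by
      apply Subtype.ext
      apply AddMonoidAlgebra.coeff_injective
      ext m : 1
      exact congrFun hz m
    rw [h1]
    exact (c11b_P P).zero_mem
  have step : ∀ z l, rp W l = l → (∀ m, c11b_co Q (g + 1) ε z m ≠ 0 → Q.N m ≤ Q.N l) →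
      ∃ z' ∈ c11b_P P, (∀ m, c11b_co Q (g + 1) ε z' m ≠ 0 → (∃ w : W, m = w • l) ∨ Q.N m < Q.N l) ∧
        c11b_co Q (g + 1) ε z' l = c11b_co Q (g + 1) ε z l := by
    intro z l _ hz
    obtain ⟨p, hp, hi, hE⟩ := lead0 hT (fun h => absurd h (Nat.succ_ne_zero g)) z.2 hz
    obtain ⟨Ψ, hsupp, hΨ⟩ := liftT2 hT g hp hi
    refine ⟨⟨Ph P (indT P (Vr hT l) Ψ), indT_fam hT P (Vr hT l) Ψ⟩,
      ⟨indT P (Vr hT l) Ψ, indT_inv P (Vr hT l) Ψ, rfl⟩, fun m hm => ?_, ?_⟩
    · have h1 : ∑ a, (Ψ.1 a a).coeff m ≠ 0 := by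
        rw [← Ph_indT P (Vr hT l) Ψ m]
        exact hm
      obtain ⟨a, -, ha⟩ := Finset.exists_ne_zero_of_sum_ne_zero h1
      exact hsupp a a m ha
    · show (Ph P (indT P (Vr hT l) Ψ)).coeff l = z.1.coeff l
      apply smul_right_injective _ (hT.Eu_ne l)
      simp only
      rw [Ph_indT, hE, Finset.smul_sum, Finset.sum_congr rfl fun a _ => hΨ a a, ← Finset.smul_sum,
        ← Finset.sum_smul, (Vr_hw hT l).pair, smul_smul, pow_succ]
  have hbd : ∀ m, c11b_co Q (g + 1) ε (⟨C, hC⟩ : c11b_FF Q (g + 1) ε) m ≠ 0 → Q.N m < C.coeff.support.sup Q.N + 1 := by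
    intro m hm
    exact Nat.lt_succ_of_le (Finset.le_sup (f := Q.N) (Finsupp.mem_support_iff.2 hm))
  exact @peel W X _ _ _ (c11b_FF Q (g + 1) ε) ((G.pow L).KO K) (AddSubgroupClass.toAddCommGroup _) inferInstance Q.N hT.N_w
    (c11b_co Q (g + 1) ε) hfin orb (fun _ => c11b_P P) (fun _ => le_rfl)
    zero step _ (⟨C, hC⟩ : c11b_FF Q (g + 1) ε) hbd

end

end Pool.Agent.MTF
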