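import Pool.Agent.MTF.C6e
import Pool.Agent.MTF.C2

/-!
# MTF : part C, relation (REL2)
-/

set_option linter.unusedSectionVars false

namespace Pool.Agent.MTF

open AffGrp TensorProduct

section
variable {G : AffGrp} {K W X : Type} [Field K] [Algebra ℂ K] [Group W] [Fintype W]
  [MulSemiringAction W K] [SMulCommClass W ℂ K] [AddCommGroup X] [DistribMulAction W X]
variable {L : Type} [Finite L] [DecidableEq L] {Q : TQD G K W X} {g : ℕ} {ε : L → Bool}
  {B : Type} [CommRing B] [Algebra ℂ B]

/-- [C6f] PROOF. `p`, `hp` from `homExt hT h`. `indT_apply`, `indM_actL` (diagonal entries `c = a`) and `indM_actR` (`c = d`): the difference is `∑ a d, q a d * M d a - ∑ d a, q' a d * M d a = ∑ a d, (q a d - q' a d) * M d a` with `M d a := indM P E E' d a Ψ`, `q a d := aeval (fun i => P.mom hT none (coord i)) (p a d)`, `q'` the same for the leg `some none` (`Finset.sum_comm`).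
`aeval_sub_mem`; `P.mom hT none lam - P.mom hT (some none) lam` is a generator of `ID` because `lam = killD G D` (`killD_surj hT lam`). -/
theorem rel2 (hT : TQ Q) (P : RP Q g (optS true (optS false ε)) B) {E E' : Rep G} {T : Matrix E'.ι E.ι K}
    (h : Q.HomJ E E' T) (Ψ : F2 Q g ε E E') :
    indT P E' (act2L h E' Ψ) - indT P E (act2R h E Ψ) ∈ ID hT P := by
  obtain ⟨p, hp⟩ := homExt hT h
  have hq : ∀ a d, MvPolynomial.aeval (fun i => P.mom hT none (Q.D.coord i)) (p a d) -
      MvPolynomial.aeval (fun i => P.mom hT (some none) (Q.D.coord i)) (p a d) ∈ ID hT P := by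
    intro a d
    refine aeval_sub_mem (ID hT P) _ _ (fun i => ?_) (p a d)
    obtain ⟨D, hD⟩ := killD_surj hT (Q.D.coord i)
    rw [← hD]
    exact Ideal.subset_span ⟨D, rfl⟩
  have e1 : indT P E' (act2L h E' Ψ) = ∑ a, ∑ d,
      MvPolynomial.aeval (fun i => P.mom hT none (Q.D.coord i)) (p a d) * indM P E E' d a Ψ := by
    rw [indT_apply]
    exact Finset.sum_congr rfl fun a _ => indM_actL hT P h p hp Ψ a a
  have e2 : indT P E (act2R h E Ψ) = ∑ a, ∑ d,
      MvPolynomial.aeval (fun i => P.mom hT (some none) (Q.D.coord i)) (p a d) *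
        indM P E E' d a Ψ := by
    rw [indT_apply, Finset.sum_comm]
    exact Finset.sum_congr rfl fun d _ => indM_actR hT P h p hp Ψ d d
  rw [e1, e2, ← Finset.sum_sub_distrib]
  refine Ideal.sum_mem _ fun a _ => ?_
  rw [← Finset.sum_sub_distrib]
  refine Ideal.sum_mem _ fun d _ => ?_
  rw [← sub_mul]
  exact Ideal.mul_mem_right _ _ (hq a d)

end

end Pool.Agent.MTF
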