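import Pool.Agent.MTF.C8D

/-!
# MTF : part C, leading coefficients and lifts for highest weight representations
-/

set_option linter.unusedSectionVars false

namespace Pool.Agent.MTF

open AffGrp TensorProduct

section
variable {G : AffGrp} {K W X : Type} [Field K] [Algebra ℂ K] [Group W] [Fintype W]
  [MulSemiringAction W K] [SMulCommClass W ℂ K] [AddCommGroup X] [DistribMulAction W X]
variable {L : Type} [Finite L] [DecidableEq L] {Q : TQD G K W X}

theorem c8d_le (hT : TQ Q) {l : X} {F : RR G K X L} (h : Q.SuppLe (W := W) l F) (m : X)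
    (hm : F.coeff m ≠ 0) : Q.N m ≤ Q.N l := by
  rcases h m hm with ⟨w, rfl⟩ | h
  · rw [hT.N_w]
  · exact h.le

theorem c8d_wO_smul {H : AffGrp} (w : W) (x : K) (F : H.KO K) :
    wO H w (x • F) = (w • x) • wO H w F :=
  KO_ext fun y => smul_mul' w x (F.1 y)

theorem c8d_JA {ε : L → Bool} {l : X} {m : (G.pow L).KO K} (hm : Q.JA ε l m) {c : K}
    (hc : c ∈ Q.A) : Q.JA ε l (c • m) where
  wt i := by rw [map_smul, hm.wt, smul_comm]
  reg k := Q.A.mul_mem hc (hm.reg k)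

theorem c8d_inv {l : X} {m : (G.pow L).KO K} (hi : InvO W l m) {c : K}
    (hc : ∀ w : W, w • l = l → w • c = c) : InvO W l (c • m) := by
  intro w hw
  rw [c8d_wO_smul, hc w hw, hi w hw]

/-- [C8d1] PROOF. `supp1 (Vr_hw hT l) φ.2 a` gives `(φ.1 a).coeff m ≠ 0 → Q.N m ≤ Q.N l` (`hT.N_w`); `lead1 hT φ.2` gives `p`; `hw_split hT (Vr_hw hT l)` gives `p a = v a • m`. -/
theorem leadT (hT : TQ Q) {g : ℕ} {ε : L → Bool} {l : X} (φ : F1 Q g ε (Vr hT l)) :
    ∃ m : (G.pow L).KO K, Q.JA ε l m ∧ InvO W l m ∧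
      ∀ a, Q.Eu l • (φ.1 a).coeff l = Q.Eu l ^ g • (vr hT l a • m) := by
  obtain ⟨p, hp, hi, hs, he⟩ := lead1 hT φ.2 (l := l) fun a m hm =>
    c8d_le hT (supp1 (Vr_hw hT l) φ.2 a) m hm
  obtain ⟨m, h1, h2, h3⟩ := hw_split hT (Vr_hw hT l) hp hi hs
  refine ⟨m, h1, h2, fun a => ?_⟩
  rw [he, h3]

/-- [C8d2] PROOF. The same with `supp1'`, `lead1'`, `hw_split'`. -/
theorem leadT' (hT : TQ Q) {g : ℕ} {ε : L → Bool} {l : X} (φ : F1' Q g ε (Vr hT l)) :
    ∃ m : (G.pow L).KO K, Q.JA ε l m ∧ InvO W l m ∧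
      ∀ a, Q.Eu l • (φ.1 a).coeff l = Q.Eu l ^ g • (vr' hT l a • m) := by
  obtain ⟨p, hp, hi, hs, he⟩ := lead1' hT φ.2 (l := l) fun a m hm =>
    c8d_le hT (supp1' (Vr_hw hT l) φ.2 a) m hm
  obtain ⟨m, h1, h2, h3⟩ := hw_split' hT (Vr_hw hT l) hp hi hs
  refine ⟨m, h1, h2, fun a => ?_⟩
  rw [he, h3]

/-- [C8d3] PROOF. The same with `supp2`, `lead2`, `hw_split2`. -/
theorem leadT2 (hT : TQ Q) {g : ℕ} {ε : L → Bool} {l : X} (φ : F2 Q g ε (Vr hT l) (Vr hT l)) :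
    ∃ m : (G.pow L).KO K, Q.JA ε l m ∧ InvO W l m ∧
      ∀ a a', Q.Eu l • (φ.1 a a').coeff l = Q.Eu l ^ g • ((vr hT l a * vr' hT l a') • m) := by
  obtain ⟨p, hp, hi, hs, hs', he⟩ := lead2 hT φ.2 (l := l) fun a a' m hm =>
    c8d_le hT (supp2 (Vr_hw hT l) φ.2 a a') m hm
  obtain ⟨m, h1, h2, h3⟩ := hw_split2 hT (Vr_hw hT l) hp hi hs hs'
  refine ⟨m, h1, h2, fun a a' => ?_⟩
  rw [he, h3]

/-- [C8d4] PROOF. `lift1 hT g` for the representation `Vr hT l` and the sections `fun a => vr hT l a • m` (`Vr_hw`: `v_mem`, `v_inv`, `v_eig`): regular and of weight `l` (`Q.s i` is linear), invariant (`wO _ w (c • F) = (w • c) • wO _ w F`), slot condition `∑ b, sE a b • v b • m = (val l * v a) • m`. -/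
theorem liftT (hT : TQ Q) (g : ℕ) {ε : L → Bool} {l : X} {m : (G.pow L).KO K} (hm : Q.JA ε l m)
    (hi : InvO W l m) : ∃ ψ : F1 Q g ε (Vr hT l), (∀ a, Q.SuppLe l (ψ.1 a)) ∧
      ∀ a, Q.Eu l • (ψ.1 a).coeff l = Q.Eu l ^ g • (vr hT l a • m) := by
  have hV := Vr_hw hT l
  obtain ⟨ψ, h1, h2, h3⟩ := lift1 hT g (p := fun a => vr hT l a • m)
    (fun a => c8d_JA hm (hV.v_mem a)) (fun a => c8d_inv hi fun w hw => hV.v_inv w hw a) (fun a => by
      have h := congrFun hV.v_eig a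
      have h' : ∑ b, Q.sE (Vr hT l) a b * vr hT l b = Q.val l * vr hT l a := h
      simp only [smul_smul]
      rw [← Finset.sum_smul, h'])
  exact ⟨⟨ψ, h1⟩, h2, h3⟩

/-- [C8d5] PROOF. The same with `lift1'`, `vr'`. -/
theorem liftT' (hT : TQ Q) (g : ℕ) {ε : L → Bool} {l : X} {m : (G.pow L).KO K} (hm : Q.JA ε l m)
    (hi : InvO W l m) : ∃ ψ : F1' Q g ε (Vr hT l), (∀ a, Q.SuppLe l (ψ.1 a)) ∧
      ∀ a, Q.Eu l • (ψ.1 a).coeff l = Q.Eu l ^ g • (vr' hT l a • m) := by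
  have hV := Vr_hw hT l
  obtain ⟨ψ, h1, h2, h3⟩ := lift1' hT g (p := fun a => vr' hT l a • m)
    (fun a => c8d_JA hm (hV.v'_mem a)) (fun a => c8d_inv hi fun w hw => hV.v'_inv w hw a) (fun a => by
      have h := congrFun hV.v'_eig a
      have h' : ∑ b, vr' hT l b * Q.sE (Vr hT l) b a = Q.val l * vr' hT l a := h
      simp only [smul_smul]
      rw [← Finset.sum_smul, ← h']
      congr 1
      exact Finset.sum_congr rfl fun b _ => mul_comm _ _)
  exact ⟨⟨ψ, h1⟩, h2, h3⟩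

/-- [C8d6] PROOF. The same with `lift2`, sections `fun a a' => (vr hT l a * vr' hT l a') • m`. -/
theorem liftT2 (hT : TQ Q) (g : ℕ) {ε : L → Bool} {l : X} {m : (G.pow L).KO K} (hm : Q.JA ε l m)
    (hi : InvO W l m) : ∃ ψ : F2 Q g ε (Vr hT l) (Vr hT l), (∀ a a', Q.SuppLe l (ψ.1 a a')) ∧
      ∀ a a', Q.Eu l • (ψ.1 a a').coeff l = Q.Eu l ^ g • ((vr hT l a * vr' hT l a') • m) := by
  have hV := Vr_hw hT l
  obtain ⟨ψ, h1, h2, h3⟩ := lift2 hT g (p := fun a a' => (vr hT l a * vr' hT l a') • m)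
    (fun a a' => c8d_JA hm (Q.A.mul_mem (hV.v_mem a) (hV.v'_mem a')))
    (fun a a' => c8d_inv hi fun w hw => by rw [smul_mul', hV.v_inv w hw a, hV.v'_inv w hw a'])
    (fun a a' => by
      have h := congrFun hV.v_eig a
      have h' : ∑ b, Q.sE (Vr hT l) a b * vr hT l b = Q.val l * vr hT l a := h
      simp only [smul_smul]
      rw [← Finset.sum_smul, ← mul_assoc, ← h', Finset.sum_mul]
      congr 1
      exact Finset.sum_congr rfl fun b _ => by ring)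
    (fun a a' => by
      have h := congrFun hV.v'_eig a'
      have h' : ∑ b, vr' hT l b * Q.sE (Vr hT l) b a' = Q.val l * vr' hT l a' := h
      simp only [smul_smul]
      rw [← Finset.sum_smul, mul_left_comm, ← h', Finset.mul_sum]
      congr 1
      exact Finset.sum_congr rfl fun b _ => by ring)
  exact ⟨⟨ψ, h1⟩, h2, h3⟩

/-- [C8d7] A family with support in `W l ∪ {N < N l}` and vanishing component at `l` has support in `{N < N l}`. PROOF. If `F.coeff m ≠ 0` and `m = w • l`, then `F.coeff m = wO _ w (F.coeff l) = 0` (`h.inv`). -/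
theorem supp_lt {g : ℕ} {ε : L → Bool} {l : X} {F : RR G K X L} (h : Q.Fam g ε F) (hs : Q.SuppLe l F)
    (h0 : F.coeff l = 0) (m : X) (hm : F.coeff m ≠ 0) : Q.N m < Q.N l := by
  rcases hs m hm with ⟨w, rfl⟩ | h'
  · exfalso
    apply hm
    rw [← h.inv, h0, map_zero]
  · exact h'

end

end Pool.Agent.MTF
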