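import Pool.Agent.MTF.C9a
import Pool.Agent.MTF.C9b

/-!
# MTF : part C, invariants of self-glueing, first form
-/

set_option linter.unusedSectionVars false

namespace Pool.Agent.MTF

open AffGrp TensorProduct

section
variable {G : AffGrp} {K W X : Type} [Field K] [Algebra ℂ K] [Group W] [Fintype W]
  [MulSemiringAction W K] [SMulCommClass W ℂ K] [AddCommGroup X] [DistribMulAction W X]
variable {L : Type} [Finite L] [DecidableEq L] {Q : TQD G K W X}
variable {g : ℕ} {ε : L → Bool} {B : Type} [CommRing B] [Algebra ℂ B]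

theorem c9g_dcoi (E : Rep G) (D : G.Lie) (a b : E.ι) :
    D.1 (E.coi a b) = - D.1 (E.co a b) := by
  have h0 : D.1 (1 : G.O) = 0 := by
    have h := D.2 1 1
    rw [mul_one] at h
    have h1 : ((1 : G.O).1 1) = 1 := rfl
    rw [h1, one_mul] at h
    linear_combination -h
  have h1 : ∑ c, E.co a c * E.coi c b = algebraMap ℂ G.O (if a = b then 1 else 0) := by
    apply Subtype.ext
    funext x
    have h2 : (∑ c, E.co a c * E.coi c b).1 = ∑ c, (E.co a c * E.coi c b).1 :=
      AddSubmonoidClass.coe_finsetSum _ _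
    rw [h2, Finset.sum_apply]
    exact E.mul_inv x a b
  have h2 := congrArg D.1 h1
  rw [map_sum] at h2
  have h3 : D.1 (algebraMap ℂ G.O (if a = b then 1 else 0)) = 0 := by
    rw [Algebra.algebraMap_eq_smul_one, map_smul, h0, smul_zero]
  rw [h3] at h2
  have h4 : ∀ c, D.1 (E.co a c * E.coi c b) = (if a = c then 1 else 0) * D.1 (E.coi c b) +
      (if c = b then 1 else 0) * D.1 (E.co a c) := by
    intro c
    have h := D.2 (E.co a c) (E.coi c b)
    have h5 : (E.co a c).1 1 = if a = c then 1 else 0 := by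
      show E.ρ 1 a c = _
      rw [map_one, Matrix.one_apply]
    have h6 : (E.coi c b).1 1 = if c = b then 1 else 0 := by
      show E.ρ 1⁻¹ c b = _
      rw [inv_one, map_one, Matrix.one_apply]
    rw [h, h5, h6]
  simp only [h4, Finset.sum_add_distrib, ite_mul, one_mul, zero_mul, Finset.sum_ite_eq,
    Finset.sum_ite_eq', Finset.mem_univ, if_true] at h2
  linear_combination h2

theorem c9g_s1_coi (Q : TQD G K W X) (E : Rep G) (a b : E.ι) :
    (Q.s1 (inc K (E.coi a b))).1 1 = - Q.sE E a b := by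
  rw [s1_apply]
  have h : ltK (1 : G.X) (inc K (E.coi a b)) = inc K (E.coi a b) := by
    apply KO_ext
    intro y
    show algebraMap ℂ K ((E.coi a b).1 (1 * y)) = _
    rw [one_mul]
    rfl
  rw [h]
  unfold TQD.sE
  rw [← Finset.sum_neg_distrib]
  refine Finset.sum_congr rfl fun j _ => ?_
  rw [ext_inc, c9g_dcoi, map_neg, mul_neg]

/-- the dual representation -/
noncomputable def c9g_dual (E : Rep G) : Rep G where
  ι := E.ι
  ρ :=
    { toFun := fun x => (E.ρ x⁻¹).transpose
      map_one' := by rw [inv_one, map_one, Matrix.transpose_one]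
      map_mul' := fun x y => by
        rw [← Matrix.transpose_mul, ← map_mul, _root_.mul_inv_rev] }
  mem a b := G.inv_mem _ (E.mem b a)

theorem c9g_rep (P : RP Q g (optS true (optS false ε)) B) (z : B) :
    ∃ (E : Rep G) (b : E.ι → B) (c : E.ι → ℂ),
      (∀ x j, P.act (pt1 x) (b j) = ∑ k, E.ρ x⁻¹ j k • b k) ∧ z = ∑ j, c j • b j := by
  obtain ⟨E₀, b, -, hb, hmem, -⟩ := rep_of (rat_act1 P) (fun _ : Fin 1 => z)
  obtain ⟨c, hc⟩ := (Submodule.mem_span_range_iff_exists_fun ℂ).1 (hmem 0)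
  refine ⟨c9g_dual E₀, b, c, fun x j => ?_, hc.symm⟩
  have h := hb x j
  show P.act (pt1 x) (b j) = ∑ k : E₀.ι, ((E₀.ρ x⁻¹⁻¹).transpose) j k • b k
  rw [inv_inv]
  exact h

theorem c9g_alg {ι K : Type} [Fintype ι] [Field K] (c : ι → K) (s r : ι → ι → K) (f : ι → K) (v : K)
    (h : ∑ j, ∑ n, (∑ l, c j * (r n l * f l)) * (- s j n) = -v * ∑ j, ∑ l, c j * r j l * f l) :
    ∑ j, ∑ l, (∑ e, c e * s e j - v * c j) * r j l * f l = 0 := by
  have h1 : ∑ j, ∑ l, (∑ e, c e * s e j - v * c j) * r j l * f l =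
      (∑ j, ∑ e, (∑ l, c e * (r j l * f l)) * s e j) - v * ∑ j, ∑ l, c j * r j l * f l := by
    rw [Finset.mul_sum, ← Finset.sum_sub_distrib]
    refine Finset.sum_congr rfl fun j _ => ?_
    have h2 : ∑ e, (∑ l, c e * (r j l * f l)) * s e j = ∑ l, ∑ e, c e * (r j l * f l) * s e j := by
      rw [Finset.sum_comm]
      exact Finset.sum_congr rfl fun e _ => Finset.sum_mul _ _ _
    rw [h2, Finset.mul_sum, ← Finset.sum_sub_distrib]
    refine Finset.sum_congr rfl fun l _ => ?_
    rw [sub_mul, sub_mul, Finset.sum_mul, Finset.sum_mul]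
    congr 1
    · exact Finset.sum_congr rfl fun e _ => by ring
    · ring
  rw [h1, Finset.sum_comm]
  simp only [mul_neg, Finset.sum_neg_distrib] at h
  linear_combination -h

/-- [C9g] PROOF. `rep_of (rat_act1 P)` (legs `Option L`, sign `true` at `none`) for the single vector `z` gives `E₀`, `b : E₀.ι → B` with `P.act (pt1 x) (b j) = ∑ k, E₀.ρ x k j • b k` and `z = ∑ j, c j • b j`. `E :=` the dual: `E.ι := E₀.ι`, `E.ρ x j k := E₀.ρ x⁻¹ k j` (a `Rep`: `G.inv_mem`, `Matrix.transpose`). `restr P E b` gives `φ₁ : F1 Q g (optS false ε) E` with `P.indB E j φ₁ = b j`; `φ.1 j := fm X (ev1 K) (φ₁.1 j)` (`Fam_ev1`; `slot`: `ev1` of `φ₁.2.slot`).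
First claim: `z(k, k', q) = ∑ j l, c j * E.ρ(k) j l * φ₁ l (k', q)` (`ind_coeff`), where `k = none`, `k' = some none` coordinates and `q` the others; invariance (`hz k'⁻¹`, `gact_apply`) `z(k, k', q) = z(k'⁻¹ k, 1, q)`: `∑ j l, c j * E.ρ(k'⁻¹ k) j l * φ l (q)`. Second claim: weight of `z` in the leg `some none`: `(P.fam z).wt m (some none)` at the point `optP h (optP 1 q)`: by `s_apply` the left side is `(Q.s1 S).1 1` for the slice `S y = z(h, y, q) = ∑ n, (∑ j l, c j * E.ρ(y⁻¹) j n * E.ρ(h) n l * φ l (q))` (first claim, `map_mul`), i. e. `S = ∑ j n, a j n • inc K (E.coi j n)` with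
`a j n := ∑ l, c j * E.ρ(h) n l * φ l (q)`, and `D.1 (E.coi j n) = - D.1 (E.co j n)` (see C6a, C9a2), so the left side is `- ∑ j n, a j n * Q.sE E j n`; the right side is `Q.val (sgn false • m) * z(h, 1, q) = - Q.val m * ∑ j l, c j * E.ρ(h) j l * φ l (q)`. -/
theorem S2a (P : RP Q g (optS true (optS false ε)) B) (z : B) (hz : ∀ x, P.act (pt2 x) z = z) :
    ∃ (E : Rep G) (c : E.ι → ℂ) (φ : F1 Q g ε E),
      (∀ m (k : Option (Option L) → G.X), ((P.i z).coeff m).1 k =
        ∑ j, ∑ l, algebraMap ℂ K (c j * E.ρ ((k (some none))⁻¹ * k none) j l) *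
          ((φ.1 l).coeff m).1 (fun i => k (some (some i)))) ∧
      ∀ m (h : G.X) (q : L → G.X), ∑ j, ∑ l, (∑ e, algebraMap ℂ K (c e) * Q.sE E e j - Q.val m * algebraMap ℂ K (c j)) *
        algebraMap ℂ K (E.ρ h j l) * ((φ.1 l).coeff m).1 q = 0 := by
  classical
  obtain ⟨E, b, c, hb, hzc⟩ := c9g_rep P z
  obtain ⟨φ₁, -, h2⟩ := restr P E b hb
  have hslot : ∀ m a, ∑ b, Q.sE E a b • (fm X (ev1 K) (φ₁.1 b)).coeff m =
      Q.val m • (fm X (ev1 K) (φ₁.1 a)).coeff m := by
    intro m a
    have h3 := congrArg (ev1 K) (φ₁.2.slot m a)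
    rw [map_sum, map_smul] at h3
    rw [coeff_fm, ← h3]
    refine Finset.sum_congr rfl fun d _ => ?_
    rw [coeff_fm, map_smul]
  obtain ⟨φ, hφ⟩ : ∃ φ : F1 Q g ε E, ∀ j, φ.1 j = fm X (ev1 K) (φ₁.1 j) :=
    ⟨⟨fun j => fm X (ev1 K) (φ₁.1 j), ⟨fun a => Fam_ev1 (φ₁.2.fam a), hslot⟩⟩, fun _ => rfl⟩
  have hA : ∀ m (k : Option (Option L) → G.X), ((P.i z).coeff m).1 k =
      ∑ j, ∑ l, algebraMap ℂ K (c j * E.ρ (k none) j l) * ((φ₁.1 l).coeff m).1 (k ∘ some) := by
    intro m k
    have e1 : P.i z = ∑ j, c j • ind E φ₁.1 j := by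
      rw [hzc, map_sum]
      refine Finset.sum_congr rfl fun j _ => ?_
      rw [map_smul, ← P.i_indB, h2]
    rw [e1, AddMonoidAlgebra.coeff_sum, Finsupp.finsetSum_apply, KO_sum]
    refine Finset.sum_congr rfl fun j _ => ?_
    have e2 : ((c j • ind E φ₁.1 j).coeff m).1 k =
        algebraMap ℂ K (c j) * ((ind E φ₁.1 j).coeff m).1 k := by
      rw [← Algebra.smul_def]
      rfl
    rw [e2, ind_coeff, Finset.mul_sum]
    refine Finset.sum_congr rfl fun l _ => ?_
    rw [map_mul, mul_assoc]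
  have hB : ∀ m (k : Option (Option L) → G.X), ((P.i z).coeff m).1 k =
        ∑ j, ∑ l, algebraMap ℂ K (c j * E.ρ ((k (some none))⁻¹ * k none) j l) *
          ((φ.1 l).coeff m).1 (fun i => k (some (some i))) := by
    intro m k
    have e1 : gact (pt2 (k (some none))) (P.i z) = P.i z := by rw [← P.i_act, hz]
    have e2 : ((P.i z).coeff m).1 k = ((P.i z).coeff m).1 ((pt2 (k (some none)))⁻¹ * k) := by
      have h3 := gact_apply (pt2 (k (some none))) (P.i z) m k
      rw [e1] at h3
      exact h3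
    have e3 : (((pt2 (k (some none)))⁻¹ * k : Option (Option L) → G.X)) ∘ some =
        optP 1 (fun i => k (some (some i))) := by
      funext o
      cases o with
      | none => exact inv_mul_cancel _
      | some i =>
        show (1 : G.X)⁻¹ * k (some (some i)) = k (some (some i))
        rw [inv_one, one_mul]
    refine Eq.trans e2 (Eq.trans (hA m _) ?_)
    refine Finset.sum_congr rfl fun j _ => Finset.sum_congr rfl fun l _ => ?_
    rw [hφ, coeff_fm, ev1_apply]
    exact congrArg (fun p => algebraMap ℂ K (c j * E.ρ ((k (some none))⁻¹ * k none) j l) *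
      ((φ₁.1 l).coeff m).1 p) e3
  refine ⟨E, c, φ, hB, fun m h q => ?_⟩
  have e1 := congrArg (fun F : (G.pow (Option (Option L))).KO K => F.1 (optP h (optP 1 q)))
    ((P.fam z).wt m (some none))
  beta_reduce at e1
  rw [s_apply, KO_smul, hB] at e1
  have e0 : (optP h (optP 1 q) : Option (Option L) → G.X) (some none) = 1 := rfl
  have e0' : (optP h (optP 1 q) : Option (Option L) → G.X) none = h := rfl
  have e0'' : (fun i => (optP h (optP 1 q) : Option (Option L) → G.X) (some (some i))) = q := rfl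
  have eS : sl K (optP h (optP 1 q)) (some none) ((P.i z).coeff m) =
      ∑ j, ∑ n, (∑ l, algebraMap ℂ K (c j) * (algebraMap ℂ K (E.ρ h n l) *
        ((φ.1 l).coeff m).1 q)) • inc K (E.coi j n) := by
    apply KO_ext
    intro y
    rw [sl_apply, hB]
    have u1 : Function.update (optP h (optP 1 q) : Option (Option L) → G.X) (some none) y
        (some none) = y := Function.update_self _ _ _
    have u2 : Function.update (optP h (optP 1 q) : Option (Option L) → G.X) (some none) y none = h :=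
      Function.update_of_ne (by simp) _ _
    have u3 : (fun i => Function.update (optP h (optP 1 q) : Option (Option L) → G.X) (some none) y
        (some (some i))) = q := by
      funext i
      exact Function.update_of_ne (by simp) _ _
    rw [u1, u2, u3, KO_sum]
    refine Finset.sum_congr rfl fun j _ => ?_
    rw [KO_sum]
    have r1 : ∀ n, ((∑ l, algebraMap ℂ K (c j) * (algebraMap ℂ K (E.ρ h n l) *
        ((φ.1 l).coeff m).1 q)) • inc K (E.coi j n)).1 y =
        ∑ l, algebraMap ℂ K (c j) * (algebraMap ℂ K (E.ρ h n l) *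
          ((φ.1 l).coeff m).1 q) * algebraMap ℂ K (E.ρ y⁻¹ j n) := by
      intro n
      rw [KO_smul, Finset.sum_mul]
      rfl
    rw [Finset.sum_congr rfl fun n _ => r1 n, Finset.sum_comm]
    refine Finset.sum_congr rfl fun l _ => ?_
    rw [map_mul E.ρ, Matrix.mul_apply, map_mul, map_sum, Finset.mul_sum, Finset.sum_mul]
    refine Finset.sum_congr rfl fun n _ => ?_
    rw [map_mul]
    ring
  rw [eS, e0, e0', e0'', inv_one, one_mul, map_sum, KO_sum] at e1
  have e2 : ∀ j, (Q.s1 (∑ n, (∑ l, algebraMap ℂ K (c j) * (algebraMap ℂ K (E.ρ h n l) *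
        ((φ.1 l).coeff m).1 q)) • inc K (E.coi j n))).1 1 =
      ∑ n, (∑ l, algebraMap ℂ K (c j) * (algebraMap ℂ K (E.ρ h n l) *
        ((φ.1 l).coeff m).1 q)) * (- Q.sE E j n) := by
    intro j
    rw [map_sum, KO_sum]
    refine Finset.sum_congr rfl fun n _ => ?_
    rw [map_smul, KO_smul, c9g_s1_coi]
  rw [Finset.sum_congr rfl fun j _ => e2 j] at e1
  have e3 : Q.val (sgn (optS true (optS false ε) (some none)) • m) = - Q.val m := by
    have h4 : sgn (optS true (optS false ε) (some none)) = -1 := rfl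
    rw [h4, neg_one_zsmul, map_neg]
  rw [e3] at e1
  refine c9g_alg (fun j => algebraMap ℂ K (c j)) (Q.sE E) (fun j l => algebraMap ℂ K (E.ρ h j l))
    (fun l => ((φ.1 l).coeff m).1 q) (Q.val m) ?_
  rw [e1]
  congr 1
  refine Finset.sum_congr rfl fun j _ => Finset.sum_congr rfl fun l _ => ?_
  rw [map_mul]

end

end Pool.Agent.MTF
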