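import Pool.Agent.MTF.C9f
import Pool.Agent.MTF.C9g

/-!
# MTF : part C, invariants (S2)
-/

set_option linter.unusedSectionVars false

namespace Pool.Agent.MTF

open AffGrp TensorProduct

section c9h
variable {ι : Type} [Fintype ι] [DecidableEq ι]

theorem c9h_l (R : Matrix ι ι ℂ) (e d : ι) :
    R * Matrix.single e d 1 = ∑ e', R e' e • Matrix.single e' d (1 : ℂ) := by
  ext a b
  rw [Matrix.sum_apply, Matrix.mul_apply]
  simp only [Matrix.smul_apply, Matrix.single_apply, smul_eq_mul]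
  by_cases h : d = b
  · subst h
    simp
  · simp [h]

theorem c9h_r (R : Matrix ι ι ℂ) (e d : ι) :
    Matrix.single e d 1 * R = ∑ d', R d d' • Matrix.single e d' (1 : ℂ) := by
  ext a b
  rw [Matrix.sum_apply, Matrix.mul_apply]
  simp only [Matrix.smul_apply, Matrix.single_apply, smul_eq_mul]
  by_cases h : e = a
  · subst h
    simp
  · simp [h]

theorem c9h_tr (R : Matrix ι ι ℂ) (e d : ι) : (Matrix.single e d 1 * R).trace = R d e := by
  unfold Matrix.trace
  simp only [Matrix.diag_apply, Matrix.mul_apply, Matrix.single_apply]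
  rw [Finset.sum_eq_single e, Finset.sum_eq_single d]
  · simp
  · intro t _ ht
    rw [if_neg (fun h => ht h.2.symm), zero_mul]
  · intro h
    exact (h (Finset.mem_univ d)).elim
  · intro t _ ht
    refine Finset.sum_eq_zero fun t' _ => ?_
    rw [if_neg (fun h => ht h.1.symm), zero_mul]
  · intro h
    exact (h (Finset.mem_univ e)).elim

variable {K : Type} [Field K]

theorem c9h_alg1 (s : ι → ι → K) (f : ι → K) (v : K) (p : ι → ι → ι → ι → K) (c : ι → K)
    (hf : ∀ e', ∑ e, s e' e * f e = v * f e')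
    (hA : ∀ a b e d, ∑ e', p a b e' d * s e' e = ∑ a', p a' b e d * s a a') (a a' : ι) :
    ∑ b, s a b * ∑ e, ∑ d, p b a' e d * c d * f e = v * ∑ e, ∑ d, p a a' e d * c d * f e := by
  calc ∑ b, s a b * ∑ e, ∑ d, p b a' e d * c d * f e
      = ∑ e, ∑ d, (∑ b, p b a' e d * s a b) * (c d * f e) := by
        simp only [Finset.mul_sum, Finset.sum_mul]
        rw [Finset.sum_comm]
        refine Finset.sum_congr rfl fun e _ => ?_
        rw [Finset.sum_comm]
        exact Finset.sum_congr rfl fun d _ => Finset.sum_congr rfl fun b _ => by ring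
    _ = ∑ e, ∑ d, (∑ e', p a a' e' d * s e' e) * (c d * f e) := by
        simp only [← hA]
    _ = ∑ e', ∑ d, p a a' e' d * c d * (∑ e, s e' e * f e) := by
        simp only [Finset.mul_sum, Finset.sum_mul]
        rw [Finset.sum_comm]
        conv_rhs => rw [Finset.sum_comm]
        refine Finset.sum_congr rfl fun d _ => ?_
        rw [Finset.sum_comm]
        exact Finset.sum_congr rfl fun e' _ => Finset.sum_congr rfl fun e _ => by ring
    _ = v * ∑ e, ∑ d, p a a' e d * c d * f e := by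
        simp only [hf, Finset.mul_sum]
        exact Finset.sum_congr rfl fun e' _ => Finset.sum_congr rfl fun e _ => by ring

theorem c9h_alg2 (s : ι → ι → K) (f : ι → K) (v : K) (p : ι → ι → ι → ι → K) (c : ι → K)
    (hB : ∀ a b e d, ∑ d', p a b e d' * s d d' = ∑ b', p a b' e d * s b' b)
    (h0 : ∀ a b, ∑ e, ∑ d, p a b e d * ((∑ t, c t * s t d) - v * c d) * f e = 0) (a b : ι) :
    ∑ b', s b' b * ∑ e, ∑ d, p a b' e d * c d * f e = v * ∑ e, ∑ d, p a b e d * c d * f e := by
  have h1 : ∑ b', s b' b * ∑ e, ∑ d, p a b' e d * c d * f e =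
      ∑ e, ∑ d', p a b e d' * (∑ d, c d * s d d') * f e := by
    calc ∑ b', s b' b * ∑ e, ∑ d, p a b' e d * c d * f e
        = ∑ e, ∑ d, (∑ b', p a b' e d * s b' b) * (c d * f e) := by
          simp only [Finset.mul_sum, Finset.sum_mul]
          rw [Finset.sum_comm]
          refine Finset.sum_congr rfl fun e _ => ?_
          rw [Finset.sum_comm]
          exact Finset.sum_congr rfl fun d _ => Finset.sum_congr rfl fun b _ => by ring
      _ = ∑ e, ∑ d, (∑ d', p a b e d' * s d d') * (c d * f e) := by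
          simp only [← hB]
      _ = ∑ e, ∑ d', p a b e d' * (∑ d, c d * s d d') * f e := by
          simp only [Finset.mul_sum, Finset.sum_mul]
          refine Finset.sum_congr rfl fun e _ => ?_
          rw [Finset.sum_comm]
          exact Finset.sum_congr rfl fun d' _ => Finset.sum_congr rfl fun d _ => by ring
  have h2 := h0 a b
  have h3 : ∑ e, ∑ d, p a b e d * ((∑ t, c t * s t d) - v * c d) * f e =
      ∑ e, ∑ d', p a b e d' * (∑ d, c d * s d d') * f e -
        v * ∑ e, ∑ d, p a b e d * c d * f e := by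
    rw [Finset.mul_sum, ← Finset.sum_sub_distrib]
    refine Finset.sum_congr rfl fun e _ => ?_
    rw [Finset.mul_sum, ← Finset.sum_sub_distrib]
    exact Finset.sum_congr rfl fun d _ => by ring
  rw [h1]
  rw [h3] at h2
  exact sub_eq_zero.1 h2

theorem c9h_alg3 (f : ι → K) (p : ι → ι → ι → ι → K) (c : ι → K) (r1 r2 R : ι → ι → K)
    (hR : ∀ b' b, ∑ a, r1 a b * r2 b' a = R b' b)
    (hp : ∀ e d, ∑ b, ∑ b', p b b' e d * R b' b = R d e) :
    ∑ j, ∑ l, c j * R j l * f l =
      ∑ a, ∑ b, ∑ b', r1 a b * r2 b' a * ∑ e, ∑ d, p b b' e d * c d * f e := by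
  symm
  calc ∑ a, ∑ b, ∑ b', r1 a b * r2 b' a * ∑ e, ∑ d, p b b' e d * c d * f e
      = ∑ b, ∑ b', (∑ a, r1 a b * r2 b' a) * ∑ e, ∑ d, p b b' e d * c d * f e := by
        rw [Finset.sum_comm]
        refine Finset.sum_congr rfl fun b _ => ?_
        rw [Finset.sum_comm]
        exact Finset.sum_congr rfl fun b' _ => (Finset.sum_mul _ _ _).symm
    _ = ∑ b, ∑ b', R b' b * ∑ e, ∑ d, p b b' e d * c d * f e := by
        simp only [hR]
    _ = ∑ e, ∑ d, (∑ b, ∑ b', p b b' e d * R b' b) * (c d * f e) := by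
        simp only [Finset.mul_sum, Finset.sum_mul]
        have h1 : ∀ b, ∑ b', ∑ e, ∑ d, R b' b * (p b b' e d * c d * f e) =
            ∑ e, ∑ d, ∑ b', R b' b * (p b b' e d * c d * f e) := by
          intro b
          rw [Finset.sum_comm]
          refine Finset.sum_congr rfl fun e _ => ?_
          rw [Finset.sum_comm]
        simp only [h1]
        rw [Finset.sum_comm]
        refine Finset.sum_congr rfl fun e _ => ?_
        rw [Finset.sum_comm]
        exact Finset.sum_congr rfl fun d _ => Finset.sum_congr rfl fun b _ =>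
          Finset.sum_congr rfl fun b' _ => by ring
    _ = ∑ e, ∑ d, R d e * (c d * f e) := by
        simp only [hp]
    _ = ∑ j, ∑ l, c j * R j l * f l := by
        rw [Finset.sum_comm]
        exact Finset.sum_congr rfl fun d _ => Finset.sum_congr rfl fun e _ => by ring

end c9h

section
variable {G : AffGrp} {K W X : Type} [Field K] [Algebra ℂ K] [Group W] [Fintype W]
  [MulSemiringAction W K] [SMulCommClass W ℂ K] [AddCommGroup X] [DistribMulAction W X]
variable {L : Type} [Finite L] [DecidableEq L] {Q : TQD G K W X}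
variable {g : ℕ} {ε : L → Bool} {B : Type} [CommRing B] [Algebra ℂ B]

/-- the linear functional `∑ c j D j` -/
noncomputable def c9h_s (Q : TQD G K W X) : G.O →ₗ[ℂ] K where
  toFun f := ∑ j, Q.c j * algebraMap ℂ K ((Q.D j).1 f)
  map_add' f g := by simp only [map_add, mul_add, Finset.sum_add_distrib]
  map_smul' a f := by
    rw [RingHom.id_apply, Finset.smul_sum]
    refine Finset.sum_congr rfl fun j _ => ?_
    rw [map_smul, smul_eq_mul, map_mul, Algebra.smul_def]
    ring

theorem c9h_s_co (Q : TQD G K W X) (E : Rep G) (a b : E.ι) : c9h_s Q (E.co a b) = Q.sE E a b := rfl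

theorem c9h_rel (Q : TQD G K W X) (E : Rep G) (u v : E.ι → ℂ) (i1 i2 j1 j2 : E.ι → E.ι)
    (h : ∀ x, ∑ t, u t * E.ρ x (i1 t) (i2 t) = ∑ t, v t * E.ρ x (j1 t) (j2 t)) :
    ∑ t, algebraMap ℂ K (u t) * Q.sE E (i1 t) (i2 t) =
      ∑ t, algebraMap ℂ K (v t) * Q.sE E (j1 t) (j2 t) := by
  have key : ∑ t, u t • E.co (i1 t) (i2 t) = ∑ t, v t • E.co (j1 t) (j2 t) := by
    apply Subtype.ext
    funext x
    rw [AddSubmonoidClass.coe_finsetSum, Finset.sum_apply, AddSubmonoidClass.coe_finsetSum,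
      Finset.sum_apply]
    exact h x
  have h1 := congrArg (c9h_s Q) key
  rw [map_sum, map_sum] at h1
  simp only [map_smul, c9h_s_co] at h1
  simp only [Algebra.smul_def] at h1
  exact h1

theorem c9h_A (Q : TQD G K W X) (E : Rep G) (π : Matrix E.ι E.ι ℂ →ₗ[ℂ] Matrix E.ι E.ι ℂ)
    (hπ : ∀ x Z, π (E.ρ x * Z) = E.ρ x * π Z) (a b e d : E.ι) :
    ∑ e', algebraMap ℂ K (π (Matrix.single e' d 1) a b) * Q.sE E e' e =
      ∑ a', algebraMap ℂ K (π (Matrix.single e d 1) a' b) * Q.sE E a a' := by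
  refine c9h_rel Q E (fun e' => π (Matrix.single e' d 1) a b)
    (fun a' => π (Matrix.single e d 1) a' b) (fun t => t) (fun _ => e) (fun _ => a) (fun t => t) ?_
  intro x
  have h := congrFun (congrFun (hπ x (Matrix.single e d 1)) a) b
  rw [c9h_l, map_sum, Matrix.sum_apply, Matrix.mul_apply] at h
  simp only [map_smul, Matrix.smul_apply, smul_eq_mul] at h
  simp only [mul_comm _ (E.ρ x _ _)]
  exact h

theorem c9h_B (Q : TQD G K W X) (E : Rep G) (π : Matrix E.ι E.ι ℂ →ₗ[ℂ] Matrix E.ι E.ι ℂ)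
    (hπ : ∀ x Z, π (Z * E.ρ x) = π Z * E.ρ x) (a b e d : E.ι) :
    ∑ d', algebraMap ℂ K (π (Matrix.single e d' 1) a b) * Q.sE E d d' =
      ∑ b', algebraMap ℂ K (π (Matrix.single e d 1) a b') * Q.sE E b' b := by
  refine c9h_rel Q E (fun d' => π (Matrix.single e d' 1) a b)
    (fun b' => π (Matrix.single e d 1) a b') (fun _ => d) (fun t => t) (fun t => t) (fun _ => b) ?_
  intro x
  have h := congrFun (congrFun (hπ x (Matrix.single e d 1)) a) b
  rw [c9h_r, map_sum, Matrix.sum_apply, Matrix.mul_apply] at h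
  simp only [map_smul, Matrix.smul_apply, smul_eq_mul] at h
  refine Eq.trans ?_ h
  exact Finset.sum_congr rfl fun t _ => mul_comm _ _

theorem c9h_zero (E : Rep G) (π : Matrix E.ι E.ι ℂ →ₗ[ℂ] Matrix E.ι E.ι ℂ)
    (hπ : ∀ a b, ∃ (n : ℕ) (c : Fin n → ℂ) (x : Fin n → G.X),
      ∀ Z, π Z a b = ∑ i, c i * (Z * E.ρ (x i)).trace) (y f : E.ι → K)
    (h : ∀ x, ∑ j, ∑ l, y j * algebraMap ℂ K (E.ρ x j l) * f l = 0) (a b : E.ι) :
    ∑ e, ∑ d, algebraMap ℂ K (π (Matrix.single e d 1) a b) * y d * f e = 0 := by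
  obtain ⟨n, γ, x, hx⟩ := hπ a b
  have h1 : ∀ e d, algebraMap ℂ K (π (Matrix.single e d 1) a b) =
      ∑ i, algebraMap ℂ K (γ i) * algebraMap ℂ K (E.ρ (x i) d e) := by
    intro e d
    rw [hx, map_sum]
    refine Finset.sum_congr rfl fun i _ => ?_
    rw [c9h_tr, map_mul]
  have h2 : ∑ e, ∑ d, algebraMap ℂ K (π (Matrix.single e d 1) a b) * y d * f e =
      ∑ i, algebraMap ℂ K (γ i) * ∑ d, ∑ e, y d * algebraMap ℂ K (E.ρ (x i) d e) * f e := by
    simp only [h1, Finset.sum_mul, Finset.mul_sum]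
    rw [Finset.sum_comm]
    have h3 : ∀ d, ∑ e, ∑ i, algebraMap ℂ K (γ i) * algebraMap ℂ K (E.ρ (x i) d e) * y d * f e =
        ∑ i, ∑ e, algebraMap ℂ K (γ i) * algebraMap ℂ K (E.ρ (x i) d e) * y d * f e :=
      fun d => Finset.sum_comm
    simp only [h3]
    rw [Finset.sum_comm]
    exact Finset.sum_congr rfl fun i _ => Finset.sum_congr rfl fun d _ =>
      Finset.sum_congr rfl fun e _ => by ring
  rw [h2]
  refine Finset.sum_eq_zero fun i _ => ?_
  rw [h (x i), mul_zero]

/-- [C9h] (S2) PROOF. `E`, `c`, `φ` from `S2a P z hz`, `π` from `biproj` (`I` from `hT.cr`). `pc a b e d := π (Matrix.single e d 1) a b`, so `π Z a b = ∑ e d, Z e d * pc a b e d` (`Matrix.matrix_eq_sum_single`). `Ψ a b := ∑ e d, algebraMap ℂ K (pc a b e d * c d) • φ.1 e`. `fam`: `Fam_sum`, `Fam_smul` (constants; `smul_algebraMap`).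
`slot`: `π (ρ(x) * single e d) = ρ(x) * π (single e d)` at `(a, b)` says that the regular functions `∑ e', pc a b e' d • E.co e' e` and `∑ a', pc a' b e d • E.co a a'` are equal; apply `(Q.D j).1`, multiply by `Q.c j`, sum: `∑ e', pc a b e' d * Q.sE E e' e = ∑ a', Q.sE E a a' * pc a' b e d`. So `∑ a', Q.sE E a a' • (Ψ a' b)_m = ∑ e' d, (pc a b e' d * c d) • ∑ e, Q.sE E e' e • (φ e)_m = Q.val m • (Ψ a b)_m` by `φ.2.slot`.
`slot'`: `π (single e d * ρ(x)) = π (single e d) * ρ(x)` gives `∑ d', Q.sE E d d' * pc a b e d' = ∑ b', pc a b' e d * Q.sE E b' b`, so `∑ b', Q.sE E b' b • (Ψ a b')_m = ∑ e d', pc a b e d' * (∑ d, c d * Q.sE E d d') • (φ e)_m`; minus `Q.val m • (Ψ a b)_m` it is `∑ e d', pc a b e d' * y d' • (φ e)_m` with `y d' := ∑ d, c d * Q.sE E d d' - Q.val m * c d'`; by the last property of `π` (`Z = single e d'`: `(single e d' 1 * ρ(x)).trace = ρ(x) d' e`) `pc a b e d' = ∑ i, γ i * E.ρ (x i) d' e`, and the second property in `S2a` with `h := x i` shows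 that it is `0`.
`z = indT P E Ψ`: `P.inj`, `indT_apply`, `map_sum`, `i_indM`, `RR_ext`, `ind2m_coeff`: with `h := (k (some none))⁻¹ * k none` the value of the right side is `∑ a b b', ρ(k) a b * ρ(k'⁻¹) b' a * Ψ b b' = ∑ b b', ρ(h) b' b * Ψ b b' = ∑ e d, c d * φ e * ∑ b b', pc b b' e d * ρ(h) b' b = ∑ e d, c d * φ e * (π (single e d) * ρ(h)).trace = ∑ e d, c d * φ e * ρ(h) d e`. -/
theorem S2 (hT : TQ Q) (P : RP Q g (optS true (optS false ε)) B) (z : B) (hz : ∀ x, P.act (pt2 x) z = z) :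
    ∃ (E : Rep G) (Ψ : F2 Q g ε E E), z = indT P E Ψ := by
  obtain ⟨E, c, φ, h1, h2⟩ := S2a P z hz
  obtain ⟨I, hI1, hIl, hIr⟩ := hT.cr
  obtain ⟨π, hπl, hπr, hπt, hπc⟩ := biproj hI1 hIl hIr E
  -- the family
  have hΨ : ∀ a b m q, (((∑ e, ∑ d, algebraMap ℂ K (π (Matrix.single e d 1) a b * c d) •
      φ.1 e : RR G K X L)).coeff m).1 q =
      ∑ e, ∑ d, algebraMap ℂ K (π (Matrix.single e d 1) a b) * algebraMap ℂ K (c d) *
        ((φ.1 e).coeff m).1 q := by
    intro a b m q
    simp only [AddMonoidAlgebra.coeff_sum, Finsupp.finsetSum_apply, KO_sum,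
      AddMonoidAlgebra.coeff_smul_apply, KO_smul, map_mul]
  have hslot : ∀ m q e', ∑ e, Q.sE E e' e * ((φ.1 e).coeff m).1 q =
      Q.val m * ((φ.1 e').coeff m).1 q := by
    intro m q e'
    have h3 := congrArg (fun F => F.1 q) (φ.2.slot m e')
    simp only [KO_sum, KO_smul] at h3
    exact h3
  refine ⟨E, ⟨fun a b => ∑ e, ∑ d, algebraMap ℂ K (π (Matrix.single e d 1) a b * c d) • φ.1 e,
    ⟨fun a a' => ?_, fun m a a' => ?_, fun m a a' => ?_⟩⟩, ?_⟩
  · exact Fam_sum _ _ fun e _ => Fam_sum _ _ fun d _ =>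
      Fam_smul (φ.2.fam e) (Subalgebra.algebraMap_mem _ _) fun w => smul_algebraMap w _
  · apply KO_ext
    intro q
    rw [KO_sum, KO_smul]
    simp only [KO_smul]
    rw [hΨ]
    simp only [hΨ]
    exact c9h_alg1 (Q.sE E) (fun e => ((φ.1 e).coeff m).1 q) (Q.val m)
      (fun a b e d => algebraMap ℂ K (π (Matrix.single e d 1) a b)) (fun d => algebraMap ℂ K (c d))
      (hslot m q) (c9h_A Q E π hπl) a a'
  · apply KO_ext
    intro q
    rw [KO_sum, KO_smul]
    simp only [KO_smul]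
    rw [hΨ]
    simp only [hΨ]
    refine c9h_alg2 (Q.sE E) (fun e => ((φ.1 e).coeff m).1 q) (Q.val m)
      (fun a b e d => algebraMap ℂ K (π (Matrix.single e d 1) a b)) (fun d => algebraMap ℂ K (c d))
      (c9h_B Q E π hπr) ?_ a a'
    exact c9h_zero E π hπc
      (fun d => (∑ t, algebraMap ℂ K (c t) * Q.sE E t d) - Q.val m * algebraMap ℂ K (c d))
      (fun e => ((φ.1 e).coeff m).1 q) (fun x => h2 m x q)
  · apply P.inj
    rw [indT_apply, map_sum]
    simp only [i_indM]
    apply RR_ext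
    intro m k
    refine (h1 m k).trans ?_
    refine Eq.trans ?_ (ind2_coeff E _ m k).symm
    have e1 : ∀ a b b', algebraMap ℂ K (E.ρ (k none) a b * E.ρ (k (some none))⁻¹ b' a) =
        algebraMap ℂ K (E.ρ (k none) a b) * algebraMap ℂ K (E.ρ (k (some none))⁻¹ b' a) :=
      fun a b b' => map_mul _ _ _
    have e2 : ∀ j l, algebraMap ℂ K (c j * E.ρ ((k (some none))⁻¹ * k none) j l) =
        algebraMap ℂ K (c j) * algebraMap ℂ K (E.ρ ((k (some none))⁻¹ * k none) j l) :=
      fun j l => map_mul _ _ _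
    simp only [e1, e2, hΨ]
    refine c9h_alg3 (fun e => ((φ.1 e).coeff m).1 fun i => k (some (some i)))
      (fun a b e d => algebraMap ℂ K (π (Matrix.single e d 1) a b)) (fun d => algebraMap ℂ K (c d))
      (fun a b => algebraMap ℂ K (E.ρ (k none) a b))
      (fun b' a => algebraMap ℂ K (E.ρ (k (some none))⁻¹ b' a))
      (fun b' b => algebraMap ℂ K (E.ρ ((k (some none))⁻¹ * k none) b' b)) ?_ ?_
    · intro b' b
      rw [map_mul E.ρ, Matrix.mul_apply, map_sum]
      refine Finset.sum_congr rfl fun a _ => ?_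
      rw [map_mul, mul_comm]
    · intro e d
      have h3 := hπt (Matrix.single e d 1) ((k (some none))⁻¹ * k none)
      rw [c9h_tr] at h3
      have h4 : (π (Matrix.single e d 1) * E.ρ ((k (some none))⁻¹ * k none)).trace =
          ∑ b, ∑ b', π (Matrix.single e d 1) b b' * E.ρ ((k (some none))⁻¹ * k none) b' b := rfl
      rw [h4] at h3
      rw [← h3]
      simp only [map_sum, map_mul]

end

end Pool.Agent.MTF
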