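import Pool.Agent.MTF.C8c
import Pool.Agent.MTF.C8d
import Pool.Agent.MTF.C6f
import Pool.Agent.MTF.C9b
import Pool.Agent.MTF.C9h
import Pool.Agent.MTF.C10d
import Pool.Agent.MTF.C11a

/-!
# MTF : part C, self-glueing: the kernel
-/

set_option linter.unusedSectionVars false

namespace Pool.Agent.MTF

open AffGrp TensorProduct

section
variable {G : AffGrp} {K W X : Type} [Field K] [Algebra ℂ K] [Group W] [Fintype W]
  [MulSemiringAction W K] [SMulCommClass W ℂ K] [AddCommGroup X] [DistribMulAction W X]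
variable {L : Type} [Finite L] [DecidableEq L] {Q : TQD G K W X}
variable {g : ℕ} {ε : L → Bool} {B : Type} [CommRing B] [Algebra ℂ B]

/-- the image of the families with values in `End(V_l)` -/
noncomputable def ZD (hT : TQ Q) (P : RP Q g (optS true (optS false ε)) B) (l : X) : AddSubgroup B :=
  (indT P (Vr hT l)).range

/-- [C11c] PROOF. `gen2 hT Ψ n hn : Ψ ∈ Gen2 hT g ε E E n`, closure induction (`indT P E` is additive): for `Ψ = act2L h E (act2R h' V ψ)` with `h : Q.HomJ V E T`, `h' : Q.HomJ E V T'`, `rp W l = l`, `N l < n`: `rel2 hT P h (act2R h' V ψ)` says `indT E (act2L h E (act2R h' V ψ)) - indT V (act2R h V (act2R h' V ψ)) ∈ ID`, and `act2R h V (act2R h' V ψ) : F2 Q g ε V V`, so the second is in `ZD l`. `ZC_I`, `ZC_Zl`. -/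
theorem indT_ZC (hT : TQ Q) (P : RP Q g (optS true (optS false ε)) B) {E : Rep G} (Ψ : F2 Q g ε E E) (n : ℕ)
    (hn : ∀ a a' m, (Ψ.1 a a').coeff m ≠ 0 → Q.N m < n) :
    indT P E Ψ ∈ ZC W Q.N (ID hT P).toAddSubgroup (ZD hT P) n := by
  have hgen := gen2 hT Ψ n hn
  unfold Gen2 at hgen
  refine AddSubgroup.closure_induction (p := fun Ψ _ => indT P E Ψ ∈
    ZC W Q.N (ID hT P).toAddSubgroup (ZD hT P) n) ?_ ?_ ?_ ?_ hgen
  · rintro Ψ' ⟨l, hl, hln, T, h, T', h', ψ, rfl⟩
    have h1 := rel2 hT P h (act2R h' (Vr hT l) ψ)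
    have h2 : indT P E (act2L h E (act2R h' (Vr hT l) ψ)) =
        (indT P E (act2L h E (act2R h' (Vr hT l) ψ)) -
          indT P (Vr hT l) (act2R h (Vr hT l) (act2R h' (Vr hT l) ψ))) +
        indT P (Vr hT l) (act2R h (Vr hT l) (act2R h' (Vr hT l) ψ)) := (sub_add_cancel _ _).symm
    rw [h2]
    exact add_mem (ZC_I h1) (ZC_Zl hl hln ⟨_, rfl⟩)
  · rw [map_zero]
    exact zero_mem _
  · intro x y _ _ hx hy
    rw [map_add]
    exact add_mem hx hy
  · intro x _ hx
    rw [map_neg]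
    exact neg_mem hx

/-- [C11c2] PROOF. `invD` gives `z = z₀ + i`; `Ph_ID`: `Ph P z₀ = 0`; `S2 hT P z₀` gives `z₀ = indT P E Ψ`, in `ZC n` for some `n` (finite supports) by `indT_ZC`. `filt` with `Φ z := fun m => (Ph P z).coeff m`, `I := (ID hT P).toAddSubgroup` (`Ph_ID`), `Zl := ZD hT P`. `supp`: `Ph_indT`, `supp2 (Vr_hw hT l)`. `key`, `z = indT P (Vr hT l) Ψ` with `(Ph P z).coeff l = 0`: `leadT2 hT Ψ` gives `m` with `Eu l • (Ψ a a')_l = Eu l ^ g • (v a * v' a') • m`, so by `Ph_indT` `0 = Eu l • ∑ a, (Ψ a a)_l = Eu l ^ (g + 1) • m` (`pair`) and `m = 0`, `(Ψ a a')_l = 0`;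
`supp_lt` (with `supp2`) gives support in `{N < N l}`, `indT_ZC`. -/
theorem ker2 (hT : TQ Q) (P : RP Q g (optS true (optS false ε)) B) (z : B)
    (hz : ∀ x, P.act (pt2 x) z - z ∈ ID hT P) (h0 : Ph P z = 0) : z ∈ ID hT P := by
  obtain ⟨z₀, hz₀, hi⟩ := invD hT P z hz
  have h1 : Ph P z₀ = 0 := by
    have h2 := Ph_ID hT P hi
    rw [map_sub, h0] at h2
    exact (sub_eq_zero.1 h2).symm
  obtain ⟨E, Ψ, rfl⟩ := S2 hT P z₀ hz₀
  obtain ⟨n, hn⟩ : ∃ n : ℕ, ∀ a a' m, (Ψ.1 a a').coeff m ≠ 0 → Q.N m < n := by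
    classical
    refine ⟨(Finset.univ.biUnion fun a => Finset.univ.biUnion fun a' =>
      (Ψ.1 a a').coeff.support).sup Q.N + 1, ?_⟩
    intro a a' m hm
    refine Nat.lt_succ_of_le (Finset.le_sup ?_)
    exact Finset.mem_biUnion.2 ⟨a, Finset.mem_univ _, Finset.mem_biUnion.2
      ⟨a', Finset.mem_univ _, Finsupp.mem_support_iff.2 hm⟩⟩
  have h3 : indT P E Ψ ∈ (ID hT P).toAddSubgroup := by
    let Φ : B →+ (X → (G.pow L).KO K) :=
      { toFun := fun z m => (Ph P z).coeff m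
        map_zero' := by
          funext m
          rw [map_zero]
          rfl
        map_add' := by
          intro a b
          funext m
          rw [map_add]
          rfl }
    refine filt (W := W) Q.N hT.N_w Φ (ID hT P).toAddSubgroup (ZD hT P) ?_ ?_ ?_ n (indT P E Ψ)
      (indT_ZC hT P Ψ n hn) ?_
    · intro z hz
      funext m
      show (Ph P z).coeff m = 0
      rw [Ph_ID hT P hz]
      rfl
    · rintro l hl z ⟨Ψ, rfl⟩ m hm
      have h4 : ∑ a, (Ψ.1 a a).coeff m ≠ 0 := by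
        rw [← Ph_indT P]
        exact hm
      obtain ⟨a, _, ha⟩ := Finset.exists_ne_zero_of_sum_ne_zero h4
      exact supp2 (Vr_hw hT l) Ψ.2 a a m ha
    · rintro l hl z ⟨Ψ, rfl⟩ hz
      have hz' : ∑ a, (Ψ.1 a a).coeff l = 0 := by
        rw [← Ph_indT P]
        exact hz
      obtain ⟨m, _, _, hm⟩ := leadT2 hT Ψ
      have hEu := hT.Eu_ne l
      have h5 : Q.Eu l ^ g • (Q.Eu l • m) = 0 := by
        have h6 : Q.Eu l • ∑ a, (Ψ.1 a a).coeff l = Q.Eu l ^ g • (Q.Eu l • m) := by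
          rw [Finset.smul_sum, Finset.sum_congr rfl fun a _ => hm a a, ← Finset.smul_sum,
            ← Finset.sum_smul, (Vr_hw hT l).pair]
        rw [← h6, hz', smul_zero]
      have hm0 : m = 0 := by
        rcases smul_eq_zero.1 h5 with h | h
        · exact absurd h (pow_ne_zero _ hEu)
        · rcases smul_eq_zero.1 h with h | h
          · exact absurd h hEu
          · exact h
      have h7 : ∀ a a', (Ψ.1 a a').coeff l = 0 := by
        intro a a'
        have h8 := hm a a'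
        rw [hm0, smul_zero, smul_zero] at h8
        rcases smul_eq_zero.1 h8 with h | h
        · exact absurd h hEu
        · exact h
      exact indT_ZC hT P Ψ (Q.N l) fun a a' m' hm' =>
        supp_lt (Ψ.2.fam a a') (supp2 (Vr_hw hT l) Ψ.2 a a') (h7 a a') m' hm'
    · funext m
      show (Ph P (indT P E Ψ)).coeff m = 0
      rw [h1]
      rfl
  have h9 : z = (z - indT P E Ψ) + indT P E Ψ := (sub_add_cancel _ _).symm
  rw [h9]
  exact (ID hT P).add_mem hi h3

end

end Pool.Agent.MTF
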