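import Pool.Agent.MTF.AGD
import Pool.Agent.MTF.C10e
import Pool.Agent.MTF.C10f
import Pool.Agent.MTF.C10i
import Pool.Agent.MTF.C11b
import Pool.Agent.MTF.C11c

/-!
# MTF : joining (T1) and self-glueing (T2) for the rings `A_{g;L}`
-/

set_option linter.unusedSectionVars false

namespace Pool.Agent.MTF

open AffGrp TensorProduct

section
variable {G : AffGrp} {K W X : Type} [Field K] [Algebra ℂ K] [Group W] [Fintype W]
  [MulSemiringAction W K] [SMulCommClass W ℂ K] [AddCommGroup X] [DistribMulAction W X]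
variable {L : Type} [Finite L] [DecidableEq L] {Q : TQD G K W X}

theorem RPAG_act (hT : TQ Q) (g : ℕ) (ε : L → Bool) (h : g = 0 → Nonempty L) (x : L → G.X) :
    (RPAG hT g ε h).act x = actAG hT g ε x := by
  apply AlgHom.ext
  intro F
  apply (RPAG hT g ε h).inj
  rw [RP.i_act]
  rfl

theorem RPAG_mom (hT : TQ Q) (g : ℕ) (ε : L → Bool) (h : g = 0 → Nonempty L) (l : L) (D : G.Lie) :
    (RPAG hT g ε h).mom hT l (killD G D) = muAG hT g ε l D := by
  apply (RPAG hT g ε h).inj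
  rw [RP.i_mom]
  rfl

section T1
variable {L' : Type} [Finite L'] [DecidableEq L'] {hT : TQ Q} {g g' : ℕ} {ε : L → Bool} {ε' : L' → Bool}

theorem I1_eq : IT hT (RPAG hT g (optS true ε) fun _ => ⟨none⟩) (RPAG hT g' (optS false ε') fun _ => ⟨none⟩) =
    I1 hT g g' ε ε' := by
  unfold IT I1
  simp only [RPAG_mom]

theorem dact_eq (x : G.X) :
    actT (RPAG hT g (optS true ε) fun _ => ⟨none⟩) (RPAG hT g' (optS false ε') fun _ => ⟨none⟩) x =
      dact hT g g' ε ε' x := by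
  unfold actT dact
  rw [RPAG_act, RPAG_act]
  rfl

theorem rho1_eq : Ph2 (RPAG hT g (optS true ε) fun _ => ⟨none⟩) (RPAG hT g' (optS false ε') fun _ => ⟨none⟩) =
    rho1 hT g g' ε ε' := rfl

/-- T1d -/
theorem T1d {F : AG hT g (optS true ε) ⊗[ℂ] AG hT g' (optS false ε')} (hF : F ∈ I1 hT g g' ε ε') :
    rho1 hT g g' ε ε' F = 0 := by
  rw [← I1_eq] at hF
  rw [← rho1_eq]
  exact Ph2_IT hT _ _ hF

/-- an invariant modulo `I1` is an invariant dot product modulo `I1` -/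
theorem inv1_eq {F : AG hT g (optS true ε) ⊗[ℂ] AG hT g' (optS false ε')}
    (hF : ∀ x, dact hT g g' ε ε' x F - F ∈ I1 hT g g' ε ε') :
    ∃ (E : Rep G) (φ : F1 Q g ε E) (φ' : F1' Q g' ε' E), rho1 hT g g' ε ε' F =
      Ph2 (RPAG hT g (optS true ε) fun _ => ⟨none⟩) (RPAG hT g' (optS false ε') fun _ => ⟨none⟩)
        (dot (RPAG hT g (optS true ε) fun _ => ⟨none⟩) (RPAG hT g' (optS false ε') fun _ => ⟨none⟩) E φ φ') := by
  obtain ⟨z₀, h1, h2⟩ := invT hT (RPAG hT g (optS true ε) fun _ => ⟨none⟩)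
    (RPAG hT g' (optS false ε') fun _ => ⟨none⟩) F (fun x => by
      rw [I1_eq, dact_eq]
      exact hF x)
  obtain ⟨E, φ, φ', h3⟩ := S1 _ _ z₀ h1
  refine ⟨E, φ, φ', ?_⟩
  rw [← h3, ← rho1_eq]
  have h4 := Ph2_IT hT _ _ h2
  rw [map_sub (Ph2 _ _) F z₀] at h4
  exact sub_eq_zero.1 h4

/-- T1a: the off-diagonal components vanish -/
theorem T1a {F : AG hT g (optS true ε) ⊗[ℂ] AG hT g' (optS false ε')}
    (hF : ∀ x, dact hT g g' ε ε' x F - F ∈ I1 hT g g' ε ε') {m m' : X} (h : m ≠ m') :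
    (rho1 hT g g' ε ε' F).coeff (m, m') = 0 := by
  obtain ⟨E, φ, φ', h1⟩ := inv1_eq hF
  rw [h1]
  exact dot_off hT _ _ E φ φ' h

/-- T1a': the values are in the ring of the joined surface -/
theorem T1a' {F : AG hT g (optS true ε) ⊗[ℂ] AG hT g' (optS false ε')}
    (hF : ∀ x, dact hT g g' ε ε' x F - F ∈ I1 hT g g' ε ε') :
    dgn _ X (rho1 hT g g' ε ε' F) ∈ AG hT (g + g') (Sum.elim ε ε') := by
  obtain ⟨E, φ, φ', h1⟩ := inv1_eq hF
  rw [h1]
  exact dot_AG hT _ _ E φ φ'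

/-- T1b: surjectivity, on invariants -/
theorem T1b {C : RR G K X (L ⊕ L')} (hC : C ∈ AG hT (g + g') (Sum.elim ε ε')) :
    ∃ F, (∀ x, dact hT g g' ε ε' x F = F) ∧ dgn _ X (rho1 hT g g' ε ε' F) = C := by
  by_cases h : g + g' = 0 → Nonempty (L ⊕ L')
  · obtain ⟨z, h1, h2⟩ := onto1 hT (RPAG hT g (optS true ε) fun _ => ⟨none⟩)
      (RPAG hT g' (optS false ε') fun _ => ⟨none⟩) h ((mem_AG hT h).1 hC)
    refine ⟨z, fun x => ?_, h2⟩
    rw [← dact_eq]
    exact h1 x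
  · rw [Classical.not_imp] at h
    obtain ⟨h1, h2⟩ := h
    obtain ⟨rfl, rfl⟩ : g = 0 ∧ g' = 0 := by omega
    have hL : IsEmpty L := ⟨fun l => h2 ⟨Sum.inl l⟩⟩
    have hL' : IsEmpty L' := ⟨fun l => h2 ⟨Sum.inr l⟩⟩
    obtain ⟨z, h3, h4⟩ := onto1_sph hT (RPAG hT 0 (optS true ε) fun _ => ⟨none⟩)
      (RPAG hT 0 (optS false ε') fun _ => ⟨none⟩) hC
    refine ⟨z, fun x => ?_, h4⟩
    rw [← dact_eq]
    exact h3 x

/-- T1c: the kernel is the moment ideal -/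
theorem T1c {F : AG hT g (optS true ε) ⊗[ℂ] AG hT g' (optS false ε')}
    (hF : ∀ x, dact hT g g' ε ε' x F - F ∈ I1 hT g g' ε ε')
    (h0 : dgn _ X (rho1 hT g g' ε ε' F) = 0) : F ∈ I1 hT g g' ε ε' := by
  rw [← I1_eq]
  refine ker1 hT _ _ F (fun x => ?_) h0
  rw [I1_eq, dact_eq]
  exact hF x

end T1

/-! ### self-glueing -/

section T2
variable {hT : TQ Q} {g : ℕ} {ε : L → Bool}

theorem I2_eq : ID hT (RPAG hT g (optS true (optS false ε)) fun _ => ⟨none⟩) = I2 hT g ε := by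
  unfold ID I2
  simp only [RPAG_mom]

theorem res2_eq (F : AG hT g (optS true (optS false ε))) :
    Ph (RPAG hT g (optS true (optS false ε)) fun _ => ⟨none⟩) F = res2 F.1 := rfl

/-- T2d -/
theorem T2d {F : AG hT g (optS true (optS false ε))} (hF : F ∈ I2 hT g ε) : res2 F.1 = 0 := by
  rw [← I2_eq] at hF
  exact Ph_ID hT _ hF

/-- T2a -/
theorem T2a {F : AG hT g (optS true (optS false ε))}
    (hF : ∀ x, actAG hT g (optS true (optS false ε)) (pt2 x) F - F ∈ I2 hT g ε) :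
    res2 F.1 ∈ AG hT (g + 1) ε := by
  obtain ⟨z₀, h1, h2⟩ := invD hT (RPAG hT g (optS true (optS false ε)) fun _ => ⟨none⟩) F (fun x => by
    rw [I2_eq, RPAG_act]
    exact hF x)
  obtain ⟨E, Ψ, h3⟩ := S2 hT _ z₀ h1
  have h4 := Ph_ID hT _ h2
  rw [map_sub (Ph _) F z₀] at h4
  rw [← res2_eq, sub_eq_zero.1 h4, h3, mem_AG hT (by omega)]
  exact indT_fam hT _ E Ψ

/-- T2b -/
theorem T2b {C : RR G K X L} (hC : C ∈ AG hT (g + 1) ε) :
    ∃ F : AG hT g (optS true (optS false ε)),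
      (∀ x, actAG hT g (optS true (optS false ε)) (pt2 x) F = F) ∧ res2 F.1 = C := by
  obtain ⟨F, h1, h2⟩ := onto2 hT (RPAG hT g (optS true (optS false ε)) fun _ => ⟨none⟩)
    ((mem_AG hT (by omega)).1 hC)
  refine ⟨F, fun x => ?_, h2⟩
  rw [← RPAG_act hT g (optS true (optS false ε)) (fun _ => ⟨none⟩)]
  exact h1 x

/-- T2c -/
theorem T2c {F : AG hT g (optS true (optS false ε))}
    (hF : ∀ x, actAG hT g (optS true (optS false ε)) (pt2 x) F - F ∈ I2 hT g ε)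
    (h0 : res2 F.1 = 0) : F ∈ I2 hT g ε := by
  rw [← I2_eq]
  refine ker2 hT _ F (fun x => ?_) h0
  rw [I2_eq, RPAG_act]
  exact hF x

end T2

end

end Pool.Agent.MTF
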