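import Pool.Agent.MTF.C5

/-!
# MTF : part C, the rings `A_{g;L}`
-/

set_option linter.unusedSectionVars false

namespace Pool.Agent.MTF

open AffGrp TensorProduct

section
variable {G : AffGrp} {K W X : Type} [Field K] [Algebra ℂ K] [Group W] [Fintype W]
  [MulSemiringAction W K] [SMulCommClass W ℂ K] [AddCommGroup X] [DistribMulAction W X]
variable {L : Type} [Finite L] [DecidableEq L] {Q : TQD G K W X}

/-- `[AG1]` The action of `G^L` preserves the ring. PROOF. If `g = 0 → Nonempty L`: `mem_AG` and `Fam_tr`. Otherwise `g = 0` and `L` is empty: `x = 1`, `gact_one`. -/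
theorem gact_mem (hT : TQ Q) {g : ℕ} {ε : L → Bool} (x : L → G.X) {F : RR G K X L} (h : F ∈ AG hT g ε) :
    gact x F ∈ AG hT g ε := by
  by_cases h0 : g = 0 → Nonempty L
  · exact (mem_AG hT h0).2 (Fam_tr ((mem_AG hT h0).1 h) x)
  · have hL : IsEmpty L := by
      by_contra h1
      exact h0 fun _ => not_isEmpty_iff.1 h1
    have hx : x = 1 := funext fun l => hL.elim l
    rw [hx, gact_one]
    exact h

end

end Pool.Agent.MTF
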