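import Pool.Agent.MTF.C5

/-!
# MTF : part C, the rings `A_{g;L}`
-/

set_option linter.unusedSectionVars false

namespace Pool.Agent.MTF

open AffGrp TensorProduct

section
variable {G : AffGrp} {K W X : Type} [Field K] [Algebra ℂ K] [Group W] [Fintype W]
  [MulSemiringAction W K] [SMulCommClass W ℂ K] [AddCommGroup X] [DistribMulAction W X]
variable {L : Type} [Finite L] [DecidableEq L] {Q : TQD G K W X}

/-- `[AG2]` The sphere. PROOF. `mem_AG_sph` and relabelling of the legs `Option L ≃ PUnit` (`Fam_pb`, both directions): for `F' : RR G K X (Option L)` take `fm X (pb K e) F'`; all `k : L → G.X` are equal, `optP 1 k = fun _ => 1`. -/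
theorem mem_AG0 (hT : TQ Q) [IsEmpty L] {ε : L → Bool} {F : RR G K X L} :
    F ∈ AG hT 0 ε ↔ ∃ F' : RR G K X PUnit, Q.Fam 0 (fun _ => true) F' ∧
      ∀ m k, (F.coeff m).1 k = (F'.coeff m).1 (fun _ => 1) := by
  let e : Option L ≃ PUnit :=
    { toFun := fun _ => PUnit.unit
      invFun := fun _ => none
      left_inv := fun o => by
        cases o with
        | none => rfl
        | some a => exact isEmptyElim a
      right_inv := fun _ => rfl }
  rw [mem_AG_sph hT inferInstance]
  constructor
  · rintro ⟨F'', h1, h2⟩
    refine ⟨fm X (pb K e) F'', Fam_pb e (fun l => ?_) h1, fun m k => ?_⟩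
    · cases l with
      | none => rfl
      | some a => exact isEmptyElim a
    · rw [← h2, coeff_fm, coeff_fm]
      refine congrArg (F''.coeff m).1 (funext fun o => ?_ :
        (optP 1 k : Option L → G.X) = (fun _ => 1) ∘ e)
      cases o with
      | none => rfl
      | some a => exact isEmptyElim a
  · rintro ⟨F', h1, h2⟩
    refine ⟨fm X (pb K e.symm) F', Fam_pb e.symm (fun l => rfl) h1, ?_⟩
    apply RR_ext
    intro m k
    rw [coeff_fm, coeff_fm, h2]
    rfl

end

end Pool.Agent.MTF
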