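import Pool.Agent.MTF.C5

/-!
# MTF : part C, the rings `A_{g;L}`
-/

set_option linter.unusedSectionVars false

namespace Pool.Agent.MTF

open AffGrp TensorProduct

section
variable {G : AffGrp} {K W X : Type} [Field K] [Algebra ℂ K] [Group W] [Fintype W]
  [MulSemiringAction W K] [SMulCommClass W ℂ K] [AddCommGroup X] [DistribMulAction W X]
variable {L : Type} [Finite L] [DecidableEq L] {Q : TQD G K W X}

variable {L' : Type} [Finite L'] [DecidableEq L']

theorem ag3_optP (e : L ≃ L') (k : L' → G.X) :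
    (optP (1 : G.X) k : Option L' → G.X) ∘ (Equiv.optionCongr e) = (optP 1 (k ∘ e) : Option L → G.X) := by
  funext o
  cases o
  · rfl
  · rfl

theorem ag3_optS (b : Bool) {ε : L → Bool} {ε' : L' → Bool} (e : L ≃ L') (he : ∀ l, ε' (e l) = ε l) :
    ∀ o : Option L, optS b ε' (Equiv.optionCongr e o) = optS b ε o := by
  intro o
  cases o with
  | none => rfl
  | some l => exact he l

theorem ag3_fwd (hT : TQ Q) {g : ℕ} {ε : L → Bool} {ε' : L' → Bool} (e : L ≃ L') (he : ∀ l, ε' (e l) = ε l)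
    {F : RR G K X L} (hF : F ∈ AG hT g ε) : fm X (pb K e) F ∈ AG hT g ε' := by
  by_cases h : g = 0 → Nonempty L
  · have h' : g = 0 → Nonempty L' := fun hg => (h hg).map e
    exact (mem_AG hT h').2 (Fam_pb e he ((mem_AG hT h).1 hF))
  · have hg : g = 0 := by
      by_contra hg
      exact h (fun h0 => absurd h0 hg)
    have hL : IsEmpty L := by
      by_contra hL
      exact h (fun _ => not_isEmpty_iff.1 hL)
    have hL' : IsEmpty L' := ⟨fun l => hL.false (e.symm l)⟩
    subst hg
    obtain ⟨F', hF', rfl⟩ := (mem_AG_sph hT hL).1 hF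
    refine (mem_AG_sph hT hL').2 ⟨fm X (pb K (Equiv.optionCongr e)) F',
      Fam_pb (Equiv.optionCongr e) (ag3_optS true e he) hF', ?_⟩
    apply RR_ext
    intro m k
    rw [coeff_fm, coeff_fm, coeff_fm, coeff_fm]
    show (F'.coeff m).1 ((optP (1 : G.X) k : Option L' → G.X) ∘ (Equiv.optionCongr e)) =
      (F'.coeff m).1 (optP 1 (k ∘ e))
    rw [ag3_optP]

theorem ag3_symm (e : L ≃ L') (F : RR G K X L) : fm X (pb K e.symm) (fm X (pb K e) F) = F := by
  apply RR_ext
  intro m k
  rw [coeff_fm, coeff_fm]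
  show (F.coeff m).1 ((k ∘ e.symm) ∘ e) = (F.coeff m).1 k
  have h : (k ∘ e.symm) ∘ e = k := by
    funext l
    show k (e.symm (e l)) = k l
    rw [e.symm_apply_apply]
  rw [h]

/-- `[AG3]` Relabelling. PROOF. If `g = 0 → Nonempty L`: `mem_AG` and `Fam_pb` for `e` and `e.symm` (`fm X (pb K e.symm) (fm X (pb K e) F) = F` by `RR_ext`). For `g = 0` and `L` empty: `mem_AG_sph` on both sides and `Fam_pb` for `Equiv.optionCongr e` and its inverse. -/
theorem mem_AG_re (hT : TQ Q) {g : ℕ} {ε : L → Bool} {ε' : L' → Bool} (e : L ≃ L') (he : ∀ l, ε' (e l) = ε l)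
    {F : RR G K X L} : fm X (pb K e) F ∈ AG hT g ε' ↔ F ∈ AG hT g ε := by
  constructor
  · intro h
    have he' : ∀ l', ε (e.symm l') = ε' l' := by
      intro l'
      rw [← he, e.apply_symm_apply]
    have h1 := ag3_fwd hT e.symm he' h
    rw [ag3_symm] at h1
    exact h1
  · exact ag3_fwd hT e he

end

end Pool.Agent.MTF
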