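import Pool.Agent.MTF.AG1
import Pool.Agent.MTF.AG2
import Pool.Agent.MTF.AG3

/-!
# MTF : the rings `A_{g;L}` with their structure
-/

set_option linter.unusedSectionVars false

namespace Pool.Agent.MTF

open AffGrp TensorProduct

section
variable {G : AffGrp} {K W X : Type} [Field K] [Algebra ℂ K] [Group W] [Fintype W]
  [MulSemiringAction W K] [SMulCommClass W ℂ K] [AddCommGroup X] [DistribMulAction W X]
variable {L : Type} [Finite L] [DecidableEq L] {Q : TQD G K W X}

/-- `AG` is the ring of families, except for the sphere -/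
noncomputable def RPAG (hT : TQ Q) (g : ℕ) (ε : L → Bool) (h : g = 0 → Nonempty L) : RP Q g ε (AG hT g ε) where
  i := (AG hT g ε).val
  inj := Subtype.val_injective
  fam b := (mem_AG hT h).1 b.2
  ex F hF := ⟨⟨F, (mem_AG hT h).2 hF⟩, rfl⟩

/-- the action of `G^L` on `A_{g;L}` -/
noncomputable def actAG (hT : TQ Q) (g : ℕ) (ε : L → Bool) (x : L → G.X) : AG hT g ε →ₐ[ℂ] AG hT g ε where
  toFun F := ⟨gact x F.1, gact_mem hT x F.2⟩
  map_one' := Subtype.ext (map_one (gact x))
  map_mul' F F' := Subtype.ext (map_mul (gact x) F.1 F'.1)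
  map_zero' := Subtype.ext (map_zero (gact x))
  map_add' F F' := Subtype.ext (map_add (gact x) F.1 F'.1)
  commutes' c := Subtype.ext (((gact x).restrictScalars ℂ).commutes c)

theorem actAG_val (hT : TQ Q) (g : ℕ) (ε : L → Bool) (x : L → G.X) (F : AG hT g ε) :
    (actAG hT g ε x F).1 = gact x F.1 := rfl

theorem muF_mem (hT : TQ Q) (g : ℕ) (ε : L → Bool) (l : L) (D : G.Lie) : muF Q l D ∈ AG hT g ε :=
  (mem_AG hT fun _ => ⟨l⟩).2 (Fam_mu hT g ε l D)

/-- the moment map of the leg `l` -/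
noncomputable def muAG (hT : TQ Q) (g : ℕ) (ε : L → Bool) (l : L) : G.Lie →ₗ[ℂ] AG hT g ε where
  toFun D := ⟨muF Q l D, muF_mem hT g ε l D⟩
  map_add' D D' := Subtype.ext (map_add (muF Q l) D D')
  map_smul' c D := Subtype.ext (map_smul (muF Q l) c D)

theorem muAG_val (hT : TQ Q) (g : ℕ) (ε : L → Bool) (l : L) (D : G.Lie) : (muAG hT g ε l D).1 = muF Q l D := rfl

variable {L' : Type} [Finite L'] [DecidableEq L']

/-! ### joining -/

/-- the product `F F'` restricted to `1` in the legs `none` -/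
noncomputable def rr1 : RR G K X (Option L) →ₗ[ℂ] RR G K X (Option L') →ₗ[ℂ]
    AddMonoidAlgebra ((G.pow (L ⊕ L')).KO K) (X × X) :=
  (LinearMap.mul ℂ (AddMonoidAlgebra ((G.pow (L ⊕ L')).KO K) (X × X))).compl₁₂
    (jL G K X L L').toLinearMap (jR G K X L L').toLinearMap

theorem rr1_coeff (F : RR G K X (Option L)) (F' : RR G K X (Option L')) (m m' : X) (k : L ⊕ L' → G.X) :
    ((rr1 F F').coeff (m, m')).1 k =
      (F.coeff m).1 (optP 1 (k ∘ Sum.inl)) * (F'.coeff m').1 (optP 1 (k ∘ Sum.inr)) := by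
  have h : (rr1 F F').coeff (m, m') = pb K Sum.inl (ev1 K (F.coeff m)) * pb K Sum.inr (ev1 K (F'.coeff m')) :=
    coeff_jj F F' m m'
  rw [h]
  rfl

section T1
variable (hT : TQ Q) (g g' : ℕ) (ε : L → Bool) (ε' : L' → Bool)

/-- restriction to `1` in the legs `none` -/
noncomputable def rho1 : AG hT g (optS true ε) ⊗[ℂ] AG hT g' (optS false ε') →ₐ[ℂ]
    AddMonoidAlgebra ((G.pow (L ⊕ L')).KO K) (X × X) :=
  Algebra.TensorProduct.productMap ((jL G K X L L').comp (AG hT g (optS true ε)).val)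
    ((jR G K X L L').comp (AG hT g' (optS false ε')).val)

theorem rho1_tmul (F : AG hT g (optS true ε)) (F' : AG hT g' (optS false ε')) :
    rho1 hT g g' ε ε' (F ⊗ₜ F') = rr1 F.1 F'.1 := by
  unfold rho1
  rw [Algebra.TensorProduct.productMap_apply_tmul]
  rfl

/-- the moment ideal -/
noncomputable def I1 : Ideal (AG hT g (optS true ε) ⊗[ℂ] AG hT g' (optS false ε')) :=
  Ideal.span (Set.range fun D : G.Lie => muAG hT g (optS true ε) none D ⊗ₜ[ℂ] (1 : AG hT g' (optS false ε')) -
    (1 : AG hT g (optS true ε)) ⊗ₜ[ℂ] muAG hT g' (optS false ε') none D)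

/-- the diagonal action of `G` -/
noncomputable def dact (x : G.X) : AG hT g (optS true ε) ⊗[ℂ] AG hT g' (optS false ε') →ₐ[ℂ]
    AG hT g (optS true ε) ⊗[ℂ] AG hT g' (optS false ε') :=
  Algebra.TensorProduct.map (actAG hT g (optS true ε) (optP x 1)) (actAG hT g' (optS false ε') (optP x 1))

end T1

/-! ### self-glueing -/

/-- restriction to `1` in the legs `none` and `some none` -/
noncomputable def res2 : RR G K X (Option (Option L)) →ₐ[K] RR G K X L := fm X ((ev1 K).comp (ev1 K))

theorem res2_coeff (F : RR G K X (Option (Option L))) (m : X) (k : L → G.X) :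
    ((res2 F).coeff m).1 k = (F.coeff m).1 (optP 1 (optP 1 k)) := by
  unfold res2
  rw [coeff_fm]
  rfl

section T2
variable (hT : TQ Q) (g : ℕ) (ε : L → Bool)

/-- the moment ideal -/
noncomputable def I2 : Ideal (AG hT g (optS true (optS false ε))) :=
  Ideal.span (Set.range fun D : G.Lie => muAG hT g (optS true (optS false ε)) none D -
    muAG hT g (optS true (optS false ε)) (some none) D)

end T2

end

end Pool.Agent.MTF
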