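import Pool.Agent.MTF.LI

/-!
# MTF : part C, basic maps of functions and families
-/

set_option linter.unusedSectionVars false

namespace Pool.Agent.MTF

open AffGrp

section
variable {G : AffGrp} {K : Type} [Field K] [Algebra ℂ K]
variable {L L' : Type} [Finite L] [Finite L']

/-- pullback of functions along `k' ↦ k' ∘ u` -/
def pb (K : Type) [Field K] [Algebra ℂ K] (u : L → L') : (G.pow L).KO K →ₐ[K] (G.pow L').KO K :=
  comp K (H := G.pow L) (H' := G.pow L') (fun k' => k' ∘ u) fun _ hf =>
    pow_mem G (H := G.pow L') (fun k' : L' → G.X => k' ∘ u) (fun l f hf => (G.pull (u l) ⟨f, hf⟩).2) hf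

theorem pb_apply (u : L → L') (F : (G.pow L).KO K) (k : L' → G.X) : (pb K u F).1 k = F.1 (k ∘ u) := rfl

/-- evaluation of the leg `none` at `1` -/
def ev1 (K : Type) [Field K] [Algebra ℂ K] : (G.pow (Option L)).KO K →ₐ[K] (G.pow L).KO K :=
  comp K (H := G.pow (Option L)) (H' := G.pow L) (fun k => optP 1 k) fun _ hf =>
    pow_mem G (H := G.pow L) (fun k : L → G.X => optP 1 k) (fun o f hf => by
      cases o with
      | none => exact const_mem (G.pow L) (f 1)
      | some l => exact (G.pull l ⟨f, hf⟩).2) hf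

theorem ev1_apply (F : (G.pow (Option L)).KO K) (k : L → G.X) : (ev1 K F).1 k = F.1 (optP 1 k) := rfl

/-- left translation: `F ↦ (k ↦ F (x⁻¹ k))` -/
def tr (K : Type) [Field K] [Algebra ℂ K] (x : L → G.X) : (G.pow L).KO K →ₐ[K] (G.pow L).KO K :=
  ltK (H := G.pow L) (K := K) (x⁻¹ : L → G.X)

theorem tr_apply (x : L → G.X) (F : (G.pow L).KO K) (k : L → G.X) : (tr K x F).1 k = F.1 (x⁻¹ * k) := rfl

/-- the map of families induced by a homomorphism of coefficients -/
noncomputable def fm (X : Type) [AddCommGroup X] (f : (G.pow L).KO K →ₐ[K] (G.pow L').KO K) :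
    RR G K X L →ₐ[K] RR G K X L' := AddMonoidAlgebra.mapAlgHom X f

theorem coeff_fm {X : Type} [AddCommGroup X] (f : (G.pow L).KO K →ₐ[K] (G.pow L').KO K) (F : RR G K X L) (m : X) :
    (fm X f F).coeff m = f (F.coeff m) := AddMonoidAlgebra.coeff_mapAlgHom f F m

theorem fm_smul {X : Type} [AddCommGroup X] (f : (G.pow L).KO K →ₐ[K] (G.pow L').KO K) (a : (G.pow L).KO K)
    (F : RR G K X L) : fm X f (a • F) = f a • fm X f F := by
  ext m
  simp [coeff_fm]

/-- the sum of all components, as a ring homomorphism -/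
noncomputable def totH (G : AffGrp) (K X L : Type) [Field K] [Algebra ℂ K] [AddCommGroup X] [Finite L] :
    RR G K X L →ₐ[K] (G.pow L).KO K :=
  (AddMonoidAlgebra.lift ((G.pow L).KO K) ((G.pow L).KO K) X (1 : Multiplicative X →* (G.pow L).KO K)).restrictScalars K

theorem tot_eq {X : Type} [AddCommGroup X] (F : RR G K X L) : tot F = totH G K X L F := by
  unfold tot totH
  rw [AlgHom.restrictScalars_apply, AddMonoidAlgebra.lift_apply]
  simp

theorem tot_fm {X : Type} [AddCommGroup X] (f : (G.pow L).KO K →ₐ[K] (G.pow L').KO K) (F : RR G K X L) :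
    tot (fm X f F) = f (tot F) := by
  rw [tot_eq, tot_eq]
  induction F using AddMonoidAlgebra.induction_linear with
  | zero => simp
  | add a b ha hb => simp only [map_add, ha, hb]
  | single m a => simp [fm, totH]

end

section
variable {G : AffGrp} {K W X : Type} [Field K] [Algebra ℂ K] [Group W] [Fintype W]
  [MulSemiringAction W K] [SMulCommClass W ℂ K] [AddCommGroup X] [DistribMulAction W X]
variable {L L' : Type} [Finite L] [DecidableEq L] [Finite L'] [DecidableEq L']
variable {Q : TQD G K W X}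

theorem s1_apply (F : G.KO K) (x : G.X) : (Q.s1 F).1 x = ∑ j, Q.c j * ext K (Q.D j).1 (ltK x F) := by
  unfold TQD.s1
  rw [LinearMap.sum_apply, KO_sum]
  refine Finset.sum_congr rfl fun j _ => ?_
  rw [LinearMap.smul_apply, KO_smul, derK_apply]

/-- `s` in the leg `l` is computed on slices -/
theorem s_apply (l : L) (F : (G.pow L).KO K) (k : L → G.X) : (Q.s l F).1 k = (Q.s1 (sl K k l F)).1 (k l) := by
  unfold TQD.s TQD.s1
  rw [LinearMap.sum_apply, LinearMap.sum_apply, KO_sum, KO_sum]
  refine Finset.sum_congr rfl fun j _ => ?_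
  rw [LinearMap.smul_apply, LinearMap.smul_apply, KO_smul, KO_smul, derK_emb]

/-- `s1` only depends on the function and commutes with left translations -/
theorem s1_ltK (x : G.X) (F : G.KO K) : Q.s1 (ltK x F) = ltK x (Q.s1 F) := by
  unfold TQD.s1
  rw [LinearMap.sum_apply, LinearMap.sum_apply, map_sum]
  refine Finset.sum_congr rfl fun j _ => ?_
  rw [LinearMap.smul_apply, LinearMap.smul_apply, map_smul, derK_ltK]

theorem s_leib (l : L) (F F' : (G.pow L).KO K) : Q.s l (F * F') = F * Q.s l F' + F' * Q.s l F := by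
  unfold TQD.s
  simp only [LinearMap.sum_apply, LinearMap.smul_apply, derK_leib, smul_add, Finset.sum_add_distrib,
    Finset.mul_sum, mul_smul_comm]

theorem s_const (l : L) (a : K) : Q.s l (algebraMap K ((G.pow L).KO K) a) = 0 := by
  have h1 : Q.s l (1 : (G.pow L).KO K) = 0 := by
    have h2 := s_leib (Q := Q) l (1 : (G.pow L).KO K) 1
    rw [mul_one, one_mul] at h2
    exact left_eq_add.1 h2
  rw [Algebra.algebraMap_eq_smul_one, map_smul, h1, smul_zero]

theorem s_wO (hc : ∀ (w : W) j, w • Q.c j = Q.c j) (l : L) (w : W) (F : (G.pow L).KO K) :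
    Q.s l (wO _ w F) = wO _ w (Q.s l F) := by
  unfold TQD.s
  rw [LinearMap.sum_apply, LinearMap.sum_apply, map_sum]
  refine Finset.sum_congr rfl fun j _ => ?_
  rw [LinearMap.smul_apply, LinearMap.smul_apply]
  have h1 : derK K (emb l (Q.D j)) (wO _ w F) = wO _ w (derK K (emb l (Q.D j)) F) := derK_mapK _ _ _
  rw [h1]
  apply KO_ext
  intro x
  rw [KO_smul, wO_apply, wO_apply, KO_smul, smul_mul', hc]

/-- pullback along an injective map of legs -/
theorem s_pb {u : L → L'} (hu : Function.Injective u) (l : L) (F : (G.pow L).KO K) :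
    Q.s (u l) (pb K u F) = pb K u (Q.s l F) := by
  apply KO_ext
  intro k
  rw [s_apply, pb_apply, s_apply]
  have h1 : sl K k (u l) (pb K u F) = sl K (k ∘ u) l F := by
    apply KO_ext
    intro h
    rw [sl_apply, pb_apply, sl_apply]
    refine congrArg F.1 (funext fun i => ?_ : (Function.update k (u l) h ∘ u : L → G.X) = Function.update (k ∘ u) l h)
    by_cases hi : i = l
    · subst hi; simp
    · rw [Function.comp_apply, Function.update_of_ne (fun h => hi (hu h)), Function.update_of_ne hi]
      rfl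
  rw [h1]
  rfl

theorem s1_const (a : K) : Q.s1 (algebraMap K (G.KO K) a) = 0 := by
  unfold TQD.s1
  rw [LinearMap.sum_apply]
  refine Finset.sum_eq_zero fun j _ => ?_
  rw [LinearMap.smul_apply]
  have h1 : derK K (Q.D j) (1 : G.KO K) = 0 := by
    have h2 := derK_leib (Q.D j) (1 : G.KO K) 1
    rw [mul_one, one_mul] at h2
    exact left_eq_add.1 h2
  rw [Algebra.algebraMap_eq_smul_one, map_smul, h1, smul_zero, smul_zero]

theorem s_pb_ne {u : L → L'} {l' : L'} (hl : ∀ l, u l ≠ l') (F : (G.pow L).KO K) :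
    Q.s l' (pb K u F) = 0 := by
  apply KO_ext
  intro k
  rw [s_apply]
  have h1 : sl K k l' (pb K u F) = algebraMap K (G.KO K) (F.1 (k ∘ u)) := by
    apply KO_ext
    intro h
    rw [sl_apply, pb_apply]
    refine congrArg F.1 (funext fun i => ?_ : (Function.update k l' h ∘ u : L → G.X) = k ∘ u)
    rw [Function.comp_apply, Function.update_of_ne (hl i)]
    rfl
  rw [h1, s1_const]
  rfl

theorem s_ev1 (l : L) (F : (G.pow (Option L)).KO K) : Q.s l (ev1 K F) = ev1 K (Q.s (some l) F) := by
  apply KO_ext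
  intro k
  rw [s_apply, ev1_apply, s_apply]
  have h1 : sl K k l (ev1 K F) = sl K (optP 1 k) (some l) F := by
    apply KO_ext
    intro h
    rw [sl_apply, ev1_apply, sl_apply]
    refine congrArg F.1 (funext fun o => ?_ : (optP 1 (Function.update k l h) : Option L → G.X) =
      Function.update (optP 1 k) (some l) h)
    cases o with
    | none => rw [Function.update_of_ne (by simp)]; rfl
    | some i =>
      by_cases hi : i = l
      · subst hi; simp [optP]
      · rw [Function.update_of_ne (by simpa using hi)]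
        show Function.update k l h i = k i
        rw [Function.update_of_ne hi]
  rw [h1]
  rfl

theorem s_tr (l : L) (x : L → G.X) (F : (G.pow L).KO K) : Q.s l (tr K x F) = tr K x (Q.s l F) := by
  unfold TQD.s tr
  rw [LinearMap.sum_apply, LinearMap.sum_apply, map_sum]
  refine Finset.sum_congr rfl fun j _ => ?_
  rw [LinearMap.smul_apply, LinearMap.smul_apply, map_smul, derK_ltK]

theorem wO_pb (w : W) (u : L → L') (F : (G.pow L).KO K) : wO _ w (pb K u F) = pb K u (wO _ w F) := rfl

theorem wO_ev1 (w : W) (F : (G.pow (Option L)).KO K) : wO _ w (ev1 K F) = ev1 K (wO _ w F) := rfl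

theorem wO_tr (w : W) (x : L → G.X) (F : (G.pow L).KO K) : wO _ w (tr K x F) = tr K x (wO _ w F) := rfl

/-! ### restriction, translation and relabelling of families -/

theorem Fam_ev1 {g : ℕ} {b : Bool} {ε : L → Bool} {F : RR G K X (Option L)} (h : Q.Fam g (optS b ε) F) :
    Q.Fam g ε (fm X (ev1 K) F) where
  wt m l := by
    rw [coeff_fm, s_ev1, h.wt m (some l), map_smul]
    rfl
  inv w m := by
    rw [coeff_fm, coeff_fm, wO_ev1, h.inv]
  reg0 hg x := by
    rw [tot_fm]
    exact h.reg0 hg _
  regS m k hg := by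
    rw [coeff_fm]
    exact h.regS m _ hg

theorem Fam_tr {g : ℕ} {ε : L → Bool} {F : RR G K X L} (h : Q.Fam g ε F) (x : L → G.X) :
    Q.Fam g ε (fm X (tr K x) F) where
  wt m l := by
    rw [coeff_fm, s_tr, h.wt m l, map_smul]
  inv w m := by
    rw [coeff_fm, coeff_fm, wO_tr, h.inv]
  reg0 hg y := by
    rw [tot_fm]
    exact h.reg0 hg _
  regS m k hg := by
    rw [coeff_fm]
    exact h.regS m _ hg

/-- relabelling of the legs -/
theorem Fam_pb {g : ℕ} {ε : L → Bool} {ε' : L' → Bool} (u : L ≃ L') (hε : ∀ l, ε' (u l) = ε l) {F : RR G K X L}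
    (h : Q.Fam g ε F) : Q.Fam g ε' (fm X (pb K u) F) where
  wt m l' := by
    obtain ⟨l, rfl⟩ := u.surjective l'
    rw [coeff_fm, s_pb u.injective, h.wt m l, map_smul, hε]
  inv w m := by
    rw [coeff_fm, coeff_fm, wO_pb, h.inv]
  reg0 hg y := by
    rw [tot_fm]
    exact h.reg0 hg _
  regS m k hg := by
    rw [coeff_fm]
    exact h.regS m _ hg

end

end Pool.Agent.MTF
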