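import Pool.Agent.MTF.C6c
import Pool.Agent.MTF.C2

/-!
# MTF : part C, relation (REL1)
-/

set_option linter.unusedSectionVars false

namespace Pool.Agent.MTF

open AffGrp TensorProduct

theorem c6d_sum {B B' ι ι' : Type} [Fintype ι] [Fintype ι'] [CommRing B] [Algebra ℂ B] [CommRing B']
    [Algebra ℂ B'] (q : ι' → ι → B) (q' : ι' → ι → B') (u : ι → B) (u' : ι' → B') :
    ∑ a, (∑ d, q a d * u d) ⊗ₜ[ℂ] u' a - ∑ d, u d ⊗ₜ[ℂ] (∑ a, q' a d * u' a) =
      ∑ a, ∑ d, (q a d ⊗ₜ[ℂ] (1 : B') - (1 : B) ⊗ₜ[ℂ] q' a d) * (u d ⊗ₜ[ℂ] u' a) := by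
  simp only [TensorProduct.sum_tmul, TensorProduct.tmul_sum]
  rw [Finset.sum_comm (f := fun d a => u d ⊗ₜ[ℂ] (q' a d * u' a)), ← Finset.sum_sub_distrib]
  refine Finset.sum_congr rfl fun a _ => ?_
  rw [← Finset.sum_sub_distrib]
  refine Finset.sum_congr rfl fun d _ => ?_
  rw [sub_mul, Algebra.TensorProduct.tmul_mul_tmul, Algebra.TensorProduct.tmul_mul_tmul, one_mul, one_mul]

theorem c6d_left {B B' σ : Type} [CommRing B] [Algebra ℂ B] [CommRing B'] [Algebra ℂ B'] (x : σ → B)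
    (p : MvPolynomial σ ℂ) :
    (MvPolynomial.aeval x p) ⊗ₜ[ℂ] (1 : B') = MvPolynomial.aeval (fun i => x i ⊗ₜ[ℂ] (1 : B')) p := by
  have h := MvPolynomial.comp_aeval_apply (R := ℂ) (f := x)
    (Algebra.TensorProduct.includeLeft : B →ₐ[ℂ] B ⊗[ℂ] B') p
  exact h

theorem c6d_right {B B' σ : Type} [CommRing B] [Algebra ℂ B] [CommRing B'] [Algebra ℂ B'] (x : σ → B')
    (p : MvPolynomial σ ℂ) :
    (1 : B) ⊗ₜ[ℂ] (MvPolynomial.aeval x p) = MvPolynomial.aeval (fun i => (1 : B) ⊗ₜ[ℂ] x i) p := by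
  have h := MvPolynomial.comp_aeval_apply (R := ℂ) (f := x)
    (Algebra.TensorProduct.includeRight : B' →ₐ[ℂ] B ⊗[ℂ] B') p
  exact h

section
variable {G : AffGrp} {K W X : Type} [Field K] [Algebra ℂ K] [Group W] [Fintype W]
  [MulSemiringAction W K] [SMulCommClass W ℂ K] [AddCommGroup X] [DistribMulAction W X]
variable {L L' : Type} [Finite L] [DecidableEq L] [Finite L'] [DecidableEq L'] {Q : TQD G K W X}
  {g g' : ℕ} {ε : L → Bool} {ε' : L' → Bool} {B B' : Type} [CommRing B] [Algebra ℂ B] [CommRing B'] [Algebra ℂ B']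

/-- [C6d] PROOF. `p`, `hp` from `homExt hT h`. By `dot_apply`, `indB_act` and `indB'_act` (`TensorProduct.sum_tmul`, `tmul_sum`), with `u d := P.indB E d φ`, `u' a := P'.indB' E' a φ'`, `q (a, d) := aeval (fun i => P.mom hT none (coord i)) (p a d)`, `q'` the same for `P'`: the difference is `∑ a d, (q a d * u d) ⊗ u' a - ∑ d a, u d ⊗ (q' a d * u' a)`
`= ∑ a d, (q a d ⊗ 1 - 1 ⊗ q' a d) * (u d ⊗ u' a)` (`Algebra.TensorProduct.tmul_mul_tmul`). Each `q a d ⊗ 1 - 1 ⊗ q' a d` is in the ideal: `q a d ⊗ 1 = aeval (fun i => P.mom .. ⊗ 1) (p a d)` (`MvPolynomial.aeval` and the algebra homomorphism `Algebra.TensorProduct.includeLeft`: `MvPolynomial.map_aeval` or `AlgHom.comp_apply`, `MvPolynomial.algHom_ext`), the same for `includeRight`;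
`aeval_sub_mem`, and `P.mom hT none lam ⊗ 1 - 1 ⊗ P'.mom hT none lam` is a generator of `IT` because `lam = killD G D` (`killD_surj hT lam`). -/
theorem rel1 (hT : TQ Q) (P : RP Q g (optS true ε) B) (P' : RP Q g' (optS false ε') B') {E E' : Rep G}
    {T : Matrix E'.ι E.ι K} (h : Q.HomJ E E' T) (φ : F1 Q g ε E) (φ' : F1' Q g' ε' E') :
    dot P P' E' (act1 h φ) φ' - dot P P' E φ (act1' h φ') ∈ IT hT P P' := by
  obtain ⟨p, hp⟩ := homExt hT h
  rw [dot_apply, dot_apply]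
  have e1 : ∀ a, P.indB E' a (act1 h φ) =
      ∑ d, MvPolynomial.aeval (fun i => P.mom hT none (Q.D.coord i)) (p a d) * P.indB E d φ :=
    fun a => indB_act hT P h p hp φ a
  have e2 : ∀ d, P'.indB' E d (act1' h φ') =
      ∑ a, MvPolynomial.aeval (fun i => P'.mom hT none (Q.D.coord i)) (p a d) * P'.indB' E' a φ' :=
    fun d => indB'_act hT P' h p hp φ' d
  simp only [e1, e2]
  rw [c6d_sum (fun a d => MvPolynomial.aeval (fun i => P.mom hT none (Q.D.coord i)) (p a d))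
    (fun a d => MvPolynomial.aeval (fun i => P'.mom hT none (Q.D.coord i)) (p a d))
    (fun d => P.indB E d φ) (fun a => P'.indB' E' a φ')]
  refine Ideal.sum_mem _ fun a _ => Ideal.sum_mem _ fun d _ => Ideal.mul_mem_right _ _ ?_
  rw [c6d_left, c6d_right]
  refine aeval_sub_mem _ _ _ (fun i => ?_) _
  obtain ⟨D, hD⟩ := killD_surj hT (Q.D.coord i)
  rw [← hD]
  exact Ideal.subset_span ⟨D, rfl⟩

end

end Pool.Agent.MTF
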