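import Pool.Agent.MTF.C8D

/-!
# MTF : part C, generation
-/

set_option linter.unusedSectionVars false

namespace Pool.Agent.MTF

open AffGrp

section
variable {G : AffGrp} {K W X : Type} [Field K] [Algebra ℂ K] [Group W] [Fintype W]
  [MulSemiringAction W K] [SMulCommClass W ℂ K] [AddCommGroup X] [DistribMulAction W X]
variable {L : Type} [Finite L] [DecidableEq L] {Q : TQD G K W X}

theorem c8b_coeff {κ : Type} (s : Finset κ) (c : κ → K) (F : κ → RR G K X L) (m : X) :
    (∑ b ∈ s, c b • F b).coeff m = ∑ b ∈ s, c b • (F b).coeff m := by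
  rw [AddMonoidAlgebra.coeff_sum, Finsupp.finsetSum_apply]
  rfl

theorem c8b_JA {ε : L → Bool} {l : X} {F : (G.pow L).KO K} (h : Q.JA ε l F) {c : K} (hc : c ∈ Q.A) :
    Q.JA ε l (c • F) where
  wt i := by
    rw [map_smul, h.wt i, smul_comm]
  reg x := by
    rw [KO_smul]
    exact Q.A.mul_mem hc (h.reg x)

theorem c8b_InvO {l : X} {F : (G.pow L).KO K} (h : InvO W l F) {c : K} (hc : InvK W l c) :
    InvO W l (c • F) := by
  intro w hw
  apply KO_ext
  intro x
  have h1 : (wO (G.pow L) w F).1 x = F.1 x := by rw [h w hw]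
  rw [wO_apply] at h1
  rw [wO_apply, KO_smul, smul_mul', hc w hw, h1]

theorem c8b_slot {l : X} {V : Rep G} {v : V.ι → K} (hv : (Q.sE V).vecMul v = Q.val l • v)
    (F : (G.pow L).KO K) (a : V.ι) : ∑ b, Q.sE V b a • (v b • F) = Q.val l • (v a • F) := by
  have h1 := congrFun hv a
  rw [Pi.smul_apply, smul_eq_mul] at h1
  rw [smul_smul, ← h1]
  unfold Matrix.vecMul dotProduct
  rw [Finset.sum_smul]
  exact Finset.sum_congr rfl fun b _ => by rw [smul_smul, mul_comm]

/-- [C8b] PROOF. `peel` with `M := F1' Q g ε E`, `co := co1' E`, `N := Q.N` (`hT.N_w`), `P := Gen1' hT g ε E`, exactly as for `Gen1` (row C8a; the proof is the same with the dual statements). `hfin`: union of the supports of the `φ.1 a`. `orb`: `(φ.2.fam a).inv`. `step`: `V := Vr hT l`, `v' := vr' hT l`, `hV := Vr_hw hT l`: `lead1'` gives `p` with `Eu l • (φ a)_l = Eu l ^ g • p a`; `prod1'` gives `p a = ∑ j, r j a • m j`;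
`homJ1' hT hV` gives `T j` with `Q.HomJ E V (T j)`, `(T j).vecMul v' = r j`; `lift1' hT g` for `V` and the sections `fun a => v' a • m j` (`hV.v'_mem`, `hV.v'_inv`, `hV.v'_eig`) gives `ψ j` in `Fam1' g ε V`, `SuppLe l`, `Eu l • (ψ j a)_l = Eu l ^ g • (v' a • m j)`. `z' := ∑ j, act1' (h j) ⟨ψ j, _⟩`; at `l`: `Eu l • (z' b)_l = ∑ j a, T j a b • Eu l ^ g • v' a • m j = Eu l ^ g • ∑ j, r j b • m j = Eu l • (φ b)_l`, cancel `Eu l`. -/
theorem gen1' (hT : TQ Q) {g : ℕ} {ε : L → Bool} {E : Rep G} (φ : F1' Q g ε E) (n : ℕ)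
    (hn : ∀ a m, (φ.1 a).coeff m ≠ 0 → Q.N m < n) : φ ∈ Gen1' hT g ε E n := by
  classical
  refine @peel W X _ _ _ ↥(F1' Q g ε E) (E.ι → (G.pow L).KO K) _ _ Q.N hT.N_w (co1' E) ?_ ?_
    (Gen1' hT g ε E) ?_ ?_ ?_ n φ ?_
  · intro z
    refine Set.Finite.subset (Set.finite_iUnion fun a => (z.1 a).coeff.support.finite_toSet) ?_
    intro m hm
    rw [Function.mem_support] at hm
    by_contra hc
    refine hm (funext fun a => ?_)
    by_contra h1
    exact hc (Set.mem_iUnion.2 ⟨a, Finsupp.mem_support_iff.2 h1⟩)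
  · intro z w m hm
    funext a
    show (z.1 a).coeff (w • m) = 0
    rw [← (z.2.fam a).inv w m]
    have : (z.1 a).coeff m = 0 := congrFun hm a
    rw [this, map_zero]
  · intro k
    refine AddSubgroup.closure_mono ?_
    rintro x ⟨l, h1, h2, h3⟩
    exact ⟨l, h1, Nat.lt_succ_of_lt h2, h3⟩
  · intro z hz
    have : z = 0 := by
      apply Subtype.ext
      funext a
      apply AddMonoidAlgebra.coeff_injective
      refine Finsupp.ext fun m => ?_
      exact congrFun (congrFun hz m) a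
    rw [this]
    exact AddSubgroup.zero_mem _
  · intro z l hl hz
    have hl' : ∀ a m, (z.1 a).coeff m ≠ 0 → Q.N m ≤ Q.N l := fun a m h =>
      hz m fun h0 => h (congrFun h0 a)
    obtain ⟨p, hp, hi, hs, he⟩ := lead1' hT z.2 hl'
    obtain ⟨k, m, r, hm, hr, hpr⟩ := prod1' hT hp hi hs
    have hV := Vr_hw hT l
    choose T hTJ hTv using fun j => homJ1' hT hV (hr j).1 (hr j).2
    choose ψ hψ hψs hψe using fun j => lift1' hT g (E := Vr hT l)
      (p := fun a => vr' hT l a • m j) (fun a => c8b_JA (hm j).1 (hV.v'_mem a))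
      (fun a => c8b_InvO (hm j).2 (fun w hw => hV.v'_inv w hw a))
      (fun a => c8b_slot hV.v'_eig (m j) a)
    have hco : ∀ m' a, co1' E (∑ j, act1' (hTJ j) ⟨ψ j, hψ j⟩) m' a =
        ∑ j, ∑ b, T j b a • (ψ j b).coeff m' := by
      intro m' a
      rw [map_sum, Finset.sum_apply, Finset.sum_apply]
      refine Finset.sum_congr rfl fun j _ => ?_
      exact c8b_coeff Finset.univ (fun b => T j b a) (ψ j) m'
    refine ⟨∑ j, act1' (hTJ j) ⟨ψ j, hψ j⟩, ?_, ?_, ?_⟩
    · refine sum_mem (B := AddSubgroup (F1' Q g ε E)) (S := Gen1' hT g ε E (Q.N l + 1)) fun j _ => ?_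
      exact AddSubgroup.subset_closure ⟨l, hl, Nat.lt_succ_self _, T j, hTJ j, ⟨ψ j, hψ j⟩, rfl⟩
    · intro m' hm'
      by_contra hc
      refine hm' (funext fun a => ?_)
      rw [hco]
      refine Finset.sum_eq_zero fun j _ => Finset.sum_eq_zero fun b _ => ?_
      have : (ψ j b).coeff m' = 0 := by
        by_contra h1
        exact hc (hψs j b m' h1)
      rw [this, smul_zero]
    · funext a
      rw [hco]
      show _ = (z.1 a).coeff l
      have h1 : Q.Eu l • (∑ j, ∑ b, T j b a • (ψ j b).coeff l) = Q.Eu l • (z.1 a).coeff l := by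
        rw [he, hpr, Finset.smul_sum, Finset.smul_sum]
        refine Finset.sum_congr rfl fun j _ => ?_
        rw [← congrFun (hTv j) a]
        unfold Matrix.vecMul dotProduct
        rw [Finset.smul_sum, Finset.sum_smul, Finset.smul_sum]
        refine Finset.sum_congr rfl fun b _ => ?_
        rw [smul_comm, hψe, smul_comm, smul_smul (T j b a), mul_comm (T j b a)]
      exact smul_right_injective _ (hT.Eu_ne l) h1
  · intro m hm
    by_contra hc
    refine hm (funext fun a => ?_)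
    by_contra h1
    exact hc (hn a m h1)

end

end Pool.Agent.MTF
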