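import Pool.Agent.MTF.C8a
import Pool.Agent.MTF.C8b
import Pool.Agent.MTF.C6d
import Pool.Agent.MTF.C10a

/-!
# MTF : part C, joining: the filtration of the invariants
-/

set_option linter.unusedSectionVars false

namespace Pool.Agent.MTF

open AffGrp TensorProduct

section
variable {G : AffGrp} {K W X : Type} [Field K] [Algebra ℂ K] [Group W] [Fintype W]
  [MulSemiringAction W K] [SMulCommClass W ℂ K] [AddCommGroup X] [DistribMulAction W X]
variable {L : Type} [Finite L] [DecidableEq L] {Q : TQD G K W X}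
variable {L' : Type} [Finite L'] [DecidableEq L'] {g g' : ℕ} {ε : L → Bool} {ε' : L' → Bool}
  {B B' : Type} [CommRing B] [Algebra ℂ B] [CommRing B'] [Algebra ℂ B']

/-- the span of the dot products of families with values in `V_l` -/
noncomputable def ZT (hT : TQ Q) (P : RP Q g (optS true ε) B) (P' : RP Q g' (optS false ε') B') (l : X) :
    AddSubgroup (B ⊗[ℂ] B') :=
  AddSubgroup.closure {z | ∃ (φ : F1 Q g ε (Vr hT l)) (φ' : F1' Q g' ε' (Vr hT l)), z = dot P P' (Vr hT l) φ φ'}

/-- the filtration -/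
noncomputable def ZCT (hT : TQ Q) (P : RP Q g (optS true ε) B) (P' : RP Q g' (optS false ε') B') (n : ℕ) :
    AddSubgroup (B ⊗[ℂ] B') :=
  ZC W Q.N (IT hT P P').toAddSubgroup (ZT hT P P') n

/-- the diagonal components -/
noncomputable def PhT (P : RP Q g (optS true ε) B) (P' : RP Q g' (optS false ε') B') :
    B ⊗[ℂ] B' →+ (X → (G.pow (L ⊕ L')).KO K) where
  toFun z m := (Ph2 P P' z).coeff (m, m)
  map_zero' := by
    funext m
    rw [map_zero (Ph2 P P')]
    rfl
  map_add' z z' := by
    funext m
    rw [map_add (Ph2 P P')]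
    rfl

theorem PhT_apply (P : RP Q g (optS true ε) B) (P' : RP Q g' (optS false ε') B') (z : B ⊗[ℂ] B') (m : X) :
    PhT P P' z m = (Ph2 P P' z).coeff (m, m) := rfl

end

end Pool.Agent.MTF
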