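import Pool.Agent.MTF.C10a

/-!
# MTF : part C, restriction of dot products: values
-/

set_option linter.unusedSectionVars false

namespace Pool.Agent.MTF

open AffGrp TensorProduct

section
variable {G : AffGrp} {K W X : Type} [Field K] [Algebra ℂ K] [Group W] [Fintype W]
  [MulSemiringAction W K] [SMulCommClass W ℂ K] [AddCommGroup X] [DistribMulAction W X]
variable {L : Type} [Finite L] [DecidableEq L] {Q : TQD G K W X}
variable {L' : Type} [Finite L'] [DecidableEq L'] {g g' : ℕ} {ε : L → Bool} {ε' : L' → Bool}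
  {B B' : Type} [CommRing B] [Algebra ℂ B] [CommRing B'] [Algebra ℂ B']

theorem c10b_tot (F : RR G K X L) (S : Finset X) (hS : F.coeff.support ⊆ S) (q : L → G.X) :
    (tot F).1 q = ∑ n ∈ S, (F.coeff n).1 q := by
  have h1 : tot F = ∑ n ∈ S, F.coeff n := by
    unfold tot
    exact Finsupp.sum_of_support_subset _ hS _ fun _ _ => rfl
  rw [h1, KO_sum]

theorem c10b_eig (E : Rep G) (φ : F1 Q g ε E) (m : X) (q : L → G.X) :
    (Q.sE E).mulVec (fun a => ((φ.1 a).coeff m).1 q) =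
      Q.val m • (fun a => ((φ.1 a).coeff m).1 q) := by
  funext a
  have h1 := congrArg (fun F : (G.pow L).KO K => F.1 q) (φ.2.slot m a)
  simp only [KO_sum, KO_smul] at h1
  simp only [Pi.smul_apply, smul_eq_mul]
  rw [← h1]
  rfl

theorem c10b_eig' (E : Rep G) (φ : F1' Q g ε E) (m : X) (q : L → G.X) :
    (Q.sE E).vecMul (fun a => ((φ.1 a).coeff m).1 q) =
      Q.val m • (fun a => ((φ.1 a).coeff m).1 q) := by
  funext a
  have h1 := congrArg (fun F : (G.pow L).KO K => F.1 q) (φ.2.slot m a)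
  simp only [KO_sum, KO_smul] at h1
  simp only [Pi.smul_apply, smul_eq_mul]
  rw [← h1]
  unfold Matrix.vecMul dotProduct
  refine Finset.sum_congr rfl fun b _ => ?_
  rw [mul_comm]

theorem c10b_ortho (hT : TQ Q) (E : Rep G) (φ : F1 Q g ε E) (φ' : F1' Q g' ε' E) {m n : X}
    (h : m ≠ n) (q : L → G.X) (q' : L' → G.X) :
    ∑ a, ((φ.1 a).coeff m).1 q * ((φ'.1 a).coeff n).1 q' = 0 :=
  orthoK hT E h (c10b_eig E φ m q) (c10b_eig' E φ' n q')

/-- [C10b] PROOF. `coeff_dgn`, `Ph2_dot`: `D_m := ∑ a, pb inl (φ_a)_m * pb inr (φ'_a)_m`. `wt`: for `l = inl i`: `s_leib`, `s_pb` (`Sum.inl_injective`), `s_pb_ne`; `(φ.2.fam a).wt m i`. For `inr i` the same. `inv`: `wO` is a ring homomorphism, `wO_pb`, `(fam a).inv`. Values at `(q, q') := (k ∘ inl, k ∘ inr)`, `r a := ((φ.1 a).coeff m).1 q`, `r' a := ((φ'.1 a).coeff m).1 q'`: right and left eigenvectors of `Q.sE E` for `Q.val m`.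
`regS`, `0 < g`, `0 < g'`: `(Eu m ^ (g + g' - 1))⁻¹ * ∑ r a * r' a = (Eu m)⁻¹ * ∑ a, ((Eu m ^ (g - 1))⁻¹ * r a) * ((Eu m ^ (g' - 1))⁻¹ * r' a)` is in `A` by `pairK` and the `regS` of the families (`hT.Eu_ne`). `g = 0 < g'`: `∑ a, r a * r' a = ∑ a, (tot (φ.1 a)).1 q * r' a` because `∑ a, ((φ.1 a).coeff n).1 q * r' a = 0` for `n ≠ m` (`orthoK`; `tot` is the sum over the support), `tot` regular by `reg0`; so
`(Eu m ^ (g' - 1))⁻¹ * ∑ .. = ∑ a, (tot (φ.1 a)).1 q * ((Eu m ^ (g' - 1))⁻¹ * r' a)` is in `A`. `g' = 0 < g`: the same with the roles exchanged. `reg0` (`g + g' = 0`, so `g = g' = 0`): `tot (dgn ..)` at `(q, q')` is `∑ m, ∑ a, r a * r' a = ∑ a, (tot (φ.1 a)).1 q * (tot (φ'.1 a)).1 q'` by the same orthogonality (write both sides as double sums over degrees `m`, `n`; the terms with `m ≠ n` vanish). -/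
theorem dot_fam (hT : TQ Q) (P : RP Q g (optS true ε) B) (P' : RP Q g' (optS false ε') B') (E : Rep G)
    (φ : F1 Q g ε E) (φ' : F1' Q g' ε' E) :
    Q.Fam (g + g') (Sum.elim ε ε') (dgn _ X (Ph2 P P' (dot P P' E φ φ'))) := by
  classical
  have hc : ∀ m, (dgn _ X (Ph2 P P' (dot P P' E φ φ'))).coeff m =
      ∑ a, pb K Sum.inl ((φ.1 a).coeff m) * pb K Sum.inr ((φ'.1 a).coeff m) := by
    intro m
    rw [coeff_dgn, Ph2_dot]
  have hv : ∀ m (k : L ⊕ L' → G.X), ((dgn _ X (Ph2 P P' (dot P P' E φ φ'))).coeff m).1 k =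
      ∑ a, ((φ.1 a).coeff m).1 (k ∘ Sum.inl) * ((φ'.1 a).coeff m).1 (k ∘ Sum.inr) := by
    intro m k
    rw [hc, KO_sum]
    rfl
  refine ⟨?_, ?_, ?_, ?_⟩
  · intro m l
    rw [hc, map_sum, Finset.smul_sum]
    refine Finset.sum_congr rfl fun a _ => ?_
    rw [s_leib]
    rcases l with i | i
    · rw [s_pb_ne (fun l => by simp), s_pb Sum.inl_injective, (φ.2.fam a).wt m i, map_smul, mul_zero,
        zero_add, mul_smul_comm, mul_comm]
      rfl
    · rw [s_pb_ne (u := Sum.inl) (fun l => by simp), s_pb Sum.inr_injective, (φ'.2.fam a).wt m i,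
        map_smul, mul_zero, add_zero, mul_smul_comm]
      rfl
  · intro w m
    rw [hc, hc, map_sum]
    refine Finset.sum_congr rfl fun a _ => ?_
    rw [map_mul, wO_pb, wO_pb, (φ.2.fam a).inv, (φ'.2.fam a).inv]
  · intro hg k
    have hg0 : g = 0 := by omega
    have hg0' : g' = 0 := by omega
    obtain ⟨S, hS1, hS2, hS3⟩ : ∃ S : Finset X,
        (dgn _ X (Ph2 P P' (dot P P' E φ φ'))).coeff.support ⊆ S ∧
        (∀ a, (φ.1 a).coeff.support ⊆ S) ∧ ∀ a, (φ'.1 a).coeff.support ⊆ S := by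
      refine ⟨(dgn _ X (Ph2 P P' (dot P P' E φ φ'))).coeff.support ∪
        ((Finset.univ.biUnion fun a => (φ.1 a).coeff.support) ∪
        (Finset.univ.biUnion fun a => (φ'.1 a).coeff.support)), ?_, ?_, ?_⟩
      · exact Finset.subset_union_left
      · intro a
        exact (Finset.subset_biUnion_of_mem (fun a => (φ.1 a).coeff.support)
          (Finset.mem_univ a)).trans (Finset.subset_union_left.trans Finset.subset_union_right)
      · intro a
        exact (Finset.subset_biUnion_of_mem (fun a => (φ'.1 a).coeff.support)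
          (Finset.mem_univ a)).trans (Finset.subset_union_right.trans Finset.subset_union_right)
    have h1 : (tot (dgn _ X (Ph2 P P' (dot P P' E φ φ')))).1 k =
        ∑ a, (tot (φ.1 a)).1 (k ∘ Sum.inl) * (tot (φ'.1 a)).1 (k ∘ Sum.inr) := by
      rw [c10b_tot _ S hS1]
      have h2 : ∀ a, (tot (φ.1 a)).1 (k ∘ Sum.inl) * (tot (φ'.1 a)).1 (k ∘ Sum.inr) =
          ∑ m ∈ S, ∑ n ∈ S, ((φ.1 a).coeff m).1 (k ∘ Sum.inl) *
            ((φ'.1 a).coeff n).1 (k ∘ Sum.inr) := by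
        intro a
        rw [c10b_tot _ S (hS2 a), c10b_tot _ S (hS3 a), Finset.sum_mul_sum]
      rw [Finset.sum_congr rfl fun a _ => h2 a, Finset.sum_comm]
      refine Finset.sum_congr rfl fun m hm => ?_
      rw [Finset.sum_comm, Finset.sum_eq_single m, hv]
      · intro n _ hn
        exact c10b_ortho hT E φ φ' (Ne.symm hn) _ _
      · intro h
        exact absurd hm h
    show (tot (dgn _ X (Ph2 P P' (dot P P' E φ φ')))).1 k ∈ Q.A
    rw [h1]
    exact Subalgebra.sum_mem _ fun a _ => Subalgebra.mul_mem _ ((φ.2.fam a).reg0 hg0 _)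
      ((φ'.2.fam a).reg0 hg0' _)
  · intro m k hg
    rw [hv]
    have hE := hT.Eu_ne m
    rcases Nat.eq_zero_or_pos g with hg0 | hg0
    · have hg1 : 0 < g' := by omega
      obtain ⟨S, hS1, hS2⟩ : ∃ S : Finset X, m ∈ S ∧ ∀ a, (φ.1 a).coeff.support ⊆ S := by
        refine ⟨{m} ∪ (Finset.univ.biUnion fun a => (φ.1 a).coeff.support), ?_, ?_⟩
        · exact Finset.mem_union_left _ (Finset.mem_singleton_self _)
        · intro a
          exact (Finset.subset_biUnion_of_mem (fun a => (φ.1 a).coeff.support)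
            (Finset.mem_univ a)).trans Finset.subset_union_right
      have h1 : ∑ a, ((φ.1 a).coeff m).1 (k ∘ Sum.inl) * ((φ'.1 a).coeff m).1 (k ∘ Sum.inr) =
          ∑ a, (tot (φ.1 a)).1 (k ∘ Sum.inl) * ((φ'.1 a).coeff m).1 (k ∘ Sum.inr) := by
        have h2 : ∀ a, (tot (φ.1 a)).1 (k ∘ Sum.inl) * ((φ'.1 a).coeff m).1 (k ∘ Sum.inr) =
            ∑ n ∈ S, ((φ.1 a).coeff n).1 (k ∘ Sum.inl) * ((φ'.1 a).coeff m).1 (k ∘ Sum.inr) := by
          intro a
          rw [c10b_tot _ S (hS2 a), Finset.sum_mul]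
        rw [Finset.sum_congr rfl fun a _ => h2 a, Finset.sum_comm, Finset.sum_eq_single m]
        · intro n _ hn
          exact c10b_ortho hT E φ φ' hn _ _
        · intro h
          exact absurd hS1 h
      rw [h1, Finset.mul_sum]
      refine Subalgebra.sum_mem _ fun a _ => ?_
      have h3 : (Q.Eu m ^ (g + g' - 1))⁻¹ *
          ((tot (φ.1 a)).1 (k ∘ Sum.inl) * ((φ'.1 a).coeff m).1 (k ∘ Sum.inr)) =
          (tot (φ.1 a)).1 (k ∘ Sum.inl) *
            ((Q.Eu m ^ (g' - 1))⁻¹ * ((φ'.1 a).coeff m).1 (k ∘ Sum.inr)) := by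
        have h4 : g + g' - 1 = g' - 1 := by omega
        rw [h4]
        ring
      rw [h3]
      exact Subalgebra.mul_mem _ ((φ.2.fam a).reg0 hg0 _) ((φ'.2.fam a).regS m _ hg1)
    · rcases Nat.eq_zero_or_pos g' with hg1 | hg1
      · obtain ⟨S, hS1, hS2⟩ : ∃ S : Finset X, m ∈ S ∧ ∀ a, (φ'.1 a).coeff.support ⊆ S := by
          refine ⟨{m} ∪ (Finset.univ.biUnion fun a => (φ'.1 a).coeff.support), ?_, ?_⟩
          · exact Finset.mem_union_left _ (Finset.mem_singleton_self _)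
          · intro a
            exact (Finset.subset_biUnion_of_mem (fun a => (φ'.1 a).coeff.support)
              (Finset.mem_univ a)).trans Finset.subset_union_right
        have h1 : ∑ a, ((φ.1 a).coeff m).1 (k ∘ Sum.inl) * ((φ'.1 a).coeff m).1 (k ∘ Sum.inr) =
            ∑ a, ((φ.1 a).coeff m).1 (k ∘ Sum.inl) * (tot (φ'.1 a)).1 (k ∘ Sum.inr) := by
          have h2 : ∀ a, ((φ.1 a).coeff m).1 (k ∘ Sum.inl) * (tot (φ'.1 a)).1 (k ∘ Sum.inr) =
              ∑ n ∈ S, ((φ.1 a).coeff m).1 (k ∘ Sum.inl) * ((φ'.1 a).coeff n).1 (k ∘ Sum.inr) := by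
            intro a
            rw [c10b_tot _ S (hS2 a), Finset.mul_sum]
          rw [Finset.sum_congr rfl fun a _ => h2 a, Finset.sum_comm, Finset.sum_eq_single m]
          · intro n _ hn
            exact c10b_ortho hT E φ φ' (Ne.symm hn) _ _
          · intro h
            exact absurd hS1 h
        rw [h1, Finset.mul_sum]
        refine Subalgebra.sum_mem _ fun a _ => ?_
        have h3 : (Q.Eu m ^ (g + g' - 1))⁻¹ *
            (((φ.1 a).coeff m).1 (k ∘ Sum.inl) * (tot (φ'.1 a)).1 (k ∘ Sum.inr)) =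
            ((Q.Eu m ^ (g - 1))⁻¹ * ((φ.1 a).coeff m).1 (k ∘ Sum.inl)) *
              (tot (φ'.1 a)).1 (k ∘ Sum.inr) := by
          have h4 : g + g' - 1 = g - 1 := by omega
          rw [h4]
          ring
        rw [h3]
        exact Subalgebra.mul_mem _ ((φ.2.fam a).regS m _ hg0) ((φ'.2.fam a).reg0 hg1 _)
      · have h1 := pairK hT (E := E) (m := m)
          (r := fun a => (Q.Eu m ^ (g - 1))⁻¹ * ((φ.1 a).coeff m).1 (k ∘ Sum.inl))
          (r' := fun a => (Q.Eu m ^ (g' - 1))⁻¹ * ((φ'.1 a).coeff m).1 (k ∘ Sum.inr))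
          (fun a => (φ.2.fam a).regS m _ hg0) (fun a => (φ'.2.fam a).regS m _ hg1)
          (by
            have h2 : (fun a => (Q.Eu m ^ (g - 1))⁻¹ * ((φ.1 a).coeff m).1 (k ∘ Sum.inl)) =
                (Q.Eu m ^ (g - 1))⁻¹ • (fun a => ((φ.1 a).coeff m).1 (k ∘ Sum.inl)) := rfl
            rw [h2, Matrix.mulVec_smul, c10b_eig, smul_comm])
          (by
            have h2 : (fun a => (Q.Eu m ^ (g' - 1))⁻¹ * ((φ'.1 a).coeff m).1 (k ∘ Sum.inr)) =
                (Q.Eu m ^ (g' - 1))⁻¹ • (fun a => ((φ'.1 a).coeff m).1 (k ∘ Sum.inr)) := rfl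
            rw [h2, Matrix.smul_vecMul, c10b_eig', smul_comm])
        have h3 : (Q.Eu m ^ (g + g' - 1))⁻¹ *
            ∑ a, ((φ.1 a).coeff m).1 (k ∘ Sum.inl) * ((φ'.1 a).coeff m).1 (k ∘ Sum.inr) =
            (Q.Eu m)⁻¹ * ∑ a, (Q.Eu m ^ (g - 1))⁻¹ * ((φ.1 a).coeff m).1 (k ∘ Sum.inl) *
              ((Q.Eu m ^ (g' - 1))⁻¹ * ((φ'.1 a).coeff m).1 (k ∘ Sum.inr)) := by
          have h4 : g + g' - 1 = (g - 1) + (g' - 1) + 1 := by omega
          rw [h4, Finset.mul_sum, Finset.mul_sum]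
          refine Finset.sum_congr rfl fun a _ => ?_
          rw [pow_succ, pow_add, mul_inv, mul_inv]
          ring
        rw [h3]
        exact h1

end

end Pool.Agent.MTF
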