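import Pool.Agent.MTF.C10D

/-!
# MTF : part C, joining: the filtration of the invariants
-/

set_option linter.unusedSectionVars false

namespace Pool.Agent.MTF

open AffGrp TensorProduct

section
variable {G : AffGrp} {K W X : Type} [Field K] [Algebra ℂ K] [Group W] [Fintype W]
  [MulSemiringAction W K] [SMulCommClass W ℂ K] [AddCommGroup X] [DistribMulAction W X]
variable {L : Type} [Finite L] [DecidableEq L] {Q : TQD G K W X}
variable {L' : Type} [Finite L'] [DecidableEq L'] {g g' : ℕ} {ε : L → Bool} {ε' : L' → Bool}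
  {B B' : Type} [CommRing B] [Algebra ℂ B] [CommRing B'] [Algebra ℂ B']

/-- [C10g] PROOF. `gen1 hT φ n hn : φ ∈ Gen1 hT g ε E n`, closure induction (`dot` is additive): for `φ = act1 h ψ` with `rp W l = l`, `N l < n`: `rel1 hT P P' h ψ φ'` says that `dot E (act1 h ψ) φ' - dot V ψ (act1' h φ')` is in `IT`, in `ZCT` by `ZC_I`, and `dot V ψ (act1' h φ')` is in `ZT l ≤ ZCT n` (`ZC_Zl`). -/
theorem dot_ZC (hT : TQ Q) (P : RP Q g (optS true ε) B) (P' : RP Q g' (optS false ε') B') {E : Rep G}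
    (φ : F1 Q g ε E) (φ' : F1' Q g' ε' E) (n : ℕ) (hn : ∀ a m, (φ.1 a).coeff m ≠ 0 → Q.N m < n) :
    dot P P' E φ φ' ∈ ZCT hT P P' n := by
  have h := gen1 hT φ n hn
  refine AddSubgroup.closure_induction (p := fun φ _ => dot P P' E φ φ' ∈ ZCT hT P P' n) ?_ ?_ ?_ ?_ h
  · rintro φ ⟨l, hl, hln, T, h, ψ, rfl⟩
    have h1 : dot P P' E (act1 h ψ) φ' - dot P P' (Vr hT l) ψ (act1' h φ') ∈ ZCT hT P P' n :=
      ZC_I (rel1 hT P P' h ψ φ')
    have h2 : dot P P' (Vr hT l) ψ (act1' h φ') ∈ ZCT hT P P' n :=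
      ZC_Zl hl hln (AddSubgroup.subset_closure ⟨ψ, act1' h φ', rfl⟩)
    have h3 := AddSubgroup.add_mem _ h1 h2
    rwa [sub_add_cancel] at h3
  · show dot P P' E 0 φ' ∈ _
    rw [map_zero]
    exact AddSubgroup.zero_mem _
  · intro x y _ _ hx hy
    show dot P P' E (x + y) φ' ∈ _
    rw [map_add]
    exact AddSubgroup.add_mem _ hx hy
  · intro x _ hx
    show dot P P' E (-x) φ' ∈ _
    rw [map_neg]
    exact AddSubgroup.neg_mem _ hx

/-- [C10g2] PROOF. The same with `gen1'`: for `φ' = act1' h ψ` (`h : Q.HomJ E V T`) `dot V (act1 h φ) ψ - dot E φ (act1' h ψ)` is in `IT` by `rel1`. -/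
theorem dot_ZC' (hT : TQ Q) (P : RP Q g (optS true ε) B) (P' : RP Q g' (optS false ε') B') {E : Rep G}
    (φ : F1 Q g ε E) (φ' : F1' Q g' ε' E) (n : ℕ) (hn : ∀ a m, (φ'.1 a).coeff m ≠ 0 → Q.N m < n) :
    dot P P' E φ φ' ∈ ZCT hT P P' n := by
  have h := gen1' hT φ' n hn
  refine AddSubgroup.closure_induction (p := fun φ' _ => dot P P' E φ φ' ∈ ZCT hT P P' n) ?_ ?_ ?_ ?_ h
  · rintro φ' ⟨l, hl, hln, T, h, ψ, rfl⟩
    have h1 : dot P P' (Vr hT l) (act1 h φ) ψ - dot P P' E φ (act1' h ψ) ∈ ZCT hT P P' n :=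
      ZC_I (rel1 hT P P' h φ ψ)
    have h2 : dot P P' (Vr hT l) (act1 h φ) ψ ∈ ZCT hT P P' n :=
      ZC_Zl hl hln (AddSubgroup.subset_closure ⟨act1 h φ, ψ, rfl⟩)
    have h3 := AddSubgroup.sub_mem _ h2 h1
    rwa [sub_sub_cancel] at h3
  · rw [map_zero]
    exact AddSubgroup.zero_mem _
  · intro x y _ _ hx hy
    rw [map_add]
    exact AddSubgroup.add_mem _ hx hy
  · intro x _ hx
    rw [map_neg]
    exact AddSubgroup.neg_mem _ hx

end

end Pool.Agent.MTF
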