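import Pool.Agent.MTF.C10g
import Pool.Agent.MTF.C8d

/-!
# MTF : part C, joining: the key step
-/

set_option linter.unusedSectionVars false

namespace Pool.Agent.MTF

open AffGrp TensorProduct

section
variable {G : AffGrp} {K W X : Type} [Field K] [Algebra ℂ K] [Group W] [Fintype W]
  [MulSemiringAction W K] [SMulCommClass W ℂ K] [AddCommGroup X] [DistribMulAction W X]
variable {L : Type} [Finite L] [DecidableEq L] {Q : TQD G K W X}
variable {L' : Type} [Finite L'] [DecidableEq L'] {g g' : ℕ} {ε : L → Bool} {ε' : L' → Bool}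
  {B B' : Type} [CommRing B] [Algebra ℂ B] [CommRing B'] [Algebra ℂ B']

theorem c10h_zero (hT : TQ Q) (P : RP Q g (optS true ε) B) (P' : RP Q g' (optS false ε') B') (l : X) (n : ℕ)
    (φ : Fin n → F1 Q g ε (Vr hT l)) (φ' : Fin n → F1' Q g' ε' (Vr hT l))
    (h0 : ∑ j, (Ph2 P P' (dot P P' (Vr hT l) (φ j) (φ' j))).coeff (l, l) = 0)
    (m : Fin n → (G.pow L).KO K) (m' : Fin n → (G.pow L').KO K)
    (hm : ∀ j a, Q.Eu l • ((φ j).1 a).coeff l = Q.Eu l ^ g • (vr hT l a • m j))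
    (hm' : ∀ j a, Q.Eu l • ((φ' j).1 a).coeff l = Q.Eu l ^ g' • (vr' hT l a • m' j))
    (q : L → G.X) (q' : L' → G.X) : ∑ j, (m j).1 q * (m' j).1 q' = 0 := by
  have hE := hT.Eu_ne l
  have hp := (Vr_hw hT l).pair
  have h1 : ∑ j, ∑ a, (((φ j).1 a).coeff l).1 q * (((φ' j).1 a).coeff l).1 q' = 0 := by
    have h := congrArg (fun F : (G.pow (L ⊕ L')).KO K => F.1 (Sum.elim q q')) h0
    simp only [Ph2_dot, KO_sum, KO_mul, KO_zero] at h
    exact h
  have e : ∀ j a, (((φ j).1 a).coeff l).1 q = (Q.Eu l)⁻¹ * (Q.Eu l ^ g * (vr hT l a * (m j).1 q)) := by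
    intro j a
    have h := congrArg (fun F : (G.pow L).KO K => F.1 q) (hm j a)
    simp only [KO_smul] at h
    rw [← h, inv_mul_cancel_left₀ hE]
  have e' : ∀ j a, (((φ' j).1 a).coeff l).1 q' = (Q.Eu l)⁻¹ * (Q.Eu l ^ g' * (vr' hT l a * (m' j).1 q')) := by
    intro j a
    have h := congrArg (fun F : (G.pow L').KO K => F.1 q') (hm' j a)
    simp only [KO_smul] at h
    rw [← h, inv_mul_cancel_left₀ hE]
  have h2 : ((Q.Eu l)⁻¹ * (Q.Eu l)⁻¹ * (Q.Eu l ^ g * Q.Eu l ^ g')) *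
      ((∑ a, vr hT l a * vr' hT l a) * ∑ j, (m j).1 q * (m' j).1 q') = 0 := by
    rw [← h1, Finset.sum_mul_sum, Finset.sum_comm, Finset.mul_sum]
    refine Finset.sum_congr rfl fun j _ => ?_
    rw [Finset.mul_sum]
    refine Finset.sum_congr rfl fun a _ => ?_
    rw [e, e']
    ring
  rw [hp] at h2
  have h3 : (Q.Eu l)⁻¹ * (Q.Eu l)⁻¹ * (Q.Eu l ^ g * Q.Eu l ^ g') ≠ 0 :=
    mul_ne_zero (mul_ne_zero (inv_ne_zero hE) (inv_ne_zero hE)) (mul_ne_zero (pow_ne_zero _ hE) (pow_ne_zero _ hE))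
  rcases mul_eq_zero.1 h2 with h | h
  · exact absurd h h3
  · rcases mul_eq_zero.1 h with h | h
    · exact absurd h hE
    · exact h

theorem c10h_val {E : Rep G} {κ : Type} (t : Finset κ) (x : κ → F1 Q g ε E) (a : E.ι) (l : X) :
    ((∑ i ∈ t, x i).1 a).coeff l = ∑ i ∈ t, ((x i).1 a).coeff l := by
  classical
  induction t using Finset.induction_on with
  | empty => rfl
  | insert i s hi ih =>
    rw [Finset.sum_insert hi, Finset.sum_insert hi, ← ih]
    rfl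

theorem c10h_val' {E : Rep G} {κ : Type} (t : Finset κ) (x : κ → F1' Q g ε E) (a : E.ι) (l : X) :
    ((∑ i ∈ t, x i).1 a).coeff l = ∑ i ∈ t, ((x i).1 a).coeff l := by
  classical
  induction t using Finset.induction_on with
  | empty => rfl
  | insert i s hi ih =>
    rw [Finset.sum_insert hi, Finset.sum_insert hi, ← ih]
    rfl

theorem c10h_act1 {E E' : Rep G} {T : Matrix E'.ι E.ι K} (h : Q.HomJ E E' T) (ψ : F1 Q g ε E)
    (a : E'.ι) (l : X) : ((act1 h ψ).1 a).coeff l = ∑ b, T a b • (ψ.1 b).coeff l := by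
  rw [act1_apply, AddMonoidAlgebra.coeff_sum, Finsupp.finsetSum_apply]
  rfl

theorem c10h_act1' {E E' : Rep G} {T : Matrix E'.ι E.ι K} (h : Q.HomJ E E' T) (ψ : F1' Q g ε E')
    (b : E.ι) (l : X) : ((act1' h ψ).1 b).coeff l = ∑ a, T a b • (ψ.1 a).coeff l := by
  rw [act1'_apply, AddMonoidAlgebra.coeff_sum, Finsupp.finsetSum_apply]
  rfl

theorem c10h_sub {E : Rep G} (x y : F1 Q g ε E) (a : E.ι) (l : X) :
    ((x - y).1 a).coeff l = (x.1 a).coeff l - (y.1 a).coeff l := by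
  show (x.1 a - y.1 a).coeff l = _
  rw [AddMonoidAlgebra.coeff_sub, Finsupp.sub_apply]

/-- [C10h] PROOF. `V := Vr hT l`, `v := vr hT l`, `v' := vr' hT l`. `leadT hT (φ j)`, `leadT' hT (φ' j)` give `m j`, `m' j` with `Eu l • (φ j a)_l = Eu l ^ g • v a • m j`, `Eu l • (φ' j a)_l = Eu l ^ g' • v' a • m' j`. (1) `h0` and `Ph2_dot`, multiplied by `Eu l ^ 2`, at `(q, q')`: `Eu l ^ (g + g') * (∑ a, v a * v' a) * ∑ j, m j q * m' j q' = 0`, so (`(Vr_hw hT l).pair`, `hT.Eu_ne`) `∑ j, (m j).1 q * (m' j).1 q' = 0` for all `q`, `q'`.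
(2) `relL hT m m'` gives `y t`, `a j t` with `m j = ∑ t, a j t • y t`, `∑ j, a j t • m' j = 0`; `liftT hT g` gives `η t : F1 Q g ε V` with `SuppLe l`, `Eu l • (η t a)_l = Eu l ^ g • v a • y t`; `homJS hT (Vr_hw hT l)` gives `S j t` with `hS : Q.HomJ V V (S j t)`, `(S j t).mulVec v = a j t • v`, `(S j t).vecMul v' = a j t • v'`. (3) `ρ j := φ j - ∑ t, act1 (hS j t) (η t)`: `Eu l • (ρ j a)_l = Eu l ^ g • (v a • m j - ∑ t b, S j t a b • v b • y t) = 0`, so `(ρ j a)_l = 0`, the support of `ρ j a` is in `W l ∪ {N < N l}` (`supp1 (Vr_hw hT l)` for `ρ j`), and by `supp_lt` in `{N < N l}`: `dot (ρ j) (φ' j) ∈ ZCT (N l)` by `dot_ZC`.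
(4) `∑ j, dot (φ j) (φ' j) = ∑ j, dot (ρ j) (φ' j) + ∑ j t, dot (act1 (hS j t) (η t)) (φ' j)`, and by `rel1` the second sum is, modulo `IT`, `∑ t, dot (η t) (ξ t)` with `ξ t := ∑ j, act1' (hS j t) (φ' j)`. `Eu l • (ξ t b)_l = ∑ j a, S j t a b • Eu l ^ g' • v' a • m' j = Eu l ^ g' • v' b • ∑ j, a j t • m' j = 0`, so as in (3) (`supp1'`, `supp_lt`) the support of `ξ t b` is in `{N < N l}` and `dot (η t) (ξ t) ∈ ZCT (N l)` by `dot_ZC'`. `ZC_I` for the elements of `IT`. -/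
theorem keyT (hT : TQ Q) (P : RP Q g (optS true ε) B) (P' : RP Q g' (optS false ε') B') (l : X) (n : ℕ)
    (φ : Fin n → F1 Q g ε (Vr hT l)) (φ' : Fin n → F1' Q g' ε' (Vr hT l))
    (h0 : ∑ j, (Ph2 P P' (dot P P' (Vr hT l) (φ j) (φ' j))).coeff (l, l) = 0) :
    ∑ j, dot P P' (Vr hT l) (φ j) (φ' j) ∈ ZCT hT P P' (Q.N l) := by
  have hE := hT.Eu_ne l
  have hV := Vr_hw hT l
  choose m hm1 hm2 hm3 using fun j => leadT hT (φ j)
  choose m' hm1' hm2' hm3' using fun j => leadT' hT (φ' j)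
  have hz := c10h_zero hT P P' l n φ φ' h0 m m' hm3 hm3'
  obtain ⟨q, y, a, hy, ha, hmy, hrel⟩ := relL hT m m' (fun j => ⟨hm1 j, hm2 j⟩)
    (fun j => ⟨(hm1' j).reg, hm2' j⟩) hz
  choose η hη1 hη2 using fun t => liftT hT g (hy t).1 (hy t).2
  choose S hS1 hS2 hS3 using fun j t => homJS hT hV (ha j t).1 (ha j t).2
  let ρ : Fin n → F1 Q g ε (Vr hT l) := fun j => φ j - ∑ t, act1 (hS1 j t) (η t)
  let ξ : Fin q → F1' Q g' ε' (Vr hT l) := fun t => ∑ j, act1' (hS1 j t) (φ' j)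
  have hinj : ∀ {H : AffGrp} {F F' : H.KO K}, Q.Eu l • F = Q.Eu l • F' → F = F' := by
    intro H F F' h
    exact smul_right_injective _ hE h
  have hρ0 : ∀ j b, ((ρ j).1 b).coeff l = 0 := by
    intro j b
    apply hinj
    rw [c10h_sub, c10h_val, smul_sub, hm3, smul_zero, hmy j, Finset.smul_sum, Finset.smul_sum,
      Finset.smul_sum, ← Finset.sum_sub_distrib]
    refine Finset.sum_eq_zero fun t _ => ?_
    rw [c10h_act1, Finset.smul_sum]
    have h1 : ∀ c, Q.Eu l • S j t b c • ((η t).1 c).coeff l =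
        (S j t b c * vr hT l c) • Q.Eu l ^ g • y t := by
      intro c
      rw [smul_comm, hη2, smul_comm (Q.Eu l ^ g), smul_smul]
    rw [Finset.sum_congr rfl fun c _ => h1 c, ← Finset.sum_smul]
    have h2 : ∑ c, S j t b c * vr hT l c = a j t * vr hT l b := congrFun (hS2 j t) b
    rw [h2, smul_smul (vr hT l b), mul_comm (vr hT l b), smul_comm (Q.Eu l ^ g), sub_self]
  have hξ0 : ∀ t b, ((ξ t).1 b).coeff l = 0 := by
    intro t b
    apply hinj
    rw [c10h_val', smul_zero, Finset.smul_sum]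
    have h1 : ∀ j, Q.Eu l • ((act1' (hS1 j t) (φ' j)).1 b).coeff l =
        (Q.Eu l ^ g' * vr' hT l b) • a j t • m' j := by
      intro j
      rw [c10h_act1', Finset.smul_sum]
      have h1 : ∀ c, Q.Eu l • S j t c b • ((φ' j).1 c).coeff l =
          (vr' hT l c * S j t c b) • Q.Eu l ^ g' • m' j := by
        intro c
        rw [smul_comm, hm3', smul_comm (Q.Eu l ^ g'), smul_smul, mul_comm (S j t c b)]
      rw [Finset.sum_congr rfl fun c _ => h1 c, ← Finset.sum_smul]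
      have h2 : ∑ c, vr' hT l c * S j t c b = a j t * vr' hT l b := congrFun (hS3 j t) b
      rw [h2, smul_smul, smul_smul]
      congr 1
      ring
    rw [Finset.sum_congr rfl fun j _ => h1 j, ← Finset.smul_sum, hrel, smul_zero]
  have hρ : ∀ j, dot P P' (Vr hT l) (ρ j) (φ' j) ∈ ZCT hT P P' (Q.N l) := fun j =>
    dot_ZC hT P P' (ρ j) (φ' j) (Q.N l) fun b k hk =>
      supp_lt ((ρ j).2.fam b) (supp1 hV (ρ j).2 b) (hρ0 j b) k hk
  have hξ : ∀ t, dot P P' (Vr hT l) (η t) (ξ t) ∈ ZCT hT P P' (Q.N l) := fun t =>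
    dot_ZC' hT P P' (η t) (ξ t) (Q.N l) fun b k hk =>
      supp_lt ((ξ t).2.fam b) (supp1' hV (ξ t).2 b) (hξ0 t b) k hk
  have e : ∑ j, dot P P' (Vr hT l) (φ j) (φ' j) = ∑ j, dot P P' (Vr hT l) (ρ j) (φ' j) +
      ∑ j, ∑ t, (dot P P' (Vr hT l) (act1 (hS1 j t) (η t)) (φ' j) -
        dot P P' (Vr hT l) (η t) (act1' (hS1 j t) (φ' j))) +
      ∑ t, dot P P' (Vr hT l) (η t) (ξ t) := by
    have e1 : ∀ j, dot P P' (Vr hT l) (ρ j) (φ' j) = dot P P' (Vr hT l) (φ j) (φ' j) -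
        ∑ t, dot P P' (Vr hT l) (act1 (hS1 j t) (η t)) (φ' j) := by
      intro j
      show dot P P' (Vr hT l) (φ j - ∑ t, act1 (hS1 j t) (η t)) (φ' j) = _
      rw [map_sub, AddMonoidHom.sub_apply, map_sum, AddMonoidHom.finsetSum_apply]
    have e2 : ∀ t, dot P P' (Vr hT l) (η t) (ξ t) =
        ∑ j, dot P P' (Vr hT l) (η t) (act1' (hS1 j t) (φ' j)) := fun t => map_sum _ _ _
    rw [Finset.sum_congr rfl fun j _ => e1 j, Finset.sum_congr rfl fun t _ => e2 t,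
      Finset.sum_comm (f := fun t j => dot P P' (Vr hT l) (η t) (act1' (hS1 j t) (φ' j)))]
    simp only [Finset.sum_sub_distrib]
    abel
  rw [e]
  refine add_mem (add_mem (sum_mem fun j _ => hρ j) (ZC_I ?_)) (sum_mem fun t _ => hξ t)
  exact sum_mem fun j _ => sum_mem fun t _ => rel1 hT P P' (hS1 j t) (η t) (φ' j)

end

end Pool.Agent.MTF
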