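import Pool.Agent.MTF.C0

/-!
# MTF : part C, the action of `W` on families
-/

set_option linter.unusedSectionVars false

namespace Pool.Agent.MTF

open AffGrp

section
variable {G : AffGrp} {K W X : Type} [Field K] [Algebra ℂ K] [Group W] [Fintype W]
  [MulSemiringAction W K] [SMulCommClass W ℂ K] [AddCommGroup X] [DistribMulAction W X]
variable {L : Type} [Finite L]

/-- The action of `W` on families: `(w F)_(w m) = w (F_m)`. -/
noncomputable def wRR (G : AffGrp) (K X L : Type) [Field K] [Algebra ℂ K] [MulSemiringAction W K]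
    [SMulCommClass W ℂ K] [AddCommGroup X] [DistribMulAction W X] [Finite L] (w : W) :
    RR G K X L →+* RR G K X L :=
  (AddMonoidAlgebra.mapDomainRingHom _ (DistribSMul.toAddMonoidHom X w)).comp
    (AddMonoidAlgebra.mapRingHom X (wO (G.pow L) w))

/-- [C1a] PROOF. `AddMonoidAlgebra.mapDomainRingHom` is `mapDomain` on coefficients (`Finsupp.mapDomain_apply` for the injective map `w • ·`), `coeff_mapRingHom`. -/
theorem coeff_wRR (w : W) (F : RR G K X L) (m : X) :
    (wRR G K X L w F).coeff (w • m) = wO _ w (F.coeff m) := by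
  show (Finsupp.mapDomain (fun x : X => w • x)
    (AddMonoidAlgebra.mapRingHom X (wO (G.pow L) w) F).coeff) (w • m) = _
  have h := Finsupp.mapDomain_apply (MulAction.injective w)
    (AddMonoidAlgebra.mapRingHom X (wO (G.pow L) w) F).coeff m
  refine h.trans ?_
  exact AddMonoidAlgebra.coeff_mapRingHom _ _ _

/-- [C1b] PROOF. Extensionality and `coeff_wRR` (every `m'` is `w • (w⁻¹ • m')`). -/
theorem wRR_iff (F : RR G K X L) :
    (∀ (w : W) m, wO _ w (F.coeff m) = F.coeff (w • m)) ↔ ∀ w : W, wRR G K X L w F = F := by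
  constructor
  · intro h w
    apply AddMonoidAlgebra.coeff_injective
    apply Finsupp.ext
    intro m'
    obtain ⟨m, rfl⟩ : ∃ m, w • m = m' := ⟨w⁻¹ • m', smul_inv_smul _ _⟩
    rw [coeff_wRR, h]
  · intro h w m
    rw [← coeff_wRR, h w]

end

end Pool.Agent.MTF
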