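import Pool.Agent.MTF.C0

/-!
# MTF : part C, constants
-/

set_option linter.unusedSectionVars false

namespace Pool.Agent.MTF

open AffGrp

section
variable {G : AffGrp} {K W X : Type} [Field K] [Algebra ℂ K] [Group W] [Fintype W]
  [MulSemiringAction W K] [SMulCommClass W ℂ K] [AddCommGroup X] [DistribMulAction W X]
variable {L : Type} [Finite L] [DecidableEq L] {Q : TQD G K W X}

/-- [C1c] Elements of `A^W` in degree `0` are families. PROOF. `algebraMap K (RR ..) a = single 0 (algebraMap _ _ a)`: the coefficient at `m` is `algebraMap a` (value `a` everywhere) for `m = 0` and `0` otherwise (`AddMonoidAlgebra.coeff_single`, `Finsupp.single_apply`). `wt`: `s_const`, `val 0 = 0`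
(`smul_zero`, `map_zero`). `inv`: `w • m = 0 ↔ m = 0` and `ha'`. `reg0`: `tot_eq`, `totH` is an algebra homomorphism (`AlgHom.commutes`). `regS`: `hT.Eu_zero`. -/
theorem Fam_const (hT : TQ Q) (g : ℕ) (ε : L → Bool) {a : K} (ha : a ∈ Q.A) (ha' : ∀ w : W, w • a = a) :
    Q.Fam g ε (algebraMap K (RR G K X L) a) := by
  classical
  have hco : ∀ m : X, (algebraMap K (RR G K X L) a).coeff m =
      if m = 0 then algebraMap K ((G.pow L).KO K) a else 0 := by
    intro m
    have h1 : (algebraMap K (RR G K X L) a) =
        AddMonoidAlgebra.single (0 : X) (algebraMap K ((G.pow L).KO K) a) := rfl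
    rw [h1, AddMonoidAlgebra.coeff_single, Finsupp.single_apply]
    simp only [eq_comm]
  have hwO : ∀ w : W, wO (G.pow L) w (algebraMap K ((G.pow L).KO K) a) =
      algebraMap K ((G.pow L).KO K) a := by
    intro w
    apply KO_ext
    intro x
    rw [wO_apply]
    exact ha' w
  refine ⟨fun m l => ?_, fun w m => ?_, fun hg x => ?_, fun m k hg => ?_⟩
  · rw [hco]
    split_ifs with hm
    · rw [s_const, hm, smul_zero, map_zero, zero_smul]
    · rw [map_zero, smul_zero]
  · rw [hco, hco]
    have h2 : w • m = 0 ↔ m = 0 := by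
      constructor
      · intro h
        have := congrArg (fun y => w⁻¹ • y) h
        simpa using this
      · rintro rfl
        exact smul_zero w
    by_cases hm : m = 0
    · rw [if_pos hm, if_pos (h2.mpr hm), hwO]
    · rw [if_neg hm, if_neg (fun h => hm (h2.mp h)), map_zero]
  · rw [tot_eq, AlgHom.commutes]
    exact ha
  · rw [hco]
    split_ifs with hm
    · rw [hm, hT.Eu_zero, one_pow, inv_one, one_mul]
      exact ha
    · rw [KO_zero, mul_zero]
      exact Subalgebra.zero_mem _

end

end Pool.Agent.MTF
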