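import Pool.Agent.MTF.C2b

/-!
# MTF : part C, moment maps
-/

set_option linter.unusedSectionVars false

namespace Pool.Agent.MTF

open AffGrp

section
variable {G : AffGrp} {K W X : Type} [Field K] [Algebra ℂ K] [Group W] [Fintype W]
  [MulSemiringAction W K] [SMulCommClass W ℂ K] [AddCommGroup X] [DistribMulAction W X]
variable {L : Type} [Finite L]

/-- the finite dimension of the Lie algebra -/
theorem TQD.fd (Q : TQD G K W X) : FiniteDimensional ℂ G.Lie := Module.Basis.finiteDimensional_of_finite Q.D

/-- The function `x ↦ λ (Ad x s)` on `G`. -/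
noncomputable def mom1 (Q : TQD G K W X) (lam : Module.Dual ℂ G.Lie) : G.KO K :=
  have := Q.fd
  ∑ j, Q.c j • inc K (AdF lam (Q.D j))

theorem mom1_apply (Q : TQD G K W X) (lam : Module.Dual ℂ G.Lie) (x : G.X) :
    (mom1 Q lam).1 x = ∑ j, Q.c j * algebraMap ℂ K (lam (G.Ad x (Q.D j))) := by
  unfold mom1
  rw [KO_sum]
  rfl

/-- The function `k ↦ λ (Ad (k l) s)` on `G^L`. -/
noncomputable def momO (Q : TQD G K W X) (l : L) (lam : Module.Dual ℂ G.Lie) : (G.pow L).KO K := pu K l (mom1 Q lam)

theorem momO_apply (Q : TQD G K W X) (l : L) (lam : Module.Dual ℂ G.Lie) (k : L → G.X) :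
    (momO Q l lam).1 k = ∑ j, Q.c j * algebraMap ℂ K (lam (G.Ad (k l) (Q.D j))) := mom1_apply Q lam (k l)

/-- The moment map of the leg `l`, in degree `0`. -/
noncomputable def momF (Q : TQD G K W X) (l : L) : Module.Dual ℂ G.Lie →ₗ[ℂ] RR G K X L where
  toFun lam := AddMonoidAlgebra.single 0 (momO Q l lam)
  map_add' lam lam' := by
    rw [← AddMonoidAlgebra.single_add]
    congr 1
    apply KO_ext
    intro k
    rw [KO_add, momO_apply, momO_apply, momO_apply, ← Finset.sum_add_distrib]
    refine Finset.sum_congr rfl fun j _ => ?_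
    rw [LinearMap.add_apply, map_add, mul_add]
  map_smul' c lam := by
    rw [RingHom.id_apply, AddMonoidAlgebra.smul_single]
    congr 1
    apply KO_ext
    intro k
    have h1 : (c • momO Q l lam).1 k = algebraMap ℂ K c * (momO Q l lam).1 k := by
      rw [← Algebra.smul_def]
      rfl
    rw [h1, momO_apply, momO_apply, Finset.mul_sum]
    refine Finset.sum_congr rfl fun j _ => ?_
    rw [LinearMap.smul_apply, smul_eq_mul, map_mul]
    ring

theorem momF_apply (Q : TQD G K W X) (l : L) (lam : Module.Dual ℂ G.Lie) :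
    momF Q l lam = AddMonoidAlgebra.single 0 (momO Q l lam) := rfl

theorem ad_add (E E' : G.Lie) : G.ad (E + E') = G.ad E + G.ad E' := by
  apply LinearMap.ext
  intro Z
  apply Subtype.ext
  apply LinearMap.ext
  intro f
  show (E + E').1 (G.der Z f) - Z.1 (G.der (E + E') f) = _
  have h1 : G.der (E + E') f = G.der E f + G.der E' f := rfl
  rw [h1, map_add]
  show E.1 (G.der Z f) + E'.1 (G.der Z f) - (Z.1 (G.der E f) + Z.1 (G.der E' f)) =
    E.1 (G.der Z f) - Z.1 (G.der E f) + (E'.1 (G.der Z f) - Z.1 (G.der E' f))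
  ring

theorem ad_smul (c : ℂ) (E : G.Lie) : G.ad (c • E) = c • G.ad E := by
  apply LinearMap.ext
  intro Z
  apply Subtype.ext
  apply LinearMap.ext
  intro f
  show (c • E).1 (G.der Z f) - Z.1 (G.der (c • E) f) = _
  have h1 : G.der (c • E) f = c • G.der E f := rfl
  rw [h1, map_smul]
  show c * E.1 (G.der Z f) - c * Z.1 (G.der E f) = c * (E.1 (G.der Z f) - Z.1 (G.der E f))
  ring

/-- `κ(D, ·)` -/
noncomputable def killD (G : AffGrp) : G.Lie →ₗ[ℂ] Module.Dual ℂ G.Lie where
  toFun D :=
    { toFun := fun E => G.killing D E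
      map_add' := fun E E' => by
        unfold AffGrp.killing
        rw [ad_add, LinearMap.comp_add, map_add]
      map_smul' := fun c E => by
        unfold AffGrp.killing
        rw [ad_smul, LinearMap.comp_smul, map_smul]
        rfl }
  map_add' D D' := by
    apply LinearMap.ext
    intro E
    show G.killing (D + D') E = G.killing D E + G.killing D' E
    unfold AffGrp.killing
    rw [ad_add, LinearMap.add_comp, map_add]
  map_smul' c D := by
    apply LinearMap.ext
    intro E
    show G.killing (c • D) E = c * G.killing D E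
    unfold AffGrp.killing
    rw [ad_smul, LinearMap.smul_comp, map_smul, smul_eq_mul]

theorem killD_apply (D E : G.Lie) : killD G D E = G.killing D E := rfl

/-- The function `x ↦ κ(D, Ad x s)` on `G`. -/
noncomputable def muO (Q : TQD G K W X) (D : G.Lie) : G.KO K := mom1 Q (killD G D)

theorem muO_apply (Q : TQD G K W X) (D : G.Lie) (x : G.X) :
    (muO Q D).1 x = ∑ j, Q.c j * algebraMap ℂ K (G.killing D (G.Ad x (Q.D j))) := mom1_apply Q _ x

/-- The moment map `D ↦ κ(D, Ad (k l) s)` of the leg `l`. -/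
noncomputable def muF (Q : TQD G K W X) (l : L) : G.Lie →ₗ[ℂ] RR G K X L := momF Q l ∘ₗ killD G

theorem muF_apply (Q : TQD G K W X) (l : L) (D : G.Lie) :
    muF Q l D = AddMonoidAlgebra.single 0 (pu K l (muO Q D)) := rfl

theorem muF_mom (Q : TQD G K W X) (l : L) (D : G.Lie) : muF Q l D = momF Q l (killD G D) := rfl

end

end Pool.Agent.MTF
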