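import Pool.Agent.MTF.C1

/-!
# MTF : part C, moment maps
-/

set_option linter.unusedSectionVars false

namespace Pool.Agent.MTF

open AffGrp

section
variable {G : AffGrp}

/-- evaluation at `f` -/
def evL (f : G.O) : Module.Dual ℂ G.Lie where
  toFun D := D.1 f
  map_add' _ _ := rfl
  map_smul' _ _ := rfl

/-- [C2a1] The evaluations span the dual space of the Lie algebra. PROOF. An element of `G.Lie` killed by all evaluations is `0` (`Subtype.ext`, `LinearMap.ext`), so `S.dualCoannihilator = ⊥` and `S = ⊤` (`Subspace.dualCoannihilator_dualAnnihilator_eq`-like lemma for the finite dimensional space `G.Lie`; `Submodule.dualAnnihilator_bot`). -/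
theorem dual_ev [FiniteDimensional ℂ G.Lie] (S : Submodule ℂ (Module.Dual ℂ G.Lie)) (h : ∀ f : G.O, evL f ∈ S)
    (lam : Module.Dual ℂ G.Lie) : lam ∈ S := by
  by_contra hlam
  have hS : S < ⊤ := lt_top_iff_ne_top.2 fun h0 => hlam (h0 ▸ Submodule.mem_top)
  obtain ⟨F, hF0, hF⟩ := Submodule.exists_le_ker_of_lt_top S hS
  apply hF0
  obtain ⟨D, rfl⟩ := (Module.evalEquiv ℂ G.Lie).surjective F
  have hD : D = 0 := by
    apply Subtype.ext
    apply LinearMap.ext
    intro f
    exact hF (h f)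
  rw [hD, map_zero]

/-- [C2a] The functional `λ` of `Ad x E` is a regular function of `x`. PROOF. `S := {λ | (fun x => λ (G.Ad x E)) ∈ G.O}` is a submodule of `Module.Dual ℂ G.Lie` (`Subalgebra.add_mem`, `smul_mem`); by `dual_ev` it suffices that it contains the evaluations `evL f`: `(G.Ad x E).1 f = E.1 (G.cj x f)`, and
`f (x * y * x⁻¹) = ∑ i, (a i) x * (b i) (y * x⁻¹) = ∑ i j, (a i) x * (c i j) y * (d i j) x⁻¹` (`G.mul_mem` twice), so `G.cj x f = ∑ i j, ((a i) x * (d i j) x⁻¹) • c i j` and `E.1 (G.cj x f) = ∑ i j, ((a i) x * (d i j) x⁻¹) * E.1 (c i j)`, regular (`G.inv_mem`). -/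
theorem Ad_dual_mem [FiniteDimensional ℂ G.Lie] (lam : Module.Dual ℂ G.Lie) (E : G.Lie) :
    (fun x => lam (G.Ad x E)) ∈ G.O := by
  have key : lam ∈ ({
      carrier := {lam | (fun x => lam (G.Ad x E)) ∈ G.O}
      add_mem' := fun {a b} ha hb => G.O.add_mem ha hb
      zero_mem' := G.O.zero_mem
      smul_mem' := fun c {a} ha => G.O.smul_mem ha c } : Submodule ℂ (Module.Dual ℂ G.Lie)) := by
    refine dual_ev _ (fun f => ?_) lam
    show (fun x => E.1 (G.cj x f)) ∈ G.O
    obtain ⟨n, a, b, h⟩ := G.mul_mem f.1 f.2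
    have h2 : ∀ i, ∃ (m : ℕ) (c d : Fin m → G.O), ∀ x y : G.X,
        (b i).1 (x * y) = ∑ j, (c j).1 x * (d j).1 y := fun i => G.mul_mem (b i).1 (b i).2
    choose m c d hcd using h2
    have h3 : ∀ x, G.cj x f = ∑ i, ∑ j, ((a i).1 x * (d i j).1 x⁻¹) • c i j := by
      intro x
      apply Subtype.ext
      funext y
      have h4 : (∑ i, ∑ j, ((a i).1 x * (d i j).1 x⁻¹) • c i j : G.O).1 y =
          ∑ i, ∑ j, ((a i).1 x * (d i j).1 x⁻¹) * (c i j).1 y := by
        simp [Finset.sum_apply]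
      rw [h4]
      show f.1 (x * y * x⁻¹) = _
      rw [mul_assoc, h]
      refine Finset.sum_congr rfl fun i _ => ?_
      rw [hcd, Finset.mul_sum]
      exact Finset.sum_congr rfl fun j _ => by ring
    have h5 : (fun x => E.1 (G.cj x f)) =
        ∑ i, ∑ j, E.1 (c i j) • ((a i).1 * fun x => (d i j).1 x⁻¹) := by
      funext x
      rw [h3, map_sum]
      simp only [map_sum, map_smul, Finset.sum_apply, Pi.smul_apply, Pi.mul_apply, smul_eq_mul]
      exact Finset.sum_congr rfl fun i _ => Finset.sum_congr rfl fun j _ => mul_comm _ _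
    rw [h5]
    refine Subalgebra.sum_mem _ fun i _ => Subalgebra.sum_mem _ fun j _ => ?_
    exact Subalgebra.smul_mem _ (Subalgebra.mul_mem _ (a i).2 (G.inv_mem _ (d i j).2)) _
  exact key

/-- `x ↦ λ (Ad x E)` as a regular function -/
def AdF [FiniteDimensional ℂ G.Lie] (lam : Module.Dual ℂ G.Lie) (E : G.Lie) : G.O := ⟨_, Ad_dual_mem lam E⟩

end

end Pool.Agent.MTF
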