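import Pool.Agent.MTF.C2a

/-!
# MTF : part C, moment maps
-/

set_option linter.unusedSectionVars false

namespace Pool.Agent.MTF

open AffGrp

section
variable {G : AffGrp}

/-- composition with the inversion -/
def c2b_inv (G : AffGrp) : G.O →ₗ[ℂ] G.O where
  toFun f := ⟨fun x => f.1 x⁻¹, G.inv_mem f.1 f.2⟩
  map_add' _ _ := rfl
  map_smul' _ _ := rfl

theorem c2b_inv_apply (f : G.O) (x : G.X) : (c2b_inv G f).1 x = f.1 x⁻¹ := rfl

theorem c2b_one (D : G.Lie) : D.1 (1 : G.O) = 0 := by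
  have h := D.2 1 1
  have h1 : (1 : G.O).1 1 = 1 := rfl
  rw [h1, mul_one, one_mul] at h
  linear_combination -h

theorem c2b_const (D : G.Lie) (f : G.O) (c : ℂ) (h : ∀ x, f.1 x = c) : D.1 f = 0 := by
  have h1 : f = c • (1 : G.O) := by
    apply Subtype.ext
    funext x
    rw [h x]
    show c = c * 1
    rw [mul_one]
  rw [h1, map_smul, c2b_one, smul_zero]

theorem c2b_sum_apply {n : ℕ} (c : Fin n → ℂ) (f : Fin n → G.O) (x : G.X) :
    (∑ i, c i • f i : G.O).1 x = ∑ i, c i * (f i).1 x := by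
  have h : (∑ i, c i • f i : G.O).1 = ∑ i, c i • (f i).1 := by
    simp
  rw [h, Finset.sum_apply]
  rfl

theorem c2b_sum_mul_apply {n : ℕ} (f g : Fin n → G.O) (x : G.X) :
    (∑ i, f i * g i : G.O).1 x = ∑ i, (f i).1 x * (g i).1 x := by
  have h : (∑ i, f i * g i : G.O).1 = ∑ i, (f i).1 * (g i).1 := by
    simp
  rw [h, Finset.sum_apply]
  rfl

theorem c2b_D_inv (D : G.Lie) (b : G.O) : D.1 (c2b_inv G b) = - D.1 b := by
  obtain ⟨n, p, q, h⟩ := G.mul_mem b.1 b.2
  have h1 : D.1 (∑ i, p i * c2b_inv G (q i)) = 0 := by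
    apply c2b_const D _ (b.1 1)
    intro x
    rw [c2b_sum_mul_apply, ← mul_inv_cancel x, h]
    rfl
  have h2 : b = ∑ i, (p i).1 1 • q i := by
    apply Subtype.ext
    funext x
    rw [c2b_sum_apply, ← h, one_mul]
  have h3 : b = ∑ i, (q i).1 1 • p i := by
    apply Subtype.ext
    funext x
    rw [c2b_sum_apply]
    have := h x 1
    rw [mul_one] at this
    rw [this]
    exact Finset.sum_congr rfl fun i _ => mul_comm _ _
  have h4 : D.1 (c2b_inv G b) = ∑ i, (p i).1 1 * D.1 (c2b_inv G (q i)) := by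
    conv_lhs => rw [h2]
    rw [map_sum, map_sum]
    refine Finset.sum_congr rfl fun i _ => ?_
    rw [map_smul, map_smul, smul_eq_mul]
  have h5 : D.1 b = ∑ i, (q i).1 1 * D.1 (p i) := by
    conv_lhs => rw [h3]
    rw [map_sum]
    refine Finset.sum_congr rfl fun i _ => ?_
    rw [map_smul, smul_eq_mul]
  have h6 : D.1 (∑ i, p i * c2b_inv G (q i)) =
      ∑ i, (p i).1 1 * D.1 (c2b_inv G (q i)) + ∑ i, (q i).1 1 * D.1 (p i) := by
    rw [map_sum, ← Finset.sum_add_distrib]
    refine Finset.sum_congr rfl fun i _ => ?_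
    rw [D.2, c2b_inv_apply, inv_one]
  rw [h6, ← h4, ← h5] at h1
  linear_combination h1

theorem c2b_key [FiniteDimensional ℂ G.Lie] (D E : G.Lie) (u : G.O) :
    D.1 (AdF (evL u) E) = D.1 (G.der E u) - E.1 (G.der D u) := by
  obtain ⟨n, a, b, h⟩ := G.mul_mem u.1 u.2
  have h1 : AdF (evL u) E = ∑ i, G.der E (a i) * c2b_inv G (b i) := by
    apply Subtype.ext
    funext y
    rw [c2b_sum_mul_apply]
    show E.1 (G.cj y u) = _
    have h2 : G.cj y u = ∑ i, (b i).1 y⁻¹ • G.lt y (a i) := by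
      apply Subtype.ext
      funext z
      rw [c2b_sum_apply]
      show u.1 (y * z * y⁻¹) = _
      rw [h]
      exact Finset.sum_congr rfl fun i _ => mul_comm _ _
    rw [h2, map_sum]
    refine Finset.sum_congr rfl fun i _ => ?_
    rw [map_smul, smul_eq_mul, mul_comm]
    rfl
  have h3 : u = ∑ i, (b i).1 1 • a i := by
    apply Subtype.ext
    funext x
    rw [c2b_sum_apply]
    have := h x 1
    rw [mul_one] at this
    rw [this]
    exact Finset.sum_congr rfl fun i _ => mul_comm _ _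
  have h4 : D.1 (G.der E u) = ∑ i, (b i).1 1 * D.1 (G.der E (a i)) := by
    conv_lhs => rw [h3]
    rw [map_sum, map_sum]
    refine Finset.sum_congr rfl fun i _ => ?_
    rw [map_smul, map_smul, smul_eq_mul]
  have h5 : G.der D u = ∑ i, D.1 (b i) • a i := by
    apply Subtype.ext
    funext x
    rw [c2b_sum_apply]
    show D.1 (G.lt x u) = _
    have h6 : G.lt x u = ∑ i, (a i).1 x • b i := by
      apply Subtype.ext
      funext y
      rw [c2b_sum_apply]
      exact h x y
    rw [h6, map_sum]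
    refine Finset.sum_congr rfl fun i _ => ?_
    rw [map_smul, smul_eq_mul, mul_comm]
  have h7 : E.1 (G.der D u) = ∑ i, D.1 (b i) * E.1 (a i) := by
    rw [h5, map_sum]
    refine Finset.sum_congr rfl fun i _ => ?_
    rw [map_smul, smul_eq_mul]
  rw [h1, h4, h7, map_sum, ← Finset.sum_sub_distrib]
  refine Finset.sum_congr rfl fun i _ => ?_
  rw [D.2, c2b_inv_apply, inv_one, c2b_D_inv, der_one]
  ring

theorem c2b_AdF_add [FiniteDimensional ℂ G.Lie] (lam lam' : Module.Dual ℂ G.Lie) (E : G.Lie) :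
    AdF (lam + lam') E = AdF lam E + AdF lam' E := rfl

theorem c2b_AdF_smul [FiniteDimensional ℂ G.Lie] (c : ℂ) (lam : Module.Dual ℂ G.Lie) (E : G.Lie) :
    AdF (c • lam) E = c • AdF lam E := rfl

theorem c2b_AdF_zero [FiniteDimensional ℂ G.Lie] (E : G.Lie) :
    AdF (0 : Module.Dual ℂ G.Lie) E = 0 := rfl

/-- [C2b] The derivative of `x ↦ Ad x E` along the left invariant field `D` is `Ad x [D, E]`. PROOF. Both sides are linear in `lam` (`{lam | ..}` as a submodule), so by `dual_ev` we may assume `lam = evL f`. Value at `x`: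
`(G.der D F).1 x = D.1 (G.lt x F)`, `F y = E.1 (G.cj y f)`, `F (x * y) = E.1 (G.cj (x * y) f) = E.1 (G.cj y (G.cj x f))`. With `u := G.cj x f` it remains: `D.1 (y ↦ E.1 (G.cj y u)) = (G.br D E).1 u = D.1 (G.der E u) - E.1 (G.der D u)` for all `u : G.O`. `u (y z y⁻¹) = ∑ i, (a i) (y z) * (b i) (y⁻¹)` with `u (p q) = ∑ i, (a i) p * (b i) q`:
`E.1 (G.cj y u) = ∑ i, (G.der E (a i)) y * (b i) y⁻¹`, so (`D` is a point derivation; `D.1 (y ↦ b y⁻¹) = - D.1 b`, because `∑ a₁(y) a₂(y⁻¹)` is constant: `b (y y⁻¹) = b 1`) `D.1 (..) = ∑ i, D.1 (G.der E (a i)) * (b i) 1 - ∑ i, E.1 (a i) * D.1 (b i)` (`der_one`). The first sum is `D.1 (G.der E u)` (`G.der E` is left invariant... use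
`u z = ∑ i, (a i) z * (b i) 1`), and the second is `E.1 (G.der D u)` (`G.der D u = ∑ i, D.1 (b i) • a i`). -/
theorem der_AdF [FiniteDimensional ℂ G.Lie] (lam : Module.Dual ℂ G.Lie) (D E : G.Lie) :
    G.der D (AdF lam E) = AdF lam (G.br D E) := by
  let S : Submodule ℂ (Module.Dual ℂ G.Lie) :=
    { carrier := {lam | G.der D (AdF lam E) = AdF lam (G.br D E)}
      add_mem' := by
        intro x y hx hy
        show G.der D (AdF (x + y) E) = AdF (x + y) (G.br D E)
        rw [c2b_AdF_add, c2b_AdF_add, map_add]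
        have hx' : G.der D (AdF x E) = AdF x (G.br D E) := hx
        have hy' : G.der D (AdF y E) = AdF y (G.br D E) := hy
        rw [hx', hy']
      zero_mem' := by
        show G.der D (AdF 0 E) = AdF 0 (G.br D E)
        rw [c2b_AdF_zero, c2b_AdF_zero, map_zero]
      smul_mem' := by
        intro c x hx
        show G.der D (AdF (c • x) E) = AdF (c • x) (G.br D E)
        rw [c2b_AdF_smul, c2b_AdF_smul, map_smul]
        have hx' : G.der D (AdF x E) = AdF x (G.br D E) := hx
        rw [hx'] }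
  apply dual_ev S _ lam
  intro f
  show G.der D (AdF (evL f) E) = AdF (evL f) (G.br D E)
  apply Subtype.ext
  funext x
  show D.1 (G.lt x (AdF (evL f) E)) = (G.br D E).1 (G.cj x f)
  have h1 : G.lt x (AdF (evL f) E) = AdF (evL (G.cj x f)) E := by
    apply Subtype.ext
    funext y
    show E.1 (G.cj (x * y) f) = E.1 (G.cj y (G.cj x f))
    congr 1
    apply Subtype.ext
    funext z
    show f.1 (x * y * z * (x * y)⁻¹) = f.1 (x * (y * z * y⁻¹) * x⁻¹)
    rw [mul_inv_rev]
    simp only [mul_assoc]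
  rw [h1, c2b_key]
  rfl

/-- [C2c] PROOF. `G.br D E = - G.br E D` (by definition). -/
theorem br_neg (D E : G.Lie) : G.br D E = - G.br E D := by
  apply Subtype.ext
  apply LinearMap.ext
  intro f
  show D.1 (G.der E f) - E.1 (G.der D f) = - (E.1 (G.der D f) - D.1 (G.der E f))
  ring

end

end Pool.Agent.MTF
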