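import Pool.Agent.MTF.C2D

/-!
# MTF : part C, moment maps
-/

set_option linter.unusedSectionVars false

namespace Pool.Agent.MTF

open AffGrp

section
variable {G : AffGrp} {K W X : Type} [Field K] [Algebra ℂ K] [Group W] [Fintype W]
  [MulSemiringAction W K] [SMulCommClass W ℂ K] [AddCommGroup X] [DistribMulAction W X]

/-- [C2d] PROOF. `κ` is nondegenerate (`hT.kill`) and `G.Lie` is finite dimensional (`Q.fd`): `killD G` is an injective linear map from `G.Lie` to its dual, so surjective (`LinearMap.injective_iff_surjective_of_finrank_eq_finrank`, `Subspace.dual_finrank_eq`). -/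
theorem killD_surj {Q : TQD G K W X} (hT : TQ Q) (lam : Module.Dual ℂ G.Lie) : ∃ D, killD G D = lam := by
  have := Q.fd
  have hinj : Function.Injective (killD G) := by
    rw [injective_iff_map_eq_zero]
    intro D hD
    refine hT.kill D fun E => ?_
    have h1 : killD G D E = 0 := by rw [hD]; rfl
    exact h1
  have hsurj : Function.Surjective (killD G) :=
    (LinearMap.injective_iff_surjective_of_finrank_eq_finrank
      (Subspace.dual_finrank_eq (K := ℂ) (V := G.Lie)).symm).1 hinj
  exact hsurj lam

end

end Pool.Agent.MTF
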