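import Pool.Agent.MTF.C2D

/-!
# MTF : part C, moment maps
-/

set_option linter.unusedSectionVars false

namespace Pool.Agent.MTF

open AffGrp

section
variable {G : AffGrp} {K W X : Type} [Field K] [Algebra ℂ K] [Group W] [Fintype W]
  [MulSemiringAction W K] [SMulCommClass W ℂ K] [AddCommGroup X] [DistribMulAction W X]
variable {L : Type} [Finite L] [DecidableEq L] {Q : TQD G K W X}

/-- [C2e] PROOF. Leg `l' ≠ l`: by `s_apply`: the slice in the leg `l'` is constant, `s1_const`. Leg `l`: by `s_apply` the slice at `k` is `mom1 Q lam = ∑ j, Q.c j • inc (AdF lam (D j))`; `s1` of it: `∑ i j, c i * c j • inc (AdF lam (br (D i) (D j)))` (`derK_inc`, `der_AdF`), which is `0` because it is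
antisymmetric in `(i, j)` (`br_neg`, `AdF lam (-E) = - AdF lam E`; `CharZero K`). -/
theorem s_momO (l l' : L) (lam : Module.Dual ℂ G.Lie) : Q.s l' (momO Q l lam) = 0 := by
  have := Q.fd
  apply KO_ext
  intro k
  rw [s_apply, KO_zero]
  by_cases hl : l' = l
  · subst hl
    have h1 : sl K k l' (momO Q l' lam) = mom1 Q lam := by
      apply KO_ext
      intro h
      show (mom1 Q lam).1 (Function.update k l' h l') = _
      rw [Function.update_self]
    have h2 : Q.s1 (mom1 Q lam) = 0 := by
      have e1 : Q.s1 (mom1 Q lam) =
          ∑ i, ∑ j, (Q.c i * Q.c j) • inc K (AdF lam (G.br (Q.D i) (Q.D j))) := by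
        unfold TQD.s1 mom1
        rw [LinearMap.sum_apply]
        refine Finset.sum_congr rfl fun i _ => ?_
        rw [LinearMap.smul_apply, map_sum, Finset.smul_sum]
        refine Finset.sum_congr rfl fun j _ => ?_
        rw [map_smul, derK_inc, der_AdF, smul_smul]
      have e2 : Q.s1 (mom1 Q lam) = - Q.s1 (mom1 Q lam) := by
        conv_lhs => rw [e1, Finset.sum_comm]
        rw [e1, ← Finset.sum_neg_distrib]
        refine Finset.sum_congr rfl fun i _ => ?_
        rw [← Finset.sum_neg_distrib]
        refine Finset.sum_congr rfl fun j _ => ?_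
        have e3 : AdF lam (G.br (Q.D j) (Q.D i)) = - AdF lam (G.br (Q.D i) (Q.D j)) := by
          rw [br_neg]
          apply Subtype.ext
          funext x
          show lam (G.Ad x (-(G.br (Q.D i) (Q.D j)))) = - lam (G.Ad x (G.br (Q.D i) (Q.D j)))
          rw [map_neg, map_neg]
        rw [e3, mul_comm (Q.c j)]
        apply KO_ext
        intro x
        rw [KO_smul, KO_neg, KO_smul, inc_apply, inc_apply]
        show _ * algebraMap ℂ K (-((AdF lam (G.br (Q.D i) (Q.D j))).1 x)) = _
        rw [map_neg, mul_neg]
      have : CharZero K := charZero_of_injective_algebraMap (algebraMap ℂ K).injective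
      apply KO_ext
      intro x
      have e4 := congrArg (fun F : G.KO K => F.1 x) e2
      simp only [KO_neg] at e4
      rw [KO_zero]
      exact self_eq_neg.1 e4
    rw [h1, h2]
    rfl
  · have h1 : sl K k l' (momO Q l lam) = algebraMap K (G.KO K) ((mom1 Q lam).1 (k l)) := by
      apply KO_ext
      intro h
      show (mom1 Q lam).1 (Function.update k l' h l) = _
      rw [Function.update_of_ne (Ne.symm hl)]
      rfl
    rw [h1, s1_const]
    rfl

end

end Pool.Agent.MTF
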