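import Pool.Agent.MTF.C3c

/-!
# MTF : part C, induced families
-/

set_option linter.unusedSectionVars false

namespace Pool.Agent.MTF

open AffGrp

section
variable {G : AffGrp} {K W X : Type} [Field K] [Algebra ℂ K] [Group W] [Fintype W]
  [MulSemiringAction W K] [SMulCommClass W ℂ K] [AddCommGroup X] [DistribMulAction W X]
variable {L : Type} [Finite L] [DecidableEq L] {Q : TQD G K W X}

theorem Fam_ind2 {g : ℕ} {ε : L → Bool} {E : Rep G} {Ψ : E.ι → E.ι → RR G K X L} (h : Q.Fam2 g ε E E Ψ) :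
    Q.Fam g (optS true (optS false ε)) (ind2 E Ψ) := Fam_sum _ _ fun a _ => Fam_ind2m h a a

/-! ### bundled versions -/

/-- the families with values in `E` -/
def F1 (Q : TQD G K W X) (g : ℕ) (ε : L → Bool) (E : Rep G) : AddSubgroup (E.ι → RR G K X L) where
  carrier := {φ | Q.Fam1 g ε E φ}
  add_mem' {φ ψ} h h' := ⟨fun a => Fam_add (h.fam a) (h'.fam a), fun m a => by
    have e1 := h.slot m a
    have e2 := h'.slot m a
    simp only [Pi.add_apply, AddMonoidAlgebra.coeff_add, Finsupp.add_apply, smul_add, Finset.sum_add_distrib, e1, e2]⟩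
  zero_mem' := ⟨fun a => Fam_zero, fun m a => by simp⟩
  neg_mem' {φ} h := ⟨fun a => Fam_neg (h.fam a), fun m a => by
    have e1 := h.slot m a
    simp only [Pi.neg_apply, AddMonoidAlgebra.coeff_neg, Finsupp.neg_apply, smul_neg, Finset.sum_neg_distrib, e1]⟩

/-- the families with values in the dual of `E` -/
def F1' (Q : TQD G K W X) (g : ℕ) (ε : L → Bool) (E : Rep G) : AddSubgroup (E.ι → RR G K X L) where
  carrier := {φ | Q.Fam1' g ε E φ}
  add_mem' {φ ψ} h h' := ⟨fun a => Fam_add (h.fam a) (h'.fam a), fun m a => by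
    have e1 := h.slot m a
    have e2 := h'.slot m a
    simp only [Pi.add_apply, AddMonoidAlgebra.coeff_add, Finsupp.add_apply, smul_add, Finset.sum_add_distrib, e1, e2]⟩
  zero_mem' := ⟨fun a => Fam_zero, fun m a => by simp⟩
  neg_mem' {φ} h := ⟨fun a => Fam_neg (h.fam a), fun m a => by
    have e1 := h.slot m a
    simp only [Pi.neg_apply, AddMonoidAlgebra.coeff_neg, Finsupp.neg_apply, smul_neg, Finset.sum_neg_distrib, e1]⟩

/-- the families with values in `Hom(E', E)` -/
def F2 (Q : TQD G K W X) (g : ℕ) (ε : L → Bool) (E E' : Rep G) : AddSubgroup (E.ι → E'.ι → RR G K X L) where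
  carrier := {φ | Q.Fam2 g ε E E' φ}
  add_mem' {φ ψ} h h' := ⟨fun a a' => Fam_add (h.fam a a') (h'.fam a a'), fun m a a' => by
    have e1 := h.slot m a a'
    have e2 := h'.slot m a a'
    simp only [Pi.add_apply, AddMonoidAlgebra.coeff_add, Finsupp.add_apply, smul_add, Finset.sum_add_distrib, e1, e2],
    fun m a a' => by
    have e1 := h.slot' m a a'
    have e2 := h'.slot' m a a'
    simp only [Pi.add_apply, AddMonoidAlgebra.coeff_add, Finsupp.add_apply, smul_add, Finset.sum_add_distrib, e1, e2]⟩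
  zero_mem' := ⟨fun a a' => Fam_zero, fun m a a' => by simp, fun m a a' => by simp⟩
  neg_mem' {φ} h := ⟨fun a a' => Fam_neg (h.fam a a'), fun m a a' => by
    have e1 := h.slot m a a'
    simp only [Pi.neg_apply, AddMonoidAlgebra.coeff_neg, Finsupp.neg_apply, smul_neg, Finset.sum_neg_distrib, e1],
    fun m a a' => by
    have e1 := h.slot' m a a'
    simp only [Pi.neg_apply, AddMonoidAlgebra.coeff_neg, Finsupp.neg_apply, smul_neg, Finset.sum_neg_distrib, e1]⟩

theorem ind_add (E : Rep G) (φ ψ : E.ι → RR G K X L) (a : E.ι) : ind E (φ + ψ) a = ind E φ a + ind E ψ a := by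
  unfold ind
  simp only [Pi.add_apply, map_add, smul_add, Finset.sum_add_distrib]

theorem ind'_add (E : Rep G) (φ ψ : E.ι → RR G K X L) (a : E.ι) : ind' E (φ + ψ) a = ind' E φ a + ind' E ψ a := by
  unfold ind'
  simp only [Pi.add_apply, map_add, smul_add, Finset.sum_add_distrib]

theorem ind2m_add (E E' : Rep G) (φ ψ : E.ι → E'.ι → RR G K X L) (a : E.ι) (c : E'.ι) :
    ind2m E E' (φ + ψ) a c = ind2m E E' φ a c + ind2m E E' ψ a c := by
  unfold ind2m
  simp only [Pi.add_apply, map_add, smul_add, Finset.sum_add_distrib]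

theorem ind2_add (E : Rep G) (φ ψ : E.ι → E.ι → RR G K X L) : ind2 E (φ + ψ) = ind2 E φ + ind2 E ψ := by
  unfold ind2
  simp only [ind2m_add, Finset.sum_add_distrib]

end

end Pool.Agent.MTF
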