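import Pool.Agent.MTF.C2

/-!
# MTF : part C, induced families
-/

set_option linter.unusedSectionVars false

namespace Pool.Agent.MTF

open AffGrp

/-- the matrix coefficient of the inverse: `x ↦ ρ(x⁻¹) a b` -/
def Rep.coi {G : AffGrp} (E : Rep G) (a b : E.ι) : G.O := ⟨fun x => E.ρ x⁻¹ a b, G.inv_mem _ (E.mem a b)⟩

section
variable {G : AffGrp} {K W X : Type} [Field K] [Algebra ℂ K] [Group W] [Fintype W]
  [MulSemiringAction W K] [SMulCommClass W ℂ K] [AddCommGroup X] [DistribMulAction W X]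
variable {L : Type} [Finite L]

/-- `f (k o) ` as a function on `G^L` -/
noncomputable def pi0 (K : Type) [Field K] [Algebra ℂ K] (l : L) (f : G.O) : (G.pow L).KO K := pu K l (inc K f)

theorem pi0_apply (l : L) (f : G.O) (k : L → G.X) : (pi0 K l f).1 k = algebraMap ℂ K (f.1 (k l)) := rfl

/-- `ρ(k_none) φ`: a family with values in `E` gives `E.ι` families with one more leg (sign `+`). -/
noncomputable def ind (E : Rep G) (φ : E.ι → RR G K X L) (a : E.ι) : RR G K X (Option L) :=
  ∑ b, pi0 K (none : Option L) (E.co a b) • fm X (pb K (some : L → Option L)) (φ b)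

/-- `ρ^*(k_none) φ`: a family with values in the dual of `E` gives families with one more leg (sign `-`). -/
noncomputable def ind' (E : Rep G) (φ : E.ι → RR G K X L) (a : E.ι) : RR G K X (Option L) :=
  ∑ b, pi0 K (none : Option L) (E.coi b a) • fm X (pb K (some : L → Option L)) (φ b)

/-- the matrix `ρ(k_none) Ψ ρ'(k_{some none})⁻¹` for a family `Ψ` with values in `Hom(E', E)` -/
noncomputable def ind2m (E E' : Rep G) (Ψ : E.ι → E'.ι → RR G K X L) (a : E.ι) (c : E'.ι) :
    RR G K X (Option (Option L)) :=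
  ∑ b, ∑ b', (pi0 K (none : Option (Option L)) (E.co a b) * pi0 K (some none : Option (Option L)) (E'.coi b' c)) •
    fm X (pb K (fun l : L => some (some l))) (Ψ b b')

/-- its trace -/
noncomputable def ind2 (E : Rep G) (Ψ : E.ι → E.ι → RR G K X L) : RR G K X (Option (Option L)) :=
  ∑ a, ind2m E E Ψ a a

theorem ind_coeff (E : Rep G) (φ : E.ι → RR G K X L) (a : E.ι) (m : X) (k : Option L → G.X) :
    ((ind E φ a).coeff m).1 k = ∑ b, algebraMap ℂ K (E.ρ (k none) a b) * ((φ b).coeff m).1 (k ∘ some) := by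
  unfold ind
  rw [AddMonoidAlgebra.coeff_sum, Finsupp.finsetSum_apply, KO_sum]
  refine Finset.sum_congr rfl fun b _ => ?_
  rw [AddMonoidAlgebra.coeff_smul_apply, coeff_fm]
  rfl

theorem ind'_coeff (E : Rep G) (φ : E.ι → RR G K X L) (a : E.ι) (m : X) (k : Option L → G.X) :
    ((ind' E φ a).coeff m).1 k = ∑ b, algebraMap ℂ K (E.ρ (k none)⁻¹ b a) * ((φ b).coeff m).1 (k ∘ some) := by
  unfold ind'
  rw [AddMonoidAlgebra.coeff_sum, Finsupp.finsetSum_apply, KO_sum]
  refine Finset.sum_congr rfl fun b _ => ?_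
  rw [AddMonoidAlgebra.coeff_smul_apply, coeff_fm]
  rfl

theorem ind2m_coeff (E E' : Rep G) (Ψ : E.ι → E'.ι → RR G K X L) (a : E.ι) (c : E'.ι) (m : X)
    (k : Option (Option L) → G.X) :
    ((ind2m E E' Ψ a c).coeff m).1 k = ∑ b, ∑ b', algebraMap ℂ K (E.ρ (k none) a b * E'.ρ (k (some none))⁻¹ b' c) *
      ((Ψ b b').coeff m).1 (fun l => k (some (some l))) := by
  unfold ind2m
  simp only [AddMonoidAlgebra.coeff_sum, Finsupp.finsetSum_apply, KO_sum]
  refine Finset.sum_congr rfl fun b _ => Finset.sum_congr rfl fun b' _ => ?_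
  rw [AddMonoidAlgebra.coeff_smul_apply, coeff_fm, map_mul]
  rfl

theorem ind2_coeff (E : Rep G) (Ψ : E.ι → E.ι → RR G K X L) (m : X) (k : Option (Option L) → G.X) :
    ((ind2 E Ψ).coeff m).1 k = ∑ a, ∑ b, ∑ b', algebraMap ℂ K (E.ρ (k none) a b * E.ρ (k (some none))⁻¹ b' a) *
      ((Ψ b b').coeff m).1 (fun l => k (some (some l))) := by
  unfold ind2
  simp only [AddMonoidAlgebra.coeff_sum, Finsupp.finsetSum_apply, KO_sum, ind2m_coeff]

end

end Pool.Agent.MTF
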