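import Pool.Agent.MTF.C3D

/-!
# MTF : part C, induced families
-/

set_option linter.unusedSectionVars false

namespace Pool.Agent.MTF

open AffGrp

section
variable {G : AffGrp} {K W X : Type} [Field K] [Algebra ℂ K] [Group W] [Fintype W]
  [MulSemiringAction W K] [SMulCommClass W ℂ K] [AddCommGroup X] [DistribMulAction W X]
variable {L : Type} [Finite L] [DecidableEq L] {Q : TQD G K W X}

theorem c3a_lt_co (E : Rep G) (x : G.X) (a b : E.ι) :
    G.lt x (E.co a b) = ∑ e, (E.ρ x a e) • E.co e b := by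
  apply Subtype.ext
  funext y
  have h1 : ((∑ e, (E.ρ x a e) • E.co e b : G.O)).1 y = ∑ e, E.ρ x a e * E.ρ y e b := by
    rw [AddSubmonoidClass.coe_finset_sum, Finset.sum_apply]
    rfl
  rw [h1]
  show E.ρ (x * y) a b = _
  rw [map_mul, Matrix.mul_apply]

theorem c3a_der_co (E : Rep G) (D : G.Lie) (x : G.X) (a b : E.ι) :
    (G.der D (E.co a b)).1 x = ∑ e, E.ρ x a e * D.1 (E.co e b) := by
  show D.1 (G.lt x (E.co a b)) = _
  rw [c3a_lt_co, map_sum]
  refine Finset.sum_congr rfl fun e _ => ?_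
  rw [map_smul, smul_eq_mul]

theorem c3a_s1_co (E : Rep G) (a b : E.ι) :
    Q.s1 (inc K (E.co a b)) = ∑ e, Q.sE E e b • inc K (E.co a e) := by
  apply KO_ext
  intro x
  unfold TQD.s1 TQD.sE
  rw [LinearMap.sum_apply, KO_sum, KO_sum]
  have h1 : ∀ j, ((Q.c j • derK K (Q.D j)) (inc K (E.co a b))).1 x =
      ∑ e, Q.c j * algebraMap ℂ K ((Q.D j).1 (E.co e b)) * algebraMap ℂ K (E.ρ x a e) := by
    intro j
    rw [LinearMap.smul_apply, KO_smul, derK_inc, inc_apply, c3a_der_co, map_sum, Finset.mul_sum]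
    refine Finset.sum_congr rfl fun e _ => ?_
    rw [map_mul]
    ring
  rw [Finset.sum_congr rfl fun j _ => h1 j, Finset.sum_comm]
  refine Finset.sum_congr rfl fun e _ => ?_
  rw [KO_smul, inc_apply, Finset.sum_mul]
  rfl

theorem c3a_s_pu (l : L) (F : G.KO K) : Q.s l (pu K l F) = pu K l (Q.s1 F) := by
  apply KO_ext
  intro k
  rw [s_apply, pu_apply]
  have h1 : sl K k l (pu K l F) = F := by
    apply KO_ext
    intro h
    rw [sl_apply, pu_apply, Function.update_self]
  rw [h1]

theorem c3a_s_pu_ne {l l' : L} (hl : l' ≠ l) (F : G.KO K) : Q.s l' (pu K l F) = 0 := by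
  apply KO_ext
  intro k
  rw [s_apply]
  have h1 : sl K k l' (pu K l F) = algebraMap K (G.KO K) (F.1 (k l)) := by
    apply KO_ext
    intro h
    rw [sl_apply, pu_apply, Function.update_of_ne hl.symm]
    rfl
  rw [h1, s1_const]
  rfl

theorem c3a_s_none (E : Rep G) (a b : E.ι) :
    Q.s (none : Option L) (pi0 K none (E.co a b)) = ∑ e, Q.sE E e b • pi0 K none (E.co a e) := by
  unfold pi0
  rw [c3a_s_pu, c3a_s1_co, map_sum]
  refine Finset.sum_congr rfl fun e _ => ?_
  rw [map_smul]

theorem c3a_coeff (E : Rep G) (φ : E.ι → RR G K X L) (a : E.ι) (m : X) :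
    (ind E φ a).coeff m = ∑ b, pi0 K none (E.co a b) * pb K some ((φ b).coeff m) := by
  apply KO_ext
  intro k
  rw [ind_coeff, KO_sum]
  rfl

theorem c3a_tot_smul (f : (G.pow L).KO K) (F : RR G K X L) : tot (f • F) = f * tot F := by
  rw [tot_eq, tot_eq]
  unfold totH
  rw [AlgHom.restrictScalars_apply, AlgHom.restrictScalars_apply, map_smul, smul_eq_mul]

theorem c3a_tot (E : Rep G) (φ : E.ι → RR G K X L) (a : E.ι) (k : Option L → G.X) :
    (tot (ind E φ a)).1 k = ∑ b, algebraMap ℂ K (E.ρ (k none) a b) * (tot (φ b)).1 (k ∘ some) := by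
  unfold ind
  rw [tot_eq, map_sum, KO_sum]
  refine Finset.sum_congr rfl fun b _ => ?_
  rw [← tot_eq, c3a_tot_smul, tot_fm, KO_mul]
  rfl

/-- [C3a] PROOF. Pointwise (`KO_ext`), `ind_coeff`. `wt`: leg `some l`: `s_leib` (or `s_apply`: the slice in the leg `some l` of `pi0 none f * G` is `f(..) •` the slice of `G`), `s_pb` for `some`, `s_pb_ne`-like for `pi0 K none` (it is `pb` of a function of one leg; or use `s_apply` and `s1_const`), `h.fam`. Leg `none`: `Q.s none (pi0 K none f) = pi0 K none`-type function with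
value `∑ j, Q.c j * algebraMap ((G.der (Q.D j) f).1 (k none))` (`s_apply`, `s1_apply` or `derK_inc`); `G.der D (E.co a b) = ∑ e, D.1 (E.co e b) • E.co a e` (`E.ρ (x * y) = E.ρ x * E.ρ y`), so `Q.s none (pi0 K none (E.co a b)) = ∑ e, Q.sE E e b • pi0 K none (E.co a e)`; `s_pb_ne` for `pb K some`; then `h.slot` gives the factor `Q.val m` (`sgn true = 1`).
`inv`: `wO` fixes `pi0` (`smul_algebraMap`), `h.fam`. `reg0`, `regS`: values are sums of `algebraMap ℂ K _ * (regular)` (`tot_fm`, `tot_eq`, `map_sum`, `map_smul`; `totH` is linear over `KO`: `tot (f • F) = f * tot F`). -/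
theorem Fam_ind {g : ℕ} {ε : L → Bool} {E : Rep G} {φ : E.ι → RR G K X L} (h : Q.Fam1 g ε E φ) (a : E.ι) :
    Q.Fam g (optS true ε) (ind E φ a) where
  wt m o := by
    rw [c3a_coeff, map_sum, Finset.smul_sum]
    cases o with
    | some l =>
      refine Finset.sum_congr rfl fun b _ => ?_
      have h1 : Q.s (some l) (pi0 K (none : Option L) (E.co a b)) = 0 :=
        c3a_s_pu_ne (by simp) _
      rw [s_leib, h1, s_pb (Option.some_injective L), (h.fam b).wt m l, mul_zero, add_zero, map_smul,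
        mul_smul_comm]
      rfl
    | none =>
      have h1 : ∀ b, Q.s (none : Option L) (pi0 K none (E.co a b) * pb K some ((φ b).coeff m)) =
          ∑ e, Q.sE E e b • (pi0 K none (E.co a e) * pb K some ((φ b).coeff m)) := by
        intro b
        rw [s_leib, c3a_s_none, s_pb_ne (by simp), mul_zero, zero_add, Finset.mul_sum]
        refine Finset.sum_congr rfl fun e _ => ?_
        rw [mul_smul_comm, mul_comm]
      rw [Finset.sum_congr rfl fun b _ => h1 b, Finset.sum_comm]
      refine Finset.sum_congr rfl fun e _ => ?_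
      have h2 : Q.val (sgn (optS true ε none) • m) • (pi0 K none (E.co a e) * pb K some ((φ e).coeff m)) =
          pi0 K none (E.co a e) * pb K some (Q.val m • (φ e).coeff m) := by
        have h3 : sgn (optS true ε none) • m = m := one_smul ℤ m
        rw [h3, map_smul, mul_smul_comm]
      rw [h2, ← h.slot m e, map_sum, Finset.mul_sum]
      refine Finset.sum_congr rfl fun b _ => ?_
      rw [map_smul, mul_smul_comm]
  inv w m := by
    apply KO_ext
    intro k
    rw [wO_apply, ind_coeff, ind_coeff, Finset.smul_sum]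
    refine Finset.sum_congr rfl fun b _ => ?_
    rw [smul_mul', smul_algebraMap, ← wO_apply, (h.fam b).inv]
  reg0 hg k := by
    rw [c3a_tot]
    exact Q.A.sum_mem fun b _ => Q.A.mul_mem (Q.A.algebraMap_mem _) ((h.fam b).reg0 hg _)
  regS m k hg := by
    rw [ind_coeff, Finset.mul_sum]
    refine Q.A.sum_mem fun b _ => ?_
    rw [mul_left_comm]
    exact Q.A.mul_mem (Q.A.algebraMap_mem _) ((h.fam b).regS m _ hg)

end

end Pool.Agent.MTF
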