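import Pool.Agent.MTF.C3D

/-!
# MTF : part C, induced families
-/

set_option linter.unusedSectionVars false

namespace Pool.Agent.MTF

open AffGrp

section
variable {G : AffGrp} {K W X : Type} [Field K] [Algebra ℂ K] [Group W] [Fintype W]
  [MulSemiringAction W K] [SMulCommClass W ℂ K] [AddCommGroup X] [DistribMulAction W X]
variable {L : Type} [Finite L] [DecidableEq L] {Q : TQD G K W X}

theorem c3b_s_none (f : G.O) :
    Q.s (none : Option L) (pi0 K (none : Option L) f) = pu K (none : Option L) (Q.s1 (inc K f)) := by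
  apply KO_ext
  intro k
  rw [s_apply, pu_apply]
  have h1 : sl K k (none : Option L) (pi0 K (none : Option L) f) = inc K f := by
    apply KO_ext
    intro h
    rw [sl_apply, pi0_apply, Function.update_self, inc_apply]
  rw [h1]

theorem c3b_s_some (l : L) (f : G.O) :
    Q.s (some l) (pi0 K (none : Option L) f) = 0 := by
  apply KO_ext
  intro k
  rw [s_apply]
  have h1 : sl K k (some l) (pi0 K (none : Option L) f) =
      algebraMap K (G.KO K) (algebraMap ℂ K (f.1 (k none))) := by
    apply KO_ext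
    intro h
    rw [sl_apply, pi0_apply, Function.update_of_ne (by simp)]
    rfl
  rw [h1, s1_const]
  rfl

theorem c3b_one (D : G.Lie) (c : ℂ) : D.1 (c • (1 : G.O)) = 0 := by
  have h1 := D.2 1 1
  rw [mul_one] at h1
  have h2 : (1 : G.O).1 1 = 1 := rfl
  rw [h2, one_mul] at h1
  have h3 : D.1 (1 : G.O) = 0 := left_eq_add.1 h1
  rw [map_smul, h3, smul_zero]

theorem c3b_coi (D : G.Lie) (E : Rep G) (b e : E.ι) : D.1 (E.coi b e) = - D.1 (E.co b e) := by
  have h1 : ∑ e', E.co b e' * E.coi e' e = ((1 : Matrix E.ι E.ι ℂ) b e) • (1 : G.O) := by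
    apply Subtype.ext
    funext y
    have h2 : (∑ e', E.co b e' * E.coi e' e : G.O).1 y = ∑ e', E.ρ y b e' * E.ρ y⁻¹ e' e := by
      have h5 : (∑ e', E.co b e' * E.coi e' e : G.O).1 = ∑ e', (E.co b e' * E.coi e' e : G.O).1 := by
        rw [← Subalgebra.coe_val, map_sum]
      rw [h5, Finset.sum_apply]
      rfl
    rw [h2, ← Matrix.mul_apply, ← map_mul, mul_inv_cancel, map_one]
    show _ = (1 : Matrix E.ι E.ι ℂ) b e * 1
    rw [mul_one]
  have h3 := congrArg D.1 h1
  rw [c3b_one, map_sum] at h3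
  have h4 : ∀ e', D.1 (E.co b e' * E.coi e' e) =
      (1 : Matrix E.ι E.ι ℂ) b e' * D.1 (E.coi e' e) + (1 : Matrix E.ι E.ι ℂ) e' e * D.1 (E.co b e') := by
    intro e'
    rw [D.2]
    have h5 : (E.co b e').1 1 = (1 : Matrix E.ι E.ι ℂ) b e' := by
      show E.ρ 1 b e' = _
      rw [map_one]
    have h6 : (E.coi e' e).1 1 = (1 : Matrix E.ι E.ι ℂ) e' e := by
      show E.ρ 1⁻¹ e' e = _
      rw [inv_one, map_one]
    rw [h5, h6]
  rw [Finset.sum_congr rfl fun e' _ => h4 e', Finset.sum_add_distrib, Finset.sum_eq_single b,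
    Finset.sum_eq_single e] at h3
  · rw [Matrix.one_apply_eq, Matrix.one_apply_eq, one_mul, one_mul] at h3
    exact eq_neg_of_add_eq_zero_left h3
  · intro e' _ he
    rw [Matrix.one_apply_ne he, zero_mul]
  · intro h
    exact absurd (Finset.mem_univ _) h
  · intro e' _ he
    rw [Matrix.one_apply_ne (Ne.symm he), zero_mul]
  · intro h
    exact absurd (Finset.mem_univ _) h

theorem c3b_der (D : G.Lie) (E : Rep G) (b a : E.ι) (x : G.X) :
    (G.der D (E.coi b a)).1 x = ∑ e, (- D.1 (E.co b e)) * E.ρ x⁻¹ e a := by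
  show D.1 (G.lt x (E.coi b a)) = _
  have h1 : G.lt x (E.coi b a) = ∑ e, (E.ρ x⁻¹ e a) • E.coi b e := by
    apply Subtype.ext
    funext y
    have h2 : (∑ e, (E.ρ x⁻¹ e a) • E.coi b e : G.O).1 y = ∑ e, E.ρ x⁻¹ e a * E.ρ y⁻¹ b e := by
      have h5 : (∑ e, (E.ρ x⁻¹ e a) • E.coi b e : G.O).1 = ∑ e, ((E.ρ x⁻¹ e a) • E.coi b e : G.O).1 := by
        rw [← Subalgebra.coe_val, map_sum]
      rw [h5, Finset.sum_apply]
      rfl
    rw [h2]
    show E.ρ (x * y)⁻¹ b a = _
    rw [mul_inv_rev, map_mul, Matrix.mul_apply]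
    exact Finset.sum_congr rfl fun e _ => mul_comm _ _
  rw [h1, map_sum]
  refine Finset.sum_congr rfl fun e _ => ?_
  rw [map_smul, smul_eq_mul, c3b_coi, mul_comm]

theorem c3b_s1 (E : Rep G) (b a : E.ι) (x : G.X) :
    (Q.s1 (inc K (E.coi b a))).1 x = - ∑ e, Q.sE E b e * algebraMap ℂ K (E.ρ x⁻¹ e a) := by
  have h1 : (Q.s1 (inc K (E.coi b a))).1 x =
      ∑ j, Q.c j * algebraMap ℂ K ((G.der (Q.D j) (E.coi b a)).1 x) := by
    unfold TQD.s1
    rw [LinearMap.sum_apply, KO_sum]
    refine Finset.sum_congr rfl fun j _ => ?_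
    rw [LinearMap.smul_apply, KO_smul, derK_inc, inc_apply]
  rw [h1, ← Finset.sum_neg_distrib]
  have h2 : ∀ j, Q.c j * algebraMap ℂ K ((G.der (Q.D j) (E.coi b a)).1 x) =
      ∑ e, Q.c j * (-(algebraMap ℂ K ((Q.D j).1 (E.co b e))) * algebraMap ℂ K (E.ρ x⁻¹ e a)) := by
    intro j
    rw [c3b_der, map_sum, Finset.mul_sum]
    refine Finset.sum_congr rfl fun e _ => ?_
    rw [map_mul, map_neg]
  rw [Finset.sum_congr rfl fun j _ => h2 j, Finset.sum_comm]
  refine Finset.sum_congr rfl fun e _ => ?_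
  rw [TQD.sE, Finset.sum_mul, ← Finset.sum_neg_distrib]
  refine Finset.sum_congr rfl fun j _ => ?_
  ring

theorem c3b_tot (f : (G.pow L).KO K) (F : RR G K X L) : tot (f • F) = f * tot F := by
  rw [tot_eq, tot_eq]
  show (AddMonoidAlgebra.lift ((G.pow L).KO K) ((G.pow L).KO K) X (1 : Multiplicative X →* (G.pow L).KO K))
    (f • F) = f * (AddMonoidAlgebra.lift ((G.pow L).KO K) ((G.pow L).KO K) X
      (1 : Multiplicative X →* (G.pow L).KO K)) F
  rw [map_smul, smul_eq_mul]

theorem c3b_mem {k : K} (z : ℂ) (hk : k ∈ Q.A) : algebraMap ℂ K z * k ∈ Q.A :=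
  mul_mem (Q.A.algebraMap_mem z) hk

/-- [C3b] PROOF. As `Fam_ind` with `G.der D (E.coi b a) = - ∑ e, D.1 (E.co b e) • E.coi e a` (the derivative at `1` of `y ↦ ρ(y⁻¹)` is minus the derivative of `ρ`: `ρ(y) ρ(y⁻¹) = 1`): the factor is `- Q.val m = Q.val (sgn false • m)`. -/
theorem Fam_ind' {g : ℕ} {ε : L → Bool} {E : Rep G} {φ : E.ι → RR G K X L} (h : Q.Fam1' g ε E φ) (a : E.ι) :
    Q.Fam g (optS false ε) (ind' E φ a) := by
  have hcoeff : ∀ m, (ind' E φ a).coeff m =
      ∑ b, pi0 K (none : Option L) (E.coi b a) * pb K (some : L → Option L) ((φ b).coeff m) := by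
    intro m
    apply KO_ext
    intro k
    rw [ind'_coeff, KO_sum]
    exact Finset.sum_congr rfl fun b _ => rfl
  refine ⟨fun m l => ?_, fun w m => ?_, fun h0 x => ?_, fun m k h0 => ?_⟩
  · rw [hcoeff, map_sum]
    cases l with
    | some l =>
      rw [Finset.smul_sum]
      refine Finset.sum_congr rfl fun b _ => ?_
      rw [s_leib, c3b_s_some, mul_zero, add_zero, s_pb (Option.some_injective L), (h.fam b).wt m l,
        map_smul, mul_smul_comm]
      rfl
    | none =>
      have h1 : ∀ b, Q.s (none : Option L) (pi0 K (none : Option L) (E.coi b a) *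
          pb K (some : L → Option L) ((φ b).coeff m)) =
          pb K (some : L → Option L) ((φ b).coeff m) *
            pu K (none : Option L) (Q.s1 (inc K (E.coi b a))) := by
        intro b
        rw [s_leib, s_pb_ne (by simp), mul_zero, zero_add, c3b_s_none]
      rw [Finset.sum_congr rfl fun b _ => h1 b]
      apply KO_ext
      intro k
      rw [KO_sum, KO_smul, KO_sum]
      have h2 : ∀ b, (pb K (some : L → Option L) ((φ b).coeff m) *
            pu K (none : Option L) (Q.s1 (inc K (E.coi b a)))).1 k =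
          - ∑ e, algebraMap ℂ K (E.ρ (k none)⁻¹ e a) *
            (Q.sE E b e * ((φ b).coeff m).1 (k ∘ some)) := by
        intro b
        rw [KO_mul, pb_apply, pu_apply, c3b_s1, mul_neg, Finset.mul_sum]
        congr 1
        refine Finset.sum_congr rfl fun e _ => ?_
        ring
      rw [Finset.sum_congr rfl fun b _ => h2 b, Finset.sum_neg_distrib, Finset.sum_comm]
      have h3 : ∀ e, ∑ b, algebraMap ℂ K (E.ρ (k none)⁻¹ e a) *
            (Q.sE E b e * ((φ b).coeff m).1 (k ∘ some)) =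
          Q.val m * (pi0 K (none : Option L) (E.coi e a) *
            pb K (some : L → Option L) ((φ e).coeff m)).1 k := by
        intro e
        have h4 := congrArg (fun F : (G.pow L).KO K => F.1 (k ∘ some)) (h.slot m e)
        rw [KO_sum] at h4
        simp only [KO_smul] at h4
        rw [← Finset.mul_sum, h4, KO_mul, pi0_apply, pb_apply]
        show algebraMap ℂ K (E.ρ (k none)⁻¹ e a) * _ = Q.val m * (algebraMap ℂ K (E.ρ (k none)⁻¹ e a) * _)
        ring
      rw [Finset.sum_congr rfl fun e _ => h3 e, ← Finset.mul_sum]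
      have h5 : Q.val (sgn (optS false ε none) • m) = - Q.val m := by
        show Q.val ((-1 : ℤ) • m) = _
        rw [neg_smul, one_smul, map_neg]
      rw [h5, neg_mul]
  · rw [hcoeff, hcoeff, map_sum]
    refine Finset.sum_congr rfl fun b _ => ?_
    rw [map_mul]
    have h1 : wO _ w (pi0 K (none : Option L) (E.coi b a)) = pi0 K (none : Option L) (E.coi b a) := by
      apply KO_ext
      intro k
      rw [wO_apply, pi0_apply]
      exact smul_algebraMap w _
    have h2 : wO _ w (pb K (some : L → Option L) ((φ b).coeff m)) =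
        pb K (some : L → Option L) ((φ b).coeff (w • m)) := by
      rw [wO_pb, (h.fam b).inv]
    rw [← h2]
    congr 1
  · have h1 : tot (ind' E φ a) = ∑ b, pi0 K (none : Option L) (E.coi b a) *
        pb K (some : L → Option L) (tot (φ b)) := by
      unfold ind'
      rw [tot_eq, map_sum]
      refine Finset.sum_congr rfl fun b _ => ?_
      rw [← tot_eq, c3b_tot, tot_fm]
    rw [h1, KO_sum]
    refine sum_mem fun b _ => ?_
    rw [KO_mul, pi0_apply, pb_apply]
    exact c3b_mem _ ((h.fam b).reg0 h0 _)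
  · rw [ind'_coeff, Finset.mul_sum]
    refine sum_mem fun b _ => ?_
    have h1 : (Q.Eu m ^ (g - 1))⁻¹ * (algebraMap ℂ K (E.ρ (k none)⁻¹ b a) *
        ((φ b).coeff m).1 (k ∘ some)) =
        algebraMap ℂ K (E.ρ (k none)⁻¹ b a) * ((Q.Eu m ^ (g - 1))⁻¹ * ((φ b).coeff m).1 (k ∘ some)) := by
      ring
    rw [h1]
    exact c3b_mem _ ((h.fam b).regS m _ h0)

end

end Pool.Agent.MTF
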