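import Pool.Agent.MTF.C3a
import Pool.Agent.MTF.C3b

/-!
# MTF : part C, induced families
-/

set_option linter.unusedSectionVars false

namespace Pool.Agent.MTF

open AffGrp

section
variable {G : AffGrp} {K W X : Type} [Field K] [Algebra ℂ K] [Group W] [Fintype W]
  [MulSemiringAction W K] [SMulCommClass W ℂ K] [AddCommGroup X] [DistribMulAction W X]
variable {L : Type} [Finite L] [DecidableEq L] {Q : TQD G K W X}

theorem c3c_eq (E E' : Rep G) (Ψ : E.ι → E'.ι → RR G K X L) (a : E.ι) (c : E'.ι) :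
    ind2m E E' Ψ a c = ind E (fun b => ind' E' (fun b' => Ψ b b') c) a := by
  ext m k
  rw [ind2m_coeff, ind_coeff]
  refine Finset.sum_congr rfl fun b _ => ?_
  rw [ind'_coeff, Finset.mul_sum]
  refine Finset.sum_congr rfl fun b' _ => ?_
  rw [map_mul, mul_assoc]
  rfl

/-- [C3c] PROOF. `ind2m E E' Ψ a c = ind E (fun b => ind' E' (fun b' => Ψ b b') c) a` (`AddMonoidAlgebra.ext`, `KO_ext`, `ind_coeff`, `ind'_coeff`, `ind2m_coeff`; `Finset.mul_sum`, `map_mul`), so it follows from `Fam_ind` (for `Option L`) once `fun b => ind' E' (fun b' => Ψ b b') c` is shown to be in `Q.Fam1 g (optS false ε) E`: `fam` is `Fam_ind'` for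
`⟨fun b' => h.fam b b', fun m b' => h.slot' m b b'⟩`, `slot`: pointwise with `ind'_coeff`, `h.slot m b b'` (evaluate the identity of functions at a point with `congrArg`, `KO_sum`, `KO_smul`; `Finset.sum_comm`). -/
theorem Fam_ind2m {g : ℕ} {ε : L → Bool} {E E' : Rep G} {Ψ : E.ι → E'.ι → RR G K X L} (h : Q.Fam2 g ε E E' Ψ)
    (a : E.ι) (c : E'.ι) : Q.Fam g (optS true (optS false ε)) (ind2m E E' Ψ a c) := by
  rw [c3c_eq]
  refine Fam_ind ⟨fun b => Fam_ind' ⟨fun b' => h.fam b b', fun m b' => h.slot' m b b'⟩ c, fun m b => ?_⟩ a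
  apply KO_ext
  intro k
  rw [KO_sum, KO_smul, ind'_coeff, Finset.mul_sum]
  have h1 : ∀ b1, (Q.sE E b b1 • (ind' E' (fun b' => Ψ b1 b') c).coeff m).1 k =
      ∑ b', Q.sE E b b1 * (algebraMap ℂ K (E'.ρ (k none)⁻¹ b' c) * ((Ψ b1 b').coeff m).1 (k ∘ some)) := by
    intro b1
    rw [KO_smul, ind'_coeff, Finset.mul_sum]
  rw [Finset.sum_congr rfl fun b1 _ => h1 b1, Finset.sum_comm]
  refine Finset.sum_congr rfl fun b' _ => ?_
  have h2 := congrArg (fun F : (G.pow L).KO K => F.1 (k ∘ some)) (h.slot m b b')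
  simp only [KO_sum, KO_smul] at h2
  rw [mul_left_comm (Q.val m), ← h2, Finset.mul_sum]
  exact Finset.sum_congr rfl fun b1 _ => mul_left_comm _ _ _

end

end Pool.Agent.MTF
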