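import Pool.Agent.MTF.C4b

/-!
# MTF : part C, rational actions
-/

set_option linter.unusedSectionVars false

namespace Pool.Agent.MTF

open AffGrp TensorProduct

section
variable {G : AffGrp} {V : Type} [AddCommGroup V] [Module ℂ V]

theorem c4c_sum {κ : Type} (t : Finset κ) (F : κ → G.O) (x : G.X) :
    (∑ i ∈ t, F i : G.O).1 x = ∑ i ∈ t, (F i).1 x := by
  classical
  induction t using Finset.induction_on with
  | empty => rfl
  | insert a s ha ih =>
    rw [Finset.sum_insert ha, Finset.sum_insert ha, ← ih]
    rfl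

/-- [C4c] A space with an equivariant injection into a rational one is rational. PROOF. Let `v : V'`; `rep_of` for `act` and the one vector `i v`: each `b j` is in the span of the vectors `act g (i v) = i (act' g v)`, so `b j = i (b' j)` (`Submodule.span_le` with `LinearMap.range i`), `i v = ∑ j, z j • b j` (`Submodule.mem_span_range_iff_exists_fun`),
`i (act' g v) = act g (i v) = ∑ k, (∑ j, z j * ρ g k j) • i (b' k)`, and `i` is injective. (`E.ι` is a `Fintype`: transfer to `Fin n` with `Fintype.equivFin`.) -/
theorem rat_inj {V' : Type} [AddCommGroup V'] [Module ℂ V'] {act : G.X →* Module.End ℂ V} (ha : RatAct act)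
    {act' : G.X →* Module.End ℂ V'} (i : V' →ₗ[ℂ] V) (hi : Function.Injective i)
    (h : ∀ g v, i (act' g v) = act g (i v)) : RatAct act' := by
  intro v
  obtain ⟨E, b, _, hact, hsp, hbs⟩ := rep_of ha (n := 1) (fun _ => i v)
  have hb' : ∀ j, ∃ w, i w = b j := by
    intro j
    have h1 : Submodule.span ℂ (⋃ _ : Fin 1, Set.range fun g => act g (i v)) ≤ LinearMap.range i := by
      rw [Submodule.span_le]
      intro x hx
      obtain ⟨_, hx⟩ := Set.mem_iUnion.1 hx
      obtain ⟨g, rfl⟩ := hx
      exact ⟨act' g v, h g v⟩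
    exact h1 (hbs j)
  choose b' hb' using hb'
  obtain ⟨z, hz⟩ := (Submodule.mem_span_range_iff_exists_fun ℂ).1 (hsp 0)
  have key : ∀ g, act' g v = ∑ k, (∑ j, z j • E.co k j : G.O).1 g • b' k := by
    intro g
    apply hi
    rw [h, ← hz, map_sum, map_sum]
    have h2 : ∀ j, act g (z j • b j) = ∑ k, (z j * E.ρ g k j) • b k := by
      intro j
      rw [map_smul, hact, Finset.smul_sum]
      exact Finset.sum_congr rfl fun k _ => smul_smul _ _ _
    rw [Finset.sum_congr rfl fun j _ => h2 j, Finset.sum_comm]
    refine Finset.sum_congr rfl fun k _ => ?_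
    rw [map_smul, hb', c4c_sum, ← Finset.sum_smul]
    rfl
  refine ⟨Fintype.card E.ι, fun t => ∑ j, z j • E.co ((Fintype.equivFin E.ι).symm t) j,
    fun t => b' ((Fintype.equivFin E.ι).symm t), fun g => ?_⟩
  rw [key]
  exact (Equiv.sum_comp (Fintype.equivFin E.ι).symm
    fun k => (∑ j, z j • E.co k j : G.O).1 g • b' k).symm

end

end Pool.Agent.MTF
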