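import Pool.Agent.MTF.C4D

/-!
# MTF : part C, rational actions
-/

set_option linter.unusedSectionVars false

namespace Pool.Agent.MTF

open AffGrp TensorProduct

section
variable {G : AffGrp} {V : Type} [AddCommGroup V] [Module ℂ V]

/-- [C4d] PROOF. Induction on the tensor (`TensorProduct.induction_on`): `0`; `v ⊗ₜ v'`: `∑ i j, ((f i) g * (f' j) g) • (c i ⊗ₜ c' j)` (index `Fin n × Fin n'`, `finProdFinEquiv`); sums: `Fin.append`. -/
theorem rat_tensor {V' : Type} [AddCommGroup V'] [Module ℂ V'] {act : G.X →* Module.End ℂ V}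
    {act' : G.X →* Module.End ℂ V'} (ha : RatAct act) (ha' : RatAct act') {actT : G.X →* Module.End ℂ (V ⊗[ℂ] V')}
    (h : ∀ g v v', actT g (v ⊗ₜ v') = act g v ⊗ₜ act' g v') : RatAct actT := by
  intro x
  induction x using TensorProduct.induction_on with
  | zero => exact ⟨0, fun _ => 1, fun _ => 0, fun g => by simp⟩
  | tmul v v' =>
    obtain ⟨n, f, c, hf⟩ := ha v
    obtain ⟨n', f', c', hf'⟩ := ha' v'
    refine ⟨n * n', fun k => f (finProdFinEquiv.symm k).1 * f' (finProdFinEquiv.symm k).2,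
      fun k => c (finProdFinEquiv.symm k).1 ⊗ₜ c' (finProdFinEquiv.symm k).2, fun g => ?_⟩
    rw [h, hf, hf', ← (finProdFinEquiv (m := n) (n := n')).sum_comp]
    simp only [Equiv.symm_apply_apply]
    rw [Fintype.sum_prod_type, TensorProduct.sum_tmul]
    refine Finset.sum_congr rfl fun i _ => ?_
    rw [TensorProduct.tmul_sum]
    refine Finset.sum_congr rfl fun j _ => ?_
    show ((f i).1 g • c i) ⊗ₜ[ℂ] ((f' j).1 g • c' j) =
      ((f i).1 g * (f' j).1 g) • (c i ⊗ₜ[ℂ] c' j)
    rw [TensorProduct.smul_tmul_smul]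
  | add x y hx hy =>
    obtain ⟨n, f, c, hf⟩ := hx
    obtain ⟨n', f', c', hf'⟩ := hy
    refine ⟨n + n', Fin.append f f', Fin.append c c', fun g => ?_⟩
    rw [map_add, hf, hf', Fin.sum_univ_add]
    simp only [Fin.append_left, Fin.append_right]

end

end Pool.Agent.MTF
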