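import Pool.Agent.MTF.C4D

/-!
# MTF : part C, rational actions
-/

set_option linter.unusedSectionVars false

namespace Pool.Agent.MTF

open AffGrp TensorProduct

section
variable {G : AffGrp} {V : Type} [AddCommGroup V] [Module ℂ V]

/-- [C4e] Comparison of coefficients in a tensor product. PROOF. `b` is linearly independent: choose functionals `μ k` of `V'` with `μ k (b j) = δ` (extend `b` to a basis, or `hb` gives a left inverse of the map `Finsupp.linearCombination`), and apply `TensorProduct.rid ∘ LinearMap.lTensor V (μ k)` to the identity. -/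
theorem tmul_coeff {V' : Type} [AddCommGroup V'] [Module ℂ V'] {ι : Type} [Fintype ι] {b : ι → V'}
    (hb : LinearIndependent ℂ b) {u u' : ι → V} (h : ∑ j, u j ⊗ₜ[ℂ] b j = ∑ j, u' j ⊗ₜ[ℂ] b j) : u = u' := by
  classical
  funext k
  obtain ⟨μ, hμ⟩ := LinearMap.exists_extend ((Finsupp.lapply k : (ι →₀ ℂ) →ₗ[ℂ] ℂ) ∘ₗ
    (hb.repr : Submodule.span ℂ (Set.range b) →ₗ[ℂ] (ι →₀ ℂ)))
  have h1 : ∀ j, μ (b j) = if j = k then 1 else 0 := by
    intro j
    have h2 := LinearMap.congr_fun hμ ⟨b j, Submodule.subset_span ⟨j, rfl⟩⟩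
    have h3 : μ (b j) = hb.repr ⟨b j, Submodule.subset_span ⟨j, rfl⟩⟩ k := h2
    rw [h3, hb.repr_eq_single j _ rfl, Finsupp.single_apply]
  have h4 : ∀ w : ι → V, ((TensorProduct.rid ℂ V).toLinearMap ∘ₗ LinearMap.lTensor V μ)
      (∑ j, w j ⊗ₜ[ℂ] b j) = w k := by
    intro w
    rw [map_sum, Finset.sum_eq_single k]
    · show (TensorProduct.rid ℂ V) (LinearMap.lTensor V μ (w k ⊗ₜ[ℂ] b k)) = w k
      rw [LinearMap.lTensor_tmul, TensorProduct.rid_tmul, h1, if_pos rfl, one_smul]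
    · intro j _ hj
      show (TensorProduct.rid ℂ V) (LinearMap.lTensor V μ (w j ⊗ₜ[ℂ] b j)) = 0
      rw [LinearMap.lTensor_tmul, TensorProduct.rid_tmul, h1, if_neg hj, zero_smul]
    · intro h
      exact absurd (Finset.mem_univ k) h
  rw [← h4 u, ← h4 u', h]

end

end Pool.Agent.MTF
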