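import Pool.Agent.MTF.C4D

/-!
# MTF : part C, rational actions
-/

set_option linter.unusedSectionVars false

namespace Pool.Agent.MTF

open AffGrp TensorProduct

section
variable {G : AffGrp} {K X : Type} [Field K] [Algebra ℂ K] [AddCommGroup X] {L : Type} [Finite L]

section
variable {V V' : Type} [AddCommGroup V] [Module ℂ V] [AddCommGroup V'] [Module ℂ V']

/-- functions on `G` with values in `V` that are sums of regular functions times vectors -/
def c4f_P (φ : G.X → V) : Prop :=
  ∃ (n : ℕ) (f : Fin n → G.O) (c : Fin n → V), ∀ g, φ g = ∑ i, (f i).1 g • c i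

theorem c4f_zero : c4f_P (G := G) (fun _ => (0 : V)) :=
  ⟨0, fun _ => 0, fun _ => 0, fun g => by rw [Finset.univ_eq_empty, Finset.sum_empty]⟩

theorem c4f_add {φ φ' : G.X → V} (h : c4f_P φ) (h' : c4f_P φ') :
    c4f_P (fun g => φ g + φ' g) := by
  obtain ⟨n, f, c, h⟩ := h
  obtain ⟨n', f', c', h'⟩ := h'
  refine ⟨n + n', Fin.append f f', Fin.append c c', fun g => ?_⟩
  rw [Fin.sum_univ_add]
  simp only [Fin.append_left, Fin.append_right]
  rw [← h, ← h']

theorem c4f_sum {κ : Type} (s : Finset κ) (φ : κ → G.X → V) (h : ∀ i, c4f_P (φ i)) :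
    c4f_P (fun g => ∑ i ∈ s, φ i g) := by
  classical
  induction s using Finset.induction_on with
  | empty =>
    simp only [Finset.sum_empty]
    exact c4f_zero
  | insert a s ha ih =>
    simp only [Finset.sum_insert ha]
    exact c4f_add (h a) ih

theorem c4f_map (u : V →ₗ[ℂ] V') {φ : G.X → V} (h : c4f_P φ) : c4f_P (fun g => u (φ g)) := by
  obtain ⟨n, f, c, h⟩ := h
  refine ⟨n, f, fun i => u (c i), fun g => ?_⟩
  show u (φ g) = _
  rw [h, map_sum]
  exact Finset.sum_congr rfl fun i _ => map_smul u _ _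

end

theorem c4f_smul (c : ℂ) {H : AffGrp} (F : H.KO K) (x : H.X) :
    (c • F).1 x = algebraMap ℂ K c * F.1 x := by
  have h : (c • F).1 x = c • F.1 x := rfl
  rw [h, Algebra.smul_def]

theorem c4f_inc (j : G.X → (L → G.X)) (hj : ∀ f ∈ G.powO L, (fun x => f (j x)) ∈ G.O)
    (hinv : ∀ x, j x⁻¹ = (j x)⁻¹) (f : (G.pow L).O) :
    c4f_P (fun x => ltK (H := G.pow L) ((j x)⁻¹ : L → G.X) (inc K f)) := by
  obtain ⟨n, a, b, h⟩ := (G.pow L).mul_mem f.1 f.2
  refine ⟨n, fun i => ⟨fun x => (a i).1 (j x⁻¹), G.inv_mem _ (hj _ (a i).2)⟩,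
    fun i => inc K (b i), fun x => ?_⟩
  apply KO_ext
  intro k
  rw [KO_sum]
  have h2 := h (((j x)⁻¹ : L → G.X)) k
  refine (congrArg (algebraMap ℂ K) h2).trans ?_
  rw [map_sum]
  refine Finset.sum_congr rfl fun i _ => ?_
  rw [map_mul, c4f_smul]
  show _ = algebraMap ℂ K ((a i).1 (j x⁻¹)) * _
  rw [hinv]
  rfl

theorem c4f_KO (j : G.X → (L → G.X)) (hj : ∀ f ∈ G.powO L, (fun x => f (j x)) ∈ G.O)
    (hinv : ∀ x, j x⁻¹ = (j x)⁻¹) (F : (G.pow L).KO K) :
    c4f_P (fun x => ltK (H := G.pow L) ((j x)⁻¹ : L → G.X) F) := by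
  obtain ⟨n, c, f, rfl⟩ := KO_eq_sum F
  simp only [map_sum]
  refine c4f_sum _ _ fun i => ?_
  have h1 := c4f_map (V := (G.pow L).KO K) (V' := (G.pow L).KO K)
    { toFun := fun F => c i • F
      map_add' := fun F F' => smul_add _ _ _
      map_smul' := fun a F => by
        apply KO_ext
        intro x
        rw [KO_smul, c4f_smul, RingHom.id_apply, c4f_smul, KO_smul]
        ring } (c4f_inc (K := K) j hj hinv (f i))
  obtain ⟨n', f', c', h1⟩ := h1
  refine ⟨n', f', c', fun g => ?_⟩
  rw [← h1 g]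
  exact map_smul (ltK (H := G.pow L) (K := K) ((j g)⁻¹ : L → G.X)) (c i) (inc K (f i))

/-- [C4f] Left translations of families are rational: stated for any homomorphism `j : G.X → G^L` that is regular in the sense that pullbacks of regular functions of `G^L` are regular. PROOF. For `f : (G.pow L).O`: `f (j x⁻¹ * k) = ∑ i, (a i) (j x⁻¹) * (b i) k` (`(G.pow L).mul_mem`), so `ltK (j x)⁻¹ (inc K f) = ∑ i, (a i) (j x⁻¹) • inc K (b i)`;
`x ↦ (a i) (j x⁻¹)` is regular (`hj`, `G.inv_mem`). For `F : (G.pow L).KO K` use `KO_eq_sum`, and for a family the finite support (`AddMonoidAlgebra.induction_linear`; `T` is the map `fm X (ltK ..)`: hypothesis `hT` gives its coefficients). -/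
theorem rat_RR (j : G.X → (L → G.X)) (hj : ∀ f ∈ G.powO L, (fun x => f (j x)) ∈ G.O)
    (hinv : ∀ x, j x⁻¹ = (j x)⁻¹) {T : G.X →* Module.End ℂ (RR G K X L)}
    (hT : ∀ x F m, (T x F).coeff m = ltK (H := G.pow L) ((j x)⁻¹ : L → G.X) (F.coeff m)) : RatAct (V := RR G K X L) T := by
  intro F
  change c4f_P (fun x => T x F)
  induction F using AddMonoidAlgebra.induction_linear with
  | zero =>
    simp only [map_zero]
    exact c4f_zero
  | add a b ha hb =>
    simp only [map_add]
    exact c4f_add ha hb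
  | single m a =>
    obtain ⟨n, f, c, h⟩ := c4f_KO (K := K) j hj hinv a
    refine ⟨n, f, fun i => AddMonoidAlgebra.single m (c i), fun x => ?_⟩
    have h1 : ∑ i, (f i).1 x • (AddMonoidAlgebra.single m (c i) : RR G K X L) =
        AddMonoidAlgebra.single m (∑ i, (f i).1 x • c i) := by
      have h2 : ∀ s : Finset (Fin n), ∑ i ∈ s, (f i).1 x • (AddMonoidAlgebra.single m (c i) : RR G K X L) =
          AddMonoidAlgebra.single m (∑ i ∈ s, (f i).1 x • c i) := by
        intro s
        classical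
        induction s using Finset.induction_on with
        | empty => rw [Finset.sum_empty, Finset.sum_empty, AddMonoidAlgebra.single_zero]
        | insert i s hi ih =>
          rw [Finset.sum_insert hi, Finset.sum_insert hi, ih, AddMonoidAlgebra.single_add,
            AddMonoidAlgebra.smul_single]
      exact h2 _
    rw [h1, ← h x]
    apply AddMonoidAlgebra.ext
    apply Finsupp.ext
    intro m'
    rw [hT, AddMonoidAlgebra.coeff_single, AddMonoidAlgebra.coeff_single]
    by_cases hm : m = m'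
    · subst hm
      rw [Finsupp.single_eq_same, Finsupp.single_eq_same]
    · rw [Finsupp.single_eq_of_ne (Ne.symm hm), Finsupp.single_eq_of_ne (Ne.symm hm), map_zero]

end

end Pool.Agent.MTF
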