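import Pool.Agent.MTF.C4a
import Pool.Agent.MTF.C4c
import Pool.Agent.MTF.C4d
import Pool.Agent.MTF.C4e
import Pool.Agent.MTF.C4f

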