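import Pool.Agent.MTF.TQ

/-!
# MTF : part C, rational actions
-/

set_option linter.unusedSectionVars false

namespace Pool.Agent.MTF

open AffGrp TensorProduct

section
variable {G : AffGrp} {V : Type} [AddCommGroup V] [Module ℂ V]

/-- `act` is rational (algebraic, locally finite) -/
def RatAct (act : G.X →* Module.End ℂ V) : Prop :=
  ∀ v : V, ∃ (n : ℕ) (f : Fin n → G.O) (c : Fin n → V), ∀ g, act g v = ∑ i, (f i).1 g • c i

end

end Pool.Agent.MTF
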