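import Pool.Agent.MTF.C4D

/-!
# MTF : part C, rational actions
-/

set_option linter.unusedSectionVars false

namespace Pool.Agent.MTF

open AffGrp TensorProduct

section
variable {G : AffGrp} {V : Type} [AddCommGroup V] [Module ℂ V]

theorem c4a_sum {κ : Type} (t : Finset κ) (F : κ → G.O) (x : G.X) :
    (∑ i ∈ t, F i : G.O).1 x = ∑ i ∈ t, (F i).1 x := by
  classical
  induction t using Finset.induction_on with
  | empty => rfl
  | insert a s ha ih =>
    rw [Finset.sum_insert ha, Finset.sum_insert ha, ← ih]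
    rfl

/-- [C4a] The Reynolds operator. PROOF. `act g v = ∑ i, (f i).1 g • c i`, `v₀ := ∑ i, I (f i) • c i`. (1) Let `λ : Module.Dual ℂ V`. For `g : G.X`, as functions of `h`: `∑ i, (f i).1 (g * h) * λ (c i) = λ (act (g * h) v) = λ (act g (act h v)) = ∑ i, (f i).1 h * λ (act g (c i))`; so
`∑ i, λ (c i) • G.lt g (f i) = ∑ i, λ (act g (c i)) • f i` in `G.O`; apply `I` (`hl`): `∑ i, λ (c i) * I (f i) = ∑ i, λ (act g (c i)) * I (f i)`, i. e. `λ v₀ = λ (act g v₀)`; `Module.forall_dual_apply_eq_zero_iff`. (2) Let `λ` be a functional on `V ⧸ N` (composed with `mkQ`): `∑ i, (f i).1 g * λ (c i) = λ (act g v) = λ v` for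
all `g`, so `∑ i, λ (c i) • f i = λ v • 1` in `G.O` and `λ v₀ = λ v * I 1 = λ v`; so `mkQ (v - v₀) = 0` (`Submodule.Quotient.mk_eq_zero`). -/
theorem reynolds {I : Module.Dual ℂ G.O} (h1 : I 1 = 1) (hl : ∀ x f, I (G.lt x f) = I f)
    {act : G.X →* Module.End ℂ V} (ha : RatAct act) (N : Submodule ℂ V) (v : V) (hv : ∀ g, act g v - v ∈ N) :
    ∃ v₀, (∀ g, act g v₀ = v₀) ∧ v - v₀ ∈ N := by
  obtain ⟨n, f, c, hf⟩ := ha v
  have hv0 : ∀ lam : Module.Dual ℂ V, lam (∑ i, I (f i) • c i) = I (∑ i, lam (c i) • f i) := by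
    intro lam
    rw [map_sum, map_sum]
    refine Finset.sum_congr rfl fun i _ => ?_
    rw [map_smul, map_smul, smul_eq_mul, smul_eq_mul, mul_comm]
  have hO : ∀ (lam : Module.Dual ℂ V) (h : G.X),
      (∑ i, lam (c i) • f i : G.O).1 h = lam (act h v) := by
    intro lam h
    rw [hf, map_sum, c4a_sum]
    refine Finset.sum_congr rfl fun i _ => ?_
    rw [map_smul, smul_eq_mul]
    show lam (c i) * (f i).1 h = _
    rw [mul_comm]
  refine ⟨∑ i, I (f i) • c i, ?_, ?_⟩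
  · intro g
    rw [← sub_eq_zero]
    refine (Module.forall_dual_apply_eq_zero_iff ℂ _).1 fun lam => ?_
    rw [map_sub, sub_eq_zero, hv0]
    have h2 := hv0 (lam ∘ₗ act g)
    rw [LinearMap.comp_apply] at h2
    rw [h2, ← hl g (∑ i, lam (c i) • f i)]
    congr 1
    apply Subtype.ext
    funext h
    rw [hO (lam ∘ₗ act g) h]
    show lam (act g (act h v)) = (∑ i, lam (c i) • f i : G.O).1 (g * h)
    rw [hO lam (g * h), map_mul]
    rfl
  · rw [← Submodule.Quotient.mk_eq_zero]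
    refine (Module.forall_dual_apply_eq_zero_iff ℂ _).1 fun lam => ?_
    show (lam ∘ₗ N.mkQ) (v - ∑ i, I (f i) • c i) = 0
    rw [map_sub, sub_eq_zero, hv0]
    have h3 : (∑ i, (lam ∘ₗ N.mkQ) (c i) • f i : G.O) = (lam ∘ₗ N.mkQ) v • (1 : G.O) := by
      apply Subtype.ext
      funext h
      rw [hO (lam ∘ₗ N.mkQ) h]
      show (lam ∘ₗ N.mkQ) (act h v) = (lam ∘ₗ N.mkQ) v * 1
      rw [mul_one, ← sub_eq_zero, ← map_sub, LinearMap.comp_apply,
        (Submodule.mkQ_apply N _), (Submodule.Quotient.mk_eq_zero N).2 (hv h), map_zero]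
    rw [h3, map_smul, h1, smul_eq_mul, mul_one]

end

end Pool.Agent.MTF
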