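import Pool.Agent.MTF.C4D

/-!
# MTF : part C, rational actions
-/

set_option linter.unusedSectionVars false

namespace Pool.Agent.MTF

open AffGrp TensorProduct

section
variable {G : AffGrp} {V : Type} [AddCommGroup V] [Module ℂ V]

/-- [C4b] Finitely many vectors lie in a finite dimensional stable subspace. PROOF. `U := Submodule.span ℂ (⋃ i, range (fun g => act g (v i)))`, contained in the span of the finitely many coefficients `c` of the `v i`, so finite dimensional; stable under every `act g`. `b` a basis of `U` (`Module.finBasis ℂ U`, `ι = Fin _`), seen in `V`.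
`act g (b j) = ∑ k, ρ g k j • b k` with `ρ g := LinearMap.toMatrix b b (restriction of act g)` (a monoid homomorphism: `map_mul`). Algebraicity of `x ↦ ρ x k j`: `b j` is a finite combination of vectors `act h (v i)`, `act x (act h (v i)) = act (x * h) (v i) = ∑ t, (f t) (x * h) • c t`; extend the coordinate functional `b.coord k` of `U` to a functional `μ` of
`V` (`LinearMap.exists_extend`): `ρ x k j = μ (act x (b j))` is a combination of functions `x ↦ (f t) (x * h)`, regular by `G.right_mem`. -/
theorem rep_of {act : G.X →* Module.End ℂ V} (ha : RatAct act) {n : ℕ} (v : Fin n → V) :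
    ∃ (E : Rep G) (b : E.ι → V), LinearIndependent ℂ b ∧ (∀ g j, act g (b j) = ∑ k, E.ρ g k j • b k) ∧
      (∀ i, v i ∈ Submodule.span ℂ (Set.range b)) ∧
      ∀ j, b j ∈ Submodule.span ℂ (⋃ i, Set.range fun g => act g (v i)) := by
  classical
  let U : Submodule ℂ V := Submodule.span ℂ (⋃ i, Set.range fun g => act g (v i))
  have hfin : FiniteDimensional ℂ U := by
    choose m f c hc using fun i => ha (v i)
    have hle : U ≤ Submodule.span ℂ (⋃ i, Set.range (c i)) := by
      refine Submodule.span_le.2 ?_
      intro w hw
      obtain ⟨i, hi⟩ := Set.mem_iUnion.1 hw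
      obtain ⟨g, rfl⟩ := hi
      show act g (v i) ∈ Submodule.span ℂ (⋃ i, Set.range (c i))
      rw [hc i g]
      exact Submodule.sum_mem _ fun t _ => Submodule.smul_mem _ _
        (Submodule.subset_span (Set.mem_iUnion.2 ⟨i, t, rfl⟩))
    have hfs : (⋃ i, Set.range (c i)).Finite := Set.finite_iUnion fun i => Set.finite_range (c i)
    have : FiniteDimensional ℂ (Submodule.span ℂ (⋃ i, Set.range (c i))) :=
      FiniteDimensional.span_of_finite ℂ hfs
    exact Submodule.finiteDimensional_of_le hle
  have hst : ∀ g, ∀ u ∈ U, act g u ∈ U := by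
    intro g u hu
    refine Submodule.span_induction (p := fun u _ => act g u ∈ U) ?_ ?_ ?_ ?_ hu
    · intro w hw
      obtain ⟨i, hi⟩ := Set.mem_iUnion.1 hw
      obtain ⟨h, rfl⟩ := hi
      refine Submodule.subset_span (Set.mem_iUnion.2 ⟨i, g * h, ?_⟩)
      show act (g * h) (v i) = act g (act h (v i))
      rw [map_mul]
      rfl
    · rw [map_zero]
      exact U.zero_mem
    · intro x y _ _ hx hy
      rw [map_add]
      exact U.add_mem hx hy
    · intro a x _ hx
      rw [map_smul]
      exact U.smul_mem a hx
  have hO : ∀ (μ : V →ₗ[ℂ] ℂ), ∀ u ∈ U, (fun g => μ (act g u)) ∈ G.O := by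
    intro μ u hu
    refine Submodule.span_induction (p := fun u _ => (fun g => μ (act g u)) ∈ G.O) ?_ ?_ ?_ ?_ hu
    · intro w hw
      obtain ⟨i, hi⟩ := Set.mem_iUnion.1 hw
      obtain ⟨h, rfl⟩ := hi
      obtain ⟨m, f, c, hc⟩ := ha (v i)
      have h1 : (fun g => μ (act g ((fun g => act g (v i)) h))) =
          ∑ t, μ (c t) • (fun g => (f t).1 (g * h)) := by
        funext g
        show μ (act g (act h (v i))) = _
        have h2 : act g (act h (v i)) = act (g * h) (v i) := by
          rw [map_mul]
          rfl
        rw [h2, hc, map_sum, Finset.sum_apply]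
        refine Finset.sum_congr rfl fun t _ => ?_
        rw [map_smul, Pi.smul_apply, smul_eq_mul, smul_eq_mul, mul_comm]
      rw [h1]
      exact Subalgebra.sum_mem _ fun t _ => Subalgebra.smul_mem _ (G.right_mem h (f t).2) _
    · have h1 : (fun g => μ (act g 0)) = 0 := by
        funext g
        rw [map_zero, map_zero]
        rfl
      rw [h1]
      exact Subalgebra.zero_mem _
    · intro x y _ _ hx hy
      have h1 : (fun g => μ (act g (x + y))) = (fun g => μ (act g x)) + fun g => μ (act g y) := by
        funext g
        rw [map_add, map_add]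
        rfl
      rw [h1]
      exact Subalgebra.add_mem _ hx hy
    · intro a x _ hx
      have h1 : (fun g => μ (act g (a • x))) = a • fun g => μ (act g x) := by
        funext g
        rw [map_smul, map_smul]
        rfl
      rw [h1]
      exact Subalgebra.smul_mem _ hx a
  let b0 := Module.finBasis ℂ U
  let res : G.X →* Module.End ℂ U :=
    { toFun := fun g => (act g).restrict (fun u hu => hst g u hu)
      map_one' := by
        ext u
        show act 1 (u : V) = u
        rw [map_one]
        rfl
      map_mul' := by
        intro g h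
        ext u
        show act (g * h) (u : V) = act g (act h u)
        rw [map_mul]
        rfl }
  let ρ : G.X →* Matrix (Fin (Module.finrank ℂ U)) (Fin (Module.finrank ℂ U)) ℂ :=
    (MonoidHomClass.toMonoidHom (LinearMap.toMatrixAlgEquiv b0)).comp res
  have hρ : ∀ g k j, ρ g k j = b0.repr (res g (b0 j)) k := fun g k j =>
    LinearMap.toMatrixAlgEquiv_apply b0 (res g) k j
  have hmem : ∀ k j, (fun g => ρ g k j) ∈ G.O := by
    intro k j
    obtain ⟨μ, hμ⟩ := LinearMap.exists_extend (b0.coord k)
    have h1 : (fun g => ρ g k j) = fun g => μ (act g (b0 j : V)) := by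
      funext g
      rw [hρ]
      exact (LinearMap.congr_fun hμ (res g (b0 j))).symm
    rw [h1]
    exact hO μ _ (b0 j).2
  refine ⟨{ ι := Fin (Module.finrank ℂ U), ρ := ρ, mem := hmem }, fun j => (b0 j : V), ?_, ?_, ?_, ?_⟩
  · exact b0.linearIndependent.map' U.subtype U.ker_subtype
  · intro g j
    have h1 := b0.sum_repr (res g (b0 j))
    have h2 := congrArg (U.subtype) h1
    rw [map_sum] at h2
    refine Eq.trans h2.symm ?_
    refine Finset.sum_congr rfl fun k _ => ?_
    rw [map_smul]
    show b0.repr (res g (b0 j)) k • (b0 k : V) = ρ g k j • (b0 k : V)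
    rw [hρ]
  · intro i
    have h1 : v i ∈ U := by
      refine Submodule.subset_span (Set.mem_iUnion.2 ⟨i, 1, ?_⟩)
      show act 1 (v i) = v i
      rw [map_one]
      rfl
    have h2 : Submodule.map U.subtype (Submodule.span ℂ (Set.range b0)) = U := by
      rw [b0.span_eq, Submodule.map_top, Submodule.range_subtype]
    have h3 : v i ∈ Submodule.map U.subtype (Submodule.span ℂ (Set.range b0)) := by
      rw [h2]
      exact h1
    rw [Submodule.map_span, ← Set.range_comp] at h3
    exact h3
  · intro j
    exact (b0 j).2

end

end Pool.Agent.MTF
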