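import Pool.Agent.MTF.C0

/-!
# MTF : part C, the restriction map
-/

set_option linter.unusedSectionVars false

namespace Pool.Agent.MTF

open AffGrp

section
variable {G : AffGrp} {K W X : Type} [Field K] [Algebra ℂ K] [Group W] [Fintype W]
  [MulSemiringAction W K] [SMulCommClass W ℂ K] [AddCommGroup X] [DistribMulAction W X]
variable {L L' : Type} [Finite L] [Finite L']

/-- left translation of families by `x : G^L` -/
noncomputable def gact (x : L → G.X) : RR G K X L →ₐ[K] RR G K X L := fm X (tr K x)

theorem coeff_gact (x : L → G.X) (F : RR G K X L) (m : X) : (gact x F).coeff m = tr K x (F.coeff m) := coeff_fm _ F m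

theorem gact_apply (x : L → G.X) (F : RR G K X L) (m : X) (k : L → G.X) :
    ((gact x F).coeff m).1 k = (F.coeff m).1 (x⁻¹ * k) := by
  rw [coeff_gact]
  rfl

theorem RR_ext {F F' : RR G K X L} (h : ∀ m k, (F.coeff m).1 k = (F'.coeff m).1 k) : F = F' := by
  apply AddMonoidAlgebra.coeff_injective
  ext m : 1
  exact KO_ext (h m)

theorem gact_mul (x y : L → G.X) (F : RR G K X L) : gact (x * y) F = gact x (gact y F) := by
  apply RR_ext
  intro m k
  rw [gact_apply, gact_apply, gact_apply, mul_inv_rev, mul_assoc]

theorem gact_one (F : RR G K X L) : gact (1 : L → G.X) F = F := by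
  apply RR_ext
  intro m k
  rw [gact_apply, inv_one, one_mul]

/-- restriction of the first factor -/
noncomputable def jL (G : AffGrp) (K X L L' : Type) [Field K] [Algebra ℂ K] [AddCommGroup X] [Finite L] [Finite L'] :
    RR G K X (Option L) →ₐ[ℂ] AddMonoidAlgebra ((G.pow (L ⊕ L')).KO K) (X × X) :=
  ((AddMonoidAlgebra.mapDomainAlgHom K ((G.pow (L ⊕ L')).KO K) (AddMonoidHom.inl X X)).restrictScalars ℂ).comp
    ((AddMonoidAlgebra.mapAlgHom X ((pb K (Sum.inl : L → L ⊕ L')).comp (ev1 K))).restrictScalars ℂ)

/-- restriction of the second factor -/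
noncomputable def jR (G : AffGrp) (K X L L' : Type) [Field K] [Algebra ℂ K] [AddCommGroup X] [Finite L] [Finite L'] :
    RR G K X (Option L') →ₐ[ℂ] AddMonoidAlgebra ((G.pow (L ⊕ L')).KO K) (X × X) :=
  ((AddMonoidAlgebra.mapDomainAlgHom K ((G.pow (L ⊕ L')).KO K) (AddMonoidHom.inr X X)).restrictScalars ℂ).comp
    ((AddMonoidAlgebra.mapAlgHom X ((pb K (Sum.inr : L' → L ⊕ L')).comp (ev1 K))).restrictScalars ℂ)

theorem c5a_L (m : X) (a : (G.pow (Option L)).KO K) :
    jL G K X L L' (AddMonoidAlgebra.single m a) =
      AddMonoidAlgebra.single (m, 0) (pb K Sum.inl (ev1 K a)) := by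
  unfold jL
  simp

theorem c5a_R (m : X) (a : (G.pow (Option L')).KO K) :
    jR G K X L L' (AddMonoidAlgebra.single m a) =
      AddMonoidAlgebra.single (0, m) (pb K Sum.inr (ev1 K a)) := by
  unfold jR
  simp

/-- [C5a] PROOF. By `AddMonoidAlgebra.induction_linear` for `F` and `F'` (linear in both), for `single`s: `jL` maps `single m a` to `single (m, 0) (pb inl (ev1 a))` (`mapAlgHom`, `mapDomainAlgHom` on `single`), `jR` maps `single m' a'` to `single (0, m') ..`, and the product of singles is `single (m, m') (product)` (`AddMonoidAlgebra.single_mul_single`). -/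
theorem coeff_jj (F : RR G K X (Option L)) (F' : RR G K X (Option L')) (m m' : X) :
    (jL G K X L L' F * jR G K X L L' F').coeff (m, m') =
      pb K Sum.inl (ev1 K (F.coeff m)) * pb K Sum.inr (ev1 K (F'.coeff m')) := by
  classical
  induction F using AddMonoidAlgebra.induction_linear with
  | zero => simp
  | add a b ha hb =>
    rw [map_add, add_mul, AddMonoidAlgebra.coeff_add, AddMonoidAlgebra.coeff_add, Finsupp.add_apply,
      Finsupp.add_apply, ha, hb, map_add, map_add, add_mul]
  | single n a =>
    induction F' using AddMonoidAlgebra.induction_linear with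
    | zero => simp
    | add b c hb hc =>
      rw [map_add, mul_add, AddMonoidAlgebra.coeff_add, AddMonoidAlgebra.coeff_add, Finsupp.add_apply,
        Finsupp.add_apply, hb, hc, map_add, map_add, mul_add]
    | single n' b =>
      rw [c5a_L, c5a_R, AddMonoidAlgebra.single_mul_single, AddMonoidAlgebra.coeff_single,
        AddMonoidAlgebra.coeff_single, AddMonoidAlgebra.coeff_single, Finsupp.single_apply,
        Finsupp.single_apply, Finsupp.single_apply]
      by_cases h1 : n = m
      · by_cases h2 : n' = m'
        · subst h1 h2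
          simp
        · have h3 : ¬ ((n, (0 : X)) + (0, n') = (m, m')) := by
            intro h
            apply h2
            simpa using congrArg Prod.snd h
          rw [if_neg h3, if_neg h2, map_zero, map_zero, mul_zero]
      · have h3 : ¬ ((n, (0 : X)) + (0, n') = (m, m')) := by
          intro h
          apply h1
          simpa using congrArg Prod.fst h
        rw [if_neg h3, if_neg h1, map_zero, map_zero, zero_mul]

end

end Pool.Agent.MTF
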