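import Pool.Agent.MTF.C3
import Pool.Agent.MTF.C4
import Pool.Agent.MTF.C5a

/-!
# MTF : part C, the setting of joining (T1) and self-glueing (T2)

The ring of families is replaced by an abstract ring `B` with an injection `i` into `RR G K X L` whose image
consists of all families (`RP`).
-/

set_option linter.unusedSectionVars false

namespace Pool.Agent.MTF

open AffGrp TensorProduct

attribute [-instance] RingConeClass.toSubsemiringClass NormedAlgebra.toAlgebra
  NormedSpace.toModule Subalgebra.seminormedRing SubringClass.toSubsemiringClass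
  NonUnitalSubringClass.toNonUnitalSubsemiringClass Subalgebra.seminormedCommRing
  Subalgebra.normedCommRing Subalgebra.normedRing AddSubgroup.seminormedAddCommGroup
  AddSubgroup.normedAddCommGroup SubringClass.nonUnitalSubringClass Subalgebra.toRing
  Subalgebra.toCommRing

section
variable {G : AffGrp} {K W X : Type} [Field K] [Algebra ℂ K] [Group W] [Fintype W]
  [MulSemiringAction W K] [SMulCommClass W ℂ K] [AddCommGroup X] [DistribMulAction W X]
variable {L : Type} [Finite L]

variable [DecidableEq L] {Q : TQD G K W X}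

/-- `B` is the ring of families of genus `g` and signs `ε` -/
structure RP (Q : TQD G K W X) (g : ℕ) (ε : L → Bool) (B : Type) [CommRing B] [Algebra ℂ B] where
  i : B →ₐ[ℂ] RR G K X L
  inj : Function.Injective i
  fam : ∀ b, Q.Fam g ε (i b)
  ex : ∀ F, Q.Fam g ε F → ∃ b, i b = F

namespace RP
variable {g : ℕ} {ε : L → Bool} {B : Type} [CommRing B] [Algebra ℂ B] (P : RP Q g ε B)

/-- the element of `B` given by a family -/
noncomputable def el (F : RR G K X L) (h : Q.Fam g ε F) : B := (P.ex F h).choose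

theorem i_el (F : RR G K X L) (h : Q.Fam g ε F) : P.i (P.el F h) = F := (P.ex F h).choose_spec

/-- the action of `G^L` -/
noncomputable def act (x : L → G.X) : B →ₐ[ℂ] B where
  toFun b := P.el (gact x (P.i b)) (Fam_tr (P.fam b) x)
  map_one' := P.inj (by rw [i_el, map_one P.i, map_one])
  map_mul' a b := P.inj (by rw [i_el, map_mul P.i, map_mul, map_mul P.i, i_el, i_el])
  map_zero' := P.inj (by rw [i_el, map_zero P.i, map_zero])
  map_add' a b := P.inj (by rw [i_el, map_add P.i, map_add, map_add P.i, i_el, i_el])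
  commutes' c := P.inj (by
    rw [i_el, AlgHom.commutes P.i]
    exact ((gact x).restrictScalars ℂ).commutes c)

theorem i_act (x : L → G.X) (b : B) : P.i (P.act x b) = gact x (P.i b) := P.i_el _ (Fam_tr (P.fam b) x)

theorem act_mul (x y : L → G.X) (b : B) : P.act (x * y) b = P.act x (P.act y b) :=
  P.inj (by rw [i_act, i_act, i_act, gact_mul])

theorem act_one (b : B) : P.act 1 b = b := P.inj (by rw [i_act, gact_one])

/-- the moment map of the leg `l` -/
noncomputable def mom (hT : TQ Q) (l : L) (lam : Module.Dual ℂ G.Lie) : B := P.el (momF Q l lam) (Fam_mom hT g ε l lam)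

theorem i_mom (hT : TQ Q) (l : L) (lam : Module.Dual ℂ G.Lie) : P.i (P.mom hT l lam) = momF Q l lam := P.i_el _ _

end RP

/-- the point of `G^(Option L)` with coordinate `x` at `none` and `1` elsewhere -/
def pt1 (x : G.X) : Option L → G.X := optP x 1

/-- the point of `G^(Option (Option L))` with coordinate `x` at `none` and at `some none` and `1` elsewhere -/
def pt2 (x : G.X) : Option (Option L) → G.X := optP x (optP x 1)

theorem pt1_one : (pt1 1 : Option L → G.X) = 1 := by
  funext o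
  cases o <;> rfl

theorem pt1_mul (x y : G.X) : (pt1 (x * y) : Option L → G.X) = pt1 x * pt1 y := by
  funext o
  cases o with
  | none => rfl
  | some l => exact (mul_one 1).symm

theorem pt2_one : (pt2 1 : Option (Option L) → G.X) = 1 := by
  funext o
  cases o with
  | none => rfl
  | some o => cases o <;> rfl

theorem pt2_mul (x y : G.X) : (pt2 (x * y) : Option (Option L) → G.X) = pt2 x * pt2 y := by
  funext o
  cases o with
  | none => rfl
  | some o =>
    cases o with
    | none => rfl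
    | some l => exact (mul_one 1).symm

section one
variable {g : ℕ} {b : Bool} {ε : L → Bool} {B : Type} [CommRing B] [Algebra ℂ B]

/-- the action of `G` in the leg `none` as a homomorphism -/
noncomputable def RP.act1 (P : RP Q g (optS b ε) B) : G.X →* Module.End ℂ B where
  toFun x := (P.act (pt1 x)).toLinearMap
  map_one' := LinearMap.ext fun F => by
    show P.act (pt1 1) F = F
    rw [pt1_one, P.act_one]
  map_mul' x y := LinearMap.ext fun F => by
    show P.act (pt1 (x * y)) F = P.act (pt1 x) (P.act (pt1 y) F)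
    rw [pt1_mul, P.act_mul]

theorem RP.act1_apply (P : RP Q g (optS b ε) B) (x : G.X) (F : B) : P.act1 x F = P.act (pt1 x) F := rfl

/-- `ρ(k) φ` in `B` -/
noncomputable def RP.indB (P : RP Q g (optS true ε) B) (E : Rep G) (a : E.ι) : F1 Q g ε E →+ B where
  toFun φ := P.el (ind E φ.1 a) (Fam_ind φ.2 a)
  map_zero' := P.inj (by
    rw [P.i_el, map_zero P.i]
    show ind E 0 a = 0
    unfold ind
    simp)
  map_add' φ ψ := P.inj (by
    rw [P.i_el, map_add P.i, P.i_el, P.i_el]
    exact ind_add E φ.1 ψ.1 a)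

theorem RP.i_indB (P : RP Q g (optS true ε) B) (E : Rep G) (a : E.ι) (φ : F1 Q g ε E) :
    P.i (P.indB E a φ) = ind E φ.1 a := P.i_el _ (Fam_ind φ.2 a)

/-- `ρ^*(k) φ` in `B` -/
noncomputable def RP.indB' (P : RP Q g (optS false ε) B) (E : Rep G) (a : E.ι) : F1' Q g ε E →+ B where
  toFun φ := P.el (ind' E φ.1 a) (Fam_ind' φ.2 a)
  map_zero' := P.inj (by
    rw [P.i_el, map_zero P.i]
    show ind' E 0 a = 0
    unfold ind'
    simp)
  map_add' φ ψ := P.inj (by
    rw [P.i_el, map_add P.i, P.i_el, P.i_el]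
    exact ind'_add E φ.1 ψ.1 a)

theorem RP.i_indB' (P : RP Q g (optS false ε) B) (E : Rep G) (a : E.ι) (φ : F1' Q g ε E) :
    P.i (P.indB' E a φ) = ind' E φ.1 a := P.i_el _ (Fam_ind' φ.2 a)

end one

/-! ### two legs in different components -/

section T1
variable {L' : Type} [Finite L'] [DecidableEq L'] {g g' : ℕ} {ε : L → Bool} {ε' : L' → Bool}
  {B B' : Type} [CommRing B] [Algebra ℂ B] [CommRing B'] [Algebra ℂ B']
  (hT : TQ Q) (P : RP Q g (optS true ε) B) (P' : RP Q g' (optS false ε') B')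

/-- the diagonal action of `G` -/
noncomputable def actT (x : G.X) : B ⊗[ℂ] B' →ₐ[ℂ] B ⊗[ℂ] B' :=
  Algebra.TensorProduct.map (P.act (pt1 x)) (P'.act (pt1 x))

/-- the moment ideal -/
noncomputable def IT : Ideal (B ⊗[ℂ] B') :=
  Ideal.span (Set.range fun D : G.Lie =>
    P.mom hT none (killD G D) ⊗ₜ[ℂ] (1 : B') - (1 : B) ⊗ₜ[ℂ] P'.mom hT none (killD G D))

/-- `φ . φ' = ∑ (ρ(k) φ)_a ⊗ (ρ^*(k') φ')_a` -/
noncomputable def dot (E : Rep G) : F1 Q g ε E →+ F1' Q g' ε' E →+ B ⊗[ℂ] B' where
  toFun φ :=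
    { toFun := fun φ' => ∑ a, P.indB E a φ ⊗ₜ[ℂ] P'.indB' E a φ'
      map_zero' := by simp
      map_add' := fun ψ ψ' => by simp [TensorProduct.tmul_add, Finset.sum_add_distrib] }
  map_zero' := by
    apply AddMonoidHom.ext
    intro ψ
    show ∑ a, P.indB E a 0 ⊗ₜ[ℂ] P'.indB' E a ψ = 0
    simp
  map_add' φ φ' := by
    apply AddMonoidHom.ext
    intro ψ
    show ∑ a, P.indB E a (φ + φ') ⊗ₜ[ℂ] P'.indB' E a ψ =
      ∑ a, P.indB E a φ ⊗ₜ[ℂ] P'.indB' E a ψ + ∑ a, P.indB E a φ' ⊗ₜ[ℂ] P'.indB' E a ψ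
    simp [TensorProduct.add_tmul, Finset.sum_add_distrib]

theorem dot_apply (E : Rep G) (φ : F1 Q g ε E) (φ' : F1' Q g' ε' E) :
    dot P P' E φ φ' = ∑ a, P.indB E a φ ⊗ₜ[ℂ] P'.indB' E a φ' := rfl

/-- `F ⊗ F' ↦ (F_m|_{k=1} F'_{m'}|_{k'=1})` -/
noncomputable def Ph2 : B ⊗[ℂ] B' →ₐ[ℂ] AddMonoidAlgebra ((G.pow (L ⊕ L')).KO K) (X × X) :=
  Algebra.TensorProduct.productMap ((jL G K X L L').comp P.i) ((jR G K X L L').comp P'.i)

/-- the diagonal part -/
noncomputable def dgn (R X : Type) [CommRing R] [AddCommGroup X] : AddMonoidAlgebra R (X × X) →ₗ[R] AddMonoidAlgebra R X where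
  toFun F := AddMonoidAlgebra.ofCoeff (F.coeff.comapDomain (fun m => (m, m)) (fun a _ b _ h => (Prod.ext_iff.1 h).1))
  map_add' F F' := by
    apply AddMonoidAlgebra.coeff_injective
    ext m
    rfl
  map_smul' c F := by
    apply AddMonoidAlgebra.coeff_injective
    ext m
    rfl

theorem coeff_dgn {R X : Type} [CommRing R] [AddCommGroup X] (F : AddMonoidAlgebra R (X × X)) (m : X) :
    (dgn R X F).coeff m = F.coeff (m, m) := rfl

theorem Ph2_tmul (F : B) (F' : B') (m m' : X) :
    (Ph2 P P' (F ⊗ₜ F')).coeff (m, m') =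
      pb K Sum.inl (ev1 K ((P.i F).coeff m)) * pb K Sum.inr (ev1 K ((P'.i F').coeff m')) := by
  unfold Ph2
  rw [Algebra.TensorProduct.productMap_apply_tmul]
  exact coeff_jj _ _ m m'

/-- the diagonal action as a homomorphism -/
noncomputable def actTH : G.X →* Module.End ℂ (B ⊗[ℂ] B') where
  toFun x := (actT P P' x).toLinearMap
  map_one' := TensorProduct.ext' fun F F' => by
    show P.act (pt1 1) F ⊗ₜ[ℂ] P'.act (pt1 1) F' = F ⊗ₜ[ℂ] F'
    rw [pt1_one, pt1_one, P.act_one, P'.act_one]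
  map_mul' x y := TensorProduct.ext' fun F F' => by
    show P.act (pt1 (x * y)) F ⊗ₜ[ℂ] P'.act (pt1 (x * y)) F' =
      P.act (pt1 x) (P.act (pt1 y) F) ⊗ₜ[ℂ] P'.act (pt1 x) (P'.act (pt1 y) F')
    rw [pt1_mul, pt1_mul, P.act_mul, P'.act_mul]

theorem actTH_apply (x : G.X) (z : B ⊗[ℂ] B') : actTH P P' x z = actT P P' x z := rfl

theorem actT_tmul (x : G.X) (F : B) (F' : B') :
    actT P P' x (F ⊗ₜ[ℂ] F') = P.act (pt1 x) F ⊗ₜ[ℂ] P'.act (pt1 x) F' := rfl

end T1

/-! ### two legs in the same component -/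

section T2
variable {g : ℕ} {ε : L → Bool} {B : Type} [CommRing B] [Algebra ℂ B]
  (hT : TQ Q) (P : RP Q g (optS true (optS false ε)) B)

/-- the moment ideal -/
noncomputable def ID : Ideal B :=
  Ideal.span (Set.range fun D : G.Lie => P.mom hT none (killD G D) - P.mom hT (some none) (killD G D))

/-- `ρ(k) Ψ ρ'(k')⁻¹` as a matrix in `B` -/
noncomputable def indM (E E' : Rep G) (a : E.ι) (c : E'.ι) : F2 Q g ε E E' →+ B where
  toFun Ψ := P.el (ind2m E E' Ψ.1 a c) (Fam_ind2m Ψ.2 a c)
  map_zero' := P.inj (by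
    rw [P.i_el, map_zero P.i]
    show ind2m E E' 0 a c = 0
    unfold ind2m
    simp)
  map_add' φ ψ := P.inj (by
    rw [P.i_el, map_add P.i, P.i_el, P.i_el]
    exact ind2m_add E E' φ.1 ψ.1 a c)

theorem i_indM (E E' : Rep G) (a : E.ι) (c : E'.ι) (Ψ : F2 Q g ε E E') :
    P.i (indM P E E' a c Ψ) = ind2m E E' Ψ.1 a c := P.i_el _ (Fam_ind2m Ψ.2 a c)

/-- `Tr (ρ(k) Ψ ρ(k')⁻¹)` -/
noncomputable def indT (E : Rep G) : F2 Q g ε E E →+ B := ∑ a, indM P E E a a

theorem indT_apply (E : Rep G) (Ψ : F2 Q g ε E E) : indT P E Ψ = ∑ a, indM P E E a a Ψ := by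
  unfold indT
  rw [AddMonoidHom.finsetSum_apply]

/-- restriction to `k = k' = 1` -/
noncomputable def Ph : B →ₐ[ℂ] RR G K X L :=
  ((fm X ((ev1 K).comp (ev1 K))).restrictScalars ℂ).comp P.i

theorem Ph_coeff (F : B) (m : X) : (Ph P F).coeff m = ev1 K (ev1 K ((P.i F).coeff m)) := coeff_fm _ _ _

/-- the diagonal action of `G` as a homomorphism -/
noncomputable def actDH : G.X →* Module.End ℂ B where
  toFun x := (P.act (pt2 x)).toLinearMap
  map_one' := LinearMap.ext fun F => by
    show P.act (pt2 1) F = F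
    rw [pt2_one, P.act_one]
  map_mul' x y := LinearMap.ext fun F => by
    show P.act (pt2 (x * y)) F = P.act (pt2 x) (P.act (pt2 y) F)
    rw [pt2_mul, P.act_mul]

theorem actDH_apply (x : G.X) (z : B) : actDH P x z = P.act (pt2 x) z := rfl

end T2

end

end Pool.Agent.MTF
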