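import Pool.Agent.MTF.C6a
import Pool.Agent.MTF.C2D

/-!
# MTF : part C, extension of `Hom_J(E, E')` to polynomial maps
-/

set_option linter.unusedSectionVars false

namespace Pool.Agent.MTF

open AffGrp

section
variable {G : AffGrp} {K W X : Type} [Field K] [Algebra ℂ K] [Group W] [Fintype W]
  [MulSemiringAction W K] [SMulCommClass W ℂ K] [AddCommGroup X] [DistribMulAction W X]
variable {Q : TQD G K W X}

/-- the polynomial identity -/
theorem c6b_poly {E E' : Rep G} {r : ℕ} (D : Module.Basis (Fin r) ℂ G.Lie)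
    (p₀ : (E.hom E').ι → MvPolynomial (Fin r) ℂ) (x : G.X)
    (h : ∀ (y : Fin r → ℂ) (a : (E.hom E').ι),
      MvPolynomial.eval (fun i => D.repr (G.Ad x (∑ j, y j • D j)) i) (p₀ a) =
        ∑ b, (E.hom E').ρ x a b * MvPolynomial.eval y (p₀ b)) (a : E'.ι) (b : E.ι) :
    ∑ d, MvPolynomial.bind₁ (fun i => ∑ j, MvPolynomial.C (D.repr (G.Ad x (D j)) i) *
        MvPolynomial.X j) (p₀ (a, d)) * MvPolynomial.C (E.ρ x d b) =
      ∑ c, MvPolynomial.C (E'.ρ x a c) * p₀ (c, b) := by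
  apply MvPolynomial.funext
  intro y
  rw [map_sum, map_sum]
  have h1 : ∀ d : E.ι, MvPolynomial.eval y (MvPolynomial.bind₁ (fun i => ∑ j,
      MvPolynomial.C (D.repr (G.Ad x (D j)) i) * MvPolynomial.X j) (p₀ (a, d))) =
      ∑ c, ∑ d', E'.ρ x a c * E.ρ x⁻¹ d' d * MvPolynomial.eval y (p₀ (c, d')) := by
    intro d
    have h2 : MvPolynomial.eval y (MvPolynomial.bind₁ (fun i => ∑ j,
      MvPolynomial.C (D.repr (G.Ad x (D j)) i) * MvPolynomial.X j) (p₀ (a, d))) =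
        MvPolynomial.eval (fun i => MvPolynomial.eval y (∑ j,
      MvPolynomial.C (D.repr (G.Ad x (D j)) i) * MvPolynomial.X j)) (p₀ (a, d)) :=
      MvPolynomial.eval₂Hom_bind₁ (RingHom.id ℂ) y _ _
    have h3 : (fun i => MvPolynomial.eval y (∑ j,
        MvPolynomial.C (D.repr (G.Ad x (D j)) i) * MvPolynomial.X j)) =
        fun i => D.repr (G.Ad x (∑ j, y j • D j)) i := by
      funext i
      rw [map_sum, map_sum, map_sum, Finsupp.finsetSum_apply]
      refine Finset.sum_congr rfl fun j _ => ?_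
      rw [map_mul, MvPolynomial.eval_C, MvPolynomial.eval_X, map_smul, map_smul,
        Finsupp.smul_apply, smul_eq_mul, mul_comm]
    rw [h2, h3, h y (a, d)]
    have h4 : ∀ F : E'.ι × E.ι → ℂ, (∑ b : (E.hom E').ι, F b) = ∑ c, ∑ d', F (c, d') :=
      fun F => Fintype.sum_prod_type F
    rw [h4]
    rfl
  have h5 : ∀ d : E.ι, MvPolynomial.eval y (MvPolynomial.bind₁ (fun i => ∑ j,
      MvPolynomial.C (D.repr (G.Ad x (D j)) i) * MvPolynomial.X j) (p₀ (a, d)) *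
        MvPolynomial.C (E.ρ x d b)) =
      ∑ c, ∑ d', (E'.ρ x a c * MvPolynomial.eval y (p₀ (c, d'))) * (E.ρ x⁻¹ d' d * E.ρ x d b) := by
    intro d
    rw [map_mul, h1 d, MvPolynomial.eval_C, Finset.sum_mul]
    refine Finset.sum_congr rfl fun c _ => ?_
    rw [Finset.sum_mul]
    refine Finset.sum_congr rfl fun d' _ => ?_
    ring
  rw [Finset.sum_congr rfl (fun d _ => h5 d), Finset.sum_comm]
  refine Finset.sum_congr rfl fun c _ => ?_
  rw [Finset.sum_comm]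
  have h6 : ∀ d' : E.ι, ∑ d, (E'.ρ x a c * MvPolynomial.eval y (p₀ (c, d'))) *
      (E.ρ x⁻¹ d' d * E.ρ x d b) =
      if d' = b then E'.ρ x a c * MvPolynomial.eval y (p₀ (c, d')) else 0 := by
    intro d'
    rw [← Finset.mul_sum, Rep.inv_mul]
    split_ifs
    · rw [mul_one]
    · rw [mul_zero]
  rw [Finset.sum_congr rfl (fun d' _ => h6 d'), Finset.sum_ite_eq' Finset.univ b,
    if_pos (Finset.mem_univ b), map_mul, MvPolynomial.eval_C]

/-- [C6b] Extension of `T` to an equivariant polynomial map. PROOF. `hT.ext (E.hom E') (fun p => T p.1 p.2)` with `h.mem`, `h.inv`, `hom_sE h` gives `p₀ : E'.ι × E.ι → MvPolynomial _ ℂ` with `aeval Q.c (p₀ (a, b)) = T a b` and, for `g` and complex `y`, `eval (repr (Ad g (∑ y j • D j))) (p₀ (a, b)) = ∑ (c, d), E'.ρ g a c * E.ρ g⁻¹ d b * eval y (p₀ (c, d))`.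
Multiply with `E.ρ g b b'` and sum over `b` (`Rep.inv_mul`): `∑ b, eval (..) (p₀ (a, b)) * E.ρ g b b' = ∑ c, E'.ρ g a c * eval y (p₀ (c, b'))` for all `y`. Here `repr (Ad g (∑ j, y j • D j)) i = ∑ j, y j * repr (Ad g (D j)) i` is linear in `y`, so both sides are evaluations at `y` of the polynomials `∑ b, bind₁ (fun i => ∑ j, C (coord i (Ad g (D j))) * X j) (p₀ (a, b)) * C (E.ρ g b b')`
and `∑ c, C (E'.ρ g a c) * p₀ (c, b')`; they are equal by `MvPolynomial.funext`. Apply `aeval Q.c` (`MvPolynomial.aeval_bind₁`, `aeval_C`, `aeval_X`) and `mom1_apply` (`Q.D.coord i v = Q.D.repr v i`). -/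
theorem homExt (hT : TQ Q) {E E' : Rep G} {T : Matrix E'.ι E.ι K} (h : Q.HomJ E E' T) :
    ∃ p : E'.ι → E.ι → MvPolynomial (Fin Q.r) ℂ, ∀ (x : G.X) (a : E'.ι) (b : E.ι),
      ∑ d, MvPolynomial.aeval (fun i => (mom1 Q (Q.D.coord i)).1 x) (p a d) * algebraMap ℂ K (E.ρ x d b) =
        ∑ c, algebraMap ℂ K (E'.ρ x a c) * T c b := by
  obtain ⟨p₀, h1, h2⟩ := hT.ext (E.hom E') (fun p => T p.1 p.2) (fun p => h.mem p.1 p.2)
    (fun w p => h.inv w p.1 p.2) (hom_sE h)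
  refine ⟨fun a d => p₀ (a, d), fun x a b => ?_⟩
  have h3 := congrArg (MvPolynomial.aeval Q.c) (c6b_poly Q.D p₀ x (fun y a => h2 x y a) a b)
  rw [map_sum, map_sum] at h3
  have h4 : ∀ d : E.ι, MvPolynomial.aeval Q.c (MvPolynomial.bind₁ (fun i => ∑ j,
      MvPolynomial.C (Q.D.repr (G.Ad x (Q.D j)) i) * MvPolynomial.X j) (p₀ (a, d)) *
        MvPolynomial.C (E.ρ x d b)) =
      MvPolynomial.aeval (fun i => (mom1 Q (Q.D.coord i)).1 x) (p₀ (a, d)) *
        algebraMap ℂ K (E.ρ x d b) := by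
    intro d
    rw [map_mul, MvPolynomial.aeval_bind₁, MvPolynomial.aeval_C]
    congr 3
    funext i
    rw [mom1_apply, map_sum]
    refine Finset.sum_congr rfl fun j _ => ?_
    rw [map_mul, MvPolynomial.aeval_C, MvPolynomial.aeval_X, mul_comm]
    rfl
  have h5 : ∀ c : E'.ι, MvPolynomial.aeval Q.c (MvPolynomial.C (E'.ρ x a c) * p₀ (c, b)) =
      algebraMap ℂ K (E'.ρ x a c) * T c b := by
    intro c
    have h6 : MvPolynomial.aeval Q.c (p₀ (c, b)) = T c b := h1 (c, b)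
    rw [map_mul, MvPolynomial.aeval_C, h6]
  rw [Finset.sum_congr rfl (fun d _ => h4 d), Finset.sum_congr rfl (fun c _ => h5 c)] at h3
  exact h3

/-- [C6b2] The same with the inverse matrices. PROOF. Matrix identity of `homExt`: `p̃ ρ(x) = ρ'(x) T`; multiply with `ρ'(x⁻¹)` on the left and `ρ(x⁻¹)` on the right: `ρ'(x⁻¹) p̃ = T ρ(x⁻¹)`. In coordinates: multiply the hypothesis (for `a`, `b`) by `algebraMap (E'.ρ x⁻¹ c a)` and `algebraMap (E.ρ x⁻¹ b b')`, sum over `a` and `b`, `Rep.inv_mul` for `E'`, `Rep.mul_inv` for `E`. -/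
theorem homExt' {E E' : Rep G} {T : Matrix E'.ι E.ι K} (x : G.X) (q : E'.ι → E.ι → K)
    (hq : ∀ (a : E'.ι) (b : E.ι), ∑ d, q a d * algebraMap ℂ K (E.ρ x d b) = ∑ c, algebraMap ℂ K (E'.ρ x a c) * T c b)
    (c : E'.ι) (d : E.ι) :
    ∑ a, algebraMap ℂ K (E'.ρ x⁻¹ c a) * q a d = ∑ b, T c b * algebraMap ℂ K (E.ρ x⁻¹ b d) := by
  have h1 : (Matrix.of q) * (E.ρ x).map (algebraMap ℂ K) = (E'.ρ x).map (algebraMap ℂ K) * T := by
    ext a b
    rw [Matrix.mul_apply, Matrix.mul_apply]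
    exact hq a b
  have h2 : (E.ρ x).map (algebraMap ℂ K) * (E.ρ x⁻¹).map (algebraMap ℂ K) = 1 := by
    rw [← Matrix.map_mul, ← map_mul, mul_inv_cancel, map_one]
    exact Matrix.map_one _ (map_zero _) (map_one _)
  have h3 : (E'.ρ x⁻¹).map (algebraMap ℂ K) * (E'.ρ x).map (algebraMap ℂ K) = 1 := by
    rw [← Matrix.map_mul, ← map_mul, inv_mul_cancel, map_one]
    exact Matrix.map_one _ (map_zero _) (map_one _)
  have h4 : (E'.ρ x⁻¹).map (algebraMap ℂ K) * Matrix.of q =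
      T * (E.ρ x⁻¹).map (algebraMap ℂ K) := by
    calc (E'.ρ x⁻¹).map (algebraMap ℂ K) * Matrix.of q
        = (E'.ρ x⁻¹).map (algebraMap ℂ K) * (Matrix.of q * (E.ρ x).map (algebraMap ℂ K)) *
            (E.ρ x⁻¹).map (algebraMap ℂ K) := by
          rw [Matrix.mul_assoc, Matrix.mul_assoc, h2, Matrix.mul_one]
      _ = T * (E.ρ x⁻¹).map (algebraMap ℂ K) := by
          rw [h1, ← Matrix.mul_assoc, h3, Matrix.one_mul]
  have h5 := congrFun (congrFun h4 c) d
  rw [Matrix.mul_apply, Matrix.mul_apply] at h5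
  exact h5

end

end Pool.Agent.MTF
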