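import Pool.Agent.MTF.C5
import Pool.Agent.MTF.C6b

/-!
# MTF : part C, `Hom_J` acting on bundled families
-/

set_option linter.unusedSectionVars false

namespace Pool.Agent.MTF

open AffGrp TensorProduct

theorem aeval_sub_mem {R σ : Type} [CommRing R] [Algebra ℂ R] (I : Ideal R) (x y : σ → R) (h : ∀ i, x i - y i ∈ I)
    (p : MvPolynomial σ ℂ) : MvPolynomial.aeval x p - MvPolynomial.aeval y p ∈ I := by
  induction p using MvPolynomial.induction_on with
  | C a => simp
  | add p q hp hq =>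
    rw [map_add, map_add, add_sub_add_comm]
    exact I.add_mem hp hq
  | mul_X p i hp =>
    rw [map_mul, map_mul, MvPolynomial.aeval_X, MvPolynomial.aeval_X]
    have h1 : MvPolynomial.aeval x p * x i - MvPolynomial.aeval y p * y i =
        (MvPolynomial.aeval x p - MvPolynomial.aeval y p) * x i + MvPolynomial.aeval y p * (x i - y i) := by ring
    rw [h1]
    exact I.add_mem (I.mul_mem_right _ hp) (I.mul_mem_left _ (h i))

attribute [-instance] RingConeClass.toSubsemiringClass SubringClass.toSubsemiringClass NormedAlgebra.toAlgebra NormedSpace.toModule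

theorem c6ds_zero {K M ι : Type} [Semiring K] [AddCommMonoid M] [Module K M] [Fintype ι] (T : ι → K) :
    ∑ b, T b • (0 : M) = 0 := by
  simp only [smul_zero, Finset.sum_const_zero]

theorem c6ds_add {K M ι : Type} [Semiring K] [AddCommMonoid M] [Module K M] [Fintype ι] (T : ι → K) (f g : ι → M) :
    ∑ b, T b • (f b + g b) = ∑ b, T b • f b + ∑ b, T b • g b := by
  simp only [smul_add, Finset.sum_add_distrib]

section
variable {G : AffGrp} {K W X : Type} [Field K] [Algebra ℂ K] [Group W] [Fintype W]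
  [MulSemiringAction W K] [SMulCommClass W ℂ K] [AddCommGroup X] [DistribMulAction W X]
variable {L : Type} [Finite L] [DecidableEq L] {Q : TQD G K W X} {g : ℕ} {ε : L → Bool}

/-- `φ ↦ T φ` -/
noncomputable def act1 {E E' : Rep G} {T : Matrix E'.ι E.ι K} (h : Q.HomJ E E' T) : F1 Q g ε E →+ F1 Q g ε E' where
  toFun φ := ⟨fun a => ∑ b, T a b • φ.1 b, Fam1_act φ.2 h⟩
  map_zero' := Subtype.ext (funext fun a => c6ds_zero (T a))
  map_add' φ ψ := Subtype.ext (funext fun a => c6ds_add (T a) φ.1 ψ.1)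

theorem act1_apply {E E' : Rep G} {T : Matrix E'.ι E.ι K} (h : Q.HomJ E E' T) (φ : F1 Q g ε E) (a : E'.ι) :
    (act1 h φ).1 a = ∑ b, T a b • φ.1 b := rfl

/-- `φ' ↦ T^t φ'` -/
noncomputable def act1' {E E' : Rep G} {T : Matrix E'.ι E.ι K} (h : Q.HomJ E E' T) : F1' Q g ε E' →+ F1' Q g ε E where
  toFun φ := ⟨fun b => ∑ a, T a b • φ.1 a, Fam1'_act φ.2 h⟩
  map_zero' := Subtype.ext (funext fun b => c6ds_zero (fun a => T a b))
  map_add' φ ψ := Subtype.ext (funext fun b => c6ds_add (fun a => T a b) φ.1 ψ.1)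

theorem act1'_apply {E E' : Rep G} {T : Matrix E'.ι E.ι K} (h : Q.HomJ E E' T) (φ : F1' Q g ε E') (b : E.ι) :
    (act1' h φ).1 b = ∑ a, T a b • φ.1 a := rfl

/-- `Ψ ↦ T Ψ` -/
noncomputable def act2L {E E₁ : Rep G} {T : Matrix E₁.ι E.ι K} (h : Q.HomJ E E₁ T) (E' : Rep G) :
    F2 Q g ε E E' →+ F2 Q g ε E₁ E' where
  toFun φ := ⟨fun a a' => ∑ b, T a b • φ.1 b a', Fam2_actL φ.2 h⟩
  map_zero' := Subtype.ext (funext fun a => funext fun _ => c6ds_zero (T a))
  map_add' φ ψ := Subtype.ext (funext fun a => funext fun a' => c6ds_add (T a) (fun b => φ.1 b a') (fun b => ψ.1 b a'))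

theorem act2L_apply {E E₁ : Rep G} {T : Matrix E₁.ι E.ι K} (h : Q.HomJ E E₁ T) (E' : Rep G) (φ : F2 Q g ε E E')
    (a : E₁.ι) (a' : E'.ι) : (act2L h E' φ).1 a a' = ∑ b, T a b • φ.1 b a' := rfl

/-- `Ψ ↦ Ψ T` -/
noncomputable def act2R {E' E₁ : Rep G} {T : Matrix E'.ι E₁.ι K} (h : Q.HomJ E₁ E' T) (E : Rep G) :
    F2 Q g ε E E' →+ F2 Q g ε E E₁ where
  toFun φ := ⟨fun a b => ∑ a', T a' b • φ.1 a a', Fam2_actR φ.2 h⟩
  map_zero' := Subtype.ext (funext fun _ => funext fun b => c6ds_zero (fun a' => T a' b))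
  map_add' φ ψ := Subtype.ext (funext fun a => funext fun b => c6ds_add (fun a' => T a' b) (φ.1 a) (ψ.1 a))

theorem act2R_apply {E' E₁ : Rep G} {T : Matrix E'.ι E₁.ι K} (h : Q.HomJ E₁ E' T) (E : Rep G) (φ : F2 Q g ε E E')
    (a : E.ι) (b : E₁.ι) : (act2R h E φ).1 a b = ∑ a', T a' b • φ.1 a a' := rfl

end

section
variable {G : AffGrp} {K W X : Type} [Field K] [Algebra ℂ K] [Group W] [Fintype W]
  [MulSemiringAction W K] [SMulCommClass W ℂ K] [AddCommGroup X] [DistribMulAction W X]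
variable {L : Type} [Finite L] [DecidableEq L] {Q : TQD G K W X} {g : ℕ} {ε : L → Bool}
  {B : Type} [CommRing B] [Algebra ℂ B]

/-- values of polynomials in the moment map of a leg -/
theorem i_aeval (hT : TQ Q) (P : RP Q g ε B) (l : L) (p : MvPolynomial (Fin Q.r) ℂ) :
    P.i (MvPolynomial.aeval (fun i => P.mom hT l (Q.D.coord i)) p) =
      AddMonoidAlgebra.single 0 (MvPolynomial.aeval (fun i => momO Q l (Q.D.coord i)) p) := by
  induction p using MvPolynomial.induction_on with
  | C a =>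
    rw [MvPolynomial.aeval_C, MvPolynomial.aeval_C, AlgHom.commutes P.i]
    rfl
  | add p q hp hq =>
    rw [map_add, map_add, map_add, hp, hq, ← AddMonoidAlgebra.single_add]
  | mul_X p i hp =>
    rw [map_mul, map_mul, map_mul, hp, MvPolynomial.aeval_X, MvPolynomial.aeval_X, P.i_mom, momF_apply,
      AddMonoidAlgebra.single_mul_single, add_zero]

/-- the value at a point of a polynomial in functions -/
theorem aeval_momO (l : L) (p : MvPolynomial (Fin Q.r) ℂ) (k : L → G.X) :
    (MvPolynomial.aeval (fun i => momO Q l (Q.D.coord i)) p : (G.pow L).KO K).1 k =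
      MvPolynomial.aeval (fun i => (mom1 Q (Q.D.coord i)).1 (k l)) p := by
  induction p using MvPolynomial.induction_on with
  | C a =>
    rw [MvPolynomial.aeval_C, MvPolynomial.aeval_C]
    rfl
  | add p q hp hq =>
    rw [map_add, map_add, KO_add, hp, hq]
  | mul_X p i hp =>
    rw [map_mul, map_mul, KO_mul, hp, MvPolynomial.aeval_X, MvPolynomial.aeval_X]
    rfl

end

end Pool.Agent.MTF
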