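import Pool.Agent.MTF.C6D

/-!
# MTF : part C, `T` acts through the moment map
-/

set_option linter.unusedSectionVars false

namespace Pool.Agent.MTF

open AffGrp TensorProduct

section
variable {G : AffGrp} {K W X : Type} [Field K] [Algebra ℂ K] [Group W] [Fintype W]
  [MulSemiringAction W K] [SMulCommClass W ℂ K] [AddCommGroup X] [DistribMulAction W X]
variable {L : Type} [Finite L] [DecidableEq L] {Q : TQD G K W X} {g : ℕ} {ε : L → Bool}
  {B : Type} [CommRing B] [Algebra ℂ B]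

theorem c6c_coeff {L : Type} [Finite L] {ι : Type} [Fintype ι] (f : ι → (G.pow L).KO K)
    (F : ι → RR G K X L) (m : X) (k : L → G.X) :
    ((∑ d, (AddMonoidAlgebra.single 0 (f d) : RR G K X L) * F d).coeff m).1 k =
      ∑ d, (f d).1 k * ((F d).coeff m).1 k := by
  rw [AddMonoidAlgebra.coeff_sum, Finsupp.finsetSum_apply, KO_sum]
  refine Finset.sum_congr rfl fun d _ => ?_
  rw [AddMonoidAlgebra.coeff_single_zero_mul]
  rfl

theorem c6c_smul {L : Type} [Finite L] {ι : Type} [Fintype ι] (t : ι → K)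
    (F : ι → RR G K X L) (m : X) (k : L → G.X) :
    ((∑ d, t d • F d).coeff m).1 k = ∑ d, t d * ((F d).coeff m).1 k := by
  rw [AddMonoidAlgebra.coeff_sum, Finsupp.finsetSum_apply, KO_sum]
  refine Finset.sum_congr rfl fun d _ => ?_
  rw [AddMonoidAlgebra.coeff_smul_apply]
  rfl

/-- [C6c] PROOF. `P.inj`; `P.i` of both sides (`P.i_indB`, `map_sum`, `map_mul P.i`, `i_aeval`), then `RR_ext`: at degree `m` and point `k`, with `x := k none`. Left: `ind_coeff` and `act1_apply`: `∑ b, ρ'(x) a b * ∑ c, T b c * φ_c`. Right: `(single 0 f * F).coeff m = f * F.coeff m` (`AddMonoidAlgebra.single_zero_mul_apply`-like), `aeval_momO`, `ind_coeff`: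
`∑ d, aeval (..) (p a d) * ∑ c, ρ(x) d c * φ_c`, where `φ_c := ((φ.1 c).coeff m).1 (k ∘ some)`. Exchange the sums and use `hp x a c` for every `c`. -/
theorem indB_act (hT : TQ Q) (P : RP Q g (optS true ε) B) {E E' : Rep G} {T : Matrix E'.ι E.ι K}
    (h : Q.HomJ E E' T) (p : E'.ι → E.ι → MvPolynomial (Fin Q.r) ℂ)
    (hp : ∀ (x : G.X) (a : E'.ι) (b : E.ι),
      ∑ d, MvPolynomial.aeval (fun i => (mom1 Q (Q.D.coord i)).1 x) (p a d) * algebraMap ℂ K (E.ρ x d b) =
        ∑ c, algebraMap ℂ K (E'.ρ x a c) * T c b) (φ : F1 Q g ε E) (a : E'.ι) :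
    P.indB E' a (act1 h φ) =
      ∑ d, MvPolynomial.aeval (fun i => P.mom hT none (Q.D.coord i)) (p a d) * P.indB E d φ := by
  apply P.inj
  rw [P.i_indB, map_sum]
  have h1 : ∀ d, P.i (MvPolynomial.aeval (fun i => P.mom hT none (Q.D.coord i)) (p a d) * P.indB E d φ) =
      AddMonoidAlgebra.single 0 (MvPolynomial.aeval (fun i => momO Q none (Q.D.coord i)) (p a d)) *
        ind E φ.1 d := by
    intro d
    rw [map_mul P.i, i_aeval hT, P.i_indB]
  rw [Finset.sum_congr rfl fun d _ => h1 d]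
  apply RR_ext
  intro m k
  rw [c6c_coeff, ind_coeff]
  have h2 : ∀ b, algebraMap ℂ K (E'.ρ (k none) a b) * (((act1 h φ).1 b).coeff m).1 (k ∘ some) =
      ∑ c, (algebraMap ℂ K (E'.ρ (k none) a b) * T b c) * ((φ.1 c).coeff m).1 (k ∘ some) := by
    intro b
    rw [act1_apply, c6c_smul, Finset.mul_sum]
    exact Finset.sum_congr rfl fun c _ => by ring
  have h3 : ∀ d, (MvPolynomial.aeval (fun i => momO Q none (Q.D.coord i)) (p a d) :
        (G.pow (Option L)).KO K).1 k * ((ind E φ.1 d).coeff m).1 k =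
      ∑ c, (MvPolynomial.aeval (fun i => (mom1 Q (Q.D.coord i)).1 (k none)) (p a d) *
        algebraMap ℂ K (E.ρ (k none) d c)) * ((φ.1 c).coeff m).1 (k ∘ some) := by
    intro d
    rw [aeval_momO, ind_coeff, Finset.mul_sum]
    exact Finset.sum_congr rfl fun c _ => by ring
  rw [Finset.sum_congr rfl fun b _ => h2 b, Finset.sum_congr rfl fun d _ => h3 d]
  refine Finset.sum_comm.trans (Eq.trans ?_ Finset.sum_comm)
  refine Finset.sum_congr rfl fun c _ => ?_
  rw [← Finset.sum_mul, ← Finset.sum_mul, hp]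

/-- [C6c2] PROOF. As `indB_act`, with `ind'_coeff`, `act1'_apply` and `homExt'` (for `q a d := aeval (fun i => (mom1 Q (coord i)).1 x) (p a d)`, `hq := hp x`): left `∑ b, ρ(x⁻¹) b d * ∑ c, T c b * φ_c`, right `∑ a, aeval (..) (p a d) * ∑ c, ρ'(x⁻¹) c a * φ_c`. -/
theorem indB'_act (hT : TQ Q) (P : RP Q g (optS false ε) B) {E E' : Rep G} {T : Matrix E'.ι E.ι K}
    (h : Q.HomJ E E' T) (p : E'.ι → E.ι → MvPolynomial (Fin Q.r) ℂ)
    (hp : ∀ (x : G.X) (a : E'.ι) (b : E.ι),
      ∑ d, MvPolynomial.aeval (fun i => (mom1 Q (Q.D.coord i)).1 x) (p a d) * algebraMap ℂ K (E.ρ x d b) =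
        ∑ c, algebraMap ℂ K (E'.ρ x a c) * T c b) (φ : F1' Q g ε E') (d : E.ι) :
    P.indB' E d (act1' h φ) =
      ∑ a, MvPolynomial.aeval (fun i => P.mom hT none (Q.D.coord i)) (p a d) * P.indB' E' a φ := by
  apply P.inj
  rw [P.i_indB', map_sum]
  have h1 : ∀ a, P.i (MvPolynomial.aeval (fun i => P.mom hT none (Q.D.coord i)) (p a d) * P.indB' E' a φ) =
      AddMonoidAlgebra.single 0 (MvPolynomial.aeval (fun i => momO Q none (Q.D.coord i)) (p a d)) *
        ind' E' φ.1 a := by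
    intro a
    rw [map_mul P.i, i_aeval hT, P.i_indB']
  rw [Finset.sum_congr rfl fun a _ => h1 a]
  apply RR_ext
  intro m k
  rw [c6c_coeff, ind'_coeff]
  have h2 : ∀ b, algebraMap ℂ K (E.ρ (k none)⁻¹ b d) * (((act1' h φ).1 b).coeff m).1 (k ∘ some) =
      ∑ c, (T c b * algebraMap ℂ K (E.ρ (k none)⁻¹ b d)) * ((φ.1 c).coeff m).1 (k ∘ some) := by
    intro b
    rw [act1'_apply, c6c_smul, Finset.mul_sum]
    exact Finset.sum_congr rfl fun c _ => by ring
  have h3 : ∀ a, (MvPolynomial.aeval (fun i => momO Q none (Q.D.coord i)) (p a d) :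
        (G.pow (Option L)).KO K).1 k * ((ind' E' φ.1 a).coeff m).1 k =
      ∑ c, (algebraMap ℂ K (E'.ρ (k none)⁻¹ c a) *
        MvPolynomial.aeval (fun i => (mom1 Q (Q.D.coord i)).1 (k none)) (p a d)) *
          ((φ.1 c).coeff m).1 (k ∘ some) := by
    intro a
    rw [aeval_momO, ind'_coeff, Finset.mul_sum]
    exact Finset.sum_congr rfl fun c _ => by ring
  rw [Finset.sum_congr rfl fun b _ => h2 b, Finset.sum_congr rfl fun a _ => h3 a]
  refine Finset.sum_comm.trans (Eq.trans ?_ Finset.sum_comm)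
  refine Finset.sum_congr rfl fun c _ => ?_
  rw [← Finset.sum_mul, ← Finset.sum_mul]
  congr 1
  exact (homExt' (k none) (fun a d => MvPolynomial.aeval
    (fun i => (mom1 Q (Q.D.coord i)).1 (k none)) (p a d)) (hp (k none)) c d).symm

end

end Pool.Agent.MTF
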