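import Pool.Agent.MTF.C6D

/-!
# MTF : part C, `T` acts through the moment map (two legs)
-/

set_option linter.unusedSectionVars false

namespace Pool.Agent.MTF

open AffGrp TensorProduct

section
variable {G : AffGrp} {K W X : Type} [Field K] [Algebra ℂ K] [Group W] [Fintype W]
  [MulSemiringAction W K] [SMulCommClass W ℂ K] [AddCommGroup X] [DistribMulAction W X]
variable {L : Type} [Finite L] [DecidableEq L] {Q : TQD G K W X} {g : ℕ} {ε : L → Bool}
  {B : Type} [CommRing B] [Algebra ℂ B]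

/-- evaluation of a combination with scalars in `K` -/
theorem c6e_coeff {ι : Type} [Fintype ι] {M : Type} [Finite M] (T : ι → K) (F : ι → RR G K X M) (m : X)
    (k : M → G.X) : ((∑ e, T e • F e).coeff m).1 k = ∑ e, T e * ((F e).coeff m).1 k := by
  rw [AddMonoidAlgebra.coeff_sum, Finsupp.finsetSum_apply, KO_sum]
  refine Finset.sum_congr rfl fun e _ => ?_
  rw [AddMonoidAlgebra.coeff_smul_apply, KO_smul]

/-- evaluation of a combination with coefficients in degree `0` -/
theorem c6e_coeff0 {ι : Type} [Fintype ι] {M : Type} [Finite M] (f : ι → (G.pow M).KO K) (F : ι → RR G K X M) (m : X)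
    (k : M → G.X) :
    ((∑ e, AddMonoidAlgebra.single 0 (f e) * F e : RR G K X M).coeff m).1 k = ∑ e, (f e).1 k * ((F e).coeff m).1 k := by
  rw [AddMonoidAlgebra.coeff_sum, Finsupp.finsetSum_apply, KO_sum]
  refine Finset.sum_congr rfl fun e _ => ?_
  rw [AddMonoidAlgebra.coeff_single_zero_mul, KO_mul]

/-- [C6e] PROOF. `P.inj`; `P.i` of both sides (`i_indM`, `map_sum`, `map_mul P.i`, `i_aeval`), then `RR_ext`: at degree `m` and point `k`, with `x := k none`, `x' := k (some none)`, `Ψ_bb' := ((Ψ.1 b b').coeff m).1 (fun l => k (some (some l)))`: by `ind2m_coeff` left is `∑ b b', ρ'(x) a b * ρ'(x'⁻¹) b' c * ∑ e, T b e * Ψ_eb'` and right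
(`(single 0 f * F).coeff m = f * F.coeff m`, `aeval_momO`) is `∑ d, aeval (..) (p a d) * ∑ e b', ρ(x) d e * ρ'(x'⁻¹) b' c * Ψ_eb'`. Use `hp x a e` for all `e`, `b'`. -/
theorem indM_actL (hT : TQ Q) (P : RP Q g (optS true (optS false ε)) B) {E E' : Rep G} {T : Matrix E'.ι E.ι K}
    (h : Q.HomJ E E' T) (p : E'.ι → E.ι → MvPolynomial (Fin Q.r) ℂ)
    (hp : ∀ (x : G.X) (a : E'.ι) (b : E.ι),
      ∑ d, MvPolynomial.aeval (fun i => (mom1 Q (Q.D.coord i)).1 x) (p a d) * algebraMap ℂ K (E.ρ x d b) =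
        ∑ c, algebraMap ℂ K (E'.ρ x a c) * T c b) (Ψ : F2 Q g ε E E') (a c : E'.ι) :
    indM P E' E' a c (act2L h E' Ψ) =
      ∑ d, MvPolynomial.aeval (fun i => P.mom hT none (Q.D.coord i)) (p a d) * indM P E E' d c Ψ := by
  apply P.inj
  rw [i_indM, map_sum]
  have h1 : ∀ d, P.i (MvPolynomial.aeval (fun i => P.mom hT none (Q.D.coord i)) (p a d) * indM P E E' d c Ψ) =
      AddMonoidAlgebra.single 0 (MvPolynomial.aeval (fun i => momO Q (none : Option (Option L)) (Q.D.coord i)) (p a d)) *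
        ind2m E E' Ψ.1 d c := by
    intro d
    rw [map_mul P.i, i_aeval, i_indM]
  rw [Finset.sum_congr rfl fun d _ => h1 d]
  apply RR_ext
  intro m k
  rw [c6e_coeff0, ind2m_coeff]
  have h2 : ∀ (b : E'.ι) (b' : E'.ι), (((act2L h E' Ψ).1 b b').coeff m).1 (fun l => k (some (some l))) =
      ∑ e, T b e * ((Ψ.1 e b').coeff m).1 (fun l => k (some (some l))) := by
    intro b b'
    rw [act2L_apply, c6e_coeff]
  have h3 : ∀ d, (MvPolynomial.aeval (fun i => momO Q (none : Option (Option L)) (Q.D.coord i)) (p a d) :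
      (G.pow (Option (Option L))).KO K).1 k =
      MvPolynomial.aeval (fun i => (mom1 Q (Q.D.coord i)).1 (k none)) (p a d) := fun d => aeval_momO _ _ _
  simp only [h2, h3, ind2m_coeff]
  have h4 := fun b => hp (k none) a b
  generalize hq : (fun d => MvPolynomial.aeval (fun i => (mom1 Q (Q.D.coord i)).1 (k none)) (p a d)) = q at h4
  have h5 : ∀ d, MvPolynomial.aeval (fun i => (mom1 Q (Q.D.coord i)).1 (k none)) (p a d) = q d := fun d => by
    rw [← hq]
  simp only [h5] at h4 ⊢
  calc ∑ b, ∑ b', algebraMap ℂ K (E'.ρ (k none) a b * E'.ρ (k (some none))⁻¹ b' c) *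
        ∑ e, T b e * ((Ψ.1 e b').coeff m).1 (fun l => k (some (some l)))
      = ∑ b', ∑ e, (∑ b, algebraMap ℂ K (E'.ρ (k none) a b) * T b e) *
          (algebraMap ℂ K (E'.ρ (k (some none))⁻¹ b' c) * ((Ψ.1 e b').coeff m).1 (fun l => k (some (some l)))) := by
        rw [Finset.sum_comm]
        refine Finset.sum_congr rfl fun b' _ => ?_
        simp only [Finset.mul_sum, Finset.sum_mul]
        rw [Finset.sum_comm]
        refine Finset.sum_congr rfl fun e _ => Finset.sum_congr rfl fun b _ => ?_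
        rw [map_mul]
        ring
    _ = ∑ b', ∑ e, (∑ d, q d * algebraMap ℂ K (E.ρ (k none) d e)) *
          (algebraMap ℂ K (E'.ρ (k (some none))⁻¹ b' c) * ((Ψ.1 e b').coeff m).1 (fun l => k (some (some l)))) := by
        refine Finset.sum_congr rfl fun b' _ => Finset.sum_congr rfl fun e _ => ?_
        rw [h4 e]
    _ = ∑ d, q d * ∑ b, ∑ b', algebraMap ℂ K (E.ρ (k none) d b * E'.ρ (k (some none))⁻¹ b' c) *
          ((Ψ.1 b b').coeff m).1 (fun l => k (some (some l))) := by
        simp only [Finset.mul_sum, Finset.sum_mul]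
        rw [Finset.sum_congr rfl fun b' _ => Finset.sum_comm, Finset.sum_comm]
        refine Finset.sum_congr rfl fun d _ => ?_
        rw [Finset.sum_comm]
        refine Finset.sum_congr rfl fun e _ => Finset.sum_congr rfl fun b' _ => ?_
        rw [map_mul]
        ring

/-- [C6e2] PROOF. As `indM_actL`: left `∑ b b', ρ(x) d b * ρ(x'⁻¹) b' c * ∑ a', T a' b' * Ψ_ba'`, right `∑ a, aeval (fun i => (mom1 Q (coord i)).1 x') (p a c) * ∑ b a', ρ(x) d b * ρ'(x'⁻¹) a' a * Ψ_ba'`. Use `homExt' x' _ (hp x') a' c` for all `b`, `a'`. -/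
theorem indM_actR (hT : TQ Q) (P : RP Q g (optS true (optS false ε)) B) {E E' : Rep G} {T : Matrix E'.ι E.ι K}
    (h : Q.HomJ E E' T) (p : E'.ι → E.ι → MvPolynomial (Fin Q.r) ℂ)
    (hp : ∀ (x : G.X) (a : E'.ι) (b : E.ι),
      ∑ d, MvPolynomial.aeval (fun i => (mom1 Q (Q.D.coord i)).1 x) (p a d) * algebraMap ℂ K (E.ρ x d b) =
        ∑ c, algebraMap ℂ K (E'.ρ x a c) * T c b) (Ψ : F2 Q g ε E E') (d c : E.ι) :
    indM P E E d c (act2R h E Ψ) =
      ∑ a, MvPolynomial.aeval (fun i => P.mom hT (some none) (Q.D.coord i)) (p a c) * indM P E E' d a Ψ := by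
  apply P.inj
  rw [i_indM, map_sum]
  have h1 : ∀ a, P.i (MvPolynomial.aeval (fun i => P.mom hT (some none) (Q.D.coord i)) (p a c) * indM P E E' d a Ψ) =
      AddMonoidAlgebra.single 0
        (MvPolynomial.aeval (fun i => momO Q (some none : Option (Option L)) (Q.D.coord i)) (p a c)) *
        ind2m E E' Ψ.1 d a := by
    intro a
    rw [map_mul P.i, i_aeval, i_indM]
  rw [Finset.sum_congr rfl fun a _ => h1 a]
  apply RR_ext
  intro m k
  rw [c6e_coeff0, ind2m_coeff]
  have h2 : ∀ (b : E.ι) (b' : E.ι), (((act2R h E Ψ).1 b b').coeff m).1 (fun l => k (some (some l))) =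
      ∑ a', T a' b' * ((Ψ.1 b a').coeff m).1 (fun l => k (some (some l))) := by
    intro b b'
    rw [act2R_apply, c6e_coeff]
  have h3 : ∀ a, (MvPolynomial.aeval (fun i => momO Q (some none : Option (Option L)) (Q.D.coord i)) (p a c) :
      (G.pow (Option (Option L))).KO K).1 k =
      MvPolynomial.aeval (fun i => (mom1 Q (Q.D.coord i)).1 (k (some none))) (p a c) := fun a => aeval_momO _ _ _
  simp only [h2, h3, ind2m_coeff]
  have h4 := fun a' => homExt' (k (some none))
    (fun a d => MvPolynomial.aeval (fun i => (mom1 Q (Q.D.coord i)).1 (k (some none))) (p a d)) (hp (k (some none))) a' c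
  generalize hq : (fun a => MvPolynomial.aeval (fun i => (mom1 Q (Q.D.coord i)).1 (k (some none))) (p a c)) = q at h4
  have h5 : ∀ a, MvPolynomial.aeval (fun i => (mom1 Q (Q.D.coord i)).1 (k (some none))) (p a c) = q a := fun a => by
    rw [← hq]
  simp only [h5] at h4 ⊢
  calc ∑ b, ∑ b', algebraMap ℂ K (E.ρ (k none) d b * E.ρ (k (some none))⁻¹ b' c) *
        ∑ a', T a' b' * ((Ψ.1 b a').coeff m).1 (fun l => k (some (some l)))
      = ∑ b, ∑ a', (∑ b', T a' b' * algebraMap ℂ K (E.ρ (k (some none))⁻¹ b' c)) *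
          (algebraMap ℂ K (E.ρ (k none) d b) * ((Ψ.1 b a').coeff m).1 (fun l => k (some (some l)))) := by
        refine Finset.sum_congr rfl fun b _ => ?_
        simp only [Finset.mul_sum, Finset.sum_mul]
        rw [Finset.sum_comm]
        refine Finset.sum_congr rfl fun a' _ => Finset.sum_congr rfl fun b' _ => ?_
        rw [map_mul]
        ring
    _ = ∑ b, ∑ a', (∑ a, algebraMap ℂ K (E'.ρ (k (some none))⁻¹ a' a) * q a) *
          (algebraMap ℂ K (E.ρ (k none) d b) * ((Ψ.1 b a').coeff m).1 (fun l => k (some (some l)))) := by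
        refine Finset.sum_congr rfl fun b _ => Finset.sum_congr rfl fun a' _ => ?_
        rw [h4 a']
    _ = ∑ a, q a * ∑ b, ∑ b', algebraMap ℂ K (E.ρ (k none) d b * E'.ρ (k (some none))⁻¹ b' a) *
          ((Ψ.1 b b').coeff m).1 (fun l => k (some (some l))) := by
        simp only [Finset.mul_sum, Finset.sum_mul]
        rw [Finset.sum_congr rfl fun b _ => Finset.sum_comm, Finset.sum_comm]
        refine Finset.sum_congr rfl fun a _ => ?_
        refine Finset.sum_congr rfl fun b _ => Finset.sum_congr rfl fun a' _ => ?_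
        rw [map_mul]
        ring

end

end Pool.Agent.MTF
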