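import Mathlib

/-!
# MTF : part C, orbit representatives
-/

namespace Pool.Agent.MTF

section
variable (W : Type) {X : Type} [Group W] [MulAction W X]

/-- a representative of the orbit of `l` -/
noncomputable def rp (l : X) : X := (Quotient.mk (MulAction.orbitRel W X) l).out

theorem rp_orbit (l : X) : ∃ w : W, rp W l = w • l := by
  have h : (MulAction.orbitRel W X).r (rp W l) l := Quotient.exact (Quotient.out_eq (Quotient.mk (MulAction.orbitRel W X) l))
  obtain ⟨w, hw⟩ := h
  exact ⟨w, hw.symm⟩

theorem rp_smul (w : W) (l : X) : rp W (w • l) = rp W l := by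
  unfold rp
  have h : (Quotient.mk (MulAction.orbitRel W X) (w • l)) = Quotient.mk (MulAction.orbitRel W X) l :=
    Quotient.sound ⟨w, rfl⟩
  rw [h]

theorem rp_rp (l : X) : rp W (rp W l) = rp W l := by
  obtain ⟨w, hw⟩ := rp_orbit W l
  rw [hw, rp_smul, ← hw]

end

end Pool.Agent.MTF
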