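import Pool.Agent.MTF.C7D

/-!
# MTF : part C, induction over orbits
-/

namespace Pool.Agent.MTF

section
variable {W X : Type} [Group W] [Finite W] [MulAction W X]

/-- [C7a] PROOF. Induction on `n`. `n = 0`: `co z = 0`, `zero`. Step `n → n + 1`: let `z` with `co z m ≠ 0 → N m < n + 1`. Second induction on the number `d` of elements `m` of the (finite) support of `co z` with `N m = n`. `d = 0`: `co z m ≠ 0 → N m < n`, so `z ∈ P n ≤ P (n + 1)`. `d > 0`: let `m₀` be such an element, `l := rp W m₀`, `rp W l = l` (`rp_rp`), `N l = n` (`rp_orbit`, `hN`). `step z l` gives `z' ∈ P (n + 1)`.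
Let `z'' := z - z'`: `co z'' l = 0`, so by `orb` `co z'' (w • l) = 0` for all `w`, in particular `co z'' m₀ = 0`. If `co z'' m ≠ 0`, then `co z m ≠ 0` or `co z' m ≠ 0`; in the second case `m` is in the orbit of `l` (excluded) or `N m < n`. So the support of `co z''` is in `N < n + 1` and its elements with `N m = n` are elements of the support of `co z` different from `m₀`: `z'' ∈ P (n + 1)` by induction and `z = z'' + z'`. -/
theorem peel {M R : Type*} [AddCommGroup M] [AddCommGroup R] (N : X → ℕ) (hN : ∀ (w : W) m, N (w • m) = N m)
    (co : M →+ (X → R)) (hfin : ∀ z, (Function.support (co z)).Finite)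
    (orb : ∀ z (w : W) m, co z m = 0 → co z (w • m) = 0) (P : ℕ → AddSubgroup M) (mono : ∀ n, P n ≤ P (n + 1))
    (zero : ∀ z, co z = 0 → z ∈ P 0)
    (step : ∀ z l, rp W l = l → (∀ m, co z m ≠ 0 → N m ≤ N l) → ∃ z' ∈ P (N l + 1),
      (∀ m, co z' m ≠ 0 → (∃ w : W, m = w • l) ∨ N m < N l) ∧ co z' l = co z l)
    (n : ℕ) (z : M) (hz : ∀ m, co z m ≠ 0 → N m < n) : z ∈ P n := by
  induction n generalizing z with
  | zero =>
    apply zero
    funext m
    by_contra h
    exact Nat.not_lt_zero _ (hz m h)
  | succ n ih =>
    have key : ∀ d : ℕ, ∀ z, (∀ m, co z m ≠ 0 → N m < n + 1) →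
        ({m | co z m ≠ 0 ∧ N m = n} : Set X).ncard ≤ d → z ∈ P (n + 1) := by
      intro d
      induction d with
      | zero =>
        intro z hz hd
        apply mono n
        apply ih
        intro m hm
        have h1 := hz m hm
        have hfin' : ({m | co z m ≠ 0 ∧ N m = n} : Set X).Finite := (hfin z).subset (fun m hm => hm.1)
        have h2 : ({m | co z m ≠ 0 ∧ N m = n} : Set X) = ∅ := (Set.ncard_eq_zero hfin').1 (Nat.le_zero.1 hd)
        have h3 : N m ≠ n := fun h => by
          have h4 : m ∈ ({m | co z m ≠ 0 ∧ N m = n} : Set X) := ⟨hm, h⟩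
          rw [h2] at h4
          exact h4
        omega
      | succ d ihd =>
        intro z hz hd
        have hfin' : ({m | co z m ≠ 0 ∧ N m = n} : Set X).Finite := (hfin z).subset (fun m hm => hm.1)
        by_cases hex : ∃ m₀, co z m₀ ≠ 0 ∧ N m₀ = n
        · obtain ⟨m₀, hm₀, hn⟩ := hex
          obtain ⟨w, hw⟩ := rp_orbit W m₀
          have hNl : N (rp W m₀) = n := by rw [hw, hN, hn]
          obtain ⟨z', hz', h1, h2⟩ := step z (rp W m₀) (rp_rp W m₀) (fun m hm => by
            rw [hNl]
            have := hz m hm
            omega)
          rw [hNl] at hz'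
          have h3 : co (z - z') (rp W m₀) = 0 := by
            rw [map_sub, Pi.sub_apply, h2, sub_self]
          have h4 : ∀ w : W, co (z - z') (w • rp W m₀) = 0 := fun w => orb _ w _ h3
          have h5 : co (z - z') m₀ = 0 := by
            have h := h4 w⁻¹
            rw [hw, inv_smul_smul] at h
            exact h
          have h6 : ∀ m, co (z - z') m ≠ 0 → co z m ≠ 0 ∨ N m < n := by
            intro m hm
            by_contra hcon
            rw [not_or, not_not] at hcon
            obtain ⟨hc1, hc2⟩ := hcon
            have h7 : co z' m ≠ 0 := by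
              intro h0
              apply hm
              rw [map_sub, Pi.sub_apply, hc1, h0, sub_zero]
            rcases h1 m h7 with ⟨w', hw'⟩ | h8
            · exact hm (by rw [hw']; exact h4 w')
            · rw [hNl] at h8
              exact hc2 h8
          have h9 : z - z' ∈ P (n + 1) := by
            apply ihd
            · intro m hm
              rcases h6 m hm with h | h
              · exact hz m h
              · omega
            · have hss : ({m | co (z - z') m ≠ 0 ∧ N m = n} : Set X) ⊂ {m | co z m ≠ 0 ∧ N m = n} := by
                refine ⟨fun m hm => ⟨?_, hm.2⟩, fun hcon => ?_⟩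
                · rcases h6 m hm.1 with h | h
                  · exact h
                  · exact absurd hm.2 (by omega)
                · exact (hcon ⟨hm₀, hn⟩).1 h5
              have h := Set.ncard_lt_ncard hss hfin'
              omega
          have h10 := (P (n + 1)).add_mem h9 hz'
          rw [sub_add_cancel] at h10
          exact h10
        · apply ihd z hz
          have h2 : ({m | co z m ≠ 0 ∧ N m = n} : Set X) = ∅ := by
            ext m
            constructor
            · intro hm
              exact (hex ⟨m, hm⟩).elim
            · intro hm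
              exact hm.elim
          rw [h2, Set.ncard_empty]
          exact Nat.zero_le _
    exact key _ z hz le_rfl

end

end Pool.Agent.MTF
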