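import Pool.Agent.MTF.C7D

/-!
# MTF : part C, kernels of filtered maps
-/

namespace Pool.Agent.MTF

section
variable {X : Type}

/-- the filtration generated by `I` and the `Zl l`, `l` an orbit representative with `N l < n` -/
def ZC (W : Type) [Group W] [MulAction W X] {M : Type*} [AddCommGroup M] (N : X → ℕ) (I : AddSubgroup M)
    (Zl : X → AddSubgroup M) (n : ℕ) : AddSubgroup M :=
  I ⊔ ⨆ (l : X) (_ : rp W l = l ∧ N l < n), Zl l

variable {W : Type} [Group W] [MulAction W X]

theorem ZC_I {M : Type*} [AddCommGroup M] {N : X → ℕ} {I : AddSubgroup M} {Zl : X → AddSubgroup M} {n : ℕ} :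
    I ≤ ZC W N I Zl n := le_sup_left

theorem ZC_Zl {M : Type*} [AddCommGroup M] {N : X → ℕ} {I : AddSubgroup M} {Zl : X → AddSubgroup M} {n : ℕ} {l : X}
    (h : rp W l = l) (h' : N l < n) : Zl l ≤ ZC W N I Zl n :=
  le_sup_of_le_right (le_iSup_of_le l (le_iSup_of_le ⟨h, h'⟩ le_rfl))

theorem c7b_supp {M R : Type*} [AddCommGroup M] [AddCommGroup R] {N : X → ℕ}
    (hN : ∀ (w : W) m, N (w • m) = N m) (Φ : M →+ (X → R)) (I : AddSubgroup M)
    (Zl : X → AddSubgroup M) (hI : ∀ z ∈ I, Φ z = 0)
    (supp : ∀ l, rp W l = l → ∀ z ∈ Zl l, ∀ m, Φ z m ≠ 0 → (∃ w : W, m = w • l) ∨ N m < N l)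
    (n : ℕ) (z : M) (hz : z ∈ ZC W N I Zl n) (m : X) (hm : Φ z m ≠ 0) : N m < n := by
  let S : AddSubgroup M :=
    { carrier := {z | ∀ m, Φ z m ≠ 0 → N m < n}
      zero_mem' := by
        intro m hm
        exfalso
        apply hm
        rw [map_zero]
        rfl
      add_mem' := by
        intro a b ha hb m hm
        by_cases h : Φ a m = 0
        · refine hb m fun h' => hm ?_
          rw [map_add, Pi.add_apply, h, h', add_zero]
        · exact ha m h
      neg_mem' := by
        intro a ha m hm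
        refine ha m fun h' => hm ?_
        rw [map_neg, Pi.neg_apply, h', neg_zero] }
  have h1 : ZC W N I Zl n ≤ S := by
    refine sup_le ?_ (iSup_le fun l => iSup_le fun hl => ?_)
    · intro z hz m hm
      exfalso
      apply hm
      rw [hI z hz]
      rfl
    · intro z hz m hm
      rcases supp l hl.1 z hz m hm with ⟨w, hw⟩ | h
      · rw [hw, hN]
        exact hl.2
      · exact h.trans hl.2
  exact h1 hz m hm

theorem c7b_dec {M : Type*} [AddCommGroup M] (N : X → ℕ) (I : AddSubgroup M)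
    (Zl : X → AddSubgroup M) (n : ℕ) (z : M) (hz : z ∈ ZC W N I Zl (n + 1)) :
    ∃ z' ∈ ZC W N I Zl n, ∃ y : X →₀ M, (∀ l, y l ∈ Zl l) ∧
      (∀ l, y l ≠ 0 → rp W l = l ∧ N l = n) ∧ z = z' + y.sum fun _ a => a := by
  classical
  let S : AddSubgroup M :=
    { carrier := {z | ∃ z' ∈ ZC W N I Zl n, ∃ y : X →₀ M, (∀ l, y l ∈ Zl l) ∧
        (∀ l, y l ≠ 0 → rp W l = l ∧ N l = n) ∧ z = z' + y.sum fun _ a => a}
      zero_mem' := by
        refine ⟨0, AddSubgroup.zero_mem _, 0, fun l => AddSubgroup.zero_mem _,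
          fun l hl => absurd rfl hl, ?_⟩
        rw [Finsupp.sum_zero_index, add_zero]
      add_mem' := by
        rintro a b ⟨a', ha', y, hy, hy', ha⟩ ⟨b', hb', x, hx, hx', hb⟩
        refine ⟨a' + b', AddSubgroup.add_mem _ ha' hb', y + x,
          fun l => AddSubgroup.add_mem _ (hy l) (hx l), fun l hl => ?_, ?_⟩
        · by_cases h : y l = 0
          · refine hx' l fun h' => hl ?_
            rw [Finsupp.add_apply, h, h', add_zero]
          · exact hy' l h
        · rw [Finsupp.sum_add_index' (fun _ => rfl) (fun _ _ _ => rfl), ha, hb]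
          abel
      neg_mem' := by
        rintro a ⟨a', ha', y, hy, hy', ha⟩
        refine ⟨-a', AddSubgroup.neg_mem _ ha', -y, fun l => AddSubgroup.neg_mem _ (hy l),
          fun l hl => ?_, ?_⟩
        · refine hy' l fun h' => hl ?_
          rw [Finsupp.neg_apply, h', neg_zero]
        · rw [Finsupp.sum_neg_index (fun _ => rfl), Finsupp.sum_neg, ha]
          abel }
  have h1 : ZC W N I Zl (n + 1) ≤ S := by
    refine sup_le ?_ (iSup_le fun l => iSup_le fun hl => ?_)
    · intro z hz
      refine ⟨z, ZC_I hz, 0, fun l => AddSubgroup.zero_mem _, fun l hl => absurd rfl hl, ?_⟩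
      rw [Finsupp.sum_zero_index, add_zero]
    · intro z hz
      rcases Nat.lt_succ_iff_lt_or_eq.1 hl.2 with h | h
      · refine ⟨z, ZC_Zl hl.1 h hz, 0, fun l => AddSubgroup.zero_mem _,
          fun l hl => absurd rfl hl, ?_⟩
        rw [Finsupp.sum_zero_index, add_zero]
      · refine ⟨0, AddSubgroup.zero_mem _, Finsupp.single l z, fun l' => ?_, fun l' hl' => ?_, ?_⟩
        · by_cases h' : l' = l
          · rw [h', Finsupp.single_eq_same]
            exact hz
          · rw [Finsupp.single_eq_of_ne h']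
            exact AddSubgroup.zero_mem _
        · by_cases h' : l' = l
          · rw [h']
            exact ⟨hl.1, h⟩
          · exact absurd (Finsupp.single_eq_of_ne h') hl'
        · rw [Finsupp.sum_single_index rfl, zero_add]
  exact h1 hz

/-- [C7b] PROOF. Induction on `n`. `n = 0`: the supremum is `⊥` and `ZC 0 = I`. Step: `z ∈ ZC (n + 1)`, `Φ z = 0`. `ZC (n + 1) ≤ ZC n ⊔ ⨆ (l with rp W l = l ∧ N l = n), Zl l`, so `z = z' + ∑ l ∈ t, y l` with `z' ∈ ZC n`, `t` a finite set of `l` with `rp W l = l`, `N l = n`, and `y l ∈ Zl l` (`AddSubgroup.mem_sup`, `AddSubgroup.mem_iSup_iff_exists_finsupp`-like, or an `iSup` induction to the existence of `(t, y)`).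
(*) `Φ z' m ≠ 0 → N m < n` for `z' ∈ ZC n`: `{z' | ..}` contains `I` (`hI`) and every `Zl l` with `rp W l = l`, `N l < n` (`supp`, `hN`: `m = w • l` has `N m = N l < n`; it is closed under sums). Let `l₀ ∈ t`: `Φ z' l₀ = 0` by (*); for `l ∈ t`, `l ≠ l₀`: `Φ (y l) l₀ = 0` by `supp` (otherwise `l₀ = w • l`, so `l₀ = rp W l₀ = rp W l = l` by `rp_smul`, or `N l₀ < N l`). So
`0 = Φ z l₀ = Φ (y l₀) l₀` and `y l₀ ∈ ZC (N l₀) = ZC n` by `key`. So `z ∈ ZC n` and the induction hypothesis applies. -/
theorem filt {M R : Type*} [AddCommGroup M] [AddCommGroup R] (N : X → ℕ) (hN : ∀ (w : W) m, N (w • m) = N m)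
    (Φ : M →+ (X → R)) (I : AddSubgroup M) (Zl : X → AddSubgroup M) (hI : ∀ z ∈ I, Φ z = 0)
    (supp : ∀ l, rp W l = l → ∀ z ∈ Zl l, ∀ m, Φ z m ≠ 0 → (∃ w : W, m = w • l) ∨ N m < N l)
    (key : ∀ l, rp W l = l → ∀ z ∈ Zl l, Φ z l = 0 → z ∈ ZC W N I Zl (N l))
    (n : ℕ) (z : M) (hz : z ∈ ZC W N I Zl n) (h0 : Φ z = 0) : z ∈ I := by
  classical
  induction n generalizing z with
  | zero =>
    have h1 : ZC W N I Zl 0 ≤ I :=
      sup_le le_rfl (iSup_le fun l => iSup_le fun hl => absurd hl.2 (Nat.not_lt_zero _))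
    exact h1 hz
  | succ n ih =>
    obtain ⟨z', hz', y, hy, hy', hzy⟩ := c7b_dec N I Zl n z hz
    have hyn : ∀ l, y l ∈ ZC W N I Zl n := by
      intro l
      by_cases hl : y l = 0
      · rw [hl]
        exact AddSubgroup.zero_mem _
      · obtain ⟨h1, h2⟩ := hy' l hl
        have h3 : Φ z' l = 0 := by
          by_contra hne
          have h4 := c7b_supp hN Φ I Zl hI supp n z' hz' l hne
          omega
        have h4 : ∀ l' ∈ y.support, l' ≠ l → Φ (y l') l = 0 := by
          intro l' hl' hne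
          by_contra hcon
          obtain ⟨h5, h6⟩ := hy' l' (Finsupp.mem_support_iff.1 hl')
          rcases supp l' h5 (y l') (hy l') l hcon with ⟨w, hw⟩ | h
          · apply hne
            rw [← h5, ← h1, hw, rp_smul]
          · omega
        have h5 : Φ (y.sum fun _ a => a) l = Φ (y l) l := by
          rw [Finsupp.sum, map_sum, Finset.sum_apply]
          rw [Finset.sum_eq_single l h4]
          intro h
          exact absurd (Finsupp.mem_support_iff.2 hl) h
        have h6 : Φ (y l) l = 0 := by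
          have h7 := congrFun h0 l
          rw [hzy, map_add, Pi.add_apply, h3, zero_add, h5] at h7
          exact h7
        have h7 := key l h1 (y l) (hy l) h6
        rw [h2] at h7
        exact h7
    refine ih z ?_ h0
    rw [hzy]
    exact AddSubgroup.add_mem _ hz' (AddSubgroup.sum_mem _ fun l _ => hyn l)

end

end Pool.Agent.MTF
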