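import Pool.Agent.MTF.C0

/-!
# MTF : part C, sections with values in a highest weight representation
-/

set_option linter.unusedSectionVars false

namespace Pool.Agent.MTF

open AffGrp

section
variable {G : AffGrp} {K W X : Type} [Field K] [Algebra ℂ K] [Group W] [Fintype W]
  [MulSemiringAction W K] [SMulCommClass W ℂ K] [AddCommGroup X] [DistribMulAction W X]
variable {L : Type} [Finite L] [DecidableEq L] {Q : TQD G K W X}

theorem c7c_core {ε : L → Bool} {l : X} {ι : Type} [Fintype ι]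
    {M : ι → ι → K} {v : ι → K} (hv : ∃ a₀, v a₀ ≠ 0)
    (hinv : ∀ w : W, w • l = l → ∀ a, w • v a = v a)
    (hu : ∀ r : ι → K, (∀ a, ∑ b, M a b * r b = Q.val l * r a) →
      ((∀ a, r a ∈ Q.A) → ∃ x ∈ Q.A, r = x • v))
    {p : ι → (G.pow L).KO K} (hp : ∀ a, Q.JA ε l (p a)) (hi : ∀ a, InvO W l (p a))
    (hs : ∀ a, ∑ b, M a b • p b = Q.val l • p a) :
    ∃ m : (G.pow L).KO K, Q.JA ε l m ∧ InvO W l m ∧ ∀ a, p a = v a • m := by
  obtain ⟨a₀, ha₀⟩ := hv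
  have hk : ∀ k : L → G.X, (v a₀)⁻¹ * (p a₀).1 k ∈ Q.A ∧
      ∀ a, (p a).1 k = v a * ((v a₀)⁻¹ * (p a₀).1 k) := by
    intro k
    obtain ⟨x, hx, hr⟩ := hu (fun a => (p a).1 k) (by
      intro a
      have h1 : (∑ b, M a b • p b).1 k = (Q.val l • p a).1 k := congrArg (fun F : (G.pow L).KO K => F.1 k) (hs a)
      rw [KO_sum, KO_smul] at h1
      rw [← h1]
      refine Finset.sum_congr rfl fun b _ => ?_
      rw [KO_smul]) (fun a => (hp a).reg k)
    have hr' : ∀ a, (p a).1 k = x * v a := fun a => congrFun hr a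
    have hx0 : (v a₀)⁻¹ * (p a₀).1 k = x := by
      rw [hr' a₀]
      field_simp
    rw [hx0]
    exact ⟨hx, fun a => by rw [hr' a, mul_comm]⟩
  refine ⟨(v a₀)⁻¹ • p a₀, ⟨fun i => ?_, fun k => ?_⟩, ?_, fun a => ?_⟩
  · rw [map_smul, (hp a₀).wt i, smul_comm]
  · rw [KO_smul]
    exact (hk k).1
  · intro w hw
    have h1 := hi a₀ w hw
    have h2 : w • (v a₀)⁻¹ = (v a₀)⁻¹ := by
      rw [smul_inv'', hinv w hw]
    apply KO_ext
    intro k
    rw [wO_apply, KO_smul, smul_mul', h2]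
    have h3 : (wO (G.pow L) w (p a₀)).1 k = (p a₀).1 k := congrArg (fun F : (G.pow L).KO K => F.1 k) h1
    rw [wO_apply] at h3
    rw [h3]
  · apply KO_ext
    intro k
    rw [KO_smul, KO_smul]
    exact (hk k).2 a

theorem c7c_ne (hT : TQ Q) {l : X} {V : Rep G} {v v' : V.ι → K} (hV : Q.HW (W := W) l V v v') :
    (∃ a, v a ≠ 0) ∧ ∃ a, v' a ≠ 0 := by
  have h1 : ∑ a, v a * v' a ≠ 0 := by
    rw [hV.pair]
    exact hT.Eu_ne l
  obtain ⟨a, -, ha⟩ := Finset.exists_ne_zero_of_sum_ne_zero h1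
  exact ⟨⟨a, left_ne_zero_of_mul ha⟩, ⟨a, right_ne_zero_of_mul ha⟩⟩

/-- [C7c] PROOF. `hV.pair` and `Q.Eu l ≠ 0` (`hT.Eu_ne`) give `a₀` with `v a₀ ≠ 0`. Put `m := (v a₀)⁻¹ • p a₀`. For every point `k` the vector `r a := (p a).1 k` satisfies `(Q.sE V).mulVec r = Q.val l • r` (`hs` at `k`: `KO_sum`, `KO_smul`), so by `hV.uniq` `r = x • v`, and `x ∈ Q.A` by its second part (`(hp a).reg k`; the two multiples agree because `v a₀ ≠ 0`), `x = (v a₀)⁻¹ * r a₀ = m.1 k`. So `p a = v a • m`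
(`KO_ext`), `m` is regular; weights: `Q.s i` is linear; invariance: `w • v a₀ = v a₀` (`hV.v_inv`), `wO _ w (c • F) = (w • c) • wO _ w F`. -/
theorem hw_split (hT : TQ Q) {ε : L → Bool} {l : X} {V : Rep G} {v v' : V.ι → K} (hV : Q.HW (W := W) l V v v')
    {p : V.ι → (G.pow L).KO K} (hp : ∀ a, Q.JA ε l (p a)) (hi : ∀ a, InvO W l (p a))
    (hs : ∀ a, ∑ b, Q.sE V a b • p b = Q.val l • p a) :
    ∃ m : (G.pow L).KO K, Q.JA ε l m ∧ InvO W l m ∧ ∀ a, p a = v a • m := by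
  refine c7c_core (M := fun a b => Q.sE V a b) (c7c_ne hT hV).1 hV.v_inv (fun r hr hrA => ?_) hp hi hs
  exact (hV.uniq r (funext fun a => hr a)).2 hrA

/-- [C7c2] PROOF. The same with `vecMul`, `v'`, `hV.uniq'`, `hV.v'_inv`. -/
theorem hw_split' (hT : TQ Q) {ε : L → Bool} {l : X} {V : Rep G} {v v' : V.ι → K} (hV : Q.HW (W := W) l V v v')
    {p : V.ι → (G.pow L).KO K} (hp : ∀ a, Q.JA ε l (p a)) (hi : ∀ a, InvO W l (p a))
    (hs : ∀ a, ∑ b, Q.sE V b a • p b = Q.val l • p a) :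
    ∃ m : (G.pow L).KO K, Q.JA ε l m ∧ InvO W l m ∧ ∀ a, p a = v' a • m := by
  refine c7c_core (M := fun a b => Q.sE V b a) (c7c_ne hT hV).2 hV.v'_inv (fun r hr hrA => ?_) hp hi hs
  refine (hV.uniq' r (funext fun a => ?_)).2 hrA
  show ∑ b, r b * Q.sE V b a = Q.val l * r a
  rw [← hr a]
  exact Finset.sum_congr rfl fun b _ => mul_comm _ _

/-- [C7c3] PROOF. For every `a'` the family `fun a => p a a'` splits by `hw_split`: `p a a' = v a • n a'` with `n a'` in `J_A`, invariant. `hs'` for an index `a₀` with `v a₀ ≠ 0` (cancel `v a₀`) gives `∑ b, Q.sE V b a' • n b = Q.val l • n a'`; `hw_split'` for `n`. -/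
theorem hw_split2 (hT : TQ Q) {ε : L → Bool} {l : X} {V : Rep G} {v v' : V.ι → K} (hV : Q.HW (W := W) l V v v')
    {p : V.ι → V.ι → (G.pow L).KO K} (hp : ∀ a a', Q.JA ε l (p a a')) (hi : ∀ a a', InvO W l (p a a'))
    (hs : ∀ a a', ∑ b, Q.sE V a b • p b a' = Q.val l • p a a')
    (hs' : ∀ a a', ∑ b, Q.sE V b a' • p a b = Q.val l • p a a') :
    ∃ m : (G.pow L).KO K, Q.JA ε l m ∧ InvO W l m ∧ ∀ a a', p a a' = (v a * v' a') • m := by
  obtain ⟨a₀, ha₀⟩ := (c7c_ne hT hV).1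
  have h1 : ∀ a', ∃ n : (G.pow L).KO K, Q.JA ε l n ∧ InvO W l n ∧ ∀ a, p a a' = v a • n := fun a' =>
    hw_split hT hV (fun a => hp a a') (fun a => hi a a') (fun a => hs a a')
  choose n hn1 hn2 hn3 using h1
  obtain ⟨m, hm1, hm2, hm3⟩ := hw_split' hT hV hn1 hn2 (by
    intro a'
    have h2 := hs' a₀ a'
    rw [hn3 a' a₀] at h2
    have h3 : ∑ b, Q.sE V b a' • p a₀ b = v a₀ • ∑ b, Q.sE V b a' • n b := by
      rw [Finset.smul_sum]
      refine Finset.sum_congr rfl fun b _ => ?_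
      rw [hn3 b a₀, smul_comm]
    rw [h3, smul_comm (Q.val l) (v a₀)] at h2
    exact smul_right_injective _ ha₀ h2)
  exact ⟨m, hm1, hm2, fun a a' => by rw [hn3 a' a, hm3 a', smul_smul]⟩

end

end Pool.Agent.MTF
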