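import Pool.Agent.MTF.C6D
import Pool.Agent.MTF.C7a
import Pool.Agent.MTF.C7b
import Pool.Agent.MTF.C7c

/-!
# MTF : part C, generation: definitions
-/

set_option linter.unusedSectionVars false

namespace Pool.Agent.MTF

open AffGrp

section
variable {G : AffGrp} {K W X : Type} [Field K] [Algebra ℂ K] [Group W] [Fintype W]
  [MulSemiringAction W K] [SMulCommClass W ℂ K] [AddCommGroup X] [DistribMulAction W X]
variable {L : Type} [Finite L] [DecidableEq L] {Q : TQD G K W X}

/-- the chosen highest weight representation -/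
noncomputable def Vr (hT : TQ Q) (l : X) : Rep G := (hT.hw l).choose

/-- its weight section -/
noncomputable def vr (hT : TQ Q) (l : X) : (Vr hT l).ι → K := (hT.hw l).choose_spec.choose

/-- the weight section of its dual -/
noncomputable def vr' (hT : TQ Q) (l : X) : (Vr hT l).ι → K := (hT.hw l).choose_spec.choose_spec.choose

theorem Vr_hw (hT : TQ Q) (l : X) : Q.HW (W := W) l (Vr hT l) (vr hT l) (vr' hT l) :=
  (hT.hw l).choose_spec.choose_spec.choose_spec

variable {g : ℕ} {ε : L → Bool}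

/-- the component of degree `m` -/
def co1 (E : Rep G) : F1 Q g ε E →+ (X → E.ι → (G.pow L).KO K) where
  toFun φ m a := (φ.1 a).coeff m
  map_zero' := rfl
  map_add' _ _ := rfl

/-- the component of degree `m` -/
def co1' (E : Rep G) : F1' Q g ε E →+ (X → E.ι → (G.pow L).KO K) where
  toFun φ m a := (φ.1 a).coeff m
  map_zero' := rfl
  map_add' _ _ := rfl

/-- the component of degree `m` -/
def co2 (E E' : Rep G) : F2 Q g ε E E' →+ (X → E.ι → E'.ι → (G.pow L).KO K) where
  toFun φ m a a' := (φ.1 a a').coeff m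
  map_zero' := rfl
  map_add' _ _ := rfl

/-- `T ψ` with `ψ` a family with values in `V_l`, `l` an orbit representative, `N l < n` -/
noncomputable def Gen1 (hT : TQ Q) (g : ℕ) (ε : L → Bool) (E : Rep G) (n : ℕ) : AddSubgroup (F1 Q g ε E) :=
  AddSubgroup.closure {φ | ∃ l, rp W l = l ∧ Q.N l < n ∧ ∃ (T : Matrix E.ι (Vr hT l).ι K)
    (h : Q.HomJ (Vr hT l) E T) (ψ : F1 Q g ε (Vr hT l)), φ = act1 h ψ}

/-- `T^t ψ` with `ψ` a family with values in the dual of `V_l`, `l` an orbit representative, `N l < n` -/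
noncomputable def Gen1' (hT : TQ Q) (g : ℕ) (ε : L → Bool) (E : Rep G) (n : ℕ) : AddSubgroup (F1' Q g ε E) :=
  AddSubgroup.closure {φ | ∃ l, rp W l = l ∧ Q.N l < n ∧ ∃ (T : Matrix (Vr hT l).ι E.ι K)
    (h : Q.HomJ E (Vr hT l) T) (ψ : F1' Q g ε (Vr hT l)), φ = act1' h ψ}

/-- `T ψ T'` with `ψ` a family with values in `End(V_l)`, `l` an orbit representative, `N l < n` -/
noncomputable def Gen2 (hT : TQ Q) (g : ℕ) (ε : L → Bool) (E E' : Rep G) (n : ℕ) : AddSubgroup (F2 Q g ε E E') :=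
  AddSubgroup.closure {φ | ∃ l, rp W l = l ∧ Q.N l < n ∧ ∃ (T : Matrix E.ι (Vr hT l).ι K)
    (h : Q.HomJ (Vr hT l) E T) (T' : Matrix (Vr hT l).ι E'.ι K) (h' : Q.HomJ E' (Vr hT l) T')
    (ψ : F2 Q g ε (Vr hT l) (Vr hT l)), φ = act2L h E' (act2R h' (Vr hT l) ψ)}

end

end Pool.Agent.MTF
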