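import Pool.Agent.MTF.C8D

/-!
# MTF : part C, generation
-/

set_option linter.unusedSectionVars false

namespace Pool.Agent.MTF

open AffGrp

section
variable {G : AffGrp} {K W X : Type} [Field K] [Algebra ℂ K] [Group W] [Fintype W]
  [MulSemiringAction W K] [SMulCommClass W ℂ K] [AddCommGroup X] [DistribMulAction W X]
variable {L : Type} [Finite L] [DecidableEq L] {Q : TQD G K W X}

theorem c8c_JA_smul {ε : L → Bool} {l : X} {m : (G.pow L).KO K} (hm : Q.JA ε l m) {a : K}
    (ha : a ∈ Q.A) : Q.JA ε l (a • m) where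
  wt i := by
    rw [map_smul, hm.wt i, smul_comm]
  reg x := by
    rw [KO_smul]
    exact Q.A.mul_mem ha (hm.reg x)

theorem c8c_InvO_smul {l : X} {m : (G.pow L).KO K} (hm : InvO W l m) {a : K}
    (ha : ∀ w : W, w • l = l → w • a = a) : InvO W l (a • m) := by
  intro w hw
  apply KO_ext
  intro x
  have h1 := congrArg (fun F : (G.pow L).KO K => F.1 x) (hm w hw)
  have h2 : w • m.1 x = m.1 x := h1
  rw [wO_apply, KO_smul, smul_mul', ha w hw, h2]

theorem c8c_calc {ι κ : Type} [Fintype ι] [Fintype κ] (e e' mx : K) (T v : ι → K) (T' v' : κ → K)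
    (y : ι → κ → K) (hy : ∀ b b', e * y b b' = e' * (v b * v' b' * mx)) :
    e * ∑ b, T b * ∑ b', T' b' * y b b' =
      e' * ((∑ b, T b * v b) * (∑ b', v' b' * T' b') * mx) := by
  have h1 : e * ∑ b, T b * ∑ b', T' b' * y b b' = ∑ b, ∑ b', T b * T' b' * (e * y b b') := by
    rw [Finset.mul_sum]
    refine Finset.sum_congr rfl fun b _ => ?_
    rw [Finset.mul_sum, Finset.mul_sum]
    refine Finset.sum_congr rfl fun b' _ => ?_
    ring
  rw [h1, Finset.sum_mul_sum, Finset.sum_mul, Finset.mul_sum]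
  refine Finset.sum_congr rfl fun b _ => ?_
  rw [Finset.sum_mul, Finset.mul_sum]
  refine Finset.sum_congr rfl fun b' _ => ?_
  rw [hy]
  ring

theorem c8c_coeff {E E' V : Rep G} {g : ℕ} {ε : L → Bool} {n : ℕ}
    (T : Fin n → Matrix E.ι V.ι K) (h : ∀ j, Q.HomJ V E (T j))
    (T' : Fin n → Matrix V.ι E'.ι K) (h' : ∀ j, Q.HomJ E' V (T' j))
    (ψ : Fin n → F2 Q g ε V V) (m : X) (a : E.ι) (a' : E'.ι) (x : L → G.X) :
    (co2 E E' (∑ j, act2L (h j) E' (act2R (h' j) V (ψ j))) m a a').1 x =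
      ∑ j, ∑ b, T j a b * ∑ b', T' j b' a' * (((ψ j).1 b b').coeff m).1 x := by
  rw [map_sum, Finset.sum_apply, Finset.sum_apply, Finset.sum_apply, KO_sum]
  refine Finset.sum_congr rfl fun j _ => ?_
  have e1 : co2 E E' (act2L (h j) E' (act2R (h' j) V (ψ j))) m a a' =
      (∑ b, T j a b • ∑ b', T' j b' a' • (ψ j).1 b b').coeff m := rfl
  rw [e1, AddMonoidAlgebra.coeff_sum, Finsupp.finsetSum_apply, KO_sum]
  refine Finset.sum_congr rfl fun b _ => ?_
  rw [AddMonoidAlgebra.coeff_smul_apply, KO_smul, AddMonoidAlgebra.coeff_sum,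
    Finsupp.finsetSum_apply, KO_sum]
  refine congrArg (fun t => T j a b * t) (Finset.sum_congr rfl fun b' _ => ?_)
  rw [AddMonoidAlgebra.coeff_smul_apply, KO_smul]

/-- [C8c] PROOF. `peel` with `M := F2 Q g ε E E'`, `co := co2 E E'`, `N := Q.N` (`hT.N_w`), `P := Gen2 hT g ε E E'`. `hfin`: the support of `co2 φ` is contained in the union of the supports of the `φ.1 a a'`. `orb`: `(φ.2.fam a a').inv`. `mono`: `AddSubgroup.closure_mono`. `zero`: `Subtype.ext`, `coeff_injective`. `step`, for `φ` and `l` with `rp W l = l`, `V := Vr hT l`, `v := vr hT l`, `v' := vr' hT l`, `hV := Vr_hw hT l`: `lead2` gives `p` with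
`Eu l • (φ a a')_l = Eu l ^ g • p a a'`; `prod2` gives `p a a' = ∑ j, (r j a * r' j a') • m j`; `homJ1 hT hV` gives `T j` with `Q.HomJ V E (T j)`, `(T j).mulVec v = r j`; `homJ1' hT hV` gives `T' j` with `Q.HomJ E' V (T' j)`, `(T' j).vecMul v' = r' j`; `lift2 hT g` for `V`, `V` and the sections `fun b b' => (v b * v' b') • m j` (`hV.v_mem`, `v'_mem`, `v_inv`, `v'_inv`, `v_eig`, `v'_eig`) gives `ψ j` in `Fam2 g ε V V`, `SuppLe l`, `Eu l • (ψ j b b')_l = Eu l ^ g • ((v b * v' b') • m j)`.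
`z' := ∑ j, act2L (h j) E' (act2R (h' j) V ⟨ψ j, _⟩)` is in `Gen2 (N l + 1)`; its components are `∑ b b', (T j a b * T' j b' a') • ψ j b b'` up to the order of sums. Support: nonzero only if some `(ψ j b b')_m ≠ 0`. At `l`: `Eu l • (z' a a')_l = Eu l ^ g • ∑ j, (∑ b, T j a b * v b) * (∑ b', T' j b' a' * v' b') • m j = Eu l ^ g • p a a' = Eu l • (φ a a')_l`, cancel `Eu l ≠ 0` (`hT.Eu_ne`). -/
theorem gen2 (hT : TQ Q) {g : ℕ} {ε : L → Bool} {E E' : Rep G} (φ : F2 Q g ε E E') (n : ℕ)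
    (hn : ∀ a a' m, (φ.1 a a').coeff m ≠ 0 → Q.N m < n) : φ ∈ Gen2 hT g ε E E' n := by
  classical
  refine peel (W := W) (X := X) (M := F2 Q g ε E E') (R := E.ι → E'.ι → (G.pow L).KO K) Q.N hT.N_w
    (co2 E E') ?_ ?_ (Gen2 hT g ε E E') ?_ ?_ ?_ n φ ?_
  · intro z
    refine Set.Finite.subset (Set.finite_iUnion fun a : E.ι => Set.finite_iUnion fun a' : E'.ι =>
      (z.1 a a').coeff.hasFiniteSupport) ?_
    intro m hm
    rw [Function.mem_support] at hm
    obtain ⟨a, ha⟩ := Function.ne_iff.1 hm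
    obtain ⟨a', ha'⟩ := Function.ne_iff.1 ha
    exact Set.mem_iUnion.2 ⟨a, Set.mem_iUnion.2 ⟨a', ha'⟩⟩
  · intro z w m hz
    funext a a'
    have h1 : (z.1 a a').coeff m = 0 := congrFun (congrFun hz a) a'
    show (z.1 a a').coeff (w • m) = 0
    rw [← (z.2.fam a a').inv w m, h1, map_zero]
  · intro n
    refine AddSubgroup.closure_mono ?_
    rintro z ⟨l, h1, h2, h3⟩
    exact ⟨l, h1, Nat.lt_succ_of_lt h2, h3⟩
  · intro z hz
    have h0 : z = 0 := by
      apply Subtype.ext
      funext a a'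
      apply AddMonoidAlgebra.coeff_injective
      ext m
      have h1 : (z.1 a a').coeff m = 0 := congrFun (congrFun (congrFun hz m) a) a'
      rw [h1]
      rfl
    rw [h0]
    exact AddSubgroup.zero_mem _
  · intro z l hl hN
    have hV := Vr_hw hT l
    obtain ⟨p, p1, p2, p3, p4, p5⟩ := lead2 hT z.2 (l := l) (fun a a' m hm => hN m (fun h0 =>
      hm (congrFun (congrFun h0 a) a')))
    obtain ⟨k, m, r, r', m1, r1, r2, hp⟩ := prod2 hT p1 p2 p3 p4
    choose T hTJ hTv using fun j => homJ1 hT hV (r1 j).1 (r1 j).2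
    choose T' hTJ' hTv' using fun j => homJ1' hT hV (r2 j).1 (r2 j).2
    have hlift : ∀ j, ∃ φ : (Vr hT l).ι → (Vr hT l).ι → RR G K X L, Q.Fam2 g ε (Vr hT l) (Vr hT l) φ ∧
        (∀ a a', Q.SuppLe l (φ a a')) ∧
        ∀ a a', Q.Eu l • (φ a a').coeff l = Q.Eu l ^ g • ((vr hT l a * vr' hT l a') • m j) := by
      intro j
      refine lift2 hT g (fun a a' => c8c_JA_smul (m1 j).1 (Q.A.mul_mem (hV.v_mem a) (hV.v'_mem a')))
        (fun a a' => c8c_InvO_smul (m1 j).2 fun w hw => ?_) ?_ ?_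
      · rw [smul_mul', hV.v_inv w hw, hV.v'_inv w hw]
      · intro a a'
        have h1 := congrFun hV.v_eig a
        simp only [Matrix.mulVec, dotProduct, Pi.smul_apply, smul_eq_mul] at h1
        simp only [smul_smul]
        rw [← Finset.sum_smul]
        congr 1
        rw [← mul_assoc, ← h1, Finset.sum_mul]
        exact Finset.sum_congr rfl fun b _ => by ring
      · intro a a'
        have h1 := congrFun hV.v'_eig a'
        simp only [Matrix.vecMul, dotProduct, Pi.smul_apply, smul_eq_mul] at h1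
        simp only [smul_smul]
        rw [← Finset.sum_smul]
        congr 1
        have h2 : Q.val l * (vr hT l a * vr' hT l a') = vr hT l a * (Q.val l * vr' hT l a') := by ring
        rw [h2, ← h1, Finset.mul_sum]
        exact Finset.sum_congr rfl fun b _ => by ring
    choose ψ ψ1 ψ2 ψ3 using hlift
    let Ψ : Fin k → F2 Q g ε (Vr hT l) (Vr hT l) := fun j => ⟨ψ j, ψ1 j⟩
    refine ⟨∑ j, act2L (hTJ j) E' (act2R (hTJ' j) (Vr hT l) (Ψ j)), ?_, ?_, ?_⟩
    · refine AddSubgroup.sum_mem (G := F2 Q g ε E E') (Gen2 hT g ε E E' (Q.N l + 1)) ?_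
      intro j _
      refine AddSubgroup.subset_closure ?_
      exact ⟨l, hl, Nat.lt_succ_self _, T j, hTJ j, T' j, hTJ' j, Ψ j, rfl⟩
    · intro q hq
      by_contra hcon
      apply hq
      have h0 : ∀ j b b', (ψ j b b').coeff q = 0 := by
        intro j b b'
        by_contra h1
        exact hcon (ψ2 j b b' q h1)
      funext a a'
      apply KO_ext
      intro x
      rw [c8c_coeff]
      show _ = 0
      refine Finset.sum_eq_zero fun j _ => Finset.sum_eq_zero fun b _ => ?_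
      have h2 : ∑ b', T' j b' a' * (((Ψ j).1 b b').coeff q).1 x = 0 := by
        refine Finset.sum_eq_zero fun b' _ => ?_
        show T' j b' a' * ((ψ j b b').coeff q).1 x = 0
        rw [h0, KO_zero, mul_zero]
      rw [h2, mul_zero]
    · funext a a'
      apply KO_ext
      intro x
      rw [c8c_coeff]
      show _ = ((z.1 a a').coeff l).1 x
      apply mul_left_cancel₀ (hT.Eu_ne l)
      have e1 : Q.Eu l * ((z.1 a a').coeff l).1 x = Q.Eu l ^ g * (p a a').1 x :=
        congrArg (fun F : (G.pow L).KO K => F.1 x) (p5 a a')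
      rw [e1, hp, KO_sum, Finset.mul_sum, Finset.mul_sum]
      refine Finset.sum_congr rfl fun j _ => ?_
      rw [KO_smul]
      have e2 : r j a = ∑ b, T j a b * vr hT l b := by
        rw [← hTv j]
        rfl
      have e3 : r' j a' = ∑ b', vr' hT l b' * T' j b' a' := by
        rw [← hTv' j]
        rfl
      rw [e2, e3]
      exact c8c_calc (Q.Eu l) (Q.Eu l ^ g) ((m j).1 x) (fun b => T j a b) (vr hT l)
        (fun b' => T' j b' a') (vr' hT l) (fun b b' => ((ψ j b b').coeff l).1 x)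
        (fun b b' => congrArg (fun F : (G.pow L).KO K => F.1 x) (ψ3 j b b'))
  · intro m hm
    obtain ⟨a, ha⟩ := Function.ne_iff.1 hm
    obtain ⟨a', ha'⟩ := Function.ne_iff.1 ha
    exact hn a a' m ha'

end

end Pool.Agent.MTF
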