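import Pool.Agent.MTF.C5
import Pool.Agent.MTF.C6a

/-!
# MTF : part C, restriction of vectors of a representation
-/

set_option linter.unusedSectionVars false

namespace Pool.Agent.MTF

open AffGrp TensorProduct

section
variable {G : AffGrp} {K W X : Type} [Field K] [Algebra ℂ K] [Group W] [Fintype W]
  [MulSemiringAction W K] [SMulCommClass W ℂ K] [AddCommGroup X] [DistribMulAction W X]
variable {L : Type} [Finite L] [DecidableEq L] {Q : TQD G K W X}
variable {g : ℕ} {ε : L → Bool} {B : Type} [CommRing B] [Algebra ℂ B]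

theorem c9a_optP (k : Option L → G.X) : (optP (k none) (k ∘ some) : Option L → G.X) = k := by
  funext o
  cases o <;> rfl

theorem c9a_upd (x h : G.X) (k : L → G.X) :
    Function.update (optP x k : Option L → G.X) none h = optP h k := by
  funext o
  cases o with
  | none => rw [Function.update_self]; rfl
  | some l => rw [Function.update_of_ne (by simp)]; rfl

theorem c9a_smul {H : AffGrp} (c : ℂ) (F : H.KO K) (k : H.X) :
    (c • F).1 k = algebraMap ℂ K c * F.1 k := by
  rw [← Algebra.smul_def]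
  rfl

theorem c9a_star {δ : Option L → Bool} (P : RP Q g δ B) {ι : Type} [Fintype ι] (b : ι → B)
    (M : G.X → ι → ι → ℂ) (h : ∀ x j, P.act (pt1 x) (b j) = ∑ l, M x⁻¹ j l • b l) (m : X)
    (x : G.X) (k : L → G.X) (j : ι) : ((P.i (b j)).coeff m).1 (optP x k) =
      ∑ l, algebraMap ℂ K (M x j l) * ((P.i (b l)).coeff m).1 (optP 1 k) := by
  have h1 := congrArg (fun z => ((P.i z).coeff m).1 (optP 1 k)) (h x⁻¹ j)
  simp only [inv_inv, P.i_act, gact_apply, map_sum, map_smul] at h1
  have h2 : ((pt1 x⁻¹ : Option L → G.X)⁻¹ * optP 1 k : Option L → G.X) = optP x k := by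
    funext o
    cases o with
    | none =>
      show (x⁻¹)⁻¹ * 1 = x
      rw [inv_inv, mul_one]
    | some l =>
      show (1 : G.X)⁻¹ * k l = k l
      rw [inv_one, one_mul]
  rw [h2] at h1
  rw [h1, AddMonoidAlgebra.coeff_sum, Finsupp.finsetSum_apply, KO_sum]
  refine Finset.sum_congr rfl fun l _ => ?_
  rw [AddMonoidAlgebra.coeff_smul_apply]
  exact c9a_smul _ _ _

theorem c9a_s1 (f : G.O) : (Q.s1 (inc K f)).1 1 = ∑ i, Q.c i * algebraMap ℂ K ((Q.D i).1 f) := by
  rw [s1_apply]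
  refine Finset.sum_congr rfl fun i _ => ?_
  have h1 : ltK 1 (inc K f) = inc K f := by
    apply KO_ext
    intro y
    show (inc K f).1 (1 * y) = (inc K f).1 y
    rw [one_mul]
  rw [h1, ext_inc]

theorem c9a_slot {δ : Option L → Bool} (P : RP Q g δ B) {ι : Type} [Fintype ι] (b : ι → B)
    (M : ι → ι → G.O) (h : ∀ x j, P.act (pt1 x) (b j) = ∑ l, (M j l).1 x⁻¹ • b l) (m : X)
    (k : L → G.X) (j : ι) : (Q.s none ((P.i (b j)).coeff m)).1 (optP 1 k) =
      ∑ l, (∑ i, Q.c i * algebraMap ℂ K ((Q.D i).1 (M j l))) *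
        ((P.i (b l)).coeff m).1 (optP 1 k) := by
  rw [s_apply]
  have h1 : sl K (optP 1 k) none ((P.i (b j)).coeff m) =
      ∑ l, ((P.i (b l)).coeff m).1 (optP 1 k) • inc K (M j l) := by
    apply KO_ext
    intro y
    rw [sl_apply, KO_sum]
    have h2 := c9a_star P b (fun x j l => (M j l).1 x) h m y k j
    rw [c9a_upd, h2]
    refine Finset.sum_congr rfl fun l _ => ?_
    rw [KO_smul, inc_apply, mul_comm]
  rw [h1, map_sum]
  show (∑ l, Q.s1 (((P.i (b l)).coeff m).1 (optP 1 k) • inc K (M j l))).1 1 = _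
  rw [KO_sum]
  refine Finset.sum_congr rfl fun l _ => ?_
  rw [map_smul, KO_smul, c9a_s1, mul_comm]

theorem c9a_D1 (D : G.Lie) : D.1 1 = 0 := by
  have h := D.2 1 1
  rw [mul_one] at h
  have h1 : (1 : G.O).1 1 = 1 := rfl
  rw [h1, one_mul] at h
  exact left_eq_add.1 h

theorem c9a_coi (D : G.Lie) (E : Rep G) (a b : E.ι) : D.1 (E.coi a b) = - D.1 (E.co a b) := by
  have h1 : ∑ c, E.co a c * E.coi c b = if a = b then 1 else 0 := by
    apply Subtype.ext
    funext x
    have h2 := E.mul_inv x a b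
    have h3 : (∑ c, E.co a c * E.coi c b).1 x = ∑ c, E.ρ x a c * E.ρ x⁻¹ c b := by
      have h4 : (∑ c, E.co a c * E.coi c b).1 = ∑ c, (E.co a c * E.coi c b).1 :=
        map_sum G.O.val _ _
      rw [h4, Finset.sum_apply]
      rfl
    rw [h3, h2]
    split_ifs <;> rfl
  have h2 := congrArg D.1 h1
  have h3 : D.1 (if a = b then (1 : G.O) else 0) = 0 := by
    split_ifs
    · exact c9a_D1 D
    · exact map_zero D.1
  rw [h3, map_sum] at h2
  have h4 : ∀ c, D.1 (E.co a c * E.coi c b) =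
      (if a = c then D.1 (E.coi c b) else 0) + (if c = b then D.1 (E.co a c) else 0) := by
    intro c
    rw [D.2]
    have e1 : (E.co a c).1 1 = if a = c then 1 else 0 := by
      show E.ρ 1 a c = _
      rw [map_one, Matrix.one_apply]
    have e2 : (E.coi c b).1 1 = if c = b then 1 else 0 := by
      show E.ρ 1⁻¹ c b = _
      rw [inv_one, map_one, Matrix.one_apply]
    rw [e1, e2]
    congr 1
    · split_ifs <;> simp
    · split_ifs <;> simp
  simp only [h4, Finset.sum_add_distrib] at h2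
  rw [Finset.sum_ite_eq, if_pos (Finset.mem_univ _), Finset.sum_ite_eq', if_pos (Finset.mem_univ _)] at h2
  exact eq_neg_of_add_eq_zero_left h2

/-- [C9a] PROOF. (*) `((P.i (b j)).coeff m).1 (optP x k) = ∑ l, algebraMap (E.ρ x j l) * ((P.i (b l)).coeff m).1 (optP 1 k)`: `P.i` of `h x⁻¹ j` (`P.i_act`, `inv_inv`, `map_sum`, `map_smul`) at degree `m` and the point `optP 1 k` (`gact_apply`, `(pt1 x⁻¹)⁻¹ * optP 1 k = optP x k`). `φ.1 j := fm X (ev1 K) (P.i (b j))`. `fam`: `Fam_ev1 (P.fam (b j))`. `slot`: `KO_ext`, at `k`: `(P.fam (b j)).wt m none` at the point `optP 1 k`; by `s_apply`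
it is `(Q.s1 S).1 1` for the slice `S h = ((P.i (b j)).coeff m).1 (optP h k)` (`Function.update (optP 1 k) none h = optP h k`), and by (*) `S = ∑ l, c l • inc K (E.co j l)` with `c l := ((P.i (b l)).coeff m).1 (optP 1 k)`; `(Q.s1 (inc K f)).1 1 = ∑ i, Q.c i * algebraMap ((Q.D i).1 f)` (`s1_apply`, `ltK 1 = id`, `ext` on `inc`), so `(Q.s1 S).1 1 = ∑ l, Q.sE E j l * c l` and the weight is `Q.val m` (`sgn true = 1`).
`P.indB E j φ = b j`: `P.inj`, `P.i_indB`, `RR_ext`, `ind_coeff` and (*) with `x := k none` (`optP (k none) (k ∘ some) = k`). -/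
theorem restr (P : RP Q g (optS true ε) B) (E : Rep G) (b : E.ι → B)
    (h : ∀ x j, P.act (pt1 x) (b j) = ∑ k, E.ρ x⁻¹ j k • b k) :
    ∃ φ : F1 Q g ε E, (∀ j, φ.1 j = fm X (ev1 K) (P.i (b j))) ∧ ∀ j, P.indB E j φ = b j := by
  have hs := c9a_star P b (fun x j l => E.ρ x j l) h
  have hw := c9a_slot P b (fun j l => E.co j l) h
  refine ⟨⟨fun j => fm X (ev1 K) (P.i (b j)), fun a => Fam_ev1 (P.fam (b a)), fun m a => ?_⟩,
    fun j => rfl, fun j => ?_⟩
  · apply KO_ext
    intro k
    rw [KO_sum, KO_smul, coeff_fm, ev1_apply]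
    have h1 := congrArg (fun F : (G.pow (Option L)).KO K => F.1 (optP 1 k)) ((P.fam (b a)).wt m none)
    have h2 : sgn (optS true ε none) • m = m := one_zsmul m
    rw [h2] at h1
    simp only [KO_smul] at h1
    rw [← h1]
    refine Eq.trans ?_ (hw m k a).symm
    refine Finset.sum_congr rfl fun l _ => ?_
    rw [KO_smul, coeff_fm, ev1_apply]
    rfl
  · apply P.inj
    rw [P.i_indB]
    apply RR_ext
    intro m k
    rw [ind_coeff]
    have h1 := hs m (k none) (k ∘ some) j
    rw [c9a_optP] at h1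
    rw [h1]
    refine Finset.sum_congr rfl fun l _ => ?_
    rw [coeff_fm, ev1_apply]

/-- [C9a2] PROOF. As `restr`: (*) `((P.i (b j)).coeff m).1 (optP x k) = ∑ l, algebraMap (E.ρ x⁻¹ l j) * ((P.i (b l)).coeff m).1 (optP 1 k)`; the slice is `∑ l, c l • inc K (E.coi l j)`, and `D.1 (E.coi l j) = - D.1 (E.co l j)` (see C6a; prove it here: `D` is a point derivation and `∑ c, E.co l c * E.coi c j` is constant, `Rep.mul_inv`), so `- ∑ l, Q.sE E l j * c l = Q.val (sgn false • m) * c j = - Q.val m * c j`. -/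
theorem restr' (P : RP Q g (optS false ε) B) (E : Rep G) (b : E.ι → B)
    (h : ∀ x j, P.act (pt1 x) (b j) = ∑ k, E.ρ x k j • b k) :
    ∃ φ : F1' Q g ε E, (∀ j, φ.1 j = fm X (ev1 K) (P.i (b j))) ∧ ∀ j, P.indB' E j φ = b j := by
  have h' : ∀ x j, P.act (pt1 x) (b j) = ∑ l, E.ρ (x⁻¹)⁻¹ l j • b l := by
    intro x j
    rw [inv_inv]
    exact h x j
  have hs := c9a_star P b (fun x j l => E.ρ x⁻¹ l j) h'
  have hw := c9a_slot P b (fun j l => E.coi l j) h'
  refine ⟨⟨fun j => fm X (ev1 K) (P.i (b j)), fun a => Fam_ev1 (P.fam (b a)), fun m a => ?_⟩,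
    fun j => rfl, fun j => ?_⟩
  · apply KO_ext
    intro k
    rw [KO_sum, KO_smul, coeff_fm, ev1_apply]
    have h1 := congrArg (fun F : (G.pow (Option L)).KO K => F.1 (optP 1 k)) ((P.fam (b a)).wt m none)
    have h2 : sgn (optS false ε none) • m = -m := neg_one_zsmul m
    rw [h2, map_neg] at h1
    simp only [KO_smul] at h1
    have h3 := hw m k a
    rw [h1] at h3
    have h4 : Q.val m * ((P.i (b a)).coeff m).1 (optP 1 k) =
        - (-Q.val m * ((P.i (b a)).coeff m).1 (optP 1 k)) := by ring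
    rw [h4, h3, ← Finset.sum_neg_distrib]
    refine Finset.sum_congr rfl fun l _ => ?_
    rw [KO_smul, coeff_fm, ev1_apply, ← neg_mul, ← Finset.sum_neg_distrib]
    congr 1
    show ∑ j, Q.c j * algebraMap ℂ K ((Q.D j).1 (E.co l a)) = _
    refine Finset.sum_congr rfl fun i _ => ?_
    rw [c9a_coi, map_neg]
    ring
  · apply P.inj
    rw [P.i_indB']
    apply RR_ext
    intro m k
    rw [ind'_coeff]
    have h1 := hs m (k none) (k ∘ some) j
    rw [c9a_optP] at h1
    rw [h1]
    refine Finset.sum_congr rfl fun l _ => ?_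
    rw [coeff_fm, ev1_apply]

end

end Pool.Agent.MTF
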