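import Pool.Agent.MTF.C3D

/-!
# MTF : part C, averaging of endomorphisms of a matrix algebra
-/

set_option linter.unusedSectionVars false

namespace Pool.Agent.MTF

open AffGrp

section
variable {G : AffGrp}

/-- decomposition of a linear map on matrices -/
theorem c9e_dec {ι : Type} [Fintype ι] [DecidableEq ι] (π₀ : Matrix ι ι ℂ →ₗ[ℂ] Matrix ι ι ℂ)
    (M : Matrix ι ι ℂ) (c b : ι) :
    (π₀ M) c b = ∑ e, ∑ q, M e q * (π₀ (Matrix.single e q 1)) c b := by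
  conv_lhs => rw [Matrix.matrix_eq_sum_single M]
  simp only [map_sum, Matrix.sum_apply]
  refine Finset.sum_congr rfl fun e _ => Finset.sum_congr rfl fun q _ => ?_
  have h : Matrix.single e q (M e q) = M e q • Matrix.single e q (1 : ℂ) := by
    rw [Matrix.smul_single, smul_eq_mul, mul_one]
  rw [h, map_smul, Matrix.smul_apply, smul_eq_mul]

/-- a family of regular functions depending linearly on a matrix gives a linear map -/
theorem c9e_lin (I : Module.Dual ℂ G.O) {ι : Type} [Fintype ι] [DecidableEq ι]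
    (F : ι → ι → (Matrix ι ι ℂ →ₗ[ℂ] G.O)) :
    ∃ π : Matrix ι ι ℂ →ₗ[ℂ] Matrix ι ι ℂ, ∀ Z a b, π Z a b = I (F a b Z) := by
  refine ⟨{ toFun := fun Z => Matrix.of fun a b => I (F a b Z), map_add' := ?_, map_smul' := ?_ }, ?_⟩
  · intro Z Z'
    ext a b
    simp
  · intro r Z
    ext a b
    simp
  · intro Z a b
    rfl

/-- the linear map `Z ↦ ∑ i, (ℓ i Z) • f i` -/
theorem c9e_sum {ι κ : Type} [Fintype ι] [Fintype κ] [DecidableEq ι] (ℓ : κ → (Matrix ι ι ℂ →ₗ[ℂ] ℂ))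
    (f : κ → G.O) : ∃ F : Matrix ι ι ℂ →ₗ[ℂ] G.O, ∀ Z g, (F Z).1 g = ∑ k, ℓ k Z * (f k).1 g := by
  refine ⟨∑ k, (ℓ k).smulRight (f k), ?_⟩
  intro Z g
  have h : (∑ k, (ℓ k).smulRight (f k)) Z = ∑ k, (ℓ k Z) • f k := by
    rw [LinearMap.sum_apply]
    rfl
  rw [h]
  have h2 : ((∑ k, (ℓ k Z) • f k : G.O) : G.X → ℂ) = ∑ k, ((ℓ k Z) • (f k).1) := by
    rw [AddSubmonoidClass.coe_finsetSum]
    rfl
  show ((∑ k, (ℓ k Z) • f k : G.O) : G.X → ℂ) g = _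
  rw [h2, Finset.sum_apply]
  rfl

/-- entry of a matrix, as a linear form, times a constant -/
def c9e_ent {ι : Type} (p q : ι) (r : ℂ) : Matrix ι ι ℂ →ₗ[ℂ] ℂ where
  toFun Z := Z p q * r
  map_add' Z Z' := by rw [Matrix.add_apply]; ring
  map_smul' c Z := by rw [Matrix.smul_apply, smul_eq_mul, RingHom.id_apply, smul_eq_mul]; ring

/-- [C9e1] PROOF. The function `g ↦ (ρ(g⁻¹) * π₀ (ρ(g) * Z)) a b` is `∑ c, ρ(g⁻¹) a c * (π₀ (ρ(g) * Z)) c b`; `ρ(g) * Z = ∑ e p, ρ(g) e p * Z p q • single e q 1`, so `(π₀ (ρ(g) Z)) c b = ∑ e q, (∑ p, ρ(g) e p * Z p q) * (π₀ (single e q 1)) c b`: it is the value at `g` of `F Z a b := ∑ c e q p, (Z p q * (π₀ (single e q 1)) c b) • (E.coi a c * E.co e p) : G.O` (`Matrix.sum_single_eq`-like decomposition `Z = ∑ i j, Z i j • single i j 1`: `Matrix.matrix_eq_sum_single`).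
It is linear in `Z`; `π Z a b := I (F Z a b)`. -/
theorem avgL (I : Module.Dual ℂ G.O) (E : Rep G) (π₀ : Matrix E.ι E.ι ℂ →ₗ[ℂ] Matrix E.ι E.ι ℂ) :
    ∃ π : Matrix E.ι E.ι ℂ →ₗ[ℂ] Matrix E.ι E.ι ℂ, ∀ Z a b, ∃ F : G.O,
      (∀ g, F.1 g = (E.ρ g⁻¹ * π₀ (E.ρ g * Z)) a b) ∧ π Z a b = I F := by
  have H : ∀ a b, ∃ F : Matrix E.ι E.ι ℂ →ₗ[ℂ] G.O, ∀ Z g, (F Z).1 g =
      (E.ρ g⁻¹ * π₀ (E.ρ g * Z)) a b := by
    intro a b
    obtain ⟨F, hF⟩ := c9e_sum (G := G) (ι := E.ι) (κ := E.ι × E.ι × E.ι × E.ι)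
      (fun k => c9e_ent k.2.2.2 k.2.2.1 ((π₀ (Matrix.single k.2.1 k.2.2.1 1)) k.1 b))
      (fun k => E.coi a k.1 * E.co k.2.1 k.2.2.2)
    refine ⟨F, ?_⟩
    intro Z g
    rw [hF, Matrix.mul_apply]
    simp only [Fintype.sum_prod_type]
    refine Finset.sum_congr rfl fun c _ => ?_
    rw [c9e_dec, Finset.mul_sum]
    refine Finset.sum_congr rfl fun e _ => ?_
    rw [Finset.mul_sum]
    refine Finset.sum_congr rfl fun q _ => ?_
    rw [Matrix.mul_apply, Finset.sum_mul, Finset.mul_sum]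
    refine Finset.sum_congr rfl fun p _ => ?_
    show (Z p q * _) * (E.ρ g⁻¹ a c * E.ρ g e p) = _
    ring
  choose F hF using H
  obtain ⟨π, hπ⟩ := c9e_lin I F
  exact ⟨π, fun Z a b => ⟨F a b Z, fun g => hF a b Z g, hπ Z a b⟩⟩

/-- [C9e2] PROOF. As `avgL` with `(π₀ (Z * ρ(g)) * ρ(g⁻¹)) a b = ∑ c, (π₀ (Z ρ(g))) a c * ρ(g⁻¹) c b`. -/
theorem avgR (I : Module.Dual ℂ G.O) (E : Rep G) (π₀ : Matrix E.ι E.ι ℂ →ₗ[ℂ] Matrix E.ι E.ι ℂ) :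
    ∃ π : Matrix E.ι E.ι ℂ →ₗ[ℂ] Matrix E.ι E.ι ℂ, ∀ Z a b, ∃ F : G.O,
      (∀ g, F.1 g = (π₀ (Z * E.ρ g) * E.ρ g⁻¹) a b) ∧ π Z a b = I F := by
  have H : ∀ a b, ∃ F : Matrix E.ι E.ι ℂ →ₗ[ℂ] G.O, ∀ Z g, (F Z).1 g =
      (π₀ (Z * E.ρ g) * E.ρ g⁻¹) a b := by
    intro a b
    obtain ⟨F, hF⟩ := c9e_sum (G := G) (ι := E.ι) (κ := E.ι × E.ι × E.ι × E.ι)
      (fun k => c9e_ent k.2.1 k.2.2.2 ((π₀ (Matrix.single k.2.1 k.2.2.1 1)) a k.1))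
      (fun k => E.coi k.1 b * E.co k.2.2.2 k.2.2.1)
    refine ⟨F, ?_⟩
    intro Z g
    rw [hF, Matrix.mul_apply]
    simp only [Fintype.sum_prod_type]
    refine Finset.sum_congr rfl fun c _ => ?_
    rw [c9e_dec, Finset.sum_mul]
    refine Finset.sum_congr rfl fun e _ => ?_
    rw [Finset.sum_mul]
    refine Finset.sum_congr rfl fun q _ => ?_
    rw [Matrix.mul_apply, Finset.sum_mul, Finset.sum_mul]
    refine Finset.sum_congr rfl fun p _ => ?_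
    show (Z e p * _) * (E.ρ g⁻¹ c b * E.ρ g p q) = _
    ring
  choose F hF using H
  obtain ⟨π, hπ⟩ := c9e_lin I F
  exact ⟨π, fun Z a b => ⟨F a b Z, fun g => hF a b Z g, hπ Z a b⟩⟩

end

end Pool.Agent.MTF
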