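import Pool.Agent.MTF.C9e

/-!
# MTF : part C, the equivariant projection of the matrix algebra
-/

set_option linter.unusedSectionVars false

namespace Pool.Agent.MTF

open AffGrp

section
variable {G : AffGrp}

theorem c9f_I (I : Module.Dual ℂ G.O) {κ : Type} [Fintype κ] (F : G.O) (c : κ → ℂ) (F' : κ → G.O)
    (h : ∀ g, F.1 g = ∑ k, c k * (F' k).1 g) : I F = ∑ k, c k * I (F' k) := by
  have e : F = ∑ k, c k • F' k := by
    apply Subtype.ext
    funext g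
    rw [h g]
    have e1 := congrFun (map_sum G.O.val (fun k => c k • F' k) Finset.univ) g
    rw [Finset.sum_apply] at e1
    exact e1.symm
  rw [e, map_sum]
  refine Finset.sum_congr rfl fun k _ => ?_
  rw [map_smul, smul_eq_mul]

theorem c9f_const {I : Module.Dual ℂ G.O} (h1 : I 1 = 1) (F : G.O) (c : ℂ) (h : ∀ g, F.1 g = c) :
    I F = c := by
  have e : F = c • (1 : G.O) := by
    apply Subtype.ext
    funext g
    rw [h g]
    show c = c * 1
    rw [mul_one]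
  rw [e, map_smul, h1, smul_eq_mul, mul_one]

theorem c9f_trace {ι : Type} [Fintype ι] (A B : Matrix ι ι ℂ) :
    (A * B).trace = ∑ p : ι × ι, B p.2 p.1 * A p.1 p.2 := by
  rw [Fintype.sum_prod_type, Matrix.trace]
  refine Finset.sum_congr rfl fun a _ => ?_
  rw [Matrix.diag_apply, Matrix.mul_apply]
  refine Finset.sum_congr rfl fun b _ => ?_
  rw [mul_comm]

/-- the common kernel of the traces against the group -/
def c9f_N (E : Rep G) : Submodule ℂ (Matrix E.ι E.ι ℂ) where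
  carrier := {Z | ∀ x, (Z * E.ρ x).trace = 0}
  add_mem' := fun {Z Z'} h h' x => by
    rw [Matrix.add_mul, Matrix.trace_add, h x, h' x, add_zero]
  zero_mem' := fun x => by rw [Matrix.zero_mul, Matrix.trace_zero]
  smul_mem' := fun c Z h x => by
    rw [Matrix.smul_mul, Matrix.trace_smul, h x, smul_zero]

theorem c9f_mem (E : Rep G) (Z : Matrix E.ι E.ι ℂ) :
    Z ∈ c9f_N E ↔ ∀ x, (Z * E.ρ x).trace = 0 := Iff.rfl

theorem c9f_left (E : Rep G) {Z : Matrix E.ι E.ι ℂ} (h : Z ∈ c9f_N E) (y : G.X) :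
    E.ρ y * Z ∈ c9f_N E := by
  rw [c9f_mem] at h ⊢
  intro x
  rw [Matrix.mul_assoc, Matrix.trace_mul_comm, Matrix.mul_assoc, ← map_mul, h]

theorem c9f_right (E : Rep G) {Z : Matrix E.ι E.ι ℂ} (h : Z ∈ c9f_N E) (y : G.X) :
    Z * E.ρ y ∈ c9f_N E := by
  rw [c9f_mem] at h ⊢
  intro x
  rw [Matrix.mul_assoc, ← map_mul, h]

theorem c9f_proj {V : Type} [AddCommGroup V] [Module ℂ V] (N : Submodule ℂ V) :
    ∃ π₀ : V →ₗ[ℂ] V, (∀ Z ∈ N, π₀ Z = 0) ∧ ∀ Z, π₀ Z - Z ∈ N := by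
  obtain ⟨s, hs⟩ := LinearMap.exists_rightInverse_of_surjective N.mkQ N.range_mkQ
  refine ⟨s ∘ₗ N.mkQ, fun Z hZ => ?_, fun Z => ?_⟩
  · rw [LinearMap.comp_apply, Submodule.mkQ_apply, (Submodule.Quotient.mk_eq_zero N).2 hZ, map_zero]
  · rw [← Submodule.Quotient.eq N]
    exact LinearMap.congr_fun hs (N.mkQ Z)

/-- [C9f] PROOF. `N := {Z | ∀ x, (Z * E.ρ x).trace = 0}`, a submodule stable under left and right multiplication by all `ρ(y)` (`Matrix.trace_mul_cycle`, `map_mul`). `π₀` := the projection with kernel `N` onto a complement (`Submodule.exists_isCompl`, `Submodule.linearProjOfIsCompl`): `π₀ Z - Z ∈ N`, `π₀ Z = 0` for `Z ∈ N`. `π₁` from `avgL I E π₀`, `π` from `avgR I E π₁`. Facts used: if `F F' : G.O` have the same values they are equal; `I` is linear.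
(i) `π₁ (ρ(x) Z) = ρ(x) π₁ Z`: `F_{ρ(x)Z, a, b} (g) = (ρ(g⁻¹) π₀ (ρ(g x) Z)) a b = ∑ c, ρ(x) a c * F_{Z, c, b} (g x)`, i. e. `F_{ρ(x)Z,a,b} = ∑ c, ρ(x) a c • G.rt x F_{Z,c,b}`; `hr`. (ii) `π (ρ(x) Z) = ρ(x) π Z` from (i): `F_{ρ(x)Z,a,b} = ∑ c, ρ(x) a c • F_{Z,c,b}`. (iii) `π (Z ρ(x)) = π Z ρ(x)`: `F_{Zρ(x),a,b} (g) = (π₁ (Z ρ(x g)) ρ(g⁻¹)) a b = ∑ c, F_{Z,a,c} (x g) * ρ(x) c b`, i. e. `F_{Zρ(x),a,b} = ∑ c, ρ(x) c b • G.lt x F_{Z,a,c}`; `hl`.
(iv) `π₁ Z - Z ∈ N`: for a linear functional `μ = ∑ a b, μ a b * (·) a b` vanishing on `N`: `μ (π₁ Z) = I (g ↦ μ (ρ(g⁻¹) π₀ (ρ(g) Z)))` and `μ (ρ(g⁻¹) π₀ (ρ(g) Z)) = μ (ρ(g⁻¹) ρ(g) Z) = μ Z` (stability), `I` of a constant (`h1`). Here `μ Z := (Z * ρ(x)).trace`. The same for `π`. (v) `π₁ Z = 0`, `π Z = 0` for `Z ∈ N`. (vi) The functional `Z ↦ π Z a b` vanishes on `N`, the dual coannihilator of the span `S` of the functionals `Z ↦ (Z * ρ(x)).trace`; by finite dimension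 it is in `S`
(`Subspace.dualCoannihilator_dualAnnihilator_eq` or `Submodule.finiteDimensional..`), so a finite combination (`Submodule.mem_span_range_iff..`, `Finsupp.mem_span_range_iff_exists_finsupp`, enumerate the support by `Fin n`). -/
theorem biproj {I : Module.Dual ℂ G.O} (h1 : I 1 = 1) (hl : ∀ x f, I (G.lt x f) = I f)
    (hr : ∀ x f, I (G.rt x f) = I f) (E : Rep G) :
    ∃ π : Matrix E.ι E.ι ℂ →ₗ[ℂ] Matrix E.ι E.ι ℂ,
      (∀ x Z, π (E.ρ x * Z) = E.ρ x * π Z) ∧ (∀ x Z, π (Z * E.ρ x) = π Z * E.ρ x) ∧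
      (∀ Z x, (π Z * E.ρ x).trace = (Z * E.ρ x).trace) ∧
      ∀ a b, ∃ (n : ℕ) (c : Fin n → ℂ) (x : Fin n → G.X), ∀ Z, π Z a b = ∑ i, c i * (Z * E.ρ (x i)).trace := by
  obtain ⟨π₀, hN0, hN0'⟩ := c9f_proj (c9f_N E)
  obtain ⟨π₁, hπ₁⟩ := avgL I E π₀
  choose F₁ hF₁ hI₁ using hπ₁
  obtain ⟨π, hπ⟩ := avgR I E π₁
  choose F₂ hF₂ hI₂ using hπ
  -- (i)
  have i1 : ∀ x Z, π₁ (E.ρ x * Z) = E.ρ x * π₁ Z := by
    intro x Z
    ext a b
    rw [hI₁, Matrix.mul_apply, c9f_I I (F₁ (E.ρ x * Z) a b) (fun c => E.ρ x a c)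
      (fun c => G.rt x (F₁ Z c b)) (fun g => ?_)]
    · refine Finset.sum_congr rfl fun c _ => ?_
      rw [hr, hI₁]
    · have e1 : E.ρ g⁻¹ * π₀ (E.ρ g * (E.ρ x * Z)) =
          E.ρ x * (E.ρ (g * x)⁻¹ * π₀ (E.ρ (g * x) * Z)) := by
        rw [← Matrix.mul_assoc (E.ρ x), ← map_mul, ← Matrix.mul_assoc (E.ρ g), ← map_mul]
        congr 2
        group
      rw [hF₁, e1, Matrix.mul_apply]
      refine Finset.sum_congr rfl fun c _ => ?_
      show _ = E.ρ x a c * (F₁ Z c b).1 (g * x)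
      rw [hF₁]
  -- (ii)
  have i2 : ∀ x Z, π (E.ρ x * Z) = E.ρ x * π Z := by
    intro x Z
    ext a b
    rw [hI₂, Matrix.mul_apply, c9f_I I (F₂ (E.ρ x * Z) a b) (fun c => E.ρ x a c)
      (fun c => F₂ Z c b) (fun g => ?_)]
    · refine Finset.sum_congr rfl fun c _ => ?_
      rw [hI₂]
    · rw [hF₂, Matrix.mul_assoc, i1, Matrix.mul_assoc, Matrix.mul_apply]
      refine Finset.sum_congr rfl fun c _ => ?_
      rw [hF₂]
  -- (iii)
  have i3 : ∀ x Z, π (Z * E.ρ x) = π Z * E.ρ x := by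
    intro x Z
    ext a b
    rw [hI₂, Matrix.mul_apply, c9f_I I (F₂ (Z * E.ρ x) a b) (fun c => E.ρ x c b)
      (fun c => G.lt x (F₂ Z a c)) (fun g => ?_)]
    · refine Finset.sum_congr rfl fun c _ => ?_
      rw [hl, hI₂, mul_comm]
    · have e1 : π₁ (Z * E.ρ x * E.ρ g) * E.ρ g⁻¹ =
          (π₁ (Z * E.ρ (x * g)) * E.ρ (x * g)⁻¹) * E.ρ x := by
        rw [Matrix.mul_assoc, ← map_mul, Matrix.mul_assoc, ← map_mul]
        congr 2
        group
      rw [hF₂, e1, Matrix.mul_apply]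
      refine Finset.sum_congr rfl fun c _ => ?_
      show _ = E.ρ x c b * (F₂ Z a c).1 (x * g)
      rw [hF₂, mul_comm]
  -- (iv)
  have i4 : ∀ Z x, (π₁ Z * E.ρ x).trace = (Z * E.ρ x).trace := by
    intro Z x
    have e0 : (π₁ Z * E.ρ x).trace =
        ∑ p : E.ι × E.ι, E.ρ x p.2 p.1 * I (F₁ Z p.1 p.2) := by
      rw [c9f_trace]
      refine Finset.sum_congr rfl fun p _ => ?_
      rw [hI₁]
    rw [e0]
    have e2 : ∀ g, (∑ p : E.ι × E.ι, E.ρ x p.2 p.1 • F₁ Z p.1 p.2 : G.O).1 g =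
        (Z * E.ρ x).trace := by
      intro g
      have e3 := congrFun (map_sum G.O.val (fun p : E.ι × E.ι => E.ρ x p.2 p.1 • F₁ Z p.1 p.2)
        Finset.univ) g
      rw [Finset.sum_apply] at e3
      refine e3.trans ?_
      have e4 : (∑ p : E.ι × E.ι, (G.O.val (E.ρ x p.2 p.1 • F₁ Z p.1 p.2)) g) =
          ((E.ρ g⁻¹ * π₀ (E.ρ g * Z)) * E.ρ x).trace := by
        rw [c9f_trace]
        refine Finset.sum_congr rfl fun p _ => ?_
        show E.ρ x p.2 p.1 * (F₁ Z p.1 p.2).1 g = _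
        rw [hF₁]
      rw [e4]
      have e5 : π₀ (E.ρ g * Z) = (π₀ (E.ρ g * Z) - E.ρ g * Z) + E.ρ g * Z := by abel
      have e6 := (c9f_mem E _).1 (c9f_left E (hN0' (E.ρ g * Z)) g⁻¹) x
      rw [e5, Matrix.mul_add, Matrix.add_mul, Matrix.trace_add, e6, zero_add,
        ← Matrix.mul_assoc (E.ρ g⁻¹), ← map_mul, inv_mul_cancel, map_one, Matrix.one_mul]
    have e7 := c9f_const h1 _ _ e2
    rw [← e7, map_sum]
    refine Finset.sum_congr rfl fun p _ => ?_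
    rw [map_smul, smul_eq_mul]
  have i5 : ∀ Z x, (π Z * E.ρ x).trace = (Z * E.ρ x).trace := by
    intro Z x
    have e0 : (π Z * E.ρ x).trace =
        ∑ p : E.ι × E.ι, E.ρ x p.2 p.1 * I (F₂ Z p.1 p.2) := by
      rw [c9f_trace]
      refine Finset.sum_congr rfl fun p _ => ?_
      rw [hI₂]
    rw [e0]
    have e2 : ∀ g, (∑ p : E.ι × E.ι, E.ρ x p.2 p.1 • F₂ Z p.1 p.2 : G.O).1 g =
        (Z * E.ρ x).trace := by
      intro g
      have e3 := congrFun (map_sum G.O.val (fun p : E.ι × E.ι => E.ρ x p.2 p.1 • F₂ Z p.1 p.2)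
        Finset.univ) g
      rw [Finset.sum_apply] at e3
      refine e3.trans ?_
      have e4 : (∑ p : E.ι × E.ι, (G.O.val (E.ρ x p.2 p.1 • F₂ Z p.1 p.2)) g) =
          ((π₁ (Z * E.ρ g) * E.ρ g⁻¹) * E.ρ x).trace := by
        rw [c9f_trace]
        refine Finset.sum_congr rfl fun p _ => ?_
        show E.ρ x p.2 p.1 * (F₂ Z p.1 p.2).1 g = _
        rw [hF₂]
      rw [e4, Matrix.mul_assoc, ← map_mul, i4, Matrix.mul_assoc, ← map_mul]
      congr 3
      group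
    have e7 := c9f_const h1 _ _ e2
    rw [← e7, map_sum]
    refine Finset.sum_congr rfl fun p _ => ?_
    rw [map_smul, smul_eq_mul]
  -- (v)
  have i6 : ∀ Z ∈ c9f_N E, π₁ Z = 0 := by
    intro Z hZ
    ext a b
    rw [hI₁, c9f_const h1 (F₁ Z a b) 0 (fun g => ?_)]
    · rfl
    · rw [hF₁, hN0 _ (c9f_left E hZ g), Matrix.mul_zero]
      rfl
  have i7 : ∀ Z ∈ c9f_N E, π Z = 0 := by
    intro Z hZ
    ext a b
    rw [hI₂, c9f_const h1 (F₂ Z a b) 0 (fun g => ?_)]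
    · rfl
    · rw [hF₂, i6 _ (c9f_right E hZ g), Matrix.zero_mul]
      rfl
  refine ⟨π, i2, i3, i5, fun a b => ?_⟩
  -- (vi)
  let τ : G.X → Module.Dual ℂ (Matrix E.ι E.ι ℂ) := fun x =>
    { toFun := fun Z => (Z * E.ρ x).trace
      map_add' := fun Z Z' => by rw [Matrix.add_mul, Matrix.trace_add]
      map_smul' := fun c Z => by rw [Matrix.smul_mul, Matrix.trace_smul]; rfl }
  let φ : Module.Dual ℂ (Matrix E.ι E.ι ℂ) :=
    { toFun := fun Z => π Z a b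
      map_add' := fun Z Z' => by rw [map_add, Matrix.add_apply]
      map_smul' := fun c Z => by rw [map_smul, Matrix.smul_apply]; rfl }
  have hφ : φ ∈ Submodule.span ℂ (Set.range τ) := by
    rw [← Subspace.dualCoannihilator_dualAnnihilator_eq (W := Submodule.span ℂ (Set.range τ)),
      Submodule.mem_dualAnnihilator]
    intro Z hZ
    rw [Submodule.mem_dualCoannihilator] at hZ
    have hZN : Z ∈ c9f_N E := fun x => hZ (τ x) (Submodule.subset_span ⟨x, rfl⟩)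
    show π Z a b = 0
    rw [i7 Z hZN]
    rfl
  obtain ⟨c, hc⟩ := (Finsupp.mem_span_range_iff_exists_finsupp).1 hφ
  refine ⟨c.support.card, fun i => c (c.support.equivFin.symm i),
    fun i => (c.support.equivFin.symm i : G.X), fun Z => ?_⟩
  have e1 : π Z a b = (c.sum fun x t => t • τ x) Z := by
    rw [hc]
    rfl
  have e2 : (c.sum fun x t => t • τ x) Z = ∑ x ∈ c.support, c x * (Z * E.ρ x).trace := by
    unfold Finsupp.sum
    rw [LinearMap.sum_apply]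
    rfl
  rw [e1, e2, ← Finset.sum_coe_sort]
  exact (Equiv.sum_comp c.support.equivFin.symm
    (fun x : c.support => c x * (Z * E.ρ x).trace)).symm

end

end Pool.Agent.MTF
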