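import Mathlib
import Pool.Agent.MP_c45d35_ag.Val

/-!
# MTF, part K : descent of functions along a dominant morphism of affine varieties

`Y = {y ∈ ℂ^σ | E y = 0}` irreducible, `z : Y → ℂ^τ` surjective, `f` a polynomial on `Y`, integral over
the coordinates of `z` and constant on the fibres of `z` (outside a hypersurface): then `f` is a
polynomial in `z`.
-/

namespace Pool.Agent.MTF.D1

open Pool.Agent.MP_c45d35_ag (transfer isIntegral_of_valuations)

/-- the points of the variety -/
def Pts {σ : Type} (E : Set (MvPolynomial σ ℂ)) : Set (σ → ℂ) :=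
  {y | ∀ e ∈ E, MvPolynomial.eval y e = 0}

/-- The ideal of the polynomials vanishing on the points. -/
def Van {σ : Type} (E : Set (MvPolynomial σ ℂ)) : Ideal (MvPolynomial σ ℂ) where
  carrier := {p | ∀ y ∈ Pts E, MvPolynomial.eval y p = 0}
  add_mem' := fun ha hb y hy => by rw [map_add, ha y hy, hb y hy, add_zero]
  zero_mem' := fun y _ => map_zero _
  smul_mem' := fun c p hp y hy => by rw [smul_eq_mul, map_mul, hp y hy, mul_zero]

end Pool.Agent.MTF.D1
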