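import Pool.Agent.MTF.D0

namespace Pool.Agent.MTF.D1

open Pool.Agent.MP_c45d35_ag (transfer isIntegral_of_valuations)

open scoped TensorProduct in
/-- amalgamation of two field extensions -/
theorem d1a_amalg {M Λ Ω₀ : Type} [Field M] [Field Λ] [Field Ω₀] (f : M →+* Λ) (g : M →+* Ω₀) :
    ∃ (Ω : Type) (_ : Field Ω) (a : Λ →+* Ω) (b : Ω₀ →+* Ω), ∀ x, a (f x) = b (g x) := by
  letI := f.toAlgebra
  letI := g.toAlgebra
  have hnt : Nontrivial (Λ ⊗[M] Ω₀) := inferInstance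
  obtain ⟨I, hI⟩ := Ideal.exists_maximal (Λ ⊗[M] Ω₀)
  refine ⟨(Λ ⊗[M] Ω₀) ⧸ I, Ideal.Quotient.field I,
    (Ideal.Quotient.mk I).comp
      ((Algebra.TensorProduct.includeLeft : Λ →ₐ[M] Λ ⊗[M] Ω₀) : Λ →+* Λ ⊗[M] Ω₀),
    (Ideal.Quotient.mk I).comp
      ((Algebra.TensorProduct.includeRight : Ω₀ →ₐ[M] Λ ⊗[M] Ω₀) : Ω₀ →+* Λ ⊗[M] Ω₀),
    fun x => ?_⟩
  show Ideal.Quotient.mk I ((algebraMap M Λ x) ⊗ₜ[M] (1 : Ω₀)) =
    Ideal.Quotient.mk I ((1 : Λ) ⊗ₜ[M] (algebraMap M Ω₀ x))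
  congr 1
  rw [Algebra.algebraMap_eq_smul_one, Algebra.algebraMap_eq_smul_one, TensorProduct.smul_tmul]

/-- another root -/
theorem d1a_root {k Λ : Type} [Field k] [Field Λ] [Algebra k Λ] [CharZero k] (α : Λ)
    (hα : IsIntegral k α) (hn : ∀ x : k, algebraMap k Λ x ≠ α) :
    ∃ α' : AlgebraicClosure Λ, Polynomial.aeval α' (minpoly k α) = 0 ∧
      α' ≠ algebraMap Λ (AlgebraicClosure Λ) α := by
  by_contra hcon
  push Not at hcon
  have hsep : (minpoly k α).Separable := (minpoly.irreducible hα).separable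
  have hcard := Polynomial.card_rootSet_eq_natDegree (K := AlgebraicClosure Λ) hsep
    (IsAlgClosed.splits _)
  have hle : Fintype.card ((minpoly k α).rootSet (AlgebraicClosure Λ)) ≤ 1 := by
    rw [Fintype.card_le_one_iff]
    rintro ⟨a, ha⟩ ⟨b, hb⟩
    apply Subtype.ext
    have ha' := (Polynomial.mem_rootSet.1 ha).2
    have hb' := (Polynomial.mem_rootSet.1 hb).2
    show a = b
    rw [hcon a ha', hcon b hb']
  have hpos : 0 < (minpoly k α).natDegree := minpoly.natDegree_pos hα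
  have h1 : (minpoly k α).natDegree = 1 := by omega
  obtain ⟨x, hx⟩ := minpoly.natDegree_eq_one_iff.1 h1
  exact hn x hx

/-- (row D1a) Two different embeddings.  Proof.  Let `M = k⟮α⟯` (`IntermediateField.adjoin k {α}`), `α` algebraic over `k`
and not in the image of `k`, characteristic `0`.  The minimal polynomial `m` of `α` over `k` has degree `≥ 2` and is separable, so in
`Ω₀ := AlgebraicClosure Λ` it has a root `α' ≠ α` (the image of `α`); let `τ : M →ₐ[k] Ω₀`, `τ α = α'`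
(`IntermediateField.adjoin.powerBasis`/`algHomAdjoinIntegralEquiv`).  Make `Ω₀` an `M`-algebra through `τ` and consider
`T := Λ ⊗[M] Ω₀` (`M ⊂ Λ` by inclusion): nonzero (free over the field `Ω₀` with `Λ ≠ 0`), let `Ω := T / maximal ideal`, a field,
`φ₁ : Λ → T → Ω`, `φ₂ : Λ → Ω₀ → T → Ω`.  Both are `k`-algebra homomorphisms (`τ` is the identity on `k`), and
`φ₁ α = (α ⊗ 1) = (1 ⊗ τ α) = ` image of `α'`, different from the image `φ₂ α` of `α` since `Ω₀ → Ω` is injective. -/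
theorem two_emb {k Λ : Type} [Field k] [Field Λ] [Algebra k Λ] [CharZero k] (α : Λ)
    (hα : IsAlgebraic k α) (hn : ∀ x : k, algebraMap k Λ x ≠ α) :
    ∃ (Ω : Type) (_ : Field Ω) (φ₁ φ₂ : Λ →+* Ω), (∀ x : k, φ₁ (algebraMap k Λ x) = φ₂ (algebraMap k Λ x)) ∧
      φ₁ α ≠ φ₂ α := by
  have hint : IsIntegral k α := hα.isIntegral
  obtain ⟨α', h1, h2⟩ := d1a_root α hint hn
  have hfact : Fact (Irreducible (minpoly k α)) := ⟨minpoly.irreducible hint⟩
  obtain ⟨Ω, hΩ, a, b, hab⟩ := d1a_amalg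
    (AdjoinRoot.lift (algebraMap k Λ) α (by
      have h := minpoly.aeval k α
      rwa [Polynomial.aeval_def] at h) : AdjoinRoot (minpoly k α) →+* Λ)
    (AdjoinRoot.lift (algebraMap k (AlgebraicClosure Λ)) α' (by
      rwa [Polynomial.aeval_def] at h1) : AdjoinRoot (minpoly k α) →+* AlgebraicClosure Λ)
  refine ⟨Ω, hΩ, a, b.comp (algebraMap Λ (AlgebraicClosure Λ)), ?_, ?_⟩
  · intro x
    have h := hab (AdjoinRoot.of _ x)
    rw [AdjoinRoot.lift_of, AdjoinRoot.lift_of] at h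
    rw [h, RingHom.comp_apply, ← IsScalarTower.algebraMap_apply]
  · have h := hab (AdjoinRoot.root _)
    rw [AdjoinRoot.lift_root, AdjoinRoot.lift_root] at h
    rw [h, RingHom.comp_apply]
    exact fun h3 => h2 (b.injective h3)

end Pool.Agent.MTF.D1
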