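import Pool.Agent.MTF.D0
import Pool.Agent.MTF.D1a

namespace Pool.Agent.MTF.D1

open Pool.Agent.MP_c45d35_ag (transfer isIntegral_of_valuations)

/-- (row D1b) Descent.  `hdom`: the variety is irreducible; `hdense`: `z` is dominant; `hf`: `f` is constant on the fibres of `z`
outside `δ = 0`; `q`: a monic polynomial with coefficients in the polynomials of `z` that kills `f`.

Proof.  `S₀ := MvPolynomial σ ℂ ⧸ Van E` is a domain (`hdom`; `Van E ≠ ⊤` since `Pts E ≠ ∅` by `hdense` for `p = 1`), `R₀ := MvPolynomial τ ℂ`,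
`ζ : R₀ → S₀`, `X j ↦ z j`, is injective (`hdense`).  `Λ := FractionRing S₀`, `k := FractionRing R₀`, `Λ` a `k`-algebra
(`IsFractionRing` lift of the injective map `ζ`).  `α := ` the class of `f`.  It is integral over `R₀` by `q` (the value of the
polynomial at `f` lies in `Van E`).  CLAIM: `α ∈ k`.  Otherwise `two_emb` gives a field `Ω` and `φ₁, φ₂ : Λ → Ω` that agree on `k` with
`φ₁ α ≠ φ₂ α`; `Ω` is a `ℂ`-algebra through `ℂ → R₀ → k → Λ → Ω` (the same for both).  Let `v : σ ⊕ σ → Ω` be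
`(φ₁ (X i), φ₂ (X i))`.  Apply `transfer` (variables `σ ⊕ σ`) to the set of equations
`{rename inl e, rename inr e | e ∈ Van E} ∪ {rename inl (z j) - rename inr (z j) | j}` and the polynomial
`rename inl δ * rename inr δ * (rename inl f - rename inr f)`: complex points of the equations are pairs `y, y' ∈ Pts E` (take `e ∈ E ⊂ Van E`) with
`z y = z y'`, so the polynomial vanishes by `hf`.  At `v` the equations hold (`φ₁`, `φ₂` are defined on `S₀`, and
`φ₁ (z j) = φ₂ (z j)` since `z j ∈ k`).  So `φ₁ δ * φ₂ δ * (φ₁ α - φ₂ α) = 0`; `δ ≠ 0` in the domain `S₀` (`hδ`), `φᵢ` injective: contradiction.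
So `α = ` image of some element of `k`, integral over `R₀` (injectivity of `k → Λ`), and `R₀` is integrally closed (UFD): `α = ζ p`. -/
theorem desc {σ τ : Type} [Finite σ] [Finite τ] (E : Set (MvPolynomial σ ℂ))
    (hdom : ∀ p q : MvPolynomial σ ℂ, p * q ∈ Van E → p ∈ Van E ∨ q ∈ Van E)
    (z : τ → MvPolynomial σ ℂ)
    (hdense : ∀ p : MvPolynomial τ ℂ, (∀ y ∈ Pts E,
      MvPolynomial.eval (fun j => MvPolynomial.eval y (z j)) p = 0) → p = 0)
    (δ f : MvPolynomial σ ℂ) (hδ : δ ∉ Van E)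
    (hf : ∀ y ∈ Pts E, ∀ y' ∈ Pts E, (∀ j, MvPolynomial.eval y (z j) = MvPolynomial.eval y' (z j)) →
      MvPolynomial.eval y δ ≠ 0 → MvPolynomial.eval y' δ ≠ 0 →
      MvPolynomial.eval y f = MvPolynomial.eval y' f)
    (q : Polynomial (MvPolynomial τ ℂ)) (hq : q.Monic)
    (hqf : Polynomial.eval₂ (MvPolynomial.aeval z : MvPolynomial τ ℂ →ₐ[ℂ] MvPolynomial σ ℂ).toRingHom f q
      ∈ Van E) :
    ∃ p : MvPolynomial τ ℂ, ∀ y ∈ Pts E,
      MvPolynomial.eval (fun j => MvPolynomial.eval y (z j)) p = MvPolynomial.eval y f := by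
  classical
  have hne : Van E ≠ ⊤ := by
    intro h
    have h0 : (1 : MvPolynomial τ ℂ) = 0 := by
      apply hdense
      intro y hy
      have h1 : (1 : MvPolynomial σ ℂ) ∈ Van E := by rw [h]; trivial
      have h2 := h1 y hy
      rw [map_one] at h2
      exact absurd h2 one_ne_zero
    exact one_ne_zero h0
  haveI hprime : (Van E).IsPrime := ⟨hne, fun {p q} h => hdom p q h⟩
  let ζ : MvPolynomial τ ℂ →ₐ[ℂ] (MvPolynomial σ ℂ ⧸ Van E) :=
    (Ideal.Quotient.mkₐ ℂ (Van E)).comp (MvPolynomial.aeval z)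
  have hev : ∀ (p : MvPolynomial τ ℂ) (y : σ → ℂ), MvPolynomial.eval y (MvPolynomial.aeval z p) =
      MvPolynomial.eval (fun j => MvPolynomial.eval y (z j)) p := by
    intro p y
    rw [← MvPolynomial.coe_aeval_eq_eval y]
    show (MvPolynomial.aeval y) ((MvPolynomial.aeval z) p) = _
    rw [← AlgHom.comp_apply, MvPolynomial.comp_aeval]
    rfl
  have hζ : Function.Injective ζ := by
    rw [injective_iff_map_eq_zero]
    intro p hp
    have h1 : MvPolynomial.aeval z p ∈ Van E := Ideal.Quotient.eq_zero_iff_mem.1 hp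
    apply hdense
    intro y hy
    have h2 := h1 y hy
    rwa [hev] at h2
  let Λ := FractionRing (MvPolynomial σ ℂ ⧸ Van E)
  let k := FractionRing (MvPolynomial τ ℂ)
  let ζ' : MvPolynomial τ ℂ →+* Λ := (algebraMap (MvPolynomial σ ℂ ⧸ Van E) Λ).comp ζ.toRingHom
  have hζ' : Function.Injective ζ' :=
    (IsFractionRing.injective (MvPolynomial σ ℂ ⧸ Van E) Λ).comp hζ
  letI algk : Algebra k Λ := (IsFractionRing.lift hζ' : k →+* Λ).toAlgebra
  have hk : ∀ p : MvPolynomial τ ℂ, algebraMap k Λ (algebraMap (MvPolynomial τ ℂ) k p) = ζ' p :=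
    fun p => IsFractionRing.lift_algebraMap hζ' p
  haveI : CharZero k := charZero_of_injective_algebraMap (algebraMap ℂ k).injective
  let θ : MvPolynomial σ ℂ →+* Λ :=
    (algebraMap (MvPolynomial σ ℂ ⧸ Van E) Λ).comp (Ideal.Quotient.mk (Van E))
  have hθ0 : ∀ p, θ p = 0 ↔ p ∈ Van E := by
    intro p
    rw [← Ideal.Quotient.eq_zero_iff_mem]
    constructor
    · intro h
      apply IsFractionRing.injective (MvPolynomial σ ℂ ⧸ Van E) Λ
      rw [map_zero]
      exact h
    · intro h
      show algebraMap (MvPolynomial σ ℂ ⧸ Van E) Λ (Ideal.Quotient.mk (Van E) p) = 0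
      rw [h, map_zero]
  have hqα : Polynomial.eval₂ ζ' (θ f) q = 0 := by
    have h1 := (hθ0 _).2 hqf
    rw [Polynomial.hom_eval₂] at h1
    exact h1
  have hint : IsIntegral k (θ f) := by
    refine ⟨q.map (algebraMap (MvPolynomial τ ℂ) k), hq.map _, ?_⟩
    rw [Polynomial.eval₂_map]
    have : (algebraMap k Λ).comp (algebraMap (MvPolynomial τ ℂ) k) = ζ' := RingHom.ext hk
    rw [this]
    exact hqα
  have hex : ∃ x : k, algebraMap k Λ x = θ f := by
    by_contra hcon
    push Not at hcon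
    obtain ⟨Ω, hΩ, φ₁, φ₂, hφ, hne'⟩ := two_emb (k := k) (Λ := Λ) (θ f) hint.isAlgebraic hcon
    letI := hΩ
    letI : Algebra ℂ Ω := (φ₁.comp (θ.comp MvPolynomial.C)).toAlgebra
    have hC : ∀ c : ℂ, φ₂ (θ (MvPolynomial.C c)) = φ₁ (θ (MvPolynomial.C c)) := by
      intro c
      have h1 : θ (MvPolynomial.C c) = algebraMap k Λ (algebraMap (MvPolynomial τ ℂ) k
          (MvPolynomial.C c)) := by
        rw [hk]
        show algebraMap (MvPolynomial σ ℂ ⧸ Van E) Λ (Ideal.Quotient.mk (Van E) (MvPolynomial.C c)) =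
          algebraMap (MvPolynomial σ ℂ ⧸ Van E) Λ (Ideal.Quotient.mk (Van E)
            (MvPolynomial.aeval z (MvPolynomial.C c)))
        rw [MvPolynomial.aeval_C]
        rfl
      rw [h1, hφ]
    let v : σ ⊕ σ → Ω := Sum.elim (fun i => φ₁ (θ (MvPolynomial.X i)))
      (fun i => φ₂ (θ (MvPolynomial.X i)))
    have hv1 : ∀ p : MvPolynomial σ ℂ, MvPolynomial.aeval v (MvPolynomial.rename Sum.inl p) =
        φ₁ (θ p) := by
      intro p
      rw [MvPolynomial.aeval_rename]
      have : (MvPolynomial.aeval (v ∘ Sum.inl) : MvPolynomial σ ℂ →ₐ[ℂ] Ω).toRingHom =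
          φ₁.comp θ := by
        apply MvPolynomial.ringHom_ext
        · intro c
          show MvPolynomial.aeval (v ∘ Sum.inl) (MvPolynomial.C c) = _
          rw [MvPolynomial.aeval_C]
          rfl
        · intro i
          show MvPolynomial.aeval (v ∘ Sum.inl) (MvPolynomial.X i) = _
          rw [MvPolynomial.aeval_X]
          rfl
      exact RingHom.congr_fun this p
    have hv2 : ∀ p : MvPolynomial σ ℂ, MvPolynomial.aeval v (MvPolynomial.rename Sum.inr p) =
        φ₂ (θ p) := by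
      intro p
      rw [MvPolynomial.aeval_rename]
      have : (MvPolynomial.aeval (v ∘ Sum.inr) : MvPolynomial σ ℂ →ₐ[ℂ] Ω).toRingHom =
          φ₂.comp θ := by
        apply MvPolynomial.ringHom_ext
        · intro c
          show MvPolynomial.aeval (v ∘ Sum.inr) (MvPolynomial.C c) = φ₂ (θ (MvPolynomial.C c))
          rw [MvPolynomial.aeval_C, hC]
          rfl
        · intro i
          show MvPolynomial.aeval (v ∘ Sum.inr) (MvPolynomial.X i) = _
          rw [MvPolynomial.aeval_X]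
          rfl
      exact RingHom.congr_fun this p
    let Es : Set (MvPolynomial (σ ⊕ σ) ℂ) :=
      {e' | (∃ e ∈ E, e' = MvPolynomial.rename Sum.inl e ∨ e' = MvPolynomial.rename Sum.inr e) ∨
        ∃ j, e' = MvPolynomial.rename Sum.inl (z j) - MvPolynomial.rename Sum.inr (z j)}
    have htr := transfer Es (MvPolynomial.rename Sum.inl δ * MvPolynomial.rename Sum.inr δ *
        (MvPolynomial.rename Sum.inl f - MvPolynomial.rename Sum.inr f)) (by
      intro w hw
      have hy : w ∘ Sum.inl ∈ Pts E := by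
        intro e he
        have := hw (MvPolynomial.rename Sum.inl e) (Or.inl ⟨e, he, Or.inl rfl⟩)
        rwa [MvPolynomial.eval_rename] at this
      have hy' : w ∘ Sum.inr ∈ Pts E := by
        intro e he
        have := hw (MvPolynomial.rename Sum.inr e) (Or.inl ⟨e, he, Or.inr rfl⟩)
        rwa [MvPolynomial.eval_rename] at this
      have hz : ∀ j, MvPolynomial.eval (w ∘ Sum.inl) (z j) = MvPolynomial.eval (w ∘ Sum.inr) (z j) := by
        intro j
        have := hw _ (Or.inr ⟨j, rfl⟩)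
        rw [map_sub, MvPolynomial.eval_rename, MvPolynomial.eval_rename] at this
        exact sub_eq_zero.1 this
      rw [map_mul, map_mul, map_sub, MvPolynomial.eval_rename, MvPolynomial.eval_rename,
        MvPolynomial.eval_rename, MvPolynomial.eval_rename]
      by_cases h1 : MvPolynomial.eval (w ∘ Sum.inl) δ = 0
      · rw [h1]; ring
      by_cases h2 : MvPolynomial.eval (w ∘ Sum.inr) δ = 0
      · rw [h2]; ring
      rw [hf _ hy _ hy' hz h1 h2]
      ring) v (by
      rintro e' (⟨e, he, rfl | rfl⟩ | ⟨j, rfl⟩)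
      · rw [hv1, (hθ0 e).2 (fun y hy => hy e he), map_zero]
      · rw [hv2, (hθ0 e).2 (fun y hy => hy e he), map_zero]
      · rw [map_sub, hv1, hv2]
        have h1 : θ (z j) = algebraMap k Λ (algebraMap (MvPolynomial τ ℂ) k (MvPolynomial.X j)) := by
          rw [hk]
          show algebraMap (MvPolynomial σ ℂ ⧸ Van E) Λ (Ideal.Quotient.mk (Van E) (z j)) =
            algebraMap (MvPolynomial σ ℂ ⧸ Van E) Λ (Ideal.Quotient.mk (Van E)
              (MvPolynomial.aeval z (MvPolynomial.X j)))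
          rw [MvPolynomial.aeval_X]
        rw [h1, hφ, sub_self])
    rw [map_mul, map_mul, map_sub, hv1, hv2, hv1, hv2] at htr
    have hδθ : θ δ ≠ 0 := fun h => hδ ((hθ0 δ).1 h)
    have hd1 : φ₁ (θ δ) ≠ 0 := fun h => hδθ (φ₁.injective (by rw [h, map_zero]))
    have hd2 : φ₂ (θ δ) ≠ 0 := fun h => hδθ (φ₂.injective (by rw [h, map_zero]))
    rcases mul_eq_zero.1 htr with h | h
    · rcases mul_eq_zero.1 h with h | h
      · exact hd1 h
      · exact hd2 h
    · exact hne' (sub_eq_zero.1 h)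
  obtain ⟨x, hx⟩ := hex
  have hxint : IsIntegral (MvPolynomial τ ℂ) x := by
    refine ⟨q, hq, ?_⟩
    apply (algebraMap k Λ).injective
    rw [map_zero, Polynomial.hom_eval₂, hx]
    have : (algebraMap k Λ).comp (algebraMap (MvPolynomial τ ℂ) k) = ζ' := RingHom.ext hk
    rw [this]
    exact hqα
  obtain ⟨p, hp⟩ := IsIntegrallyClosed.algebraMap_eq_of_integral hxint
  refine ⟨p, fun y hy => ?_⟩
  have h1 : θ (MvPolynomial.aeval z p - f) = 0 := by
    rw [map_sub, ← hx, ← hp, hk]
    exact sub_self _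
  have h2 := (hθ0 _).1 h1 y hy
  rw [map_sub, hev] at h2
  exact sub_eq_zero.1 h2

end Pool.Agent.MTF.D1
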