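import Pool.Agent.MTF.D0

namespace Pool.Agent.MTF.D1

open Pool.Agent.MP_c45d35_ag (transfer isIntegral_of_valuations)

/-- (row D1c) Integrality from valuations.  Proof: `C := MvPolynomial σ ℂ ⧸ Van E` is noetherian and reduced (`Van E` is radical:
`p ^ m` vanishes at a point iff `p` does).  `R := ` the subalgebra generated by the classes of the `z j`
(the range of `MvPolynomial.aeval`), `isIntegral_of_valuations R c` for `c = ` class of `f`: for `φ : C →+* K` give `K` the `ℂ`-algebra
structure through `φ`, `y i := φ (X i)`; `aeval y p = φ (class of p)` for all `p`; the polynomials in `Van E` vanish at `y`; the hypothesis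
on `V`: `φ r ∈ V` for `r ∈ R` gives `ℂ ⊂ V` and `aeval y (z j) ∈ V`.  So `f` is integral over `R`: a monic polynomial over `R`; lift its
coefficients to `MvPolynomial τ ℂ` (`Polynomial.lifts_and_natDegree_eq_and_monic`). -/
theorem int_of_val {σ τ : Type} [Finite σ] [Finite τ] (E : Set (MvPolynomial σ ℂ))
    (z : τ → MvPolynomial σ ℂ) (f : MvPolynomial σ ℂ)
    (h : ∀ (K : Type) [Field K] [Algebra ℂ K] (V : ValuationSubring K),
      (∀ c : ℂ, algebraMap ℂ K c ∈ V) → ∀ y : σ → K, (∀ e ∈ Van E, MvPolynomial.aeval y e = 0) →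
      (∀ j, MvPolynomial.aeval y (z j) ∈ V) → MvPolynomial.aeval y f ∈ V) :
    ∃ q : Polynomial (MvPolynomial τ ℂ), q.Monic ∧
      Polynomial.eval₂ (MvPolynomial.aeval z : MvPolynomial τ ℂ →ₐ[ℂ] MvPolynomial σ ℂ).toRingHom f q
        ∈ Van E := by
  classical
  have hrad : (Van E).IsRadical := by
    rintro p ⟨m, hm⟩ y hy
    have h1 := hm y hy
    rw [map_pow] at h1
    exact eq_zero_of_pow_eq_zero h1
  haveI hred : IsReduced (MvPolynomial σ ℂ ⧸ Van E) := (Ideal.isRadical_iff_quotient_reduced _).1 hrad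
  let ζ : MvPolynomial τ ℂ →ₐ[ℂ] (MvPolynomial σ ℂ ⧸ Van E) :=
    (Ideal.Quotient.mkₐ ℂ (Van E)).comp (MvPolynomial.aeval z)
  have hint : IsIntegral ζ.range (Ideal.Quotient.mk (Van E) f) := by
    apply isIntegral_of_valuations
    intro K _ φ _ V hV
    letI : Algebra ℂ K := (φ.comp (algebraMap ℂ (MvPolynomial σ ℂ ⧸ Van E))).toAlgebra
    let ψ : MvPolynomial σ ℂ →ₐ[ℂ] K :=
      { φ.comp (Ideal.Quotient.mk (Van E)) with commutes' := fun _ => rfl }
    have hψ : ∀ p, MvPolynomial.aeval (fun i => φ (Ideal.Quotient.mk (Van E) (MvPolynomial.X i))) p =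
        φ (Ideal.Quotient.mk (Van E) p) := by
      intro p
      have h1 := MvPolynomial.aeval_unique ψ
      have h2 : MvPolynomial.aeval (fun i => φ (Ideal.Quotient.mk (Van E) (MvPolynomial.X i))) p =
          ψ p := by
        rw [h1]
        rfl
      rw [h2]
      rfl
    have h3 := h K V (fun c => by
        have : algebraMap ℂ (MvPolynomial σ ℂ ⧸ Van E) c ∈ ζ.range := ζ.range.algebraMap_mem c
        exact hV _ this)
      (fun i => φ (Ideal.Quotient.mk (Van E) (MvPolynomial.X i)))
      (fun e he => by rw [hψ, Ideal.Quotient.eq_zero_iff_mem.2 he, map_zero])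
      (fun j => by
        rw [hψ]
        apply hV
        refine ⟨MvPolynomial.X j, ?_⟩
        show Ideal.Quotient.mk (Van E) (MvPolynomial.aeval z (MvPolynomial.X j)) = _
        rw [MvPolynomial.aeval_X])
    rw [hψ] at h3
    exact h3
  obtain ⟨g, hgm, hg0⟩ := hint
  have hlift : g ∈ Polynomial.lifts (ζ.rangeRestrict : MvPolynomial τ ℂ →+* ζ.range) := by
    rw [Polynomial.lifts_iff_coeff_lifts]
    intro m
    exact ζ.rangeRestrict_surjective _
  obtain ⟨q, hq, -, hqm⟩ := Polynomial.lifts_and_natDegree_eq_and_monic hlift hgm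
  refine ⟨q, hqm, ?_⟩
  rw [← Ideal.Quotient.eq_zero_iff_mem, Polynomial.hom_eval₂]
  rw [← hq, Polynomial.eval₂_map] at hg0
  exact hg0

end Pool.Agent.MTF.D1
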