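import Mathlib

/-!
# MTF : the Moore–Tachikawa conjecture, definitions for the final statement

* `AffGrp` : complex affine algebraic groups (points + regular functions), `AffGrp.Lie` : the Lie
  algebra (point derivations at `1`), `AffGrp.Ad`, `AffGrp.ad`, `AffGrp.killing`, `AffGrp.pow` : `G^I`.
* `Ham G H` : affine Poisson schemes of finite type with an action of `G × H`, `G` acting
  Hamiltonianly and `H` acting Hamiltonianly for the negated bracket (representatives of the
  morphisms `G → H` of the category `MT`).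
* `IsComp M N P` : `P` is the Hamiltonian reduction `(M × N) //_0 H`.
* `InMT P` : `P` is an integral variety whose Poisson structure is generically symplectic.
* `Cob I J` : two-dimensional oriented cobordisms (up to diffeomorphism).
-/

namespace Pool.Agent.MTF

open TensorProduct

/-- A complex affine algebraic group: the group `X` of its points and the algebra `O` of its
regular functions. -/
structure AffGrp where
  X : Type
  [grp : Group X]
  O : Subalgebra ℂ (X → ℂ)
  fg : O.FG
  /-- every character of `O` is the evaluation at a point -/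
  pts : ∀ φ : O →ₐ[ℂ] ℂ, ∃ x : X, ∀ f : O, φ f = f.1 x
  /-- the regular functions separate the points -/
  sep : ∀ x y : X, (∀ f ∈ O, f x = f y) → x = y
  /-- the multiplication is a morphism -/
  mul_mem : ∀ f ∈ O, ∃ (n : ℕ) (a b : Fin n → O), ∀ x y : X,
    f (x * y) = ∑ i, (a i).1 x * (b i).1 y
  /-- the inversion is a morphism -/
  inv_mem : ∀ f ∈ O, (fun x : X => f x⁻¹) ∈ O

attribute [instance] AffGrp.grp

namespace AffGrp
variable (G : AffGrp)

theorem left_mem (x : G.X) {f : G.X → ℂ} (hf : f ∈ G.O) : (fun y => f (x * y)) ∈ G.O := by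
  obtain ⟨n, a, b, h⟩ := G.mul_mem f hf
  have : (fun y => f (x * y)) = ∑ i, (a i).1 x • (b i).1 := by
    funext y
    simp [h, Finset.sum_apply]
  rw [this]
  exact Subalgebra.sum_mem _ fun i _ => Subalgebra.smul_mem _ (b i).2 _

theorem right_mem (y : G.X) {f : G.X → ℂ} (hf : f ∈ G.O) : (fun x => f (x * y)) ∈ G.O := by
  obtain ⟨n, a, b, h⟩ := G.mul_mem f hf
  have : (fun x => f (x * y)) = ∑ i, (b i).1 y • (a i).1 := by
    funext x
    simp [h, Finset.sum_apply, mul_comm]
  rw [this]
  exact Subalgebra.sum_mem _ fun i _ => Subalgebra.smul_mem _ (a i).2 _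

/-- `f ↦ (y ↦ f (x y))` -/
def lt (x : G.X) : G.O →ₗ[ℂ] G.O where
  toFun f := ⟨fun y => f.1 (x * y), G.left_mem x f.2⟩
  map_add' _ _ := rfl
  map_smul' _ _ := rfl

/-- `f ↦ (y ↦ f (x y x⁻¹))` -/
def cj (x : G.X) : G.O →ₗ[ℂ] G.O where
  toFun f := ⟨fun y => f.1 (x * y * x⁻¹), G.left_mem x (G.right_mem x⁻¹ f.2)⟩
  map_add' _ _ := rfl
  map_smul' _ _ := rfl

/-- The Lie algebra: point derivations at the identity. -/
def Lie : Submodule ℂ (Module.Dual ℂ G.O) where
  carrier := {D | ∀ f g : G.O, D (f * g) = f.1 1 * D g + g.1 1 * D f}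
  add_mem' := by
    intro D D' h h' f g
    simp only [LinearMap.add_apply, h f g, h' f g]
    ring
  zero_mem' := by
    intro f g
    simp
  smul_mem' := by
    intro c D h f g
    simp only [LinearMap.smul_apply, h f g, smul_eq_mul]
    ring

/-- The adjoint action of `x` on the Lie algebra. -/
def Ad (x : G.X) : G.Lie →ₗ[ℂ] G.Lie where
  toFun D := ⟨D.1 ∘ₗ G.cj x, by
    intro f g
    have h := D.2 (G.cj x f) (G.cj x g)
    have h1 : G.cj x (f * g) = G.cj x f * G.cj x g := rfl
    have h2 : ∀ f : G.O, (G.cj x f).1 1 = f.1 1 := by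
      intro f
      show f.1 (x * 1 * x⁻¹) = f.1 1
      simp
    rw [LinearMap.comp_apply, h1, h, h2, h2]
    rfl⟩
  map_add' _ _ := rfl
  map_smul' _ _ := rfl

/-- The derivative of `f` in the direction of the left invariant vector field `D`:
`x ↦ D (y ↦ f (x y))`. -/
def der (D : G.Lie) : G.O →ₗ[ℂ] G.O where
  toFun f := ⟨fun x => D.1 (G.lt x f), by
    obtain ⟨n, a, b, h⟩ := G.mul_mem f.1 f.2
    have : (fun x => D.1 (G.lt x f)) = ∑ i, D.1 (b i) • (a i).1 := by
      funext x
      have h1 : G.lt x f = ∑ i, (a i).1 x • b i := by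
        apply Subtype.ext
        funext y
        show f.1 (x * y) = _
        rw [h]
        simp [Finset.sum_apply]
      rw [h1, map_sum]
      simp [Finset.sum_apply, mul_comm]
    rw [this]
    exact Subalgebra.sum_mem _ fun i _ => Subalgebra.smul_mem _ (a i).2 _⟩
  map_add' f g := by
    apply Subtype.ext
    funext x
    exact map_add D.1 (G.lt x f) (G.lt x g)
  map_smul' c f := by
    apply Subtype.ext
    funext x
    exact map_smul D.1 c (G.lt x f)

theorem der_leib (D : G.Lie) (f g : G.O) : G.der D (f * g) = f * G.der D g + g * G.der D f := by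
  apply Subtype.ext
  funext x
  have h := D.2 (G.lt x f) (G.lt x g)
  have h2 : ∀ f : G.O, (G.lt x f).1 1 = f.1 x := by
    intro f
    show f.1 (x * 1) = f.1 x
    simp
  rw [h2, h2] at h
  exact h

theorem der_one (D : G.Lie) (f : G.O) : (G.der D f).1 1 = D.1 f := by
  show D.1 (G.lt 1 f) = D.1 f
  congr 1
  apply Subtype.ext
  funext y
  show f.1 (1 * y) = f.1 y
  simp

/-- The Lie bracket. -/
def br (D E : G.Lie) : G.Lie :=
  ⟨D.1 ∘ₗ G.der E - E.1 ∘ₗ G.der D, by
    intro f g
    simp only [LinearMap.sub_apply, LinearMap.comp_apply, der_leib, map_add]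
    rw [D.2 f (G.der E g), D.2 g (G.der E f), E.2 f (G.der D g), E.2 g (G.der D f)]
    simp only [der_one]
    ring⟩

/-- `ad D` -/
def ad (D : G.Lie) : G.Lie →ₗ[ℂ] G.Lie where
  toFun E := G.br D E
  map_add' E E' := by
    apply Subtype.ext
    apply LinearMap.ext
    intro f
    have h : G.der (E + E') f = G.der E f + G.der E' f := rfl
    show D.1 (G.der (E + E') f) - (E + E').1 (G.der D f) = _
    rw [h, map_add]
    show _ = D.1 (G.der E f) - E.1 (G.der D f) + (D.1 (G.der E' f) - E'.1 (G.der D f))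
    show D.1 (G.der E f) + D.1 (G.der E' f) - (E.1 (G.der D f) + E'.1 (G.der D f)) = _
    ring
  map_smul' c E := by
    apply Subtype.ext
    apply LinearMap.ext
    intro f
    have h : G.der (c • E) f = c • G.der E f := rfl
    show D.1 (G.der (c • E) f) - (c • E).1 (G.der D f) = _
    rw [h, map_smul]
    show c * D.1 (G.der E f) - c * E.1 (G.der D f) = c * (D.1 (G.der E f) - E.1 (G.der D f))
    ring

/-- The Killing form. -/
noncomputable def killing (D E : G.Lie) : ℂ := LinearMap.trace ℂ G.Lie (G.ad D ∘ₗ G.ad E)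

/-- The algebraic functions on `X^I`. -/
def powO (I : Type) : Subalgebra ℂ ((I → G.X) → ℂ) :=
  Algebra.adjoin ℂ {F | ∃ (i : I) (f : G.O), F = fun x => f.1 (x i)}

end AffGrp

/-- An affine Poisson scheme of finite type over `ℂ`. -/
structure PAlg where
  A : Type
  [ring : CommRing A]
  [alg : Algebra ℂ A]
  ft : Algebra.FiniteType ℂ A
  br : A →ₗ[ℂ] A →ₗ[ℂ] A
  br_self : ∀ a, br a a = 0
  jacobi : ∀ a b c, br a (br b c) = br (br a b) c + br b (br a c)
  leibniz : ∀ a b c, br a (b * c) = b * br a c + c * br a b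

attribute [instance] PAlg.ring PAlg.alg

/-- An affine Poisson scheme `M` of finite type with an algebraic action of `G × H`, such that `G`
acts Hamiltonianly on `M` (moment map `μ`) and `H` acts Hamiltonianly on `M^op` (moment map `ν`).
`act k a` is the function `m ↦ a (k⁻¹ m)`. -/
structure Ham (G H : AffGrp) extends PAlg where
  act : G.X × H.X →* (A ≃ₐ[ℂ] A)
  rat : ∀ a : A, ∃ (n : ℕ) (f : Fin n → G.O) (f' : Fin n → H.O) (c : Fin n → A),
    ∀ (g : G.X) (h : H.X), act (g, h) a = ∑ i, ((f i).1 g * (f' i).1 h) • c i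
  act_br : ∀ k a b, act k (br a b) = br (act k a) (act k b)
  μ : G.Lie →ₗ[ℂ] A
  ν : H.Lie →ₗ[ℂ] A
  μ_eq : ∀ g h D, act (g, h) (μ D) = μ (G.Ad g D)
  ν_eq : ∀ g h D, act (g, h) (ν D) = ν (H.Ad h D)
  μ_gen : ∀ (D : G.Lie) (a : A) (n : ℕ) (f : Fin n → G.O) (c : Fin n → A),
    (∀ g, act (g, 1) a = ∑ i, (f i).1 g • c i) → br (μ D) a = ∑ i, D.1 (f i) • c i
  ν_gen : ∀ (D : H.Lie) (a : A) (n : ℕ) (f : Fin n → H.O) (c : Fin n → A),
    (∀ h, act (1, h) a = ∑ i, (f i).1 h • c i) → br (ν D) a = - ∑ i, D.1 (f i) • c i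

/-- Equality of morphisms of `MT`: equivariant Poisson isomorphism intertwining moment maps. -/
def Ham.Iso {G H : AffGrp} (M N : Ham G H) : Prop :=
  ∃ e : M.A ≃ₐ[ℂ] N.A, (∀ a b, e (M.br a b) = N.br (e a) (e b)) ∧
    (∀ k a, e (M.act k a) = N.act k (e a)) ∧ (∀ D, e (M.μ D) = N.μ D) ∧ ∀ D, e (M.ν D) = N.ν D

/-- The opposite: the bracket and the moment maps are negated. -/
def Ham.neg {G H : AffGrp} (M : Ham G H) : Ham G H where
  A := M.A
  ft := M.ft
  br := -M.br
  br_self a := by simp [M.br_self]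
  jacobi a b c := by
    simp only [LinearMap.neg_apply, map_neg, neg_neg]
    exact M.jacobi a b c
  leibniz a b c := by
    simp only [LinearMap.neg_apply, M.leibniz]
    ring
  act := M.act
  rat := M.rat
  act_br k a b := by
    simp only [LinearMap.neg_apply, map_neg, M.act_br]
  μ := -M.μ
  ν := -M.ν
  μ_eq g h D := by simp only [LinearMap.neg_apply, map_neg, M.μ_eq]
  ν_eq g h D := by simp only [LinearMap.neg_apply, map_neg, M.ν_eq]
  μ_gen D a n f c h := by
    simp only [LinearMap.neg_apply, map_neg, neg_neg]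
    exact M.μ_gen D a n f c h
  ν_gen D a n f c h := by
    simp only [LinearMap.neg_apply, map_neg, neg_neg]
    exact M.ν_gen D a n f c h

/-- The product Poisson bracket on `A ⊗ B`. -/
noncomputable def tbr (M N : PAlg) : (M.A ⊗[ℂ] N.A) →ₗ[ℂ] (M.A ⊗[ℂ] N.A) →ₗ[ℂ] (M.A ⊗[ℂ] N.A) :=
  TensorProduct.map₂ M.br (LinearMap.mul ℂ N.A) + TensorProduct.map₂ (LinearMap.mul ℂ M.A) N.br

section comp
variable {G H K : AffGrp} (M : Ham G H) (N : Ham H K)

/-- The action of `G × H × K` on `M × N` (`H` acts diagonally). -/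
noncomputable def tact (g : G.X) (h : H.X) (k : K.X) : (M.A ⊗[ℂ] N.A) →ₐ[ℂ] (M.A ⊗[ℂ] N.A) :=
  Algebra.TensorProduct.map (M.act (g, h)).toAlgHom (N.act (h, k)).toAlgHom

/-- The ideal of the zero fibre of the moment map `ν_M - μ_N` of `H`. -/
def tI : Ideal (M.A ⊗[ℂ] N.A) :=
  Ideal.span (Set.range fun D : H.Lie => M.ν D ⊗ₜ[ℂ] (1 : N.A) - (1 : M.A) ⊗ₜ[ℂ] N.μ D)

theorem tact_tmul (g : G.X) (h : H.X) (k : K.X) (a : M.A) (b : N.A) :
    tact M N g h k (a ⊗ₜ b) = M.act (g, h) a ⊗ₜ N.act (h, k) b := rfl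

theorem tact_tI (h : H.X) {a : M.A ⊗[ℂ] N.A} (ha : a ∈ tI M N) : tact M N 1 h 1 a ∈ tI M N := by
  have h1 : tI M N ≤ (tI M N).comap (tact M N 1 h 1) := by
    unfold tI
    rw [Ideal.span_le]
    rintro _ ⟨D, rfl⟩
    refine Ideal.subset_span ⟨H.Ad h D, ?_⟩
    show _ = tact M N 1 h 1 _
    rw [map_sub, tact_tmul, tact_tmul, M.ν_eq, N.μ_eq, map_one, map_one]
  exact h1 ha

/-- The elements of `A ⊗ B` whose class modulo `tI` is invariant under `H`. -/
def tinv : Subalgebra ℂ (M.A ⊗[ℂ] N.A) where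
  carrier := {a | ∀ h, tact M N 1 h 1 a - a ∈ tI M N}
  add_mem' := by
    intro a b ha hb h
    rw [map_add, add_sub_add_comm]
    exact Ideal.add_mem _ (ha h) (hb h)
  mul_mem' := by
    intro a b ha hb h
    have : tact M N 1 h 1 (a * b) - a * b =
        (tact M N 1 h 1 a - a) * tact M N 1 h 1 b + a * (tact M N 1 h 1 b - b) := by
      rw [map_mul]
      ring
    rw [this]
    exact Ideal.add_mem _ (Ideal.mul_mem_right _ _ (ha h)) (Ideal.mul_mem_left _ _ (hb h))
  algebraMap_mem' := by
    intro c h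
    rw [AlgHom.commutes, sub_self]
    exact Ideal.zero_mem _

/-- `P` is the Hamiltonian reduction at level `0` of `M × N` by `H`: the algebra of `P` is
`((A ⊗ B) / tI)^H`, with the induced bracket, action of `G × K` and moment maps. -/
def IsComp (P : Ham G K) : Prop :=
  ∃ φ : tinv M N →ₐ[ℂ] P.A, Function.Surjective φ ∧ (∀ a, φ a = 0 ↔ a.1 ∈ tI M N) ∧
    (∀ a b c : tinv M N, c.1 = tbr M.toPAlg N.toPAlg a.1 b.1 → φ c = P.br (φ a) (φ b)) ∧
    (∀ a b : tinv M N, tbr M.toPAlg N.toPAlg a.1 b.1 ∈ tinv M N) ∧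
    (∀ g k, ∀ a b : tinv M N, b.1 = tact M N g 1 k a.1 → φ b = P.act (g, k) (φ a)) ∧
    (∀ g k, ∀ a : tinv M N, tact M N g 1 k a.1 ∈ tinv M N) ∧
    (∀ D, ∀ a : tinv M N, a.1 = M.μ D ⊗ₜ 1 → φ a = P.μ D) ∧
    (∀ D, M.μ D ⊗ₜ 1 ∈ tinv M N) ∧
    (∀ D, ∀ a : tinv M N, a.1 = 1 ⊗ₜ N.ν D → φ a = P.ν D) ∧
    ∀ D, 1 ⊗ₜ N.ν D ∈ tinv M N

end comp

/-- `P` is an integral variety whose Poisson structure is symplectic on an open dense subset: over
the field of fractions, every derivation is a combination of Hamiltonian derivations. -/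
def InMT (P : PAlg) : Prop :=
  IsDomain P.A ∧ ∀ D : Derivation ℂ P.A (FractionRing P.A), ∃ (n : ℕ) (u : Fin n → FractionRing P.A)
    (a : Fin n → P.A), ∀ b, D b = ∑ i, u i * algebraMap P.A (FractionRing P.A) (P.br (a i) b)

/-- A two-dimensional oriented cobordism from `I` circles to `J` circles, up to diffeomorphism: the
finite set `C` of its components, the component `l i`, `r j` containing a given incoming or outgoing
circle, and the genus of each component. -/
structure Cob (I J : Type) where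
  C : Type
  [fin : Finite C]
  l : I → C
  r : J → C
  g : C → ℕ

attribute [instance] Cob.fin

namespace Cob

/-- Diffeomorphic cobordisms. -/
def Iso {I J : Type} (S T : Cob I J) : Prop :=
  ∃ e : S.C ≃ T.C, (∀ i, e (S.l i) = T.l i) ∧ (∀ j, e (S.r j) = T.r j) ∧ ∀ c, T.g (e c) = S.g c

/-- The glueing of the components along the circles. -/
def Glue {I J K : Type} (S : Cob I J) (T : Cob J K) : S.C ⊕ T.C → S.C ⊕ T.C → Prop :=
  fun a b => ∃ j, a = Sum.inl (S.r j) ∧ b = Sum.inr (T.l j)

/-- The composition (glueing along `J`).  A component of the glued surface is a connected graph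
whose vertices are components of `S` and `T` and whose edges are circles in `J`; its genus is the
sum of the genera of the vertices plus the number of independent cycles of the graph. -/
noncomputable def comp {I J K : Type} (S : Cob I J) (T : Cob J K) : Cob I K where
  C := Quot (S.Glue T)
  fin := Finite.of_surjective (Quot.mk _) Quot.mk_surjective
  l i := Quot.mk _ (Sum.inl (S.l i))
  r k := Quot.mk _ (Sum.inr (T.r k))
  g c := (∑ᶠ a ∈ {a | Quot.mk (S.Glue T) a = c}, Sum.elim S.g T.g a) +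
    Nat.card {j : J // Quot.mk (S.Glue T) (Sum.inl (S.r j)) = c} + 1 -
    Nat.card {a : S.C ⊕ T.C // Quot.mk (S.Glue T) a = c}

/-- The mapping cylinder of a bijection (the identity for `e = Equiv.refl`). -/
def cyl {I J : Type} [Finite J] (e : I ≃ J) : Cob I J where
  C := J
  l := e
  r := id
  g := 0

/-- Disjoint union. -/
def union {I J I' J' : Type} (S : Cob I J) (T : Cob I' J') : Cob (I ⊕ I') (J ⊕ J') where
  C := S.C ⊕ T.C
  l := Sum.map S.l T.l
  r := Sum.map S.r T.r
  g := Sum.elim S.g T.g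

/-- The disc, as a cobordism from a circle to the empty set. -/
def disc : Cob PUnit PEmpty where
  C := PUnit
  l := id
  r := PEmpty.elim
  g := 0

end Cob

end Pool.Agent.MTF
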