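import Pool.Agent.MTF.D0
import Pool.Agent.MTX.D.Walls

/-!
# MTF, part K : Kostant extension for a matrix group model `D` with `MTXD.Ax D`

`ρ` a polynomial representation of `D.Gs` on `ℂ^κ`, `P : ℂ^n → ℂ^κ` polynomial, `P x` depends only on
the slice point `D.sC x` and is fixed by the centraliser of `D.sC x` (for generic `x`).
Result: `P` extends to an equivariant polynomial map on the Lie algebra.

See MTF_K.md (simplified: no weights, no Weyl group).
-/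

namespace Pool.Agent.MTF.KD

open Matrix
open Pool.Agent.MTD Pool.Agent

open Pool.Agent.MP_c45d35_ag (chi UpUni LowUni)
open Pool.Agent.MTF.D1 (Pts Van)

/-- the value of a polynomial at a matrix -/
noncomputable def mv {N : ℕ} {R : Type*} [CommRing R] [Algebra ℂ R] (p : MvPolynomial (Fin N × Fin N) ℂ)
    (g : Matrix (Fin N) (Fin N) R) : R := MvPolynomial.aeval (fun ij => g ij.1 ij.2) p

/-- the value of a matrix of polynomials at a matrix -/
noncomputable def rM {N : ℕ} {κ : Type} {R : Type*} [CommRing R] [Algebra ℂ R]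
    (ρ : Matrix κ κ (MvPolynomial (Fin N × Fin N) ℂ)) (g : Matrix (Fin N) (Fin N) R) :
    Matrix κ κ R := ρ.map fun p => mv p g

/-- the value of a vector of polynomials -/
noncomputable def Pv {n : ℕ} {κ : Type} (P : κ → MvPolynomial (Fin n) ℂ) (x : Fin n → ℂ) : κ → ℂ :=
  fun a => MvPolynomial.eval x (P a)

/-- the value of a vector of polynomials on `𝔟`, `(x, Z) ↦ Q(x + Y Z)` -/
noncomputable def Qv {n : ℕ} {κ ι : Type} (Q : κ → MvPolynomial (ι ⊕ Fin n) ℂ) (x : Fin n → ℂ)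
    (Z : ι → ℂ) : κ → ℂ :=
  fun a => MvPolynomial.eval (Sum.elim Z x) (Q a)

variable {n N : ℕ} {ι : Type} [Fintype ι] {D : Dat n N ι} {κ : Type} [Fintype κ] [DecidableEq κ]

/-- polynomial representation of the group of complex points -/
structure PRep (D : Dat n N ι) (ρ : Matrix κ κ (MvPolynomial (Fin N × Fin N) ℂ)) : Prop where
  one : rM ρ (1 : Matrix (Fin N) (Fin N) ℂ) = 1
  mul : ∀ g h : Matrix (Fin N) (Fin N) ℂ, D.IsG g → D.IsG h → rM ρ (g * h) = rM ρ g * rM ρ h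

/-- The hypotheses on `P`. -/
structure PInp (D : Dat n N ι) (ρ : Matrix κ κ (MvPolynomial (Fin N × Fin N) ℂ))
    (P : κ → MvPolynomial (Fin n) ℂ) (f0 : MvPolynomial (Fin n) ℂ) : Prop where
  ne : f0 ≠ 0
  inv : ∀ x x' : Fin n → ℂ, D.sC x = D.sC x' → Pv P x = Pv P x'
  cent : ∀ x : Fin n → ℂ, D.Reg x → MvPolynomial.eval x f0 ≠ 0 → ∀ h, D.IsG h →
    h * D.sC x = D.sC x * h → (rM ρ h).mulVec (Pv P x) = Pv P x

/-- Regular conjugate elements of the slice are equal. -/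
def Uni (D : Dat n N ι) : Prop := ∀ x x' : Fin n → ℂ, D.Reg x → D.Reg x' → ∀ g, D.IsG g →
  g * D.sC x = D.sC x' * g → D.sC x = D.sC x'

/-- coordinates on `Mat × 𝔟` : `g`, `Z`, `x` -/
abbrev Sg (n N : ℕ) (ι : Type) := (Fin N × Fin N) ⊕ (ι ⊕ Fin n)

/-- the point with coordinates `g`, `Z`, `x` -/
def pt {R : Type*} (g : Matrix (Fin N) (Fin N) R) (Z : ι → R) (x : Fin n → R) : Sg n N ι → R :=
  Sum.elim (fun ij => g ij.1 ij.2) (Sum.elim Z x)

/-- the equations of `G × 𝔟` -/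
def Eq2 (D : Dat n N ι) : Set (MvPolynomial (Sg n N ι) ℂ) :=
  (fun e => MvPolynomial.rename Sum.inl e) '' D.eqs

/-- the generic matrix `g` -/
noncomputable def gX : Matrix (Fin N) (Fin N) (MvPolynomial (Sg n N ι) ℂ) :=
  Matrix.of fun i j => MvPolynomial.X (Sum.inl (i, j))

/-- the generic matrix `g (Dx x + Y Z) adj(g)` -/
noncomputable def mX (D : Dat n N ι) : Matrix (Fin N) (Fin N) (MvPolynomial (Sg n N ι) ℂ) :=
  gX * (D.Dx (fun k => MvPolynomial.X (Sum.inr (Sum.inr k))) +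
    D.Y (fun β => MvPolynomial.X (Sum.inr (Sum.inl β)))) * gX.adjugate

/-- the polynomial `ρ(g) Q(x, Z)` on `G × 𝔟` -/
noncomputable def fX (ρ : Matrix κ κ (MvPolynomial (Fin N × Fin N) ℂ))
    (Q : κ → MvPolynomial (ι ⊕ Fin n) ℂ) (a : κ) : MvPolynomial (Sg n N ι) ℂ :=
  ∑ b, MvPolynomial.rename Sum.inl (ρ a b) * MvPolynomial.rename Sum.inr (Q b)

/-- A coordinate system of the Lie algebra: a basis `bs` and linear functionals `cs` on all matrices. -/
structure LieC (D : Dat n N ι) {τ : Type} [Fintype τ] (bs : τ → Matrix (Fin N) (Fin N) ℂ)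
    (cs : τ → Matrix (Fin N) (Fin N) ℂ →ₗ[ℂ] ℂ) : Prop where
  dual : ∀ (v : τ → ℂ) (j : τ), cs j (∑ i, v i • bs i) = v j
  borel : ∀ (x : Fin n → ℂ) (Z : ι → ℂ), D.Dx x + D.Y Z = ∑ j, cs j (D.Dx x + D.Y Z) • bs j
  ad : ∀ g, D.IsG g → ∀ v : τ → ℂ, g * (∑ i, v i • bs i) * g⁻¹ =
    ∑ j, cs j (g * (∑ i, v i • bs i) * g⁻¹) • bs j
  dom : ∀ p : MvPolynomial τ ℂ, (∀ (g : Matrix (Fin N) (Fin N) ℂ) (x : Fin n → ℂ) (Z : ι → ℂ),
    D.IsG g → MvPolynomial.eval (fun j => cs j (g * (D.Dx x + D.Y Z) * g⁻¹)) p = 0) → p = 0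

/-- the coordinates of `g (x + Y Z) g⁻¹` as polynomials on `G × 𝔟` -/
noncomputable def zX (D : Dat n N ι) {τ : Type} (cs : τ → Matrix (Fin N) (Fin N) ℂ →ₗ[ℂ] ℂ) (j : τ) :
    MvPolynomial (Sg n N ι) ℂ :=
  ∑ k, ∑ l, MvPolynomial.C (cs j (Matrix.single k l 1)) * mX D k l

end Pool.Agent.MTF.KD
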