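import Pool.Agent.MTF.TQ
import Pool.Agent.MTF.K0

/-!
# MTF, part K : matrix model of the group, adapted to a TQ datum

`Model Q D` is what is needed to prove the field `ext` of `TQ Q` (Kostant extension), see E5.lean.
-/

namespace Pool.Agent.MTF

open AffGrp Matrix
open Pool.Agent.MTD (Dat ev)
open Pool.Agent.MTF.KD (mv rM Uni)

variable {G : AffGrp} {K W X : Type} [Field K] [Algebra ℂ K] [Group W] [Fintype W]
  [MulSemiringAction W K] [SMulCommClass W ℂ K] [AddCommGroup X] [DistribMulAction W X]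

/-- the matrix of a point derivation in a matrix representation with regular entries -/
def dmat {N : ℕ} {π : G.X →* Matrix (Fin N) (Fin N) ℂ} (h : ∀ i k, (fun x => π x i k) ∈ G.O) :
    G.Lie →ₗ[ℂ] Matrix (Fin N) (Fin N) ℂ where
  toFun M := Matrix.of fun i k => M.1 ⟨_, h i k⟩
  map_add' _ _ := rfl
  map_smul' _ _ := rfl

/-- A matrix model of the group `G`, adapted to the datum `Q`. -/
structure Model (Q : TQD G K W X) {n N : ℕ} {ι : Type} [Fintype ι] (D : Dat n N ι) where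
  /-- the faithful representation -/
  π : G.X →* Matrix (Fin N) (Fin N) ℂ
  ent : ∀ i k, (fun x => π x i k) ∈ G.O
  /-- the inclusion of the polynomial functions on the Cartan subalgebra into `K` -/
  fr : MvPolynomial (Fin n) ℂ →ₐ[ℂ] K
  /-- the coordinates of the slice element -/
  c0 : Fin Q.r → MvPolynomial (Fin n) ℂ
  ax : MTXD.Ax D
  dom : IsDomain G.O
  mem : ∀ x, D.IsG (π x)
  surj : ∀ g : Matrix (Fin N) (Fin N) ℂ, D.IsG g → ∃ x, π x = g
  gen : ∀ f ∈ G.O, ∃ p : MvPolynomial (Fin N × Fin N) ℂ, ∀ x, f x = mv p (π x)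
  /-- `D.IsG` is defined by the full ideal of the group -/
  full : ∀ p : MvPolynomial (Fin N × Fin N) ℂ, (∀ x, mv p (π x) = 0) →
    ∀ {R : Type} [CommRing R] [Algebra ℂ R] (g : Matrix (Fin N) (Fin N) R), D.IsG g → mv p g = 0
  fr_inj : Function.Injective fr
  A_eq : ∀ a, a ∈ Q.A ↔ ∃ p, fr p = a
  c_eq : ∀ j, Q.c j = fr (c0 j)
  slice : ∀ x : Fin n → ℂ, D.sC x = dmat ent (∑ j, MvPolynomial.eval x (c0 j) • Q.D j)
  /-- `A^W = ℂ[S]` -/
  inv : ∀ p : MvPolynomial (Fin n) ℂ, (∀ w : W, w • fr p = fr p) →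
    ∃ q : MvPolynomial (Fin Q.r) ℂ, p = MvPolynomial.aeval c0 q
  /-- conjugate regular elements of the slice are equal -/
  uni : Uni D
  /-- `𝔤 = [𝔤, x] + 𝔟` for regular `x` -/
  tri : ∀ x : Fin n → ℂ, D.Reg x → ∀ M : G.Lie, ∃ (M' : G.Lie) (x' : Fin n → ℂ) (Z : ι → ℂ),
    dmat ent M = dmat ent M' * D.Dx x - D.Dx x * dmat ent M' + (D.Dx x' + D.Y Z)

namespace Model

variable {Q : TQD G K W X} {n N : ℕ} {ι : Type} [Fintype ι] {D : Dat n N ι} (m : Model Q D)

/-- the Lie algebra as a space of matrices -/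
def dm : G.Lie →ₗ[ℂ] Matrix (Fin N) (Fin N) ℂ := dmat m.ent

theorem dm_apply (M : G.Lie) (i k : Fin N) : m.dm M i k = M.1 ⟨_, m.ent i k⟩ := rfl

/-- the basis of the Lie algebra, as matrices -/
noncomputable def bs (j : Fin Q.r) : Matrix (Fin N) (Fin N) ℂ := m.dm (Q.D j)

/-- the slice element at the point `x`, in the Lie algebra -/
noncomputable def sL (x : Fin n → ℂ) : G.Lie := ∑ j, MvPolynomial.eval x (m.c0 j) • Q.D j

end Model

end Pool.Agent.MTF
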