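import Pool.Agent.MTF.E0

namespace Pool.Agent.MTF

open AffGrp Matrix
open Pool.Agent.MTD (Dat ev expN)
open Pool.Agent.MTF.KD (mv rM Uni)

variable {G : AffGrp} {K W X : Type} [Field K] [Algebra ℂ K] [Group W] [Fintype W]
  [MulSemiringAction W K] [SMulCommClass W ℂ K] [AddCommGroup X] [DistribMulAction W X]
variable {Q : TQD G K W X} {n N : ℕ} {ι : Type} [Fintype ι] {D : Dat n N ι}

theorem e1_C {N : ℕ} {R : Type*} [CommRing R] [Algebra ℂ R] (a : ℂ) (g : Matrix (Fin N) (Fin N) R) :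
    mv (MvPolynomial.C a) g = algebraMap ℂ R a := MvPolynomial.aeval_C _ _

theorem e1_X {N : ℕ} {R : Type*} [CommRing R] [Algebra ℂ R] (v : Fin N × Fin N)
    (g : Matrix (Fin N) (Fin N) R) : mv (MvPolynomial.X v) g = g v.1 v.2 := MvPolynomial.aeval_X _ _

theorem e1_add {N : ℕ} {R : Type*} [CommRing R] [Algebra ℂ R] (p q : MvPolynomial (Fin N × Fin N) ℂ)
    (g : Matrix (Fin N) (Fin N) R) : mv (p + q) g = mv p g + mv q g := map_add _ _ _

theorem e1_mul {N : ℕ} {R : Type*} [CommRing R] [Algebra ℂ R] (p q : MvPolynomial (Fin N × Fin N) ℂ)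
    (g : Matrix (Fin N) (Fin N) R) : mv (p * q) g = mv p g * mv q g := map_mul _ _ _

theorem e1_zero {N : ℕ} {R : Type*} [CommRing R] [Algebra ℂ R] (g : Matrix (Fin N) (Fin N) R) :
    mv (0 : MvPolynomial (Fin N × Fin N) ℂ) g = 0 := map_zero _

theorem e1_one {N : ℕ} {R : Type*} [CommRing R] [Algebra ℂ R] (g : Matrix (Fin N) (Fin N) R) :
    mv (1 : MvPolynomial (Fin N × Fin N) ℂ) g = 1 := map_one _

theorem e1_der_one (M : G.Lie) : M.1 1 = 0 := by
  have h := M.2 1 1
  rw [mul_one] at h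
  have h2 : (1 : G.O).1 1 = 1 := rfl
  rw [h2] at h
  linear_combination -h

namespace Model

variable (m : Model Q D)

/-- (row E1) Basic facts on the Lie algebra as a space of matrices.
`mv_mem`: `x ↦ mv p (π x)` is in `G.O` (`MvPolynomial.aeval` into the subalgebra `G.O` of functions; or induction on `p`). -/
theorem mv_mem (p : MvPolynomial (Fin N × Fin N) ℂ) : (fun x => mv p (m.π x)) ∈ G.O := by
  induction p using MvPolynomial.induction_on with
  | C a =>
    simp only [e1_C]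
    exact G.O.algebraMap_mem a
  | add p q hp hq =>
    simp only [e1_add]
    exact G.O.add_mem hp hq
  | mul_X p v hp =>
    simp only [e1_mul, e1_X]
    exact G.O.mul_mem hp (m.ent v.1 v.2)

/-- Chain rule: a point derivation at `1` of `x ↦ p(π x)`.  Proof: induction on `p` (`MvPolynomial.induction_on`): constants (a point derivation kills
`1`: `D (1 * 1)`), sums, multiplication by a variable (Leibniz rule `M.2`; `π 1 = 1`; `MvPolynomial.pderiv_mul`, `pderiv_X`). -/
theorem chain (M : G.Lie) (p : MvPolynomial (Fin N × Fin N) ℂ) :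
    M.1 ⟨_, m.mv_mem p⟩ = ∑ i, ∑ k, mv (MvPolynomial.pderiv (i, k) p) (1 : Matrix (Fin N) (Fin N) ℂ) *
      m.dm M i k := by
  induction p using MvPolynomial.induction_on with
  | C a =>
    have h1 : (⟨_, m.mv_mem (MvPolynomial.C a)⟩ : G.O) = a • (1 : G.O) := by
      apply Subtype.ext
      funext x
      show mv (MvPolynomial.C a) (m.π x) = a * 1
      rw [e1_C, mul_one]
      rfl
    rw [h1, map_smul, e1_der_one, smul_zero]
    simp only [MvPolynomial.pderiv_C, e1_zero, zero_mul, Finset.sum_const_zero]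
  | add p q hp hq =>
    have h1 : (⟨_, m.mv_mem (p + q)⟩ : G.O) = ⟨_, m.mv_mem p⟩ + ⟨_, m.mv_mem q⟩ := by
      apply Subtype.ext
      funext x
      exact e1_add p q (m.π x)
    rw [h1, map_add, hp, hq]
    simp only [map_add, e1_add, add_mul, Finset.sum_add_distrib]
  | mul_X p v hp =>
    have h1 : (⟨_, m.mv_mem (p * MvPolynomial.X v)⟩ : G.O) =
        ⟨_, m.mv_mem p⟩ * ⟨_, m.ent v.1 v.2⟩ := by
      apply Subtype.ext
      funext x
      show mv (p * MvPolynomial.X v) (m.π x) = mv p (m.π x) * m.π x v.1 v.2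
      rw [e1_mul, e1_X]
    rw [h1, M.2]
    have h2 : (⟨_, m.mv_mem p⟩ : G.O).1 1 = mv p (1 : Matrix (Fin N) (Fin N) ℂ) := by
      show mv p (m.π 1) = _
      rw [map_one]
    have h3 : (⟨_, m.ent v.1 v.2⟩ : G.O).1 1 = (1 : Matrix (Fin N) (Fin N) ℂ) v.1 v.2 := by
      show m.π 1 v.1 v.2 = _
      rw [map_one]
    rw [h2, h3, hp, ← dm_apply]
    have h4 : ∀ i k, mv (MvPolynomial.pderiv (i, k) (p * MvPolynomial.X v))
        (1 : Matrix (Fin N) (Fin N) ℂ) * m.dm M i k =
        (1 : Matrix (Fin N) (Fin N) ℂ) v.1 v.2 *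
          (mv (MvPolynomial.pderiv (i, k) p) (1 : Matrix (Fin N) (Fin N) ℂ) * m.dm M i k) +
        (if (i, k) = v then mv p (1 : Matrix (Fin N) (Fin N) ℂ) * m.dm M i k else 0) := by
      intro i k
      rw [Derivation.leibniz, MvPolynomial.pderiv_X, smul_eq_mul, smul_eq_mul, e1_add, e1_mul,
        e1_mul, e1_X]
      by_cases h : (i, k) = v
      · rw [if_pos h, ← h, Pi.single_eq_same, e1_one]
        ring
      · rw [if_neg h, Pi.single_eq_of_ne (Ne.symm h), e1_zero]
        ring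
    simp only [h4, Finset.sum_add_distrib, ← Finset.mul_sum]
    have h5 : ∑ i, ∑ k, (if (i, k) = v then mv p (1 : Matrix (Fin N) (Fin N) ℂ) * m.dm M i k
        else 0) = mv p (1 : Matrix (Fin N) (Fin N) ℂ) * m.dm M v.1 v.2 := by
      rw [← Fintype.sum_prod_type' (f := fun i k => if (i, k) = v then
        mv p (1 : Matrix (Fin N) (Fin N) ℂ) * m.dm M i k else 0)]
      rw [Finset.sum_eq_single v]
      · rw [if_pos rfl]
      · intro b _ hb
        rw [if_neg hb]
      · intro h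
        exact absurd (Finset.mem_univ v) h
    rw [h5]
    ring

/-- A derivation is determined by its matrix: `gen` and `chain`. -/
theorem dm_inj : Function.Injective m.dm := by
  intro M M' h
  apply Subtype.ext
  apply LinearMap.ext
  intro f
  obtain ⟨p, hp⟩ := m.gen f.1 f.2
  have hf : f = ⟨_, m.mv_mem p⟩ := by
    apply Subtype.ext
    funext x
    exact hp x
  rw [hf, chain, chain, h]

/-- `π x⁻¹ = (π x)⁻¹`: `m.ax.det`, `m.mem`, `π (x * x⁻¹) = 1`, `Matrix.inv_eq_right_inv`. -/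
theorem pi_inv (x : G.X) : m.π x⁻¹ = (m.π x)⁻¹ := by
  refine (Matrix.inv_eq_right_inv ?_).symm
  rw [← map_mul, mul_inv_cancel, map_one]

/-- `Ad` is conjugation.  Proof: `(G.Ad g M).1 (entry i k) = M.1 (y ↦ (π g π y (π g)⁻¹) i k)`, and this function is
`∑ a, ∑ b, (π g i a * π g⁻¹ b k) • entry a b`; `map_sum`. -/
theorem dm_Ad (g : G.X) (M : G.Lie) : m.dm (G.Ad g M) = m.π g * m.dm M * (m.π g)⁻¹ := by
  rw [← m.pi_inv]
  ext i k
  rw [dm_apply]
  show M.1 (G.cj g ⟨_, m.ent i k⟩) = _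
  have h : G.cj g ⟨_, m.ent i k⟩ = ∑ a, ∑ b, (m.π g i a * m.π g⁻¹ b k) •
      (⟨_, m.ent a b⟩ : G.O) := by
    apply Subtype.ext
    funext y
    have h1 : (∑ a, ∑ b, (m.π g i a * m.π g⁻¹ b k) • (⟨_, m.ent a b⟩ : G.O)).1 y =
        ∑ a, ∑ b, (m.π g i a * m.π g⁻¹ b k) * m.π y a b := by
      have h2 : ∀ (s : G.O), s.1 y = (Pi.evalRingHom (fun _ : G.X => ℂ) y) s.1 := fun _ => rfl
      rw [h2]
      have h3 : (Pi.evalRingHom (fun _ : G.X => ℂ) y) (∑ a, ∑ b, (m.π g i a * m.π g⁻¹ b k) •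
          (⟨_, m.ent a b⟩ : G.O)).1 = ((Pi.evalRingHom (fun _ : G.X => ℂ) y).comp
          G.O.val.toRingHom) (∑ a, ∑ b, (m.π g i a * m.π g⁻¹ b k) • (⟨_, m.ent a b⟩ : G.O)) := rfl
      rw [h3, map_sum]
      refine Finset.sum_congr rfl fun a _ => ?_
      rw [map_sum]
      rfl
    rw [h1]
    show m.π (g * y * g⁻¹) i k = _
    rw [map_mul, map_mul, Matrix.mul_apply]
    simp only [Matrix.mul_apply, Finset.sum_mul]
    rw [Finset.sum_comm]
    refine Finset.sum_congr rfl fun a _ => Finset.sum_congr rfl fun b _ => ?_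
    ring
  rw [h, map_sum]
  simp only [Matrix.mul_apply, map_sum, map_smul, smul_eq_mul, Finset.sum_mul]
  rw [Finset.sum_comm]
  refine Finset.sum_congr rfl fun a _ => Finset.sum_congr rfl fun b _ => ?_
  rw [dm_apply]
  ring

/-- Linear functionals on all matrices that give the coordinates of elements of the Lie algebra.
Proof: a linear left inverse `λ` of `m.dm` (`LinearMap.exists_leftInverse_of_injective`), `cs j := Q.D.coord j ∘ λ`. -/
theorem exists_cs : ∃ cs : Fin Q.r → Matrix (Fin N) (Fin N) ℂ →ₗ[ℂ] ℂ, ∀ (M : G.Lie) j,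
    cs j (m.dm M) = Q.D.repr M j := by
  obtain ⟨l, hl⟩ := LinearMap.exists_leftInverse_of_injective m.dm
    (LinearMap.ker_eq_bot.2 m.dm_inj)
  refine ⟨fun j => Q.D.coord j ∘ₗ l, fun M j => ?_⟩
  have h1 : l (m.dm M) = M := LinearMap.congr_fun hl M
  rw [LinearMap.comp_apply, h1]
  rfl

end Model

end Pool.Agent.MTF
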