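import Pool.Agent.MTF.E1

namespace Pool.Agent.MTF

open AffGrp Matrix
open Pool.Agent.MTD (Dat ev expN)
open Pool.Agent.MP_c45d35_ag (chi)
open Pool.Agent.MTF.KD (mv rM Uni)

variable {G : AffGrp} {K W X : Type} [Field K] [Algebra ℂ K] [Group W] [Fintype W]
  [MulSemiringAction W K] [SMulCommClass W ℂ K] [AddCommGroup X] [DistribMulAction W X]
variable {Q : TQD G K W X} {n N : ℕ} {ι : Type} [Fintype ι] {D : Dat n N ι}

namespace Model

variable (m : Model Q D)

/-- the matrix `1 + ε M` over the dual numbers -/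
noncomputable def eps (M : Matrix (Fin N) (Fin N) ℂ) : Matrix (Fin N) (Fin N) (DualNumber ℂ) :=
  1 + (DualNumber.eps : DualNumber ℂ) • M.map (algebraMap ℂ (DualNumber ℂ))

theorem e2_eps_fst (M : Matrix (Fin N) (Fin N) ℂ) (i j : Fin N) :
    TrivSqZeroExt.fst (eps M i j) = (1 : Matrix (Fin N) (Fin N) ℂ) i j := by
  rw [eps, Matrix.add_apply, Matrix.smul_apply, Matrix.map_apply, TrivSqZeroExt.fst_add,
    smul_eq_mul, TrivSqZeroExt.fst_mul]
  rw [Matrix.one_apply, Matrix.one_apply]
  split_ifs <;> simp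

theorem e2_eps_snd (M : Matrix (Fin N) (Fin N) ℂ) (i j : Fin N) :
    TrivSqZeroExt.snd (eps M i j) = M i j := by
  rw [eps, Matrix.add_apply, Matrix.smul_apply, Matrix.map_apply, TrivSqZeroExt.snd_add,
    smul_eq_mul, TrivSqZeroExt.snd_mul]
  rw [Matrix.one_apply]
  split_ifs <;> simp [TrivSqZeroExt.algebraMap_eq_inl]

theorem e2_mv_C {R : Type*} [CommRing R] [Algebra ℂ R] (c : ℂ) (g : Matrix (Fin N) (Fin N) R) :
    mv (MvPolynomial.C c) g = algebraMap ℂ R c := by
  rw [mv, MvPolynomial.aeval_C]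

theorem e2_mv_add {R : Type*} [CommRing R] [Algebra ℂ R] (p q : MvPolynomial (Fin N × Fin N) ℂ)
    (g : Matrix (Fin N) (Fin N) R) : mv (p + q) g = mv p g + mv q g := by
  rw [mv, map_add]; rfl

theorem e2_mv_sub {R : Type*} [CommRing R] [Algebra ℂ R] (p q : MvPolynomial (Fin N × Fin N) ℂ)
    (g : Matrix (Fin N) (Fin N) R) : mv (p - q) g = mv p g - mv q g := by
  rw [mv, map_sub]; rfl

theorem e2_mv_mul {R : Type*} [CommRing R] [Algebra ℂ R] (p q : MvPolynomial (Fin N × Fin N) ℂ)
    (g : Matrix (Fin N) (Fin N) R) : mv (p * q) g = mv p g * mv q g := by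
  rw [mv, map_mul]; rfl

theorem e2_mv_X {R : Type*} [CommRing R] [Algebra ℂ R] (ij : Fin N × Fin N)
    (g : Matrix (Fin N) (Fin N) R) : mv (MvPolynomial.X ij) g = g ij.1 ij.2 := by
  rw [mv, MvPolynomial.aeval_X]

theorem e2_fst (M : Matrix (Fin N) (Fin N) ℂ) (p : MvPolynomial (Fin N × Fin N) ℂ) :
    TrivSqZeroExt.fst (mv p (eps M)) = mv p (1 : Matrix (Fin N) (Fin N) ℂ) := by
  induction p using MvPolynomial.induction_on with
  | C c => rw [e2_mv_C, e2_mv_C, TrivSqZeroExt.algebraMap_eq_inl]; rfl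
  | add p q hp hq => rw [e2_mv_add, e2_mv_add, TrivSqZeroExt.fst_add, hp, hq]
  | mul_X p i hp => rw [e2_mv_mul, e2_mv_mul, TrivSqZeroExt.fst_mul, hp, e2_mv_X, e2_mv_X,
      e2_eps_fst]

/-- (row E2) `p(1 + ε M) = p(1) + ε dp(M)`.  Proof: the `snd` part: both sides are additive and satisfy the Leibniz rule; induction on `p`
(`MvPolynomial.induction_on`), `TrivSqZeroExt.snd_mul`; the `fst` part of `mv p (eps M)` is `mv p 1` (`TrivSqZeroExt.fstHom`). -/
theorem mv_eps (M : Matrix (Fin N) (Fin N) ℂ) (p : MvPolynomial (Fin N × Fin N) ℂ) :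
    TrivSqZeroExt.snd (mv p (eps M)) =
      ∑ i, ∑ k, mv (MvPolynomial.pderiv (i, k) p) (1 : Matrix (Fin N) (Fin N) ℂ) * M i k := by
  induction p using MvPolynomial.induction_on with
  | C c =>
    rw [e2_mv_C, TrivSqZeroExt.algebraMap_eq_inl]
    symm
    rw [TrivSqZeroExt.snd_inl]
    refine Finset.sum_eq_zero fun i _ => Finset.sum_eq_zero fun k _ => ?_
    rw [MvPolynomial.pderiv_C, mv, map_zero, zero_mul]
  | add p q hp hq =>
    rw [e2_mv_add, TrivSqZeroExt.snd_add, hp, hq, ← Finset.sum_add_distrib]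
    refine Finset.sum_congr rfl fun i _ => ?_
    rw [← Finset.sum_add_distrib]
    refine Finset.sum_congr rfl fun k _ => ?_
    rw [map_add, e2_mv_add, add_mul]
  | mul_X p ij hp =>
    rw [e2_mv_mul, TrivSqZeroExt.snd_mul, hp, e2_fst, e2_mv_X, e2_eps_fst, e2_eps_snd]
    have h1 : ∀ i k, mv (MvPolynomial.pderiv (i, k) (p * MvPolynomial.X ij))
        (1 : Matrix (Fin N) (Fin N) ℂ) * M i k =
        mv p (1 : Matrix (Fin N) (Fin N) ℂ) * (if (i, k) = ij then M i k else 0) +
        (1 : Matrix (Fin N) (Fin N) ℂ) ij.1 ij.2 *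
          (mv (MvPolynomial.pderiv (i, k) p) (1 : Matrix (Fin N) (Fin N) ℂ) * M i k) := by
      intro i k
      rw [MvPolynomial.pderiv_mul, MvPolynomial.pderiv_X, e2_mv_add, e2_mv_mul, e2_mv_mul, e2_mv_X]
      by_cases h : (i, k) = ij
      · rw [if_pos h, ← h, Pi.single_eq_same]
        rw [show (1 : MvPolynomial (Fin N × Fin N) ℂ) = MvPolynomial.C 1 from
          (MvPolynomial.C_1).symm, e2_mv_C, map_one]
        ring
      · rw [if_neg h, Pi.single_eq_of_ne (Ne.symm h)]
        rw [show (0 : MvPolynomial (Fin N × Fin N) ℂ) = MvPolynomial.C 0 from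
          (MvPolynomial.C_0).symm, e2_mv_C, map_zero]
        ring
    simp only [h1, Finset.sum_add_distrib, ← Finset.mul_sum]
    congr 1
    · rw [smul_eq_mul]
      congr 1
      rw [← Fintype.sum_prod_type' (f := fun i k => if (i, k) = ij then M i k else 0)]
      rw [Finset.sum_eq_single ij]
      · rw [if_pos rfl]
      · intro b _ hb
        rw [if_neg hb]
      · intro hcon
        exact absurd (Finset.mem_univ _) hcon
    · rw [MulOpposite.smul_eq_mul_unop, MulOpposite.unop_op, mul_comm]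

/-- A tangent vector of the group at `1`, in the sense of dual numbers, is an element of the Lie algebra.
Proof.  For `f : G.O` choose `p` with `f = mv p ∘ π` (`gen`) and put `M.1 f := snd (mv p (eps M0))`.  Independent of `p`: if `p, p'` represent the same function
then `p - p'` vanishes on the group and `full` gives `mv (p - p') (eps M0) = 0`.  Linear and Leibniz: use `p + p'`, `C c * p`, `p * p'` as representatives, `TrivSqZeroExt.snd_mul`,
`fst (mv p (eps M0)) = mv p 1 = f 1` (`π 1 = 1`).  The matrix: `p = X (i, k)`. -/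
theorem exists_of_eps (M0 : Matrix (Fin N) (Fin N) ℂ) (h : D.IsG (eps M0)) :
    ∃ M : G.Lie, m.dm M = M0 := by
  classical
  have hgen : ∀ f : G.O, ∃ p : MvPolynomial (Fin N × Fin N) ℂ, ∀ x, f.1 x = mv p (m.π x) :=
    fun f => m.gen f.1 f.2
  choose P hP using hgen
  have hind : ∀ (p q : MvPolynomial (Fin N × Fin N) ℂ), (∀ x, mv p (m.π x) = mv q (m.π x)) →
      mv p (eps M0) = mv q (eps M0) := by
    intro p q hpq
    have h1 := m.full (p - q) (fun x => by rw [e2_mv_sub, hpq x, sub_self]) (eps M0) h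
    rw [e2_mv_sub, sub_eq_zero] at h1
    exact h1
  have hone : ∀ f : G.O, TrivSqZeroExt.fst (mv (P f) (eps M0)) = f.1 1 := by
    intro f
    rw [e2_fst, hP f 1, map_one]
  refine ⟨⟨{ toFun := fun f => TrivSqZeroExt.snd (mv (P f) (eps M0))
             map_add' := ?_
             map_smul' := ?_ }, ?_⟩, ?_⟩
  · intro f g
    rw [← TrivSqZeroExt.snd_add, ← e2_mv_add]
    congr 1
    refine hind _ _ fun x => ?_
    rw [← hP, e2_mv_add, ← hP, ← hP]
    rfl
  · intro c f
    have h1 : mv (P (c • f)) (eps M0) = mv (MvPolynomial.C c * P f) (eps M0) := by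
      refine hind _ _ fun x => ?_
      rw [← hP, e2_mv_mul, e2_mv_C, ← hP]
      rfl
    rw [h1, e2_mv_mul, e2_mv_C, TrivSqZeroExt.algebraMap_eq_inl, TrivSqZeroExt.snd_mul,
      TrivSqZeroExt.fst_inl, TrivSqZeroExt.snd_inl]
    simp
  · intro f g
    show TrivSqZeroExt.snd (mv (P (f * g)) (eps M0)) =
      f.1 1 * TrivSqZeroExt.snd (mv (P g) (eps M0)) + g.1 1 * TrivSqZeroExt.snd (mv (P f) (eps M0))
    have h1 : mv (P (f * g)) (eps M0) = mv (P f * P g) (eps M0) := by
      refine hind _ _ fun x => ?_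
      rw [← hP, e2_mv_mul, ← hP, ← hP]
      rfl
    rw [h1, e2_mv_mul, TrivSqZeroExt.snd_mul, hone, hone, smul_eq_mul,
      MulOpposite.smul_eq_mul_unop, MulOpposite.unop_op, mul_comm (TrivSqZeroExt.snd _) (g.1 1)]
  · ext i k
    rw [m.dm_apply]
    show TrivSqZeroExt.snd (mv (P ⟨_, m.ent i k⟩) (eps M0)) = M0 i k
    have h1 : mv (P ⟨_, m.ent i k⟩) (eps M0) = mv (MvPolynomial.X (i, k)) (eps M0) := by
      refine hind _ _ fun x => ?_
      rw [← hP, e2_mv_X]
    rw [h1, e2_mv_X, e2_eps_snd]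

/-- Proof.  `D.Tt (fun k => 1 + ε x k)` is `1 + ε Dx x` (units of the dual numbers: inverse `1 - ε x k`; `chi (wt i) t = ∏ k, t k ^ (wt i k)` is
`1 + ε ∑ wt i k * x k`), in the group by `m.ax.torus`. -/
theorem borel_x (x : Fin n → ℂ) : ∃ M : G.Lie, m.dm M = D.Dx x := by
  refine m.exists_of_eps _ ?_
  let f : Multiplicative ℂ →* DualNumber ℂ :=
    { toFun := fun a => TrivSqZeroExt.inl 1 + TrivSqZeroExt.inr (Multiplicative.toAdd a)
      map_one' := by simp
      map_mul' := by
        intro a b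
        apply TrivSqZeroExt.ext
        · simp
        · simp [add_comm] }
  have h1 : eps (D.Dx x) = D.Tt (fun k => f.toHomUnits (Multiplicative.ofAdd (x k))) := by
    have hchi : ∀ i, ((chi (D.wt i) (fun k => f.toHomUnits (Multiplicative.ofAdd (x k))) :
        (DualNumber ℂ)ˣ) : DualNumber ℂ) = f (Multiplicative.ofAdd (ev (D.wt i) x)) := by
      intro i
      have h2 : chi (D.wt i) (fun k => f.toHomUnits (Multiplicative.ofAdd (x k))) =
          f.toHomUnits (Multiplicative.ofAdd (ev (D.wt i) x)) := by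
        unfold chi ev
        rw [ofAdd_sum, map_prod]
        refine Finset.prod_congr rfl fun k _ => ?_
        rw [← map_zpow]
        congr 1
        rw [← ofAdd_zsmul, zsmul_eq_mul]
      rw [h2]
      rfl
    ext i j
    · rw [e2_eps_fst]
      by_cases hij : i = j
      · subst hij
        rw [Dat.Tt, Matrix.diagonal_apply_eq, hchi, Matrix.one_apply_eq]
        simp [f]
      · rw [Dat.Tt, Matrix.diagonal_apply_ne _ hij, Matrix.one_apply_ne hij]
        simp
    · rw [e2_eps_snd]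
      by_cases hij : i = j
      · subst hij
        rw [Dat.Tt, Matrix.diagonal_apply_eq, hchi, Dat.Dx, Matrix.diagonal_apply_eq]
        simp [f]
      · rw [Dat.Tt, Matrix.diagonal_apply_ne _ hij, Dat.Dx, Matrix.diagonal_apply_ne _ hij]
        simp
  rw [h1]
  exact m.ax.torus _

/-- Proof.  `expN (D.Y (fun β => ε * Z β)) = 1 + ε Y Z`, because `(ε Y Z) ^ 2 = 0`, if `2 ≤ N` (only the terms `k = 0, 1` of the sum survive); in the group by
`m.ax.exp`.  If `N ≤ 1` then `Y Z = 0` (the matrices `E β` are strictly upper triangular, `E_supp`) and `M = 0`. -/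
theorem borel_Y (Z : ι → ℂ) : ∃ M : G.Lie, m.dm M = D.Y Z := by
  rcases Nat.lt_or_ge N 2 with hN | hN
  · refine ⟨0, ?_⟩
    rw [map_zero]
    symm
    ext i j
    rw [Dat.Y, Matrix.sum_apply]
    refine Finset.sum_eq_zero fun β _ => ?_
    rw [Matrix.smul_apply, Matrix.map_apply]
    have h1 : D.E β i j = 0 := by
      by_contra hne
      have h2 := (m.ax.E_supp β i j hne).1
      have h3 := i.2
      have h4 := j.2
      have h5 : (i : ℕ) < j := h2
      omega
    rw [h1, map_zero, smul_zero]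
  · refine m.exists_of_eps _ ?_
    have h1 : eps (D.Y Z) = expN (D.Y (fun β => (DualNumber.eps : DualNumber ℂ) *
        algebraMap ℂ (DualNumber ℂ) (Z β))) := by
      have h2 : D.Y (fun β => (DualNumber.eps : DualNumber ℂ) * algebraMap ℂ (DualNumber ℂ) (Z β)) =
          (DualNumber.eps : DualNumber ℂ) • (D.Y Z).map (algebraMap ℂ (DualNumber ℂ)) := by
        refine Matrix.ext fun i j => ?_
        simp only [Dat.Y, Matrix.sum_apply, Matrix.smul_apply, Matrix.map_apply, smul_eq_mul,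
          map_sum, map_mul, Finset.mul_sum, Algebra.algebraMap_self, RingHom.id_apply, mul_assoc]
      rw [h2, expN]
      obtain ⟨k, hk⟩ : ∃ k, N = k + 2 := ⟨N - 2, by omega⟩
      have h3 : ∀ a : ℕ, a ∈ Finset.range N → a ≠ 0 ∧ a ≠ 1 →
          (algebraMap ℂ (DualNumber ℂ) (1 / (a.factorial : ℂ))) •
            ((DualNumber.eps : DualNumber ℂ) • (D.Y Z).map (algebraMap ℂ (DualNumber ℂ))) ^ a
            = 0 := by
        intro a _ ha
        obtain ⟨b, hb⟩ : ∃ b, a = b + 2 := ⟨a - 2, by omega⟩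
        rw [smul_pow, hb, pow_add (DualNumber.eps : DualNumber ℂ), pow_two
          (DualNumber.eps : DualNumber ℂ), DualNumber.eps_mul_eps, mul_zero, zero_smul, smul_zero]
      have h4 : (0 : ℕ) ∈ Finset.range N := Finset.mem_range.mpr (by omega)
      have h5 : (1 : ℕ) ∈ Finset.range N := Finset.mem_range.mpr (by omega)
      rw [Finset.sum_eq_add_of_mem 0 1 h4 h5 (by norm_num) h3]
      rw [eps]
      congr 1
      · simp
      · simp
    rw [h1]
    exact m.ax.exp _

theorem borel (x : Fin n → ℂ) (Z : ι → ℂ) : ∃ M : G.Lie, m.dm M = D.Dx x + D.Y Z := by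
  obtain ⟨M, hM⟩ := m.borel_x x
  obtain ⟨M', hM'⟩ := m.borel_Y Z
  exact ⟨M + M', by rw [map_add, hM, hM']⟩

end Model

end Pool.Agent.MTF
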