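import Pool.Agent.MTF.E2

namespace Pool.Agent.MTF

open AffGrp Matrix
open Pool.Agent.MTD (Dat ev expN)
open Pool.Agent.MTF.KD (mv rM Uni LieC)

variable {G : AffGrp} {K W X : Type} [Field K] [Algebra ℂ K] [Group W] [Fintype W]
  [MulSemiringAction W K] [SMulCommClass W ℂ K] [AddCommGroup X] [DistribMulAction W X]
variable {Q : TQD G K W X} {n N : ℕ} {ι : Type} [Fintype ι] {D : Dat n N ι}

/-- chain rule for point derivations of algebras -/
theorem e3_chain {A : Type*} [CommRing A] [Algebra ℂ A] (ε : A →ₐ[ℂ] ℂ) (δ : A →ₗ[ℂ] ℂ)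
    (hδ : ∀ a b, δ (a * b) = ε a * δ b + ε b * δ a) {r : ℕ} (a : Fin r → A)
    (p : MvPolynomial (Fin r) ℂ) : δ (MvPolynomial.aeval a p) =
      ∑ j, MvPolynomial.eval (fun j => ε (a j)) (MvPolynomial.pderiv j p) * δ (a j) := by
  have h1 : δ 1 = 0 := by
    have := hδ 1 1
    rw [mul_one, map_one ε, one_mul] at this
    linear_combination -this
  have hev : ∀ q : MvPolynomial (Fin r) ℂ, ε (MvPolynomial.aeval a q) =
      MvPolynomial.eval (fun j => ε (a j)) q := by
    intro q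
    have h2 : (ε.comp (MvPolynomial.aeval a)) =
        (MvPolynomial.aeval fun j => ε (a j) : MvPolynomial (Fin r) ℂ →ₐ[ℂ] ℂ) := by
      apply MvPolynomial.algHom_ext
      intro i
      simp
    have h3 := DFunLike.congr_fun h2 q
    rw [MvPolynomial.aeval_eq_eval] at h3
    exact h3
  induction p using MvPolynomial.induction_on with
  | C c =>
    rw [MvPolynomial.aeval_C, Algebra.algebraMap_eq_smul_one, map_smul, h1, smul_zero]
    symm
    refine Finset.sum_eq_zero fun j _ => ?_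
    rw [MvPolynomial.pderiv_C, map_zero, zero_mul]
  | add p q hp hq =>
    rw [map_add, map_add, hp, hq, ← Finset.sum_add_distrib]
    refine Finset.sum_congr rfl fun j _ => ?_
    rw [map_add, map_add, add_mul]
  | mul_X p i hp =>
    rw [map_mul, hδ, hp, MvPolynomial.aeval_X, hev, Finset.mul_sum]
    have h2 : ∀ j, MvPolynomial.eval (fun j => ε (a j))
        (MvPolynomial.pderiv j (p * MvPolynomial.X i)) * δ (a j) =
        (if j = i then MvPolynomial.eval (fun j => ε (a j)) p * δ (a i) else 0) +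
        ε (a i) * (MvPolynomial.eval (fun j => ε (a j)) (MvPolynomial.pderiv j p) * δ (a j)) := by
      intro j
      rw [MvPolynomial.pderiv_mul, map_add, map_mul, map_mul, MvPolynomial.eval_X]
      by_cases h : j = i
      · subst h
        rw [MvPolynomial.pderiv_X_self, if_pos rfl, map_one]
        ring
      · rw [MvPolynomial.pderiv_X_of_ne (Ne.symm h), if_neg h, map_zero]
        ring
    rw [Finset.sum_congr rfl fun j _ => h2 j, Finset.sum_add_distrib,
      Finset.sum_ite_eq' Finset.univ i, if_pos (Finset.mem_univ i)]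

/-- the polynomial `t ↦ p (v + t w)` -/
noncomputable def e3_line {r : ℕ} (v w : Fin r → ℂ) (p : MvPolynomial (Fin r) ℂ) : Polynomial ℂ :=
  MvPolynomial.aeval (fun j => Polynomial.C (v j) + Polynomial.C (w j) * Polynomial.X) p

theorem e3_line_eval {r : ℕ} (v w : Fin r → ℂ) (p : MvPolynomial (Fin r) ℂ) (t : ℂ) :
    (e3_line v w p).eval t = MvPolynomial.eval (fun j => v j + t * w j) p := by
  unfold e3_line
  induction p using MvPolynomial.induction_on with
  | C c => simp [MvPolynomial.aeval_C]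
  | add p q hp hq => rw [map_add, Polynomial.eval_add, hp, hq, map_add]
  | mul_X p i hp =>
    rw [map_mul, Polynomial.eval_mul, hp, map_mul, MvPolynomial.aeval_X, MvPolynomial.eval_X]
    simp only [Polynomial.eval_add, Polynomial.eval_mul, Polynomial.eval_C, Polynomial.eval_X]
    ring

theorem e3_line_coeff {r : ℕ} (v w : Fin r → ℂ) (p : MvPolynomial (Fin r) ℂ) :
    (e3_line v w p).coeff 1 = ∑ j, MvPolynomial.eval v (MvPolynomial.pderiv j p) * w j := by
  have h := e3_chain (A := Polynomial ℂ) (Polynomial.aeval (0 : ℂ)) (Polynomial.lcoeff ℂ 1) (by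
    intro a b
    rw [Polynomial.lcoeff_apply, Polynomial.lcoeff_apply, Polynomial.lcoeff_apply,
      Polynomial.mul_coeff_one, ← Polynomial.coeff_zero_eq_aeval_zero,
      ← Polynomial.coeff_zero_eq_aeval_zero]
    ring) (fun j => Polynomial.C (v j) + Polynomial.C (w j) * Polynomial.X) p
  have h1 : ∀ j : Fin r, Polynomial.aeval (0 : ℂ) (Polynomial.C (v j) +
      Polynomial.C (w j) * Polynomial.X) = v j := by
    intro j
    simp
  have h2 : ∀ j : Fin r, Polynomial.lcoeff ℂ 1 (Polynomial.C (v j) +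
      Polynomial.C (w j) * Polynomial.X) = w j := by
    intro j
    rw [Polynomial.lcoeff_apply, Polynomial.coeff_add, Polynomial.coeff_C_succ]
    simp
  rw [Polynomial.lcoeff_apply] at h
  unfold e3_line
  rw [h]
  refine Finset.sum_congr rfl fun j _ => ?_
  rw [h2]
  congr 2
  exact congrArg _ (funext h1)

/-- a polynomial that vanishes on a line has derivative `0` along the line -/
theorem e3_dir {r : ℕ} (v w : Fin r → ℂ) (p : MvPolynomial (Fin r) ℂ)
    (h : ∀ t : ℂ, MvPolynomial.eval (fun j => v j + t * w j) p = 0) :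
    ∑ j, MvPolynomial.eval v (MvPolynomial.pderiv j p) * w j = 0 := by
  have h1 : e3_line v w p = 0 := by
    apply Polynomial.funext
    intro t
    rw [e3_line_eval, h, Polynomial.eval_zero]
  rw [← e3_line_coeff, h1, Polynomial.coeff_zero]

/-- a linear functional on matrices -/
theorem e3_cs {N : ℕ} (c : Matrix (Fin N) (Fin N) ℂ →ₗ[ℂ] ℂ) (B : Matrix (Fin N) (Fin N) ℂ) :
    c B = ∑ i, ∑ k, c (Matrix.single i k 1) * B i k := by
  conv_lhs => rw [Matrix.matrix_eq_sum_single B]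
  rw [map_sum]
  refine Finset.sum_congr rfl fun i _ => ?_
  rw [map_sum]
  refine Finset.sum_congr rfl fun k _ => ?_
  have h : Matrix.single i k (B i k) = B i k • Matrix.single i k (1 : ℂ) := by
    rw [Matrix.smul_single, smul_eq_mul, mul_one]
  rw [h, map_smul, smul_eq_mul, mul_comm]

/-- evaluation of regular functions -/
def e3_ev (x : G.X) : G.O →ₐ[ℂ] ℂ := (Pi.evalAlgHom ℂ (fun _ : G.X => ℂ) x).comp G.O.val

theorem e3_ev_apply (x : G.X) (f : G.O) : e3_ev x f = f.1 x := rfl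

/-- Leibniz rule for matrices of regular functions -/
theorem e3_leib {N : ℕ} (M : G.Lie) (A B : Matrix (Fin N) (Fin N) G.O) :
    (A * B).map M.1 = A.map (e3_ev 1) * B.map M.1 + A.map M.1 * B.map (e3_ev 1) := by
  ext i k
  rw [Matrix.map_apply, Matrix.mul_apply, map_sum, Matrix.add_apply, Matrix.mul_apply,
    Matrix.mul_apply, ← Finset.sum_add_distrib]
  refine Finset.sum_congr rfl fun l _ => ?_
  rw [M.2]
  simp only [Matrix.map_apply, e3_ev_apply]
  ring

namespace Model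

variable (m : Model Q D)

/-- the matrix of the entries -/
def e3_e : Matrix (Fin N) (Fin N) G.O := fun i k => ⟨fun x => m.π x i k, m.ent i k⟩

/-- the matrix of the entries of the inverse -/
def e3_f : Matrix (Fin N) (Fin N) G.O :=
  fun i k => ⟨fun x => m.π x⁻¹ i k, G.inv_mem _ (m.ent i k)⟩

theorem e3_e_ev (x : G.X) : (m.e3_e).map (e3_ev x) = m.π x := rfl

theorem e3_f_ev (x : G.X) : (m.e3_f).map (e3_ev x) = m.π x⁻¹ := rfl

theorem e3_e_M (M : G.Lie) : (m.e3_e).map M.1 = m.dm M := rfl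

theorem e3_ef : m.e3_e * m.e3_f = 1 := by
  ext i k x
  have h1 : ((m.e3_e * m.e3_f) i k).1 x = (m.π x * m.π x⁻¹) i k := by
    change e3_ev x ((m.e3_e * m.e3_f) i k) = _
    rw [Matrix.mul_apply, Matrix.mul_apply, map_sum]
    refine Finset.sum_congr rfl fun l _ => ?_
    rw [map_mul]
    rfl
  rw [h1, ← map_mul, mul_inv_cancel, map_one]
  by_cases h : i = k
  · subst h
    rw [Matrix.one_apply_eq, Matrix.one_apply_eq]
    rfl
  · rw [Matrix.one_apply_ne h, Matrix.one_apply_ne h]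
    rfl

theorem e3_M_one (M : G.Lie) : M.1 1 = 0 := by
  have h := M.2 1 1
  rw [mul_one] at h
  have h2 : (1 : G.O).1 1 = 1 := rfl
  rw [h2] at h
  linear_combination -h

theorem e3_f_M (M : G.Lie) : (m.e3_f).map M.1 = - m.dm M := by
  have h := e3_leib M m.e3_e m.e3_f
  rw [e3_ef, e3_e_ev, e3_f_ev, e3_e_M, inv_one, map_one, one_mul, mul_one] at h
  have h1 : (1 : Matrix (Fin N) (Fin N) G.O).map M.1 = 0 := by
    ext i k
    rw [Matrix.map_apply, Matrix.zero_apply]
    by_cases h : i = k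
    · subst h
      rw [Matrix.one_apply_eq, e3_M_one]
    · rw [Matrix.one_apply_ne h, map_zero]
  rw [h1] at h
  exact eq_neg_of_add_eq_zero_left h.symm

/-- constants -/
noncomputable def e3_c (y : Matrix (Fin N) (Fin N) ℂ) : Matrix (Fin N) (Fin N) G.O :=
  y.map (algebraMap ℂ G.O)

theorem e3_c_ev (y : Matrix (Fin N) (Fin N) ℂ) (x : G.X) :
    (e3_c (G := G) y).map (e3_ev x) = y := by
  ext i k
  rfl

theorem e3_c_M (y : Matrix (Fin N) (Fin N) ℂ) (M : G.Lie) : (e3_c (G := G) y).map M.1 = 0 := by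
  ext i k
  rw [Matrix.map_apply, Matrix.zero_apply]
  unfold e3_c
  rw [Matrix.map_apply, Algebra.algebraMap_eq_smul_one, map_smul, e3_M_one, smul_zero]

/-- the derivative of `k ↦ π k y π k⁻¹` -/
theorem e3_conj_M (y : Matrix (Fin N) (Fin N) ℂ) (M : G.Lie) :
    (m.e3_e * e3_c y * m.e3_f).map M.1 = m.dm M * y - y * m.dm M := by
  rw [e3_leib, e3_leib, e3_f_M, e3_e_ev, e3_f_ev, e3_e_M, e3_c_M, e3_c_ev, inv_one, map_one, mul_zero,
    mul_one, zero_add]
  have h : (m.e3_e * e3_c y).map (e3_ev 1) = y := by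
    have h1 := Matrix.map_mul (L := m.e3_e) (M := e3_c y) (f := (e3_ev (1 : G.X)).toRingHom)
    have h2 : (m.e3_e * e3_c y).map (e3_ev 1) = (m.e3_e).map (e3_ev 1) * (e3_c (G := G) y).map (e3_ev 1) := h1
    rw [h2, e3_e_ev, e3_c_ev, map_one, one_mul]
  rw [h, mul_neg]
  abel

theorem e3_conj_ev (y : Matrix (Fin N) (Fin N) ℂ) (x : G.X) :
    (m.e3_e * e3_c y * m.e3_f).map (e3_ev x) = m.π x * y * m.π x⁻¹ := by
  have h1 := Matrix.map_mul (L := m.e3_e * e3_c y) (M := m.e3_f) (f := (e3_ev x).toRingHom)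
  have h2 := Matrix.map_mul (L := m.e3_e) (M := e3_c y) (f := (e3_ev x).toRingHom)
  have h3 : (m.e3_e * e3_c y * m.e3_f).map (e3_ev x) =
      (m.e3_e * e3_c y).map (e3_ev x) * (m.e3_f).map (e3_ev x) := h1
  have h4 : (m.e3_e * e3_c y).map (e3_ev x) = (m.e3_e).map (e3_ev x) * (e3_c (G := G) y).map (e3_ev x) := h2
  rw [h3, h4, e3_e_ev, e3_c_ev, e3_f_ev]

/-- step (i) -/
theorem e3_i {r : ℕ} (cs : Fin r → Matrix (Fin N) (Fin N) ℂ →ₗ[ℂ] ℂ) (p : MvPolynomial (Fin r) ℂ)
    (y : Matrix (Fin N) (Fin N) ℂ)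
    (h : ∀ x : G.X, MvPolynomial.eval (fun j => cs j (m.π x * y * m.π x⁻¹)) p = 0) (M : G.Lie) :
    ∑ j, MvPolynomial.eval (fun j => cs j y) (MvPolynomial.pderiv j p) *
      cs j (m.dm M * y - y * m.dm M) = 0 := by
  obtain ⟨a, ha⟩ : ∃ a : Fin r → G.O, a = fun j => ∑ i, ∑ k, cs j (Matrix.single i k 1) •
    (m.e3_e * e3_c y * m.e3_f : Matrix (Fin N) (Fin N) G.O) i k := ⟨_, rfl⟩
  have hev : ∀ j (x : G.X), e3_ev x (a j) = cs j (m.π x * y * m.π x⁻¹) := by
    intro j x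
    rw [ha, e3_cs (cs j), ← m.e3_conj_ev]
    simp only [map_sum, map_smul, smul_eq_mul, Matrix.map_apply]
  have hM : ∀ j, M.1 (a j) = cs j (m.dm M * y - y * m.dm M) := by
    intro j
    rw [ha, e3_cs (cs j), ← m.e3_conj_M]
    simp only [map_sum, map_smul, smul_eq_mul, Matrix.map_apply]
  have h0 : MvPolynomial.aeval a p = 0 := by
    apply Subtype.ext
    funext x
    have h2 : ((e3_ev x).comp (MvPolynomial.aeval a)) =
        (MvPolynomial.aeval fun j => e3_ev x (a j) : MvPolynomial (Fin r) ℂ →ₐ[ℂ] ℂ) := by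
      apply MvPolynomial.algHom_ext
      intro i
      simp
    have h3 := DFunLike.congr_fun h2 p
    rw [MvPolynomial.aeval_eq_eval] at h3
    have h4 : (fun j => e3_ev x (a j)) = fun j => cs j (m.π x * y * m.π x⁻¹) := funext fun j => hev j x
    change e3_ev x (MvPolynomial.aeval a p) = 0
    refine Eq.trans h3 ?_
    rw [h4]
    exact h x
  have h5 := e3_chain (e3_ev (1 : G.X)) M.1 (fun f g => M.2 f g) a p
  rw [h0, map_zero] at h5
  have h6 : (fun j => e3_ev (1 : G.X) (a j)) = fun j => cs j y := by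
    funext j
    rw [hev, inv_one, map_one, one_mul, mul_one]
  rw [h6] at h5
  rw [h5]
  exact Finset.sum_congr rfl fun j _ => by rw [hM]

/-- `p` vanishes on `G · 𝔟` -/
def e3_I (D : Dat n N ι) {r : ℕ} (cs : Fin r → Matrix (Fin N) (Fin N) ℂ →ₗ[ℂ] ℂ)
    (p : MvPolynomial (Fin r) ℂ) : Prop :=
  ∀ (g : Matrix (Fin N) (Fin N) ℂ) (x : Fin n → ℂ) (Z : ι → ℂ), D.IsG g →
    MvPolynomial.eval (fun j => cs j (g * (D.Dx x + D.Y Z) * g⁻¹)) p = 0

/-- from the regular points of a line to all points -/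
theorem e3_reg {r : ℕ} (v w : Fin r → ℂ) (p : MvPolynomial (Fin r) ℂ) (x x' : Fin n → ℂ) (t0 : ℂ)
    (hr : D.Reg (x + t0 • x'))
    (h : ∀ t : ℂ, D.Reg (x + t • x') → MvPolynomial.eval (fun j => v j + t * w j) p = 0) :
    MvPolynomial.eval v p = 0 := by
  have hne : ∏ β : ι, (Polynomial.C (ev (D.rt β) x) +
      Polynomial.C (ev (D.rt β) x') * Polynomial.X) ≠ 0 := by
    rw [Finset.prod_ne_zero_iff]
    intro β _ h0
    have h1 := congrArg (Polynomial.eval t0) h0
    simp only [Polynomial.eval_add, Polynomial.eval_mul, Polynomial.eval_C, Polynomial.eval_X,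
      Polynomial.eval_zero] at h1
    apply hr β
    rw [MTD.ev_add_smul]
    linear_combination h1
  have hprod : e3_line v w p * ∏ β : ι, (Polynomial.C (ev (D.rt β) x) +
      Polynomial.C (ev (D.rt β) x') * Polynomial.X) = 0 := by
    apply Polynomial.funext
    intro t
    rw [Polynomial.eval_mul, e3_line_eval, Polynomial.eval_zero, Polynomial.eval_prod]
    by_cases ht : D.Reg (x + t • x')
    · rw [h t ht, zero_mul]
    · unfold Dat.Reg at ht
      push Not at ht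
      obtain ⟨β, hβ⟩ := ht
      rw [Finset.prod_eq_zero (Finset.mem_univ β), mul_zero]
      rw [MTD.ev_add_smul] at hβ
      simp only [Polynomial.eval_add, Polynomial.eval_mul, Polynomial.eval_C, Polynomial.eval_X]
      linear_combination hβ
  have h2 := (mul_eq_zero.1 hprod).resolve_right hne
  have h3 := e3_line_eval v w p 0
  rw [h2, Polynomial.eval_zero] at h3
  have h4 : (fun j => v j + 0 * w j) = v := by
    funext j
    ring
  rw [h4] at h3
  exact h3.symm

/-- the points on a line -/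
theorem e3_pt {r : ℕ} (cs : Fin r → Matrix (Fin N) (Fin N) ℂ →ₗ[ℂ] ℂ)
    (g : Matrix (Fin N) (Fin N) ℂ) (x x' : Fin n → ℂ) (Z Z' : ι → ℂ) (t : ℂ) :
    (fun j => cs j (g * (D.Dx x + D.Y Z) * g⁻¹) + t * cs j (g * (D.Dx x' + D.Y Z') * g⁻¹)) =
      fun j => cs j (g * (D.Dx (x + t • x') + D.Y (Z + t • Z')) * g⁻¹) := by
  funext j
  have h : g * (D.Dx (x + t • x') + D.Y (Z + t • Z')) * g⁻¹ =
      g * (D.Dx x + D.Y Z) * g⁻¹ + t • (g * (D.Dx x' + D.Y Z') * g⁻¹) := by
    rw [Dat.Dx_add_smul, Dat.Y_add, Dat.Y_smul]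
    simp only [Matrix.mul_add, Matrix.add_mul, Matrix.mul_smul, Matrix.smul_mul, smul_add]
    abel
  rw [h, map_add, map_smul, smul_eq_mul]

theorem e3_step_reg {cs : Fin Q.r → Matrix (Fin N) (Fin N) ℂ →ₗ[ℂ] ℂ}
    (hcs : ∀ (M : G.Lie) j, cs j (m.dm M) = Q.D.repr M j) (p : MvPolynomial (Fin Q.r) ℂ)
    (hp : e3_I D cs p) (j : Fin Q.r) (g : Matrix (Fin N) (Fin N) ℂ) (x : Fin n → ℂ) (Z : ι → ℂ)
    (hg : D.IsG g) (hx : D.Reg x) :
    MvPolynomial.eval (fun j => cs j (g * (D.Dx x + D.Y Z) * g⁻¹)) (MvPolynomial.pderiv j p) = 0 := by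
  obtain ⟨u, hu, huG, huc⟩ := m.ax.exists_u x (m.ax.isUnit_reg hx) Z
  have hhG : D.IsG (g * u) := m.ax.mul g u hg huG
  obtain ⟨k, hk⟩ := m.surj (g * u) hhG
  have hg1 := m.ax.mul_inv hg
  have hg2 := m.ax.inv_mul hg
  have hu1 := m.ax.mul_inv huG
  have hu2 := m.ax.inv_mul huG
  have hinv : (g * u)⁻¹ = u⁻¹ * g⁻¹ := Matrix.mul_inv_rev g u
  have hux : D.Dx x = u⁻¹ * (D.Dx x + D.Y Z) * u := by
    rw [Matrix.mul_assoc, ← huc, ← Matrix.mul_assoc, hu2, Matrix.one_mul]
  -- the element `M` moved to the torus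
  have hM1 : m.dm (G.Ad k⁻¹ (Q.D j)) = (g * u)⁻¹ * m.dm (Q.D j) * (g * u) := by
    rw [m.dm_Ad, m.pi_inv, hk, Matrix.nonsing_inv_nonsing_inv]
    rw [m.ax.det _ hhG]
    exact isUnit_one
  obtain ⟨M', x', Z', htri⟩ := m.tri x hx (G.Ad k⁻¹ (Q.D j))
  obtain ⟨Z'', hZ''⟩ := m.ax.conj u x' Z' huG hu.1
  have htri' : m.dm (G.Ad k⁻¹ (Q.D j)) = m.dm M' * D.Dx x - D.Dx x * m.dm M' +
      (D.Dx x' + D.Y Z') := htri
  have hM' : m.dm (G.Ad k M') = g * u * m.dm M' * (u⁻¹ * g⁻¹) := by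
    rw [m.dm_Ad, hk, hinv]
  have hmain : m.dm (Q.D j) = m.dm (G.Ad k M') * (g * (D.Dx x + D.Y Z) * g⁻¹) -
      g * (D.Dx x + D.Y Z) * g⁻¹ * m.dm (G.Ad k M') + g * (D.Dx x' + D.Y Z'') * g⁻¹ := by
    have e1 : m.dm (Q.D j) = g * u * ((g * u)⁻¹ * m.dm (Q.D j) * (g * u)) * (u⁻¹ * g⁻¹) := by
      have e2 : g * u * (u⁻¹ * g⁻¹) = 1 := by
        rw [← hinv, m.ax.mul_inv hhG]
      rw [hinv]
      calc m.dm (Q.D j) = 1 * m.dm (Q.D j) * 1 := by rw [Matrix.one_mul, Matrix.mul_one]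
        _ = (g * u * (u⁻¹ * g⁻¹)) * m.dm (Q.D j) * (g * u * (u⁻¹ * g⁻¹)) := by rw [e2]
        _ = _ := by simp only [Matrix.mul_assoc]
    have e3 : g * (D.Dx x + D.Y Z) * g⁻¹ = g * u * D.Dx x * (u⁻¹ * g⁻¹) := by
      have e4 : u * D.Dx x * u⁻¹ = D.Dx x + D.Y Z := by
        rw [huc, Matrix.mul_assoc, hu1, Matrix.mul_one]
      rw [← e4]
      simp only [Matrix.mul_assoc]
    have e5 : g * (D.Dx x' + D.Y Z'') * g⁻¹ = g * u * (D.Dx x' + D.Y Z') * (u⁻¹ * g⁻¹) := by
      have e6 : u * (D.Dx x' + D.Y Z') * u⁻¹ = D.Dx x' + D.Y Z'' := by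
        rw [hZ'', Matrix.mul_assoc, hu1, Matrix.mul_one]
      rw [← e6]
      simp only [Matrix.mul_assoc]
    have e7 : u⁻¹ * g⁻¹ * (g * u) = 1 := by
      rw [← hinv, m.ax.inv_mul hhG]
    rw [e1, ← hM1, htri', e3, e5, hM']
    have e8 : g * u * m.dm M' * (u⁻¹ * g⁻¹) * (g * u * D.Dx x * (u⁻¹ * g⁻¹)) =
        g * u * (m.dm M' * D.Dx x) * (u⁻¹ * g⁻¹) := by
      calc g * u * m.dm M' * (u⁻¹ * g⁻¹) * (g * u * D.Dx x * (u⁻¹ * g⁻¹)) =
          g * u * m.dm M' * (u⁻¹ * g⁻¹ * (g * u)) * D.Dx x * (u⁻¹ * g⁻¹) := by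
            simp only [Matrix.mul_assoc]
        _ = _ := by rw [e7, Matrix.mul_one]; simp only [Matrix.mul_assoc]
    have e9 : g * u * D.Dx x * (u⁻¹ * g⁻¹) * (g * u * m.dm M' * (u⁻¹ * g⁻¹)) =
        g * u * (D.Dx x * m.dm M') * (u⁻¹ * g⁻¹) := by
      calc g * u * D.Dx x * (u⁻¹ * g⁻¹) * (g * u * m.dm M' * (u⁻¹ * g⁻¹)) =
          g * u * D.Dx x * (u⁻¹ * g⁻¹ * (g * u)) * m.dm M' * (u⁻¹ * g⁻¹) := by
            simp only [Matrix.mul_assoc]
        _ = _ := by rw [e7, Matrix.mul_one]; simp only [Matrix.mul_assoc]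
    rw [e8, e9]
    simp only [Matrix.mul_add, Matrix.add_mul, Matrix.mul_sub, Matrix.sub_mul]
  -- the two relations
  have hi := m.e3_i cs p (g * (D.Dx x + D.Y Z) * g⁻¹) (by
    intro a
    have h1 : m.π a * (g * (D.Dx x + D.Y Z) * g⁻¹) * m.π a⁻¹ =
        m.π a * g * (D.Dx x + D.Y Z) * (m.π a * g)⁻¹ := by
      rw [m.pi_inv, Matrix.mul_inv_rev]
      simp only [Matrix.mul_assoc]
    rw [h1]
    exact hp _ x Z (m.ax.mul _ _ (m.mem a) hg)) (G.Ad k M')
  have hii := e3_dir (fun i => cs i (g * (D.Dx x + D.Y Z) * g⁻¹))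
    (fun i => cs i (g * (D.Dx x' + D.Y Z'') * g⁻¹)) p (by
      intro t
      rw [e3_pt]
      exact hp g _ _ hg)
  have hsum : ∑ i, MvPolynomial.eval (fun j => cs j (g * (D.Dx x + D.Y Z) * g⁻¹))
      (MvPolynomial.pderiv i p) * cs i (m.dm (Q.D j)) = 0 := by
    rw [← add_zero (0 : ℂ)]
    nth_rewrite 1 [← hi]
    rw [← hii, ← Finset.sum_add_distrib]
    refine Finset.sum_congr rfl fun i _ => ?_
    rw [hmain, map_add]
    ring
  rw [Finset.sum_eq_single j] at hsum
  · rw [hcs, Module.Basis.repr_self, Finsupp.single_eq_same, mul_one] at hsum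
    exact hsum
  · intro i _ hij
    rw [hcs, Module.Basis.repr_self, Finsupp.single_eq_of_ne hij, mul_zero]
  · intro h
    exact absurd (Finset.mem_univ j) h

theorem e3_step {cs : Fin Q.r → Matrix (Fin N) (Fin N) ℂ →ₗ[ℂ] ℂ}
    (hcs : ∀ (M : G.Lie) j, cs j (m.dm M) = Q.D.repr M j) (p : MvPolynomial (Fin Q.r) ℂ)
    (hp : e3_I D cs p) (j : Fin Q.r) : e3_I D cs (MvPolynomial.pderiv j p) := by
  intro g x Z hg
  obtain ⟨x0, hx0⟩ := MTXD.exists_reg m.ax
  refine e3_reg (D := D) _ (fun i => cs i (g * (D.Dx (x0 - x) + D.Y 0) * g⁻¹)) _ x (x0 - x) 1 ?_ ?_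
  · rw [one_smul, add_sub_cancel]
    exact hx0
  · intro t ht
    rw [e3_pt, smul_zero, add_zero]
    exact m.e3_step_reg hcs p hp j g _ Z hg ht

theorem e3_coeff {cs : Fin Q.r → Matrix (Fin N) (Fin N) ℂ →ₗ[ℂ] ℂ}
    (hcs : ∀ (M : G.Lie) j, cs j (m.dm M) = Q.D.repr M j) (k : ℕ) :
    ∀ mm : Fin Q.r →₀ ℕ, ∑ i, mm i = k → ∀ p : MvPolynomial (Fin Q.r) ℂ, e3_I D cs p →
      MvPolynomial.coeff mm p = 0 := by
  induction k with
  | zero =>
    intro mm hmm p hp
    have h0 : mm = 0 := by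
      ext i
      have := Finset.sum_eq_zero_iff.1 hmm i (Finset.mem_univ i)
      rw [this]
      rfl
    have h1 := hp 1 0 0 m.ax.one
    have h2 : (fun j => cs j (1 * (D.Dx (0 : Fin n → ℂ) + D.Y (0 : ι → ℂ)) * 1⁻¹)) = fun _ => (0 : ℂ) := by
      funext j
      have h3 : D.Dx (0 : Fin n → ℂ) = 0 := by
        ext a b
        unfold Dat.Dx
        by_cases h : a = b
        · subst h
          rw [Matrix.diagonal_apply_eq, MTD.ev_zero]
          rfl
        · rw [Matrix.diagonal_apply_ne _ h]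
          rfl
      rw [h3, Dat.Y_zero, add_zero, Matrix.mul_zero, Matrix.zero_mul, map_zero]
    rw [h2] at h1
    rw [h0, ← MvPolynomial.constantCoeff_eq, ← h1]
    exact (DFunLike.congr_fun MvPolynomial.eval_zero p).symm
  | succ k ih =>
    intro mm hmm p hp
    obtain ⟨i, hi⟩ : ∃ i, mm i ≠ 0 := by
      by_contra hcon
      push Not at hcon
      rw [Finset.sum_eq_zero fun i _ => hcon i] at hmm
      omega
    have h1 : mm = (mm - Finsupp.single i 1) + Finsupp.single i 1 := by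
      ext a
      rw [Finsupp.add_apply, Finsupp.tsub_apply]
      by_cases h : i = a
      · subst h
        rw [Finsupp.single_eq_same]
        omega
      · rw [Finsupp.single_eq_of_ne (Ne.symm h)]
        omega
    have h2 := ih (mm - Finsupp.single i 1) (by
      have h3 : ∑ a, mm a = ∑ a, (mm - Finsupp.single i 1 : Fin Q.r →₀ ℕ) a + ∑ a, (Finsupp.single i 1 : Fin Q.r →₀ ℕ) a := by
        rw [← Finset.sum_add_distrib]
        refine Finset.sum_congr rfl fun a _ => ?_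
        exact DFunLike.congr_fun h1 a
      have h4 : ∑ a, (Finsupp.single i 1 : Fin Q.r →₀ ℕ) a = 1 := by
        rw [Finset.sum_eq_single i]
        · exact Finsupp.single_eq_same
        · intro a _ ha
          exact Finsupp.single_eq_of_ne ha
        · intro h
          exact absurd (Finset.mem_univ i) h
      omega) (MvPolynomial.pderiv i p) (m.e3_step hcs p hp i)
    rw [MvPolynomial.coeff_pderiv, ← h1] at h2
    rcases mul_eq_zero.1 h2 with h3 | h3
    · exact h3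
    · exfalso
      have h4 : (((mm - Finsupp.single i 1 : Fin Q.r →₀ ℕ) i + 1 : ℕ) : ℂ) = 0 := by
        push_cast
        exact h3
      exact absurd (Nat.cast_eq_zero.1 h4) (Nat.succ_ne_zero _)

/-- (row E3) `G · 𝔟` is dense in the Lie algebra.
Proof.  Let `I := {p | ∀ g x Z, D.IsG g → p(z(g,x,Z)) = 0}`, `z(g,x,Z) j := cs j (g (x + Y Z) g⁻¹)`.
CLAIM: `p ∈ I → pderiv j p ∈ I`.  Fix `g`, `x`, `Z`, `y := g (x + Y Z) g⁻¹`, `v := z(g,x,Z)`, `λ := ` the linear form `M ↦ ∑ j, (∂_j p)(v) * cs j M`.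
(i) `λ (M' y - y M') = 0` for `M' = m.dm M`, `M : G.Lie`: the function `k ↦ p(cs (π k y (π k)⁻¹))` on `G.X` is regular and identically `0`
(`π k * g ∈ G`); apply the point derivation `M` at `1`: chain rule for `p` (induction on `p`, as in `chain`) and
`M (k ↦ cs j (π k y π k⁻¹)) = cs j (M' y - y M')` (expand in the entries; the function `k ↦ π k⁻¹ a b` is regular and `M` of it is `- M' a b`, from `π k * π k⁻¹ = 1` and Leibniz).
[Or with dual numbers: `eps M'` is in the group over the dual numbers by `full` and `chain`/`mv_eps`; or apply `mv_eps` to the polynomial representing the function.]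
(ii) `λ (g (Dx x' + Y Z') g⁻¹) = 0` for all `x'`, `Z'`: `t ↦ p(z(g, x + t x', Z + t Z')) = p(v + t w)` is the zero polynomial in `t`; its derivative at `0` is `∑ ∂_j p(v) w j`.
(iii) For regular `x` let `u` be the upper triangular matrix with `u * Dx x = (Dx x + Y Z) * u` (`A.exists_u`), `h := g * u`, `y = h (Dx x) h⁻¹`.  For `M ∈ Lie`
apply `tri` to `Ad h⁻¹ M`: `dm M = [h M' h⁻¹, y] + h (Dx x' + Y Z') h⁻¹` and `u (Dx x' + Y Z') u⁻¹ = Dx x' + Y Z''` (`A.conj`): so `λ (dm M) = 0` by (i), (ii) (`dm_Ad`).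
`M := Q.D j`: `∂_j p(v) = 0` (`hcs`).
(iv) For all `x`: `x ↦ (∂_j p)(z(g,x,Z))` is a polynomial in `x` that vanishes at all regular `x`; multiply by the product of the (nonzero) root forms and use `MvPolynomial.funext`.
CONCLUSION by strong induction on `p.totalDegree`: the partial derivatives of `p ∈ I` are in `I` and of smaller total degree or `p` is constant; so they are `0`, `p` is a constant
(characteristic `0`), and the constant is `p(z(1,0,0)) = 0`. -/
theorem dense {cs : Fin Q.r → Matrix (Fin N) (Fin N) ℂ →ₗ[ℂ] ℂ}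
    (hcs : ∀ (M : G.Lie) j, cs j (m.dm M) = Q.D.repr M j) (p : MvPolynomial (Fin Q.r) ℂ)
    (hp : ∀ (g : Matrix (Fin N) (Fin N) ℂ) (x : Fin n → ℂ) (Z : ι → ℂ), D.IsG g →
      MvPolynomial.eval (fun j => cs j (g * (D.Dx x + D.Y Z) * g⁻¹)) p = 0) : p = 0 := by
  ext mm
  rw [MvPolynomial.coeff_zero]
  exact m.e3_coeff hcs _ mm rfl p hp

end Model

end Pool.Agent.MTF
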