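import Pool.Agent.MTF.K0

namespace Pool.Agent.MTF.KD

open Matrix
open Pool.Agent.MTD Pool.Agent
open Pool.Agent.MP_c45d35_ag (chi UpUni LowUni transfer)

variable {n N : ℕ} {ι : Type} [Fintype ι] {D : Dat n N ι} {κ : Type} [Fintype κ] [DecidableEq κ]

theorem e4_indep {n : ℕ} (s : Finset (Fin n → ℤ)) (c : (Fin n → ℤ) → ℂ)
    (h : ∀ t : Fin n → ℂˣ, ∑ μ ∈ s, c μ * ((chi μ t : ℂˣ) : ℂ) = 0) : ∀ μ ∈ s, c μ = 0 := by
  classical
  have h0 := Pool.Agent.MP_c45d35_ag.chi_indep (Finsupp.indicator s fun μ _ => c μ) (fun t => by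
    rw [Finsupp.sum_of_support_subset _ (Finsupp.support_indicator_subset s _) _
      (by intros; simp)]
    rw [← h t]
    refine Finset.sum_congr rfl fun μ hμ => ?_
    rw [Finsupp.indicator_of_mem hμ])
  intro μ hμ
  have := DFunLike.congr_fun h0 μ
  rwa [Finsupp.indicator_of_mem hμ] at this

theorem e4_chi_nsmul {n : ℕ} {M : Type*} [CommGroup M] (m : ℕ) (μ : Fin n → ℤ) (t : Fin n → M) :
    chi (m • μ) t = chi μ t ^ m := by
  induction m with
  | zero => rw [zero_smul, Pool.Agent.MP_c45d35_ag.chi_zero, pow_zero]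
  | succ m ih => rw [succ_nsmul, Pool.Agent.MP_c45d35_ag.chi_add, ih, pow_succ]

theorem e4_chi_sum {n : ℕ} {M : Type*} [CommGroup M] {σ : Type*} (s : Finset σ) (μ : σ → Fin n → ℤ)
    (t : Fin n → M) : chi (∑ j ∈ s, μ j) t = ∏ j ∈ s, chi (μ j) t := by
  classical
  induction s using Finset.induction_on with
  | empty => rw [Finset.sum_empty, Finset.prod_empty, Pool.Agent.MP_c45d35_ag.chi_zero]
  | insert a s ha ih =>
    rw [Finset.sum_insert ha, Finset.prod_insert ha, Pool.Agent.MP_c45d35_ag.chi_add, ih]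

/-- the exponent uses diagonal variables only -/
def E4diag {N : ℕ} (e : (Fin N × Fin N) →₀ ℕ) : Prop := ∀ ij ∈ e.support, ij.1 = ij.2

/-- the weight of an exponent -/
noncomputable def e4w {n N : ℕ} {ι : Type} (D : Dat n N ι) (e : (Fin N × Fin N) →₀ ℕ) : Fin n → ℤ :=
  ∑ ij ∈ e.support, e ij • D.wt ij.1

open Classical in
theorem e4_mono {n N : ℕ} {ι : Type} (D : Dat n N ι) {R : Type*} [CommRing R] (t : Fin n → Rˣ)
    (e : (Fin N × Fin N) →₀ ℕ) : ∏ ij ∈ e.support, D.Tt t ij.1 ij.2 ^ e ij =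
      if E4diag e then ((chi (e4w D e) t : Rˣ) : R) else 0 := by
  split_ifs with h
  · rw [e4w, e4_chi_sum, Units.coe_prod]
    refine Finset.prod_congr rfl fun ij hij => ?_
    rw [e4_chi_nsmul, Units.val_pow_eq_pow_val, ← h ij hij]
    unfold Dat.Tt
    rw [Matrix.diagonal_apply_eq]
  · unfold E4diag at h
    push Not at h
    obtain ⟨ij, hij, hne⟩ := h
    refine Finset.prod_eq_zero hij ?_
    unfold Dat.Tt
    rw [Matrix.diagonal_apply_ne _ hne, zero_pow (Finsupp.mem_support_iff.1 hij)]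

open Classical in
theorem e4_mv {n N : ℕ} {ι : Type} (D : Dat n N ι) {R : Type*} [CommRing R] [Algebra ℂ R]
    (t : Fin n → Rˣ) (p : MvPolynomial (Fin N × Fin N) ℂ) (Ω : Finset (Fin n → ℤ))
    (hΩ : ∀ e ∈ p.support, E4diag e → e4w D e ∈ Ω) :
    mv p (D.Tt t) = ∑ k ∈ Ω, ((chi k t : Rˣ) : R) *
      algebraMap ℂ R (∑ e ∈ (p.support.filter E4diag).filter (fun e => e4w D e = k), p.coeff e) := by
  have h1 : mv p (D.Tt t) = ∑ e ∈ p.support.filter E4diag,
      ((chi (e4w D e) t : Rˣ) : R) * algebraMap ℂ R (p.coeff e) := by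
    unfold mv
    rw [MvPolynomial.aeval_def, MvPolynomial.eval₂_eq, Finset.sum_filter]
    refine Finset.sum_congr rfl fun e _ => ?_
    rw [e4_mono D t e]
    split_ifs with h
    · rw [mul_comm]
    · rw [mul_zero]
  rw [h1, ← Finset.sum_fiberwise_of_maps_to (s := p.support.filter E4diag) (t := Ω)
    (g := fun e => e4w D e) (fun e he => hΩ e (Finset.mem_filter.1 he).1 (Finset.mem_filter.1 he).2)]
  refine Finset.sum_congr rfl fun k _ => ?_
  rw [map_sum, Finset.mul_sum]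
  refine Finset.sum_congr rfl fun e he => ?_
  rw [(Finset.mem_filter.1 he).2]

/-- (row E4) Weight decomposition of a polynomial representation under the torus.
Proof.  For a monomial `∏ X (i,j) ^ e(i,j)`: its value at `D.Tt t` is `0` if some `e(i,j) > 0` with `i ≠ j` and else `chi (∑ i, e(i,i) • wt i) t`; so for each
entry `ρ a b` the value `mv (ρ a b) (D.Tt t) = ∑ k ∈ Ω_ab, chi k t * P_ab k` with complex constants, valid for units `t` in all `ℂ`-algebras `R` (write `ρ a b` as a sum over its support).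
`Ω := ` the union, `P k := ` the matrix of the coefficients.  `P k * P l`: `rM ρ (Tt (t t')) = rM ρ (Tt t) * rM ρ (Tt t')` for `t, t' : Fin n → ℂˣ` (`hρ.mul`, `D.Tt` is multiplicative,
`A.torus`); compare coefficients with `MP_c45d35_ag.chi_indep` twice (first in `t'`, then in `t`).  `∑ P k = 1`: `t = 1`, `hρ.one`. -/
theorem torus_dec (A : MTXD.Ax D) {ρ : Matrix κ κ (MvPolynomial (Fin N × Fin N) ℂ)} (hρ : PRep D ρ) :
    ∃ (Ω : Finset (Fin n → ℤ)) (P : (Fin n → ℤ) → Matrix κ κ ℂ),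
      (∀ {R : Type} [CommRing R] [Algebra ℂ R] (t : Fin n → Rˣ),
        rM ρ (D.Tt t) = ∑ k ∈ Ω, ((chi k t : Rˣ) : R) • (P k).map (algebraMap ℂ R)) ∧
      (∀ k ∈ Ω, ∀ l ∈ Ω, P k * P l = if k = l then P k else 0) ∧ ∑ k ∈ Ω, P k = 1 := by
  classical
  obtain ⟨Ω, hΩ⟩ : ∃ Ω : Finset (Fin n → ℤ), ∀ (a b : κ), ∀ e ∈ (ρ a b).support, E4diag e →
      e4w D e ∈ Ω := by
    refine ⟨(Finset.univ : Finset (κ × κ)).biUnion fun ab =>
      (ρ ab.1 ab.2).support.image (fun e => e4w D e), fun a b e he _ => ?_⟩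
    rw [Finset.mem_biUnion]
    exact ⟨(a, b), Finset.mem_univ _, Finset.mem_image_of_mem _ he⟩
  obtain ⟨P, hP⟩ : ∃ P : (Fin n → ℤ) → Matrix κ κ ℂ, ∀ k a b, P k a b =
      ∑ e ∈ ((ρ a b).support.filter E4diag).filter (fun e => e4w D e = k), (ρ a b).coeff e :=
    ⟨fun k => Matrix.of fun a b =>
      ∑ e ∈ ((ρ a b).support.filter E4diag).filter (fun e => e4w D e = k), (ρ a b).coeff e,
      fun _ _ _ => rfl⟩
  have hent : ∀ {R : Type} [CommRing R] [Algebra ℂ R] (t : Fin n → Rˣ) (a b : κ),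
      rM ρ (D.Tt t) a b = ∑ k ∈ Ω, ((chi k t : Rˣ) : R) * algebraMap ℂ R (P k a b) := by
    intro R _ _ t a b
    have h1 := e4_mv D t (ρ a b) Ω (hΩ a b)
    refine h1.trans (Finset.sum_congr rfl fun k _ => ?_)
    rw [hP]
  have hentC : ∀ (t : Fin n → ℂˣ) (a b : κ),
      rM ρ (D.Tt t) a b = ∑ k ∈ Ω, P k a b * ((chi k t : ℂˣ) : ℂ) := by
    intro t a b
    rw [hent t a b]
    refine Finset.sum_congr rfl fun k _ => ?_
    rw [mul_comm]
    rfl
  refine ⟨Ω, P, ?_, ?_, ?_⟩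
  · intro R _ _ t
    ext a b
    rw [hent t a b, Matrix.sum_apply]
    rfl
  · have hmul : ∀ (t t' : Fin n → ℂˣ) (a b : κ),
        ∑ k ∈ Ω, P k a b * ((chi k t : ℂˣ) : ℂ) * ((chi k t' : ℂˣ) : ℂ) =
        ∑ k ∈ Ω, (∑ l ∈ Ω, (P k * P l) a b * ((chi l t' : ℂˣ) : ℂ)) * ((chi k t : ℂˣ) : ℂ) := by
      intro t t' a b
      have h1 : rM ρ (D.Tt (t * t')) a b = (rM ρ (D.Tt t) * rM ρ (D.Tt t')) a b := by
        rw [D.Tt_mul, hρ.mul _ _ (A.torus t) (A.torus t')]
      rw [hentC, Matrix.mul_apply] at h1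
      have h2 : ∀ k ∈ Ω, P k a b * ((chi k (t * t') : ℂˣ) : ℂ) =
          P k a b * ((chi k t : ℂˣ) : ℂ) * ((chi k t' : ℂˣ) : ℂ) := by
        intro k _
        rw [Pool.Agent.MP_c45d35_ag.chi_mul, Units.val_mul, mul_assoc]
      rw [Finset.sum_congr rfl h2] at h1
      rw [h1]
      have h3 : ∀ c : κ, rM ρ (D.Tt t) a c * rM ρ (D.Tt t') c b =
          ∑ k ∈ Ω, ∑ l ∈ Ω, P k a c * P l c b * ((chi l t' : ℂˣ) : ℂ) * ((chi k t : ℂˣ) : ℂ) := by
        intro c
        rw [hentC, hentC, Finset.sum_mul_sum]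
        refine Finset.sum_congr rfl fun k _ => Finset.sum_congr rfl fun l _ => ?_
        ring
      rw [Finset.sum_congr rfl fun c _ => h3 c, Finset.sum_comm]
      refine Finset.sum_congr rfl fun k _ => ?_
      rw [Finset.sum_comm, Finset.sum_mul]
      refine Finset.sum_congr rfl fun l _ => ?_
      rw [Matrix.mul_apply, Finset.sum_mul, Finset.sum_mul]
    intro k hk l hl
    ext a b
    have h4 : ∀ t' : Fin n → ℂˣ, P k a b * ((chi k t' : ℂˣ) : ℂ) -
        ∑ l ∈ Ω, (P k * P l) a b * ((chi l t' : ℂˣ) : ℂ) = 0 := by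
      intro t'
      refine e4_indep Ω (fun k => P k a b * ((chi k t' : ℂˣ) : ℂ) -
        ∑ l ∈ Ω, (P k * P l) a b * ((chi l t' : ℂˣ) : ℂ)) (fun t => ?_) k hk
      have h5 := hmul t t' a b
      rw [← sub_eq_zero, ← Finset.sum_sub_distrib] at h5
      rw [← h5]
      refine Finset.sum_congr rfl fun k _ => ?_
      ring
    have h6 := e4_indep Ω
      (fun l => (if k = l then P k a b else 0) - (P k * P l) a b) (fun t' => by
        refine Eq.trans ?_ (h4 t')
        simp only [sub_mul, Finset.sum_sub_distrib]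
        congr 1
        simp only [ite_mul, zero_mul]
        rw [Finset.sum_ite_eq Ω k, if_pos hk]) l hl
    have h7 : (P k * P l) a b = if k = l then P k a b else 0 := (sub_eq_zero.1 h6).symm
    rw [h7]
    split_ifs
    · rfl
    · rfl
  · ext a b
    have h1 := hentC 1 a b
    rw [D.Tt_one, hρ.one] at h1
    rw [Matrix.sum_apply, h1]
    refine Finset.sum_congr rfl fun k _ => ?_
    rw [Pool.Agent.MP_c45d35_ag.chi_one, Units.val_one, mul_one]

end Pool.Agent.MTF.KD
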