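import Pool.Agent.MTF.E2
import Pool.Agent.MTF.E4

namespace Pool.Agent.MTF

open AffGrp Matrix
open Pool.Agent.MTD (Dat ev expN)
open Pool.Agent.MTF.KD (mv rM Uni LieC PRep)

variable {G : AffGrp} {K W X : Type} [Field K] [Algebra ℂ K] [Group W] [Fintype W]
  [MulSemiringAction W K] [SMulCommClass W ℂ K] [AddCommGroup X] [DistribMulAction W X]
variable {Q : TQD G K W X} {n N : ℕ} {ι : Type} [Fintype ι] {D : Dat n N ι}

namespace Model

variable (m : Model Q D)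

/-- (row E5) Representations of `G` are polynomial in the matrix model: `gen` for the entries, `surj`, `π (x y) = π x π y`. -/
theorem exists_rho (E : Rep G) : ∃ ρ : Matrix E.ι E.ι (MvPolynomial (Fin N × Fin N) ℂ),
    PRep D ρ ∧ ∀ x, rM ρ (m.π x) = E.ρ x := by
  choose p hp using fun a b => m.gen _ (E.mem a b)
  have hr : ∀ x, rM (Matrix.of p) (m.π x) = E.ρ x := by
    intro x
    ext a b
    show mv (p a b) (m.π x) = E.ρ x a b
    exact (hp a b x).symm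
  refine ⟨Matrix.of p, ⟨?_, fun g h hg hh => ?_⟩, hr⟩
  · rw [← map_one m.π, hr, map_one]
  · obtain ⟨x, rfl⟩ := m.surj g hg
    obtain ⟨y, rfl⟩ := m.surj h hh
    rw [← map_mul, hr, hr, hr, map_mul]

/-- the derivative of a representation -/
def dE (E : Rep G) : G.Lie →ₗ[ℂ] Matrix E.ι E.ι ℂ where
  toFun M := Matrix.of fun a b => M.1 (E.co a b)
  map_add' _ _ := rfl
  map_smul' _ _ := rfl

/-- `dE (Ad g M) = ρ(g) dE(M) ρ(g)⁻¹`, as in `dm_Ad`. -/
theorem dE_Ad (E : Rep G) (g : G.X) (M : G.Lie) :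
    dE E (G.Ad g M) = E.ρ g * dE E M * E.ρ g⁻¹ := by
  ext a b
  show M.1 (G.cj g (E.co a b)) = _
  have h : G.cj g (E.co a b) = ∑ d, ∑ c, (E.ρ g a c * E.ρ g⁻¹ d b) • E.co c d := by
    apply Subtype.ext
    funext y
    have h1 : (∑ d, ∑ c, (E.ρ g a c * E.ρ g⁻¹ d b) • E.co c d : G.O).1 y =
        ∑ d, ∑ c, (E.ρ g a c * E.ρ g⁻¹ d b) * E.ρ y c d := by
      simp only [AddSubmonoidClass.coe_finsetSum, Finset.sum_apply]
      rfl
    rw [h1]
    show E.ρ (g * y * g⁻¹) a b = _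
    rw [map_mul, map_mul, Matrix.mul_apply]
    refine Finset.sum_congr rfl fun d _ => ?_
    rw [Matrix.mul_apply, Finset.sum_mul]
    exact Finset.sum_congr rfl fun c _ => by ring
  rw [h, map_sum, Matrix.mul_apply]
  refine Finset.sum_congr rfl fun d _ => ?_
  rw [map_sum, Matrix.mul_apply, Finset.sum_mul]
  refine Finset.sum_congr rfl fun c _ => ?_
  rw [map_smul, smul_eq_mul]
  show E.ρ g a c * E.ρ g⁻¹ d b * M.1 (E.co c d) = E.ρ g a c * M.1 (E.co c d) * E.ρ g⁻¹ d b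
  ring

/-- Proof: `M (E.co a b)` with `E.co a b = mv (ρ a b) ∘ π`: `chain` and `mv_eps`. -/
theorem dE_eps (E : Rep G) {ρ : Matrix E.ι E.ι (MvPolynomial (Fin N × Fin N) ℂ)}
    (hρ : ∀ x, rM ρ (m.π x) = E.ρ x) (M : G.Lie) (a b : E.ι) :
    dE E M a b = TrivSqZeroExt.snd (mv (ρ a b) (eps (m.dm M))) := by
  have h : E.co a b = ⟨_, m.mv_mem (ρ a b)⟩ := by
    apply Subtype.ext
    funext x
    show E.ρ x a b = mv (ρ a b) (m.π x)
    rw [← hρ x]
    rfl
  show M.1 (E.co a b) = _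
  rw [h, m.chain, mv_eps]

/-- the unit `1 + ε c` of the dual numbers -/
noncomputable def e5_hom : Multiplicative ℂ →* (DualNumber ℂ)ˣ where
  toFun c :=
    { val := 1 + TrivSqZeroExt.inr (Multiplicative.toAdd c)
      inv := 1 - TrivSqZeroExt.inr (Multiplicative.toAdd c)
      val_inv := by
        have h : (TrivSqZeroExt.inr (Multiplicative.toAdd c) : DualNumber ℂ) *
            TrivSqZeroExt.inr (Multiplicative.toAdd c) = 0 := TrivSqZeroExt.inr_mul_inr _ _ _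
        linear_combination -h
      inv_val := by
        have h : (TrivSqZeroExt.inr (Multiplicative.toAdd c) : DualNumber ℂ) *
            TrivSqZeroExt.inr (Multiplicative.toAdd c) = 0 := TrivSqZeroExt.inr_mul_inr _ _ _
        linear_combination -h }
  map_one' := by
    apply Units.ext
    show 1 + TrivSqZeroExt.inr (0 : ℂ) = (1 : DualNumber ℂ)
    rw [TrivSqZeroExt.inr_zero, add_zero]
  map_mul' a b := by
    apply Units.ext
    show 1 + TrivSqZeroExt.inr (Multiplicative.toAdd a + Multiplicative.toAdd b) =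
      ((1 + TrivSqZeroExt.inr (Multiplicative.toAdd a)) *
        (1 + TrivSqZeroExt.inr (Multiplicative.toAdd b)) : DualNumber ℂ)
    have h : (TrivSqZeroExt.inr (Multiplicative.toAdd a) : DualNumber ℂ) *
        TrivSqZeroExt.inr (Multiplicative.toAdd b) = 0 := TrivSqZeroExt.inr_mul_inr _ _ _
    rw [TrivSqZeroExt.inr_add]
    linear_combination -h

theorem e5_hom_val (c : Multiplicative ℂ) :
    ((e5_hom c : (DualNumber ℂ)ˣ) : DualNumber ℂ) = 1 + TrivSqZeroExt.inr (Multiplicative.toAdd c) := rfl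

theorem e5_chi {n : ℕ} (k : Fin n → ℤ) (x : Fin n → ℂ) :
    ((Pool.Agent.MP_c45d35_ag.chi k (fun i => e5_hom (Multiplicative.ofAdd (x i))) :
      (DualNumber ℂ)ˣ) : DualNumber ℂ) = 1 + TrivSqZeroExt.inr (ev k x) := by
  have hm := Pool.Agent.MP_c45d35_ag.chi_map (M := Multiplicative ℂ) (M' := (DualNumber ℂ)ˣ)
    e5_hom k (fun i => Multiplicative.ofAdd (x i))
  rw [← hm, e5_hom_val]
  congr 2
  unfold Pool.Agent.MP_c45d35_ag.chi ev
  rw [toAdd_prod]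
  refine Finset.sum_congr rfl fun i _ => ?_
  rw [toAdd_zpow, toAdd_ofAdd, zsmul_eq_mul]

theorem e5_alg (c : ℂ) : algebraMap ℂ (DualNumber ℂ) c = TrivSqZeroExt.inl c := rfl

theorem e5_eps (x : Fin n → ℂ) :
    eps (D.Dx x) = D.Tt (fun i => e5_hom (Multiplicative.ofAdd (x i))) := by
  ext i j
  · by_cases h : i = j
    · subst h
      simp [eps, Dat.Dx, Dat.Tt, e5_chi, e5_alg]
    · simp [eps, Dat.Dx, Dat.Tt, h]
  · by_cases h : i = j
    · subst h
      simp [eps, Dat.Dx, Dat.Tt, e5_chi, e5_alg]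
    · simp [eps, Dat.Dx, Dat.Tt, h]

/-- the derivative of a representation on the torus -/
theorem e5_dEx (E : Rep G) {ρ : Matrix E.ι E.ι (MvPolynomial (Fin N × Fin N) ℂ)}
    (h : ∀ (M : G.Lie) (a b : E.ι), dE E M a b = TrivSqZeroExt.snd (mv (ρ a b) (eps (m.dm M))))
    {Ω : Finset (Fin n → ℤ)} {P : (Fin n → ℤ) → Matrix E.ι E.ι ℂ}
    (hΩ : ∀ {R : Type} [CommRing R] [Algebra ℂ R] (t : Fin n → Rˣ),
        rM ρ (D.Tt t) = ∑ k ∈ Ω, ((Pool.Agent.MP_c45d35_ag.chi k t : Rˣ) : R) •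
          (P k).map (algebraMap ℂ R))
    (x : Fin n → ℂ) (M : G.Lie) (hM : m.dm M = D.Dx x) :
    dE E M = ∑ k ∈ Ω, ev k x • P k := by
  ext a b
  rw [h, hM, e5_eps]
  have h1 : mv (ρ a b) (D.Tt (fun i => e5_hom (Multiplicative.ofAdd (x i)))) =
      rM ρ (D.Tt (fun i => e5_hom (Multiplicative.ofAdd (x i)))) a b := rfl
  rw [h1, hΩ, Matrix.sum_apply, Matrix.sum_apply, TrivSqZeroExt.snd_sum]
  refine Finset.sum_congr rfl fun k _ => ?_
  rw [Matrix.smul_apply, Matrix.map_apply, e5_chi, Matrix.smul_apply, smul_eq_mul, smul_eq_mul,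
    TrivSqZeroExt.snd_mul]
  simp [e5_alg]

theorem e5_prod_ne (Ω : Finset (Fin n → ℤ)) :
    (∏ k ∈ Ω.filter (fun k => k ≠ 0), ∑ i, MvPolynomial.C ((k i : ℤ) : ℂ) *
      (MvPolynomial.X i : MvPolynomial (Fin n) ℂ)) ≠ 0 := by
  rw [Finset.prod_ne_zero_iff]
  intro k hk h0
  rw [Finset.mem_filter] at hk
  apply hk.2
  funext j
  have h := congrArg (MvPolynomial.eval (Pi.single j (1 : ℂ))) h0
  rw [map_sum, map_zero, Finset.sum_eq_single j] at h
  · rw [map_mul, MvPolynomial.eval_C, MvPolynomial.eval_X, Pi.single_eq_same, mul_one] at h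
    exact_mod_cast h
  · intro i _ hi
    rw [map_mul, MvPolynomial.eval_X, Pi.single_eq_of_ne hi, mul_zero]
  · intro hj
    exact absurd (Finset.mem_univ j) hj

theorem e5_eval (Ω : Finset (Fin n → ℤ)) (x : Fin n → ℂ)
    (h : MvPolynomial.eval x (∏ k ∈ Ω.filter (fun k => k ≠ 0), ∑ i,
      MvPolynomial.C ((k i : ℤ) : ℂ) * (MvPolynomial.X i : MvPolynomial (Fin n) ℂ)) ≠ 0)
    (k : Fin n → ℤ) (hk : k ∈ Ω) (h0 : k ≠ 0) : ev k x ≠ 0 := by
  rw [map_prod, Finset.prod_ne_zero_iff] at h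
  have h1 := h k (Finset.mem_filter.2 ⟨hk, h0⟩)
  rw [map_sum] at h1
  intro h2
  apply h1
  rw [← h2]
  unfold ev
  exact Finset.sum_congr rfl fun i _ => by
    rw [map_mul, MvPolynomial.eval_C, MvPolynomial.eval_X]

/-- (J) Vectors killed by the slice element are fixed by its centraliser, at generic points.
Proof.  `ρ` from `exists_rho`, `Ω`, `P` from `torus_dec`.  `f0 := ∏ k ∈ Ω \ {0}, (∑ i, C (k i) * X i)`, a product of nonzero linear forms.
Let `Mx : G.Lie`, `dm Mx = Dx x` (`borel_x`).  `dE E Mx = ∑ k ∈ Ω, ev k x • P k`: by `dE_eps`, `eps (Dx x) = Tt (1 + ε x)` (as in `borel_x`), `torus_dec` over the dual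
numbers, `snd (chi k (1 + ε x)) = ev k x`.  `q := D.qC x = D.pC x * D.ueC x` is in the group (`A.qC_isG`), `q * Dx x = sC x * q` (`A.qC_conj`), `q = π q'` (`surj`);
`m.sL x = Ad q' Mx` (`dm_inj`, `dm_Ad`, `slice`).  So `dE E (sL x) = ρ(q') dE(Mx) ρ(q')⁻¹`; if it kills `v` then `v' := ρ(q')⁻¹ v` satisfies `∑ ev k x • P k v' = 0`; multiply by `P l`:
`ev l x • P l v' = 0`, so `P l v' = 0` for `0 ≠ l ∈ Ω` and `v' = ∑ P k v' = P 0 v'` (resp. `0`): `v'` is fixed by all `ρ(Tt t)` (`chi 0 t = 1`).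
`h` commutes with `sC x`: `q⁻¹ π(h) q` commutes with `Dx x`, so it is `Tt t` (`A.cent`), and `ρ(h) v = ρ(q') ρ(Tt t) v' = v`. -/
theorem J (E : Rep G) : ∃ f0 : MvPolynomial (Fin n) ℂ, f0 ≠ 0 ∧ ∀ x : Fin n → ℂ, D.Reg x →
    MvPolynomial.eval x f0 ≠ 0 → ∀ v : E.ι → ℂ, (dE E (m.sL x)).mulVec v = 0 →
    ∀ h : G.X, m.π h * D.sC x = D.sC x * m.π h → (E.ρ h).mulVec v = v := by
  obtain ⟨ρ, hρ, hπ⟩ := m.exists_rho E
  obtain ⟨Ω, P, hΩ, hP, hS⟩ := KD.torus_dec m.ax hρ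
  refine ⟨_, e5_prod_ne Ω, fun x hx hf v hv h hh => ?_⟩
  obtain ⟨Mx, hMx⟩ := m.borel_x x
  have hd : dE E Mx = ∑ k ∈ Ω, ev k x • P k :=
    e5_dEx m E (fun M a b => m.dE_eps E hπ M a b) hΩ x Mx hMx
  obtain ⟨q', hq'⟩ := m.surj _ (m.ax.qC_isG x)
  have hsl : m.sL x = G.Ad q' Mx := by
    apply m.dm_inj
    rw [m.dm_Ad, hMx, hq', m.ax.qC_conj hx, Matrix.mul_assoc, m.ax.mul_inv (m.ax.qC_isG x),
      Matrix.mul_one]
    exact (m.slice x).symm
  have hinv : E.ρ q'⁻¹ * E.ρ q' = 1 := by rw [← map_mul, inv_mul_cancel, map_one]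
  have hinv' : E.ρ q' * E.ρ q'⁻¹ = 1 := by rw [← map_mul, mul_inv_cancel, map_one]
  set v' : E.ι → ℂ := (E.ρ q'⁻¹).mulVec v with hv'
  have hv0 : (dE E Mx).mulVec v' = 0 := by
    rw [hsl, dE_Ad] at hv
    have h1 := congrArg (fun u => (E.ρ q'⁻¹).mulVec u) hv
    simp only [Matrix.mulVec_mulVec, Matrix.mulVec_zero] at h1
    rw [← Matrix.mul_assoc, ← Matrix.mul_assoc, hinv, Matrix.one_mul] at h1
    rw [hv', Matrix.mulVec_mulVec]
    exact h1
  have hPl : ∀ l ∈ Ω, l ≠ 0 → (P l).mulVec v' = 0 := by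
    intro l hl h0
    have h1 := congrArg (fun u => (P l).mulVec u) hv0
    simp only [Matrix.mulVec_mulVec, Matrix.mulVec_zero] at h1
    have h2 : P l * dE E Mx = ev l x • P l := by
      rw [hd, Finset.mul_sum, Finset.sum_eq_single l]
      · rw [Matrix.mul_smul, hP l hl l hl, if_pos rfl]
      · intro k hk hkl
        rw [Matrix.mul_smul, hP l hl k hk, if_neg (Ne.symm hkl), smul_zero]
      · intro hl'
        exact absurd hl hl'
    rw [h2, Matrix.smul_mulVec] at h1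
    exact (smul_eq_zero.1 h1).resolve_left (e5_eval Ω x hf l hl h0)
  have hfix : ∀ t : Fin n → ℂˣ, (rM ρ (D.Tt t)).mulVec v' = v' := by
    intro t
    rw [hΩ t]
    have h1 : (∑ k ∈ Ω, ((Pool.Agent.MP_c45d35_ag.chi k t : ℂˣ) : ℂ) •
        (P k).map (algebraMap ℂ ℂ)).mulVec v' = (∑ k ∈ Ω, P k).mulVec v' := by
      rw [Matrix.sum_mulVec, Matrix.sum_mulVec]
      refine Finset.sum_congr rfl fun k hk => ?_
      have h2 : (P k).map (algebraMap ℂ ℂ) = P k := by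
        ext a b
        rfl
      rw [h2, Matrix.smul_mulVec]
      by_cases h0 : k = 0
      · rw [h0, Pool.Agent.MP_c45d35_ag.chi_zero, Units.val_one, one_smul]
      · rw [hPl k hk h0, smul_zero]
    rw [h1, hS, Matrix.one_mulVec]
  have hG := m.ax.qC_isG x
  have hcx : (D.qC x)⁻¹ * D.sC x = D.Dx x * (D.qC x)⁻¹ := by
    have h1 := m.ax.qC_conj hx
    calc (D.qC x)⁻¹ * D.sC x = (D.qC x)⁻¹ * (D.sC x * D.qC x) * (D.qC x)⁻¹ := by
          rw [Matrix.mul_assoc, Matrix.mul_assoc, m.ax.mul_inv hG, Matrix.mul_one]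
      _ = (D.qC x)⁻¹ * (D.qC x * D.Dx x) * (D.qC x)⁻¹ := by rw [h1]
      _ = D.Dx x * (D.qC x)⁻¹ := by rw [← Matrix.mul_assoc, m.ax.inv_mul hG, Matrix.one_mul]
  have hπ' : m.π (q'⁻¹ * h * q') = (D.qC x)⁻¹ * m.π h * D.qC x := by
    rw [map_mul, map_mul, m.pi_inv, hq']
  have hcomm : Commute (m.π (q'⁻¹ * h * q')) (D.Dx x) := by
    rw [hπ']
    show (D.qC x)⁻¹ * m.π h * D.qC x * D.Dx x = D.Dx x * ((D.qC x)⁻¹ * m.π h * D.qC x)
    calc (D.qC x)⁻¹ * m.π h * D.qC x * D.Dx x = (D.qC x)⁻¹ * (m.π h * (D.qC x * D.Dx x)) := by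
          simp only [Matrix.mul_assoc]
      _ = (D.qC x)⁻¹ * ((m.π h * D.sC x) * D.qC x) := by
          rw [m.ax.qC_conj hx]; simp only [Matrix.mul_assoc]
      _ = ((D.qC x)⁻¹ * D.sC x) * m.π h * D.qC x := by rw [hh]; simp only [Matrix.mul_assoc]
      _ = D.Dx x * ((D.qC x)⁻¹ * m.π h * D.qC x) := by rw [hcx]; simp only [Matrix.mul_assoc]
  obtain ⟨t, ht⟩ := m.ax.cent _ x (m.mem (q'⁻¹ * h * q')) hx hcomm
  have hfin : (E.ρ (q'⁻¹ * h * q')).mulVec v' = v' := by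
    rw [← hπ, ht]
    exact hfix t
  have h3 : E.ρ h = E.ρ q' * E.ρ (q'⁻¹ * h * q') * E.ρ q'⁻¹ := by
    rw [← map_mul, ← map_mul]
    congr 1
    group
  rw [h3, ← Matrix.mulVec_mulVec, ← Matrix.mulVec_mulVec, ← hv', hfin, hv', Matrix.mulVec_mulVec,
    hinv', Matrix.one_mulVec]

end Model

end Pool.Agent.MTF
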