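import Pool.Agent.MTF.K0

namespace Pool.Agent.MTF.KD

open Matrix
open Pool.Agent.MTD Pool.Agent
open Pool.Agent.MP_c45d35_ag (chi UpUni LowUni transfer)
open Pool.Agent.MTF.D1 (Pts Van)

variable {n N : ℕ} {ι : Type} [Fintype ι] {D : Dat n N ι} {κ : Type} [Fintype κ] [DecidableEq κ]

omit [DecidableEq κ] in
private theorem exists_g (A : MTXD.Ax D) {x : Fin n → ℂ} (hx : D.Reg x) (Z : ι → ℂ) :
    ∃ g, D.IsG g ∧ g * D.sC x = (D.Dx x + D.Y Z) * g := by
  obtain ⟨u, -, huG, hu⟩ := A.exists_u x (A.isUnit_reg hx) Z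
  have hq := A.qC_conj hx
  have hqG := A.qC_isG x
  refine ⟨u * (D.qC x)⁻¹, A.mul _ _ huG (A.inv _ hqG), ?_⟩
  have h1 : (D.qC x)⁻¹ * D.sC x = D.Dx x * (D.qC x)⁻¹ := by
    calc (D.qC x)⁻¹ * D.sC x = (D.qC x)⁻¹ * (D.sC x * D.qC x) * (D.qC x)⁻¹ := by
          rw [Matrix.mul_assoc, Matrix.mul_assoc, A.mul_inv hqG, Matrix.mul_one]
      _ = (D.qC x)⁻¹ * (D.qC x * D.Dx x) * (D.qC x)⁻¹ := by rw [hq]
      _ = D.Dx x * (D.qC x)⁻¹ := by
          rw [← Matrix.mul_assoc (D.qC x)⁻¹, A.inv_mul hqG, Matrix.one_mul]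
  rw [Matrix.mul_assoc, h1, ← Matrix.mul_assoc, hu, Matrix.mul_assoc]

/-- the product of the roots is not zero -/
private theorem ell_ne (A : MTXD.Ax D) (β : ι) : ell D β ≠ 0 := by
  intro h
  obtain ⟨x, hx⟩ := MTXD.exists_reg A
  have h1 := eval_ell (D := D) β x
  rw [h, map_zero] at h1
  exact hx β h1.symm

/-- (row K1c) Equivariance for a fixed upper triangular `b ∈ G`: the identity `Q(x, Z') = ρ(b) Q(x, Z)` for
`b (Dx x + Y Z) = (Dx x + Y Z') b` extends from regular `x` to all `x`.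
Proof.  Fix `b`.  `Z'` is a polynomial function of `(x, Z)`: `A.conj` over the ring `R := MvPolynomial (ι ⊕ Fin n) ℂ` (or pointwise with
`A.Y_entry`: `Z' β * E β i j = (b (Dx x + Y Z) b⁻¹) i j - (Dx x) i j` at an entry `(i,j)` with `E β i j ≠ 0`,
`A.exists_entry`).  For `x` regular with `f0 x ≠ 0` choose `g` with `g sC x = (Dx x + Y Z) g` (exists: `A.exists_u`, see K1a);
`b g` does it for `Z'`; so `Qv Q x Z' = (∏ β x) ρ(b g) P(x) = ρ(b) Qv Q x Z` by `hQ`.  Both sides are polynomials in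
`(x, Z)`; they agree where `f0(x) ∏ β(x) ≠ 0`; a polynomial that vanishes outside the zeros of a nonzero polynomial is `0`
(`MvPolynomial.funext` for the product). -/
theorem equivQ (A : MTXD.Ax D) {ρ : Matrix κ κ (MvPolynomial (Fin N × Fin N) ℂ)} (hρ : PRep D ρ)
    {P : κ → MvPolynomial (Fin n) ℂ} {f0 : MvPolynomial (Fin n) ℂ} (hP : PInp D ρ P f0)
    (l : List ι) (Q : κ → MvPolynomial (ι ⊕ Fin n) ℂ)
    (hQ : ∀ (x : Fin n → ℂ) (Z : ι → ℂ), D.Reg x → MvPolynomial.eval x f0 ≠ 0 → ∀ g, D.IsG g →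
      g * D.sC x = (D.Dx x + D.Y Z) * g →
      ∀ a, (l.map fun β => ev (D.rt β) x).prod * (rM ρ g).mulVec (Pv P x) a = Qv Q x Z a)
    (b : Matrix (Fin N) (Fin N) ℂ) (hb : D.IsG b) (hbu : ∀ i j, j < i → b i j = 0)
    (x : Fin n → ℂ) (Z Z' : ι → ℂ) (h : b * (D.Dx x + D.Y Z) = (D.Dx x + D.Y Z') * b) :
    Qv Q x Z' = (rM ρ b).mulVec (Qv Q x Z) := by
  classical
  let xX : Fin n → (MvPolynomial (ι ⊕ Fin n) ℂ) := fun k => MvPolynomial.X (Sum.inr k)
  let ZX : ι → (MvPolynomial (ι ⊕ Fin n) ℂ) := fun β => MvPolynomial.X (Sum.inl β)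
  let bR : Matrix (Fin N) (Fin N) (MvPolynomial (ι ⊕ Fin n) ℂ) := b.map (Algebra.ofId ℂ (MvPolynomial (ι ⊕ Fin n) ℂ))
  have hbR : D.IsG bR := hb.map (Algebra.ofId ℂ (MvPolynomial (ι ⊕ Fin n) ℂ))
  have hbRu : ∀ i j, j < i → bR i j = 0 := by
    intro i j hij
    show Algebra.ofId ℂ (MvPolynomial (ι ⊕ Fin n) ℂ) (b i j) = 0
    rw [hbu i j hij, map_zero]
  obtain ⟨ZR, hZR⟩ := A.conj bR xX ZX hbR hbRu
  -- evaluation
  have hev : ∀ (x : Fin n → ℂ) (Z : ι → ℂ), b * (D.Dx x + D.Y Z) =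
      (D.Dx x + D.Y (fun β => MvPolynomial.eval (Sum.elim Z x) (ZR β))) * b := by
    intro x Z
    let φ : (MvPolynomial (ι ⊕ Fin n) ℂ) →ₐ[ℂ] ℂ := MvPolynomial.aeval (Sum.elim Z x)
    have h1 := congrArg (fun M => M.map φ.toRingHom) hZR
    simp only [Matrix.map_mul, Matrix.map_add _ (map_add φ.toRingHom), D.Dx_map] at h1
    have h2 : ∀ W : ι → (MvPolynomial (ι ⊕ Fin n) ℂ), (D.Y W).map φ.toRingHom = D.Y fun β => φ (W β) := fun W => D.Y_map φ W
    have h3 : bR.map φ.toRingHom = b := by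
      ext i j
      show φ (Algebra.ofId ℂ (MvPolynomial (ι ⊕ Fin n) ℂ) (b i j)) = b i j
      rw [Algebra.ofId_apply, AlgHom.commutes]
      rfl
    rw [h2, h2, h3] at h1
    have h4 : (fun k => φ.toRingHom (xX k)) = x := by
      funext k
      show φ (MvPolynomial.X (Sum.inr k)) = x k
      simp [φ]
    have h5 : (fun β => φ (ZX β)) = Z := by
      funext β
      show φ (MvPolynomial.X (Sum.inl β)) = Z β
      simp [φ]
    rw [h4, h5] at h1
    exact h1
  have huniq : ∀ (x : Fin n → ℂ) (Z Z' : ι → ℂ), b * (D.Dx x + D.Y Z) = (D.Dx x + D.Y Z') * b →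
      Z' = fun β => MvPolynomial.eval (Sum.elim Z x) (ZR β) := by
    intro x Z Z' h
    rw [hev x Z] at h
    have h1 := congrArg (fun M => M * b⁻¹) h
    simp only [Matrix.mul_assoc, A.mul_inv hb, Matrix.mul_one] at h1
    exact (A.Y_inj (add_left_cancel h1)).symm
  -- the polynomials
  let pa : κ → (MvPolynomial (ι ⊕ Fin n) ℂ) := fun a => MvPolynomial.aeval (Sum.elim ZR xX) (Q a) -
    ∑ c, MvPolynomial.C (rM ρ b a c) * Q c
  have hpe : ∀ a (x : Fin n → ℂ) (Z : ι → ℂ), MvPolynomial.eval (Sum.elim Z x) (pa a) =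
      Qv Q x (fun β => MvPolynomial.eval (Sum.elim Z x) (ZR β)) a -
        (rM ρ b).mulVec (Qv Q x Z) a := by
    intro a x Z
    have h1 : MvPolynomial.eval (Sum.elim Z x) (MvPolynomial.aeval (Sum.elim ZR xX) (Q a)) =
        MvPolynomial.eval (Sum.elim (fun β => MvPolynomial.eval (Sum.elim Z x) (ZR β)) x) (Q a) := by
      rw [← MvPolynomial.coe_aeval_eq_eval (Sum.elim Z x), ← MvPolynomial.coe_aeval_eq_eval]
      show (MvPolynomial.aeval (Sum.elim Z x)) ((MvPolynomial.aeval (Sum.elim ZR xX)) (Q a)) = _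
      rw [← AlgHom.comp_apply, MvPolynomial.comp_aeval]
      have e5 : (fun i => (MvPolynomial.aeval (Sum.elim Z x) : MvPolynomial (ι ⊕ Fin n) ℂ →ₐ[ℂ] ℂ)
          (Sum.elim ZR xX i)) = Sum.elim (fun β => MvPolynomial.eval (Sum.elim Z x) (ZR β)) x := by
        funext i
        rcases i with β | k
        · simp [MvPolynomial.coe_aeval_eq_eval]
        · simp [xX]
      rw [e5]
      rfl
    show MvPolynomial.eval (Sum.elim Z x) (MvPolynomial.aeval (Sum.elim ZR xX) (Q a) -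
      ∑ c, MvPolynomial.C (rM ρ b a c) * Q c) = _
    rw [map_sub, h1, map_sum]
    simp only [map_mul, MvPolynomial.eval_C]
    rfl
  have hpa : ∀ a, pa a = 0 := by
    intro a
    have h0 : pa a * (MvPolynomial.rename Sum.inr f0 *
        ∏ β, MvPolynomial.rename Sum.inr (ell D β)) = 0 := by
      apply MvPolynomial.funext
      intro y
      rw [map_zero, map_mul, map_mul, map_prod]
      have hy : y = Sum.elim (y ∘ Sum.inl) (y ∘ Sum.inr) := by
        funext i; rcases i with i | i <;> rfl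
      set x1 : Fin n → ℂ := y ∘ Sum.inr with hx1
      set Z1 : ι → ℂ := y ∘ Sum.inl with hZ1
      have e1 : MvPolynomial.eval y (MvPolynomial.rename Sum.inr f0) = MvPolynomial.eval x1 f0 :=
        MvPolynomial.eval_rename _ _ _
      have e2 : ∀ β, MvPolynomial.eval y (MvPolynomial.rename Sum.inr (ell D β)) =
          ev (D.rt β) x1 := by
        intro β
        rw [MvPolynomial.eval_rename, eval_ell]
      rw [e1]
      simp only [e2]
      by_cases hf : MvPolynomial.eval x1 f0 = 0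
      · rw [hf]; ring
      by_cases hreg : D.Reg x1
      · have : MvPolynomial.eval y (pa a) = 0 := by
          rw [hy, hpe]
          obtain ⟨g, hgG, hg⟩ := exists_g A hreg Z1
          have q1 := hQ x1 Z1 hreg hf g hgG hg
          have q2 := hQ x1 (fun β => MvPolynomial.eval (Sum.elim Z1 x1) (ZR β)) hreg hf (b * g)
            (A.mul _ _ hb hgG) (by
              rw [Matrix.mul_assoc, hg, ← Matrix.mul_assoc, hev, Matrix.mul_assoc])
          rw [← q2 a, hρ.mul b g hb hgG, ← Matrix.mulVec_mulVec]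
          have q3 : Qv Q x1 Z1 = (l.map fun β => ev (D.rt β) x1).prod • (rM ρ g).mulVec (Pv P x1) := by
            funext c
            rw [← q1 c]
            rfl
          rw [q3, Matrix.mulVec_smul, Pi.smul_apply, smul_eq_mul, sub_self]
        rw [this, zero_mul]
      · unfold Dat.Reg at hreg
        push Not at hreg
        obtain ⟨β, hβ⟩ := hreg
        rw [Finset.prod_eq_zero (Finset.mem_univ β) hβ]
        ring
    rcases mul_eq_zero.1 h0 with h | h
    · exact h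
    · exfalso
      rcases mul_eq_zero.1 h with h | h
      · exact hP.ne (MvPolynomial.rename_injective _ Sum.inr_injective (by rw [h, map_zero]))
      · rw [Finset.prod_eq_zero_iff] at h
        obtain ⟨β, -, hβ⟩ := h
        exact ell_ne A β (MvPolynomial.rename_injective _ Sum.inr_injective (by rw [hβ, map_zero]))
  funext a
  have h1 := hpe a x Z
  rw [hpa, map_zero, ← huniq x Z Z' h] at h1
  exact (sub_eq_zero.1 h1.symm)

end Pool.Agent.MTF.KD
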