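import Pool.Agent.MTF.K0

namespace Pool.Agent.MTF.KD

open Matrix
open Pool.Agent.MTD Pool.Agent
open Pool.Agent.MP_c45d35_ag (chi UpUni LowUni transfer)
open Pool.Agent.MTF.D1 (Pts Van)

variable {n N : ℕ} {ι : Type} [Fintype ι] {D : Dat n N ι} {κ : Type} [Fintype κ] [DecidableEq κ]

private theorem mv_map {R S : Type*} [CommRing R] [Algebra ℂ R] [CommRing S] [Algebra ℂ S]
    (φ : R →ₐ[ℂ] S) (p : MvPolynomial (Fin N × Fin N) ℂ) (g : Matrix (Fin N) (Fin N) R) :
    φ (mv p g) = mv p (g.map φ) := by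
  unfold mv
  rw [← AlgHom.comp_apply, MvPolynomial.comp_aeval]
  rfl

/-- the product of the roots is not zero -/
private theorem ell_ne (A : MTXD.Ax D) (β : ι) : ell D β ≠ 0 := by
  intro h
  obtain ⟨x, hx⟩ := MTXD.exists_reg A
  have h1 := eval_ell (D := D) β x
  rw [h, map_zero] at h1
  exact hx β h1.symm

/-- (row K1d) The value at `e + x`: `Q(x, ze) = (∏ β x) ρ(pC x)⁻¹ P(x)` for all `x`.
Proof.  For `x` regular, `f0 x ≠ 0`: `hQ` for `Z = D.ze`, `g = (pC x)⁻¹` (`A.pC_conj`: `(pC x)⁻¹ sC x = (Dx x + e) (pC x)⁻¹`).  Both sides polynomial in `x` (the entries of `pC x` are polynomials in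
`x`, those of the inverse too: adjugate, `det = 1`), so for all `x`.  Consequence: if `β ∈ l` and `ev (rt β) x0 = 0` then
`Qv Q x0 D.ze = 0`. -/
theorem Q_at_e (A : MTXD.Ax D) {ρ : Matrix κ κ (MvPolynomial (Fin N × Fin N) ℂ)} (hρ : PRep D ρ)
    {P : κ → MvPolynomial (Fin n) ℂ} {f0 : MvPolynomial (Fin n) ℂ} (hP : PInp D ρ P f0)
    (l : List ι) (Q : κ → MvPolynomial (ι ⊕ Fin n) ℂ)
    (hQ : ∀ (x : Fin n → ℂ) (Z : ι → ℂ), D.Reg x → MvPolynomial.eval x f0 ≠ 0 → ∀ g, D.IsG g →
      g * D.sC x = (D.Dx x + D.Y Z) * g →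
      ∀ a, (l.map fun β => ev (D.rt β) x).prod * (rM ρ g).mulVec (Pv P x) a = Qv Q x Z a)
    (x : Fin n → ℂ) :
    Qv Q x D.ze = (l.map fun β => ev (D.rt β) x).prod • (rM ρ (D.pC x)⁻¹).mulVec (Pv P x) := by
  classical
  let pa : κ → MvPolynomial (Fin n) ℂ := fun a =>
    MvPolynomial.aeval (Sum.elim (fun β => MvPolynomial.C (D.ze β)) MvPolynomial.X) (Q a) -
    (l.map fun β => ell D β).prod * ∑ c, mv (ρ a c) D.px.adjugate * P c
  have hprod : ∀ x : Fin n → ℂ, MvPolynomial.eval x (l.map fun β => ell D β).prod =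
      (l.map fun β => ev (D.rt β) x).prod := by
    intro x
    rw [map_list_prod, List.map_map]
    congr 1
    apply List.map_congr_left
    intro β _
    exact eval_ell β x
  have hadj : ∀ x : Fin n → ℂ, (D.px.adjugate).map (MvPolynomial.eval x) = (D.pC x)⁻¹ := by
    intro x
    rw [A.inv_eq (A.pC_isG x)]
    exact RingHom.map_adjugate (MvPolynomial.eval x) D.px
  have hmv : ∀ (x : Fin n → ℂ) a c, MvPolynomial.eval x (mv (ρ a c) D.px.adjugate) =
      rM ρ (D.pC x)⁻¹ a c := by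
    intro x a c
    have h1 := mv_map (MvPolynomial.aeval x : MvPolynomial (Fin n) ℂ →ₐ[ℂ] ℂ) (ρ a c)
      D.px.adjugate
    have h2 : (D.px.adjugate).map (MvPolynomial.aeval x : MvPolynomial (Fin n) ℂ →ₐ[ℂ] ℂ) =
        (D.pC x)⁻¹ := by
      rw [← hadj x]
      rfl
    rw [h2] at h1
    exact h1
  have hpe : ∀ a (x : Fin n → ℂ), MvPolynomial.eval x (pa a) = Qv Q x D.ze a -
      (l.map fun β => ev (D.rt β) x).prod * (rM ρ (D.pC x)⁻¹).mulVec (Pv P x) a := by
    intro a x
    have h1 : MvPolynomial.eval x (MvPolynomial.aeval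
        (Sum.elim (fun β => MvPolynomial.C (D.ze β)) MvPolynomial.X) (Q a)) =
        MvPolynomial.eval (Sum.elim D.ze x) (Q a) := by
      rw [← MvPolynomial.coe_aeval_eq_eval x]
      show (MvPolynomial.aeval x) ((MvPolynomial.aeval
        (Sum.elim (fun β => MvPolynomial.C (D.ze β)) MvPolynomial.X)) (Q a)) = _
      rw [← AlgHom.comp_apply, MvPolynomial.comp_aeval]
      have e5 : (fun i => (MvPolynomial.aeval x : MvPolynomial (Fin n) ℂ →ₐ[ℂ] ℂ)
          (Sum.elim (fun β => MvPolynomial.C (D.ze β)) MvPolynomial.X i)) = Sum.elim D.ze x := by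
        funext i
        rcases i with β | k
        · simp
        · simp
      rw [e5]
      rfl
    show MvPolynomial.eval x (_ - _) = _
    rw [map_sub, h1, map_mul, hprod, map_sum]
    simp only [map_mul, hmv]
    rfl
  have hpa : ∀ a, pa a = 0 := by
    intro a
    have h0 : pa a * (f0 * ∏ β, ell D β) = 0 := by
      apply MvPolynomial.funext
      intro x1
      rw [map_zero, map_mul, map_mul, map_prod]
      simp only [eval_ell]
      by_cases hf : MvPolynomial.eval x1 f0 = 0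
      · rw [hf]; ring
      by_cases hreg : D.Reg x1
      · have : MvPolynomial.eval x1 (pa a) = 0 := by
          rw [hpe]
          have hpG := A.pC_isG x1
          have hc : (D.pC x1)⁻¹ * D.sC x1 = (D.Dx x1 + D.Y D.ze) * (D.pC x1)⁻¹ := by
            have hq : D.pC x1 * (D.Dx x1 + D.Y D.ze) = D.sC x1 * D.pC x1 := A.pC_conj x1
            calc (D.pC x1)⁻¹ * D.sC x1 = (D.pC x1)⁻¹ * (D.sC x1 * D.pC x1) * (D.pC x1)⁻¹ := by
                  rw [Matrix.mul_assoc, Matrix.mul_assoc, A.mul_inv hpG, Matrix.mul_one]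
              _ = (D.pC x1)⁻¹ * (D.pC x1 * (D.Dx x1 + D.Y D.ze)) * (D.pC x1)⁻¹ := by rw [hq]
              _ = _ := by rw [← Matrix.mul_assoc (D.pC x1)⁻¹, A.inv_mul hpG, Matrix.one_mul]
          rw [← hQ x1 D.ze hreg hf _ (A.inv _ hpG) hc a, sub_self]
        rw [this, zero_mul]
      · unfold Dat.Reg at hreg
        push Not at hreg
        obtain ⟨β, hβ⟩ := hreg
        rw [Finset.prod_eq_zero (Finset.mem_univ β) hβ]
        ring
    rcases mul_eq_zero.1 h0 with h | h
    · exact h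
    · exfalso
      rcases mul_eq_zero.1 h with h | h
      · exact hP.ne h
      · rw [Finset.prod_eq_zero_iff] at h
        obtain ⟨β, -, hβ⟩ := h
        exact ell_ne A β hβ
  funext a
  have h1 := hpe a x
  rw [hpa, map_zero] at h1
  exact sub_eq_zero.1 h1.symm

end Pool.Agent.MTF.KD
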