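import Pool.Agent.MTF.K0

namespace Pool.Agent.MTF.KD

open Matrix
open Pool.Agent.MTD Pool.Agent
open Pool.Agent.MP_c45d35_ag (chi UpUni LowUni transfer)
open Pool.Agent.MTF.D1 (Pts Van)

variable {n N : ℕ} {ι : Type} [Fintype ι] {D : Dat n N ι} {κ : Type} [Fintype κ] [DecidableEq κ]

/-- (row K2a) values at a point, over any field: `aeval (pt g Z x)` of `fX` is `ρ(g) Q(x,Z)`, of `mX` is `g (Dx x + Y Z) g⁻¹`
(`g⁻¹ = adj g` because `det g = 1`), of `zX j` the `cs j` of it.  Proof: `map_sum`, `aeval_rename`, `AlgHom.map_adjugate`, `D.Dx_map`, `D.Y_map`,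
`Matrix.inv_def`. -/
theorem eval_fX {R : Type*} [CommRing R] [Algebra ℂ R] (ρ : Matrix κ κ (MvPolynomial (Fin N × Fin N) ℂ))
    (Q : κ → MvPolynomial (ι ⊕ Fin n) ℂ) (g : Matrix (Fin N) (Fin N) R) (Z : ι → R) (x : Fin n → R)
    (a : κ) : MvPolynomial.aeval (pt g Z x) (fX ρ Q a) =
      (rM ρ g).mulVec (fun b => MvPolynomial.aeval (Sum.elim Z x) (Q b)) a := by
  unfold fX
  rw [map_sum]
  show _ = ∑ b, rM ρ g a b * MvPolynomial.aeval (Sum.elim Z x) (Q b)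
  refine Finset.sum_congr rfl fun b _ => ?_
  rw [map_mul, MvPolynomial.aeval_rename, MvPolynomial.aeval_rename]
  rfl

theorem eval_mX {R : Type} [CommRing R] [Algebra ℂ R] (g : Matrix (Fin N) (Fin N) R)
    (hg : g.det = 1) (Z : ι → R) (x : Fin n → R) (i j : Fin N) :
    MvPolynomial.aeval (pt g Z x) (mX D i j) = (g * (D.Dx x + D.Y Z) * g⁻¹) i j := by
  have h1 : (gX : Matrix (Fin N) (Fin N) (MvPolynomial (Sg n N ι) ℂ)).map
      (MvPolynomial.aeval (pt g Z x)) = g := by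
    ext a b
    simp [gX, pt]
  have h2 : ((gX : Matrix (Fin N) (Fin N) (MvPolynomial (Sg n N ι) ℂ)).adjugate).map
      (MvPolynomial.aeval (pt g Z x)) = g⁻¹ := by
    have h3 := AlgHom.map_adjugate (MvPolynomial.aeval (pt g Z x))
      (gX : Matrix (Fin N) (Fin N) (MvPolynomial (Sg n N ι) ℂ))
    have h4 : (MvPolynomial.aeval (pt g Z x)).mapMatrix
        (gX : Matrix (Fin N) (Fin N) (MvPolynomial (Sg n N ι) ℂ)) = g := h1
    rw [h4] at h3
    rw [Matrix.inv_def, hg, Ring.inverse_one, one_smul]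
    exact h3
  have h5 : (D.Dx (fun k => (MvPolynomial.X (Sum.inr (Sum.inr k)) :
      MvPolynomial (Sg n N ι) ℂ))).map (MvPolynomial.aeval (pt g Z x)) = D.Dx x := by
    have h6 := D.Dx_map (MvPolynomial.aeval (pt g Z x) : MvPolynomial (Sg n N ι) ℂ →ₐ[ℂ] R).toRingHom
      (fun k => (MvPolynomial.X (Sum.inr (Sum.inr k)) : MvPolynomial (Sg n N ι) ℂ))
    refine h6.trans ?_
    congr 1
    funext k
    exact MvPolynomial.aeval_X _ _
  have h7 : (D.Y (fun β => (MvPolynomial.X (Sum.inr (Sum.inl β)) :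
      MvPolynomial (Sg n N ι) ℂ))).map (MvPolynomial.aeval (pt g Z x)) = D.Y Z := by
    rw [D.Y_map]
    congr 1
    funext k
    exact MvPolynomial.aeval_X _ _
  have h8 : (mX D).map (MvPolynomial.aeval (pt g Z x)) = g * (D.Dx x + D.Y Z) * g⁻¹ := by
    unfold mX
    rw [Matrix.map_mul, Matrix.map_mul, Matrix.map_add _ (map_add _), h1, h2, h5, h7]
  exact congrFun (congrFun h8 i) j

theorem eval_zX (A : MTXD.Ax D) {τ : Type} (cs : τ → Matrix (Fin N) (Fin N) ℂ →ₗ[ℂ] ℂ)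
    (g : Matrix (Fin N) (Fin N) ℂ) (hg : D.IsG g) (Z : ι → ℂ) (x : Fin n → ℂ) (j : τ) :
    MvPolynomial.eval (pt g Z x) (zX D cs j) = cs j (g * (D.Dx x + D.Y Z) * g⁻¹) := by
  have h1 : ∀ k l, MvPolynomial.eval (pt g Z x) (mX D k l) = (g * (D.Dx x + D.Y Z) * g⁻¹) k l := by
    intro k l
    have h2 := eval_mX (D := D) g (A.det g hg) Z x k l
    rw [MvPolynomial.aeval_eq_eval] at h2
    exact h2
  unfold zX
  rw [map_sum]
  conv_rhs => rw [Matrix.matrix_eq_sum_single (g * (D.Dx x + D.Y Z) * g⁻¹), map_sum]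
  refine Finset.sum_congr rfl fun k _ => ?_
  rw [map_sum, map_sum]
  refine Finset.sum_congr rfl fun l _ => ?_
  rw [map_mul, MvPolynomial.eval_C, h1]
  have h3 : Matrix.single k l ((g * (D.Dx x + D.Y Z) * g⁻¹) k l) =
      (g * (D.Dx x + D.Y Z) * g⁻¹) k l • Matrix.single k l (1 : ℂ) := by
    rw [Matrix.smul_single, smul_eq_mul, mul_one]
  rw [h3, map_smul, smul_eq_mul, mul_comm]

/-- every `x + Y Z` with regular `x` is conjugate to the slice point.  Proof: `A.exists_u x _ Z`, `A.ueC_conj`, `A.pC_conj`,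
`g := u * (D.ueC x)⁻¹ * (D.pC x)⁻¹`. -/
theorem exists_gb (A : MTXD.Ax D) {x : Fin n → ℂ} (hx : D.Reg x) (Z : ι → ℂ) :
    ∃ g : Matrix (Fin N) (Fin N) ℂ, D.IsG g ∧ g * D.sC x = (D.Dx x + D.Y Z) * g := by
  obtain ⟨u, _, h2, h3⟩ := A.exists_u x (A.isUnit_reg hx) Z
  have hq := A.qC_isG x
  have hc := A.qC_conj hx
  have h4 : (D.qC x)⁻¹ * D.sC x = D.Dx x * (D.qC x)⁻¹ := by
    calc (D.qC x)⁻¹ * D.sC x = (D.qC x)⁻¹ * (D.sC x * D.qC x) * (D.qC x)⁻¹ := by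
          rw [Matrix.mul_assoc, Matrix.mul_assoc, A.mul_inv hq, Matrix.mul_one]
      _ = D.Dx x * (D.qC x)⁻¹ := by
          rw [← hc, ← Matrix.mul_assoc, A.inv_mul hq, Matrix.one_mul]
  refine ⟨u * (D.qC x)⁻¹, A.mul _ _ h2 (A.inv _ hq), ?_⟩
  rw [Matrix.mul_assoc, h4, ← Matrix.mul_assoc, h3, Matrix.mul_assoc]

end Pool.Agent.MTF.KD
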