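import Pool.Agent.MTF.K0

namespace Pool.Agent.MTF.KD

open Matrix
open Pool.Agent.MTD Pool.Agent
open Pool.Agent.MP_c45d35_ag (chi UpUni LowUni transfer)
open Pool.Agent.MTF.D1 (Pts Van)

variable {n N : ℕ} {ι : Type} [Fintype ι] {D : Dat n N ι} {κ : Type} [Fintype κ] [DecidableEq κ]

/-- the variables -/
abbrev K2bV (n N : ℕ) (ι : Type) := (Fin N × Fin N) ⊕ ((Fin N × Fin N) ⊕ (ι ⊕ (ι ⊕ Fin n)))

/-- a point -/
def k2b_pt {R : Type*} (k b : Matrix (Fin N) (Fin N) R) (Z Z' : ι → R) (x : Fin n → R) :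
    K2bV n N ι → R :=
  Sum.elim (fun ij => k ij.1 ij.2) (Sum.elim (fun ij => b ij.1 ij.2) (Sum.elim Z (Sum.elim Z' x)))

noncomputable def k2b_k (n N : ℕ) (ι : Type) :
    Matrix (Fin N) (Fin N) (MvPolynomial (K2bV n N ι) ℂ) :=
  Matrix.of fun i j => MvPolynomial.X (Sum.inl (i, j))

noncomputable def k2b_b (n N : ℕ) (ι : Type) :
    Matrix (Fin N) (Fin N) (MvPolynomial (K2bV n N ι) ℂ) :=
  Matrix.of fun i j => MvPolynomial.X (Sum.inr (Sum.inl (i, j)))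

noncomputable def k2b_Z (n N : ℕ) (ι : Type) : ι → MvPolynomial (K2bV n N ι) ℂ :=
  fun β => MvPolynomial.X (Sum.inr (Sum.inr (Sum.inl β)))

noncomputable def k2b_Z' (n N : ℕ) (ι : Type) : ι → MvPolynomial (K2bV n N ι) ℂ :=
  fun β => MvPolynomial.X (Sum.inr (Sum.inr (Sum.inr (Sum.inl β))))

noncomputable def k2b_x (n N : ℕ) (ι : Type) : Fin n → MvPolynomial (K2bV n N ι) ℂ :=
  fun j => MvPolynomial.X (Sum.inr (Sum.inr (Sum.inr (Sum.inr j))))

noncomputable def k2b_M (D : Dat n N ι) : Matrix (Fin N) (Fin N) (MvPolynomial (K2bV n N ι) ℂ) :=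
  k2b_b n N ι * (D.Dx (k2b_x n N ι) + D.Y (k2b_Z n N ι)) -
    (D.Dx (k2b_x n N ι) + D.Y (k2b_Z' n N ι)) * k2b_b n N ι

noncomputable def k2b_p (ρ : Matrix κ κ (MvPolynomial (Fin N × Fin N) ℂ))
    (Q : κ → MvPolynomial (ι ⊕ Fin n) ℂ) (a : κ) : MvPolynomial (K2bV n N ι) ℂ :=
  (rM ρ (k2b_k n N ι * k2b_b n N ι)).mulVec
      (fun c => MvPolynomial.aeval (Sum.elim (k2b_Z n N ι) (k2b_x n N ι)) (Q c)) a -
    (rM ρ (k2b_k n N ι)).mulVec
      (fun c => MvPolynomial.aeval (Sum.elim (k2b_Z' n N ι) (k2b_x n N ι)) (Q c)) a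

def k2b_E (D : Dat n N ι) : Set (MvPolynomial (K2bV n N ι) ℂ) :=
  {e | (∃ p ∈ D.eqs, e = MvPolynomial.rename Sum.inl p) ∨
    (∃ p ∈ D.eqs, e = MvPolynomial.rename (fun ij => Sum.inr (Sum.inl ij)) p) ∨
    (∃ i j : Fin N, j < i ∧ e = MvPolynomial.X (Sum.inr (Sum.inl (i, j)))) ∨
    ∃ i j : Fin N, e = k2b_M D i j}

theorem k2b_rM_map {R S : Type*} [CommRing R] [CommRing S] [Algebra ℂ R] [Algebra ℂ S]
    (φ : R →ₐ[ℂ] S) (ρ : Matrix κ κ (MvPolynomial (Fin N × Fin N) ℂ))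
    (g : Matrix (Fin N) (Fin N) R) : (rM ρ g).map φ = rM ρ (g.map φ) := by
  ext i j
  exact MvPolynomial.comp_aeval_apply (fun ij : Fin N × Fin N => g ij.1 ij.2) φ (ρ i j)

section

variable {R : Type*} [CommRing R] [Algebra ℂ R] (k b : Matrix (Fin N) (Fin N) R) (Z Z' : ι → R)
  (x : Fin n → R)

theorem k2b_k_map : (k2b_k n N ι).map (MvPolynomial.aeval (R := ℂ) (k2b_pt k b Z Z' x)) = k := by
  ext i j
  exact MvPolynomial.aeval_X _ _

theorem k2b_b_map : (k2b_b n N ι).map (MvPolynomial.aeval (R := ℂ) (k2b_pt k b Z Z' x)) = b := by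
  ext i j
  exact MvPolynomial.aeval_X _ _

theorem k2b_Z_map :
    (fun β => MvPolynomial.aeval (R := ℂ) (k2b_pt k b Z Z' x) (k2b_Z n N ι β)) = Z := by
  funext β
  exact MvPolynomial.aeval_X _ _

theorem k2b_Z'_map :
    (fun β => MvPolynomial.aeval (R := ℂ) (k2b_pt k b Z Z' x) (k2b_Z' n N ι β)) = Z' := by
  funext β
  exact MvPolynomial.aeval_X _ _

theorem k2b_x_map :
    (fun j => MvPolynomial.aeval (R := ℂ) (k2b_pt k b Z Z' x) (k2b_x n N ι j)) = x := by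
  funext β
  exact MvPolynomial.aeval_X _ _

theorem k2b_M_map (D : Dat n N ι) :
    (k2b_M D).map (MvPolynomial.aeval (R := ℂ) (k2b_pt k b Z Z' x)) =
      b * (D.Dx x + D.Y Z) - (D.Dx x + D.Y Z') * b := by
  set φ := MvPolynomial.aeval (R := ℂ) (k2b_pt k b Z Z' x) with hφ
  have hD : (D.Dx (k2b_x n N ι)).map φ = D.Dx x := by
    have h := D.Dx_map φ.toRingHom (k2b_x n N ι)
    have h2 := k2b_x_map k b Z Z' x
    refine h.trans ?_
    exact congrArg D.Dx h2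
  have hZ : (D.Y (k2b_Z n N ι)).map φ = D.Y Z := by
    rw [D.Y_map φ]
    exact congrArg D.Y (k2b_Z_map k b Z Z' x)
  have hZ' : (D.Y (k2b_Z' n N ι)).map φ = D.Y Z' := by
    rw [D.Y_map φ]
    exact congrArg D.Y (k2b_Z'_map k b Z Z' x)
  have hb : (k2b_b n N ι).map φ = b := k2b_b_map k b Z Z' x
  unfold k2b_M
  rw [Matrix.map_sub φ (map_sub φ), Matrix.map_mul, Matrix.map_mul, Matrix.map_add φ (map_add φ),
    Matrix.map_add φ (map_add φ), hD, hZ, hZ', hb]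

theorem k2b_mulVec (ρ : Matrix κ κ (MvPolynomial (Fin N × Fin N) ℂ))
    (Q : κ → MvPolynomial (ι ⊕ Fin n) ℂ) {S : Type*} [CommRing S] [Algebra ℂ S] (φ : S →ₐ[ℂ] R)
    (g : Matrix (Fin N) (Fin N) S) (y : ι → S) (z : Fin n → S) (a : κ) :
    φ ((rM ρ g).mulVec (fun c => MvPolynomial.aeval (Sum.elim y z) (Q c)) a) =
      (rM ρ (g.map φ)).mulVec
        (fun c => MvPolynomial.aeval (Sum.elim (fun β => φ (y β)) (fun j => φ (z j))) (Q c)) a := by
  have h1 := RingHom.map_mulVec φ.toRingHom (rM ρ g)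
    (fun c => MvPolynomial.aeval (Sum.elim y z) (Q c)) a
  have h2 : (rM ρ g).map φ.toRingHom = rM ρ (g.map φ) := k2b_rM_map φ ρ g
  have h3 : (φ.toRingHom ∘ fun c => MvPolynomial.aeval (Sum.elim y z) (Q c)) =
      fun c => MvPolynomial.aeval (Sum.elim (fun β => φ (y β)) (fun j => φ (z j))) (Q c) := by
    funext c
    have h4 := MvPolynomial.comp_aeval_apply (Sum.elim y z) φ (Q c)
    refine h4.trans ?_
    congr 2
    funext s
    cases s with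
    | inl s => rfl
    | inr s => rfl
  rw [h2, h3] at h1
  exact h1

theorem k2b_p_map (ρ : Matrix κ κ (MvPolynomial (Fin N × Fin N) ℂ))
    (Q : κ → MvPolynomial (ι ⊕ Fin n) ℂ) (a : κ) :
    MvPolynomial.aeval (R := ℂ) (k2b_pt k b Z Z' x) (k2b_p ρ Q a) =
      (rM ρ (k * b)).mulVec (fun c => MvPolynomial.aeval (Sum.elim Z x) (Q c)) a -
      (rM ρ k).mulVec (fun c => MvPolynomial.aeval (Sum.elim Z' x) (Q c)) a := by
  unfold k2b_p
  rw [map_sub, k2b_mulVec, k2b_mulVec, k2b_Z_map, k2b_Z'_map, k2b_x_map, Matrix.map_mul,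
    k2b_k_map, k2b_b_map]

theorem k2b_E_iff (D : Dat n N ι) :
    (∀ e ∈ k2b_E D, MvPolynomial.aeval (R := ℂ) (k2b_pt k b Z Z' x) e = 0) ↔
      D.IsG k ∧ D.IsG b ∧ (∀ i j, j < i → b i j = 0) ∧
        b * (D.Dx x + D.Y Z) = (D.Dx x + D.Y Z') * b := by
  constructor
  · intro h
    refine ⟨fun p hp => ?_, fun p hp => ?_, fun i j hij => ?_, ?_⟩
    · have h1 := h _ (Or.inl ⟨p, hp, rfl⟩)
      rw [MvPolynomial.aeval_rename] at h1
      exact h1
    · have h1 := h _ (Or.inr (Or.inl ⟨p, hp, rfl⟩))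
      rw [MvPolynomial.aeval_rename] at h1
      exact h1
    · have h1 := h _ (Or.inr (Or.inr (Or.inl ⟨i, j, hij, rfl⟩)))
      rw [MvPolynomial.aeval_X] at h1
      exact h1
    · rw [← sub_eq_zero, ← k2b_M_map]
      ext i j
      exact h _ (Or.inr (Or.inr (Or.inr ⟨i, j, rfl⟩)))
  · rintro ⟨hk, hb, hbu, hc⟩ e (⟨p, hp, rfl⟩ | ⟨p, hp, rfl⟩ | ⟨i, j, hij, rfl⟩ | ⟨i, j, rfl⟩)
    · rw [MvPolynomial.aeval_rename]
      exact hk p hp
    · rw [MvPolynomial.aeval_rename]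
      exact hb p hp
    · rw [MvPolynomial.aeval_X]
      exact hbu i j hij
    · rw [← sub_eq_zero, ← k2b_M_map] at hc
      exact congrFun (congrFun hc i) j

end

/-- (row K2b) The transferred equivariance over an extension field: `ρ(k b) Q(x, Z) = ρ(k) Q(x, Z')` for `b (x + Y Z) = (x + Y Z') b`,
`b` upper triangular.  Proof.  `hE` says it for complex points.  `transfer` in the variables
`(Fin N × Fin N) ⊕ (Fin N × Fin N) ⊕ ι ⊕ ι ⊕ Fin n` (entries of `k`, `b`, `Z`, `Z'`, `x`), equations: `D.eqs` for `k`, `D.eqs` for `b`, the entries of `b` below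
the diagonal, the entries of `b (x + Y Z) - (x + Y Z') b`; polynomial: the `a`-th coordinate of the difference. -/
theorem transQ {ρ : Matrix κ κ (MvPolynomial (Fin N × Fin N) ℂ)} (Q : κ → MvPolynomial (ι ⊕ Fin n) ℂ)
    (hE : ∀ (k b : Matrix (Fin N) (Fin N) ℂ), D.IsG k → D.IsG b → (∀ i j, j < i → b i j = 0) →
      ∀ (x : Fin n → ℂ) (Z Z' : ι → ℂ), b * (D.Dx x + D.Y Z) = (D.Dx x + D.Y Z') * b →
      (rM ρ (k * b)).mulVec (Qv Q x Z) = (rM ρ k).mulVec (Qv Q x Z'))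
    {K : Type} [Field K] [Algebra ℂ K] (k b : Matrix (Fin N) (Fin N) K) (hk : D.IsG k)
    (hb : D.IsG b) (hbu : ∀ i j, j < i → b i j = 0) (x : Fin n → K) (Z Z' : ι → K)
    (h : b * (D.Dx x + D.Y Z) = (D.Dx x + D.Y Z') * b) :
    (rM ρ (k * b)).mulVec (fun c => MvPolynomial.aeval (Sum.elim Z x) (Q c)) =
      (rM ρ k).mulVec (fun c => MvPolynomial.aeval (Sum.elim Z' x) (Q c)) := by
  funext a
  rw [← sub_eq_zero, ← k2b_p_map]
  refine transfer (k2b_E D) (k2b_p ρ Q a) ?_ (k2b_pt k b Z Z' x)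
    ((k2b_E_iff k b Z Z' x D).2 ⟨hk, hb, hbu, h⟩)
  intro v hv
  have hpt : v = k2b_pt (Matrix.of fun i j => v (Sum.inl (i, j)))
      (Matrix.of fun i j => v (Sum.inr (Sum.inl (i, j))))
      (fun β => v (Sum.inr (Sum.inr (Sum.inl β))))
      (fun β => v (Sum.inr (Sum.inr (Sum.inr (Sum.inl β)))))
      (fun j => v (Sum.inr (Sum.inr (Sum.inr (Sum.inr j))))) := by
    funext s
    rcases s with s | s | s | s | s <;> rfl
  rw [hpt] at hv ⊢
  have hv' := (k2b_E_iff _ _ _ _ _ D).1 hv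
  have h1 := hE _ _ hv'.1 hv'.2.1 hv'.2.2.1 _ _ _ hv'.2.2.2
  have h2 := k2b_p_map (R := ℂ) (Matrix.of fun i j => v (Sum.inl (i, j)))
      (Matrix.of fun i j => v (Sum.inr (Sum.inl (i, j))))
      (fun β => v (Sum.inr (Sum.inr (Sum.inl β))))
      (fun β => v (Sum.inr (Sum.inr (Sum.inr (Sum.inl β)))))
      (fun j => v (Sum.inr (Sum.inr (Sum.inr (Sum.inr j))))) ρ Q a
  refine Eq.trans ?_ (h2.trans (sub_eq_zero.2 (congrFun h1 a)))
  rfl

end Pool.Agent.MTF.KD
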