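import Pool.Agent.MTF.K2a
import Pool.Agent.MTF.K2b
import Pool.Agent.MTF.D1c

namespace Pool.Agent.MTF.KD

open Matrix
open Pool.Agent.MTD Pool.Agent
open Pool.Agent.MP_c45d35_ag (chi UpUni LowUni transfer)
open Pool.Agent.MTF.D1 (Pts Van)

variable {n N : ℕ} {ι : Type} [Fintype ι] {D : Dat n N ι} {κ : Type} [Fintype κ] [DecidableEq κ]

theorem k2c_aeval_mem {σ : Type} {K : Type} [Field K] [Algebra ℂ K] (V : ValuationSubring K)
    (hV : ∀ c : ℂ, algebraMap ℂ K c ∈ V) (y : σ → K) (hy : ∀ i, y i ∈ V)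
    (p : MvPolynomial σ ℂ) : MvPolynomial.aeval y p ∈ V := by
  induction p using MvPolynomial.induction_on with
  | C c => rw [MvPolynomial.aeval_C]; exact hV c
  | add p q hp hq => rw [map_add]; exact add_mem hp hq
  | mul_X p i hp => rw [map_mul, MvPolynomial.aeval_X]; exact mul_mem hp (hy i)

theorem k2c_pt {R : Type*} (y : Sg n N ι → R) :
    y = pt (Matrix.of fun i j => y (Sum.inl (i, j))) (fun β => y (Sum.inr (Sum.inl β)))
      (fun k => y (Sum.inr (Sum.inr k))) := by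
  funext s
  rcases s with ⟨i, j⟩ | β | k <;> rfl

theorem k2c_isG {K : Type} [Field K] [Algebra ℂ K] (y : Sg n N ι → K)
    (hy : ∀ e ∈ Van (Eq2 D), MvPolynomial.aeval y e = 0) :
    D.IsG (Matrix.of fun i j => y (Sum.inl (i, j)) : Matrix (Fin N) (Fin N) K) := by
  intro p hp
  have h1 : MvPolynomial.rename Sum.inl p ∈ Van (Eq2 D) := by
    intro y' hy'
    exact hy' _ ⟨p, hp, rfl⟩
  have h2 := hy _ h1
  rw [MvPolynomial.aeval_rename] at h2
  exact h2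

theorem k2c_isG' (y : Sg n N ι → ℂ) (hy : y ∈ Pts (Eq2 D)) :
    D.IsG (Matrix.of fun i j => y (Sum.inl (i, j)) : Matrix (Fin N) (Fin N) ℂ) := by
  intro p hp
  have h2 := hy _ ⟨p, hp, rfl⟩
  rw [MvPolynomial.eval_rename] at h2
  exact h2

theorem k2c_rel (A : MTXD.Ax D) {τ : Type} [Fintype τ] {bs : τ → Matrix (Fin N) (Fin N) ℂ}
    {cs : τ → Matrix (Fin N) (Fin N) ℂ →ₗ[ℂ] ℂ} (hL : LieC D bs cs) (i j : Fin N) :
    mX D i j - ∑ l, zX D cs l * MvPolynomial.C (bs l i j) ∈ Van (Eq2 D) := by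
  intro y hy
  have hg := k2c_isG' y hy
  obtain ⟨g, hgd⟩ : ∃ g : Matrix (Fin N) (Fin N) ℂ, g = Matrix.of fun i j => y (Sum.inl (i, j)) :=
    ⟨_, rfl⟩
  obtain ⟨Z, hZ⟩ : ∃ Z : ι → ℂ, Z = fun β => y (Sum.inr (Sum.inl β)) := ⟨_, rfl⟩
  obtain ⟨x, hx⟩ : ∃ x : Fin n → ℂ, x = fun k => y (Sum.inr (Sum.inr k)) := ⟨_, rfl⟩
  have hpt : y = pt g Z x := by rw [hgd, hZ, hx]; exact k2c_pt y
  rw [← hgd] at hg
  rw [hpt, map_sub, map_sum]
  have e1 : MvPolynomial.eval (pt g Z x) (mX D i j) = (g * (D.Dx x + D.Y Z) * g⁻¹) i j := by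
    rw [← eval_mX g (A.det g hg) Z x i j]
    rfl
  have e2 : ∀ l, MvPolynomial.eval (pt g Z x) (zX D cs l * MvPolynomial.C (bs l i j)) =
      cs l (g * (D.Dx x + D.Y Z) * g⁻¹) * bs l i j := by
    intro l
    rw [map_mul, MvPolynomial.eval_C, eval_zX A cs g hg Z x l]
  rw [e1, Finset.sum_congr rfl fun l _ => e2 l]
  have h1 := hL.ad g hg (fun j => cs j (D.Dx x + D.Y Z))
  rw [← hL.borel x Z] at h1
  have h2 := congrFun (congrFun h1 i) j
  rw [Matrix.sum_apply] at h2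
  rw [sub_eq_zero]
  conv_lhs => rw [h2]
  exact Finset.sum_congr rfl fun l _ => rfl

/-- (row K2c) Integrality. -/
theorem int_fX (A : MTXD.Ax D) {τ : Type} [Fintype τ] {bs : τ → Matrix (Fin N) (Fin N) ℂ}
    {cs : τ → Matrix (Fin N) (Fin N) ℂ →ₗ[ℂ] ℂ} (hL : LieC D bs cs)
    {ρ : Matrix κ κ (MvPolynomial (Fin N × Fin N) ℂ)} (Q : κ → MvPolynomial (ι ⊕ Fin n) ℂ)
    (hE : ∀ (k b : Matrix (Fin N) (Fin N) ℂ), D.IsG k → D.IsG b → (∀ i j, j < i → b i j = 0) →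
      ∀ (x : Fin n → ℂ) (Z Z' : ι → ℂ), b * (D.Dx x + D.Y Z) = (D.Dx x + D.Y Z') * b →
      (rM ρ (k * b)).mulVec (Qv Q x Z) = (rM ρ k).mulVec (Qv Q x Z')) (a : κ) :
    ∃ q : Polynomial (MvPolynomial τ ℂ), q.Monic ∧
      Polynomial.eval₂ (MvPolynomial.aeval (zX D cs) : MvPolynomial τ ℂ →ₐ[ℂ]
        MvPolynomial (Sg n N ι) ℂ).toRingHom (fX ρ Q a) q ∈ Van (Eq2 D) := by
  refine D1.int_of_val (Eq2 D) (zX D cs) (fX ρ Q a) ?_
  intro K _ _ V hV y hy hz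
  have hg := k2c_isG y hy
  obtain ⟨g, hgd⟩ : ∃ g : Matrix (Fin N) (Fin N) K, g = Matrix.of fun i j => y (Sum.inl (i, j)) :=
    ⟨_, rfl⟩
  obtain ⟨Z, hZ⟩ : ∃ Z : ι → K, Z = fun β => y (Sum.inr (Sum.inl β)) := ⟨_, rfl⟩
  obtain ⟨x, hx⟩ : ∃ x : Fin n → K, x = fun k => y (Sum.inr (Sum.inr k)) := ⟨_, rfl⟩
  have hpt : y = pt g Z x := by rw [hgd, hZ, hx]; exact k2c_pt y
  rw [← hgd] at hg
  -- the matrix `M`
  have hM : ∀ i j, (g * (D.Dx x + D.Y Z) * g⁻¹) i j ∈ V := by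
    intro i j
    rw [← eval_mX g (A.det g hg) Z x i j, ← hpt]
    have h1 := hy _ (k2c_rel A hL i j)
    rw [map_sub, sub_eq_zero] at h1
    rw [h1, map_sum]
    refine sum_mem fun l _ => ?_
    rw [map_mul, MvPolynomial.aeval_C]
    exact mul_mem (hz l) (hV _)
  obtain ⟨k, b, hk, hkV, hb, hbu, hgkb⟩ := A.iwa V hV g hg
  obtain ⟨Z', hZ'⟩ := A.conj b x Z hb hbu
  have hkinvV : ∀ i j, k⁻¹ i j ∈ V := by
    intro i j
    let kV : Matrix (Fin N) (Fin N) V := Matrix.of fun i j => ⟨k i j, hkV i j⟩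
    have h1 : kV.map (algebraMap V K) = k := by ext i j; rfl
    have h2 : k.adjugate i j = algebraMap V K (kV.adjugate i j) := by
      have h3 := RingHom.map_adjugate (algebraMap V K) kV
      rw [RingHom.mapMatrix_apply, RingHom.mapMatrix_apply, h1] at h3
      rw [← h3]
      rfl
    rw [A.inv_eq hk, h2]
    exact (kV.adjugate i j).2
  have mulV : ∀ A B : Matrix (Fin N) (Fin N) K, (∀ i j, A i j ∈ V) → (∀ i j, B i j ∈ V) →
      ∀ i j, (A * B) i j ∈ V := by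
    intro A B hA hB i j
    rw [Matrix.mul_apply]
    exact sum_mem fun l _ => mul_mem (hA i l) (hB l j)
  have hconj : k⁻¹ * (g * (D.Dx x + D.Y Z) * g⁻¹) * k = D.Dx x + D.Y Z' := by
    have h1 : g⁻¹ = b⁻¹ * k⁻¹ := by rw [hgkb, Matrix.mul_inv_rev]
    calc k⁻¹ * (g * (D.Dx x + D.Y Z) * g⁻¹) * k =
        (k⁻¹ * k) * ((b * (D.Dx x + D.Y Z)) * b⁻¹) * (k⁻¹ * k) := by
          rw [h1]
          conv_lhs => rw [hgkb]
          simp only [Matrix.mul_assoc]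
      _ = D.Dx x + D.Y Z' := by
          rw [A.inv_mul hk, Matrix.one_mul, Matrix.mul_one, hZ', Matrix.mul_assoc, A.mul_inv hb,
            Matrix.mul_one]
  have hMV : ∀ i j, (D.Dx x + D.Y Z') i j ∈ V := by
    rw [← hconj]
    exact mulV _ _ (mulV _ _ hkinvV hM) hkV
  have hZV : ∀ β, Z' β ∈ V := by
    intro β
    obtain ⟨i, j, hij⟩ := A.exists_entry β
    have hlt := A.E_supp_lt hij
    have h1 := hMV i j
    have h2 : (D.Dx x + D.Y Z') i j = Z' β * algebraMap ℂ K (D.E β i j) := by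
      rw [Matrix.add_apply, A.Y_entry Z' hij, Dat.Dx, Matrix.diagonal_apply_ne _ (ne_of_lt hlt),
        zero_add]
    rw [h2] at h1
    have h3 := mul_mem h1 (hV (D.E β i j)⁻¹)
    rw [mul_assoc, ← map_mul, mul_inv_cancel₀ hij, map_one, mul_one] at h3
    exact h3
  have hxV : ∀ i, x i ∈ V := by
    intro i
    obtain ⟨j, hj⟩ := A.wt_std i
    have h1 := hMV j j
    rw [A.DxY_diag, hj] at h1
    have h2 : ev (Pi.single i 1) x = x i := by
      unfold ev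
      rw [Finset.sum_eq_single i]
      · simp
      · intro l _ hl
        simp [hl]
      · simp
    rw [h2] at h1
    exact h1
  have htr := transQ Q hE k b hk hb hbu x Z Z' hZ'
  rw [hpt, eval_fX, hgkb, htr]
  refine sum_mem fun c _ => ?_
  refine mul_mem ?_ ?_
  · exact k2c_aeval_mem V hV (fun ij : Fin N × Fin N => (↑k : Matrix (Fin N) (Fin N) K) ij.1 ij.2)
      (fun ij => hkV ij.1 ij.2) _
  · refine k2c_aeval_mem V hV _ (fun s => ?_) _
    rcases s with β | l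
    · exact hZV β
    · exact hxV l

end Pool.Agent.MTF.KD
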