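import Pool.Agent.MTF.K1f
import Pool.Agent.MTF.K1c
import Pool.Agent.MTF.K1d
import Pool.Agent.MTF.K2a
import Pool.Agent.MTF.K2c
import Pool.Agent.MTF.D1b
import Pool.Agent.MTF.D1c

namespace Pool.Agent.MTF.KD

open Matrix
open Pool.Agent.MTD Pool.Agent
open Pool.Agent.MP_c45d35_ag (chi UpUni LowUni transfer)
open Pool.Agent.MTF.D1 (Pts Van)

variable {n N : ℕ} {ι : Type} [Fintype ι] {D : Dat n N ι} {κ : Type} [Fintype κ] [DecidableEq κ]

theorem k2d_eval_aeval {σ υ : Type} (f : σ → MvPolynomial υ ℂ) (u : υ → ℂ) (p : MvPolynomial σ ℂ) :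
    MvPolynomial.eval u (MvPolynomial.aeval f p) =
      MvPolynomial.eval (fun i => MvPolynomial.eval u (f i)) p := by
  induction p using MvPolynomial.induction_on with
  | C a =>
    rw [MvPolynomial.aeval_C, MvPolynomial.eval_C, MvPolynomial.algebraMap_eq, MvPolynomial.eval_C]
  | add p q hp hq => rw [map_add, map_add, map_add, hp, hq]
  | mul_X p i hp =>
    rw [map_mul, map_mul, map_mul, hp, MvPolynomial.aeval_X, MvPolynomial.eval_X]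

theorem k2d_left {σ υ : Type} (p : MvPolynomial (σ ⊕ υ) ℂ) (v : υ → ℂ) :
    ∃ p' : MvPolynomial σ ℂ, ∀ u, MvPolynomial.eval u p' = MvPolynomial.eval (Sum.elim u v) p := by
  refine ⟨MvPolynomial.aeval (Sum.elim MvPolynomial.X fun j => MvPolynomial.C (v j)) p, fun u => ?_⟩
  rw [k2d_eval_aeval]
  congr 2
  funext i
  rcases i with i | i
  · exact MvPolynomial.eval_X _
  · exact MvPolynomial.eval_C _

theorem k2d_right {σ υ : Type} (p : MvPolynomial (σ ⊕ υ) ℂ) (u : σ → ℂ) :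
    ∃ p' : MvPolynomial υ ℂ, ∀ v, MvPolynomial.eval v p' = MvPolynomial.eval (Sum.elim u v) p := by
  refine ⟨MvPolynomial.aeval (Sum.elim (fun j => MvPolynomial.C (u j)) MvPolynomial.X) p, fun v => ?_⟩
  rw [k2d_eval_aeval]
  congr 2
  funext i
  rcases i with i | i
  · exact MvPolynomial.eval_C _
  · exact MvPolynomial.eval_X _

theorem k2d_ne {σ : Type} {p : MvPolynomial σ ℂ} (hp : p ≠ 0) : ∃ x, MvPolynomial.eval x p ≠ 0 := by
  by_contra h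
  push Not at h
  exact hp (MvPolynomial.funext fun x => by rw [h x, map_zero])

omit [Fintype ι] in
/-- every point of `Pts (Eq2 D)` is `pt g Z x` with `g` in the group -/
theorem k2d_pts {y : Sg n N ι → ℂ} (hy : y ∈ Pts (Eq2 D)) :
    ∃ (g : Matrix (Fin N) (Fin N) ℂ) (Z : ι → ℂ) (x : Fin n → ℂ), D.IsG g ∧ y = pt g Z x := by
  refine ⟨Matrix.of fun i j => y (Sum.inl (i, j)), fun β => y (Sum.inr (Sum.inl β)),
    fun k => y (Sum.inr (Sum.inr k)), ?_, ?_⟩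
  · intro e he
    have h1 := hy _ (Set.mem_image_of_mem _ he)
    rw [MvPolynomial.eval_rename] at h1
    exact h1
  · funext i
    rcases i with ⟨i, j⟩ | (i | i) <;> rfl

omit [Fintype ι] in
theorem k2d_mem {g : Matrix (Fin N) (Fin N) ℂ} (hg : D.IsG g) (Z : ι → ℂ) (x : Fin n → ℂ) :
    pt g Z x ∈ Pts (Eq2 D) := by
  rintro _ ⟨e, he, rfl⟩
  rw [MvPolynomial.eval_rename]
  exact hg e he

omit [Fintype ι] in
theorem k2d_dom (hirr : ∀ p q : MvPolynomial (Fin N × Fin N) ℂ,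
      (∀ g : Matrix (Fin N) (Fin N) ℂ, D.IsG g → mv (p * q) g = 0) →
      (∀ g : Matrix (Fin N) (Fin N) ℂ, D.IsG g → mv p g = 0) ∨
        ∀ g : Matrix (Fin N) (Fin N) ℂ, D.IsG g → mv q g = 0)
    (p q : MvPolynomial (Sg n N ι) ℂ) (hpq : p * q ∈ Van (Eq2 D)) :
    p ∈ Van (Eq2 D) ∨ q ∈ Van (Eq2 D) := by
  by_contra hcon
  push Not at hcon
  obtain ⟨h1, h2⟩ := hcon
  have h1' : ∃ y ∈ Pts (Eq2 D), MvPolynomial.eval y p ≠ 0 := by
    by_contra h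
    push Not at h
    exact h1 h
  have h2' : ∃ y ∈ Pts (Eq2 D), MvPolynomial.eval y q ≠ 0 := by
    by_contra h
    push Not at h
    exact h2 h
  obtain ⟨y₁, hy₁, hp₁⟩ := h1'
  obtain ⟨y₂, hy₂, hq₂⟩ := h2'
  obtain ⟨g₁, Z₁, x₁, hg₁, rfl⟩ := k2d_pts hy₁
  obtain ⟨g₂, Z₂, x₂, hg₂, rfl⟩ := k2d_pts hy₂
  obtain ⟨p₁, hp₁'⟩ := k2d_left p (Sum.elim Z₁ x₁)
  obtain ⟨q₂, hq₂'⟩ := k2d_left q (Sum.elim Z₂ x₂)
  have hmv : ∀ (r : MvPolynomial (Fin N × Fin N) ℂ) (g : Matrix (Fin N) (Fin N) ℂ),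
      mv r g = MvPolynomial.eval (fun ij => g ij.1 ij.2) r := fun r g => rfl
  have hg : ∃ g : Matrix (Fin N) (Fin N) ℂ, D.IsG g ∧ mv (p₁ * q₂) g ≠ 0 := by
    by_contra h
    push Not at h
    rcases hirr p₁ q₂ h with h | h
    · apply hp₁
      have h3 := h g₁ hg₁
      rw [hmv, hp₁'] at h3
      exact h3
    · apply hq₂
      have h3 := h g₂ hg₂
      rw [hmv, hq₂'] at h3
      exact h3
  obtain ⟨g, hg, hne⟩ := hg
  rw [hmv, map_mul] at hne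
  obtain ⟨p', hp'⟩ := k2d_right p (fun ij : Fin N × Fin N => g ij.1 ij.2)
  obtain ⟨q', hq'⟩ := k2d_right q (fun ij : Fin N × Fin N => g ij.1 ij.2)
  have hp0 : p' ≠ 0 := by
    rintro rfl
    apply left_ne_zero_of_mul hne
    rw [hp₁', ← hp', map_zero]
  have hq0 : q' ≠ 0 := by
    rintro rfl
    apply right_ne_zero_of_mul hne
    rw [hq₂', ← hq', map_zero]
  obtain ⟨v, hv⟩ := k2d_ne (mul_ne_zero hp0 hq0)
  apply hv
  rw [map_mul, hp', hq', ← map_mul]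
  have h5 : (Sum.elim (fun ij : Fin N × Fin N => g ij.1 ij.2) v : Sg n N ι → ℂ) =
      pt g (fun β => v (Sum.inl β)) (fun k => v (Sum.inr k)) := by
    funext i
    rcases i with ⟨i, j⟩ | (i | i) <;> rfl
  rw [h5]
  exact hpq _ (k2d_mem hg _ _)

theorem k2d_span {τ : Type} [Fintype τ] {bs : τ → Matrix (Fin N) (Fin N) ℂ}
    {cs : τ → Matrix (Fin N) (Fin N) ℂ →ₗ[ℂ] ℂ} (hL : LieC D bs cs)
    {g : Matrix (Fin N) (Fin N) ℂ} (hg : D.IsG g) (x : Fin n → ℂ) (Z : ι → ℂ) :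
    ∑ j, cs j (g * (D.Dx x + D.Y Z) * g⁻¹) • bs j = g * (D.Dx x + D.Y Z) * g⁻¹ := by
  have h1 := hL.ad g hg (fun j => cs j (D.Dx x + D.Y Z))
  rw [← hL.borel x Z] at h1
  exact h1.symm

/-- value of `fX` at a complex point -/
theorem k2d_fX (ρ : Matrix κ κ (MvPolynomial (Fin N × Fin N) ℂ))
    (Q : κ → MvPolynomial (ι ⊕ Fin n) ℂ) (g : Matrix (Fin N) (Fin N) ℂ) (Z : ι → ℂ) (x : Fin n → ℂ)
    (a : κ) : MvPolynomial.eval (pt g Z x) (fX ρ Q a) = (rM ρ g).mulVec (Qv Q x Z) a :=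
  eval_fX ρ Q g Z x a

theorem k2d_fib (A : MTXD.Ax D) (hU : Uni D)
    {τ : Type} [Fintype τ] {bs : τ → Matrix (Fin N) (Fin N) ℂ}
    {cs : τ → Matrix (Fin N) (Fin N) ℂ →ₗ[ℂ] ℂ} (hL : LieC D bs cs)
    {ρ : Matrix κ κ (MvPolynomial (Fin N × Fin N) ℂ)} (hρ : PRep D ρ)
    {P : κ → MvPolynomial (Fin n) ℂ} {f0 : MvPolynomial (Fin n) ℂ} (hP : PInp D ρ P f0)
    (Q : κ → MvPolynomial (ι ⊕ Fin n) ℂ)
    (hQ : ∀ (x : Fin n → ℂ) (Z : ι → ℂ), D.Reg x →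
      MvPolynomial.eval x f0 ≠ 0 → ∀ g, D.IsG g → g * D.sC x = (D.Dx x + D.Y Z) * g →
      (rM ρ g).mulVec (Pv P x) = Qv Q x Z)
    {g g' : Matrix (Fin N) (Fin N) ℂ} (hg : D.IsG g) (hg' : D.IsG g') (x x' : Fin n → ℂ)
    (Z Z' : ι → ℂ) (hx : D.Reg x) (hx' : D.Reg x') (hf : MvPolynomial.eval x f0 ≠ 0)
    (hf' : MvPolynomial.eval x' f0 ≠ 0)
    (h : ∀ j, cs j (g * (D.Dx x + D.Y Z) * g⁻¹) = cs j (g' * (D.Dx x' + D.Y Z') * g'⁻¹)) :
    (rM ρ g).mulVec (Qv Q x Z) = (rM ρ g').mulVec (Qv Q x' Z') := by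
  have hM : g * (D.Dx x + D.Y Z) * g⁻¹ = g' * (D.Dx x' + D.Y Z') * g'⁻¹ := by
    rw [← k2d_span hL hg x Z, ← k2d_span hL hg' x' Z']
    exact Finset.sum_congr rfl fun j _ => by rw [h j]
  obtain ⟨g₁, hg₁, hc₁⟩ := exists_gb A hx Z
  obtain ⟨g₂, hg₂, hc₂⟩ := exists_gb A hx' Z'
  obtain ⟨M, hMdef⟩ : ∃ M, M = g * (D.Dx x + D.Y Z) * g⁻¹ := ⟨_, rfl⟩
  have h1 : (g * g₁) * D.sC x = M * (g * g₁) := by
    rw [hMdef, Matrix.mul_assoc g g₁, hc₁]
    simp only [Matrix.mul_assoc]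
    rw [← Matrix.mul_assoc g⁻¹ g g₁, A.inv_mul hg, Matrix.one_mul]
  have h2 : (g' * g₂) * D.sC x' = M * (g' * g₂) := by
    rw [hMdef, hM, Matrix.mul_assoc g' g₂, hc₂]
    simp only [Matrix.mul_assoc]
    rw [← Matrix.mul_assoc g'⁻¹ g' g₂, A.inv_mul hg', Matrix.one_mul]
  have hG1 : D.IsG (g * g₁) := A.mul _ _ hg hg₁
  have hG2 : D.IsG (g' * g₂) := A.mul _ _ hg' hg₂
  set a₁ := g * g₁ with ha₁
  set a₂ := g' * g₂ with ha₂
  have hk : D.IsG (a₂⁻¹ * a₁) := A.mul _ _ (A.inv _ hG2) hG1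
  have h3 : (a₂⁻¹ * a₁) * D.sC x = D.sC x' * (a₂⁻¹ * a₁) := by
    have h4 : a₂⁻¹ * M = D.sC x' * a₂⁻¹ := by
      calc a₂⁻¹ * M = a₂⁻¹ * (M * a₂) * a₂⁻¹ := by
            rw [Matrix.mul_assoc, Matrix.mul_assoc M, A.mul_inv hG2, Matrix.mul_one]
        _ = a₂⁻¹ * (a₂ * D.sC x') * a₂⁻¹ := by rw [h2]
        _ = D.sC x' * a₂⁻¹ := by rw [← Matrix.mul_assoc a₂⁻¹ a₂, A.inv_mul hG2, Matrix.one_mul]
    rw [Matrix.mul_assoc, h1, ← Matrix.mul_assoc, h4, Matrix.mul_assoc]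
  have h5 : D.sC x = D.sC x' := hU x x' hx hx' _ hk h3
  have h6 : Pv P x = Pv P x' := hP.inv x x' h5
  rw [← h5] at h3
  have h7 := hP.cent x hx hf _ hk h3
  have h8 : a₁ = a₂ * (a₂⁻¹ * a₁) := by
    rw [← Matrix.mul_assoc, A.mul_inv hG2, Matrix.one_mul]
  have h9 : (rM ρ a₁).mulVec (Pv P x) = (rM ρ a₂).mulVec (Pv P x') := by
    rw [h8, hρ.mul _ _ hG2 hk, ← Matrix.mulVec_mulVec, h7, h6]
  rw [← hQ x Z hx hf g₁ hg₁ hc₁, ← hQ x' Z' hx' hf' g₂ hg₂ hc₂, Matrix.mulVec_mulVec,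
    Matrix.mulVec_mulVec, ← hρ.mul _ _ hg hg₁, ← hρ.mul _ _ hg' hg₂]
  exact h9

/-- (row K2d) KOSTANT EXTENSION.  `hirr`: the group is irreducible.
Proof.  `Q` from `exists_Pb`; `equivQ` and `Q_at_e` apply to it with `l = []`.  For every `a` apply `D1.desc` with `E := Eq2 D`, `z := zX D cs`,
`δ := rename (inr ∘ inr) (f0 * ∏ β, ell D β)`, `f := fX ρ Q a`, `q` from `int_fX` (its hypothesis `hE`: `equivQ` and `hρ.mul`).
`hdom`: from `hirr` (a polynomial on `G × ℂ^m`: if `p q = 0` on `G × ℂ^m`, `p, q ≠ 0`, choose points with `p(g₁,v₁) ≠ 0`, `q(g₂,v₂) ≠ 0`; `g ↦ p(g, v₁)`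
and `g ↦ q(g, v₂)` are not identically zero on `G`, so by `hirr` there is `g` with both nonzero; then `v ↦ p(g,v)`, `v ↦ q(g,v)` are nonzero polynomials on
`ℂ^m`, their product has a nonzero value: contradiction).  `hdense`: `hL.dom` (points `(g, Z, x)`, `eval_zX`).  `hδ`: `1 ∈ G`, a regular `x` with `f0 x ≠ 0`.
`hf`: let `(g,Z,x)`, `(g',Z',x')` be points with the same `z`: then `g (x+YZ) g⁻¹ = g' (x'+YZ') g'⁻¹` (`hL.borel`, `hL.ad`).  `exists_gb`: `g₁`, `g₁'`.  Value of `fX`: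
`ρ(g) Q(x,Z) = ρ(g) ρ(g₁) P(x) = ρ(g g₁) P(x)` (`exists_Pb`).  `(g g₁) sC x (g g₁)⁻¹ = (g' g₁') sC x' (g' g₁')⁻¹`; `hU` gives `sC x = sC x'`, so `P x = P x'` and
`h := (g' g₁')⁻¹ (g g₁)` commutes with `sC x`: `ρ(h) P(x) = P(x)`; so the values agree.
Result `p a` with `p a (z y) = fX a (y)`.  First claim: the point `(pC x, ze, x)`: `pC x (Dx x + e) (pC x)⁻¹ = sC x`, value `ρ(pC x) Q(x, ze) = P(x)` (`Q_at_e`).
Second claim: fix `g`, `a`.  Both sides are polynomials in `v` (the functional `cs j` is linear), so by `hL.dom` it is enough to treat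
`v j = cs j (g₀ (x + Y Z) g₀⁻¹)`; then `∑ v i • bs i = g₀ (x + Y Z) g₀⁻¹` (`hL.borel`, `hL.ad`); the points `(g₀, Z, x)` and `(g g₀, Z, x)`:
`p` has at them the values `ρ(g₀) Q(x, Z)` and `ρ(g g₀) Q(x, Z)`. -/
theorem kostant_ext (A : MTXD.Ax D) (hU : Uni D)
    (hirr : ∀ p q : MvPolynomial (Fin N × Fin N) ℂ,
      (∀ g : Matrix (Fin N) (Fin N) ℂ, D.IsG g → mv (p * q) g = 0) →
      (∀ g : Matrix (Fin N) (Fin N) ℂ, D.IsG g → mv p g = 0) ∨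
        ∀ g : Matrix (Fin N) (Fin N) ℂ, D.IsG g → mv q g = 0)
    {τ : Type} [Fintype τ] {bs : τ → Matrix (Fin N) (Fin N) ℂ}
    {cs : τ → Matrix (Fin N) (Fin N) ℂ →ₗ[ℂ] ℂ} (hL : LieC D bs cs)
    {ρ : Matrix κ κ (MvPolynomial (Fin N × Fin N) ℂ)} (hρ : PRep D ρ)
    {P : κ → MvPolynomial (Fin n) ℂ} {f0 : MvPolynomial (Fin n) ℂ} (hP : PInp D ρ P f0) :
    ∃ p : κ → MvPolynomial τ ℂ,
      (∀ (x : Fin n → ℂ) (a : κ), MvPolynomial.eval (fun j => cs j (D.sC x)) (p a) = Pv P x a) ∧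
      ∀ g : Matrix (Fin N) (Fin N) ℂ, D.IsG g → ∀ (v : τ → ℂ) (a : κ),
        MvPolynomial.eval (fun j => cs j (g * (∑ i, v i • bs i) * g⁻¹)) (p a) =
          ∑ b, rM ρ g a b * MvPolynomial.eval v (p b) := by
  obtain ⟨Q, hQ⟩ := exists_Pb A hρ hP
  have hQ' : ∀ (x : Fin n → ℂ) (Z : ι → ℂ), D.Reg x → MvPolynomial.eval x f0 ≠ 0 → ∀ g, D.IsG g →
      g * D.sC x = (D.Dx x + D.Y Z) * g →
      ∀ a, (([] : List ι).map fun β => ev (D.rt β) x).prod * (rM ρ g).mulVec (Pv P x) a =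
        Qv Q x Z a := by
    intro x Z hx hf g hg hc a
    rw [List.map_nil, List.prod_nil, one_mul, hQ x Z hx hf g hg hc]
  have hE : ∀ (k b : Matrix (Fin N) (Fin N) ℂ), D.IsG k → D.IsG b → (∀ i j, j < i → b i j = 0) →
      ∀ (x : Fin n → ℂ) (Z Z' : ι → ℂ), b * (D.Dx x + D.Y Z) = (D.Dx x + D.Y Z') * b →
      (rM ρ (k * b)).mulVec (Qv Q x Z) = (rM ρ k).mulVec (Qv Q x Z') := by
    intro k b hk hb hbu x Z Z' h
    rw [equivQ A hρ hP [] Q hQ' b hb hbu x Z Z' h, hρ.mul _ _ hk hb, Matrix.mulVec_mulVec]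
  have hdense : ∀ p : MvPolynomial τ ℂ, (∀ y ∈ Pts (Eq2 D),
      MvPolynomial.eval (fun j => MvPolynomial.eval y (zX D cs j)) p = 0) → p = 0 := by
    intro p hp
    apply hL.dom p
    intro g x Z hg
    have h1 := hp _ (k2d_mem hg Z x)
    have h2 : (fun j => MvPolynomial.eval (pt g Z x) (zX D cs j)) =
        fun j => cs j (g * (D.Dx x + D.Y Z) * g⁻¹) := by
      funext j
      exact eval_zX A cs g hg Z x j
    rw [h2] at h1
    exact h1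
  have hδ : MvPolynomial.rename (fun k => (Sum.inr (Sum.inr k) : Sg n N ι)) (f0 * ∏ β, ell D β) ∉
      Van (Eq2 D) := by
    intro hmem
    have hell : (∏ β, ell D β) ≠ 0 := by
      intro h0
      obtain ⟨x, hx⟩ := MTXD.exists_reg A
      have h1 := congrArg (MvPolynomial.eval x) h0
      rw [map_prod, map_zero] at h1
      obtain ⟨β, _, hβ⟩ := Finset.prod_eq_zero_iff.1 h1
      rw [eval_ell] at hβ
      exact hx β hβ
    obtain ⟨x, hx⟩ := k2d_ne (mul_ne_zero hP.ne hell)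
    have h1 := hmem _ (k2d_mem A.one 0 x)
    rw [MvPolynomial.eval_rename] at h1
    exact hx h1
  have hreg : ∀ (g : Matrix (Fin N) (Fin N) ℂ) (Z : ι → ℂ) (x : Fin n → ℂ),
      MvPolynomial.eval (pt g Z x) (MvPolynomial.rename
        (fun k => (Sum.inr (Sum.inr k) : Sg n N ι)) (f0 * ∏ β, ell D β)) ≠ 0 →
      D.Reg x ∧ MvPolynomial.eval x f0 ≠ 0 := by
    intro g Z x h
    rw [MvPolynomial.eval_rename] at h
    have h1 : MvPolynomial.eval x (f0 * ∏ β, ell D β) ≠ 0 := h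
    rw [map_mul, map_prod] at h1
    refine ⟨fun β => ?_, left_ne_zero_of_mul h1⟩
    have h2 := Finset.prod_ne_zero_iff.1 (right_ne_zero_of_mul h1) β (Finset.mem_univ β)
    rw [eval_ell] at h2
    exact h2
  have hpa : ∀ a : κ, ∃ p : MvPolynomial τ ℂ, ∀ y ∈ Pts (Eq2 D),
      MvPolynomial.eval (fun j => MvPolynomial.eval y (zX D cs j)) p =
        MvPolynomial.eval y (fX ρ Q a) := by
    intro a
    obtain ⟨q, hq, hqf⟩ := int_fX A hL Q hE a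
    refine D1.desc (Eq2 D) (k2d_dom hirr) (zX D cs) hdense _ (fX ρ Q a) hδ ?_ q hq hqf
    intro y hy y' hy' hz hd hd'
    obtain ⟨g, Z, x, hg, rfl⟩ := k2d_pts hy
    obtain ⟨g', Z', x', hg', rfl⟩ := k2d_pts hy'
    obtain ⟨hx, hf⟩ := hreg g Z x hd
    obtain ⟨hx', hf'⟩ := hreg g' Z' x' hd'
    rw [k2d_fX, k2d_fX]
    refine congrFun (k2d_fib A hU hL hρ hP Q hQ hg hg' x x' Z Z' hx hx' hf hf' fun j => ?_) a
    rw [← eval_zX A cs g hg Z x j, ← eval_zX A cs g' hg' Z' x' j]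
    exact hz j
  choose p hp using hpa
  have star : ∀ (g : Matrix (Fin N) (Fin N) ℂ), D.IsG g → ∀ (x : Fin n → ℂ) (Z : ι → ℂ) (a : κ),
      MvPolynomial.eval (fun j => cs j (g * (D.Dx x + D.Y Z) * g⁻¹)) (p a) =
        (rM ρ g).mulVec (Qv Q x Z) a := by
    intro g hg x Z a
    rw [← k2d_fX, ← hp a _ (k2d_mem hg Z x)]
    have h2 : (fun j => MvPolynomial.eval (pt g Z x) (zX D cs j)) =
        fun j => cs j (g * (D.Dx x + D.Y Z) * g⁻¹) := by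
      funext j
      exact eval_zX A cs g hg Z x j
    rw [h2]
  refine ⟨p, ?_, ?_⟩
  · intro x a
    have hG := A.pC_isG x
    have h1 := star (D.pC x) hG x D.ze a
    have h2 : D.pC x * (D.Dx x + D.Y D.ze) * (D.pC x)⁻¹ = D.sC x := by
      have h3 : D.pC x * (D.Dx x + D.Y D.ze) = D.sC x * D.pC x := A.pC_conj x
      rw [h3, Matrix.mul_assoc, A.mul_inv hG, Matrix.mul_one]
    rw [h2] at h1
    rw [h1, Q_at_e A hρ hP [] Q hQ' x, List.map_nil, List.prod_nil, one_smul, Matrix.mulVec_mulVec,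
      ← hρ.mul _ _ hG (A.inv _ hG), A.mul_inv hG, hρ.one, Matrix.one_mulVec]
  · intro g hg v a
    have hlin : ∀ (w : τ → ℂ) (j : τ), cs j (g * (∑ i, w i • bs i) * g⁻¹) =
        ∑ i, cs j (g * bs i * g⁻¹) * w i := by
      intro w j
      rw [Finset.mul_sum, Finset.sum_mul, map_sum]
      refine Finset.sum_congr rfl fun i _ => ?_
      rw [Matrix.mul_smul, Matrix.smul_mul, map_smul, smul_eq_mul, mul_comm]
    have key : MvPolynomial.aeval (fun j : τ => ∑ i, MvPolynomial.C (cs j (g * bs i * g⁻¹)) *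
        (MvPolynomial.X i : MvPolynomial τ ℂ)) (p a) - ∑ b, MvPolynomial.C (rM ρ g a b) * p b = 0 := by
      apply hL.dom
      intro g₀ x Z hg₀
      rw [map_sub, k2d_eval_aeval, map_sum]
      simp only [map_sum, map_mul, MvPolynomial.eval_C, MvPolynomial.eval_X]
      have h1 : (fun j => ∑ i, cs j (g * bs i * g⁻¹) * cs i (g₀ * (D.Dx x + D.Y Z) * g₀⁻¹)) =
          fun j => cs j ((g * g₀) * (D.Dx x + D.Y Z) * (g * g₀)⁻¹) := by
        funext j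
        rw [← hlin, k2d_span hL hg₀, Matrix.mul_inv_rev]
        simp only [Matrix.mul_assoc]
      rw [h1, star _ (A.mul _ _ hg hg₀)]
      simp only [star g₀ hg₀]
      rw [hρ.mul _ _ hg hg₀, ← Matrix.mulVec_mulVec, sub_eq_zero]
      rfl
    have h1 := congrArg (MvPolynomial.eval v) key
    rw [map_sub, k2d_eval_aeval, map_sum, map_zero, sub_eq_zero] at h1
    simp only [map_sum, map_mul, MvPolynomial.eval_C, MvPolynomial.eval_X] at h1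
    rw [← h1]
    congr 2
    funext j
    exact hlin v j

end Pool.Agent.MTF.KD
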