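import Pool.Agent.MTF.E3
import Pool.Agent.MTF.E5
import Pool.Agent.MTF.K2d

namespace Pool.Agent.MTF

open AffGrp Matrix
open Pool.Agent.MTD (Dat ev expN)
open Pool.Agent.MTF.KD (mv rM Uni LieC PRep PInp Pv kostant_ext)

variable {G : AffGrp} {K W X : Type} [Field K] [Algebra ℂ K] [Group W] [Fintype W]
  [MulSemiringAction W K] [SMulCommClass W ℂ K] [AddCommGroup X] [DistribMulAction W X]
variable {Q : TQD G K W X} {n N : ℕ} {ι : Type} [Fintype ι] {D : Dat n N ι}

namespace Model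

variable (m : Model Q D)

theorem e6_ev {r n : ℕ} (c0 : Fin r → MvPolynomial (Fin n) ℂ) (x : Fin n → ℂ)
    (q : MvPolynomial (Fin r) ℂ) : MvPolynomial.eval x (MvPolynomial.aeval c0 q) =
      MvPolynomial.eval (fun j => MvPolynomial.eval x (c0 j)) q := by
  induction q using MvPolynomial.induction_on with
  | C a =>
    rw [MvPolynomial.aeval_C, MvPolynomial.algebraMap_eq, MvPolynomial.eval_C,
      MvPolynomial.eval_C]
  | add p q hp hq => rw [map_add, map_add, map_add, hp, hq]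
  | mul_X p i hp =>
    rw [map_mul, map_mul, map_mul, hp, MvPolynomial.aeval_X, MvPolynomial.eval_X]

theorem e6_fr {r n : ℕ} {K : Type} [Field K] [Algebra ℂ K] (fr : MvPolynomial (Fin n) ℂ →ₐ[ℂ] K)
    (c0 : Fin r → MvPolynomial (Fin n) ℂ) (c : Fin r → K) (hc : ∀ j, c j = fr (c0 j))
    (q : MvPolynomial (Fin r) ℂ) : fr (MvPolynomial.aeval c0 q) = MvPolynomial.aeval c q := by
  induction q using MvPolynomial.induction_on with
  | C a => rw [MvPolynomial.aeval_C, MvPolynomial.aeval_C, AlgHom.commutes]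
  | add p q hp hq => rw [map_add, map_add, map_add, hp, hq]
  | mul_X p i hp =>
    rw [map_mul, map_mul, map_mul, hp, MvPolynomial.aeval_X, MvPolynomial.aeval_X, hc]

theorem e6_dm_sum (v : Fin Q.r → ℂ) : ∑ i, v i • m.bs i = m.dm (∑ i, v i • Q.D i) := by
  rw [map_sum]
  refine Finset.sum_congr rfl fun i _ => ?_
  rw [map_smul]
  rfl

theorem e6_exp {cs : Fin Q.r → Matrix (Fin N) (Fin N) ℂ →ₗ[ℂ] ℂ}
    (hcs : ∀ (M : G.Lie) j, cs j (m.dm M) = Q.D.repr M j) (M : G.Lie) :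
    m.dm M = ∑ j, cs j (m.dm M) • m.bs j := by
  rw [m.e6_dm_sum (fun j => cs j (m.dm M))]
  congr 1
  conv_lhs => rw [← Q.D.sum_repr M]
  refine Finset.sum_congr rfl fun j _ => ?_
  rw [hcs]

/-- (row E6) Proof.  `dual`: `∑ v i • bs i = m.dm (∑ v i • Q.D i)`, `hcs`.  `borel`: `m.borel x Z` gives `M`, `M = ∑ Q.D.repr M j • Q.D j` (`Module.Basis.sum_repr`).
`ad`: `g = π g'` (`surj`), `dm_Ad`, the same expansion.  `dom`: `m.dense hcs`. -/
theorem lieC {cs : Fin Q.r → Matrix (Fin N) (Fin N) ℂ →ₗ[ℂ] ℂ}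
    (hcs : ∀ (M : G.Lie) j, cs j (m.dm M) = Q.D.repr M j) : LieC D m.bs cs := by
  refine ⟨?_, ?_, ?_, ?_⟩
  · intro v j
    rw [m.e6_dm_sum, hcs, Module.Basis.repr_sum_self]
  · intro x Z
    obtain ⟨M, hM⟩ := m.borel x Z
    rw [← hM]
    exact m.e6_exp hcs M
  · intro g hg v
    obtain ⟨g', rfl⟩ := m.surj g hg
    rw [m.e6_dm_sum, ← m.dm_Ad]
    exact m.e6_exp hcs _
  · exact fun p hp => m.dense hcs p hp

include m in
/-- The field `ext` of `TQ`.
Proof.  `cs` from `exists_cs`.  `ρ` from `exists_rho`.  `P' a` with `fr (P' a) = P a` (`A_eq`).  `f0` from `J`.  `PInp D ρ P' f0`: `inv`: by `m.inv` (hypothesis `hw`)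
`P' a = aeval c0 (q a)`, so `Pv P' x a = eval (fun j => eval x (c0 j)) (q a)` and `eval x (c0 j) = cs j (D.sC x)` (`slice`, `hcs`).  `cent`: `hs` says
`∑ b, (∑ j, Q.c j * algebraMap ℂ K ((Q.D j).1 (E.co a b))) * P b = 0` in `K`; it is `fr` of
`∑ b, (∑ j, c0 j * C ((Q.D j).1 (E.co a b))) * P' b`, so this is `0` (`fr_inj`); evaluate at `x`: `(dE E (sL x)).mulVec (Pv P' x) = 0`; apply `J` (every `h` with `D.IsG h` is `π h'`).
`kostant_ext` (`hirr`: from `m.dom`, `mv_mem`, `surj`: the product of the functions `mv p ∘ π`, `mv q ∘ π` of `G.O` is `0`) with `m.lieC hcs` gives `p`.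
First claim: `eval x (aeval c0 (p a)) = eval (fun j => cs j (sC x)) (p a) = eval x (P' a)` for all `x`, so `aeval c0 (p a) = P' a` (`MvPolynomial.funext`), apply `fr`
(`c_eq`; `fr (aeval c0 p) = aeval (fr ∘ c0) p`).  Second claim: `Q.D.repr (Ad g (∑ y j • D j)) i = cs i (π g * (∑ y j • bs j) * (π g)⁻¹)` (`hcs`, `dm_Ad`) and `E.ρ g = rM ρ (π g)`. -/
theorem ext_field (E : Rep G) (P : E.ι → K) (hA : ∀ a, P a ∈ Q.A) (hw : ∀ (w : W) a, w • P a = P a)
    (hs : (Q.sE E).mulVec P = 0) : ∃ p : E.ι → MvPolynomial (Fin Q.r) ℂ,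
      (∀ a, MvPolynomial.aeval Q.c (p a) = P a) ∧
      ∀ (g : G.X) (y : Fin Q.r → ℂ) (a : E.ι),
        MvPolynomial.eval (fun i => Q.D.repr (G.Ad g (∑ j, y j • Q.D j)) i) (p a) =
          ∑ b, E.ρ g a b * MvPolynomial.eval y (p b) := by
  obtain ⟨cs, hcs⟩ := m.exists_cs
  obtain ⟨ρ, hρ, hρE⟩ := m.exists_rho E
  have hex : ∀ a, ∃ p, m.fr p = P a := fun a => (m.A_eq _).1 (hA a)
  choose P' hP' using hex
  obtain ⟨f0, hf0, hJ⟩ := m.J E
  have hslice : ∀ x, D.sC x = m.dm (m.sL x) := fun x => m.slice x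
  have hcsC : ∀ x j, cs j (D.sC x) = MvPolynomial.eval x (m.c0 j) := by
    intro x j
    rw [hslice, hcs]
    unfold sL
    rw [Module.Basis.repr_sum_self]
  have hq : ∀ a, ∃ q : MvPolynomial (Fin Q.r) ℂ, P' a = MvPolynomial.aeval m.c0 q := by
    intro a
    refine m.inv (P' a) fun w => ?_
    rw [hP', hw]
  choose q hq using hq
  have hPv : ∀ x a, Pv P' x a = MvPolynomial.eval (fun j => cs j (D.sC x)) (q a) := by
    intro x a
    unfold Pv
    rw [hq a, e6_ev]
    simp only [hcsC]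
  have hpoly : ∀ a, ∑ b, (∑ j, m.c0 j * MvPolynomial.C ((Q.D j).1 (E.co a b))) * P' b = 0 := by
    intro a
    apply m.fr_inj
    rw [map_zero, map_sum]
    have h1 := congrFun hs a
    rw [Pi.zero_apply] at h1
    rw [← h1]
    show _ = ∑ b, (Q.sE E) a b * P b
    refine Finset.sum_congr rfl fun b _ => ?_
    rw [map_mul, hP', map_sum]
    congr 1
    unfold TQD.sE
    refine Finset.sum_congr rfl fun j _ => ?_
    rw [map_mul, ← m.c_eq, ← MvPolynomial.algebraMap_eq, AlgHom.commutes]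
  have hInp : PInp D ρ P' f0 := by
    refine ⟨hf0, ?_, ?_⟩
    · intro x x' hxx
      funext a
      rw [hPv, hPv, hxx]
    · intro x hx hfx h hh hcomm
      obtain ⟨h', rfl⟩ := m.surj h hh
      rw [hρE]
      refine hJ x hx hfx _ ?_ h' hcomm
      funext a
      rw [Pi.zero_apply]
      have h1 := congrArg (MvPolynomial.eval x) (hpoly a)
      rw [map_zero, map_sum] at h1
      rw [← h1]
      show ∑ b, dE E (m.sL x) a b * Pv P' x b = _
      refine Finset.sum_congr rfl fun b _ => ?_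
      rw [map_mul, map_sum]
      show _ = _ * Pv P' x b
      congr 1
      unfold sL
      rw [map_sum, Matrix.sum_apply]
      refine Finset.sum_congr rfl fun j _ => ?_
      rw [map_smul, map_mul, MvPolynomial.eval_C, Matrix.smul_apply, smul_eq_mul]
      rfl
  have hirr : ∀ p q : MvPolynomial (Fin N × Fin N) ℂ,
      (∀ g : Matrix (Fin N) (Fin N) ℂ, D.IsG g → mv (p * q) g = 0) →
      (∀ g : Matrix (Fin N) (Fin N) ℂ, D.IsG g → mv p g = 0) ∨
        ∀ g : Matrix (Fin N) (Fin N) ℂ, D.IsG g → mv q g = 0 := by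
    intro p q hpq
    have := m.dom
    have h1 : (⟨_, m.mv_mem p⟩ : G.O) * ⟨_, m.mv_mem q⟩ = 0 := by
      apply Subtype.ext
      funext x
      show mv p (m.π x) * mv q (m.π x) = 0
      have h2 := hpq (m.π x) (m.mem x)
      unfold mv at h2 ⊢
      rw [map_mul] at h2
      exact h2
    rcases mul_eq_zero.1 h1 with h2 | h2
    · left
      intro g hg
      obtain ⟨x, rfl⟩ := m.surj g hg
      exact congrFun (congrArg Subtype.val h2) x
    · right
      intro g hg
      obtain ⟨x, rfl⟩ := m.surj g hg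
      exact congrFun (congrArg Subtype.val h2) x
  obtain ⟨p, hp1, hp2⟩ := kostant_ext m.ax m.uni hirr (m.lieC hcs) hρ hInp
  refine ⟨p, ?_, ?_⟩
  · intro a
    have h1 : MvPolynomial.aeval m.c0 (p a) = P' a := by
      apply MvPolynomial.funext
      intro x
      rw [e6_ev]
      have h2 := hp1 x a
      simp only [hcsC] at h2
      exact h2
    rw [← hP' a, ← h1]
    exact (e6_fr m.fr m.c0 Q.c m.c_eq (p a)).symm
  · intro g y a
    have h1 : ∀ i, Q.D.repr (G.Ad g (∑ j, y j • Q.D j)) i =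
        cs i (m.π g * (∑ j, y j • m.bs j) * (m.π g)⁻¹) := by
      intro i
      rw [m.e6_dm_sum, ← m.dm_Ad, hcs]
    simp only [h1]
    rw [hp2 (m.π g) (m.mem g) y a, hρE]

end Model

end Pool.Agent.MTF
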