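import Pool.Agent.MTF.F0a

/-!
# MTF, part F : definitions for the assembly

* `Ham.pull M u v` : the legs are restricted along `u : I' → I`, `v : J' → J`.
* `Ham.box M N` : the product with the diagonal actions; `Ham.triv`.
* `IsRed P Q` : `Q` is the Hamiltonian reduction of `P` by the diagonal `G^E`.
* `Cob.tr` : glueing of the incoming and the outgoing circles indexed by `E`.
-/

namespace Pool.Agent.MTF

open TensorProduct

/-- The derivative of a matrix coefficient expansion does not depend on the expansion. -/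
theorem der_expand {G : AffGrp} {A : Type} [AddCommGroup A] [Module ℂ A] (D : G.O →ₗ[ℂ] ℂ) {n n' : ℕ}
    (f : Fin n → G.O) (c : Fin n → A) (f' : Fin n' → G.O) (c' : Fin n' → A)
    (h : ∀ g, ∑ i, (f i).1 g • c i = ∑ i, (f' i).1 g • c' i) :
    ∑ i, D (f i) • c i = ∑ i, D (f' i) • c' i := by
  rw [← sub_eq_zero, ← Module.forall_dual_apply_eq_zero_iff ℂ]
  intro φ
  have h1 : ∑ i, φ (c i) • f i = ∑ i, φ (c' i) • f' i := by
    apply Subtype.ext
    funext g
    have h2 := congrArg φ (h g)
    simp only [map_sum, map_smul, smul_eq_mul] at h2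
    simp only [AddSubmonoidClass.coe_finsetSum, Finset.sum_apply]
    show ∑ i, φ (c i) * (f i).1 g = ∑ i, φ (c' i) * (f' i).1 g
    simpa only [mul_comm] using h2
  have h3 := congrArg D h1
  simp only [map_sum, map_smul, smul_eq_mul] at h3
  simp only [map_sub, map_sum, map_smul, smul_eq_mul]
  rw [sub_eq_zero]
  simpa only [mul_comm] using h3

namespace AffGrp
variable (G : AffGrp)

/-- `rb` as a homomorphism -/
def rbHom {I J : Type} [Finite I] [Finite J] (u : I → J) : (G.pow J).X →* (G.pow I).X where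
  toFun := G.rb u
  map_one' := rfl
  map_mul' _ _ := rfl

theorem lmap_Ad {I J : Type} [Finite I] [Finite J] (u : I → J) (g : (G.pow J).X)
    (D : (G.pow J).Lie) : G.lmap u ((G.pow J).Ad g D) = (G.pow I).Ad (G.rb u g) (G.lmap u D) := rfl

end AffGrp

variable {G H : AffGrp}

/-- The legs of `M` are restricted along `u` and `v`. -/
def Ham.pull {I' J' I J : Type} [Finite I'] [Finite J'] [Finite I] [Finite J]
    (M : Ham (G.pow I') (G.pow J')) (u : I' → I) (v : J' → J) : Ham (G.pow I) (G.pow J) where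
  toPAlg := M.toPAlg
  act := M.act.comp (MonoidHom.prodMap (G.rbHom u) (G.rbHom v))
  rat a := by
    obtain ⟨n, f, f', c, h⟩ := M.rat a
    exact ⟨n, fun i => G.pre u (f i), fun i => G.pre v (f' i), c, fun g k => h _ _⟩
  act_br k a b := M.act_br _ a b
  μ := M.μ ∘ₗ G.lmap u
  ν := M.ν ∘ₗ G.lmap v
  μ_eq g h D := M.μ_eq _ _ _
  ν_eq g h D := M.ν_eq _ _ _
  μ_gen D a n f c h := by
    obtain ⟨n', f1, f', c', h'⟩ := M.rat a
    show M.br (M.μ (G.lmap u D)) a = _
    have h1 : ∀ g : (G.pow I').X, M.act (g, 1) a = ∑ i, ((f' i).1 1 • f1 i : (G.pow I').O).1 g • c' i := by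
      intro g
      rw [h' g 1]
      refine Finset.sum_congr rfl fun i _ => ?_
      show _ = ((f' i).1 1 * (f1 i).1 g) • c' i
      rw [mul_comm]
    rw [M.μ_gen (G.lmap u D) a n' _ c' h1]
    exact der_expand D.1 (fun i => G.pre u ((f' i).1 1 • f1 i)) c' f c fun g => by
      rw [← h g]
      exact (h1 (G.rb u g)).symm
  ν_gen D a n f c h := by
    obtain ⟨n', f1, f', c', h'⟩ := M.rat a
    show M.br (M.ν (G.lmap v D)) a = _
    have h1 : ∀ g : (G.pow J').X, M.act (1, g) a = ∑ i, ((f1 i).1 1 • f' i : (G.pow J').O).1 g • c' i :=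
      fun g => h' 1 g
    rw [M.ν_gen (G.lmap v D) a n' _ c' h1]
    congr 1
    exact der_expand D.1 (fun i => G.pre v ((f1 i).1 1 • f' i)) c' f c fun g => by
      rw [← h g]
      exact (h1 (G.rb v g)).symm

/-- The point. -/
def Ham.triv (G H : AffGrp) : Ham G H where
  A := ℂ
  ft := inferInstance
  br := 0
  br_self _ := rfl
  jacobi _ _ _ := by simp
  leibniz _ _ _ := by simp
  act := 1
  rat a := ⟨1, fun _ => 1, fun _ => 1, fun _ => a, fun g h => by
    simp⟩
  act_br _ _ _ := rfl
  μ := 0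
  ν := 0
  μ_eq _ _ _ := rfl
  ν_eq _ _ _ := rfl
  μ_gen D a n f c h := by
    show (0 : ℂ) = _
    have h1 := der_expand D.1 f c (fun _ : Fin 1 => (1 : G.O)) (fun _ => a) fun g => by
      rw [← h g]
      simp
    rw [h1]
    have h2 : D.1 1 = 0 := by
      have h3 := D.2 1 1
      have h4 : (1 : G.O).1 1 = 1 := rfl
      rw [mul_one, h4, one_mul] at h3
      exact left_eq_add.mp h3
    simp [h2]
  ν_gen D a n f c h := by
    show (0 : ℂ) = _
    have h1 := der_expand D.1 f c (fun _ : Fin 1 => (1 : H.O)) (fun _ => a) fun g => by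
      rw [← h g]
      simp
    rw [h1]
    have h2 : D.1 1 = 0 := by
      have h3 := D.2 1 1
      have h4 : (1 : H.O).1 1 = 1 := rfl
      rw [mul_one, h4, one_mul] at h3
      exact left_eq_add.mp h3
    simp [h2]

end Pool.Agent.MTF
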