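import Pool.Agent.MTF.Stmt

/-! # MTF, part F : the product bracket -/

namespace Pool.Agent.MTF

open TensorProduct

theorem tbr_tmul (M N : PAlg) (a a' : M.A) (b b' : N.A) :
    tbr M N (a ⊗ₜ b) (a' ⊗ₜ b') = M.br a a' ⊗ₜ (b * b') + (a * a') ⊗ₜ N.br b b' := by
  simp [tbr]

theorem PAlg.br_skew (M : PAlg) (a b : M.A) : M.br a b = - M.br b a := by
  have h := M.br_self (a + b)
  simp only [map_add, LinearMap.add_apply, M.br_self, zero_add, add_zero] at h
  exact eq_neg_of_add_eq_zero_right h

theorem tbr_skew (M N : PAlg) (x y : M.A ⊗[ℂ] N.A) : tbr M N x y = - tbr M N y x := by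
  induction x using TensorProduct.induction_on with
  | zero => simp
  | add x x' hx hx' => rw [map_add, LinearMap.add_apply, hx, hx', map_add]; abel
  | tmul a b =>
    induction y using TensorProduct.induction_on with
    | zero => simp
    | add y y' hy hy' => rw [map_add, hy, hy', map_add, LinearMap.add_apply]; abel
    | tmul a' b' =>
      rw [tbr_tmul, tbr_tmul, M.br_skew a a', N.br_skew b b', mul_comm b b', mul_comm a a',
        TensorProduct.neg_tmul, TensorProduct.tmul_neg]
      abel

theorem tbr_self (M N : PAlg) (x : M.A ⊗[ℂ] N.A) : tbr M N x x = 0 := by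
  have h := tbr_skew M N x x
  have h2 : (2 : ℂ) • tbr M N x x = 0 := by
    rw [two_smul]
    nth_rewrite 1 [h]
    abel
  exact (smul_eq_zero.1 h2).resolve_left two_ne_zero

theorem tbr_leibniz (M N : PAlg) (x y z : M.A ⊗[ℂ] N.A) :
    tbr M N x (y * z) = y * tbr M N x z + z * tbr M N x y := by
  induction x using TensorProduct.induction_on with
  | zero => simp
  | add x x' hx hx' => simp only [map_add, LinearMap.add_apply, hx, hx']; ring
  | tmul a b =>
    induction y using TensorProduct.induction_on with
    | zero => simp
    | add y y' hy hy' => simp only [map_add, add_mul, mul_add, hy, hy']; ring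
    | tmul a' b' =>
      induction z using TensorProduct.induction_on with
      | zero => simp
      | add z z' hz hz' => simp only [map_add, add_mul, mul_add, hz, hz']; ring
      | tmul a'' b'' =>
        simp only [Algebra.TensorProduct.tmul_mul_tmul, tbr_tmul, M.leibniz, N.leibniz, mul_add,
          TensorProduct.add_tmul, TensorProduct.tmul_add]
        have e1 : b * (b' * b'') = b' * (b * b'') := by ring
        have e2 : b * (b' * b'') = b'' * (b * b') := by ring
        have e3 : a * (a' * a'') = a' * (a * a'') := by ring
        have e4 : a * (a' * a'') = a'' * (a * a') := by ring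
        nth_rewrite 1 [e1]
        rw [e2]
        nth_rewrite 1 [e3]
        rw [e4]
        abel

theorem PAlg.br_mul (M : PAlg) (a b c : M.A) : M.br (a * b) c = a * M.br b c + b * M.br a c := by
  rw [M.br_skew, M.leibniz, M.br_skew c b, M.br_skew c a]
  ring

theorem tbr_jacobi (M N : PAlg) (x y z : M.A ⊗[ℂ] N.A) :
    tbr M N x (tbr M N y z) = tbr M N (tbr M N x y) z + tbr M N y (tbr M N x z) := by
  induction x using TensorProduct.induction_on with
  | zero => simp
  | add x x' hx hx' => simp only [map_add, LinearMap.add_apply, hx, hx']; abel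
  | tmul a b =>
    induction y using TensorProduct.induction_on with
    | zero => simp
    | add y y' hy hy' => simp only [map_add, LinearMap.add_apply, hy, hy']; abel
    | tmul a' b' =>
      induction z using TensorProduct.induction_on with
      | zero => simp
      | add z z' hz hz' => simp only [map_add, hz, hz']; abel
      | tmul a'' b'' =>
        let L : M.A →ₐ[ℂ] M.A ⊗[ℂ] N.A := Algebra.TensorProduct.includeLeft
        let R : N.A →ₐ[ℂ] M.A ⊗[ℂ] N.A := Algebra.TensorProduct.includeRight
        have hT : ∀ (p : M.A) (q : N.A), p ⊗ₜ[ℂ] q = L p * R q := by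
          intro p q
          show p ⊗ₜ[ℂ] q = (p ⊗ₜ[ℂ] (1 : N.A)) * ((1 : M.A) ⊗ₜ[ℂ] q)
          rw [Algebra.TensorProduct.tmul_mul_tmul, mul_one, one_mul]
        have h1 := congrArg L (M.jacobi a a' a'')
        have h2 := congrArg R (N.jacobi b b' b'')
        rw [map_add] at h1 h2
        simp only [tbr_tmul, map_add, LinearMap.add_apply, M.leibniz, N.leibniz, M.br_mul,
          N.br_mul]
        simp only [hT, map_mul, map_add, h1, h2]
        rw [N.br_skew b' b, M.br_skew a' a, map_neg, map_neg]
        ring

end Pool.Agent.MTF
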