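import Pool.Agent.MTF.F0

/-! # MTF, part F : the product `Ham.box` with the diagonal action -/

namespace Pool.Agent.MTF

open TensorProduct

section
variable {G : AffGrp} {A B : Type} [CommRing A] [Algebra ℂ A] [CommRing B] [Algebra ℂ B]

/-- `x` is expandable with derivative `y`. -/
def Exp (G : AffGrp) {A : Type} [CommRing A] [Algebra ℂ A] (T : G.X → A) (D : G.Lie) (y : A) : Prop :=
  ∃ (n : ℕ) (f : Fin n → G.O) (c : Fin n → A), (∀ g, T g = ∑ i, (f i).1 g • c i) ∧
    y = ∑ i, D.1 (f i) • c i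

theorem Exp.unique {T : G.X → A} {D : G.Lie} {y : A} (h : Exp G T D y) {n : ℕ} {f : Fin n → G.O}
    {c : Fin n → A} (h' : ∀ g, T g = ∑ i, (f i).1 g • c i) : y = ∑ i, D.1 (f i) • c i := by
  obtain ⟨m, f1, c1, h1, rfl⟩ := h
  exact der_expand D.1 f1 c1 f c fun g => by rw [← h1, ← h']

theorem Exp.zero {D : G.Lie} : Exp G (fun _ => (0 : A)) D 0 :=
  ⟨0, fun _ => 0, fun _ => 0, fun g => by simp, by simp⟩

theorem Exp.add {T T' : G.X → A} {D : G.Lie} {y y' : A} (h : Exp G T D y) (h' : Exp G T' D y') :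
    Exp G (fun g => T g + T' g) D (y + y') := by
  obtain ⟨n, f, c, h1, rfl⟩ := h
  obtain ⟨n', f', c', h1', rfl⟩ := h'
  refine ⟨n + n', Fin.append f f', Fin.append c c', fun g => ?_, ?_⟩
  · rw [Fin.sum_univ_add]
    simp only [Fin.append_left, Fin.append_right]
    rw [h1, h1']
  · rw [Fin.sum_univ_add]
    simp only [Fin.append_left, Fin.append_right]

theorem Exp.tmul {T : G.X → A} {T' : G.X → B} {D : G.Lie} {y : A} {y' : B} (h : Exp G T D y)
    (h' : Exp G T' D y') : Exp G (fun g => T g ⊗ₜ[ℂ] T' g) D (y ⊗ₜ T' 1 + T 1 ⊗ₜ y') := by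
  obtain ⟨n, f, c, h1, rfl⟩ := h
  obtain ⟨n', f', c', h1', rfl⟩ := h'
  refine ⟨n * n', fun k => f (finProdFinEquiv.symm k).1 * f' (finProdFinEquiv.symm k).2,
        fun k => c (finProdFinEquiv.symm k).1 ⊗ₜ[ℂ] c' (finProdFinEquiv.symm k).2, fun g => ?_, ?_⟩
  · beta_reduce
    rw [h1, h1', ← Equiv.sum_comp finProdFinEquiv, Fintype.sum_prod_type]
    simp only [Equiv.symm_apply_apply]
    rw [TensorProduct.sum_tmul]
    refine Finset.sum_congr rfl fun i _ => ?_
    rw [TensorProduct.tmul_sum]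
    refine Finset.sum_congr rfl fun j _ => ?_
    rw [← TensorProduct.smul_tmul', TensorProduct.tmul_smul, smul_smul]
    rfl
  · rw [h1, h1', ← Equiv.sum_comp finProdFinEquiv, Fintype.sum_prod_type]
    simp only [Equiv.symm_apply_apply]
    rw [TensorProduct.sum_tmul, TensorProduct.sum_tmul, ← Finset.sum_add_distrib]
    refine Finset.sum_congr rfl fun i _ => ?_
    rw [TensorProduct.tmul_sum, TensorProduct.tmul_sum, ← Finset.sum_add_distrib]
    refine Finset.sum_congr rfl fun j _ => ?_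
    rw [D.2 (f i) (f' j), add_smul]
    simp only [← TensorProduct.smul_tmul', TensorProduct.tmul_smul, smul_smul]
    rw [add_comm, mul_comm (D.1 (f' j))]

/-- The rationality of an action. -/
def Rat (G H : AffGrp) {A : Type} [CommRing A] [Algebra ℂ A] (T : G.X → H.X → A) : Prop :=
  ∃ (n : ℕ) (f : Fin n → G.O) (f' : Fin n → H.O) (c : Fin n → A),
    ∀ (g : G.X) (h : H.X), T g h = ∑ i, ((f i).1 g * (f' i).1 h) • c i

variable {H : AffGrp}

theorem Rat.zero : Rat G H (fun _ _ => (0 : A)) :=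
  ⟨0, fun _ => 0, fun _ => 0, fun _ => 0, fun g h => by simp⟩

theorem Rat.add {T T' : G.X → H.X → A} (h : Rat G H T) (h' : Rat G H T') :
    Rat G H (fun g k => T g k + T' g k) := by
  obtain ⟨n, f, e, c, h1⟩ := h
  obtain ⟨n', f', e', c', h1'⟩ := h'
  refine ⟨n + n', Fin.append f f', Fin.append e e', Fin.append c c', fun g k => ?_⟩
  rw [Fin.sum_univ_add]
  simp only [Fin.append_left, Fin.append_right]
  rw [h1, h1']

theorem Rat.tmul {T : G.X → H.X → A} {T' : G.X → H.X → B} (h : Rat G H T) (h' : Rat G H T') :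
    Rat G H (fun g k => T g k ⊗ₜ[ℂ] T' g k) := by
  obtain ⟨n, f, e, c, h1⟩ := h
  obtain ⟨n', f', e', c', h1'⟩ := h'
  refine ⟨n * n', fun k => f (finProdFinEquiv.symm k).1 * f' (finProdFinEquiv.symm k).2,
    fun k => e (finProdFinEquiv.symm k).1 * e' (finProdFinEquiv.symm k).2,
    fun k => c (finProdFinEquiv.symm k).1 ⊗ₜ[ℂ] c' (finProdFinEquiv.symm k).2, fun g k => ?_⟩
  beta_reduce
  rw [h1, h1', ← Equiv.sum_comp finProdFinEquiv, Fintype.sum_prod_type]
  simp only [Equiv.symm_apply_apply]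
  rw [TensorProduct.sum_tmul]
  refine Finset.sum_congr rfl fun i _ => ?_
  rw [TensorProduct.tmul_sum]
  refine Finset.sum_congr rfl fun j _ => ?_
  rw [← TensorProduct.smul_tmul', TensorProduct.tmul_smul, smul_smul]
  congr 1
  show _ = ((f i).1 g * (f' j).1 g) * ((e i).1 k * (e' j).1 k)
  ring

end

variable {G H : AffGrp}

/-- `br (μ D) a` is the derivative of the action. -/
theorem Ham.exp_μ (M : Ham G H) (D : G.Lie) (a : M.A) :
    Exp G (fun g => M.act (g, 1) a) D (M.br (M.μ D) a) := by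
  obtain ⟨n, f, f', c, h⟩ := M.rat a
  refine ⟨n, fun i => (f' i).1 1 • f i, c, fun g => ?_, ?_⟩
  · beta_reduce
    rw [h g 1]
    refine Finset.sum_congr rfl fun i _ => ?_
    show _ = ((f' i).1 1 * (f i).1 g) • c i
    rw [mul_comm]
  · refine M.μ_gen D a n _ c fun g => ?_
    rw [h g 1]
    refine Finset.sum_congr rfl fun i _ => ?_
    show _ = ((f' i).1 1 * (f i).1 g) • c i
    rw [mul_comm]

theorem Ham.exp_ν (M : Ham G H) (D : H.Lie) (a : M.A) :
    Exp H (fun g => M.act (1, g) a) D (- M.br (M.ν D) a) := by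
  obtain ⟨n, f, f', c, h⟩ := M.rat a
  refine ⟨n, fun i => (f i).1 1 • f' i, c, fun g => ?_, ?_⟩
  · beta_reduce
    rw [h 1 g]
    refine Finset.sum_congr rfl fun i _ => ?_
    rfl
  · rw [M.ν_gen D a n (fun i => (f i).1 1 • f' i) c fun g => by rw [h 1 g]; rfl, neg_neg]

section box
variable (M N : Ham G H)

/-- the diagonal action -/
noncomputable def bact : G.X × H.X →* ((M.A ⊗[ℂ] N.A) ≃ₐ[ℂ] (M.A ⊗[ℂ] N.A)) where
  toFun := fun k => Algebra.TensorProduct.congr (M.act k) (N.act k)
  map_one' := by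
    apply AlgEquiv.ext
    intro x
    induction x using TensorProduct.induction_on with
    | zero => simp
    | add x y hx hy => rw [map_add, hx, hy, map_add]
    | tmul a b =>
      show M.act 1 a ⊗ₜ[ℂ] N.act 1 b = a ⊗ₜ b
      rw [map_one, map_one]
      rfl
  map_mul' := fun k k' => by
    apply AlgEquiv.ext
    intro x
    induction x using TensorProduct.induction_on with
    | zero => simp
    | add x y hx hy => rw [map_add, hx, hy, map_add]
    | tmul a b =>
      show M.act (k * k') a ⊗ₜ[ℂ] N.act (k * k') b = M.act k (M.act k' a) ⊗ₜ N.act k (N.act k' b)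
      rw [map_mul, map_mul]
      rfl

theorem bact_tmul (k : G.X × H.X) (a : M.A) (b : N.A) :
    bact M N k (a ⊗ₜ b) = M.act k a ⊗ₜ N.act k b := rfl

/-- the diagonal moment map of `G` -/
noncomputable def bμ : G.Lie →ₗ[ℂ] M.A ⊗[ℂ] N.A :=
  (TensorProduct.mk ℂ M.A N.A).flip 1 ∘ₗ M.μ + TensorProduct.mk ℂ M.A N.A 1 ∘ₗ N.μ

theorem bμ_apply (D : G.Lie) : bμ M N D = M.μ D ⊗ₜ (1 : N.A) + (1 : M.A) ⊗ₜ N.μ D := rfl

/-- the diagonal moment map of `H` -/
noncomputable def bν : H.Lie →ₗ[ℂ] M.A ⊗[ℂ] N.A :=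
  (TensorProduct.mk ℂ M.A N.A).flip 1 ∘ₗ M.ν + TensorProduct.mk ℂ M.A N.A 1 ∘ₗ N.ν

theorem bν_apply (D : H.Lie) : bν M N D = M.ν D ⊗ₜ (1 : N.A) + (1 : M.A) ⊗ₜ N.ν D := rfl

theorem bact_rat (x : M.A ⊗[ℂ] N.A) : Rat G H (fun g h => bact M N (g, h) x) := by
  induction x using TensorProduct.induction_on with
  | zero => simpa only [map_zero] using Rat.zero
  | add x y hx hy => simpa only [map_add] using hx.add hy
  | tmul a b => exact Rat.tmul (M.rat a) (N.rat b)

theorem bact_br (k : G.X × H.X) (x y : M.A ⊗[ℂ] N.A) :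
    bact M N k (tbr M.toPAlg N.toPAlg x y) =
      tbr M.toPAlg N.toPAlg (bact M N k x) (bact M N k y) := by
  induction x using TensorProduct.induction_on with
  | zero => simp
  | add x x' hx hx' => simp only [map_add, LinearMap.add_apply, hx, hx']
  | tmul a b =>
    induction y using TensorProduct.induction_on with
    | zero => simp
    | add y y' hy hy' => simp only [map_add, hy, hy']
    | tmul a' b' =>
      rw [tbr_tmul, map_add, bact_tmul, bact_tmul, bact_tmul, bact_tmul, tbr_tmul, M.act_br,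
        N.act_br, map_mul, map_mul]

theorem PAlg.br_one (M : PAlg) (a : M.A) : M.br 1 a = 0 := by
  have h := M.leibniz a 1 1
  rw [mul_one, one_mul] at h
  rw [M.br_skew, neg_eq_zero]
  exact left_eq_add.mp h

theorem Ham.act_one (M : Ham G H) (a : M.A) : M.act (1, 1) a = a := by
  have : M.act ((1, 1) : G.X × H.X) = 1 := map_one M.act
  rw [this]; rfl

theorem bact_μ (D : G.Lie) (x : M.A ⊗[ℂ] N.A) :
    Exp G (fun g => bact M N (g, 1) x) D (tbr M.toPAlg N.toPAlg (bμ M N D) x) := by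
  induction x using TensorProduct.induction_on with
  | zero => simpa only [map_zero] using Exp.zero
  | add x y hx hy => simpa only [map_add] using hx.add hy
  | tmul a b =>
    have h3 := (M.exp_μ D a).tmul (N.exp_μ D b)
    rw [M.act_one, N.act_one] at h3
    rw [bμ_apply, map_add, LinearMap.add_apply, tbr_tmul, tbr_tmul, N.br_one, M.br_one, one_mul,
      one_mul, TensorProduct.tmul_zero, TensorProduct.zero_tmul, add_zero, zero_add]
    exact h3

theorem bact_ν (D : H.Lie) (x : M.A ⊗[ℂ] N.A) :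
    Exp H (fun g => bact M N (1, g) x) D (- tbr M.toPAlg N.toPAlg (bν M N D) x) := by
  induction x using TensorProduct.induction_on with
  | zero => simpa only [map_zero, neg_zero] using Exp.zero
  | add x y hx hy => simpa only [map_add, neg_add] using hx.add hy
  | tmul a b =>
    have h3 := (M.exp_ν D a).tmul (N.exp_ν D b)
    rw [M.act_one, N.act_one] at h3
    rw [bν_apply, map_add, LinearMap.add_apply, tbr_tmul, tbr_tmul, N.br_one, M.br_one, one_mul,
      one_mul, TensorProduct.tmul_zero, TensorProduct.zero_tmul, add_zero, zero_add, neg_add,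
      ← TensorProduct.neg_tmul, ← TensorProduct.tmul_neg]
    exact h3

theorem bact_ft : Algebra.FiniteType ℂ (M.A ⊗[ℂ] N.A) := by
  have := M.ft
  have := N.ft
  exact Algebra.FiniteType.trans (S := M.A) M.ft inferInstance

end box

/-- The product, with the diagonal action of `G × H`. -/
noncomputable def Ham.box (M N : Ham G H) : Ham G H where
  A := M.A ⊗[ℂ] N.A
  ft := bact_ft M N
  br := tbr M.toPAlg N.toPAlg
  br_self := tbr_self _ _
  jacobi := tbr_jacobi _ _
  leibniz := tbr_leibniz _ _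
  act := bact M N
  rat := bact_rat M N
  act_br := bact_br M N
  μ := bμ M N
  ν := bν M N
  μ_eq g h D := by
    rw [bμ_apply, map_add, bact_tmul, bact_tmul, map_one, map_one, M.μ_eq, N.μ_eq, bμ_apply]
  ν_eq g h D := by
    rw [bν_apply, map_add, bact_tmul, bact_tmul, map_one, map_one, M.ν_eq, N.ν_eq, bν_apply]
  μ_gen D x n f c h := (bact_μ M N D x).unique h
  ν_gen D x n f c h := by
    rw [← (bact_ν M N D x).unique h, neg_neg]

end Pool.Agent.MTF
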