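import Pool.Agent.MTF.KO

/-!
# MTF : functions on `G^L`, legs
-/

namespace Pool.Agent.MTF

namespace AffGrp

variable (G : AffGrp)

/-- A map to `G^L` is a morphism as soon as its coordinates are. -/
theorem pow_mem {L : Type} {H : AffGrp} (π : H.X → L → G.X)
    (h : ∀ l, ∀ f ∈ G.O, (fun y => f (π y l)) ∈ H.O) {F : (L → G.X) → ℂ} (hF : F ∈ G.powO L) :
    (fun y => F (π y)) ∈ H.O := by
  unfold powO at hF
  induction hF using Algebra.adjoin_induction with
  | mem F hF =>
    obtain ⟨i, f, rfl⟩ := hF
    exact h i f.1 f.2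
  | algebraMap c => exact Subalgebra.algebraMap_mem _ c
  | add F F' _ _ ih ih' => exact Subalgebra.add_mem _ ih ih'
  | mul F F' _ _ ih ih' => exact Subalgebra.mul_mem _ ih ih'

variable {G}
variable {K : Type} [Field K] [Algebra ℂ K]
variable {L : Type} [Finite L] [DecidableEq L]

theorem id_mem {f : G.X → ℂ} (hf : f ∈ G.O) : (fun h => f h) ∈ G.O := hf
theorem const_mem (H : AffGrp) (c : ℂ) : (fun _ : H.X => c) ∈ H.O := Subalgebra.algebraMap_mem _ c

theorem upd_mem (k : L → G.X) (l i : L) {f : G.X → ℂ} (hf : f ∈ G.O) :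
    (fun h => f (Function.update k l h i)) ∈ G.O := by
  by_cases hi : i = l
  · subst hi
    simpa using hf
  · simp only [Function.update_of_ne hi]
    exact G.const_mem _

/-- the slice `h ↦ F (k with k l replaced by h)` -/
def slO1 (k : L → G.X) (l : L) : (G.pow L).O →ₗ[ℂ] G.O where
  toFun F := ⟨fun h => F.1 (Function.update k l h),
    pow_mem G (H := G) (fun h => Function.update k l h) (fun i _ hf => upd_mem k l i hf) F.2⟩
  map_add' _ _ := rfl
  map_smul' _ _ := rfl

/-- The inclusion of the Lie algebra of `G` as the `l`-th factor of the Lie algebra of `G^L`. -/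
noncomputable def emb (l : L) : G.Lie →ₗ[ℂ] (G.pow L).Lie where
  toFun D := ⟨D.1 ∘ₗ slO1 (1 : L → G.X) l, fun f g => by
    have h := D.2 (slO1 (1 : L → G.X) l f) (slO1 (1 : L → G.X) l g)
    have h1 : slO1 (1 : L → G.X) l (f * g) = slO1 (1 : L → G.X) l f * slO1 (1 : L → G.X) l g := rfl
    have h2 : ∀ f : (G.pow L).O, (slO1 (1 : L → G.X) l f).1 1 = f.1 1 := by
      intro f
      show f.1 (Function.update (1 : L → G.X) l 1) = f.1 (1 : L → G.X)
      exact congrArg f.1 (Function.update_eq_self l (1 : L → G.X))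
    rw [h2, h2] at h
    rw [LinearMap.comp_apply, h1, h]
    rfl⟩
  map_add' _ _ := rfl
  map_smul' _ _ := rfl

variable (K) in
/-- the slice `h ↦ F (k with k l replaced by h)` -/
def sl (k : L → G.X) (l : L) : (G.pow L).KO K →ₐ[K] G.KO K :=
  comp K (H := G.pow L) (H' := G) (fun h => Function.update k l h)
    fun _ hf => pow_mem G (H := G) (fun h => Function.update k l h) (fun i _ hf => upd_mem k l i hf) hf

theorem sl_apply (k : L → G.X) (l : L) (F : (G.pow L).KO K) (h : G.X) :
    (sl K k l F).1 h = F.1 (Function.update k l h) := rfl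

theorem sl_self (k : L → G.X) (l : L) (F : (G.pow L).KO K) : (sl K k l F).1 (k l) = F.1 k := by
  rw [sl_apply, Function.update_eq_self]

/-- The derivative in the leg `l` is computed on the slices. -/
theorem derK_emb (D : G.Lie) (l : L) (F : (G.pow L).KO K) (k : L → G.X) :
    (derK K (emb l D) F).1 k = (derK K D (sl K k l F)).1 (k l) := by
  rw [derK_apply, derK_apply]
  obtain ⟨n, c, f, h⟩ := KO_rep F
  have e1 : ∀ y : G.X, k * Function.update (1 : L → G.X) l y = Function.update k l (k l * y) := by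
    intro y
    funext i
    by_cases hi : i = l
    · subst hi; simp
    · simp [Function.update_of_ne hi]
  rw [ext_apply (emb l D).1 (ltK (H := G.pow L) k F) c
      (fun i => ⟨fun y : L → G.X => (f i).1 (k * y), (G.pow L).left_mem k (f i).2⟩)
      (fun x => h _),
    ext_apply D.1 (ltK (k l) (sl K k l F)) c
      (fun i => ⟨fun y => (f i).1 (Function.update k l (k l * y)),
        G.left_mem (k l) (slO1 k l (f i)).2⟩) (fun x => h _)]
  refine Finset.sum_congr rfl fun i _ => ?_
  congr 2
  show D.1 (slO1 (1 : L → G.X) l _) = _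
  congr 1
  apply Subtype.ext
  funext y
  show (f i).1 (k * Function.update (1 : L → G.X) l y) = _
  rw [e1]

variable (K) in
/-- the pullback `f ↦ (k ↦ f (k l))` -/
def pu (l : L) : G.KO K →ₐ[K] (G.pow L).KO K :=
  comp K (H := G) (H' := G.pow L) (fun k => k l) fun f hf => (G.pull l ⟨f, hf⟩).2

theorem pu_apply (l : L) (F : G.KO K) (k : L → G.X) : (pu K l F).1 k = F.1 (k l) := rfl

end AffGrp

end Pool.Agent.MTF
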