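import Pool.Agent.MTF.F0b
import Pool.Agent.MTF.Leg

/-!
# MTF, part F : the Lie algebra of `G^L`, reductions, glueing

* `AffGrp.pl` : `(L → Lie G) ≃ₗ Lie (G^L)`.
* `IsRed P Q` : `Q` is the Hamiltonian reduction of `P` by the diagonal `G^E`.
* `Cob.tr` : glueing of the incoming and the outgoing circles indexed by `E`.
-/

namespace Pool.Agent.MTF

open TensorProduct

namespace AffGrp
variable {G : AffGrp}

/-- point derivations kill the constants -/
theorem lie_one (H : AffGrp) (D : H.Lie) : D.1 1 = 0 := by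
  have h3 := D.2 1 1
  have h4 : (1 : H.O).1 1 = 1 := rfl
  rw [mul_one, h4, one_mul] at h3
  exact left_eq_add.mp h3

theorem lie_const (H : AffGrp) (D : H.Lie) (c : ℂ) : D.1 (algebraMap ℂ H.O c) = 0 := by
  rw [Algebra.algebraMap_eq_smul_one, map_smul, lie_one, smul_zero]

section
variable {L : Type} [Finite L]

/-- Two elements of the Lie algebra of `G^L` are equal if their components are. -/
theorem lie_ext {D D' : (G.pow L).Lie} (h : ∀ l, G.lpr l D = G.lpr l D') : D = D' := by
  apply Subtype.ext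
  apply LinearMap.ext
  rintro ⟨F, hF⟩
  have hF' := hF
  unfold AffGrp.pow powO at hF'
  induction hF' using Algebra.adjoin_induction with
  | mem F hF'' =>
    obtain ⟨i, f, rfl⟩ := hF''
    exact congrArg (fun E : G.Lie => E.1 f) (h i)
  | algebraMap c =>
    exact (lie_const (G.pow L) D c).trans (lie_const (G.pow L) D' c).symm
  | add F F' h1 h2 ih ih' =>
    have e := map_add D.1 (⟨F, h1⟩ : (G.pow L).O) ⟨F', h2⟩
    have e' := map_add D'.1 (⟨F, h1⟩ : (G.pow L).O) ⟨F', h2⟩
    exact e.trans ((congrArg₂ _ (ih h1) (ih' h2)).trans e'.symm)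
  | mul F F' h1 h2 ih ih' =>
    have e := D.2 (⟨F, h1⟩ : (G.pow L).O) ⟨F', h2⟩
    have e' := D'.2 (⟨F, h1⟩ : (G.pow L).O) ⟨F', h2⟩
    rw [ih h1, ih' h2] at e
    exact e.trans e'.symm

variable [DecidableEq L]

theorem lpr_emb (k l : L) (D : G.Lie) : G.lpr k (emb l D) = if k = l then D else 0 := by
  apply Subtype.ext
  apply LinearMap.ext
  intro f
  by_cases h : k = l
  · subst h
    rw [if_pos rfl]
    show D.1 (slO1 (1 : L → G.X) k (G.pull k f)) = D.1 f
    congr 1
    apply Subtype.ext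
    funext x
    show f.1 (Function.update (1 : L → G.X) k x k) = f.1 x
    rw [Function.update_self]
  · rw [if_neg h]
    show D.1 (slO1 (1 : L → G.X) l (G.pull k f)) = 0
    rw [← lie_const G D (f.1 1)]
    congr 1
    apply Subtype.ext
    funext x
    show f.1 (Function.update (1 : L → G.X) l x k) = f.1 1
    rw [Function.update_of_ne h]
    rfl

end

section
variable {L : Type} [Finite L]

open Classical in
variable (G) in
/-- The Lie algebra of `G^L` is the direct sum of the Lie algebras of the factors. -/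
noncomputable def pl : (L → G.Lie) ≃ₗ[ℂ] (G.pow L).Lie :=
  LinearEquiv.symm
    { toFun := fun D l => G.lpr l D
      map_add' := fun D D' => by
        funext l
        exact map_add _ _ _
      map_smul' := fun c D => by
        funext l
        exact map_smul _ _ _
      invFun := fun d => ∑ᶠ l, emb l (d l)
      left_inv := fun D => by
        have := Fintype.ofFinite L
        apply lie_ext
        intro k
        beta_reduce
        rw [finsum_eq_sum_of_fintype, map_sum]
        simp only [lpr_emb]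
        rw [Finset.sum_ite_eq Finset.univ k, if_pos (Finset.mem_univ _)]
      right_inv := fun d => by
        have := Fintype.ofFinite L
        funext k
        simp only []
        rw [finsum_eq_sum_of_fintype, map_sum]
        simp only [lpr_emb]
        rw [Finset.sum_ite_eq Finset.univ k, if_pos (Finset.mem_univ _)] }

theorem lpr_pl (d : L → G.Lie) (l : L) : G.lpr l (G.pl d) = d l :=
  congrFun (G.pl.symm_apply_apply d) l

theorem pl_lpr (D : (G.pow L).Lie) : G.pl (fun l => G.lpr l D) = D :=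
  G.pl.apply_symm_apply D

theorem pl_symm (D : (G.pow L).Lie) (l : L) : G.pl.symm D l = G.lpr l D := rfl

theorem lpr_Ad (x : (G.pow L).X) (D : (G.pow L).Lie) (l : L) :
    G.lpr l ((G.pow L).Ad x D) = G.Ad (x l) (G.lpr l D) := rfl

theorem Ad_pl (x : (G.pow L).X) (d : L → G.Lie) :
    (G.pow L).Ad x (G.pl d) = G.pl fun l => G.Ad (x l) (d l) := by
  apply lie_ext
  intro l
  rw [lpr_Ad, lpr_pl, lpr_pl]

theorem lpr_lmap {L' : Type} [Finite L'] (u : L → L') (D : (G.pow L').Lie) (l : L) :
    G.lpr l (G.lmap u D) = G.lpr (u l) D := rfl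

theorem lmap_pl {L' : Type} [Finite L'] (u : L → L') (d : L' → G.Lie) :
    G.lmap u (G.pl d) = G.pl (d ∘ u) := by
  apply lie_ext
  intro l
  rw [lpr_lmap, lpr_pl, lpr_pl]
  rfl

theorem pl_single [DecidableEq L] (l : L) (D : G.Lie) : G.pl (Pi.single l D) = emb l D := by
  apply lie_ext
  intro k
  rw [lpr_pl, lpr_emb, Pi.single_apply]

end

end AffGrp

variable {G : AffGrp}

section red
variable {I J E : Type} [Finite I] [Finite J] [Finite E]
variable (P : Ham (G.pow (I ⊕ E)) (G.pow (J ⊕ E)))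

/-- The action of `G^I × G^J × G^E`, where `G^E` acts diagonally. -/
def ract (g : I → G.X) (k : J → G.X) (h : E → G.X) : P.A ≃ₐ[ℂ] P.A :=
  P.act (Sum.elim g h, Sum.elim k h)

/-- The moment map of the diagonal `G^E`. -/
noncomputable def rμ : (E → G.Lie) →ₗ[ℂ] P.A where
  toFun d := P.μ (G.pl (Sum.elim (0 : I → G.Lie) d)) - P.ν (G.pl (Sum.elim (0 : J → G.Lie) d))
  map_add' d d' := by
    have h : ∀ I : Type, (Sum.elim (0 : I → G.Lie) (d + d')) =
        Sum.elim (0 : I → G.Lie) d + Sum.elim (0 : I → G.Lie) d' := by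
      intro I
      funext x
      cases x <;> simp
    rw [h, h, map_add, map_add, map_add, map_add]
    abel
  map_smul' c d := by
    have h : ∀ I : Type, (Sum.elim (0 : I → G.Lie) (c • d)) = c • Sum.elim (0 : I → G.Lie) d := by
      intro I
      funext x
      cases x <;> simp
    rw [h, h, map_smul, map_smul, map_smul, map_smul, RingHom.id_apply, smul_sub]

/-- The ideal of the zero fibre of the moment map of `G^E`. -/
noncomputable def rI : Ideal P.A := Ideal.span (Set.range (rμ P))

theorem ract_rμ (g : I → G.X) (k : J → G.X) (h : E → G.X) (d : E → G.Lie) :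
    ract P g k h (rμ P d) = rμ P fun e => G.Ad (h e) (d e) := by
  have e1 : ∀ (I : Type) [Finite I] (g : I → G.X), (G.pow (I ⊕ E)).Ad (Sum.elim g h)
      (G.pl (Sum.elim (0 : I → G.Lie) d)) = G.pl (Sum.elim 0 fun e => G.Ad (h e) (d e)) := by
    intro I _ g
    rw [AffGrp.Ad_pl]
    congr 1
    funext x
    cases x with
    | inl i => exact map_zero (G.Ad (g i))
    | inr e => rfl
  show P.act (Sum.elim g h, Sum.elim k h) (P.μ _ - P.ν _) = P.μ _ - P.ν _
  rw [map_sub, P.μ_eq, P.ν_eq, e1, e1]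

theorem ract_rI (g : I → G.X) (k : J → G.X) (h : E → G.X) {a : P.A} (ha : a ∈ rI P) :
    ract P g k h a ∈ rI P := by
  have h1 : rI P ≤ (rI P).comap (ract P g k h) := by
    unfold rI
    rw [Ideal.span_le]
    rintro _ ⟨d, rfl⟩
    exact Ideal.subset_span ⟨_, (ract_rμ P g k h d).symm⟩
  exact h1 ha

/-- The elements whose class modulo `rI` is invariant under the diagonal `G^E`. -/
noncomputable def rinv : Subalgebra ℂ P.A where
  carrier := {a | ∀ h : E → G.X, ract P 1 1 h a - a ∈ rI P}
  add_mem' := by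
    intro a b ha hb h
    rw [map_add, add_sub_add_comm]
    exact Ideal.add_mem _ (ha h) (hb h)
  mul_mem' := by
    intro a b ha hb h
    have : ract P 1 1 h (a * b) - a * b =
        (ract P 1 1 h a - a) * ract P 1 1 h b + a * (ract P 1 1 h b - b) := by
      rw [map_mul]
      ring
    rw [this]
    exact Ideal.add_mem _ (Ideal.mul_mem_right _ _ (ha h)) (Ideal.mul_mem_left _ _ (hb h))
  algebraMap_mem' := by
    intro c h
    rw [AlgEquiv.commutes, sub_self]
    exact Ideal.zero_mem _

/-- `Q` is the Hamiltonian reduction at level `0` of `P` by the diagonal `G^E`. -/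
structure IsRed (Q : Ham (G.pow I) (G.pow J)) : Prop where
  br_mem : ∀ a b : rinv P, P.br a.1 b.1 ∈ rinv P
  act_mem : ∀ g k, ∀ a : rinv P, ract P g k 1 a.1 ∈ rinv P
  μ_mem : ∀ d : I → G.Lie, P.μ (G.pl (Sum.elim d 0)) ∈ rinv P
  ν_mem : ∀ d : J → G.Lie, P.ν (G.pl (Sum.elim d 0)) ∈ rinv P
  ex : ∃ φ : rinv P →ₐ[ℂ] Q.A, Function.Surjective φ ∧ (∀ a, φ a = 0 ↔ a.1 ∈ rI P) ∧
    (∀ a b c : rinv P, c.1 = P.br a.1 b.1 → φ c = Q.br (φ a) (φ b)) ∧
    (∀ g k, ∀ a b : rinv P, b.1 = ract P g k 1 a.1 → φ b = Q.act (g, k) (φ a)) ∧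
    (∀ d : I → G.Lie, ∀ a : rinv P, a.1 = P.μ (G.pl (Sum.elim d 0)) → φ a = Q.μ (G.pl d)) ∧
    ∀ d : J → G.Lie, ∀ a : rinv P, a.1 = P.ν (G.pl (Sum.elim d 0)) → φ a = Q.ν (G.pl d)

end red

namespace Cob

/-- The relation `l (inr e) ~ r (inr e)`. -/
def TGlue {I J E : Type} (X : Cob (I ⊕ E) (J ⊕ E)) : X.C → X.C → Prop :=
  fun a b => ∃ e, a = X.l (Sum.inr e) ∧ b = X.r (Sum.inr e)

/-- Glueing of the incoming and the outgoing circles indexed by `E`. -/
noncomputable def tr {I J E : Type} (X : Cob (I ⊕ E) (J ⊕ E)) : Cob I J where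
  C := Quot X.TGlue
  fin := Finite.of_surjective (Quot.mk _) Quot.mk_surjective
  l i := Quot.mk _ (X.l (Sum.inl i))
  r j := Quot.mk _ (X.r (Sum.inl j))
  g c := (∑ᶠ a ∈ {a | Quot.mk X.TGlue a = c}, X.g a) +
    Nat.card {e : E // Quot.mk X.TGlue (X.l (Sum.inr e)) = c} + 1 -
    Nat.card {a : X.C // Quot.mk X.TGlue a = c}

/-- Relabelling of the circles. -/
def pull {I J I' J' : Type} (X : Cob I' J') (u : I → I') (v : J → J') : Cob I J where
  C := X.C
  l := X.l ∘ u
  r := X.r ∘ v
  g := X.g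

end Cob

end Pool.Agent.MTF
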