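import Pool.Agent.MTF.F0c

/-!
# MTF : the interface between part P (Poisson) and part F (assembly)

`BB G e f Hb` : the properties of the building blocks `Hb g I J` (the connected surface of genus `g`
with incoming circles `I` and outgoing circles `J`).
-/

namespace Pool.Agent.MTF

open TensorProduct

/-- The properties of the building blocks. -/
structure BB (G : AffGrp) (e f : G.Lie)
    (Hb : ∀ (g : ℕ) (I J : Type) [Finite I] [Finite J], Ham (G.pow I) (G.pow J)) : Prop where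
  /-- relabelling -/
  rel : ∀ (g : ℕ) (I J I' J' : Type) [Finite I] [Finite J] [Finite I'] [Finite J'] (u : I ≃ I')
    (v : J ≃ J'), ((Hb g I J).pull u v).Iso (Hb g I' J')
  /-- joining two surfaces along one circle -/
  t1 : ∀ (g g' : ℕ) (I J I' J' : Type) [Finite I] [Finite J] [Finite I'] [Finite J'],
    IsRed (((Hb g (I ⊕ PUnit) J).pull
        (Sum.map Sum.inl id : I ⊕ PUnit → (I ⊕ I') ⊕ PUnit)
        (Sum.inl ∘ Sum.inl : J → (J ⊕ J') ⊕ PUnit)).box
      ((Hb g' I' (J' ⊕ PUnit)).pull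
        (Sum.inl ∘ Sum.inr : I' → (I ⊕ I') ⊕ PUnit)
        (Sum.map Sum.inr id : J' ⊕ PUnit → (J ⊕ J') ⊕ PUnit))) (Hb (g + g') (I ⊕ I') (J ⊕ J'))
  /-- joining two circles of one surface -/
  t2 : ∀ (g : ℕ) (I J : Type) [Finite I] [Finite J],
    IsRed (Hb g (I ⊕ PUnit) (J ⊕ PUnit)) (Hb (g + 1) I J)
  /-- the cylinder -/
  cyl : IsCyl G (Equiv.refl PUnit) (Hb 0 PUnit PUnit)
  /-- the disc -/
  disc : IsKostant G e f (Hb 0 PUnit PEmpty)
  /-- integral and generically symplectic -/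
  mt : ∀ (g : ℕ) (I J : Type) [Finite I] [Finite J], InMT (Hb g I J).toPAlg
  /-- the opposite -/
  op : ∀ (g : ℕ) (I J : Type) [Finite I] [Finite J], (Hb g I J).Iso (Hb g I J).neg
  /-- the Reynolds functional of `G` -/
  cr : ∃ R : Module.Dual ℂ G.O, R 1 = 1 ∧ (∀ x f, R (G.lt x f) = R f) ∧
    ∀ (x : G.X) (f f' : G.O), (∀ y, f'.1 y = f.1 (y * x)) → R f' = R f

end Pool.Agent.MTF
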