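import Pool.Agent.MTF.F0d

/-! # MTF, part F (F1B) : products, opposites -/

namespace Pool.Agent.MTF

open TensorProduct

section f1b
variable {A B C : Type} [CommRing A] [Algebra ℂ A] [CommRing B] [Algebra ℂ B] [CommRing C]
  [Algebra ℂ C]

/-- the product bracket, for plain algebras -/
noncomputable def f1b_tb (p : A →ₗ[ℂ] A →ₗ[ℂ] A) (q : B →ₗ[ℂ] B →ₗ[ℂ] B) :
    (A ⊗[ℂ] B) →ₗ[ℂ] (A ⊗[ℂ] B) →ₗ[ℂ] (A ⊗[ℂ] B) :=
  TensorProduct.map₂ p (LinearMap.mul ℂ B) + TensorProduct.map₂ (LinearMap.mul ℂ A) q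

theorem f1b_tb_tmul (p : A →ₗ[ℂ] A →ₗ[ℂ] A) (q : B →ₗ[ℂ] B →ₗ[ℂ] B) (a a' : A) (b b' : B) :
    f1b_tb p q (a ⊗ₜ b) (a' ⊗ₜ b') = p a a' ⊗ₜ (b * b') + (a * a') ⊗ₜ q b b' := by
  simp [f1b_tb]

theorem f1b_assoc_tb (p : A →ₗ[ℂ] A →ₗ[ℂ] A) (q : B →ₗ[ℂ] B →ₗ[ℂ] B) (r : C →ₗ[ℂ] C →ₗ[ℂ] C)
    (x y : (A ⊗[ℂ] B) ⊗[ℂ] C) :
    Algebra.TensorProduct.assoc ℂ ℂ ℂ A B C (f1b_tb (f1b_tb p q) r x y) =
      f1b_tb p (f1b_tb q r) (Algebra.TensorProduct.assoc ℂ ℂ ℂ A B C x)
        (Algebra.TensorProduct.assoc ℂ ℂ ℂ A B C y) := by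
  induction x using TensorProduct.induction_on with
  | zero => simp
  | add x x' hx hx' => simp only [map_add, LinearMap.add_apply, hx, hx']
  | tmul u c =>
    induction u using TensorProduct.induction_on with
    | zero => simp
    | add u u' hu hu' => simp only [TensorProduct.add_tmul, map_add, LinearMap.add_apply, hu, hu']
    | tmul a b =>
      induction y using TensorProduct.induction_on with
      | zero => simp
      | add y y' hy hy' => simp only [map_add, hy, hy']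
      | tmul u c' =>
        induction u using TensorProduct.induction_on with
        | zero => simp
        | add u u' hu hu' => simp only [TensorProduct.add_tmul, map_add, hu, hu']
        | tmul a' b' =>
          simp only [f1b_tb_tmul, Algebra.TensorProduct.assoc_tmul, map_add,
            Algebra.TensorProduct.tmul_mul_tmul, TensorProduct.add_tmul, TensorProduct.tmul_add]
          abel

theorem f1b_assoc_congr (α : A ≃ₐ[ℂ] A) (β : B ≃ₐ[ℂ] B) (γ : C ≃ₐ[ℂ] C)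
    (x : (A ⊗[ℂ] B) ⊗[ℂ] C) :
    Algebra.TensorProduct.assoc ℂ ℂ ℂ A B C
        (Algebra.TensorProduct.congr (Algebra.TensorProduct.congr α β) γ x) =
      Algebra.TensorProduct.congr α (Algebra.TensorProduct.congr β γ)
        (Algebra.TensorProduct.assoc ℂ ℂ ℂ A B C x) := by
  induction x using TensorProduct.induction_on with
  | zero => simp
  | add x x' hx hx' => simp only [map_add, hx, hx']
  | tmul u c =>
    induction u using TensorProduct.induction_on with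
    | zero => simp
    | add u u' hu hu' => simp only [TensorProduct.add_tmul, map_add, hu, hu']
    | tmul a b => rfl

theorem f1b_assoc_mom (a : A) (b : B) (c : C) :
    Algebra.TensorProduct.assoc ℂ ℂ ℂ A B C
        ((a ⊗ₜ (1 : B) + (1 : A) ⊗ₜ b) ⊗ₜ (1 : C) + (1 : A ⊗[ℂ] B) ⊗ₜ c) =
      a ⊗ₜ (1 : B ⊗[ℂ] C) + (1 : A) ⊗ₜ (b ⊗ₜ (1 : C) + (1 : B) ⊗ₜ c) := by
  rw [Algebra.TensorProduct.one_def, Algebra.TensorProduct.one_def]
  simp only [TensorProduct.add_tmul, TensorProduct.tmul_add, map_add,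
    Algebra.TensorProduct.assoc_tmul]
  abel

theorem f1b_lid_tb (q : B →ₗ[ℂ] B →ₗ[ℂ] B) (x y : ℂ ⊗[ℂ] B) :
    Algebra.TensorProduct.lid ℂ B (f1b_tb (0 : ℂ →ₗ[ℂ] ℂ →ₗ[ℂ] ℂ) q x y) =
      q (Algebra.TensorProduct.lid ℂ B x) (Algebra.TensorProduct.lid ℂ B y) := by
  induction x using TensorProduct.induction_on with
  | zero => simp
  | add x x' hx hx' => simp only [map_add, LinearMap.add_apply, hx, hx']
  | tmul a b =>
    induction y using TensorProduct.induction_on with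
    | zero => simp
    | add y y' hy hy' => simp only [map_add, hy, hy']
    | tmul a' b' =>
      simp only [f1b_tb_tmul, Algebra.TensorProduct.lid_tmul, map_add, LinearMap.zero_apply,
        TensorProduct.zero_tmul, map_zero, zero_add, map_smul, LinearMap.smul_apply, smul_smul]
      rw [mul_comm]

theorem f1b_lid_congr (β : B ≃ₐ[ℂ] B) (x : ℂ ⊗[ℂ] B) :
    Algebra.TensorProduct.lid ℂ B
        (Algebra.TensorProduct.congr (1 : ℂ ≃ₐ[ℂ] ℂ) β x) =
      β (Algebra.TensorProduct.lid ℂ B x) := by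
  induction x using TensorProduct.induction_on with
  | zero => simp
  | add x x' hx hx' => simp only [map_add, hx, hx']
  | tmul a b =>
    change a • β b = β (a • b)
    rw [map_smul]

theorem f1b_lid_mom (b : B) :
    Algebra.TensorProduct.lid ℂ B ((0 : ℂ) ⊗ₜ (1 : B) + (1 : ℂ) ⊗ₜ b) = b := by
  simp

theorem f1b_neg_tb (p : A →ₗ[ℂ] A →ₗ[ℂ] A) (q : B →ₗ[ℂ] B →ₗ[ℂ] B) (x y : A ⊗[ℂ] B) :
    (-f1b_tb p q) x y = f1b_tb (-p) (-q) x y := by
  induction x using TensorProduct.induction_on with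
  | zero => simp
  | add x x' hx hx' => simp only [map_add, LinearMap.add_apply, hx, hx']
  | tmul a b =>
    induction y using TensorProduct.induction_on with
    | zero => simp
    | add y y' hy hy' => simp only [map_add, hy, hy']
    | tmul a' b' =>
      simp only [LinearMap.neg_apply, f1b_tb_tmul, TensorProduct.neg_tmul, TensorProduct.tmul_neg,
        neg_add]

theorem f1b_neg_mom (a : A) (b : B) :
    -(a ⊗ₜ[ℂ] (1 : B) + (1 : A) ⊗ₜ[ℂ] b) = (-a) ⊗ₜ (1 : B) + (1 : A) ⊗ₜ (-b) := by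
  rw [TensorProduct.neg_tmul, TensorProduct.tmul_neg, neg_add]

end f1b

namespace Ham
variable {G H : AffGrp}

/-- [F1f] PROOF. `Algebra.TensorProduct.assoc`. -/
theorem box_assoc (M N P : Ham G H) : ((M.box N).box P).Iso (M.box (N.box P)) := by
  refine ⟨Algebra.TensorProduct.assoc ℂ ℂ ℂ M.A N.A P.A, fun x y => ?_, fun k x => ?_,
    fun D => ?_, fun D => ?_⟩
  · exact f1b_assoc_tb M.br N.br P.br x y
  · exact f1b_assoc_congr (M.act k) (N.act k) (P.act k) x
  · exact f1b_assoc_mom (M.μ D) (N.μ D) (P.μ D)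
  · exact f1b_assoc_mom (M.ν D) (N.ν D) (P.ν D)

/-- [F1g] PROOF. `Algebra.TensorProduct.lid ℂ M.A` : `ℂ ⊗ M.A ≃ M.A` (`Ham.triv` has the algebra `ℂ`, bracket `0`, moment maps `0`, trivial action). -/
theorem triv_box (M : Ham G H) : ((Ham.triv G H).box M).Iso M := by
  refine ⟨Algebra.TensorProduct.lid ℂ M.A, fun x y => ?_, fun k x => ?_, fun D => ?_,
    fun D => ?_⟩
  · exact f1b_lid_tb M.br x y
  · exact f1b_lid_congr (M.act k) x
  · exact f1b_lid_mom (M.μ D)
  · exact f1b_lid_mom (M.ν D)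

/-- [F1h] PROOF. The same equivalence `e` (all data of `neg` are those of `M` up to sign). -/
theorem Iso.neg {M N : Ham G H} (h : M.Iso N) : M.neg.Iso N.neg := by
  obtain ⟨e, h1, h2, h3, h4⟩ := h
  refine ⟨e, fun a b => ?_, fun k a => h2 k a, fun D => ?_, fun D => ?_⟩
  · change e (-(M.br a b)) = -(N.br (e a) (e b))
    rw [map_neg, h1]
  · change e (-(M.μ D)) = -(N.μ D)
    rw [map_neg, h3]
  · change e (-(M.ν D)) = -(N.ν D)
    rw [map_neg, h4]

/-- [F1i] PROOF. `e = AlgEquiv.refl` of `M.A ⊗ N.A`; `tbr` of the negated brackets is `- tbr` (`tbr_tmul`, induction), the moment maps: `bμ_apply`, `TensorProduct.neg_tmul`, `tmul_neg`. -/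
theorem box_neg (M N : Ham G H) : (M.box N).neg.Iso (M.neg.box N.neg) := by
  refine ⟨(AlgEquiv.refl : (M.A ⊗[ℂ] N.A) ≃ₐ[ℂ] (M.A ⊗[ℂ] N.A)), fun x y => ?_, fun k x => rfl,
    fun D => ?_, fun D => ?_⟩
  · exact f1b_neg_tb M.br N.br x y
  · exact f1b_neg_mom (M.μ D) (N.μ D)
  · exact f1b_neg_mom (M.ν D) (N.ν D)

/-- [F1j] PROOF. `AlgEquiv.refl`. -/
theorem triv_neg : (Ham.triv G H).neg.Iso (Ham.triv G H) := by
  refine ⟨(AlgEquiv.refl : ℂ ≃ₐ[ℂ] ℂ), fun x y => ?_, fun k x => rfl, fun D => ?_, fun D => ?_⟩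
  · exact neg_zero
  · exact neg_zero
  · exact neg_zero

end Ham

end Pool.Agent.MTF
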