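import Pool.Agent.MTF.F0d

/-! # MTF, part F (F1C) : restriction of legs -/

namespace Pool.Agent.MTF

open TensorProduct

namespace Ham
variable {G : AffGrp}

section
variable {I J I' J' : Type} [Finite I] [Finite J] [Finite I'] [Finite J']

/-- [F1k] PROOF. The same equivalence `e`. -/
theorem Iso.pull {M N : Ham (G.pow I') (G.pow J')} (h : M.Iso N) (u : I' → I) (v : J' → J) :
    (M.pull u v).Iso (N.pull u v) := by
  obtain ⟨e, h1, h2, h3, h4⟩ := h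
  exact ⟨e, h1, fun k a => h2 (G.rbHom u k.1, G.rbHom v k.2) a, fun D => h3 (G.lmap u D),
    fun D => h4 (G.lmap v D)⟩

/-- [F1l] PROOF. `AlgEquiv.refl`; all the data are equal (`rfl`: `G.lmap u' ∘ ..`: `G.lmap u (G.lmap u' D) = G.lmap (u' ∘ u) D` is `rfl`). -/
theorem pull_pull {I'' J'' : Type} [Finite I''] [Finite J''] (M : Ham (G.pow I'') (G.pow J'')) (u : I'' → I') (v : J'' → J')
    (u' : I' → I) (v' : J' → J) : ((M.pull u v).pull u' v').Iso (M.pull (u' ∘ u) (v' ∘ v)) :=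
  ⟨(AlgEquiv.refl : M.A ≃ₐ[ℂ] M.A), fun _ _ => rfl, fun _ _ => rfl, fun _ => rfl, fun _ => rfl⟩

/-- [F1m] PROOF. `AlgEquiv.refl`, `rfl`. -/
theorem pull_id (M : Ham (G.pow I) (G.pow J)) : (M.pull id id).Iso M :=
  ⟨(AlgEquiv.refl : M.A ≃ₐ[ℂ] M.A), fun _ _ => rfl, fun _ _ => rfl, fun _ => rfl, fun _ => rfl⟩

/-- [F1n] PROOF. `AlgEquiv.refl`, `rfl` on pure tensors. -/
theorem pull_box (M N : Ham (G.pow I') (G.pow J')) (u : I' → I) (v : J' → J) :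
    ((M.box N).pull u v).Iso ((M.pull u v).box (N.pull u v)) :=
  ⟨(AlgEquiv.refl : (M.A ⊗[ℂ] N.A) ≃ₐ[ℂ] (M.A ⊗[ℂ] N.A)), fun _ _ => rfl, fun _ _ => rfl,
    fun _ => rfl, fun _ => rfl⟩

/-- [F1o] PROOF. `AlgEquiv.refl`. -/
theorem pull_triv (u : I' → I) (v : J' → J) :
    ((Ham.triv (G.pow I') (G.pow J')).pull u v).Iso (Ham.triv (G.pow I) (G.pow J)) :=
  ⟨(AlgEquiv.refl : ℂ ≃ₐ[ℂ] ℂ), fun _ _ => rfl, fun _ _ => rfl, fun _ => rfl, fun _ => rfl⟩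

/-- [F1p] PROOF. `AlgEquiv.refl`. -/
theorem pull_neg (M : Ham (G.pow I') (G.pow J')) (u : I' → I) (v : J' → J) :
    (M.neg.pull u v).Iso (M.pull u v).neg :=
  ⟨(AlgEquiv.refl : M.A ≃ₐ[ℂ] M.A), fun _ _ => rfl, fun _ _ => rfl, fun _ => rfl, fun _ => rfl⟩

end

end Ham

end Pool.Agent.MTF
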