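import Pool.Agent.MTF.F10Z

/-! # MTF, part F (F10B) : glueing one circle, same component: classes -/

namespace Pool.Agent.MTF

open scoped Classical in
theorem f10b_one {C M : Type*} [Finite C] [CommMonoid M] (f : C → M) (a : C) (p : C → Prop) (hp : ∀ c, p c ↔ c ≠ a) :
    ∏ᶠ c, f c = f a * ∏ᶠ c : {c // p c}, f c.1 := by
  have := Fintype.ofFinite C
  rw [finprod_eq_prod_of_fintype, finprod_eq_prod_of_fintype, ← Finset.mul_prod_erase Finset.univ f (Finset.mem_univ a),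
    Finset.prod_subtype (Finset.univ.erase a) (p := p) (fun x => by rw [Finset.mem_erase, hp]; simp) f]

theorem f10b_neg {I C : Type} (f : I ⊕ PUnit.{1} → C) {c : C} (h : c ≠ f (Sum.inr PUnit.unit)) :
    Function.Bijective (fun i : {i : I // f (Sum.inl i) = c} => (⟨Sum.inl i.1, i.2⟩ : {x : I ⊕ PUnit.{1} // f x = c})) := by
  constructor
  · intro i j hij
    exact Subtype.ext (Sum.inl_injective (congrArg Subtype.val hij))
  · rintro ⟨x | x, hx⟩
    · exact ⟨⟨x, hx⟩, rfl⟩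
    · exact absurd hx.symm h

theorem f10b_pos {I C : Type} (f : I ⊕ PUnit.{1} → C) {c : C} (h : f (Sum.inr PUnit.unit) = c) :
    Function.Bijective (fun i : {i : I // f (Sum.inl i) = c} ⊕ PUnit.{1} =>
      (Sum.elim (fun i => ⟨Sum.inl i.1, i.2⟩) (fun _ => ⟨Sum.inr PUnit.unit, h⟩) i : {x : I ⊕ PUnit.{1} // f x = c})) := by
  constructor
  · rintro (i | i) (j | j) hij
    · exact congrArg Sum.inl (Subtype.ext (Sum.inl_injective (congrArg Subtype.val hij)))
    · exact absurd (congrArg Subtype.val hij) Sum.inl_ne_inr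
    · exact absurd (congrArg Subtype.val hij) Sum.inr_ne_inl
    · rfl
  · rintro ⟨x | x, hx⟩
    · exact ⟨Sum.inl ⟨x, hx⟩, rfl⟩
    · exact ⟨Sum.inr PUnit.unit, rfl⟩

section
variable {G : AffGrp} {e f : G.Lie} {Hb : ∀ (g : ℕ) (I J : Type) [Finite I] [Finite J], Ham (G.pow I) (G.pow J)}
  {I J : Type} [Finite I] [Finite J]
variable (X : Cob (I ⊕ PUnit.{1}) (J ⊕ PUnit.{1}))

/-- [F10b] a component without circles of `PUnit`. PROOF. `pull_blk`, `blk_congr` with `{i : I // X.l (inl i) = c} ≃ {i : I ⊕ PUnit // X.l i = c}`. -/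
theorem cblk_rest (hB : BB G e f Hb) (c : X.C) (h1 : c ≠ X.l (Sum.inr PUnit.unit)) (h2 : c ≠ X.r (Sum.inr PUnit.unit)) :
    cblk Hb X c = HQ.pull (Sum.inl : I → I ⊕ PUnit.{1}) (Sum.inl : J → J ⊕ PUnit.{1}) (rblk X Hb c) := by
  rw [rblk, pull_blk]
  exact (blk_congr hB rfl (Equiv.ofBijective _ (f10b_neg X.l h1)) (Equiv.ofBijective _ (f10b_neg X.r h2))
    (fun i => rfl) (fun j => rfl)).symm

/-- [F10c] PROOF. `c₁ = X.l (inr *) = X.r (inr *)`. `hq Hb X = cblk X c₁ * ∏_{c ≠ c₁} cblk X c` (`finprod_eq_prod_of_fintype`, `Fintype.prod_eq_mul_prod_subtype_ne`..); the second factor is `HQ.pull inl inl (restF X)` (`cblk_rest`, `map_finprod`); the first: `blk_congr` with `{i : I ⊕ PUnit // X.l i = c₁} ≃ {i : I // X.l (inl i) = c₁} ⊕ PUnit`. -/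
theorem hq_same (hB : BB G e f Hb) (h : X.l (Sum.inr PUnit.unit) = X.r (Sum.inr PUnit.unit)) :
    hq Hb X = HQ.mk ((Hb (X.g (X.l (Sum.inr PUnit.unit))) ({i : I // X.l (Sum.inl i) = X.l (Sum.inr PUnit.unit)} ⊕ PUnit.{1})
        ({j : J // X.r (Sum.inl j) = X.l (Sum.inr PUnit.unit)} ⊕ PUnit.{1})).pull (Sum.map Subtype.val id) (Sum.map Subtype.val id)) *
      HQ.pull (Sum.inl : I → I ⊕ PUnit.{1}) (Sum.inl : J → J ⊕ PUnit.{1}) (restF X Hb) := by
  have := X.fin
  rw [hq, f10b_one (fun c => cblk Hb X c) (X.l (Sum.inr PUnit.unit))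
    (fun c => c ≠ X.l (Sum.inr PUnit.unit) ∧ c ≠ X.r (Sum.inr PUnit.unit)) (fun c => by rw [← h]; simp), restF,
    MonoidHom.map_finprod _ (Set.toFinite _)]
  congr 1
  · refine (blk_congr hB rfl (Equiv.ofBijective _ (f10b_pos X.l rfl)) (Equiv.ofBijective _ (f10b_pos X.r h.symm))
      (fun i => ?_) (fun j => ?_)).symm
    · rcases i with i | i <;> rfl
    · rcases j with j | j <;> rfl
  · exact finprod_congr fun c => cblk_rest X hB c.1 c.2.1 c.2.2

/-- [F10d] PROOF. `(X.same).C = X.C`; the block of `c₁` and the rest; `{c // c ≠ c₁ ∧ c ≠ c₁} ≃ {c // c ≠ c₁}`; the genus of `c₁` is `X.g c₁ + 1`, of `c ≠ c₁` it is `X.g c`. -/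
theorem hq_same' (h : X.l (Sum.inr PUnit.unit) = X.r (Sum.inr PUnit.unit)) :
    hq Hb X.same = HQ.mk ((Hb (X.g (X.l (Sum.inr PUnit.unit)) + 1) {i : I // X.l (Sum.inl i) = X.l (Sum.inr PUnit.unit)}
        {j : J // X.r (Sum.inl j) = X.l (Sum.inr PUnit.unit)}).pull Subtype.val Subtype.val) * restF X Hb := by
  classical
  have := X.fin
  have e1 : ∀ c : X.C, cblk Hb X.same c = blk Hb (if c = X.l (Sum.inr PUnit.unit) then X.g c + 1 else X.g c)
      (Subtype.val : {i : I // X.l (Sum.inl i) = c} → I) (Subtype.val : {j : J // X.r (Sum.inl j) = c} → J) := by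
    intro c
    unfold cblk
    congr 1
  have e2 : hq Hb X.same = ∏ᶠ c : X.C, cblk Hb X.same c := rfl
  rw [e2, f10b_one (fun c : X.C => cblk Hb X.same c) (X.l (Sum.inr PUnit.unit))
    (fun c => c ≠ X.l (Sum.inr PUnit.unit) ∧ c ≠ X.r (Sum.inr PUnit.unit)) (fun c => by rw [← h]; simp), restF]
  congr 1
  · simp only [e1, if_true]
    rfl
  · refine finprod_congr fun c => ?_
    simp only [e1, if_neg c.2.1]
    rfl

end

end Pool.Agent.MTF
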