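import Pool.Agent.MTF.F10B

/-! # MTF, part F (F10C) : glueing one circle, two components: classes before -/

namespace Pool.Agent.MTF

open scoped Classical in
theorem f10c_two {C M : Type*} [Finite C] [CommMonoid M] (f : C → M) (a b : C) (hab : a ≠ b) :
    ∏ᶠ c, f c = f a * f b * ∏ᶠ c : {c // c ≠ a ∧ c ≠ b}, f c.1 := by
  have := Fintype.ofFinite C
  rw [finprod_eq_prod_of_fintype, finprod_eq_prod_of_fintype, ← Finset.mul_prod_erase Finset.univ f (Finset.mem_univ a),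
    ← Finset.mul_prod_erase (Finset.univ.erase a) f (Finset.mem_erase.2 ⟨hab.symm, Finset.mem_univ b⟩),
    Finset.prod_subtype ((Finset.univ.erase a).erase b) (p := fun c => c ≠ a ∧ c ≠ b)
      (fun x => by rw [Finset.mem_erase, Finset.mem_erase]; simp [and_comm]) f, mul_assoc]

section
variable {G : AffGrp} {e f : G.Lie} {Hb : ∀ (g : ℕ) (I J : Type) [Finite I] [Finite J], Ham (G.pow I) (G.pow J)}
  {I J : Type} [Finite I] [Finite J]
variable (X : Cob (I ⊕ PUnit.{1}) (J ⊕ PUnit.{1}))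

/-- [F10e] PROOF. `c₁ ≠ c₂`: `hq Hb X = cblk X c₁ * cblk X c₂ * ∏_{c ≠ c₁, c₂} cblk X c`; the third factor is `HQ.pull inl inl (restF X)` (`cblk_rest`); `HQ.mk ((twoF X Hb).pull (Sum.map wI id) (Sum.map wJ id))` is the product of two blocks (`pull_box`, `pull_pull`, `HQ.mk_mul`, `pull_blk`), equal to `cblk X c₁`, `cblk X c₂` by `blk_congr`:
`{i : I ⊕ PUnit // X.l i = c₁} ≃ I₁ ⊕ PUnit`, `{j : J ⊕ PUnit // X.r j = c₁} ≃ J₁` (the circle `inr *` of `J ⊕ PUnit` is on `c₂ ≠ c₁`), `{i // X.l i = c₂} ≃ I₂`, `{j // X.r j = c₂} ≃ J₂ ⊕ PUnit`. -/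
theorem hq_merge (hB : BB G e f Hb) (h : X.l (Sum.inr PUnit.unit) ≠ X.r (Sum.inr PUnit.unit)) :
    hq Hb X = HQ.mk ((twoF X Hb).pull (Sum.map (wI X) id) (Sum.map (wJ X) id)) *
      HQ.pull (Sum.inl : I → I ⊕ PUnit.{1}) (Sum.inl : J → J ⊕ PUnit.{1}) (restF X Hb) := by
  have := X.fin
  rw [hq, f10c_two (fun c => cblk Hb X c) _ _ h, restF, MonoidHom.map_finprod _ (Set.toFinite _)]
  congr 1
  · have e1 : HQ.mk ((twoF X Hb).pull (Sum.map (wI X) id) (Sum.map (wJ X) id)) =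
        HQ.pull (Sum.map (wI X) id : (I₁ X ⊕ I₂ X) ⊕ PUnit.{1} → I ⊕ PUnit.{1})
          (Sum.map (wJ X) id : (J₁ X ⊕ J₂ X) ⊕ PUnit.{1} → J ⊕ PUnit.{1})
          (blk Hb (X.g (X.l (Sum.inr PUnit.unit))) (Sum.map Sum.inl id : I₁ X ⊕ PUnit.{1} → (I₁ X ⊕ I₂ X) ⊕ PUnit.{1})
            (Sum.inl ∘ Sum.inl : J₁ X → (J₁ X ⊕ J₂ X) ⊕ PUnit.{1}) *
          blk Hb (X.g (X.r (Sum.inr PUnit.unit))) (Sum.inl ∘ Sum.inr : I₂ X → (I₁ X ⊕ I₂ X) ⊕ PUnit.{1})
            (Sum.map Sum.inr id : J₂ X ⊕ PUnit.{1} → (J₁ X ⊕ J₂ X) ⊕ PUnit.{1})) := rfl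
    rw [e1, map_mul, pull_blk, pull_blk]
    congr 1
    · refine (blk_congr hB rfl (Equiv.ofBijective _ (f10b_pos X.l rfl)) (Equiv.ofBijective _ (f10b_neg X.r h))
        (fun i => ?_) (fun j => rfl)).symm
      rcases i with i | i <;> rfl
    · refine (blk_congr hB rfl (Equiv.ofBijective _ (f10b_neg X.l h.symm)) (Equiv.ofBijective _ (f10b_pos X.r rfl))
        (fun i => rfl) (fun j => ?_)).symm
      rcases j with j | j <;> rfl
  · exact finprod_congr fun c => cblk_rest X hB c.1 c.2.1 c.2.2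

end

end Pool.Agent.MTF
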