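import Pool.Agent.MTF.F10Z

/-! # MTF, part F (F10D) : glueing one circle, two components: classes after -/

set_option linter.unusedSectionVars false

namespace Pool.Agent.MTF

section
variable {G : AffGrp} {e f : G.Lie} {Hb : ∀ (g : ℕ) (I J : Type) [Finite I] [Finite J], Ham (G.pow I) (G.pow J)}
  {I J : Type} [Finite I] [Finite J]
variable (X : Cob (I ⊕ PUnit.{1}) (J ⊕ PUnit.{1}))

theorem f10d_l1 (h : X.l (Sum.inr PUnit.unit) ≠ X.r (Sum.inr PUnit.unit)) (i : I)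
    (hc : X.l (Sum.inl i) ≠ X.r (Sum.inr PUnit.unit)) : ((X.merge h).l i).1 = X.l (Sum.inl i) := by
  unfold Cob.merge
  dsimp only
  rw [dif_pos hc]

theorem f10d_l2 (h : X.l (Sum.inr PUnit.unit) ≠ X.r (Sum.inr PUnit.unit)) (i : I)
    (hc : X.l (Sum.inl i) = X.r (Sum.inr PUnit.unit)) :
    ((X.merge h).l i).1 = X.l (Sum.inr PUnit.unit) := by
  unfold Cob.merge
  dsimp only
  rw [dif_neg (not_not.2 hc)]

theorem f10d_r1 (h : X.l (Sum.inr PUnit.unit) ≠ X.r (Sum.inr PUnit.unit)) (i : J)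
    (hc : X.r (Sum.inl i) ≠ X.r (Sum.inr PUnit.unit)) : ((X.merge h).r i).1 = X.r (Sum.inl i) := by
  unfold Cob.merge
  dsimp only
  rw [dif_pos hc]

theorem f10d_r2 (h : X.l (Sum.inr PUnit.unit) ≠ X.r (Sum.inr PUnit.unit)) (i : J)
    (hc : X.r (Sum.inl i) = X.r (Sum.inr PUnit.unit)) :
    ((X.merge h).r i).1 = X.l (Sum.inr PUnit.unit) := by
  unfold Cob.merge
  dsimp only
  rw [dif_neg (not_not.2 hc)]

theorem f10d_g1 (h : X.l (Sum.inr PUnit.unit) ≠ X.r (Sum.inr PUnit.unit)) (c : (X.merge h).C)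
    (hc : c.1 = X.l (Sum.inr PUnit.unit)) : (X.merge h).g c = X.g (X.l (Sum.inr PUnit.unit)) +
      X.g (X.r (Sum.inr PUnit.unit)) := if_pos hc

theorem f10d_g2 (h : X.l (Sum.inr PUnit.unit) ≠ X.r (Sum.inr PUnit.unit)) (c : (X.merge h).C)
    (hc : c.1 ≠ X.l (Sum.inr PUnit.unit)) : (X.merge h).g c = X.g c.1 := if_neg hc

theorem f10d_eq {C : Type} (c₁ c₂ x y : C) (h1 : x ≠ c₂ → y = x) (h2 : x = c₂ → y = c₁) :
    y = c₁ ↔ x = c₁ ∨ x = c₂ := by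
  by_cases hx : x = c₂
  · rw [h2 hx]
    simp [hx]
  · rw [h1 hx]
    simp [hx]

theorem f10d_eq' {C : Type} (c₁ c₂ x y c : C) (h1 : x ≠ c₂ → y = x) (h2 : x = c₂ → y = c₁)
    (h3 : c ≠ c₁) (h4 : c ≠ c₂) : y = c ↔ x = c := by
  by_cases hx : x = c₂
  · rw [h2 hx]
    constructor
    · intro h
      exact absurd h.symm h3
    · intro h
      exact absurd (h.symm.trans hx) h4
  · rw [h1 hx]

/-- the circles of the joined component -/
noncomputable def f10d_e {I C : Type} (l : I → C) (c₁ c₂ : C) (h : c₁ ≠ c₂) (P : I → Prop)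
    (hP : ∀ i, P i ↔ l i = c₁ ∨ l i = c₂) : {i // l i = c₁} ⊕ {i // l i = c₂} ≃ {i // P i} :=
  Equiv.ofBijective (Sum.elim (fun i => ⟨i.1, (hP _).2 (Or.inl i.2)⟩) (fun i => ⟨i.1, (hP _).2 (Or.inr i.2)⟩)) (by
    constructor
    · rintro (⟨i, hi⟩ | ⟨i, hi⟩) (⟨j, hj⟩ | ⟨j, hj⟩) hij
      · have h1 : i = j := congrArg Subtype.val hij
        subst h1
        rfl
      · have h1 : i = j := congrArg Subtype.val hij
        subst h1
        exact absurd (hi.symm.trans hj) h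
      · have h1 : i = j := congrArg Subtype.val hij
        subst h1
        exact absurd (hj.symm.trans hi) h
      · have h1 : i = j := congrArg Subtype.val hij
        subst h1
        rfl
    · rintro ⟨i, hi⟩
      rcases (hP i).1 hi with h1 | h1
      · exact ⟨Sum.inl ⟨i, h1⟩, rfl⟩
      · exact ⟨Sum.inr ⟨i, h1⟩, rfl⟩)

theorem f10d_e_val {I C : Type} (l : I → C) (c₁ c₂ : C) (h : c₁ ≠ c₂) (P : I → Prop)
    (hP : ∀ i, P i ↔ l i = c₁ ∨ l i = c₂) (x : {i // l i = c₁} ⊕ {i // l i = c₂}) :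
    (f10d_e l c₁ c₂ h P hP x).1 = Sum.elim Subtype.val Subtype.val x := by
  rcases x with x | x <;> rfl

/-- splitting off one factor -/
theorem f10d_split {C M : Type*} [Finite C] [CommMonoid M] (F : C → M) (a : C) :
    ∏ᶠ c, F c = F a * ∏ᶠ c : {c // c ≠ a}, F c.1 := by
  rw [← mul_finprod_cond_ne a (Set.toFinite _), finprod_subtype_eq_finprod_cond (fun c => c ≠ a)]

/-- [F10f] PROOF. `Z = X.merge h`, `Z.C = {c // c ≠ c₂}`: the component `c₁` (genus `g c₁ + g c₂`, circles `{i : I // Z.l i = c₁} ≃ I₁ ⊕ I₂`: `X.l (inl i) = c₁` or `= c₂`) and the others, `{c : Z.C // c ≠ c₁} ≃ {c : X.C // c ≠ c₁ ∧ c ≠ c₂}`, with `Z.l i = c ↔ X.l (inl i) = c`; `blk_congr`. -/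
theorem hq_merge' (hB : BB G e f Hb) (h : X.l (Sum.inr PUnit.unit) ≠ X.r (Sum.inr PUnit.unit)) :
    hq Hb (X.merge h) = HQ.mk ((Hb (X.g (X.l (Sum.inr PUnit.unit)) + X.g (X.r (Sum.inr PUnit.unit))) (I₁ X ⊕ I₂ X) (J₁ X ⊕ J₂ X)).pull
        (wI X) (wJ X)) * restF X Hb := by
  have hgen : ∀ i, ((X.merge h).l i = (⟨X.l (Sum.inr PUnit.unit), h⟩ : (X.merge h).C)) ↔
      X.l (Sum.inl i) = X.l (Sum.inr PUnit.unit) ∨ X.l (Sum.inl i) = X.r (Sum.inr PUnit.unit) := by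
    intro i
    rw [← f10d_eq _ _ _ _ (f10d_l1 X h i) (f10d_l2 X h i)]
    exact Subtype.ext_iff
  have hgen' : ∀ j, ((X.merge h).r j = (⟨X.l (Sum.inr PUnit.unit), h⟩ : (X.merge h).C)) ↔
      X.r (Sum.inl j) = X.l (Sum.inr PUnit.unit) ∨ X.r (Sum.inl j) = X.r (Sum.inr PUnit.unit) := by
    intro j
    rw [← f10d_eq _ _ _ _ (f10d_r1 X h j) (f10d_r2 X h j)]
    exact Subtype.ext_iff
  have h1 : cblk Hb (X.merge h) ⟨X.l (Sum.inr PUnit.unit), h⟩ =
      HQ.mk ((Hb (X.g (X.l (Sum.inr PUnit.unit)) + X.g (X.r (Sum.inr PUnit.unit))) (I₁ X ⊕ I₂ X)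
        (J₁ X ⊕ J₂ X)).pull (wI X) (wJ X)) := by
    refine (blk_congr hB ?_ (f10d_e (fun i => X.l (Sum.inl i)) _ _ h _ hgen)
      (f10d_e (fun j => X.r (Sum.inl j)) _ _ h _ hgen') ?_ ?_).symm
    · exact (f10d_g1 X h _ rfl).symm
    · intro i
      exact f10d_e_val _ _ _ h _ hgen i
    · intro j
      exact f10d_e_val _ _ _ h _ hgen' j
  have h2 : ∏ᶠ c : {c : (X.merge h).C // c ≠ ⟨X.l (Sum.inr PUnit.unit), h⟩}, cblk Hb (X.merge h) c.1 =
      restF X Hb := by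
    unfold restF
    refine finprod_eq_of_bijective (fun c => ⟨c.1.1, fun h3 => c.2 (Subtype.ext h3), c.1.2⟩) ⟨?_, ?_⟩ ?_
    · rintro ⟨⟨c, hc⟩, hc'⟩ ⟨⟨d, hd⟩, hd'⟩ hcd
      have h3 : c = d := congrArg Subtype.val hcd
      subst h3
      rfl
    · rintro ⟨c, hc1, hc2⟩
      exact ⟨⟨⟨c, hc2⟩, fun h3 => hc1 (congrArg Subtype.val h3)⟩, rfl⟩
    · rintro ⟨⟨c, hc⟩, hc'⟩
      have hc1 : c ≠ X.l (Sum.inr PUnit.unit) := fun h3 => hc' (Subtype.ext h3)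
      refine blk_congr hB ?_
        (Equiv.subtypeEquivRight fun i => ?_) (Equiv.subtypeEquivRight fun j => ?_) ?_ ?_
      · exact f10d_g2 X h _ hc1
      · rw [← f10d_eq' _ _ _ _ c (f10d_l1 X h i) (f10d_l2 X h i) hc1 hc]
        exact Subtype.ext_iff
      · rw [← f10d_eq' _ _ _ _ c (f10d_r1 X h j) (f10d_r2 X h j) hc1 hc]
        exact Subtype.ext_iff
      · intro i
        rfl
      · intro j
        rfl
  unfold hq
  rw [f10d_split (fun c => cblk Hb (X.merge h) c) (⟨X.l (Sum.inr PUnit.unit), h⟩ : (X.merge h).C), h1, h2]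

end

end Pool.Agent.MTF
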