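import Pool.Agent.MTF.F3

/-! # MTF, part F (F4B) : reductions and relabelling -/

namespace Pool.Agent.MTF

open TensorProduct

section
variable {G : AffGrp} {I J E : Type} [Finite I] [Finite J] [Finite E]

/-- [F4b] restriction of the other legs. PROOF. `(P.pull (Sum.map u id) (Sum.map v id)).A = P.A`, with the action `ract P' g k h = ract P (g ∘ u) (k ∘ v) h` (`Sum.elim g h ∘ Sum.map u id = Sum.elim (g ∘ u) h`) and `rμ P' d = rμ P d` (`AffGrp.lmap_pl`: `Sum.elim 0 d ∘ Sum.map u id = Sum.elim 0 d`), so `rI`, `rinv` are the same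
(as sets); the same `φ`. The moment maps: `lmap (Sum.map u id) (pl (Sum.elim d 0)) = pl (Sum.elim (d ∘ u) 0)`, `lmap u (pl d) = pl (d ∘ u)`. -/
theorem IsRed.pull {I' J' : Type} [Finite I'] [Finite J'] {P : Ham (G.pow (I ⊕ E)) (G.pow (J ⊕ E))} {Q : Ham (G.pow I) (G.pow J)}
    (h : IsRed P Q) (u : I → I') (v : J → J') : IsRed (P.pull (Sum.map u id) (Sum.map v id)) (Q.pull u v) := by
  obtain ⟨φ, h1, h2, h3, h4, h5, h6⟩ := h.ex
  have hl : ∀ (K K' : Type) [Finite K] [Finite K'] (w : K → K') (d : E → G.Lie),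
      G.lmap (Sum.map w id : K ⊕ E → K' ⊕ E) (G.pl (Sum.elim (0 : K' → G.Lie) d)) =
        G.pl (Sum.elim (0 : K → G.Lie) d) := by
    intro K K' _ _ w d
    rw [AffGrp.lmap_pl]
    congr 1
    funext x
    cases x <;> rfl
  have hl' : ∀ (K K' : Type) [Finite K] [Finite K'] (w : K → K') (d : K' → G.Lie),
      G.lmap (Sum.map w id : K ⊕ E → K' ⊕ E) (G.pl (Sum.elim d (0 : E → G.Lie))) =
        G.pl (Sum.elim (d ∘ w) (0 : E → G.Lie)) := by
    intro K K' _ _ w d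
    rw [AffGrp.lmap_pl]
    congr 1
    funext x
    cases x <;> rfl
  have hμ : ∀ d, (rμ (P.pull (Sum.map u id) (Sum.map v id)) d : P.A) = rμ P d := by
    intro d
    show P.μ (G.lmap (Sum.map u id) (G.pl (Sum.elim 0 d))) -
      P.ν (G.lmap (Sum.map v id) (G.pl (Sum.elim 0 d))) = P.μ _ - P.ν _
    rw [hl, hl]
  have hr : ∀ (g : I' → G.X) (k : J' → G.X) (x : E → G.X) (a : P.A),
      (ract (P.pull (Sum.map u id) (Sum.map v id)) g k x a : P.A) =
        ract P (g ∘ u) (k ∘ v) x a := by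
    intro g k x a
    have e1 : ∀ (K K' : Type) (w : K → K') (g : K' → G.X),
        (fun i => (Sum.elim g x : K' ⊕ E → G.X) ((Sum.map w id : K ⊕ E → K' ⊕ E) i)) =
          (Sum.elim (g ∘ w) x : K ⊕ E → G.X) := by
      intro K K' w g
      funext i
      cases i <;> rfl
    show P.act ((fun i => (Sum.elim g x : I' ⊕ E → G.X) ((Sum.map u id : I ⊕ E → I' ⊕ E) i)),
      (fun i => (Sum.elim k x : J' ⊕ E → G.X) ((Sum.map v id : J ⊕ E → J' ⊕ E) i))) a =
        P.act (Sum.elim (g ∘ u) x, Sum.elim (k ∘ v) x) a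
    rw [e1, e1]
  have hI : (rI (P.pull (Sum.map u id) (Sum.map v id)) : Ideal P.A) = rI P := by
    have h7 : (fun d => (rμ (P.pull (Sum.map u id) (Sum.map v id)) d : P.A)) = fun d => rμ P d :=
      funext hμ
    show Ideal.span (Set.range fun d => (rμ (P.pull (Sum.map u id) (Sum.map v id)) d : P.A)) =
      Ideal.span (Set.range fun d => rμ P d)
    rw [h7]
    rfl
  have hS : (rinv (P.pull (Sum.map u id) (Sum.map v id)) : Subalgebra ℂ P.A) = rinv P := by
    apply Subalgebra.ext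
    intro (a : P.A)
    have h7 : ∀ x, (show P.A from ract (P.pull (Sum.map u id) (Sum.map v id)) 1 1 x a) - a ∈
        (rI (P.pull (Sum.map u id) (Sum.map v id)) : Ideal P.A) ↔
          ract P 1 1 x a - a ∈ rI P := by
      intro x
      rw [hI, hr]
      exact Iff.rfl
    exact ⟨fun h8 x => (h7 x).1 (h8 x), fun h8 x => (h7 x).2 (h8 x)⟩
  refine isRed_mk (P.pull (Sum.map u id) (Sum.map v id)) (Q.pull u v)
    (φ.comp (Subalgebra.inclusion (le_of_eq hS))) ?_ ?_ ?_ ?_ ?_ ?_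
  · intro q
    obtain ⟨a, ha⟩ := h1 q
    exact ⟨⟨a.1, (le_of_eq hS.symm) a.2⟩, ha⟩
  · intro a
    have h7 := h2 (Subalgebra.inclusion (le_of_eq hS) a)
    refine h7.trans ?_
    show (a.1 : P.A) ∈ rI P ↔ (a.1 : P.A) ∈ (rI (P.pull (Sum.map u id) (Sum.map v id)) : Ideal P.A)
    rw [hI]
    exact Iff.rfl
  · intro a b c hc
    exact h3 (Subalgebra.inclusion (le_of_eq hS) a) (Subalgebra.inclusion (le_of_eq hS) b)
      (Subalgebra.inclusion (le_of_eq hS) c) hc
  · intro g k a b hab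
    exact h4 (g ∘ u) (k ∘ v) (Subalgebra.inclusion (le_of_eq hS) a)
      (Subalgebra.inclusion (le_of_eq hS) b) (hab.trans (hr g k 1 a.1))
  · intro d a had
    have h7 := h5 (d ∘ u) (Subalgebra.inclusion (le_of_eq hS) a)
      (had.trans (congrArg P.μ (hl' I I' u d)))
    refine h7.trans ?_
    show Q.μ (G.pl (d ∘ u)) = Q.μ (G.lmap u (G.pl d))
    rw [AffGrp.lmap_pl]
  · intro d a had
    have h7 := h6 (d ∘ v) (Subalgebra.inclusion (le_of_eq hS) a)
      (had.trans (congrArg P.ν (hl' J J' v d)))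
    refine h7.trans ?_
    show Q.ν (G.pl (d ∘ v)) = Q.ν (G.lmap v (G.pl d))
    rw [AffGrp.lmap_pl]

/-- [F4c] relabelling of `E`. PROOF. As `IsRed.pull`: `ract P' g k h = ract P g k (h ∘ a)`, `rμ P' d = rμ P (d ∘ a)`; `a` is a bijection, so the spans and the invariants are the same. -/
theorem IsRed.reindex {E' : Type} [Finite E'] {P : Ham (G.pow (I ⊕ E)) (G.pow (J ⊕ E))} {Q : Ham (G.pow I) (G.pow J)}
    (h : IsRed P Q) (a : E ≃ E') : IsRed (P.pull (Sum.map id a : I ⊕ E → I ⊕ E') (Sum.map id a : J ⊕ E → J ⊕ E')) Q := by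
  obtain ⟨φ, h1, h2, h3, h4, h5, h6⟩ := h.ex
  have hl : ∀ (K : Type) [Finite K] (d : E' → G.Lie),
      G.lmap (Sum.map id a : K ⊕ E → K ⊕ E') (G.pl (Sum.elim (0 : K → G.Lie) d)) =
        G.pl (Sum.elim (0 : K → G.Lie) (d ∘ a)) := by
    intro K _ d
    rw [AffGrp.lmap_pl]
    congr 1
    funext x
    cases x <;> rfl
  have hl' : ∀ (K : Type) [Finite K] (d : K → G.Lie),
      G.lmap (Sum.map id a : K ⊕ E → K ⊕ E') (G.pl (Sum.elim d (0 : E' → G.Lie))) =
        G.pl (Sum.elim d (0 : E → G.Lie)) := by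
    intro K _ d
    rw [AffGrp.lmap_pl]
    congr 1
    funext x
    cases x <;> rfl
  have hμ : ∀ d : E' → G.Lie, (rμ (P.pull (Sum.map id a : I ⊕ E → I ⊕ E')
      (Sum.map id a : J ⊕ E → J ⊕ E')) d : P.A) = rμ P (d ∘ a) := by
    intro d
    show P.μ (G.lmap (Sum.map id a) (G.pl (Sum.elim 0 d))) -
      P.ν (G.lmap (Sum.map id a) (G.pl (Sum.elim 0 d))) = P.μ _ - P.ν _
    rw [hl, hl]
  have hr : ∀ (g : I → G.X) (k : J → G.X) (x : E' → G.X) (b : P.A),
      (ract (P.pull (Sum.map id a : I ⊕ E → I ⊕ E') (Sum.map id a : J ⊕ E → J ⊕ E')) g k x b :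
        P.A) = ract P g k (x ∘ a) b := by
    intro g k x b
    have e1 : ∀ (K : Type) (g : K → G.X),
        (fun i => (Sum.elim g x : K ⊕ E' → G.X) ((Sum.map id a : K ⊕ E → K ⊕ E') i)) =
          (Sum.elim g (x ∘ a) : K ⊕ E → G.X) := by
      intro K g
      funext i
      cases i <;> rfl
    show P.act ((fun i => (Sum.elim g x : I ⊕ E' → G.X) ((Sum.map id a : I ⊕ E → I ⊕ E') i)),
      (fun i => (Sum.elim k x : J ⊕ E' → G.X) ((Sum.map id a : J ⊕ E → J ⊕ E') i))) b =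
        P.act (Sum.elim g (x ∘ a), Sum.elim k (x ∘ a)) b
    rw [e1, e1]
  have hI : (rI (P.pull (Sum.map id a : I ⊕ E → I ⊕ E') (Sum.map id a : J ⊕ E → J ⊕ E')) :
      Ideal P.A) = rI P := by
    have h7 : Set.range (fun d : E' → G.Lie => (rμ (P.pull (Sum.map id a : I ⊕ E → I ⊕ E')
        (Sum.map id a : J ⊕ E → J ⊕ E')) d : P.A)) = Set.range fun d => rμ P d := by
      ext x
      constructor
      · rintro ⟨d, rfl⟩
        exact ⟨d ∘ a, (hμ d).symm⟩
      · rintro ⟨d, rfl⟩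
        refine ⟨d ∘ a.symm, (hμ _).trans ?_⟩
        have h8 : (d ∘ a.symm) ∘ a = d := funext fun i => congrArg d (a.symm_apply_apply i)
        rw [h8]
    show Ideal.span (Set.range (fun d : E' → G.Lie => (rμ (P.pull (Sum.map id a : I ⊕ E → I ⊕ E')
        (Sum.map id a : J ⊕ E → J ⊕ E')) d : P.A))) = Ideal.span (Set.range fun d => rμ P d)
    rw [h7]
    rfl
  have hS : (rinv (P.pull (Sum.map id a : I ⊕ E → I ⊕ E') (Sum.map id a : J ⊕ E → J ⊕ E')) :
      Subalgebra ℂ P.A) = rinv P := by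
    apply Subalgebra.ext
    intro (b : P.A)
    have h7 : ∀ x : E' → G.X, (show P.A from ract (P.pull (Sum.map id a : I ⊕ E → I ⊕ E')
        (Sum.map id a : J ⊕ E → J ⊕ E')) 1 1 x b) - b ∈
        (rI (P.pull (Sum.map id a : I ⊕ E → I ⊕ E') (Sum.map id a : J ⊕ E → J ⊕ E')) :
          Ideal P.A) ↔ ract P 1 1 (x ∘ a) b - b ∈ rI P := by
      intro x
      rw [hI, hr]
      exact Iff.rfl
    refine ⟨fun h8 x => ?_, fun h8 x => (h7 x).2 (h8 (x ∘ a))⟩
    have h9 := (h7 (x ∘ a.symm)).1 (h8 (x ∘ a.symm))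
    have h10 : (x ∘ a.symm) ∘ a = x := funext fun i => congrArg x (a.symm_apply_apply i)
    rw [h10] at h9
    exact h9
  refine isRed_mk (P.pull (Sum.map id a : I ⊕ E → I ⊕ E') (Sum.map id a : J ⊕ E → J ⊕ E')) Q
    (φ.comp (Subalgebra.inclusion (le_of_eq hS))) ?_ ?_ ?_ ?_ ?_ ?_
  · intro q
    obtain ⟨b, hb⟩ := h1 q
    exact ⟨⟨b.1, (le_of_eq hS.symm) b.2⟩, hb⟩
  · intro b
    have h7 := h2 (Subalgebra.inclusion (le_of_eq hS) b)
    refine h7.trans ?_
    show (b.1 : P.A) ∈ rI P ↔ (b.1 : P.A) ∈ (rI (P.pull (Sum.map id a : I ⊕ E → I ⊕ E')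
      (Sum.map id a : J ⊕ E → J ⊕ E')) : Ideal P.A)
    rw [hI]
    exact Iff.rfl
  · intro b b' c hc
    exact h3 (Subalgebra.inclusion (le_of_eq hS) b) (Subalgebra.inclusion (le_of_eq hS) b')
      (Subalgebra.inclusion (le_of_eq hS) c) hc
  · intro g k b b' hab
    exact h4 g k (Subalgebra.inclusion (le_of_eq hS) b)
      (Subalgebra.inclusion (le_of_eq hS) b') (hab.trans (hr g k 1 b.1))
  · intro d b hbd
    exact h5 d (Subalgebra.inclusion (le_of_eq hS) b) (hbd.trans (congrArg P.μ (hl' I d)))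
  · intro d b hbd
    exact h6 d (Subalgebra.inclusion (le_of_eq hS) b) (hbd.trans (congrArg P.ν (hl' J d)))

end

end Pool.Agent.MTF
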