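import Pool.Agent.MTF.F3

/-! # MTF, part F (F4C) : the empty reduction -/

namespace Pool.Agent.MTF

open TensorProduct

section
variable {G : AffGrp} {I J E : Type} [Finite I] [Finite J] [Finite E]

/-- [F4d] nothing to reduce. PROOF. `E → G.Lie` has one element, `0`, so `rμ P = 0` (`map_zero`), `rI P = ⊥`; `h : E → G.X` is unique, `= 1`, so `rinv P = ⊤`. `φ` = the inclusion `rinv P → P.A`. -/
theorem isRed_empty [IsEmpty E] (P : Ham (G.pow (I ⊕ E)) (G.pow (J ⊕ E))) :
    IsRed P (P.pull (Sum.elim id isEmptyElim : I ⊕ E → I) (Sum.elim id isEmptyElim : J ⊕ E → J)) := by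
  have hI : ∀ a : P.A, a ∈ rI P ↔ a = 0 := by
    intro a
    have h1 : rI P = ⊥ := by
      unfold rI
      rw [Ideal.span_eq_bot]
      rintro _ ⟨d, rfl⟩
      have h2 : d = 0 := Subsingleton.elim _ _
      rw [h2, map_zero]
    rw [h1, Ideal.mem_bot]
  have hinv : ∀ a : P.A, a ∈ rinv P := by
    intro a h
    have h2 : h = 1 := Subsingleton.elim _ _
    rw [h2, ract_one, sub_self]
    exact Ideal.zero_mem _
  have f4c_elim : ∀ {K Z : Type} (d : K → Z) (z : E → Z),
      (Sum.elim d z : K ⊕ E → Z) = d ∘ (Sum.elim id isEmptyElim : K ⊕ E → K) := by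
    intro K Z d z
    funext x
    rcases x with x | x
    · rfl
    · exact isEmptyElim x
  refine isRed_mk P _ (rinv P).val ?_ ?_ ?_ ?_ ?_ ?_
  · intro a
    exact ⟨⟨a, hinv a⟩, rfl⟩
  · intro a
    exact (hI a.1).symm
  · intro a b c h
    exact h
  · intro g k a b h
    refine h.trans ?_
    show P.act (Sum.elim g 1, Sum.elim k 1) a.1 =
      P.act (g ∘ (Sum.elim id isEmptyElim : I ⊕ E → I), k ∘ (Sum.elim id isEmptyElim : J ⊕ E → J)) a.1
    rw [f4c_elim g 1, f4c_elim k 1]
  · intro d a h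
    refine h.trans ?_
    show _ = P.μ (G.lmap (Sum.elim id isEmptyElim : I ⊕ E → I) (G.pl d))
    rw [AffGrp.lmap_pl, f4c_elim d 0]
  · intro d a h
    refine h.trans ?_
    show _ = P.ν (G.lmap (Sum.elim id isEmptyElim : J ⊕ E → J) (G.pl d))
    rw [AffGrp.lmap_pl, f4c_elim d 0]

end

end Pool.Agent.MTF
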