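import Pool.Agent.MTF.F9Z

/-! # MTF, part F (F9B) : glueing one circle, same component -/

namespace Pool.Agent.MTF

namespace Cob

theorem f9b_to {I J E : Type} (X : Cob (I ⊕ Option E) (J ⊕ Option E))
    (a b : X.C) (h : X.os.same.TGlue a b) : Quot.mk X.TGlue a = Quot.mk X.TGlue b := by
  obtain ⟨e, h1, h2⟩ := h
  exact Quot.sound ⟨some e, h1, h2⟩

theorem f9b_from {I J E : Type} (X : Cob (I ⊕ Option E) (J ⊕ Option E))
    (h : X.os.l (Sum.inr PUnit.unit) = X.os.r (Sum.inr PUnit.unit))
    (a b : X.C) (hab : X.TGlue a b) : (Quot.mk X.os.same.TGlue a : Quot X.os.same.TGlue) = Quot.mk X.os.same.TGlue b := by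
  obtain ⟨e, h1, h2⟩ := hab
  cases e with
  | none =>
    have h3 : a = b := by rw [h1, h2]; exact h
    rw [h3]
  | some e => exact Quot.sound ⟨e, h1, h2⟩

theorem f9b_opt {E : Type} [Finite E] (P : Option E → Prop) [Decidable (P none)] :
    Nat.card {e : Option E // P e} = Nat.card {e : E // P (some e)} + if P none then 1 else 0 := by
  classical
  haveI := Fintype.ofFinite E
  rw [Nat.card_eq_fintype_card, Nat.card_eq_fintype_card, Fintype.card_subtype, Fintype.card_subtype,
    Finset.card_filter, Finset.card_filter, Fintype.sum_option, add_comm]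
  congr 1
  split_ifs <;> rfl

/-- the comparison of the two quotients -/
def f9b_e {I J E : Type} (X : Cob (I ⊕ Option E) (J ⊕ Option E))
    (h : X.os.l (Sum.inr PUnit.unit) = X.os.r (Sum.inr PUnit.unit)) : Quot X.os.same.TGlue ≃ Quot X.TGlue where
  toFun := Quot.lift (fun a : X.C => Quot.mk X.TGlue a) (f9b_to X)
  invFun := Quot.lift (fun a : X.C => (Quot.mk X.os.same.TGlue a : Quot X.os.same.TGlue)) (f9b_from X h)
  left_inv c := by induction c using Quot.ind; rfl
  right_inv c := by induction c using Quot.ind; rfl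

/-- [F9d] PROOF. `X.os.l (inr *) = X.l (inr none)`. `(same X.os).C = X.C`, and the relation `TGlue` of `X` is that of `same X.os` together with `c₁ ~ c₁` (`c₁ = X.l (inr none) = X.r (inr none)`), so the quotients are the same (`Quot.congr (Equiv.refl _)` needs the relations equivalent: use two maps `Quot.map id`/`Quot.lift`; or `Quot.eqvGen_exact`).
Genus of a class `c`: the sum of `g` increases by `1` iff `c₁ ∈ c`; `#{e : E}` + `[c₁ ∈ c]` `= #{e : Option E}` in the class; the number of components in the class is the same. -/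
theorem tr_same {I J E : Type} [Finite E] (X : Cob (I ⊕ Option E) (J ⊕ Option E))
    (h : X.os.l (Sum.inr PUnit.unit) = X.os.r (Sum.inr PUnit.unit)) : X.os.same.tr.Iso X.tr := by
  classical
  refine ⟨f9b_e X h, fun i => rfl, fun j => rfl, fun c => ?_⟩
  have hmk : ∀ (a : X.C), (Quot.mk X.TGlue a = f9b_e X h c) ↔ ((Quot.mk X.os.same.TGlue a : Quot X.os.same.TGlue) = c) := by
    intro a
    have : f9b_e X h (Quot.mk X.os.same.TGlue a) = Quot.mk X.TGlue a := rfl
    rw [← this, (f9b_e X h).injective.eq_iff]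
  have hS : {a : X.C | Quot.mk X.TGlue a = f9b_e X h c} = {a : X.C | (Quot.mk X.os.same.TGlue a : Quot X.os.same.TGlue) = c} :=
    Set.ext hmk
  set S : Set X.C := {a : X.C | (Quot.mk X.os.same.TGlue a : Quot X.os.same.TGlue) = c} with hSd
  have hSfin : S.Finite := Set.toFinite S
  -- the sum
  have hsum : (∑ᶠ a ∈ S, X.os.same.g a) = (∑ᶠ a ∈ S, X.g a) + if X.l (Sum.inr none) ∈ S then 1 else 0 := by
    have hg : ∀ a : X.C, X.os.same.g a = X.g a + if a = X.l (Sum.inr none) then 1 else 0 := by
      intro a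
      change (if a = X.l (Sum.inr none) then X.g a + 1 else X.g a) = _
      split_ifs <;> rfl
    rw [finsum_mem_congr rfl (fun a _ => hg a), finsum_mem_add_distrib hSfin]
    congr 1
    rw [finsum_mem_eq_finite_toFinset_sum _ hSfin, Finset.sum_ite_eq' ]
    simp only [Set.Finite.mem_toFinset]
  -- the circles
  have hE : Nat.card {e : Option E // Quot.mk X.TGlue (X.l (Sum.inr e)) = f9b_e X h c} =
      Nat.card {e : E // (Quot.mk X.os.same.TGlue (X.os.same.l (Sum.inr e)) : Quot X.os.same.TGlue) = c} +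
        if X.l (Sum.inr none) ∈ S then 1 else 0 := by
    have h1 := f9b_opt (fun e : Option E => (Quot.mk X.os.same.TGlue (X.l (Sum.inr e)) : Quot X.os.same.TGlue) = c)
    rw [Nat.card_congr (Equiv.subtypeEquivRight (fun e : Option E => hmk (X.l (Sum.inr e))))]
    exact h1
  have hC : Nat.card {a : X.C // Quot.mk X.TGlue a = f9b_e X h c} =
      Nat.card {a : X.C // (Quot.mk X.os.same.TGlue a : Quot X.os.same.TGlue) = c} :=
    Nat.card_congr (Equiv.subtypeEquivRight hmk)
  change (∑ᶠ a ∈ {a : X.C | Quot.mk X.TGlue a = f9b_e X h c}, X.g a) +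
    Nat.card {e : Option E // Quot.mk X.TGlue (X.l (Sum.inr e)) = f9b_e X h c} + 1 -
    Nat.card {a : X.C // Quot.mk X.TGlue a = f9b_e X h c} =
    (∑ᶠ a ∈ S, X.os.same.g a) + Nat.card {e : E // (Quot.mk X.os.same.TGlue (X.os.same.l (Sum.inr e)) : Quot X.os.same.TGlue) = c} + 1 -
    Nat.card {a : X.C // (Quot.mk X.os.same.TGlue a : Quot X.os.same.TGlue) = c}
  rw [hS, hC, hE, hsum]
  omega

end Cob

end Pool.Agent.MTF
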