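import Pool.Agent.MTF.F9Z

/-! # MTF, part F (F9C) : glueing one circle, two components -/

namespace Pool.Agent.MTF

namespace Cob

open Classical in
theorem f9c_card {α : Type} [Finite α] (P : α → Prop) (a₀ : α) :
    Nat.card {a : α // P a} = Nat.card {b : {b : α // b ≠ a₀} // P b.1} + (if P a₀ then 1 else 0) := by
  have := Fintype.ofFinite α
  rw [Nat.card_eq_fintype_card, Nat.card_eq_fintype_card, Fintype.card_subtype, Fintype.card_subtype,
    Finset.card_filter, Finset.card_filter, ← Equiv.sum_comp (Equiv.optionSubtypeNe a₀), Fintype.sum_option, add_comm]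
  rfl

open Classical in
theorem f9c_cardO {E : Type} [Finite E] (P : Option E → Prop) :
    Nat.card {a : Option E // P a} = Nat.card {b : E // P (some b)} + (if P none then 1 else 0) := by
  have := Fintype.ofFinite E
  rw [Nat.card_eq_fintype_card, Nat.card_eq_fintype_card, Fintype.card_subtype, Fintype.card_subtype,
    Finset.card_filter, Finset.card_filter, Fintype.sum_option, add_comm]

open Classical in
theorem f9c_fs {α : Type} [Fintype α] (P : α → Prop) (f : α → ℕ) :
    (∑ᶠ a ∈ {a | P a}, f a) = ∑ a : α, if P a then f a else 0 := by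
  rw [finsum_mem_def, finsum_eq_sum_of_fintype]
  refine Finset.sum_congr rfl fun a _ => ?_
  simp only [Set.indicator_apply, Set.mem_ofPred_eq]

open Classical in
theorem f9c_sum {α : Type} [Finite α] (P : α → Prop) (c₁ c₂ : α) (h : c₁ ≠ c₂) (h12 : P c₁ ↔ P c₂) (f : α → ℕ) :
    (∑ᶠ a ∈ {a | P a}, f a) =
      ∑ᶠ b ∈ {b : {b : α // b ≠ c₂} | P b.1}, if b.1 = c₁ then f c₁ + f c₂ else f b.1 := by
  have := Fintype.ofFinite α
  rw [f9c_fs, f9c_fs, ← Equiv.sum_comp (Equiv.optionSubtypeNe c₂), Fintype.sum_option]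
  have e1 : ∀ b : {b : α // b ≠ c₂}, (if P b.1 then (if b.1 = c₁ then f c₁ + f c₂ else f b.1) else 0) =
      (if P b.1 then f b.1 else 0) + (if b = (⟨c₁, h⟩ : {b : α // b ≠ c₂}) then (if P c₁ then f c₂ else 0) else 0) := by
    intro b
    by_cases hb : b.1 = c₁
    · have hb' : b = (⟨c₁, h⟩ : {b : α // b ≠ c₂}) := Subtype.ext hb
      subst hb'
      by_cases hP : P c₁ <;> simp [hP]
    · have hb' : b ≠ (⟨c₁, h⟩ : {b : α // b ≠ c₂}) := fun e => hb (congrArg Subtype.val e)
      simp [hb, hb']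
  rw [Finset.sum_congr rfl fun b _ => e1 b, Finset.sum_add_distrib, Finset.sum_ite_eq' Finset.univ (⟨c₁, h⟩ : {b : α // b ≠ c₂}),
    if_pos (Finset.mem_univ _), add_comm]
  congr 1
  show (if P c₂ then f c₂ else 0) = _
  simp only [h12]

/-- [F9e] PROOF. `c₁ = X.l (inr none) ≠ c₂ = X.r (inr none)`. `p : X.C → Z.C`, `Z = merge X.os h`, `p c = c` for `c ≠ c₂`, `p c₂ = c₁`; it maps the relation of `X` for `some e` to that of `Z` and `c₁ ~ c₂` to `c₁ = c₁`; the inclusion `Z.C → X.C` maps the relation of `Z` (`p a ~ p b`) into the equivalence generated by that of `X`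
(`a ~ p a`). So `Quot (TGlue X) ≃ Quot (TGlue Z)`. Genus of a class `c`: the sum of the genera is the same (`g (c₁) + g (c₂)` at `c₁`); the number of components of `X` in the class is that of `Z` plus `[c₁ ∈ c]`, the number of circles also (`none`); `(x + 1) + 1 - (y + 1) = x + 1 - y`. -/
theorem tr_merge {I J E : Type} [Finite E] (X : Cob (I ⊕ Option E) (J ⊕ Option E))
    (h : X.os.l (Sum.inr PUnit.unit) ≠ X.os.r (Sum.inr PUnit.unit)) : (X.os.merge h).tr.Iso X.tr := by
  classical
  obtain ⟨p, hp⟩ : ∃ p : X.C → (X.os.merge h).C, p = fun c => if hc : c ≠ X.os.r (Sum.inr PUnit.unit) then ⟨c, hc⟩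
    else ⟨X.os.l (Sum.inr PUnit.unit), h⟩ := ⟨_, rfl⟩
  have hl : ∀ i, (X.os.merge h).l i = p (X.os.l (Sum.inl i)) := fun i => by rw [hp]; rfl
  have hr : ∀ i, (X.os.merge h).r i = p (X.os.r (Sum.inl i)) := fun i => by rw [hp]; rfl
  have hg : ∀ b : (X.os.merge h).C, (X.os.merge h).g b = if b.1 = X.l (Sum.inr none) then X.g (X.l (Sum.inr none)) +
      X.g (X.r (Sum.inr none)) else X.g b.1 := fun b => rfl
  have hpb : ∀ b : (X.os.merge h).C, p b.1 = b := fun b => by
    rw [hp]
    exact dif_pos b.2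
  have hp1 : p (X.l (Sum.inr none)) = ⟨X.os.l (Sum.inr PUnit.unit), h⟩ := hpb ⟨X.os.l (Sum.inr PUnit.unit), h⟩
  have hp2 : p (X.r (Sum.inr none)) = ⟨X.os.l (Sum.inr PUnit.unit), h⟩ := by
    rw [hp]
    exact dif_neg fun hc => hc rfl
  have hpc : ∀ a : X.C, Quot.mk X.TGlue (p a).1 = Quot.mk X.TGlue a := by
    intro a
    by_cases ha : a = X.r (Sum.inr none)
    · subst ha
      rw [hp2]
      exact Quot.sound ⟨none, rfl, rfl⟩
    · have : p a = ⟨a, ha⟩ := hpb ⟨a, ha⟩
      rw [this]
  let F : Quot (X.os.merge h).TGlue → Quot X.TGlue := Quot.lift (fun a => Quot.mk _ a.1) (by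
    rintro a b ⟨e, rfl, rfl⟩
    show Quot.mk X.TGlue ((X.os.merge h).l (Sum.inr e)).1 = Quot.mk X.TGlue ((X.os.merge h).r (Sum.inr e)).1
    rw [hl, hr, hpc, hpc]
    exact Quot.sound ⟨some e, rfl, rfl⟩)
  let R : Quot X.TGlue → Quot (X.os.merge h).TGlue := Quot.lift (fun a => Quot.mk _ (p a)) (by
    rintro a b ⟨e, rfl, rfl⟩
    rcases e with _ | e
    · show Quot.mk (X.os.merge h).TGlue _ = Quot.mk (X.os.merge h).TGlue _
      rw [hp1, hp2]
    · exact Quot.sound ⟨e, (hl (Sum.inr e)).symm, (hr (Sum.inr e)).symm⟩)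
  have hRF : ∀ c, R (F c) = c := by
    intro c
    induction c using Quot.ind with | _ a
    show Quot.mk (X.os.merge h).TGlue (p a.1) = _
    rw [hpb]
  have hFR : ∀ c, F (R c) = c := by
    intro c
    induction c using Quot.ind with | _ a
    exact hpc a
  refine ⟨⟨F, R, hRF, hFR⟩, fun i => ?_, fun j => ?_, fun c => ?_⟩
  · show Quot.mk X.TGlue ((X.os.merge h).l (Sum.inl i)).1 = Quot.mk X.TGlue (X.l (Sum.inl i))
    rw [hl, hpc]
    rfl
  · show Quot.mk X.TGlue ((X.os.merge h).r (Sum.inl j)).1 = Quot.mk X.TGlue (X.r (Sum.inl j))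
    rw [hr, hpc]
    rfl
  · have hP : ∀ a : X.C, (Quot.mk X.TGlue a = F c) ↔ (Quot.mk (X.os.merge h).TGlue (p a) = c) := by
      intro a
      constructor
      · intro ha
        have := congrArg R ha
        rw [hRF] at this
        exact this
      · intro ha
        rw [← ha]
        exact (hpc a).symm
    have h12 : (Quot.mk (X.os.merge h).TGlue (p (X.l (Sum.inr none))) = c) ↔
        (Quot.mk (X.os.merge h).TGlue (p (X.r (Sum.inr none))) = c) := by
      rw [hp1, hp2]
    have s1 : (∑ᶠ a ∈ {a | Quot.mk X.TGlue a = F c}, X.g a) =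
        ∑ᶠ a ∈ {a | Quot.mk (X.os.merge h).TGlue a = c}, (X.os.merge h).g a := by
      have e1 : {a | Quot.mk X.TGlue a = F c} = {a : X.C | Quot.mk (X.os.merge h).TGlue (p a) = c} := Set.ext hP
      rw [e1, f9c_sum (fun a => Quot.mk (X.os.merge h).TGlue (p a) = c) (X.l (Sum.inr none)) (X.r (Sum.inr none)) h h12 X.g]
      have e2 : {b : {b : X.C // b ≠ X.r (Sum.inr none)} | Quot.mk (X.os.merge h).TGlue (p b.1) = c} =
          {a : (X.os.merge h).C | Quot.mk (X.os.merge h).TGlue a = c} := by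
        ext b
        show Quot.mk (X.os.merge h).TGlue (p b.1) = c ↔ Quot.mk (X.os.merge h).TGlue b = c
        rw [hpb b]
      rw [e2]
      refine finsum_mem_congr rfl fun b _ => ?_
      rw [hg]
      congr
    have s2 : Nat.card {e : Option E // Quot.mk X.TGlue (X.l (Sum.inr e)) = F c} =
        Nat.card {e : E // Quot.mk (X.os.merge h).TGlue ((X.os.merge h).l (Sum.inr e)) = c} +
          (if Quot.mk (X.os.merge h).TGlue (p (X.l (Sum.inr none))) = c then 1 else 0) := by
      have e1 : ∀ e : Option E, (Quot.mk X.TGlue (X.l (Sum.inr e)) = F c) ↔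
        (Quot.mk (X.os.merge h).TGlue (p (X.l (Sum.inr e))) = c) := fun e => hP _
      rw [Nat.card_congr (Equiv.subtypeEquivRight e1), f9c_cardO]
      congr 1
      refine Nat.card_congr (Equiv.subtypeEquivRight fun e => ?_)
      rw [hl]
      exact Iff.rfl
    have s3 : Nat.card {a : X.C // Quot.mk X.TGlue a = F c} =
        Nat.card {a : (X.os.merge h).C // Quot.mk (X.os.merge h).TGlue a = c} +
          (if Quot.mk (X.os.merge h).TGlue (p (X.l (Sum.inr none))) = c then 1 else 0) := by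
      rw [Nat.card_congr (Equiv.subtypeEquivRight hP), f9c_card _ (X.r (Sum.inr none))]
      simp only [h12]
      congr 1
      refine Nat.card_congr (Equiv.subtypeEquivRight fun b => ?_)
      show Quot.mk (X.os.merge h).TGlue (p b.1) = c ↔ Quot.mk (X.os.merge h).TGlue b = c
      rw [hpb b]
    show (∑ᶠ a ∈ {a | Quot.mk X.TGlue a = F c}, X.g a) +
        Nat.card {e : Option E // Quot.mk X.TGlue (X.l (Sum.inr e)) = F c} + 1 -
        Nat.card {a : X.C // Quot.mk X.TGlue a = F c} =
      (∑ᶠ a ∈ {a | Quot.mk (X.os.merge h).TGlue a = c}, (X.os.merge h).g a) +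
        Nat.card {e : E // Quot.mk (X.os.merge h).TGlue ((X.os.merge h).l (Sum.inr e)) = c} + 1 -
        Nat.card {a : (X.os.merge h).C // Quot.mk (X.os.merge h).TGlue a = c}
    rw [s1, s2, s3]
    omega

end Cob

end Pool.Agent.MTF
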