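import Pool.Agent.MTF.F9Z

/-! # MTF, part F (F9D) : glueing: the empty set, relabelling -/

namespace Pool.Agent.MTF

namespace Cob

/-- [F9f] PROOF. `E` empty: the relation is empty, `Quot.mk` is a bijection (`Quot.exact`-like: `Quot.lift id`), the sum over `{a | mk a = c}` has one term, `Nat.card = 0`, `0 + 1 - 1`. -/
theorem tr_empty {I J E : Type} [IsEmpty E] (X : Cob (I ⊕ E) (J ⊕ E)) : X.tr.Iso (X.pull Sum.inl Sum.inl) := by
  have hr : ∀ a b, X.TGlue a b → a = b := by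
    rintro a b ⟨e, _⟩
    exact isEmptyElim e
  have hq : ∀ a b, Quot.mk X.TGlue a = Quot.mk X.TGlue b → a = b := fun a b h => congrArg (Quot.lift id hr) h
  refine ⟨⟨Quot.lift id hr, Quot.mk _, ?_, fun _ => rfl⟩, fun _ => rfl, fun _ => rfl, ?_⟩
  · rintro ⟨a⟩
    rfl
  · rintro ⟨c⟩
    show X.g c = (∑ᶠ a ∈ {a | Quot.mk X.TGlue a = Quot.mk X.TGlue c}, X.g a) +
      Nat.card {e : E // Quot.mk X.TGlue (X.l (Sum.inr e)) = Quot.mk X.TGlue c} + 1 -
      Nat.card {a : X.C // Quot.mk X.TGlue a = Quot.mk X.TGlue c}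
    have h1 : {a | Quot.mk X.TGlue a = Quot.mk X.TGlue c} = {c} := by
      ext a
      exact ⟨fun h => hq a c h, fun h => congrArg (Quot.mk X.TGlue) h⟩
    have h2 : Nat.card {a : X.C // Quot.mk X.TGlue a = Quot.mk X.TGlue c} = 1 := by
      rw [Nat.card_eq_one_iff_unique]
      exact ⟨⟨fun a b => Subtype.ext ((hq _ _ a.2).trans (hq _ _ b.2).symm)⟩, ⟨⟨c, rfl⟩⟩⟩
    rw [h1, h2, finsum_mem_singleton, Nat.card_of_isEmpty]
    omega

/-- [F9g] PROOF. The relations are the same (`a` is a bijection), `Nat.card {e // ..}` by `Equiv.subtypeEquiv a`. -/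
theorem tr_reindex {I J E E' : Type} (a : E ≃ E') (X : Cob (I ⊕ E') (J ⊕ E')) :
    (X.pull (Sum.map id a : I ⊕ E → I ⊕ E') (Sum.map id a : J ⊕ E → J ⊕ E')).tr.Iso X.tr := by
  have hr : ∀ c d, (X.pull (Sum.map id a : I ⊕ E → I ⊕ E') (Sum.map id a : J ⊕ E → J ⊕ E')).TGlue c d ↔ X.TGlue c d := by
    intro c d
    constructor
    · rintro ⟨e, h1, h2⟩
      exact ⟨a e, h1, h2⟩
    · rintro ⟨e, h1, h2⟩
      refine ⟨a.symm e, ?_, ?_⟩
      · show c = X.l (Sum.inr (a (a.symm e)))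
        rw [a.apply_symm_apply]
        exact h1
      · show d = X.r (Sum.inr (a (a.symm e)))
        rw [a.apply_symm_apply]
        exact h2
  refine ⟨Quot.congrRight hr, fun _ => rfl, fun _ => rfl, ?_⟩
  rintro ⟨c⟩
  have hq : ∀ d, Quot.mk X.TGlue d = Quot.mk X.TGlue c ↔
      Quot.mk (X.pull (Sum.map id a : I ⊕ E → I ⊕ E') (Sum.map id a : J ⊕ E → J ⊕ E')).TGlue d = Quot.mk _ c := by
    intro d
    exact (Quot.congrRight hr).injective.eq_iff (a := Quot.mk _ d) (b := Quot.mk _ c)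
  show (∑ᶠ d ∈ {d | Quot.mk X.TGlue d = Quot.mk X.TGlue c}, X.g d) +
      Nat.card {e : E' // Quot.mk X.TGlue (X.l (Sum.inr e)) = Quot.mk X.TGlue c} + 1 -
      Nat.card {d : X.C // Quot.mk X.TGlue d = Quot.mk X.TGlue c} = 
    (∑ᶠ d ∈ {d | Quot.mk (X.pull (Sum.map id a : I ⊕ E → I ⊕ E') (Sum.map id a : J ⊕ E → J ⊕ E')).TGlue d = Quot.mk _ c}, X.g d) +
      Nat.card {e : E // Quot.mk (X.pull (Sum.map id a : I ⊕ E → I ⊕ E') (Sum.map id a : J ⊕ E → J ⊕ E')).TGlue (X.l (Sum.inr (a e))) = Quot.mk _ c} + 1 -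
      Nat.card {d : X.C // Quot.mk (X.pull (Sum.map id a : I ⊕ E → I ⊕ E') (Sum.map id a : J ⊕ E → J ⊕ E')).TGlue d = Quot.mk _ c}
  have h1 : {d | Quot.mk X.TGlue d = Quot.mk X.TGlue c} =
      {d | Quot.mk (X.pull (Sum.map id a : I ⊕ E → I ⊕ E') (Sum.map id a : J ⊕ E → J ⊕ E')).TGlue d = Quot.mk _ c} := by
    ext d
    exact hq d
  have h2 : Nat.card {e : E' // Quot.mk X.TGlue (X.l (Sum.inr e)) = Quot.mk X.TGlue c} =
      Nat.card {e : E // Quot.mk (X.pull (Sum.map id a : I ⊕ E → I ⊕ E') (Sum.map id a : J ⊕ E → J ⊕ E')).TGlue (X.l (Sum.inr (a e))) = Quot.mk _ c} :=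
    (Nat.card_congr (Equiv.subtypeEquiv a fun e => (hq _).symm)).symm
  have h3 : Nat.card {d : X.C // Quot.mk X.TGlue d = Quot.mk X.TGlue c} =
      Nat.card {d : X.C // Quot.mk (X.pull (Sum.map id a : I ⊕ E → I ⊕ E') (Sum.map id a : J ⊕ E → J ⊕ E')).TGlue d = Quot.mk _ c} :=
    Nat.card_congr (Equiv.subtypeEquiv (Equiv.refl _) fun d => hq d)
  rw [h1, h2, h3]
  rfl

end Cob

end Pool.Agent.MTF
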