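import Pool.Agent.MTF.F9Z

/-! # MTF, part F (F9E) : the composition as a glueing -/

namespace Pool.Agent.MTF

namespace Cob

/-- [F9h] PROOF. `(glue S T).l = Sum.map S.l T.l`, `r (inl k) = inr (T.r k)`, `r (inr j) = inl (S.r j)`: `TGlue (glue S T) a b ↔ ∃ j, a = inr (T.l j) ∧ b = inl (S.r j) ↔ Glue S T b a`, so the quotients agree (`Quot.lift` both ways); the genus: `Quot.mk (inl (S.r j)) = c ↔ Quot.mk (inr (T.l j)) = c`. -/
theorem tr_glue {I J K : Type} (S : Cob I J) (T : Cob J K) : (glue S T).tr.Iso (S.comp T) := by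
  let e : Quot (glue S T).TGlue ≃ Quot (S.Glue T) :=
    { toFun := Quot.lift (Quot.mk (S.Glue T)) (by
        rintro a b ⟨j, rfl, rfl⟩
        exact (Quot.sound ⟨j, rfl, rfl⟩).symm)
      invFun := Quot.lift (Quot.mk (glue S T).TGlue) (by
        rintro a b ⟨j, rfl, rfl⟩
        exact (Quot.sound ⟨j, rfl, rfl⟩).symm)
      left_inv := by
        rintro ⟨a⟩
        rfl
      right_inv := by
        rintro ⟨a⟩
        rfl }
  have hmk : ∀ (a : S.C ⊕ T.C) (c : Quot (glue S T).TGlue),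
      Quot.mk (S.Glue T) a = e c ↔ Quot.mk (glue S T).TGlue a = c := by
    intro a c
    exact e.apply_eq_iff_eq (x := Quot.mk (glue S T).TGlue a) (y := c)
  have hj : ∀ (j : J) (c : Quot (glue S T).TGlue),
      Quot.mk (S.Glue T) (Sum.inl (S.r j)) = e c ↔
        Quot.mk (glue S T).TGlue (Sum.inr (T.l j)) = c := by
    intro j c
    rw [hmk]
    have h1 : Quot.mk (glue S T).TGlue (Sum.inl (S.r j)) =
        Quot.mk (glue S T).TGlue (Sum.inr (T.l j)) := (Quot.sound ⟨j, rfl, rfl⟩).symm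
    rw [h1]
  refine ⟨e, fun i => rfl, fun k => rfl, fun c => ?_⟩
  show (∑ᶠ a ∈ {a | Quot.mk (S.Glue T) a = e c}, Sum.elim S.g T.g a) +
    Nat.card {j : J // Quot.mk (S.Glue T) (Sum.inl (S.r j)) = e c} + 1 -
    Nat.card {a : S.C ⊕ T.C // Quot.mk (S.Glue T) a = e c} =
    (∑ᶠ a ∈ {a | Quot.mk (glue S T).TGlue a = c}, Sum.elim S.g T.g a) +
    Nat.card {j : J // Quot.mk (glue S T).TGlue (Sum.inr (T.l j)) = c} + 1 -
    Nat.card {a : S.C ⊕ T.C // Quot.mk (glue S T).TGlue a = c}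
  simp only [hj]
  simp only [hmk]
  rfl

end Cob

end Pool.Agent.MTF
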