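import Pool.Agent.MTF.F10A
import Pool.Agent.MTF.F10B
import Pool.Agent.MTF.F10C
import Pool.Agent.MTF.F10D
import Pool.Agent.MTF.F4
import Pool.Agent.MTF.F9

/-! # MTF, part F (F10) : glueing one circle -/

namespace Pool.Agent.MTF

section
variable {G : AffGrp} {e f : G.Lie} {Hb : ∀ (g : ℕ) (I J : Type) [Finite I] [Finite J], Ham (G.pow I) (G.pow J)}
  {I J : Type} [Finite I] [Finite J]
variable (X : Cob (I ⊕ PUnit.{1}) (J ⊕ PUnit.{1}))

/-- one circle, same component -/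
theorem red_same (hB : BB G e f Hb) (h : X.l (Sum.inr PUnit.unit) = X.r (Sum.inr PUnit.unit)) :
    IsRed (eta Hb X) (eta Hb X.same) :=
  red_of_mul (restF X Hb) ((hB.t2 _ _ _).pull Subtype.val Subtype.val) (hq_same X hB h) (hq_same' X h)

/-- one circle, two components -/
theorem red_merge (hB : BB G e f Hb) (h : X.l (Sum.inr PUnit.unit) ≠ X.r (Sum.inr PUnit.unit)) :
    IsRed (eta Hb X) (eta Hb (X.merge h)) :=
  red_of_mul (restF X Hb) ((hB.t1 _ _ (I₁ X) (J₁ X) (I₂ X) (J₂ X)).pull (wI X) (wJ X)) (hq_merge X hB h) (hq_merge' X hB h)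

end

end Pool.Agent.MTF
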