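import Pool.Agent.MTF.F3

/-! # MTF, part F (F4A) : reductions under isomorphism -/

namespace Pool.Agent.MTF

open TensorProduct

section
variable {G : AffGrp} {I J E : Type} [Finite I] [Finite J] [Finite E]

/-- [F4a] PROOF. Let `e : P.A ≃ P'.A` be the isomorphism. `e (ract P g k h a) = ract P' g k h (e a)`, `e (rμ P d) = rμ P' d`, so `a ∈ rI P ↔ e a ∈ rI P'` (`Ideal.map_span`, or both inclusions by `Ideal.span_le` and `comap`), `a ∈ rinv P ↔ e a ∈ rinv P'`. `φ' := e' ∘ φ ∘ e.symm` restricted to `rinv`; `isRed_mk`. -/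
theorem IsRed.congr {P P' : Ham (G.pow (I ⊕ E)) (G.pow (J ⊕ E))} {Q Q' : Ham (G.pow I) (G.pow J)} (h : IsRed P Q)
    (hP : P.Iso P') (hQ : Q.Iso Q') : IsRed P' Q' := by
  obtain ⟨e, hb, ha, hm, hn⟩ := hP
  obtain ⟨e', hb', ha', hm', hn'⟩ := hQ
  obtain ⟨φ, h1, h2, h3, h4, h5, h6⟩ := h.ex
  have hr : ∀ g k x a, e (ract P g k x a) = ract P' g k x (e a) := fun g k x a => ha _ a
  have hμ : ∀ d, e (rμ P d) = rμ P' d := by
    intro d
    show e (P.μ _ - P.ν _) = P'.μ _ - P'.ν _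
    rw [map_sub, hm, hn]
  have hI : ∀ a, a ∈ rI P → e a ∈ rI P' := by
    have h0 : rI P ≤ (rI P').comap e := by
      unfold rI
      rw [Ideal.span_le]
      rintro _ ⟨d, rfl⟩
      exact Ideal.subset_span ⟨d, (hμ d).symm⟩
    exact fun a ha => h0 ha
  have hI' : ∀ b, b ∈ rI P' → e.symm b ∈ rI P := by
    have h0 : rI P' ≤ (rI P).comap e.symm := by
      unfold rI
      rw [Ideal.span_le]
      rintro _ ⟨d, rfl⟩
      refine Ideal.subset_span ⟨d, ?_⟩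
      show rμ P d = e.symm (rμ P' d)
      rw [← hμ, AlgEquiv.symm_apply_apply]
    exact fun b hb => h0 hb
  have hinv : ∀ a, a ∈ rinv P → e a ∈ rinv P' := by
    intro a ha x
    have h7 := hI _ (ha x)
    rw [map_sub, hr] at h7
    exact h7
  have hinv' : ∀ b, b ∈ rinv P' → e.symm b ∈ rinv P := by
    intro b hb x
    have h7 := hI' _ (hb x)
    have h8 : e.symm (ract P' 1 1 x b) = ract P 1 1 x (e.symm b) := by
      rw [AlgEquiv.symm_apply_eq, hr, AlgEquiv.apply_symm_apply]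
    rw [map_sub, h8] at h7
    exact h7
  let ψ : rinv P' →ₐ[ℂ] rinv P :=
    ((e.symm : P'.A →ₐ[ℂ] P.A).comp (rinv P').val).codRestrict (rinv P) fun b => hinv' b.1 b.2
  have hψ : ∀ b, (ψ b).1 = e.symm b.1 := fun b => rfl
  refine isRed_mk P' Q' ((e' : Q.A →ₐ[ℂ] Q'.A).comp (φ.comp ψ)) ?_ ?_ ?_ ?_ ?_ ?_
  · intro q
    obtain ⟨a, ha⟩ := h1 (e'.symm q)
    refine ⟨⟨e a.1, hinv a.1 a.2⟩, ?_⟩
    have h7 : ψ ⟨e a.1, hinv a.1 a.2⟩ = a := Subtype.ext (e.symm_apply_apply a.1)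
    show e' (φ (ψ ⟨e a.1, hinv a.1 a.2⟩)) = q
    rw [h7, ha, AlgEquiv.apply_symm_apply]
  · intro b
    show e' (φ (ψ b)) = 0 ↔ _
    rw [map_eq_zero_iff _ e'.injective, h2, hψ]
    refine ⟨fun h7 => ?_, fun h7 => hI' _ h7⟩
    have h8 := hI _ h7
    rw [AlgEquiv.apply_symm_apply] at h8
    exact h8
  · intro a b c hc
    have h7 : (ψ c).1 = P.br (ψ a).1 (ψ b).1 := by
      rw [hψ, hψ, hψ, hc, AlgEquiv.symm_apply_eq, hb, AlgEquiv.apply_symm_apply,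
        AlgEquiv.apply_symm_apply]
    show e' (φ (ψ c)) = Q'.br (e' (φ (ψ a))) (e' (φ (ψ b)))
    rw [h3 _ _ _ h7, hb']
  · intro g k a b hab
    have h7 : (ψ b).1 = ract P g k 1 (ψ a).1 := by
      rw [hψ, hψ, hab, AlgEquiv.symm_apply_eq, hr, AlgEquiv.apply_symm_apply]
    show e' (φ (ψ b)) = Q'.act (g, k) (e' (φ (ψ a)))
    rw [h4 _ _ _ _ h7, ha']
  · intro d a had
    have h7 : (ψ a).1 = P.μ (G.pl (Sum.elim d 0)) := by
      rw [hψ, had, AlgEquiv.symm_apply_eq, hm]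
    show e' (φ (ψ a)) = Q'.μ (G.pl d)
    rw [h5 _ _ h7, hm']
  · intro d a had
    have h7 : (ψ a).1 = P.ν (G.pl (Sum.elim d 0)) := by
      rw [hψ, had, AlgEquiv.symm_apply_eq, hn]
    show e' (φ (ψ a)) = Q'.ν (G.pl d)
    rw [h6 _ _ h7, hn']

end

end Pool.Agent.MTF
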