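import Pool.Agent.MTF.F0d

/-! # MTF, part F (F5A) : invariants of a tensor product -/

namespace Pool.Agent.MTF

open TensorProduct

/-- the coordinates are natural -/
theorem f5a_nat {M A B κ : Type} [AddCommGroup M] [Module ℂ M] [AddCommGroup A] [Module ℂ A]
    [AddCommGroup B] [Module ℂ B] [DecidableEq κ] (b : Module.Basis κ ℂ B) (f : M →ₗ[ℂ] A)
    (x : M ⊗[ℂ] B) (k : κ) :
    TensorProduct.equivFinsuppOfBasisRight b (LinearMap.rTensor B f x) k =
      f (TensorProduct.equivFinsuppOfBasisRight b x k) := by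
  induction x using TensorProduct.induction_on with
  | zero => simp only [map_zero, Finsupp.coe_zero, Pi.zero_apply]
  | tmul a c =>
    rw [LinearMap.rTensor_tmul, TensorProduct.equivFinsuppOfBasisRight_apply_tmul_apply,
      TensorProduct.equivFinsuppOfBasisRight_apply_tmul_apply, map_smul]
  | add x y hx hy =>
    rw [map_add, map_add, Finsupp.add_apply, hx, hy, map_add, Finsupp.add_apply, map_add]

/-- the range of `M ⊗ B → A ⊗ B` in coordinates -/
theorem f5a_mem {M A B κ : Type} [AddCommGroup M] [Module ℂ M] [AddCommGroup A] [Module ℂ A]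
    [AddCommGroup B] [Module ℂ B] [DecidableEq κ] (b : Module.Basis κ ℂ B) (i : M →ₗ[ℂ] A)
    (y : A ⊗[ℂ] B) :
    y ∈ LinearMap.range (LinearMap.rTensor B i) ↔
      ∀ k, TensorProduct.equivFinsuppOfBasisRight b y k ∈ LinearMap.range i := by
  classical
  constructor
  · rintro ⟨x, rfl⟩ k
    rw [f5a_nat]
    exact ⟨_, rfl⟩
  · intro h
    set y' := TensorProduct.equivFinsuppOfBasisRight b y with hy'
    have h1 : ∀ k, ∃ m : M, i m = y' k ∧ (y' k = 0 → m = 0) := by
      intro k
      by_cases h0 : y' k = 0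
      · exact ⟨0, by rw [map_zero, h0], fun _ => rfl⟩
      · obtain ⟨m, hm⟩ := h k
        exact ⟨m, hm, fun h2 => absurd h2 h0⟩
    choose m hm1 hm2 using h1
    let F : κ →₀ M := Finsupp.onFinset y'.support m fun k hk => by
      rw [Finsupp.mem_support_iff]
      exact fun h2 => hk (hm2 k h2)
    refine ⟨(TensorProduct.equivFinsuppOfBasisRight b).symm F, ?_⟩
    apply (TensorProduct.equivFinsuppOfBasisRight b).injective
    ext k
    rw [f5a_nat, LinearEquiv.apply_symm_apply]
    exact hm1 k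

/-- [F5a] PURE ALGEBRA. `S` a subalgebra of `A`, `B` an algebra over the field `ℂ`: the elements `x` of `A ⊗ B` with `(T_h ⊗ 1) x - x ∈ V ⊗ B` for all `h` are the elements of `S ⊗ B`, if `S = {a | ∀ h, T_h a - a ∈ V}`. PROOF. Let `n_k` be a basis of `B` (`Module.Free.chooseBasis` / `Basis.ofVectorSpace`);
`x = ∑ x_k ⊗ n_k` uniquely (`TensorProduct.equivFinsuppOfBasisRight` or `Basis.tensorProduct`..; every `x` is a finite sum `∑ x_k ⊗ n_k` and `∑ y_k ⊗ n_k` is in the range of `V ⊗ B` iff all `y_k ∈ V`). `(T_h ⊗ 1) x - x = ∑ (T_h x_k - x_k) ⊗ n_k`, so all `x_k ∈ S`. -/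
theorem range_inv {A B H : Type} [CommRing A] [Algebra ℂ A] [CommRing B] [Algebra ℂ B] (V : Submodule ℂ A) (T : H → A →ₗ[ℂ] A)
    (S : Subalgebra ℂ A) (hS : ∀ a, a ∈ S ↔ ∀ h, T h a - a ∈ V) (x : A ⊗[ℂ] B) :
    (∀ h, LinearMap.rTensor B (T h) x - x ∈ LinearMap.range (LinearMap.rTensor B V.subtype)) ↔
      x ∈ LinearMap.range (LinearMap.rTensor B S.val.toLinearMap) := by
  classical
  let b := Module.Basis.ofVectorSpace ℂ B
  have h1 : ∀ h k, TensorProduct.equivFinsuppOfBasisRight b (LinearMap.rTensor B (T h) x - x) k =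
      T h (TensorProduct.equivFinsuppOfBasisRight b x k) -
        TensorProduct.equivFinsuppOfBasisRight b x k := by
    intro h k
    rw [map_sub, Finsupp.sub_apply, f5a_nat]
  have h2 : ∀ a : A, a ∈ LinearMap.range S.val.toLinearMap ↔ a ∈ S := by
    intro a
    constructor
    · rintro ⟨s, rfl⟩
      exact s.2
    · intro ha
      exact ⟨⟨a, ha⟩, rfl⟩
  rw [f5a_mem b]
  constructor
  · intro h3 k
    rw [h2, hS]
    intro h
    have h4 := (f5a_mem b V.subtype _).1 (h3 h) k
    rw [h1, Submodule.range_subtype] at h4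
    exact h4
  · intro h3 h
    rw [f5a_mem b]
    intro k
    rw [h1, Submodule.range_subtype]
    exact (hS _).1 ((h2 _).1 (h3 k)) h

end Pool.Agent.MTF
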