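import Pool.Agent.MTF.F3
import Pool.Agent.MTF.F5A

/-! # MTF, part F (F5C) : spectators -/

namespace Pool.Agent.MTF

open TensorProduct

section
variable {G : AffGrp} {I J E : Type} [Finite I] [Finite J] [Finite E]
  (P : Ham (G.pow (I ⊕ E)) (G.pow (J ⊕ E))) (N : Ham (G.pow I) (G.pow J))

/-- `P` with the spectator `N` -/
noncomputable abbrev spec : Ham (G.pow (I ⊕ E)) (G.pow (J ⊕ E)) :=
  P.box (N.pull (Sum.inl : I → I ⊕ E) (Sum.inl : J → J ⊕ E))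

/-- [F5c] PROOF. `ract (spec P N) g k h (a ⊗ b) = ract P g k h a ⊗ N.act (g, k) b` (`bact_tmul`; `Sum.elim g h ∘ Sum.inl = g` is `rfl`). -/
theorem ract_spec (g : I → G.X) (k : J → G.X) (h : E → G.X) (a : P.A) (b : N.A) :
    ract (spec P N) g k h (a ⊗ₜ[ℂ] b : P.A ⊗[ℂ] N.A) = (ract P g k h a ⊗ₜ[ℂ] N.act (g, k) b : P.A ⊗[ℂ] N.A) :=
  rfl

/-- [F5d] PROOF. `bμ_apply`, `bν_apply`, and `lmap inl (pl (Sum.elim 0 d)) = pl 0 = 0` (`AffGrp.lmap_pl`, `map_zero`). -/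
theorem rμ_spec (d : E → G.Lie) : rμ (spec P N) d = (rμ P d ⊗ₜ[ℂ] (1 : N.A) : P.A ⊗[ℂ] N.A) := by
  have h1 : N.μ (G.lmap (Sum.inl : I → I ⊕ E) (G.pl (Sum.elim (0 : I → G.Lie) d))) = 0 := by
    rw [AffGrp.lmap_pl, Sum.elim_comp_inl, map_zero, map_zero]
  have h2 : N.ν (G.lmap (Sum.inl : J → J ⊕ E) (G.pl (Sum.elim (0 : J → G.Lie) d))) = 0 := by
    rw [AffGrp.lmap_pl, Sum.elim_comp_inl, map_zero, map_zero]
  change (P.μ (G.pl (Sum.elim (0 : I → G.Lie) d)) ⊗ₜ[ℂ] (1 : N.A) + (1 : P.A) ⊗ₜ[ℂ]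
    N.μ (G.lmap (Sum.inl : I → I ⊕ E) (G.pl (Sum.elim (0 : I → G.Lie) d))) : P.A ⊗[ℂ] N.A) -
    (P.ν (G.pl (Sum.elim (0 : J → G.Lie) d)) ⊗ₜ[ℂ] (1 : N.A) + (1 : P.A) ⊗ₜ[ℂ]
    N.ν (G.lmap (Sum.inl : J → J ⊕ E) (G.pl (Sum.elim (0 : J → G.Lie) d))) : P.A ⊗[ℂ] N.A) =
    (P.μ (G.pl (Sum.elim (0 : I → G.Lie) d)) - P.ν (G.pl (Sum.elim (0 : J → G.Lie) d))) ⊗ₜ[ℂ] (1 : N.A)
  rw [h1, h2, TensorProduct.tmul_zero, add_zero, add_zero, TensorProduct.sub_tmul]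

/-- [F5e] PROOF. `⊆`: the range of `V ⊗ B`, `V = rI P` is an ideal of `A ⊗ B` which contains the generators `rμ P d ⊗ 1` (`rμ_spec`). `⊇`: `(p rμ d) ⊗ b = (p ⊗ b) (rμ d ⊗ 1)`. -/
theorem mem_rI_spec (x : P.A ⊗[ℂ] N.A) :
    x ∈ rI (spec P N) ↔ x ∈ LinearMap.range (LinearMap.rTensor N.A ((rI P).restrictScalars ℂ).subtype) := by
  have h1 : (rI (spec P N) : Ideal (P.A ⊗[ℂ] N.A)) =
      (rI P).map (Algebra.TensorProduct.includeLeft : P.A →ₐ[ℂ] P.A ⊗[ℂ] N.A) := by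
    unfold rI
    rw [Ideal.map_span, ← Set.range_comp]
    congr 2
    funext d
    exact rμ_spec P N d
  have h2 := Ideal.map_includeLeft_eq (R := ℂ) (A := P.A) (B := N.A) (rI P)
  rw [← h2, ← h1]
  exact Iff.rfl

/-- [F5f] PROOF. `range_inv` with `H = (E → G.X)`, `T h = ract P 1 1 h`, `V = rI P`, `S = rinv P`: `ract (spec P N) 1 1 h = (ract P 1 1 h) ⊗ 1` (`ract_spec`, `N.act (1, 1) b = b`), and `mem_rI_spec`. -/
theorem mem_rinv_spec (x : P.A ⊗[ℂ] N.A) :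
    x ∈ rinv (spec P N) ↔ x ∈ LinearMap.range (LinearMap.rTensor N.A (rinv P).val.toLinearMap) := by
  rw [← range_inv ((rI P).restrictScalars ℂ) (fun h : E → G.X => (ract P 1 1 h).toAlgHom.toLinearMap)
    (rinv P) (fun a => Iff.rfl) x]
  have h1 : ∀ (h : E → G.X) (y : P.A ⊗[ℂ] N.A), ract (spec P N) 1 1 h y =
      LinearMap.rTensor N.A ((ract P 1 1 h).toAlgHom.toLinearMap) y := by
    intro h y
    induction y using TensorProduct.induction_on with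
    | zero => rw [map_zero]; exact map_zero (ract (spec P N) 1 1 h)
    | add y z hy hz => rw [map_add, ← hy, ← hz]; exact map_add (ract (spec P N) 1 1 h) y z
    | tmul a b =>
      rw [ract_spec, LinearMap.rTensor_tmul]
      congr 1
      exact N.act_one b
  have h2 := fun (h : E → G.X) => congrArg (fun y : P.A ⊗[ℂ] N.A => y - x ∈
    LinearMap.range (LinearMap.rTensor N.A ((rI P).restrictScalars ℂ).subtype)) (h1 h x)
  constructor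
  · intro hx h
    exact Eq.mp (h2 h) ((mem_rI_spec P N _).1 (hx h))
  · intro hx h
    exact (mem_rI_spec P N _).2 (Eq.mpr (h2 h) (hx h))

end

end Pool.Agent.MTF
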