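import Pool.Agent.MTF.F5B
import Pool.Agent.MTF.F5C

/-! # MTF, part F (F5) : the spectator lemma -/

namespace Pool.Agent.MTF

open TensorProduct

section
variable {G : AffGrp} {I J E : Type} [Finite I] [Finite J] [Finite E]
  (P : Ham (G.pow (I ⊕ E)) (G.pow (J ⊕ E))) (N : Ham (G.pow I) (G.pow J))

/-- [F5] THE SPECTATOR LEMMA. PROOF. `S = rinv P`. The algebra homomorphism `ι = Algebra.TensorProduct.map S.val (AlgHom.id) : S ⊗ N.A → P.A ⊗ N.A` is injective (flatness over a field: `Module.Flat.rTensor_preserves_injective_linearMap`), with range `rinv (spec P N)` (`mem_rinv_spec`), so there is an algebra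
equivalence `ε : S ⊗ N.A ≃ rinv (spec P N)` (`AlgEquiv.ofInjective` and the equality of ranges). `Φ := (φ ⊗ 1) ∘ ε.symm`, `φ ⊗ 1 = Algebra.TensorProduct.map φ (AlgHom.id ℂ N.A)`, `φ` from `h.ex`. Surjective: `Algebra.TensorProduct.map` of surjective maps (`TensorProduct.map_surjective`). Kernel: `ker_tensor`, `mem_rI_spec`.
The last four conditions of `isRed_mk` on elements `ε (a ⊗ b)` (then by linearity: both sides are additive in `a`; write the elements of `rinv (spec P N)` as `ε y`, induction on `y`): bracket: `tbr (a ⊗ b) (a' ⊗ b') = {a, a'} ⊗ b b' + a a' ⊗ {b, b'}` with `{a, a'} ∈ rinv P` (`br_mem_rinv`); action: `ract_spec`, `ract_mem_rinv`; moment maps: `bμ_apply`: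
`μ (pl (Sum.elim d 0)) = P.μ (pl (Sum.elim d 0)) ⊗ 1 + 1 ⊗ N.μ (pl d)` (`lmap_pl`). -/
theorem IsRed.spec {Q : Ham (G.pow I) (G.pow J)} (h : IsRed P Q) : IsRed (spec P N) (Q.box N) := by
  obtain ⟨φ, hφ1, hφ2, hφ3, hφ4, hφ5, hφ6⟩ := h.ex
  let ι : (rinv P) ⊗[ℂ] N.A →ₐ[ℂ] P.A ⊗[ℂ] N.A :=
    Algebra.TensorProduct.map (rinv P).val (AlgHom.id ℂ N.A)
  let ψ : (rinv P) ⊗[ℂ] N.A →ₐ[ℂ] Q.A ⊗[ℂ] N.A :=
    Algebra.TensorProduct.map φ (AlgHom.id ℂ N.A)
  have hιt : ∀ (s : rinv P) (b : N.A), ι (s ⊗ₜ b) = s.1 ⊗ₜ b := fun _ _ => rfl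
  have hψt : ∀ (s : rinv P) (b : N.A), ψ (s ⊗ₜ b) = φ s ⊗ₜ b := fun _ _ => rfl
  have hinj : Function.Injective ι :=
    Module.Flat.rTensor_preserves_injective_linearMap (M := N.A) (rinv P).val.toLinearMap
      Subtype.val_injective
  let ε0 : (rinv P) ⊗[ℂ] N.A →ₐ[ℂ] rinv (MTF.spec P N) :=
    AlgHom.codRestrict (S := rinv (MTF.spec P N)) ι (fun y => (mem_rinv_spec P N _).2 ⟨y, rfl⟩)
  have hε0 : ∀ y, (ε0 y).1 = ι y := fun _ => rfl
  have hb : Function.Bijective ε0 := by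
    constructor
    · intro y z hyz
      exact hinj (congrArg Subtype.val hyz)
    · intro a
      obtain ⟨y, hy⟩ := (mem_rinv_spec P N a.1).1 a.2
      exact ⟨y, Subtype.ext hy⟩
  let ε := AlgEquiv.ofBijective ε0 hb
  let Φ : rinv (MTF.spec P N) →ₐ[ℂ] Q.A ⊗[ℂ] N.A := ψ.comp ε.symm.toAlgHom
  have hΦ : ∀ (a : rinv (MTF.spec P N)) (w : (rinv P) ⊗[ℂ] N.A), a.1 = ι w → Φ a = ψ w := by
    intro a w haw
    have h1 : a = ε w := Subtype.ext haw
    show ψ (ε.symm a) = ψ w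
    rw [h1, AlgEquiv.symm_apply_apply]
  have hex : ∀ a : rinv (MTF.spec P N), ∃ w, a = ε w := fun a => ⟨ε.symm a, (ε.apply_symm_apply a).symm⟩
  have H1 : Function.Surjective Φ := by
    intro q
    obtain ⟨w, hw⟩ := TensorProduct.map_surjective (g := φ.toLinearMap)
      (g' := (LinearMap.id : N.A →ₗ[ℂ] N.A)) hφ1 Function.surjective_id q
    refine ⟨ε w, ?_⟩
    rw [hΦ (ε w) w rfl]
    exact hw
  have H2 : ∀ a, Φ a = 0 ↔ a.1 ∈ rI (MTF.spec P N) := by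
    intro a
    obtain ⟨w, rfl⟩ := hex a
    rw [hΦ (ε w) w rfl]
    have h1 := ker_tensor (B := N.A) ((rI P).restrictScalars ℂ) (rinv P) φ hφ2 w
    exact h1.trans (mem_rI_spec P N (ι w)).symm
  have H3 : ∀ a b c : rinv (MTF.spec P N), c.1 = (MTF.spec P N).br a.1 b.1 →
      Φ c = tbr Q.toPAlg N.toPAlg (Φ a) (Φ b) := by
    intro a b c hc
    obtain ⟨y, rfl⟩ := hex a
    obtain ⟨z, rfl⟩ := hex b
    rw [hΦ (ε y) y rfl, hΦ (ε z) z rfl]
    have hw : ∀ y z : (rinv P) ⊗[ℂ] N.A, ∃ w, ι w = tbr P.toPAlg N.toPAlg (ι y) (ι z) ∧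
        ψ w = tbr Q.toPAlg N.toPAlg (ψ y) (ψ z) := by
      intro y z
      induction y using TensorProduct.induction_on with
      | zero => exact ⟨0, by simp, by simp⟩
      | add y y' hy hy' =>
        obtain ⟨w, h1, h2⟩ := hy
        obtain ⟨w', h1', h2'⟩ := hy'
        refine ⟨w + w', ?_, ?_⟩
        · rw [map_add, map_add, map_add, LinearMap.add_apply, h1, h1']
        · rw [map_add, map_add, map_add, LinearMap.add_apply, h2, h2']
      | tmul s b =>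
        induction z using TensorProduct.induction_on with
        | zero => exact ⟨0, by simp, by simp⟩
        | add z z' hz hz' =>
          obtain ⟨w, h1, h2⟩ := hz
          obtain ⟨w', h1', h2'⟩ := hz'
          refine ⟨w + w', ?_, ?_⟩
          · rw [map_add, map_add, map_add, h1, h1']
          · rw [map_add, map_add, map_add, h2, h2']
        | tmul s' b' =>
          refine ⟨(⟨P.br s.1 s'.1, h.br_mem s s'⟩ : rinv P) ⊗ₜ (b * b') +
            (s * s') ⊗ₜ N.br b b', ?_, ?_⟩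
          · rw [map_add, hιt, hιt, hιt, hιt, tbr_tmul]
            rfl
          · rw [map_add, hψt, hψt, hψt, hψt, tbr_tmul, hφ3 s s' ⟨P.br s.1 s'.1, h.br_mem s s'⟩ rfl,
              map_mul]
    obtain ⟨w, h1, h2⟩ := hw y z
    rw [hΦ c w (hc.trans h1.symm)]
    exact h2
  have H4 : ∀ g k, ∀ a b : rinv (MTF.spec P N), b.1 = ract (MTF.spec P N) g k 1 a.1 →
      Φ b = bact Q N (g, k) (Φ a) := by
    intro g k a b hab
    obtain ⟨y, rfl⟩ := hex a
    rw [hΦ (ε y) y rfl]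
    have hw : ∀ y : (rinv P) ⊗[ℂ] N.A, ∃ w, ι w = ract (MTF.spec P N) g k 1 (ι y) ∧
        ψ w = bact Q N (g, k) (ψ y) := by
      intro y
      induction y using TensorProduct.induction_on with
      | zero =>
        refine ⟨0, ?_, ?_⟩
        · rw [map_zero]
          exact (map_zero (ract (MTF.spec P N) g k 1)).symm
        · rw [map_zero, map_zero]
      | add y y' hy hy' =>
        obtain ⟨w, h1, h2⟩ := hy
        obtain ⟨w', h1', h2'⟩ := hy'
        refine ⟨w + w', ?_, ?_⟩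
        · rw [map_add, map_add, h1, h1']
          exact (map_add (ract (MTF.spec P N) g k 1) _ _).symm
        · rw [map_add, map_add, map_add, h2, h2']
      | tmul s b =>
        refine ⟨(⟨ract P g k 1 s.1, h.act_mem g k s⟩ : rinv P) ⊗ₜ N.act (g, k) b, ?_, ?_⟩
        · rw [hιt, hιt]
          exact (ract_spec P N g k 1 s.1 b).symm
        · rw [hψt, hψt, bact_tmul, hφ4 g k s ⟨ract P g k 1 s.1, h.act_mem g k s⟩ rfl]
    obtain ⟨w, h1, h2⟩ := hw y
    rw [hΦ b w (hab.trans h1.symm)]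
    exact h2
  have H5 : ∀ d : I → G.Lie, ∀ a : rinv (MTF.spec P N),
      a.1 = (MTF.spec P N).μ (G.pl (Sum.elim d 0)) → Φ a = bμ Q N (G.pl d) := by
    intro d a ha
    have h1 : a.1 = ι ((⟨P.μ (G.pl (Sum.elim d 0)), h.μ_mem d⟩ : rinv P) ⊗ₜ 1 +
        1 ⊗ₜ N.μ (G.pl d)) := by
      rw [ha, map_add, hιt, hιt]
      have h2 : (MTF.spec P N).μ (G.pl (Sum.elim d 0)) =
        (P.μ (G.pl (Sum.elim d 0)) ⊗ₜ (1 : N.A) + (1 : P.A) ⊗ₜ
          N.μ (G.lmap (Sum.inl : I → I ⊕ E) (G.pl (Sum.elim d 0))) : P.A ⊗[ℂ] N.A) := rfl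
      rw [h2, AffGrp.lmap_pl]
      rfl
    rw [hΦ a _ h1, map_add, hψt, hψt, hφ5 d ⟨P.μ (G.pl (Sum.elim d 0)), h.μ_mem d⟩ rfl, map_one]
    rfl
  have H6 : ∀ d : J → G.Lie, ∀ a : rinv (MTF.spec P N),
      a.1 = (MTF.spec P N).ν (G.pl (Sum.elim d 0)) → Φ a = bν Q N (G.pl d) := by
    intro d a ha
    have h1 : a.1 = ι ((⟨P.ν (G.pl (Sum.elim d 0)), h.ν_mem d⟩ : rinv P) ⊗ₜ 1 +
        1 ⊗ₜ N.ν (G.pl d)) := by
      rw [ha, map_add, hιt, hιt]
      have h2 : (MTF.spec P N).ν (G.pl (Sum.elim d 0)) =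
        (P.ν (G.pl (Sum.elim d 0)) ⊗ₜ (1 : N.A) + (1 : P.A) ⊗ₜ
          N.ν (G.lmap (Sum.inl : J → J ⊕ E) (G.pl (Sum.elim d 0))) : P.A ⊗[ℂ] N.A) := rfl
      rw [h2, AffGrp.lmap_pl]
      rfl
    rw [hΦ a _ h1, map_add, hψt, hψt, hφ6 d ⟨P.ν (G.pl (Sum.elim d 0)), h.ν_mem d⟩ rfl, map_one]
    rfl
  exact isRed_mk (MTF.spec P N) (Q.box N) Φ H1 H2 H3 H4 H5 H6

end

end Pool.Agent.MTF
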