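import Pool.Agent.MTF.F2A
import Pool.Agent.MTF.F4A
import Pool.Agent.MTF.F5

/-! # MTF, part F (F10A) : splitting off a factor -/

namespace Pool.Agent.MTF

section
variable {G : AffGrp} {e f : G.Lie} {Hb : ∀ (g : ℕ) (I J : Type) [Finite I] [Finite J], Ham (G.pow I) (G.pow J)}
  {I J : Type} [Finite I] [Finite J]

/-- [F10a] PROOF. `HQ.mk (eta Hb X) = hq Hb X = HQ.mk P * HQ.pull inl inl n = HQ.mk (spec P n.out)` (`HQ.mk_mul`, `HQ.pull_mk`, `HQ.mk_out`), so `spec P n.out` is isomorphic to `eta Hb X`; similarly `Q.box n.out` to `eta Hb Y`. `IsRed.spec`, `IsRed.congr`. -/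
theorem red_of_mul {E : Type} [Finite E] {X : Cob (I ⊕ E) (J ⊕ E)} {Y : Cob I J} {P : Ham (G.pow (I ⊕ E)) (G.pow (J ⊕ E))}
    {Q : Ham (G.pow I) (G.pow J)} (n : HQ (G.pow I) (G.pow J)) (h : IsRed P Q)
    (hX : hq Hb X = HQ.mk P * HQ.pull (Sum.inl : I → I ⊕ E) (Sum.inl : J → J ⊕ E) n) (hY : hq Hb Y = HQ.mk Q * n) :
    IsRed (eta Hb X) (eta Hb Y) := by
  have f10a_1 : HQ.mk (spec P n.out) = HQ.mk (eta Hb X) := by
    rw [mk_eta, hX, ← HQ.mk_mul, ← HQ.pull_mk, HQ.mk_out]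
  have f10a_2 : HQ.mk (Q.box n.out) = HQ.mk (eta Hb Y) := by
    rw [mk_eta, hY, ← HQ.mk_mul, HQ.mk_out]
  exact (h.spec P n.out).congr (HQ.mk_eq.1 f10a_1) (HQ.mk_eq.1 f10a_2)

end

end Pool.Agent.MTF
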