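import Pool.Agent.MTF.F2

/-! # MTF, part F (F2A) : blocks -/

namespace Pool.Agent.MTF

open TensorProduct

section
variable {G : AffGrp} {e f : G.Lie} {Hb : ∀ (g : ℕ) (I J : Type) [Finite I] [Finite J], Ham (G.pow I) (G.pow J)}

/-- [F2a] the block depends only on the labels. PROOF. `hB.rel g I' J' I'' J'' a b : ((Hb g I' J').pull a b).Iso (Hb g I'' J'')`; apply `Iso.pull u' v'`, `pull_pull` and `u = u' ∘ a`, `v = v' ∘ b` (`funext`). -/
theorem blk_congr (hB : BB G e f Hb) {g g' : ℕ} (hg : g = g') {I' J' I'' J'' I J : Type} [Finite I'] [Finite J'] [Finite I'']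
    [Finite J''] [Finite I] [Finite J] {u : I' → I} {v : J' → J} {u' : I'' → I} {v' : J'' → J} (a : I' ≃ I'') (b : J' ≃ J'')
    (ha : ∀ i, u' (a i) = u i) (hb : ∀ j, v' (b j) = v j) : blk Hb g u v = blk Hb g' u' v' := by
  subst hg
  have hu : u = u' ∘ a := funext fun i => (ha i).symm
  have hv : v = v' ∘ b := funext fun j => (hb j).symm
  subst hu hv
  exact HQ.mk_eq.2 (((Hb g I' J').pull_pull a b u' v').symm.trans
    ((hB.rel g I' J' I'' J'' a b).pull u' v'))

/-- [F2b] PROOF. `HQ.pull_mk`, `pull_pull`. -/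
theorem pull_blk (g : ℕ) {I' J' I J I'' J'' : Type} [Finite I'] [Finite J'] [Finite I] [Finite J] [Finite I''] [Finite J'']
    (u : I' → I) (v : J' → J) (u' : I → I'') (v' : J → J'') :
    HQ.pull u' v' (blk Hb g u v) = blk Hb g (u' ∘ u) (v' ∘ v) :=
  HQ.mk_eq.2 ((Hb g I' J').pull_pull u v u' v')

/-- [F2c] PROOF. `hB.op` and `pull_neg`: `(M.pull u v).neg ≅ M.neg.pull u v ≅ M.pull u v`. -/
theorem neg_blk (hB : BB G e f Hb) (g : ℕ) {I' J' I J : Type} [Finite I'] [Finite J'] [Finite I] [Finite J]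
    (u : I' → I) (v : J' → J) : HQ.neg (blk Hb g u v) = blk Hb g u v :=
  HQ.mk_eq.2 (((Hb g I' J').pull_neg u v).symm.trans ((hB.op g I' J').symm.pull u v))

end

end Pool.Agent.MTF
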