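import Pool.Agent.MTF.F9Z
import Pool.Agent.MTF.F2A

/-! # MTF, part F (F10Z) : glueing one circle: definitions -/

namespace Pool.Agent.MTF

section
variable {G : AffGrp} {e f : G.Lie} {Hb : ∀ (g : ℕ) (I J : Type) [Finite I] [Finite J], Ham (G.pow I) (G.pow J)}
  {I J : Type} [Finite I] [Finite J]
variable (X : Cob (I ⊕ PUnit.{1}) (J ⊕ PUnit.{1}))

/-- the block of the component `c` with the circles of `I`, `J` only -/
noncomputable def rblk (Hb : ∀ (g : ℕ) (I J : Type) [Finite I] [Finite J], Ham (G.pow I) (G.pow J)) (c : X.C) : HQ (G.pow I) (G.pow J) :=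
  blk Hb (X.g c) (Subtype.val : {i : I // X.l (Sum.inl i) = c} → I) (Subtype.val : {j : J // X.r (Sum.inl j) = c} → J)

/-- the product of the blocks of the components different from the two with the circles `inr *` -/
noncomputable def restF (Hb : ∀ (g : ℕ) (I J : Type) [Finite I] [Finite J], Ham (G.pow I) (G.pow J)) : HQ (G.pow I) (G.pow J) :=
  ∏ᶠ c : {c : X.C // c ≠ X.l (Sum.inr PUnit.unit) ∧ c ≠ X.r (Sum.inr PUnit.unit)}, rblk X Hb c.1

/-- the types of circles of the two components -/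
abbrev I₁ : Type := {i : I // X.l (Sum.inl i) = X.l (Sum.inr PUnit.unit)}
abbrev J₁ : Type := {j : J // X.r (Sum.inl j) = X.l (Sum.inr PUnit.unit)}
abbrev I₂ : Type := {i : I // X.l (Sum.inl i) = X.r (Sum.inr PUnit.unit)}
abbrev J₂ : Type := {j : J // X.r (Sum.inl j) = X.r (Sum.inr PUnit.unit)}

/-- the two components -/
noncomputable def twoF (Hb : ∀ (g : ℕ) (I J : Type) [Finite I] [Finite J], Ham (G.pow I) (G.pow J)) :
    Ham (G.pow ((I₁ X ⊕ I₂ X) ⊕ PUnit.{1})) (G.pow ((J₁ X ⊕ J₂ X) ⊕ PUnit.{1})) :=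
  ((Hb (X.g (X.l (Sum.inr PUnit.unit))) (I₁ X ⊕ PUnit.{1}) (J₁ X)).pull
        (Sum.map Sum.inl id : I₁ X ⊕ PUnit.{1} → (I₁ X ⊕ I₂ X) ⊕ PUnit.{1})
        (Sum.inl ∘ Sum.inl : J₁ X → (J₁ X ⊕ J₂ X) ⊕ PUnit.{1})).box
      ((Hb (X.g (X.r (Sum.inr PUnit.unit))) (I₂ X) (J₂ X ⊕ PUnit.{1})).pull
        (Sum.inl ∘ Sum.inr : I₂ X → (I₁ X ⊕ I₂ X) ⊕ PUnit.{1})
        (Sum.map Sum.inr id : J₂ X ⊕ PUnit.{1} → (J₁ X ⊕ J₂ X) ⊕ PUnit.{1}))

/-- the labels of the circles of the two components -/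
def wI : I₁ X ⊕ I₂ X → I := Sum.elim Subtype.val Subtype.val
def wJ : J₁ X ⊕ J₂ X → J := Sum.elim Subtype.val Subtype.val

end

end Pool.Agent.MTF
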