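import Pool.Agent.MTF.F0d

/-! # MTF, part F (F11A) : unions -/

namespace Pool.Agent.MTF

open TensorProduct

section
variable {G : AffGrp}

/-- [F11u] PROOF. `Θ = e : (M.pull inl inl).A ⊗ (N.pull inr inr).A = M.A ⊗ N.A ≃ P.A` from the isomorphism; the four conditions are those of `Ham.Iso` (on `a ⊗ b`: `bact_tmul`; `bμ_apply`, `bν_apply`), read from right to left. -/
theorem isUnion_of_iso {I J I' J' : Type} [Finite I] [Finite J] [Finite I'] [Finite J'] (M : Ham (G.pow I) (G.pow J))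
    (N : Ham (G.pow I') (G.pow J')) (P : Ham (G.pow (I ⊕ I')) (G.pow (J ⊕ J')))
    (h : ((M.pull (Sum.inl : I → I ⊕ I') (Sum.inl : J → J ⊕ J')).box
      (N.pull (Sum.inr : I' → I ⊕ I') (Sum.inr : J' → J ⊕ J'))).Iso P) : IsUnion G M N P := by
  obtain ⟨e, h1, h2, h3, h4⟩ := h
  refine ⟨e, h1, fun h k a b => ?_, fun D => ?_, fun D => ?_⟩
  · exact (h2 (h, k) (a ⊗ₜ b)).symm
  · exact (h3 D).symm
  · exact (h4 D).symm

end

end Pool.Agent.MTF
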