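import Pool.Agent.MTF.F2A

/-! # MTF, part F (F2B) : isomorphic cobordisms -/

namespace Pool.Agent.MTF

open TensorProduct

section
variable {G : AffGrp} {e f : G.Lie} {Hb : ∀ (g : ℕ) (I J : Type) [Finite I] [Finite J], Ham (G.pow I) (G.pow J)}

/-- [F2d] PROOF. `e : X.C ≃ Y.C`; `finprod_comp_equiv`; each factor: `blk_congr` with `{i // X.l i = c} ≃ {i // Y.l i = e c}` (`Equiv.subtypeEquivRight`, `Y.l i = e (X.l i)`). -/
theorem hq_iso (hB : BB G e f Hb) {I J : Type} [Finite I] [Finite J] {X Y : Cob I J} (h : X.Iso Y) : hq Hb X = hq Hb Y := by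
  obtain ⟨e, hl, hr, hg⟩ := h
  show ∏ᶠ c : X.C, cblk Hb X c = ∏ᶠ c : Y.C, cblk Hb Y c
  rw [← finprod_comp_equiv e]
  refine finprod_congr fun c => ?_
  show blk Hb (X.g c) (Subtype.val : {i // X.l i = c} → I) (Subtype.val : {j // X.r j = c} → J) =
    blk Hb (Y.g (e c)) (Subtype.val : {i // Y.l i = e c} → I) (Subtype.val : {j // Y.r j = e c} → J)
  refine blk_congr hB (hg c).symm
    (Equiv.subtypeEquivRight fun i => ?_) (Equiv.subtypeEquivRight fun j => ?_) (fun _ => rfl) (fun _ => rfl)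
  · rw [← hl i, e.apply_eq_iff_eq]
  · rw [← hr j, e.apply_eq_iff_eq]

end

end Pool.Agent.MTF
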