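import Pool.Agent.MTF.F2A

/-! # MTF, part F (F2C) : relabelling, the opposite -/

namespace Pool.Agent.MTF

open TensorProduct

section
variable {G : AffGrp} {e f : G.Lie} {Hb : ∀ (g : ℕ) (I J : Type) [Finite I] [Finite J], Ham (G.pow I) (G.pow J)}

/-- [F2e] relabelling by bijections. PROOF. `map_finprod` for the homomorphism `HQ.pull` (finite index set: `MonoidHom.map_finprod_of_finite..` or `Fintype`); the component `c` of `X.pull u.symm v.symm` has the circles `{i // X.l (u.symm i) = c}`; `pull_blk`, `blk_congr` with the equivalence `i ↦ u i`. -/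
theorem hq_pull (hB : BB G e f Hb) {I J I' J' : Type} [Finite I] [Finite J] [Finite I'] [Finite J'] (X : Cob I J) (u : I ≃ I')
    (v : J ≃ J') : hq Hb (X.pull u.symm v.symm) = HQ.pull u v (hq Hb X) := by
  unfold hq
  rw [MonoidHom.map_finprod _ (Set.toFinite _)]
  refine finprod_congr fun c => ?_
  unfold cblk
  rw [pull_blk]
  let a : {i : I // X.l i = c} ≃ {i : I' // (X.pull u.symm v.symm).l i = c} :=
    u.subtypeEquiv fun i => by
      show X.l i = c ↔ X.l (u.symm (u i)) = c
      rw [u.symm_apply_apply]
  let b : {j : J // X.r j = c} ≃ {j : J' // (X.pull u.symm v.symm).r j = c} :=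
    v.subtypeEquiv fun j => by
      show X.r j = c ↔ X.r (v.symm (v j)) = c
      rw [v.symm_apply_apply]
  exact (blk_congr hB (rfl : X.g c = X.g c) a b (fun _ => rfl) (fun _ => rfl)).symm

/-- [F2g] PROOF. `map_finprod`, each factor by `neg_blk`. -/
theorem neg_hq (hB : BB G e f Hb) {I J : Type} [Finite I] [Finite J] (X : Cob I J) : HQ.neg (hq Hb X) = hq Hb X := by
  unfold hq
  rw [MonoidHom.map_finprod _ (Set.toFinite _)]
  exact finprod_congr fun c => neg_blk hB _ _ _

end

end Pool.Agent.MTF
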