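import Pool.Agent.MTF.F2A

/-! # MTF, part F (F2E) : union -/

namespace Pool.Agent.MTF

open TensorProduct

section
variable {G : AffGrp} {e f : G.Lie} {Hb : ∀ (g : ℕ) (I J : Type) [Finite I] [Finite J], Ham (G.pow I) (G.pow J)}

/-- the circles of the left components -/
noncomputable def f2e_l {I I₁ I₂ C D : Type} (l : I₁ → C) (r : I₂ → D) (u : I ≃ I₁ ⊕ I₂) (c : C) :
    {i₁ // l i₁ = c} ≃ {i // Sum.map l r (u i) = Sum.inl c} :=
  Equiv.ofBijective (fun i => ⟨u.symm (Sum.inl i.1), by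
    rw [Equiv.apply_symm_apply, Sum.map_inl, i.2]⟩)
    ⟨fun i i' h => by
      have h1 := congrArg Subtype.val h
      have h2 := Sum.inl_injective (u.symm.injective h1)
      exact Subtype.ext h2, by
      rintro ⟨i, hi⟩
      rcases hu : u i with i₁ | i₂
      · rw [hu, Sum.map_inl] at hi
        refine ⟨⟨i₁, Sum.inl_injective hi⟩, Subtype.ext ?_⟩
        show u.symm (Sum.inl i₁) = i
        rw [← hu, Equiv.symm_apply_apply]
      · rw [hu, Sum.map_inr] at hi
        exact absurd hi (by simp)⟩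

/-- the circles of the right components -/
noncomputable def f2e_r {I I₁ I₂ C D : Type} (l : I₁ → C) (r : I₂ → D) (u : I ≃ I₁ ⊕ I₂) (c : D) :
    {i₁ // r i₁ = c} ≃ {i // Sum.map l r (u i) = Sum.inr c} :=
  Equiv.ofBijective (fun i => ⟨u.symm (Sum.inr i.1), by
    rw [Equiv.apply_symm_apply, Sum.map_inr, i.2]⟩)
    ⟨fun i i' h => by
      have h1 := congrArg Subtype.val h
      have h2 := Sum.inr_injective (u.symm.injective h1)
      exact Subtype.ext h2, by
      rintro ⟨i, hi⟩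
      rcases hu : u i with i₁ | i₂
      · rw [hu, Sum.map_inl] at hi
        exact absurd hi (by simp)
      · rw [hu, Sum.map_inr] at hi
        refine ⟨⟨i₂, Sum.inr_injective hi⟩, Subtype.ext ?_⟩
        show u.symm (Sum.inr i₂) = i
        rw [← hu, Equiv.symm_apply_apply]⟩

/-- [F2f] PROOF. `hq` of a union: `finprod` over `S.C ⊕ T.C` (via `Fintype`: `Fintype.prod_sum_type`, `finprod_eq_prod_of_fintype`); the component `inl c` has the incoming circles `{i : I // Sum.map S.l T.l (u i) = inl c} ≃ {i₁ // S.l i₁ = c}`, `i₁ ↦ u.symm (inl i₁)`; `map_finprod`, `pull_blk`, `blk_congr`. -/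
theorem hq_join (hB : BB G e f Hb) {I J I₁ J₁ I₂ J₂ : Type} [Finite I] [Finite J] [Finite I₁] [Finite J₁] [Finite I₂] [Finite J₂]
    (S : Cob I₁ J₁) (T : Cob I₂ J₂) (u : I ≃ I₁ ⊕ I₂) (v : J ≃ J₁ ⊕ J₂) :
    hq Hb (S.join T u v) = HQ.pull (u.symm ∘ Sum.inl) (v.symm ∘ Sum.inl) (hq Hb S) *
      HQ.pull (u.symm ∘ Sum.inr) (v.symm ∘ Sum.inr) (hq Hb T) := by
  classical
  have : Fintype S.C := Fintype.ofFinite _
  have : Fintype T.C := Fintype.ofFinite _
  have h0 : hq Hb (S.join T u v) = ∏ᶠ c : S.C ⊕ T.C, cblk Hb (S.join T u v) c := rfl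
  have h1 : hq Hb S = ∏ᶠ c : S.C, cblk Hb S c := rfl
  have h2 : hq Hb T = ∏ᶠ c : T.C, cblk Hb T c := rfl
  rw [h0, h1, h2, finprod_eq_prod_of_fintype, finprod_eq_prod_of_fintype, finprod_eq_prod_of_fintype,
    Fintype.prod_sum_type, map_prod, map_prod]
  congr 1
  · refine Finset.prod_congr rfl fun c _ => ?_
    unfold cblk
    rw [pull_blk]
    exact (blk_congr hB rfl (f2e_l S.l T.l u c) (f2e_l S.r T.r v c) (fun _ => rfl) fun _ => rfl).symm
  · refine Finset.prod_congr rfl fun c _ => ?_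
    unfold cblk
    rw [pull_blk]
    exact (blk_congr hB rfl (f2e_r S.l T.l u c) (f2e_r S.r T.r v c) (fun _ => rfl) fun _ => rfl).symm

end

end Pool.Agent.MTF
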