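import Pool.Agent.MTF.F7D

/-! # MTF, part F (F7) : reduction in stages -/

namespace Pool.Agent.MTF

theorem f7_abs {A B C : Type} [CommRing A] [Algebra ℂ A] [CommRing B] [Algebra ℂ B] [CommRing C]
    [Algebra ℂ C] (R0 R1 : Subalgebra ℂ A) (I1 : Ideal A) (R2 : Subalgebra ℂ B) (I2 : Ideal B)
    (φ : R0 →ₐ[ℂ] B) (φ₂ : R2 →ₐ[ℂ] C) (m1 : ∀ y : R0, y.1 ∈ R1 ↔ φ y ∈ R2)
    (m2 : ∀ y : R0, y.1 ∈ I1 ↔ φ y ∈ I2)
    (lift : ∀ a ∈ R1, ∃ y : R0, y.1 ∈ R1 ∧ y.1 - a ∈ I1) (q2 : ∀ a, φ₂ a = 0 ↔ a.1 ∈ I2) :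
    ∃ Φ : R1 →ₐ[ℂ] C, ∀ (a : R1) (y : R0) (h : y.1 ∈ R1), y.1 - a.1 ∈ I1 →
      Φ a = φ₂ ⟨φ y, (m1 y).1 h⟩ := by
  have key : ∀ a : R1, ∃ y : R0, y.1 ∈ R1 ∧ y.1 - a.1 ∈ I1 := fun a => lift a.1 a.2
  choose Y hY1 hY2 using key
  have wd : ∀ (y y' : R0) (h : y.1 ∈ R1) (h' : y'.1 ∈ R1),
      y.1 - y'.1 ∈ I1 → φ₂ ⟨φ y, (m1 y).1 h⟩ = φ₂ ⟨φ y', (m1 y').1 h'⟩ := by
    intro y y' h h' hd
    have e1 : φ (y - y') ∈ I2 := (m2 (y - y')).1 hd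
    rw [map_sub] at e1
    have e2 : φ₂ (⟨φ y, (m1 y).1 h⟩ - ⟨φ y', (m1 y').1 h'⟩) = 0 := (q2 _).2 e1
    rw [map_sub] at e2
    exact sub_eq_zero.1 e2
  have hΦ : ∀ (a : R1) (y : R0) (h : y.1 ∈ R1), y.1 - a.1 ∈ I1 →
      φ₂ ⟨φ (Y a), (m1 _).1 (hY1 a)⟩ = φ₂ ⟨φ y, (m1 y).1 h⟩ := by
    intro a y h hd
    refine wd _ _ (hY1 a) h ?_
    have e1 := Ideal.sub_mem _ (hY2 a) hd
    rw [sub_sub_sub_cancel_right] at e1
    exact e1
  have hcst : ∀ c : ℂ, (algebraMap ℂ R0 c).1 ∈ R1 := fun c => Subalgebra.algebraMap_mem R1 c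
  have hcsub : ∀ c : ℂ, (algebraMap ℂ R0 c).1 - (algebraMap ℂ R1 c).1 ∈ I1 := by
    intro c
    have e1 : (algebraMap ℂ R0 c).1 - (algebraMap ℂ R1 c).1 = (0 : A) := sub_self _
    rw [e1]
    exact Ideal.zero_mem _
  have hΨc : ∀ c : ℂ, φ₂ ⟨φ (algebraMap ℂ R0 c), (m1 _).1 (hcst c)⟩ = algebraMap ℂ C c := by
    intro c
    have e1 : (⟨φ (algebraMap ℂ R0 c), (m1 _).1 (hcst c)⟩ : R2) = algebraMap ℂ R2 c :=
      Subtype.ext (φ.commutes c)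
    rw [e1]
    exact φ₂.commutes c
  refine ⟨{ toFun := fun a => φ₂ ⟨φ (Y a), (m1 _).1 (hY1 a)⟩
            map_one' := ?_
            map_mul' := ?_
            map_zero' := ?_
            map_add' := ?_
            commutes' := fun c => (hΦ _ (algebraMap ℂ R0 c) (hcst c) (hcsub c)).trans (hΨc c) }, hΦ⟩
  · have e := hΨc 1
    rw [map_one (algebraMap ℂ C)] at e
    refine (hΦ 1 (algebraMap ℂ R0 1) (hcst 1) ?_).trans e
    have e2 := hcsub 1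
    rw [map_one (algebraMap ℂ R1)] at e2
    exact e2
  · intro a b
    have hm : (Y a * Y b : R0).1 - (a * b).1 ∈ I1 := by
      have e1 : (Y a * Y b : R0).1 - (a * b).1 =
          ((Y a).1 - a.1) * (Y b).1 + a.1 * ((Y b).1 - b.1) := by
        show (Y a).1 * (Y b).1 - a.1 * b.1 = _
        ring
      rw [e1]
      exact Ideal.add_mem _ (Ideal.mul_mem_right _ _ (hY2 a)) (Ideal.mul_mem_left _ _ (hY2 b))
    refine (hΦ (a * b) (Y a * Y b) (Subalgebra.mul_mem R1 (hY1 a) (hY1 b)) hm).trans ?_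
    have e1 : (⟨φ (Y a * Y b), (m1 _).1 (Subalgebra.mul_mem R1 (hY1 a) (hY1 b))⟩ : R2) =
        ⟨φ (Y a), (m1 _).1 (hY1 a)⟩ * ⟨φ (Y b), (m1 _).1 (hY1 b)⟩ := Subtype.ext (map_mul φ _ _)
    rw [e1, map_mul]
  · have e := hΨc 0
    rw [map_zero (algebraMap ℂ C)] at e
    refine (hΦ 0 (algebraMap ℂ R0 0) (hcst 0) ?_).trans e
    have e2 := hcsub 0
    rw [map_zero (algebraMap ℂ R1)] at e2
    exact e2
  · intro a b
    have hm : (Y a + Y b : R0).1 - (a + b).1 ∈ I1 := by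
      have e1 : (Y a + Y b : R0).1 - (a + b).1 = ((Y a).1 - a.1) + ((Y b).1 - b.1) := by
        show ((Y a).1 + (Y b).1) - (a.1 + b.1) = _
        ring
      rw [e1]
      exact Ideal.add_mem _ (hY2 a) (hY2 b)
    refine (hΦ (a + b) (Y a + Y b) (Subalgebra.add_mem R1 (hY1 a) (hY1 b)) hm).trans ?_
    have e1 : (⟨φ (Y a + Y b), (m1 _).1 (Subalgebra.add_mem R1 (hY1 a) (hY1 b))⟩ : R2) =
        ⟨φ (Y a), (m1 _).1 (hY1 a)⟩ + ⟨φ (Y b), (m1 _).1 (hY1 b)⟩ := Subtype.ext (map_add φ _ _)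
    rw [e1, map_add]

section
variable {G : AffGrp} {I J E : Type} [Finite I] [Finite J] [Finite E]
  {P : Ham (G.pow ((I ⊕ E) ⊕ PUnit.{1})) (G.pow ((J ⊕ E) ⊕ PUnit.{1}))} {P₁ : Ham (G.pow (I ⊕ E)) (G.pow (J ⊕ E))}

/-- [F7] REDUCTION IN STAGES. PROOF. `φ` from `h₁.ex` (`St`), `φ₂ : rinv P₁ → Q.A` from `h₂.ex`. For `a ∈ rinv (pO P)` choose `y_a` by `exists_lift` and put `Φ a = φ₂ ⟨φ y_a, _⟩` (`mem_rinv_iff`). It does not depend on `y_a` (`mem_iff`: if `y - y' ∈ rI (pO P)`, `φ (y - y') ∈ rI P₁`, `φ₂ = 0`), so it is an algebra homomorphism (`y_a y_b`, `y_a + y_b` are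
admissible for `a b`, `a + b`: `rI` is an ideal; constants: `y = c`). Surjective: `q = φ₂ p`, `p = φ y`, `y ∈ rinv (pO P)` (`mem_rinv_iff`). Kernel: `Φ a = 0` iff `φ y_a ∈ rI P₁` iff `y_a ∈ rI (pO P)` iff `a` is. `isRed_mk`: bracket: `P.br y_a y_b - P.br a b ∈ rI (pO P)` (`br_rI_mem` twice, for `pO P`; the bracket of `pO P` is that of `P`), and
`P.br y_a y_b ∈ rinv P` (`br_mem_rinv`). Action of `(g, k)`: `ract (pO P) g k 1 a = ract P (Sum.elim g 1) (Sum.elim k 1) 1 a` (`ract_pO`), `ract .. y_a` is admissible; then `hφ.act` with `(Sum.elim g 1, Sum.elim k 1)`, and for `φ₂`: `ract P₁ g k 1 = P₁.act (Sum.elim g 1, Sum.elim k 1)` (`rfl`). Moment maps: `(pO P).μ (pl (Sum.elim d 0)) = P.μ (pl (Sum.elim (Sum.elim d 0) 0))`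
(`lmap_pl`), in `rinv P` (`μ_mem_rinv`); `hφ.μ`, and the property of `φ₂`. -/
theorem IsRed.stages {Q : Ham (G.pow I) (G.pow J)} (hR : ∃ R : Module.Dual ℂ G.O, IsReyF G R) (h₁ : IsRed P P₁) (h₂ : IsRed P₁ Q) :
    IsRed (pO P) Q := by
  obtain ⟨φ, p1, p2, p3, p4, p5, p6⟩ := h₁.ex
  have hφ : St P P₁ φ := ⟨p1, p2, p3, p4, p5, p6⟩
  obtain ⟨φ₂, q1, q2, q3, q4, q5, q6⟩ := h₂.ex
  have lift : ∀ a : P.A, a ∈ rinv (pO P) → ∃ y : rinv P, y.1 ∈ rinv (pO P) ∧ y.1 - a ∈ rI (pO P) :=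
    fun a ha => exists_lift hφ hR a ha
  obtain ⟨Φ, hΦ⟩ := f7_abs (A := P.A) (rinv P) (rinv (pO P)) (rI (pO P)) (rinv P₁) (rI P₁) φ φ₂
    (fun y => mem_rinv_iff hφ hR y) (fun y => mem_iff hφ hR y) lift q2
  refine isRed_mk (pO P) Q Φ ?_ ?_ ?_ ?_ ?_ ?_
  · intro q
    obtain ⟨p, rfl⟩ := q1 q
    obtain ⟨y, hy⟩ := hφ.surj p.1
    have h : y.1 ∈ rinv (pO P) := (mem_rinv_iff hφ hR y).2 (by rw [hy]; exact p.2)
    refine ⟨⟨y.1, h⟩, ?_⟩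
    have hd : y.1 - y.1 ∈ rI (pO P) := by
      rw [sub_self]
      exact Ideal.zero_mem _
    refine (hΦ ⟨y.1, h⟩ y h hd).trans ?_
    congr 1
    exact Subtype.ext hy
  · rintro ⟨a, ha⟩
    change P.A at a
    obtain ⟨y, hy1, hy2⟩ := lift a ha
    refine (Eq.congr_left (hΦ ⟨a, ha⟩ y hy1 hy2)).trans ((q2 _).trans ?_)
    show φ y ∈ rI P₁ ↔ a ∈ rI (pO P)
    rw [← mem_iff hφ hR y]
    constructor
    · intro h
      have e1 := Ideal.sub_mem _ h hy2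
      rw [sub_sub_cancel] at e1
      exact e1
    · intro h
      have e1 : (y.1 - a) + a ∈ rI (pO P) := Ideal.add_mem _ hy2 h
      rw [sub_add_cancel] at e1
      exact e1
  · rintro ⟨a, ha⟩ ⟨b, hb⟩ ⟨c, hcc⟩ hc
    change P.A at a
    change P.A at b
    change P.A at c
    have hc' : c = P.br a b := hc
    obtain ⟨y, hy1, hy2⟩ := lift a ha
    obtain ⟨x, hx1, hx2⟩ := lift b hb
    have hz : P.br y.1 x.1 ∈ rinv P := br_mem_rinv P y.2 x.2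
    have hz' : P.br y.1 x.1 ∈ rinv (pO P) := br_mem_rinv (pO P) hy1 hx1
    have hd : P.br y.1 x.1 - c ∈ rI (pO P) := by
      have e1 : P.br y.1 x.1 - c = P.br (y.1 - a) x.1 - P.br (x.1 - b) a := by
        rw [hc', P.br_skew (x.1 - b) a, map_sub, LinearMap.sub_apply, map_sub]
        abel
      rw [e1]
      exact Ideal.sub_mem _ (br_rI_mem (pO P) hy2 hx1) (br_rI_mem (pO P) hx2 ha)
    have ea := hΦ ⟨a, ha⟩ y hy1 hy2
    have eb := hΦ ⟨b, hb⟩ x hx1 hx2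
    have ec := hΦ ⟨c, hcc⟩ ⟨_, hz⟩ hz' hd
    refine ec.trans ((q3 ⟨φ y, (mem_rinv_iff hφ hR y).1 hy1⟩
      ⟨φ x, (mem_rinv_iff hφ hR x).1 hx1⟩ _ (hφ.br y x ⟨_, hz⟩ rfl)).trans ?_)
    exact (congrArg₂ (fun u v => Q.br u v) ea eb).symm
  · rintro g k ⟨a, ha⟩ ⟨b, hb⟩ hab
    change P.A at a
    change P.A at b
    have e0 : ∀ x : P.A, ract (pO P) g k 1 x = ract P (Sum.elim g 1) (Sum.elim k 1) 1 x := fun x =>
      ract_pO P g k 1 x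
    have hab' : b = ract P (Sum.elim g 1) (Sum.elim k 1) 1 a := Eq.trans hab (e0 a)
    obtain ⟨y, hy1, hy2⟩ := lift a ha
    have hz : ract P (Sum.elim g 1) (Sum.elim k 1) 1 y.1 ∈ rinv P := ract_mem_rinv P _ _ y.2
    have hz' : ract P (Sum.elim g 1) (Sum.elim k 1) 1 y.1 ∈ rinv (pO P) := by
      rw [← e0]
      exact ract_mem_rinv (pO P) g k hy1
    have hd : ract P (Sum.elim g 1) (Sum.elim k 1) 1 y.1 - b ∈ rI (pO P) := by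
      rw [hab', ← map_sub, ← e0]
      exact ract_rI (pO P) g k 1 hy2
    refine (hΦ ⟨b, hb⟩ ⟨_, hz⟩ hz' hd).trans
      ((q4 g k ⟨φ y, (mem_rinv_iff hφ hR y).1 hy1⟩ _ (hφ.act _ _ y ⟨_, hz⟩ rfl)).trans ?_)
    exact congrArg (Q.act (g, k)) (hΦ ⟨a, ha⟩ y hy1 hy2).symm
  · rintro d ⟨a, ha⟩ had
    change P.A at a
    have e0 : (pO P).μ (G.pl (Sum.elim d 0)) = P.μ (G.pl (Sum.elim (Sum.elim d 0) 0)) := by
      show P.μ (G.lmap aO (G.pl (Sum.elim d 0))) = _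
      rw [AffGrp.lmap_pl]
      congr 2
      funext x
      rcases x with (i | e) | u <;> rfl
    have had' : a = P.μ (G.pl (Sum.elim (Sum.elim d 0) 0)) := Eq.trans had e0
    have hz : P.μ (G.pl (Sum.elim (Sum.elim d 0) 0)) ∈ rinv P := μ_mem_rinv P _
    have hz' : P.μ (G.pl (Sum.elim (Sum.elim d 0) 0)) ∈ rinv (pO P) := by
      rw [← had']
      exact ha
    have hd : P.μ (G.pl (Sum.elim (Sum.elim d 0) 0)) - a ∈ rI (pO P) := by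
      rw [had', sub_self]
      exact Ideal.zero_mem _
    exact (hΦ ⟨a, ha⟩ ⟨_, hz⟩ hz' hd).trans (q5 d _ (hφ.μ _ ⟨_, hz⟩ rfl))
  · rintro d ⟨a, ha⟩ had
    change P.A at a
    have e0 : (pO P).ν (G.pl (Sum.elim d 0)) = P.ν (G.pl (Sum.elim (Sum.elim d 0) 0)) := by
      show P.ν (G.lmap aO (G.pl (Sum.elim d 0))) = _
      rw [AffGrp.lmap_pl]
      congr 2
      funext x
      rcases x with (i | e) | u <;> rfl
    have had' : a = P.ν (G.pl (Sum.elim (Sum.elim d 0) 0)) := Eq.trans had e0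
    have hz : P.ν (G.pl (Sum.elim (Sum.elim d 0) 0)) ∈ rinv P := ν_mem_rinv P _
    have hz' : P.ν (G.pl (Sum.elim (Sum.elim d 0) 0)) ∈ rinv (pO P) := by
      rw [← had']
      exact ha
    have hd : P.ν (G.pl (Sum.elim (Sum.elim d 0) 0)) - a ∈ rI (pO P) := by
      rw [had', sub_self]
      exact Ideal.zero_mem _
    exact (hΦ ⟨a, ha⟩ ⟨_, hz⟩ hz' hd).trans (q6 d _ (hφ.ν _ ⟨_, hz⟩ rfl))

end

end Pool.Agent.MTF
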