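import Pool.Agent.MTF.F8A

/-! # MTF, part F (F8) : the composition is the reduction of the product -/

namespace Pool.Agent.MTF

open TensorProduct

section
variable {G : AffGrp} {I J K : Type} [Finite I] [Finite J] [Finite K] (M : Ham (G.pow I) (G.pow J)) (N : Ham (G.pow J) (G.pow K))

theorem f8_aux (y : M.A ⊗[ℂ] N.A) : y ∈ rI (prd M N) ↔ y ∈ tI M N := by
  rw [rI_prd M N]
  exact Iff.rfl

theorem f8_mem (a : M.A ⊗[ℂ] N.A) : a ∈ rinv (prd M N) ↔ a ∈ tinv M N := by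
  have e1 : ∀ h : J → G.X, ract (prd M N) 1 1 h a = tact M N 1 h 1 a := fun h => ract_prd M N 1 1 h a
  constructor
  · intro h x
    refine (f8_aux M N (tact M N 1 x 1 a - a)).1 ?_
    rw [← e1]
    exact h x
  · intro h x
    have h1 := (f8_aux M N (tact M N 1 x 1 a - a)).2 (h x)
    rw [← e1] at h1
    exact h1

/-- the identification of the invariants -/
noncomputable def f8_inc : tinv M N →ₐ[ℂ] rinv (prd M N) where
  toFun a := ⟨a.1, (f8_mem M N a.1).2 a.2⟩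
  map_one' := rfl
  map_mul' _ _ := rfl
  map_zero' := rfl
  map_add' _ _ := rfl
  commutes' _ := rfl

theorem f8_μ (d : I → G.Lie) : (prd M N).μ (G.pl (Sum.elim d (0 : J → G.Lie))) =
    (M.μ (G.pl d) ⊗ₜ[ℂ] (1 : N.A) : M.A ⊗[ℂ] N.A) := by
  have h1 : G.lmap (Sum.inl : I → I ⊕ J) (G.pl (Sum.elim d (0 : J → G.Lie))) = G.pl d := by
    rw [AffGrp.lmap_pl, Sum.elim_comp_inl]
  have h2 : G.lmap (Sum.inr : J → I ⊕ J) (G.pl (Sum.elim d (0 : J → G.Lie))) = 0 := by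
    rw [AffGrp.lmap_pl, Sum.elim_comp_inr, map_zero]
  show (M.μ (G.lmap (Sum.inl : I → I ⊕ J) (G.pl (Sum.elim d (0 : J → G.Lie)))) ⊗ₜ[ℂ] (1 : N.A) +
    (1 : M.A) ⊗ₜ[ℂ] N.μ (G.lmap (Sum.inr : J → I ⊕ J) (G.pl (Sum.elim d (0 : J → G.Lie)))) :
      M.A ⊗[ℂ] N.A) = _
  rw [h1, h2, map_zero, TensorProduct.tmul_zero, add_zero]

theorem f8_ν (d : K → G.Lie) : (prd M N).ν (G.pl (Sum.elim d (0 : J → G.Lie))) =
    ((1 : M.A) ⊗ₜ[ℂ] N.ν (G.pl d) : M.A ⊗[ℂ] N.A) := by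
  have h1 : G.lmap (Sum.inl : K → K ⊕ J) (G.pl (Sum.elim d (0 : J → G.Lie))) = G.pl d := by
    rw [AffGrp.lmap_pl, Sum.elim_comp_inl]
  have h2 : G.lmap (Sum.inr : J → K ⊕ J) (G.pl (Sum.elim d (0 : J → G.Lie))) = 0 := by
    rw [AffGrp.lmap_pl, Sum.elim_comp_inr, map_zero]
  show (M.ν (G.lmap (Sum.inr : J → K ⊕ J) (G.pl (Sum.elim d (0 : J → G.Lie)))) ⊗ₜ[ℂ] (1 : N.A) +
    (1 : M.A) ⊗ₜ[ℂ] N.ν (G.lmap (Sum.inl : K → K ⊕ J) (G.pl (Sum.elim d (0 : J → G.Lie)))) :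
      M.A ⊗[ℂ] N.A) = _
  rw [h1, h2, map_zero, TensorProduct.zero_tmul, zero_add]

/-- [F8] PROOF. `mem_rinv (prd M N) ↔ mem_tinv M N` (`ract_prd`, `rI_prd`); `φ` from `h.ex` composed with the identification of the subalgebras (`Subalgebra.equivOfEq` or `AlgHom` with `toFun a := φ ⟨a.1, _⟩`). Moment maps: `M.μ D ⊗ 1 = (prd M N).μ (pl (Sum.elim d 0))` for `D = pl d` (`bμ_apply`, `lmap_pl`, `pl_lpr`); `1 ⊗ N.ν D = (prd M N).ν (pl (Sum.elim d 0))`. -/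
theorem isComp_of_isRed (P : Ham (G.pow I) (G.pow K)) (h : IsRed (prd M N) P) : IsComp M N P := by
  obtain ⟨φ, h1, h2, h3, h4, h5, h6⟩ := h.ex
  have hi : Function.Surjective (f8_inc M N) := fun a =>
    ⟨⟨a.1, (f8_mem M N a.1).1 a.2⟩, Subtype.ext rfl⟩
  have e3 : ∀ (g : I → G.X) (k : K → G.X) (x : M.A ⊗[ℂ] N.A),
      ract (prd M N) g k 1 x = tact M N g 1 k x := fun g k x => ract_prd M N g k 1 x
  refine ⟨φ.comp (f8_inc M N), h1.comp hi, fun a => ?_, fun a b c hc => ?_, fun a b => ?_,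
    fun g k a b hb => ?_, fun g k a => ?_, fun D a ha => ?_, fun D => ?_, fun D a ha => ?_,
    fun D => ?_⟩
  · have h7 := h2 (f8_inc M N a)
    rw [rI_prd M N] at h7
    exact h7
  · exact h3 (f8_inc M N a) (f8_inc M N b) (f8_inc M N c) hc
  · exact (f8_mem M N _).1 (h.br_mem (f8_inc M N a) (f8_inc M N b))
  · exact h4 g k (f8_inc M N a) (f8_inc M N b) (hb.trans (e3 g k a.1).symm)
  · have h7 := h.act_mem g k (f8_inc M N a)
    have h8 := (f8_mem M N _).1 h7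
    have h9 : ract (prd M N) g k 1 (f8_inc M N a).1 = tact M N g 1 k a.1 := e3 g k a.1
    rw [h9] at h8
    exact h8
  · have h7 := h5 (fun i => G.lpr i D) (f8_inc M N a) (ha.trans (by
      rw [f8_μ M N, AffGrp.pl_lpr]))
    rw [AffGrp.pl_lpr] at h7
    exact h7
  · have h7 := (f8_mem M N _).1 (h.μ_mem fun i => G.lpr i D)
    rw [f8_μ M N, AffGrp.pl_lpr] at h7
    exact h7
  · have h7 := h6 (fun i => G.lpr i D) (f8_inc M N a) (ha.trans (by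
      rw [f8_ν M N, AffGrp.pl_lpr]))
    rw [AffGrp.pl_lpr] at h7
    exact h7
  · have h7 := (f8_mem M N _).1 (h.ν_mem fun i => G.lpr i D)
    rw [f8_ν M N, AffGrp.pl_lpr] at h7
    exact h7

end

end Pool.Agent.MTF
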