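import Pool.Agent.MTF.F10
import Pool.Agent.MTF.F8
import Pool.Agent.MTF.F7
import Pool.Agent.MTF.F11A
import Pool.Agent.MTF.F2B
import Pool.Agent.MTF.F2C
import Pool.Agent.MTF.F2E

/-! # MTF, part F (F11) : the value of a glueing is the reduction; composition -/

namespace Pool.Agent.MTF

open TensorProduct

section
variable {G : AffGrp} {e f : G.Lie} {Hb : ∀ (g : ℕ) (I J : Type) [Finite I] [Finite J], Ham (G.pow I) (G.pow J)}

theorem eta_iso {I J : Type} [Finite I] [Finite J] {X Y : Cob I J} (h : hq Hb X = hq Hb Y) : (eta Hb X).Iso (eta Hb Y) :=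
  HQ.mk_eq.1 (by rw [mk_eta, mk_eta, h])

theorem iso_eta {I J : Type} [Finite I] [Finite J] {P : Ham (G.pow I) (G.pow J)} {X : Cob I J} (h : HQ.mk P = hq Hb X) :
    P.Iso (eta Hb X) :=
  HQ.mk_eq.1 (h.trans (mk_eta X).symm)

/-- relabelling by a bijection, as an isomorphism of values -/
theorem eta_pull (hB : BB G e f Hb) {I J I' J' : Type} [Finite I] [Finite J] [Finite I'] [Finite J'] (X : Cob I J) (Y : Cob I' J')
    (u : I ≃ I') (v : J ≃ J') (h : (X.pull u.symm v.symm).Iso Y) : ((eta Hb X).pull u v).Iso (eta Hb Y) :=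
  iso_eta (by rw [← HQ.pull_mk, mk_eta, ← hq_pull hB, hq_iso hB h])

/-- `I ⊕ Option E ≃ (I ⊕ E) ⊕ PUnit` -/
def eO (I E : Type) : (I ⊕ E) ⊕ PUnit.{1} ≃ I ⊕ Option E := ⟨aO, aOi, aOi_aO, aO_aOi⟩

theorem os_pull {I J E : Type} (X : Cob (I ⊕ Option E) (J ⊕ Option E)) : (X.os.pull (eO I E).symm (eO J E).symm).Iso X := by
  refine ⟨Equiv.refl _, fun i => ?_, fun j => ?_, fun _ => rfl⟩
  · show X.l (aO (aOi i)) = X.l i
    rw [aO_aOi]
  · show X.r (aO (aOi j)) = X.r j
    rw [aO_aOi]

/-- **The value of the glueing of the circles `E` is the reduction by `G^E`.** -/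
theorem red_tr (hB : BB G e f Hb) (E : Type) [Finite E] : ∀ (I J : Type) [Finite I] [Finite J] (X : Cob (I ⊕ E) (J ⊕ E)),
    IsRed (eta Hb X) (eta Hb X.tr) := by
  have key : ∀ (E : Type) [Finite E], ∀ [Finite E] (I J : Type) [Finite I] [Finite J] (X : Cob (I ⊕ E) (J ⊕ E)),
      IsRed (eta Hb X) (eta Hb X.tr) := by
    intro E _
    induction E using Finite.induction_empty_option with
    | of_equiv a ih =>
      rename_i E E' 
      intro _ I J _ _ X
      have : Finite E := Finite.of_equiv E' a.symm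
      let X' : Cob (I ⊕ E) (J ⊕ E) := X.pull (Sum.map id a) (Sum.map id a)
      have h1 := (ih I J X').reindex a
      have h2 : ((eta Hb X').pull (Equiv.sumCongr (Equiv.refl I) a) (Equiv.sumCongr (Equiv.refl J) a)).Iso (eta Hb X) := by
        refine eta_pull hB X' X _ _ ⟨Equiv.refl _, fun i => ?_, fun j => ?_, fun _ => rfl⟩
        · show X.l (Sum.map id a (Sum.map id a.symm i)) = X.l i
          rcases i with i | i
          · rfl
          · show X.l (Sum.inr (a (a.symm i))) = _
            rw [Equiv.apply_symm_apply]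
        · show X.r (Sum.map id a (Sum.map id a.symm j)) = X.r j
          rcases j with j | j
          · rfl
          · show X.r (Sum.inr (a (a.symm j))) = _
            rw [Equiv.apply_symm_apply]
      exact h1.congr h2 (eta_iso (hq_iso hB (Cob.tr_reindex a X)))
    | h_empty =>
      intro _ I J _ _ X
      have h1 := isRed_empty (eta Hb X)
      have h2 : ((eta Hb X).pull (Equiv.sumEmpty I PEmpty.{1}) (Equiv.sumEmpty J PEmpty.{1})).Iso (eta Hb X.tr) :=
        eta_pull hB X _ _ _ (Cob.tr_empty X).symm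
      refine h1.congr (Ham.Iso.refl _) ?_
      have e1 : ∀ I : Type, (Sum.elim id isEmptyElim : I ⊕ PEmpty.{1} → I) = Equiv.sumEmpty I PEmpty.{1} := by
        intro I
        funext x
        rcases x with x | x
        · rfl
        · exact x.elim
      rw [e1, e1]
      exact h2
    | h_option ih =>
      rename_i E _
      intro _ I J _ _ X
      have h3 : (pO (eta Hb X.os)).Iso (eta Hb X) := eta_pull hB X.os X (eO I E) (eO J E) (os_pull X)
      by_cases h : X.os.l (Sum.inr PUnit.unit) = X.os.r (Sum.inr PUnit.unit)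
      · have h1 := red_same X.os hB h
        have h2 := ih (I := I) (J := J) X.os.same
        exact (IsRed.stages hB.reyF h1 h2).congr h3 (eta_iso (hq_iso hB (Cob.tr_same X h)))
      · have h1 := red_merge X.os hB h
        have h2 := ih (I := I) (J := J) (X.os.merge h)
        exact (IsRed.stages hB.reyF h1 h2).congr h3 (eta_iso (hq_iso hB (Cob.tr_merge X h)))
  exact key E

/-- **Composition.** -/
theorem comp_eta (hB : BB G e f Hb) {I J K : Type} [Finite I] [Finite J] [Finite K] (S : Cob I J) (T : Cob J K) :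
    IsComp (eta Hb S) (eta Hb T) (eta Hb (S.comp T)) := by
  refine isComp_of_isRed _ _ _ ?_
  refine (red_tr hB J I K (Cob.glue S T)).congr (Ham.Iso.symm (iso_eta ?_)) (eta_iso (hq_iso hB (Cob.tr_glue S T)))
  rw [Cob.glue, hq_join hB, ← mk_eta S, ← mk_eta T, HQ.pull_mk, HQ.pull_mk, HQ.mk_mul]
  rfl

/-- **Disjoint union.** -/
theorem union_eta (hB : BB G e f Hb) {I J I' J' : Type} [Finite I] [Finite J] [Finite I'] [Finite J'] (S : Cob I J) (T : Cob I' J') :
    IsUnion G (eta Hb S) (eta Hb T) (eta Hb (S.union T)) := by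
  refine isUnion_of_iso _ _ _ (iso_eta ?_)
  have h := hq_join hB S T (Equiv.refl (I ⊕ I')) (Equiv.refl (J ⊕ J'))
  rw [← mk_eta S, ← mk_eta T, HQ.pull_mk, HQ.pull_mk, HQ.mk_mul] at h
  exact h.symm

end

end Pool.Agent.MTF
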