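import Pool.Agent.MTF.F0d

/-! # MTF, part F (F12A) : the disc: isomorphism -/

namespace Pool.Agent.MTF

section
variable {G : AffGrp} {e f : G.Lie}

/-- [F12a] PROOF. `Θ' = ε.symm.trans Θ`, `ε : P.A ≃ P'.A`; the conditions for `a` of `P'` follow from those for `ε.symm a` (`ε.symm (P'.act k a) = P.act k (ε.symm a)`, `ε.symm (P'.br a b) = P.br (ε.symm a) (ε.symm b)`: apply `ε`). -/
theorem IsKostant.congr {P P' : Ham (G.pow PUnit.{1}) (G.pow PEmpty.{1})} (h : IsKostant G e f P) (h' : P.Iso P') :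
    IsKostant G e f P' := by
  obtain ⟨Θ, h1, h2, h3⟩ := h
  obtain ⟨ε, e1, e2, e3, e4⟩ := h'
  have s1 : ∀ a b, ε.symm (P'.br a b) = P.br (ε.symm a) (ε.symm b) := by
    intro a b
    apply ε.injective
    rw [e1, ε.apply_symm_apply, ε.apply_symm_apply, ε.apply_symm_apply]
  have s2 : ∀ k a, ε.symm (P'.act k a) = P.act k (ε.symm a) := by
    intro k a
    apply ε.injective
    rw [e2, ε.apply_symm_apply, ε.apply_symm_apply]
  have s3 : ∀ D, ε.symm (P'.μ D) = P.μ D := by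
    intro D
    apply ε.injective
    rw [e3, ε.apply_symm_apply]
  refine ⟨ε.symm.trans Θ, ?_, ?_, ?_⟩
  · intro h k a x s
    show (Θ (ε.symm (P'.act (h, k) a))).1 (x, s) = _
    rw [s2]
    exact h1 h k (ε.symm a) x s
  · intro D x s
    show (Θ (ε.symm (P'.μ D))).1 (x, s) = _
    rw [s3]
    exact h2 D x s
  · intro a x s
    obtain ⟨A, u, hu, k1, k2⟩ := h3 (ε.symm a) x s
    refine ⟨A, u, hu, k1, ?_⟩
    intro b
    show (Θ (ε.symm (P'.br a b))).1 (x, s) = _
    rw [s1]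
    exact k2 (ε.symm b)

end

end Pool.Agent.MTF
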