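import Pool.Agent.MTF.F11
import Pool.Agent.MTF.F12A

/-! # MTF, part F (F12) : the disc -/

namespace Pool.Agent.MTF

section
variable {G : AffGrp} {e f : G.Lie} {Hb : ∀ (g : ℕ) (I J : Type) [Finite I] [Finite J], Ham (G.pow I) (G.pow J)}

theorem hq_disc (hB : BB G e f Hb) : hq Hb Cob.disc = HQ.mk (Hb 0 PUnit.{1} PEmpty.{1}) := by
  have h1 : hq Hb Cob.disc = cblk Hb Cob.disc PUnit.unit :=
    finprod_unique (α := PUnit.{1}) (cblk Hb Cob.disc)
  have h2 : cblk Hb Cob.disc PUnit.unit = blk Hb 0 (id : PUnit.{1} → PUnit.{1}) (id : PEmpty.{1} → PEmpty.{1}) := by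
    refine blk_congr hB rfl (Equiv.subtypeUnivEquiv fun _ => rfl) (Equiv.subtypeUnivEquiv fun x => x.elim) ?_ ?_
    · intro i
      rfl
    · intro j
      exact j.1.elim
  rw [h1, h2]
  exact HQ.mk_eq.2 (Hb 0 PUnit.{1} PEmpty.{1}).pull_id

/-- **The disc.** -/
theorem disc_eta (hB : BB G e f Hb) : IsKostant G e f (eta Hb Cob.disc) :=
  hB.disc.congr (iso_eta (hq_disc hB).symm)

end

end Pool.Agent.MTF
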