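import Pool.Agent.MTF.F13Z

/-! # MTF, part F (F13B) : cylinders: relabelling -/

namespace Pool.Agent.MTF

open TensorProduct

section
variable {G : AffGrp} {I I' : Type} [Finite I] [Finite I']

theorem f13b_rb1 (a : I ≃ I') (x : (G.pow I).X) : G.rb a (G.rb a.symm x) = x := by
  funext i
  show x (a.symm (a i)) = x i
  rw [a.symm_apply_apply]

theorem f13b_rb2 (a : I ≃ I') (x : (G.pow I').X) : G.rb a.symm (G.rb a x) = x := by
  funext i
  show x (a (a.symm i)) = x i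
  rw [a.apply_symm_apply]

theorem f13b_lm1 (a : I ≃ I') (D : (G.pow I).Lie) : G.lmap a (G.lmap a.symm D) = D := by
  apply AffGrp.lie_ext
  intro i
  rw [AffGrp.lpr_lmap, AffGrp.lpr_lmap, a.symm_apply_apply]

theorem f13b_lm2 (a : I ≃ I') (D : (G.pow I').Lie) : G.lmap a.symm (G.lmap a D) = D := by
  apply AffGrp.lie_ext
  intro i
  rw [AffGrp.lpr_lmap, AffGrp.lpr_lmap, a.apply_symm_apply]

theorem f13b_lmr (D : (G.pow I).Lie) : G.lmap (Equiv.refl I) D = D := by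
  apply AffGrp.lie_ext
  intro i
  rw [AffGrp.lpr_lmap]
  rfl

/-- the isomorphism of the functions on the cotangent bundles -/
noncomputable def f13b_e (a : I ≃ I') : (G.pow I).cotO ≃ₐ[ℂ] (G.pow I').cotO :=
  AlgEquiv.ofAlgHom (cotM a (G.lmap a.symm)) (cotM a.symm (G.lmap a))
    (by
      apply AlgHom.ext
      intro F
      apply Subtype.ext
      funext p
      obtain ⟨x, ξ⟩ := p
      show (cotM a (G.lmap a.symm) (cotM a.symm (G.lmap a) F)).1 (x, ξ) = F.1 (x, ξ)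
      rw [cotM_apply, cotM_apply, f13b_rb2]
      refine congrArg F.1 (Prod.ext rfl ?_)
      apply LinearMap.ext
      intro D
      show ξ (G.lmap a.symm (G.lmap a D)) = ξ D
      rw [f13b_lm2])
    (by
      apply AlgHom.ext
      intro F
      apply Subtype.ext
      funext p
      obtain ⟨x, ξ⟩ := p
      show (cotM a.symm (G.lmap a) (cotM a (G.lmap a.symm) F)).1 (x, ξ) = F.1 (x, ξ)
      rw [cotM_apply, cotM_apply, f13b_rb1]
      refine congrArg F.1 (Prod.ext rfl ?_)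
      apply LinearMap.ext
      intro D
      show ξ (G.lmap a (G.lmap a.symm D)) = ξ D
      rw [f13b_lm1])

theorem f13b_e_apply (a : I ≃ I') (F : (G.pow I).cotO) (x : (G.pow I').X) (ξ : Module.Dual ℂ (G.pow I').Lie) :
    (f13b_e a F).1 (x, ξ) = F.1 (G.rb a x, ξ ∘ₗ G.lmap a.symm) := rfl

/-- [F13d] relabelling. PROOF. `A = cotM a (G.lmap a.symm)`, `B = cotM a.symm (G.lmap a)` are inverse to each other (`AlgEquiv.ofAlgHom`; `cotM_apply`, `x ∘ a ∘ a.symm = x`, `G.lmap a.symm (G.lmap a D) = D`: `rfl` up to `Equiv.apply_symm_apply`; `lie_ext`, `lpr_lmap`). `Θ' = Θ` followed by `A`. (1) `(P.pull a a).act (h, k) = P.act (h ∘ a, k ∘ a)`;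
`(ξ ∘ lmap a.symm) ∘ Ad (k ∘ a) = (ξ ∘ Ad k) ∘ lmap a.symm` (`AffGrp.lmap_Ad` for `u = a.symm`, `rb a.symm (k ∘ a) = k`). (2) `μ' D = P.μ (lmap a D)`, `(ξ ∘ lmap a.symm) (Ad (x ∘ a)⁻¹ (lmap a D)) = ξ (Ad x⁻¹ D)`. (3) similarly. (4) if `Θ' a` does not depend on `ξ`, neither does `Θ a` (every `(x, ξ)` of `G^I` is of the form `(x' ∘ a, ξ' ∘ lmap a.symm)`). -/
theorem IsCyl.relabel (a : I ≃ I') {P : Ham (G.pow I) (G.pow I)} (h : IsCyl G (Equiv.refl I) P) :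
    IsCyl G (Equiv.refl I') (P.pull a a) := by
  obtain ⟨Θ, h1, h2, h3, h4⟩ := h
  refine ⟨Θ.trans (f13b_e a), fun g k b x ξ => ?_, fun D x ξ => ?_, fun D x ξ => ?_, fun b c hb hc => ?_⟩
  · show (f13b_e a (Θ (P.act (G.rb a g, G.rb a k) b))).1 (x, ξ) = (f13b_e a (Θ b)).1 _
    rw [f13b_e_apply, f13b_e_apply, h1]
    refine congrArg (Θ b).1 (Prod.ext rfl ?_)
    apply LinearMap.ext
    intro D
    show ξ (G.lmap a.symm ((G.pow I).Ad (G.rb a k) D)) = ξ ((G.pow I').Ad k (G.lmap a.symm D))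
    rw [AffGrp.lmap_Ad, f13b_rb2]
  · show (f13b_e a (Θ (P.μ (G.lmap a D)))).1 (x, ξ) = _
    rw [f13b_e_apply, h2]
    show ξ (G.lmap a.symm ((G.pow I).Ad (G.rb a x⁻¹) (G.lmap a D))) = _
    rw [← AffGrp.lmap_Ad, f13b_lm2]
  · show (f13b_e a (Θ (P.ν (G.lmap a D)))).1 (x, ξ) = _
    rw [f13b_e_apply, h3, f13b_lmr, f13b_lmr]
    show ξ (G.lmap a.symm (G.lmap a D)) = _
    rw [f13b_lm2]
  · have key : ∀ b : P.A, (∀ (x : (G.pow I').X) (ξ η : Module.Dual ℂ (G.pow I').Lie),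
        (f13b_e a (Θ b)).1 (x, ξ) = (f13b_e a (Θ b)).1 (x, η)) →
        ∀ x ξ η, (Θ b).1 (x, ξ) = (Θ b).1 (x, η) := by
      intro b hb x ξ η
      have e : ∀ ζ : Module.Dual ℂ (G.pow I).Lie, (f13b_e a (Θ b)).1 (G.rb a.symm x, ζ ∘ₗ G.lmap a) = (Θ b).1 (x, ζ) := by
        intro ζ
        rw [f13b_e_apply, f13b_rb1]
        refine congrArg (Θ b).1 (Prod.ext rfl ?_)
        apply LinearMap.ext
        intro D
        show ζ (G.lmap a (G.lmap a.symm D)) = ζ D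
        rw [f13b_lm1]
      rw [← e ξ, ← e η]
      exact hb _ _ _
    exact h4 b c (key b hb) (key c hc)

end

end Pool.Agent.MTF
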