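import Pool.Agent.MTF.F0d

/-! # MTF, part F (F13C) : cylinders: no circles -/

namespace Pool.Agent.MTF

open TensorProduct

section
variable {G : AffGrp}

theorem f13c_lie (D : (G.pow PEmpty.{1}).Lie) : D = 0 := AffGrp.lie_ext fun l => l.elim

theorem f13c_dual (ξ : Module.Dual ℂ (G.pow PEmpty.{1}).Lie) : ξ = 0 :=
  LinearMap.ext fun D => by rw [f13c_lie D, map_zero, map_zero]

theorem f13c_bij : Function.Bijective (Algebra.ofId ℂ (G.pow PEmpty.{1}).cotO) := by
  constructor
  · intro c c' h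
    have h1 := congrArg (fun F : (G.pow PEmpty.{1}).cotO =>
      F.1 ((1 : (G.pow PEmpty.{1}).X), (0 : Module.Dual ℂ (G.pow PEmpty.{1}).Lie))) h
    exact h1
  · intro F
    refine ⟨F.1 ((1 : (G.pow PEmpty.{1}).X), (0 : Module.Dual ℂ (G.pow PEmpty.{1}).Lie)), ?_⟩
    apply Subtype.ext
    funext p
    obtain ⟨x, ξ⟩ := p
    have hx : x = 1 := funext fun i => i.elim
    rw [hx, f13c_dual ξ]
    rfl

/-- [F13e] no circles. PROOF. `(PEmpty → G.X)` has one element, `Lie (G^∅) = 0` (`AffGrp.lie_ext`), so `cotO` is an algebra of functions on a set with one element: `Θ c` = the constant function `c`, `AlgEquiv.ofBijective (Algebra.ofId ℂ _)`: injective (evaluate at the point), surjective (`F = F (pt)`). The conditions: act and moment maps are trivial (`D = 0`). -/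
theorem isCyl_triv : IsCyl G (Equiv.refl PEmpty.{1}) (Ham.triv (G.pow PEmpty.{1}) (G.pow PEmpty.{1})) := by
  refine ⟨AlgEquiv.ofBijective (Algebra.ofId ℂ _) f13c_bij, ?_, ?_, ?_, ?_⟩
  · intro h k a x ξ
    rfl
  · intro D x ξ
    rw [f13c_dual ξ, LinearMap.zero_apply]
    rfl
  · intro D x ξ
    rw [f13c_dual ξ, LinearMap.zero_apply]
    rfl
  · intro a b _ _
    rfl

end

end Pool.Agent.MTF
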