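import Pool.Agent.MTF.F0d

/-! # MTF, part F (F13A) : cylinders: isomorphism -/

namespace Pool.Agent.MTF

open TensorProduct

section
variable {G : AffGrp}

/-- [F13a] PROOF. `Θ' = ε.symm.trans Θ`, `ε : P.A ≃ P'.A`; `ε.symm (P'.act k a) = P.act k (ε.symm a)` etc. (apply `ε`). -/
theorem IsCyl.congr {I J : Type} [Finite I] [Finite J] {u : I ≃ J} {P P' : Ham (G.pow I) (G.pow J)} (h : IsCyl G u P)
    (h' : P.Iso P') : IsCyl G u P' := by
  obtain ⟨Θ, h1, h2, h3, h4⟩ := h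
  obtain ⟨ε, e1, e2, e3, e4⟩ := h'
  have a1 : ∀ k a, ε.symm (P'.act k a) = P.act k (ε.symm a) := by
    intro k a
    apply ε.injective
    rw [e2, AlgEquiv.apply_symm_apply, AlgEquiv.apply_symm_apply]
  have a2 : ∀ D, ε.symm (P'.μ D) = P.μ D := by
    intro D
    rw [← e3, AlgEquiv.symm_apply_apply]
  have a3 : ∀ D, ε.symm (P'.ν D) = P.ν D := by
    intro D
    rw [← e4, AlgEquiv.symm_apply_apply]
  refine ⟨ε.symm.trans Θ, ?_, ?_, ?_, ?_⟩
  · intro h k a x ξ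
    rw [AlgEquiv.trans_apply, AlgEquiv.trans_apply, a1]
    exact h1 h k _ x ξ
  · intro D x ξ
    rw [AlgEquiv.trans_apply, a2]
    exact h2 D x ξ
  · intro D x ξ
    rw [AlgEquiv.trans_apply, a3]
    exact h3 D x ξ
  · intro a b ha hb
    have h5 := h4 (ε.symm a) (ε.symm b) ha hb
    have h6 := e1 (ε.symm a) (ε.symm b)
    rw [h5, map_zero, AlgEquiv.apply_symm_apply, AlgEquiv.apply_symm_apply] at h6
    exact h6.symm

/-- [F13b] PROOF. The same `Θ`; `(P.pull id u).act (h, k) = P.act (h, k ∘ u)`, `G.rb u k = k ∘ u`, `(P.pull id u).ν D = P.ν (G.lmap u D)`, `G.lmap (Equiv.refl I) D' = D'` (`rfl` up to `Subtype.ext`), all by `rfl`. -/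
theorem IsCyl.of_refl {I J : Type} [Finite I] [Finite J] (u : I ≃ J) {P : Ham (G.pow I) (G.pow I)}
    (h : IsCyl G (Equiv.refl I) P) : IsCyl G u (P.pull id u) := by
  obtain ⟨Θ, h1, h2, h3, h4⟩ := h
  exact ⟨Θ, fun h k a x ξ => h1 h (G.rb u k) a x ξ, fun D x ξ => h2 D x ξ,
    fun D x ξ => h3 (G.lmap u D) x ξ, fun a b ha hb => h4 a b ha hb⟩

end

end Pool.Agent.MTF
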