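import Pool.Agent.MTF.F0d

/-! # MTF, part F (F13Z) : functions on the cotangent bundles -/

namespace Pool.Agent.MTF

open TensorProduct

section
variable {G : AffGrp} {I I' : Type} [Finite I] [Finite I']

/-- [F13c] the map of functions on the cotangent bundles given by `u : I → I'` and a linear map of the Lie algebras. -/
noncomputable def cotM (u : I → I') (ι : (G.pow I).Lie →ₗ[ℂ] (G.pow I').Lie) : (G.pow I).cotO →ₐ[ℂ] (G.pow I').cotO where
  toFun F := ⟨fun p => F.1 (fun i => p.1 (u i), p.2 ∘ₗ ι), by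
    obtain ⟨F, hF⟩ := F
    have hF' := hF
    unfold AffGrp.cotO at hF' ⊢
    show (fun p : (G.pow I').X × Module.Dual ℂ (G.pow I').Lie => F (fun i => p.1 (u i), p.2 ∘ₗ ι)) ∈ _
    induction hF' using Algebra.adjoin_induction with
    | mem F hF'' =>
      rcases hF'' with ⟨f, rfl⟩ | ⟨D, rfl⟩
      · exact Algebra.subset_adjoin (Or.inl ⟨G.pre u f, rfl⟩)
      · exact Algebra.subset_adjoin (Or.inr ⟨ι D, rfl⟩)
    | algebraMap c => exact Subalgebra.algebraMap_mem _ c
    | add F F' h1 h2 ih ih' => exact Subalgebra.add_mem _ (ih h1) (ih' h2)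
    | mul F F' h1 h2 ih ih' => exact Subalgebra.mul_mem _ (ih h1) (ih' h2)⟩
  map_one' := rfl
  map_mul' _ _ := rfl
  map_zero' := rfl
  map_add' _ _ := rfl
  commutes' _ := rfl

theorem cotM_apply (u : I → I') (ι : (G.pow I).Lie →ₗ[ℂ] (G.pow I').Lie) (F : (G.pow I).cotO) (x : (G.pow I').X)
    (ξ : Module.Dual ℂ (G.pow I').Lie) : (cotM u ι F).1 (x, ξ) = F.1 (G.rb u x, ξ ∘ₗ ι) := rfl

end

end Pool.Agent.MTF
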