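import Pool.Agent.MTF.F14B

/-! # MTF, part F (F14D) : surjectivity -/

namespace Pool.Agent.MTF

open TensorProduct

section
variable {G : AffGrp} {I I' : Type} [Finite I] [Finite I']

/-- [F14d] PROOF. The range is a subalgebra (of functions) which contains the generators of `cotO`: `p ↦ F p.1` for `F ∈ (G.pow (I ⊕ I')).O = powO (I ⊕ I')` (induction `Algebra.adjoin_induction`: `x ↦ f (x (inl i))` is `cotP ((pull i f) ⊗ 1)`), and `p ↦ p.2 D = p.2 (iL (lmap inl D)) + p.2 (iR (lmap inr D))` (`iL_add_iR`), `cotP ((ξ ↦ ξ D') ⊗ 1)`. -/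
theorem cotP_surj : Function.Surjective (cotP G I I') := by
  have key : ∀ F, F ∈ (G.pow (I ⊕ I')).cotO →
      F ∈ ((Subalgebra.val (G.pow (I ⊕ I')).cotO).comp (cotP G I I')).range := by
    have hO : ∀ f, f ∈ G.powO (I ⊕ I') →
        (fun p : (G.pow (I ⊕ I')).X × Module.Dual ℂ (G.pow (I ⊕ I')).Lie => f p.1) ∈
          ((Subalgebra.val (G.pow (I ⊕ I')).cotO).comp (cotP G I I')).range := by
      intro f hf
      unfold AffGrp.powO at hf
      induction hf using Algebra.adjoin_induction with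
      | mem f hf =>
        obtain ⟨i, g, rfl⟩ := hf
        rcases i with i | i
        · refine ⟨(⟨fun p => g.1 (p.1 i),
            Algebra.subset_adjoin (Or.inl ⟨G.pull i g, rfl⟩)⟩ : (G.pow I).cotO) ⊗ₜ 1, ?_⟩
          funext p
          obtain ⟨x, ξ⟩ := p
          exact (cotP_tmul _ _ x ξ).trans (mul_one _)
        · refine ⟨1 ⊗ₜ (⟨fun p => g.1 (p.1 i),
            Algebra.subset_adjoin (Or.inl ⟨G.pull i g, rfl⟩)⟩ : (G.pow I').cotO), ?_⟩
          funext p
          obtain ⟨x, ξ⟩ := p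
          exact (cotP_tmul _ _ x ξ).trans (one_mul _)
      | algebraMap c => exact Subalgebra.algebraMap_mem _ c
      | add F F' _ _ ih ih' => exact Subalgebra.add_mem _ ih ih'
      | mul F F' _ _ ih ih' => exact Subalgebra.mul_mem _ ih ih'
    intro F hF
    unfold AffGrp.cotO at hF
    induction hF using Algebra.adjoin_induction with
    | mem F hF' =>
      rcases hF' with ⟨f, rfl⟩ | ⟨D, rfl⟩
      · exact hO f.1 f.2
      · refine ⟨(⟨fun p => p.2 (G.lmap Sum.inl D),
            Algebra.subset_adjoin (Or.inr ⟨_, rfl⟩)⟩ : (G.pow I).cotO) ⊗ₜ 1 +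
          1 ⊗ₜ (⟨fun p => p.2 (G.lmap Sum.inr D),
            Algebra.subset_adjoin (Or.inr ⟨_, rfl⟩)⟩ : (G.pow I').cotO), ?_⟩
        funext p
        obtain ⟨x, ξ⟩ := p
        rw [map_add]
        have h1 : ξ D = ξ (iL (G.lmap Sum.inl D)) + ξ (iR (G.lmap Sum.inr D)) := by
          rw [← map_add, iL_add_iR]
        refine Eq.trans ?_ h1.symm
        exact congrArg₂ (· + ·) ((cotP_tmul _ _ x ξ).trans (mul_one _))
          ((cotP_tmul _ _ x ξ).trans (one_mul _))
    | algebraMap c => exact Subalgebra.algebraMap_mem _ c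
    | add F F' _ _ ih ih' => exact Subalgebra.add_mem _ ih ih'
    | mul F F' _ _ ih ih' => exact Subalgebra.mul_mem _ ih ih'
  intro F
  obtain ⟨t, ht⟩ := key F.1 F.2
  exact ⟨t, Subtype.ext ht⟩

end

end Pool.Agent.MTF
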