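import Pool.Agent.MTF.F14Z

/-! # MTF, part F (F14E) : restriction to the zero section -/

namespace Pool.Agent.MTF

open TensorProduct

section
variable {G : AffGrp} {I I' : Type} [Finite I] [Finite I']

/-- [F14e] PROOF. Both sides are algebra homomorphisms in `t`: `Algebra.TensorProduct.ext` or induction; on `F ⊗ F'`: `cotP_tmul`, `cz_apply`, `0 ∘ₗ iL = 0`. -/
theorem cotP_cz (t : (G.pow I).cotO ⊗[ℂ] (G.pow I').cotO) :
    cotP G I I' (Algebra.TensorProduct.map (cz (G.pow I)) (cz (G.pow I')) t) = cz (G.pow (I ⊕ I')) (cotP G I I' t) := by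
  induction t using TensorProduct.induction_on with
  | zero => simp only [map_zero]
  | add t t' h h' => rw [map_add, map_add, h, h', map_add, map_add]
  | tmul F F' =>
    apply Subtype.ext
    funext p
    obtain ⟨x, ξ⟩ := p
    rw [Algebra.TensorProduct.map_tmul, cotP_tmul, cz_apply, cz_apply, cz_apply, cotP_tmul,
      LinearMap.zero_comp, LinearMap.zero_comp]

/-- [F14f] the product bracket vanishes on tensors of functions of `x` alone. PROOF. `s = (Θ⁻¹ ∘ cz ∘ Θ) ⊗ (Θ'⁻¹ ∘ cz ∘ Θ')` applied to `a`, `b`: by `TensorProduct.induction_on` for `a` and `b` (bilinearity), on pure tensors `tbr_tmul` and the hypotheses (`(cz F) (x, ξ) = (cz F) (x, η)`: `cz_apply`), each term is `0 ⊗ _` or `_ ⊗ 0`. -/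
theorem tbr_cz {M N : PAlg} (Θ : M.A ≃ₐ[ℂ] (G.pow I).cotO) (Θ' : N.A ≃ₐ[ℂ] (G.pow I').cotO)
    (h : ∀ a b : M.A, (∀ x ξ η, (Θ a).1 (x, ξ) = (Θ a).1 (x, η)) → (∀ x ξ η, (Θ b).1 (x, ξ) = (Θ b).1 (x, η)) → M.br a b = 0)
    (h' : ∀ a b : N.A, (∀ x ξ η, (Θ' a).1 (x, ξ) = (Θ' a).1 (x, η)) → (∀ x ξ η, (Θ' b).1 (x, ξ) = (Θ' b).1 (x, η)) → N.br a b = 0)
    (t t' : (G.pow I).cotO ⊗[ℂ] (G.pow I').cotO) :
    tbr M N (Algebra.TensorProduct.map (Θ.symm.toAlgHom.comp (cz _)) (Θ'.symm.toAlgHom.comp (cz _)) t)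
      (Algebra.TensorProduct.map (Θ.symm.toAlgHom.comp (cz _)) (Θ'.symm.toAlgHom.comp (cz _)) t') = 0 := by
  induction t using TensorProduct.induction_on with
  | zero => rw [map_zero, map_zero, LinearMap.zero_apply]
  | add t s h1 h2 => rw [map_add, map_add, LinearMap.add_apply, h1, h2, add_zero]
  | tmul F F' =>
    induction t' using TensorProduct.induction_on with
    | zero => rw [map_zero, map_zero]
    | add t s h1 h2 => rw [map_add, map_add, h1, h2, add_zero]
    | tmul K K' =>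
      rw [Algebra.TensorProduct.map_tmul, Algebra.TensorProduct.map_tmul, tbr_tmul]
      have e1 : ∀ F : (G.pow I).cotO, ∀ x ξ η,
          (Θ ((Θ.symm.toAlgHom.comp (cz (G.pow I))) F)).1 (x, ξ) =
            (Θ ((Θ.symm.toAlgHom.comp (cz (G.pow I))) F)).1 (x, η) := by
        intro F x ξ η
        have e2 : Θ ((Θ.symm.toAlgHom.comp (cz (G.pow I))) F) = cz (G.pow I) F :=
          Θ.apply_symm_apply _
        rw [e2]
        rfl
      have e3 : ∀ F : (G.pow I').cotO, ∀ x ξ η,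
          (Θ' ((Θ'.symm.toAlgHom.comp (cz (G.pow I'))) F)).1 (x, ξ) =
            (Θ' ((Θ'.symm.toAlgHom.comp (cz (G.pow I'))) F)).1 (x, η) := by
        intro F x ξ η
        have e2 : Θ' ((Θ'.symm.toAlgHom.comp (cz (G.pow I'))) F) = cz (G.pow I') F :=
          Θ'.apply_symm_apply _
        rw [e2]
        rfl
      rw [h _ _ (e1 F) (e1 K), h' _ _ (e3 F') (e3 K'), TensorProduct.zero_tmul,
        TensorProduct.tmul_zero, add_zero]

end

end Pool.Agent.MTF
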