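import Pool.Agent.MTF.F14C
import Pool.Agent.MTF.F14D
import Pool.Agent.MTF.F14E

/-! # MTF, part F (F14) : the product of cylinders -/

namespace Pool.Agent.MTF

open TensorProduct

section
variable {G : AffGrp} {I I' : Type} [Finite I] [Finite I']

/-- [F14] THE PRODUCT OF CYLINDERS. PROOF. `Θ'' = (Algebra.TensorProduct.congr Θ Θ').trans (AlgEquiv.ofBijective (cotP G I I') ⟨cotP_inj, cotP_surj⟩)`. (1) on `a ⊗ b` (both sides are algebra homomorphisms / linear in the element; induction): `bact_tmul`, `cotP_tmul`, the hypotheses, and `(ξ ∘ Ad k) ∘ iL = (ξ ∘ iL) ∘ Ad (rb inl k)` (`Ad_iL`).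
(2) `μ D = M.μ (lmap inl D) ⊗ 1 + 1 ⊗ N.μ (lmap inr D)` (`bμ_apply`), evaluate: `(ξ ∘ iL) (Ad (rb inl x)⁻¹ (lmap inl D)) + (ξ ∘ iR) (..) = ξ (iL (lmap inl (Ad x⁻¹ D)) + iR (lmap inr (Ad x⁻¹ D)))` (`AffGrp.lmap_Ad`), `iL_add_iR`. (3) the same with `bν_apply`, `G.lmap (Equiv.refl _) D = D`.
(4) if `F = Θ'' a` does not depend on `ξ` then `F = cz F`, `F = cotP t`, `cz (cotP t) = cotP (map cz cz t)` (`cotP_cz`), so `a = Algebra.TensorProduct.map (Θ⁻¹ cz) (Θ'⁻¹ cz) t` (injectivity of `Θ''`); the same for `b`; `tbr_cz`. -/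
theorem IsCyl.box {M : Ham (G.pow I) (G.pow I)} {N : Ham (G.pow I') (G.pow I')} (h : IsCyl G (Equiv.refl I) M)
    (h' : IsCyl G (Equiv.refl I') N) :
    IsCyl G (Equiv.refl (I ⊕ I')) ((M.pull (Sum.inl : I → I ⊕ I') (Sum.inl : I → I ⊕ I')).box
      (N.pull (Sum.inr : I' → I ⊕ I') (Sum.inr : I' → I ⊕ I'))) := by
  obtain ⟨Θ, h1, h2, h3, h4⟩ := h
  obtain ⟨Θ', h1', h2', h3', h4'⟩ := h'
  let Φ : (M.A ⊗[ℂ] N.A) ≃ₐ[ℂ] (G.pow (I ⊕ I')).cotO :=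
    (Algebra.TensorProduct.congr Θ Θ').trans (AlgEquiv.ofBijective (cotP G I I') ⟨cotP_inj, cotP_surj⟩)
  have hΦ : ∀ a b x ξ, (Φ (a ⊗ₜ[ℂ] b)).1 (x, ξ) = (Θ a).1 (G.rb Sum.inl x, ξ ∘ₗ iL) * (Θ' b).1 (G.rb Sum.inr x, ξ ∘ₗ iR) :=
    fun a b x ξ => cotP_tmul (Θ a) (Θ' b) x ξ
  have hone : ∀ p, (Θ 1).1 p = 1 := fun p => by rw [map_one Θ]; rfl
  have hone' : ∀ p, (Θ' 1).1 p = 1 := fun p => by rw [map_one Θ']; rfl
  refine ⟨Φ, ?_, ?_, ?_, ?_⟩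
  · intro h k a x ξ
    have e1 : ∀ t : M.A ⊗[ℂ] N.A, (Φ (Algebra.TensorProduct.congr (M.act (G.rb Sum.inl h, G.rb Sum.inl k))
        (N.act (G.rb Sum.inr h, G.rb Sum.inr k)) t)).1 (x, ξ) = (Φ t).1 (h⁻¹ * x * k, ξ ∘ₗ (G.pow (I ⊕ I')).Ad k) := by
      intro t
      induction t using TensorProduct.induction_on with
      | zero => rw [map_zero, map_zero]; rfl
      | add t t' ht ht' =>
        rw [map_add, map_add, map_add]
        exact congrArg₂ (· + ·) ht ht'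
      | tmul a b =>
        rw [hΦ]
        refine (hΦ _ _ _ _).trans ?_
        refine (congrArg₂ (· * ·) (h1 _ _ a _ _) (h1' _ _ b _ _)).trans ?_
        have e2 : (ξ ∘ₗ iL) ∘ₗ (G.pow I).Ad (G.rb (Equiv.refl I) (G.rb Sum.inl k)) = (ξ ∘ₗ (G.pow (I ⊕ I')).Ad k) ∘ₗ iL :=
          LinearMap.ext fun D => congrArg ξ (Ad_iL k D).symm
        have e3 : (ξ ∘ₗ iR) ∘ₗ (G.pow I').Ad (G.rb (Equiv.refl I') (G.rb Sum.inr k)) = (ξ ∘ₗ (G.pow (I ⊕ I')).Ad k) ∘ₗ iR :=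
          LinearMap.ext fun D => congrArg ξ (Ad_iR k D).symm
        rw [e2, e3]
        rfl
    exact e1 a
  · intro D x ξ
    have e1 : (Φ (M.μ (G.lmap Sum.inl D) ⊗ₜ[ℂ] (1 : N.A) + (1 : M.A) ⊗ₜ[ℂ] N.μ (G.lmap Sum.inr D))).1 (x, ξ) =
        ξ ((G.pow (I ⊕ I')).Ad x⁻¹ D) := by
      rw [map_add]
      refine (congrArg₂ (· + ·) (hΦ _ _ _ _) (hΦ _ _ _ _)).trans ?_
      rw [h2, h2', hone, hone', mul_one, one_mul]
      show ξ (iL ((G.pow I).Ad (G.rb Sum.inl x)⁻¹ (G.lmap Sum.inl D))) + ξ (iR ((G.pow I').Ad (G.rb Sum.inr x)⁻¹ (G.lmap Sum.inr D))) = _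
      rw [← map_add]
      congr 1
      exact iL_add_iR ((G.pow (I ⊕ I')).Ad x⁻¹ D)
    exact e1
  · intro D x ξ
    have e1 : (Φ (M.ν (G.lmap Sum.inl D) ⊗ₜ[ℂ] (1 : N.A) + (1 : M.A) ⊗ₜ[ℂ] N.ν (G.lmap Sum.inr D))).1 (x, ξ) = ξ D := by
      rw [map_add]
      refine (congrArg₂ (· + ·) (hΦ _ _ _ _) (hΦ _ _ _ _)).trans ?_
      rw [h3, h3', hone, hone', mul_one, one_mul]
      show ξ (iL (G.lmap (Equiv.refl I) (G.lmap Sum.inl D))) + ξ (iR (G.lmap (Equiv.refl I') (G.lmap Sum.inr D))) = _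
      rw [← map_add]
      congr 1
      exact iL_add_iR D
    exact e1
  · intro a b ha hb
    have e1 : ∀ t : (G.pow I).cotO ⊗[ℂ] (G.pow I').cotO, Algebra.TensorProduct.congr Θ Θ'
        (Algebra.TensorProduct.map (Θ.symm.toAlgHom.comp (cz _)) (Θ'.symm.toAlgHom.comp (cz _)) t) =
        Algebra.TensorProduct.map (cz (G.pow I)) (cz (G.pow I')) t := by
      intro t
      induction t using TensorProduct.induction_on with
      | zero => simp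
      | add t t' ht ht' => rw [map_add, map_add, ht, ht', map_add]
      | tmul F F' =>
        show Θ (Θ.symm (cz _ F)) ⊗ₜ[ℂ] Θ' (Θ'.symm (cz _ F')) = cz _ F ⊗ₜ[ℂ] cz _ F'
        rw [AlgEquiv.apply_symm_apply, AlgEquiv.apply_symm_apply]
    have e2 : ∀ c : M.A ⊗[ℂ] N.A, (∀ x ξ η, (Φ c).1 (x, ξ) = (Φ c).1 (x, η)) →
        c = Algebra.TensorProduct.map (Θ.symm.toAlgHom.comp (cz _)) (Θ'.symm.toAlgHom.comp (cz _))
          (Algebra.TensorProduct.congr Θ Θ' c) := by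
      intro c hc
      apply Φ.injective
      have e3 : Φ (Algebra.TensorProduct.map (Θ.symm.toAlgHom.comp (cz _)) (Θ'.symm.toAlgHom.comp (cz _))
          (Algebra.TensorProduct.congr Θ Θ' c)) = cotP G I I' (Algebra.TensorProduct.map (cz (G.pow I)) (cz (G.pow I'))
          (Algebra.TensorProduct.congr Θ Θ' c)) := congrArg (cotP G I I') (e1 _)
      rw [e3, cotP_cz]
      apply Subtype.ext
      funext p
      obtain ⟨x, ξ⟩ := p
      exact hc x ξ 0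
    have e4 := tbr_cz (M := M.toPAlg) (N := N.toPAlg) Θ Θ' h4 h4' (Algebra.TensorProduct.congr Θ Θ' a) (Algebra.TensorProduct.congr Θ Θ' b)
    rw [← e2 a ha, ← e2 b hb] at e4
    exact e4

end

end Pool.Agent.MTF
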