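import Pool.Agent.MTF.F0d

/-! # MTF, part F (F14A) : tensor products of algebras of functions -/

namespace Pool.Agent.MTF

open TensorProduct

/-- [F14a] PURE ALGEBRA. A tensor product of algebras of functions is an algebra of functions. PROOF. Let `n_k` be a basis of `B` over `ℂ` (`Module.Free.chooseBasis`/`Basis.ofVectorSpace`); `t = ∑ a_k ⊗ n_k` (finite sum, unique: `TensorProduct.equivFinsuppOfBasisRight`). `Φ t = 0` and a fixed `x`: for all `y` (with `z` from `hs`)
`∑ a_k(x) n_k(y) = 0`, i.e. `∑ a_k(x) • n_k = 0` in `B`, so `a_k(x) = 0` for all `k`, `x`. -/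
theorem fun_tensor_inj {X Y Z : Type} {A : Subalgebra ℂ (X → ℂ)} {B : Subalgebra ℂ (Y → ℂ)} (Φ : A ⊗[ℂ] B →ₗ[ℂ] (Z → ℂ))
    (p : Z → X) (q : Z → Y) (hΦ : ∀ a b z, Φ (a ⊗ₜ b) z = a.1 (p z) * b.1 (q z)) (hs : ∀ x y, ∃ z, p z = x ∧ q z = y) :
    Function.Injective Φ := by
  classical
  rw [injective_iff_map_eq_zero]
  intro t ht
  set n := Module.Basis.ofVectorSpace ℂ B with hn
  set e := TensorProduct.equivFinsuppOfBasisRight (M := A) n with he
  have ht2 : t = (e t).sum fun k a => a ⊗ₜ[ℂ] n k := by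
    conv_lhs => rw [← e.symm_apply_apply t]
    rw [he, TensorProduct.equivFinsuppOfBasisRight_symm_apply]
  have hd : ∀ x : X, (e t).mapRange (fun a : A => a.1 x) rfl = 0 := by
    intro x
    have hli := n.linearIndependent
    rw [linearIndependent_iff] at hli
    apply hli
    apply Subtype.ext
    funext y
    obtain ⟨z, hz1, hz2⟩ := hs x y
    have h1 : Φ t z = 0 := by rw [ht]; rfl
    rw [ht2, Finsupp.sum, map_sum, Finset.sum_apply] at h1
    have h2 : ((e t).mapRange (fun a : A => a.1 x) rfl).sum (fun i (a : ℂ) => a • n i) =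
        ∑ k ∈ (e t).support, ((e t) k).1 x • n k :=
      Finsupp.sum_mapRange_index (h := fun i (a : ℂ) => a • n i) (fun i => zero_smul ℂ (n i))
    rw [Finsupp.linearCombination_apply, h2]
    have h3 : (∑ k ∈ (e t).support, ((e t) k).1 x • n k : B).1 y =
        ∑ k ∈ (e t).support, ((e t) k).1 x * (n k).1 y := by
      rw [AddSubmonoidClass.coe_finset_sum, Finset.sum_apply]
      rfl
    rw [h3]
    change _ = (0 : ℂ)
    rw [← h1]
    refine Finset.sum_congr rfl fun k _ => ?_
    rw [hΦ, hz1, hz2]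
  have h0 : e t = 0 := by
    ext k x
    have h4 := DFunLike.congr_fun (hd x) k
    rw [Finsupp.mapRange_apply] at h4
    exact h4
  exact e.map_eq_zero_iff.1 h0

end Pool.Agent.MTF
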