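import Pool.Agent.MTF.F14Z

/-! # MTF, part F (F14B) : inclusions of Lie algebras -/

namespace Pool.Agent.MTF

open TensorProduct

section
variable {G : AffGrp} {I I' : Type} [Finite I] [Finite I']

/-- [F14b] PROOF. `lie_ext`, `lpr_lmap`, `lpr_pl`; also for the next five. -/
theorem lmap_iL (D : (G.pow I).Lie) : G.lmap Sum.inl (iL D : (G.pow (I ⊕ I')).Lie) = D := by
  apply AffGrp.lie_ext
  intro l
  rw [AffGrp.lpr_lmap, iL_apply, AffGrp.lpr_pl]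
  rfl

theorem lmap_iL' (D : (G.pow I).Lie) : G.lmap Sum.inr (iL D : (G.pow (I ⊕ I')).Lie) = 0 := by
  apply AffGrp.lie_ext
  intro l
  rw [AffGrp.lpr_lmap, iL_apply, AffGrp.lpr_pl, map_zero]
  rfl

theorem lmap_iR (D : (G.pow I').Lie) : G.lmap Sum.inr (iR D : (G.pow (I ⊕ I')).Lie) = D := by
  apply AffGrp.lie_ext
  intro l
  rw [AffGrp.lpr_lmap, iR_apply, AffGrp.lpr_pl]
  rfl

theorem lmap_iR' (D : (G.pow I').Lie) : G.lmap Sum.inl (iR D : (G.pow (I ⊕ I')).Lie) = 0 := by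
  apply AffGrp.lie_ext
  intro l
  rw [AffGrp.lpr_lmap, iR_apply, AffGrp.lpr_pl, map_zero]
  rfl

theorem iL_add_iR (D : (G.pow (I ⊕ I')).Lie) : iL (G.lmap Sum.inl D) + iR (G.lmap Sum.inr D) = D := by
  apply AffGrp.lie_ext
  rintro (l | l)
  · rw [map_add, iL_apply, iR_apply, AffGrp.lpr_pl, AffGrp.lpr_pl]
    show G.lpr l (G.lmap Sum.inl D) + 0 = _
    rw [add_zero]
    rfl
  · rw [map_add, iL_apply, iR_apply, AffGrp.lpr_pl, AffGrp.lpr_pl]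
    show 0 + G.lpr l (G.lmap Sum.inr D) = _
    rw [zero_add]
    rfl

/-- PROOF. `AffGrp.Ad_pl`, `G.Ad x 0 = 0`, `AffGrp.lpr_Ad`. -/
theorem Ad_iL (k : (G.pow (I ⊕ I')).X) (D : (G.pow I).Lie) : (G.pow (I ⊕ I')).Ad k (iL D) = iL ((G.pow I).Ad (G.rb Sum.inl k) D) := by
  apply AffGrp.lie_ext
  rintro (l | l)
  · rw [AffGrp.lpr_Ad, iL_apply, iL_apply, AffGrp.lpr_pl, AffGrp.lpr_pl]
    rfl
  · rw [AffGrp.lpr_Ad, iL_apply, iL_apply, AffGrp.lpr_pl, AffGrp.lpr_pl]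
    exact map_zero _

theorem Ad_iR (k : (G.pow (I ⊕ I')).X) (D : (G.pow I').Lie) : (G.pow (I ⊕ I')).Ad k (iR D) = iR ((G.pow I').Ad (G.rb Sum.inr k) D) := by
  apply AffGrp.lie_ext
  rintro (l | l)
  · rw [AffGrp.lpr_Ad, iR_apply, iR_apply, AffGrp.lpr_pl, AffGrp.lpr_pl]
    exact map_zero _
  · rw [AffGrp.lpr_Ad, iR_apply, iR_apply, AffGrp.lpr_pl, AffGrp.lpr_pl]
    rfl

end

end Pool.Agent.MTF
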