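import Pool.Agent.MTF.F14A
import Pool.Agent.MTF.F14B

/-! # MTF, part F (F14C) : injectivity -/

namespace Pool.Agent.MTF

open TensorProduct

section
variable {G : AffGrp} {I I' : Type} [Finite I] [Finite I']

/-- [F14c] PROOF. `fun_tensor_inj` for `Φ` = the composition of `cotP` with the inclusion `cotO → (_ → ℂ)`, `p (x, ξ) = (rb inl x, ξ ∘ iL)`, `q` similarly; given `(x, ξ)`, `(x', ξ')` take `Sum.elim x x'` and `ξ ∘ lmap inl + ξ' ∘ lmap inr` (`lmap_iL` etc.). -/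
theorem cotP_inj : Function.Injective (cotP G I I') := by
  let Φ : (G.pow I).cotO ⊗[ℂ] (G.pow I').cotO →ₗ[ℂ]
      ((G.pow (I ⊕ I')).X × Module.Dual ℂ (G.pow (I ⊕ I')).Lie → ℂ) :=
    ((G.pow (I ⊕ I')).cotO).val.toLinearMap ∘ₗ (cotP G I I').toLinearMap
  have h1 : Function.Injective Φ := by
    refine fun_tensor_inj Φ (fun z => (G.rb Sum.inl z.1, z.2 ∘ₗ iL))
      (fun z => (G.rb Sum.inr z.1, z.2 ∘ₗ iR)) ?_ ?_
    · rintro a b ⟨x, ξ⟩
      exact cotP_tmul a b x ξ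
    · rintro ⟨x, ξ⟩ ⟨x', ξ'⟩
      refine ⟨(Sum.elim x x', ξ ∘ₗ G.lmap Sum.inl + ξ' ∘ₗ G.lmap Sum.inr), ?_, ?_⟩
      · refine Prod.ext rfl ?_
        apply LinearMap.ext
        intro D
        show ξ (G.lmap Sum.inl (iL D)) + ξ' (G.lmap Sum.inr (iL D)) = ξ D
        rw [lmap_iL, lmap_iL', map_zero, add_zero]
      · refine Prod.ext rfl ?_
        apply LinearMap.ext
        intro D
        show ξ (G.lmap Sum.inl (iR D)) + ξ' (G.lmap Sum.inr (iR D)) = ξ' D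
        rw [lmap_iR, lmap_iR', map_zero, zero_add]
  intro a b h
  exact h1 (congrArg (fun F : (G.pow (I ⊕ I')).cotO => F.1) h)

end

end Pool.Agent.MTF
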