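import Pool.Agent.MTF.F13Z

/-! # MTF, part F (F14Z) : the product of cylinders: definitions -/

namespace Pool.Agent.MTF

open TensorProduct

section
variable {G : AffGrp} {I I' : Type} [Finite I] [Finite I']

/-- the inclusion of the Lie algebra of `G^I` in that of `G^(I ⊕ I')` -/
noncomputable def iL : (G.pow I).Lie →ₗ[ℂ] (G.pow (I ⊕ I')).Lie where
  toFun D := G.pl (Sum.elim (fun i => G.lpr i D) (0 : I' → G.Lie))
  map_add' D D' := by
    apply AffGrp.lie_ext
    rintro (i | i)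
    · simp [AffGrp.lpr_pl]
    · simp [AffGrp.lpr_pl]
  map_smul' c D := by
    apply AffGrp.lie_ext
    rintro (i | i)
    · simp [AffGrp.lpr_pl]
    · simp [AffGrp.lpr_pl]

/-- the inclusion of the Lie algebra of `G^I'` in that of `G^(I ⊕ I')` -/
noncomputable def iR : (G.pow I').Lie →ₗ[ℂ] (G.pow (I ⊕ I')).Lie where
  toFun D := G.pl (Sum.elim (0 : I → G.Lie) (fun i => G.lpr i D))
  map_add' D D' := by
    apply AffGrp.lie_ext
    rintro (i | i)
    · simp [AffGrp.lpr_pl]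
    · simp [AffGrp.lpr_pl]
  map_smul' c D := by
    apply AffGrp.lie_ext
    rintro (i | i)
    · simp [AffGrp.lpr_pl]
    · simp [AffGrp.lpr_pl]

theorem iL_apply (D : (G.pow I).Lie) : (iL D : (G.pow (I ⊕ I')).Lie) = G.pl (Sum.elim (fun i => G.lpr i D) (0 : I' → G.Lie)) := rfl

theorem iR_apply (D : (G.pow I').Lie) : (iR D : (G.pow (I ⊕ I')).Lie) = G.pl (Sum.elim (0 : I → G.Lie) (fun i => G.lpr i D)) := rfl

variable (G I I') in
/-- the functions on `T^*(G^I × G^I')` -/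
noncomputable def cotP : (G.pow I).cotO ⊗[ℂ] (G.pow I').cotO →ₐ[ℂ] (G.pow (I ⊕ I')).cotO :=
  Algebra.TensorProduct.productMap (cotM (Sum.inl : I → I ⊕ I') iL) (cotM (Sum.inr : I' → I ⊕ I') iR)

theorem cotP_tmul (F : (G.pow I).cotO) (F' : (G.pow I').cotO) (x : (G.pow (I ⊕ I')).X) (ξ : Module.Dual ℂ (G.pow (I ⊕ I')).Lie) :
    (cotP G I I' (F ⊗ₜ F')).1 (x, ξ) = F.1 (G.rb Sum.inl x, ξ ∘ₗ iL) * F'.1 (G.rb Sum.inr x, ξ ∘ₗ iR) := by
  rw [cotP, Algebra.TensorProduct.productMap_apply_tmul]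
  rfl

end

/-- the restriction of functions to the zero section -/
noncomputable def cz (H : AffGrp) : H.cotO →ₐ[ℂ] H.cotO where
  toFun F := ⟨fun p => F.1 (p.1, 0), by
    obtain ⟨F, hF⟩ := F
    have hF' := hF
    unfold AffGrp.cotO at hF' ⊢
    show (fun p : H.X × Module.Dual ℂ H.Lie => F (p.1, 0)) ∈ _
    induction hF' using Algebra.adjoin_induction with
    | mem F hF'' =>
      rcases hF'' with ⟨f, rfl⟩ | ⟨D, rfl⟩
      · exact Algebra.subset_adjoin (Or.inl ⟨f, rfl⟩)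
      · exact Subalgebra.zero_mem _
    | algebraMap c => exact Subalgebra.algebraMap_mem _ c
    | add F F' h1 h2 ih ih' => exact Subalgebra.add_mem _ (ih h1) (ih' h2)
    | mul F F' h1 h2 ih ih' => exact Subalgebra.mul_mem _ (ih h1) (ih' h2)⟩
  map_one' := rfl
  map_mul' _ _ := rfl
  map_zero' := rfl
  map_add' _ _ := rfl
  commutes' _ := rfl

theorem cz_apply {H : AffGrp} (F : H.cotO) (x : H.X) (ξ : Module.Dual ℂ H.Lie) : (cz H F).1 (x, ξ) = F.1 (x, 0) := rfl

end Pool.Agent.MTF
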