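import Pool.Agent.MTF.F11
import Pool.Agent.MTF.F13
import Pool.Agent.MTF.F14

/-!
# MTF, part F (F15) : the values of the mapping cylinders
-/

namespace Pool.Agent.MTF

section
variable {G : AffGrp} {e f : G.Lie} {Hb : ∀ (g : ℕ) (I J : Type) [Finite I] [Finite J], Ham (G.pow I) (G.pow J)}

theorem hq_cyl_one (hB : BB G e f Hb) : hq Hb (Cob.cyl (Equiv.refl PUnit.{1})) = HQ.mk (Hb 0 PUnit.{1} PUnit.{1}) := by
  have h1 : hq Hb (Cob.cyl (Equiv.refl PUnit.{1})) = cblk Hb (Cob.cyl (Equiv.refl PUnit.{1})) PUnit.unit :=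
    finprod_unique (α := PUnit.{1}) (cblk Hb (Cob.cyl (Equiv.refl PUnit.{1})))
  have h2 : cblk Hb (Cob.cyl (Equiv.refl PUnit.{1})) PUnit.unit =
      blk Hb 0 (id : PUnit.{1} → PUnit.{1}) (id : PUnit.{1} → PUnit.{1}) :=
    blk_congr hB rfl (Equiv.subtypeUnivEquiv fun _ => rfl) (Equiv.subtypeUnivEquiv fun _ => rfl) (fun _ => rfl) (fun _ => rfl)
  rw [h1, h2]
  exact HQ.mk_eq.2 (Hb 0 PUnit.{1} PUnit.{1}).pull_id

theorem cyl_refl (hB : BB G e f Hb) (I : Type) [Finite I] : IsCyl G (Equiv.refl I) (eta Hb (Cob.cyl (Equiv.refl I))) := by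
  have key : ∀ (I : Type) [Finite I], ∀ [Finite I], IsCyl G (Equiv.refl I) (eta Hb (Cob.cyl (Equiv.refl I))) := by
    intro I _
    induction I using Finite.induction_empty_option with
    | of_equiv a ih =>
      rename_i I I'
      intro _
      have : Finite I := Finite.of_equiv I' a.symm
      exact (ih.relabel a).congr (eta_pull hB (Cob.cyl (Equiv.refl I)) (Cob.cyl (Equiv.refl I')) a a
        ⟨a, fun i => a.apply_symm_apply i, fun j => a.apply_symm_apply j, fun _ => rfl⟩)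
    | h_empty =>
      intro _
      refine isCyl_triv.congr (iso_eta ?_)
      rw [← HQ.mk_one]
      exact (finprod_of_isEmpty (α := PEmpty.{1}) (cblk Hb (Cob.cyl (Equiv.refl PEmpty.{1})))).symm
    | h_option ih =>
      rename_i I _
      intro _
      have h1 : IsCyl G (Equiv.refl PUnit.{1}) (eta Hb (Cob.cyl (Equiv.refl PUnit.{1}))) :=
        hB.cyl.congr (iso_eta (hq_cyl_one hB).symm)
      have h2 := ih.box h1
      have h3 : IsCyl G (Equiv.refl (I ⊕ PUnit.{1})) (eta Hb (Cob.cyl (Equiv.refl (I ⊕ PUnit.{1})))) := by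
        refine h2.congr (iso_eta ?_)
        have h := hq_join hB (Cob.cyl (Equiv.refl I)) (Cob.cyl (Equiv.refl PUnit.{1})) (Equiv.refl _) (Equiv.refl _)
        rw [← mk_eta (Cob.cyl (Equiv.refl I)), ← mk_eta (Cob.cyl (Equiv.refl PUnit.{1})), HQ.pull_mk, HQ.pull_mk, HQ.mk_mul] at h
        refine h.symm.trans (hq_iso hB ⟨Equiv.refl _, ?_, ?_, ?_⟩)
        · rintro (i | i) <;> rfl
        · rintro (i | i) <;> rfl
        · rintro (i | i) <;> rfl
      exact (h3.relabel (Equiv.optionEquivSumPUnit I).symm).congr (eta_pull hB _ (Cob.cyl (Equiv.refl (Option I))) _ _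
        ⟨(Equiv.optionEquivSumPUnit I).symm, fun i => Equiv.apply_symm_apply _ i, fun j => Equiv.apply_symm_apply _ j, fun _ => rfl⟩)
  exact key I

/-- **The mapping cylinders.** -/
theorem cyl_eta (hB : BB G e f Hb) {I J : Type} [Finite I] [Finite J] (u : I ≃ J) : IsCyl G u (eta Hb (Cob.cyl u)) := by
  refine ((cyl_refl hB I).of_refl u).congr (eta_pull hB (Cob.cyl (Equiv.refl I)) (Cob.cyl u) (Equiv.refl I) u
    ⟨u, fun i => rfl, fun j => u.apply_symm_apply j, fun _ => rfl⟩)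

end

end Pool.Agent.MTF
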