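import Pool.Agent.MTF.F0d

/-! # MTF, part F (F16C) : derivations in larger fields -/

namespace Pool.Agent.MTF

open TensorProduct

/-- [F16d] PURE ALGEBRA. Derivations in a larger field. PROOF. `k = FractionRing P.A`, `F` is a vector space over `k` (`j` extends to `ĵ : k → F`: `IsFractionRing.lift hj`; `Algebra k F := ĵ.toAlgebra`). Let `e_λ` be a basis of `F` over `k`. `P.A` is generated by `x_1, .., x_m` (`P.ft`), so `D b` is in the `P.A`-span of the `D x_j` (induction on `b`,
`Algebra.adjoin_induction`), hence only finitely many coordinates `λ ∈ Λ` occur in all `D b` (`Λ` = the union of the supports of the `D x_j`; the set of elements of `F` with support in `Λ` is a `k`-subspace). For `λ ∈ Λ` the coordinate `D_λ : P.A → k`, `D_λ b = (basis.repr (D b)) λ`, is a derivation (`j a = ĵ (algebraMap a)` acts through `k`: `Basis.repr`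
is `k`-linear), so `D_λ b = ∑ u_i · {a_i, b}` by `h.2`. `D b = ∑_λ ĵ (D_λ b) e_λ = ∑_λ ∑_i (ĵ (u_i) e_λ) j {a_i, b}`; concatenate (`Fin` from `Finset`/`Fintype.equivFin` of a sigma type). -/
theorem InMT.ext {P : PAlg} (h : InMT P) {F : Type} [Field F] [Algebra ℂ F] (j : P.A →ₐ[ℂ] F) (hj : Function.Injective j)
    (D : P.A →ₗ[ℂ] F) (hD : ∀ a b, D (a * b) = j a * D b + j b * D a) :
    ∃ (n : ℕ) (u : Fin n → F) (a : Fin n → P.A), ∀ b, D b = ∑ i, u i * j (P.br (a i) b) := by
  haveI : IsDomain P.A := h.1
  haveI : Algebra.FiniteType ℂ P.A := P.ft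
  letI : Algebra P.A F := j.toRingHom.toAlgebra
  have hsc : IsScalarTower ℂ P.A F := IsScalarTower.of_algebraMap_eq fun c => (j.commutes c).symm
  let jh : FractionRing P.A →+* F := IsFractionRing.lift (A := P.A) (g := j.toRingHom) hj
  letI : Algebra (FractionRing P.A) F := jh.toAlgebra
  have hjh : ∀ a : P.A, jh (algebraMap P.A (FractionRing P.A) a) = j a := fun a =>
    IsFractionRing.lift_algebraMap (A := P.A) (g := j.toRingHom) hj a
  haveI : IsScalarTower P.A (FractionRing P.A) F := IsScalarTower.of_algebraMap_eq fun a => (hjh a).symm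
  let D' : Derivation ℂ P.A F :=
    { toLinearMap := D
      map_one_eq_zero' := by
        have h1 := hD 1 1
        rw [one_mul, map_one j, one_mul] at h1
        exact (add_eq_left.1 h1.symm)
      leibniz' := fun a b => hD a b }
  let M := (FractionRing P.A) ⊗[P.A] (KaehlerDifferential ℂ P.A)
  let L : M →ₗ[FractionRing P.A] F := LinearMap.liftBaseChange (FractionRing P.A) D'.liftKaehlerDifferential
  let ω := Module.finBasis (FractionRing P.A) M
  let Dc : Fin (Module.finrank (FractionRing P.A) M) → Derivation ℂ P.A (FractionRing P.A) := fun i =>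
    LinearMap.compDer (((ω.coord i).restrictScalars P.A).comp
      (TensorProduct.mk P.A (FractionRing P.A) (KaehlerDifferential ℂ P.A) 1)) (KaehlerDifferential.D ℂ P.A)
  have key : ∀ b, D b = ∑ i, jh (Dc i b) * L (ω i) := by
    intro b
    have h1 : L ((1 : FractionRing P.A) ⊗ₜ[P.A] (KaehlerDifferential.D ℂ P.A b)) = D b := by
      have h2 := LinearMap.liftBaseChange_tmul (FractionRing P.A) D'.liftKaehlerDifferential
        (1 : FractionRing P.A) (KaehlerDifferential.D ℂ P.A b)
      refine h2.trans ?_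
      rw [one_smul]
      exact D'.liftKaehlerDifferential_comp_D b
    rw [← h1]
    conv_lhs => rw [← ω.sum_repr ((1 : FractionRing P.A) ⊗ₜ[P.A] (KaehlerDifferential.D ℂ P.A b))]
    rw [map_sum]
    refine Finset.sum_congr rfl fun i _ => ?_
    rw [map_smul, Algebra.smul_def]
    rfl
  choose n u a hua using fun i => h.2 (Dc i)
  let S := Σ i, Fin (n i)
  let eS := Fintype.equivFin S
  refine ⟨Fintype.card S, fun t => jh (u (eS.symm t).1 (eS.symm t).2) * L (ω (eS.symm t).1),
    fun t => a (eS.symm t).1 (eS.symm t).2, fun b => ?_⟩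
  rw [key b, Equiv.sum_comp eS.symm (fun s : S => jh (u s.1 s.2) * L (ω s.1) * j (P.br (a s.1 s.2) b)),
    Fintype.sum_sigma]
  refine Finset.sum_congr rfl fun i _ => ?_
  rw [hua i b, map_sum, Finset.sum_mul]
  refine Finset.sum_congr rfl fun t _ => ?_
  rw [map_mul, hjh]
  ring

end Pool.Agent.MTF
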