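import Pool.Agent.MTF.F16C

/-! # MTF, part F (F16D) : generically symplectic varieties: isomorphism, the point -/

namespace Pool.Agent.MTF

open TensorProduct

/-- [F16c] PROOF. `Q.A` is a domain (`e`). `D : Derivation ℂ Q.A (FractionRing Q.A)`; `InMT.ext` for `F = FractionRing Q.A`, `j = algebraMap ∘ e` (injective), `D ∘ e`: `D (e b) = ∑ u_i j {a_i, b} = ∑ u_i {e a_i, e b}`; put `b = e.symm b'`. -/
theorem InMT.congr {P Q : PAlg} (h : InMT P) (e : P.A ≃ₐ[ℂ] Q.A) (he : ∀ a b, e (P.br a b) = Q.br (e a) (e b)) : InMT Q := by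
  have hP : IsDomain P.A := h.1
  have hQ : IsDomain Q.A := MulEquiv.isDomain P.A e.symm.toMulEquiv
  refine ⟨hQ, fun D => ?_⟩
  obtain ⟨n, u, a, hu⟩ := h.ext ((IsScalarTower.toAlgHom ℂ Q.A (FractionRing Q.A)).comp e.toAlgHom)
    (fun x y hxy => e.injective (IsFractionRing.injective Q.A (FractionRing Q.A) hxy))
    (D.toLinearMap ∘ₗ e.toLinearMap) (fun x y => by
      show D (e (x * y)) = algebraMap Q.A (FractionRing Q.A) (e x) * D (e y) + algebraMap Q.A (FractionRing Q.A) (e y) * D (e x)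
      rw [map_mul, Derivation.leibniz, Algebra.smul_def, Algebra.smul_def])
  refine ⟨n, u, fun i => e (a i), fun b => ?_⟩
  have h1 : D (e (e.symm b)) = ∑ i, u i * algebraMap Q.A (FractionRing Q.A) (e (P.br (a i) (e.symm b))) := hu (e.symm b)
  rw [e.apply_symm_apply] at h1
  rw [h1]
  refine Finset.sum_congr rfl fun i _ => ?_
  rw [he, e.apply_symm_apply]

/-- [F16f] PROOF. `A = ℂ`: a domain; a derivation `D` over `ℂ` of `ℂ` is `0` (`Derivation.map_algebraMap`): `n = 0`. -/
theorem inMT_triv (G H : AffGrp) : InMT (Ham.triv G H).toPAlg := by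
  refine ⟨(inferInstance : IsDomain ℂ), fun D => ⟨0, Fin.elim0, Fin.elim0, fun b => ?_⟩⟩
  rw [Finset.univ_eq_empty, Finset.sum_empty]
  exact D.map_algebraMap b

end Pool.Agent.MTF
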