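import Pool.Agent.MTF.F16B
import Pool.Agent.MTF.F16C
import Pool.Agent.MTF.F16D

/-! # MTF, part F (F16) : generically symplectic varieties: products -/

namespace Pool.Agent.MTF

open TensorProduct

theorem f16_half {P : PAlg} (h : InMT P) {T : Type} [CommRing T] [Algebra ℂ T] [IsDomain T]
    (ι : P.A →ₐ[ℂ] T) (hι : Function.Injective ι) (D : Derivation ℂ T (FractionRing T)) :
    ∃ (n : ℕ) (u : Fin n → FractionRing T) (a : Fin n → P.A), ∀ b,
      D (ι b) = ∑ i, u i * algebraMap T (FractionRing T) (ι (P.br (a i) b)) := by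
  obtain ⟨n, u, a, hu⟩ := InMT.ext h (F := FractionRing T)
    ((IsScalarTower.toAlgHom ℂ T (FractionRing T)).comp ι)
    ((IsFractionRing.injective T (FractionRing T)).comp hι)
    ((D : T →ₗ[ℂ] FractionRing T) ∘ₗ ι.toLinearMap) (by
      intro a b
      show D (ι (a * b)) = algebraMap T (FractionRing T) (ι a) * D (ι b) +
        algebraMap T (FractionRing T) (ι b) * D (ι a)
      rw [map_mul, Derivation.leibniz, Algebra.smul_def, Algebra.smul_def])
  exact ⟨n, u, a, hu⟩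

theorem f16_append {X Y : Type} {n m : ℕ} {K : Type} [CommRing K] (u : Fin n → K) (v : Fin m → K)
    (a : Fin n → X) (b : Fin m → X) (F : X → Y → K) (y : Y) :
    ∑ i, Fin.append u v i * F (Fin.append a b i) y =
      ∑ i, u i * F (a i) y + ∑ i, v i * F (b i) y := by
  rw [Fin.sum_univ_add]
  congr 1
  · refine Finset.sum_congr rfl fun i _ => ?_
    rw [Fin.append_left, Fin.append_left]
  · refine Finset.sum_congr rfl fun i _ => ?_
    rw [Fin.append_right, Fin.append_right]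

/-- [F16e] PROOF. `isDomain_tensor`. Let `K = FractionRing (M.A ⊗ N.A)`, `D` a derivation. `j a = a ⊗ 1`, `j' b = 1 ⊗ b` in `K` are injective (`M.A`, `N.A` are free over `ℂ`: `Algebra.TensorProduct.includeLeft_injective` etc., and the domain embeds in `K`). `InMT.ext` for `a ↦ D (a ⊗ 1)` and `b ↦ D (1 ⊗ b)`: `D (a ⊗ 1) = ∑ u_i {a_i, a} ⊗ 1`,
`D (1 ⊗ b) = ∑ v_l 1 ⊗ {b_l, b}`. The derivation `D` and `x ↦ ∑ u_i {a_i ⊗ 1, x} + ∑ v_l {1 ⊗ b_l, x}` agree on `a ⊗ b = (a ⊗ 1) (1 ⊗ b)` (`tbr_tmul`, `PAlg.br_one`), so everywhere (additive). Concatenate (`Fin.append`). -/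
theorem InMT.box {G H : AffGrp} {M N : Ham G H} (h : InMT M.toPAlg) (h' : InMT N.toPAlg) : InMT (M.box N).toPAlg := by
  classical
  have hd : IsDomain (M.A ⊗[ℂ] N.A) := isDomain_tensor M.ft h.1 h'.1
  refine ⟨hd, ?_⟩
  intro (D : Derivation ℂ (M.A ⊗[ℂ] N.A) (FractionRing (M.A ⊗[ℂ] N.A)))
  have := hd
  have := h.1
  have := h'.1
  have i1 : Function.Injective (Algebra.TensorProduct.includeLeft : M.A →ₐ[ℂ] M.A ⊗[ℂ] N.A) :=
    Algebra.TensorProduct.includeLeft_injective (algebraMap ℂ N.A).injective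
  have i2 : Function.Injective (Algebra.TensorProduct.includeRight : N.A →ₐ[ℂ] M.A ⊗[ℂ] N.A) :=
    Algebra.TensorProduct.includeRight_injective (algebraMap ℂ M.A).injective
  obtain ⟨n, u, a, hu⟩ := f16_half h _ i1 D
  obtain ⟨m, v, c, hv⟩ := f16_half h' _ i2 D
  refine ⟨n + m, Fin.append u v, Fin.append (fun i => a i ⊗ₜ[ℂ] (1 : N.A)) (fun i => (1 : M.A) ⊗ₜ[ℂ] c i), ?_⟩
  intro (x : M.A ⊗[ℂ] N.A)
  show D x = ∑ i, Fin.append u v i * algebraMap (M.A ⊗[ℂ] N.A) (FractionRing (M.A ⊗[ℂ] N.A))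
    (tbr M.toPAlg N.toPAlg (Fin.append (fun i => a i ⊗ₜ[ℂ] (1 : N.A)) (fun i => (1 : M.A) ⊗ₜ[ℂ] c i) i) x)
  rw [f16_append u v _ _ (fun y x => algebraMap (M.A ⊗[ℂ] N.A) (FractionRing (M.A ⊗[ℂ] N.A))
    (tbr M.toPAlg N.toPAlg y x)) x]
  induction x using TensorProduct.induction_on with
  | zero => simp only [map_zero, mul_zero, Finset.sum_const_zero, add_zero]
  | add x y hx hy =>
    simp only [map_add, mul_add, Finset.sum_add_distrib]
    rw [hx, hy]
    abel
  | tmul y z =>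
    have e1 : y ⊗ₜ[ℂ] z = (Algebra.TensorProduct.includeLeft : M.A →ₐ[ℂ] M.A ⊗[ℂ] N.A) y *
        (Algebra.TensorProduct.includeRight : N.A →ₐ[ℂ] M.A ⊗[ℂ] N.A) z := by
      rw [Algebra.TensorProduct.includeLeft_apply, Algebra.TensorProduct.includeRight_apply,
        Algebra.TensorProduct.tmul_mul_tmul, one_mul, mul_one]
    have e2 : ∀ i, tbr M.toPAlg N.toPAlg (a i ⊗ₜ[ℂ] (1 : N.A)) (y ⊗ₜ[ℂ] z) =
        (Algebra.TensorProduct.includeRight : N.A →ₐ[ℂ] M.A ⊗[ℂ] N.A) z *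
        (Algebra.TensorProduct.includeLeft : M.A →ₐ[ℂ] M.A ⊗[ℂ] N.A) (M.br (a i) y) := by
      intro i
      rw [tbr_tmul, PAlg.br_one, TensorProduct.tmul_zero, add_zero,
        Algebra.TensorProduct.includeLeft_apply, Algebra.TensorProduct.includeRight_apply,
        Algebra.TensorProduct.tmul_mul_tmul, one_mul, mul_one, one_mul]
    have e3 : ∀ i, tbr M.toPAlg N.toPAlg ((1 : M.A) ⊗ₜ[ℂ] c i) (y ⊗ₜ[ℂ] z) =
        (Algebra.TensorProduct.includeLeft : M.A →ₐ[ℂ] M.A ⊗[ℂ] N.A) y *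
        (Algebra.TensorProduct.includeRight : N.A →ₐ[ℂ] M.A ⊗[ℂ] N.A) (N.br (c i) z) := by
      intro i
      rw [tbr_tmul, PAlg.br_one, TensorProduct.zero_tmul, zero_add,
        Algebra.TensorProduct.includeLeft_apply, Algebra.TensorProduct.includeRight_apply,
        Algebra.TensorProduct.tmul_mul_tmul, one_mul, mul_one, one_mul]
    simp only [e2, e3]
    rw [e1, Derivation.leibniz, hu, hv, Algebra.smul_def, Algebra.smul_def, Finset.mul_sum,
      Finset.mul_sum, add_comm]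
    congr 1
    · refine Finset.sum_congr rfl fun i _ => ?_
      rw [map_mul]
      ring
    · refine Finset.sum_congr rfl fun i _ => ?_
      rw [map_mul]
      ring

end Pool.Agent.MTF
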