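import Pool.Agent.MTF.F0d

/-! # MTF, part F (F16A) : points -/

namespace Pool.Agent.MTF

open TensorProduct

/-- [F16a] PURE ALGEBRA. A function on a variety which is not nilpotent is nonzero at some point. PROOF. `B = Localization.Away a` is nontrivial (`a` not nilpotent) and of finite type over `ℂ` (`IsLocalization.finiteType` / `Algebra.FiniteType.trans` with `A → A[1/a]` generated by `1/a`); let `m` be a maximal ideal of `B`;
`B / m` is a field of finite type over `ℂ`, so finite (Zariski's lemma: `finite_of_finite_type_of_isJacobsonRing`), so equal to `ℂ` (`IsAlgClosed.algebraMap_bijective_of_isIntegral`). `φ : A → B → B / m ≃ ℂ`; `φ a` is a unit. -/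
theorem exists_point {A : Type} [CommRing A] [Algebra ℂ A] (hA : Algebra.FiniteType ℂ A) {a : A} (ha : ¬ IsNilpotent a) :
    ∃ φ : A →ₐ[ℂ] ℂ, φ a ≠ 0 := by
  haveI := hA
  haveI : IsJacobsonRing A := isJacobsonRing_of_finiteType (A := ℂ)
  have h1 : (nilradical A).jacobson = nilradical A :=
    IsJacobsonRing.out ‹_› (Ideal.radical_isRadical _)
  have h2 : a ∉ (nilradical A).jacobson := by
    rw [h1]
    exact fun h => ha (mem_nilradical.1 h)
  rw [Ideal.jacobson, Submodule.mem_sInf] at h2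
  push Not at h2
  obtain ⟨M, ⟨-, hM⟩, haM⟩ := h2
  letI : Field (A ⧸ M) := Ideal.Quotient.field M
  haveI : Algebra.FiniteType ℂ (A ⧸ M) :=
    Algebra.FiniteType.of_surjective (Ideal.Quotient.mkₐ ℂ M) Ideal.Quotient.mk_surjective
  haveI : Module.Finite ℂ (A ⧸ M) := finite_of_finite_type_of_isJacobsonRing ℂ (A ⧸ M)
  have hb : Function.Bijective (algebraMap ℂ (A ⧸ M)) :=
    IsAlgClosed.algebraMap_bijective_of_isIntegral
  let e : ℂ ≃ₐ[ℂ] (A ⧸ M) := AlgEquiv.ofBijective (Algebra.ofId ℂ (A ⧸ M)) hb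
  refine ⟨e.symm.toAlgHom.comp (Ideal.Quotient.mkₐ ℂ M), fun h => haM ?_⟩
  have h3 : e.symm (Ideal.Quotient.mk M a) = 0 := h
  rw [map_eq_zero_iff e.symm e.symm.injective] at h3
  exact Ideal.Quotient.eq_zero_iff_mem.1 h3

end Pool.Agent.MTF
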