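import Pool.Agent.MTF.F16A

/-! # MTF, part F (F16B) : products of integral varieties -/

namespace Pool.Agent.MTF

open TensorProduct

theorem f16b_coef {A B : Type} [CommRing A] [Algebra ℂ A] [CommRing B] [Algebra ℂ B] {κ : Type}
    [DecidableEq κ] (b : Module.Basis κ ℂ B) (φ : A →ₐ[ℂ] ℂ) (x : A ⊗[ℂ] B) (k : κ) :
    b.repr (Algebra.TensorProduct.productMap ((Algebra.ofId ℂ B).comp φ) (AlgHom.id ℂ B) x) k =
      φ (TensorProduct.equivFinsuppOfBasisRight b x k) := by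
  induction x using TensorProduct.induction_on with
  | zero => simp
  | tmul a c =>
    have h1 : (algebraMap ℂ B) (φ a) * c = φ a • c := (Algebra.smul_def _ _).symm
    rw [Algebra.TensorProduct.productMap_apply_tmul]
    have h2 : ((Algebra.ofId ℂ B).comp φ) a * (AlgHom.id ℂ B) c = φ a • c := h1
    rw [h2, map_smul, TensorProduct.equivFinsuppOfBasisRight_apply_tmul_apply, map_smul,
      Finsupp.smul_apply, smul_eq_mul, smul_eq_mul, mul_comm]
  | add x y hx hy =>
    rw [map_add, map_add, map_add, Finsupp.add_apply, Finsupp.add_apply, map_add, hx, hy]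

/-- [F16b] PURE ALGEBRA. PROOF. Nontrivial: `1 ⊗ 1 ≠ 0` (`A → A ⊗ B` is injective, `B` is free over `ℂ`). Let `x y = 0`, `x, y ≠ 0`. With a basis `n_k` of `B`: `x = ∑ a_k ⊗ n_k`, `y = ∑ c_k ⊗ n_k` (`TensorProduct.equivFinsuppOfBasisRight`), `a_k ≠ 0`, `c_l ≠ 0` for some `k`, `l`. `a_k c_l ≠ 0` is not nilpotent: `φ : A → ℂ` from `exists_point`,
`φ a_k ≠ 0`, `φ c_l ≠ 0`. `ψ = φ ⊗ 1 : A ⊗ B → ℂ ⊗ B ≃ B` is a ring homomorphism, `ψ x = ∑ φ(a_k) n_k ≠ 0`, `ψ y ≠ 0`, `ψ x ψ y = 0` in the domain `B`. -/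
theorem isDomain_tensor {A B : Type} [CommRing A] [Algebra ℂ A] [CommRing B] [Algebra ℂ B] (hA : Algebra.FiniteType ℂ A)
    (h1 : IsDomain A) (h2 : IsDomain B) : IsDomain (A ⊗[ℂ] B) := by
  classical
  obtain ⟨κ, b⟩ : ∃ κ : Type, Nonempty (Module.Basis κ ℂ B) :=
    ⟨_, ⟨Module.Basis.ofVectorSpace ℂ B⟩⟩
  obtain ⟨b⟩ := b
  have hnz : NoZeroDivisors (A ⊗[ℂ] B) := by
    refine ⟨fun {x y} hxy => ?_⟩
    by_contra hcon
    push Not at hcon
    obtain ⟨hx, hy⟩ := hcon
    have hex : ∀ z : A ⊗[ℂ] B, z ≠ 0 →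
        ∃ k, TensorProduct.equivFinsuppOfBasisRight b z k ≠ 0 := by
      intro z hz
      by_contra h
      push Not at h
      apply hz
      apply (TensorProduct.equivFinsuppOfBasisRight b (M := A)).injective
      rw [map_zero]
      exact Finsupp.ext h
    obtain ⟨k, hk⟩ := hex x hx
    obtain ⟨l, hl⟩ := hex y hy
    have hne : ¬ IsNilpotent (TensorProduct.equivFinsuppOfBasisRight b x k *
        TensorProduct.equivFinsuppOfBasisRight b y l) := fun h =>
      mul_ne_zero hk hl h.eq_zero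
    obtain ⟨φ, hφ⟩ := exists_point hA hne
    rw [map_mul] at hφ
    have h3 := congrArg
      (Algebra.TensorProduct.productMap ((Algebra.ofId ℂ B).comp φ) (AlgHom.id ℂ B)) hxy
    rw [map_mul, map_zero] at h3
    rcases mul_eq_zero.1 h3 with h4 | h4
    · apply left_ne_zero_of_mul hφ
      rw [← f16b_coef, h4, map_zero, Finsupp.zero_apply]
    · apply right_ne_zero_of_mul hφ
      rw [← f16b_coef, h4, map_zero, Finsupp.zero_apply]
  have hnt : Nontrivial (A ⊗[ℂ] B) := by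
    obtain ⟨φ, -⟩ := exists_point hA (a := (1 : A)) (fun h => one_ne_zero h.eq_zero)
    refine ⟨1, 0, fun h => ?_⟩
    have h3 := congrArg
      (Algebra.TensorProduct.productMap ((Algebra.ofId ℂ B).comp φ) (AlgHom.id ℂ B)) h
    rw [map_one, map_zero] at h3
    exact one_ne_zero h3
  exact NoZeroDivisors.to_isDomain _

end Pool.Agent.MTF
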