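import Pool.Agent.MTF.F12
import Pool.Agent.MTF.F15
import Pool.Agent.MTF.F16

/-!
# MTF, part F (F17) : the assembly
-/

namespace Pool.Agent.MTF

section
variable {G : AffGrp} {e f : G.Lie} {Hb : ∀ (g : ℕ) (I J : Type) [Finite I] [Finite J], Ham (G.pow I) (G.pow J)}

/-- all representatives are generically symplectic integral varieties -/
def HQ.MT {G H : AffGrp} (q : HQ G H) : Prop := ∃ M : Ham G H, HQ.mk M = q ∧ InMT M.toPAlg

theorem HQ.MT.of {G H : AffGrp} {M : Ham G H} (h : HQ.MT (HQ.mk M)) : InMT M.toPAlg := by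
  obtain ⟨N, h1, h2⟩ := h
  obtain ⟨ε, hε, -⟩ := HQ.mk_eq.1 h1
  exact h2.congr ε hε

theorem inMT_eta (hB : BB G e f Hb) {I J : Type} [Finite I] [Finite J] (X : Cob I J) : InMT (eta Hb X).toPAlg := by
  apply HQ.MT.of
  rw [mk_eta]
  refine finprod_induction HQ.MT ⟨_, HQ.mk_one.symm, inMT_triv _ _⟩ ?_ ?_
  · rintro _ _ ⟨M, rfl, hM⟩ ⟨N, rfl, hN⟩
    exact ⟨M.box N, rfl, hM.box hN⟩
  · intro c
    exact ⟨_, rfl, hB.mt _ _ _⟩

theorem op_eta (hB : BB G e f Hb) {I J : Type} [Finite I] [Finite J] (X : Cob I J) : (eta Hb X).Iso (eta Hb X).neg := by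
  apply HQ.mk_eq.1
  rw [← HQ.neg_mk, mk_eta, neg_hq hB]

/-- **The assembly**: the building blocks give a topological quantum field theory. -/
theorem tqft_of_blocks (hB : BB G e f Hb) : TQFT G e f :=
  ⟨fun _ _ _ _ X => eta Hb X, fun _ _ _ _ _ _ h => eta_iso (hq_iso hB h), fun _ _ _ _ _ _ S T => comp_eta hB S T,
    fun _ _ _ _ u => cyl_eta hB u, fun _ _ _ _ _ _ _ _ S T => union_eta hB S T, disc_eta hB,
    fun _ _ _ _ X => ⟨inMT_eta hB X, op_eta hB X⟩⟩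

end

end Pool.Agent.MTF
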