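import Pool.Agent.MTF.F0d

/-! # MTF, part F (F1A) : isomorphisms, products -/

namespace Pool.Agent.MTF

open TensorProduct

namespace Ham
variable {G H : AffGrp}

/-- [F1a] PROOF. `e = AlgEquiv.refl`. -/
theorem Iso.refl (M : Ham G H) : M.Iso M :=
  ⟨AlgEquiv.refl, fun _ _ => rfl, fun _ _ => rfl, fun _ => rfl, fun _ => rfl⟩

/-- [F1b] PROOF. `e.symm`; apply `e` to both sides (`e` is injective). -/
theorem Iso.symm {M N : Ham G H} (h : M.Iso N) : N.Iso M := by
  obtain ⟨e, h1, h2, h3, h4⟩ := h
  refine ⟨e.symm, fun a b => ?_, fun k a => ?_, fun D => ?_, fun D => ?_⟩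
  · apply e.injective
    rw [h1, e.apply_symm_apply, e.apply_symm_apply, e.apply_symm_apply]
  · apply e.injective
    rw [h2, e.apply_symm_apply, e.apply_symm_apply]
  · apply e.injective
    rw [h3, e.apply_symm_apply]
  · apply e.injective
    rw [h4, e.apply_symm_apply]

/-- [F1c] PROOF. `e.trans e'`. -/
theorem Iso.trans {M N P : Ham G H} (h : M.Iso N) (h' : N.Iso P) : M.Iso P := by
  obtain ⟨e, h1, h2, h3, h4⟩ := h
  obtain ⟨e', h1', h2', h3', h4'⟩ := h'
  refine ⟨e.trans e', fun a b => ?_, fun k a => ?_, fun D => ?_, fun D => ?_⟩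
  · show e' (e (M.br a b)) = P.br (e' (e a)) (e' (e b))
    rw [h1, h1']
  · show e' (e (M.act k a)) = P.act k (e' (e a))
    rw [h2, h2']
  · show e' (e (M.μ D)) = P.μ D
    rw [h3, h3']
  · show e' (e (M.ν D)) = P.ν D
    rw [h4, h4']

/-- [F1d] PROOF. `Algebra.TensorProduct.congr e e'`; the four properties on pure tensors (`TensorProduct.induction_on`, `tbr_tmul`, `bact_tmul`, `bμ_apply`, `bν_apply`). -/
theorem Iso.box {M N M' N' : Ham G H} (h : M.Iso N) (h' : M'.Iso N') : (M.box M').Iso (N.box N') := by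
  obtain ⟨e, h1, h2, h3, h4⟩ := h
  obtain ⟨e', h1', h2', h3', h4'⟩ := h'
  have hc : ∀ (a : M.A) (b : M'.A), Algebra.TensorProduct.congr e e' (a ⊗ₜ[ℂ] b) = e a ⊗ₜ[ℂ] e' b :=
    fun a b => rfl
  have hbr : ∀ x y : M.A ⊗[ℂ] M'.A, Algebra.TensorProduct.congr e e' (tbr M.toPAlg M'.toPAlg x y) =
      tbr N.toPAlg N'.toPAlg (Algebra.TensorProduct.congr e e' x)
        (Algebra.TensorProduct.congr e e' y) := by
    intro x y
    induction x using TensorProduct.induction_on with
    | zero => simp
    | add x x' hx hx' => simp only [map_add, LinearMap.add_apply, hx, hx']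
    | tmul a b =>
      induction y using TensorProduct.induction_on with
      | zero => simp
      | add y y' hy hy' => simp only [map_add, hy, hy']
      | tmul a' b' =>
        rw [tbr_tmul, map_add, hc, hc, hc, hc, tbr_tmul, h1, h1', map_mul, map_mul]
  have hact : ∀ (k : G.X × H.X) (x : M.A ⊗[ℂ] M'.A),
      Algebra.TensorProduct.congr e e' (bact M M' k x) =
        bact N N' k (Algebra.TensorProduct.congr e e' x) := by
    intro k x
    induction x using TensorProduct.induction_on with
    | zero => simp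
    | add x x' hx hx' => simp only [map_add, hx, hx']
    | tmul a b =>
      rw [bact_tmul, hc, hc, bact_tmul, h2, h2']
  refine ⟨Algebra.TensorProduct.congr e e', hbr, hact, fun D => ?_, fun D => ?_⟩
  · show Algebra.TensorProduct.congr e e' (bμ M M' D) = bμ N N' D
    rw [bμ_apply, bμ_apply, map_add, hc, hc, h3, h3', map_one, map_one]
  · show Algebra.TensorProduct.congr e e' (bν M M' D) = bν N N' D
    rw [bν_apply, bν_apply, map_add, hc, hc, h4, h4', map_one, map_one]

/-- [F1e] PROOF. `Algebra.TensorProduct.comm`. -/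
theorem box_comm (M N : Ham G H) : (M.box N).Iso (N.box M) := by
  have hc : ∀ (a : M.A) (b : N.A), Algebra.TensorProduct.comm ℂ M.A N.A (a ⊗ₜ[ℂ] b) = b ⊗ₜ[ℂ] a :=
    fun a b => rfl
  have hbr : ∀ x y : M.A ⊗[ℂ] N.A, Algebra.TensorProduct.comm ℂ M.A N.A (tbr M.toPAlg N.toPAlg x y) =
      tbr N.toPAlg M.toPAlg (Algebra.TensorProduct.comm ℂ M.A N.A x)
        (Algebra.TensorProduct.comm ℂ M.A N.A y) := by
    intro x y
    induction x using TensorProduct.induction_on with
    | zero => simp
    | add x x' hx hx' => simp only [map_add, LinearMap.add_apply, hx, hx']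
    | tmul a b =>
      induction y using TensorProduct.induction_on with
      | zero => simp
      | add y y' hy hy' => simp only [map_add, hy, hy']
      | tmul a' b' =>
        rw [tbr_tmul, map_add, hc, hc, hc, hc, tbr_tmul, add_comm]
  have hact : ∀ (k : G.X × H.X) (x : M.A ⊗[ℂ] N.A),
      Algebra.TensorProduct.comm ℂ M.A N.A (bact M N k x) =
        bact N M k (Algebra.TensorProduct.comm ℂ M.A N.A x) := by
    intro k x
    induction x using TensorProduct.induction_on with
    | zero => simp
    | add x x' hx hx' => simp only [map_add, hx, hx']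
    | tmul a b =>
      rw [bact_tmul, hc, hc, bact_tmul]
  refine ⟨Algebra.TensorProduct.comm ℂ M.A N.A, hbr, hact, fun D => ?_, fun D => ?_⟩
  · show Algebra.TensorProduct.comm ℂ M.A N.A (bμ M N D) = bμ N M D
    rw [bμ_apply, bμ_apply, map_add, hc, hc, add_comm]
  · show Algebra.TensorProduct.comm ℂ M.A N.A (bν M N D) = bν N M D
    rw [bν_apply, bν_apply, map_add, hc, hc, add_comm]

end Ham

end Pool.Agent.MTF
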