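import Pool.Agent.MTF.F1

/-!
# MTF, part F (F2) : isomorphism classes, blocks, the value of a cobordism

`HQ G H` : isomorphism classes, a commutative monoid under the product; `blk` : the class of a building block with restricted legs;
`hq X` : the product of the blocks of the components of `X`; `eta X` : a representative.
-/

namespace Pool.Agent.MTF

open TensorProduct

/-- Isomorphism of Hamiltonian schemes. -/
def hsetoid (G H : AffGrp) : Setoid (Ham G H) where
  r M N := M.Iso N
  iseqv := ⟨fun M => Ham.Iso.refl M, fun h => h.symm, fun h h' => h.trans h'⟩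

/-- Isomorphism classes of Hamiltonian schemes. -/
def HQ (G H : AffGrp) : Type 1 := Quotient (hsetoid G H)

namespace HQ
variable {G H : AffGrp}

/-- the class of `M` -/
def mk (M : Ham G H) : HQ G H := Quotient.mk (hsetoid G H) M

theorem mk_eq {M N : Ham G H} : mk M = mk N ↔ M.Iso N :=
  ⟨fun h => Quotient.exact h, fun h => Quotient.sound h⟩

/-- a representative -/
noncomputable def out (q : HQ G H) : Ham G H := Quotient.out q

theorem mk_out (q : HQ G H) : mk q.out = q := Quotient.out_eq q

theorem ind {p : HQ G H → Prop} (h : ∀ M, p (mk M)) (q : HQ G H) : p q := Quotient.ind h q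

noncomputable instance : CommMonoid (HQ G H) where
  mul := Quotient.map₂ (fun M N => M.box N) fun _ _ h _ _ h' => h.box h'
  one := mk (Ham.triv G H)
  mul_assoc a b c := by
    induction a using HQ.ind with | _ M
    induction b using HQ.ind with | _ N
    induction c using HQ.ind with | _ P
    exact mk_eq.2 (Ham.box_assoc M N P)
  mul_comm a b := by
    induction a using HQ.ind with | _ M
    induction b using HQ.ind with | _ N
    exact mk_eq.2 (Ham.box_comm M N)
  one_mul a := by
    induction a using HQ.ind with | _ M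
    exact mk_eq.2 (Ham.triv_box M)
  mul_one a := by
    induction a using HQ.ind with | _ M
    exact mk_eq.2 ((Ham.box_comm _ _).trans (Ham.triv_box M))

theorem mk_mul (M N : Ham G H) : mk M * mk N = mk (M.box N) := rfl

theorem mk_one : (1 : HQ G H) = mk (Ham.triv G H) := rfl

/-- the opposite -/
noncomputable def neg : HQ G H →* HQ G H where
  toFun := Quotient.map (fun M => M.neg) fun _ _ h => h.neg
  map_one' := mk_eq.2 Ham.triv_neg
  map_mul' a b := by
    induction a using HQ.ind with | _ M
    induction b using HQ.ind with | _ N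
    exact mk_eq.2 (Ham.box_neg M N)

theorem neg_mk (M : Ham G H) : neg (mk M) = mk M.neg := rfl

end HQ

section
variable {G : AffGrp} {I J I' J' : Type} [Finite I] [Finite J] [Finite I'] [Finite J']

/-- restriction of the legs -/
noncomputable def HQ.pull (u : I' → I) (v : J' → J) : HQ (G.pow I') (G.pow J') →* HQ (G.pow I) (G.pow J) where
  toFun := Quotient.map (fun M => M.pull u v) fun _ _ h => h.pull u v
  map_one' := HQ.mk_eq.2 (Ham.pull_triv u v)
  map_mul' a b := by
    induction a using HQ.ind with | _ M
    induction b using HQ.ind with | _ N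
    exact HQ.mk_eq.2 (Ham.pull_box M N u v)

theorem HQ.pull_mk (M : Ham (G.pow I') (G.pow J')) (u : I' → I) (v : J' → J) :
    HQ.pull u v (HQ.mk M) = HQ.mk (M.pull u v) := rfl

theorem HQ.pull_pull {I'' J'' : Type} [Finite I''] [Finite J''] (q : HQ (G.pow I'') (G.pow J'')) (u : I'' → I') (v : J'' → J')
    (u' : I' → I) (v' : J' → J) : HQ.pull u' v' (HQ.pull u v q) = HQ.pull (u' ∘ u) (v' ∘ v) q := by
  induction q using HQ.ind with | _ M
  exact HQ.mk_eq.2 (M.pull_pull u v u' v')

theorem HQ.pull_id (q : HQ (G.pow I) (G.pow J)) : HQ.pull id id q = q := by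
  induction q using HQ.ind with | _ M
  exact HQ.mk_eq.2 M.pull_id

theorem HQ.pull_neg (q : HQ (G.pow I') (G.pow J')) (u : I' → I) (v : J' → J) :
    HQ.pull u v (HQ.neg q) = HQ.neg (HQ.pull u v q) := by
  induction q using HQ.ind with | _ M
  exact HQ.mk_eq.2 (M.pull_neg u v)

end

section
variable {G : AffGrp} {e f : G.Lie} {Hb : ∀ (g : ℕ) (I J : Type) [Finite I] [Finite J], Ham (G.pow I) (G.pow J)}

/-- the class of the surface of genus `g` whose circles are labelled by `u`, `v` -/
noncomputable def blk (Hb : ∀ (g : ℕ) (I J : Type) [Finite I] [Finite J], Ham (G.pow I) (G.pow J)) (g : ℕ) {I' J' I J : Type}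
    [Finite I'] [Finite J'] [Finite I] [Finite J] (u : I' → I) (v : J' → J) : HQ (G.pow I) (G.pow J) :=
  HQ.mk ((Hb g I' J').pull u v)

/-- the block of the component `c` of `X` -/
noncomputable def cblk (Hb : ∀ (g : ℕ) (I J : Type) [Finite I] [Finite J], Ham (G.pow I) (G.pow J)) {I J : Type} [Finite I]
    [Finite J] (X : Cob I J) (c : X.C) : HQ (G.pow I) (G.pow J) :=
  blk Hb (X.g c) (Subtype.val : {i // X.l i = c} → I) (Subtype.val : {j // X.r j = c} → J)

/-- the class of a cobordism -/
noncomputable def hq (Hb : ∀ (g : ℕ) (I J : Type) [Finite I] [Finite J], Ham (G.pow I) (G.pow J)) {I J : Type} [Finite I]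
    [Finite J] (X : Cob I J) : HQ (G.pow I) (G.pow J) := ∏ᶠ c : X.C, cblk Hb X c

/-- the value of a cobordism -/
noncomputable def eta (Hb : ∀ (g : ℕ) (I J : Type) [Finite I] [Finite J], Ham (G.pow I) (G.pow J)) {I J : Type} [Finite I]
    [Finite J] (X : Cob I J) : Ham (G.pow I) (G.pow J) := (hq Hb X).out

theorem mk_eta {I J : Type} [Finite I] [Finite J] (X : Cob I J) : HQ.mk (eta Hb X) = hq Hb X := HQ.mk_out _

/-- the union with arbitrary labels: `S` has the circles `u ∘ i`, `T` has the circles `u' ∘ i'` -/
def Cob.join {I J I₁ J₁ I₂ J₂ : Type} (S : Cob I₁ J₁) (T : Cob I₂ J₂) (u : I ≃ I₁ ⊕ I₂) (v : J ≃ J₁ ⊕ J₂) : Cob I J :=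
  (S.union T).pull u v

end

end Pool.Agent.MTF
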