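import Pool.Agent.MTF.F3B

/-! # MTF, part F (F3D) : the action and the moment maps on the invariants -/

namespace Pool.Agent.MTF

open TensorProduct

section
variable {G : AffGrp} {I J E : Type} [Finite I] [Finite J] [Finite E] (P : Ham (G.pow (I ⊕ E)) (G.pow (J ⊕ E)))

theorem f3d_Ad_one (v : G.Lie) : G.Ad 1 v = v := by
  apply Subtype.ext
  apply LinearMap.ext
  intro f
  show v.1 (G.cj 1 f) = v.1 f
  congr 1
  apply Subtype.ext
  funext z
  show f.1 (1 * z * 1⁻¹) = f.1 z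
  rw [one_mul, inv_one, mul_one]

theorem f3d_Ad {K : Type} [Finite K] (h : E → G.X) (d : K → G.Lie) :
    (G.pow (K ⊕ E)).Ad (Sum.elim (1 : K → G.X) h) (G.pl (Sum.elim d 0)) =
      G.pl (Sum.elim d 0) := by
  rw [AffGrp.Ad_pl]
  congr 1
  funext x
  cases x with
  | inl i => exact f3d_Ad_one (d i)
  | inr e => exact map_zero (G.Ad (h e))

/-- [F3j] PROOF. `(1, 1, h)` commutes with `(g, k, 1)` (`ract_mul`, `mul_one`, `one_mul`), and `ract_rI`. -/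
theorem ract_mem_rinv (g : I → G.X) (k : J → G.X) {a : P.A} (ha : a ∈ rinv P) : ract P g k 1 a ∈ rinv P := by
  show ∀ h : E → G.X, ract P 1 1 h (ract P g k 1 a) - ract P g k 1 a ∈ rI P
  intro h
  have h1 : ract P 1 1 h (ract P g k 1 a) = ract P g k 1 (ract P 1 1 h a) := by
    rw [← ract_mul, ← ract_mul, one_mul, one_mul, mul_one, mul_one, mul_one, one_mul]
  rw [h1, ← map_sub]
  exact ract_rI P g k 1 (ha h)

/-- [F3k] PROOF. `ract P 1 1 h (P.μ (pl (d, 0))) = P.μ (Ad (1, h) (pl (d, 0))) = P.μ (pl (d, 0))`: `P.μ_eq`, `AffGrp.Ad_pl`, `G.Ad 1 = id`, `G.Ad x 0 = 0`; the difference is `0`. -/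
theorem μ_mem_rinv (d : I → G.Lie) : P.μ (G.pl (Sum.elim d 0)) ∈ rinv P := by
  show ∀ h : E → G.X, ract P 1 1 h (P.μ (G.pl (Sum.elim d 0))) - P.μ (G.pl (Sum.elim d 0)) ∈ rI P
  intro h
  have h1 : ract P 1 1 h (P.μ (G.pl (Sum.elim d 0))) = P.μ (G.pl (Sum.elim d 0)) :=
    (P.μ_eq _ _ _).trans (congrArg P.μ (f3d_Ad h d))
  rw [h1, sub_self]
  exact Ideal.zero_mem _

theorem ν_mem_rinv (d : J → G.Lie) : P.ν (G.pl (Sum.elim d 0)) ∈ rinv P := by
  show ∀ h : E → G.X, ract P 1 1 h (P.ν (G.pl (Sum.elim d 0))) - P.ν (G.pl (Sum.elim d 0)) ∈ rI P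
  intro h
  have h1 : ract P 1 1 h (P.ν (G.pl (Sum.elim d 0))) = P.ν (G.pl (Sum.elim d 0)) :=
    (P.ν_eq _ _ _).trans (congrArg P.ν (f3d_Ad h d))
  rw [h1, sub_self]
  exact Ideal.zero_mem _

end

end Pool.Agent.MTF
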