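import Pool.Agent.MTF.F3C
import Pool.Agent.MTF.F3D

/-! # MTF, part F (F3) : the closedness conditions are automatic -/

namespace Pool.Agent.MTF

open TensorProduct

section
variable {G : AffGrp} {I J E : Type} [Finite I] [Finite J] [Finite E] (P : Ham (G.pow (I ⊕ E)) (G.pow (J ⊕ E)))

/-- the closedness conditions are automatic -/
theorem isRed_mk (Q : Ham (G.pow I) (G.pow J)) (φ : rinv P →ₐ[ℂ] Q.A) (h1 : Function.Surjective φ) (h2 : ∀ a, φ a = 0 ↔ a.1 ∈ rI P)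
    (h3 : ∀ a b c : rinv P, c.1 = P.br a.1 b.1 → φ c = Q.br (φ a) (φ b))
    (h4 : ∀ g k, ∀ a b : rinv P, b.1 = ract P g k 1 a.1 → φ b = Q.act (g, k) (φ a))
    (h5 : ∀ d : I → G.Lie, ∀ a : rinv P, a.1 = P.μ (G.pl (Sum.elim d 0)) → φ a = Q.μ (G.pl d))
    (h6 : ∀ d : J → G.Lie, ∀ a : rinv P, a.1 = P.ν (G.pl (Sum.elim d 0)) → φ a = Q.ν (G.pl d)) : IsRed P Q where
  br_mem a b := br_mem_rinv P a.2 b.2
  act_mem g k a := ract_mem_rinv P g k a.2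
  μ_mem := μ_mem_rinv P
  ν_mem := ν_mem_rinv P
  ex := ⟨φ, h1, h2, h3, h4, h5, h6⟩

end

end Pool.Agent.MTF
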