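import Pool.Agent.MTF.F0d

/-! # MTF, part F (F3A) : derivatives -/

namespace Pool.Agent.MTF

open TensorProduct

/-- [F3a] a linear condition passes to the derivative. PROOF. Let `V` be a subspace with `T g - a ∈ V` for all `g`, and `y = ∑ D (f i) • c i`. If `y ∉ V` there is `ψ : A →ₗ ℂ` with `V ≤ ker ψ`, `ψ y ≠ 0` (`Submodule.exists_le_ker_of_notMem` or `Submodule.exists_dual_map_eq_bot_of_notMem`..). `ψ (T g) = ψ a` for all `g`, i.e. the function
`∑ ψ (c i) • f i` of `G.O` is the constant `ψ a`, so `ψ y = D (∑ ψ (c i) • f i) = 0` (`AffGrp.lie_const`). -/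
theorem Exp.mem {G : AffGrp} {A : Type} [CommRing A] [Algebra ℂ A] {T : G.X → A} {D : G.Lie} {y : A} (h : Exp G T D y)
    (V : Submodule ℂ A) (a : A) (hV : ∀ g, T g - a ∈ V) : y ∈ V := by
  obtain ⟨n, f, c, h1, rfl⟩ := h
  by_contra hy
  obtain ⟨ψ, h2, h3⟩ := Submodule.exists_le_ker_of_notMem hy
  have h4 : ∑ i, ψ (c i) • f i = algebraMap ℂ G.O (ψ a) := by
    apply Subtype.ext
    funext g
    have h5 : ψ (T g - a) = 0 := h3 (hV g)
    rw [map_sub, sub_eq_zero, h1 g, map_sum] at h5
    simp only [map_smul, smul_eq_mul] at h5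
    simp only [AddSubmonoidClass.coe_finsetSum, Finset.sum_apply]
    show ∑ i, ψ (c i) * (f i).1 g = ψ a
    rw [← h5]
    exact Finset.sum_congr rfl fun i _ => mul_comm _ _
  have h6 := congrArg D.1 h4
  rw [AffGrp.lie_const] at h6
  simp only [map_sum, map_smul, smul_eq_mul] at h6
  apply h2
  rw [map_sum, ← h6]
  refine Finset.sum_congr rfl fun i _ => ?_
  rw [map_smul, smul_eq_mul, mul_comm]

/-- the inclusion of the factors `E` : `h ↦ (1, h)`, on functions -/
def preI {G : AffGrp} {I E : Type} : G.powO (I ⊕ E) →ₐ[ℂ] G.powO E where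
  toFun F := ⟨fun h => F.1 (Sum.elim 1 h), by
    obtain ⟨F, hF⟩ := F
    unfold AffGrp.powO at hF ⊢
    show (fun h : E → G.X => F (Sum.elim 1 h)) ∈ _
    induction hF using Algebra.adjoin_induction with
    | mem F hF =>
      obtain ⟨i, f, rfl⟩ := hF
      rcases i with i | e
      · exact Subalgebra.algebraMap_mem _ (f.1 1)
      · exact Algebra.subset_adjoin ⟨e, f, rfl⟩
    | algebraMap c => exact Subalgebra.algebraMap_mem _ c
    | add F F' _ _ ih ih' => exact Subalgebra.add_mem _ ih ih'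
    | mul F F' _ _ ih ih' => exact Subalgebra.mul_mem _ ih ih'⟩
  map_one' := rfl
  map_mul' _ _ := rfl
  map_zero' := rfl
  map_add' _ _ := rfl
  commutes' _ := rfl

/-- [F3c] the element `(0, d)` of the Lie algebra is the derivative of the inclusion. PROOF. Both sides are elements of `Lie (G^(I ⊕ E))` (the right side: `preI` is multiplicative and `(preI F)(1) = F 1`, `Sum.elim 1 1 = 1`); `lie_ext`, `lpr_pl`: the components at `inl i` (`preI (pull (inl i) f)` is the constant `f 1`: `lie_const`) and `inr e`. -/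
theorem pl_inr {G : AffGrp} {I E : Type} [Finite I] [Finite E] (d : E → G.Lie) (F : G.powO (I ⊕ E)) :
    (G.pl (Sum.elim (0 : I → G.Lie) d)).1 F = (G.pl d).1 (preI F) := by
  let D2 : (G.pow (I ⊕ E)).Lie := ⟨(G.pl d).1 ∘ₗ (preI (G := G) (I := I) (E := E)).toLinearMap, fun f g => by
    have h := (G.pl d).2 (preI f) (preI g)
    have h1 : (preI (f * g : G.powO (I ⊕ E)) : G.powO E) = preI f * preI g := map_mul _ _ _
    have h0 : (Sum.elim (1 : I → G.X) (1 : E → G.X)) = (1 : I ⊕ E → G.X) := by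
      funext x
      cases x <;> rfl
    have h2 : ∀ f : G.powO (I ⊕ E), (preI f : G.powO E).1 1 = f.1 1 := fun f => congrArg f.1 h0
    exact (congrArg (G.pl d).1 h1).trans (h.trans (congrArg₂ HAdd.hAdd
      (congrArg (fun z => z * (G.pl d).1 (preI g)) (h2 f)) (congrArg (fun z => z * (G.pl d).1 (preI f)) (h2 g))))⟩
  have h3 : G.pl (Sum.elim (0 : I → G.Lie) d) = D2 := by
    apply AffGrp.lie_ext
    intro l
    rw [AffGrp.lpr_pl]
    apply Subtype.ext
    apply LinearMap.ext
    intro f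
    rcases l with i | e
    · show (0 : ℂ) = (G.pl d).1 (preI (G.pull (Sum.inl i) f))
      exact (AffGrp.lie_const (G.pow E) (G.pl d) (f.1 1)).symm
    · show (d e).1 f = (G.pl d).1 (G.pull e f)
      have h4 := congrArg (fun D : G.Lie => D.1 f) (AffGrp.lpr_pl d e)
      exact h4.symm
  rw [h3]
  rfl

end Pool.Agent.MTF
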