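import Pool.Agent.MTF.F3A

/-! # MTF, part F (F3B) : the action of `G^E` -/

namespace Pool.Agent.MTF

open TensorProduct

section
variable {G : AffGrp} {I J E : Type} [Finite I] [Finite J] [Finite E] (P : Ham (G.pow (I ⊕ E)) (G.pow (J ⊕ E)))

theorem f3b_pre_one {G : AffGrp} {I E : Type} (f : G.powO (I ⊕ E)) : (preI f : G.powO E).1 (1 : E → G.X) = f.1 (1 : I ⊕ E → G.X) := by
  have h0 : (Sum.elim (1 : I → G.X) (1 : E → G.X)) = (1 : I ⊕ E → G.X) := by
    funext x
    cases x <;> rfl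
  exact congrArg f.1 h0

theorem f3b_elim_mul {G : AffGrp} {I E : Type} (g g' : I → G.X) (h h' : E → G.X) :
    Sum.elim (g * g') (h * h') = Sum.elim g h * Sum.elim g' h' := by
  funext x
  cases x <;> rfl

theorem f3b_elim_one {G : AffGrp} {I E : Type} : Sum.elim (1 : I → G.X) (1 : E → G.X) = 1 := by
  funext x
  cases x <;> rfl

/-- [F3d] PROOF. `map_mul` of `P.act` and `Sum.elim (g * g') (h * h') = Sum.elim g h * Sum.elim g' h'` (`funext`, cases). -/
theorem ract_mul (g g' : I → G.X) (k k' : J → G.X) (h h' : E → G.X) (a : P.A) :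
    ract P (g * g') (k * k') (h * h') a = ract P g k h (ract P g' k' h' a) := by
  show P.act (Sum.elim (g * g') (h * h'), Sum.elim (k * k') (h * h')) a = P.act (Sum.elim g h, Sum.elim k h) (P.act (Sum.elim g' h', Sum.elim k' h') a)
  rw [f3b_elim_mul, f3b_elim_mul]
  have h1 := map_mul P.act (Sum.elim g h, Sum.elim k h) (Sum.elim g' h', Sum.elim k' h')
  have h2 := congrArg (fun φ : P.A ≃ₐ[ℂ] P.A => φ a) h1
  exact h2

theorem ract_one (a : P.A) : ract P 1 1 1 a = a := by
  show P.act (Sum.elim 1 1, Sum.elim 1 1) a = a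
  rw [f3b_elim_one, f3b_elim_one]
  have h2 := congrArg (fun φ : P.A ≃ₐ[ℂ] P.A => φ a) (map_one P.act)
  exact h2

theorem ract_br (g : I → G.X) (k : J → G.X) (h : E → G.X) (a b : P.A) :
    ract P g k h (P.br a b) = P.br (ract P g k h a) (ract P g k h b) := P.act_br _ a b

/-- [F3e] the bracket with the moment map of `G^E` is the derivative of the diagonal action. PROOF. `P.rat a`: `P.act (g, k) a = ∑ (f i) g (f' i) k • c i`. `P.act (g, 1) a = ∑ f i g • (f' i 1 • c i)`, `P.act (1, k) a = ∑ f' i k • (f i 1 • c i)`, so by `P.μ_gen`, `P.ν_gen` with `D = pl (0, d)` (in `G^(I⊕E)`, `G^(J⊕E)`):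
`br (rμ d) a = ∑ (f' i 1 * D (f i) + f i 1 * D' (f' i)) • c i`. The expansion of `ract P 1 1 h a = ∑ (preI (f i)) h * (preI (f' i)) h • c i` has the derivative `∑ (pl d) (preI (f i) * preI (f' i)) • c i`, and `(pl d) (F * F') = F 1 (pl d) F' + F' 1 (pl d) F`; `pl_inr`. -/
theorem exp_ract (d : E → G.Lie) (a : P.A) : Exp (G.pow E) (fun h => ract P 1 1 h a) (G.pl d) (P.br (rμ P d) a) := by
  obtain ⟨n, f, f', c, h⟩ := P.rat a
  refine ⟨n, fun i => preI (f i) * preI (f' i), c, fun x => ?_, ?_⟩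
  · exact h (Sum.elim 1 x) (Sum.elim 1 x)
  · have h1 := P.μ_gen (G.pl (Sum.elim (0 : I → G.Lie) d)) a n (fun i => (f' i).1 1 • f i) c (fun g => by
      rw [h g 1]
      refine Finset.sum_congr rfl fun i _ => ?_
      show _ = ((f' i).1 1 * (f i).1 g) • c i
      rw [mul_comm])
    have h2 := P.ν_gen (G.pl (Sum.elim (0 : J → G.Lie) d)) a n (fun i => (f i).1 1 • f' i) c (fun g => by
      rw [h 1 g]
      rfl)
    show P.br (P.μ (G.pl (Sum.elim (0 : I → G.Lie) d)) - P.ν (G.pl (Sum.elim (0 : J → G.Lie) d))) a = _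
    rw [map_sub, LinearMap.sub_apply, h1, h2, sub_neg_eq_add, ← Finset.sum_add_distrib]
    refine Finset.sum_congr rfl fun i _ => ?_
    rw [← add_smul]
    congr 1
    have h3 := (G.pl d).2 (preI (f i)) (preI (f' i))
    have h4 := f3b_pre_one (f i)
    have h5 := f3b_pre_one (f' i)
    have h6 : (G.pl (Sum.elim (0 : I → G.Lie) d)).1 ((f' i).1 1 • f i) = (f' i).1 1 * (G.pl d).1 (preI (f i)) := by
      rw [map_smul, smul_eq_mul]
      exact congrArg _ (pl_inr d (f i))
    have h7 : (G.pl (Sum.elim (0 : J → G.Lie) d)).1 ((f i).1 1 • f' i) = (f i).1 1 * (G.pl d).1 (preI (f' i)) := by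
      rw [map_smul, smul_eq_mul]
      exact congrArg _ (pl_inr d (f' i))
    rw [h6, h7]
    refine Eq.trans ?_ h3.symm
    refine (add_comm _ _).trans ?_
    exact congrArg₂ HAdd.hAdd (congrArg (fun z => z * (G.pl d).1 (preI (f' i))) h4.symm)
      (congrArg (fun z => z * (G.pl d).1 (preI (f i))) h5.symm)

end

end Pool.Agent.MTF
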