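import Pool.Agent.MTF.F3B

/-! # MTF, part F (F3C) : the bracket on the invariants -/

namespace Pool.Agent.MTF

open TensorProduct

section
variable {G : AffGrp} {I J E : Type} [Finite I] [Finite J] [Finite E] (P : Ham (G.pow (I ⊕ E)) (G.pow (J ⊕ E)))

/-- [F3f] PROOF. `ract_rI` and `sub_mem`. -/
theorem rI_le_rinv {a : P.A} (ha : a ∈ rI P) : a ∈ rinv P := by
  show ∀ h : E → G.X, ract P 1 1 h a - a ∈ rI P
  exact fun h => Ideal.sub_mem _ (ract_rI P 1 1 h ha) ha

/-- [F3g] PROOF. `exp_ract` and `Exp.mem` for the subspace `rI P` (`(rI P).restrictScalars ℂ`). -/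
theorem br_rμ_mem (d : E → G.Lie) {a : P.A} (ha : a ∈ rinv P) : P.br (rμ P d) a ∈ rI P := by
  exact Exp.mem (exp_ract P d a) ((rI P).restrictScalars ℂ) a fun h => ha h

/-- [F3h] PROOF. `x = ∑ p_i rμ d_i` (`Submodule.span_induction` / `Ideal.span`): `P.br (p * rμ d) a = p * P.br (rμ d) a + rμ d * P.br p a` (`PAlg.br_mul`). -/
theorem br_rI_mem {x a : P.A} (hx : x ∈ rI P) (ha : a ∈ rinv P) : P.br x a ∈ rI P := by
  have hx' : x ∈ Submodule.span P.A (Set.range (rμ P)) := hx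
  clear hx
  induction hx' using Submodule.span_induction with
  | mem x hx =>
    obtain ⟨d, rfl⟩ := hx
    exact br_rμ_mem P d ha
  | zero =>
    rw [map_zero, LinearMap.zero_apply]
    exact Ideal.zero_mem _
  | add x y hx hy ihx ihy =>
    rw [map_add, LinearMap.add_apply]
    exact Ideal.add_mem _ ihx ihy
  | smul p x hx ih =>
    rw [smul_eq_mul, PAlg.br_mul]
    exact Ideal.add_mem _ (Ideal.mul_mem_left _ _ ih) (Ideal.mul_mem_right _ _ hx)

/-- [F3i] PROOF. `h {a, b} - {a, b} = {h a - a, h b} + {a, h b - b}` (`ract_br`), `h b = b + (h b - b)` is in `rinv P` (`rI_le_rinv`); `br_rI_mem`, `PAlg.br_skew`. -/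
theorem br_mem_rinv {a b : P.A} (ha : a ∈ rinv P) (hb : b ∈ rinv P) : P.br a b ∈ rinv P := by
  show ∀ h : E → G.X, ract P 1 1 h (P.br a b) - P.br a b ∈ rI P
  intro h
  have hb' : ract P 1 1 h b ∈ rinv P := by
    have h1 : ract P 1 1 h b = b + (ract P 1 1 h b - b) := by ring
    rw [h1]
    exact Subalgebra.add_mem _ hb (rI_le_rinv P (hb h))
  have h2 : ract P 1 1 h (P.br a b) - P.br a b =
      P.br (ract P 1 1 h a - a) (ract P 1 1 h b) + P.br a (ract P 1 1 h b - b) := by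
    rw [ract_br, map_sub, map_sub, LinearMap.sub_apply]
    ring
  rw [h2]
  refine Ideal.add_mem _ (br_rI_mem P (ha h) hb') ?_
  rw [PAlg.br_skew]
  exact neg_mem (br_rI_mem P (hb h) ha)

end

end Pool.Agent.MTF
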