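import Pool.Agent.MTF.F0d

/-! # MTF, part F (F5B) : kernels of a tensor product -/

namespace Pool.Agent.MTF

open TensorProduct

/-- over a field the kernel of `f ⊗ 1` only depends on the kernel of `f` -/
theorem f5b_ker {S M B : Type} [AddCommGroup S] [Module ℂ S] [AddCommGroup M] [Module ℂ M]
    [AddCommGroup B] [Module ℂ B] (f : S →ₗ[ℂ] M) (K : Submodule ℂ S) (hK : K = LinearMap.ker f)
    (y : S ⊗[ℂ] B) : LinearMap.rTensor B f y = 0 ↔ LinearMap.rTensor B K.mkQ y = 0 := by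
  have h1 : K ≤ LinearMap.ker f := hK.le
  have h2 : LinearMap.ker (K.liftQ f h1) = ⊥ := Submodule.ker_liftQ_eq_bot K f h1 hK.ge
  have h3 : Function.Injective (LinearMap.rTensor B (K.liftQ f h1)) :=
    Module.Flat.rTensor_preserves_injective_linearMap _ (LinearMap.ker_eq_bot.1 h2)
  have h4 : LinearMap.rTensor B f y =
      LinearMap.rTensor B (K.liftQ f h1) (LinearMap.rTensor B K.mkQ y) := by
    rw [← LinearMap.comp_apply, ← LinearMap.rTensor_comp, Submodule.liftQ_mkQ]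
  rw [h4, map_eq_zero_iff _ h3]

/-- [F5b] PURE ALGEBRA. The kernel of `φ ⊗ 1` on `S ⊗ B`, in `A ⊗ B`. PROOF. `φ` is surjective with kernel `S ∩ V`; `LinearMap.rTensor_exact` / `rTensor_ker`..: `ker (φ ⊗ 1) =` the range of `(ker φ) ⊗ B`; in terms of a basis `n_k` of `B`: `y = ∑ y_k ⊗ n_k`, `y_k ∈ S`, `(φ ⊗ 1) y = ∑ φ y_k ⊗ n_k = 0` iff all `φ y_k = 0` iff all
`y_k ∈ V` iff the image `∑ y_k ⊗ n_k` in `A ⊗ B` is in the range of `V ⊗ B`. -/
theorem ker_tensor {A B C : Type} [CommRing A] [Algebra ℂ A] [CommRing B] [Algebra ℂ B] [CommRing C] [Algebra ℂ C]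
    (V : Submodule ℂ A) (S : Subalgebra ℂ A) (φ : S →ₐ[ℂ] C) (h : ∀ a, φ a = 0 ↔ a.1 ∈ V) (y : S ⊗[ℂ] B) :
    LinearMap.rTensor B φ.toLinearMap y = 0 ↔
      LinearMap.rTensor B S.val.toLinearMap y ∈ LinearMap.range (LinearMap.rTensor B V.subtype) := by
  have h1 : Function.Exact (LinearMap.rTensor B V.subtype) (LinearMap.rTensor B V.mkQ) :=
    rTensor_exact B (LinearMap.exact_subtype_mkQ V) V.mkQ_surjective
  have h2 : LinearMap.ker φ.toLinearMap = LinearMap.ker (V.mkQ ∘ₗ S.val.toLinearMap) := by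
    ext a
    rw [LinearMap.mem_ker, LinearMap.mem_ker, LinearMap.comp_apply, Submodule.mkQ_apply,
      Submodule.Quotient.mk_eq_zero]
    exact h a
  rw [f5b_ker φ.toLinearMap _ rfl y, f5b_ker (V.mkQ ∘ₗ S.val.toLinearMap) _ h2 y |>.symm,
    LinearMap.rTensor_comp, LinearMap.comp_apply]
  exact h1 _

end Pool.Agent.MTF
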