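import Pool.Agent.MTF.F6Z

/-! # MTF, part F (F6B) : properties of the Reynolds operator -/

namespace Pool.Agent.MTF

section
variable {G : AffGrp} {A : Type} [CommRing A] [Algebra ℂ A]

variable {R : Module.Dual ℂ G.O} {T : G.X →* (A ≃ₐ[ℂ] A)} {ρ : A →ₗ[ℂ] A} (hR : IsReyF G R) (hT : RatActF T) (h : IsRey R T ρ)
include hR hT h

/-- [F6b] PROOF. `T g a = ∑ f i g • c i`; `T h (T g a) = ∑ f i g • T h (c i)` and `= T (h g) a = ∑ (lt h (f i)) g • c i` for all `g`. By `der_expand` (`D = R`): `∑ R (f i) • T h (c i) = ∑ R (lt h (f i)) • c i = ∑ R (f i) • c i`. The left side is `T h (ρ a)`. -/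
theorem rey_inv (a : A) (k : G.X) : T k (ρ a) = ρ a := by
  obtain ⟨n, f, c, hc⟩ := hT a
  rw [h a n f c hc, map_sum]
  have h1 : ∑ i, R (f i) • T k (c i) = ∑ i, R (G.lt k (f i)) • c i :=
    der_expand R f (fun i => T k (c i)) (fun i => G.lt k (f i)) c fun g => by
      have h2 := hc (k * g)
      rw [map_mul, AlgEquiv.mul_apply, hc g, map_sum] at h2
      have h3 : ∀ i, T k ((f i).1 g • c i) = (f i).1 g • T k (c i) := fun i => map_smul _ _ _
      rw [Finset.sum_congr rfl fun i _ => h3 i] at h2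
      exact h2
  have h4 : ∀ i, T k (R (f i) • c i) = R (f i) • T k (c i) := fun i => map_smul _ _ _
  rw [Finset.sum_congr rfl fun i _ => h4 i, h1]
  exact Finset.sum_congr rfl fun i _ => by rw [hR.left]

/-- [F6c] PROOF. If `T g a = a` for all `g`: the expansion `n = 1`, `f = 1`, `c = a`, `R 1 = 1`. -/
theorem rey_fix {a : A} (ha : ∀ g, T g a = a) : ρ a = a := by
  have h1 := h a 1 (fun _ => 1) (fun _ => a) (fun g => by
    rw [ha g, Fin.sum_univ_one]
    exact (one_smul ℂ a).symm)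
  rw [h1, Fin.sum_univ_one, hR.one, one_smul]

/-- [F6d] PROOF. For `ψ` a functional vanishing on `V` (as in `Exp.mem`, F3a): `ψ (T g a) = ψ a`, so `∑ ψ (c i) • f i` is the constant `ψ a` and `ψ (ρ a) = ψ a`. -/
theorem rey_sub_mem (V : Submodule ℂ A) {a : A} (ha : ∀ g, T g a - a ∈ V) : ρ a - a ∈ V := by
  by_contra hne
  obtain ⟨ψ, hψ, hψV⟩ := Submodule.exists_le_ker_of_notMem hne
  obtain ⟨n, f, c, hc⟩ := hT a
  have h1 := der_expand R f (fun i => ψ (c i)) (fun _ : Fin 1 => 1) (fun _ => ψ a) fun g => by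
    have h2 := hψV (ha g)
    rw [LinearMap.mem_ker, map_sub, hc g, map_sum, sub_eq_zero] at h2
    have h3 : ∀ i, ψ ((f i).1 g • c i) = (f i).1 g • ψ (c i) := fun i => map_smul _ _ _
    rw [Finset.sum_congr rfl fun i _ => h3 i] at h2
    rw [h2, Fin.sum_univ_one]
    exact (one_smul ℂ (ψ a)).symm
  rw [Fin.sum_univ_one, hR.one, one_smul] at h1
  apply hψ
  rw [map_sub, h a n f c hc, map_sum, sub_eq_zero, ← h1]
  exact Finset.sum_congr rfl fun i _ => map_smul _ _ _

/-- [F6e] PROOF. The same with `ψ (T g a) = 0`. -/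
theorem rey_mem (V : Submodule ℂ A) {a : A} (ha : ∀ g, T g a ∈ V) : ρ a ∈ V := by
  by_contra hne
  obtain ⟨ψ, hψ, hψV⟩ := Submodule.exists_le_ker_of_notMem hne
  obtain ⟨n, f, c, hc⟩ := hT a
  have h1 := der_expand R f (fun i => ψ (c i)) (fun _ : Fin 1 => 1) (fun _ => (0 : ℂ)) fun g => by
    have h2 := hψV (ha g)
    rw [LinearMap.mem_ker, hc g, map_sum] at h2
    have h3 : ∀ i, ψ ((f i).1 g • c i) = (f i).1 g • ψ (c i) := fun i => map_smul _ _ _
    rw [Finset.sum_congr rfl fun i _ => h3 i] at h2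
    rw [h2, Fin.sum_univ_one, smul_zero]
  rw [Fin.sum_univ_one, smul_zero] at h1
  apply hψ
  rw [h a n f c hc, map_sum, ← h1]
  exact Finset.sum_congr rfl fun i _ => map_smul _ _ _

/-- [F6f] PROOF. `T g (a b) = ∑ f i g • (c i b)`. -/
theorem rey_mul {a b : A} (hb : ∀ g, T g b = b) : ρ (a * b) = ρ a * b := by
  obtain ⟨n, f, c, hc⟩ := hT a
  rw [h a n f c hc, h (a * b) n f (fun i => c i * b) (fun g => by
    rw [map_mul, hb g, hc g, Finset.sum_mul]
    exact Finset.sum_congr rfl fun i _ => smul_mul_assoc _ _ _), Finset.sum_mul]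
  exact Finset.sum_congr rfl fun i _ => (smul_mul_assoc _ _ _).symm

/-- [F6g] PROOF. `T g (S a) = S (T g a) = ∑ f i g • S (c i)`. -/
theorem rey_comm (S : A ≃ₐ[ℂ] A) (hS : ∀ g a, T g (S a) = S (T g a)) (a : A) : ρ (S a) = S (ρ a) := by
  obtain ⟨n, f, c, hc⟩ := hT a
  rw [h a n f c hc, h (S a) n f (fun i => S (c i)) (fun g => by
    rw [hS g a, hc g, map_sum]
    exact Finset.sum_congr rfl fun i _ => map_smul _ _ _), map_sum]
  exact Finset.sum_congr rfl fun i _ => (map_smul _ _ _).symm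

end

end Pool.Agent.MTF
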