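import Pool.Agent.MTF.F6Z

/-! # MTF, part F (F6C) : rationality of the diagonal action -/

namespace Pool.Agent.MTF

theorem f6c_mem {G : AffGrp} {L : Type} {F : (L ⊕ PUnit → G.X) → ℂ} (hF : F ∈ G.powO (L ⊕ PUnit)) :
    (fun x : G.X => F (Sum.elim (1 : L → G.X) fun _ => x)) ∈ G.O := by
  refine AffGrp.pow_mem G (H := G) (fun x : G.X => Sum.elim (1 : L → G.X) fun _ => x) ?_ hF
  rintro (l | l) f hf
  · exact AffGrp.const_mem G (f 1)
  · exact hf

section
variable {G : AffGrp} {I J : Type} [Finite I] [Finite J] (P : Ham (G.pow (I ⊕ PUnit)) (G.pow (J ⊕ PUnit)))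

/-- [F6i] PROOF. `P.rat a`: `P.act (g, k) a = ∑ f i g f' i k • c i`; `x ↦ f i (Sum.elim 1 (fun _ => x)) * f' i (..)` is in `G.O`: for `F ∈ powO L` and a map `G.X → (L → G.X)` whose components are constant or the identity, `F ∘ map` is in `G.O` (`Algebra.adjoin_induction`). -/
theorem dactF_rat : RatActF (dactF P) := by
  intro a
  obtain ⟨n, f, f', c, h⟩ := P.rat a
  refine ⟨n, fun i => ⟨fun x : G.X => (f i).1 (Sum.elim (1 : I → G.X) fun _ => x) * (f' i).1 (Sum.elim (1 : J → G.X) fun _ => x),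
    Subalgebra.mul_mem _ (f6c_mem (f i).2) (f6c_mem (f' i).2)⟩, c, fun x => ?_⟩
  exact h (Sum.elim (1 : I → G.X) fun _ => x) (Sum.elim (1 : J → G.X) fun _ => x)

end

end Pool.Agent.MTF
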