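import Pool.Agent.MTF.F6Z

/-! # MTF, part F (F6A) : the Reynolds operator -/

namespace Pool.Agent.MTF

section
variable {G : AffGrp} {A : Type} [CommRing A] [Algebra ℂ A]

/-- [F6a] PROOF. Choose for every `a` an expansion and put `ρ a = ∑ R (f i) • c i`; it does not depend on the expansion (`der_expand` with `D = R`), so it is additive (concatenate the expansions, `Fin.append`) and homogeneous. -/
theorem exists_reyF (R : Module.Dual ℂ G.O) (T : G.X →* (A ≃ₐ[ℂ] A)) (hT : RatActF T) : ∃ ρ : A →ₗ[ℂ] A, IsRey R T ρ := by
  choose n F C hF using hT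
  have key : ∀ (a : A) (m : ℕ) (f : Fin m → G.O) (c : Fin m → A),
      (∀ g, T g a = ∑ i, (f i).1 g • c i) → ∑ i, R (F a i) • C a i = ∑ i, R (f i) • c i := by
    intro a m f c h
    exact der_expand R (F a) (C a) f c fun g => by rw [← hF a g, ← h g]
  refine ⟨{ toFun := fun a => ∑ i, R (F a i) • C a i
            map_add' := fun a b => ?_
            map_smul' := fun r a => ?_ }, fun a m f c h => key a m f c h⟩
  · rw [key (a + b) (n a + n b) (Fin.append (F a) (F b)) (Fin.append (C a) (C b)) (fun g => by
      rw [map_add, hF a g, hF b g, Fin.sum_univ_add]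
      simp only [Fin.append_left, Fin.append_right]), Fin.sum_univ_add]
    simp only [Fin.append_left, Fin.append_right]
  · rw [key (r • a) (n a) (F a) (fun i => r • C a i) (fun g => by
      rw [map_smul, hF a g, Finset.smul_sum]
      exact Finset.sum_congr rfl fun i _ => smul_comm _ _ _), RingHom.id_apply, Finset.smul_sum]
    exact Finset.sum_congr rfl fun i _ => smul_comm _ _ _

end

end Pool.Agent.MTF
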