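import Pool.Agent.MTF.F3B

/-! # MTF, part F (F6Z) : Reynolds operators: definitions -/

namespace Pool.Agent.MTF

/-- `R` is a Reynolds functional -/
structure IsReyF (G : AffGrp) (R : Module.Dual ℂ G.O) : Prop where
  one : R 1 = 1
  left : ∀ x f, R (G.lt x f) = R f
  right : ∀ (x : G.X) (f f' : G.O), (∀ y, f'.1 y = f.1 (y * x)) → R f' = R f

section
variable {G : AffGrp} {A : Type} [CommRing A] [Algebra ℂ A]

/-- a rational action -/
def RatActF (T : G.X →* (A ≃ₐ[ℂ] A)) : Prop :=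
  ∀ a : A, ∃ (n : ℕ) (f : Fin n → G.O) (c : Fin n → A), ∀ g, T g a = ∑ i, (f i).1 g • c i

/-- `ρ` is the operator given by the functional `R` -/
def IsRey (R : Module.Dual ℂ G.O) (T : G.X →* (A ≃ₐ[ℂ] A)) (ρ : A →ₗ[ℂ] A) : Prop :=
  ∀ (a : A) (n : ℕ) (f : Fin n → G.O) (c : Fin n → A), (∀ g, T g a = ∑ i, (f i).1 g • c i) → ρ a = ∑ i, R (f i) • c i

end

/-- [F6h] the Reynolds functional in the interface -/
theorem BB.reyF {G : AffGrp} {e f : G.Lie} {Hb : ∀ (g : ℕ) (I J : Type) [Finite I] [Finite J], Ham (G.pow I) (G.pow J)}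
    (hB : BB G e f Hb) : ∃ R : Module.Dual ℂ G.O, IsReyF G R := by
  obtain ⟨R, h1, h2, h3⟩ := hB.cr
  exact ⟨R, h1, h2, h3⟩

section
variable {G : AffGrp} {I J : Type} [Finite I] [Finite J] (P : Ham (G.pow (I ⊕ PUnit)) (G.pow (J ⊕ PUnit)))

/-- the diagonal action of the last factor -/
noncomputable def dactF : G.X →* (P.A ≃ₐ[ℂ] P.A) where
  toFun x := ract P 1 1 fun _ => x
  map_one' := AlgEquiv.ext fun a => ract_one P a
  map_mul' x y := AlgEquiv.ext fun a => by
    have h := ract_mul P 1 1 1 1 (fun _ => x) (fun _ => y) a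
    rw [mul_one, mul_one] at h
    exact h

end

end Pool.Agent.MTF
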