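import Pool.Agent.MTF.F7Z

/-! # MTF, part F (F7A) : the ideal of the second stage -/

namespace Pool.Agent.MTF

/-- auxiliary -/
theorem f7a_span {A : Type*} [CommRing A] {S U : Type*} (I0 : Ideal A) (f : S → A) (m : U → A)
    (hf : ∀ s, ∃ y ∈ I0, ∃ u, f s = y + m u) {x : A} (hx : x ∈ Ideal.span (Set.range f)) :
    ∃ (y : A) (n : ℕ) (p : Fin n → A) (d : Fin n → U), y ∈ I0 ∧ x = y + ∑ i, p i * m (d i) := by
  refine Submodule.span_induction (p := fun (x : A) _ => ∃ (y : A) (n : ℕ) (p : Fin n → A)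
    (d : Fin n → U), y ∈ I0 ∧ x = y + ∑ i, p i * m (d i)) ?_ ?_ ?_ ?_ hx
  · rintro _ ⟨s, rfl⟩
    obtain ⟨y, hy, u, h⟩ := hf s
    exact ⟨y, 1, fun _ => 1, fun _ => u, hy, by rw [Fin.sum_univ_one, one_mul, h]⟩
  · exact ⟨0, 0, Fin.elim0, Fin.elim0, Ideal.zero_mem _, by simp⟩
  · rintro x x' _ _ ⟨y, n, p, d, hy, hx⟩ ⟨y', n', p', d', hy', hx'⟩
    refine ⟨y + y', n + n', Fin.append p p', Fin.append d d', Ideal.add_mem _ hy hy', ?_⟩
    rw [Fin.sum_univ_add]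
    simp only [Fin.append_left, Fin.append_right]
    rw [hx, hx']
    abel
  · rintro c x _ ⟨y, n, p, d, hy, hx⟩
    refine ⟨c * y, n, fun i => c * p i, d, Ideal.mul_mem_left _ _ hy, ?_⟩
    rw [hx, smul_eq_mul, mul_add, Finset.mul_sum]
    simp only [mul_assoc]

section
variable {G : AffGrp} {I J E : Type} [Finite I] [Finite J] [Finite E]
  (P : Ham (G.pow ((I ⊕ E) ⊕ PUnit.{1})) (G.pow ((J ⊕ E) ⊕ PUnit.{1}))) (P₁ : Ham (G.pow (I ⊕ E)) (G.pow (J ⊕ E)))

/-- [F7a] PROOF. `rfl` up to `funext`: `Sum.elim g h ∘ aO = Sum.elim (Sum.elim g (h ∘ some)) (fun _ => h none)`. -/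
theorem ract_pO (g : I → G.X) (k : J → G.X) (h : Option E → G.X) (a : P.A) :
    ract (pO P) g k h a = ract P (Sum.elim g (h ∘ some)) (Sum.elim k (h ∘ some)) (fun _ => h none) a := by
  have h1 : ∀ (I : Type) [Finite I] (g : I → G.X), G.rb (aO (I := I) (E := E)) (Sum.elim g h) =
      Sum.elim (Sum.elim g (h ∘ some)) (fun _ => h none) := by
    intro I _ g
    funext x
    rcases x with (i | e) | u <;> rfl
  show P.act (G.rb aO (Sum.elim g h), G.rb aO (Sum.elim k h)) a = P.act (_, _) a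
  rw [h1, h1]

/-- [F7b] PROOF. `lmap aO (pl (Sum.elim 0 d)) = pl (Sum.elim 0 d ∘ aO)` (`AffGrp.lmap_pl`), `Sum.elim 0 d ∘ aO = Sum.elim (Sum.elim 0 (d ∘ some)) 0 + Sum.elim 0 (fun _ => d none)`, additivity. -/
theorem rμ_pO (d : Option E → G.Lie) : rμ (pO P) d = rμ P (fun _ => d none) + mE P (d ∘ some) := by
  have h1 : ∀ (I : Type) [Finite I], G.lmap (aO (I := I) (E := E)) (G.pl (Sum.elim (0 : I → G.Lie) d)) =
      G.pl (Sum.elim (0 : I ⊕ E → G.Lie) (fun _ : PUnit.{1} => d none)) +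
        G.pl (Sum.elim (Sum.elim (0 : I → G.Lie) (d ∘ some)) (0 : PUnit.{1} → G.Lie)) := by
    intro I _
    rw [AffGrp.lmap_pl, ← map_add]
    congr 1
    funext x
    rcases x with (i | e) | u
    · show (0 : G.Lie) = 0 + 0
      rw [add_zero]
    · show d (some e) = 0 + d (some e)
      rw [zero_add]
    · show d none = d none + 0
      rw [add_zero]
  show P.μ (G.lmap aO (G.pl (Sum.elim (0 : I → G.Lie) d))) -
    P.ν (G.lmap aO (G.pl (Sum.elim (0 : J → G.Lie) d))) =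
    (P.μ (G.pl (Sum.elim (0 : I ⊕ E → G.Lie) (fun _ : PUnit.{1} => d none))) -
      P.ν (G.pl (Sum.elim (0 : J ⊕ E → G.Lie) (fun _ : PUnit.{1} => d none)))) +
    (P.μ (G.pl (Sum.elim (Sum.elim (0 : I → G.Lie) (d ∘ some)) (0 : PUnit.{1} → G.Lie))) -
      P.ν (G.pl (Sum.elim (Sum.elim (0 : J → G.Lie) (d ∘ some)) (0 : PUnit.{1} → G.Lie))))
  rw [h1, h1, map_add, map_add]
  abel

/-- [F7c] PROOF. `d = Option.elim · (D) 0`: `rμ P (fun _ => D) = rμ (pO P) d` (`mE P 0 = 0`). -/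
theorem rI_le_pO {x : P.A} (hx : x ∈ rI P) : x ∈ rI (pO P) := by
  have h0 : mE P (0 : E → G.Lie) = 0 := by
    have h1 : ∀ (I : Type) [Finite I], G.pl (Sum.elim (Sum.elim (0 : I → G.Lie) (0 : E → G.Lie))
        (0 : PUnit.{1} → G.Lie)) = 0 := by
      intro I _
      rw [show (Sum.elim (Sum.elim (0 : I → G.Lie) (0 : E → G.Lie))
        (0 : PUnit.{1} → G.Lie)) = 0 by
          funext x
          rcases x with (i | e) | u <;> rfl, map_zero]
    unfold mE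
    rw [h1, h1, map_zero, map_zero, sub_zero]
  have h1 : rI P ≤ rI (pO P) := by
    refine Ideal.span_le.2 ?_
    rintro _ ⟨d, rfl⟩
    refine Ideal.subset_span ⟨fun o => Option.elim o (d PUnit.unit) (fun _ => 0), ?_⟩
    refine (rμ_pO P _).trans ?_
    have h2 : ((fun o => Option.elim o (d PUnit.unit) (fun _ => 0) : Option E → G.Lie) ∘ some) =
        0 := rfl
    rw [h2, h0, add_zero]
    rfl
  exact h1 hx

/-- [F7d] PROOF. `rμ (pO P) d` with `d none = 0`. -/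
theorem mE_mem_pO (d : E → G.Lie) : mE P d ∈ rI (pO P) := by
  refine Ideal.subset_span ⟨fun o => Option.elim o 0 d, ?_⟩
  refine (rμ_pO P _).trans ?_
  have h2 : rμ P (fun _ : PUnit.{1} => (0 : G.Lie)) = 0 := map_zero (rμ P)
  have h3 : ((fun o => Option.elim o 0 d : Option E → G.Lie) ∘ some) = d := rfl
  rw [h3]
  show rμ P (fun _ : PUnit.{1} => (0 : G.Lie)) + mE P d = mE P d
  rw [h2, zero_add]

/-- [F7e] every element of `rI (pO P)` is `y + ∑ p_i mE d_i`, `y ∈ rI P`. PROOF. `Submodule.span_induction`; `rμ_pO`. -/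
theorem mem_pO {x : P.A} (hx : x ∈ rI (pO P)) : ∃ (y : P.A) (n : ℕ) (p : Fin n → P.A) (d : Fin n → E → G.Lie), y ∈ rI P ∧
    x = y + ∑ i, p i * mE P (d i) := by
  refine f7a_span (rI P) (rμ (pO P)) (mE P) (fun d => ?_) hx
  exact ⟨rμ P (fun _ => d none), Ideal.subset_span ⟨_, rfl⟩, d ∘ some, rμ_pO P d⟩

end

end Pool.Agent.MTF
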