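import Pool.Agent.MTF.F7Z

/-! # MTF, part F (F7B) : the moment map of the second stage -/

namespace Pool.Agent.MTF

section
variable {G : AffGrp} {I J E : Type} [Finite I] [Finite J] [Finite E]
  (P : Ham (G.pow ((I ⊕ E) ⊕ PUnit.{1})) (G.pow ((J ⊕ E) ⊕ PUnit.{1}))) (P₁ : Ham (G.pow (I ⊕ E)) (G.pow (J ⊕ E)))

/-- [F7f] the moment map of `E` is invariant under the last factor. PROOF. `P.μ_eq`, `P.ν_eq`, `AffGrp.Ad_pl`: `Ad (Sum.elim 1 x) (pl (Sum.elim c 0)) = pl (Sum.elim c 0)` (`G.Ad 1 = id`: as in F3k). -/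
theorem ract_mE (x : PUnit.{1} → G.X) (d : E → G.Lie) : ract P 1 1 x (mE P d) = mE P d := by
  have e0 : ∀ D : G.Lie, G.Ad 1 D = D := by
    intro D
    apply Subtype.ext
    apply LinearMap.ext
    intro f
    show D.1 (G.cj 1 f) = D.1 f
    congr 1
    apply Subtype.ext
    funext y
    show f.1 (1 * y * 1⁻¹) = f.1 y
    rw [one_mul, inv_one, mul_one]
  have e1 : ∀ (I : Type) [Finite I], (G.pow ((I ⊕ E) ⊕ PUnit.{1})).Ad (Sum.elim 1 x)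
      (G.pl (Sum.elim (Sum.elim (0 : I → G.Lie) d) (0 : PUnit.{1} → G.Lie))) =
      G.pl (Sum.elim (Sum.elim (0 : I → G.Lie) d) (0 : PUnit.{1} → G.Lie)) := by
    intro I _
    rw [AffGrp.Ad_pl]
    congr 1
    funext y
    rcases y with (i | e) | u
    · exact map_zero (G.Ad 1)
    · exact e0 (d e)
    · exact map_zero (G.Ad (x u))
  show P.act (Sum.elim 1 x, Sum.elim 1 x) (P.μ _ - P.ν _) = P.μ _ - P.ν _
  rw [map_sub, P.μ_eq, P.ν_eq, e1, e1]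

/-- [F7g] `φ` maps `mE` to the moment map of `P₁`. PROOF. `mE P d = P.μ (pl (Sum.elim (Sum.elim 0 d) 0)) - P.ν (..)`, both terms in `rinv P` (`μ_mem_rinv`, `ν_mem_rinv`), and `rμ P₁ d = P₁.μ (pl (Sum.elim 0 d)) - P₁.ν (pl (Sum.elim 0 d))`. -/
theorem phi_mE (φ : rinv P →ₐ[ℂ] P₁.A)
    (h5 : ∀ d : I ⊕ E → G.Lie, ∀ a : rinv P, a.1 = P.μ (G.pl (Sum.elim d 0)) → φ a = P₁.μ (G.pl d))
    (h6 : ∀ d : J ⊕ E → G.Lie, ∀ a : rinv P, a.1 = P.ν (G.pl (Sum.elim d 0)) → φ a = P₁.ν (G.pl d))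
    (d : E → G.Lie) (a : rinv P) (ha : a.1 = mE P d) : φ a = rμ P₁ d := by
  have e1 : a = (⟨_, μ_mem_rinv P (Sum.elim (0 : I → G.Lie) d)⟩ : rinv P) -
      ⟨_, ν_mem_rinv P (Sum.elim (0 : J → G.Lie) d)⟩ := Subtype.ext ha
  rw [e1, map_sub, h5 _ _ rfl, h6 _ _ rfl]
  rfl

end

end Pool.Agent.MTF
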