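import Pool.Agent.MTF.F7A
import Pool.Agent.MTF.F7B
import Pool.Agent.MTF.F6

/-! # MTF, part F (F7C) : the key lemma -/

namespace Pool.Agent.MTF

section
variable {G : AffGrp} {I J E : Type} [Finite I] [Finite J] [Finite E]
  {P : Ham (G.pow ((I ⊕ E) ⊕ PUnit.{1})) (G.pow ((J ⊕ E) ⊕ PUnit.{1}))} {P₁ : Ham (G.pow (I ⊕ E)) (G.pow (J ⊕ E))}
  {φ : rinv P →ₐ[ℂ] P₁.A} (hφ : St P P₁ φ)
include hφ

/-- [F7h] KEY LEMMA. For `y ∈ rinv P`: `y ∈ rI (pO P) ↔ φ y ∈ rI P₁`. PROOF. `R`, `ρ` from `exists_reyF` (F6) for `T = dactF P` (`dactF_rat`). `→`: `ρ y - y ∈ rI P` (`rey_sub_mem`; `y ∈ rinv P`; `h : PUnit.{1} → G.X` is constant), so `φ y = φ (ρ y)`. By `mem_pO` `y = x + ∑ p_i mE d_i`, `ρ y = ρ x + ∑ ρ (p_i) mE d_i` (`rey_mul`, `ract_mE`),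
`ρ x ∈ rI P` (`rey_mem`, `ract_rI`), and `ρ (p_i) ∈ rinv P` (`rey_inv`), so `φ (ρ y) = ∑ φ (ρ p_i) rμ P₁ d_i` (`phi_mE`, `hφ.ker`) is in `rI P₁`. `←`: `φ y = ∑ q_i rμ P₁ d_i` (`Submodule.span_induction` or `Ideal.mem_span_range_iff`..), `q_i = φ (p_i)` (`hφ.surj`), so `φ (y - ∑ p_i mE d_i) = 0` and
`y - ∑ p_i mE d_i ∈ rI P ≤ rI (pO P)` (`rI_le_pO`, `mE_mem_pO`). -/
theorem mem_iff (hR : ∃ R : Module.Dual ℂ G.O, IsReyF G R) (y : rinv P) : y.1 ∈ rI (pO P) ↔ φ y ∈ rI P₁ := by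
  obtain ⟨R, hR⟩ := hR
  have hT := dactF_rat P
  obtain ⟨ρ, hρ⟩ := exists_reyF R (dactF P) hT
  have hmE : ∀ d : E → G.Lie, mE P d ∈ rinv P := by
    intro d h
    rw [ract_mE, sub_self]
    exact Ideal.zero_mem _
  have hinv : ∀ p : P.A, ρ p ∈ rinv P := by
    intro p h
    have h1 : ract P 1 1 h (ρ p) = ρ p := rey_inv hR hT hρ p (h PUnit.unit)
    rw [h1, sub_self]
    exact Ideal.zero_mem _
  have hphi : ∀ d : E → G.Lie, φ ⟨mE P d, hmE d⟩ = rμ P₁ d := fun d =>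
    phi_mE P P₁ φ hφ.μ hφ.ν d _ rfl
  -- equality modulo the ideal
  have hsub : ∀ a b : rinv P, φ a = φ b → a.1 - b.1 ∈ rI P := by
    intro a b hab
    have h1 : φ (a - b) = 0 := by rw [map_sub, hab, sub_self]
    exact (hφ.ker _).1 h1
  have hle : ∀ x : P.A, x ∈ rI P → x ∈ rI (pO P) := fun x hx => rI_le_pO P hx
  have hmem : ∀ d : E → G.Lie, mE P d ∈ rI (pO P) := fun d => mE_mem_pO P d
  have hadd : ∀ a b : P.A, a ∈ rI (pO P) → b ∈ rI (pO P) → a + b ∈ rI (pO P) :=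
    fun a b ha hb => Ideal.add_mem (rI (pO P)) ha hb
  have hmul : ∀ q a : P.A, a ∈ rI (pO P) → q * a ∈ rI (pO P) :=
    fun q a ha => Ideal.mul_mem_left (rI (pO P)) q ha
  constructor
  · intro h
    obtain ⟨x, n, p, d, hx, hy⟩ := mem_pO P h
    have h1 : ρ y.1 - y.1 ∈ rI P :=
      rey_sub_mem hR hT hρ ((rI P).restrictScalars ℂ) fun g => y.2 fun _ => g
    have h2 : ρ x ∈ rI P :=
      rey_mem hR hT hρ ((rI P).restrictScalars ℂ) fun g => ract_rI P 1 1 (fun _ => g) hx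
    have h3 : ρ y.1 = ρ x + ∑ i, ρ (p i) * mE P (d i) := by
      rw [hy, map_add, map_sum]
      congr 1
      exact Finset.sum_congr rfl fun i _ =>
        rey_mul hR hT hρ fun g => ract_mE P (fun _ => g) (d i)
    have h4 : (∑ i, (⟨ρ (p i), hinv (p i)⟩ * ⟨mE P (d i), hmE (d i)⟩ : rinv P)).1 =
        ∑ i, ρ (p i) * mE P (d i) :=
      map_sum (rinv P).val (fun i : Fin n =>
        ((⟨ρ (p i), hinv (p i)⟩ : rinv P) * (⟨mE P (d i), hmE (d i)⟩ : rinv P))) Finset.univ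
    have h5 : φ (y - ∑ i, (⟨ρ (p i), hinv (p i)⟩ * ⟨mE P (d i), hmE (d i)⟩ : rinv P)) = 0 := by
      rw [hφ.ker]
      have h6 : (y - ∑ i, (⟨ρ (p i), hinv (p i)⟩ * ⟨mE P (d i), hmE (d i)⟩ : rinv P)).1 =
          ρ x - (ρ y.1 - y.1) := by
        show y.1 - (∑ i, (⟨ρ (p i), hinv (p i)⟩ * ⟨mE P (d i), hmE (d i)⟩ : rinv P)).1 = _
        rw [h4, h3]
        abel
      rw [h6]
      exact Ideal.sub_mem _ h2 h1
    rw [map_sub, sub_eq_zero] at h5
    rw [h5, map_sum]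
    refine Ideal.sum_mem _ fun i _ => ?_
    rw [map_mul, hphi]
    exact Ideal.mul_mem_left _ _ (Ideal.subset_span ⟨_, rfl⟩)
  · intro h
    have key : ∀ z ∈ rI P₁, ∀ y : rinv P, φ y = z → y.1 ∈ rI (pO P) := by
      intro z hz
      unfold rI at hz
      induction hz using Submodule.span_induction with
      | mem z hz =>
        obtain ⟨d, rfl⟩ := hz
        intro y hy
        have h1 := hle _ (hsub y ⟨mE P d, hmE d⟩ (by rw [hy, hphi]))
        have h2 := hadd _ _ h1 (hmem d)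
        have h6 : y.1 - mE P d + mE P d = y.1 := sub_add_cancel _ _
        exact h6 ▸ h2
      | zero =>
        intro y hy
        exact hle _ ((hφ.ker _).1 hy)
      | add z z' _ _ h1 h2 =>
        intro y hy
        obtain ⟨y1, hy1⟩ := hφ.surj z
        have h3 := h1 y1 hy1
        have h4 := h2 (y - y1) (by rw [map_sub, hy, hy1, add_sub_cancel_left])
        have h5 := hadd _ _ h3 h4
        have h6 : y1.1 + (y - y1).1 = y.1 := add_sub_cancel _ _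
        exact h6 ▸ h5
      | smul q z _ h1 =>
        intro y hy
        obtain ⟨y1, hy1⟩ := hφ.surj z
        obtain ⟨y2, hy2⟩ := hφ.surj q
        have h3 := hle _ (hsub y (y2 * y1) (by rw [map_mul, hy, hy1, hy2, smul_eq_mul]))
        have h4 := hmul y2.1 _ (h1 y1 hy1)
        have h5 := hadd _ _ h3 h4
        have h6 : y.1 - (y2 * y1).1 + y2.1 * y1.1 = y.1 := sub_add_cancel _ _
        exact h6 ▸ h5
    exact key _ h y rfl

end

end Pool.Agent.MTF
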