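import Pool.Agent.MTF.F7C

/-! # MTF, part F (F7D) : invariants of the two stages -/

namespace Pool.Agent.MTF

section
variable {G : AffGrp} {I J E : Type} [Finite I] [Finite J] [Finite E]
  {P : Ham (G.pow ((I ⊕ E) ⊕ PUnit.{1})) (G.pow ((J ⊕ E) ⊕ PUnit.{1}))} {P₁ : Ham (G.pow (I ⊕ E)) (G.pow (J ⊕ E))}
  {φ : rinv P →ₐ[ℂ] P₁.A} (hφ : St P P₁ φ)
include hφ

/-- [F7i] For `y ∈ rinv P`: `y ∈ rinv (pO P) ↔ φ y ∈ rinv P₁`. PROOF. `h : E → G.X`, `h' = Option.elim · 1 h`: by `ract_pO` `ract (pO P) 1 1 h' y = ract P (Sum.elim 1 h) (Sum.elim 1 h) 1 y =: z ∈ rinv P` (`ract_mem_rinv`), `φ z = ract P₁ 1 1 h (φ y)` (`hφ.act`), so (`mem_iff`) `z - y ∈ rI (pO P)` iff `ract P₁ 1 1 h (φ y) - φ y ∈ rI P₁`. For general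
`h' : Option E → G.X`: `ract (pO P) 1 1 h' y = ract P (Sum.elim 1 (h' ∘ some)) (..) 1 (ract P 1 1 (fun _ => h' none) y)` (`ract_mul`), and `ract P 1 1 _ y - y ∈ rI P ≤ rI (pO P)`, which is stable (`ract_rI`). -/
theorem mem_rinv_iff (hR : ∃ R : Module.Dual ℂ G.O, IsReyF G R) (y : rinv P) : y.1 ∈ rinv (pO P) ↔ φ y ∈ rinv P₁ := by
  have key : ∀ h : E → G.X, (ract P (Sum.elim 1 h) (Sum.elim 1 h) 1 y.1 - y.1 ∈ rI (pO P)) ↔
      (ract P₁ 1 1 h (φ y) - φ y ∈ rI P₁) := by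
    intro h
    have h1 : φ ⟨ract P (Sum.elim 1 h) (Sum.elim 1 h) 1 y.1, ract_mem_rinv P _ _ y.2⟩ = ract P₁ 1 1 h (φ y) :=
      hφ.act _ _ y _ rfl
    have h2 := mem_iff hφ hR (⟨ract P (Sum.elim 1 h) (Sum.elim 1 h) 1 y.1, ract_mem_rinv P _ _ y.2⟩ - y)
    rw [map_sub, h1] at h2
    exact h2
  constructor
  · intro hy h
    have h1 := hy fun o => o.elim 1 h
    rw [ract_pO] at h1
    exact (key h).1 h1
  · intro hx h'
    have h1 : ract (pO P) 1 1 h' y.1 = ract P (Sum.elim 1 (h' ∘ some)) (Sum.elim 1 (h' ∘ some)) 1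
        (ract P 1 1 (fun _ => h' none) y.1) := by
      rw [ract_pO, ← ract_mul, mul_one, mul_one, one_mul]
    have h2 : (ract P (Sum.elim 1 (h' ∘ some)) (Sum.elim 1 (h' ∘ some)) 1
        (ract P 1 1 (fun _ => h' none) y.1)) - y.1 = ract P (Sum.elim 1 (h' ∘ some)) (Sum.elim 1 (h' ∘ some)) 1
        (ract P 1 1 (fun _ => h' none) y.1 - y.1) +
        (ract P (Sum.elim 1 (h' ∘ some)) (Sum.elim 1 (h' ∘ some)) 1 y.1 - y.1) := by
      rw [map_sub]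
      exact (sub_add_sub_cancel _ _ _).symm
    rw [h1]
    have h3 : ract P (Sum.elim 1 (h' ∘ some)) (Sum.elim 1 (h' ∘ some)) 1
        (ract P 1 1 (fun _ => h' none) y.1 - y.1) +
        (ract P (Sum.elim 1 (h' ∘ some)) (Sum.elim 1 (h' ∘ some)) 1 y.1 - y.1) ∈ rI (pO P) :=
      Ideal.add_mem _ (rI_le_pO P (ract_rI P _ _ _ (y.2 _))) ((key _).2 (hx _))
    rw [← h2] at h3
    exact h3

/-- [F7j] every element of `rinv (pO P)` is congruent to one of `rinv P` modulo `rI (pO P)`. PROOF. `y = ρ a` (`rey_inv`: invariant, so in `rinv P`), `ρ a - a ∈ rI (pO P)` (`rey_sub_mem`, `ract_pO` with `h' = Option.elim · x 1`). -/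
theorem exists_lift (hR : ∃ R : Module.Dual ℂ G.O, IsReyF G R) (a : P.A) (ha : a ∈ rinv (pO P)) :
    ∃ y : rinv P, y.1 ∈ rinv (pO P) ∧ y.1 - a ∈ rI (pO P) := by
  obtain ⟨R, hR'⟩ := hR
  obtain ⟨ρ, hρ⟩ := exists_reyF R (dactF P) (dactF_rat P)
  have h1 : ρ a - a ∈ rI (pO P) := by
    refine rey_sub_mem hR' (dactF_rat P) hρ ((rI (pO P)).restrictScalars ℂ) (a := a) ?_
    intro g
    have h2 := ha fun o => o.elim g fun _ => 1
    rw [ract_pO] at h2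
    have h3 : ∀ K : Type, (Sum.elim (1 : K → G.X) ((fun o : Option E => o.elim g fun _ => 1) ∘ some)) = 1 := by
      intro K
      funext x
      rcases x with x | x <;> rfl
    rw [h3, h3] at h2
    exact h2
  refine ⟨⟨ρ a, fun h => ?_⟩, ?_, h1⟩
  · have h2 : ract P 1 1 h (ρ a) = ρ a := rey_inv hR' (dactF_rat P) hρ a (h PUnit.unit)
    rw [h2, sub_self]
    exact Ideal.zero_mem _
  · have h2 := (rinv (pO P)).add_mem (rI_le_rinv _ h1) ha
    have h3 : ρ a - a + a = ρ a := sub_add_cancel _ _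
    have h4 : (ρ a - a + a : P.A) ∈ rinv (pO P) := h2
    rw [h3] at h4
    exact h4

end

end Pool.Agent.MTF
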