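import Pool.Agent.MTF.F3

/-! # MTF, part F (F7Z) : reduction in stages: definitions -/

namespace Pool.Agent.MTF

/-- `(I ⊕ E) ⊕ PUnit.{1} ≃ I ⊕ Option E` as a map -/
def aO {I E : Type} : (I ⊕ E) ⊕ PUnit.{1} → I ⊕ Option E := Sum.elim (Sum.map id some) fun _ => Sum.inr none

/-- the inverse map -/
def aOi {I E : Type} : I ⊕ Option E → (I ⊕ E) ⊕ PUnit.{1}
  | Sum.inl i => Sum.inl (Sum.inl i)
  | Sum.inr (some e) => Sum.inl (Sum.inr e)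
  | Sum.inr none => Sum.inr PUnit.unit

theorem aO_aOi {I E : Type} (x : I ⊕ Option E) : aO (aOi x) = x := by
  rcases x with i | (_ | e) <;> rfl

theorem aOi_aO {I E : Type} (x : (I ⊕ E) ⊕ PUnit.{1}) : aOi (aO x) = x := by
  rcases x with (i | e) | u <;> rfl

section
variable {G : AffGrp} {I J E : Type} [Finite I] [Finite J] [Finite E]
  (P : Ham (G.pow ((I ⊕ E) ⊕ PUnit.{1})) (G.pow ((J ⊕ E) ⊕ PUnit.{1}))) (P₁ : Ham (G.pow (I ⊕ E)) (G.pow (J ⊕ E)))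

/-- `P` with the legs `I ⊕ Option E` -/
noncomputable abbrev pO : Ham (G.pow (I ⊕ Option E)) (G.pow (J ⊕ Option E)) := P.pull aO aO

/-- the moment map of the factors `E` -/
noncomputable def mE (d : E → G.Lie) : P.A :=
  P.μ (G.pl (Sum.elim (Sum.elim (0 : I → G.Lie) d) (0 : PUnit.{1} → G.Lie))) -
    P.ν (G.pl (Sum.elim (Sum.elim (0 : J → G.Lie) d) (0 : PUnit.{1} → G.Lie)))

/-- the data of the first stage -/
structure St (φ : rinv P →ₐ[ℂ] P₁.A) : Prop where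
  surj : Function.Surjective φ
  ker : ∀ a, φ a = 0 ↔ a.1 ∈ rI P
  br : ∀ a b c : rinv P, c.1 = P.br a.1 b.1 → φ c = P₁.br (φ a) (φ b)
  act : ∀ g k, ∀ a b : rinv P, b.1 = ract P g k 1 a.1 → φ b = P₁.act (g, k) (φ a)
  μ : ∀ d : I ⊕ E → G.Lie, ∀ a : rinv P, a.1 = P.μ (G.pl (Sum.elim d 0)) → φ a = P₁.μ (G.pl d)
  ν : ∀ d : J ⊕ E → G.Lie, ∀ a : rinv P, a.1 = P.ν (G.pl (Sum.elim d 0)) → φ a = P₁.ν (G.pl d)

end

end Pool.Agent.MTF
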