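import Pool.Agent.MTF.F3

/-! # MTF, part F (F8A) : the product of composable morphisms -/

namespace Pool.Agent.MTF

open TensorProduct

section
variable {G : AffGrp} {I J K : Type} [Finite I] [Finite J] [Finite K] (M : Ham (G.pow I) (G.pow J)) (N : Ham (G.pow J) (G.pow K))

/-- the product, with the legs `I ⊕ J`, `K ⊕ J` -/
noncomputable abbrev prd : Ham (G.pow (I ⊕ J)) (G.pow (K ⊕ J)) :=
  (M.pull (Sum.inl : I → I ⊕ J) (Sum.inr : J → K ⊕ J)).box (N.pull (Sum.inr : J → I ⊕ J) (Sum.inl : K → K ⊕ J))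

/-- [F8a] PROOF. `ract (prd M N) g k h (a ⊗ b) = M.act (g, h) a ⊗ N.act (h, k) b`: `bact_tmul`, `Sum.elim g h ∘ Sum.inl = g` etc. are `rfl`. -/
theorem ract_prd (g : I → G.X) (k : K → G.X) (h : J → G.X) (x : M.A ⊗[ℂ] N.A) :
    ract (prd M N) g k h x = tact M N g h k x := by
  induction x using TensorProduct.induction_on with
  | zero => exact (map_zero (ract (prd M N) g k h)).trans (map_zero (tact M N g h k)).symm
  | add x y hx hy =>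
    exact (map_add (ract (prd M N) g k h) x y).trans ((congrArg₂ (· + ·) hx hy).trans
      (map_add (tact M N g h k) x y).symm)
  | tmul a b => rfl

/-- [F8b] PROOF. `bμ_apply`, `bν_apply`, `lmap_pl`: `lmap inl (pl (Sum.elim 0 d)) = pl 0 = 0`, `lmap inr (pl (Sum.elim 0 d)) = pl d`. -/
theorem rμ_prd (d : J → G.Lie) :
    rμ (prd M N) d = ((1 : M.A) ⊗ₜ[ℂ] N.μ (G.pl d) - M.ν (G.pl d) ⊗ₜ[ℂ] (1 : N.A) : M.A ⊗[ℂ] N.A) := by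
  have e1 : ∀ L : Type, (Sum.elim (0 : L → G.Lie) d) ∘ (Sum.inl : L → L ⊕ J) = 0 := fun L => rfl
  have e2 : ∀ L : Type, (Sum.elim (0 : L → G.Lie) d) ∘ (Sum.inr : J → L ⊕ J) = d := fun L => rfl
  show bμ (M.pull (Sum.inl : I → I ⊕ J) (Sum.inr : J → K ⊕ J))
      (N.pull (Sum.inr : J → I ⊕ J) (Sum.inl : K → K ⊕ J)) (G.pl (Sum.elim (0 : I → G.Lie) d)) -
    bν (M.pull (Sum.inl : I → I ⊕ J) (Sum.inr : J → K ⊕ J))
      (N.pull (Sum.inr : J → I ⊕ J) (Sum.inl : K → K ⊕ J)) (G.pl (Sum.elim (0 : K → G.Lie) d)) = _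
  rw [bμ_apply, bν_apply]
  show (M.μ (G.lmap Sum.inl (G.pl (Sum.elim (0 : I → G.Lie) d))) ⊗ₜ[ℂ] (1 : N.A) +
      (1 : M.A) ⊗ₜ[ℂ] N.μ (G.lmap Sum.inr (G.pl (Sum.elim (0 : I → G.Lie) d)))) -
    (M.ν (G.lmap Sum.inr (G.pl (Sum.elim (0 : K → G.Lie) d))) ⊗ₜ[ℂ] (1 : N.A) +
      (1 : M.A) ⊗ₜ[ℂ] N.ν (G.lmap Sum.inl (G.pl (Sum.elim (0 : K → G.Lie) d)))) = _
  rw [AffGrp.lmap_pl, AffGrp.lmap_pl, AffGrp.lmap_pl, AffGrp.lmap_pl, e1, e1, e2, e2, map_zero, map_zero,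
    map_zero, map_zero, TensorProduct.zero_tmul, TensorProduct.tmul_zero, zero_add, add_zero]

/-- [F8c] PROOF. Both ideals are generated by the same elements up to sign (`rμ_prd`; every `D` is `pl d`: `pl_lpr`). -/
theorem rI_prd : (rI (prd M N) : Ideal (M.A ⊗[ℂ] N.A)) = tI M N := by
  have h1 : ∀ D : (G.pow J).Lie, rμ (prd M N) (fun l => G.lpr l D) =
      -(M.ν D ⊗ₜ[ℂ] (1 : N.A) - (1 : M.A) ⊗ₜ[ℂ] N.μ D : M.A ⊗[ℂ] N.A) := by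
    intro D
    rw [rμ_prd, AffGrp.pl_lpr, neg_sub]
  apply le_antisymm
  · refine Ideal.span_le.2 ?_
    rintro _ ⟨d, rfl⟩
    show rμ (prd M N) d ∈ tI M N
    rw [rμ_prd]
    have h2 : M.ν (G.pl d) ⊗ₜ[ℂ] (1 : N.A) - (1 : M.A) ⊗ₜ[ℂ] N.μ (G.pl d) ∈ tI M N :=
      Ideal.subset_span ⟨G.pl d, rfl⟩
    have h3 := neg_mem h2
    rw [neg_sub] at h3
    exact h3
  · refine Ideal.span_le.2 ?_
    rintro _ ⟨D, rfl⟩
    show M.ν D ⊗ₜ[ℂ] (1 : N.A) - (1 : M.A) ⊗ₜ[ℂ] N.μ D ∈ (rI (prd M N) : Ideal (M.A ⊗[ℂ] N.A))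
    have h2 : (rμ (prd M N) (fun l => G.lpr l D) : M.A ⊗[ℂ] N.A) ∈
        (rI (prd M N) : Ideal (M.A ⊗[ℂ] N.A)) := Ideal.subset_span ⟨_, rfl⟩
    rw [h1] at h2
    have h3 : ∀ (a : Ideal (M.A ⊗[ℂ] N.A)) (z : M.A ⊗[ℂ] N.A), -z ∈ a → z ∈ a :=
      fun a z hz => neg_mem_iff.1 hz
    exact h3 _ _ h2

end

end Pool.Agent.MTF
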