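import Pool.Agent.MTF.F9Z

/-! # MTF, part F (F9A) : isomorphisms of cobordisms -/

namespace Pool.Agent.MTF

namespace Cob

theorem Iso.symm {I J : Type} {X Y : Cob I J} (h : X.Iso Y) : Y.Iso X := by
  obtain ⟨e, h1, h2, h3⟩ := h
  refine ⟨e.symm, fun i => ?_, fun j => ?_, fun c => ?_⟩
  · rw [← h1 i, Equiv.symm_apply_apply]
  · rw [← h2 j, Equiv.symm_apply_apply]
  · rw [← h3 (e.symm c), Equiv.apply_symm_apply]

theorem Iso.trans {I J : Type} {X Y Z : Cob I J} (h : X.Iso Y) (h' : Y.Iso Z) : X.Iso Z := by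
  obtain ⟨e, h1, h2, h3⟩ := h
  obtain ⟨e', h1', h2', h3'⟩ := h'
  refine ⟨e.trans e', fun i => ?_, fun j => ?_, fun c => ?_⟩
  · rw [Equiv.trans_apply, h1, h1']
  · rw [Equiv.trans_apply, h2, h2']
  · rw [Equiv.trans_apply, h3', h3]

/-- [F9b] PROOF. The same equivalence. -/
theorem Iso.pull {I J I' J' : Type} {X Y : Cob I' J'} (h : X.Iso Y) (u : I → I') (v : J → J') : (X.pull u v).Iso (Y.pull u v) := by
  obtain ⟨e, h1, h2, h3⟩ := h
  exact ⟨e, fun i => h1 (u i), fun j => h2 (v j), h3⟩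

end Cob

end Pool.Agent.MTF
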