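import Pool.Agent.MTF.F7Z
import Pool.Agent.MTF.F2

/-! # MTF, part F (F9Z) : glueing of cobordisms: definitions -/

namespace Pool.Agent.MTF

namespace Cob

/-- [F9a] PROOF. `Equiv.refl`. -/
theorem Iso.refl {I J : Type} (X : Cob I J) : X.Iso X := ⟨Equiv.refl _, fun _ => rfl, fun _ => rfl, fun _ => rfl⟩

/-- one circle, both sides on the same component: the genus increases -/
noncomputable def same {I J : Type} (X : Cob (I ⊕ PUnit.{1}) (J ⊕ PUnit.{1})) : Cob I J where
  C := X.C
  l i := X.l (Sum.inl i)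
  r j := X.r (Sum.inl j)
  g c := by classical exact if c = X.l (Sum.inr PUnit.unit) then X.g c + 1 else X.g c

/-- one circle, on two different components: they are joined -/
noncomputable def merge {I J : Type} (X : Cob (I ⊕ PUnit.{1}) (J ⊕ PUnit.{1})) (h : X.l (Sum.inr PUnit.unit) ≠ X.r (Sum.inr PUnit.unit)) :
    Cob I J := by
  classical
  exact
  { C := {c : X.C // c ≠ X.r (Sum.inr PUnit.unit)}
    l := fun i => if hc : X.l (Sum.inl i) ≠ X.r (Sum.inr PUnit.unit) then ⟨X.l (Sum.inl i), hc⟩ else ⟨X.l (Sum.inr PUnit.unit), h⟩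
    r := fun j => if hc : X.r (Sum.inl j) ≠ X.r (Sum.inr PUnit.unit) then ⟨X.r (Sum.inl j), hc⟩ else ⟨X.l (Sum.inr PUnit.unit), h⟩
    g := fun c => if c.1 = X.l (Sum.inr PUnit.unit) then X.g (X.l (Sum.inr PUnit.unit)) + X.g (X.r (Sum.inr PUnit.unit)) else X.g c.1 }

/-- the circle `none` of `Option E` is separated -/
def os {I J E : Type} (X : Cob (I ⊕ Option E) (J ⊕ Option E)) : Cob ((I ⊕ E) ⊕ PUnit.{1}) ((J ⊕ E) ⊕ PUnit.{1}) := X.pull aO aO

/-- the disjoint union of two composable cobordisms, with the common circles `J` on both sides -/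
def glue {I J K : Type} (S : Cob I J) (T : Cob J K) : Cob (I ⊕ J) (K ⊕ J) := S.join T (Equiv.refl _) (Equiv.sumComm K J)

end Cob

end Pool.Agent.MTF
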