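import Pool.Agent.MTF.H0

set_option linter.unusedSectionVars false

namespace Pool.Agent.MTF.HI

open AffGrp

/-- A family of elements of `R` with a representation by regular functions. -/
def h3_Rp {G : AffGrp} {R : Type} [CommRing R] [Algebra ℂ R] (F : G.X → R) : Prop :=
  ∃ (n : ℕ) (f : Fin n → G.O) (c : Fin n → R), ∀ g, F g = ∑ i, (f i).1 g • c i

theorem h3_Rp_const {G : AffGrp} {R : Type} [CommRing R] [Algebra ℂ R] (a : R) :
    h3_Rp (G := G) (fun _ => a) := by
  refine ⟨1, fun _ => 1, fun _ => a, fun g => ?_⟩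
  rw [Fin.sum_univ_one]
  show a = (1 : ℂ) • a
  rw [one_smul]

theorem h3_Rp_fun {G : AffGrp} {R : Type} [CommRing R] [Algebra ℂ R] (f : G.O) (a : R) :
    h3_Rp (G := G) (fun g => f.1 g • a) := by
  refine ⟨1, fun _ => f, fun _ => a, fun g => ?_⟩
  rw [Fin.sum_univ_one]

theorem h3_Rp_add {G : AffGrp} {R : Type} [CommRing R] [Algebra ℂ R] {F F' : G.X → R}
    (h1 : h3_Rp F) (h2 : h3_Rp F') : h3_Rp (fun g => F g + F' g) := by
  obtain ⟨n, f, c, h⟩ := h1
  obtain ⟨n', f', c', h'⟩ := h2
  refine ⟨n + n', Fin.append f f', Fin.append c c', fun g => ?_⟩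
  rw [Fin.sum_univ_add]
  simp only [Fin.append_left, Fin.append_right]
  rw [← h, ← h']

theorem h3_Rp_mul {G : AffGrp} {R : Type} [CommRing R] [Algebra ℂ R] {F F' : G.X → R}
    (h1 : h3_Rp F) (h2 : h3_Rp F') : h3_Rp (fun g => F g * F' g) := by
  obtain ⟨n, f, c, h⟩ := h1
  obtain ⟨n', f', c', h'⟩ := h2
  refine ⟨n * n', fun k => f (finProdFinEquiv.symm k).1 * f' (finProdFinEquiv.symm k).2,
    fun k => c (finProdFinEquiv.symm k).1 * c' (finProdFinEquiv.symm k).2, fun g => ?_⟩
  show F g * F' g = _
  rw [h, h', Finset.sum_mul_sum, ← Equiv.sum_comp finProdFinEquiv, Fintype.sum_prod_type]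
  refine Finset.sum_congr rfl fun k _ => Finset.sum_congr rfl fun l _ => ?_
  simp only [Equiv.symm_apply_apply]
  show _ = ((f k).1 g * (f' l).1 g) • (c k * c' l)
  rw [smul_mul_smul_comm]

theorem h3_Rp_sum {G : AffGrp} {R : Type} [CommRing R] [Algebra ℂ R] {ι : Type} (s : Finset ι)
    {F : ι → G.X → R} (h : ∀ i ∈ s, h3_Rp (F i)) : h3_Rp (fun g => ∑ i ∈ s, F i g) := by
  classical
  induction s using Finset.induction_on with
  | empty => simpa using h3_Rp_const (G := G) (0 : R)
  | insert a s ha ih =>
    simp only [Finset.sum_insert ha]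
    exact h3_Rp_add (h a (Finset.mem_insert_self a s))
      (ih fun i hi => h i (Finset.mem_insert_of_mem hi))

/-- (row H3) A finitely generated algebra with an algebraic action is an equivariant quotient of a polynomial ring with a linear action.
PROOF. Let `a_1..a_m` generate `R` (`Algebra.FiniteType`), `act g a_k = ∑ i, (f k i).1 g • c k i`.  `V := Submodule.span ℂ {act g a_k | g, k}` is contained in the span of the finitely many
`c k i`, so finite dimensional; stable under all `act h`; contains the `a_k` (`g = 1`).  Basis `v_1..v_n` of `V` (`Module.finBasis`).  `act g v_i = ∑ j, ρ g j i • v_j`, `ρ g j i := ` coordinate `j` of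
`act g v_i ∈ V`.  `ρ (g h) = ρ g * ρ h`, `ρ 1 = 1` (matrices).  The functions `g ↦ ρ g j i` are in `G.O`: extend the coordinate `j` to a functional `θ` on `R`
(`LinearMap.exists_extend`), `act g v_i = ∑ l, (f l).1 g • c l`, so `ρ g j i = ∑ l, θ (c l) * (f l).1 g`.
The action on `P := MvPolynomial (Fin n) ℂ`: `act g := ` the algebra automorphism with `X i ↦ ∑ j, C (ρ g j i) * X j` (`aeval`; inverse `act g⁻¹`; `AlgEquiv.ofAlgHom`, `MvPolynomial.algHom_ext`); multiplicative in `g`.
`rat`: the set of `p` with a representation is closed under sums and products and contains the constants and the `X i` (`MvPolynomial.induction_on`; as in `KO`: `Fin.append`, `finProdFinEquiv`).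
`φ := aeval v`, equivariant on the generators `X i` (`MvPolynomial.induction_on` or `algHom_ext`), surjective because the `a_k` are linear combinations of the `v_i`. -/
theorem exists_lin {G : AffGrp} {R : Type} [CommRing R] [Algebra ℂ R] (hR : Algebra.FiniteType ℂ R)
    (α : Act G R) : ∃ (n : ℕ) (β : Act G (MvPolynomial (Fin n) ℂ)) (ρ : G.X → Fin n → Fin n → ℂ)
    (φ : MvPolynomial (Fin n) ℂ →ₐ[ℂ] R),
    (∀ g i, β.act g (MvPolynomial.X i) = ∑ j, MvPolynomial.C (ρ g j i) * MvPolynomial.X j) ∧
    Function.Surjective φ ∧ ∀ g p, φ (β.act g p) = α.act g (φ p) := by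
  classical
  obtain ⟨⟨s, hs⟩⟩ := hR
  choose nn ff cc hh using α.rat
  -- the stable finite dimensional subspace
  let V : Submodule ℂ R := Submodule.span ℂ {x | ∃ g, ∃ a ∈ s, x = α.act g a}
  have hVle : V ≤ Submodule.span ℂ (⋃ a ∈ (s : Set R), Set.range (cc a)) := by
    refine Submodule.span_le.mpr ?_
    rintro x ⟨g, a, ha, rfl⟩
    rw [hh a g]
    refine Submodule.sum_mem _ fun i _ => Submodule.smul_mem _ _ (Submodule.subset_span ?_)
    exact Set.mem_biUnion (Finset.mem_coe.mpr ha) (Set.mem_range_self i)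
  have hfinset : (⋃ a ∈ (s : Set R), Set.range (cc a)).Finite :=
    Set.Finite.biUnion s.finite_toSet fun a _ => Set.finite_range _
  have hfd0 : FiniteDimensional ℂ (Submodule.span ℂ (⋃ a ∈ (s : Set R), Set.range (cc a))) :=
    FiniteDimensional.span_of_finite ℂ hfinset
  have hfd : FiniteDimensional ℂ V := Submodule.finiteDimensional_of_le hVle
  have hstab : ∀ h, ∀ v ∈ V, α.act h v ∈ V := by
    intro h v hv
    have : V ≤ V.comap (α.act h).toLinearMap := by
      refine Submodule.span_le.mpr ?_
      rintro x ⟨g, a, ha, rfl⟩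
      refine Submodule.subset_span ⟨h * g, a, ha, ?_⟩
      rw [map_mul]
      rfl
    exact this hv
  have hmem : ∀ a ∈ s, a ∈ V := by
    intro a ha
    refine Submodule.subset_span ⟨1, a, ha, ?_⟩
    rw [map_one]
    rfl
  let n := Module.finrank ℂ V
  let b : Module.Basis (Fin n) ℂ V := Module.finBasis ℂ V
  let τ : G.X → (V →ₗ[ℂ] V) := fun g =>
    ((α.act g).toLinearMap.comp V.subtype).codRestrict V (fun v => hstab g v v.2)
  have hτ : ∀ g v, ((τ g v : V) : R) = α.act g (v : R) := fun g v => rfl
  have hτ1 : ∀ v, τ 1 v = v := by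
    intro v
    apply Subtype.ext
    rw [hτ, map_one]
    rfl
  have hτm : ∀ g h v, τ (g * h) v = τ g (τ h v) := by
    intro g h v
    apply Subtype.ext
    rw [hτ, hτ, hτ, map_mul]
    rfl
  let P := MvPolynomial (Fin n) ℂ
  let lin : V →ₗ[ℂ] P := b.constr ℂ (fun j => (MvPolynomial.X j : P))
  have hlin : ∀ v, lin v = ∑ j, MvPolynomial.C (b.repr v j) * MvPolynomial.X j := by
    intro v
    show b.constr ℂ (fun j => (MvPolynomial.X j : P)) v = _
    rw [Module.Basis.constr_apply_fintype]
    refine Finset.sum_congr rfl fun j _ => ?_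
    rw [MvPolynomial.smul_eq_C_mul]
    rfl
  have hlinb : ∀ i, lin (b i) = MvPolynomial.X i := fun i => b.constr_basis ℂ _ i
  let T : G.X → (P →ₐ[ℂ] P) := fun g => MvPolynomial.aeval (fun i => lin (τ g (b i)))
  have hTX : ∀ g i, T g (MvPolynomial.X i) = lin (τ g (b i)) := fun g i =>
    MvPolynomial.aeval_X _ i
  have hTlin : ∀ g v, T g (lin v) = lin (τ g v) := by
    intro g v
    have : (T g).toLinearMap.comp lin = lin.comp (τ g) := by
      refine b.ext fun i => ?_
      show T g (lin (b i)) = lin (τ g (b i))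
      rw [hlinb, hTX]
    exact LinearMap.congr_fun this v
  have hT1 : ∀ p, T 1 p = p := by
    intro p
    have : T 1 = AlgHom.id ℂ P := by
      refine MvPolynomial.algHom_ext fun i => ?_
      rw [hTX, hτ1, hlinb]
      rfl
    rw [this]
    rfl
  have hTm : ∀ g h p, T (g * h) p = T g (T h p) := by
    intro g h p
    have : T (g * h) = (T g).comp (T h) := by
      refine MvPolynomial.algHom_ext fun i => ?_
      rw [AlgHom.comp_apply, hTX, hTX, hTlin, hτm]
    rw [this]
    rfl
  let E : G.X → (P ≃ₐ[ℂ] P) := fun g => AlgEquiv.ofAlgHom (T g) (T g⁻¹)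
    (by
      refine AlgHom.ext fun p => ?_
      show T g (T g⁻¹ p) = p
      rw [← hTm, mul_inv_cancel, hT1])
    (by
      refine AlgHom.ext fun p => ?_
      show T g⁻¹ (T g p) = p
      rw [← hTm, inv_mul_cancel, hT1])
  have hE : ∀ g p, E g p = T g p := fun g p => rfl
  -- the coordinates are regular functions
  let ρ : G.X → Fin n → Fin n → ℂ := fun g j i => b.repr (τ g (b i)) j
  have hρ : ∀ j i, ∃ F : G.O, ∀ g, F.1 g = ρ g j i := by
    intro j i
    obtain ⟨θ, hθ⟩ := LinearMap.exists_extend (b.coord j)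
    have h1 : ∀ g, ρ g j i = ∑ l, (ff (b i : R) l).1 g * θ (cc (b i : R) l) := by
      intro g
      have h2 : ρ g j i = θ ((τ g (b i) : V) : R) := by
        have := LinearMap.congr_fun hθ (τ g (b i))
        exact this.symm
      rw [h2, hτ, hh, map_sum]
      refine Finset.sum_congr rfl fun l _ => ?_
      rw [map_smul, smul_eq_mul]
    refine ⟨∑ l, θ (cc (b i : R) l) • ff (b i : R) l, fun g => ?_⟩
    rw [h1]
    have h3 : (∑ l, θ (cc (b i : R) l) • ff (b i : R) l : G.O).1
        = ∑ l, θ (cc (b i : R) l) • (ff (b i : R) l).1 := by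
      simp
    rw [h3, Finset.sum_apply]
    refine Finset.sum_congr rfl fun l _ => ?_
    rw [Pi.smul_apply, smul_eq_mul, mul_comm]
  choose Fρ hFρ using hρ
  have hTXρ : ∀ g i, T g (MvPolynomial.X i) =
      ∑ j, MvPolynomial.C (ρ g j i) * MvPolynomial.X j := by
    intro g i
    rw [hTX, hlin]
  have hrat : ∀ p : P, h3_Rp (G := G) (fun g => T g p) := by
    intro p
    induction p using MvPolynomial.induction_on with
    | C a =>
      have : (fun g => T g (MvPolynomial.C a)) = fun _ : G.X => (MvPolynomial.C a : P) := by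
        funext g
        exact (T g).commutes a
      rw [this]
      exact h3_Rp_const _
    | add p q hp hq =>
      simp only [map_add]
      exact h3_Rp_add hp hq
    | mul_X p i hp =>
      simp only [map_mul]
      refine h3_Rp_mul hp ?_
      have : (fun g => T g (MvPolynomial.X i)) =
          fun g => ∑ j ∈ Finset.univ, (Fρ j i).1 g • (MvPolynomial.X j : P) := by
        funext g
        rw [hTXρ]
        refine Finset.sum_congr rfl fun j _ => ?_
        rw [hFρ, MvPolynomial.smul_eq_C_mul]
      rw [this]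
      exact h3_Rp_sum _ fun j _ => h3_Rp_fun _ _
  let β : Act G P :=
    { act :=
        { toFun := E
          map_one' := by
            refine AlgEquiv.ext fun p => ?_
            rw [hE, hT1]
            rfl
          map_mul' := fun g h => by
            refine AlgEquiv.ext fun p => ?_
            rw [hE, hTm]
            rfl }
      rat := fun p => hrat p }
  have hβ : ∀ g p, β.act g p = T g p := fun g p => rfl
  let φ : P →ₐ[ℂ] R := MvPolynomial.aeval (fun i => (b i : R))
  have hφX : ∀ i, φ (MvPolynomial.X i) = (b i : R) := fun i => MvPolynomial.aeval_X _ i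
  have hφlin : ∀ v, φ (lin v) = (v : R) := by
    intro v
    have : φ.toLinearMap.comp lin = V.subtype := by
      refine b.ext fun i => ?_
      show φ (lin (b i)) = (b i : R)
      rw [hlinb, hφX]
    exact LinearMap.congr_fun this v
  refine ⟨n, β, ρ, φ, ?_, ?_, ?_⟩
  · intro g i
    rw [hβ, hTXρ]
  · have hr : Algebra.adjoin ℂ (s : Set R) ≤ φ.range := by
      refine Algebra.adjoin_le ?_
      intro a ha
      exact ⟨lin ⟨a, hmem a ha⟩, hφlin _⟩
    rw [hs] at hr
    intro a
    exact hr (Algebra.mem_top)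
  · intro g p
    have : φ.comp (T g) = ((α.act g).toAlgHom).comp φ := by
      refine MvPolynomial.algHom_ext fun i => ?_
      rw [AlgHom.comp_apply, hTX, hφlin, hτ, AlgHom.comp_apply, hφX]
      rfl
    rw [hβ]
    exact DFunLike.congr_fun this p

end Pool.Agent.MTF.HI
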