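import Pool.Agent.MTF.H2
import Pool.Agent.MTF.H3

set_option linter.unusedSectionVars false

namespace Pool.Agent.MTF.HI

open AffGrp

/-- (row H4) HILBERT'S FINITENESS THEOREM.
PROOF. `exists_lin`, `hilbert_lin`: `β.Inv.FG`; `inv_surj`: `α.Inv = β.Inv.map φ` (an equivariant homomorphism maps invariants to invariants), `Subalgebra.FG.map`; `Subalgebra.fg_iff_finiteType`. -/
theorem hilbert {G : AffGrp} {I : Module.Dual ℂ G.O} (hI : Rey I) {R : Type} [CommRing R]
    [Algebra ℂ R] (hR : Algebra.FiniteType ℂ R) (α : Act G R) : α.Inv.FG := by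
  obtain ⟨n, β, ρ, φ, h1, h2, h3⟩ := exists_lin hR α
  have hfg := hilbert_lin hI β ρ h1
  have hmap : α.Inv = β.Inv.map φ := by
    apply le_antisymm
    · intro r hr
      obtain ⟨p, hp, rfl⟩ := inv_surj hI β α φ h2 h3 r hr
      exact ⟨p, hp, rfl⟩
    · rintro _ ⟨p, hp, rfl⟩
      intro g
      have h4 : β.act g p = p := hp g
      have h5 := h3 g p
      rw [h4] at h5
      exact h5.symm
  rw [hmap]
  exact hfg.map φ

/-- A ring that is the image of the invariants is finitely generated.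
PROOF. `Algebra.FiniteType` of `α.Inv` (`hilbert`) and `Algebra.FiniteType.of_surjective`. -/
theorem fg_of_inv {G : AffGrp} {I : Module.Dual ℂ G.O} (hI : Rey I) {R : Type} [CommRing R]
    [Algebra ℂ R] (hR : Algebra.FiniteType ℂ R) (α : Act G R) {C : Type} [CommRing C] [Algebra ℂ C]
    (ψ : α.Inv →ₐ[ℂ] C) (hψ : Function.Surjective ψ) : Algebra.FiniteType ℂ C := by
  have h1 : Algebra.FiniteType ℂ α.Inv := α.Inv.fg_iff_finiteType.1 (hilbert hI hR α)
  exact Algebra.FiniteType.of_surjective ψ hψ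

end Pool.Agent.MTF.HI
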