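import Pool.Agent.MTF.AG
import Pool.Agent.MTF.H4

/-!
# MTF : finite generation of all rings `A_{g;L}`, rationality of the action (definitions)
-/

set_option linter.unusedSectionVars false

namespace Pool.Agent.MTF

open AffGrp TensorProduct

section
variable {G : AffGrp} {K W X : Type} [Field K] [Algebra ℂ K] [Group W] [Fintype W]
  [MulSemiringAction W K] [SMulCommClass W ℂ K] [AddCommGroup X] [DistribMulAction W X]
variable {L : Type} [Finite L] [DecidableEq L] {Q : TQD G K W X}

/-- finite generation of `A_{g;L}` -/
def FGA (hT : TQ Q) (g : ℕ) (ε : L → Bool) : Prop := Algebra.FiniteType ℂ (AG hT g ε)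

end

end Pool.Agent.MTF
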