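import Pool.Agent.MTF.FG0

set_option linter.unusedSectionVars false

namespace Pool.Agent.MTF

open AffGrp TensorProduct

section
variable {G : AffGrp} {K W X : Type} [Field K] [Algebra ℂ K] [Group W] [Fintype W]
  [MulSemiringAction W K] [SMulCommClass W ℂ K] [AddCommGroup X] [DistribMulAction W X]
variable {L : Type} [Finite L] [DecidableEq L] {L' : Type} [Finite L'] [DecidableEq L']
variable {Q : TQD G K W X}

/-- (row FG1) Linear algebra: a family of vectors of a subspace `U`, given by finitely many functions, is given by finitely many functions and vectors of `U`.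
PROOF. Let `A'` be a basis of the (finite dimensional) span of the functions `A i` in `Y → ℂ` (`Submodule.finBasis` / `Module.finBasis`); expand: `Φ y = ∑ t, A' t y • B' t` with
`B' t ∈ span (B i)`.  Claim `B' t ∈ U`: in `V ⧸ U` we have `∑ t, A' t y • [B' t] = 0` for all `y`; apply a functional `θ` of `V ⧸ U`: `∑ t, θ [B' t] • A' t = 0`, so `θ [B' t] = 0` (linear
independence) for all `θ`, `[B' t] = 0` (`Module.forall_dual_apply_eq_zero_iff`).  The `A' t` are in the span of the `A i`, so in `S`. -/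
theorem fin_rep {Y V : Type} [AddCommGroup V] [Module ℂ V] (U : Submodule ℂ V)
    (S : Submodule ℂ (Y → ℂ)) {n : ℕ} (A : Fin n → Y → ℂ) (hA : ∀ i, A i ∈ S) (B : Fin n → V)
    (h : ∀ y, ∑ i, A i y • B i ∈ U) : ∃ (r : ℕ) (A' : Fin r → Y → ℂ) (B' : Fin r → V),
      (∀ t, A' t ∈ S) ∧ (∀ t, B' t ∈ U) ∧ ∀ y, ∑ i, A i y • B i = ∑ t, A' t y • B' t := by
  classical
  set Wd : Submodule ℂ (Y → ℂ) := Submodule.span ℂ (Set.range A) with hWd
  have : FiniteDimensional ℂ Wd := FiniteDimensional.span_of_finite ℂ (Set.finite_range A)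
  let b := Module.finBasis ℂ Wd
  have hAm : ∀ i, A i ∈ Wd := fun i => Submodule.subset_span ⟨i, rfl⟩
  have hexp : ∀ i y, A i y = ∑ t, b.repr ⟨A i, hAm i⟩ t * (b t).1 y := by
    intro i y
    have h1 := b.sum_repr ⟨A i, hAm i⟩
    have h2 := congrArg (fun z : Wd => z.1 y) h1
    have h3 : (∑ t, b.repr ⟨A i, hAm i⟩ t • b t : Wd).1 y =
        ∑ t, b.repr ⟨A i, hAm i⟩ t * (b t).1 y := by
      rw [Submodule.coe_sum, Finset.sum_apply]
      rfl
    rw [← h3]
    exact h2.symm
  have hsum : ∀ y, ∑ i, A i y • B i = ∑ t, (b t).1 y • ∑ i, b.repr ⟨A i, hAm i⟩ t • B i := by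
    intro y
    simp only [Finset.smul_sum]
    rw [Finset.sum_comm]
    refine Finset.sum_congr rfl fun i _ => ?_
    rw [hexp i y, Finset.sum_smul]
    refine Finset.sum_congr rfl fun t _ => ?_
    rw [smul_smul, mul_comm]
  refine ⟨_, fun t => (b t).1, fun t => ∑ i, b.repr ⟨A i, hAm i⟩ t • B i, fun t => ?_, fun t => ?_,
    hsum⟩
  · have h1 : Wd ≤ S := by
      rw [hWd, Submodule.span_le]
      rintro _ ⟨i, rfl⟩
      exact hA i
    exact h1 (b t).2
  · rw [← Submodule.Quotient.mk_eq_zero, ← Module.forall_dual_apply_eq_zero_iff ℂ]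
    intro θ
    have h1 : ∑ t, θ (Submodule.Quotient.mk (∑ i, b.repr ⟨A i, hAm i⟩ t • B i)) • b t = 0 := by
      apply Subtype.ext
      funext y
      have h2 := (Submodule.Quotient.mk_eq_zero U).2 (h y)
      rw [hsum y] at h2
      have h3 := congrArg θ h2
      rw [map_zero, ← Submodule.mkQ_apply, map_sum, map_sum] at h3
      have h4 : (∑ t, θ (Submodule.Quotient.mk (∑ i, b.repr ⟨A i, hAm i⟩ t • B i)) • b t : Wd).1 y =
          ∑ t, θ (Submodule.Quotient.mk (∑ i, b.repr ⟨A i, hAm i⟩ t • B i)) * (b t).1 y := by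
        rw [Submodule.coe_sum, Finset.sum_apply]
        rfl
      rw [h4]
      show _ = (0 : ℂ)
      rw [← h3]
      refine Finset.sum_congr rfl fun t _ => ?_
      rw [map_smul, map_smul, smul_eq_mul, mul_comm]
      rfl
    exact Fintype.linearIndependent_iff.1 b.linearIndependent _ h1 t

/-- a function on `X` acts on the components -/
def fg1_P (F : RR G K X L) : Prop :=
  ∃ (n : ℕ) (f : Fin n → (G.pow L).O) (B : Fin n → RR G K X L),
    ∀ x : L → G.X, gact x F = ∑ i, (f i).1 x • B i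

theorem fg1_zero : fg1_P (0 : RR G K X L) :=
  ⟨0, Fin.elim0, Fin.elim0, fun x => by rw [map_zero, Finset.univ_eq_empty, Finset.sum_empty]⟩

theorem fg1_add {F F' : RR G K X L} (h : fg1_P F) (h' : fg1_P F') : fg1_P (F + F') := by
  obtain ⟨n, f, B, h⟩ := h
  obtain ⟨n', f', B', h'⟩ := h'
  refine ⟨n + n', Fin.append f f', Fin.append B B', fun x => ?_⟩
  rw [map_add, h x, h' x, Fin.sum_univ_add]
  simp only [Fin.append_left, Fin.append_right]

theorem fg1_single (m : X) (a : (G.pow L).KO K) : fg1_P (AddMonoidAlgebra.single m a) := by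
  obtain ⟨n, c, h, rfl⟩ := KO_eq_sum a
  have h1 : (AddMonoidAlgebra.single m (∑ i, c i • inc K (h i)) : RR G K X L) =
      ∑ i, AddMonoidAlgebra.single m (c i • inc K (h i)) :=
    map_sum (AddMonoidAlgebra.singleAddHom m) _ _
  rw [h1]
  refine Finset.sum_induction _ fg1_P (fun _ _ => fg1_add) fg1_zero fun i _ => ?_
  obtain ⟨r, u, v, huv⟩ := (G.pow L).mul_mem (h i).1 (h i).2
  refine ⟨r, fun t => ⟨fun x => (u t).1 x⁻¹, (G.pow L).inv_mem _ (u t).2⟩,
    fun t => AddMonoidAlgebra.single m (c i • inc K (v t)), fun x => ?_⟩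
  have h2 : tr K x (c i • inc K (h i)) = ∑ t, (u t).1 x⁻¹ • (c i • inc K (v t)) := by
    apply KO_ext
    intro (k : L → G.X)
    rw [tr_apply, KO_sum]
    have h3 : ∀ t, ((u t).1 x⁻¹ • (c i • inc K (v t)) : (G.pow L).KO K).1 k =
        algebraMap ℂ K ((u t).1 x⁻¹) * (c i * algebraMap ℂ K ((v t).1 k)) := fun t =>
      Algebra.smul_def _ _
    simp only [h3]
    show c i * algebraMap ℂ K ((h i).1 (x⁻¹ * k : L → G.X)) = _
    have h4 : (h i).1 (x⁻¹ * k : L → G.X) = ∑ t, (u t).1 x⁻¹ * (v t).1 k := huv x⁻¹ k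
    rw [h4, map_sum, Finset.mul_sum]
    refine Finset.sum_congr rfl fun t _ => ?_
    rw [map_mul]
    ring
  have h5 : gact x (AddMonoidAlgebra.single m (c i • inc K (h i)) : RR G K X L) =
      AddMonoidAlgebra.single m (tr K x (c i • inc K (h i))) := by
    apply AddMonoidAlgebra.coeff_injective
    apply Finsupp.ext
    intro m'
    rw [coeff_gact, AddMonoidAlgebra.coeff_single, AddMonoidAlgebra.coeff_single]
    classical
    rw [Finsupp.single_apply, Finsupp.single_apply]
    split_ifs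
    · rfl
    · exact map_zero _
  rw [h5, h2]
  have h6 : (AddMonoidAlgebra.single m (∑ t, (u t).1 x⁻¹ • (c i • inc K (v t))) : RR G K X L) =
      ∑ t, AddMonoidAlgebra.single m ((u t).1 x⁻¹ • (c i • inc K (v t))) :=
    map_sum (AddMonoidAlgebra.singleAddHom m) _ _
  rw [h6]
  refine Finset.sum_congr rfl fun t _ => ?_
  exact (AddMonoidAlgebra.smul_single _ _ _).symm

theorem fg1_all (F : RR G K X L) : fg1_P F := by
  induction F using AddMonoidAlgebra.induction_linear with
  | zero => exact fg1_zero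
  | add a b ha hb => exact fg1_add ha hb
  | single m a => exact fg1_single m a

/-- The action of `G^L` on `A_{g;L}` is algebraic.
PROOF. First in `RR G K X L`: every `F` has `gact x F = ∑ i, (f i).1 x • B i` with `f i : (G.pow L).O`, `B i : RR G K X L`: additive in `F` (`Fin.append`), so
`F = single m (c • inc K f)` (`KO_eq_sum`, `AddMonoidAlgebra.induction_linear`); `f (x⁻¹ y) = ∑ a_t (x⁻¹) b_t (y)` (`(G.pow L).mul_mem`), `x ↦ a_t (x⁻¹)` is regular (`inv_mem`), so
`gact x F = ∑ a_t (x⁻¹) • single m (c • inc K b_t)`.  Then `fin_rep` with `U := (AG hT g ε).toSubmodule`, `S := (G.pow L).O.toSubmodule` (`gact_mem`). -/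
theorem rat_AG (hT : TQ Q) (g : ℕ) (ε : L → Bool) (F : AG hT g ε) :
    ∃ (n : ℕ) (f : Fin n → (G.pow L).O) (c : Fin n → AG hT g ε),
      ∀ x : L → G.X, actAG hT g ε x F = ∑ i, (f i).1 x • c i := by
  obtain ⟨n, f, B, h⟩ := fg1_all F.1
  obtain ⟨r, A', B', hA', hB', hs⟩ := fin_rep (Subalgebra.toSubmodule (AG hT g ε))
    (Subalgebra.toSubmodule (G.pow L).O) (fun i => (f i).1) (fun i => (f i).2) B (fun x => by
      have h1 : ∑ i, (f i).1 x • B i = gact x F.1 := (h x).symm
      rw [h1]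
      exact gact_mem hT x F.2)
  refine ⟨r, fun t => ⟨A' t, hA' t⟩, fun t => ⟨B' t, hB' t⟩, fun x => ?_⟩
  apply Subtype.ext
  rw [actAG_val, h x, AddSubmonoidClass.coe_finsetSum]
  exact hs x

end

end Pool.Agent.MTF
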