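import Pool.Agent.MTF.FG1

set_option linter.unusedSectionVars false

namespace Pool.Agent.MTF

open AffGrp TensorProduct

section
variable {G : AffGrp} {K W X : Type} [Field K] [Algebra ℂ K] [Group W] [Fintype W]
  [MulSemiringAction W K] [SMulCommClass W ℂ K] [AddCommGroup X] [DistribMulAction W X]
variable {L : Type} [Finite L] [DecidableEq L] {L' : Type} [Finite L'] [DecidableEq L']
variable {Q : TQD G K W X}

theorem optP_mem (h : (G.pow (Option L)).O) : (fun x : G.X => h.1 (optP x 1)) ∈ G.O := by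
  refine pow_mem G (H := G) (fun x : G.X => (optP x 1 : Option L → G.X)) (fun o f hf => ?_) h.2
  cases o with
  | none => exact hf
  | some l => exact const_mem G (f 1)

/-- a multiplicative family of algebra endomorphisms is an action -/
def fg2_hom {R : Type} [CommRing R] [Algebra ℂ R] (a : G.X → R →ₐ[ℂ] R) (h1 : ∀ F, a 1 F = F)
    (hm : ∀ x y F, a (x * y) F = a x (a y F)) : G.X →* (R ≃ₐ[ℂ] R) where
  toFun x := AlgEquiv.ofAlgHom (a x) (a x⁻¹)
    (AlgHom.ext fun F => by
      rw [AlgHom.comp_apply, ← hm, mul_inv_cancel, h1]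
      rfl)
    (AlgHom.ext fun F => by
      rw [AlgHom.comp_apply, ← hm, inv_mul_cancel, h1]
      rfl)
  map_one' := AlgEquiv.ext fun F => h1 F
  map_mul' x y := AlgEquiv.ext fun F => hm x y F

theorem fg2_fin {ι R : Type} [Fintype ι] [AddCommMonoid R] [Module ℂ R] {v : G.X → R}
    (f : ι → G.O) (c : ι → R) (h : ∀ x, v x = ∑ i, (f i).1 x • c i) :
    ∃ (n : ℕ) (f : Fin n → G.O) (c : Fin n → R), ∀ x, v x = ∑ i, (f i).1 x • c i := by
  refine ⟨Fintype.card ι, fun i => f ((Fintype.equivFin ι).symm i),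
    fun i => c ((Fintype.equivFin ι).symm i), fun x => ?_⟩
  rw [h]
  exact (Equiv.sum_comp (Fintype.equivFin ι).symm fun i => (f i).1 x • c i).symm

theorem fg2_mul (hT : TQ Q) (g : ℕ) (ε : L → Bool) (x y : L → G.X) (F : AG hT g ε) :
    actAG hT g ε (x * y) F = actAG hT g ε x (actAG hT g ε y F) :=
  Subtype.ext (gact_mul x y F.1)

theorem fg2_one (hT : TQ Q) (g : ℕ) (ε : L → Bool) (F : AG hT g ε) :
    actAG hT g ε 1 F = F := Subtype.ext (gact_one F.1)

theorem fg2_dact_one (hT : TQ Q) (g g' : ℕ) (ε : L → Bool) (ε' : L' → Bool)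
    (F : AG hT g (optS true ε) ⊗[ℂ] AG hT g' (optS false ε')) : dact hT g g' ε ε' 1 F = F := by
  induction F using TensorProduct.induction_on with
  | zero => exact map_zero _
  | add a b ha hb => rw [map_add, ha, hb]
  | tmul a b =>
    have e : (optP 1 1 : Option L → G.X) = 1 := pt1_one
    have e' : (optP 1 1 : Option L' → G.X) = 1 := pt1_one
    show actAG hT g (optS true ε) (optP 1 1) a ⊗ₜ[ℂ] actAG hT g' (optS false ε') (optP 1 1) b = _
    rw [e, e', fg2_one, fg2_one]

theorem fg2_dact_mul (hT : TQ Q) (g g' : ℕ) (ε : L → Bool) (ε' : L' → Bool) (x y : G.X)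
    (F : AG hT g (optS true ε) ⊗[ℂ] AG hT g' (optS false ε')) :
    dact hT g g' ε ε' (x * y) F = dact hT g g' ε ε' x (dact hT g g' ε ε' y F) := by
  induction F using TensorProduct.induction_on with
  | zero => rw [map_zero, map_zero, map_zero]
  | add a b ha hb => rw [map_add, map_add, map_add, ha, hb]
  | tmul a b =>
    have e : (optP (x * y) 1 : Option L → G.X) = optP x 1 * optP y 1 := pt1_mul x y
    have e' : (optP (x * y) 1 : Option L' → G.X) = optP x 1 * optP y 1 := pt1_mul x y
    show actAG hT g (optS true ε) (optP (x * y) 1) a ⊗ₜ[ℂ]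
        actAG hT g' (optS false ε') (optP (x * y) 1) b =
      actAG hT g (optS true ε) (optP x 1) (actAG hT g (optS true ε) (optP y 1) a) ⊗ₜ[ℂ]
        actAG hT g' (optS false ε') (optP x 1) (actAG hT g' (optS false ε') (optP y 1) b)
    rw [e, e', fg2_mul, fg2_mul]

/-- (row FG2) PROOF (of `optP_mem`, `pt2_mem`): `pow_mem`, coordinates: the identity or constants.
The diagonal action of `G` on `A ⊗ A'`.  PROOF. `act x := ` the algebra automorphism with `toFun = dact x`, inverse `dact x⁻¹` (`AlgEquiv.ofAlgHom`; `dact` is multiplicative in `x`: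
`Algebra.TensorProduct.map_comp` or check on pure tensors `ext`; `actAG` is multiplicative by `gact_mul`, `gact_one`; `optP (x * y) 1 = optP x 1 * optP y 1`).  `rat`: the set of elements of `A ⊗ A'` with
a representation is closed under sums (`Fin.append`) and contains the pure tensors (`rat_AG` for both factors, products of the functions, `finProdFinEquiv`; `optP_mem`). -/
theorem exists_dAct (hT : TQ Q) (g g' : ℕ) (ε : L → Bool) (ε' : L' → Bool) :
    ∃ α : HI.Act G (AG hT g (optS true ε) ⊗[ℂ] AG hT g' (optS false ε')),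
      ∀ x F, α.act x F = dact hT g g' ε ε' x F := by
  refine ⟨⟨fg2_hom (fun x => dact hT g g' ε ε' x) (fg2_dact_one hT g g' ε ε')
    (fg2_dact_mul hT g g' ε ε'), fun F => ?_⟩, fun x F => rfl⟩
  show ∃ (n : ℕ) (f : Fin n → G.O)
    (c : Fin n → AG hT g (optS true ε) ⊗[ℂ] AG hT g' (optS false ε')),
    ∀ x, dact hT g g' ε ε' x F = ∑ i, (f i).1 x • c i
  induction F using TensorProduct.induction_on with
  | zero => exact ⟨0, fun i => i.elim0, fun i => i.elim0, fun x => by simp⟩
  | add a b ha hb =>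
    obtain ⟨n, f, c, h⟩ := ha
    obtain ⟨n', f', c', h'⟩ := hb
    refine fg2_fin (ι := Fin n ⊕ Fin n') (Sum.elim f f') (Sum.elim c c') fun x => ?_
    rw [map_add, h, h', Fintype.sum_sum_type]
    rfl
  | tmul a b =>
    obtain ⟨n, f, c, h⟩ := rat_AG hT g (optS true ε) a
    obtain ⟨n', f', c', h'⟩ := rat_AG hT g' (optS false ε') b
    refine fg2_fin (ι := Fin n × Fin n')
      (fun i => (⟨_, optP_mem (f i.1)⟩ : G.O) * (⟨_, optP_mem (f' i.2)⟩ : G.O))
      (fun i => c i.1 ⊗ₜ[ℂ] c' i.2) fun x => ?_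
    show actAG hT g (optS true ε) (optP x 1) a ⊗ₜ[ℂ] actAG hT g' (optS false ε') (optP x 1) b = _
    rw [h, h', TensorProduct.sum_tmul, Fintype.sum_prod_type]
    refine Finset.sum_congr rfl fun i _ => ?_
    rw [TensorProduct.tmul_sum]
    refine Finset.sum_congr rfl fun j _ => ?_
    rw [TensorProduct.smul_tmul_smul]
    rfl

theorem pt2_mem (h : (G.pow (Option (Option L))).O) : (fun x : G.X => h.1 (pt2 x)) ∈ G.O := by
  refine pow_mem G (H := G) (fun x : G.X => (pt2 x : Option (Option L) → G.X)) (fun o f hf => ?_) h.2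
  cases o with
  | none => exact hf
  | some o =>
    cases o with
    | none => exact hf
    | some l => exact const_mem G (f 1)

/-- The diagonal action of `G` in the legs `none`, `some none`. -/
theorem exists_sAct (hT : TQ Q) (g : ℕ) (ε : L → Bool) :
    ∃ α : HI.Act G (AG hT g (optS true (optS false ε))),
      ∀ x F, α.act x F = actAG hT g (optS true (optS false ε)) (pt2 x) F := by
  refine ⟨⟨fg2_hom (fun x => actAG hT g (optS true (optS false ε)) (pt2 x)) (fun F => ?_)
    (fun x y F => ?_), fun F => ?_⟩, fun x F => rfl⟩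
  · rw [pt2_one, fg2_one]
  · rw [pt2_mul, fg2_mul]
  · obtain ⟨n, f, c, h⟩ := rat_AG hT g (optS true (optS false ε)) F
    exact ⟨n, fun i => ⟨_, pt2_mem (f i)⟩, c, fun x => h (pt2 x)⟩

end

end Pool.Agent.MTF
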