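import Pool.Agent.MTF.FG2

set_option linter.unusedSectionVars false

namespace Pool.Agent.MTF

open AffGrp TensorProduct

section
variable {G : AffGrp} {K W X : Type} [Field K] [Algebra ℂ K] [Group W] [Fintype W]
  [MulSemiringAction W K] [SMulCommClass W ℂ K] [AddCommGroup X] [DistribMulAction W X]
variable {L : Type} [Finite L] [DecidableEq L] {L' : Type} [Finite L'] [DecidableEq L']
variable {Q : TQD G K W X}

/-- (row FG3) A Reynolds functional exists. -/
theorem exists_rey (hT : TQ Q) : ∃ I : Module.Dual ℂ G.O, HI.Rey I := by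
  obtain ⟨I, h1, h2, _⟩ := hT.cr
  exact ⟨I, h1, h2⟩

/-- (row FG3) the diagonal -/
noncomputable def fg3_d (R X : Type) [CommRing R] [Algebra ℂ R] [AddCommGroup X] :
    AddMonoidAlgebra R X →ₐ[ℂ] AddMonoidAlgebra R (X × X) :=
  AddMonoidAlgebra.mapDomainAlgHom ℂ R ((AddMonoidHom.id X).prod (AddMonoidHom.id X))

theorem fg3_inj (X : Type) [AddCommGroup X] :
    Function.Injective ((AddMonoidHom.id X).prod (AddMonoidHom.id X)) :=
  fun _ _ h => (Prod.ext_iff.1 h).1

theorem fg3_coeff {R X : Type} [CommRing R] [Algebra ℂ R] [AddCommGroup X]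
    (x : AddMonoidAlgebra R X) (m : X) : (fg3_d R X x).coeff (m, m) = x.coeff m :=
  Finsupp.mapDomain_apply (fg3_inj X) x.coeff m

theorem fg3_coeff_ne {R X : Type} [CommRing R] [Algebra ℂ R] [AddCommGroup X]
    (x : AddMonoidAlgebra R X) {m m' : X} (h : m ≠ m') : (fg3_d R X x).coeff (m, m') = 0 := by
  refine Finsupp.mapDomain_of_notMem_range _ _ fun ⟨a, ha⟩ => h ?_
  have h1 : (a, a) = (m, m') := ha
  exact (Prod.ext_iff.1 h1).1.symm.trans (Prod.ext_iff.1 h1).2

theorem fg3_dgn {R X : Type} [CommRing R] [Algebra ℂ R] [AddCommGroup X]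
    (x : AddMonoidAlgebra R X) : dgn R X (fg3_d R X x) = x := by
  apply AddMonoidAlgebra.coeff_injective
  apply Finsupp.ext
  intro m
  exact fg3_coeff x m

theorem fg3_of_diag {R X : Type} [CommRing R] [Algebra ℂ R] [AddCommGroup X]
    {F : AddMonoidAlgebra R (X × X)} (h : ∀ m m', m ≠ m' → F.coeff (m, m') = 0) :
    fg3_d R X (dgn R X F) = F := by
  apply AddMonoidAlgebra.coeff_injective
  apply Finsupp.ext
  rintro ⟨m, m'⟩
  by_cases hm : m = m'
  · subst hm
    rw [fg3_coeff]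
    rfl
  · rw [fg3_coeff_ne _ hm, h m m' hm]

theorem fg3_tensor {A B : Type} [CommRing A] [Algebra ℂ A] [CommRing B] [Algebra ℂ B]
    (hA : Algebra.FiniteType ℂ A) (hB : Algebra.FiniteType ℂ B) :
    Algebra.FiniteType ℂ (A ⊗[ℂ] B) := by
  have h1 : Algebra.FiniteType A (A ⊗[ℂ] B) := Algebra.FiniteType.baseChange A
  exact Algebra.FiniteType.trans hA h1

/-- (row FG3) the restriction to the diagonal as a homomorphism on elements with diagonal image -/
noncomputable def fg3_psi {T R X : Type} [CommRing T] [Algebra ℂ T] [CommRing R] [Algebra ℂ R]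
    [AddCommGroup X] (ρ : T →ₐ[ℂ] AddMonoidAlgebra R (X × X)) (S : Subalgebra ℂ T)
    (hd : ∀ F : S, ∀ m m', m ≠ m' → (ρ F.1).coeff (m, m') = 0)
    (B : Subalgebra ℂ (AddMonoidAlgebra R X)) (hB : ∀ F : S, dgn R X (ρ F.1) ∈ B) : S →ₐ[ℂ] B where
  toFun F := ⟨dgn R X (ρ F.1), hB F⟩
  map_one' := Subtype.ext (by
    show dgn R X (ρ 1) = 1
    rw [map_one, ← map_one (fg3_d R X), fg3_dgn])
  map_mul' F F' := Subtype.ext (by
    show dgn R X (ρ (F.1 * F'.1)) = dgn R X (ρ F.1) * dgn R X (ρ F'.1)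
    rw [map_mul ρ]
    conv_lhs => rw [← fg3_of_diag (hd F), ← fg3_of_diag (hd F'), ← map_mul, fg3_dgn])
  map_zero' := Subtype.ext (by
    show dgn R X (ρ 0) = 0
    rw [map_zero ρ, map_zero])
  map_add' F F' := Subtype.ext (by
    show dgn R X (ρ (F.1 + F'.1)) = dgn R X (ρ F.1) + dgn R X (ρ F'.1)
    rw [map_add ρ, map_add])
  commutes' c := Subtype.ext (by
    show dgn R X (ρ (algebraMap ℂ T c)) = algebraMap ℂ (AddMonoidAlgebra R X) c
    rw [ρ.commutes c, ← (fg3_d R X).commutes c, fg3_dgn])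

/-- Joining preserves finite generation.
PROOF. `R := A ⊗ A'` is of finite type (`Algebra.FiniteType` of a tensor product: `Algebra.FiniteType.baseChange` and `Algebra.FiniteType.trans`).  `α` from `exists_dAct`.  The map
`ψ : α.Inv → AG hT (g + g') (Sum.elim ε ε')`, `F ↦ dgn (rho1 F)` (`T1a'`; the hypothesis `dact x F - F ∈ I1` holds because the difference is `0`) is an algebra homomorphism: `rho1 F` is
supported on the diagonal of `X × X` (`T1a`), and for elements supported on the diagonal `dgn (a * b) = dgn a * dgn b` (`AddMonoidAlgebra.mul` : coefficient at `(m, m)`; or: such an element is the image of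
`dgn a` under the ring homomorphism `mapDomain (m ↦ (m, m))`, which is injective with left inverse `dgn`).  Surjective by `T1b`.  `HI.fg_of_inv`. -/
theorem fg_T1 (hT : TQ Q) {g g' : ℕ} {ε : L → Bool} {ε' : L' → Bool} (h : FGA hT g (optS true ε))
    (h' : FGA hT g' (optS false ε')) : FGA hT (g + g') (Sum.elim ε ε') := by
  obtain ⟨I, hI⟩ := exists_rey hT
  obtain ⟨α, hα⟩ := exists_dAct hT g g' ε ε'
  have h1 : ∀ F : α.Inv, ∀ x, dact hT g g' ε ε' x F.1 = F.1 := fun F x =>
    (hα x F.1).symm.trans (F.2 x)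
  have hF : ∀ F : α.Inv, ∀ x, dact hT g g' ε ε' x F.1 - F.1 ∈ I1 hT g g' ε ε' := by
    intro F x
    rw [h1 F x, sub_self]
    exact Ideal.zero_mem _
  have hd : ∀ F : α.Inv, ∀ m m' : X, m ≠ m' → (rho1 hT g g' ε ε' F.1).coeff (m, m') = 0 :=
    fun F m m' hm => T1a (hT := hT) (g := g) (g' := g') (ε := ε) (ε' := ε') (hF F) hm
  have hB : ∀ F : α.Inv, dgn _ X (rho1 hT g g' ε ε' F.1) ∈ AG hT (g + g') (Sum.elim ε ε') :=
    fun F => T1a' (hT := hT) (g := g) (g' := g') (ε := ε) (ε' := ε') (hF F)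
  have hC : ∀ C : AG hT (g + g') (Sum.elim ε ε'), ∃ F : AG hT g (optS true ε) ⊗[ℂ] AG hT g' (optS false ε'),
      (∀ x, dact hT g g' ε ε' x F = F) ∧ dgn _ X (rho1 hT g g' ε ε' F) = C.1 :=
    fun C => T1b (hT := hT) (g := g) (g' := g') (ε := ε) (ε' := ε') C.2
  have hsur : Function.Surjective (fg3_psi (rho1 hT g g' ε ε') α.Inv hd
      (AG hT (g + g') (Sum.elim ε ε')) hB) := fun C =>
    Exists.elim (hC C) fun F hF' =>
      ⟨⟨F, fun x => (hα x F).trans (hF'.1 x)⟩, Subtype.ext hF'.2⟩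
  have hTF := fg3_tensor h h'
  exact HI.fg_of_inv hI hTF α _ hsur

/-- Self-glueing preserves finite generation.
PROOF. `α` from `exists_sAct`, `ψ F := res2 F.1` (`T2a`), a ring homomorphism, surjective by `T2b`. -/
theorem fg_T2 (hT : TQ Q) {g : ℕ} {ε : L → Bool} (h : FGA hT g (optS true (optS false ε))) :
    FGA hT (g + 1) ε := by
  obtain ⟨I, hI⟩ := exists_rey hT
  obtain ⟨α, hα⟩ := exists_sAct hT g ε
  have hF : ∀ F : α.Inv, ∀ x, actAG hT g (optS true (optS false ε)) (pt2 x) F.1 - F.1 ∈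
      I2 hT g ε := by
    intro F x
    have h1 : actAG hT g (optS true (optS false ε)) (pt2 x) F.1 = F.1 := by
      rw [← hα]; exact F.2 x
    rw [h1, sub_self]
    exact Ideal.zero_mem _
  refine HI.fg_of_inv hI h α (C := AG hT (g + 1) ε)
    { toFun := fun F => ⟨res2 F.1.1, T2a (hF F)⟩
      map_one' := Subtype.ext (map_one res2)
      map_mul' := fun F F' => Subtype.ext (map_mul res2 F.1.1 F'.1.1)
      map_zero' := Subtype.ext (map_zero res2)
      map_add' := fun F F' => Subtype.ext (map_add res2 F.1.1 F'.1.1)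
      commutes' := fun c => Subtype.ext ((res2.restrictScalars ℂ).commutes c) } ?_
  rintro ⟨C, hC⟩
  obtain ⟨F, hF1, hF2⟩ := T2b hC
  exact ⟨⟨F, fun x => by rw [hα]; exact hF1 x⟩, Subtype.ext hF2⟩

end

end Pool.Agent.MTF
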