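import Pool.Agent.MTF.FG0

set_option linter.unusedSectionVars false

namespace Pool.Agent.MTF

open AffGrp TensorProduct

section
variable {G : AffGrp} {K W X : Type} [Field K] [Algebra ℂ K] [Group W] [Fintype W]
  [MulSemiringAction W K] [SMulCommClass W ℂ K] [AddCommGroup X] [DistribMulAction W X]
variable {L : Type} [Finite L] [DecidableEq L] {L' : Type} [Finite L'] [DecidableEq L']
variable {Q : TQD G K W X}

/-- finite generation is inherited by images -/
theorem fg4_tr (hT : TQ Q) {g g' : ℕ} {ε : L → Bool} {ε' : L' → Bool}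
    (Φ : RR G K X L →ₐ[ℂ] RR G K X L') (h1 : ∀ F ∈ AG hT g ε, Φ F ∈ AG hT g' ε')
    (h2 : ∀ F' ∈ AG hT g' ε', ∃ F ∈ AG hT g ε, Φ F = F') (h : FGA hT g ε) : FGA hT g' ε' := by
  unfold FGA at h ⊢
  refine Algebra.FiniteType.of_surjective
    ((Φ.comp (AG hT g ε).val).codRestrict (AG hT g' ε') fun F => h1 F.1 F.2) ?_
  rintro ⟨F', hF'⟩
  obtain ⟨F, hF, hF2⟩ := h2 F' hF'
  exact ⟨⟨F, hF⟩, Subtype.ext hF2⟩

/-- the reversal of the weights -/
noncomputable def fg4_nu (G : AffGrp) (K X L : Type) [Field K] [Algebra ℂ K] [AddCommGroup X] [Finite L] :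
    RR G K X L →ₐ[ℂ] RR G K X L :=
  (AddMonoidAlgebra.domCongr ℂ ((G.pow L).KO K) (AddEquiv.neg X)).toAlgHom

theorem fg4_coeff (F : RR G K X L) (m : X) : (fg4_nu G K X L F).coeff m = F.coeff (-m) :=
  AddMonoidAlgebra.coeff_domCongr (R := ℂ) (AddEquiv.neg X) F m

theorem fg4_tot (F : RR G K X L) : tot (fg4_nu G K X L F) = tot F := by
  rw [tot_eq, tot_eq]
  induction F using AddMonoidAlgebra.induction_linear with
  | zero => rw [map_zero]
  | add a b ha hb => rw [map_add, map_add, map_add, ha, hb]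
  | single m a => simp [fg4_nu, totH]

theorem fg4_fam {b : Bool} {F : RR G K X L} (h : Q.Fam 0 (fun _ : L => b) F) :
    Q.Fam 0 (fun _ : L => !b) (fg4_nu G K X L F) := by
  refine ⟨fun m l => ?_, fun w m => ?_, fun hg => ?_, fun m k hg => absurd hg (lt_irrefl 0)⟩
  · rw [fg4_coeff, h.wt (-m) l]
    congr 2
    cases b with
    | false =>
      show (-1 : ℤ) • (-m) = (1 : ℤ) • m
      rw [neg_smul, one_smul, one_smul, neg_neg]
    | true =>
      show (1 : ℤ) • (-m) = (-1 : ℤ) • m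
      rw [neg_smul, one_smul, one_smul]
  · rw [fg4_coeff, fg4_coeff, h.inv, smul_neg]
  · rw [fg4_tot]
    exact h.reg0 hg

theorem fg4_inv (F : RR G K X L) : fg4_nu G K X L (fg4_nu G K X L F) = F :=
  RR_ext fun m k => by rw [fg4_coeff, fg4_coeff, neg_neg]

theorem fg4_pb (e : L ≃ L') (F : RR G K X L') :
    fm X (pb K (e : L → L')) (fm X (pb K (e.symm : L' → L)) F) = F := by
  refine RR_ext fun m k => ?_
  rw [coeff_fm, coeff_fm, pb_apply, pb_apply]
  refine congrArg (F.coeff m).1 (?_ : ((k ∘ e) ∘ e.symm : L' → G.X) = k)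
  funext l
  exact congrArg k (e.apply_symm_apply l)

/-- (row FG4) Reversing all signs in genus `0`.
PROOF. `ν : RR G K X L ≃ₐ[ℂ] RR G K X L`, `(ν F).coeff m = F.coeff (-m)` (`AddMonoidAlgebra.domCongr` / `mapDomain` with `AddEquiv.neg X`).  `mem_AG` (`L` nonempty) and `F ∈ Fam 0 (all true) ↔ ν F ∈ Fam 0 (all false)`:
`wt`: `sgn true • (-m) = sgn false • m`; `inv`: `w • (-m) = -(w • m)`; `tot (ν F) = tot F` (`tot_eq`, `totH`; induction on `F`); `regS`: `0 < 0` is false.  So the two rings are isomorphic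
(`AlgEquiv` restricted to the subalgebras) and `Algebra.FiniteType.equiv`. -/
theorem fg_neg (hT : TQ Q) [Nonempty L] (h : FGA hT 0 (fun _ : L => true)) :
    FGA hT 0 (fun _ : L => false) := by
  refine fg4_tr hT (fg4_nu G K X L) (fun F hF => ?_) (fun F' hF' => ?_) h
  · exact (mem_AG hT fun _ => ‹_›).2 (fg4_fam ((mem_AG hT fun _ => ‹_›).1 hF))
  · exact ⟨fg4_nu G K X L F', (mem_AG hT fun _ => ‹_›).2 (fg4_fam ((mem_AG hT fun _ => ‹_›).1 hF')),
      fg4_inv F'⟩

/-- Relabelling.  PROOF. `mem_AG_re`: the isomorphism `fm X (pb K e)` (inverse `fm X (pb K e.symm)`) of `RR G K X L` and `RR G K X L'` maps one ring onto the other. -/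
theorem fg_re (hT : TQ Q) {g : ℕ} {ε : L → Bool} {ε' : L' → Bool} (e : L ≃ L')
    (he : ∀ l, ε' (e l) = ε l) (h : FGA hT g ε) : FGA hT g ε' := by
  refine fg4_tr hT ((fm X (pb K (e : L → L'))).restrictScalars ℂ) (fun F hF => ?_) (fun F' hF' => ?_) h
  · exact (mem_AG_re hT e he).2 hF
  · refine ⟨fm X (pb K (e.symm : L' → L)) F', ?_, fg4_pb e F'⟩
    refine (mem_AG_re hT e he).1 ?_
    rw [fg4_pb]
    exact hF'

end

end Pool.Agent.MTF
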