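import Pool.Agent.MTF.FG3
import Pool.Agent.MTF.FG4

set_option linter.unusedSectionVars false

namespace Pool.Agent.MTF

open AffGrp TensorProduct

section
variable {G : AffGrp} {K W X : Type} [Field K] [Algebra ℂ K] [Group W] [Fintype W]
  [MulSemiringAction W K] [SMulCommClass W ℂ K] [AddCommGroup X] [DistribMulAction W X]
variable {L : Type} [Finite L] [DecidableEq L] {L' : Type} [Finite L'] [DecidableEq L']
variable {Q : TQD G K W X}

theorem fg5_bij {L : Type} (ε : L → Bool) : Function.Bijective
    (Sum.elim Subtype.val Subtype.val : {l : L // ε l = true} ⊕ {l : L // ε l = false} → L) := by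
  constructor
  · rintro (⟨l, hl⟩ | ⟨l, hl⟩) (⟨l', hl'⟩ | ⟨l', hl'⟩) h
    · have h' : l = l' := h
      subst h'
      rfl
    · have h' : l = l' := h
      subst h'
      rw [hl] at hl'
      exact absurd hl' (by decide)
    · have h' : l = l' := h
      subst h'
      rw [hl] at hl'
      exact absurd hl' (by decide)
    · have h' : l = l' := h
      subst h'
      rfl
  · intro l
    by_cases h : ε l = true
    · exact ⟨Sum.inl ⟨l, h⟩, rfl⟩
    · exact ⟨Sum.inr ⟨l, Bool.eq_false_iff.2 h⟩, rfl⟩

/-- the two kinds of legs -/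
noncomputable def fg5_e {L : Type} (ε : L → Bool) :
    {l : L // ε l = true} ⊕ {l : L // ε l = false} ≃ L := Equiv.ofBijective _ (fg5_bij ε)

theorem fg5_e_apply {L : Type} (ε : L → Bool) (l : {l : L // ε l = true} ⊕ {l : L // ε l = false}) :
    ε (fg5_e ε l) = Sum.elim (fun _ => true) (fun _ => false) l := by
  rcases l with (⟨l, hl⟩ | ⟨l, hl⟩)
  · exact hl
  · exact hl

theorem fg5_optS (b : Bool) (L : Type) : optS b (fun _ : L => b) = fun _ => b := by
  funext o
  cases o
  · rfl
  · rfl

/-- (row FG5) FINITE GENERATION of all the rings `A_{g;L}` (part C6), from the case of genus `0`, all signs `+`.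
PROOF. Induction on `g`, for all `L`, `ε`.  `g + 1`: `fg_T2` (legs `Option (Option L)`).  `g = 0`: `L₁ := {l // ε l = true}`, `L₂ := {l // ε l = false}`; `optS true (fun _ : L₁ => true) = fun _ => true` and
`optS false (fun _ : L₂ => false) = fun _ => false` (`funext`, cases on `Option`); `fg_T1` with `hFin` (for `Option L₁`) and `fg_neg` (for `Option L₂`) gives `FGA hT (0 + 0) (Sum.elim (fun _ => true) (fun _ => false))` on
`L₁ ⊕ L₂`; `fg_re` with the equivalence `L₁ ⊕ L₂ ≃ L` (cases on the value of `ε`; e.g. from `Equiv.sumCompl (fun l => ε l = true)` and `ε l ≠ true ↔ ε l = false`). -/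
theorem fg_all (hT : TQ Q)
    (hFin : ∀ (L : Type) [Finite L] [DecidableEq L] [Nonempty L], FGA hT 0 (fun _ : L => true))
    (g : ℕ) : ∀ (L : Type) [Finite L] [DecidableEq L] (ε : L → Bool), FGA hT g ε := by
  induction g with
  | zero =>
    intro L _ _ ε
    have h1 : FGA hT 0 (optS true (fun _ : {l : L // ε l = true} => true)) := by
      rw [fg5_optS]
      exact hFin (Option {l : L // ε l = true})
    have h2 : FGA hT 0 (optS false (fun _ : {l : L // ε l = false} => false)) := by
      rw [fg5_optS]
      exact fg_neg hT (hFin (Option {l : L // ε l = false}))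
    have h3 : FGA hT (0 + 0) (Sum.elim (fun _ : {l : L // ε l = true} => true)
        (fun _ : {l : L // ε l = false} => false)) := fg_T1 hT h1 h2
    exact fg_re hT (fg5_e ε) (fg5_e_apply ε) h3
  | succ g ih =>
    intro L _ _ ε
    exact fg_T2 hT (ih (Option (Option L)) (optS true (optS false ε)))

end

end Pool.Agent.MTF
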