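import Pool.Agent.MTF.TQ

set_option linter.unusedSectionVars false

namespace Pool.Agent.MTF.HI

open AffGrp

/-- An algebraic action of `G` on a `ℂ`-algebra. -/
structure Act (G : AffGrp) (R : Type) [CommRing R] [Algebra ℂ R] where
  act : G.X →* (R ≃ₐ[ℂ] R)
  rat : ∀ a : R, ∃ (n : ℕ) (f : Fin n → G.O) (c : Fin n → R),
    ∀ g, act g a = ∑ i, (f i).1 g • c i

/-- The ring of invariants. -/
def Act.Inv {G : AffGrp} {R : Type} [CommRing R] [Algebra ℂ R] (α : Act G R) : Subalgebra ℂ R where
  carrier := {a | ∀ g, α.act g a = a}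
  mul_mem' := fun ha hb g => by rw [map_mul, ha g, hb g]
  add_mem' := fun ha hb g => by rw [map_add, ha g, hb g]
  algebraMap_mem' := fun c g => (α.act g).commutes c

/-- A Reynolds functional on the regular functions. -/
structure Rey {G : AffGrp} (I : Module.Dual ℂ G.O) : Prop where
  one : I 1 = 1
  left : ∀ x f, I (G.lt x f) = I f

end Pool.Agent.MTF.HI
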