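import Pool.Agent.MTF.H0

set_option linter.unusedSectionVars false

namespace Pool.Agent.MTF.HI

open AffGrp

theorem h1_zero {G : AffGrp} (I : Module.Dual ℂ G.O) {R : Type} [CommRing R] [Algebra ℂ R]
    {κ : Type} [Fintype κ] (f : κ → G.O) (c : κ → R) (h : ∀ g, ∑ i, (f i).1 g • c i = 0) :
    ∑ i, I (f i) • c i = 0 := by
  rw [← Module.forall_dual_apply_eq_zero_iff ℂ]
  intro θ
  have h2 : ∑ i, θ (c i) • f i = 0 := by
    apply Subtype.ext
    funext g
    have h3 := congrArg θ (h g)
    rw [map_sum, map_zero] at h3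
    have h4 : (∑ i, θ (c i) • f i : G.O).1 g = ∑ i, θ (c i) * (f i).1 g := by
      have h5 : (∑ i, θ (c i) • f i : G.O).1 = ∑ i, θ (c i) • (f i).1 := by
        rw [← Subalgebra.coe_val, map_sum]
        rfl
      rw [h5, Finset.sum_apply]
      rfl
    rw [h4]
    show _ = (0 : ℂ)
    rw [← h3]
    refine Finset.sum_congr rfl fun i _ => ?_
    rw [map_smul, smul_eq_mul, mul_comm]
  have h3 := congrArg I h2
  rw [map_sum, map_zero] at h3
  rw [map_sum, ← h3]
  refine Finset.sum_congr rfl fun i _ => ?_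
  rw [map_smul, map_smul, smul_eq_mul, smul_eq_mul, mul_comm]

theorem h1_eq {G : AffGrp} (I : Module.Dual ℂ G.O) {R : Type} [CommRing R] [Algebra ℂ R]
    {κ κ' : Type} [Fintype κ] [Fintype κ'] (f : κ → G.O) (c : κ → R) (f' : κ' → G.O) (c' : κ' → R)
    (h : ∀ g, ∑ i, (f i).1 g • c i = ∑ i, (f' i).1 g • c' i) :
    ∑ i, I (f i) • c i = ∑ i, I (f' i) • c' i := by
  have h1 := h1_zero I (Sum.elim f f') (Sum.elim c (fun j => - c' j)) (by
    intro g
    rw [Fintype.sum_sum_type]
    simp only [Sum.elim_inl, Sum.elim_inr, smul_neg, Finset.sum_neg_distrib]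
    rw [h g, add_neg_cancel])
  rw [Fintype.sum_sum_type] at h1
  simp only [Sum.elim_inl, Sum.elim_inr, smul_neg, Finset.sum_neg_distrib] at h1
  rwa [← sub_eq_add_neg, sub_eq_zero] at h1

/-- (row H1) The Reynolds operator.
PROOF. Independence of the representation: if `∑ i, (f i).1 g • c i = 0` for all `g` then `∑ i, I (f i) • c i = 0`: apply a functional `θ : Module.Dual ℂ R`
(`Module.forall_dual_apply_eq_zero_iff`): `∑ θ (c i) • f i = 0` in `G.O`, apply `I` (compare `AffGrp.ext_aux` in KO.lean).  `π a := ∑ I (f i) • c i` for a chosen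
representation of `a` (`α.rat`); the formula for every representation: subtract (`Fin.append`); linear.  `π a` invariant: `act (h * g) a = act h (act g a)`, i.e.
`∑ (f i) (h g) • c i = ∑ (f i) g • act h (c i)` for all `g`; apply `I` to both representations of the function (`I.left`: `I (G.lt h (f i)) = I (f i)`): `π a = act h (π a)`.
`a` invariant: representation with `n = 1`, `f = 1`, `c = a`.  `b` invariant: `act g (b * a) = ∑ (f i) g • (b * c i)`. -/
theorem exists_pi {G : AffGrp} {I : Module.Dual ℂ G.O} (hI : Rey I) {R : Type} [CommRing R]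
    [Algebra ℂ R] (α : Act G R) : ∃ π : R →ₗ[ℂ] R,
    (∀ (a : R) (n : ℕ) (f : Fin n → G.O) (c : Fin n → R), (∀ g, α.act g a = ∑ i, (f i).1 g • c i) →
      π a = ∑ i, I (f i) • c i) ∧
    (∀ a, π a ∈ α.Inv) ∧ (∀ a ∈ α.Inv, π a = a) ∧ ∀ b ∈ α.Inv, ∀ a, π (b * a) = b * π a := by
  choose n f c hfc using α.rat
  have hform : ∀ (a : R) (κ : Type) [Fintype κ] (f' : κ → G.O) (c' : κ → R),
      (∀ g, α.act g a = ∑ i, (f' i).1 g • c' i) →
      ∑ i, I (f a i) • c a i = ∑ i, I (f' i) • c' i := by
    intro a κ _ f' c' h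
    exact h1_eq I _ _ _ _ fun g => by rw [← hfc, h]
  refine ⟨{ toFun := fun a => ∑ i, I (f a i) • c a i
            map_add' := ?_
            map_smul' := ?_ }, ?_, ?_, ?_, ?_⟩
  · intro a b
    rw [hform (a + b) (Fin (n a) ⊕ Fin (n b)) (Sum.elim (f a) (f b)) (Sum.elim (c a) (c b)) (by
      intro g
      rw [Fintype.sum_sum_type, map_add, hfc, hfc]
      rfl), Fintype.sum_sum_type]
    rfl
  · intro r a
    rw [hform (r • a) (Fin (n a)) (f a) (fun i => r • c a i) (by
      intro g
      rw [map_smul, hfc, Finset.smul_sum]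
      exact Finset.sum_congr rfl fun i _ => smul_comm _ _ _), RingHom.id_apply, Finset.smul_sum]
    exact Finset.sum_congr rfl fun i _ => smul_comm _ _ _
  · intro a m f' c' h
    exact hform a (Fin m) f' c' h
  · intro a h
    show α.act h (∑ i, I (f a i) • c a i) = ∑ i, I (f a i) • c a i
    have h1 := h1_eq I (fun i => G.lt h (f a i)) (c a) (f a) (fun i => α.act h (c a i)) (by
      intro g
      have h2 : α.act (h * g) a = α.act h (α.act g a) := by rw [map_mul]; rfl
      rw [hfc a (h * g), hfc a g, map_sum] at h2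
      simp only [map_smul] at h2
      exact h2)
    simp only [hI.left] at h1
    rw [map_sum]
    simp only [map_smul]
    exact h1.symm
  · intro a ha
    show ∑ i, I (f a i) • c a i = a
    rw [hform a Unit (fun _ => 1) (fun _ => a) (by
      intro g
      rw [ha g]
      simp)]
    simp [hI.one]
  · intro b hb a
    show ∑ i, I (f (b * a) i) • c (b * a) i = b * ∑ i, I (f a i) • c a i
    rw [hform (b * a) (Fin (n a)) (f a) (fun i => b * c a i) (by
      intro g
      rw [map_mul, hb g, hfc, Finset.mul_sum]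
      exact Finset.sum_congr rfl fun i _ => mul_smul_comm _ _ _), Finset.mul_sum]
    exact Finset.sum_congr rfl fun i _ => (mul_smul_comm _ _ _).symm

/-- The Reynolds operators are compatible with equivariant homomorphisms; so a surjective equivariant homomorphism maps the invariants onto the
invariants.
PROOF. `π (φ a) = φ (π a)` by the formula.  `r ∈ α'.Inv`, `r = φ p`: `r = π' r = π' (φ p) = φ (π p)`. -/
theorem inv_surj {G : AffGrp} {I : Module.Dual ℂ G.O} (hI : Rey I) {R R' : Type} [CommRing R]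
    [Algebra ℂ R] [CommRing R'] [Algebra ℂ R'] (α : Act G R) (α' : Act G R') (φ : R →ₐ[ℂ] R')
    (hφ : Function.Surjective φ) (h : ∀ g a, φ (α.act g a) = α'.act g (φ a)) :
    ∀ r ∈ α'.Inv, ∃ p ∈ α.Inv, φ p = r := by
  obtain ⟨π, h1, h2, h3, -⟩ := exists_pi hI α
  obtain ⟨π', h1', h2', h3', -⟩ := exists_pi hI α'
  intro r hr
  obtain ⟨p, rfl⟩ := hφ r
  refine ⟨π p, h2 p, ?_⟩
  obtain ⟨n, f, c, hfc⟩ := α.rat p
  rw [← h3' _ hr, h1 p n f c hfc, h1' (φ p) n f (fun i => φ (c i)) (by
    intro g
    rw [← h, hfc, map_sum]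
    exact Finset.sum_congr rfl fun i _ => map_smul _ _ _), map_sum]
  exact Finset.sum_congr rfl fun i _ => map_smul _ _ _

end Pool.Agent.MTF.HI
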