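import Pool.Agent.MTF.H1

set_option linter.unusedSectionVars false

namespace Pool.Agent.MTF.HI

open AffGrp

open MvPolynomial in
theorem h2_mul {σ : Type} (d e : ℕ) (a p : MvPolynomial σ ℂ) (hp : p.IsHomogeneous e) :
    homogeneousComponent d (a * p) =
      if e ≤ d then homogeneousComponent (d - e) a * p else 0 := by
  induction a using MvPolynomial.induction_on' with
  | monomial u c =>
    have h1 : (monomial u c : MvPolynomial σ ℂ).IsHomogeneous u.degree :=
      isHomogeneous_monomial c rfl
    rw [homogeneousComponent_of_mem (h1.mul hp), homogeneousComponent_of_mem h1]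
    by_cases h : e ≤ d
    · rw [if_pos h]
      by_cases h2 : d = u.degree + e
      · rw [if_pos h2, if_pos (by omega)]
      · rw [if_neg h2, if_neg (by omega), zero_mul]
    · rw [if_neg h, if_neg (by omega)]
  | add a b ha hb =>
    rw [add_mul, map_add, ha, hb]
    by_cases h : e ≤ d
    · rw [if_pos h, if_pos h, if_pos h, map_add, add_mul]
    · rw [if_neg h, if_neg h, if_neg h, add_zero]

open MvPolynomial in
theorem h2_hom {σ : Type} (φ : MvPolynomial σ ℂ →ₐ[ℂ] MvPolynomial σ ℂ)
    (h1 : ∀ i, (φ (X i)).IsHomogeneous 1) (d : ℕ) (p : MvPolynomial σ ℂ)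
    (hp : p.IsHomogeneous d) : (φ p).IsHomogeneous d := by
  have h2 : φ = aeval fun i => φ (X i) := by
    apply MvPolynomial.algHom_ext
    intro i
    rw [aeval_X]
  have h3 := hp.aeval (fun i => φ (X i)) h1
  rw [one_mul, ← h2] at h3
  exact h3

open MvPolynomial in
theorem h2_comm {σ : Type} (φ : MvPolynomial σ ℂ →ₐ[ℂ] MvPolynomial σ ℂ)
    (h1 : ∀ i, (φ (X i)).IsHomogeneous 1) (d : ℕ) (p : MvPolynomial σ ℂ) :
    homogeneousComponent d (φ p) = φ (homogeneousComponent d p) := by
  induction p using MvPolynomial.induction_on' with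
  | monomial u c =>
    have h2 : (monomial u c : MvPolynomial σ ℂ).IsHomogeneous u.degree :=
      isHomogeneous_monomial c rfl
    rw [homogeneousComponent_of_mem (h2_hom φ h1 _ _ h2), homogeneousComponent_of_mem h2]
    by_cases h : d = u.degree
    · rw [if_pos h, if_pos h]
    · rw [if_neg h, if_neg h, map_zero]
  | add a b ha hb => rw [map_add, map_add, ha, hb, map_add, map_add]

/-- (row H2) Hilbert's theorem for a linear action on a polynomial ring.
PROOF. `R := MvPolynomial (Fin n) ℂ`, `S := α.Inv`.  (1) `act g` maps homogeneous polynomials of degree `d` to homogeneous polynomials of degree `d` (`act g` is the algebra homomorphism with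
`X i ↦ ` a linear form; `MvPolynomial.IsHomogeneous`), so homogeneous components of invariants are invariant (`homogeneousComponent d (act g p) = act g (homogeneousComponent d p)`).
(2) `π` maps homogeneous polynomials of degree `d` to such: `homogeneousComponent e (π a)` for `a` homogeneous of degree `d ≠ e`: with `act g a = ∑ (f i) g • c i`, also
`act g a = ∑ (f i) g • homogeneousComponent d (c i)`, so `π a = ∑ I (f i) • homogeneousComponent d (c i)`.
(3) Let `J` be the ideal of `R` generated by the set `M` of homogeneous invariants of positive degree.  `R` is noetherian, so `J` is generated by finitely many elements of `M`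
(`Submodule.fg_span_iff_fg_span_finset_subset` or `Ideal.FG` + `Submodule.FG` finset subset), say the finset `t ⊆ M`.
(4) CLAIM: every homogeneous invariant `F` of degree `d` is in `B := Algebra.adjoin ℂ t`.  Strong induction on `d`.  `d = 0`: constant.  `d > 0`: `F ∈ M ⊆ J`, `F = ∑ p ∈ t, a p * p`; replace `a p` by its
homogeneous component of degree `d - deg p` (compare components of degree `d`; `0` if `deg p > d`).  `F = π F = ∑ p, π (a p) * p` (`p` invariant), `π (a p)` is a homogeneous invariant of degree
`d - deg p < d`, so in `B`.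
(5) Every invariant is the sum of its homogeneous components.  So `S = B`, finitely generated: `S = Algebra.adjoin ℂ t` as subalgebras of `R`, i.e. `S.FG`. -/
theorem hilbert_lin {G : AffGrp} {I : Module.Dual ℂ G.O} (hI : Rey I) {n : ℕ}
    (α : Act G (MvPolynomial (Fin n) ℂ)) (ρ : G.X → Fin n → Fin n → ℂ)
    (hα : ∀ g i, α.act g (MvPolynomial.X i) = ∑ j, MvPolynomial.C (ρ g j i) * MvPolynomial.X j) :
    α.Inv.FG := by
  obtain ⟨π, hπ, hπinv, hπid, hπmul⟩ := exists_pi hI α
  have hlin : ∀ g i, (((α.act g : MvPolynomial (Fin n) ℂ ≃ₐ[ℂ] MvPolynomial (Fin n) ℂ) :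
      MvPolynomial (Fin n) ℂ →ₐ[ℂ] MvPolynomial (Fin n) ℂ) (MvPolynomial.X i)).IsHomogeneous 1 := by
    intro g i
    show (α.act g (MvPolynomial.X i)).IsHomogeneous 1
    rw [hα]
    refine MvPolynomial.IsHomogeneous.sum _ _ _ fun j _ => ?_
    exact (MvPolynomial.isHomogeneous_X _ _).C_mul _
  have hcomm : ∀ (g : G.X) (d : ℕ) (p : MvPolynomial (Fin n) ℂ),
      MvPolynomial.homogeneousComponent d (α.act g p) =
        α.act g (MvPolynomial.homogeneousComponent d p) := fun g d p =>
    h2_comm ((α.act g : MvPolynomial (Fin n) ℂ ≃ₐ[ℂ] MvPolynomial (Fin n) ℂ) :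
      MvPolynomial (Fin n) ℂ →ₐ[ℂ] MvPolynomial (Fin n) ℂ) (hlin g) d p
  have hInv : ∀ (d : ℕ) (p : MvPolynomial (Fin n) ℂ), p ∈ α.Inv →
      MvPolynomial.homogeneousComponent d p ∈ α.Inv := by
    intro d p hp g
    rw [← hcomm, hp g]
  have hπc : ∀ (d : ℕ) (a : MvPolynomial (Fin n) ℂ),
      π (MvPolynomial.homogeneousComponent d a) = MvPolynomial.homogeneousComponent d (π a) := by
    intro d a
    obtain ⟨m, f, c, hf⟩ := α.rat a
    have h1 : ∀ g, α.act g (MvPolynomial.homogeneousComponent d a) =
        ∑ i, (f i).1 g • MvPolynomial.homogeneousComponent d (c i) := by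
      intro g
      rw [← hcomm, hf g, map_sum]
      exact Finset.sum_congr rfl fun i _ => map_smul _ _ _
    rw [hπ _ _ _ _ h1, hπ _ _ _ _ hf, map_sum]
    exact Finset.sum_congr rfl fun i _ => (map_smul _ _ _).symm
  set M : Set (MvPolynomial (Fin n) ℂ) :=
    {p | p ∈ α.Inv ∧ ∃ d : ℕ, 0 < d ∧ p.IsHomogeneous d} with hM
  obtain ⟨t, htM, hspan⟩ := (Submodule.fg_span_iff_fg_span_finset_subset
    (R := MvPolynomial (Fin n) ℂ) M).1 (IsNoetherian.noetherian _)
  have hdg : ∀ p : MvPolynomial (Fin n) ℂ, ∃ d : ℕ, p ∈ t → 0 < d ∧ p.IsHomogeneous d := by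
    intro p
    by_cases hp : p ∈ t
    · obtain ⟨d, hd⟩ := (htM hp).2
      exact ⟨d, fun _ => hd⟩
    · exact ⟨0, fun h => absurd h hp⟩
  choose dg hdg using hdg
  have claim : ∀ (d : ℕ) (F : MvPolynomial (Fin n) ℂ), F ∈ α.Inv → F.IsHomogeneous d →
      F ∈ Algebra.adjoin ℂ (t : Set (MvPolynomial (Fin n) ℂ)) := by
    intro d
    induction d using Nat.strong_induction_on with
    | _ d ih =>
      intro F hF hd
      rcases Nat.eq_zero_or_pos d with h0 | h0
      · subst h0
        have h1 : F = MvPolynomial.C (MvPolynomial.coeff 0 F) := by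
          rw [← MvPolynomial.homogeneousComponent_zero,
            MvPolynomial.homogeneousComponent_eq_self hd]
        rw [h1]
        exact Subalgebra.algebraMap_mem _ _
      · have h1 : F ∈ Submodule.span (MvPolynomial (Fin n) ℂ) (t : Set (MvPolynomial (Fin n) ℂ)) := by
          rw [← hspan]
          exact Submodule.subset_span ⟨hF, d, h0, hd⟩
        obtain ⟨a, -, ha⟩ := Submodule.mem_span_finset.1 h1
        have h2 : F = ∑ p ∈ t, if dg p ≤ d then
            MvPolynomial.homogeneousComponent (d - dg p) (a p) * p else 0 := by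
          conv_lhs => rw [← MvPolynomial.homogeneousComponent_eq_self hd, ← ha, map_sum]
          refine Finset.sum_congr rfl fun p hp => ?_
          rw [smul_eq_mul]
          exact h2_mul d (dg p) (a p) p (hdg p hp).2
        have h3 : F = ∑ p ∈ t, if dg p ≤ d then
            p * MvPolynomial.homogeneousComponent (d - dg p) (π (a p)) else 0 := by
          conv_lhs => rw [← hπid F hF, h2, map_sum]
          refine Finset.sum_congr rfl fun p hp => ?_
          by_cases h : dg p ≤ d
          · rw [if_pos h, if_pos h, mul_comm, hπmul p (htM hp).1, hπc]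
          · rw [if_neg h, if_neg h, map_zero]
        rw [h3]
        refine Subalgebra.sum_mem _ fun p hp => ?_
        by_cases h : dg p ≤ d
        · rw [if_pos h]
          refine Subalgebra.mul_mem _ (Algebra.subset_adjoin hp) ?_
          refine ih (d - dg p) ?_ _ (hInv _ _ (hπinv _))
            (MvPolynomial.homogeneousComponent_isHomogeneous _ _)
          have h5 := (hdg p hp).1
          omega
        · rw [if_neg h]
          exact Subalgebra.zero_mem _
  refine ⟨t, le_antisymm ?_ ?_⟩
  · exact Algebra.adjoin_le fun p hp => (htM hp).1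
  · intro F hF
    rw [← MvPolynomial.sum_homogeneousComponent F]
    exact Subalgebra.sum_mem _ fun i _ => claim i _ (hInv i F hF)
      (MvPolynomial.homogeneousComponent_isHomogeneous _ _)

end Pool.Agent.MTF.HI
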