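import Pool.Agent.MTF.K0

namespace Pool.Agent.MTF.KD

open Matrix
open Pool.Agent.MTD Pool.Agent
open Pool.Agent.MP_c45d35_ag (chi UpUni LowUni transfer)
open Pool.Agent.MTF.D1 (Pts Van)

variable {n N : ℕ} {ι : Type} [Fintype ι] {D : Dat n N ι} {κ : Type} [Fintype κ] [DecidableEq κ]

theorem k1a_common {Y : Type} {σ : Type} {X : Y → D.RegX} (v : Y → σ → ℂ) (f : κ → Y → ℂ)
    (hf : ∀ a, ∃ (L : List ι) (P : MvPolynomial (σ ⊕ Fin n) ℂ), ∀ y,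
      (L.map fun β => MvPolynomial.eval (X y).1 (ell D β)).prod * f a y =
        MvPolynomial.eval (Sum.elim (v y) (X y).1) P) (s : Finset κ) :
    ∃ (L : List ι) (Q : κ → MvPolynomial (σ ⊕ Fin n) ℂ), ∀ a ∈ s, ∀ y,
      (L.map fun β => MvPolynomial.eval (X y).1 (ell D β)).prod * f a y =
        MvPolynomial.eval (Sum.elim (v y) (X y).1) (Q a) := by
  have hlist : ∀ L : List ι, ∀ y,
      MvPolynomial.eval (Sum.elim (v y) (X y).1)
        ((L.map fun β => MvPolynomial.rename (Sum.inr : Fin n → σ ⊕ Fin n) (ell D β)).prod) =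
      (L.map fun β => MvPolynomial.eval (X y).1 (ell D β)).prod := by
    intro L y
    induction L with
    | nil => simp
    | cons β L ih =>
      simp only [List.map_cons, List.prod_cons, map_mul, ih, MvPolynomial.eval_rename,
        Sum.elim_comp_inr]
  induction s using Finset.induction_on with
  | empty => exact ⟨[], fun _ => 0, fun a ha => absurd ha (Finset.notMem_empty a)⟩
  | insert a s ha ih =>
    obtain ⟨L, Q, hQ⟩ := ih
    obtain ⟨L', P', hP'⟩ := hf a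
    refine ⟨L' ++ L, fun b => if b = a then
      (L.map fun β => MvPolynomial.rename (Sum.inr : Fin n → σ ⊕ Fin n) (ell D β)).prod * P' else
      (L'.map fun β => MvPolynomial.rename (Sum.inr : Fin n → σ ⊕ Fin n) (ell D β)).prod * Q b,
      fun b hb y => ?_⟩
    rw [List.map_append, List.prod_append]
    by_cases hba : b = a
    · subst hba
      simp only [if_true]
      rw [map_mul, hlist, ← hP']
      ring
    · simp only [if_neg hba]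
      rw [map_mul, hlist, ← hQ b ((Finset.mem_insert.1 hb).resolve_left hba) y]
      ring

/-- the set of the coordinates `Z_β` -/
def k1aS (D : Dat n N ι) : Set (D.RegX × (ι → ℂ) → ℂ) := {f | ∃ β, f = fun y => y.2 β}

theorem k1a_g0 (A : MTXD.Ax D) : ∃ g0 : D.RegX × (ι → ℂ) → Matrix (Fin N) (Fin N) ℂ,
    (∀ y, D.IsG (g0 y)) ∧ (∀ y, g0 y * D.sC y.1.1 = (D.Dx y.1.1 + D.Y y.2) * g0 y) ∧
    ∀ i j, (fun y => g0 y i j) ∈ Rt D (fun y : D.RegX × (ι → ℂ) => y.1) (k1aS D) := by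
  have hex : ∀ y : D.RegX × (ι → ℂ), ∃ u : Matrix (Fin N) (Fin N) ℂ, UpUni u ∧ D.IsG u ∧
      u * D.Dx y.1.1 = (D.Dx y.1.1 + D.Y y.2) * u :=
    fun y => A.exists_u y.1.1 (A.isUnit_reg y.1.2) y.2
  choose u hu1 hu2 hu3 using hex
  refine ⟨fun y => u y * (D.qC y.1.1)⁻¹, fun y => A.mul _ _ (hu2 y) (A.inv _ (A.qC_isG _)), ?_, ?_⟩
  · intro y
    have h1 := A.qC_conj y.1.2
    have h2 : (D.qC y.1.1)⁻¹ * D.sC y.1.1 = D.Dx y.1.1 * (D.qC y.1.1)⁻¹ := by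
      calc (D.qC y.1.1)⁻¹ * D.sC y.1.1
          = (D.qC y.1.1)⁻¹ * (D.sC y.1.1 * D.qC y.1.1) * (D.qC y.1.1)⁻¹ := by
            rw [Matrix.mul_assoc, Matrix.mul_assoc, A.mul_inv (A.qC_isG _), Matrix.mul_one]
        _ = (D.qC y.1.1)⁻¹ * D.qC y.1.1 * D.Dx y.1.1 * (D.qC y.1.1)⁻¹ := by
            rw [← h1, ← Matrix.mul_assoc]
        _ = D.Dx y.1.1 * (D.qC y.1.1)⁻¹ := by
            rw [A.inv_mul (A.qC_isG _), Matrix.one_mul]
    show u y * (D.qC y.1.1)⁻¹ * D.sC y.1.1 = (D.Dx y.1.1 + D.Y y.2) * (u y * (D.qC y.1.1)⁻¹)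
    rw [Matrix.mul_assoc, h2, ← Matrix.mul_assoc, hu3, Matrix.mul_assoc]
  · exact Rt_mul (MTXD.Rt_tri A (fun y : D.RegX × (ι → ℂ) => y.1) (k1aS D) (fun y => y.2)
      (fun β => Rt_of_mem ⟨β, rfl⟩) u hu1 hu2 hu3) (MTXD.Rt_qCinv A _ (k1aS D))

theorem k1a_f (ρ : Matrix κ κ (MvPolynomial (Fin N × Fin N) ℂ)) (P : κ → MvPolynomial (Fin n) ℂ)
    (g0 : D.RegX × (ι → ℂ) → Matrix (Fin N) (Fin N) ℂ)
    (hg0R : ∀ i j, (fun y => g0 y i j) ∈ Rt D (fun y : D.RegX × (ι → ℂ) => y.1) (k1aS D)) (a : κ) :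
    (fun y : D.RegX × (ι → ℂ) => (rM ρ (g0 y)).mulVec (Pv P y.1.1) a) ∈
      Rt D (fun y : D.RegX × (ι → ℂ) => y.1) (k1aS D) := by
  have h1 : (fun y : D.RegX × (ι → ℂ) => (rM ρ (g0 y)).mulVec (Pv P y.1.1) a) =
      ∑ b, (fun y : D.RegX × (ι → ℂ) =>
        MvPolynomial.eval (fun ij : Fin N × Fin N => g0 y ij.1 ij.2) (ρ a b)) *
        fun y : D.RegX × (ι → ℂ) => MvPolynomial.eval y.1.1 (P b) := by
    funext y
    rw [Finset.sum_apply]
    show ∑ b, (rM ρ (g0 y)) a b * Pv P y.1.1 b = _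
    refine Finset.sum_congr rfl fun b _ => ?_
    have h2 : (rM ρ (g0 y)) a b =
        MvPolynomial.eval (fun ij : Fin N × Fin N => g0 y ij.1 ij.2) (ρ a b) := by
      unfold rM mv
      rw [Matrix.map_apply]
      exact congrFun (congrArg DFunLike.coe (MvPolynomial.coe_aeval_eq_eval _)) _
    rw [h2]
    rfl
  rw [h1]
  refine sum_mem fun b _ => mul_mem ?_ ?_
  · exact Rt_poly _ (fun y (ij : Fin N × Fin N) => g0 y ij.1 ij.2) fun ij => hg0R ij.1 ij.2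
  · exact Rt_poly _ (fun y : D.RegX × (ι → ℂ) => y.1.1) (Rt_x _ _)

theorem k1a_unique (A : MTXD.Ax D) {ρ : Matrix κ κ (MvPolynomial (Fin N × Fin N) ℂ)} (hρ : PRep D ρ)
    {P : κ → MvPolynomial (Fin n) ℂ} {f0 : MvPolynomial (Fin n) ℂ} (hP : PInp D ρ P f0)
    {x : Fin n → ℂ} {M : Matrix (Fin N) (Fin N) ℂ} (hx : D.Reg x) (hx0 : MvPolynomial.eval x f0 ≠ 0)
    {g k : Matrix (Fin N) (Fin N) ℂ} (hg : D.IsG g) (hk : D.IsG k) (hgc : g * D.sC x = M * g)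
    (hkc : k * D.sC x = M * k) : (rM ρ g).mulVec (Pv P x) = (rM ρ k).mulVec (Pv P x) := by
  have hki := A.inv _ hk
  have h0 : k⁻¹ * M = D.sC x * k⁻¹ := by
    calc k⁻¹ * M = k⁻¹ * (M * k) * k⁻¹ := by
          rw [Matrix.mul_assoc, Matrix.mul_assoc, A.mul_inv hk, Matrix.mul_one]
      _ = k⁻¹ * (k * D.sC x) * k⁻¹ := by rw [hkc]
      _ = D.sC x * k⁻¹ := by rw [← Matrix.mul_assoc, A.inv_mul hk, Matrix.one_mul]
  have h1 : k⁻¹ * g * D.sC x = D.sC x * (k⁻¹ * g) := by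
    rw [Matrix.mul_assoc, hgc, ← Matrix.mul_assoc, h0, Matrix.mul_assoc]
  have h2 := hP.cent x hx hx0 (k⁻¹ * g) (A.mul _ _ hki hg) h1
  have h3 : k * (k⁻¹ * g) = g := by
    rw [← Matrix.mul_assoc, A.mul_inv hk, Matrix.one_mul]
  have h4 := hρ.mul k (k⁻¹ * g) hk (A.mul _ _ hki hg)
  rw [h3] at h4
  rw [h4, ← Matrix.mulVec_mulVec, h2]

/-- (row K1a) Proof.  `g` is unique up to the centraliser of `D.sC x`: if also `g'` works then `g⁻¹ g'` commutes with `D.sC x` and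
`(rM ρ g').mulVec (Pv P x) = (rM ρ g).mulVec ((rM ρ (g⁻¹ * g')).mulVec (Pv P x)) = (rM ρ g).mulVec (Pv P x)` (`hP.cent`, `hρ.mul`).
Choice of `g`: on `Y := D.RegX × (ι → ℂ)` let `u y` be the matrix of `A.exists_u` with
`u * Dx x = (Dx x + Y Z) * u`, and `g := u y * (D.ueC x)⁻¹ * (D.pC x)⁻¹`; then `g * sC x = (Dx x + Y Z) * g` (`A.pC_conj`,
`A.ueC_conj`).  By `Rt_tri`, `Rt_ueC`, `Rt_pC` and `Rt_adj` (all determinants are `1`, `A.det`), `Rt_mul`, `Rt_poly` the entries of `g`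
and then all `((rM ρ g).mulVec (Pv P x)) a` are in `Rt D (fun y => y.1) S`, `S := {f | ∃ β, f = fun y => y.2 β}`.  `Rt_clear` (for
`v y := y.2`) for each `a`; take the product of the lists for all `a ∈ κ` as common denominator. -/
theorem exists_Q (A : MTXD.Ax D) {ρ : Matrix κ κ (MvPolynomial (Fin N × Fin N) ℂ)} (hρ : PRep D ρ)
    {P : κ → MvPolynomial (Fin n) ℂ} {f0 : MvPolynomial (Fin n) ℂ} (hP : PInp D ρ P f0) :
    ∃ (l : List ι) (Q : κ → MvPolynomial (ι ⊕ Fin n) ℂ), ∀ (x : Fin n → ℂ) (Z : ι → ℂ), D.Reg x →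
      MvPolynomial.eval x f0 ≠ 0 → ∀ g, D.IsG g → g * D.sC x = (D.Dx x + D.Y Z) * g →
      ∀ a, (l.map fun β => ev (D.rt β) x).prod * (rM ρ g).mulVec (Pv P x) a = Qv Q x Z a := by
  obtain ⟨g0, hG, hc, hR⟩ := k1a_g0 (D := D) A
  obtain ⟨L, Q, hQ⟩ := k1a_common (D := D) (X := fun y : D.RegX × (ι → ℂ) => y.1)
    (fun y : D.RegX × (ι → ℂ) => y.2)
    (fun (a : κ) (y : D.RegX × (ι → ℂ)) => (rM ρ (g0 y)).mulVec (Pv P y.1.1) a)
    (fun a => Rt_clear (S := k1aS D) (fun y : D.RegX × (ι → ℂ) => y.2) (fun f hf => hf) _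
      (k1a_f ρ P g0 hR a)) Finset.univ
  refine ⟨L, Q, fun x Z hx hx0 g hg hgc a => ?_⟩
  have hQ1 := hQ a (Finset.mem_univ a) (⟨x, hx⟩, Z)
  rw [k1a_unique A hρ hP hx hx0 hg (hG (⟨x, hx⟩, Z)) hgc (hc (⟨x, hx⟩, Z))]
  have h4 : (L.map fun β => ev (D.rt β) x).prod =
      (L.map fun β => MvPolynomial.eval x (ell D β)).prod := by
    simp only [eval_ell]
  rw [h4]
  exact hQ1

end Pool.Agent.MTF.KD
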