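import Pool.Agent.MTF.K0

namespace Pool.Agent.MTF.KD

open Matrix
open Pool.Agent.MTD Pool.Agent
open Pool.Agent.MP_c45d35_ag (chi UpUni LowUni transfer)
open Pool.Agent.MTF.D1 (Pts Van)

variable {n N : ℕ} {ι : Type} [Fintype ι] {D : Dat n N ι} {κ : Type} [Fintype κ] [DecidableEq κ]

theorem k1b_root {m : ℤ} (hm : m ≠ 0) (c : ℂˣ) : ∃ w : ℂˣ, w ^ m = c := by
  have hnat : ∀ (k : ℕ), k ≠ 0 → ∀ c : ℂˣ, ∃ w : ℂˣ, w ^ k = c := by
    intro k hk c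
    obtain ⟨w, hw⟩ := IsAlgClosed.exists_pow_nat_eq (c : ℂ) (Nat.pos_of_ne_zero hk)
    have hw0 : w ≠ 0 := by
      rintro rfl
      rw [zero_pow hk] at hw
      exact c.ne_zero hw.symm
    exact ⟨Units.mk0 w hw0, by ext; simpa using hw⟩
  obtain ⟨k, hk | hk⟩ := m.eq_nat_or_neg
  · subst hk
    obtain ⟨w, hw⟩ := hnat k (by exact_mod_cast hm) c
    exact ⟨w, by rw [zpow_natCast, hw]⟩
  · subst hk
    obtain ⟨w, hw⟩ := hnat k (by rintro rfl; exact hm (by simp)) c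
    exact ⟨w⁻¹, by rw [_root_.zpow_neg, zpow_natCast, inv_pow, inv_inv, hw]⟩

theorem k1b_chi {μ : Fin n → ℤ} (hμ : μ ≠ 0) (c : ℂˣ) : ∃ t : Fin n → ℂˣ, chi μ t = c := by
  obtain ⟨k, hk⟩ : ∃ k, μ k ≠ 0 := by
    by_contra h
    push Not at h
    exact hμ (funext h)
  obtain ⟨w, hw⟩ := k1b_root hk c
  refine ⟨Function.update 1 k w, ?_⟩
  unfold Pool.Agent.MP_c45d35_ag.chi
  rw [Finset.prod_eq_single k]
  · rw [Function.update_self, hw]
  · intro j _ hj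
    rw [Function.update_of_ne hj, Pi.one_apply, _root_.one_zpow]
  · intro h
    exact absurd (Finset.mem_univ k) h

theorem k1b_upper {A B : Matrix (Fin N) (Fin N) ℂ} (hA : ∀ i j, j < i → A i j = 0)
    (hB : ∀ i j, j < i → B i j = 0) : ∀ i j, j < i → (A * B) i j = 0 := by
  intro i j hij
  rw [Matrix.mul_apply]
  refine Finset.sum_eq_zero fun k _ => ?_
  by_cases hk : k < i
  · rw [hA i k hk, zero_mul]
  · rw [hB k j (lt_of_lt_of_le hij (not_lt.1 hk)), mul_zero]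

/-- (row K1b) At a generic point `x0` of the wall of `β` every `Dx x0 + Y Z` is a limit of conjugates (under upper triangular elements of
the group) of `Dx x0 + e`.  Precisely: for every `Z` there are affine functions `s ↦ Z s` (`Z 0 = Z`) such that for all
but finitely many `s` there is an upper triangular `b ∈ G` with `b * (Dx x0 + e) = (Dx x0 + Y (Z s)) * b`.
Proof.  `A.exists_red x0 {β}` for `Z` gives `u`, `z` with `u * (Dx x0 + Y (single β z)) = (Dx x0 + Y Z) * u`; for `D.ze`: `u₁`, `z₁` with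
`u₁ * (Dx x0 + Y (single β z₁)) = (Dx x0 + e) * u₁`; `z₁ ≠ 0` by `A.nonss` (otherwise `u₁ * Dx x0 = (Dx x0 + e) * u₁`).
For the direction: `u * Y (single β 1) * u⁻¹ = Y V` for some `V` (apply `A.conj u x0` to `Z' = single β (z+1)` and to `single β z` and subtract;
`u * Dx x0 * u⁻¹` cancels).  `Z s := Z + s • V`, `Dx x0 + Y (Z s) = u (Dx x0 + Y (single β (z+s))) u⁻¹`.  For `z + s ≠ 0` choose
`t : Fin n → ℂˣ` with `chi (D.rt β) t = (z+s)/z₁` (possible: `D.rt β ≠ 0` and `ℂ` algebraically closed: one coordinate `k` with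
`rt β k ≠ 0`, a root of order `|rt β k|`), then `Tt t * (Dx x0 + Y (single β z₁)) = (Dx x0 + Y (single β (z+s))) * Tt t` (`A.Tt_Y` or `A.Tt_E`),
`b := u * Tt t * u₁⁻¹`. -/
theorem wall_conj (A : MTXD.Ax D) {β : ι} {x0 : Fin n → ℂ} (hx : D.GenW β x0) (Z : ι → ℂ) :
    ∃ (V : ι → ℂ) (z : ℂ), ∀ s : ℂ, z + s ≠ 0 → ∃ b : Matrix (Fin N) (Fin N) ℂ, D.IsG b ∧
      (∀ i j, j < i → b i j = 0) ∧ b * (D.Dx x0 + D.e) = (D.Dx x0 + D.Y (Z + s • V)) * b := by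
  classical
  have hI : ∀ γ, γ ∉ ({β} : Set ι) → IsUnit (ev (D.rt γ) x0) := fun γ hγ =>
    (hx.2 γ (fun h => hγ (Set.mem_singleton_iff.2 h))).isUnit
  obtain ⟨u, Z', hu, huG, hZ', hE⟩ := A.exists_red x0 {β} hI Z
  obtain ⟨u1, Z1, hu1, hu1G, hZ1, hE1⟩ := A.exists_red x0 {β} hI D.ze
  have hz1 : Z1 β ≠ 0 := by
    intro h0
    have h1 : Z1 = 0 := by
      funext γ
      by_cases hγ : γ = β
      · rw [hγ, h0]; rfl
      · exact hZ1 γ (fun h => hγ (Set.mem_singleton_iff.1 h))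
    apply A.nonss β x0 hx
    refine ⟨u1, by rw [hu1.det]; exact isUnit_one, ?_⟩
    rw [h1, D.Y_zero, add_zero] at hE1
    exact hE1
  set δ : ι → ℂ := Pi.single β 1 with hδ
  obtain ⟨Z2, hZ2⟩ := A.conj u x0 (Z' + δ) huG hu.1
  have hV : u * D.Y δ = D.Y (Z2 - Z) * u := by
    rw [D.Y_sub, Matrix.sub_mul]
    rw [D.Y_add] at hZ2
    simp only [Matrix.mul_add, Matrix.add_mul] at hZ2 hE
    have h1 : u * D.Y δ = (u * D.Dx x0 + (u * D.Y Z' + u * D.Y δ)) - (u * D.Dx x0 + u * D.Y Z') := by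
      abel
    rw [h1, hZ2, hE]
    abel
  have hs : ∀ s : ℂ, u * (D.Dx x0 + D.Y (Z' + s • δ)) = (D.Dx x0 + D.Y (Z + s • (Z2 - Z))) * u := by
    intro s
    rw [D.Y_add, D.Y_smul, D.Y_add, D.Y_smul, ← add_assoc, ← add_assoc, Matrix.mul_add, hE,
      Matrix.add_mul _ (s • D.Y (Z2 - Z)), Matrix.mul_smul, Matrix.smul_mul, hV]
  refine ⟨Z2 - Z, Z' β, fun s hsz => ?_⟩
  have hc : (Z' β + s) / Z1 β ≠ 0 := div_ne_zero hsz hz1
  obtain ⟨t, ht⟩ := k1b_chi (A.ne_zero_rt β) (Units.mk0 _ hc)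
  have hZt : (fun γ => ((chi (D.rt γ) t : ℂˣ) : ℂ) * Z1 γ) = Z' + s • δ := by
    funext γ
    by_cases hγ : γ = β
    · subst hγ
      rw [ht, Units.val_mk0, div_mul_cancel₀ _ hz1, Pi.add_apply, Pi.smul_apply, hδ,
        Pi.single_eq_same, smul_eq_mul, mul_one]
    · have h1 : γ ∉ ({β} : Set ι) := fun h => hγ (Set.mem_singleton_iff.1 h)
      rw [hZ1 γ h1, mul_zero, Pi.add_apply, Pi.smul_apply, hδ, Pi.single_eq_of_ne hγ, hZ' γ h1,
        smul_zero, add_zero]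
  have hT : D.Tt t * (D.Dx x0 + D.Y Z1) = (D.Dx x0 + D.Y (Z' + s • δ)) * D.Tt t := by
    rw [Matrix.mul_add, D.Tt_Dx_comm, A.Tt_Y, hZt, ← Matrix.add_mul]
  have h1 : u1⁻¹ * (D.Dx x0 + D.e) = (D.Dx x0 + D.Y Z1) * u1⁻¹ := by
    have h2 : (D.Dx x0 + D.e) * u1 = u1 * (D.Dx x0 + D.Y Z1) := hE1.symm
    calc u1⁻¹ * (D.Dx x0 + D.e) = u1⁻¹ * ((D.Dx x0 + D.e) * u1) * u1⁻¹ := by
          rw [Matrix.mul_assoc, Matrix.mul_assoc, hu1.mul_inv, Matrix.mul_one]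
      _ = (D.Dx x0 + D.Y Z1) * u1⁻¹ := by
          rw [h2, ← Matrix.mul_assoc, hu1.inv_mul, Matrix.one_mul]
  have hTup : ∀ i j, j < i → (D.Tt t) i j = 0 := by
    intro i j hij
    unfold Dat.Tt
    exact Matrix.diagonal_apply_ne _ (ne_of_gt hij)
  refine ⟨u * D.Tt t * u1⁻¹, A.mul _ _ (A.mul _ _ huG (A.torus t)) (A.inv _ hu1G),
    k1b_upper (k1b_upper hu.1 hTup) hu1.inv.1, ?_⟩
  calc u * D.Tt t * u1⁻¹ * (D.Dx x0 + D.e) = u * D.Tt t * (u1⁻¹ * (D.Dx x0 + D.e)) := by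
        rw [Matrix.mul_assoc]
    _ = u * (D.Tt t * (D.Dx x0 + D.Y Z1)) * u1⁻¹ := by
        rw [h1]; simp only [Matrix.mul_assoc]
    _ = u * (D.Dx x0 + D.Y (Z' + s • δ)) * D.Tt t * u1⁻¹ := by
        rw [hT]; simp only [Matrix.mul_assoc]
    _ = (D.Dx x0 + D.Y (Z + s • (Z2 - Z))) * (u * D.Tt t * u1⁻¹) := by
        rw [hs]; simp only [Matrix.mul_assoc]

end Pool.Agent.MTF.KD
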