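import Pool.Agent.MTF.K0

namespace Pool.Agent.MTF.KD

open Matrix
open Pool.Agent.MTD Pool.Agent
open Pool.Agent.MP_c45d35_ag (chi UpUni LowUni transfer)
open Pool.Agent.MTF.D1 (Pts Van)

variable {n N : ℕ} {ι : Type} [Fintype ι] {D : Dat n N ι} {κ : Type} [Fintype κ] [DecidableEq κ]

private theorem sub_theta (β : ι) (p : MvPolynomial (ι ⊕ Fin n) ℂ) :
    MvPolynomial.rename Sum.inr (ell D β) ∣ p - MvPolynomial.aeval
      (Sum.elim (fun γ => MvPolynomial.X (Sum.inl γ))
        (fun k => MvPolynomial.rename Sum.inr (phiW D β k)) : ι ⊕ Fin n → MvPolynomial (ι ⊕ Fin n) ℂ) p := by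
  induction p using MvPolynomial.induction_on with
  | C a => simp
  | add p q hp hq =>
    rw [map_add]
    have : ∀ a b c d : MvPolynomial (ι ⊕ Fin n) ℂ, a + b - (c + d) = (a - c) + (b - d) := by
      intros; ring
    rw [this]
    exact dvd_add hp hq
  | mul_X p i hp =>
    rw [map_mul, MvPolynomial.aeval_X]
    have hX : MvPolynomial.rename Sum.inr (ell D β) ∣ (MvPolynomial.X i : MvPolynomial (ι ⊕ Fin n) ℂ) -
        Sum.elim (fun γ => MvPolynomial.X (Sum.inl γ))
          (fun k => MvPolynomial.rename Sum.inr (phiW D β k)) i := by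
      rcases i with γ | k
      · simp
      · obtain ⟨q, hq⟩ := phiW_dvd (D := D) β k
        refine ⟨MvPolynomial.rename Sum.inr q, ?_⟩
        rw [← map_mul, ← hq, map_sub, MvPolynomial.rename_X]
        rfl
    have : ∀ a b c d : MvPolynomial (ι ⊕ Fin n) ℂ, a * b - c * d = (a - c) * b + c * (b - d) := by
      intros; ring
    rw [this]
    exact dvd_add (Dvd.dvd.mul_right hp _) (Dvd.dvd.mul_left hX _)

/-- (row K1e) A polynomial on `𝔟` that vanishes at all `(x0, Z)`, `x0` a generic point of the wall of `β`, is divisible by the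
root `β` (`ell D β` of `MTD`, `eval x (ell D β) = ev (D.rt β) x`).
Proof.  Let `Q' := Q * ∏_{γ ≠ β} rename inr (ell D γ)`: it vanishes at all `(x, Z)` with `ev (rt β) x = 0`.  Substitution
`x ↦ x - β(x) cr β / 2` (`MTD.phiW`, see `MTD/Walls.lean`: `aeval (phiW D β) (ell D β) = 0`) kills `Q'` and changes each polynomial by a multiple of
`ell D β`; so `rename inr (ell D β) ∣ Q'`.  `rename inr (ell D β)` is a nonzero linear form, hence prime in
`MvPolynomial (ι ⊕ Fin n) ℂ`, and it divides no `rename inr (ell D γ)`, `γ ≠ β` (`A.rt_indep`: not proportional).  So it divides `Q`. -/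
theorem root_dvd (A : MTXD.Ax D) (β : ι) (Q : MvPolynomial (ι ⊕ Fin n) ℂ)
    (h : ∀ x0, D.GenW β x0 → ∀ Z : ι → ℂ, MvPolynomial.eval (Sum.elim Z x0) Q = 0) :
    MvPolynomial.rename Sum.inr (ell D β) ∣ Q := by
  classical
  set v : ι ⊕ Fin n → MvPolynomial (ι ⊕ Fin n) ℂ := Sum.elim (fun γ => MvPolynomial.X (Sum.inl γ))
    (fun k => MvPolynomial.rename Sum.inr (phiW D β k)) with hv
  -- the value of the substitution
  have hθ : ∀ (p : MvPolynomial (ι ⊕ Fin n) ℂ) (y : ι ⊕ Fin n → ℂ),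
      MvPolynomial.eval y (MvPolynomial.aeval v p) =
      MvPolynomial.eval (Sum.elim (y ∘ Sum.inl)
        (fun k => MvPolynomial.eval (y ∘ Sum.inr) (phiW D β k))) p := by
    intro p y
    rw [← MvPolynomial.coe_aeval_eq_eval y]
    show (MvPolynomial.aeval y) ((MvPolynomial.aeval v) p) = _
    rw [← AlgHom.comp_apply, MvPolynomial.comp_aeval]
    have e5 : (fun i => (MvPolynomial.aeval y : MvPolynomial (ι ⊕ Fin n) ℂ →ₐ[ℂ] ℂ) (v i)) =
        Sum.elim (y ∘ Sum.inl) (fun k => MvPolynomial.eval (y ∘ Sum.inr) (phiW D β k)) := by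
      funext i
      rcases i with γ | k
      · simp [hv]
      · show (MvPolynomial.aeval y) (MvPolynomial.rename Sum.inr (phiW D β k)) = _
        rw [MvPolynomial.aeval_rename]
        rfl
    rw [e5]
    rfl
  have hwall : ∀ x : Fin n → ℂ,
      ev (D.rt β) (fun k => MvPolynomial.eval x (phiW D β k)) = 0 := by
    intro x
    have h1 := phiW_ell A.cr_rt β
    have h2 := congrArg (MvPolynomial.eval x) h1
    rw [map_zero] at h2
    have h3 : MvPolynomial.eval x (MvPolynomial.aeval (phiW D β) (ell D β)) =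
        MvPolynomial.eval (fun k => MvPolynomial.eval x (phiW D β k)) (ell D β) := by
      rw [← MvPolynomial.coe_aeval_eq_eval x]
      show (MvPolynomial.aeval x) ((MvPolynomial.aeval (phiW D β)) (ell D β)) = _
      rw [← AlgHom.comp_apply, MvPolynomial.comp_aeval]
      rfl
    rw [h3, eval_ell] at h2
    exact h2
  have hprod : MvPolynomial.aeval v Q *
      ∏ γ ∈ Finset.univ.erase β, MvPolynomial.aeval v (MvPolynomial.rename Sum.inr (ell D γ)) = 0 := by
    apply MvPolynomial.funext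
    intro y
    rw [map_zero, map_mul, map_prod, hθ]
    set x1 : Fin n → ℂ := fun k => MvPolynomial.eval (y ∘ Sum.inr) (phiW D β k) with hx1
    have e1 : ∀ γ, MvPolynomial.eval y (MvPolynomial.aeval v (MvPolynomial.rename Sum.inr (ell D γ))) =
        ev (D.rt γ) x1 := by
      intro γ
      rw [hθ, MvPolynomial.eval_rename]
      exact eval_ell γ x1
    simp only [e1]
    by_cases hg : ∀ γ, γ ≠ β → ev (D.rt γ) x1 ≠ 0
    · rw [h x1 ⟨hwall _, hg⟩ (y ∘ Sum.inl), zero_mul]
    · push Not at hg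
      obtain ⟨γ, hγ, h0⟩ := hg
      rw [Finset.prod_eq_zero (Finset.mem_erase.2 ⟨hγ, Finset.mem_univ γ⟩) h0, mul_zero]
  have hQ0 : MvPolynomial.aeval v Q = 0 := by
    rcases mul_eq_zero.1 hprod with h0 | h0
    · exact h0
    · exfalso
      rw [Finset.prod_eq_zero_iff] at h0
      obtain ⟨γ, hγ, h1⟩ := h0
      obtain ⟨x0, hx0, -⟩ := MTXD.exists_genM A β ∅
      have h2 := congrArg (MvPolynomial.eval (Sum.elim 0 x0)) h1
      rw [map_zero, hθ, MvPolynomial.eval_rename] at h2
      have h3 : (fun k => MvPolynomial.eval ((Sum.elim 0 x0 : ι ⊕ Fin n → ℂ) ∘ Sum.inr)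
          (phiW D β k)) = x0 := by
        funext k
        have h4 : (Sum.elim 0 x0 : ι ⊕ Fin n → ℂ) ∘ Sum.inr = x0 := rfl
        rw [h4]
        unfold phiW
        rw [map_sub, map_mul, eval_ell, hx0.1]
        simp
      have h5 : (Sum.elim ((Sum.elim 0 x0 : ι ⊕ Fin n → ℂ) ∘ Sum.inl)
          (fun k => MvPolynomial.eval ((Sum.elim 0 x0 : ι ⊕ Fin n → ℂ) ∘ Sum.inr)
          (phiW D β k))) ∘ Sum.inr = x0 := h3
      rw [h5, eval_ell] at h2
      exact hx0.2 γ (Finset.mem_erase.1 hγ).1 h2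
  have h6 := sub_theta (D := D) β Q
  rw [← hv, hQ0, sub_zero] at h6
  exact h6

end Pool.Agent.MTF.KD
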