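import Pool.Agent.MTF.K1a
import Pool.Agent.MTF.K1b
import Pool.Agent.MTF.K1c
import Pool.Agent.MTF.K1d
import Pool.Agent.MTF.K1e

namespace Pool.Agent.MTF.KD

open Matrix
open Pool.Agent.MTD Pool.Agent
open Pool.Agent.MP_c45d35_ag (chi UpUni LowUni transfer)
open Pool.Agent.MTF.D1 (Pts Van)

variable {n N : ℕ} {ι : Type} [Fintype ι] {D : Dat n N ι} {κ : Type} [Fintype κ] [DecidableEq κ]

/-- a polynomial that vanishes on a line outside one point vanishes on the line -/
theorem k1f_line (q : MvPolynomial (ι ⊕ Fin n) ℂ) (x0 : Fin n → ℂ) (Z V : ι → ℂ) (z : ℂ)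
    (h : ∀ s : ℂ, z + s ≠ 0 → MvPolynomial.eval (Sum.elim (Z + s • V) x0) q = 0) :
    MvPolynomial.eval (Sum.elim Z x0) q = 0 := by
  set p : Polynomial ℂ := MvPolynomial.aeval (Sum.elim (fun β => Polynomial.C (Z β) + Polynomial.X * Polynomial.C (V β))
    (fun k => Polynomial.C (x0 k))) q with hp
  have hev : ∀ s : ℂ, Polynomial.eval s p = MvPolynomial.eval (Sum.elim (Z + s • V) x0) q := by
    intro s
    have h1 : (Polynomial.evalRingHom s).comp (MvPolynomial.aeval (Sum.elim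
        (fun β => Polynomial.C (Z β) + Polynomial.X * Polynomial.C (V β))
        (fun k => Polynomial.C (x0 k)))).toRingHom = MvPolynomial.eval (Sum.elim (Z + s • V) x0) := by
      apply MvPolynomial.ringHom_ext
      · intro a
        simp [MvPolynomial.algHom_C]
      · rintro (β | k)
        · simp
          exact mul_comm _ _
        · simp
    exact DFunLike.congr_fun h1 q
  have h0 : p = 0 := by
    apply Polynomial.eq_zero_of_infinite_isRoot
    refine Set.Infinite.mono (s := {s : ℂ | s ≠ -z}) ?_ ?_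
    · intro s hs
      show Polynomial.eval s p = 0
      rw [hev]
      refine h s fun h2 => hs ?_
      linear_combination h2
    · exact (Set.finite_singleton (-z)).infinite_compl
  have h2 := hev 0
  rw [h0, Polynomial.eval_zero, zero_smul, add_zero] at h2
  exact h2.symm

theorem k1f_ind (A : MTXD.Ax D) {ρ : Matrix κ κ (MvPolynomial (Fin N × Fin N) ℂ)} (hρ : PRep D ρ)
    {P : κ → MvPolynomial (Fin n) ℂ} {f0 : MvPolynomial (Fin n) ℂ} (hP : PInp D ρ P f0) (l : List ι) :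
    ∀ Q : κ → MvPolynomial (ι ⊕ Fin n) ℂ, (∀ (x : Fin n → ℂ) (Z : ι → ℂ), D.Reg x →
      MvPolynomial.eval x f0 ≠ 0 → ∀ g, D.IsG g → g * D.sC x = (D.Dx x + D.Y Z) * g →
      ∀ a, (l.map fun β => ev (D.rt β) x).prod * (rM ρ g).mulVec (Pv P x) a = Qv Q x Z a) →
    ∃ Q : κ → MvPolynomial (ι ⊕ Fin n) ℂ, ∀ (x : Fin n → ℂ) (Z : ι → ℂ), D.Reg x →
      MvPolynomial.eval x f0 ≠ 0 → ∀ g, D.IsG g → g * D.sC x = (D.Dx x + D.Y Z) * g →
      (rM ρ g).mulVec (Pv P x) = Qv Q x Z := by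
  induction l with
  | nil =>
    intro Q hQ
    refine ⟨Q, fun x Z hx hf g hg h => ?_⟩
    funext a
    have h1 := hQ x Z hx hf g hg h a
    rw [List.map_nil, List.prod_nil, one_mul] at h1
    exact h1
  | cons β l ih =>
    intro Q hQ
    have hz : ∀ x0, D.GenW β x0 → ∀ (Z : ι → ℂ) (a : κ), MvPolynomial.eval (Sum.elim Z x0) (Q a) = 0 := by
      intro x0 hx0 Z a
      obtain ⟨V, z, hV⟩ := wall_conj A hx0 Z
      refine k1f_line (Q a) x0 Z V z fun s hs => ?_
      obtain ⟨b, hb, hbu, hbe⟩ := hV s hs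
      have h1 := equivQ A hρ hP (β :: l) Q hQ b hb hbu x0 D.ze (Z + s • V) hbe
      have h2 := Q_at_e A hρ hP (β :: l) Q hQ x0
      rw [List.map_cons, List.prod_cons, hx0.1, zero_mul, zero_smul] at h2
      rw [h2, Matrix.mulVec_zero] at h1
      exact congrFun h1 a
    have hd : ∀ a, MvPolynomial.rename Sum.inr (ell D β) ∣ Q a := fun a =>
      root_dvd A β (Q a) fun x0 hx0 Z => hz x0 hx0 Z a
    choose Q' hQ' using hd
    refine ih Q' fun x Z hx hf g hg h a => ?_
    have h1 := hQ x Z hx hf g hg h a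
    have h2 : Qv Q x Z a = ev (D.rt β) x * Qv Q' x Z a := by
      show MvPolynomial.eval (Sum.elim Z x) (Q a) = ev (D.rt β) x * MvPolynomial.eval (Sum.elim Z x) (Q' a)
      rw [hQ' a, map_mul, MvPolynomial.eval_rename, Sum.elim_comp_inr, eval_ell]
    rw [List.map_cons, List.prod_cons, h2, mul_assoc] at h1
    exact mul_left_cancel₀ (hx β) h1

/-- (row K1f) No denominators.  Proof.  Induction on the length of the list `l` in `exists_Q`: if `l = β :: l'` (up to permutation any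
`β ∈ l`), then `Qv Q x0 Z = 0` for all generic `x0` of the wall of `β` and all `Z`: by `wall_conj` and `equivQ` (with `Z := D.ze`, note `D.e = D.Y D.ze`),
`Q_at_e`: `Qv Q x0 (Z + s • V) = ρ(b) (Qv Q x0 D.ze) = 0` for `z + s ≠ 0`; the left side is polynomial in `s`, so it vanishes at
`s = 0`.  By `root_dvd` `Q a = rename inr (ell D β) * Q' a`, and `Q'` satisfies the identity with `l'` (cancel `ev (rt β) x ≠ 0`). -/
theorem exists_Pb (A : MTXD.Ax D) {ρ : Matrix κ κ (MvPolynomial (Fin N × Fin N) ℂ)} (hρ : PRep D ρ)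
    {P : κ → MvPolynomial (Fin n) ℂ} {f0 : MvPolynomial (Fin n) ℂ} (hP : PInp D ρ P f0) :
    ∃ Q : κ → MvPolynomial (ι ⊕ Fin n) ℂ, ∀ (x : Fin n → ℂ) (Z : ι → ℂ), D.Reg x →
      MvPolynomial.eval x f0 ≠ 0 → ∀ g, D.IsG g → g * D.sC x = (D.Dx x + D.Y Z) * g →
      (rM ρ g).mulVec (Pv P x) = Qv Q x Z := by
  obtain ⟨l, Q, hQ⟩ := exists_Q A hρ hP
  exact k1f_ind A hρ hP l Q hQ

end Pool.Agent.MTF.KD
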