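import Pool.Agent.MTF.Stmt

/-!
# MTF : regular functions with coefficients in a field `K` over `ℂ`

`H.KO K` : the `K`-span of the regular functions inside `H.X → K`.
-/

namespace Pool.Agent.MTF

namespace AffGrp

variable (H : AffGrp) (K : Type) [Field K] [Algebra ℂ K]

/-- The regular functions on `H` with coefficients in `K`. -/
def KO : Subalgebra K (H.X → K) where
  carrier := {F | ∃ (n : ℕ) (c : Fin n → K) (f : Fin n → H.O),
    ∀ x, F x = ∑ i, c i * algebraMap ℂ K ((f i).1 x)}
  mul_mem' := by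
    rintro F F' ⟨n, c, f, h⟩ ⟨n', c', f', h'⟩
    refine ⟨n * n', fun k => c (finProdFinEquiv.symm k).1 * c' (finProdFinEquiv.symm k).2,
      fun k => f (finProdFinEquiv.symm k).1 * f' (finProdFinEquiv.symm k).2, fun x => ?_⟩
    rw [Pi.mul_apply, h, h', Finset.sum_mul_sum, ← Equiv.sum_comp finProdFinEquiv,
      Fintype.sum_prod_type]
    refine Finset.sum_congr rfl fun k _ => Finset.sum_congr rfl fun l _ => ?_
    simp only [Equiv.symm_apply_apply]
    show _ = _ * algebraMap ℂ K ((f k).1 x * (f' l).1 x)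
    rw [map_mul]
    ring
  add_mem' := by
    rintro F F' ⟨n, c, f, h⟩ ⟨n', c', f', h'⟩
    refine ⟨n + n', Fin.append c c', Fin.append f f', fun x => ?_⟩
    rw [Fin.sum_univ_add]
    simp only [Fin.append_left, Fin.append_right]
    rw [← h, ← h']
    rfl
  algebraMap_mem' := by
    intro a
    refine ⟨1, fun _ => a, fun _ => 1, fun x => ?_⟩
    simp only [Finset.univ_unique, Finset.sum_singleton]
    show a = a * algebraMap ℂ K 1
    rw [map_one, mul_one]

variable {H K}

theorem KO_rep (F : H.KO K) : ∃ (n : ℕ) (c : Fin n → K) (f : Fin n → H.O),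
    ∀ x, F.1 x = ∑ i, c i * algebraMap ℂ K ((f i).1 x) := F.2

theorem KO_ext {F F' : H.KO K} (h : ∀ x, F.1 x = F'.1 x) : F = F' := Subtype.ext (funext h)

theorem KO_zero (x : H.X) : (0 : H.KO K).1 x = 0 := rfl
theorem KO_one (x : H.X) : (1 : H.KO K).1 x = 1 := rfl
theorem KO_add (F F' : H.KO K) (x : H.X) : (F + F').1 x = F.1 x + F'.1 x := rfl
theorem KO_sub (F F' : H.KO K) (x : H.X) : (F - F').1 x = F.1 x - F'.1 x := rfl
theorem KO_neg (F : H.KO K) (x : H.X) : (-F).1 x = -F.1 x := rfl
theorem KO_mul (F F' : H.KO K) (x : H.X) : (F * F').1 x = F.1 x * F'.1 x := rfl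
theorem KO_smul (a : K) (F : H.KO K) (x : H.X) : (a • F).1 x = a * F.1 x := rfl

theorem KO_sum {κ : Type} (s : Finset κ) (F : κ → H.KO K) (x : H.X) :
    (∑ i ∈ s, F i).1 x = ∑ i ∈ s, (F i).1 x := by
  classical
  induction s using Finset.induction_on with
  | empty => simp [KO_zero]
  | insert a s ha ih => rw [Finset.sum_insert ha, Finset.sum_insert ha, KO_add, ih]

theorem KO_prod {κ : Type} (s : Finset κ) (F : κ → H.KO K) (x : H.X) :
    (∏ i ∈ s, F i).1 x = ∏ i ∈ s, (F i).1 x := by
  classical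
  induction s using Finset.induction_on with
  | empty => simp [KO_one]
  | insert a s ha ih => rw [Finset.prod_insert ha, Finset.prod_insert ha, KO_mul, ih]

variable (K) in
/-- a regular function as an element of `KO` -/
noncomputable def inc (f : H.O) : H.KO K :=
  ⟨fun x => algebraMap ℂ K (f.1 x), 1, fun _ => 1, fun _ => f, fun x => by simp⟩

theorem inc_apply (f : H.O) (x : H.X) : (inc K f).1 x = algebraMap ℂ K (f.1 x) := rfl

/-- every element is a `K`-combination of regular functions -/
theorem KO_eq_sum (F : H.KO K) : ∃ (n : ℕ) (c : Fin n → K) (f : Fin n → H.O),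
    F = ∑ i, c i • inc K (f i) := by
  obtain ⟨n, c, f, h⟩ := KO_rep F
  refine ⟨n, c, f, KO_ext fun x => ?_⟩
  rw [h, KO_sum]
  rfl

/-- Linear disjointness. -/
theorem ext_aux (φ : Module.Dual ℂ H.O) {n : ℕ} (c : Fin n → K) (f : Fin n → H.O)
    (h : ∀ x, ∑ i, c i * algebraMap ℂ K ((f i).1 x) = 0) :
    ∑ i, c i * algebraMap ℂ K (φ (f i)) = 0 := by
  rw [← Module.forall_dual_apply_eq_zero_iff ℂ]
  intro g
  have h1 : ∀ x, ∑ i, g (c i) * (f i).1 x = 0 := by
    intro x
    have := congrArg g (h x)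
    rw [map_sum, map_zero] at this
    rw [← this]
    refine Finset.sum_congr rfl fun i _ => ?_
    rw [mul_comm (c i), ← Algebra.smul_def, map_smul, smul_eq_mul, mul_comm]
  have h2 : ∑ i, g (c i) • f i = 0 := by
    apply Subtype.ext
    funext x
    have := h1 x
    simpa [Finset.sum_apply] using this
  have h3 := congrArg φ h2
  rw [map_sum, map_zero] at h3
  rw [map_sum, ← h3]
  refine Finset.sum_congr rfl fun i _ => ?_
  rw [mul_comm (c i), ← Algebra.smul_def, map_smul, smul_eq_mul, map_smul, smul_eq_mul, mul_comm]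

/-- value of the extended functional -/
noncomputable def extFun (φ : Module.Dual ℂ H.O) (F : H.KO K) : K :=
  ∑ i, (KO_rep F).choose_spec.choose i *
    algebraMap ℂ K (φ ((KO_rep F).choose_spec.choose_spec.choose i))

theorem extFun_eq (φ : Module.Dual ℂ H.O) (F : H.KO K) {n : ℕ} (c : Fin n → K) (f : Fin n → H.O)
    (h : ∀ x, F.1 x = ∑ i, c i * algebraMap ℂ K ((f i).1 x)) :
    extFun φ F = ∑ i, c i * algebraMap ℂ K (φ (f i)) := by
  have h0 := (KO_rep F).choose_spec.choose_spec.choose_spec
  have h1 := ext_aux φ (Fin.append (KO_rep F).choose_spec.choose (fun i => - c i))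
    (Fin.append (KO_rep F).choose_spec.choose_spec.choose f) (by
      intro x
      rw [Fin.sum_univ_add]
      simp only [Fin.append_left, Fin.append_right]
      rw [← h0 x, h x]
      simp [neg_mul])
  rw [Fin.sum_univ_add] at h1
  simp only [Fin.append_left, Fin.append_right, neg_mul, Finset.sum_neg_distrib] at h1
  unfold extFun
  linear_combination h1

variable (K) in
/-- The `K`-linear extension of a linear functional on the regular functions. -/
noncomputable def ext (φ : Module.Dual ℂ H.O) : H.KO K →ₗ[K] K where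
  toFun := extFun φ
  map_add' F F' := by
    obtain ⟨n, c, f, h⟩ := KO_rep F
    obtain ⟨n', c', f', h'⟩ := KO_rep F'
    rw [extFun_eq φ F c f h, extFun_eq φ F' c' f' h',
      extFun_eq φ (F + F') (Fin.append c c') (Fin.append f f') (by
        intro x
        rw [Fin.sum_univ_add]
        simp only [Fin.append_left, Fin.append_right]
        rw [← h, ← h']
        rfl), Fin.sum_univ_add]
    simp only [Fin.append_left, Fin.append_right]
  map_smul' a F := by
    obtain ⟨n, c, f, h⟩ := KO_rep F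
    rw [extFun_eq φ F c f h, extFun_eq φ (a • F) (fun i => a * c i) f (by
        intro x
        rw [KO_smul, h, Finset.mul_sum]
        refine Finset.sum_congr rfl fun i _ => by ring), RingHom.id_apply, smul_eq_mul,
      Finset.mul_sum]
    refine Finset.sum_congr rfl fun i _ => by ring

theorem ext_apply (φ : Module.Dual ℂ H.O) (F : H.KO K) {n : ℕ} (c : Fin n → K) (f : Fin n → H.O)
    (h : ∀ x, F.1 x = ∑ i, c i * algebraMap ℂ K ((f i).1 x)) :
    ext K φ F = ∑ i, c i * algebraMap ℂ K (φ (f i)) := extFun_eq φ F c f h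

theorem ext_inc (φ : Module.Dual ℂ H.O) (f : H.O) :
    ext K φ (inc K f) = algebraMap ℂ K (φ f) := by
  rw [ext_apply φ (inc K f) (n := 1) (fun _ => 1) (fun _ => f) (fun x => by simp [inc_apply])]
  simp

/-- two `K`-linear maps that agree on the regular functions are equal -/
theorem KO_hom_ext {M : Type} [AddCommGroup M] [Module K M] {u v : H.KO K →ₗ[K] M}
    (h : ∀ f : H.O, u (inc K f) = v (inc K f)) : u = v := by
  apply LinearMap.ext
  intro F
  obtain ⟨n, c, f, rfl⟩ := KO_eq_sum F
  rw [map_sum, map_sum]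
  refine Finset.sum_congr rfl fun i _ => by rw [map_smul, map_smul, h]

variable {H' : AffGrp}

variable (K) in
/-- The `K`-linear extension of a linear map between regular functions. -/
noncomputable def lift (φ : H.O →ₗ[ℂ] H'.O) : H.KO K →ₗ[K] H'.KO K where
  toFun F := ⟨fun y => ext K ({ toFun := fun f => (φ f).1 y
                                map_add' := fun f g => by rw [map_add]; rfl
                                map_smul' := fun c f => by rw [map_smul]; rfl } : Module.Dual ℂ H.O) F, by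
    obtain ⟨n, c, f, h⟩ := KO_rep F
    exact ⟨n, c, fun i => φ (f i), fun y => ext_apply _ F c f h⟩⟩
  map_add' F F' := KO_ext fun y => by
    rw [KO_add]
    exact map_add _ F F'
  map_smul' a F := KO_ext fun y => by
    rw [RingHom.id_apply, KO_smul]
    exact map_smul _ a F

theorem lift_apply (φ : H.O →ₗ[ℂ] H'.O) (F : H.KO K) {n : ℕ} (c : Fin n → K) (f : Fin n → H.O)
    (h : ∀ x, F.1 x = ∑ i, c i * algebraMap ℂ K ((f i).1 x)) (y : H'.X) :
    (lift K φ F).1 y = ∑ i, c i * algebraMap ℂ K ((φ (f i)).1 y) := ext_apply _ F c f h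

theorem lift_inc (φ : H.O →ₗ[ℂ] H'.O) (f : H.O) : lift K φ (inc K f) = inc K (φ f) :=
  KO_ext fun _ => ext_inc _ f

variable (K) in
/-- Composition with a morphism of varieties `H' → H`. -/
def comp (π : H'.X → H.X) (hπ : ∀ f ∈ H.O, (fun y => f (π y)) ∈ H'.O) : H.KO K →ₐ[K] H'.KO K where
  toFun F := ⟨fun y => F.1 (π y), by
    obtain ⟨n, c, f, h⟩ := KO_rep F
    exact ⟨n, c, fun i => ⟨_, hπ (f i).1 (f i).2⟩, fun y => h (π y)⟩⟩
  map_one' := rfl
  map_mul' _ _ := rfl
  map_zero' := rfl
  map_add' _ _ := rfl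
  commutes' _ := rfl

theorem comp_apply (π : H'.X → H.X) (hπ) (F : H.KO K) (y : H'.X) :
    (comp K π hπ F).1 y = F.1 (π y) := rfl

variable (K) in
/-- The derivative along a left invariant vector field, `K`-linearly extended. -/
noncomputable def derK (D : H.Lie) : H.KO K →ₗ[K] H.KO K := lift K (H.der D)

theorem derK_inc (D : H.Lie) (f : H.O) : derK K D (inc K f) = inc K (H.der D f) := lift_inc _ f

theorem inc_mul (f g : H.O) : inc K (f * g) = inc K f * inc K g :=
  KO_ext fun x => map_mul (algebraMap ℂ K) (f.1 x) (g.1 x)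

theorem derK_leib (D : H.Lie) (F F' : H.KO K) :
    derK K D (F * F') = F * derK K D F' + F' * derK K D F := by
  obtain ⟨n, c, f, rfl⟩ := KO_eq_sum F
  obtain ⟨n', c', f', rfl⟩ := KO_eq_sum F'
  have hinc : ∀ f g : H.O, inc K (f + g) = inc K f + inc K g := fun f g =>
    KO_ext fun x => map_add (algebraMap ℂ K) (f.1 x) (g.1 x)
  simp only [Finset.sum_mul_sum, map_sum, smul_mul_smul_comm, map_smul, ← inc_mul, derK_inc,
    der_leib, hinc, smul_add, Finset.sum_add_distrib]
  congr 1
  rw [Finset.sum_comm]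
  refine Finset.sum_congr rfl fun i _ => Finset.sum_congr rfl fun j _ => ?_
  rw [mul_comm (c j)]

/-- `F ↦ (y ↦ F (x y))` -/
def ltK (x : H.X) : H.KO K →ₐ[K] H.KO K := comp K (fun y => x * y) fun _ hf => H.left_mem x hf

/-- `F ↦ (y ↦ F (y x))` -/
def rtK (x : H.X) : H.KO K →ₐ[K] H.KO K := comp K (fun y => y * x) fun _ hf => H.right_mem x hf

theorem derK_apply (D : H.Lie) (F : H.KO K) (x : H.X) :
    (derK K D F).1 x = ext K D.1 (ltK x F) := by
  obtain ⟨n, c, f, rfl⟩ := KO_eq_sum F
  simp only [map_sum, map_smul, derK_inc, KO_sum, KO_smul, inc_apply]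
  refine Finset.sum_congr rfl fun i _ => ?_
  have : ltK x (inc K (f i)) = inc K (H.lt x (f i)) := rfl
  rw [this, ext_inc]
  rfl

/-- left translations commute with the left invariant vector fields -/
theorem derK_ltK (D : H.Lie) (x : H.X) (F : H.KO K) :
    derK K D (ltK x F) = ltK x (derK K D F) := by
  apply KO_ext
  intro y
  show _ = (derK K D F).1 (x * y)
  rw [derK_apply, derK_apply]
  congr 1
  apply KO_ext
  intro z
  show F.1 (x * (y * z)) = F.1 (x * y * z)
  rw [mul_assoc]

variable (H) in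
/-- A semilinear action on the coefficients. -/
def mapK (σ : K →ₐ[ℂ] K) : H.KO K →+* H.KO K where
  toFun F := ⟨fun x => σ (F.1 x), by
    obtain ⟨n, c, f, h⟩ := KO_rep F
    refine ⟨n, fun i => σ (c i), f, fun x => ?_⟩
    show σ (F.1 x) = _
    rw [h, map_sum]
    refine Finset.sum_congr rfl fun i _ => by rw [map_mul, AlgHom.commutes]⟩
  map_one' := KO_ext fun x => map_one σ
  map_mul' F F' := KO_ext fun x => map_mul σ (F.1 x) (F'.1 x)
  map_zero' := KO_ext fun x => map_zero σ
  map_add' F F' := KO_ext fun x => map_add σ (F.1 x) (F'.1 x)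

theorem mapK_apply (σ : K →ₐ[ℂ] K) (F : H.KO K) (x : H.X) : (H.mapK σ F).1 x = σ (F.1 x) := rfl

theorem ext_mapK (φ : Module.Dual ℂ H.O) (σ : K →ₐ[ℂ] K) (F : H.KO K) :
    ext K φ (H.mapK σ F) = σ (ext K φ F) := by
  obtain ⟨n, c, f, h⟩ := KO_rep F
  rw [ext_apply φ F c f h, ext_apply φ (H.mapK σ F) (fun i => σ (c i)) f (fun x => by
    rw [mapK_apply, h, map_sum]
    refine Finset.sum_congr rfl fun i _ => by rw [map_mul, AlgHom.commutes]), map_sum]
  refine Finset.sum_congr rfl fun i _ => by rw [map_mul, AlgHom.commutes]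

theorem derK_mapK (D : H.Lie) (σ : K →ₐ[ℂ] K) (F : H.KO K) :
    derK K D (H.mapK σ F) = H.mapK σ (derK K D F) := by
  apply KO_ext
  intro x
  rw [mapK_apply, derK_apply, derK_apply, ← ext_mapK]
  rfl

end AffGrp

end Pool.Agent.MTF
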