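import Pool.Agent.MTF.LDef

set_option linter.unusedSectionVars false

/-!
# [MTF-LA1] the operator Dav on K
-/

namespace Pool.Agent.MTF.LP

open AffGrp

section
variable {G : AffGrp} {K W X : Type} [Field K] [Algebra ℂ K] [Group W] [Fintype W]
  [MulSemiringAction W K] [SMulCommClass W ℂ K] [AddCommGroup X] [DistribMulAction W X]
variable {L L' : Type} [Finite L] [DecidableEq L] [Finite L'] [DecidableEq L']
variable {Q : TQD G K W X}

/-- [MTF-LA1] PROOF. `smul_add`, `mul_add`, `Finset.sum_add_distrib`. -/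
theorem Dav_add (l : X) (x y : K) : Q.Dav l (x + y) = Q.Dav l x + Q.Dav l y := by
  unfold TQD.Dav
  rw [← mul_add, ← Finset.sum_add_distrib]
  congr 1
  refine Finset.sum_congr rfl fun w _ => ?_
  split_ifs
  · rw [smul_add, mul_add]
  · rw [add_zero]

/-- [MTF-LA1] `Dav` as an additive map -/
noncomputable def DavA (Q : TQD G K W X) (l : X) : K →+ K where
  toFun x := Q.Dav l x
  map_zero' := by
    have := Dav_add (Q := Q) l 0 0
    rw [add_zero] at this
    exact left_eq_add.1 this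
  map_add' := Dav_add l

/-- [MTF-LA1] PROOF. `map_sum (DavA Q l)`. -/
theorem Dav_sum (l : X) {κ : Type} (t : Finset κ) (f : κ → K) :
    Q.Dav l (∑ i ∈ t, f i) = ∑ i ∈ t, Q.Dav l (f i) := by
  show (DavA Q l) (∑ i ∈ t, f i) = ∑ i ∈ t, (DavA Q l) (f i)
  rw [map_sum]

/-- [MTF-LA1] PROOF. `w • (a * x) = (w • a) * (w • x)` (`smul_mul'`), and `w • a = a` in the nonzero terms. -/
theorem Dav_mul (l : X) {a : K} (ha : InvK W l a) (x : K) : Q.Dav l (a * x) = a * Q.Dav l x := by
  unfold TQD.Dav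
  rw [mul_left_comm a (Q.Δ l)⁻¹, Finset.mul_sum _ _ a]
  refine congrArg (fun z => (Q.Δ l)⁻¹ * z) (Finset.sum_congr rfl fun w _ => ?_)
  split_ifs with h
  · rw [smul_mul', ha w h]
    ring
  · rw [mul_zero]

/-- [MTF-LA1] values are invariant. PROOF. For `v • l = l`: `v • Δ⁻¹ = sg(v) Δ⁻¹` (`Δ_w`, `smul_inv''`; `sg v ^ 2 = 1`),
`v • ∑_w [w l = l] sg(w) (w • x) = ∑_w [w l = l] sg(w) ((v w) • x)`, substitute `w ↦ v⁻¹ w` (`Fintype.sum_equiv (Equiv.mulLeft v)`):
`= sg(v) ∑ [w l = l] sg(w) (w • x)`. The factors `((sg w : ℤ) : K)` are fixed by `v` (`smul_intCast` or `map_intCast` of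
`MulSemiringAction.toRingHom`). -/
theorem Dav_inv (hT : TQ Q) (l : X) (x : K) : InvK W l (Q.Dav l x) := by
  classical
  intro v hv
  have hsg : ∀ w : W, ((Q.sg w : ℤ) : K) * ((Q.sg w : ℤ) : K) = 1 := by
    intro w
    rw [← Int.cast_mul, ← Units.val_mul, Int.units_mul_self, Units.val_one, Int.cast_one]
  have hint : ∀ (w : W) (n : ℤ), w • (n : K) = n := by
    intro w n
    exact map_intCast (MulSemiringAction.toRingHom W K w) n
  have hΔ : v • (Q.Δ l)⁻¹ = ((Q.sg v : ℤ) : K) * (Q.Δ l)⁻¹ := by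
    rw [smul_inv'', hT.Δ_w v l hv, mul_inv]
    congr 1
    exact inv_eq_of_mul_eq_one_left (hsg v)
  have hsum : v • (∑ w : W, if w • l = l then ((Q.sg w : ℤ) : K) * (w • x) else 0) =
      ((Q.sg v : ℤ) : K) * ∑ w : W, if w • l = l then ((Q.sg w : ℤ) : K) * (w • x) else 0 := by
    rw [Finset.smul_sum, Finset.mul_sum]
    refine Fintype.sum_equiv (Equiv.mulLeft v) _ _ fun w => ?_
    show v • (if w • l = l then ((Q.sg w : ℤ) : K) * (w • x) else 0) =
      ((Q.sg v : ℤ) : K) * if (v * w) • l = l then ((Q.sg (v * w) : ℤ) : K) * ((v * w) • x) else 0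
    have hiff : (v * w) • l = l ↔ w • l = l := by
      rw [mul_smul]
      constructor
      · intro h
        exact smul_left_cancel v (h.trans hv.symm)
      · intro h
        rw [h, hv]
    by_cases h : w • l = l
    · rw [if_pos h, if_pos (hiff.2 h), smul_mul', hint, hT.sg_mul, mul_smul, Units.val_mul,
        Int.cast_mul]
      linear_combination (-((Q.sg w : ℤ) : K) * (v • w • x)) * hsg v
    · rw [if_neg h, if_neg (fun h' => h (hiff.1 h')), smul_zero, mul_zero]
  unfold TQD.Dav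
  rw [smul_mul', hΔ, hsum]
  linear_combination ((Q.Δ l)⁻¹ * ∑ w : W, if w • l = l then ((Q.sg w : ℤ) : K) * (w • x) else 0) *
    hsg v

end

end Pool.Agent.MTF.LP
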