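import Pool.Agent.MTF.LA1

set_option linter.unusedSectionVars false

/-!
# [MTF-LA2] dual bases, averages of products
-/

namespace Pool.Agent.MTF.LP

open AffGrp

section
variable {G : AffGrp} {K W X : Type} [Field K] [Algebra ℂ K] [Group W] [Fintype W]
  [MulSemiringAction W K] [SMulCommClass W ℂ K] [AddCommGroup X] [DistribMulAction W X]
variable {L L' : Type} [Finite L] [DecidableEq L] [Finite L'] [DecidableEq L']
variable {Q : TQD G K W X}

/-- [MTF-LA2] dual bases. PROOF. `a, b` from `hT.db l`.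
`∑ a_i Dav (b_i x) = Δ⁻¹ ∑_w [w l = l] sg(w) (∑_i a_i (w • b_i)) (w • x)`, only `w = 1` remains, and gives `Δ⁻¹ Δ x`. -/
theorem Dav_db (hT : TQ Q) (l : X) : ∃ (n : ℕ) (a b : Fin n → K), (∀ i, a i ∈ Q.A) ∧
    (∀ i, b i ∈ Q.A) ∧ ∀ x, ∑ i, a i * Q.Dav l (b i * x) = x := by
  classical
  obtain ⟨n, a, b, ha, hb, h1, h2⟩ := hT.db l
  refine ⟨n, a, b, ha, hb, fun x => ?_⟩
  have h3 : ∀ i, a i * Q.Dav l (b i * x) = (Q.Δ l)⁻¹ * ∑ w : W, if w • l = l then
      ((Q.sg w : ℤ) : K) * (w • x) * (a i * (w • b i)) else 0 := by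
    intro i
    unfold TQD.Dav
    rw [mul_left_comm, Finset.mul_sum]
    congr 1
    refine Finset.sum_congr rfl fun w _ => ?_
    by_cases hw : w • l = l
    · rw [if_pos hw, if_pos hw, smul_mul']
      ring
    · rw [if_neg hw, if_neg hw, mul_zero]
  rw [Finset.sum_congr rfl fun i _ => h3 i, ← Finset.mul_sum, Finset.sum_comm]
  have h4 : ∀ w : W, (∑ i, if w • l = l then
      ((Q.sg w : ℤ) : K) * (w • x) * (a i * (w • b i)) else 0) =
      if w = 1 then x * Q.Δ l else 0 := by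
    intro w
    by_cases hw1 : w = 1
    · subst hw1
      rw [if_pos rfl]
      have h5 : ∀ i, (if (1 : W) • l = l then ((Q.sg 1 : ℤ) : K) * ((1 : W) • x) *
          (a i * ((1 : W) • b i)) else 0) = x * (a i * b i) := by
        intro i
        rw [if_pos (one_smul W l), one_smul, one_smul, hT.sg_one]
        simp
      rw [Finset.sum_congr rfl fun i _ => h5 i, ← Finset.mul_sum, h1]
    · rw [if_neg hw1]
      by_cases hw : w • l = l
      · simp only [if_pos hw]
        rw [← Finset.mul_sum, h2 w hw hw1, mul_zero]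
      · simp only [if_neg hw]
        exact Finset.sum_const_zero
  rw [Finset.sum_congr rfl fun w _ => h4 w, Finset.sum_ite_eq' Finset.univ (1 : W) fun _ => x * Q.Δ l,
    if_pos (Finset.mem_univ _), mul_comm x, ← mul_assoc, inv_mul_cancel₀ (hT.Δ_ne l), one_mul]

/-- [MTF-LA2] PROOF. `c₀ = (card {w // w • l = l} : ℂ)⁻¹ • Δ_l`. For invariant `x`:
`Dav (c₀ x) = Δ⁻¹ ∑_{w ∈ W_l} sg(w) n⁻¹ sg(w) Δ x = x` (`sg(w)² = 1`; `n ≠ 0` because `1 ∈ W_l`, and `K` is a `ℂ`-algebra, so of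
characteristic zero; `algebraMap ℂ K`, `Nat.cast`). -/
theorem Dav_c0 (hT : TQ Q) (l : X) : ∃ c ∈ Q.A, ∀ x, InvK W l x → Q.Dav l (c * x) = x := by
  classical
  have hne : (Finset.univ.filter fun w : W => w • l = l).Nonempty :=
    ⟨1, Finset.mem_filter.2 ⟨Finset.mem_univ _, one_smul W l⟩⟩
  have hc : ((Finset.univ.filter fun w : W => w • l = l).card : ℂ) ≠ 0 := by
    exact_mod_cast hne.card_pos.ne'
  refine ⟨((Finset.univ.filter fun w : W => w • l = l).card : ℂ)⁻¹ • Q.Δ l,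
    Q.A.smul_mem (hT.Δ_mem l) _, fun x hx => ?_⟩
  have h1 : ∀ w : W, (if w • l = l then ((Q.sg w : ℤ) : K) *
      (w • (((Finset.univ.filter fun w : W => w • l = l).card : ℂ)⁻¹ • Q.Δ l * x)) else 0) =
      if w • l = l then
        ((Finset.univ.filter fun w : W => w • l = l).card : ℂ)⁻¹ • (Q.Δ l * x) else 0 := by
    intro w
    by_cases hw : w • l = l
    · rw [if_pos hw, if_pos hw, smul_mul', smul_comm, hx w hw, hT.Δ_w w l hw, smul_mul_assoc,
        mul_smul_comm]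
      congr 1
      have h2 : ((Q.sg w : ℤ) : K) * ((Q.sg w : ℤ) : K) = 1 := by
        rw [← Int.cast_mul, Int.units_coe_mul_self, Int.cast_one]
      rw [mul_assoc, ← mul_assoc, h2, one_mul]
    · rw [if_neg hw, if_neg hw]
  unfold TQD.Dav
  rw [Finset.sum_congr rfl fun w _ => h1 w, ← Finset.sum_filter, Finset.sum_const,
    ← Nat.cast_smul_eq_nsmul ℂ, smul_smul, mul_inv_cancel₀ hc, one_smul, ← mul_assoc,
    inv_mul_cancel₀ (hT.Δ_ne l), one_mul]

end

end Pool.Agent.MTF.LP
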