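import Pool.Agent.MTF.LA2

set_option linter.unusedSectionVars false

/-!
# [MTF-LA2b] averages of products
-/

namespace Pool.Agent.MTF.LP

open AffGrp

section
variable {G : AffGrp} {K W X : Type} [Field K] [Algebra ℂ K] [Group W] [Fintype W]
  [MulSemiringAction W K] [SMulCommClass W ℂ K] [AddCommGroup X] [DistribMulAction W X]
variable {L L' : Type} [Finite L] [DecidableEq L] [Finite L'] [DecidableEq L']
variable {Q : TQD G K W X}

/-- [MTF-LA2b] averages of products of three factors. PROOF. `c₀` from `Dav_c0`, `a, b` from `Dav_db`;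
`d i i' i'' := Dav (c₀ a_i a_i' a_i'')` (in `A` by `hT.Dav_mem`, invariant by `Dav_inv`). If `F = ∑ x_j y_j z_j` is invariant then
`F = Dav (c₀ F)`, insert `x_j = ∑ a_i Dav (b_i x_j)` etc.; `Dav (a_i a_i' a_i'' c₀ · (invariant)) = (…)`, `Dav_mul`, `Dav_sum`. -/
theorem avg_prod (hT : TQ Q) (l : X) : ∃ (n : ℕ) (b : Fin n → K) (d : Fin n → Fin n → Fin n → K),
    (∀ i, b i ∈ Q.A) ∧ (∀ i i' i'', d i i' i'' ∈ Q.A ∧ InvK W l (d i i' i'')) ∧
    ∀ (N : ℕ) (x y z : Fin N → K), InvK W l (∑ j, x j * y j * z j) →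
      ∑ j, x j * y j * z j = ∑ j, ∑ i, ∑ i', ∑ i'', d i i' i'' *
        (Q.Dav l (b i * x j) * Q.Dav l (b i' * y j) * Q.Dav l (b i'' * z j)) := by
  obtain ⟨c, hc, hc0⟩ := Dav_c0 hT l
  obtain ⟨n, a, b, ha, hb, hab⟩ := Dav_db hT l
  have hmul : ∀ x y : K, InvK W l x → InvK W l y → InvK W l (x * y) := by
    intro x y hx hy w hw
    rw [smul_mul', hx w hw, hy w hw]
  refine ⟨n, b, fun i i' i'' => Q.Dav l (c * (a i * a i' * a i'')), hb, fun i i' i'' =>
    ⟨hT.Dav_mem _ _ (Subalgebra.mul_mem _ hc (Subalgebra.mul_mem _ (Subalgebra.mul_mem _ (ha i) (ha i')) (ha i''))),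
      Dav_inv hT l _⟩, ?_⟩
  have key : ∀ x y z : K, Q.Dav l (c * (x * y * z)) = ∑ i, ∑ i', ∑ i'',
      Q.Dav l (c * (a i * a i' * a i'')) *
        (Q.Dav l (b i * x) * Q.Dav l (b i' * y) * Q.Dav l (b i'' * z)) := by
    intro x y z
    have e : c * (x * y * z) = ∑ i, ∑ i', ∑ i'',
        (Q.Dav l (b i * x) * Q.Dav l (b i' * y) * Q.Dav l (b i'' * z)) * (c * (a i * a i' * a i'')) := by
      calc c * (x * y * z) = c * ((∑ i, a i * Q.Dav l (b i * x)) * (∑ i, a i * Q.Dav l (b i * y)) *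
            (∑ i, a i * Q.Dav l (b i * z))) := by rw [hab x, hab y, hab z]
        _ = _ := by
          rw [Finset.sum_mul_sum, Finset.sum_mul, Finset.mul_sum]
          refine Finset.sum_congr rfl fun i _ => ?_
          rw [Finset.sum_mul_sum, Finset.mul_sum]
          refine Finset.sum_congr rfl fun i' _ => ?_
          rw [Finset.mul_sum]
          refine Finset.sum_congr rfl fun i'' _ => ?_
          ring
    rw [e, Dav_sum]
    refine Finset.sum_congr rfl fun i _ => ?_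
    rw [Dav_sum]
    refine Finset.sum_congr rfl fun i' _ => ?_
    rw [Dav_sum]
    refine Finset.sum_congr rfl fun i'' _ => ?_
    rw [Dav_mul l (hmul _ _ (hmul _ _ (Dav_inv hT l _) (Dav_inv hT l _)) (Dav_inv hT l _)), mul_comm]
  intro N x y z hinv
  calc ∑ j, x j * y j * z j = Q.Dav l (c * ∑ j, x j * y j * z j) := (hc0 _ hinv).symm
    _ = ∑ j, Q.Dav l (c * (x j * y j * z j)) := by rw [Finset.mul_sum, Dav_sum]
    _ = _ := Finset.sum_congr rfl fun j _ => key (x j) (y j) (z j)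

end

end Pool.Agent.MTF.LP
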