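import Pool.Agent.MTF.LA2b

set_option linter.unusedSectionVars false

/-!
# [MTF-LA3] the operator DavO on functions
-/

namespace Pool.Agent.MTF.LP

open AffGrp

section
variable {G : AffGrp} {K W X : Type} [Field K] [Algebra ℂ K] [Group W] [Fintype W]
  [MulSemiringAction W K] [SMulCommClass W ℂ K] [AddCommGroup X] [DistribMulAction W X]
variable {L L' : Type} [Finite L] [DecidableEq L] [Finite L'] [DecidableEq L']
variable {Q : TQD G K W X}

open Classical in
/-- `Dav` applied to the values of a function. -/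
noncomputable def DavO (Q : TQD G K W X) (l : X) {H : AffGrp} (F : H.KO K) : H.KO K :=
  (Q.Δ l)⁻¹ • ∑ w : W, if w • l = l then ((Q.sg w : ℤ) : K) • wO H w F else 0

/-- [MTF-LA3] PROOF. `KO_smul`, `KO_sum`, `wO_apply`, `split_ifs`. -/
theorem DavO_apply (l : X) {H : AffGrp} (F : H.KO K) (x : H.X) :
    (DavO Q l F).1 x = Q.Dav l (F.1 x) := by
  classical
  unfold DavO TQD.Dav
  rw [KO_smul, KO_sum]
  congr 1
  refine Finset.sum_congr rfl fun w _ => ?_
  split_ifs
  · rw [KO_smul, wO_apply]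
  · rfl

/-- [MTF-LA3] PROOF. `DavO_apply`, `hT.Dav_mem`. -/
theorem DavO_reg (hT : TQ Q) (l : X) {H : AffGrp} {F : H.KO K} (hF : Q.Reg F) :
    Q.Reg (DavO Q l F) := by
  intro x
  rw [DavO_apply]
  exact hT.Dav_mem _ _ (hF x)

/-- [MTF-LA3] PROOF. `KO_ext`, `Dav_inv`. -/
theorem DavO_inv (hT : TQ Q) (l : X) {H : AffGrp} (F : H.KO K) : InvO W l (DavO Q l F) := by
  intro w hw
  apply KO_ext
  intro x
  rw [wO_apply, DavO_apply]
  exact Dav_inv hT l _ w hw

/-- [MTF-LA3] PROOF. `KO_ext`, `Dav_add`. -/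
theorem DavO_add (l : X) {H : AffGrp} (F F' : H.KO K) :
    DavO Q l (F + F') = DavO Q l F + DavO Q l F' := by
  apply KO_ext
  intro x
  rw [DavO_apply, KO_add, KO_add, DavO_apply, DavO_apply, Dav_add]

/-- [MTF-LA3] PROOF. `KO_ext`, `KO_sum`, `Dav_sum`. -/
theorem DavO_sum (l : X) {H : AffGrp} {κ : Type} (t : Finset κ) (F : κ → H.KO K) :
    DavO Q l (∑ i ∈ t, F i) = ∑ i ∈ t, DavO Q l (F i) := by
  apply KO_ext
  intro x
  rw [DavO_apply, KO_sum, KO_sum, Dav_sum]
  exact Finset.sum_congr rfl fun i _ => (DavO_apply l (F i) x).symm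

/-- [MTF-LA3] PROOF. `KO_ext`, `Dav_mul`. -/
theorem DavO_smul (l : X) {H : AffGrp} {a : K} (ha : InvK W l a) (F : H.KO K) :
    DavO Q l (a • F) = a • DavO Q l F := by
  apply KO_ext
  intro x
  rw [DavO_apply, KO_smul, KO_smul, Dav_mul l ha, DavO_apply]

/-- [MTF-LA3] `c₀` for functions (with the same `c`, so one statement). PROOF. `Dav_c0`, pointwise. -/
theorem DavO_c0 (hT : TQ Q) (l : X) : ∃ c ∈ Q.A, (∀ x, InvK W l x → Q.Dav l (c * x) = x) ∧
    ∀ {H : AffGrp} (F : H.KO K), InvO W l F → DavO Q l (c • F) = F := by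
  obtain ⟨c, hc, h⟩ := Dav_c0 hT l
  refine ⟨c, hc, h, fun F hF => KO_ext fun x => ?_⟩
  rw [DavO_apply, KO_smul]
  apply h
  intro w hw
  have h1 := congrArg (fun F' => F'.1 x) (hF w hw)
  exact h1

end

end Pool.Agent.MTF.LP
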