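import Pool.Agent.MTF.LA3

set_option linter.unusedSectionVars false

/-!
# [MTF-LA4] averages and s
-/

namespace Pool.Agent.MTF.LP

open AffGrp

section
variable {G : AffGrp} {K W X : Type} [Field K] [Algebra ℂ K] [Group W] [Fintype W]
  [MulSemiringAction W K] [SMulCommClass W ℂ K] [AddCommGroup X] [DistribMulAction W X]
variable {L L' : Type} [Finite L] [DecidableEq L] [Finite L'] [DecidableEq L']
variable {Q : TQD G K W X}

/-- [MTF-LA4] helper -/
theorem la4_smul (H : AffGrp) (w : W) (a : K) (F : H.KO K) :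
    wO H w (a • F) = (w • a) • wO H w F := by
  apply KO_ext
  intro x
  rw [wO_apply, KO_smul, KO_smul, wO_apply, smul_mul']

/-- [MTF-LA4] helper -/
theorem la4_der (H : AffGrp) (w : W) (D : H.Lie) (F : H.KO K) :
    wO H w (derK K D F) = derK K D (wO H w F) :=
  (derK_mapK D (MulSemiringAction.toAlgHom ℂ K w) F).symm

/-- [MTF-LA4] `s` commutes with the action of `W` on functions. PROOF. `Q.s i = ∑ c j • derK ..`; `wO` is semilinear
(`wO_smul` : `wO w (a • F) = (w • a) • wO w F`, `KO_ext`, `smul_mul'`), `hT.c_w`, `derK_mapK`. -/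
theorem wO_s (hT : TQ Q) (w : W) (i : L) (F : (G.pow L).KO K) :
    wO _ w (Q.s i F) = Q.s i (wO _ w F) := by
  unfold TQD.s
  rw [LinearMap.sum_apply, LinearMap.sum_apply, map_sum]
  refine Finset.sum_congr rfl fun j _ => ?_
  rw [LinearMap.smul_apply, LinearMap.smul_apply, la4_smul, la4_der, hT.c_w]

/-- [MTF-LA4] the same for one leg -/
theorem wO_s1 (hT : TQ Q) (w : W) (F : G.KO K) : wO _ w (Q.s1 F) = Q.s1 (wO _ w F) := by
  unfold TQD.s1
  rw [LinearMap.sum_apply, LinearMap.sum_apply, map_sum]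
  refine Finset.sum_congr rfl fun j _ => ?_
  rw [LinearMap.smul_apply, LinearMap.smul_apply, la4_smul, la4_der, hT.c_w]

/-- [MTF-LA4] PROOF. `KO_ext`, `smul_mul'`. -/
theorem wO_smul (H : AffGrp) (w : W) (a : K) (F : H.KO K) :
    wO H w (a • F) = (w • a) • wO H w F := la4_smul H w a F

/-- [MTF-LA4] PROOF. `hT.c_mem`, and `Q.val` etc.: `w • Q.val m = Q.val (w • m)`. If `w • l = l` then
`w • Q.val (sgn b • l) = Q.val (sgn b • l)` (`smul_zsmul` or cases on `b`, `smul_neg`). -/
theorem val_inv (hT : TQ Q) (b : Bool) (l : X) : InvK W l (Q.val (sgn b • l)) := by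
  intro w hw
  rw [← hT.val_w]
  congr 1
  cases b
  · show w • (((-1 : ℤ)) • l) = (-1 : ℤ) • l
    rw [neg_one_zsmul, smul_neg, hw]
  · show w • ((1 : ℤ) • l) = (1 : ℤ) • l
    rw [one_zsmul, hw]

/-- [MTF-LA4] averages of sections are sections. PROOF. `DavO` is a combination of the `wO w` with `w • l = l`, which commute with
`Q.s i` (`wO_s`) and `wO w (val • F) = (w • val) • wO w F`, `val_inv`. -/
theorem DavO_wt (hT : TQ Q) (b : Bool) (l : X) (i : L) {F : (G.pow L).KO K}
    (h : Q.s i F = Q.val (sgn b • l) • F) :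
    Q.s i (DavO Q l F) = Q.val (sgn b • l) • DavO Q l F := by
  unfold DavO
  rw [map_smul, map_sum, smul_comm (Q.val (sgn b • l))]
  refine congrArg (fun t : (G.pow L).KO K => (Q.Δ l)⁻¹ • t) ?_
  rw [Finset.smul_sum]
  refine Finset.sum_congr rfl fun w _ => ?_
  split_ifs with hw
  · rw [map_smul, ← wO_s hT, h, wO_smul, val_inv hT b l w hw, smul_comm]
  · rw [map_zero, smul_zero]

/-- [MTF-LA4] -/
theorem DavO_JA (hT : TQ Q) {ε : L → Bool} {l : X} {F : (G.pow L).KO K} (h : Q.JA ε l F) :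
    Q.JA ε l (DavO Q l F) :=
  ⟨fun i => DavO_wt hT (ε i) l i (h.wt i), DavO_reg hT l h.reg⟩

end

end Pool.Agent.MTF.LP
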