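import Pool.Agent.MTF.LA4

set_option linter.unusedSectionVars false

/-!
# [MTF-LA5] averages of vectors
-/

namespace Pool.Agent.MTF.LP

open AffGrp

section
variable {G : AffGrp} {K W X : Type} [Field K] [Algebra ℂ K] [Group W] [Fintype W]
  [MulSemiringAction W K] [SMulCommClass W ℂ K] [AddCommGroup X] [DistribMulAction W X]
variable {L L' : Type} [Finite L] [DecidableEq L] [Finite L'] [DecidableEq L']
variable {Q : TQD G K W X}

/-- [MTF-LA5] the matrix `s_E` has entries in `A`. PROOF. `hT.c_mem`, `Subalgebra.sum_mem`. -/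
theorem sE_mem (hT : TQ Q) (E : Rep G) (a b : E.ι) : Q.sE E a b ∈ Q.A := by
  unfold TQD.sE
  exact Subalgebra.sum_mem _ fun j _ =>
    Subalgebra.mul_mem _ (hT.c_mem j) (Subalgebra.algebraMap_mem _ _)

/-- [MTF-LA5] the matrix `s_E` is invariant. PROOF. `Finset.smul_sum`, `smul_mul'`, `hT.c_w`, `smul_algebraMap`. -/
theorem sE_w (hT : TQ Q) (E : Rep G) (w : W) (a b : E.ι) : w • Q.sE E a b = Q.sE E a b := by
  unfold TQD.sE
  rw [Finset.smul_sum]
  refine Finset.sum_congr rfl fun j _ => ?_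
  rw [smul_mul', hT.c_w, smul_algebraMap]

/-- the value of a weight fixed by the stabiliser -/
theorem la5_val (hT : TQ Q) (l : X) : InvK W l (Q.val l) := by
  intro w hw
  rw [← hT.val_w, hw]

/-- [MTF-LA5] PROOF. Entrywise: `Dav (∑ sE a b * r b) = ∑ sE a b * Dav (r b)` (`Dav_sum`, `Dav_mul`, `sE_w`), right side
`Dav (val l * r a) = val l * Dav (r a)`, `val_inv`/`hT.val_w`. -/
theorem Dav_mulVec (hT : TQ Q) (E : Rep G) (l : X) {r : E.ι → K}
    (h : (Q.sE E).mulVec r = Q.val l • r) :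
    (Q.sE E).mulVec (fun a => Q.Dav l (r a)) = Q.val l • fun a => Q.Dav l (r a) := by
  funext a
  have h1 := congrFun h a
  rw [Matrix.mulVec, dotProduct, Pi.smul_apply, smul_eq_mul] at h1
  rw [Matrix.mulVec, dotProduct, Pi.smul_apply, smul_eq_mul, ← Dav_mul l (la5_val hT l), ← h1,
    Dav_sum]
  exact Finset.sum_congr rfl fun b _ => (Dav_mul l (fun w _ => sE_w hT E w a b) _).symm

/-- [MTF-LA5] the same for row vectors -/
theorem Dav_vecMul (hT : TQ Q) (E : Rep G) (l : X) {r : E.ι → K}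
    (h : (Q.sE E).vecMul r = Q.val l • r) :
    (Q.sE E).vecMul (fun a => Q.Dav l (r a)) = Q.val l • fun a => Q.Dav l (r a) := by
  funext a
  have h1 := congrFun h a
  rw [Matrix.vecMul, dotProduct, Pi.smul_apply, smul_eq_mul] at h1
  rw [Matrix.vecMul, dotProduct, Pi.smul_apply, smul_eq_mul, ← Dav_mul l (la5_val hT l), ← h1,
    Dav_sum]
  refine Finset.sum_congr rfl fun b _ => ?_
  rw [mul_comm (r b), Dav_mul l (fun w _ => sE_w hT E w b a), mul_comm]

end

end Pool.Agent.MTF.LP
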