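import Pool.Agent.MTF.LA4

set_option linter.unusedSectionVars false

/-!
# [MTF-LB1] functionals and derivations preserve regularity
-/

namespace Pool.Agent.MTF.LP

open AffGrp

section
variable {G : AffGrp} {K W X : Type} [Field K] [Algebra ℂ K] [Group W] [Fintype W]
  [MulSemiringAction W K] [SMulCommClass W ℂ K] [AddCommGroup X] [DistribMulAction W X]
variable {L L' : Type} [Finite L] [DecidableEq L] [Finite L'] [DecidableEq L']
variable {Q : TQD G K W X}

/-- [MTF-LB1] A functional on the regular functions maps functions with values in `A` to `A`.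
PROOF. By contradiction: there is a `ℂ`-linear `g : K → ℂ` with `g = 0` on `A` and `g (ext K φ F) ≠ 0`
(`Submodule.exists_le_ker_of_notMem` / `Submodule.exists_dual_map_eq_bot_of_notMem` for `Subalgebra.toSubmodule A`).
`F = ∑ c_i f_i` (`KO_rep`): `0 = g (F x) = ∑ g (c_i) f_i(x)` for all `x`, so `∑ g (c_i) • f_i = 0` in `H.O`, apply `φ`:
`0 = ∑ g (c_i) φ (f_i) = g (ext K φ F)` (`ext_apply`).  Compare the proof of `AffGrp.ext_aux` in KO.lean. -/
theorem ext_mem {H : AffGrp} (A : Subalgebra ℂ K) {F : H.KO K} (hF : ∀ x, F.1 x ∈ A)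
    (φ : Module.Dual ℂ H.O) : ext K φ F ∈ A := by
  by_contra hcon
  obtain ⟨g, hg1, hg2⟩ := Submodule.exists_le_ker_of_notMem (p := Subalgebra.toSubmodule A)
    (v := ext K φ F) (fun h => hcon h)
  obtain ⟨n, c, f, hcf⟩ := KO_rep F
  have h1 : ∀ x, ∑ i, g (c i) * (f i).1 x = 0 := by
    intro x
    have h0 : g (F.1 x) = 0 := hg2 (show F.1 x ∈ Subalgebra.toSubmodule A from hF x)
    rw [hcf x, map_sum] at h0
    rw [← h0]
    refine Finset.sum_congr rfl fun i _ => ?_
    rw [mul_comm (c i), ← Algebra.smul_def, map_smul, smul_eq_mul, mul_comm]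
  have h2 : ∑ i, g (c i) • f i = 0 := by
    apply Subtype.ext
    funext x
    have := h1 x
    simpa [Finset.sum_apply] using this
  have h3 := congrArg φ h2
  rw [map_sum, map_zero] at h3
  apply hg1
  rw [ext_apply φ F c f hcf, map_sum, ← h3]
  refine Finset.sum_congr rfl fun i _ => ?_
  rw [mul_comm (c i), ← Algebra.smul_def, map_smul, smul_eq_mul, map_smul, smul_eq_mul, mul_comm]

/-- [MTF-LB1] PROOF. `derK_apply`, `ext_mem`. -/
theorem derK_mem {H : AffGrp} (A : Subalgebra ℂ K) (D : H.Lie) {F : H.KO K}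
    (hF : ∀ x, F.1 x ∈ A) (x : H.X) : (derK K D F).1 x ∈ A := by
  rw [derK_apply]
  exact ext_mem A (fun y => hF (x * y)) D.1

/-- [MTF-LB1] -/
theorem s1_reg (hT : TQ Q) {F : G.KO K} (hF : Q.Reg F) : Q.Reg (Q.s1 F) := by
  intro x
  have h : (Q.s1 F).1 x = ∑ j, Q.c j * (derK K (Q.D j) F).1 x := by
    unfold TQD.s1
    rw [LinearMap.sum_apply, KO_sum]
    rfl
  rw [h]
  exact Subalgebra.sum_mem _ fun j _ => Subalgebra.mul_mem _ (hT.c_mem j) (derK_mem Q.A _ hF x)

/-- [MTF-LB1] -/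
theorem s_reg (hT : TQ Q) (i : L) {F : (G.pow L).KO K} (hF : Q.Reg F) : Q.Reg (Q.s i F) := by
  intro x
  have h : (Q.s i F).1 x = ∑ j, Q.c j * (derK K (emb i (Q.D j)) F).1 x := by
    unfold TQD.s
    rw [LinearMap.sum_apply, KO_sum]
    rfl
  rw [h]
  exact Subalgebra.sum_mem _ fun j _ => Subalgebra.mul_mem _ (hT.c_mem j) (derK_mem Q.A _ hF x)

/-- [MTF-LB1] PROOF. `derK_leib`. -/
theorem s_mul (i : L) (F F' : (G.pow L).KO K) :
    Q.s i (F * F') = F * Q.s i F' + F' * Q.s i F := by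
  have h : ∀ F : (G.pow L).KO K, Q.s i F = ∑ j, Q.c j • derK K (emb i (Q.D j)) F := by
    intro F
    unfold TQD.s
    rw [LinearMap.sum_apply]
    rfl
  rw [h, h, h, Finset.mul_sum, Finset.mul_sum, ← Finset.sum_add_distrib]
  refine Finset.sum_congr rfl fun j _ => ?_
  rw [derK_leib, smul_add, mul_smul_comm, mul_smul_comm]

/-- [MTF-LB1] the product of eigenfunctions (`s_mul`). -/
theorem s_mul_eig (i : L) {F F' : (G.pow L).KO K} {a b : K} (h : Q.s i F = a • F)
    (h' : Q.s i F' = b • F') : Q.s i (F * F') = (a + b) • (F * F') := by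
  rw [s_mul, h, h', mul_smul_comm, mul_smul_comm, mul_comm F' F, add_smul, add_comm]

/-- [MTF-LB1] constants. PROOF. `s_mul` with `F = F' = 1`: `Q.s i 1 = 2 Q.s i 1`, then `algebraMap a = a • 1`. -/
theorem s_const (i : L) (a : K) : Q.s i (algebraMap K ((G.pow L).KO K) a) = 0 := by
  have h1 : Q.s i (1 : (G.pow L).KO K) = 0 := by
    have h := s_mul (Q := Q) i (1 : (G.pow L).KO K) 1
    rw [mul_one, one_mul] at h
    have h2 : Q.s i (1 : (G.pow L).KO K) + 0 = Q.s i (1 : (G.pow L).KO K) + Q.s i 1 := by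
      rw [add_zero]; exact h
    exact (add_left_cancel h2).symm
  rw [Algebra.algebraMap_eq_smul_one, map_smul, h1, smul_zero]

end

end Pool.Agent.MTF.LP
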