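import Pool.Agent.MTF.LB1

set_option linter.unusedSectionVars false

/-!
# [MTF-LB2] pullback of functions
-/

namespace Pool.Agent.MTF.LP

open AffGrp

section
variable {G : AffGrp} {K W X : Type} [Field K] [Algebra ℂ K] [Group W] [Fintype W]
  [MulSemiringAction W K] [SMulCommClass W ℂ K] [AddCommGroup X] [DistribMulAction W X]
variable {L L' : Type} [Finite L] [DecidableEq L] [Finite L'] [DecidableEq L']
variable {Q : TQD G K W X}

/-- pullback of functions along `k ↦ k ∘ u` -/
def pb {I J : Type} [Finite I] [Finite J] (u : I → J) : (G.pow I).KO K →ₐ[K] (G.pow J).KO K :=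
  comp K (H := G.pow I) (H' := G.pow J) (fun k : J → G.X => (k ∘ u : I → G.X))
    fun f hf => (G.pre u ⟨f, hf⟩).2

theorem pb_apply {I J : Type} [Finite I] [Finite J] (u : I → J) (F : (G.pow I).KO K)
    (k : J → G.X) : (pb u F).1 k = F.1 (k ∘ u) := rfl

theorem pb_reg {I J : Type} [Finite I] [Finite J] (u : I → J) {F : (G.pow I).KO K}
    (hF : Q.Reg F) : Q.Reg (pb u F) := fun k => hF (k ∘ u)

theorem pb_wO {I J : Type} [Finite I] [Finite J] (u : I → J) (w : W) (F : (G.pow I).KO K) :
    pb u (wO _ w F) = wO _ w (pb u F) := rfl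

theorem lb2_upd {I J Y : Type} [DecidableEq I] [DecidableEq J] {u : I → J}
    (hu : Function.Injective u) (k : J → Y) (i : I) (h : Y) :
    ((Function.update k (u i) h) ∘ u : I → Y) = Function.update (k ∘ u) i h := by
  funext i'
  by_cases hi : i' = i
  · subst hi
    simp
  · rw [Function.comp_apply, Function.update_of_ne (fun hh => hi (hu hh)),
      Function.update_of_ne hi, Function.comp_apply]

theorem lb2_upd_out {I J Y : Type} [DecidableEq J] {u : I → J} {j : J}
    (hj : ∀ i, u i ≠ j) (k : J → Y) (h : Y) :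
    ((Function.update k j h) ∘ u : I → Y) = k ∘ u := by
  funext i'
  rw [Function.comp_apply, Function.update_of_ne (hj i'), Function.comp_apply]

theorem lb2_derK_const {H : AffGrp} (D : H.Lie) (a : K) :
    derK K D (algebraMap K (H.KO K) a) = 0 := by
  have h1 : derK K D (1 : H.KO K) = 0 := by
    have h := derK_leib D (1 : H.KO K) 1
    rw [one_mul, one_mul] at h
    exact left_eq_add.mp h
  rw [Algebra.algebraMap_eq_smul_one, map_smul, h1, smul_zero]

theorem lb2_s_apply {L : Type} [Finite L] [DecidableEq L] (l : L) (F : (G.pow L).KO K) :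
    Q.s l F = ∑ j, Q.c j • derK K (emb l (Q.D j)) F := by
  unfold TQD.s
  rw [LinearMap.sum_apply]
  rfl

theorem lb2_s1_apply (F : G.KO K) : Q.s1 F = ∑ j, Q.c j • derK K (Q.D j) F := by
  unfold TQD.s1
  rw [LinearMap.sum_apply]
  rfl

/-- [MTF-LB2] PROOF. `KO_ext`; for `k : J → G.X`, `derK_emb` reduces both sides to slices:
`sl K k (u i) (pb u F) = sl K (k ∘ u) i F` (`(Function.update k (u i) h) ∘ u = Function.update (k ∘ u) i h` because `u` is
injective), and `(k ∘ u) i = k (u i)`. -/
theorem derK_pb {I J : Type} [Finite I] [Finite J] [DecidableEq I] [DecidableEq J] {u : I → J}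
    (hu : Function.Injective u) (D : G.Lie) (i : I) (F : (G.pow I).KO K) :
    derK K (emb (u i) D) (pb u F) = pb u (derK K (emb i D) F) := by
  apply KO_ext
  intro k
  rw [derK_emb]
  show _ = (derK K (emb i D) F).1 (k ∘ u)
  rw [derK_emb]
  have hs : sl K k (u i) (pb u F) = sl K (k ∘ u) i F := by
    apply KO_ext
    intro h
    rw [sl_apply, sl_apply, pb_apply, lb2_upd hu]
  rw [hs]
  rfl

/-- [MTF-LB2] PROOF. `derK_emb`: the slice `sl K k j (pb u F)` is a constant function `algebraMap K _ (F.1 (k ∘ u))`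
(`(Function.update k j h) ∘ u = k ∘ u`), and `derK` kills constants (`derK_leib` with `1`, or `derK_apply`, `ext_inc`, `D.2 1 1`). -/
theorem derK_pb_out {I J : Type} [Finite I] [Finite J] [DecidableEq J] {u : I → J} {j : J}
    (hj : ∀ i, u i ≠ j) (D : G.Lie) (F : (G.pow I).KO K) :
    derK K (emb j D) (pb u F) = 0 := by
  apply KO_ext
  intro k
  rw [derK_emb]
  have hs : sl K k j (pb u F) = algebraMap K (G.KO K) (F.1 (k ∘ u)) := by
    apply KO_ext
    intro h
    rw [sl_apply, pb_apply, lb2_upd_out hj]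
    rfl
  rw [hs, lb2_derK_const]
  rfl

/-- [MTF-LB2] -/
theorem s_pb {I J : Type} [Finite I] [Finite J] [DecidableEq I] [DecidableEq J] {u : I → J}
    (hu : Function.Injective u) (i : I) (F : (G.pow I).KO K) :
    Q.s (u i) (pb u F) = pb u (Q.s i F) := by
  rw [lb2_s_apply, lb2_s_apply, map_sum]
  refine Finset.sum_congr rfl fun j _ => ?_
  rw [map_smul, derK_pb hu]

/-- [MTF-LB2] -/
theorem s_pb_out {I J : Type} [Finite I] [Finite J] [DecidableEq J] {u : I → J} {j : J}
    (hj : ∀ i, u i ≠ j) (F : (G.pow I).KO K) : Q.s j (pb u F) = 0 := by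
  rw [lb2_s_apply]
  refine Finset.sum_eq_zero fun i _ => ?_
  rw [derK_pb_out hj, smul_zero]

/-- [MTF-LB2] PROOF. as `derK_pb`: the slice `sl K k j (pu K j g)` is `g`. -/
theorem s_pu (j : L) (g : G.KO K) : Q.s j (pu K j g) = pu K j (Q.s1 g) := by
  rw [lb2_s_apply, lb2_s1_apply, map_sum]
  refine Finset.sum_congr rfl fun t _ => ?_
  rw [map_smul]
  congr 1
  apply KO_ext
  intro k
  rw [derK_emb, pu_apply]
  have hs : sl K k j (pu K j g) = g := by
    apply KO_ext
    intro h
    rw [sl_apply, pu_apply, Function.update_self]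
  rw [hs]

/-- [MTF-LB2] PROOF. as `derK_pb_out`: the slice in a leg `i ≠ j` is constant. -/
theorem s_pu_ne {i j : L} (h : i ≠ j) (g : G.KO K) : Q.s i (pu K j g) = 0 := by
  rw [lb2_s_apply]
  refine Finset.sum_eq_zero fun t _ => ?_
  have h0 : derK K (emb i (Q.D t)) (pu K j g) = 0 := by
    apply KO_ext
    intro k
    rw [derK_emb]
    have hs : sl K k i (pu K j g) = algebraMap K (G.KO K) (g.1 (k j)) := by
      apply KO_ext
      intro h'
      rw [sl_apply, pu_apply, Function.update_of_ne (Ne.symm h)]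
      rfl
    rw [hs, lb2_derK_const]
    rfl
  rw [h0, smul_zero]

end

end Pool.Agent.MTF.LP
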