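import Pool.Agent.MTF.LB2

set_option linter.unusedSectionVars false

/-!
# [MTF-LB3] splitting off one leg
-/

namespace Pool.Agent.MTF.LP

open AffGrp

section
variable {G : AffGrp} {K W X : Type} [Field K] [Algebra ℂ K] [Group W] [Fintype W]
  [MulSemiringAction W K] [SMulCommClass W ℂ K] [AddCommGroup X] [DistribMulAction W X]
variable {L L' : Type} [Finite L] [DecidableEq L] [Finite L'] [DecidableEq L']
variable {Q : TQD G K W X}

theorem optP_none {Y : Type} (h : Y) (k : L → Y) : optP h k none = h := rfl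
theorem optP_some {Y : Type} (h : Y) (k : L → Y) (i : L) : optP h k (some i) = k i := rfl
theorem optP_comp {Y : Type} (h : Y) (k : L → Y) : optP h k ∘ some = k := rfl
theorem optP_eta {Y : Type} (k : Option L → Y) : optP (k none) (k ∘ some) = k := by
  funext i
  cases i <;> rfl

/-- [MTF-LB3] PROOF. `Algebra.adjoin_induction` on `f ∈ G.powO (Option L)`: generators `x ↦ f (x i)`: `i = none`: `g = f, f' = 1`;
`i = some j`: `g = 1`, `f' = G.pull j f`; constants; sums: `Fin.append`; products: `finProdFinEquiv` as in `KO` (KO.lean). -/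
theorem powO_split (f : (G.pow (Option L)).O) : ∃ (n : ℕ) (g : Fin n → G.O)
    (f' : Fin n → (G.pow L).O), ∀ (h : G.X) (k : L → G.X),
      f.1 (optP h k) = ∑ j, (g j).1 h * (f' j).1 k := by
  obtain ⟨F, hF⟩ := f
  change F ∈ G.powO (Option L) at hF
  show ∃ (n : ℕ) (g : Fin n → G.O) (f' : Fin n → (G.pow L).O), ∀ (h : G.X) (k : L → G.X),
      F (optP h k) = ∑ j, (g j).1 h * (f' j).1 k
  unfold powO at hF
  induction hF using Algebra.adjoin_induction with
  | mem F hF =>
    obtain ⟨i, f, rfl⟩ := hF
    cases i with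
    | none =>
      refine ⟨1, fun _ => f, fun _ => 1, fun h k => ?_⟩
      rw [Fin.sum_univ_one]
      show f.1 h = f.1 h * 1
      rw [mul_one]
    | some j =>
      refine ⟨1, fun _ => 1, fun _ => G.pull j f, fun h k => ?_⟩
      rw [Fin.sum_univ_one]
      show f.1 (k j) = 1 * f.1 (k j)
      rw [one_mul]
  | algebraMap c =>
    refine ⟨1, fun _ => algebraMap ℂ _ c, fun _ => 1, fun h k => ?_⟩
    rw [Fin.sum_univ_one]
    show c = c * 1
    rw [mul_one]
  | add F F' _ _ ih ih' =>
    obtain ⟨n, a, b, h⟩ := ih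
    obtain ⟨n', a', b', h'⟩ := ih'
    refine ⟨n + n', Fin.append a a', Fin.append b b', fun x y => ?_⟩
    rw [Fin.sum_univ_add]
    simp only [Fin.append_left, Fin.append_right]
    rw [← h, ← h']
    rfl
  | mul F F' _ _ ih ih' =>
    obtain ⟨n, a, b, h⟩ := ih
    obtain ⟨n', a', b', h'⟩ := ih'
    refine ⟨n * n', fun k => a (finProdFinEquiv.symm k).1 * a' (finProdFinEquiv.symm k).2,
      fun k => b (finProdFinEquiv.symm k).1 * b' (finProdFinEquiv.symm k).2, fun x y => ?_⟩
    show F (optP x y) * F' (optP x y) = _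
    rw [h, h', Finset.sum_mul_sum, ← Equiv.sum_comp finProdFinEquiv, Fintype.sum_prod_type]
    refine Finset.sum_congr rfl fun k _ => Finset.sum_congr rfl fun l _ => ?_
    simp only [Equiv.symm_apply_apply]
    show _ = ((a k).1 x * (a' l).1 x) * ((b k).1 y * (b' l).1 y)
    ring

/-- [MTF-LB3] PROOF. `KO_rep` and `powO_split` (choose; sum over `Σ`-type, e.g. use `Fintype` index and `Fintype.equivFin`, or induction
on the number of terms with `Fin.append`). -/
theorem KO_split (F : (G.pow (Option L)).KO K) : ∃ (n : ℕ) (g : Fin n → G.O)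
    (f' : Fin n → (G.pow L).KO K), ∀ (h : G.X) (k : L → G.X),
      F.1 (optP h k) = ∑ j, algebraMap ℂ K ((g j).1 h) * (f' j).1 k := by
  obtain ⟨n, c, f, hF⟩ := KO_rep F
  choose m g f' h' using fun i => powO_split (f i)
  let e := Fintype.equivFin (Σ i : Fin n, Fin (m i))
  refine ⟨Fintype.card (Σ i : Fin n, Fin (m i)), fun t => g (e.symm t).1 (e.symm t).2,
    fun t => c (e.symm t).1 • inc K (f' (e.symm t).1 (e.symm t).2), fun h k => ?_⟩
  rw [hF, Equiv.sum_comp e.symm (fun p : Σ i : Fin n, Fin (m i) =>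
    algebraMap ℂ K ((g p.1 p.2).1 h) * (c p.1 • inc K (f' p.1 p.2)).1 k), Fintype.sum_sigma]
  refine Finset.sum_congr rfl fun i _ => ?_
  rw [h', map_sum, Finset.mul_sum]
  refine Finset.sum_congr rfl fun j _ => ?_
  rw [map_mul, KO_smul, inc_apply]
  ring

/-- the function `h ↦ F (optP h k)` of the leg `none` -/
def slN (k : L → G.X) : (G.pow (Option L)).KO K →ₐ[K] G.KO K :=
  comp K (H := G.pow (Option L)) (H' := G) (fun h => optP h k) fun _ hf =>
    pow_mem G (H := G) (fun h => optP h k) (fun i f hf' => by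
      cases i with
      | none => exact hf'
      | some i => exact const_mem G (f (k i))) hf

theorem slN_apply (k : L → G.X) (F : (G.pow (Option L)).KO K) (h : G.X) :
    (slN k F).1 h = F.1 (optP h k) := rfl

/-- [MTF-LB3] PROOF. `KO_ext`; `derK_emb` at the point `optP h k` in the leg `none`: the slice
`sl K (optP h k) none F` is `slN k F` (`Function.update (optP h k) none h' = optP h' k`, `funext`, cases). -/
theorem slN_s (k : L → G.X) (F : (G.pow (Option L)).KO K) :
    slN k (Q.s none F) = Q.s1 (slN k F) := by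
  apply KO_ext
  intro h
  rw [slN_apply]
  unfold TQD.s TQD.s1
  rw [LinearMap.sum_apply, LinearMap.sum_apply, KO_sum, KO_sum]
  refine Finset.sum_congr rfl fun j _ => ?_
  rw [LinearMap.smul_apply, LinearMap.smul_apply, KO_smul, KO_smul, derK_emb]
  have h1 : sl K (optP h k) none F = slN k F := by
    apply KO_ext
    intro h'
    rw [sl_apply, slN_apply]
    refine congrArg F.1 ?_
    funext i
    cases i with
    | none => simp [optP]
    | some i => simp [optP]
  rw [h1]
  rfl

theorem slN_wO (k : L → G.X) (w : W) (F : (G.pow (Option L)).KO K) :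
    slN k (wO _ w F) = wO _ w (slN k F) := rfl

end

end Pool.Agent.MTF.LP
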