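import Pool.Agent.MTF.LB3

set_option linter.unusedSectionVars false

/-!
# [MTF-LB4] functionals in one leg
-/

namespace Pool.Agent.MTF.LP

open AffGrp

section
variable {G : AffGrp} {K W X : Type} [Field K] [Algebra ℂ K] [Group W] [Fintype W]
  [MulSemiringAction W K] [SMulCommClass W ℂ K] [AddCommGroup X] [DistribMulAction W X]
variable {L L' : Type} [Finite L] [DecidableEq L] [Finite L'] [DecidableEq L']
variable {Q : TQD G K W X}

theorem lb4_slN {F : (G.pow (Option L)).KO K} {n : ℕ} {g : Fin n → G.O}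
    {f' : Fin n → (G.pow L).KO K} (h : ∀ (h : G.X) (k : L → G.X),
      F.1 (optP h k) = ∑ j, algebraMap ℂ K ((g j).1 h) * (f' j).1 k) (k : L → G.X) :
    slN k F = ∑ j, (f' j).1 k • inc K (g j) := by
  apply KO_ext
  intro x
  rw [slN_apply, h, KO_sum]
  refine Finset.sum_congr rfl fun j _ => ?_
  rw [KO_smul, inc_apply, mul_comm]

/-- [MTF-LB4] PROOF. `KO_split`: `ext K α (slN k F) = ∑ (f' j) k * algebraMap (α (g j))`: so the function is
`∑ algebraMap ℂ K (α (g j)) • f' j`. [`slN k F = ∑ (f' j) k • inc K (g j)`, `map_sum`, `map_smul`, `ext_inc`.] -/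
theorem red_mem (α : Module.Dual ℂ G.O) (F : (G.pow (Option L)).KO K) :
    (fun k => ext K α (slN k F)) ∈ (G.pow L).KO K := by
  obtain ⟨n, g, f', h⟩ := KO_split F
  have h1 : (fun k => ext K α (slN k F)) =
      (∑ j, algebraMap ℂ K (α (g j)) • f' j : (G.pow L).KO K).1 := by
    funext k
    rw [lb4_slN h k, map_sum, KO_sum]
    refine Finset.sum_congr rfl fun j _ => ?_
    rw [map_smul, ext_inc, KO_smul, smul_eq_mul, mul_comm]
  rw [h1]
  exact (∑ j, algebraMap ℂ K (α (g j)) • f' j : (G.pow L).KO K).2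

/-- a functional of the leg `none` -/
noncomputable def red (α : Module.Dual ℂ G.O) :
    (G.pow (Option L)).KO K →ₗ[K] (G.pow L).KO K where
  toFun F := ⟨fun k => ext K α (slN k F), red_mem α F⟩
  map_add' F F' := KO_ext fun k => by
    rw [KO_add]
    exact map_add (ext K α) (slN k F) (slN k F')
  map_smul' a F := KO_ext fun k => by
    rw [RingHom.id_apply, KO_smul]
    exact map_smul (ext K α) a (slN k F)

theorem red_apply (α : Module.Dual ℂ G.O) (F : (G.pow (Option L)).KO K) (k : L → G.X) :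
    (red α F).1 k = ext K α (slN k F) := rfl

/-- [MTF-LB4] PROOF. `ext_mem`. -/
theorem red_reg (α : Module.Dual ℂ G.O) {F : (G.pow (Option L)).KO K} (hF : Q.Reg F) :
    Q.Reg (red α F) := by
  intro k
  rw [red_apply]
  exact ext_mem Q.A (fun x => hF (optP x k)) α

/-- [MTF-LB4] PROOF. `KO_ext`, `ext_mapK`. -/
theorem red_wO (α : Module.Dual ℂ G.O) (w : W) (F : (G.pow (Option L)).KO K) :
    red α (wO _ w F) = wO _ w (red α F) := by
  apply KO_ext
  intro k
  rw [red_apply, slN_wO, wO_apply, red_apply]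
  exact ext_mapK α _ (slN k F)

/-- [MTF-LB4] products `F(h,k) = g(h) f(k)`: PROOF. `KO_ext`, `slN k (pu K none g * pb some f) = f k • g`, `map_smul`. -/
theorem red_pu_pb (α : Module.Dual ℂ G.O) (g : G.KO K) (f : (G.pow L).KO K) :
    red α (pu K none g * pb some f) = ext K α g • f := by
  apply KO_ext
  intro k
  have h1 : slN k (pu K none g * pb some f) = f.1 k • g := by
    apply KO_ext
    intro x
    rw [slN_apply, KO_mul, pu_apply, pb_apply, KO_smul, mul_comm]
    rfl
  rw [red_apply, h1, map_smul, KO_smul, smul_eq_mul, mul_comm]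

/-- [MTF-LB4] every function is a combination of products. PROOF. `KO_split`, `KO_ext`, `optP_eta`. -/
theorem KO_split' (F : (G.pow (Option L)).KO K) : ∃ (n : ℕ) (g : Fin n → G.O)
    (f : Fin n → (G.pow L).KO K), F = ∑ j, pu K none (inc K (g j)) * pb some (f j) := by
  obtain ⟨n, g, f', h⟩ := KO_split F
  refine ⟨n, g, f', KO_ext fun k => ?_⟩
  have h1 := h (k none) (k ∘ some)
  rw [optP_eta] at h1
  rw [h1, KO_sum]
  refine Finset.sum_congr rfl fun j _ => ?_
  rw [KO_mul, pu_apply, pb_apply, inc_apply]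

end

end Pool.Agent.MTF.LP
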