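import Pool.Agent.MTF.LB4

set_option linter.unusedSectionVars false

/-!
# [MTF-LB4b] functionals in one leg and s
-/

namespace Pool.Agent.MTF.LP

open AffGrp

section
variable {G : AffGrp} {K W X : Type} [Field K] [Algebra ℂ K] [Group W] [Fintype W]
  [MulSemiringAction W K] [SMulCommClass W ℂ K] [AddCommGroup X] [DistribMulAction W X]
variable {L L' : Type} [Finite L] [DecidableEq L] [Finite L'] [DecidableEq L']
variable {Q : TQD G K W X}

theorem lb4b_some (i : L) (f : (G.pow L).KO K) :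
    Q.s (some i) (pb some f) = pb some (Q.s i f) :=
  s_pb (Option.some_injective L) i f

/-- [MTF-LB4b] PROOF. `KO_split'`; `s_mul`, `s_pu_ne`, `s_pb` (`Option.some_injective`), `red_pu_pb`. -/
theorem red_s (α : Module.Dual ℂ G.O) (i : L) (F : (G.pow (Option L)).KO K) :
    Q.s i (red α F) = red α (Q.s (some i) F) := by
  obtain ⟨n, g, f, rfl⟩ := KO_split' F
  rw [map_sum, map_sum, map_sum, map_sum]
  refine Finset.sum_congr rfl fun j _ => ?_
  rw [red_pu_pb, map_smul, s_mul, s_pu_ne (by simp), mul_zero, add_zero, lb4b_some, red_pu_pb]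

/-- [MTF-LB4b] A right invariant functional kills derivatives. PROOF. `f (x y) = ∑ a_i(x) b_i(y)` (`G.mul_mem`), so
`I (G.rt y f) = ∑ b_i(y) I(a_i)`, which is the constant `I f`: `∑ I(a_i) • b_i = I(f) • 1` in `G.O`; apply `D`:
`∑ I(a_i) D(b_i) = I(f) D(1) = 0` (`D.2 1 1`); `G.der D f = ∑ D(b_i) • a_i` (see the proof inside `AffGrp.der`). -/
theorem inv_der {I : Module.Dual ℂ G.O} (hI : ∀ x f, I (G.rt x f) = I f) (D : G.Lie) (f : G.O) :
    I (G.der D f) = 0 := by
  obtain ⟨n, a, b, h⟩ := G.mul_mem f.1 f.2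
  have h1 : ∀ y, G.rt y f = ∑ i, (b i).1 y • a i := by
    intro y
    apply Subtype.ext
    funext x
    show f.1 (x * y) = _
    rw [h]
    simp [Finset.sum_apply, mul_comm]
  have h2 : ∑ i, I (a i) • b i = I f • (1 : G.O) := by
    apply Subtype.ext
    funext y
    have h3 := hI y f
    rw [h1, map_sum] at h3
    have h4 : (I f • (1 : G.O)).1 y = I f := by
      show I f * 1 = I f
      rw [mul_one]
    rw [h4, ← h3]
    simp [Finset.sum_apply, mul_comm]
  have hD1 : D.1 (1 : G.O) = 0 := by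
    have h5 := D.2 (1 : G.O) (1 : G.O)
    have h6 : (1 : G.O).1 1 = 1 := rfl
    rw [h6, mul_one, one_mul] at h5
    exact left_eq_add.1 h5
  have h7 : G.der D f = ∑ i, D.1 (b i) • a i := by
    apply Subtype.ext
    funext x
    have h8 : G.lt x f = ∑ i, (a i).1 x • b i := by
      apply Subtype.ext
      funext y
      show f.1 (x * y) = _
      rw [h]
      simp [Finset.sum_apply]
    show D.1 (G.lt x f) = _
    rw [h8, map_sum]
    simp [Finset.sum_apply, mul_comm]
  have h9 := congrArg D.1 h2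
  rw [map_sum, map_smul, hD1, smul_zero] at h9
  rw [h7, map_sum, ← h9]
  refine Finset.sum_congr rfl fun i _ => ?_
  rw [map_smul, map_smul, smul_eq_mul, smul_eq_mul, mul_comm]

theorem lb4b_derK {I : Module.Dual ℂ G.O} (hI : ∀ x f, I (G.rt x f) = I f) (D : G.Lie)
    (F : G.KO K) : ext K I (derK K D F) = 0 := by
  obtain ⟨n, c, f, rfl⟩ := KO_eq_sum F
  rw [map_sum, map_sum]
  refine Finset.sum_eq_zero fun i _ => ?_
  rw [map_smul, map_smul, derK_inc, ext_inc, inv_der hI, map_zero, smul_zero]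

/-- [MTF-LB4b] PROOF. `red_apply`, `slN_s`, `Q.s1 = ∑ c_j • derK (D_j)`, and `ext K I (derK K D F) = 0`
(`KO_eq_sum`, `derK_inc`, `ext_inc`, `inv_der`). -/
theorem red_s_none {I : Module.Dual ℂ G.O} (hI : ∀ x f, I (G.rt x f) = I f)
    (F : (G.pow (Option L)).KO K) : red I (Q.s none F) = 0 := by
  apply KO_ext
  intro k
  rw [red_apply, slN_s, KO_zero]
  unfold TQD.s1
  rw [LinearMap.sum_apply, map_sum]
  refine Finset.sum_eq_zero fun j _ => ?_
  rw [LinearMap.smul_apply, map_smul, lb4b_derK hI, smul_zero]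

end

end Pool.Agent.MTF.LP
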