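import Pool.Agent.MTF.LB4b

set_option linter.unusedSectionVars false

/-!
# [MTF-LB5] matrix coefficients
-/

namespace Pool.Agent.MTF.LP

open AffGrp

section
variable {G : AffGrp} {K W X : Type} [Field K] [Algebra ℂ K] [Group W] [Fintype W]
  [MulSemiringAction W K] [SMulCommClass W ℂ K] [AddCommGroup X] [DistribMulAction W X]
variable {L L' : Type} [Finite L] [DecidableEq L] [Finite L'] [DecidableEq L']
variable {Q : TQD G K W X}

theorem lb5_O_sum {κ : Type} (s : Finset κ) (F : κ → G.O) (x : G.X) :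
    (∑ i ∈ s, F i).1 x = ∑ i ∈ s, (F i).1 x := by
  classical
  induction s using Finset.induction_on with
  | empty => rfl
  | insert a s ha ih =>
    rw [Finset.sum_insert ha, Finset.sum_insert ha, ← ih]
    rfl

theorem lb5_inc_sum {κ : Type} (s : Finset κ) (t : κ → ℂ) (f : κ → G.O) :
    inc K (∑ c ∈ s, t c • f c) = ∑ c ∈ s, algebraMap ℂ K (t c) • inc K (f c) := by
  apply KO_ext
  intro x
  rw [inc_apply, lb5_O_sum, map_sum, KO_sum]
  refine Finset.sum_congr rfl fun c _ => ?_
  rw [KO_smul, inc_apply, ← map_mul]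
  rfl

/-- the derivation `s` of a function whose derivatives are known -/
theorem lb5_s1 {κ : Type} [Fintype κ] (f : G.O) (t : G.Lie → κ → ℂ) (g : κ → G.O)
    (h : ∀ D : G.Lie, G.der D f = ∑ c, t D c • g c) :
    Q.s1 (inc K f) = ∑ c, (∑ j, Q.c j * algebraMap ℂ K (t (Q.D j) c)) • inc K (g c) := by
  unfold TQD.s1
  rw [LinearMap.sum_apply]
  have h1 : ∀ j, (Q.c j • derK K (Q.D j)) (inc K f) =
      ∑ c, (Q.c j * algebraMap ℂ K (t (Q.D j) c)) • inc K (g c) := by
    intro j
    rw [LinearMap.smul_apply, derK_inc, h, lb5_inc_sum, Finset.smul_sum]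
    refine Finset.sum_congr rfl fun c _ => ?_
    rw [smul_smul]
  rw [Finset.sum_congr rfl fun j _ => h1 j, Finset.sum_comm]
  refine Finset.sum_congr rfl fun c _ => ?_
  rw [Finset.sum_smul]

theorem lb5_der_co (E : Rep G) (D : G.Lie) (a b : E.ι) :
    G.der D (E.co a b) = ∑ c, D.1 (E.co c b) • E.co a c := by
  apply Subtype.ext
  funext x
  rw [lb5_O_sum]
  have h1 : G.lt x (E.co a b) = ∑ c, E.ρ x a c • E.co c b := by
    apply Subtype.ext
    funext y
    rw [lb5_O_sum]
    show E.ρ (x * y) a b = _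
    rw [map_mul, Matrix.mul_apply]
    rfl
  show D.1 (G.lt x (E.co a b)) = _
  rw [h1, map_sum]
  refine Finset.sum_congr rfl fun c _ => ?_
  rw [map_smul]
  show E.ρ x a c * D.1 (E.co c b) = D.1 (E.co c b) * E.ρ x a c
  rw [mul_comm]

/-- [MTF-LB5] PROOF. `E.ρ (x y) a b = ∑_c E.ρ x a c * E.ρ y c b`: `G.der D (E.co a b) = ∑_c D(E.co c b) • E.co a c`; `derK_inc`, definition of
`Q.s1` and `Q.sE`. -/
theorem s1_co (E : Rep G) (a b : E.ι) :
    Q.s1 (inc K (E.co a b)) = ∑ c, Q.sE E c b • inc K (E.co a c) := by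
  exact lb5_s1 (Q := Q) (E.co a b) (fun D c => D.1 (E.co c b)) (fun c => E.co a c)
    fun D => lb5_der_co E D a b

/-- coefficients of the inverse -/
def coI (E : Rep G) (a b : E.ι) : G.O := ⟨fun x => E.ρ x⁻¹ a b, G.inv_mem _ (E.mem a b)⟩

/-- derivatives of the coefficients of the inverse at `1` -/
theorem lb5_D_coI (E : Rep G) (D : G.Lie) (a c : E.ι) : D.1 (coI E a c) = -D.1 (E.co a c) := by
  have h1 : ∑ b, E.co a b * coI E b c = (if a = c then (1 : ℂ) else 0) • (1 : G.O) := by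
    apply Subtype.ext
    funext x
    rw [lb5_O_sum]
    show ∑ b, E.ρ x a b * E.ρ x⁻¹ b c = (if a = c then (1 : ℂ) else 0) * 1
    rw [← Matrix.mul_apply, ← map_mul, mul_inv_cancel, map_one, Matrix.one_apply, mul_one]
  have h2 := congrArg D.1 h1
  have h3 : D.1 (1 : G.O) = 0 := by
    have h4 := D.2 1 1
    rw [mul_one] at h4
    have h5 : (1 : G.O).1 1 = 1 := rfl
    rw [h5] at h4
    linear_combination -h4
  rw [map_sum, map_smul, h3, smul_zero] at h2
  have h6 : ∀ b, D.1 (E.co a b * coI E b c) =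
      (if a = b then D.1 (coI E b c) else 0) + (if b = c then D.1 (E.co a b) else 0) := by
    intro b
    rw [D.2]
    have e1 : (E.co a b).1 1 = if a = b then 1 else 0 := by
      show E.ρ 1 a b = _
      rw [map_one, Matrix.one_apply]
    have e2 : (coI E b c).1 1 = if b = c then 1 else 0 := by
      show E.ρ 1⁻¹ b c = _
      rw [inv_one, map_one, Matrix.one_apply]
    rw [e1, e2, ite_mul, ite_mul, one_mul, zero_mul, one_mul, zero_mul]
  rw [Finset.sum_congr rfl fun b _ => h6 b, Finset.sum_add_distrib, Finset.sum_ite_eq,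
    Finset.sum_ite_eq', if_pos (Finset.mem_univ _), if_pos (Finset.mem_univ _)] at h2
  linear_combination h2

theorem lb5_der_coI (E : Rep G) (D : G.Lie) (a b : E.ι) :
    G.der D (coI E a b) = ∑ c, (-D.1 (E.co a c)) • coI E c b := by
  apply Subtype.ext
  funext x
  rw [lb5_O_sum]
  have h1 : G.lt x (coI E a b) = ∑ c, (coI E c b).1 x • coI E a c := by
    apply Subtype.ext
    funext y
    rw [lb5_O_sum]
    show E.ρ (x * y)⁻¹ a b = _
    rw [mul_inv_rev, map_mul, Matrix.mul_apply]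
    refine Finset.sum_congr rfl fun c _ => ?_
    show _ = E.ρ x⁻¹ c b * E.ρ y⁻¹ a c
    rw [mul_comm]
  show D.1 (G.lt x (coI E a b)) = _
  rw [h1, map_sum]
  refine Finset.sum_congr rfl fun c _ => ?_
  rw [map_smul, lb5_D_coI]
  show (coI E c b).1 x * -D.1 (E.co a c) = -D.1 (E.co a c) * (coI E c b).1 x
  rw [mul_comm]

/-- [MTF-LB5] PROOF. From `∑_b E.ρ y a b * E.ρ y⁻¹ b c = δ_{ac}`: for `D : G.Lie`, `D (coI E a c) = - D (E.co a c)` (Leibniz rule at `1`).
`coI E a b (x y) = ∑_c coI E a c (y) * coI E c b (x)`, so `G.der D (coI E a b) = - ∑_c D(E.co a c) • coI E c b`. -/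
theorem s1_coI (E : Rep G) (a b : E.ι) :
    Q.s1 (inc K (coI E a b)) = -∑ c, Q.sE E a c • inc K (coI E c b) := by
  rw [lb5_s1 (Q := Q) (coI E a b) (fun D c => -D.1 (E.co a c)) (fun c => coI E c b)
    fun D => lb5_der_coI E D a b, ← Finset.sum_neg_distrib]
  refine Finset.sum_congr rfl fun c _ => ?_
  rw [← neg_smul]
  congr 1
  unfold TQD.sE
  rw [← Finset.sum_neg_distrib]
  refine Finset.sum_congr rfl fun j _ => ?_
  rw [map_neg, mul_neg]

/-- the dual representation -/
def dual (E : Rep G) : Rep G where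
  ι := E.ι
  ρ := { toFun := fun x => (E.ρ x⁻¹).transpose
         map_one' := by simp
         map_mul' := fun x y => by
           rw [mul_inv_rev, map_mul, Matrix.transpose_mul] }
  mem := fun a b => G.inv_mem _ (E.mem b a)

/-- [MTF-LB5] PROOF. `D ((dual E).co a b) = D (coI E b a) = - D (E.co b a)`, see `s1_coI`. -/
theorem sE_dual (E : Rep G) (a b : E.ι) : Q.sE (dual E) a b = -Q.sE E b a := by
  unfold TQD.sE
  rw [← Finset.sum_neg_distrib]
  refine Finset.sum_congr rfl fun j _ => ?_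
  have h1 : (dual E).co a b = coI E b a := rfl
  rw [h1, lb5_D_coI, map_neg, mul_neg]

end

end Pool.Agent.MTF.LP
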