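import Pool.Agent.MTF.LB5

set_option linter.unusedSectionVars false

/-!
# [MTF-LB6] representations from functions
-/

namespace Pool.Agent.MTF.LP

open AffGrp

section
variable {G : AffGrp} {K W X : Type} [Field K] [Algebra ℂ K] [Group W] [Fintype W]
  [MulSemiringAction W K] [SMulCommClass W ℂ K] [AddCommGroup X] [DistribMulAction W X]
variable {L L' : Type} [Finite L] [DecidableEq L] [Finite L'] [DecidableEq L']
variable {Q : TQD G K W X}

theorem lb6_rt_rt (x y : G.X) (f : G.O) : G.rt x (G.rt y f) = G.rt (x * y) f := by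
  apply Subtype.ext
  funext z
  show f.1 (z * x * y) = f.1 (z * (x * y))
  rw [mul_assoc]

theorem lb6_rt_one (f : G.O) : G.rt 1 f = f := by
  apply Subtype.ext
  funext z
  show f.1 (z * 1) = f.1 z
  rw [mul_one]

theorem lb6_rt_sum (f : G.O) : ∃ (n : ℕ) (a b : Fin n → G.O),
    ∀ y, G.rt y f = ∑ i, (b i).1 y • a i := by
  obtain ⟨n, a, b, h⟩ := G.mul_mem f.1 f.2
  refine ⟨n, a, b, fun y => ?_⟩
  apply Subtype.ext
  funext x
  show f.1 (x * y) = _
  rw [h]
  simp [Finset.sum_apply, mul_comm]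

theorem lb6_basis {M V : Type} [Monoid M] [AddCommGroup V] [Module ℂ V] (R : M → V →ₗ[ℂ] V)
    (h1 : R 1 = LinearMap.id) (hm : ∀ x y, R (x * y) = R x ∘ₗ R y) (S : Set V) (F : Submodule ℂ V)
    [FiniteDimensional ℂ F] (hS : ∀ y, ∀ s ∈ S, R y s ∈ F) :
    ∃ (k : ℕ) (ρ : M →* Matrix (Fin k) (Fin k) ℂ) (φ : Fin k → V), LinearIndependent ℂ φ ∧
      (∀ y c, R y (φ c) = ∑ d, ρ y d c • φ d) ∧
      (∀ c d, ∃ α : V →ₗ[ℂ] ℂ, ∀ y, ρ y d c = α (R y (φ c))) ∧
      ∀ s ∈ S, s ∈ Submodule.span ℂ (Set.range φ) := by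
  classical
  let U : Submodule ℂ V := Submodule.span ℂ {v | ∃ y, ∃ s ∈ S, v = R y s}
  have hU : U ≤ F := by
    show Submodule.span ℂ _ ≤ F
    rw [Submodule.span_le]
    rintro _ ⟨y, s, hs, rfl⟩
    exact hS y s hs
  have : FiniteDimensional ℂ U := Submodule.finiteDimensional_of_le hU
  have hst : ∀ (y : M) (u : V), u ∈ U → R y u ∈ U := by
    intro y u hu
    have h1 : U ≤ U.comap (R y) := by
      show Submodule.span ℂ _ ≤ _
      rw [Submodule.span_le]
      rintro _ ⟨z, s, hs, rfl⟩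
      show R y (R z s) ∈ U
      have h2 : R y (R z s) = R (y * z) s := by
        rw [hm]
        rfl
      rw [h2]
      exact Submodule.subset_span ⟨y * z, s, hs, rfl⟩
    exact h1 hu
  let B := Module.finBasis ℂ U
  let T : M → (U →ₗ[ℂ] U) := fun y => (R y).restrict (hst y)
  have hT : ∀ x y, T (x * y) = T x ∘ₗ T y := by
    intro x y
    apply LinearMap.ext
    intro u
    apply Subtype.ext
    show R (x * y) u.1 = R x (R y u.1)
    rw [hm]
    rfl
  have hT1 : T 1 = LinearMap.id := by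
    apply LinearMap.ext
    intro u
    apply Subtype.ext
    show R 1 u.1 = u.1
    rw [h1]
    rfl
  refine ⟨Module.finrank ℂ U, { toFun := fun y => LinearMap.toMatrix B B (T y)
                                map_one' := by rw [hT1, LinearMap.toMatrix_id]
                                map_mul' := fun x y => by rw [hT, LinearMap.toMatrix_comp B B B] },
    fun c => (B c).1, ?_, ?_, ?_, ?_⟩
  · exact B.linearIndependent.map' U.subtype (Submodule.ker_subtype U)
  · intro y c
    have h2 : T y (B c) = ∑ d, (LinearMap.toMatrix B B (T y)) d c • B d := by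
      conv_lhs => rw [← B.sum_repr (T y (B c))]
      refine Finset.sum_congr rfl fun d _ => ?_
      rw [LinearMap.toMatrix_apply]
    have h3 := congrArg (Submodule.subtype U) h2
    rw [map_sum] at h3
    exact h3
  · intro c d
    obtain ⟨α, hα⟩ := LinearMap.exists_extend (p := U) (B.coord d)
    refine ⟨α, fun y => ?_⟩
    show LinearMap.toMatrix B B (T y) d c = _
    rw [LinearMap.toMatrix_apply]
    show B.coord d (T y (B c)) = _
    rw [← hα]
    rfl
  · intro s hs
    have h6 : s ∈ U := by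
      refine Submodule.subset_span ⟨1, s, hs, ?_⟩
      rw [h1]
      rfl
    have h7 := congrArg (Submodule.subtype U) (B.sum_repr ⟨s, h6⟩)
    rw [map_sum] at h7
    have h8 : s = ∑ d, (B.repr ⟨s, h6⟩) d • (B d).1 := h7.symm
    rw [h8]
    exact Submodule.sum_mem _ fun d _ => Submodule.smul_mem _ _ (Submodule.subset_span ⟨d, rfl⟩)

/-- [MTF-LB6] functions spanning a right stable space. PROOF. Let `f i (x y) = ∑_t a_{it}(x) b_{it}(y)` (`G.mul_mem`);
`U := Submodule.span ℂ {G.rt y (f i)}` is contained in the span of the finitely many `a_{it}`, so finite dimensional, contains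
`f i = G.rt 1 (f i)`, and is stable under all `G.rt y` (`G.rt x (G.rt y f) = G.rt (x * y) f`).  `φ` := a basis of `U`
(`Module.finBasis ℂ U`), `E.ρ y b a` := the coordinate `b` of `G.rt y (φ a)` (`LinearMap.toMatrix`); multiplicative because
`G.rt (x y) = G.rt x ∘ G.rt y`.  Entries are regular: take `α : Module.Dual ℂ G.O` extending the coordinate `b`
(`LinearMap.exists_extend`); `α (G.rt y φ_a) = ∑ α(a_j) b_j(y)` for `φ_a (x y) = ∑ a_j(x) b_j(y)`. -/
theorem exists_rep {n : ℕ} (f : Fin n → G.O) : ∃ (E : Rep G) (φ : E.ι → G.O),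
    LinearIndependent ℂ φ ∧ (∀ x y a, (φ a).1 (x * y) = ∑ b, (φ b).1 x * E.ρ y b a) ∧
    ∀ i, f i ∈ Submodule.span ℂ (Set.range φ) := by
  classical
  choose m a b hab using fun i => lb6_rt_sum (f i)
  have hfd : FiniteDimensional ℂ (Submodule.span ℂ (Set.range fun p : Σ i : Fin n, Fin (m i) =>
      a p.1 p.2)) := FiniteDimensional.span_of_finite ℂ (Set.finite_range _)
  obtain ⟨k, ρ, φ, hli, hφ, hα, hsp⟩ := lb6_basis (M := G.X) (V := G.O) (fun y => G.rt y)
    (LinearMap.ext fun f => lb6_rt_one f)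
    (fun x y => LinearMap.ext fun f => (lb6_rt_rt x y f).symm) (Set.range f)
    (Submodule.span ℂ (Set.range fun p : Σ i : Fin n, Fin (m i) => a p.1 p.2)) (by
      rintro y _ ⟨i, rfl⟩
      rw [hab]
      exact Submodule.sum_mem _ fun t _ => Submodule.smul_mem _ _
        (Submodule.subset_span ⟨⟨i, t⟩, rfl⟩))
  refine ⟨{ ι := Fin k
            ρ := ρ
            mem := ?_ }, φ, hli, ?_, fun i => hsp _ ⟨i, rfl⟩⟩
  · intro d c
    obtain ⟨α, hα⟩ := hα c d
    obtain ⟨n', a', b', h'⟩ := lb6_rt_sum (φ c)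
    have h3 : (fun y => ρ y d c) = ∑ i, α (a' i) • (b' i).1 := by
      funext y
      rw [hα, h', map_sum]
      simp [Finset.sum_apply, mul_comm]
    rw [h3]
    exact Subalgebra.sum_mem _ fun i _ => Subalgebra.smul_mem _ (b' i).2 _
  · intro x y c
    have h5 := congrArg (fun g : G.O => g.1 x) (hφ y c)
    simp only [AddSubmonoidClass.coe_finsetSum, Finset.sum_apply] at h5
    show (φ c).1 (x * y) = ∑ d, (φ d).1 x * ρ y d c
    refine Eq.trans h5 (Finset.sum_congr rfl fun d _ => ?_)
    show ρ y d c * (φ d).1 x = _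
    rw [mul_comm]

/-- [MTF-LB6] PROOF. as `s1_co`. -/
theorem s1_phi {E : Rep G} {φ : E.ι → G.O}
    (h : ∀ x y a, (φ a).1 (x * y) = ∑ b, (φ b).1 x * E.ρ y b a) (a : E.ι) :
    Q.s1 (inc K (φ a)) = ∑ b, Q.sE E b a • inc K (φ b) := by
  apply KO_ext
  intro x
  have h1 : ∀ D : G.Lie, (G.der D (φ a)).1 x = ∑ b, D.1 (E.co b a) * (φ b).1 x := by
    intro D
    have h2 : G.lt x (φ a) = ∑ b, (φ b).1 x • E.co b a := by
      apply Subtype.ext
      funext y
      show (φ a).1 (x * y) = _
      rw [h]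
      simp only [AddSubmonoidClass.coe_finsetSum, Finset.sum_apply]
      rfl
    show D.1 (G.lt x (φ a)) = _
    rw [h2, map_sum]
    refine Finset.sum_congr rfl fun b _ => ?_
    rw [map_smul, smul_eq_mul, mul_comm]
  unfold TQD.s1
  rw [LinearMap.sum_apply, KO_sum, KO_sum]
  simp only [LinearMap.smul_apply, KO_smul, derK_inc, inc_apply, h1, map_sum, map_mul]
  simp only [TQD.sE, Finset.mul_sum, Finset.sum_mul]
  rw [Finset.sum_comm]
  refine Finset.sum_congr rfl fun b _ => Finset.sum_congr rfl fun j _ => ?_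
  ring

end

end Pool.Agent.MTF.LP
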