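import Pool.Agent.MTF.LB6

set_option linter.unusedSectionVars false

/-!
# [MTF-LD1] frames of row sections, dual functionals
-/

namespace Pool.Agent.MTF.LP

open AffGrp

section
variable {G : AffGrp} {K W X : Type} [Field K] [Algebra ℂ K] [Group W] [Fintype W]
  [MulSemiringAction W K] [SMulCommClass W ℂ K] [AddCommGroup X] [DistribMulAction W X]
variable {L L' : Type} [Finite L] [DecidableEq L] [Finite L'] [DecidableEq L']
variable {Q : TQD G K W X}

/-- [MTF-LD1] frames for left eigenvectors. PROOF. `hT.fl (dual E) (-l)`: by `sE_dual`, `(Q.sE (dual E)).mulVec r = -(Q.sE E).vecMul r`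
and `Q.val (-l) = -Q.val l`. -/
theorem fl' (hT : TQ Q) (E : Rep G) (l : X) : ∃ (n : ℕ) (e : Fin n → E.ι → K)
    (c : Fin n → (E.ι → K) →ₗ[K] K),
    (∀ j, (∀ a, e j a ∈ Q.A) ∧ (Q.sE E).vecMul (e j) = Q.val l • e j) ∧
    ∀ r : E.ι → K, (Q.sE E).vecMul r = Q.val l • r → (r = ∑ j, c j r • e j) ∧
      ((∀ a, r a ∈ Q.A) → ∀ j, c j r ∈ Q.A) := by
  obtain ⟨n, e, c, he, hc⟩ := hT.fl (dual E) (-l)
  have key : ∀ r : E.ι → K, (Q.sE (dual E)).mulVec r = -((Q.sE E).vecMul r) := by
    intro r
    funext a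
    show ∑ b, Q.sE (dual E) a b * r b = -∑ b, r b * Q.sE E b a
    rw [← Finset.sum_neg_distrib]
    refine Finset.sum_congr rfl fun b _ => ?_
    rw [sE_dual]
    ring
  have hval : Q.val (-l) = -Q.val l := map_neg _ _
  have key2 : ∀ r : E.ι → K, (Q.sE (dual E)).mulVec r = Q.val (-l) • r ↔
      (Q.sE E).vecMul r = Q.val l • r := by
    intro r
    rw [key, hval]
    constructor
    · intro h
      have h2 : (-Q.val l) • r = -(Q.val l • r) := neg_smul _ _
      rw [h2] at h
      exact neg_injective h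
    · intro h
      rw [h]
      exact (neg_smul _ _).symm
  refine ⟨n, e, c, fun j => ⟨(he j).1, (key2 (e j)).1 (he j).2⟩, fun r hr => ?_⟩
  exact hc r ((key2 r).2 hr)

/-- [MTF-LD1] dual functionals of linearly independent vectors. PROOF. `LinearIndependent.extend` / `Basis.span hφ` coordinates extended
by `LinearMap.exists_extend`. -/
theorem exists_dualfam {E : Rep G} {φ : E.ι → G.O} (hφ : LinearIndependent ℂ φ) :
    ∃ α : E.ι → Module.Dual ℂ G.O, ∀ a b, α a (φ b) = if a = b then 1 else 0 := by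
  have h : ∀ a : E.ι, ∃ α : Module.Dual ℂ G.O, ∀ b, α (φ b) = if a = b then 1 else 0 := by
    intro a
    obtain ⟨g, hg⟩ := LinearMap.exists_extend ((Module.Basis.span hφ).coord a)
    refine ⟨g, fun b => ?_⟩
    have h1 := LinearMap.congr_fun hg (Module.Basis.span hφ b)
    rw [LinearMap.comp_apply, Submodule.subtype_apply, Module.Basis.coord_apply,
      Module.Basis.repr_self, Finsupp.single_apply] at h1
    have h2 : ((Module.Basis.span hφ b : Submodule.span ℂ (Set.range φ)) : G.O) = φ b := by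
      rw [Module.Basis.span_apply]
    rw [h2] at h1
    rw [h1]
    by_cases hab : a = b
    · rw [if_pos hab, if_pos hab.symm]
    · rw [if_neg hab, if_neg (fun h => hab h.symm)]
  choose α hα using h
  exact ⟨α, hα⟩

/-- [MTF-LD1] PROOF. `slN k (∑ ..) = ∑ (f' j).1 k • inc K (g j)`; `g j = ∑_a α a (g j) • φ a` (because `g j` is in the span);
`red (α a) F = ∑_j algebraMap (α a (g j)) • f' j` (`map_sum`, `red_pu_pb`, `ext_inc`). Both claims follow (`inc K` is additive and
`inc K (c • f) = algebraMap c • inc K f`, `KO_ext`). -/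
theorem opt_expand {E : Rep G} {φ : E.ι → G.O} {α : E.ι → Module.Dual ℂ G.O}
    (hα : ∀ a b, α a (φ b) = if a = b then 1 else 0) {κ : Type} [Fintype κ] (g : κ → G.O)
    (hg : ∀ j, g j ∈ Submodule.span ℂ (Set.range φ)) (f' : κ → (G.pow L).KO K)
    {F : (G.pow (Option L)).KO K} (hF : F = ∑ j, pu K none (inc K (g j)) * pb some (f' j)) :
    F = ∑ a, pu K none (inc K (φ a)) * pb some (red (α a) F) ∧
      ∀ a, red (α a) F ∈ Submodule.span K (Set.range f') := by
  have hred : ∀ a, red (α a) F = ∑ j, algebraMap ℂ K (α a (g j)) • f' j := by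
    intro a
    rw [hF, map_sum]
    refine Finset.sum_congr rfl fun j _ => ?_
    rw [red_pu_pb, ext_inc]
  have hgj : ∀ j, g j = ∑ a, α a (g j) • φ a := by
    intro j
    obtain ⟨c, hc⟩ := (Submodule.mem_span_range_iff_exists_fun ℂ).1 (hg j)
    have h1 : ∀ a, α a (g j) = c a := by
      intro a
      rw [← hc, map_sum, Finset.sum_eq_single a]
      · rw [map_smul, hα, if_pos rfl, smul_eq_mul, mul_one]
      · intro b _ hb
        rw [map_smul, hα, if_neg (fun h => hb h.symm), smul_zero]
      · intro h; exact absurd (Finset.mem_univ a) h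
    simp only [h1]
    exact hc.symm
  have hinc : ∀ j, inc K (g j) = ∑ a, algebraMap ℂ K (α a (g j)) • inc K (φ a) := by
    intro j
    apply KO_ext
    intro x
    rw [KO_sum, inc_apply]
    have h2 : (g j).1 x = ∑ a, α a (g j) * (φ a).1 x := by
      have h3 : (g j).1 x = (∑ a, α a (g j) • φ a : G.O).1 x := by rw [← hgj j]
      rw [h3]
      have h4 : ∀ (t : Finset E.ι) (u : E.ι → G.O), (∑ a ∈ t, u a : G.O).1 x = ∑ a ∈ t, (u a).1 x := by
        intro t u
        induction t using Finset.induction_on with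
        | empty => rfl
        | insert a t ha ih =>
          rw [Finset.sum_insert ha, Finset.sum_insert ha, ← ih]
          rfl
      rw [h4]
      rfl
    rw [h2, map_sum]
    refine Finset.sum_congr rfl fun a _ => ?_
    rw [map_mul, KO_smul, inc_apply]
  refine ⟨?_, fun a => ?_⟩
  · have e1 : ∀ a, pu K none (inc K (φ a)) * pb some (red (α a) F) =
        ∑ j, algebraMap ℂ K (α a (g j)) • (pu K none (inc K (φ a)) * pb some (f' j)) := by
      intro a
      rw [hred, map_sum, Finset.mul_sum]
      refine Finset.sum_congr rfl fun j _ => ?_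
      rw [map_smul, mul_smul_comm]
    have e2 : ∀ j, pu K none (inc K (g j)) * pb some (f' j) =
        ∑ a, algebraMap ℂ K (α a (g j)) • (pu K none (inc K (φ a)) * pb some (f' j)) := by
      intro j
      rw [hinc, map_sum, Finset.sum_mul]
      refine Finset.sum_congr rfl fun a _ => ?_
      rw [map_smul, smul_mul_assoc]
    rw [Finset.sum_congr rfl fun a _ => e1 a, Finset.sum_comm, hF]
    exact Finset.sum_congr rfl fun j _ => e2 j
  · rw [hred]
    exact Submodule.sum_mem _ fun j _ => Submodule.smul_mem _ _ (Submodule.subset_span ⟨j, rfl⟩)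

/-- [MTF-LD1] PROOF. Apply `Q.s none` to `F = ∑_a pu none (inc φ_a) * pb some (red α_a F)` (`s_mul`, `s_pu`, `s_pb_out`, `s1_phi`):
`λ • F = ∑_a ∑_b sE b a • (pu none (inc φ_b) * pb some (red α_a F))`; apply `red (α b)` (`red_pu_pb`, `ext_inc`, `hα`). -/
theorem opt_eig {E : Rep G} {φ : E.ι → G.O}
    (h : ∀ x y a, (φ a).1 (x * y) = ∑ b, (φ b).1 x * E.ρ y b a)
    {α : E.ι → Module.Dual ℂ G.O} (hα : ∀ a b, α a (φ b) = if a = b then 1 else 0)
    {F : (G.pow (Option L)).KO K}
    (hF : F = ∑ a, pu K none (inc K (φ a)) * pb some (red (α a) F)) {t : K}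
    (hs : Q.s none F = t • F) (b : E.ι) :
    ∑ a, Q.sE E b a • red (α a) F = t • red (α b) F := by
  have hsn : ∀ a, Q.s none (pu K none (inc K (φ a)) * pb some (red (α a) F)) =
      ∑ c, Q.sE E c a • (pu K none (inc K (φ c)) * pb some (red (α a) F)) := by
    intro a
    rw [s_mul, s_pu, s_pb_out (fun i => Option.some_ne_none i), mul_zero, zero_add, s1_phi h,
      map_sum, Finset.mul_sum]
    refine Finset.sum_congr rfl fun c _ => ?_
    rw [map_smul, mul_smul_comm, mul_comm]
  have h1 : red (α b) (Q.s none F) = ∑ a, Q.sE E b a • red (α a) F := by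
    conv_lhs => rw [hF]
    rw [map_sum, map_sum]
    refine Finset.sum_congr rfl fun a _ => ?_
    rw [hsn, map_sum, Finset.sum_eq_single b]
    · rw [map_smul, red_pu_pb, ext_inc, hα, if_pos rfl, map_one, one_smul]
    · intro c _ hc
      rw [map_smul, red_pu_pb, ext_inc, hα, if_neg (fun h => hc h.symm), map_zero, zero_smul,
        smul_zero]
    · intro h; exact absurd (Finset.mem_univ b) h
  rw [← h1, hs, map_smul]

end

end Pool.Agent.MTF.LP
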