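import Pool.Agent.MTF.LD1

set_option linter.unusedSectionVars false

/-!
# [MTF-LD2] products of one-leg functions
-/

namespace Pool.Agent.MTF.LP

open AffGrp

section
variable {G : AffGrp} {K W X : Type} [Field K] [Algebra ℂ K] [Group W] [Fintype W]
  [MulSemiringAction W K] [SMulCommClass W ℂ K] [AddCommGroup X] [DistribMulAction W X]
variable {L L' : Type} [Finite L] [DecidableEq L] [Finite L'] [DecidableEq L']
variable {Q : TQD G K W X}

/-- product of functions of the single legs -/
noncomputable def prodO {I : Type} [Fintype I] (u : I → G.KO K) : (G.pow I).KO K :=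
  ∏ i, pu K i (u i)

/-- [MTF-LD2] PROOF. `KO_prod`, `pu_apply`. -/
theorem prodO_apply {I : Type} [Fintype I] (u : I → G.KO K) (k : I → G.X) :
    (prodO u).1 k = ∏ i, (u i).1 (k i) := by
  unfold prodO
  rw [KO_prod]
  rfl

theorem ld2_fin {I : Type} [Fintype I] [DecidableEq I] {u : I → G.KO K} {i : I} {a : K}
    (h : Q.s1 (u i) = a • u i) (t : Finset I) :
    Q.s i (∏ j ∈ t, pu K j (u j)) = (if i ∈ t then a else 0) • ∏ j ∈ t, pu K j (u j) := by
  induction t using Finset.induction_on with
  | empty =>
    simp only [Finset.prod_empty, Finset.notMem_empty, if_false, zero_smul]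
    have h1 := s_const (Q := Q) (L := I) i (1 : K)
    rwa [map_one] at h1
  | insert j t hj ih =>
    rw [Finset.prod_insert hj]
    have h1 : Q.s i (pu K j (u j)) = (if i = j then a else 0) • pu K j (u j) := by
      by_cases hij : i = j
      · subst hij
        rw [if_pos rfl, s_pu, h, map_smul]
      · rw [if_neg hij, zero_smul, s_pu_ne hij]
    rw [s_mul_eig i h1 ih]
    congr 1
    by_cases hij : i = j
    · subst hij
      simp [hj]
    · simp [hij]

/-- [MTF-LD2] PROOF. For every `t : Finset I`, `Q.s i (∏_{j ∈ t} pu K j (u j)) = (if i ∈ t then a else 0) • ∏ ..` by induction on `t`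
(`s_mul_eig`, `s_pu`, `s_pu_ne`, `s_const` for the empty product). -/
theorem prodO_s {I : Type} [Fintype I] [DecidableEq I] {u : I → G.KO K} {i : I} {a : K}
    (h : Q.s1 (u i) = a • u i) : Q.s i (prodO u) = a • prodO u := by
  have h1 := ld2_fin h (Finset.univ : Finset I)
  rw [if_pos (Finset.mem_univ i)] at h1
  exact h1

/-- [MTF-LD2] -/
theorem prodO_JA {I : Type} [Fintype I] [DecidableEq I] {ε : I → Bool} {l : X} {u : I → G.KO K}
    (hu : ∀ i, Q.s1 (u i) = Q.val (sgn (ε i) • l) • u i ∧ Q.Reg (u i)) :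
    Q.JA ε l (prodO u) :=
  ⟨fun i => prodO_s (hu i).1, fun k => by
    show (prodO u).1 k ∈ Q.A
    rw [prodO_apply]
    exact Subalgebra.prod_mem _ fun i _ => (hu i).2 (k i)⟩

/-- [MTF-LD2] PROOF. `KO_ext`, `prodO_apply`, `Fintype.prod_option`. -/
theorem prodO_option {I : Type} [Fintype I] (u : Option I → G.KO K) :
    prodO u = pu K none (u none) * pb some (prodO fun i => u (some i)) := by
  apply KO_ext
  intro k
  have h2 : (pb some (prodO fun i => u (some i))).1 k
      = (prodO fun i => u (some i)).1 ((k : Option I → G.X) ∘ some) := rfl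
  rw [KO_mul, h2, prodO_apply, prodO_apply, Fintype.prod_option]
  rfl

/-- [MTF-LD2] PROOF. `KO_ext`, `prodO_apply`, `Fintype.prod_equiv`. -/
theorem prodO_equiv {I J : Type} [Fintype I] [Fintype J] (e : I ≃ J) (u : I → G.KO K) :
    pb e (prodO u) = prodO fun j => u (e.symm j) := by
  apply KO_ext
  intro k
  have h2 : (pb e (prodO u)).1 k = (prodO u).1 ((k : J → G.X) ∘ e) := rfl
  rw [h2, prodO_apply, prodO_apply]
  refine Fintype.prod_equiv e _ _ fun i => ?_
  simp

end

end Pool.Agent.MTF.LP
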