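import Pool.Agent.MTF.LD2

set_option linter.unusedSectionVars false

/-!
# [MTF-LD3] frames: statement, empty set, equivalences
-/

namespace Pool.Agent.MTF.LP

open AffGrp

section
variable {G : AffGrp} {K W X : Type} [Field K] [Algebra ℂ K] [Group W] [Fintype W]
  [MulSemiringAction W K] [SMulCommClass W ℂ K] [AddCommGroup X] [DistribMulAction W X]
variable {L L' : Type} [Finite L] [DecidableEq L] [Finite L'] [DecidableEq L']
variable {Q : TQD G K W X}

/-- Frames for the regular joint eigenfunctions of weight `l` in the span of finitely many regular functions. -/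
def FrameP (Q : TQD G K W X) (I : Type) [Fintype I] [DecidableEq I] : Prop :=
  ∀ (ε : I → Bool) (l : X) (κ : Type) [Fintype κ] (f : κ → (G.pow I).O),
    ∃ (J : Type) (_ : Fintype J) (u : J → I → G.KO K) (c : J → (G.pow I).KO K →ₗ[K] K),
      (∀ j i, Q.s1 (u j i) = Q.val (sgn (ε i) • l) • u j i ∧ Q.Reg (u j i)) ∧
      ∀ m ∈ Submodule.span K (Set.range fun t => inc K (f t)),
        (∀ i, Q.s i m = Q.val (sgn (ε i) • l) • m) →
          m = ∑ j, c j m • prodO (u j) ∧ (Q.Reg m → ∀ j, c j m ∈ Q.A)

/-- [MTF-LD3] PROOF. `J = Unit`, `c m = m.1 (fun i => i.elim)`; `prodO` of the empty family is `1`; two points of `PEmpty → G.X` are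
equal (`Subsingleton`), `KO_ext`. -/
theorem frame_empty : FrameP Q PEmpty := by
  intro ε l κ _ f
  refine ⟨Unit, inferInstance, fun _ i => i.elim, fun _ =>
    { toFun := fun m => m.1 (fun i => i.elim)
      map_add' := fun _ _ => rfl
      map_smul' := fun _ _ => rfl }, fun _ i => i.elim, fun m _ _ => ⟨?_, fun hm _ => hm _⟩⟩
  apply KO_ext
  intro k
  rw [KO_sum]
  simp only [Finset.univ_unique, Finset.sum_singleton]
  rw [KO_smul, prodO_apply]
  have hk : k = (fun i => i.elim) := funext fun i => i.elim
  rw [hk]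
  simp

/-- [MTF-LD3] PROOF. Given `ε, l, f` for `I'`, use the frames of `I` for `ε ∘ e` and `f t ∘ (· ∘ e.symm)` (`(G.pre e.symm (f t))`), i.e. the
functions `pb e.symm`. `pb e.symm` is bijective with inverse `pb e` (`KO_ext`, `Equiv.symm_comp_self`), `s_pb`, `prodO_equiv`, `pb_reg`;
`c'_j := c_j ∘ pb e.symm`, `u'_j i' := u_j (e.symm i')`. Span: `pb e.symm` maps the span of `inc (f t)` to the span of
`inc (G.pre e.symm (f t))` (`Submodule.map_span`, or `Submodule.span_induction`). -/
theorem frame_equiv {I I' : Type} [Fintype I] [DecidableEq I] [Fintype I'] [DecidableEq I']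
    (e : I ≃ I') (h : FrameP Q I) : FrameP Q I' := by
  intro ε l κ _ f
  obtain ⟨J, hJ, u, c, hu, hc⟩ := h (fun i => ε (e i)) l κ (fun t => G.pre e.symm (f t))
  refine ⟨J, hJ, fun j i' => u j (e.symm i'), fun j => (c j) ∘ₗ (pb e.symm).toLinearMap,
    fun j i' => ?_, fun m hm hw => ?_⟩
  · have := hu j (e.symm i')
    rwa [Equiv.apply_symm_apply] at this
  · have h1 : pb e.symm m ∈ Submodule.span K
        (Set.range fun t => inc K (G.pre e.symm (f t))) := by
      have h2 : ∀ t, (pb e.symm).toLinearMap (inc K (f t)) = inc K (G.pre e.symm (f t)) :=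
        fun t => rfl
      have h3 : pb e.symm m ∈ (Submodule.span K (Set.range fun t => inc K (f t))).map
          (pb (K := K) (G := G) e.symm).toLinearMap := Submodule.mem_map_of_mem hm
      rw [Submodule.map_span, ← Set.range_comp] at h3
      exact h3
    have h4 : ∀ i, Q.s i (pb e.symm m) = Q.val (sgn (ε (e i)) • l) • pb e.symm m := by
      intro i
      have := s_pb (Q := Q) (K := K) (G := G) (u := e.symm) e.symm.injective (e i) m
      rw [Equiv.symm_apply_apply] at this
      rw [this, hw (e i), map_smul]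
    obtain ⟨h5, h6⟩ := hc _ h1 h4
    refine ⟨?_, fun hr => h6 (pb_reg _ hr)⟩
    have h7 : pb e (pb e.symm m) = m := by
      apply KO_ext
      intro k
      rw [pb_apply, pb_apply]
      have h8 : ((k ∘ ⇑e) ∘ ⇑e.symm : I' → G.X) = k := by
        funext i
        exact congrArg k (e.apply_symm_apply i)
      exact congrArg m.1 h8
    conv_lhs => rw [← h7]
    conv_lhs => rw [h5]
    rw [map_sum]
    refine Finset.sum_congr rfl fun j _ => ?_
    rw [map_smul, prodO_equiv]
    rfl

end

end Pool.Agent.MTF.LP
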