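import Pool.Agent.MTF.LD3

set_option linter.unusedSectionVars false

/-!
# [MTF-LD4] frames: one more leg
-/

namespace Pool.Agent.MTF.LP

open AffGrp

section
variable {G : AffGrp} {K W X : Type} [Field K] [Algebra ℂ K] [Group W] [Fintype W]
  [MulSemiringAction W K] [SMulCommClass W ℂ K] [AddCommGroup X] [DistribMulAction W X]
variable {L L' : Type} [Finite L] [DecidableEq L] [Finite L'] [DecidableEq L']
variable {Q : TQD G K W X}

theorem ld4_inc_sum {H : AffGrp} {κ : Type} (t : Finset κ) (f : κ → H.O) :
    inc K (∑ i ∈ t, f i) = ∑ i ∈ t, inc K (f i) := by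
  classical
  induction t using Finset.induction_on with
  | empty =>
    simp only [Finset.sum_empty]
    exact KO_ext fun x => map_zero (algebraMap ℂ K)
  | insert a s ha ih =>
    rw [Finset.sum_insert ha, Finset.sum_insert ha, ← ih]
    exact KO_ext fun x => map_add (algebraMap ℂ K) _ _

theorem ld4_span_smul {M κ : Type} [AddCommGroup M] [Module K M] (c : κ → K) (f : κ → M) :
    Submodule.span K (Set.range fun p => c p • f p) ≤ Submodule.span K (Set.range f) := by
  rw [Submodule.span_le]
  rintro _ ⟨p, rfl⟩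
  exact Submodule.smul_mem _ _ (Submodule.subset_span ⟨p, rfl⟩)

theorem ld4_pi {n : Type} [Fintype n] [DecidableEq n] (f : (n → K) →ₗ[K] K) (r : n → K) :
    f r = ∑ a, f (Pi.single a 1) * r a := by
  conv_lhs => rw [LinearMap.pi_apply_eq_sum_univ f r]
  refine Finset.sum_congr rfl fun a _ => ?_
  rw [smul_eq_mul, mul_comm]
  congr 2
  funext j
  rw [Pi.single_apply]
  by_cases h : a = j
  · rw [if_pos h, if_pos h.symm]
  · rw [if_neg h, if_neg (Ne.symm h)]

/-- [MTF-LD4] PROOF. Given `ε, l, f t` (`t : κ`).
(1) `powO_split`: `(f t).1 (optP h k) = ∑_{j < n t} (g t j).1 h * (f' t j).1 k`; index `κ' = Σ t, Fin (n t)`.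
(2) `exists_rep` for the `g` (through `Fintype.equivFin κ'`): `E, φ`; `α` from `exists_dualfam`.
(3) `h` for `ε ∘ some`, `l` and `f'` (index `κ'`): `J', u', c'`.
(4) `hT.fl E (sgn (ε none) • l)`: `n0, e, cE`.
Put `J = Fin n0 × J'`, `u (j, t) none = ∑_a e j a • inc K (φ a)`, `u (j, t) (some i) = u' t i`,
`c (j, t) m = c' t (∑_a cE j (Pi.single a 1) • red (α a) m)`.
`u (j, t) none`: `s1` of it is `∑_a e j a • ∑_b sE b a • inc φ_b = ∑_b (sE.mulVec (e j)) b • inc φ_b` (`s1_phi`); regular values.
Let `m` be in the span with the weights. `m = ∑_{κ'} pu none (inc g) * pb some (f'')` with `f'' = coefficient • inc f'`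
(`Submodule.mem_span_range_iff_exists_fun`), so `opt_expand`, `opt_eig` apply: `m = ∑_a pu none (inc φ_a) * pb some (m_a)`,
`m_a = red (α a) m` in the span of the `inc f'`, `∑_a sE b a • m_a = val(..) • m_b`; other legs: `red_s`.  For every `k`:
`(m_a.1 k)_a` is an eigenvector, so `m_a.1 k = ∑_j cE j (m_·.1 k) * e j a`, i.e. `m_a = ∑_j e j a • M_j`,
`M_j := ∑_a cE j (Pi.single a 1) • m_a` (`cE j r = ∑_a r a * cE j (Pi.single a 1)`, `LinearMap.pi_apply_eq_sum_univ`).
`M_j = ∑_t c' t (M_j) • prodO (u' t)` by (3); insert, `prodO_option`.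
Regularity: `m` regular ⇒ `m_a` regular (`red_reg`) ⇒ `M_j.1 k = cE j (m_·.1 k) ∈ A` ⇒ `c' t M_j ∈ A`. -/
theorem frame_option (hT : TQ Q) {I : Type} [Fintype I] [DecidableEq I] (h : FrameP Q I) :
    FrameP Q (Option I) := by
  intro ε l κ _ f
  choose n g f' hf using fun t => powO_split (f t)
  let κ' : Type := Σ t : κ, Fin (n t)
  let gg : κ' → G.O := fun p => g p.1 p.2
  let ff : κ' → (G.pow I).O := fun p => f' p.1 p.2
  obtain ⟨E, φ, hφ, hρ, hsp⟩ := exists_rep (fun i : Fin (Fintype.card κ') =>
    gg ((Fintype.equivFin κ').symm i))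
  have hsp' : ∀ p, gg p ∈ Submodule.span ℂ (Set.range φ) := by
    intro p
    have := hsp (Fintype.equivFin κ' p)
    rwa [Equiv.symm_apply_apply] at this
  obtain ⟨α, hα⟩ := exists_dualfam hφ
  obtain ⟨J', hJ', u', c', hu', hc'⟩ := h (fun i => ε (some i)) l κ' ff
  obtain ⟨n0, e, cE, he, hcE⟩ := hT.fl E (sgn (ε none) • l)
  let Md : Fin n0 → (G.pow (Option I)).KO K →ₗ[K] (G.pow I).KO K :=
    fun j => ∑ a, cE j (Pi.single a 1) • red (α a)
  have hMd : ∀ j m, Md j m = ∑ a, cE j (Pi.single a 1) • red (α a) m := by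
    intro j m
    simp only [Md, LinearMap.sum_apply, LinearMap.smul_apply]
  refine ⟨Fin n0 × J', inferInstance, fun p o => o.elim (∑ a, e p.1 a • inc K (φ a)) (u' p.2),
    fun p => c' p.2 ∘ₗ Md p.1, ?_, ?_⟩
  · rintro ⟨j, t⟩ o
    cases o with
    | none =>
      refine ⟨?_, fun x => ?_⟩
      · show Q.s1 (∑ a, e j a • inc K (φ a)) = _ • ∑ a, e j a • inc K (φ a)
        rw [map_sum, Finset.smul_sum]
        simp only [map_smul, s1_phi hρ, Finset.smul_sum]
        rw [Finset.sum_comm]
        refine Finset.sum_congr rfl fun b _ => ?_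
        have h1 := congrFun (he j).2 b
        rw [Matrix.mulVec, dotProduct, Pi.smul_apply, smul_eq_mul] at h1
        rw [smul_smul, ← h1, Finset.sum_smul]
        refine Finset.sum_congr rfl fun a _ => ?_
        rw [smul_smul, mul_comm]
      · show (∑ a, e j a • inc K (φ a)).1 x ∈ Q.A
        rw [KO_sum]
        refine Subalgebra.sum_mem _ fun a _ => ?_
        rw [KO_smul]
        exact Subalgebra.mul_mem _ ((he j).1 a) (Subalgebra.algebraMap_mem _ _)
    | some i => exact hu' t i
  · intro m hm hw
    rw [Submodule.mem_span_range_iff_exists_fun] at hm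
    obtain ⟨c0, hc0⟩ := hm
    let F' : κ' → (G.pow I).KO K := fun p => c0 p.1 • inc K (ff p)
    have hinc : ∀ t, inc K (f t) =
        ∑ j, pu K none (inc K (g t j)) * pb some (inc K (f' t j)) := by
      intro t
      apply KO_ext
      intro k
      rw [KO_sum, inc_apply]
      have h1 := hf t (k none) (k ∘ some)
      rw [optP_eta] at h1
      rw [h1, map_sum]
      refine Finset.sum_congr rfl fun j _ => ?_
      rw [map_mul]
      rfl
    have hF : m = ∑ p : κ', pu K none (inc K (gg p)) * pb some (F' p) := by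
      rw [← hc0, Fintype.sum_sigma]
      refine Finset.sum_congr rfl fun t _ => ?_
      rw [hinc, Finset.smul_sum]
      refine Finset.sum_congr rfl fun j _ => ?_
      show _ = pu K none (inc K (g t j)) * pb some (c0 t • inc K (f' t j))
      rw [map_smul, mul_smul_comm]
    obtain ⟨h1, h2⟩ := opt_expand hα gg hsp' F' hF
    have h3 : ∀ a, red (α a) m ∈ Submodule.span K (Set.range fun p => inc K (ff p)) :=
      fun a => ld4_span_smul (fun p : κ' => c0 p.1) (fun p => inc K (ff p)) (h2 a)
    have h4 := opt_eig hρ hα h1 (hw none)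
    have h5 : ∀ a i, Q.s i (red (α a) m) = Q.val (sgn (ε (some i)) • l) • red (α a) m := by
      intro a i
      rw [red_s, hw (some i), map_smul]
    have h6 : ∀ j i, Q.s i (Md j m) = Q.val (sgn (ε (some i)) • l) • Md j m := by
      intro j i
      rw [hMd, map_sum, Finset.smul_sum]
      refine Finset.sum_congr rfl fun a _ => ?_
      rw [map_smul, h5, smul_comm]
    have h7 : ∀ j, Md j m ∈ Submodule.span K (Set.range fun p => inc K (ff p)) := by
      intro j
      rw [hMd]
      exact Submodule.sum_mem _ fun a _ => Submodule.smul_mem _ _ (h3 a)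
    have h8 : ∀ k, (Q.sE E).mulVec (fun a => (red (α a) m).1 k) =
        Q.val (sgn (ε none) • l) • fun a => (red (α a) m).1 k := by
      intro k
      funext b
      have := congrArg (fun F : (G.pow I).KO K => F.1 k) (h4 b)
      simp only [KO_sum, KO_smul] at this
      rw [Matrix.mulVec, dotProduct, Pi.smul_apply, smul_eq_mul]
      exact this
    have h9 : ∀ j k, (Md j m).1 k = cE j (fun a => (red (α a) m).1 k) := by
      intro j k
      rw [ld4_pi (cE j), hMd, KO_sum]
      rfl
    have h10 : ∀ a, red (α a) m = ∑ j, e j a • Md j m := by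
      intro a
      apply KO_ext
      intro k
      have := congrFun (hcE _ (h8 k)).1 a
      rw [KO_sum]
      refine this.trans ?_
      rw [Finset.sum_apply]
      refine Finset.sum_congr rfl fun j _ => ?_
      rw [Pi.smul_apply, smul_eq_mul, KO_smul, h9, mul_comm]
    have h11 : m = ∑ j, pu K none (∑ a, e j a • inc K (φ a)) * pb some (Md j m) := by
      conv_lhs => rw [h1]
      have h12 : ∀ a, pu K none (inc K (φ a)) * pb some (red (α a) m) =
          ∑ j, (pu K none (e j a • inc K (φ a))) * pb some (Md j m) := by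
        intro a
        conv_lhs => rw [h10 a]
        rw [map_sum, Finset.mul_sum]
        refine Finset.sum_congr rfl fun j _ => ?_
        rw [map_smul, map_smul, mul_smul_comm, smul_mul_assoc]
      rw [Finset.sum_congr rfl fun a _ => h12 a, Finset.sum_comm]
      refine Finset.sum_congr rfl fun j _ => ?_
      rw [map_sum, Finset.sum_mul]
    refine ⟨?_, ?_⟩
    · rw [Fintype.sum_prod_type]
      conv_lhs => rw [h11]
      refine Finset.sum_congr rfl fun j _ => ?_
      have h13 : pb (K := K) (G := G) some (Md j m) =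
          ∑ t, c' t (Md j m) • pb some (prodO (u' t)) := by
        conv_lhs => rw [(hc' _ (h7 j) (h6 j)).1]
        rw [map_sum]
        exact Finset.sum_congr rfl fun t _ => map_smul _ _ _
      rw [h13, Finset.mul_sum]
      refine Finset.sum_congr rfl fun t _ => ?_
      rw [prodO_option, mul_smul_comm]
      rfl
    · rintro hr ⟨j, t⟩
      refine (hc' _ (h7 j) (h6 j)).2 (fun k => ?_) t
      rw [h9]
      exact (hcE _ (h8 k)).2 (fun a => red_reg (α a) hr k) j

theorem ld4_inst (Q : TQD G K W X) {I : Type} (f f' : Fintype I) (d d' : DecidableEq I)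
    (h : by letI := f; letI := d; exact FrameP Q I) :
    by letI := f'; letI := d'; exact FrameP Q I := by
  have e1 : f = f' := Subsingleton.elim _ _
  have e2 : d = d' := Subsingleton.elim _ _
  subst e1
  subst e2
  exact h

/-- [MTF-LD4] PROOF. `Fintype.induction_empty_option` with `P α := ∀ [DecidableEq α], FrameP Q α` (`frame_equiv` for the first case; mind
that `Fintype` and `DecidableEq` instances are subsingletons). -/
theorem frame (hT : TQ Q) (I : Type) [Fintype I] [DecidableEq I] : FrameP Q I := by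
  have key : ∀ (α : Type) [inst : Fintype α], (∀ [DecidableEq α], FrameP Q α) := by
    intro α inst
    refine @Fintype.induction_empty_option (fun α _ => ∀ [DecidableEq α], FrameP Q α) ?_ ?_ ?_
      α inst
    · intro α β i1 e h i2
      exact @frame_equiv G K W X _ _ _ _ _ _ _ _ Q α β (@Fintype.ofEquiv α β i1 e.symm)
        (Classical.decEq α) i1 i2 e (@h (Classical.decEq α))
    · intro d
      exact ld4_inst Q _ _ _ _ (frame_empty (Q := Q))
    · intro α i1 h d
      exact ld4_inst Q _ _ _ _ (@frame_option G K W X _ _ _ _ _ _ _ _ Q hT α i1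
        (Classical.decEq α) (@h (Classical.decEq α)))
  exact key I

end

end Pool.Agent.MTF.LP
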