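import Pool.Agent.MTF.LD4
import Pool.Agent.MTF.LA5
import Pool.Agent.MTF.LA4

set_option linter.unusedSectionVars false

/-!
# [MTF-LD5] products of sections with slots
-/

namespace Pool.Agent.MTF.LP

open AffGrp

section
variable {G : AffGrp} {K W X : Type} [Field K] [Algebra ℂ K] [Group W] [Fintype W]
  [MulSemiringAction W K] [SMulCommClass W ℂ K] [AddCommGroup X] [DistribMulAction W X]
variable {L L' : Type} [Finite L] [DecidableEq L] [Finite L'] [DecidableEq L']
variable {Q : TQD G K W X}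

/-- [MTF-LD5] frames of one slot, applied to functions. PROOF. `M_j := ∑_a c_j (Pi.single a 1) • p a` for the frames `(e, c)` of
`hT.fl E l`; pointwise `M_j.1 k = c_j (fun a => (p a).1 k)` (`LinearMap.pi_apply_eq_sum_univ`), so the claims hold pointwise; weights by
linearity of `Q.s i`. -/
theorem slot_frame (hT : TQ Q) (E : Rep G) (l : X) : ∃ (n : ℕ) (e : Fin n → E.ι → K)
    (d : Fin n → E.ι → K), (∀ j, (∀ a, e j a ∈ Q.A) ∧ (Q.sE E).mulVec (e j) = Q.val l • e j) ∧
    ∀ {H : AffGrp} (p : E.ι → H.KO K), (∀ a, ∑ b, Q.sE E a b • p b = Q.val l • p a) →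
      (∀ a, p a = ∑ j, e j a • ∑ b, d j b • p b) ∧
      ((∀ a, Q.Reg (p a)) → ∀ j, Q.Reg (∑ b, d j b • p b)) := by
  obtain ⟨n, e, c, he, hc⟩ := hT.fl E l
  refine ⟨n, e, fun j b => c j (Pi.single b 1), he, fun {H} p hp => ?_⟩
  have h8 : ∀ k, (Q.sE E).mulVec (fun a => (p a).1 k) = Q.val l • fun a => (p a).1 k := by
    intro k
    funext b
    have := congrArg (fun F : H.KO K => F.1 k) (hp b)
    simp only [KO_sum, KO_smul] at this
    rw [Matrix.mulVec, dotProduct, Pi.smul_apply, smul_eq_mul]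
    exact this
  have h9 : ∀ j k, (∑ b, c j (Pi.single b 1) • p b).1 k = c j (fun a => (p a).1 k) := by
    intro j k
    rw [ld4_pi (c j), KO_sum]
    rfl
  refine ⟨fun a => ?_, fun hr j k => ?_⟩
  · apply KO_ext
    intro k
    have := congrFun (hc _ (h8 k)).1 a
    rw [KO_sum]
    refine this.trans ?_
    rw [Finset.sum_apply]
    refine Finset.sum_congr rfl fun j _ => ?_
    rw [Pi.smul_apply, smul_eq_mul, KO_smul, h9, mul_comm]
  · rw [h9]
    exact (hc _ (h8 k)).2 (fun a => hr a k) j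

/-- [MTF-LD5] the same with `fl'`. -/
theorem slot_frame' (hT : TQ Q) (E : Rep G) (l : X) : ∃ (n : ℕ) (e : Fin n → E.ι → K)
    (d : Fin n → E.ι → K), (∀ j, (∀ a, e j a ∈ Q.A) ∧ (Q.sE E).vecMul (e j) = Q.val l • e j) ∧
    ∀ {H : AffGrp} (p : E.ι → H.KO K), (∀ a, ∑ b, Q.sE E b a • p b = Q.val l • p a) →
      (∀ a, p a = ∑ j, e j a • ∑ b, d j b • p b) ∧
      ((∀ a, Q.Reg (p a)) → ∀ j, Q.Reg (∑ b, d j b • p b)) := by
  obtain ⟨n, e, c, he, hc⟩ := fl' hT E l
  refine ⟨n, e, fun j b => c j (Pi.single b 1), he, fun {H} p hp => ?_⟩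
  have h8 : ∀ k, (Q.sE E).vecMul (fun a => (p a).1 k) = Q.val l • fun a => (p a).1 k := by
    intro k
    funext b
    have := congrArg (fun F : H.KO K => F.1 k) (hp b)
    simp only [KO_sum, KO_smul] at this
    rw [Matrix.vecMul, dotProduct, Pi.smul_apply, smul_eq_mul]
    refine Eq.trans ?_ this
    exact Finset.sum_congr rfl fun a _ => mul_comm _ _
  have h9 : ∀ j k, (∑ b, c j (Pi.single b 1) • p b).1 k = c j (fun a => (p a).1 k) := by
    intro j k
    rw [ld4_pi (c j), KO_sum]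
    rfl
  refine ⟨fun a => ?_, fun hr j k => ?_⟩
  · apply KO_ext
    intro k
    have := congrFun (hc _ (h8 k)).1 a
    rw [KO_sum]
    refine this.trans ?_
    rw [Finset.sum_apply]
    refine Finset.sum_congr rfl fun j _ => ?_
    rw [Pi.smul_apply, smul_eq_mul, KO_smul, h9, mul_comm]
  · rw [h9]
    exact (hc _ (h8 k)).2 (fun a => hr a k) j

/-- [MTF-LD5] two slots, non-invariant form. PROOF. `slot_frame` for `E` (with fixed `a'`), then `slot_frame'` for `E'` applied to
`fun a' => ∑ b, d j b • p b a'`; weights `JA.wt` by linearity. -/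
theorem prod2_frame (hT : TQ Q) {ε : L → Bool} {l : X} {E E' : Rep G}
    {p : E.ι → E'.ι → (G.pow L).KO K} (hp : ∀ a a', Q.JA ε l (p a a'))
    (hs : ∀ a a', ∑ b, Q.sE E a b • p b a' = Q.val l • p a a')
    (hs' : ∀ a a', ∑ b, Q.sE E' b a' • p a b = Q.val l • p a a') :
    ∃ (n : ℕ) (m : Fin n → (G.pow L).KO K) (r : Fin n → E.ι → K) (r' : Fin n → E'.ι → K),
      (∀ j, Q.JA ε l (m j)) ∧
      (∀ j, (∀ a, r j a ∈ Q.A) ∧ (Q.sE E).mulVec (r j) = Q.val l • r j) ∧
      (∀ j, (∀ a, r' j a ∈ Q.A) ∧ (Q.sE E').vecMul (r' j) = Q.val l • r' j) ∧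
      ∀ a a', p a a' = ∑ j, (r j a * r' j a') • m j := by
  obtain ⟨n, e, d, he, H⟩ := slot_frame hT E l
  obtain ⟨n', e', d', he', H'⟩ := slot_frame' hT E' l
  let q : Fin n → E'.ι → (G.pow L).KO K := fun j a' => ∑ b, d j b • p b a'
  have hq : ∀ j a', Q.Reg (q j a') := fun j a' =>
    (H (fun b => p b a') (fun a => hs a a')).2 (fun a => (hp a a').reg) j
  have hqs : ∀ j a', ∑ b, Q.sE E' b a' • q j b = Q.val l • q j a' := by
    intro j a'
    show ∑ b, Q.sE E' b a' • ∑ x, d j x • p x b = Q.val l • ∑ x, d j x • p x a'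
    simp only [Finset.smul_sum]
    rw [Finset.sum_comm]
    refine Finset.sum_congr rfl fun x _ => ?_
    rw [smul_comm, ← hs' x a', Finset.smul_sum]
    exact Finset.sum_congr rfl fun b _ => smul_comm _ _ _
  have hqw : ∀ j a' i, Q.s i (q j a') = Q.val (sgn (ε i) • l) • q j a' := by
    intro j a' i
    show Q.s i (∑ x, d j x • p x a') = _ • ∑ x, d j x • p x a'
    rw [map_sum, Finset.smul_sum]
    refine Finset.sum_congr rfl fun x _ => ?_
    rw [map_smul, (hp x a').wt, smul_comm]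
  let m : Fin n → Fin n' → (G.pow L).KO K := fun j j' => ∑ b, d' j' b • q j b
  have hm : ∀ j j', Q.JA ε l (m j j') := by
    intro j j'
    refine ⟨fun i => ?_, (H' (q j) (hqs j)).2 (hq j) j'⟩
    show Q.s i (∑ x, d' j' x • q j x) = _ • ∑ x, d' j' x • q j x
    rw [map_sum, Finset.smul_sum]
    refine Finset.sum_congr rfl fun x _ => ?_
    rw [map_smul, hqw, smul_comm]
  refine ⟨n * n', fun t => m (finProdFinEquiv.symm t).1 (finProdFinEquiv.symm t).2,
    fun t => e (finProdFinEquiv.symm t).1, fun t => e' (finProdFinEquiv.symm t).2,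
    fun t => hm _ _, fun t => he _, fun t => he' _, fun a a' => ?_⟩
  rw [← Equiv.sum_comp finProdFinEquiv, Fintype.sum_prod_type]
  simp only [Equiv.symm_apply_apply]
  rw [(H (fun b => p b a') (fun a => hs a a')).1 a]
  refine Finset.sum_congr rfl fun j _ => ?_
  show e j a • q j a' = _
  conv_lhs => rw [(H' (q j) (hqs j)).1 a']
  rw [Finset.smul_sum]
  refine Finset.sum_congr rfl fun j' _ => ?_
  rw [smul_smul]

end

end Pool.Agent.MTF.LP
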