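import Pool.Agent.MTF.LD5

set_option linter.unusedSectionVars false

/-!
# [MTF-LD5b] products of sections with one slot
-/

namespace Pool.Agent.MTF.LP

open AffGrp

section
variable {G : AffGrp} {K W X : Type} [Field K] [Algebra ℂ K] [Group W] [Fintype W]
  [MulSemiringAction W K] [SMulCommClass W ℂ K] [AddCommGroup X] [DistribMulAction W X]
variable {L L' : Type} [Finite L] [DecidableEq L] [Finite L'] [DecidableEq L']
variable {Q : TQD G K W X}

theorem ld5b_JA_smul {ε : L → Bool} {l : X} {F : (G.pow L).KO K} (h : Q.JA ε l F) {c : K}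
    (hc : c ∈ Q.A) : Q.JA ε l (c • F) := by
  refine ⟨fun i => ?_, fun x => ?_⟩
  · rw [map_smul, h.wt i, smul_comm]
  · rw [KO_smul]
    exact Q.A.mul_mem hc (h.reg x)

theorem ld5b_InvO_smul (l : X) {H : AffGrp} {F : H.KO K} (h : InvO W l F) {c : K}
    (hc : InvK W l c) : InvO W l (c • F) := by
  intro w hw
  rw [wO_smul, hc w hw, h w hw]

theorem ld5b_mulVec (E : Rep G) (l : X) (c : K) {r : E.ι → K}
    (h : (Q.sE E).mulVec r = Q.val l • r) :
    (Q.sE E).mulVec (fun a => c * r a) = Q.val l • fun a => c * r a := by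
  have e : (fun a => c * r a) = c • r := rfl
  rw [e, Matrix.mulVec_smul, h, smul_comm]

theorem ld5b_vecMul (E : Rep G) (l : X) (c : K) {r : E.ι → K}
    (h : (Q.sE E).vecMul r = Q.val l • r) :
    (Q.sE E).vecMul (fun a => c * r a) = Q.val l • fun a => c * r a := by
  have e : (fun a => c * r a) = c • r := rfl
  rw [e, Matrix.smul_vecMul, h, smul_comm]

/-- the averaging step, independent of the slot -/
theorem ld5b_avg (hT : TQ Q) {ε : L → Bool} {l : X} {α : Type}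
    {p : α → (G.pow L).KO K} (hi : ∀ a, InvO W l (p a)) {n : ℕ} (m : Fin n → (G.pow L).KO K)
    (hm : ∀ j, Q.JA ε l (m j)) (r : Fin n → α → K) (hsum : ∀ a, p a = ∑ j, r j a • m j) :
    ∃ (n' : ℕ) (m' : Fin n' → (G.pow L).KO K) (q : Fin n' → Fin n) (c : Fin n' → K),
      (∀ t, Q.JA ε l (m' t) ∧ InvO W l (m' t)) ∧ (∀ t, c t ∈ Q.A) ∧
      ∀ a, p a = ∑ t, Q.Dav l (c t * r (q t) a) • m' t := by
  classical
  obtain ⟨N, b, d, hb, hd, havg⟩ := avg_prod hT l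
  let e := Fintype.equivFin (Fin n × Fin N × Fin N × Fin N)
  refine ⟨_, fun q => (d (e.symm q).2.1 (e.symm q).2.2.1 (e.symm q).2.2.2 *
      Q.Dav l (b (e.symm q).2.2.1 * 1)) • DavO Q l (b (e.symm q).2.2.2 • m (e.symm q).1),
    fun q => (e.symm q).1, fun q => b (e.symm q).2.1, ?_, fun q => hb _, ?_⟩
  · intro q
    have hA : d (e.symm q).2.1 (e.symm q).2.2.1 (e.symm q).2.2.2 *
        Q.Dav l (b (e.symm q).2.2.1 * 1) ∈ Q.A :=
      Q.A.mul_mem (hd _ _ _).1 (hT.Dav_mem l _ (Q.A.mul_mem (hb _) Q.A.one_mem))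
    have hI : InvK W l (d (e.symm q).2.1 (e.symm q).2.2.1 (e.symm q).2.2.2 *
        Q.Dav l (b (e.symm q).2.2.1 * 1)) := by
      intro w hw
      rw [smul_mul', (hd _ _ _).2 w hw, Dav_inv hT l _ w hw]
    exact ⟨ld5b_JA_smul (DavO_JA hT (ld5b_JA_smul (hm _) (hb _))) hA,
      ld5b_InvO_smul l (DavO_inv hT l _) hI⟩
  · intro a
    apply KO_ext
    intro k
    have h1 : (p a).1 k = ∑ j, r j a * 1 * (m j).1 k := by
      rw [hsum a, KO_sum]
      refine Finset.sum_congr rfl fun j _ => ?_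
      rw [KO_smul, mul_one]
    have hinv : InvK W l (∑ j, r j a * 1 * (m j).1 k) := by
      intro w hw
      rw [← h1, ← wO_apply, hi a w hw]
    rw [h1, havg n _ (fun _ => 1) _ hinv, KO_sum,
      Equiv.sum_comp e.symm (fun q : Fin n × Fin N × Fin N × Fin N =>
      (Q.Dav l (b q.2.1 * r q.1 a) • ((d q.2.1 q.2.2.1 q.2.2.2 *
        Q.Dav l (b q.2.2.1 * 1)) • DavO Q l (b q.2.2.2 • m q.1))).1 k), Fintype.sum_prod_type]
    refine Finset.sum_congr rfl fun j _ => ?_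
    rw [Fintype.sum_prod_type]
    refine Finset.sum_congr rfl fun i _ => ?_
    rw [Fintype.sum_prod_type]
    refine Finset.sum_congr rfl fun i' _ => ?_
    refine Finset.sum_congr rfl fun i'' _ => ?_
    rw [KO_smul, KO_smul, DavO_apply, KO_smul]
    ring

theorem ld5b_JA_lin {ε : L → Bool} {l : X} {α : Type} [Fintype α] {p : α → (G.pow L).KO K}
    (hp : ∀ a, Q.JA ε l (p a)) (d : α → K) (hr : Q.Reg (∑ b, d b • p b)) :
    Q.JA ε l (∑ b, d b • p b) := by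
  refine ⟨fun i => ?_, hr⟩
  rw [map_sum, Finset.smul_sum]
  refine Finset.sum_congr rfl fun b _ => ?_
  rw [map_smul, (hp b).wt i, smul_comm]

/-- [MTF-LD5b] PROOF. As `prod2`: `slot_frame`, then `avg_prod` with `y = 1` (then `Dav (b i' * 1) ∈ A` is invariant, put it into `m`). -/
theorem prod1 (hT : TQ Q) {ε : L → Bool} {l : X} {E : Rep G}
    {p : E.ι → (G.pow L).KO K} (hp : ∀ a, Q.JA ε l (p a)) (hi : ∀ a, InvO W l (p a))
    (hs : ∀ a, ∑ b, Q.sE E a b • p b = Q.val l • p a) :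
    ∃ (n : ℕ) (m : Fin n → (G.pow L).KO K) (r : Fin n → E.ι → K),
      (∀ j, Q.JA ε l (m j) ∧ InvO W l (m j)) ∧
      (∀ j, (∀ a, r j a ∈ Q.A ∧ InvK W l (r j a)) ∧ (Q.sE E).mulVec (r j) = Q.val l • r j) ∧
      ∀ a, p a = ∑ j, r j a • m j := by
  obtain ⟨n, e, d, he, hfr⟩ := slot_frame hT E l
  obtain ⟨h1, h2⟩ := hfr p hs
  have hM : ∀ j, Q.JA ε l (∑ b, d j b • p b) := fun j =>
    ld5b_JA_lin hp (d j) (h2 (fun a => (hp a).reg) j)
  obtain ⟨n', m', q, c, hm', hc, hsum⟩ := ld5b_avg hT hi _ hM e h1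
  refine ⟨n', m', fun t a => Q.Dav l (c t * e (q t) a), hm', fun t => ⟨fun a =>
    ⟨hT.Dav_mem l _ (Q.A.mul_mem (hc t) ((he _).1 a)), Dav_inv hT l _⟩, ?_⟩, hsum⟩
  exact Dav_mulVec hT E l (ld5b_mulVec E l _ (he _).2)

/-- [MTF-LD5b] -/
theorem prod1' (hT : TQ Q) {ε : L → Bool} {l : X} {E : Rep G}
    {p : E.ι → (G.pow L).KO K} (hp : ∀ a, Q.JA ε l (p a)) (hi : ∀ a, InvO W l (p a))
    (hs : ∀ a, ∑ b, Q.sE E b a • p b = Q.val l • p a) :
    ∃ (n : ℕ) (m : Fin n → (G.pow L).KO K) (r : Fin n → E.ι → K),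
      (∀ j, Q.JA ε l (m j) ∧ InvO W l (m j)) ∧
      (∀ j, (∀ a, r j a ∈ Q.A ∧ InvK W l (r j a)) ∧ (Q.sE E).vecMul (r j) = Q.val l • r j) ∧
      ∀ a, p a = ∑ j, r j a • m j := by
  obtain ⟨n, e, d, he, hfr⟩ := slot_frame' hT E l
  obtain ⟨h1, h2⟩ := hfr p hs
  have hM : ∀ j, Q.JA ε l (∑ b, d j b • p b) := fun j =>
    ld5b_JA_lin hp (d j) (h2 (fun a => (hp a).reg) j)
  obtain ⟨n', m', q, c, hm', hc, hsum⟩ := ld5b_avg hT hi _ hM e h1
  refine ⟨n', m', fun t a => Q.Dav l (c t * e (q t) a), hm', fun t => ⟨fun a =>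
    ⟨hT.Dav_mem l _ (Q.A.mul_mem (hc t) ((he _).1 a)), Dav_inv hT l _⟩, ?_⟩, hsum⟩
  exact Dav_vecMul hT E l (ld5b_vecMul E l _ (he _).2)

end

end Pool.Agent.MTF.LP
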