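import Pool.Agent.MTF.LD5

set_option linter.unusedSectionVars false

/-!
# [MTF-LD5c] products of sections with two slots
-/

namespace Pool.Agent.MTF.LP

open AffGrp

section
variable {G : AffGrp} {K W X : Type} [Field K] [Algebra ℂ K] [Group W] [Fintype W]
  [MulSemiringAction W K] [SMulCommClass W ℂ K] [AddCommGroup X] [DistribMulAction W X]
variable {L L' : Type} [Finite L] [DecidableEq L] [Finite L'] [DecidableEq L']
variable {Q : TQD G K W X}

theorem ld5c_JA_smul {ε : L → Bool} {l : X} {F : (G.pow L).KO K} (h : Q.JA ε l F) {c : K}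
    (hc : c ∈ Q.A) : Q.JA ε l (c • F) := by
  refine ⟨fun i => ?_, fun x => ?_⟩
  · rw [map_smul, h.wt i, smul_comm]
  · rw [KO_smul]
    exact Q.A.mul_mem hc (h.reg x)

theorem ld5c_InvO_smul (l : X) {H : AffGrp} {F : H.KO K} (h : InvO W l F) {c : K}
    (hc : InvK W l c) : InvO W l (c • F) := by
  intro w hw
  rw [wO_smul, hc w hw, h w hw]

theorem ld5c_mulVec (E : Rep G) (l : X) (c : K) {r : E.ι → K}
    (h : (Q.sE E).mulVec r = Q.val l • r) :
    (Q.sE E).mulVec (fun a => c * r a) = Q.val l • fun a => c * r a := by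
  have e : (fun a => c * r a) = c • r := rfl
  rw [e, Matrix.mulVec_smul, h, smul_comm]

theorem ld5c_vecMul (E : Rep G) (l : X) (c : K) {r : E.ι → K}
    (h : (Q.sE E).vecMul r = Q.val l • r) :
    (Q.sE E).vecMul (fun a => c * r a) = Q.val l • fun a => c * r a := by
  have e : (fun a => c * r a) = c • r := rfl
  rw [e, Matrix.smul_vecMul, h, smul_comm]

/-- [MTF-LD5c] two slots. PROOF. `prod2_frame`, then `avg_prod` (with `x = r j a`, `y = r' j a'`, `z = (m j).1 k`) pointwise: the sum is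
invariant by `hi`. New index `(j, i, i', i'')` (`Fin n × Fin N × Fin N × Fin N`, then `Fintype.equivFin`):
`m := d i i' i'' • DavO (b i'' • m j)`, `r := Dav (b i * r j ·)`, `r' := Dav (b i' * r' j ·)`
(`DavO_JA`, `DavO_inv`, `DavO_apply`, `Dav_mulVec`, `Dav_vecMul`, `Dav_inv`, `hT.Dav_mem`; a multiple of a `JA` by an element of `A`
is `JA`). -/
theorem prod2 (hT : TQ Q) {ε : L → Bool} {l : X} {E E' : Rep G}
    {p : E.ι → E'.ι → (G.pow L).KO K} (hp : ∀ a a', Q.JA ε l (p a a'))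
    (hi : ∀ a a', InvO W l (p a a'))
    (hs : ∀ a a', ∑ b, Q.sE E a b • p b a' = Q.val l • p a a')
    (hs' : ∀ a a', ∑ b, Q.sE E' b a' • p a b = Q.val l • p a a') :
    ∃ (n : ℕ) (m : Fin n → (G.pow L).KO K) (r : Fin n → E.ι → K) (r' : Fin n → E'.ι → K),
      (∀ j, Q.JA ε l (m j) ∧ InvO W l (m j)) ∧
      (∀ j, (∀ a, r j a ∈ Q.A ∧ InvK W l (r j a)) ∧ (Q.sE E).mulVec (r j) = Q.val l • r j) ∧
      (∀ j, (∀ a, r' j a ∈ Q.A ∧ InvK W l (r' j a)) ∧ (Q.sE E').vecMul (r' j) = Q.val l • r' j) ∧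
      ∀ a a', p a a' = ∑ j, (r j a * r' j a') • m j := by
  classical
  obtain ⟨n, m, r, r', hm, hr, hr', hsum⟩ := prod2_frame hT hp hs hs'
  obtain ⟨N, b, d, hb, hd, havg⟩ := avg_prod hT l
  let e := Fintype.equivFin (Fin n × Fin N × Fin N × Fin N)
  refine ⟨_, fun q => d (e.symm q).2.1 (e.symm q).2.2.1 (e.symm q).2.2.2 •
      DavO Q l (b (e.symm q).2.2.2 • m (e.symm q).1),
    fun q a => Q.Dav l (b (e.symm q).2.1 * r (e.symm q).1 a),
    fun q a => Q.Dav l (b (e.symm q).2.2.1 * r' (e.symm q).1 a), ?_, ?_, ?_, ?_⟩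
  · intro q
    refine ⟨ld5c_JA_smul (DavO_JA hT (ld5c_JA_smul (hm _) (hb _))) (hd _ _ _).1,
      ld5c_InvO_smul l (DavO_inv hT l _) (hd _ _ _).2⟩
  · intro q
    refine ⟨fun a => ⟨hT.Dav_mem l _ (Q.A.mul_mem (hb _) ((hr _).1 a)), Dav_inv hT l _⟩, ?_⟩
    exact Dav_mulVec hT E l (ld5c_mulVec E l _ (hr _).2)
  · intro q
    refine ⟨fun a => ⟨hT.Dav_mem l _ (Q.A.mul_mem (hb _) ((hr' _).1 a)), Dav_inv hT l _⟩, ?_⟩
    exact Dav_vecMul hT E' l (ld5c_vecMul E' l _ (hr' _).2)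
  · intro a a'
    apply KO_ext
    intro k
    have h1 : (p a a').1 k = ∑ j, r j a * r' j a' * (m j).1 k := by
      rw [hsum a a', KO_sum]
      rfl
    have hinv : InvK W l (∑ j, r j a * r' j a' * (m j).1 k) := by
      intro w hw
      rw [← h1, ← wO_apply, hi a a' w hw]
    rw [h1, havg n _ _ _ hinv, KO_sum, Equiv.sum_comp e.symm (fun q : Fin n × Fin N × Fin N × Fin N =>
      ((Q.Dav l (b q.2.1 * r q.1 a) * Q.Dav l (b q.2.2.1 * r' q.1 a')) •
        (d q.2.1 q.2.2.1 q.2.2.2 • DavO Q l (b q.2.2.2 • m q.1))).1 k), Fintype.sum_prod_type]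
    refine Finset.sum_congr rfl fun j _ => ?_
    rw [Fintype.sum_prod_type]
    refine Finset.sum_congr rfl fun i _ => ?_
    rw [Fintype.sum_prod_type]
    refine Finset.sum_congr rfl fun i' _ => ?_
    refine Finset.sum_congr rfl fun i'' _ => ?_
    rw [KO_smul, KO_smul, DavO_apply, KO_smul]
    ring

end

end Pool.Agent.MTF.LP
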