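import Pool.Agent.MTF.LD4
import Pool.Agent.MTF.LA5
import Pool.Agent.MTF.LA4

set_option linter.unusedSectionVars false

/-!
# [MTF-LD6] products over a disjoint union of legs
-/

namespace Pool.Agent.MTF.LP

open AffGrp

section
variable {G : AffGrp} {K W X : Type} [Field K] [Algebra ℂ K] [Group W] [Fintype W]
  [MulSemiringAction W K] [SMulCommClass W ℂ K] [AddCommGroup X] [DistribMulAction W X]
variable {L L' : Type} [Finite L] [DecidableEq L] [Finite L'] [DecidableEq L']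
variable {Q : TQD G K W X}

omit [DecidableEq L] [DecidableEq L'] in
theorem ld6_powO_splitS (F : (G.pow (L ⊕ L')).O) : ∃ (n : ℕ) (a : Fin n → (G.pow L).O)
    (b : Fin n → (G.pow L').O), ∀ (k : L → G.X) (k' : L' → G.X),
      F.1 (Sum.elim k k') = ∑ j, (a j).1 k * (b j).1 k' := by
  obtain ⟨f, hf⟩ := F
  have hf' : f ∈ G.powO (L ⊕ L') := hf
  show ∃ (n : ℕ) (a : Fin n → (G.pow L).O)
    (b : Fin n → (G.pow L').O), ∀ (k : L → G.X) (k' : L' → G.X),
      f (Sum.elim k k') = ∑ j, (a j).1 k * (b j).1 k'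
  clear hf
  unfold powO at hf'
  induction hf' using Algebra.adjoin_induction with
  | mem F hF =>
    obtain ⟨i, f, rfl⟩ := hF
    cases i with
    | inl i =>
      refine ⟨1, fun _ => G.pull i f, fun _ => 1, fun k k' => ?_⟩
      rw [Fin.sum_univ_one]
      show f.1 (k i) = f.1 (k i) * 1
      rw [mul_one]
    | inr i =>
      refine ⟨1, fun _ => 1, fun _ => G.pull i f, fun k k' => ?_⟩
      rw [Fin.sum_univ_one]
      show f.1 (k' i) = 1 * f.1 (k' i)
      rw [one_mul]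
  | algebraMap c =>
    refine ⟨1, fun _ => algebraMap ℂ _ c, fun _ => 1, fun k k' => ?_⟩
    rw [Fin.sum_univ_one]
    show c = c * 1
    rw [mul_one]
  | add F F' _ _ ih ih' =>
    obtain ⟨n, a, b, h⟩ := ih
    obtain ⟨n', a', b', h'⟩ := ih'
    refine ⟨n + n', Fin.append a a', Fin.append b b', fun k k' => ?_⟩
    rw [Fin.sum_univ_add]
    simp only [Fin.append_left, Fin.append_right]
    rw [← h, ← h']
    rfl
  | mul F F' _ _ ih ih' =>
    obtain ⟨n, a, b, h⟩ := ih
    obtain ⟨n', a', b', h'⟩ := ih'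
    refine ⟨n * n', fun j => a (finProdFinEquiv.symm j).1 * a' (finProdFinEquiv.symm j).2,
      fun j => b (finProdFinEquiv.symm j).1 * b' (finProdFinEquiv.symm j).2, fun k k' => ?_⟩
    show F (Sum.elim k k') * F' (Sum.elim k k') = _
    rw [h, h', Finset.sum_mul_sum, ← Equiv.sum_comp finProdFinEquiv, Fintype.sum_prod_type]
    refine Finset.sum_congr rfl fun i _ => Finset.sum_congr rfl fun l _ => ?_
    simp only [Equiv.symm_apply_apply]
    show _ = ((a i).1 k * (a' l).1 k) * ((b i).1 k' * (b' l).1 k')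
    ring

/-- [MTF-LD6] PROOF. `G.powO (L ⊕ L')` is generated by functions of one leg: `Algebra.adjoin_induction` as in `powO_split`
(generator `i = inl j`: `f = inc (G.pull j f)`, `g = 1`; `i = inr j`: `f = 1`; sums `Fin.append`, products `finProdFinEquiv`), then `KO_rep`. -/
theorem KO_splitS (F : (G.pow (L ⊕ L')).KO K) : ∃ (n : ℕ) (f : Fin n → (G.pow L).KO K)
    (g : Fin n → (G.pow L').O), ∀ (k : L → G.X) (k' : L' → G.X),
      F.1 (Sum.elim k k') = ∑ j, (f j).1 k * algebraMap ℂ K ((g j).1 k') := by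
  obtain ⟨n, c, f, h⟩ := KO_rep F
  choose m a b hab using fun i => ld6_powO_splitS (f i)
  let e := Fintype.equivFin (Σ i : Fin n, Fin (m i))
  refine ⟨Fintype.card (Σ i : Fin n, Fin (m i)),
    fun j => c (e.symm j).1 • inc K (a (e.symm j).1 (e.symm j).2),
    fun j => b (e.symm j).1 (e.symm j).2, fun k k' => ?_⟩
  have h1 := Equiv.sum_comp e.symm (fun t : Σ i : Fin n, Fin (m i) =>
    (c t.1 • inc K (a t.1 t.2)).1 k * algebraMap ℂ K ((b t.1 t.2).1 k'))
  rw [h1, h, Fintype.sum_sigma]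
  refine Finset.sum_congr rfl fun i _ => ?_
  rw [hab i k k', map_sum, Finset.mul_sum]
  refine Finset.sum_congr rfl fun l _ => ?_
  rw [map_mul, KO_smul, inc_apply]
  ring

/-- [MTF-LD6] PROOF. With `KO_splitS`: `F = ∑_j pb inl (f j) * pb inr (inc (g j))` (`KO_ext`, every point is
`Sum.elim (k ∘ inl) (k ∘ inr)`, `Sum.elim_comp_inl_inr`); `s_mul`, `s_pb`, `s_pb_out`. -/
theorem s_splitS (F : (G.pow (L ⊕ L')).KO K) {n : ℕ} (f : Fin n → (G.pow L).KO K)
    (g : Fin n → (G.pow L').O) (hF : ∀ (k : L → G.X) (k' : L' → G.X),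
      F.1 (Sum.elim k k') = ∑ j, (f j).1 k * algebraMap ℂ K ((g j).1 k')) (k : L → G.X)
    (k' : L' → G.X) :
    (∀ i, (Q.s (Sum.inl i) F).1 (Sum.elim k k') =
      ∑ j, (Q.s i (f j)).1 k * algebraMap ℂ K ((g j).1 k')) ∧
    ∀ i, (Q.s (Sum.inr i) F).1 (Sum.elim k k') =
      ∑ j, (f j).1 k * (Q.s i (inc K (g j))).1 k' := by
  have hFe : F = ∑ j, pb (G := G) (K := K) (Sum.inl : L → L ⊕ L') (f j) *
      pb (G := G) (K := K) (Sum.inr : L' → L ⊕ L') (inc K (g j)) := by
    refine KO_ext fun x => ?_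
    have hx : Sum.elim ((x : L ⊕ L' → G.X) ∘ Sum.inl) ((x : L ⊕ L' → G.X) ∘ Sum.inr) = x :=
      Sum.elim_comp_inl_inr x
    rw [KO_sum]
    have h1 := hF ((x : L ⊕ L' → G.X) ∘ Sum.inl) ((x : L ⊕ L' → G.X) ∘ Sum.inr)
    rw [hx] at h1
    rw [h1]
    rfl
  refine ⟨fun i => ?_, fun i => ?_⟩
  · rw [hFe, map_sum, KO_sum]
    refine Finset.sum_congr rfl fun j _ => ?_
    rw [s_mul, s_pb_out (fun i' h => by cases h), s_pb Sum.inl_injective, mul_zero, zero_add,
      KO_mul, pb_apply, pb_apply, inc_apply]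
    rw [mul_comm]
    rfl
  · rw [hFe, map_sum, KO_sum]
    refine Finset.sum_congr rfl fun j _ => ?_
    rw [s_mul, s_pb_out (u := (Sum.inl : L → L ⊕ L')) (fun i' h => by cases h),
      s_pb Sum.inr_injective, mul_zero, add_zero, KO_mul, pb_apply, pb_apply]
    rfl

end

end Pool.Agent.MTF.LP
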