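import Pool.Agent.MTF.LD6

set_option linter.unusedSectionVars false

/-!
# [MTF-LD6b] products over a disjoint union of legs, frames
-/

namespace Pool.Agent.MTF.LP

open AffGrp

section
variable {G : AffGrp} {K W X : Type} [Field K] [Algebra ℂ K] [Group W] [Fintype W]
  [MulSemiringAction W K] [SMulCommClass W ℂ K] [AddCommGroup X] [DistribMulAction W X]
variable {L L' : Type} [Finite L] [DecidableEq L] [Finite L'] [DecidableEq L']
variable {Q : TQD G K W X}

/-- [MTF-LD6b] PROOF. `KO_splitS`: `f, g`. `frame hT L' (with Fintype.ofFinite)` for `ε', l, g`: `u, c`, `e_t := prodO (u t)` (`prodO_JA`).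
`M_t := ∑_j c t (inc K (g j)) • f j`, so `M_t.1 k = c t (p_k)`, `p_k := ∑_j (f j).1 k • inc K (g j)` (a function on `G^L'`, the slice of `p`).
`p_k` is in the span, has the weights (`s_splitS`, `hp.wt (inr i)`), and is regular: so `p_k = ∑_t M_t.1 k • e_t` and `M_t.1 k ∈ A`.
Weights of `M_t`: by `s_splitS` and `hp.wt (inl i)`, for all `k, k'`: `∑_j (Q.s i (f j)).1 k * g_j(k') = val * ∑_j (f j).1 k * g_j(k')`, i.e.
`∑_j (Q.s i (f j)).1 k • inc (g j) = val • ∑_j (f j).1 k • inc (g j)`; apply `c t`. -/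
theorem prodS_frame (hT : TQ Q) {ε : L → Bool} {ε' : L' → Bool} {l : X}
    {p : (G.pow (L ⊕ L')).KO K} (hp : Q.JA (Sum.elim ε ε') l p) :
    ∃ (n : ℕ) (m : Fin n → (G.pow L).KO K) (m' : Fin n → (G.pow L').KO K),
      (∀ j, Q.JA ε l (m j)) ∧ (∀ j, Q.JA ε' l (m' j)) ∧
      ∀ (k : L → G.X) (k' : L' → G.X), p.1 (Sum.elim k k') = ∑ j, (m j).1 k * (m' j).1 k' := by
  letI : Fintype L' := Fintype.ofFinite L'
  obtain ⟨n, f, g, hF⟩ := KO_splitS p
  obtain ⟨J, hJ, u, c, hu, hc⟩ := frame hT L' ε' l (Fin n) g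
  have hsp := fun k k' => s_splitS (Q := Q) p f g hF k k'
  -- the slices
  have hP : ∀ (k : L → G.X) (k' : L' → G.X),
      (∑ j, (f j).1 k • inc K (g j)).1 k' = p.1 (Sum.elim k k') := by
    intro k k'
    rw [KO_sum, hF]
    rfl
  have hspan : ∀ a : Fin n → K, (∑ j, a j • inc K (g j)) ∈
      Submodule.span K (Set.range fun t => inc K (g t)) := by
    intro a
    exact Submodule.sum_mem _ fun j _ => Submodule.smul_mem _ _ (Submodule.subset_span ⟨j, rfl⟩)
  have hct : ∀ (t : J) (a : Fin n → K), c t (∑ j, a j • inc K (g j)) = ∑ j, a j * c t (inc K (g j)) := by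
    intro t a
    rw [map_sum]
    refine Finset.sum_congr rfl fun j _ => ?_
    rw [map_smul, smul_eq_mul]
  have hwt : ∀ (k : L → G.X) (i : L'), Q.s i (∑ j, (f j).1 k • inc K (g j)) =
      Q.val (sgn (ε' i) • l) • ∑ j, (f j).1 k • inc K (g j) := by
    intro k i
    apply KO_ext
    intro k'
    rw [map_sum, KO_sum, KO_smul, hP]
    have h1 := (hsp k k').2 i
    have h2 := hp.wt (Sum.inr i)
    rw [h2, KO_smul] at h1
    rw [Sum.elim_inr] at h1
    rw [h1]
    refine Finset.sum_congr rfl fun j _ => ?_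
    rw [map_smul, KO_smul]
  have hreg : ∀ k : L → G.X, Q.Reg (∑ j, (f j).1 k • inc K (g j)) := by
    intro k k'
    rw [hP]
    exact hp.reg _
  have hM : ∀ (t : J) (k : L → G.X), (∑ j, c t (inc K (g j)) • f j).1 k =
      c t (∑ j, (f j).1 k • inc K (g j)) := by
    intro t k
    rw [hct, KO_sum]
    refine Finset.sum_congr rfl fun j _ => ?_
    rw [KO_smul, mul_comm]
  have hJA : ∀ t : J, Q.JA ε l (∑ j, c t (inc K (g j)) • f j) := by
    intro t
    refine ⟨fun i => ?_, fun k => ?_⟩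
    · apply KO_ext
      intro k
      rw [KO_smul, hM]
      have e1 : (∑ j, (Q.s i (f j)).1 k • inc K (g j)) =
          Q.val (sgn (ε i) • l) • ∑ j, (f j).1 k • inc K (g j) := by
        apply KO_ext
        intro k'
        rw [KO_sum, KO_smul, hP]
        have h1 := (hsp k k').1 i
        have h2 := hp.wt (Sum.inl i)
        rw [h2, KO_smul] at h1
        rw [Sum.elim_inl] at h1
        rw [h1]
        rfl
      have e2 := congrArg (c t) e1
      rw [map_smul, smul_eq_mul, hct] at e2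
      rw [← e2, map_sum, KO_sum]
      refine Finset.sum_congr rfl fun j _ => ?_
      rw [map_smul, KO_smul, mul_comm]
    · rw [hM]
      exact (hc _ (hspan fun j => (f j).1 k) (hwt k)).2 (hreg k) t
  refine ⟨Fintype.card J, fun j => ∑ i, c ((Fintype.equivFin J).symm j) (inc K (g i)) • f i,
    fun j => prodO (u ((Fintype.equivFin J).symm j)), fun j => hJA _, fun j => ?_, fun k k' => ?_⟩
  · exact prodO_JA (hu _)
  · rw [← hP k k']
    have h1 := (hc _ (hspan fun j => (f j).1 k) (hwt k)).1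
    have h2 := congrArg (fun F : (G.pow L').KO K => F.1 k') h1
    have h3 : (∑ j, (f j).1 k • inc K (g j)).1 k' =
        ∑ t, (c t (∑ j, (f j).1 k • inc K (g j)) • prodO (u t)).1 k' := by
      rw [← KO_sum]
      exact h2
    rw [h3, ← Equiv.sum_comp (Fintype.equivFin J).symm]
    refine Finset.sum_congr rfl fun t _ => ?_
    rw [KO_smul, ← hM]

end

end Pool.Agent.MTF.LP
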