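import Pool.Agent.MTF.LD6b

set_option linter.unusedSectionVars false

/-!
# [MTF-LD6c] products over a disjoint union of legs, invariant form
-/

namespace Pool.Agent.MTF.LP

open AffGrp

section
variable {G : AffGrp} {K W X : Type} [Field K] [Algebra ℂ K] [Group W] [Fintype W]
  [MulSemiringAction W K] [SMulCommClass W ℂ K] [AddCommGroup X] [DistribMulAction W X]
variable {L L' : Type} [Finite L] [DecidableEq L] [Finite L'] [DecidableEq L']
variable {Q : TQD G K W X}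

theorem ld6c_JA_smul {L : Type} [Finite L] [DecidableEq L] {ε : L → Bool} {l : X}
    {F : (G.pow L).KO K} (h : Q.JA ε l F) {c : K} (hc : c ∈ Q.A) : Q.JA ε l (c • F) := by
  refine ⟨fun i => ?_, fun x => ?_⟩
  · rw [map_smul, h.wt i, smul_comm]
  · rw [KO_smul]
    exact Q.A.mul_mem hc (h.reg x)

theorem ld6c_InvO_smul (l : X) {H : AffGrp} {F : H.KO K} (h : InvO W l F) {c : K}
    (hc : InvK W l c) : InvO W l (c • F) := by
  intro w hw
  rw [wO_smul, hc w hw, h w hw]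

/-- [MTF-LD6c] PROOF. `prodS_frame`, then `avg_prod` pointwise (`x = (m j).1 k`, `y = (m' j).1 k'`, `z = 1`), as in `prod2` of LD5. -/
theorem prodS (hT : TQ Q) {ε : L → Bool} {ε' : L' → Bool} {l : X} {p : (G.pow (L ⊕ L')).KO K}
    (hp : Q.JA (Sum.elim ε ε') l p) (hi : InvO W l p) :
    ∃ (n : ℕ) (m : Fin n → (G.pow L).KO K) (m' : Fin n → (G.pow L').KO K),
      (∀ j, Q.JA ε l (m j) ∧ InvO W l (m j)) ∧ (∀ j, Q.JA ε' l (m' j) ∧ InvO W l (m' j)) ∧
      ∀ (k : L → G.X) (k' : L' → G.X), p.1 (Sum.elim k k') = ∑ j, (m j).1 k * (m' j).1 k' := by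
  classical
  obtain ⟨n, m, m', hm, hm', hsum⟩ := prodS_frame hT hp
  obtain ⟨N, b, d, hb, hd, havg⟩ := avg_prod hT l
  let e := Fintype.equivFin (Fin n × Fin N × Fin N × Fin N)
  refine ⟨_, fun q => (d (e.symm q).2.1 (e.symm q).2.2.1 (e.symm q).2.2.2 *
      Q.Dav l (b (e.symm q).2.2.2 * 1)) • DavO Q l (b (e.symm q).2.1 • m (e.symm q).1),
    fun q => DavO Q l (b (e.symm q).2.2.1 • m' (e.symm q).1), ?_, ?_, ?_⟩
  · intro q
    have hA : d (e.symm q).2.1 (e.symm q).2.2.1 (e.symm q).2.2.2 *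
        Q.Dav l (b (e.symm q).2.2.2 * 1) ∈ Q.A :=
      Q.A.mul_mem (hd _ _ _).1 (hT.Dav_mem l _ (Q.A.mul_mem (hb _) Q.A.one_mem))
    have hI : InvK W l (d (e.symm q).2.1 (e.symm q).2.2.1 (e.symm q).2.2.2 *
        Q.Dav l (b (e.symm q).2.2.2 * 1)) := by
      intro w hw
      rw [smul_mul', (hd _ _ _).2 w hw, Dav_inv hT l _ w hw]
    exact ⟨ld6c_JA_smul (DavO_JA hT (ld6c_JA_smul (hm _) (hb _))) hA,
      ld6c_InvO_smul l (DavO_inv hT l _) hI⟩
  · intro q
    exact ⟨DavO_JA hT (ld6c_JA_smul (hm' _) (hb _)), DavO_inv hT l _⟩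
  · intro k k'
    have h1 : p.1 (Sum.elim k k') = ∑ j, (m j).1 k * (m' j).1 k' * 1 := by
      rw [hsum k k']
      refine Finset.sum_congr rfl fun j _ => ?_
      rw [mul_one]
    have hinv : InvK W l (∑ j, (m j).1 k * (m' j).1 k' * 1) := by
      intro w hw
      rw [← h1, ← wO_apply, hi w hw]
    rw [h1, havg n _ _ (fun _ => 1) hinv,
      Equiv.sum_comp e.symm (fun q : Fin n × Fin N × Fin N × Fin N =>
      ((d q.2.1 q.2.2.1 q.2.2.2 * Q.Dav l (b q.2.2.2 * 1)) • DavO Q l (b q.2.1 • m q.1)).1 k *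
        (DavO Q l (b q.2.2.1 • m' q.1)).1 k'), Fintype.sum_prod_type]
    refine Finset.sum_congr rfl fun j _ => ?_
    rw [Fintype.sum_prod_type]
    refine Finset.sum_congr rfl fun i _ => ?_
    rw [Fintype.sum_prod_type]
    refine Finset.sum_congr rfl fun i' _ => ?_
    refine Finset.sum_congr rfl fun i'' _ => ?_
    rw [KO_smul, DavO_apply, KO_smul, DavO_apply, KO_smul]
    ring

end

end Pool.Agent.MTF.LP
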