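import Pool.Agent.MTF.LD4
import Pool.Agent.MTF.LA5
import Pool.Agent.MTF.LA4

set_option linter.unusedSectionVars false

/-!
# [MTF-LD7] relations
-/

namespace Pool.Agent.MTF.LP

open AffGrp

section
variable {G : AffGrp} {K W X : Type} [Field K] [Algebra ℂ K] [Group W] [Fintype W]
  [MulSemiringAction W K] [SMulCommClass W ℂ K] [AddCommGroup X] [DistribMulAction W X]
variable {L L' : Type} [Finite L] [DecidableEq L] [Finite L'] [DecidableEq L']
variable {Q : TQD G K W X}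

/-- [MTF-LD7] every function is in the span of finitely many regular functions; the same for finitely many functions.
PROOF. `KO_eq_sum`, index `Σ i, Fin (n i)`. -/
theorem exists_span {H : AffGrp} {n : ℕ} (m : Fin n → H.KO K) : ∃ (κ : Type) (_ : Fintype κ)
    (f : κ → H.O), ∀ i, m i ∈ Submodule.span K (Set.range fun t => inc K (f t)) := by
  choose nn c f hf using fun i => KO_eq_sum (m i)
  refine ⟨Σ i, Fin (nn i), inferInstance, fun t => f t.1 t.2, fun i => ?_⟩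
  rw [hf i]
  refine Submodule.sum_mem _ fun k _ => Submodule.smul_mem _ _ (Submodule.subset_span ⟨⟨i, k⟩, rfl⟩)

theorem ld7_JA_smul {ε : L → Bool} {l : X} {F : (G.pow L).KO K} (h : Q.JA ε l F) {a : K}
    (ha : a ∈ Q.A) : Q.JA ε l (a • F) := by
  refine ⟨fun i => ?_, fun x => ?_⟩
  · rw [map_smul, h.wt i, smul_comm]
  · rw [KO_smul]
    exact mul_mem ha (h.reg x)

theorem ld7_inv {H : AffGrp} {l : X} {F : H.KO K} (h : InvO W l F) (x : H.X) : InvK W l (F.1 x) := by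
  intro w hw
  rw [← wO_apply, h w hw]

/-- [MTF-LD7] (L3.4) PROOF. `exists_span` for the `m j`, `frame hT L` (`Fintype.ofFinite L`) for these functions: `J, u, c`; `e_p := prodO (u p)`,
`m j = ∑_p c p (m j) • e_p`, `c p (m j) ∈ A`.  For every `k'`: `∑_j (m' j).1 k' • m j = 0` (by `h0`, `KO_ext`), so
`∑_j c p (m j) * (m' j).1 k' = 0`, i.e. `∑_j c p (m j) • m' j = 0`.  `a_t, b_t` from `Dav_db hT l`, `c₀` from `DavO_c0 hT l`.
Index `(p, t)`: `a j (p,t) := Q.Dav l (b_t * c p (m j))`, `y (p,t) := DavO Q l ((c₀ * a_t) • e_p)`.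
`m j = DavO (c₀ • m j) = ∑_p DavO ((c₀ * c p (m j)) • e_p)` and `c p (m j) = ∑_t a_t * a j (p,t)`; `DavO_smul` for the invariant
`a j (p,t)` (`Dav_inv`): `m j = ∑ a j (p,t) • y (p,t)`.
`∑_j a j (p,t) • m' j` at `k'`: `(m' j).1 k'` is invariant: `= Q.Dav l (b_t * ∑_j c p (m j) * (m' j).1 k') = 0` (`Dav_mul`, `Dav_sum`).
Finally `Fintype.equivFin (J × Fin n)`. -/
theorem relL (hT : TQ Q) {ε : L → Bool} {l : X} {n : ℕ} (m : Fin n → (G.pow L).KO K)
    (m' : Fin n → (G.pow L').KO K) (hm : ∀ j, Q.JA ε l (m j) ∧ InvO W l (m j))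
    (hm' : ∀ j, Q.Reg (m' j) ∧ InvO W l (m' j))
    (h0 : ∀ (k : L → G.X) (k' : L' → G.X), ∑ j, (m j).1 k * (m' j).1 k' = 0) :
    ∃ (q : ℕ) (y : Fin q → (G.pow L).KO K) (a : Fin n → Fin q → K),
      (∀ t, Q.JA ε l (y t) ∧ InvO W l (y t)) ∧ (∀ j t, a j t ∈ Q.A ∧ InvK W l (a j t)) ∧
      (∀ j, m j = ∑ t, a j t • y t) ∧ ∀ t, ∑ j, a j t • m' j = 0 := by
  obtain ⟨κ, hκ, f, hf⟩ := exists_span m
  letI : Fintype L := Fintype.ofFinite L
  obtain ⟨J, hJ, u, c, hu, hfr⟩ := frame hT L ε l κ f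
  obtain ⟨n0, a, b, ha, hb, hab⟩ := Dav_db hT l
  obtain ⟨c₀, hc₀, -, hc₀O⟩ := DavO_c0 hT l
  have hm1 : ∀ j, m j = ∑ p, c p (m j) • prodO (u p) := fun j => (hfr (m j) (hf j) (hm j).1.wt).1
  have hm2 : ∀ j p, c p (m j) ∈ Q.A := fun j p => (hfr (m j) (hf j) (hm j).1.wt).2 (hm j).1.reg p
  let e : J × Fin n0 ≃ Fin (Fintype.card (J × Fin n0)) := Fintype.equivFin (J × Fin n0)
  refine ⟨Fintype.card (J × Fin n0),
    fun t => DavO Q l ((c₀ * a (e.symm t).2) • prodO (u (e.symm t).1)),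
    fun j t => Q.Dav l (b (e.symm t).2 * c (e.symm t).1 (m j)), fun t => ⟨?_, DavO_inv hT l _⟩,
    fun j t => ⟨hT.Dav_mem l _ (mul_mem (hb _) (hm2 _ _)), Dav_inv hT l _⟩, fun j => ?_, fun t => ?_⟩
  · exact DavO_JA hT (ld7_JA_smul (prodO_JA (hu _)) (mul_mem hc₀ (ha _)))
  · have h1 : ∀ t : J × Fin n0, Q.Dav l (b t.2 * c t.1 (m j)) • DavO Q l ((c₀ * a t.2) • prodO (u t.1)) =
        DavO Q l ((c₀ * (a t.2 * Q.Dav l (b t.2 * c t.1 (m j)))) • prodO (u t.1)) := by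
      intro t
      rw [← DavO_smul l (Dav_inv hT l _), smul_smul]
      congr 2
      ring
    have h2 : ∑ t : Fin (Fintype.card (J × Fin n0)), Q.Dav l (b (e.symm t).2 * c (e.symm t).1 (m j)) •
        DavO Q l ((c₀ * a (e.symm t).2) • prodO (u (e.symm t).1)) =
        ∑ t : J × Fin n0, Q.Dav l (b t.2 * c t.1 (m j)) • DavO Q l ((c₀ * a t.2) • prodO (u t.1)) :=
      Equiv.sum_comp e.symm (fun t : J × Fin n0 =>
        Q.Dav l (b t.2 * c t.1 (m j)) • DavO Q l ((c₀ * a t.2) • prodO (u t.1)))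
    rw [h2, Finset.sum_congr rfl fun t _ => h1 t, ← DavO_sum, Fintype.sum_prod_type]
    have h3 : ∀ p : J, ∑ s : Fin n0, (c₀ * (a s * Q.Dav l (b s * c p (m j)))) • prodO (u p) =
        c₀ • (c p (m j) • prodO (u p)) := by
      intro p
      rw [← Finset.sum_smul, ← Finset.mul_sum, hab, smul_smul]
    rw [Finset.sum_congr rfl fun p _ => h3 p, ← Finset.smul_sum, ← hm1 j, hc₀O _ (hm j).2]
  · apply KO_ext
    intro k'
    rw [KO_sum, KO_zero]
    have h4 : ∑ j, (m' j).1 k' • m j = 0 := by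
      apply KO_ext
      intro k
      rw [KO_sum, KO_zero, ← h0 k k']
      refine Finset.sum_congr rfl fun j _ => ?_
      rw [KO_smul, mul_comm]
    have h5 : ∀ j, (Q.Dav l (b (e.symm t).2 * c (e.symm t).1 (m j)) • m' j).1 k' =
        Q.Dav l (b (e.symm t).2 * c (e.symm t).1 ((m' j).1 k' • m j)) := by
      intro j
      rw [KO_smul, mul_comm, ← Dav_mul l (ld7_inv (hm' j).2 k'), map_smul, smul_eq_mul]
      congr 1
      ring
    rw [Finset.sum_congr rfl fun j _ => h5 j, ← Dav_sum, ← Finset.mul_sum, ← map_sum, h4, map_zero,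
      mul_zero]
    exact (DavA Q l).map_zero

end

end Pool.Agent.MTF.LP
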