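import Pool.Agent.MTF.TQ

set_option linter.unusedSectionVars false

/-!
# MTF : definitions of the interface of part L
-/

namespace Pool.Agent.MTF

open AffGrp

/-- signs on `Option L` -/
def optS {L : Type} (b : Bool) (ε : L → Bool) : Option L → Bool := fun o => o.elim b ε

/-- the point of `G^(Option L)` with coordinate `h` at `none` -/
def optP {Y L : Type} (h : Y) (k : L → Y) : Option L → Y := fun o => o.elim h k

section
variable {G : AffGrp} {K W X : Type} [Field K] [Algebra ℂ K] [Group W] [Fintype W]
  [MulSemiringAction W K] [SMulCommClass W ℂ K] [AddCommGroup X] [DistribMulAction W X]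
variable {L L' : Type} [Finite L] [DecidableEq L] [Finite L'] [DecidableEq L']
variable {Q : TQD G K W X}

/-- `J_A^l (O_L)` : regular joint eigenfunctions of weight `l`. -/
structure TQD.JA (Q : TQD G K W X) (ε : L → Bool) (l : X) (F : (G.pow L).KO K) : Prop where
  wt : ∀ i, Q.s i F = Q.val (sgn (ε i) • l) • F
  reg : Q.Reg F

/-- invariance of a function under the stabiliser of `l` -/
def InvO (W : Type) [Group W] [MulSemiringAction W K] [SMulCommClass W ℂ K] [DistribMulAction W X]
    (l : X) {H : AffGrp} (F : H.KO K) : Prop := ∀ w : W, w • l = l → wO H w F = F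

/-- invariance of an element of `K` under the stabiliser of `l` -/
def InvK (W : Type) [Group W] [MulSemiringAction W K] [DistribMulAction W X] (l : X) (x : K) : Prop :=
  ∀ w : W, w • l = l → w • x = x

end

end Pool.Agent.MTF
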