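import Pool.Agent.MTF.LB1

set_option linter.unusedSectionVars false

/-!
# [MTF-LF1] families form modules over A^W
-/

namespace Pool.Agent.MTF.LP

open AffGrp

section
variable {G : AffGrp} {K W X : Type} [Field K] [Algebra ℂ K] [Group W] [Fintype W]
  [MulSemiringAction W K] [SMulCommClass W ℂ K] [AddCommGroup X] [DistribMulAction W X]
variable {L L' : Type} [Finite L] [DecidableEq L] [Finite L'] [DecidableEq L']
variable {Q : TQD G K W X}

theorem tot_def (F : RR G K X L) : tot F = F.coeff.sum fun _ a => a := rfl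

/-- [MTF-LF1] PROOF. `Finsupp.sum_add_index'`. -/
theorem tot_add (F F' : RR G K X L) : tot (F + F') = tot F + tot F' := by
  rw [tot_def, tot_def, tot_def, AddMonoidAlgebra.coeff_add]
  exact Finsupp.sum_add_index' (fun _ => rfl) (fun _ _ _ => rfl)

/-- [MTF-LF1] PROOF. `Finsupp.sum_smul_index'` / `Finsupp.smul_sum`. -/
theorem tot_smul (a : K) (F : RR G K X L) : tot (a • F) = a • tot F := by
  rw [tot_def, tot_def, AddMonoidAlgebra.coeff_smul, Finsupp.smul_sum]
  exact Finsupp.sum_smul_index' fun _ => rfl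

/-- [MTF-LF1] `tot` as a linear map -/
noncomputable def totL : RR G K X L →ₗ[K] (G.pow L).KO K where
  toFun := tot
  map_add' := tot_add
  map_smul' := tot_smul

/-- [MTF-LF1] -/
theorem Fam_zero {g : ℕ} {ε : L → Bool} : Q.Fam g ε (0 : RR G K X L) := by
  refine ⟨fun m l => ?_, fun w m => ?_, fun _ k => ?_, fun m k _ => ?_⟩
  · show Q.s l 0 = Q.val (sgn (ε l) • m) • (0 : (G.pow L).KO K)
    rw [map_zero, smul_zero]
  · exact map_zero (wO (G.pow L) w)
  · have h : tot (0 : RR G K X L) = 0 := by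
      rw [tot_def, AddMonoidAlgebra.coeff_zero]
      exact Finsupp.sum_zero_index
    rw [h]
    exact Q.A.zero_mem
  · show (Q.Eu m ^ (g - 1))⁻¹ * 0 ∈ Q.A
    rw [mul_zero]
    exact Q.A.zero_mem

/-- [MTF-LF1] -/
theorem Fam_add {g : ℕ} {ε : L → Bool} {F F' : RR G K X L} (h : Q.Fam g ε F)
    (h' : Q.Fam g ε F') : Q.Fam g ε (F + F') := by
  refine ⟨fun m l => ?_, fun w m => ?_, fun hg k => ?_, fun m k hg => ?_⟩
  · show Q.s l (F.coeff m + F'.coeff m) = Q.val (sgn (ε l) • m) • (F.coeff m + F'.coeff m)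
    rw [map_add, smul_add, h.wt, h'.wt]
  · show wO (G.pow L) w (F.coeff m + F'.coeff m) = F.coeff (w • m) + F'.coeff (w • m)
    rw [map_add, h.inv, h'.inv]
  · rw [tot_add]
    exact Q.A.add_mem (h.reg0 hg k) (h'.reg0 hg k)
  · show (Q.Eu m ^ (g - 1))⁻¹ * ((F.coeff m).1 k + (F'.coeff m).1 k) ∈ Q.A
    rw [mul_add]
    exact Q.A.add_mem (h.regS m k hg) (h'.regS m k hg)

/-- [MTF-LF1] -/
theorem Fam_neg {g : ℕ} {ε : L → Bool} {F : RR G K X L} (h : Q.Fam g ε F) :
    Q.Fam g ε (-F) := by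
  refine ⟨fun m l => ?_, fun w m => ?_, fun hg k => ?_, fun m k hg => ?_⟩
  · show Q.s l (-F.coeff m) = Q.val (sgn (ε l) • m) • (-F.coeff m)
    rw [map_neg, smul_neg, h.wt]
  · show wO (G.pow L) w (-F.coeff m) = -F.coeff (w • m)
    rw [map_neg, h.inv]
  · have h1 : tot (-F) = -tot F := by
      have h2 : tot (-F) + tot F = 0 := by
        rw [← tot_add, neg_add_cancel, tot_def, AddMonoidAlgebra.coeff_zero]
        exact Finsupp.sum_zero_index
      exact eq_neg_of_add_eq_zero_left h2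
    rw [h1]
    exact Q.A.neg_mem (h.reg0 hg k)
  · show (Q.Eu m ^ (g - 1))⁻¹ * (-(F.coeff m).1 k) ∈ Q.A
    rw [mul_neg]
    exact Q.A.neg_mem (h.regS m k hg)

/-- [MTF-LF1] -/
theorem Fam_sum {g : ℕ} {ε : L → Bool} {κ : Type} (t : Finset κ)
    (F : κ → RR G K X L) (h : ∀ i ∈ t, Q.Fam g ε (F i)) : Q.Fam g ε (∑ i ∈ t, F i) := by
  classical
  induction t using Finset.induction_on with
  | empty =>
    rw [Finset.sum_empty]
    exact Fam_zero
  | insert a t ha ih =>
    rw [Finset.sum_insert ha]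
    exact Fam_add (h a (Finset.mem_insert_self a t))
      (ih fun i hi => h i (Finset.mem_insert_of_mem hi))

/-- [MTF-LF1] PROOF. `wO_smul`; `reg0`: `tot_smul`; `regS`: `u * (a * x) = a * (u * x)`. -/
theorem Fam_smul {g : ℕ} {ε : L → Bool} {F : RR G K X L} (h : Q.Fam g ε F) {a : K}
    (ha : a ∈ Q.A) (hw : ∀ w : W, w • a = a) : Q.Fam g ε (a • F) := by
  refine ⟨fun m l => ?_, fun w m => ?_, fun hg k => ?_, fun m k hg => ?_⟩
  · show Q.s l (a • F.coeff m) = Q.val (sgn (ε l) • m) • (a • F.coeff m)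
    rw [map_smul, h.wt, smul_comm]
  · show wO (G.pow L) w (a • F.coeff m) = a • F.coeff (w • m)
    rw [← h.inv]
    apply KO_ext
    intro x
    rw [wO_apply, KO_smul, KO_smul, wO_apply, smul_mul', hw]
  · rw [tot_smul]
    exact Q.A.mul_mem ha (h.reg0 hg k)
  · show (Q.Eu m ^ (g - 1))⁻¹ * (a * (F.coeff m).1 k) ∈ Q.A
    rw [mul_left_comm]
    exact Q.A.mul_mem ha (h.regS m k hg)

theorem SuppLe_zero (l : X) : Q.SuppLe (W := W) l (0 : RR G K X L) := by
  intro m hm
  exact absurd rfl hm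

/-- [MTF-LF1] -/
theorem SuppLe_add {l : X} {F F' : RR G K X L} (h : Q.SuppLe (W := W) l F)
    (h' : Q.SuppLe (W := W) l F') : Q.SuppLe (W := W) l (F + F') := by
  intro m hm
  by_cases h1 : F.coeff m = 0
  · refine h' m fun h2 => hm ?_
    show F.coeff m + F'.coeff m = 0
    rw [h1, h2, add_zero]
  · exact h m h1

/-- [MTF-LF1] -/
theorem SuppLe_sum {l : X} {κ : Type} (t : Finset κ) (F : κ → RR G K X L)
    (h : ∀ i ∈ t, Q.SuppLe (W := W) l (F i)) : Q.SuppLe (W := W) l (∑ i ∈ t, F i) := by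
  classical
  induction t using Finset.induction_on with
  | empty =>
    rw [Finset.sum_empty]
    exact SuppLe_zero l
  | insert a t ha ih =>
    rw [Finset.sum_insert ha]
    exact SuppLe_add (h a (Finset.mem_insert_self a t))
      (ih fun i hi => h i (Finset.mem_insert_of_mem hi))

/-- [MTF-LF1] -/
theorem SuppLe_smul {l : X} {F : RR G K X L} (a : K) (h : Q.SuppLe (W := W) l F) :
    Q.SuppLe (W := W) l (a • F) := by
  intro m hm
  refine h m fun h1 => hm ?_
  show a • F.coeff m = 0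
  rw [h1, smul_zero]

end

end Pool.Agent.MTF.LP
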