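import Pool.Agent.MTF.LD4
import Pool.Agent.MTF.LF1
import Pool.Agent.MTF.LA4

set_option linter.unusedSectionVars false

/-!
# [MTF-LE1] lifts, all signs +
-/

namespace Pool.Agent.MTF.LP

open AffGrp

section
variable {G : AffGrp} {K W X : Type} [Field K] [Algebra ℂ K] [Group W] [Fintype W]
  [MulSemiringAction W K] [SMulCommClass W ℂ K] [AddCommGroup X] [DistribMulAction W X]
variable {L L' : Type} [Finite L] [DecidableEq L] [Finite L'] [DecidableEq L']
variable {Q : TQD G K W X}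

/-- [MTF-LE1] PROOF. `Fintype L` from `Fintype.ofFinite`. `KO_eq_sum` for `p`: `p` is in the span of `inc (f t)`; `frame hT L` for
`ε = fun _ => true`, `l`, `f`: `u, c`; `sgn true • l = l` (`one_smul`). `p = ∑_j c j p • prodO (u j)`, `c j p ∈ A` (`hp.reg`).
`c₀` from `DavO_c0 hT l`.  `T_j := hT.sl L l (u j) (c₀ * c j p)`, `T := ∑_j T_j`: `Fam_sum`, `SuppLe_sum`.
`(Eu l • T.coeff l).1 k = ∑_j Q.Dav l (c₀ * c j p * ∏_i (u j i).1 (k i)) = Q.Dav l (c₀ * p.1 k) = p.1 k` (`Dav_sum`, `prodO_apply`, `hT.Eu_ne`,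
`hi` gives `InvK W l (p.1 k)`).  The index type `J` of the frames is a `Fintype`. -/
theorem liftP (hT : TQ Q) [Nonempty L] {l : X} {p : (G.pow L).KO K}
    (hp : Q.JA (fun _ : L => true) l p) (hi : InvO W l p) :
    ∃ T : RR G K X L, Q.Fam 0 (fun _ => true) T ∧ Q.SuppLe l T ∧ Q.Eu l • T.coeff l = p := by
  classical
  have : Fintype L := Fintype.ofFinite L
  obtain ⟨n, cc, f, hf⟩ := KO_eq_sum p
  obtain ⟨J, hJ, u, c, hu, hm⟩ := frame hT L (fun _ => true) l (Fin n) f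
  have hspan : p ∈ Submodule.span K (Set.range fun t => inc K (f t)) := by
    rw [hf]
    exact Submodule.sum_mem _ fun i _ => Submodule.smul_mem _ _ (Submodule.subset_span ⟨i, rfl⟩)
  obtain ⟨hp1, hp2⟩ := hm p hspan hp.wt
  have hcA := hp2 hp.reg
  obtain ⟨c₀, hc₀, hc₀x, -⟩ := DavO_c0 hT l
  have hsgn : sgn true • l = l := by
    have h1 : sgn true = 1 := rfl
    rw [h1, one_smul]
  have hu' : ∀ j i, Q.s1 (u j i) = Q.val l • u j i ∧ Q.Reg (u j i) := by
    intro j i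
    have h := hu j i
    rw [hsgn] at h
    exact h
  choose T hT1 hT2 hT3 using fun j =>
    hT.sl L l (u j) (c₀ * c j p) (mul_mem hc₀ (hcA j)) (hu' j)
  refine ⟨∑ j, T j, Fam_sum _ _ fun j _ => hT1 j, SuppLe_sum _ _ fun j _ => hT2 j, ?_⟩
  apply KO_ext
  intro k
  have hco : (∑ j, T j).coeff l = ∑ j, (T j).coeff l := by
    rw [AddMonoidAlgebra.coeff_sum, Finsupp.finsetSum_apply]
  rw [KO_smul, hco, KO_sum, Finset.mul_sum]
  have h1 : ∀ j, Q.Eu l * ((T j).coeff l).1 k =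
      Q.Dav l (c₀ * c j p * ∏ i, (u j i).1 (k i)) := by
    intro j
    rw [hT3 j k, ← mul_assoc, mul_inv_cancel₀ (hT.Eu_ne l), one_mul]
  rw [Finset.sum_congr rfl fun j _ => h1 j, ← Dav_sum]
  have h2 : ∑ j, c₀ * c j p * ∏ i, (u j i).1 (k i) = c₀ * p.1 k := by
    have h3 : p.1 k = ∑ j, c j p * ∏ i, (u j i).1 (k i) := by
      conv_lhs => rw [hp1]
      rw [KO_sum]
      refine Finset.sum_congr rfl fun j _ => ?_
      rw [KO_smul, prodO_apply]
    rw [h3, Finset.mul_sum]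
    refine Finset.sum_congr rfl fun j _ => ?_
    rw [mul_assoc]
  rw [h2]
  refine hc₀x _ fun w hw => ?_
  have h4 := hi w hw
  have h5 : (wO (G.pow L) w p).1 k = p.1 k := by rw [h4]
  rw [wO_apply] at h5
  exact h5

end

end Pool.Agent.MTF.LP
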