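import Pool.Agent.MTF.LE1

set_option linter.unusedSectionVars false

/-!
# [MTF-LE2] maps of families
-/

namespace Pool.Agent.MTF.LP

open AffGrp

section
variable {G : AffGrp} {K W X : Type} [Field K] [Algebra ℂ K] [Group W] [Fintype W]
  [MulSemiringAction W K] [SMulCommClass W ℂ K] [AddCommGroup X] [DistribMulAction W X]
variable {L L' : Type} [Finite L] [DecidableEq L] [Finite L'] [DecidableEq L']
variable {Q : TQD G K W X}

/-- apply a linear map to all components of a family -/
noncomputable def mapRR {L₁ L₂ : Type} [Finite L₁] [Finite L₂]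
    (T : (G.pow L₁).KO K →ₗ[K] (G.pow L₂).KO K) : RR G K X L₁ →ₗ[K] RR G K X L₂ where
  toFun F := AddMonoidAlgebra.ofCoeff (F.coeff.mapRange T (map_zero T))
  map_add' F F' := by
    apply AddMonoidAlgebra.ext
    apply Finsupp.ext
    intro m
    exact map_add T (F.coeff m) (F'.coeff m)
  map_smul' a F := by
    apply AddMonoidAlgebra.ext
    apply Finsupp.ext
    intro m
    exact map_smul T a (F.coeff m)

theorem mapRR_coeff {L₁ L₂ : Type} [Finite L₁] [Finite L₂]
    (T : (G.pow L₁).KO K →ₗ[K] (G.pow L₂).KO K) (F : RR G K X L₁) (m : X) :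
    (mapRR T F).coeff m = T (F.coeff m) := rfl

/-- [MTF-LE2] PROOF. `Finsupp.sum_mapRange_index`, `map_finsuppSum`. -/
theorem mapRR_tot {L₁ L₂ : Type} [Finite L₁] [Finite L₂]
    (T : (G.pow L₁).KO K →ₗ[K] (G.pow L₂).KO K) (F : RR G K X L₁) :
    tot (mapRR T F) = T (tot F) := by
  show (F.coeff.mapRange T (map_zero T)).sum (fun _ a => a) = T (F.coeff.sum fun _ a => a)
  rw [Finsupp.sum_mapRange_index (fun _ => rfl), map_finsuppSum]

/-- [MTF-LE2] -/
theorem mapRR_supp {L₁ L₂ : Type} [Finite L₁] [Finite L₂]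
    (T : (G.pow L₁).KO K →ₗ[K] (G.pow L₂).KO K) {F : RR G K X L₁} {l : X}
    (h : Q.SuppLe (W := W) l F) : Q.SuppLe (W := W) l (mapRR T F) := by
  intro m hm
  apply h m
  intro h0
  apply hm
  rw [mapRR_coeff, h0, map_zero]

end

end Pool.Agent.MTF.LP
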