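import Pool.Agent.MTF.LE2

set_option linter.unusedSectionVars false

/-!
# [MTF-LE2b] opposite weights, lifts with all signs -
-/

namespace Pool.Agent.MTF.LP

open AffGrp

section
variable {G : AffGrp} {K W X : Type} [Field K] [Algebra ℂ K] [Group W] [Fintype W]
  [MulSemiringAction W K] [SMulCommClass W ℂ K] [AddCommGroup X] [DistribMulAction W X]
variable {L L' : Type} [Finite L] [DecidableEq L] [Finite L'] [DecidableEq L']
variable {Q : TQD G K W X}

/-- the family with opposite weights -/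
noncomputable def negX (F : RR G K X L) : RR G K X L :=
  AddMonoidAlgebra.ofCoeff (Finsupp.equivMapDomain (Equiv.neg X) F.coeff)

/-- [MTF-LE2b] PROOF. `Finsupp.equivMapDomain_apply`. -/
theorem negX_coeff (F : RR G K X L) (m : X) : (negX F).coeff m = F.coeff (-m) := by
  show (Finsupp.equivMapDomain (Equiv.neg X) F.coeff) m = F.coeff (-m)
  rw [Finsupp.equivMapDomain_apply]
  rfl

theorem le2b_tot (F : RR G K X L) : tot (negX F) = tot F := by
  show (Finsupp.equivMapDomain (Equiv.neg X) F.coeff).sum (fun _ a => a) = F.coeff.sum fun _ a => a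
  rw [Finsupp.equivMapDomain_eq_mapDomain]
  rw [Finsupp.sum_mapDomain_index]
  · intro _; rfl
  · intro _ _ _; rfl

/-- [MTF-LE2b] PROOF. `tot (negX F) = tot F` (`Finsupp.sum_equivMapDomain` or `Finsupp.equivMapDomain_eq_mapDomain` and
`Finsupp.sum_mapDomain_index`); weights: `Q.s i (F.coeff (-m)) = val (sgn (ε i) • (-m)) • ..` and `sgn (!b) • m = sgn b • (-m)`;
`w • (-m) = -(w • m)` (`smul_neg`); only `g = 0`. -/
theorem Fam_negX {ε ε' : L → Bool} (hε : ∀ i, ε' i = !(ε i)) {F : RR G K X L}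
    (h : Q.Fam 0 ε F) : Q.Fam 0 ε' (negX F) := by
  refine ⟨fun m i => ?_, fun w m => ?_, fun h0 => ?_, fun m k h0 => absurd h0 (lt_irrefl _)⟩
  · rw [negX_coeff, h.wt, hε]
    congr 2
    cases ε i
    · show (-1 : ℤ) • (-m) = (1 : ℤ) • m
      rw [neg_smul, one_smul, one_smul, neg_neg]
    · show (1 : ℤ) • (-m) = (-1 : ℤ) • m
      rw [neg_smul, one_smul, one_smul]
  · rw [negX_coeff, negX_coeff, h.inv, smul_neg]
  · rw [le2b_tot]
    exact h.reg0 h0

/-- [MTF-LE2b] lifts, all signs `-`. PROOF. `p` is `JA (fun _ => true) (-l)` and `InvO W (-l)`: `liftP` gives `T` with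
`Eu (-l) • T.coeff (-l) = p`; `Eu (-l) = algebraMap u * Eu l` (`hT.Eu_neg`); take `(algebraMap ℂ K u) • negX T`
(`Fam_smul`: `algebraMap ℂ K u ∈ A`, fixed by `W`: `smul_algebraMap`). Supports: `negX`, `hT.N_neg`, `-m = w • (-l)` iff `m = w • l`. -/
theorem liftM (hT : TQ Q) [Nonempty L] {l : X} {p : (G.pow L).KO K}
    (hp : Q.JA (fun _ : L => false) l p) (hi : InvO W l p) :
    ∃ T : RR G K X L, Q.Fam 0 (fun _ => false) T ∧ Q.SuppLe l T ∧ Q.Eu l • T.coeff l = p := by
  have h1 : Q.JA (fun _ : L => true) (-l) p := by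
    refine ⟨fun i => ?_, hp.reg⟩
    rw [hp.wt i]
    congr 2
    show (-1 : ℤ) • l = (1 : ℤ) • (-l)
    rw [neg_smul, one_smul, one_smul]
  have h2 : InvO W (-l) p := by
    intro w hw
    rw [smul_neg, neg_inj] at hw
    exact hi w hw
  obtain ⟨T, hT1, hT2, hT3⟩ := liftP hT h1 h2
  obtain ⟨u, hu, hEu⟩ := hT.Eu_neg l
  refine ⟨algebraMap ℂ K u • negX T, ?_, ?_, ?_⟩
  · refine Fam_smul (Fam_negX (fun i => rfl) hT1) (Q.A.algebraMap_mem u) fun w => ?_
    exact smul_algebraMap w u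
  · refine SuppLe_smul _ ?_
    intro m hm
    rw [negX_coeff] at hm
    rcases hT2 (-m) hm with ⟨w, hw⟩ | h3
    · left
      refine ⟨w, ?_⟩
      rw [smul_neg, neg_inj] at hw
      exact hw
    · right
      rw [hT.N_neg, hT.N_neg] at h3
      exact h3
  · show Q.Eu l • (algebraMap ℂ K u • (negX T).coeff l) = p
    rw [negX_coeff, smul_smul, mul_comm, ← hEu, hT3]

end

end Pool.Agent.MTF.LP
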