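import Pool.Agent.MTF.LE2b
import Pool.Agent.MTF.LB5

set_option linter.unusedSectionVars false

/-!
# [MTF-LE3] Reynolds operator, integration by parts
-/

namespace Pool.Agent.MTF.LP

open AffGrp

section
variable {G : AffGrp} {K W X : Type} [Field K] [Algebra ℂ K] [Group W] [Fintype W]
  [MulSemiringAction W K] [SMulCommClass W ℂ K] [AddCommGroup X] [DistribMulAction W X]
variable {L L' : Type} [Finite L] [DecidableEq L] [Finite L'] [DecidableEq L']
variable {Q : TQD G K W X}

/-- multiplication by `f` in the leg `none`, then the functional `I` -/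
noncomputable def redm (I : Module.Dual ℂ G.O) (f : G.O) :
    (G.pow (Option L)).KO K →ₗ[K] (G.pow L).KO K :=
  red I ∘ₗ LinearMap.mulLeft K (pu K none (inc K f))

theorem redm_apply (I : Module.Dual ℂ G.O) (f : G.O) (F : (G.pow (Option L)).KO K) :
    redm I f F = red I (pu K none (inc K f) * F) := rfl

/-- [MTF-LE3] PROOF. `red_reg`; `inc K f` has values in the image of `ℂ`, contained in `A`. -/
theorem redm_reg (I : Module.Dual ℂ G.O) (f : G.O) {F : (G.pow (Option L)).KO K}
    (hF : Q.Reg F) : Q.Reg (redm I f F) := by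
  rw [redm_apply]
  refine red_reg I fun k => ?_
  exact Q.A.mul_mem (Q.A.algebraMap_mem _) (hF k)

/-- [MTF-LE3] PROOF. `red_wO`; `wO w (pu none (inc f)) = pu none (inc f)` (`smul_algebraMap`), `map_mul`. -/
theorem redm_wO (I : Module.Dual ℂ G.O) (f : G.O) (w : W) (F : (G.pow (Option L)).KO K) :
    redm I f (wO _ w F) = wO _ w (redm I f F) := by
  have h1 : wO _ w (pu K (none : Option L) (inc K f)) = pu K none (inc K f) := by
    refine KO_ext fun k => ?_
    rw [wO_apply, pu_apply, inc_apply]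
    exact smul_algebraMap w _
  rw [redm_apply, redm_apply, ← red_wO, map_mul (wO _ w), h1]

/-- [MTF-LE3] PROOF. `red_s`, `s_mul`, `s_pu_ne`. -/
theorem redm_s (I : Module.Dual ℂ G.O) (f : G.O) (i : L) (F : (G.pow (Option L)).KO K) :
    Q.s i (redm I f F) = redm I f (Q.s (some i) F) := by
  rw [redm_apply, redm_apply, red_s, s_mul, s_pu_ne (Option.some_ne_none i), mul_zero, add_zero]

theorem le3_key {I : Module.Dual ℂ G.O} (hI : ∀ x f, I (G.rt x f) = I f) (f : G.O)
    (F : (G.pow (Option L)).KO K) :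
    redm I f (Q.s none F) = -red I (pu K none (Q.s1 (inc K f)) * F) := by
  have h1 := red_s_none (Q := Q) hI (pu K none (inc K f) * F)
  rw [s_mul, s_pu, map_add] at h1
  rw [redm_apply, mul_comm (pu K none (Q.s1 (inc K f))) F]
  exact eq_neg_of_add_eq_zero_left h1

theorem le3_neg (I : Module.Dual ℂ G.O) (x : G.KO K) (F : (G.pow (Option L)).KO K) :
    red I (pu K none (-x) * F) = - red I (pu K none x * F) := by
  rw [show -x = (-1 : K) • x from (neg_one_smul K x).symm, map_smul, smul_mul_assoc, map_smul,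
    neg_one_smul]

theorem le3_sum (I : Module.Dual ℂ G.O) {κ : Type} (s : Finset κ) (c : κ → K) (x : κ → G.KO K)
    (F : (G.pow (Option L)).KO K) :
    red I (pu K none (∑ i ∈ s, c i • x i) * F) = ∑ i ∈ s, c i • red I (pu K none (x i) * F) := by
  rw [map_sum, Finset.sum_mul, map_sum]
  refine Finset.sum_congr rfl fun i _ => ?_
  rw [map_smul, smul_mul_assoc, map_smul]

/-- [MTF-LE3] integration by parts, `f = coI E b a`. PROOF. `0 = red I (Q.s none (∑_a pu none (inc (coI E b a)) * F a))` (`red_s_none`),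
`s_mul`, `s_pu`, `s1_coI`: `Q.s1 (inc (coI E b a)) = -∑_c sE b c • inc (coI E c a)`. -/
theorem redm_coI {I : Module.Dual ℂ G.O} (hI : ∀ x f, I (G.rt x f) = I f) (E : Rep G) (b : E.ι)
    (F : E.ι → (G.pow (Option L)).KO K) :
    ∑ c, Q.sE E b c • ∑ a, redm I (coI E c a) (F a) =
      ∑ a, redm I (coI E b a) (Q.s none (F a)) := by
  have h1 : ∀ a, redm I (coI E b a) (Q.s none (F a)) =
      ∑ c, Q.sE E b c • redm I (coI E c a) (F a) := by
    intro a
    rw [le3_key hI, s1_coI, le3_neg, neg_neg]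
    exact le3_sum I Finset.univ (fun c => Q.sE E b c) (fun c => inc K (coI E c a)) (F a)
  rw [Finset.sum_congr rfl fun a _ => h1 a, Finset.sum_comm]
  exact Finset.sum_congr rfl fun c _ => Finset.smul_sum

/-- [MTF-LE3] integration by parts, `f = co E a b`. PROOF. as `redm_coI`, with `s1_co`:
`Q.s1 (inc (co E a b)) = ∑_c sE c b • inc (co E a c)`. -/
theorem redm_co {I : Module.Dual ℂ G.O} (hI : ∀ x f, I (G.rt x f) = I f) (E : Rep G) (b : E.ι)
    (F : E.ι → (G.pow (Option L)).KO K) :
    ∑ c, Q.sE E c b • ∑ a, redm I (E.co a c) (F a) =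
      -∑ a, redm I (E.co a b) (Q.s none (F a)) := by
  have h1 : ∀ a, redm I (E.co a b) (Q.s none (F a)) =
      -∑ c, Q.sE E c b • redm I (E.co a c) (F a) := by
    intro a
    rw [le3_key hI, s1_co]
    exact congrArg Neg.neg
      (le3_sum I Finset.univ (fun c => Q.sE E c b) (fun c => inc K (E.co a c)) (F a))
  rw [Finset.sum_congr rfl fun a _ => h1 a, Finset.sum_neg_distrib, neg_neg, Finset.sum_comm]
  exact Finset.sum_congr rfl fun c _ => Finset.smul_sum

end

end Pool.Agent.MTF.LP
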