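import Pool.Agent.MTF.LE3

set_option linter.unusedSectionVars false

/-!
# [MTF-LE3b] Reynolds operator: from a leg to a slot
-/

namespace Pool.Agent.MTF.LP

open AffGrp

section
variable {G : AffGrp} {K W X : Type} [Field K] [Algebra ℂ K] [Group W] [Fintype W]
  [MulSemiringAction W K] [SMulCommClass W ℂ K] [AddCommGroup X] [DistribMulAction W X]
variable {L L' : Type} [Finite L] [DecidableEq L] [Finite L'] [DecidableEq L']
variable {Q : TQD G K W X}

/-- [MTF-LE3b] PROOF. `redm_s`: weights in the legs `i : L` (`optS b ε (some i) = ε i`), `redm_wO`, `redm_reg`, `mapRR_tot`; `regS`: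
`(Eu m ^ (g-1))⁻¹ * (redm I f (F.coeff m)).1 k = (redm I f ((Eu m ^ (g-1))⁻¹ • F.coeff m)).1 k`. -/
theorem Fam_redm (I : Module.Dual ℂ G.O) (f : G.O) {g : ℕ} {b : Bool} {ε : L → Bool}
    {U : RR G K X (Option L)} (hU : Q.Fam g (optS b ε) U) : Q.Fam g ε (mapRR (redm I f) U) := by
  refine ⟨fun m i => ?_, fun w m => ?_, fun hg => ?_, fun m k hg => ?_⟩
  · rw [mapRR_coeff, redm_s, hU.wt m (some i), map_smul]
    rfl
  · rw [mapRR_coeff, mapRR_coeff, ← redm_wO, hU.inv]
  · rw [mapRR_tot]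
    exact redm_reg I f (hU.reg0 hg)
  · rw [mapRR_coeff]
    have h1 : Q.Reg ((Q.Eu m ^ (g - 1))⁻¹ • U.coeff m) := fun x => hU.regS m x hg
    have h2 := redm_reg I f h1 k
    rw [map_smul] at h2
    exact h2

/-- [MTF-LE3b] from a leg of sign `+` to a slot. PROOF. `fam`: `Fam_sum`, `Fam_redm`. `slot`: `redm_coI` with
`Q.s none ((U a).coeff m) = val m • (U a).coeff m`. -/
theorem rey1 {I : Module.Dual ℂ G.O} (hI : ∀ x f, I (G.rt x f) = I f) (E : Rep G) {g : ℕ}
    {ε : L → Bool} {U : E.ι → RR G K X (Option L)} (hU : ∀ a, Q.Fam g (optS true ε) (U a)) :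
    Q.Fam1 g ε E (fun b => ∑ a, mapRR (redm I (coI E b a)) (U a)) := by
  refine ⟨fun b => Fam_sum _ _ fun a _ => Fam_redm I _ (hU a), fun m b => ?_⟩
  have h1 : ∀ b', (∑ a, mapRR (X := X) (redm I (coI E b' a)) (U a)).coeff m =
      ∑ a, redm I (coI E b' a) ((U a).coeff m) := by
    intro b'
    rw [AddMonoidAlgebra.coeff_sum, Finsupp.finsetSum_apply]
    rfl
  have h2 := redm_coI (Q := Q) hI E b (fun a => (U a).coeff m)
  have h3 : ∀ a, Q.s none ((U a).coeff m) = Q.val m • (U a).coeff m := by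
    intro a
    have h4 := (hU a).wt m none
    have h5 : sgn (optS true ε none) • m = m := one_smul ℤ m
    rw [h5] at h4
    exact h4
  simp only [h1]
  rw [h2, Finset.smul_sum]
  exact Finset.sum_congr rfl fun a _ => by rw [h3, map_smul]

/-- [MTF-LE3b] from a leg of sign `-` to a slot of sign `-`. PROOF. `redm_co` with
`Q.s none ((U a).coeff m) = val (-m) • (U a).coeff m`. -/
theorem rey1' {I : Module.Dual ℂ G.O} (hI : ∀ x f, I (G.rt x f) = I f) (E : Rep G) {g : ℕ}
    {ε : L → Bool} {U : E.ι → RR G K X (Option L)} (hU : ∀ a, Q.Fam g (optS false ε) (U a)) :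
    Q.Fam1' g ε E (fun b => ∑ a, mapRR (redm I (E.co a b)) (U a)) := by
  refine ⟨fun b => Fam_sum _ _ fun a _ => Fam_redm I _ (hU a), fun m b => ?_⟩
  have h1 : ∀ b', (∑ a, mapRR (X := X) (redm I (E.co a b')) (U a)).coeff m =
      ∑ a, redm I (E.co a b') ((U a).coeff m) := by
    intro b'
    rw [AddMonoidAlgebra.coeff_sum, Finsupp.finsetSum_apply]
    rfl
  have h2 := redm_co (Q := Q) hI E b (fun a => (U a).coeff m)
  have h3 : ∀ a, Q.s none ((U a).coeff m) = -(Q.val m • (U a).coeff m) := by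
    intro a
    have h4 := (hU a).wt m none
    have h5 : sgn (optS false ε none) • m = -m := by
      show (-1 : ℤ) • m = -m
      rw [neg_smul, one_smul]
    rw [h5, map_neg, neg_smul] at h4
    exact h4
  simp only [h1]
  rw [h2, Finset.smul_sum, ← Finset.sum_neg_distrib]
  exact Finset.sum_congr rfl fun a _ => by rw [h3, map_neg, neg_neg, map_smul]

end

end Pool.Agent.MTF.LP
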