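import Pool.Agent.MTF.LE3b

set_option linter.unusedSectionVars false

/-!
# [MTF-LE4] from a slot to a leg
-/

namespace Pool.Agent.MTF.LP

open AffGrp

section
variable {G : AffGrp} {K W X : Type} [Field K] [Algebra ℂ K] [Group W] [Fintype W]
  [MulSemiringAction W K] [SMulCommClass W ℂ K] [AddCommGroup X] [DistribMulAction W X]
variable {L L' : Type} [Finite L] [DecidableEq L] [Finite L'] [DecidableEq L']
variable {Q : TQD G K W X}

/-- Lifts exist for the legs `I` with signs `ε` and genus `g`. -/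
def LiftP (Q : TQD G K W X) (g : ℕ) {I : Type} [Finite I] [DecidableEq I] (ε : I → Bool) : Prop :=
  ∀ (l : X) (p : (G.pow I).KO K), Q.JA ε l p → InvO W l p →
    ∃ F : RR G K X I, Q.Fam g ε F ∧ Q.SuppLe l F ∧ Q.Eu l • F.coeff l = Q.Eu l ^ g • p

theorem le4_wO_pu (w : W) (f : G.O) :
    wO _ w (pu K (none : Option L) (inc K f)) = pu K (none : Option L) (inc K f) := by
  apply KO_ext
  intro x
  rw [wO_apply, pu_apply, inc_apply]
  exact smul_algebraMap w _

theorem le4_inv {l : X} {ι : Type} [Fintype ι] (f : ι → G.O) {p : ι → (G.pow L).KO K}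
    (hi : ∀ a, InvO W l (p a)) :
    InvO W l (∑ b, pu K (none : Option L) (inc K (f b)) * pb some (p b)) := by
  intro w hw
  rw [map_sum]
  refine Finset.sum_congr rfl fun b _ => ?_
  rw [map_mul, le4_wO_pu, ← pb_wO, hi b w hw]

theorem le4_reg {ι : Type} [Fintype ι] (f : ι → G.O) {p : ι → (G.pow L).KO K}
    (hp : ∀ a, Q.Reg (p a)) :
    Q.Reg (∑ b, pu K (none : Option L) (inc K (f b)) * pb some (p b)) := by
  intro x
  rw [KO_sum]
  refine Subalgebra.sum_mem _ fun b _ => ?_
  rw [KO_mul, pu_apply, inc_apply]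
  exact Subalgebra.mul_mem _ (Subalgebra.algebraMap_mem _ _) (hp b _)

theorem le4_s_some {ι : Type} [Fintype ι] (f : ι → G.O) {p : ι → (G.pow L).KO K} {i : L} {v : K}
    (hp : ∀ a, Q.s i (p a) = v • p a) :
    Q.s (some i) (∑ b, pu K (none : Option L) (inc K (f b)) * pb some (p b)) =
      v • ∑ b, pu K (none : Option L) (inc K (f b)) * pb some (p b) := by
  rw [map_sum, Finset.smul_sum]
  refine Finset.sum_congr rfl fun b _ => ?_
  rw [s_mul, s_pu_ne (by simp), mul_zero, add_zero, s_pb (Option.some_injective L), hp, map_smul,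
    mul_smul_comm]

theorem le4_s_none {ι : Type} [Fintype ι] (f : ι → G.O) {p : ι → (G.pow L).KO K} {v : K}
    (M : ι → ι → K) (hf : ∀ b, Q.s1 (inc K (f b)) = ∑ c, M c b • inc K (f c))
    (hp : ∀ c, ∑ b, M c b • p b = v • p c) :
    Q.s none (∑ b, pu K (none : Option L) (inc K (f b)) * pb some (p b)) =
      v • ∑ b, pu K (none : Option L) (inc K (f b)) * pb some (p b) := by
  have h1 : ∀ b, Q.s none (pu K (none : Option L) (inc K (f b)) * pb some (p b)) =
      ∑ c, pu K (none : Option L) (inc K (f c)) * pb some (M c b • p b) := by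
    intro b
    rw [s_mul, s_pb_out (fun i => by simp), mul_zero, zero_add, s_pu, hf, map_sum,
      Finset.mul_sum]
    refine Finset.sum_congr rfl fun c _ => ?_
    rw [map_smul, map_smul, mul_smul_comm, mul_smul_comm, mul_comm]
  rw [map_sum, Finset.sum_congr rfl fun b _ => h1 b, Finset.sum_comm, Finset.smul_sum]
  refine Finset.sum_congr rfl fun c _ => ?_
  rw [← Finset.mul_sum, ← map_sum, hp, map_smul, mul_smul_comm]

theorem le4_delta (E : Rep G) (b c : E.ι) :
    ∑ a, coI E b a * E.co a c = if b = c then (1 : G.O) else 0 := by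
  apply Subtype.ext
  funext x
  have h1 : (∑ a, coI E b a * E.co a c : G.O).1 x = ∑ a, E.ρ x⁻¹ b a * E.ρ x a c := by
    have h2 : (∑ a, coI E b a * E.co a c : G.O).1 = ∑ a, (coI E b a * E.co a c : G.O).1 := by
      simp
    rw [h2, Finset.sum_apply]
    rfl
  rw [h1, ← Matrix.mul_apply, ← map_mul, inv_mul_cancel, map_one, Matrix.one_apply]
  split_ifs <;> rfl

theorem le4_rey (I : Module.Dual ℂ G.O) {ι : Type} [Fintype ι] [DecidableEq ι]
    (u v : ι → ι → G.O) (p : ι → (G.pow L).KO K) (b : ι) (h1 : I 1 = 1)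
    (h : ∀ c, ∑ a, u a b * v a c = if c = b then (1 : G.O) else 0) :
    ∑ a, redm I (u a b) (∑ c, pu K none (inc K (v a c)) * pb some (p c)) = p b := by
  have hinc : ∀ f f' : G.O, inc K (f * f') = inc K f * inc K f' := by
    intro f f'
    apply KO_ext
    intro x
    rw [KO_mul, inc_apply, inc_apply, inc_apply, ← map_mul]
    rfl
  have h2 : ∀ a c, redm I (u a b) (pu K none (inc K (v a c)) * pb some (p c)) =
      algebraMap ℂ K (I (u a b * v a c)) • p c := by
    intro a c
    rw [redm_apply, ← mul_assoc, ← map_mul, ← hinc, red_pu_pb, ext_inc]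
  simp only [map_sum, h2]
  rw [Finset.sum_comm]
  have h3 : ∀ c, ∑ a, algebraMap ℂ K (I (u a b * v a c)) • p c =
      if c = b then p c else 0 := by
    intro c
    rw [← Finset.sum_smul, ← map_sum, ← map_sum, h]
    split_ifs
    · rw [h1, map_one, one_smul]
    · rw [map_zero, map_zero, zero_smul]
  rw [Finset.sum_congr rfl fun c _ => h3 c]
  simp

/-- [MTF-LE4] PROOF. `∑_b ρ_ab(h) p_b(k)`: weights: leg `none`: `s1_co` and `hs`: `∑_b ∑_c sE c b • co a c * p b = ∑_c co a c * (val l • p c)`;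
legs `some i`: `s_pb`, `s_pu_ne`. Regular, invariant. -/
theorem toLeg_JA (hT : TQ Q) {ε : L → Bool} {l : X} {E : Rep G} {p : E.ι → (G.pow L).KO K}
    (hp : ∀ a, Q.JA ε l (p a)) (hi : ∀ a, InvO W l (p a))
    (hs : ∀ a, ∑ b, Q.sE E a b • p b = Q.val l • p a) (a : E.ι) :
    Q.JA (optS true ε) l (∑ b, pu K none (inc K (E.co a b)) * pb some (p b)) ∧
      InvO W l (∑ b, pu K none (inc K (E.co a b)) * pb some (p b)) := by
  refine ⟨⟨fun i => ?_, le4_reg _ fun b => (hp b).reg⟩, le4_inv _ hi⟩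
  cases i with
  | none =>
    refine le4_s_none (fun b => E.co a b) (fun c b => Q.sE E c b) (fun b => s1_co E a b) ?_
    intro c
    rw [hs]
    have : sgn (optS true ε none) • l = l := one_smul ℤ l
    rw [this]
  | some i =>
    exact le4_s_some (fun b => E.co a b) (fun b => (hp b).wt i)

/-- [MTF-LE4] the same for rows: `∑_b p_b(k) ρ_ba(h⁻¹)`, weight `-l` in the leg `none` (`s1_coI`). -/
theorem toLeg_JA' (hT : TQ Q) {ε : L → Bool} {l : X} {E : Rep G} {p : E.ι → (G.pow L).KO K}
    (hp : ∀ a, Q.JA ε l (p a)) (hi : ∀ a, InvO W l (p a))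
    (hs : ∀ a, ∑ b, Q.sE E b a • p b = Q.val l • p a) (a : E.ι) :
    Q.JA (optS false ε) l (∑ b, pu K none (inc K (coI E b a)) * pb some (p b)) ∧
      InvO W l (∑ b, pu K none (inc K (coI E b a)) * pb some (p b)) := by
  refine ⟨⟨fun i => ?_, le4_reg _ fun b => (hp b).reg⟩, le4_inv _ hi⟩
  cases i with
  | none =>
    refine le4_s_none (fun b => coI E b a) (fun c b => -Q.sE E b c) (fun b => ?_) ?_
    · rw [s1_coI, ← Finset.sum_neg_distrib]
      refine Finset.sum_congr rfl fun c _ => ?_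
      rw [neg_smul]
    · intro c
      have : sgn (optS false ε none) • l = -l := neg_one_zsmul l
      rw [this, map_neg, neg_smul, ← hs, ← Finset.sum_neg_distrib]
      refine Finset.sum_congr rfl fun b _ => ?_
      rw [neg_smul]
  | some i =>
    exact le4_s_some (fun b => coI E b a) (fun b => (hp b).wt i)

/-- [MTF-LE4] PROOF. `redm I (coI E b a) (pu none (inc (co a c)) * pb some (p c)) = algebraMap (I (coI E b a * E.co a c)) • p c`
(`red_pu_pb`, `inc_mul`, `ext_inc`), and `∑_a coI E b a * E.co a c = δ_{bc} • 1`, `I 1 = 1`. -/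
theorem rey_toLeg {I : Module.Dual ℂ G.O} (h1 : I 1 = 1) (E : Rep G) (p : E.ι → (G.pow L).KO K)
    (b : E.ι) : ∑ a, redm I (coI E b a) (∑ c, pu K none (inc K (E.co a c)) * pb some (p c)) =
      p b := by
  refine le4_rey I (fun a b => coI E b a) (fun a c => E.co a c) p b h1 fun c => ?_
  rw [le4_delta]
  simp only [eq_comm]

/-- [MTF-LE4] PROOF. as `rey_toLeg`: `∑_a coI E c a * E.co a b = δ_{cb} • 1`. -/
theorem rey_toLeg' {I : Module.Dual ℂ G.O} (h1 : I 1 = 1) (E : Rep G) (p : E.ι → (G.pow L).KO K)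
    (b : E.ι) : ∑ a, redm I (E.co a b) (∑ c, pu K none (inc K (coI E c a)) * pb some (p c)) =
      p b := by
  refine le4_rey I (fun a b => E.co a b) (fun a c => coI E c a) p b h1 fun c => ?_
  rw [← le4_delta]
  exact Finset.sum_congr rfl fun a _ => mul_comm _ _

end

end Pool.Agent.MTF.LP
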