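import Pool.Agent.MTF.LE4

set_option linter.unusedSectionVars false

/-!
# [MTF-LE4b] lifts with a slot from lifts with a leg
-/

namespace Pool.Agent.MTF.LP

open AffGrp

section
variable {G : AffGrp} {K W X : Type} [Field K] [Algebra ℂ K] [Group W] [Fintype W]
  [MulSemiringAction W K] [SMulCommClass W ℂ K] [AddCommGroup X] [DistribMulAction W X]
variable {L L' : Type} [Finite L] [DecidableEq L] [Finite L'] [DecidableEq L']
variable {Q : TQD G K W X}

theorem le4b_coeff {κ : Type} (t : Finset κ) (F : κ → RR G K X L) (l : X) :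
    (∑ i ∈ t, F i).coeff l = ∑ i ∈ t, (F i).coeff l := by
  classical
  induction t using Finset.induction_on with
  | empty => rfl
  | insert a s ha ih =>
    rw [Finset.sum_insert ha, Finset.sum_insert ha, ← ih]
    rfl

/-- [MTF-LE4b] PROOF. `I` from `hT.cr`. `U a` := the lift (`H`) of `toLeg_JA a`; `φ b := ∑_a mapRR (redm I (coI E b a)) (U a)` (`rey1`);
supports `SuppLe_sum`, `mapRR_supp`; `Eu l • (φ b).coeff l = ∑_a redm I (coI E b a) (Eu l • (U a).coeff l) = Eu l ^ g • p b` (`rey_toLeg`). -/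
theorem slot1 (hT : TQ Q) {g : ℕ} {ε : L → Bool} (H : LiftP Q g (optS true ε)) {l : X} {E : Rep G}
    {p : E.ι → (G.pow L).KO K} (hp : ∀ a, Q.JA ε l (p a)) (hi : ∀ a, InvO W l (p a))
    (hs : ∀ a, ∑ b, Q.sE E a b • p b = Q.val l • p a) :
    ∃ φ : E.ι → RR G K X L, Q.Fam1 g ε E φ ∧ (∀ a, Q.SuppLe l (φ a)) ∧
      ∀ a, Q.Eu l • (φ a).coeff l = Q.Eu l ^ g • p a := by
  obtain ⟨I, h1, _, hrt⟩ := hT.cr
  have hU := fun a => H l (∑ b, pu K none (inc K (E.co a b)) * pb some (p b))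
    (toLeg_JA hT hp hi hs a).1 (toLeg_JA hT hp hi hs a).2
  choose U hU1 hU2 hU3 using hU
  refine ⟨fun b => ∑ a, mapRR (redm I (coI E b a)) (U a), rey1 hrt E hU1, ?_, ?_⟩
  · intro b
    exact SuppLe_sum _ _ fun a _ => mapRR_supp _ (hU2 a)
  · intro b
    rw [le4b_coeff, Finset.smul_sum]
    have h2 : ∀ a, Q.Eu l • (mapRR (redm I (coI E b a)) (U a)).coeff l =
        Q.Eu l ^ g • redm I (coI E b a) (∑ c, pu K none (inc K (E.co a c)) * pb some (p c)) := by
      intro a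
      rw [mapRR_coeff, ← map_smul, hU3, map_smul]
    rw [Finset.sum_congr rfl fun a _ => h2 a, ← Finset.smul_sum, rey_toLeg h1]

/-- [MTF-LE4b] the same for a slot of sign `-` (`rey1'`, `rey_toLeg'`). -/
theorem slot1' (hT : TQ Q) {g : ℕ} {ε : L → Bool} (H : LiftP Q g (optS false ε)) {l : X}
    {E : Rep G} {p : E.ι → (G.pow L).KO K} (hp : ∀ a, Q.JA ε l (p a)) (hi : ∀ a, InvO W l (p a))
    (hs : ∀ a, ∑ b, Q.sE E b a • p b = Q.val l • p a) :
    ∃ φ : E.ι → RR G K X L, Q.Fam1' g ε E φ ∧ (∀ a, Q.SuppLe l (φ a)) ∧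
      ∀ a, Q.Eu l • (φ a).coeff l = Q.Eu l ^ g • p a := by
  obtain ⟨I, h1, _, hrt⟩ := hT.cr
  have hU := fun a => H l (∑ b, pu K none (inc K (coI E b a)) * pb some (p b))
    (toLeg_JA' hT hp hi hs a).1 (toLeg_JA' hT hp hi hs a).2
  choose U hU1 hU2 hU3 using hU
  refine ⟨fun b => ∑ a, mapRR (redm I (E.co a b)) (U a), rey1' hrt E hU1, ?_, ?_⟩
  · intro b
    exact SuppLe_sum _ _ fun a _ => mapRR_supp _ (hU2 a)
  · intro b
    rw [le4b_coeff, Finset.smul_sum]
    have h2 : ∀ a, Q.Eu l • (mapRR (redm I (E.co a b)) (U a)).coeff l =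
        Q.Eu l ^ g • redm I (E.co a b) (∑ c, pu K none (inc K (coI E c a)) * pb some (p c)) := by
      intro a
      rw [mapRR_coeff, ← map_smul, hU3, map_smul]
    rw [Finset.sum_congr rfl fun a _ => h2 a, ← Finset.smul_sum, rey_toLeg' h1]

end

end Pool.Agent.MTF.LP
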