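import Pool.Agent.MTF.LE4b

set_option linter.unusedSectionVars false

/-!
# [MTF-LE4c] lifts with two slots
-/

namespace Pool.Agent.MTF.LP

open AffGrp

section
variable {G : AffGrp} {K W X : Type} [Field K] [Algebra ℂ K] [Group W] [Fintype W]
  [MulSemiringAction W K] [SMulCommClass W ℂ K] [AddCommGroup X] [DistribMulAction W X]
variable {L L' : Type} [Finite L] [DecidableEq L] [Finite L'] [DecidableEq L']
variable {Q : TQD G K W X}

theorem le4c_coeff_sum {κ : Type} (t : Finset κ) (F : κ → RR G K X L) (m : X) :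
    (∑ i ∈ t, F i).coeff m = ∑ i ∈ t, (F i).coeff m := by
  classical
  induction t using Finset.induction_on with
  | empty => rfl
  | insert a t ha ih =>
    rw [Finset.sum_insert ha, Finset.sum_insert ha, ← ih]
    rfl

theorem le4c_lin {κ κ' : Type} (s : Finset κ) (s' : Finset κ') (c : κ → K)
    (x : κ' → (G.pow (Option L)).KO K) (p : κ → κ' → (G.pow L).KO K) (v : K)
    (q : κ' → (G.pow L).KO K) (h : ∀ j ∈ s', ∑ i ∈ s, c i • p i j = v • q j) :
    ∑ i ∈ s, c i • ∑ j ∈ s', x j * pb some (p i j) = v • ∑ j ∈ s', x j * pb some (q j) := by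
  rw [Finset.sum_congr rfl fun i _ => Finset.smul_sum, Finset.sum_comm, Finset.smul_sum]
  refine Finset.sum_congr rfl fun j hj => ?_
  rw [← mul_smul_comm, ← map_smul, ← h j hj, map_sum, Finset.mul_sum]
  refine Finset.sum_congr rfl fun i _ => ?_
  rw [map_smul, mul_smul_comm]

theorem le4c_lin2 {κ κ' : Type} (s : Finset κ) (s' : Finset κ') (c : κ → K)
    (T : κ' → (G.pow (Option L)).KO K →ₗ[K] (G.pow L).KO K)
    (U : κ → κ' → (G.pow (Option L)).KO K) (v : K)
    (q : κ' → (G.pow (Option L)).KO K) (h : ∀ j ∈ s', ∑ i ∈ s, c i • U i j = v • q j) :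
    ∑ i ∈ s, c i • ∑ j ∈ s', T j (U i j) = v • ∑ j ∈ s', T j (q j) := by
  rw [Finset.sum_congr rfl fun i _ => Finset.smul_sum, Finset.sum_comm, Finset.smul_sum]
  refine Finset.sum_congr rfl fun j hj => ?_
  rw [← map_smul, ← h j hj, map_sum]
  refine Finset.sum_congr rfl fun i _ => ?_
  rw [map_smul]

/-- [MTF-LE4c] two slots. PROOF. For fixed `a'`, `P_{a a'} := ∑_b' pu none (inc (coI E' b' a')) * pb some (p a b')` on `Option L` with signs
`optS false ε` is `JA`, invariant (`toLeg_JA'`) and satisfies the slot condition of `E` (linearity of `x ↦ pu .. * pb some x`):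
`slot1` (with `H`) gives `U · a'` (`Fam1` for `optS false ε`). `φ a b := ∑_a' mapRR (redm I (E'.co a' b)) (U a a')`: `fam`, `slot'` by
`rey1'` for fixed `a`; `slot` by linearity of `redm`; leading coefficient by `rey_toLeg'`. -/
theorem slot2 (hT : TQ Q) {g : ℕ} {ε : L → Bool} (H : LiftP Q g (optS true (optS false ε))) {l : X}
    {E E' : Rep G} {p : E.ι → E'.ι → (G.pow L).KO K} (hp : ∀ a a', Q.JA ε l (p a a'))
    (hi : ∀ a a', InvO W l (p a a'))
    (hs : ∀ a a', ∑ b, Q.sE E a b • p b a' = Q.val l • p a a')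
    (hs' : ∀ a a', ∑ b, Q.sE E' b a' • p a b = Q.val l • p a a') :
    ∃ φ : E.ι → E'.ι → RR G K X L, Q.Fam2 g ε E E' φ ∧ (∀ a a', Q.SuppLe l (φ a a')) ∧
      ∀ a a', Q.Eu l • (φ a a').coeff l = Q.Eu l ^ g • p a a' := by
  obtain ⟨I, h1, -, hI⟩ := hT.cr
  have hP : ∀ a a', Q.JA (optS false ε) l (∑ b', pu K none (inc K (coI E' b' a')) * pb some (p a b')) ∧
      InvO W l (∑ b', pu K none (inc K (coI E' b' a')) * pb some (p a b')) := fun a a' =>
    toLeg_JA' hT (hp a) (hi a) (hs' a) a'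
  have hU : ∀ a', ∃ φ : E.ι → RR G K X (Option L), Q.Fam1 g (optS false ε) E φ ∧
      (∀ a, Q.SuppLe l (φ a)) ∧ ∀ a, Q.Eu l • (φ a).coeff l =
        Q.Eu l ^ g • ∑ b', pu K none (inc K (coI E' b' a')) * pb some (p a b') := fun a' =>
    slot1 hT H (fun a => (hP a a').1) (fun a => (hP a a').2) fun a =>
      le4c_lin Finset.univ Finset.univ (fun b => Q.sE E a b)
        (fun b' => pu K none (inc K (coI E' b' a'))) p (Q.val l) (p a) fun b' _ => hs a b'
  choose U hU1 hU2 hU3 using hU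
  have hR : ∀ a, Q.Fam1' g ε E' (fun b => ∑ c, mapRR (redm I (E'.co c b)) (U c a)) := fun a =>
    rey1' hI E' fun c => (hU1 c).fam a
  have hco : ∀ a b m, (∑ c, mapRR (redm I (E'.co c b)) (U c a)).coeff m =
      ∑ c, redm I (E'.co c b) ((U c a).coeff m) := fun a b m => by
    rw [le4c_coeff_sum]
    rfl
  refine ⟨fun a b => ∑ c, mapRR (redm I (E'.co c b)) (U c a), ⟨fun a a' => (hR a).fam a', ?_,
    fun m a a' => (hR a).slot m a'⟩, ?_, ?_⟩
  · intro m a a'
    beta_reduce
    rw [hco, Finset.sum_congr rfl fun b _ => congrArg (fun z => Q.sE E a b • z) (hco b a' m)]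
    exact le4c_lin2 Finset.univ Finset.univ (fun b => Q.sE E a b) (fun c => redm I (E'.co c a'))
      (fun b c => (U c b).coeff m) (Q.val m) (fun c => (U c a).coeff m) fun c _ =>
        (hU1 c).slot m a
  · intro a a'
    exact SuppLe_sum _ _ fun c _ => mapRR_supp _ (hU2 c a)
  · intro a a'
    beta_reduce
    rw [hco, Finset.smul_sum]
    have h2 : ∀ c, Q.Eu l • redm I (E'.co c a') ((U c a).coeff l) =
        Q.Eu l ^ g • redm I (E'.co c a')
          (∑ b', pu K none (inc K (coI E' b' c)) * pb some (p a b')) := fun c => by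
      rw [← map_smul, hU3, map_smul]
    rw [Finset.sum_congr rfl fun c _ => h2 c, ← Finset.smul_sum, rey_toLeg' h1]

end

end Pool.Agent.MTF.LP
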