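import Pool.Agent.MTF.LF1

set_option linter.unusedSectionVars false

/-!
# [MTF-LF3] independence of eigenvectors, supports
-/

namespace Pool.Agent.MTF.LP

open AffGrp

section
variable {G : AffGrp} {K W X : Type} [Field K] [Algebra ℂ K] [Group W] [Fintype W]
  [MulSemiringAction W K] [SMulCommClass W ℂ K] [AddCommGroup X] [DistribMulAction W X]
variable {L L' : Type} [Finite L] [DecidableEq L] [Finite L'] [DecidableEq L']
variable {Q : TQD G K W X}

theorem lf3_sgn (b : Bool) : Function.Injective (fun m : X => sgn b • m) := by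
  intro m m' h
  have h' : sgn b • m = sgn b • m' := h
  cases b with
  | true =>
    have h1 : sgn true = 1 := rfl
    rwa [h1, one_zsmul, one_zsmul] at h'
  | false =>
    have h1 : sgn false = -1 := rfl
    rw [h1, neg_one_zsmul, neg_one_zsmul] at h'
    exact neg_injective h'

theorem lf3_ne {H : AffGrp} {F : H.KO K} (h : F ≠ 0) : ∃ k, F.1 k ≠ 0 := by
  by_contra hcon
  push Not at hcon
  apply h
  apply KO_ext
  intro k
  rw [hcon k]
  rfl

/-- [MTF-LF3] PROOF. `∑_{a,b} sE a b * r b * r' a` is `val m * ∑ r a r' a` and `val m' * ∑ r a r' a`; `hT.val_inj`. -/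
theorem orthoK (hT : TQ Q) (E : Rep G) {m m' : X} (hm : m ≠ m') {r r' : E.ι → K}
    (h : (Q.sE E).mulVec r = Q.val m • r) (h' : (Q.sE E).vecMul r' = Q.val m' • r') :
    ∑ a, r a * r' a = 0 := by
  have h1 : dotProduct r' ((Q.sE E).mulVec r) = dotProduct ((Q.sE E).vecMul r') r :=
    Matrix.dotProduct_mulVec r' (Q.sE E) r
  rw [h, h', dotProduct_smul, smul_dotProduct, smul_eq_mul, smul_eq_mul] at h1
  have h2 : Q.val m - Q.val m' ≠ 0 := sub_ne_zero.2 fun h3 => hm (hT.val_inj h3)
  have h3 : (Q.val m - Q.val m') * dotProduct r' r = 0 := by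
    rw [sub_mul, h1, sub_self]
  have h4 := (mul_eq_zero.1 h3).resolve_left h2
  rw [← h4, dotProduct]
  exact Finset.sum_congr rfl fun a _ => mul_comm _ _

/-- [MTF-LF3] abstract independence. PROOF. `Module.End.eigenvectors_linearIndependent` or directly by induction on the support: if
`F ≠ 0` take `m` in the support, apply `s - val(..)` ... ; with `val (sgn b • m)` injective in `m` (`hT.val_inj`, `sgn b = ±1`,
`neg_injective`). -/
theorem eig_indep (hT : TQ Q) (b : Bool) (i : L) (F : X →₀ (G.pow L).KO K)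
    (h : ∀ m, Q.s i (F m) = Q.val (sgn b • m) • F m) (h0 : (F.sum fun _ a => a) = 0) : F = 0 := by
  have h1 : LinearIndependent K (fun m : F.support => F m.1) := by
    apply Module.End.eigenvectors_linearIndependent' (Q.s i)
      (fun m : F.support => Q.val (sgn b • m.1))
    · intro m m' hmm
      exact Subtype.ext (lf3_sgn b (hT.val_inj hmm))
    · intro m
      rw [Module.End.hasEigenvector_iff, Module.End.mem_eigenspace_iff]
      exact ⟨h m.1, Finsupp.mem_support_iff.1 m.2⟩
  rw [linearIndependent_iff'] at h1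
  have h2 := h1 Finset.univ (fun _ => (1 : K)) (by
    simp only [one_smul]
    rw [← h0, Finsupp.sum]
    exact Finset.sum_coe_sort F.support (fun m => F m))
  by_contra hF
  obtain ⟨m, hm⟩ := Finsupp.support_nonempty_iff.2 hF
  exact one_ne_zero (h2 ⟨m, hm⟩ (Finset.mem_univ _))

/-- [MTF-LF3] PROOF. If `(φ a).coeff m ≠ 0` some value at `k` is nonzero; `r := fun b => ((φ b).coeff m).1 k ≠ 0` and
`(Q.sE V).mulVec r = Q.val m • r` (`h.slot` evaluated at `k`, `KO_sum`, `KO_smul`); `hV.wts`. -/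
theorem supp1 {g : ℕ} {ε : L → Bool} {l : X} {V : Rep G} {v v' : V.ι → K}
    (hV : Q.HW (W := W) l V v v') {φ : V.ι → RR G K X L} (h : Q.Fam1 (W := W) g ε V φ) (a : V.ι) :
    Q.SuppLe (W := W) l (φ a) := by
  intro m hm
  obtain ⟨k, hk⟩ := lf3_ne hm
  refine hV.wts m (fun b => ((φ b).coeff m).1 k) (fun h0 => hk (congrFun h0 a)) (Or.inl ?_)
  funext a'
  have h1 := congrArg (fun F => F.1 k) (h.slot m a')
  simp only [KO_sum, KO_smul] at h1
  exact h1

/-- [MTF-LF3] -/
theorem supp1' {g : ℕ} {ε : L → Bool} {l : X} {V : Rep G} {v v' : V.ι → K}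
    (hV : Q.HW (W := W) l V v v') {φ : V.ι → RR G K X L} (h : Q.Fam1' (W := W) g ε V φ) (a : V.ι) :
    Q.SuppLe (W := W) l (φ a) := by
  intro m hm
  obtain ⟨k, hk⟩ := lf3_ne hm
  refine hV.wts m (fun b => ((φ b).coeff m).1 k) (fun h0 => hk (congrFun h0 a)) (Or.inr ?_)
  funext a'
  have h1 := congrArg (fun F => F.1 k) (h.slot m a')
  simp only [KO_sum, KO_smul] at h1
  rw [Matrix.vecMul, dotProduct, Pi.smul_apply, smul_eq_mul, ← h1]
  exact Finset.sum_congr rfl fun b _ => mul_comm _ _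

/-- [MTF-LF3] -/
theorem supp2 {g : ℕ} {ε : L → Bool} {l : X} {V : Rep G} {v v' : V.ι → K}
    (hV : Q.HW (W := W) l V v v') {E : Rep G} {φ : V.ι → E.ι → RR G K X L}
    (h : Q.Fam2 (W := W) g ε V E φ) (a : V.ι) (b : E.ι) : Q.SuppLe (W := W) l (φ a b) := by
  intro m hm
  obtain ⟨k, hk⟩ := lf3_ne hm
  refine hV.wts m (fun c => ((φ c b).coeff m).1 k) (fun h0 => hk (congrFun h0 a)) (Or.inl ?_)
  funext a'
  have h1 := congrArg (fun F => F.1 k) (h.slot m a' b)
  simp only [KO_sum, KO_smul] at h1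
  exact h1

end

end Pool.Agent.MTF.LP
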