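import Pool.Agent.MTF.LE4b
import Pool.Agent.MTF.LF3

set_option linter.unusedSectionVars false

/-!
# [MTF-LE5] contraction of a slot
-/

namespace Pool.Agent.MTF.LP

open AffGrp

section
variable {G : AffGrp} {K W X : Type} [Field K] [Algebra ℂ K] [Group W] [Fintype W]
  [MulSemiringAction W K] [SMulCommClass W ℂ K] [AddCommGroup X] [DistribMulAction W X]
variable {L L' : Type} [Finite L] [DecidableEq L] [Finite L'] [DecidableEq L']
variable {Q : TQD G K W X}

theorem le5_tot {I : Type} [Finite I] [DecidableEq I] (F : RR G K X I) (S : Finset X) (hS : F.coeff.support ⊆ S)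
    (k : (G.pow I).X) : (tot F).1 k = ∑ m ∈ S, (F.coeff m).1 k := by
  rw [tot_def, Finsupp.sum_of_support_subset _ hS _ (fun _ _ => rfl), KO_sum]

/-- [MTF-LE5] contraction of a slot. PROOF. `T := AddMonoidAlgebra.ofCoeff (Finsupp.onFinset (⋃ supports of the φ a) (fun m => ∑_a ..) _)`.
Weights: `s_mul`, `s_pb`, `s_pb_out`. Invariance: `pb_wO`, `map_mul`, `map_sum`. `reg0`: at `k`, with `k₁ = k ∘ inl`, `k₂ = k ∘ inr`:
`∑_m ∑_a (φ a)_m(k₁) (φ' a)_m(k₂) = ∑_a (tot (φ a)).1 k₁ * (tot (φ' a)).1 k₂`, because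
`∑_a (φ a)_m(k₁) (φ' a)_m'(k₂) = 0` for `m ≠ m'` (`orthoK`). -/
theorem contr (hT : TQ Q) {ε : L → Bool} {ε' : L' → Bool} {V : Rep G} {φ : V.ι → RR G K X L}
    (h : Q.Fam1 0 ε V φ) {φ' : V.ι → RR G K X L'} (h' : Q.Fam1' 0 ε' V φ') :
    ∃ T : RR G K X (L ⊕ L'), Q.Fam 0 (Sum.elim ε ε') T ∧
      ∀ m, T.coeff m = ∑ a, pb Sum.inl ((φ a).coeff m) * pb Sum.inr ((φ' a).coeff m) := by
  classical
  set f : X → (G.pow (L ⊕ L')).KO K := fun m =>
    ∑ a, pb Sum.inl ((φ a).coeff m) * pb Sum.inr ((φ' a).coeff m) with hf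
  set S₀ : Finset X := Finset.univ.biUnion fun a => (φ a).coeff.support with hS₀
  have hsupp : ∀ m, f m ≠ 0 → m ∈ S₀ := by
    intro m hm
    by_contra hmS
    apply hm
    rw [hf]
    refine Finset.sum_eq_zero fun a _ => ?_
    have h0 : (φ a).coeff m = 0 := by
      by_contra h0
      exact hmS (Finset.mem_biUnion.2 ⟨a, Finset.mem_univ _, Finsupp.mem_support_iff.2 h0⟩)
    rw [h0, map_zero, zero_mul]
  set T : RR G K X (L ⊕ L') := AddMonoidAlgebra.ofCoeff (Finsupp.onFinset S₀ f hsupp) with hT'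
  have hTc : ∀ m, T.coeff m = f m := fun m => rfl
  refine ⟨T, ?_, hTc⟩
  refine ⟨?_, ?_, ?_, ?_⟩
  · intro m l
    rw [hTc, hf]
    dsimp only
    rw [map_sum, Finset.smul_sum]
    refine Finset.sum_congr rfl fun a _ => ?_
    rw [s_mul]
    rcases l with i | j
    · have h1 : Q.s (Sum.inl i) (pb (K := K) (G := G) (Sum.inr : L' → L ⊕ L') ((φ' a).coeff m)) = 0 :=
        s_pb_out (fun _ => Sum.inr_ne_inl) _
      have h2 : Q.s (Sum.inl i) (pb (K := K) (G := G) (Sum.inl : L → L ⊕ L') ((φ a).coeff m)) =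
          Q.val (sgn (ε i) • m) • pb Sum.inl ((φ a).coeff m) := by
        rw [s_pb Sum.inl_injective, ((h.fam a).wt m i), map_smul]
      rw [h1, h2, mul_zero, zero_add, mul_smul_comm, mul_comm (pb Sum.inr _)]
      rfl
    · have h1 : Q.s (Sum.inr j) (pb (K := K) (G := G) (Sum.inl : L → L ⊕ L') ((φ a).coeff m)) = 0 :=
        s_pb_out (fun _ => Sum.inl_ne_inr) _
      have h2 : Q.s (Sum.inr j) (pb (K := K) (G := G) (Sum.inr : L' → L ⊕ L') ((φ' a).coeff m)) =
          Q.val (sgn (ε' j) • m) • pb Sum.inr ((φ' a).coeff m) := by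
        rw [s_pb Sum.inr_injective, ((h'.fam a).wt m j), map_smul]
      rw [h1, h2, mul_zero, add_zero, mul_smul_comm]
      rfl
  · intro w m
    rw [hTc, hTc, hf]
    dsimp only
    rw [map_sum]
    refine Finset.sum_congr rfl fun a _ => ?_
    rw [map_mul, ← pb_wO, ← pb_wO, (h.fam a).inv w m, (h'.fam a).inv w m]
  · intro _ k
    set S : Finset X := S₀ ∪ Finset.univ.biUnion fun a => (φ' a).coeff.support with hS
    have hS1 : ∀ a, (φ a).coeff.support ⊆ S := fun a m hm =>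
      Finset.mem_union_left _ (Finset.mem_biUnion.2 ⟨a, Finset.mem_univ _, hm⟩)
    have hS2 : ∀ a, (φ' a).coeff.support ⊆ S := fun a m hm =>
      Finset.mem_union_right _ (Finset.mem_biUnion.2 ⟨a, Finset.mem_univ _, hm⟩)
    have hS3 : T.coeff.support ⊆ S := fun m hm =>
      Finset.mem_union_left _ (hsupp m (Finsupp.mem_support_iff.1 hm))
    have key : (tot T).1 k = ∑ a, (tot (φ a)).1 (k ∘ Sum.inl) * (tot (φ' a)).1 (k ∘ Sum.inr) := by
      rw [le5_tot T S hS3 k]
      have e1 : ∀ a, (tot (φ a)).1 (k ∘ Sum.inl) * (tot (φ' a)).1 (k ∘ Sum.inr) =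
          ∑ m ∈ S, ∑ m' ∈ S, ((φ a).coeff m).1 (k ∘ Sum.inl) * ((φ' a).coeff m').1 (k ∘ Sum.inr) := by
        intro a
        rw [le5_tot (φ a) S (hS1 a), le5_tot (φ' a) S (hS2 a), Finset.sum_mul_sum]
      rw [Finset.sum_congr rfl fun a _ => e1 a, Finset.sum_comm]
      refine Finset.sum_congr rfl fun m hm => ?_
      rw [Finset.sum_comm, Finset.sum_eq_single_of_mem m hm]
      · rw [hTc, hf]
        dsimp only
        rw [KO_sum]
        refine Finset.sum_congr rfl fun a _ => ?_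
        rw [KO_mul, pb_apply, pb_apply]
      · intro m' _ hne
        refine orthoK hT V (Ne.symm hne) (r := fun a => ((φ a).coeff m).1 (k ∘ Sum.inl))
          (r' := fun a => ((φ' a).coeff m').1 (k ∘ Sum.inr)) ?_ ?_
        · funext a
          have e2 : (∑ b, Q.sE V a b • (φ b).coeff m).1 (k ∘ Sum.inl) =
              (Q.val m • (φ a).coeff m).1 (k ∘ Sum.inl) := by rw [h.slot m a]
          rw [KO_sum, KO_smul] at e2
          rw [Pi.smul_apply, smul_eq_mul, ← e2]
          refine Finset.sum_congr rfl fun b _ => ?_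
          rw [KO_smul]
        · funext a
          have e2 : (∑ b, Q.sE V b a • (φ' b).coeff m').1 (k ∘ Sum.inr) =
              (Q.val m' • (φ' a).coeff m').1 (k ∘ Sum.inr) := by rw [h'.slot m' a]
          rw [KO_sum, KO_smul] at e2
          rw [Pi.smul_apply, smul_eq_mul, ← e2]
          refine Finset.sum_congr rfl fun b _ => ?_
          rw [KO_smul, mul_comm]
    rw [key]
    exact sum_mem fun a _ => mul_mem ((h.fam a).reg0 rfl _) ((h'.fam a).reg0 rfl _)
  · intro m k hg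
    exact absurd hg (lt_irrefl 0)

end

end Pool.Agent.MTF.LP
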