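import Pool.Agent.MTF.LE5
import Pool.Agent.MTF.LD6c

set_option linter.unusedSectionVars false

/-!
# [MTF-LE5b] lifts for mixed signs
-/

namespace Pool.Agent.MTF.LP

open AffGrp

section
variable {G : AffGrp} {K W X : Type} [Field K] [Algebra ℂ K] [Group W] [Fintype W]
  [MulSemiringAction W K] [SMulCommClass W ℂ K] [AddCommGroup X] [DistribMulAction W X]
variable {L L' : Type} [Finite L] [DecidableEq L] [Finite L'] [DecidableEq L']
variable {Q : TQD G K W X}

/-- [MTF-LE5b] PROOF. `liftP` (`Option L` is nonempty; `optS true (fun _ => true) = fun _ => true`), `pow_zero`, `one_smul`. -/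
theorem LiftP_plus (hT : TQ Q) : LiftP Q 0 (optS true fun _ : L => true) := by
  have e : optS true (fun _ : L => true) = fun _ => true := by
    funext o
    cases o <;> rfl
  rw [e]
  intro l p hp hi
  obtain ⟨T, h1, h2, h3⟩ := liftP hT hp hi
  exact ⟨T, h1, h2, by rw [h3, pow_zero, one_smul]⟩

/-- [MTF-LE5b] PROOF. `liftM`. -/
theorem LiftP_minus (hT : TQ Q) : LiftP Q 0 (optS false fun _ : L => false) := by
  have e : optS false (fun _ : L => false) = fun _ => false := by
    funext o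
    cases o <;> rfl
  rw [e]
  intro l p hp hi
  obtain ⟨T, h1, h2, h3⟩ := liftM hT hp hi
  exact ⟨T, h1, h2, by rw [h3, pow_zero, one_smul]⟩

theorem le5b_JA_smul {ε : L → Bool} {l : X} {m : (G.pow L).KO K} (h : Q.JA ε l m) {a : K}
    (ha : a ∈ Q.A) : Q.JA ε l (a • m) := by
  refine ⟨fun i => ?_, fun x => ?_⟩
  · rw [map_smul, h.wt i, smul_comm]
  · rw [KO_smul]
    exact Q.A.mul_mem ha (h.reg x)

theorem le5b_InvO_smul {l : X} {H : AffGrp} {m : H.KO K} (h : InvO W l m) {a : K}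
    (ha : ∀ w : W, w • l = l → w • a = a) : InvO W l (a • m) := by
  intro w hw
  refine KO_ext fun x => ?_
  rw [wO_apply, KO_smul, smul_mul', ha w hw, ← wO_apply, h w hw]

/-- one product term -/
theorem le5b_term (hT : TQ Q) {l : X} {V : Rep G} {v v' : V.ι → K} (hV : Q.HW (W := W) l V v v')
    {m : (G.pow L).KO K} (hm : Q.JA (fun _ => true) l m) (hi : InvO W l m)
    {m' : (G.pow L').KO K} (hm' : Q.JA (fun _ => false) l m') (hi' : InvO W l m') :
    ∃ T : RR G K X (L ⊕ L'), Q.Fam 0 (Sum.elim (fun _ => true) (fun _ => false)) T ∧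
      Q.SuppLe (W := W) l T ∧
      Q.Eu l • T.coeff l = pb Sum.inl m * pb Sum.inr m' := by
  obtain ⟨φ, h1, h2, h3⟩ := slot1 hT (LiftP_plus (L := L) hT) (l := l) (E := V)
    (p := fun a => v a • m) (fun a => le5b_JA_smul hm (hV.v_mem a))
    (fun a => le5b_InvO_smul hi (fun w hw => hV.v_inv w hw a)) (by
      intro a
      have h := congrFun hV.v_eig a
      simp only [Matrix.mulVec, dotProduct, Pi.smul_apply, smul_eq_mul] at h
      rw [smul_smul, ← h, Finset.sum_smul]
      exact Finset.sum_congr rfl fun b _ => by rw [smul_smul])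
  obtain ⟨φ', h1', h2', h3'⟩ := slot1' hT (LiftP_minus (L := L') hT) (l := l) (E := V)
    (p := fun a => v' a • m') (fun a => le5b_JA_smul hm' (hV.v'_mem a))
    (fun a => le5b_InvO_smul hi' (fun w hw => hV.v'_inv w hw a)) (by
      intro a
      have h := congrFun hV.v'_eig a
      simp only [Matrix.vecMul, dotProduct, Pi.smul_apply, smul_eq_mul] at h
      rw [smul_smul, ← h, Finset.sum_smul]
      exact Finset.sum_congr rfl fun b _ => by rw [smul_smul, mul_comm])
  obtain ⟨T, hT1, hT2⟩ := contr hT h1 h1'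
  refine ⟨T, hT1, ?_, ?_⟩
  · intro n hn
    rw [hT2] at hn
    obtain ⟨a, _, ha⟩ := Finset.exists_ne_zero_of_sum_ne_zero hn
    refine h2 a n fun h0 => ha ?_
    rw [h0, map_zero, zero_mul]
  · have hE := hT.Eu_ne l
    have key : Q.Eu l • (Q.Eu l • T.coeff l) = Q.Eu l • (pb Sum.inl m * pb Sum.inr m') := by
      rw [hT2, smul_smul, Finset.smul_sum]
      have e1 : ∀ a, (Q.Eu l * Q.Eu l) • (pb Sum.inl ((φ a).coeff l) * pb Sum.inr ((φ' a).coeff l))
          = (v a * v' a) • ((pb Sum.inl m * pb Sum.inr m' : (G.pow (L ⊕ L')).KO K)) := by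
        intro a
        have e2 : (Q.Eu l * Q.Eu l) • ((pb Sum.inl ((φ a).coeff l) * pb Sum.inr ((φ' a).coeff l) :
            (G.pow (L ⊕ L')).KO K))
            = pb Sum.inl (Q.Eu l • (φ a).coeff l) * pb Sum.inr (Q.Eu l • (φ' a).coeff l) := by
          rw [map_smul, map_smul, smul_mul_smul_comm]
        rw [e2, h3, h3', pow_zero, one_smul, one_smul, map_smul, map_smul, smul_mul_smul_comm]
      rw [Finset.sum_congr rfl fun a _ => e1 a, ← Finset.sum_smul, hV.pair]
    have h := congrArg (fun z => (Q.Eu l)⁻¹ • z) key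
    simpa only [smul_smul, inv_mul_cancel₀ hE, ← mul_assoc, one_mul, one_smul] using h

/-- [MTF-LE5b] PROOF. `prodS`: `p = ∑_j m_j ⊗ m'_j` (invariant factors). `V, v, v'` from `hT.hw l`. `slot1` (with `LiftP_plus`) for
`fun a => v a • m_j` gives `φ_j`, `slot1'` (with `LiftP_minus`) for `fun a => v' a • m'_j` gives `φ'_j`; `T := ∑_j contr`.
`Eu l • T.coeff l`: multiply by `Eu l`: `Eu² • ∑_a pb inl φ_l * pb inr φ'_l = ∑_a (v a * v' a) • (pb inl m_j * pb inr m'_j)
= Eu l • (..)` (`hV.pair`), cancel `Eu l`; `∑_j pb inl m_j * pb inr m'_j = p` (`KO_ext`, `Sum.elim_comp_inl_inr`). Supports: a nonzero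
component of `T` gives a nonzero component of some `φ a`. -/
theorem liftS (hT : TQ Q) :
    LiftP Q 0 (Sum.elim (fun _ : L => true) (fun _ : L' => false)) := by
  intro l p hp hi
  obtain ⟨n, m, m', h, h', hsum⟩ := prodS hT hp hi
  obtain ⟨V, v, v', hV⟩ := hT.hw l
  choose T hT1 hT2 hT3 using fun j => le5b_term hT hV (h j).1 (h j).2 (h' j).1 (h' j).2
  refine ⟨∑ j, T j, Fam_sum _ _ fun j _ => hT1 j, SuppLe_sum _ _ fun j _ => hT2 j, ?_⟩
  rw [AddMonoidAlgebra.coeff_sum, Finsupp.finset_sum_apply, Finset.smul_sum, pow_zero, one_smul,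
    Finset.sum_congr rfl fun j _ => hT3 j]
  refine KO_ext fun k => ?_
  rw [KO_sum]
  have e : k = Sum.elim (k ∘ Sum.inl) (k ∘ Sum.inr) := (Sum.elim_comp_inl_inr k).symm
  have h2 := hsum (k ∘ Sum.inl) (k ∘ Sum.inr)
  rw [← e] at h2
  rw [h2]
  exact Finset.sum_congr rfl fun j _ => rfl

end

end Pool.Agent.MTF.LP
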