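import Pool.Agent.MTF.LE5b

set_option linter.unusedSectionVars false

/-!
# [MTF-LE6] lifts for arbitrary signs
-/

namespace Pool.Agent.MTF.LP

open AffGrp

section
variable {G : AffGrp} {K W X : Type} [Field K] [Algebra ℂ K] [Group W] [Fintype W]
  [MulSemiringAction W K] [SMulCommClass W ℂ K] [AddCommGroup X] [DistribMulAction W X]
variable {L L' : Type} [Finite L] [DecidableEq L] [Finite L'] [DecidableEq L']
variable {Q : TQD G K W X}

/-- [MTF-LE6] transport along a bijection. PROOF. For `p` on `J`: `p' := pb e.symm p` on `I` is `JA (ε ∘ e)`, invariant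
(`s_pb` for `e.symm` or `e`, `pb e (pb e.symm p) = p` by `KO_ext`); lift `F'`; `F := mapRR (pb e).toLinearMap F'`: `Fam` by `s_pb`
(every `j` is `e i`), `pb_wO`, `pb_reg`, `mapRR_tot`. -/
theorem LiftP_equiv {I J : Type} [Finite I] [DecidableEq I] [Finite J] [DecidableEq J] (e : I ≃ J)
    {g : ℕ} {ε : J → Bool} (h : LiftP Q g (fun i => ε (e i))) : LiftP Q g ε := by
  intro l p hp hi
  have hjj : ∀ j : J, e (e.symm j) = j := e.apply_symm_apply
  obtain ⟨F', hF', hS, hE⟩ := h l (pb e.symm p) ⟨fun i => by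
      have h1 := s_pb (Q := Q) e.symm.injective (e i) p
      rw [e.symm_apply_apply] at h1
      rw [h1, hp.wt, map_smul], pb_reg _ hp.reg⟩ (fun w hw => by
      rw [← pb_wO, hi w hw])
  refine ⟨mapRR (pb e).toLinearMap F', ⟨?_, ?_, ?_, ?_⟩, mapRR_supp _ hS, ?_⟩
  · intro m j
    have h1 := s_pb (Q := Q) e.injective (e.symm j) (F'.coeff m)
    rw [hjj, hF'.wt, hjj, map_smul] at h1
    exact h1
  · intro w m
    rw [mapRR_coeff, mapRR_coeff]
    have h1 := hF'.inv w m
    have h2 := pb_wO (e : I → J) w (F'.coeff m)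
    rw [h1] at h2
    exact h2.symm
  · intro hg
    rw [mapRR_tot]
    exact pb_reg _ (hF'.reg0 hg)
  · intro m k hg
    exact hF'.regS m (k ∘ e) hg
  · have h1 : pb e (pb e.symm p) = p := by
      apply KO_ext
      intro k
      rw [pb_apply, pb_apply, Function.comp_assoc, Equiv.self_comp_symm, Function.comp_id]
    rw [mapRR_coeff]
    have h2 := congrArg (pb e) hE
    rw [map_smul, map_smul, h1] at h2
    exact h2

/-- [MTF-LE6] PROOF. `LiftP_equiv` for `Equiv.sumCompl (fun i => ε i = true)` and `liftS` (`fun i => ε (e i)` is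
`Sum.elim (fun _ => true) (fun _ => false)`: funext, cases, `Bool` ). -/
theorem lift0_zero (hT : TQ Q) (ε : L → Bool) : LiftP Q 0 ε := by
  have h1 := liftS (L := {i : L // ε i = true}) (L' := {i : L // ¬ ε i = true}) hT
  have h2 : (Sum.elim (fun _ : {i : L // ε i = true} => true)
      (fun _ : {i : L // ¬ ε i = true} => false)) =
      fun i => ε (Equiv.sumCompl (fun i : L => ε i = true) i) := by
    funext i
    cases i with
    | inl i =>
      rw [Sum.elim_inl, Equiv.sumCompl_apply_inl]
      exact i.2.symm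
    | inr i =>
      rw [Sum.elim_inr, Equiv.sumCompl_apply_inr]
      exact (Bool.eq_false_of_not_eq_true i.2).symm
  rw [h2] at h1
  exact LiftP_equiv _ h1

end

end Pool.Agent.MTF.LP
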