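import Pool.Agent.MTF.LE6

set_option linter.unusedSectionVars false

/-!
# [MTF-LE6b] lifts of positive genus
-/

namespace Pool.Agent.MTF.LP

open AffGrp

section
variable {G : AffGrp} {K W X : Type} [Field K] [Algebra ℂ K] [Group W] [Fintype W]
  [MulSemiringAction W K] [SMulCommClass W ℂ K] [AddCommGroup X] [DistribMulAction W X]
variable {L L' : Type} [Finite L] [DecidableEq L] [Finite L'] [DecidableEq L']
variable {Q : TQD G K W X}

theorem le6b_mul (H : AffGrp) (w w' : W) (F : H.KO K) : wO H (w * w') F = wO H w (wO H w' F) := by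
  apply KO_ext
  intro x
  rw [wO_apply, wO_apply, wO_apply, mul_smul]

theorem le6b_one (H : AffGrp) (F : H.KO K) : wO H (1 : W) F = F := by
  apply KO_ext
  intro x
  rw [wO_apply, one_smul]

open Classical in
/-- the components: `w P` at `w l` -/
noncomputable def le6b_c (W : Type) [Group W] [MulSemiringAction W K] [SMulCommClass W ℂ K]
    [DistribMulAction W X] {H : AffGrp} (l : X) (P : H.KO K) (m : X) : H.KO K :=
  if h : ∃ w : W, m = w • l then wO H h.choose P else 0

theorem le6b_c_smul {H : AffGrp} {l : X} {P : H.KO K} (hP : InvO W l P) (w : W) :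
    le6b_c W l P (w • l) = wO H w P := by
  unfold le6b_c
  have h : ∃ w' : W, w • l = w' • l := ⟨w, rfl⟩
  rw [dif_pos h]
  have h1 := h.choose_spec
  generalize h.choose = w' at h1
  have h2 : (w'⁻¹ * w) • l = l := by
    rw [mul_smul, h1, inv_smul_smul]
  have h3 := congrArg (wO H w') (hP _ h2)
  rw [← le6b_mul, mul_inv_cancel_left] at h3
  exact h3.symm

theorem le6b_c_zero {H : AffGrp} {l : X} {P : H.KO K} {m : X} (h : ¬ ∃ w : W, m = w • l) :
    le6b_c W l P m = 0 := by
  unfold le6b_c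
  rw [dif_neg h]

open Classical in
noncomputable def le6b_F (W : Type) [Group W] [Fintype W] [MulSemiringAction W K]
    [SMulCommClass W ℂ K] [DistribMulAction W X] (l : X) (P : (G.pow L).KO K) : RR G K X L :=
  AddMonoidAlgebra.ofCoeff (Finsupp.onFinset (Finset.univ.image fun w : W => w • l)
    (le6b_c W l P) (by
      intro m hm
      by_contra hcon
      apply hm
      apply le6b_c_zero
      rintro ⟨w, rfl⟩
      exact hcon (Finset.mem_image.2 ⟨w, Finset.mem_univ _, rfl⟩)))

theorem le6b_F_coeff (l : X) (P : (G.pow L).KO K) (m : X) :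
    (le6b_F W l P).coeff m = le6b_c W l P m := rfl

theorem le6b_zsmul (w : W) (b : Bool) (l : X) : w • (sgn b • l) = sgn b • (w • l) :=
  map_zsmul (DistribSMul.toAddMonoidHom X w) (sgn b) l

/-- [MTF-LE6b] (L4.5) genus `n + 1`. PROOF. `F.coeff m := if h : ∃ w, m = w • l then wO _ h.choose (Eu l ^ n • p) else 0`
(finite support: the orbit is the image of the finite `W`). For `w • l = w' • l` the values agree (`hi`, `hT.Eu_w`). So
`F.coeff (w • l) = wO w (Eu l ^ n • p) = Eu (w • l) ^ n • wO w p`. Weights: `wO_s`, `hT.val_w`, `smul_zsmul`/cases on `ε i`. Regular: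
`hT.wA`. `F.coeff l = Eu l ^ n • p`. -/
theorem lift0_succ (hT : TQ Q) (n : ℕ) (ε : L → Bool) : LiftP Q (n + 1) ε := by
  intro l p hp hi
  have hEw : ∀ w : W, w • (Q.Eu l ^ n) = Q.Eu (w • l) ^ n := by
    intro w
    rw [smul_pow', hT.Eu_w]
  have hP : InvO W l (Q.Eu l ^ n • p) := by
    intro w hw
    rw [wO_smul, hEw, hw, hi w hw]
  have hval : ∀ w : W, le6b_c W l (Q.Eu l ^ n • p) (w • l) =
      wO _ w (Q.Eu l ^ n • p) := le6b_c_smul hP
  refine ⟨le6b_F W l (Q.Eu l ^ n • p), ⟨?_, ?_, ?_, ?_⟩, ?_, ?_⟩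
  · intro m i
    rw [le6b_F_coeff]
    by_cases h : ∃ w : W, m = w • l
    · obtain ⟨w, rfl⟩ := h
      rw [hval, ← wO_s hT, map_smul, hp.wt i, smul_comm, wO_smul, ← hT.val_w, le6b_zsmul]
    · rw [le6b_c_zero h, map_zero, smul_zero]
  · intro w m
    rw [le6b_F_coeff, le6b_F_coeff]
    by_cases h : ∃ w : W, m = w • l
    · obtain ⟨w', rfl⟩ := h
      rw [hval, ← mul_smul, hval, le6b_mul]
    · rw [le6b_c_zero h, map_zero, le6b_c_zero]
      rintro ⟨w', h'⟩
      apply h
      refine ⟨w⁻¹ * w', ?_⟩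
      rw [mul_smul, ← h', inv_smul_smul]
  · intro h
    exact absurd h (Nat.succ_ne_zero n)
  · intro m k _
    rw [le6b_F_coeff, Nat.add_sub_cancel]
    by_cases h : ∃ w : W, m = w • l
    · obtain ⟨w, rfl⟩ := h
      rw [hval, wO_smul, hEw, KO_smul, ← mul_assoc,
        inv_mul_cancel₀ (pow_ne_zero n (hT.Eu_ne _)), one_mul, wO_apply]
      exact hT.wA w _ (hp.reg k)
    · rw [le6b_c_zero h, KO_zero, mul_zero]
      exact Q.A.zero_mem
  · intro m hm
    left
    by_contra h
    exact hm (by rw [le6b_F_coeff]; exact le6b_c_zero h)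
  · rw [le6b_F_coeff]
    have h1 := hval 1
    rw [one_smul] at h1
    rw [h1, le6b_one, smul_smul, ← pow_succ']

end

end Pool.Agent.MTF.LP
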