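import Pool.Agent.MTF.LE6b
import Pool.Agent.MTF.LE4c

set_option linter.unusedSectionVars false

/-!
# [MTF-LE7] all lifts (assembly)
-/

namespace Pool.Agent.MTF.LP

open AffGrp

section
variable {G : AffGrp} {K W X : Type} [Field K] [Algebra ℂ K] [Group W] [Fintype W]
  [MulSemiringAction W K] [SMulCommClass W ℂ K] [AddCommGroup X] [DistribMulAction W X]
variable {L L' : Type} [Finite L] [DecidableEq L] [Finite L'] [DecidableEq L']
variable {Q : TQD G K W X}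

/-- lifts without slots -/
theorem lift0 (hT : TQ Q) (g : ℕ) {ε : L → Bool} {l : X}
    {p : (G.pow L).KO K} (hp : Q.JA ε l p) (hi : InvO W l p) :
    ∃ F : RR G K X L, Q.Fam g ε F ∧ Q.SuppLe l F ∧ Q.Eu l • F.coeff l = Q.Eu l ^ g • p := by
  cases g with
  | zero => exact lift0_zero hT ε l p hp hi
  | succ n => exact lift0_succ hT n ε l p hp hi

theorem lift1 (hT : TQ Q) (g : ℕ) {ε : L → Bool} {l : X} {E : Rep G}
    {p : E.ι → (G.pow L).KO K} (hp : ∀ a, Q.JA ε l (p a)) (hi : ∀ a, InvO W l (p a))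
    (hs : ∀ a, ∑ b, Q.sE E a b • p b = Q.val l • p a) :
    ∃ φ : E.ι → RR G K X L, Q.Fam1 g ε E φ ∧ (∀ a, Q.SuppLe l (φ a)) ∧
      ∀ a, Q.Eu l • (φ a).coeff l = Q.Eu l ^ g • p a :=
  slot1 hT (fun _ _ hp hi => lift0 hT g hp hi) hp hi hs

theorem lift1' (hT : TQ Q) (g : ℕ) {ε : L → Bool} {l : X} {E : Rep G}
    {p : E.ι → (G.pow L).KO K} (hp : ∀ a, Q.JA ε l (p a)) (hi : ∀ a, InvO W l (p a))
    (hs : ∀ a, ∑ b, Q.sE E b a • p b = Q.val l • p a) :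
    ∃ φ : E.ι → RR G K X L, Q.Fam1' g ε E φ ∧ (∀ a, Q.SuppLe l (φ a)) ∧
      ∀ a, Q.Eu l • (φ a).coeff l = Q.Eu l ^ g • p a :=
  slot1' hT (fun _ _ hp hi => lift0 hT g hp hi) hp hi hs

theorem lift2 (hT : TQ Q) (g : ℕ) {ε : L → Bool} {l : X} {E E' : Rep G}
    {p : E.ι → E'.ι → (G.pow L).KO K} (hp : ∀ a a', Q.JA ε l (p a a'))
    (hi : ∀ a a', InvO W l (p a a'))
    (hs : ∀ a a', ∑ b, Q.sE E a b • p b a' = Q.val l • p a a')
    (hs' : ∀ a a', ∑ b, Q.sE E' b a' • p a b = Q.val l • p a a') :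
    ∃ φ : E.ι → E'.ι → RR G K X L, Q.Fam2 g ε E E' φ ∧ (∀ a a', Q.SuppLe l (φ a a')) ∧
      ∀ a a', Q.Eu l • (φ a a').coeff l = Q.Eu l ^ g • p a a' :=
  slot2 hT (fun _ _ hp hi => lift0 hT g hp hi) hp hi hs hs'

end

end Pool.Agent.MTF.LP
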