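import Pool.Agent.MTF.LF1

set_option linter.unusedSectionVars false

/-!
# [MTF-LF2] Hom_J acts on families
-/

namespace Pool.Agent.MTF.LP

open AffGrp

section
variable {G : AffGrp} {K W X : Type} [Field K] [Algebra ℂ K] [Group W] [Fintype W]
  [MulSemiringAction W K] [SMulCommClass W ℂ K] [AddCommGroup X] [DistribMulAction W X]
variable {L L' : Type} [Finite L] [DecidableEq L] [Finite L'] [DecidableEq L']
variable {Q : TQD G K W X}

theorem lf2_coeff {κ : Type} (t : Finset κ) (T : κ → K) (F : κ → RR G K X L) (m : X) :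
    (∑ b ∈ t, T b • F b).coeff m = ∑ b ∈ t, T b • (F b).coeff m := by
  rw [AddMonoidAlgebra.coeff_sum, Finsupp.finsetSum_apply]
  rfl

theorem lf2_core {α β M : Type} [Fintype α] [Fintype β] [AddCommGroup M] [Module K M] {S' : Matrix α α K}
    {S : Matrix β β K} {T : Matrix α β K} (hc : S' * T = T * S) {x : β → M} {z : K}
    (hx : ∀ b, ∑ c, S b c • x c = z • x b) (a : α) :
    ∑ b, S' a b • ∑ c, T b c • x c = z • ∑ b, T a b • x b := by
  have h1 : ∑ b, S' a b • ∑ c, T b c • x c = ∑ c, (S' * T) a c • x c := by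
    simp only [Finset.smul_sum, smul_smul]
    rw [Finset.sum_comm]
    refine Finset.sum_congr rfl fun c _ => ?_
    rw [Matrix.mul_apply, Finset.sum_smul]
  have h2 : ∑ c, (T * S) a c • x c = ∑ b, T a b • ∑ c, S b c • x c := by
    simp only [Finset.smul_sum, smul_smul]
    rw [Finset.sum_comm]
    refine Finset.sum_congr rfl fun c _ => ?_
    rw [Matrix.mul_apply, Finset.sum_smul]
  rw [h1, hc, h2, Finset.smul_sum]
  refine Finset.sum_congr rfl fun b _ => ?_
  rw [hx b, smul_comm]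

theorem lf2_swap {α β M : Type} [Fintype α] [Fintype β] [AddCommGroup M] [Module K M] {U : α → K} {T : β → K}
    {x : β → α → M} {y : β → M} {z : K} (hx : ∀ c, ∑ b, U b • x c b = z • y c) :
    ∑ b, U b • ∑ c, T c • x c b = z • ∑ c, T c • y c := by
  simp only [Finset.smul_sum]
  rw [Finset.sum_comm]
  refine Finset.sum_congr rfl fun c _ => ?_
  rw [smul_comm z, ← hx c, Finset.smul_sum]
  exact Finset.sum_congr rfl fun b _ => smul_comm _ _ _

theorem lf2_fam {g : ℕ} {ε : L → Bool} {E E' : Rep G} {T : Matrix E'.ι E.ι K} (hT' : Q.HomJ E E' T)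
    {κ : Type} (t : Finset κ) (u : κ → E'.ι) (v : κ → E.ι) (F : κ → RR G K X L) (h : ∀ i ∈ t, Q.Fam g ε (F i)) :
    Q.Fam g ε (∑ i ∈ t, T (u i) (v i) • F i) :=
  Fam_sum t _ fun i hi => Fam_smul (h i hi) (hT'.mem _ _) fun w => hT'.inv w _ _

/-- [MTF-LF2] `T ∈ Hom_J(E, E')` acts on families with values in `E`.
PROOF. `fam`: `Fam_sum`, `Fam_smul` (`hT'.mem`, `hT'.inv`). `slot`: for every `m`, with `x b := (φ b).coeff m`:
`∑_b sE' a b • ∑_c T b c • x c = ∑_c (sE' * T) a c • x c = ∑_c (T * sE) a c • x c = ∑_b T a b • ∑_c sE b c • x c = val m • ∑_b T a b • x b`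
(`coeff_sum`, `coeff_smul`, `Finset.smul_sum`, `smul_smul`, `Finset.sum_comm`, `Matrix.mul_apply`). -/
theorem Fam1_act {g : ℕ} {ε : L → Bool} {E E' : Rep G} {φ : E.ι → RR G K X L}
    (h : Q.Fam1 g ε E φ) {T : Matrix E'.ι E.ι K} (hT' : Q.HomJ E E' T) :
    Q.Fam1 g ε E' (fun a => ∑ b, T a b • φ b) := by
  refine ⟨fun a => lf2_fam hT' Finset.univ (fun _ => a) (fun b => b) φ fun b _ => h.fam b, fun m a => ?_⟩
  simp only [lf2_coeff]
  exact lf2_core hT'.comm (fun b => h.slot m b) a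

/-- [MTF-LF2] the transpose of `T ∈ Hom_J(E, E')` acts on families with values in the dual of `E'` -/
theorem Fam1'_act {g : ℕ} {ε : L → Bool} {E E' : Rep G} {φ : E'.ι → RR G K X L}
    (h : Q.Fam1' g ε E' φ) {T : Matrix E'.ι E.ι K} (hT' : Q.HomJ E E' T) :
    Q.Fam1' g ε E (fun b => ∑ a, T a b • φ a) := by
  refine ⟨fun b => lf2_fam hT' Finset.univ (fun a => a) (fun _ => b) φ fun a _ => h.fam a, fun m b => ?_⟩
  simp only [lf2_coeff]
  have hc : (Q.sE E).transpose * T.transpose = T.transpose * (Q.sE E').transpose := by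
    rw [← Matrix.transpose_mul, ← Matrix.transpose_mul, hT'.comm]
  exact lf2_core (S' := (Q.sE E).transpose) (S := (Q.sE E').transpose) (T := T.transpose) hc
    (x := fun a => (φ a).coeff m) (fun a => h.slot m a) b

/-- [MTF-LF2] PROOF. `fam`, `slot`: `Fam1_act` for `φ (·) a'` with fixed `a'`; `slot'`: interchange the sums. -/
theorem Fam2_actL {g : ℕ} {ε : L → Bool} {E E₁ E' : Rep G}
    {φ : E.ι → E'.ι → RR G K X L} (h : Q.Fam2 g ε E E' φ) {T : Matrix E₁.ι E.ι K}
    (hT' : Q.HomJ E E₁ T) : Q.Fam2 g ε E₁ E' (fun a a' => ∑ b, T a b • φ b a') := by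
  refine ⟨fun a a' => lf2_fam hT' Finset.univ (fun _ => a) (fun b => b) (fun b => φ b a') fun b _ => h.fam b a',
    fun m a a' => ?_, fun m a a' => ?_⟩
  · simp only [lf2_coeff]
    exact lf2_core hT'.comm (x := fun b => (φ b a').coeff m) (fun b => h.slot m b a') a
  · simp only [lf2_coeff]
    exact lf2_swap (U := fun b => Q.sE E' b a') (T := fun c => T a c) (x := fun c b => (φ c b).coeff m)
      (y := fun c => (φ c a').coeff m) fun c => h.slot' m c a'

/-- [MTF-LF2] PROOF. `Fam1'_act` for `φ a` with fixed `a`. -/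
theorem Fam2_actR {g : ℕ} {ε : L → Bool} {E E' E₁ : Rep G}
    {φ : E.ι → E'.ι → RR G K X L} (h : Q.Fam2 g ε E E' φ) {T : Matrix E'.ι E₁.ι K}
    (hT' : Q.HomJ E₁ E' T) : Q.Fam2 g ε E E₁ (fun a b => ∑ a', T a' b • φ a a') := by
  refine ⟨fun a b => lf2_fam hT' Finset.univ (fun a' => a') (fun _ => b) (fun a' => φ a a') fun a' _ => h.fam a a',
    fun m a b => ?_, fun m a b => ?_⟩
  · simp only [lf2_coeff]
    exact lf2_swap (U := fun c => Q.sE E a c) (T := fun a' => T a' b) (x := fun a' c => (φ c a').coeff m)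
      (y := fun a' => (φ a a').coeff m) fun a' => h.slot m a a'
  · simp only [lf2_coeff]
    have hc : (Q.sE E₁).transpose * T.transpose = T.transpose * (Q.sE E').transpose := by
      rw [← Matrix.transpose_mul, ← Matrix.transpose_mul, hT'.comm]
    exact lf2_core (S' := (Q.sE E₁).transpose) (S := (Q.sE E').transpose) (T := T.transpose) hc
      (x := fun a' => (φ a a').coeff m) (fun a' => h.slot' m a a') b

/-- [MTF-LF2] -/
theorem homJ_mul {E E' E'' : Rep G} {T : Matrix E'.ι E.ι K} {T' : Matrix E''.ι E'.ι K}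
    (h : Q.HomJ E E' T) (h' : Q.HomJ E' E'' T') : Q.HomJ E E'' (T' * T) := by
  refine ⟨fun a b => ?_, fun w a b => ?_, ?_⟩
  · rw [Matrix.mul_apply]
    exact sum_mem fun c _ => mul_mem (h'.mem a c) (h.mem c b)
  · rw [Matrix.mul_apply, Finset.smul_sum]
    exact Finset.sum_congr rfl fun c _ => by rw [smul_mul', h'.inv, h.inv]
  · rw [← Matrix.mul_assoc, h'.comm, Matrix.mul_assoc, h.comm, ← Matrix.mul_assoc]

end

end Pool.Agent.MTF.LP
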