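import Pool.Agent.MTF.LF3
import Pool.Agent.MTF.LB3

set_option linter.unusedSectionVars false

/-!
# [MTF-LF4] leading coefficients
-/

namespace Pool.Agent.MTF.LP

open AffGrp

section
variable {G : AffGrp} {K W X : Type} [Field K] [Algebra ℂ K] [Group W] [Fintype W]
  [MulSemiringAction W K] [SMulCommClass W ℂ K] [AddCommGroup X] [DistribMulAction W X]
variable {L L' : Type} [Finite L] [DecidableEq L] [Finite L'] [DecidableEq L']
variable {Q : TQD G K W X}

/-- [MTF-LF4] the slice in a leg. PROOF. `KO_ext` at `h : G.X`: `derK_emb` at the point `Function.update k i h`: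
`sl K (Function.update k i h) i F = sl K k i F` (`Function.update_idem`), `Function.update_self`. -/
theorem sl_s (k : L → G.X) (i : L) (F : (G.pow L).KO K) :
    sl K k i (Q.s i F) = Q.s1 (sl K k i F) := by
  apply KO_ext
  intro h
  have h1 : sl K (Function.update k i h) i F = sl K k i F := by
    apply KO_ext
    intro h'
    rw [sl_apply, sl_apply, Function.update_idem]
  rw [sl_apply]
  unfold TQD.s TQD.s1
  rw [LinearMap.sum_apply, LinearMap.sum_apply, KO_sum, KO_sum]
  refine Finset.sum_congr rfl fun j _ => ?_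
  rw [LinearMap.smul_apply, LinearMap.smul_apply, KO_smul, KO_smul, derK_emb, h1,
    Function.update_self]

/-- the sign is an involution -/
theorem lf4_sgn_sgn (b : Bool) (m : X) : sgn b • sgn b • m = m := by
  cases b <;> simp [sgn]

/-- the sign as a bijection -/
def lf4_eq (X : Type) [AddCommGroup X] (b : Bool) : X ≃ X where
  toFun m := sgn b • m
  invFun m := sgn b • m
  left_inv m := lf4_sgn_sgn b m
  right_inv m := lf4_sgn_sgn b m

theorem lf4_N (hT : TQ Q) (b : Bool) (m : X) : Q.N (sgn b • m) = Q.N m := by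
  cases b with
  | true => simp [sgn]
  | false =>
    have : sgn false • m = -m := by simp [sgn]
    rw [this, hT.N_neg]

/-- [MTF-LF4] pole bound in the leg `i`. PROOF. Let `e = sgn b = ±1`. Fix `k`; apply `hT.pb (e • l)` to the finitely supported family
`m ↦ sl K k i (F (e • m))` (`Finsupp` : `Finsupp.mapRange` and, for `b = false`, `Finsupp.equivMapDomain (Equiv.neg X)` or
`Finsupp.comapDomain`): eigenvalues by `sl_s` (`sgn b • (e • m) = m`), the sum is `sl K k i (sum)`, regular; supports by `hT.N_neg`.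
Result: `Eu (e • l) • sl K k i (F l)` regular, at `h = k i` (`sl_self`): `Eu (e • l) * (F l).1 k ∈ A`; `hT.Eu_neg` for `b = false`. -/
theorem pb_leg (hT : TQ Q) (b : Bool) (i : L) (l : X) (F : X →₀ (G.pow L).KO K)
    (h : ∀ m, Q.s i (F m) = Q.val (sgn b • m) • F m) (h0 : Q.Reg (F.sum fun _ a => a))
    (hl : ∀ m, F m ≠ 0 → Q.N m ≤ Q.N l) : Q.Reg (Q.Eu l • F l) := by
  intro k
  obtain ⟨F', hF'⟩ : ∃ F' : X →₀ G.KO K, F' = Finsupp.equivMapDomain (lf4_eq X b)
      (F.mapRange (sl K k i) (map_zero _)) := ⟨_, rfl⟩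
  have hv : ∀ m, F' m = sl K k i (F (sgn b • m)) := by
    intro m
    rw [hF', Finsupp.equivMapDomain_apply, Finsupp.mapRange_apply]
    rfl
  have hsum : (F'.sum fun _ a => a) = sl K k i (F.sum fun _ a => a) := by
    rw [hF', Finsupp.sum_equivMapDomain, Finsupp.sum_mapRange_index (fun _ => rfl),
      map_finsuppSum]
  have h1 := hT.pb (sgn b • l) F'
    (fun m => by
      rw [hv, ← sl_s, h, map_smul, lf4_sgn_sgn])
    (fun x => by
      rw [hsum]
      exact h0 _)
    (fun m hm => by
      rw [lf4_N hT]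
      have h2 : F (sgn b • m) ≠ 0 := fun h3 => hm (by rw [hv, h3, map_zero])
      have h3 := hl _ h2
      rwa [lf4_N hT] at h3) (k i)
  rw [hv, lf4_sgn_sgn, KO_smul, sl_self] at h1
  rw [KO_smul]
  cases b with
  | true =>
    have h2 : sgn true • l = l := by simp [sgn]
    rwa [h2] at h1
  | false =>
    have h2 : sgn false • l = -l := by simp [sgn]
    rw [h2] at h1
    obtain ⟨u, hu, hu'⟩ := hT.Eu_neg l
    rw [hu'] at h1
    have h3 := Q.A.mul_mem (Q.A.algebraMap_mem u⁻¹) h1
    have h4 : algebraMap ℂ K u⁻¹ * (algebraMap ℂ K u * Q.Eu l * (F l).1 k) =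
        Q.Eu l * (F l).1 k := by
      have h5 : algebraMap ℂ K u⁻¹ * algebraMap ℂ K u = 1 := by
        rw [← map_mul, inv_mul_cancel₀ hu, map_one]
      linear_combination (Q.Eu l * (F l).1 k) * h5
    rwa [h4] at h3

end

end Pool.Agent.MTF.LP
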