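import Pool.Agent.MTF.LF4

set_option linter.unusedSectionVars false

/-!
# [MTF-LF4b] leading coefficients
-/

namespace Pool.Agent.MTF.LP

open AffGrp

section
variable {G : AffGrp} {K W X : Type} [Field K] [Algebra ℂ K] [Group W] [Fintype W]
  [MulSemiringAction W K] [SMulCommClass W ℂ K] [AddCommGroup X] [DistribMulAction W X]
variable {L L' : Type} [Finite L] [DecidableEq L] [Finite L'] [DecidableEq L']
variable {Q : TQD G K W X}

/-- [MTF-LF4b] PROOF. `g = 0`: `p := Eu l • F.coeff l`, regular by `pb_leg` for a leg `i` (`hL`). `g = n + 1`: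
`p := (Eu l ^ n)⁻¹ • F.coeff l`, regular by `hF.regS`. Weights: `hF.wt`. Invariance: `wO w (F.coeff l) = F.coeff (w • l) = F.coeff l`
(`hF.inv`), `w • Eu l = Eu (w • l) = Eu l` (`hT.Eu_w`), `wO_smul`, `smul_inv''`, `smul_pow'`. -/
theorem lead0 (hT : TQ Q) {g : ℕ} {ε : L → Bool} (hL : g = 0 → Nonempty L) {F : RR G K X L}
    (hF : Q.Fam g ε F) {l : X} (hl : ∀ m, F.coeff m ≠ 0 → Q.N m ≤ Q.N l) :
    ∃ p : (G.pow L).KO K, Q.JA ε l p ∧ InvO W l p ∧ Q.Eu l • F.coeff l = Q.Eu l ^ g • p := by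
  have hinv : ∀ w : W, w • l = l → w • Q.Eu l = Q.Eu l := fun w hw => by
    rw [← hT.Eu_w, hw]
  have hinvF : ∀ w : W, w • l = l → wO _ w (F.coeff l) = F.coeff l := fun w hw => by
    rw [hF.inv, hw]
  rcases Nat.eq_zero_or_pos g with hg | hg
  · obtain ⟨i⟩ := hL hg
    refine ⟨Q.Eu l • F.coeff l, ⟨fun j => ?_, ?_⟩, ?_, ?_⟩
    · rw [map_smul, hF.wt l j, smul_comm]
    · exact pb_leg hT (ε i) i l F.coeff (fun m => hF.wt m i) (hF.reg0 hg) hl
    · intro w hw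
      rw [wO_smul, hinv w hw, hinvF w hw]
    · rw [hg, pow_zero, one_smul]
  · obtain ⟨n, rfl⟩ : ∃ n, g = n + 1 := ⟨g - 1, by omega⟩
    refine ⟨(Q.Eu l ^ n)⁻¹ • F.coeff l, ⟨fun j => ?_, ?_⟩, ?_, ?_⟩
    · rw [map_smul, hF.wt l j, smul_comm]
    · intro k
      have h := hF.regS l k hg
      rw [Nat.add_sub_cancel] at h
      rw [KO_smul]
      exact h
    · intro w hw
      rw [wO_smul, hinvF w hw, smul_inv'', smul_pow', hinv w hw]
    · rw [smul_smul]
      congr 1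
      rw [pow_succ, mul_comm (Q.Eu l ^ n) (Q.Eu l), mul_assoc,
        mul_inv_cancel₀ (pow_ne_zero n (hT.Eu_ne l)), mul_one]

end

end Pool.Agent.MTF.LP
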