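import Pool.Agent.MTF.LF4b
import Pool.Agent.MTF.LB5

set_option linter.unusedSectionVars false

/-!
# [MTF-LF5] leading coefficients, slots
-/

namespace Pool.Agent.MTF.LP

open AffGrp

section
variable {G : AffGrp} {K W X : Type} [Field K] [Algebra ℂ K] [Group W] [Fintype W]
  [MulSemiringAction W K] [SMulCommClass W ℂ K] [AddCommGroup X] [DistribMulAction W X]
variable {L L' : Type} [Finite L] [DecidableEq L] [Finite L'] [DecidableEq L']
variable {Q : TQD G K W X}

/-- [MTF-LF5] pole bound in a slot. PROOF. Fix `k : P`, `a : E.ι`. Apply `hT.pb l` to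
`m ↦ ∑ b, x b m k • inc K (E.co a b) ∈ G.KO K` (finitely supported: `Finsupp.onFinset` on the union of the supports):
`Q.s1` of it is `∑_b x b m k • ∑_c sE c b • inc (co a c) = ∑_c (∑_b sE c b * x b m k) • inc (co a c) = val m • (..)` (`s1_co`, `h`);
the sum over `m` is `∑_b (∑_m x b m k) • inc (E.co a b)`, with values in `A`; evaluate the conclusion at `1`: `E.co a b 1 = δ_{ab}`. -/
theorem pb_slot (hT : TQ Q) (E : Rep G) (l : X) (x : E.ι → X →₀ K)
    (h : ∀ m a, ∑ b, Q.sE E a b * x b m = Q.val m * x a m)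
    (h0 : ∀ a, ((x a).sum fun _ u => u) ∈ Q.A) (hl : ∀ a m, x a m ≠ 0 → Q.N m ≤ Q.N l) (a : E.ι) :
    Q.Eu l * x a l ∈ Q.A := by
  obtain ⟨F, hF⟩ : ∃ F : X →₀ G.KO K, F = ∑ b, (x b).mapRange
      (fun u => u • inc K (E.co a b)) (zero_smul _ _) := ⟨_, rfl⟩
  have hv : ∀ m, F m = ∑ b, x b m • inc K (E.co a b) := by
    intro m
    rw [hF, Finsupp.finsetSum_apply]
    rfl
  have hsum : (F.sum fun _ u => u) = ∑ b, ((x b).sum fun _ u => u) • inc K (E.co a b) := by
    rw [hF, ← Finsupp.sum_finsetSum_index (fun _ => rfl) (fun _ _ _ => rfl)]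
    refine Finset.sum_congr rfl fun b _ => ?_
    rw [Finsupp.sum_mapRange_index (fun _ => rfl)]
    simp only [Finsupp.sum, Finset.sum_smul]
  have h1 := hT.pb l F
    (fun m => by
      rw [hv, map_sum, Finset.smul_sum]
      have h2 : ∀ b, Q.s1 (x b m • inc K (E.co a b)) =
          ∑ c, (Q.sE E c b * x b m) • inc K (E.co a c) := by
        intro b
        rw [map_smul, s1_co, Finset.smul_sum]
        exact Finset.sum_congr rfl fun c _ => by rw [smul_smul, mul_comm]
      rw [Finset.sum_congr rfl fun b _ => h2 b, Finset.sum_comm]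
      refine Finset.sum_congr rfl fun c _ => ?_
      rw [← Finset.sum_smul, h, smul_smul])
    (fun y => by
      rw [hsum, KO_sum]
      exact Q.A.sum_mem fun b _ => Q.A.mul_mem (h0 b) (Q.A.algebraMap_mem _))
    (fun m hm => by
      by_contra hlt
      apply hm
      rw [hv]
      refine Finset.sum_eq_zero fun b _ => ?_
      have h2 : x b m = 0 := by
        by_contra h3
        exact hlt (hl b m h3)
      rw [h2, zero_smul]) 1
  rw [KO_smul, hv, KO_sum] at h1
  have h2 : ∑ b, (x b l • inc K (E.co a b)).1 1 = x a l := by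
    rw [Finset.sum_eq_single a]
    · show x a l * algebraMap ℂ K (E.ρ 1 a a) = _
      rw [map_one, Matrix.one_apply_eq, map_one, mul_one]
    · intro b _ hb
      show x b l * algebraMap ℂ K (E.ρ 1 a b) = _
      rw [map_one, Matrix.one_apply_ne (Ne.symm hb), map_zero, mul_zero]
    · intro h3
      exact absurd (Finset.mem_univ _) h3
  rwa [h2] at h1

/-- [MTF-LF5] the same for row vectors. PROOF. `pb_slot` for `dual E`, the weight `-l` and `m ↦ x a (-m)`
(`sE_dual`, `hT.N_neg`, `hT.Eu_neg`). -/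
theorem pb_slot' (hT : TQ Q) (E : Rep G) (l : X) (x : E.ι → X →₀ K)
    (h : ∀ m a, ∑ b, Q.sE E b a * x b m = Q.val m * x a m)
    (h0 : ∀ a, ((x a).sum fun _ u => u) ∈ Q.A) (hl : ∀ a m, x a m ≠ 0 → Q.N m ≤ Q.N l) (a : E.ι) :
    Q.Eu l * x a l ∈ Q.A := by
  have h1 := pb_slot hT (dual E) (-l)
    (fun a : E.ι => Finsupp.equivMapDomain (Equiv.neg X) (x a))
    (fun m a => by
      have h2 := h (-m) a
      have h3 : ∀ b : E.ι, Q.sE (dual E) a b *
          (Finsupp.equivMapDomain (Equiv.neg X) (x b)) m = -(Q.sE E b a * x b (-m)) := by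
        intro b
        rw [sE_dual, Finsupp.equivMapDomain_apply]
        show -Q.sE E b a * x b (-m) = _
        ring
      have h4 : (Finsupp.equivMapDomain (Equiv.neg X) (x a)) m = x a (-m) := by
        rw [Finsupp.equivMapDomain_apply]
        rfl
      rw [h4]
      refine (Finset.sum_congr rfl fun b _ => h3 b).trans ?_
      rw [Finset.sum_neg_distrib]
      refine (congrArg Neg.neg h2).trans ?_
      rw [map_neg]; ring)
    (fun a => by
      rw [Finsupp.sum_equivMapDomain]
      exact h0 a)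
    (fun a m hm => by
      rw [Finsupp.equivMapDomain_apply] at hm
      have h2 := hl a (-m) hm
      rw [hT.N_neg] at h2
      rwa [hT.N_neg])
    a
  rw [Finsupp.equivMapDomain_apply] at h1
  have h2 : (Equiv.neg X).symm (-l) = l := neg_neg l
  rw [h2] at h1
  obtain ⟨u, hu, hu'⟩ := hT.Eu_neg l
  rw [hu'] at h1
  have h3 := Q.A.mul_mem (Q.A.algebraMap_mem u⁻¹) h1
  have h4 : algebraMap ℂ K u⁻¹ * (algebraMap ℂ K u * Q.Eu l * x a l) = Q.Eu l * x a l := by
    have h5 : algebraMap ℂ K u⁻¹ * algebraMap ℂ K u = 1 := by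
      rw [← map_mul, inv_mul_cancel₀ hu, map_one]
    linear_combination (Q.Eu l * x a l) * h5
  rwa [h4] at h3

end

end Pool.Agent.MTF.LP
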