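import Pool.Agent.MTF.LF5

set_option linter.unusedSectionVars false

/-!
# [MTF-LF6] leading coefficients, slots
-/

namespace Pool.Agent.MTF.LP

open AffGrp

section
variable {G : AffGrp} {K W X : Type} [Field K] [Algebra ℂ K] [Group W] [Fintype W]
  [MulSemiringAction W K] [SMulCommClass W ℂ K] [AddCommGroup X] [DistribMulAction W X]
variable {L L' : Type} [Finite L] [DecidableEq L] [Finite L'] [DecidableEq L']
variable {Q : TQD G K W X}

theorem lf6_sum_apply {H : AffGrp} (F : X →₀ H.KO K) (k : H.X) :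
    (F.mapRange (fun f : H.KO K => f.1 k) rfl).sum (fun _ u => u) = (F.sum fun _ a => a).1 k := by
  rw [Finsupp.sum_mapRange_index (fun _ => rfl)]
  unfold Finsupp.sum
  rw [KO_sum]

theorem lf6_c (hT : TQ Q) (g : ℕ) (l : X) : ∃ c : K, InvK W l c ∧ Q.Eu l = Q.Eu l ^ g * c ∧
    ∀ (ε : L → Bool) (F : RR G K X L), Q.Fam g ε F → (g = 0 → Q.Reg (Q.Eu l • F.coeff l)) →
      Q.JA ε l (c • F.coeff l) ∧ InvO W l (c • F.coeff l) := by
  have hEu : ∀ w : W, w • l = l → w • Q.Eu l = Q.Eu l := fun w hw => by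
    rw [← hT.Eu_w, hw]
  have key : ∀ c : K, InvK W l c → ∀ (ε : L → Bool) (F : RR G K X L), Q.Fam g ε F →
      Q.Reg (c • F.coeff l) → Q.JA ε l (c • F.coeff l) ∧ InvO W l (c • F.coeff l) := by
    intro c hc ε F hF hr
    refine ⟨⟨fun i => ?_, hr⟩, fun w hw => ?_⟩
    · rw [map_smul, hF.wt l i, smul_comm]
    · rw [wO_smul, hc w hw, hF.inv w l, hw]
  rcases Nat.eq_zero_or_pos g with hg | hg
  · refine ⟨Q.Eu l, hEu, ?_, fun ε F hF hr => key _ hEu ε F hF (hr hg)⟩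
    rw [hg, pow_zero, one_mul]
  · have hi : InvK W l (Q.Eu l ^ (g - 1))⁻¹ := fun w hw => by
      rw [smul_inv'', smul_pow', hEu w hw]
    refine ⟨(Q.Eu l ^ (g - 1))⁻¹, hi, ?_, fun ε F hF _ => key _ hi ε F hF ?_⟩
    · obtain ⟨n, rfl⟩ : ∃ n, g = n + 1 := ⟨g - 1, by omega⟩
      have hne : Q.Eu l ^ n ≠ 0 := pow_ne_zero _ (hT.Eu_ne l)
      rw [Nat.add_sub_cancel, pow_succ]
      field_simp
    · intro k
      rw [KO_smul]
      exact hF.regS l k hg

theorem lf6_reg (hT : TQ Q) {ε : L → Bool} {E : Rep G} {φ : E.ι → RR G K X L}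
    (hF : Q.Fam1 0 ε E φ) {l : X} (hl : ∀ a m, (φ a).coeff m ≠ 0 → Q.N m ≤ Q.N l) (a : E.ι) :
    Q.Reg (Q.Eu l • (φ a).coeff l) := by
  intro k
  rw [KO_smul]
  refine pb_slot hT E l (fun a => (φ a).coeff.mapRange (fun f : (G.pow L).KO K => f.1 k) rfl)
    (fun m a => ?_) (fun a => ?_) (fun a m hm => ?_) a
  · have h := congrArg (fun F : (G.pow L).KO K => F.1 k) (hF.slot m a)
    simp only [KO_sum, KO_smul] at h
    simpa only [Finsupp.mapRange_apply] using h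
  · show ((φ a).coeff.mapRange (fun f : (G.pow L).KO K => f.1 k) rfl).sum (fun _ u => u) ∈ Q.A
    rw [lf6_sum_apply]
    exact (hF.fam a).reg0 rfl k
  · refine hl a m fun h => hm ?_
    rw [Finsupp.mapRange_apply, h]
    rfl

theorem lf6_reg' (hT : TQ Q) {ε : L → Bool} {E : Rep G} {φ : E.ι → RR G K X L}
    (hF : Q.Fam1' 0 ε E φ) {l : X} (hl : ∀ a m, (φ a).coeff m ≠ 0 → Q.N m ≤ Q.N l) (a : E.ι) :
    Q.Reg (Q.Eu l • (φ a).coeff l) := by
  intro k
  rw [KO_smul]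
  refine pb_slot' hT E l (fun a => (φ a).coeff.mapRange (fun f : (G.pow L).KO K => f.1 k) rfl)
    (fun m a => ?_) (fun a => ?_) (fun a m hm => ?_) a
  · have h := congrArg (fun F : (G.pow L).KO K => F.1 k) (hF.slot m a)
    simp only [KO_sum, KO_smul] at h
    simpa only [Finsupp.mapRange_apply] using h
  · show ((φ a).coeff.mapRange (fun f : (G.pow L).KO K => f.1 k) rfl).sum (fun _ u => u) ∈ Q.A
    rw [lf6_sum_apply]
    exact (hF.fam a).reg0 rfl k
  · refine hl a m fun h => hm ?_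
    rw [Finsupp.mapRange_apply, h]
    rfl

theorem lf6_slot {κ : Type} [Fintype κ] {H : AffGrp} (c v : K) (S : κ → K) (x : κ → H.KO K)
    (y : H.KO K) (h : ∑ b, S b • x b = v • y) : ∑ b, S b • (c • x b) = v • (c • y) := by
  rw [smul_comm v c y, ← h, Finset.smul_sum]
  exact Finset.sum_congr rfl fun b _ => smul_comm _ _ _

theorem lf6_fin {H : AffGrp} {g : ℕ} {e c : K} (h : e = e ^ g * c) (x : H.KO K) :
    e • x = e ^ g • (c • x) := by
  rw [smul_smul, ← h]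

/-- [MTF-LF6] PROOF. `g = 0`: `p a := Eu l • (φ a).coeff l`, regular by `pb_slot` applied to the values at `k` of the coefficients
(`x a := (φ a).coeff.mapRange (·.1 k)`, `h0` from `(hF.fam a).reg0`). `g = n + 1`: `p a := (Eu l ^ n)⁻¹ • (φ a).coeff l`. Weights,
invariance as in `lead0`, slot from `hF.slot`. -/
theorem lead1 (hT : TQ Q) {g : ℕ} {ε : L → Bool} {E : Rep G} {φ : E.ι → RR G K X L}
    (hF : Q.Fam1 g ε E φ) {l : X} (hl : ∀ a m, (φ a).coeff m ≠ 0 → Q.N m ≤ Q.N l) :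
    ∃ p : E.ι → (G.pow L).KO K, (∀ a, Q.JA ε l (p a)) ∧ (∀ a, InvO W l (p a)) ∧
      (∀ a, ∑ b, Q.sE E a b • p b = Q.val l • p a) ∧
      ∀ a, Q.Eu l • (φ a).coeff l = Q.Eu l ^ g • p a := by
  obtain ⟨c, hc, hE, hJ⟩ := lf6_c (L := L) hT g l
  have hr : ∀ a, Q.JA ε l (c • (φ a).coeff l) ∧ InvO W l (c • (φ a).coeff l) := fun a => by
    refine hJ ε (φ a) (hF.fam a) fun hg => ?_
    subst hg
    exact lf6_reg hT hF hl a
  exact ⟨fun a => c • (φ a).coeff l, fun a => (hr a).1, fun a => (hr a).2,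
    fun a => lf6_slot c _ _ _ _ (hF.slot l a), fun a => lf6_fin hE _⟩

/-- [MTF-LF6] as `lead1`, with `pb_slot'` -/
theorem lead1' (hT : TQ Q) {g : ℕ} {ε : L → Bool} {E : Rep G} {φ : E.ι → RR G K X L}
    (hF : Q.Fam1' g ε E φ) {l : X} (hl : ∀ a m, (φ a).coeff m ≠ 0 → Q.N m ≤ Q.N l) :
    ∃ p : E.ι → (G.pow L).KO K, (∀ a, Q.JA ε l (p a)) ∧ (∀ a, InvO W l (p a)) ∧
      (∀ a, ∑ b, Q.sE E b a • p b = Q.val l • p a) ∧
      ∀ a, Q.Eu l • (φ a).coeff l = Q.Eu l ^ g • p a := by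
  obtain ⟨c, hc, hE, hJ⟩ := lf6_c (L := L) hT g l
  have hr : ∀ a, Q.JA ε l (c • (φ a).coeff l) ∧ InvO W l (c • (φ a).coeff l) := fun a => by
    refine hJ ε (φ a) (hF.fam a) fun hg => ?_
    subst hg
    exact lf6_reg' hT hF hl a
  exact ⟨fun a => c • (φ a).coeff l, fun a => (hr a).1, fun a => (hr a).2,
    fun a => lf6_slot c _ _ _ _ (hF.slot l a), fun a => lf6_fin hE _⟩

/-- [MTF-LF6] PROOF. `lead1` for `fun a => φ a a'` with fixed `a'` gives `p a a'`; it is determined by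
`Eu l • (φ a a').coeff l = Eu l ^ g • p a a'` (`Eu l ≠ 0`), so the condition of the second slot follows from `hF.slot'`:
multiply by `Eu l ^ g` and cancel (`smul_right_injective`). -/
theorem lead2 (hT : TQ Q) {g : ℕ} {ε : L → Bool} {E E' : Rep G} {φ : E.ι → E'.ι → RR G K X L}
    (hF : Q.Fam2 g ε E E' φ) {l : X} (hl : ∀ a a' m, (φ a a').coeff m ≠ 0 → Q.N m ≤ Q.N l) :
    ∃ p : E.ι → E'.ι → (G.pow L).KO K, (∀ a a', Q.JA ε l (p a a')) ∧ (∀ a a', InvO W l (p a a')) ∧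
      (∀ a a', ∑ b, Q.sE E a b • p b a' = Q.val l • p a a') ∧
      (∀ a a', ∑ b, Q.sE E' b a' • p a b = Q.val l • p a a') ∧
      ∀ a a', Q.Eu l • (φ a a').coeff l = Q.Eu l ^ g • p a a' := by
  obtain ⟨c, hc, hE, hJ⟩ := lf6_c (L := L) hT g l
  have hr : ∀ a a', Q.JA ε l (c • (φ a a').coeff l) ∧ InvO W l (c • (φ a a').coeff l) :=
    fun a a' => by
    refine hJ ε (φ a a') (hF.fam a a') fun hg => ?_
    subst hg
    exact lf6_reg hT (φ := fun a => φ a a') ⟨fun a => hF.fam a a', fun m a => hF.slot m a a'⟩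
      (fun a m => hl a a' m) a
  exact ⟨fun a a' => c • (φ a a').coeff l, fun a a' => (hr a a').1, fun a a' => (hr a a').2,
    fun a a' => lf6_slot c _ _ _ _ (hF.slot l a a'),
    fun a a' => lf6_slot c _ _ _ _ (hF.slot' l a a'), fun a a' => lf6_fin hE _⟩

end

end Pool.Agent.MTF.LP
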