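import Pool.Agent.MTF.LE7

set_option linter.unusedSectionVars false

/-!
# [MTF-LG1] Hom_J from sections, families of constants
-/

namespace Pool.Agent.MTF.LP

open AffGrp

section
variable {G : AffGrp} {K W X : Type} [Field K] [Algebra ℂ K] [Group W] [Fintype W]
  [MulSemiringAction W K] [SMulCommClass W ℂ K] [AddCommGroup X] [DistribMulAction W X]
variable {L L' : Type} [Finite L] [DecidableEq L] [Finite L'] [DecidableEq L']
variable {Q : TQD G K W X}

/-- [MTF-LG1] PROOF. `wO w (tot F) = ∑_m wO w (F.coeff m) = ∑_m F.coeff (w • m)` and `m ↦ w • m` is a bijection of `X` (`MulAction.toPerm w`):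
use `Finsupp.sum` over `F.coeff.support`, `Finset.sum_nbij'` / `Finset.sum_bij` (`m ∈ support ↔ w • m ∈ support` by `hF.inv` and
injectivity of `wO w`), or write `tot F` as `finsum`: `Finsupp.sum` = `∑ᶠ`, `finsum_comp_equiv`. -/
theorem tot_wO {g : ℕ} {ε : L → Bool} {F : RR G K X L} (hF : Q.Fam g ε F) (w : W) :
    wO _ w (tot F) = tot F := by
  have hmem : ∀ (u : W) (m : X), F.coeff m ≠ 0 → F.coeff (u • m) ≠ 0 := by
    intro u m hm h0
    apply hm
    have h1 := hF.inv u⁻¹ (u • m)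
    rw [inv_smul_smul, h0, map_zero] at h1
    exact h1.symm
  have h1 : tot F = ∑ m ∈ F.coeff.support, F.coeff m := rfl
  rw [h1, map_sum]
  refine Finset.sum_nbij' (fun m => w • m) (fun m => w⁻¹ • m) ?_ ?_ ?_ ?_ ?_
  · intro m hm
    rw [Finsupp.mem_support_iff] at hm ⊢
    exact hmem w m hm
  · intro m hm
    rw [Finsupp.mem_support_iff] at hm ⊢
    exact hmem w⁻¹ m hm
  · intro m _
    exact inv_smul_smul w m
  · intro m _
    exact smul_inv_smul w m
  · intro m _
    exact hF.inv w m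

theorem lg1_tot (F : RR G K X L) (S : Finset X) (hS : F.coeff.support ⊆ S) (k) :
    (tot F).1 k = ∑ m ∈ S, (F.coeff m).1 k := by
  have h1 : tot F = ∑ m ∈ S, F.coeff m :=
    Finsupp.sum_of_support_subset _ hS _ fun _ _ => rfl
  rw [h1, KO_sum]

/-- a common finite set containing all supports -/
theorem lg1_supp {E E' : Rep G} (φ : E.ι → E'.ι → RR G K X PEmpty) (l : X) :
    ∃ S : Finset X, l ∈ S ∧ ∀ a a', (φ a a').coeff.support ⊆ S := by
  classical
  refine ⟨insert l ((Finset.univ : Finset (E.ι × E'.ι)).biUnion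
    fun p => (φ p.1 p.2).coeff.support), Finset.mem_insert_self _ _, fun a a' m hm => ?_⟩
  refine Finset.mem_insert_of_mem ?_
  rw [Finset.mem_biUnion]
  exact ⟨(a, a'), Finset.mem_univ _, hm⟩

theorem lg1_slot {E E' : Rep G} {ε : PEmpty → Bool} {φ : E.ι → E'.ι → RR G K X PEmpty}
    (h : Q.Fam2 (W := W) 0 ε E E' φ) (m : X) (a : E.ι) (a' : E'.ι) (k) :
    ∑ b, Q.sE E a b * ((φ b a').coeff m).1 k = Q.val m * ((φ a a').coeff m).1 k := by
  have h1 := congrArg (fun F : (G.pow PEmpty).KO K => F.1 k) (h.slot m a a')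
  rw [KO_sum] at h1
  exact h1

theorem lg1_slot' {E E' : Rep G} {ε : PEmpty → Bool} {φ : E.ι → E'.ι → RR G K X PEmpty}
    (h : Q.Fam2 (W := W) 0 ε E E' φ) (m : X) (a : E.ι) (a' : E'.ι) (k) :
    ∑ b, Q.sE E' b a' * ((φ a b).coeff m).1 k = Q.val m * ((φ a a').coeff m).1 k := by
  have h1 := congrArg (fun F : (G.pow PEmpty).KO K => F.1 k) (h.slot' m a a')
  rw [KO_sum] at h1
  exact h1

/-- the matrix of the values of the total sums at the only point of `G^∅` -/
noncomputable def cm {ι ι' : Type} (φ : ι → ι' → RR G K X PEmpty) : Matrix ι ι' K :=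
  fun a a' => (tot (φ a a')).1 (fun i => i.elim)

/-- [MTF-LG1] PROOF. `mem`: `(h.fam a a').reg0 rfl _`. `inv`: `tot_wO` at the point. `comm`: with `x a a' m := ((φ a a').coeff m).1 pt` both
sides at `(a, a')` are `∑_m val m * x a a' m` (`h.slot`, `h.slot'` at the point; `(tot F).1 k = F.coeff.sum fun _ f => f.1 k`; to interchange
sums take a common finite set `S` containing all supports: `Finset.univ.biUnion ..`, `Finsupp.sum_of_support_subset`). -/
theorem cm_homJ {E E' : Rep G} {ε : PEmpty → Bool} {φ : E.ι → E'.ι → RR G K X PEmpty}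
    (h : Q.Fam2 0 ε E E' φ) : Q.HomJ E' E (cm φ) := by
  refine ⟨fun a a' => (h.fam a a').reg0 rfl _, fun w a a' => ?_, ?_⟩
  · have h1 := congrArg (fun F : (G.pow PEmpty).KO K => F.1 (fun i => i.elim))
      (tot_wO (h.fam a a') w)
    exact h1
  · ext a a'
    obtain ⟨S, -, hS⟩ := lg1_supp φ 0
    have h1 : (Q.sE E * cm φ) a a' =
        ∑ m ∈ S, Q.val m * ((φ a a').coeff m).1 (fun i => i.elim) := by
      rw [Matrix.mul_apply]
      have h2 : ∀ b, Q.sE E a b * cm φ b a' =
          ∑ m ∈ S, Q.sE E a b * ((φ b a').coeff m).1 (fun i => i.elim) := by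
        intro b
        rw [cm, lg1_tot _ S (hS b a'), Finset.mul_sum]
      rw [Finset.sum_congr rfl fun b _ => h2 b, Finset.sum_comm]
      exact Finset.sum_congr rfl fun m _ => lg1_slot h m a a' _
    have h3 : (cm φ * Q.sE E') a a' =
        ∑ m ∈ S, Q.val m * ((φ a a').coeff m).1 (fun i => i.elim) := by
      rw [Matrix.mul_apply]
      have h2 : ∀ b, cm φ a b * Q.sE E' b a' =
          ∑ m ∈ S, Q.sE E' b a' * ((φ a b).coeff m).1 (fun i => i.elim) := by
        intro b
        rw [mul_comm, cm, lg1_tot _ S (hS a b), Finset.mul_sum]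
      rw [Finset.sum_congr rfl fun b _ => h2 b, Finset.sum_comm]
      exact Finset.sum_congr rfl fun m _ => lg1_slot' h m a a' _
    rw [h1, h3]

/-- [MTF-LG1] PROOF. `(cm φ).mulVec v a = ∑_m ∑_a' ((φ a a').coeff m).1 pt * v a'`; for `m ≠ l` the inner sum is zero by `orthoK` (the row
`r' a' := ((φ a a').coeff m).1 pt` satisfies `vecMul r' = val m • r'` by `h.slot'`, and `r := v`); `m = l` remains. -/
theorem cm_mulVec (hT : TQ Q) {E E' : Rep G} {ε : PEmpty → Bool}
    {φ : E.ι → E'.ι → RR G K X PEmpty} (h : Q.Fam2 0 ε E E' φ) {l : X} {v : E'.ι → K}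
    (hv : (Q.sE E').mulVec v = Q.val l • v) (a : E.ι) :
    (cm φ).mulVec v a = ∑ a', ((φ a a').coeff l).1 (fun i => i.elim) * v a' := by
  obtain ⟨S, hl, hS⟩ := lg1_supp φ l
  have h1 : (cm φ).mulVec v a = ∑ m ∈ S, ∑ a', ((φ a a').coeff m).1 (fun i => i.elim) * v a' := by
    rw [Matrix.mulVec, dotProduct, Finset.sum_comm]
    refine Finset.sum_congr rfl fun a' _ => ?_
    rw [cm, lg1_tot _ S (hS a a'), Finset.sum_mul]
  rw [h1]
  refine Finset.sum_eq_single l (fun m _ hm => ?_) fun h2 => absurd hl h2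
  have h2 := orthoK hT E' (Ne.symm hm) hv (r' := fun a' => ((φ a a').coeff m).1 (fun i => i.elim)) (by
    funext a'
    rw [Pi.smul_apply, smul_eq_mul, ← lg1_slot' h m a a' _, Matrix.vecMul, dotProduct]
    exact Finset.sum_congr rfl fun b _ => mul_comm _ _)
  rw [← h2]
  exact Finset.sum_congr rfl fun b _ => mul_comm _ _

/-- [MTF-LG1] PROOF. as `cm_mulVec`, with the columns (`h.slot`). -/
theorem cm_vecMul (hT : TQ Q) {E E' : Rep G} {ε : PEmpty → Bool}
    {φ : E.ι → E'.ι → RR G K X PEmpty} (h : Q.Fam2 0 ε E E' φ) {l : X} {v' : E.ι → K}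
    (hv : (Q.sE E).vecMul v' = Q.val l • v') (a' : E'.ι) :
    (cm φ).vecMul v' a' = ∑ a, v' a * ((φ a a').coeff l).1 (fun i => i.elim) := by
  obtain ⟨S, hl, hS⟩ := lg1_supp φ l
  have h1 : (cm φ).vecMul v' a' = ∑ m ∈ S, ∑ a, v' a * ((φ a a').coeff m).1 (fun i => i.elim) := by
    rw [Matrix.vecMul, dotProduct, Finset.sum_comm]
    refine Finset.sum_congr rfl fun a _ => ?_
    rw [cm, lg1_tot _ S (hS a a'), Finset.mul_sum]
  rw [h1]
  refine Finset.sum_eq_single l (fun m _ hm => ?_) fun h2 => absurd hl h2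
  have h2 := orthoK hT E hm (r := fun a => ((φ a a').coeff m).1 (fun i => i.elim)) (by
    funext a
    rw [Pi.smul_apply, smul_eq_mul, ← lg1_slot h m a a' _, Matrix.mulVec, dotProduct]) hv
  rw [← h2]
  exact Finset.sum_congr rfl fun b _ => mul_comm _ _

end

end Pool.Agent.MTF.LP
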