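import Pool.Agent.MTF.LG1

set_option linter.unusedSectionVars false

/-!
# [MTF-LG1b] Hom_J from sections
-/

namespace Pool.Agent.MTF.LP

open AffGrp

section
variable {G : AffGrp} {K W X : Type} [Field K] [Algebra ℂ K] [Group W] [Fintype W]
  [MulSemiringAction W K] [SMulCommClass W ℂ K] [AddCommGroup X] [DistribMulAction W X]
variable {L L' : Type} [Finite L] [DecidableEq L] [Finite L'] [DecidableEq L']
variable {Q : TQD G K W X}

theorem lg1b_JA {l : X} {x : K} (hx : x ∈ Q.A) (ε : PEmpty → Bool) :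
    Q.JA ε l (x • (1 : (G.pow PEmpty).KO K)) :=
  ⟨fun i => i.elim, fun k => by
    show x * 1 ∈ Q.A
    rw [mul_one]
    exact hx⟩

theorem lg1b_InvO {l : X} {x : K} (hx : InvK W l x) :
    InvO W l (x • (1 : (G.pow PEmpty).KO K)) := fun w hw => KO_ext fun k => by
  show w • (x * 1) = x * 1
  rw [mul_one]
  exact hx w hw

theorem lg1b_sum {κ : Type} [Fintype κ] (c x : κ → K) (y : K) (h : ∑ b, c b * x b = y) :
    ∑ b, c b • (x b • (1 : (G.pow PEmpty).KO K)) = y • 1 := by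
  rw [← h, Finset.sum_smul]
  exact Finset.sum_congr rfl fun b _ => smul_smul _ _ _

theorem lg1b_val {e x : K} {F : (G.pow PEmpty).KO K}
    (h : e • F = e ^ 0 • (x • (1 : (G.pow PEmpty).KO K))) (k : PEmpty → G.X) : e * F.1 k = x := by
  have h1 := congrArg (fun z : (G.pow PEmpty).KO K => z.1 k) h
  have h2 : e * F.1 k = e ^ 0 * (x * 1) := h1
  rw [h2, pow_zero, one_mul, mul_one]

/-- [MTF-LG1b] (L5.1) PROOF. `lift2 hT 0` with `L := PEmpty`, `ε := fun _ => true`, `E := E`, `E' := V`,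
`p a a' := (r a * v' a') • (1 : (G.pow PEmpty).KO K)`: `JA.wt` is vacuous, `JA.reg`, `InvO` from `hr`, `hV.v'_mem`, `hV.v'_inv`; slots from
`he`, `hV.v'_eig`. `T := cm φ` (`cm_homJ`), `cm_mulVec hT h hV.v_eig`: `((φ a a').coeff l).1 pt = (Q.Eu l)⁻¹ * (r a * v' a')` (`pow_zero`),
so `T v = Eu⁻¹ * r a * ∑ v' a' * v a' = r a` (`hV.pair`, `hT.Eu_ne`). -/
theorem homJ1 (hT : TQ Q) {l : X} {V : Rep G} {v v' : V.ι → K} (hV : Q.HW (W := W) l V v v')
    {E : Rep G} {r : E.ι → K} (hr : ∀ a, r a ∈ Q.A ∧ InvK W l (r a))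
    (he : (Q.sE E).mulVec r = Q.val l • r) :
    ∃ T : Matrix E.ι V.ι K, Q.HomJ V E T ∧ T.mulVec v = r := by
  have hx : ∀ a a', r a * v' a' ∈ Q.A := fun a a' => Q.A.mul_mem (hr a).1 (hV.v'_mem a')
  have hi : ∀ a a', InvK W l (r a * v' a') := fun a a' w hw => by
    rw [smul_mul', (hr a).2 w hw, hV.v'_inv w hw]
  obtain ⟨φ, h1, -, h3⟩ := lift2 (L := PEmpty) hT 0 (ε := fun _ => true) (l := l) (E := E) (E' := V)
    (p := fun a a' => (r a * v' a') • (1 : (G.pow PEmpty).KO K))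
    (fun a a' => lg1b_JA (hx a a') _) (fun a a' => lg1b_InvO (hi a a'))
    (fun a a' => by
      rw [smul_smul]
      refine lg1b_sum (fun b => Q.sE E a b) (fun b => r b * v' a') _ ?_
      have h4 := congrFun he a
      have h5 : ∑ b, Q.sE E a b * r b = Q.val l * r a := h4
      rw [← mul_assoc, ← h5, Finset.sum_mul]
      exact Finset.sum_congr rfl fun b _ => (mul_assoc _ _ _).symm)
    (fun a a' => by
      rw [smul_smul]
      refine lg1b_sum (fun b => Q.sE V b a') (fun b => r a * v' b) _ ?_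
      have h4 := congrFun hV.v'_eig a'
      have h5 : ∑ b, v' b * Q.sE V b a' = Q.val l * v' a' := h4
      rw [mul_left_comm, ← h5, Finset.mul_sum]
      exact Finset.sum_congr rfl fun b _ => by ring)
  refine ⟨cm φ, cm_homJ h1, funext fun a => ?_⟩
  rw [cm_mulVec hT h1 hV.v_eig a]
  refine mul_left_cancel₀ (hT.Eu_ne l) ?_
  have key : ∀ a', Q.Eu l * (((φ a a').coeff l).1 (fun i => i.elim) * v a') =
      r a * (v a' * v' a') := fun a' => by
    rw [← mul_assoc, lg1b_val (h3 a a') (fun i => i.elim)]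
    ring
  rw [Finset.mul_sum, Finset.sum_congr rfl fun a' _ => key a', ← Finset.mul_sum, hV.pair, mul_comm]

/-- [MTF-LG1b] (L5.1), dual form. PROOF. as `homJ1`, with `E := V`, `E' := E`, `p a a' := (v a * r a') • 1`, `cm_vecMul hT h hV.v'_eig`. -/
theorem homJ1' (hT : TQ Q) {l : X} {V : Rep G} {v v' : V.ι → K} (hV : Q.HW (W := W) l V v v')
    {E : Rep G} {r : E.ι → K} (hr : ∀ a, r a ∈ Q.A ∧ InvK W l (r a))
    (he : (Q.sE E).vecMul r = Q.val l • r) :
    ∃ T : Matrix V.ι E.ι K, Q.HomJ E V T ∧ T.vecMul v' = r := by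
  have hx : ∀ a a', v a * r a' ∈ Q.A := fun a a' => Q.A.mul_mem (hV.v_mem a) (hr a').1
  have hi : ∀ a a', InvK W l (v a * r a') := fun a a' w hw => by
    rw [smul_mul', (hr a').2 w hw, hV.v_inv w hw]
  obtain ⟨φ, h1, -, h3⟩ := lift2 (L := PEmpty) hT 0 (ε := fun _ => true) (l := l) (E := V) (E' := E)
    (p := fun a a' => (v a * r a') • (1 : (G.pow PEmpty).KO K))
    (fun a a' => lg1b_JA (hx a a') _) (fun a a' => lg1b_InvO (hi a a'))
    (fun a a' => by
      rw [smul_smul]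
      refine lg1b_sum (fun b => Q.sE V a b) (fun b => v b * r a') _ ?_
      have h4 := congrFun hV.v_eig a
      have h5 : ∑ b, Q.sE V a b * v b = Q.val l * v a := h4
      rw [← mul_assoc, ← h5, Finset.sum_mul]
      exact Finset.sum_congr rfl fun b _ => (mul_assoc _ _ _).symm)
    (fun a a' => by
      rw [smul_smul]
      refine lg1b_sum (fun b => Q.sE E b a') (fun b => v a * r b) _ ?_
      have h4 := congrFun he a'
      have h5 : ∑ b, r b * Q.sE E b a' = Q.val l * r a' := h4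
      rw [mul_left_comm, ← h5, Finset.mul_sum]
      exact Finset.sum_congr rfl fun b _ => by ring)
  refine ⟨cm φ, cm_homJ h1, funext fun a' => ?_⟩
  rw [cm_vecMul hT h1 hV.v'_eig a']
  refine mul_left_cancel₀ (hT.Eu_ne l) ?_
  have key : ∀ a, Q.Eu l * (v' a * ((φ a a').coeff l).1 (fun i => i.elim)) =
      r a' * (v a * v' a) := fun a => by
    rw [mul_left_comm, lg1b_val (h3 a a') (fun i => i.elim)]
    ring
  rw [Finset.mul_sum, Finset.sum_congr rfl fun a _ => key a, ← Finset.mul_sum, hV.pair, mul_comm]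

/-- [MTF-LG1b] (L5.3) PROOF. `homJ1` for `E := V`, `r := a • v` (`hV.v_mem`, `hV.v_inv`, `smul_mul'`). `T.vecMul v'` is a left eigenvector of
weight `l` (`comm`, `Matrix.vecMul_vecMul`), so `T.vecMul v' = x • v'` (`(hV.uniq' _ _).1`). Pair with `v`:
`x * Eu l = v' ⬝ᵥ (T v) = a * Eu l` (`Matrix.dotProduct_mulVec`), so `x = a`. -/
theorem homJS (hT : TQ Q) {l : X} {V : Rep G} {v v' : V.ι → K} (hV : Q.HW (W := W) l V v v')
    {a : K} (ha : a ∈ Q.A) (hi : InvK W l a) :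
    ∃ T : Matrix V.ι V.ι K, Q.HomJ V V T ∧ T.mulVec v = a • v ∧ T.vecMul v' = a • v' := by
  have hr : ∀ c, (a • v) c ∈ Q.A ∧ InvK W l ((a • v) c) := fun c =>
    ⟨Q.A.mul_mem ha (hV.v_mem c), fun w hw => by
      show w • (a * v c) = a * v c
      rw [smul_mul', hi w hw, hV.v_inv w hw]⟩
  have he : (Q.sE V).mulVec (a • v) = Q.val l • (a • v) := by
    rw [Matrix.mulVec_smul, hV.v_eig, smul_comm]
  obtain ⟨T, hT1, hT2⟩ := homJ1 hT hV hr he
  refine ⟨T, hT1, hT2, ?_⟩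
  have h1 : (Q.sE V).vecMul (T.vecMul v') = Q.val l • T.vecMul v' := by
    rw [Matrix.vecMul_vecMul, ← hT1.comm, ← Matrix.vecMul_vecMul, hV.v'_eig, Matrix.smul_vecMul]
  obtain ⟨x, hx⟩ := (hV.uniq' _ h1).1
  have h2 := Matrix.dotProduct_mulVec v' T v
  rw [hT2, hx, dotProduct_smul, smul_dotProduct, smul_eq_mul, smul_eq_mul] at h2
  have h3 : v' ⬝ᵥ v = Q.Eu l := by
    rw [← hV.pair]
    exact Finset.sum_congr rfl fun c _ => mul_comm _ _
  rw [h3] at h2
  rw [hx, mul_right_cancel₀ (hT.Eu_ne l) h2]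

end

end Pool.Agent.MTF.LP
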