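import Pool.Agent.MTF.LG1b
import Pool.Agent.MTF.LA5

set_option linter.unusedSectionVars false

/-!
# [MTF-LG2] pairings of sections
-/

namespace Pool.Agent.MTF.LP

open AffGrp

section
variable {G : AffGrp} {K W X : Type} [Field K] [Algebra ℂ K] [Group W] [Fintype W]
  [MulSemiringAction W K] [SMulCommClass W ℂ K] [AddCommGroup X] [DistribMulAction W X]
variable {L L' : Type} [Finite L] [DecidableEq L] [Finite L'] [DecidableEq L']
variable {Q : TQD G K W X}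

/-- [MTF-LG2] PROOF. `V, v, v'` from `hT.hw m`, `T` from `homJ1` for `r`. `r' ᵥ* T` is a regular left eigenvector of `V` of weight `m`
(`comm`), so `= x • v'` with `x ∈ A` (`(hV.uniq' _ _).2`). `∑ r a * r' a = r' ⬝ᵥ (T v) = x * ∑ v' a' * v a' = x * Eu m`. -/
theorem pairK_inv (hT : TQ Q) {E : Rep G} {m : X} {r r' : E.ι → K}
    (hr : ∀ a, r a ∈ Q.A ∧ InvK W m (r a))
    (hr' : ∀ a, r' a ∈ Q.A) (h : (Q.sE E).mulVec r = Q.val m • r)
    (h' : (Q.sE E).vecMul r' = Q.val m • r') : (Q.Eu m)⁻¹ * ∑ a, r a * r' a ∈ Q.A := by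
  obtain ⟨V, v, v', hV⟩ := hT.hw m
  obtain ⟨T, hT1, hT2⟩ := homJ1 hT hV hr h
  have h1 : Matrix.vecMul (Matrix.vecMul r' T) (Q.sE V) = Q.val m • Matrix.vecMul r' T := by
    rw [Matrix.vecMul_vecMul, ← hT1.comm, ← Matrix.vecMul_vecMul, h', Matrix.smul_vecMul]
  have h2 : ∀ a, Matrix.vecMul r' T a ∈ Q.A := by
    intro a
    exact Subalgebra.sum_mem _ fun b _ => Q.A.mul_mem (hr' b) (hT1.mem b a)
  obtain ⟨x, hx, h3⟩ := (hV.uniq' _ h1).2 h2
  have h4 : ∑ a, r a * r' a = x * Q.Eu m := by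
    have e1 : ∑ a, r a * r' a = r' ⬝ᵥ (T.mulVec v) := by
      rw [hT2]
      exact Finset.sum_congr rfl fun a _ => mul_comm _ _
    rw [e1, Matrix.dotProduct_mulVec, h3, ← hV.pair]
    unfold dotProduct
    rw [Finset.mul_sum]
    refine Finset.sum_congr rfl fun a _ => ?_
    rw [Pi.smul_apply, smul_eq_mul]; ring
  rw [h4, mul_comm x, inv_mul_cancel_left₀ (hT.Eu_ne m)]
  exact hx

/-- [MTF-LG2] (L5.2) PROOF. `Dav_db hT m`: `r a = ∑_i a_i * Dav m (b_i * r a)`; `pairK_inv` for `fun a => Dav m (b_i * r a)`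
(`hT.Dav_mem`, `Dav_inv`, `Dav_mulVec` for `b_i • r`). -/
theorem pairK (hT : TQ Q) {E : Rep G} {m : X} {r r' : E.ι → K} (hr : ∀ a, r a ∈ Q.A)
    (hr' : ∀ a, r' a ∈ Q.A) (h : (Q.sE E).mulVec r = Q.val m • r)
    (h' : (Q.sE E).vecMul r' = Q.val m • r') : (Q.Eu m)⁻¹ * ∑ a, r a * r' a ∈ Q.A := by
  obtain ⟨n, a, b, ha, hb, hdb⟩ := Dav_db hT m
  have h1 : ∑ c, r c * r' c = ∑ i, a i * ∑ c, Q.Dav m (b i * r c) * r' c := by
    have e1 : ∀ c, r c * r' c = ∑ i, a i * (Q.Dav m (b i * r c) * r' c) := by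
      intro c
      conv_lhs => rw [← hdb (r c), Finset.sum_mul]
      exact Finset.sum_congr rfl fun i _ => mul_assoc _ _ _
    rw [Finset.sum_congr rfl fun c _ => e1 c, Finset.sum_comm]
    exact Finset.sum_congr rfl fun i _ => (Finset.mul_sum _ _ _).symm
  rw [h1, Finset.mul_sum]
  refine Subalgebra.sum_mem _ fun i _ => ?_
  rw [mul_left_comm]
  refine Q.A.mul_mem (ha i) ?_
  refine pairK_inv hT (fun c => ⟨hT.Dav_mem _ _ (Q.A.mul_mem (hb i) (hr c)), Dav_inv hT m _⟩) hr' ?_ h'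
  refine Dav_mulVec hT E m (r := fun c => b i * r c) ?_
  have h2 : (fun c => b i * r c) = b i • r := rfl
  rw [h2, Matrix.mulVec_smul, h, smul_comm]

end

end Pool.Agent.MTF.LP
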