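import Pool.Agent.MTF.LG2
import Pool.Agent.MTF.LF3

set_option linter.unusedSectionVars false

/-!
# [MTF-LG3] traces
-/

namespace Pool.Agent.MTF.LP

open AffGrp

section
variable {G : AffGrp} {K W X : Type} [Field K] [Algebra ℂ K] [Group W] [Fintype W]
  [MulSemiringAction W K] [SMulCommClass W ℂ K] [AddCommGroup X] [DistribMulAction W X]
variable {L L' : Type} [Finite L] [DecidableEq L] [Finite L'] [DecidableEq L']
variable {Q : TQD G K W X}

/-- columns of a matrix of left weight `m` are right eigenvectors -/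
theorem lg3_col {E : Rep G} {m : X} {M : Matrix E.ι E.ι K}
    (h : Q.sE E * M = Q.val m • M) (b : E.ι) :
    (Q.sE E).mulVec (fun a => M a b) = Q.val m • (fun a => M a b) := by
  funext a
  have h1 := congrFun (congrFun h a) b
  rw [Matrix.mul_apply] at h1
  exact h1

/-- rows of a matrix of right weight `m` are left eigenvectors -/
theorem lg3_row {E : Rep G} {m : X} {M : Matrix E.ι E.ι K}
    (h : M * Q.sE E = Q.val m • M) (a : E.ι) :
    (Q.sE E).vecMul (fun b => M a b) = Q.val m • (fun b => M a b) := by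
  funext b
  have h1 := congrFun (congrFun h a) b
  rw [Matrix.mul_apply] at h1
  exact h1

/-- [MTF-LG3] the trace of a regular matrix of bidegree `(m, m)`. PROOF. Frames `e, c` from `hT.fl E m`. The column `b` of `M`,
`fun a => M a b`, is a regular right eigenvector: `M a b = ∑_j c j (column b) * e j a`, `c j (column b) ∈ A`. So
`M.trace = ∑_j ∑_b e j b * r' j b`, `r' j b := c j (column b)`, and `(Q.sE E).vecMul (r' j) = Q.val m • r' j`:
`∑_b r' j b * sE b a = c j (∑_b sE b a • column b) = c j (column a of M * sE)` (`h'`). `pairK` for every `j`. -/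
theorem traceK1 (hT : TQ Q) {E : Rep G} {m : X} {M : Matrix E.ι E.ι K} (hM : ∀ a b, M a b ∈ Q.A)
    (h : Q.sE E * M = Q.val m • M) (h' : M * Q.sE E = Q.val m • M) :
    (Q.Eu m)⁻¹ * M.trace ∈ Q.A := by
  obtain ⟨n, e, c, he, hc⟩ := hT.fl E m
  have hcol : ∀ b, (fun a => M a b) = ∑ j, c j (fun a => M a b) • e j :=
    fun b => (hc _ (lg3_col h b)).1
  have hmem : ∀ b j, c j (fun a => M a b) ∈ Q.A :=
    fun b j => (hc _ (lg3_col h b)).2 (fun a => hM a b) j
  have hleft : ∀ j, (Q.sE E).vecMul (fun b => c j (fun a => M a b)) =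
      Q.val m • (fun b => c j (fun a => M a b)) := by
    intro j
    funext a
    have h1 : (∑ b, Q.sE E b a • (fun x => M x b) : E.ι → K) = Q.val m • (fun x => M x a) := by
      funext x
      have h2 := congrFun (congrFun h' x) a
      rw [Matrix.mul_apply] at h2
      rw [Finset.sum_apply]
      show ∑ b, Q.sE E b a * M x b = Q.val m * M x a
      have h3 : (Q.val m • M) x a = Q.val m * M x a := rfl
      rw [← h3, ← h2]
      exact Finset.sum_congr rfl (fun b _ => mul_comm _ _)
    have h4 : (Q.sE E).vecMul (fun b => c j (fun x => M x b)) a =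
        ∑ b, c j (fun x => M x b) * Q.sE E b a := rfl
    have h5 : (Q.val m • (fun b => c j (fun x => M x b)) : E.ι → K) a =
        Q.val m * c j (fun x => M x a) := rfl
    rw [h4, h5]
    have h6 := congrArg (c j) h1
    rw [map_sum, map_smul, smul_eq_mul] at h6
    rw [← h6]
    refine Finset.sum_congr rfl (fun b _ => ?_)
    rw [map_smul, smul_eq_mul, mul_comm]
  have htr : M.trace = ∑ j, ∑ b, e j b * c j (fun a => M a b) := by
    have h1 : M.trace = ∑ b, M b b := rfl
    rw [h1, Finset.sum_comm]
    refine Finset.sum_congr rfl (fun b _ => ?_)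
    have h2 := congrFun (hcol b) b
    rw [Finset.sum_apply] at h2
    refine h2.trans ?_
    refine Finset.sum_congr rfl (fun j _ => ?_)
    show c j (fun a => M a b) * e j b = _
    rw [mul_comm]
  rw [htr, Finset.mul_sum]
  exact sum_mem (fun j _ => pairK hT (he j).1 (fun b => hmem b j) (he j).2 (hleft j))

/-- [MTF-LG3] the components of a regular matrix commuting with `s` have regular traces. PROOF. Let `S := M.sum fun _ z => z`; frames `e, c`
from `hT.fl E m`. `(M m).trace = ∑_b ∑_j c j (column b of M m) * e j b = ∑_j c j ((M m).mulVec (e j))` (linearity). For `m' ≠ m`: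
`(M m').mulVec (e j) = 0` (`orthoK` for `r := e j` and the rows of `M m'`, left eigenvectors of weight `m'` by `h'`), so
`(M m).mulVec (e j) = S.mulVec (e j)`, which is regular (`hM`) and a right eigenvector of weight `m` (`h m`): `c j (..) ∈ A`. -/
theorem traceK0 (hT : TQ Q) {E : Rep G} (M : X →₀ Matrix E.ι E.ι K)
    (hM : ∀ a b, (M.sum fun _ z => z) a b ∈ Q.A)
    (h : ∀ m, Q.sE E * M m = Q.val m • M m) (h' : ∀ m, M m * Q.sE E = Q.val m • M m) (m : X) :
    (M m).trace ∈ Q.A := by
  obtain ⟨n, e, c, he, hc⟩ := hT.fl E m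
  have hcol : ∀ b, (fun a => M m a b) = ∑ j, c j (fun a => M m a b) • e j :=
    fun b => (hc _ (lg3_col (h m) b)).1
  have htr : (M m).trace = ∑ j, c j ((M m).mulVec (e j)) := by
    have h1 : (M m).trace = ∑ b, M m b b := rfl
    have h4 : ∀ j, (M m).mulVec (e j) = ∑ b, e j b • (fun a => M m a b) := by
      intro j
      funext a
      rw [Finset.sum_apply]
      show ∑ b, M m a b * e j b = ∑ b, e j b * M m a b
      exact Finset.sum_congr rfl (fun b _ => mul_comm _ _)
    have h5 : ∀ j, c j ((M m).mulVec (e j)) = ∑ b, e j b * c j (fun a => M m a b) := by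
      intro j
      rw [h4, map_sum]
      exact Finset.sum_congr rfl (fun b _ => by rw [map_smul, smul_eq_mul])
    rw [h1, Finset.sum_congr rfl (fun j _ => h5 j), Finset.sum_comm]
    refine Finset.sum_congr rfl (fun b _ => ?_)
    have h2 := congrFun (hcol b) b
    rw [Finset.sum_apply] at h2
    refine h2.trans ?_
    refine Finset.sum_congr rfl (fun j _ => ?_)
    show c j (fun a => M m a b) * e j b = _
    rw [mul_comm]
  have hz : ∀ j m', m' ≠ m → ∀ a, ∑ b, M m' a b * e j b = 0 := by
    intro j m' hm' a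
    have h1 := orthoK hT E (Ne.symm hm') (he j).2 (lg3_row (h' m') a)
    rw [← h1]
    exact Finset.sum_congr rfl (fun b _ => mul_comm _ _)
  have hS : ∀ j a, (M m).mulVec (e j) a = ∑ b, (M.sum fun _ z => z) a b * e j b := by
    intro j a
    have h1 : ∀ b, (M.sum fun _ z => z) a b = ∑ m' ∈ M.support, M m' a b := by
      intro b
      unfold Finsupp.sum
      rw [Matrix.sum_apply]
    have h2 : ∑ b, (M.sum fun _ z => z) a b * e j b =
        ∑ m' ∈ M.support, ∑ b, M m' a b * e j b := by
      rw [Finset.sum_comm]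
      refine Finset.sum_congr rfl (fun b _ => ?_)
      rw [h1 b, Finset.sum_mul]
    rw [h2]
    rw [Finset.sum_eq_single m (fun m' _ hm' => hz j m' hm' a)]
    · rfl
    · intro hm
      rw [Finsupp.notMem_support_iff] at hm
      rw [hm]
      simp
  rw [htr]
  refine sum_mem (fun j _ => ?_)
  have h7 : (Q.sE E).mulVec ((M m).mulVec (e j)) = Q.val m • (M m).mulVec (e j) := by
    rw [Matrix.mulVec_mulVec, h m, Matrix.smul_mulVec]
  refine (hc _ h7).2 (fun a => ?_) j
  rw [hS j a]
  exact sum_mem (fun b _ => mul_mem (hM a b) ((he j).1 b))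

end

end Pool.Agent.MTF.LP
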