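import Pool.Agent.MTF.LE7
import Pool.Agent.MTF.LG3
import Pool.Agent.MTF.LF2
import Pool.Agent.MTF.LF3
import Pool.Agent.MTF.LF4b
import Pool.Agent.MTF.LF6
import Pool.Agent.MTF.LD5b
import Pool.Agent.MTF.LD5c
import Pool.Agent.MTF.LD6c
import Pool.Agent.MTF.LD7

set_option linter.unusedSectionVars false

/-!
# MTF : interface of part L (used by part C)

Everything here is proved in part L (see MTF_L.md); the statements are what part C uses.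
-/

namespace Pool.Agent.MTF

open AffGrp

section
variable {G : AffGrp} {K W X : Type} [Field K] [Algebra ℂ K] [Group W] [Fintype W]
  [MulSemiringAction W K] [SMulCommClass W ℂ K] [AddCommGroup X] [DistribMulAction W X]
variable {L L' : Type} [Finite L] [DecidableEq L] [Finite L'] [DecidableEq L']
variable {Q : TQD G K W X}

/-! ### families form modules over `A^W` -/

theorem Fam_zero {g : ℕ} {ε : L → Bool} : Q.Fam g ε (0 : RR G K X L) :=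
  LP.Fam_zero

theorem Fam_add {g : ℕ} {ε : L → Bool} {F F' : RR G K X L} (h : Q.Fam g ε F) (h' : Q.Fam g ε F') :
    Q.Fam g ε (F + F') :=
  LP.Fam_add h h'

theorem Fam_neg {g : ℕ} {ε : L → Bool} {F : RR G K X L} (h : Q.Fam g ε F) : Q.Fam g ε (-F) :=
  LP.Fam_neg h

theorem Fam_sum {g : ℕ} {ε : L → Bool} {κ : Type} (t : Finset κ) (F : κ → RR G K X L)
    (h : ∀ i ∈ t, Q.Fam g ε (F i)) : Q.Fam g ε (∑ i ∈ t, F i) :=
  LP.Fam_sum t F h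

theorem Fam_smul {g : ℕ} {ε : L → Bool} {F : RR G K X L} (h : Q.Fam g ε F) {a : K} (ha : a ∈ Q.A)
    (hw : ∀ w : W, w • a = a) : Q.Fam g ε (a • F) :=
  LP.Fam_smul h ha hw

/-- `T ∈ Hom_J(E, E')` acts on families with values in `E` -/
theorem Fam1_act {g : ℕ} {ε : L → Bool} {E E' : Rep G} {φ : E.ι → RR G K X L}
    (h : Q.Fam1 g ε E φ) {T : Matrix E'.ι E.ι K} (hT : Q.HomJ E E' T) :
    Q.Fam1 g ε E' (fun a => ∑ b, T a b • φ b) :=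
  LP.Fam1_act h hT

/-- the transpose of `T ∈ Hom_J(E, E')` acts on families with values in the dual of `E'` -/
theorem Fam1'_act {g : ℕ} {ε : L → Bool} {E E' : Rep G} {φ : E'.ι → RR G K X L}
    (h : Q.Fam1' g ε E' φ) {T : Matrix E'.ι E.ι K} (hT : Q.HomJ E E' T) :
    Q.Fam1' g ε E (fun b => ∑ a, T a b • φ a) :=
  LP.Fam1'_act h hT

theorem Fam2_actL {g : ℕ} {ε : L → Bool} {E E₁ E' : Rep G} {φ : E.ι → E'.ι → RR G K X L}
    (h : Q.Fam2 g ε E E' φ) {T : Matrix E₁.ι E.ι K} (hT : Q.HomJ E E₁ T) :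
    Q.Fam2 g ε E₁ E' (fun a a' => ∑ b, T a b • φ b a') :=
  LP.Fam2_actL h hT

theorem Fam2_actR {g : ℕ} {ε : L → Bool} {E E' E₁ : Rep G} {φ : E.ι → E'.ι → RR G K X L}
    (h : Q.Fam2 g ε E E' φ) {T : Matrix E'.ι E₁.ι K} (hT : Q.HomJ E₁ E' T) :
    Q.Fam2 g ε E E₁ (fun a b => ∑ a', T a' b • φ a a') :=
  LP.Fam2_actR h hT

/-! ### weights -/

/-- right and left eigenvectors of different weights are orthogonal -/
theorem orthoK (hT : TQ Q) (E : Rep G) {m m' : X} (hm : m ≠ m') {r r' : E.ι → K}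
    (h : (Q.sE E).mulVec r = Q.val m • r) (h' : (Q.sE E).vecMul r' = Q.val m' • r') :
    ∑ a, r a * r' a = 0 :=
  LP.orthoK hT E hm h h'

/-- eigenfunctions of different weights are independent -/
theorem eig_indep (hT : TQ Q) (b : Bool) (i : L) (F : X →₀ (G.pow L).KO K)
    (h : ∀ m, Q.s i (F m) = Q.val (sgn b • m) • F m) (h0 : (F.sum fun _ a => a) = 0) : F = 0 :=
  LP.eig_indep hT b i F h h0

theorem supp1 {g : ℕ} {ε : L → Bool} {l : X} {V : Rep G} {v v' : V.ι → K} (hV : Q.HW l V v v')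
    {φ : V.ι → RR G K X L} (h : Q.Fam1 g ε V φ) (a : V.ι) : Q.SuppLe l (φ a) :=
  LP.supp1 hV h a

theorem supp1' {g : ℕ} {ε : L → Bool} {l : X} {V : Rep G} {v v' : V.ι → K} (hV : Q.HW l V v v')
    {φ : V.ι → RR G K X L} (h : Q.Fam1' g ε V φ) (a : V.ι) : Q.SuppLe l (φ a) :=
  LP.supp1' hV h a

theorem supp2 {g : ℕ} {ε : L → Bool} {l : X} {V : Rep G} {v v' : V.ι → K} (hV : Q.HW l V v v')
    {E : Rep G} {φ : V.ι → E.ι → RR G K X L} (h : Q.Fam2 g ε V E φ) (a : V.ι) (b : E.ι) :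
    Q.SuppLe l (φ a b) :=
  LP.supp2 hV h a b

/-! ### leading coefficients -/

theorem lead0 (hT : TQ Q) {g : ℕ} {ε : L → Bool} (hL : g = 0 → Nonempty L) {F : RR G K X L}
    (hF : Q.Fam g ε F) {l : X} (hl : ∀ m, F.coeff m ≠ 0 → Q.N m ≤ Q.N l) :
    ∃ p : (G.pow L).KO K, Q.JA ε l p ∧ InvO W l p ∧ Q.Eu l • F.coeff l = Q.Eu l ^ g • p :=
  LP.lead0 hT hL hF hl

theorem lead1 (hT : TQ Q) {g : ℕ} {ε : L → Bool} {E : Rep G} {φ : E.ι → RR G K X L}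
    (hF : Q.Fam1 g ε E φ) {l : X} (hl : ∀ a m, (φ a).coeff m ≠ 0 → Q.N m ≤ Q.N l) :
    ∃ p : E.ι → (G.pow L).KO K, (∀ a, Q.JA ε l (p a)) ∧ (∀ a, InvO W l (p a)) ∧
      (∀ a, ∑ b, Q.sE E a b • p b = Q.val l • p a) ∧
      ∀ a, Q.Eu l • (φ a).coeff l = Q.Eu l ^ g • p a :=
  LP.lead1 hT hF hl

theorem lead1' (hT : TQ Q) {g : ℕ} {ε : L → Bool} {E : Rep G} {φ : E.ι → RR G K X L}
    (hF : Q.Fam1' g ε E φ) {l : X} (hl : ∀ a m, (φ a).coeff m ≠ 0 → Q.N m ≤ Q.N l) :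
    ∃ p : E.ι → (G.pow L).KO K, (∀ a, Q.JA ε l (p a)) ∧ (∀ a, InvO W l (p a)) ∧
      (∀ a, ∑ b, Q.sE E b a • p b = Q.val l • p a) ∧
      ∀ a, Q.Eu l • (φ a).coeff l = Q.Eu l ^ g • p a :=
  LP.lead1' hT hF hl

theorem lead2 (hT : TQ Q) {g : ℕ} {ε : L → Bool} {E E' : Rep G} {φ : E.ι → E'.ι → RR G K X L}
    (hF : Q.Fam2 g ε E E' φ) {l : X} (hl : ∀ a a' m, (φ a a').coeff m ≠ 0 → Q.N m ≤ Q.N l) :
    ∃ p : E.ι → E'.ι → (G.pow L).KO K, (∀ a a', Q.JA ε l (p a a')) ∧ (∀ a a', InvO W l (p a a')) ∧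
      (∀ a a', ∑ b, Q.sE E a b • p b a' = Q.val l • p a a') ∧
      (∀ a a', ∑ b, Q.sE E' b a' • p a b = Q.val l • p a a') ∧
      ∀ a a', Q.Eu l • (φ a a').coeff l = Q.Eu l ^ g • p a a' :=
  LP.lead2 hT hF hl

/-! ### lifts -/

theorem lift0 (hT : TQ Q) (g : ℕ) {ε : L → Bool} (hL : g = 0 → Nonempty L) {l : X}
    {p : (G.pow L).KO K} (hp : Q.JA ε l p) (hi : InvO W l p) :
    ∃ F : RR G K X L, Q.Fam g ε F ∧ Q.SuppLe l F ∧ Q.Eu l • F.coeff l = Q.Eu l ^ g • p :=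
  LP.lift0 hT g hp hi

theorem lift1 (hT : TQ Q) (g : ℕ) {ε : L → Bool} {l : X} {E : Rep G}
    {p : E.ι → (G.pow L).KO K} (hp : ∀ a, Q.JA ε l (p a)) (hi : ∀ a, InvO W l (p a))
    (hs : ∀ a, ∑ b, Q.sE E a b • p b = Q.val l • p a) :
    ∃ φ : E.ι → RR G K X L, Q.Fam1 g ε E φ ∧ (∀ a, Q.SuppLe l (φ a)) ∧
      ∀ a, Q.Eu l • (φ a).coeff l = Q.Eu l ^ g • p a :=
  LP.lift1 hT g hp hi hs

theorem lift1' (hT : TQ Q) (g : ℕ) {ε : L → Bool} {l : X} {E : Rep G}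
    {p : E.ι → (G.pow L).KO K} (hp : ∀ a, Q.JA ε l (p a)) (hi : ∀ a, InvO W l (p a))
    (hs : ∀ a, ∑ b, Q.sE E b a • p b = Q.val l • p a) :
    ∃ φ : E.ι → RR G K X L, Q.Fam1' g ε E φ ∧ (∀ a, Q.SuppLe l (φ a)) ∧
      ∀ a, Q.Eu l • (φ a).coeff l = Q.Eu l ^ g • p a :=
  LP.lift1' hT g hp hi hs

theorem lift2 (hT : TQ Q) (g : ℕ) {ε : L → Bool} {l : X} {E E' : Rep G}
    {p : E.ι → E'.ι → (G.pow L).KO K} (hp : ∀ a a', Q.JA ε l (p a a'))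
    (hi : ∀ a a', InvO W l (p a a'))
    (hs : ∀ a a', ∑ b, Q.sE E a b • p b a' = Q.val l • p a a')
    (hs' : ∀ a a', ∑ b, Q.sE E' b a' • p a b = Q.val l • p a a') :
    ∃ φ : E.ι → E'.ι → RR G K X L, Q.Fam2 g ε E E' φ ∧ (∀ a a', Q.SuppLe l (φ a a')) ∧
      ∀ a a', Q.Eu l • (φ a a').coeff l = Q.Eu l ^ g • p a a' :=
  LP.lift2 hT g hp hi hs hs'

/-! ### products of invariant sections -/

theorem prod1 (hT : TQ Q) {ε : L → Bool} {l : X} {E : Rep G}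
    {p : E.ι → (G.pow L).KO K} (hp : ∀ a, Q.JA ε l (p a)) (hi : ∀ a, InvO W l (p a))
    (hs : ∀ a, ∑ b, Q.sE E a b • p b = Q.val l • p a) :
    ∃ (n : ℕ) (m : Fin n → (G.pow L).KO K) (r : Fin n → E.ι → K),
      (∀ j, Q.JA ε l (m j) ∧ InvO W l (m j)) ∧
      (∀ j, (∀ a, r j a ∈ Q.A ∧ InvK W l (r j a)) ∧ (Q.sE E).mulVec (r j) = Q.val l • r j) ∧
      ∀ a, p a = ∑ j, r j a • m j :=
  LP.prod1 hT hp hi hs

theorem prod1' (hT : TQ Q) {ε : L → Bool} {l : X} {E : Rep G}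
    {p : E.ι → (G.pow L).KO K} (hp : ∀ a, Q.JA ε l (p a)) (hi : ∀ a, InvO W l (p a))
    (hs : ∀ a, ∑ b, Q.sE E b a • p b = Q.val l • p a) :
    ∃ (n : ℕ) (m : Fin n → (G.pow L).KO K) (r : Fin n → E.ι → K),
      (∀ j, Q.JA ε l (m j) ∧ InvO W l (m j)) ∧
      (∀ j, (∀ a, r j a ∈ Q.A ∧ InvK W l (r j a)) ∧ (Q.sE E).vecMul (r j) = Q.val l • r j) ∧
      ∀ a, p a = ∑ j, r j a • m j :=
  LP.prod1' hT hp hi hs

theorem prod2 (hT : TQ Q) {ε : L → Bool} {l : X} {E E' : Rep G}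
    {p : E.ι → E'.ι → (G.pow L).KO K} (hp : ∀ a a', Q.JA ε l (p a a'))
    (hi : ∀ a a', InvO W l (p a a'))
    (hs : ∀ a a', ∑ b, Q.sE E a b • p b a' = Q.val l • p a a')
    (hs' : ∀ a a', ∑ b, Q.sE E' b a' • p a b = Q.val l • p a a') :
    ∃ (n : ℕ) (m : Fin n → (G.pow L).KO K) (r : Fin n → E.ι → K) (r' : Fin n → E'.ι → K),
      (∀ j, Q.JA ε l (m j) ∧ InvO W l (m j)) ∧
      (∀ j, (∀ a, r j a ∈ Q.A ∧ InvK W l (r j a)) ∧ (Q.sE E).mulVec (r j) = Q.val l • r j) ∧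
      (∀ j, (∀ a, r' j a ∈ Q.A ∧ InvK W l (r' j a)) ∧ (Q.sE E').vecMul (r' j) = Q.val l • r' j) ∧
      ∀ a a', p a a' = ∑ j, (r j a * r' j a') • m j :=
  LP.prod2 hT hp hi hs hs'

theorem prodS (hT : TQ Q) {ε : L → Bool} {ε' : L' → Bool} {l : X} {p : (G.pow (L ⊕ L')).KO K}
    (hp : Q.JA (Sum.elim ε ε') l p) (hi : InvO W l p) :
    ∃ (n : ℕ) (m : Fin n → (G.pow L).KO K) (m' : Fin n → (G.pow L').KO K),
      (∀ j, Q.JA ε l (m j) ∧ InvO W l (m j)) ∧ (∀ j, Q.JA ε' l (m' j) ∧ InvO W l (m' j)) ∧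
      ∀ (k : L → G.X) (k' : L' → G.X), p.1 (Sum.elim k k') = ∑ j, (m j).1 k * (m' j).1 k' :=
  LP.prodS hT hp hi

/-- (L3.4) -/
theorem relL (hT : TQ Q) {ε : L → Bool} {l : X} {n : ℕ} (m : Fin n → (G.pow L).KO K)
    (m' : Fin n → (G.pow L').KO K) (hm : ∀ j, Q.JA ε l (m j) ∧ InvO W l (m j))
    (hm' : ∀ j, Q.Reg (m' j) ∧ InvO W l (m' j))
    (h0 : ∀ (k : L → G.X) (k' : L' → G.X), ∑ j, (m j).1 k * (m' j).1 k' = 0) :
    ∃ (q : ℕ) (y : Fin q → (G.pow L).KO K) (a : Fin n → Fin q → K),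
      (∀ t, Q.JA ε l (y t) ∧ InvO W l (y t)) ∧ (∀ j t, a j t ∈ Q.A ∧ InvK W l (a j t)) ∧
      (∀ j, m j = ∑ t, a j t • y t) ∧ ∀ t, ∑ j, a j t • m' j = 0 :=
  LP.relL hT m m' hm hm' h0

/-! ### `Hom_J` -/

theorem homJ_mul {E E' E'' : Rep G} {T : Matrix E'.ι E.ι K} {T' : Matrix E''.ι E'.ι K}
    (h : Q.HomJ E E' T) (h' : Q.HomJ E' E'' T') : Q.HomJ E E'' (T' * T) :=
  LP.homJ_mul h h'

/-- (L5.1) -/
theorem homJ1 (hT : TQ Q) {l : X} {V : Rep G} {v v' : V.ι → K} (hV : Q.HW l V v v') {E : Rep G}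
    {r : E.ι → K} (hr : ∀ a, r a ∈ Q.A ∧ InvK W l (r a)) (he : (Q.sE E).mulVec r = Q.val l • r) :
    ∃ T : Matrix E.ι V.ι K, Q.HomJ V E T ∧ T.mulVec v = r :=
  LP.homJ1 hT hV hr he

/-- (L5.1), dual form -/
theorem homJ1' (hT : TQ Q) {l : X} {V : Rep G} {v v' : V.ι → K} (hV : Q.HW l V v v') {E : Rep G}
    {r : E.ι → K} (hr : ∀ a, r a ∈ Q.A ∧ InvK W l (r a)) (he : (Q.sE E).vecMul r = Q.val l • r) :
    ∃ T : Matrix V.ι E.ι K, Q.HomJ E V T ∧ T.vecMul v' = r :=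
  LP.homJ1' hT hV hr he

/-- (L5.3) -/
theorem homJS (hT : TQ Q) {l : X} {V : Rep G} {v v' : V.ι → K} (hV : Q.HW l V v v')
    {a : K} (ha : a ∈ Q.A) (hi : InvK W l a) :
    ∃ T : Matrix V.ι V.ι K, Q.HomJ V V T ∧ T.mulVec v = a • v ∧ T.vecMul v' = a • v' :=
  LP.homJS hT hV ha hi

/-- (L5.2) -/
theorem pairK (hT : TQ Q) {E : Rep G} {m : X} {r r' : E.ι → K} (hr : ∀ a, r a ∈ Q.A)
    (hr' : ∀ a, r' a ∈ Q.A) (h : (Q.sE E).mulVec r = Q.val m • r)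
    (h' : (Q.sE E).vecMul r' = Q.val m • r') : (Q.Eu m)⁻¹ * ∑ a, r a * r' a ∈ Q.A :=
  LP.pairK hT hr hr' h h'

/-- the trace of a regular matrix of bidegree `(m, m)` -/
theorem traceK1 (hT : TQ Q) {E : Rep G} {m : X} {M : Matrix E.ι E.ι K} (hM : ∀ a b, M a b ∈ Q.A)
    (h : Q.sE E * M = Q.val m • M) (h' : M * Q.sE E = Q.val m • M) :
    (Q.Eu m)⁻¹ * M.trace ∈ Q.A :=
  LP.traceK1 hT hM h h'

/-- the components of a regular matrix commuting with `s` have regular traces -/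
theorem traceK0 (hT : TQ Q) {E : Rep G} (M : X →₀ Matrix E.ι E.ι K)
    (hM : ∀ a b, (M.sum fun _ z => z) a b ∈ Q.A)
    (h : ∀ m, Q.sE E * M m = Q.val m • M m) (h' : ∀ m, M m * Q.sE E = Q.val m • M m) (m : X) :
    (M m).trace ∈ Q.A :=
  LP.traceK0 hT M hM h h' m

end

end Pool.Agent.MTF
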