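import Mathlib

/-!
# MTF, Part P : systems of derivations with a closed 2-form

`DS` : derivations `D i` of a commutative ring `R` that span a Lie algebra with constant structure
coefficients `c`, and functions `θ i` (a 1-form); `ω = dθ`.  `IsX F X` : `X` is a Hamiltonian field
of `F`, that is `ω(X, D j) = D j F` for all `j`.  The bracket `{F, G} = X_F G` satisfies the Jacobi
identity.
-/

namespace Pool.Agent.MTF

structure DS (R ι : Type) [CommRing R] [Algebra ℂ R] [Fintype ι] where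
  D : ι → Derivation ℂ R R
  c : ι → ι → ι → ℂ
  comm : ∀ i j f, D i (D j f) - D j (D i f) = ∑ k, c i j k • D k f
  skew : ∀ i j k, c i j k = - c j i k
  jac : ∀ i j k p, ∑ l, (c i j l * c l k p + c j k l * c l i p + c k i l * c l j p) = 0
  θ : ι → R

namespace DS
variable {R ι : Type} [CommRing R] [Algebra ℂ R] [Fintype ι] (S : DS R ι)

/-- the 2-form `dθ` -/
noncomputable def ω (i j : ι) : R := S.D i (S.θ j) - S.D j (S.θ i) - ∑ k, S.c i j k • S.θ k

/-- `X` is a Hamiltonian field of `F` -/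
def IsX (F : R) (X : ι → R) : Prop := ∀ j, ∑ i, X i * S.ω i j = S.D j F

/-- the field `X` applied to `G` -/
def ap (X : ι → R) (G : R) : R := ∑ i, X i * S.D i G

theorem ω_skew (i j : ι) : S.ω i j = - S.ω j i := by
  unfold ω
  have : ∀ k, S.c i j k • S.θ k = - (S.c j i k • S.θ k) := fun k => by
    rw [S.skew i j k, neg_smul]
  simp only [this, Finset.sum_neg_distrib]
  ring

theorem closed (i j k : ι) :
    S.D i (S.ω j k) + S.D j (S.ω k i) + S.D k (S.ω i j) =
      (∑ l, S.c i j l • S.ω l k) + (∑ l, S.c j k l • S.ω l i) + ∑ l, S.c k i l • S.ω l j := by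
  have hD : ∀ i j k, S.D i (S.ω j k) = S.D i (S.D j (S.θ k)) - S.D i (S.D k (S.θ j)) -
      ∑ l, S.c j k l • S.D i (S.θ l) := by
    intro i j k
    unfold ω
    rw [map_sub, map_sub, map_sum]
    congr 1
    exact Finset.sum_congr rfl fun l _ => (S.D i).map_smul _ _
  have hW : ∀ i j k, ∑ l, S.c i j l • S.ω l k = (∑ l, S.c i j l • S.D l (S.θ k)) -
      (∑ l, S.c i j l • S.D k (S.θ l)) - ∑ p, (∑ l, S.c i j l * S.c l k p) • S.θ p := by
    intro i j k
    have h1 : ∑ p, (∑ l, S.c i j l * S.c l k p) • S.θ p =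
        ∑ l, S.c i j l • ∑ p, S.c l k p • S.θ p := by
      simp only [Finset.sum_smul, Finset.smul_sum]
      rw [Finset.sum_comm]
      exact Finset.sum_congr rfl fun l _ => Finset.sum_congr rfl fun p _ => mul_smul _ _ _
    rw [h1, ← Finset.sum_sub_distrib, ← Finset.sum_sub_distrib]
    refine Finset.sum_congr rfl fun l _ => ?_
    unfold ω
    rw [smul_sub, smul_sub]
  have hJ : (∑ p, (∑ l, S.c i j l * S.c l k p) • S.θ p) + (∑ p, (∑ l, S.c j k l * S.c l i p) • S.θ p) +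
      ∑ p, (∑ l, S.c k i l * S.c l j p) • S.θ p = 0 := by
    rw [← Finset.sum_add_distrib, ← Finset.sum_add_distrib]
    refine Finset.sum_eq_zero fun p _ => ?_
    rw [← add_smul, ← add_smul, ← Finset.sum_add_distrib, ← Finset.sum_add_distrib, S.jac, zero_smul]
  have c1 := S.comm i j (S.θ k)
  have c2 := S.comm j k (S.θ i)
  have c3 := S.comm k i (S.θ j)
  rw [hD, hD, hD, hW, hW, hW]
  linear_combination c1 + c2 + c3 + hJ

theorem ap_skew {F G : R} {X Y : ι → R} (hX : S.IsX F X) (hY : S.IsX G Y) :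
    S.ap X G = - S.ap Y F := by
  unfold ap
  have h1 : ∑ i, X i * S.D i G = ∑ i, ∑ j, X i * (Y j * S.ω j i) := by
    refine Finset.sum_congr rfl fun i _ => ?_
    rw [← hY i, Finset.mul_sum]
  have h2 : ∑ j, Y j * S.D j F = ∑ j, ∑ i, Y j * (X i * S.ω i j) := by
    refine Finset.sum_congr rfl fun i _ => ?_
    rw [← hX i, Finset.mul_sum]
  rw [h1, h2, Finset.sum_comm, ← Finset.sum_neg_distrib]
  refine Finset.sum_congr rfl fun j _ => ?_
  rw [← Finset.sum_neg_distrib]
  refine Finset.sum_congr rfl fun i _ => ?_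
  rw [S.ω_skew j i]
  ring

theorem IsX.add {F G : R} {X Y : ι → R} (hX : S.IsX F X) (hY : S.IsX G Y) :
    S.IsX (F + G) (X + Y) := by
  intro j
  rw [map_add, ← hX j, ← hY j, ← Finset.sum_add_distrib]
  exact Finset.sum_congr rfl fun i _ => by rw [Pi.add_apply, add_mul]

theorem IsX.smul (c : ℂ) {F : R} {X : ι → R} (hX : S.IsX F X) : S.IsX (c • F) (c • X) := by
  intro j
  rw [Derivation.map_smul, ← hX j, Finset.smul_sum]
  exact Finset.sum_congr rfl fun i _ => by rw [Pi.smul_apply, smul_mul_assoc]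

theorem IsX.mul {F G : R} {X Y : ι → R} (hX : S.IsX F X) (hY : S.IsX G Y) :
    S.IsX (F * G) (fun i => F * Y i + G * X i) := by
  intro j
  rw [Derivation.leibniz, ← hX j, ← hY j, smul_eq_mul, smul_eq_mul, Finset.mul_sum, Finset.mul_sum,
    ← Finset.sum_add_distrib]
  exact Finset.sum_congr rfl fun i _ => by ring

theorem ap_leibniz (X : ι → R) (F G : R) : S.ap X (F * G) = F * S.ap X G + G * S.ap X F := by
  unfold ap
  rw [Finset.mul_sum, Finset.mul_sum, ← Finset.sum_add_distrib]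
  refine Finset.sum_congr rfl fun i _ => ?_
  rw [Derivation.leibniz, smul_eq_mul, smul_eq_mul]
  ring

theorem step {G H : R} {Y Z : ι → R} (X : ι → R) (hY : S.IsX G Y) (hZ : S.IsX H Z) :
    S.ap X (S.ap Y H) = (∑ i, ∑ j, X i * Y j * S.D i (S.D j H)) -
      (∑ i, ∑ k, X i * Z k * S.D i (S.D k G)) +
      ∑ i, ∑ j, ∑ k, X i * Y j * Z k * S.D i (S.ω j k) := by
  have h1 : ∀ i, ∑ j, S.D i (Y j) * S.D j H =
      - ∑ k, Z k * S.D i (S.D k G) + ∑ j, ∑ k, Y j * Z k * S.D i (S.ω j k) := by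
    intro i
    have h2 : ∀ k, ∑ j, S.D i (Y j) * S.ω j k = S.D i (S.D k G) - ∑ j, Y j * S.D i (S.ω j k) := by
      intro k
      rw [← hY k, map_sum, ← Finset.sum_sub_distrib]
      refine Finset.sum_congr rfl fun j _ => ?_
      rw [Derivation.leibniz, smul_eq_mul, smul_eq_mul]
      ring
    have h3 : ∀ j, S.D i (Y j) * S.D j H = - ∑ k, Z k * (S.D i (Y j) * S.ω j k) := by
      intro j
      rw [← hZ j, Finset.mul_sum, ← Finset.sum_neg_distrib]
      refine Finset.sum_congr rfl fun k _ => ?_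
      rw [S.ω_skew k j]
      ring
    simp only [h3, Finset.sum_neg_distrib]
    rw [Finset.sum_comm]
    simp only [← Finset.mul_sum, h2]
    rw [Finset.sum_comm (f := fun j k => Y j * Z k * S.D i (S.ω j k)), ← Finset.sum_neg_distrib,
      ← Finset.sum_neg_distrib, ← Finset.sum_add_distrib]
    refine Finset.sum_congr rfl fun k _ => ?_
    rw [mul_sub, Finset.mul_sum]
    have : ∀ j, Z k * (Y j * S.D i (S.ω j k)) = Y j * Z k * S.D i (S.ω j k) := fun j => by ring
    simp only [this]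
    ring
  have h4 : ∀ i, X i * S.D i (S.ap Y H) = (∑ j, X i * Y j * S.D i (S.D j H)) -
      (∑ k, X i * Z k * S.D i (S.D k G)) + ∑ j, ∑ k, X i * Y j * Z k * S.D i (S.ω j k) := by
    intro i
    have h5 : S.D i (S.ap Y H) = (∑ j, Y j * S.D i (S.D j H)) + ∑ j, S.D i (Y j) * S.D j H := by
      unfold ap
      rw [map_sum, ← Finset.sum_add_distrib]
      refine Finset.sum_congr rfl fun j _ => ?_
      rw [Derivation.leibniz, smul_eq_mul, smul_eq_mul]
      ring
    rw [h5, h1, mul_add, mul_add, Finset.mul_sum, mul_neg, Finset.mul_sum, Finset.mul_sum]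
    simp only [Finset.mul_sum, mul_assoc]
    ring
  show ∑ i, X i * S.D i (S.ap Y H) = _
  simp only [h4]
  rw [Finset.sum_add_distrib, Finset.sum_sub_distrib]

theorem comm_sum {H : R} {Z : ι → R} (X Y : ι → R) (hZ : S.IsX H Z) :
    (∑ i, ∑ j, X i * Y j * S.D i (S.D j H)) - (∑ i, ∑ j, Y i * X j * S.D i (S.D j H)) =
      - ∑ i, ∑ j, ∑ k, X i * Y j * Z k * ∑ l, S.c i j l • S.ω l k := by
  rw [Finset.sum_comm (f := fun i j => Y i * X j * S.D i (S.D j H)), ← Finset.sum_sub_distrib,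
    ← Finset.sum_neg_distrib]
  refine Finset.sum_congr rfl fun i _ => ?_
  rw [← Finset.sum_sub_distrib, ← Finset.sum_neg_distrib]
  refine Finset.sum_congr rfl fun j _ => ?_
  have h1 : X i * Y j * S.D i (S.D j H) - Y j * X i * S.D j (S.D i H) =
      X i * Y j * ∑ k, S.c i j k • S.D k H := by
    rw [← S.comm i j H]
    ring
  have h2 : ∀ l, S.c i j l • S.D l H = - ∑ k, Z k * (S.c i j l • S.ω l k) := by
    intro l
    rw [← hZ l, Finset.smul_sum, ← Finset.sum_neg_distrib]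
    refine Finset.sum_congr rfl fun k _ => ?_
    rw [S.ω_skew k l, mul_neg, smul_neg, mul_smul_comm]
  rw [h1]
  simp only [h2, Finset.sum_neg_distrib]
  rw [Finset.sum_comm, mul_neg, Finset.mul_sum]
  congr 1
  refine Finset.sum_congr rfl fun k _ => ?_
  rw [← Finset.mul_sum]
  ring

omit [Algebra ℂ R] in
theorem cyc3 (f : ι → ι → ι → R) : ∑ i, ∑ j, ∑ k, f j k i = ∑ i, ∑ j, ∑ k, f i j k := by
  rw [Finset.sum_comm]
  exact Finset.sum_congr rfl fun j _ => Finset.sum_comm

/-- The Jacobi identity. -/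
theorem jacobi {F G H : R} {X Y Z : ι → R} (hX : S.IsX F X) (hY : S.IsX G Y) (hZ : S.IsX H Z) :
    S.ap X (S.ap Y H) + S.ap Y (S.ap Z F) + S.ap Z (S.ap X G) = 0 := by
  have e1 := S.step X hY hZ
  have e2 := S.step Y hZ hX
  have e3 := S.step Z hX hY
  have c1 := S.comm_sum X Y hZ
  have c2 := S.comm_sum Y Z hX
  have c3 := S.comm_sum Z X hY
  let f : ι → ι → ι → R := fun i j k => X i * Y j * Z k * S.D i (S.ω j k)
  let g : ι → ι → ι → R := fun i j k => X i * Y j * Z k * S.D j (S.ω k i)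
  let h : ι → ι → ι → R := fun i j k => X i * Y j * Z k * S.D k (S.ω i j)
  have r2 : ∑ i, ∑ j, ∑ k, Y i * Z j * X k * S.D i (S.ω j k) = ∑ i, ∑ j, ∑ k, g i j k := by
    rw [← cyc3 (fun i j k => Y i * Z j * X k * S.D i (S.ω j k))]
    refine Finset.sum_congr rfl fun i _ => Finset.sum_congr rfl fun j _ =>
      Finset.sum_congr rfl fun k _ => ?_
    simp only [g]
    ring
  have r3 : ∑ i, ∑ j, ∑ k, Z i * X j * Y k * S.D i (S.ω j k) = ∑ i, ∑ j, ∑ k, h i j k := by
    rw [← cyc3 (fun i j k => Z i * X j * Y k * S.D i (S.ω j k)),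
      ← cyc3 (fun i j k => Z j * X k * Y i * S.D j (S.ω k i))]
    refine Finset.sum_congr rfl fun i _ => Finset.sum_congr rfl fun j _ =>
      Finset.sum_congr rfl fun k _ => ?_
    simp only [h]
    ring
  have q2 : ∑ i, ∑ j, ∑ k, Y i * Z j * X k * ∑ l, S.c i j l • S.ω l k =
      ∑ i, ∑ j, ∑ k, X i * Y j * Z k * ∑ l, S.c j k l • S.ω l i := by
    rw [← cyc3 (fun i j k => Y i * Z j * X k * ∑ l, S.c i j l • S.ω l k)]
    refine Finset.sum_congr rfl fun i _ => Finset.sum_congr rfl fun j _ =>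
      Finset.sum_congr rfl fun k _ => ?_
    ring
  have q3 : ∑ i, ∑ j, ∑ k, Z i * X j * Y k * ∑ l, S.c i j l • S.ω l k =
      ∑ i, ∑ j, ∑ k, X i * Y j * Z k * ∑ l, S.c k i l • S.ω l j := by
    rw [← cyc3 (fun i j k => Z i * X j * Y k * ∑ l, S.c i j l • S.ω l k),
      ← cyc3 (fun i j k => Z j * X k * Y i * ∑ l, S.c j k l • S.ω l i)]
    refine Finset.sum_congr rfl fun i _ => Finset.sum_congr rfl fun j _ =>
      Finset.sum_congr rfl fun k _ => ?_
    ring
  have tot : (∑ i, ∑ j, ∑ k, X i * Y j * Z k * S.D i (S.ω j k)) + (∑ i, ∑ j, ∑ k, g i j k) +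
      (∑ i, ∑ j, ∑ k, h i j k) = (∑ i, ∑ j, ∑ k, X i * Y j * Z k * ∑ l, S.c i j l • S.ω l k) +
      (∑ i, ∑ j, ∑ k, X i * Y j * Z k * ∑ l, S.c j k l • S.ω l i) +
      ∑ i, ∑ j, ∑ k, X i * Y j * Z k * ∑ l, S.c k i l • S.ω l j := by
    simp only [← Finset.sum_add_distrib]
    refine Finset.sum_congr rfl fun i _ => Finset.sum_congr rfl fun j _ =>
      Finset.sum_congr rfl fun k _ => ?_
    simp only [g, h]
    linear_combination (X i * Y j * Z k) * S.closed i j k
  rw [e1, e2, e3, r2, r3]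
  rw [q2] at c2
  rw [q3] at c3
  linear_combination c1 + c2 + c3 + tot

/-- `ξ` in the kernel of `ω` with `ξ F = ξ G = 0` kills `{F, G}`. -/
theorem ap_ker {F G : R} {X Y ξ : ι → R} (hX : S.IsX F X) (hY : S.IsX G Y)
    (hξ : ∀ j, ∑ i, ξ i * S.ω i j = 0) (hF : S.ap ξ F = 0) :
    S.ap ξ (S.ap X G) = 0 := by
  have h0 : S.IsX 0 ξ := fun j => by rw [hξ, map_zero]
  have h := S.jacobi h0 hX hY
  have h1 : S.ap X (S.ap Y 0) = 0 := by
    have : S.ap Y (0 : R) = 0 := by simp [ap]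
    rw [this]
    simp [ap]
  rw [h1, hF] at h
  have h2 : S.ap Y (0 : R) = 0 := by simp [ap]
  rw [h2, add_zero, add_zero] at h
  exact h

end DS

end Pool.Agent.MTF
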