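import Pool.Agent.MTG.B0
import Pool.Agent.MTF.P1

/-!
# MTF, part P : definitions

* `cD δ` : a derivation `δ` of `S` acting on the coefficients of `S[X]`; `nD χ` : the degree
  derivation `e^m ↦ χ(m) e^m`.
* `dK δ` : a derivation of `K` acting on the values of functions.
* `derD D` : the left invariant field `D`, as a derivation of `K`-valued functions.
* `TQD.br` : the Poisson bracket on families.
-/

namespace Pool.Agent.MTF

open AffGrp

section coeff
variable {S : Type} [CommRing S] [Algebra ℂ S] {X : Type} [AddCommMonoid X]

/-- A derivation of the coefficients. -/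
noncomputable def cD (δ : Derivation ℂ S S) :
    Derivation ℂ (AddMonoidAlgebra S X) (AddMonoidAlgebra S X) :=
  Derivation.mk'
    { toFun := fun F => AddMonoidAlgebra.ofCoeff (F.coeff.mapRange δ (map_zero δ))
      map_add' := fun F F' => by
        apply AddMonoidAlgebra.coeff_injective
        ext m
        exact map_add δ (F.coeff m) (F'.coeff m)
      map_smul' := fun c F => by
        apply AddMonoidAlgebra.coeff_injective
        ext m
        exact δ.map_smul c (F.coeff m) }
    (by
      intro F F'
      simp only [LinearMap.coe_mk, AddHom.coe_mk, smul_eq_mul]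
      induction F using AddMonoidAlgebra.induction_linear with
      | zero => 
        apply AddMonoidAlgebra.coeff_injective
        ext m
        simp
      | add F G hF hG =>
        have h : ∀ A B : AddMonoidAlgebra S X, AddMonoidAlgebra.ofCoeff ((A + B).coeff.mapRange δ (map_zero δ)) =
          AddMonoidAlgebra.ofCoeff (A.coeff.mapRange δ (map_zero δ)) +
            AddMonoidAlgebra.ofCoeff (B.coeff.mapRange δ (map_zero δ)) := by
          intro A B
          apply AddMonoidAlgebra.coeff_injective
          ext m
          exact map_add δ (A.coeff m) (B.coeff m)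
        rw [add_mul, h, hF, hG, h]
        ring
      | single m a =>
        induction F' using AddMonoidAlgebra.induction_linear with
        | zero =>
          apply AddMonoidAlgebra.coeff_injective
          ext m
          simp
        | add F G hF hG =>
          have h : ∀ A B : AddMonoidAlgebra S X, AddMonoidAlgebra.ofCoeff ((A + B).coeff.mapRange δ (map_zero δ)) =
            AddMonoidAlgebra.ofCoeff (A.coeff.mapRange δ (map_zero δ)) +
              AddMonoidAlgebra.ofCoeff (B.coeff.mapRange δ (map_zero δ)) := by
            intro A B
            apply AddMonoidAlgebra.coeff_injective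
            ext m
            exact map_add δ (A.coeff m) (B.coeff m)
          rw [mul_add, h, hF, hG, h]
          ring
        | single m' a' =>
          have h : ∀ (m : X) (a : S), AddMonoidAlgebra.ofCoeff ((AddMonoidAlgebra.single m a).coeff.mapRange δ (map_zero δ)) =
            AddMonoidAlgebra.single m (δ a) := by
            intro m a
            apply AddMonoidAlgebra.coeff_injective
            rw [AddMonoidAlgebra.coeff_single, AddMonoidAlgebra.coeff_single]
            exact Finsupp.mapRange_single (hf := map_zero δ)
          rw [AddMonoidAlgebra.single_mul_single, h, h, h, AddMonoidAlgebra.single_mul_single,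
            AddMonoidAlgebra.single_mul_single, δ.leibniz, add_comm m' m, ← AddMonoidAlgebra.single_add]
          rfl)

theorem cD_coeff (δ : Derivation ℂ S S) (F : AddMonoidAlgebra S X) (m : X) :
    (cD δ F).coeff m = δ (F.coeff m) := rfl

theorem cD_single (δ : Derivation ℂ S S) (m : X) (a : S) :
    cD δ (AddMonoidAlgebra.single m a) = AddMonoidAlgebra.single m (δ a) := by
  apply AddMonoidAlgebra.coeff_injective
  rw [AddMonoidAlgebra.coeff_single]
  exact Finsupp.mapRange_single (hf := map_zero δ)

/-- The degree derivation `e^m ↦ χ(m) e^m`. -/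
noncomputable def nD (χ : X →+ S) : Derivation ℂ (AddMonoidAlgebra S X) (AddMonoidAlgebra S X) :=
  Derivation.mk'
    { toFun := fun F => F.coeff.sum fun m a => AddMonoidAlgebra.single m (χ m * a)
      map_add' := fun F F' => by
        rw [AddMonoidAlgebra.coeff_add, Finsupp.sum_add_index']
        · intro m; simp
        · intro m a b; rw [mul_add, AddMonoidAlgebra.single_add]
      map_smul' := fun c F => by
        rw [AddMonoidAlgebra.coeff_smul, Finsupp.sum_smul_index' (h0 := fun m => by simp), RingHom.id_apply,
          Finsupp.smul_sum]
        refine Finsupp.sum_congr fun m _ => ?_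
        apply AddMonoidAlgebra.coeff_injective
        rw [AddMonoidAlgebra.coeff_smul, AddMonoidAlgebra.coeff_single, AddMonoidAlgebra.coeff_single,
          Finsupp.smul_single, mul_smul_comm] }
    (by
      intro F F'
      simp only [LinearMap.coe_mk, AddHom.coe_mk, smul_eq_mul]
      have hadd : ∀ A B : AddMonoidAlgebra S X,
          ((A + B).coeff.sum fun m a => AddMonoidAlgebra.single m (χ m * a)) =
          (A.coeff.sum fun m a => AddMonoidAlgebra.single m (χ m * a)) +
            B.coeff.sum fun m a => AddMonoidAlgebra.single m (χ m * a) := by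
        intro A B
        rw [AddMonoidAlgebra.coeff_add, Finsupp.sum_add_index']
        · intro m; simp
        · intro m a b; rw [mul_add, AddMonoidAlgebra.single_add]
      have hs : ∀ (m : X) (a : S), ((AddMonoidAlgebra.single m a).coeff.sum
          fun m a => AddMonoidAlgebra.single m (χ m * a)) = AddMonoidAlgebra.single m (χ m * a) := by
        intro m a
        rw [AddMonoidAlgebra.coeff_single, Finsupp.sum_single_index (by simp)]
      induction F using AddMonoidAlgebra.induction_linear with
      | zero => simp
      | add F G hF hG => rw [add_mul, hadd, hF, hG, hadd]; ring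
      | single m a =>
        induction F' using AddMonoidAlgebra.induction_linear with
        | zero => simp
        | add F G hF hG => rw [mul_add, hadd, hF, hG, hadd]; ring
        | single m' a' =>
          rw [AddMonoidAlgebra.single_mul_single, hs, hs, hs, AddMonoidAlgebra.single_mul_single,
            AddMonoidAlgebra.single_mul_single, add_comm m' m, ← AddMonoidAlgebra.single_add, map_add]
          congr 1
          ring)

theorem nD_single (χ : X →+ S) (m : X) (a : S) :
    nD χ (AddMonoidAlgebra.single m a) = AddMonoidAlgebra.single m (χ m * a) := by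
  show ((AddMonoidAlgebra.single m a).coeff.sum
          fun m a => AddMonoidAlgebra.single m (χ m * a)) = AddMonoidAlgebra.single m (χ m * a)
  rw [AddMonoidAlgebra.coeff_single, Finsupp.sum_single_index (by simp)]

theorem nD_coeff (χ : X →+ S) (F : AddMonoidAlgebra S X) (m : X) :
    (nD χ F).coeff m = χ m * F.coeff m := by
  induction F using AddMonoidAlgebra.induction_linear with
  | zero => simp
  | add F G hF hG =>
    rw [map_add, AddMonoidAlgebra.coeff_add, Finsupp.add_apply, hF, hG, AddMonoidAlgebra.coeff_add,
      Finsupp.add_apply, mul_add]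
  | single k a =>
    classical
    rw [nD_single, AddMonoidAlgebra.coeff_single, AddMonoidAlgebra.coeff_single,
      Finsupp.single_apply, Finsupp.single_apply]
    split_ifs with h
    · rw [h]
    · simp

end coeff

section
variable {H : AffGrp} {K : Type} [Field K] [Algebra ℂ K]

/-- A derivation of `K` acting on the values of functions. -/
def dK (δ : Derivation ℂ K K) : Derivation ℂ (H.KO K) (H.KO K) :=
  Derivation.mk'
    { toFun := fun F => ⟨fun x => δ (F.1 x), by
        obtain ⟨n, c, f, h⟩ := KO_rep F
        refine ⟨n, fun i => δ (c i), f, fun x => ?_⟩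
        show δ (F.1 x) = _
        rw [h, map_sum]
        refine Finset.sum_congr rfl fun i _ => ?_
        rw [δ.leibniz, δ.map_algebraMap, smul_zero, zero_add, smul_eq_mul, mul_comm]⟩
      map_add' := fun F F' => KO_ext fun x => map_add δ (F.1 x) (F'.1 x)
      map_smul' := fun c F => KO_ext fun x => δ.map_smul c (F.1 x) }
    (fun F F' => KO_ext fun x => δ.leibniz (F.1 x) (F'.1 x))

theorem dK_apply (δ : Derivation ℂ K K) (F : H.KO K) (x : H.X) : (dK δ F).1 x = δ (F.1 x) := rfl

variable (K) in
/-- A left invariant field, as a derivation. -/
noncomputable def derD (D : H.Lie) : Derivation ℂ (H.KO K) (H.KO K) :=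
  Derivation.mk' ((derK K D).restrictScalars ℂ) (fun F F' => derK_leib D F F')

theorem derD_apply (D : H.Lie) (F : H.KO K) : derD K D F = derK K D F := rfl

end

/-- The additional data for the Poisson structure: `mb` a basis of the weight lattice, `dd j` the
derivation of `K` in the direction of `mb j`, `y` dual coordinates, `rho` the matrix of the bilinear
form `κ(z', R z)` on covectors, `R` the group inverse of `ad s`; `(e, f)` part of the principal
triple. -/
structure PD {G : AffGrp} {K W X : Type} [Field K] [Algebra ℂ K] [Group W] [AddCommGroup X]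
    (Q : TQD G K W X) where
  n : ℕ
  mb : Module.Basis (Fin n) ℤ X
  dd : Fin n → Derivation ℂ K K
  y : Fin n → K
  rho : Matrix (Fin Q.r) (Fin Q.r) K
  e : G.Lie
  f : G.Lie

section defs
variable {G : AffGrp} {K W X : Type} [Field K] [Algebra ℂ K] [Group W] [AddCommGroup X]

namespace TQD
variable (Q : TQD G K W X)

/-- The Killing form in the basis `D`. -/
noncomputable def kap (a b : Fin Q.r) : ℂ := G.killing (Q.D a) (Q.D b)

/-- The structure constants in the basis `D`. -/
noncomputable def stc (a b c : Fin Q.r) : ℂ := Q.D.repr (G.br (Q.D a) (Q.D b)) c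

/-- coordinates of an element of the Lie algebra -/
noncomputable def co (D : G.Lie) (a : Fin Q.r) : K := algebraMap ℂ K (Q.D.repr D a)

/-- `z ↦ (κ(z, D a))_a` -/
noncomputable def flat {R : Type} [AddCommMonoid R] [Module ℂ R] (z : Fin Q.r → R) (a : Fin Q.r) : R :=
  ∑ b, Q.kap b a • z b

/-- the Killing form of two vectors of coordinates -/
noncomputable def kapK {R : Type} [Semiring R] [Algebra ℂ R] (z z' : Fin Q.r → R) : R :=
  ∑ a, ∑ b, Q.kap a b • (z a * z' b)

/-- the bracket of two vectors of coordinates -/
noncomputable def brK {R : Type} [Semiring R] [Algebra ℂ R] (z z' : Fin Q.r → R) (c : Fin Q.r) : R :=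
  ∑ a, ∑ b, Q.stc a b c • (z a * z' b)

/-- the matrix of an element of `g_K` in a representation -/
noncomputable def zE (E : Rep G) (z : Fin Q.r → K) : Matrix E.ι E.ι K :=
  fun a b => ∑ j, z j * algebraMap ℂ K ((Q.D j).1 (E.co a b))

end TQD

variable {Q : TQD G K W X}

namespace PD
variable (P : PD Q)

/-- the coordinate `j` of a weight -/
noncomputable def cd (j : Fin P.n) : X →+ ℤ := (P.mb.coord j).toAddMonoidHom

/-- The derivation of `K` in the direction `m`. -/
noncomputable def dX (m : X) : Derivation ℂ K K := ∑ j, P.cd j m • P.dd j

/-- `∂_m s` -/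
noncomputable def dXs (m : X) (i : Fin Q.r) : K := P.dX m (Q.c i)

/-- `κ(∂_j s, D a)` -/
noncomputable def sig (j : Fin P.n) (a : Fin Q.r) : K := Q.flat (fun i => P.dd j (Q.c i)) a

section legs
variable {L : Type} [Fintype L] [DecidableEq L]

/-- The field `D a` in the leg `l`. -/
noncomputable def DL (l : L) (a : Fin Q.r) : Derivation ℂ (RR G K X L) (RR G K X L) :=
  cD (derD K (emb l (Q.D a)))

/-- the degree derivations -/
noncomputable def DN (L : Type) [Finite L] (j : Fin P.n) : Derivation ℂ (RR G K X L) (RR G K X L) :=
  nD ((Int.castAddHom ((G.pow L).KO K)).comp (P.cd j))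

/-- the derivatives in `K` -/
noncomputable def DX (L : Type) [Finite L] (j : Fin P.n) : Derivation ℂ (RR G K X L) (RR G K X L) :=
  cD (dK (P.dd j))

/-- `a_l = α_l - ε_l ∂_n s` (as a covector) -/
noncomputable def AL (ε : L → Bool) (l : L) (a : Fin Q.r) (F : RR G K X L) : RR G K X L :=
  DL l a F - sgn (ε l) • ∑ j, P.sig j a • P.DN L j F

/-- The bracket. -/
noncomputable def br (ε : L → Bool) (F F' : RR G K X L) : RR G K X L :=
  ∑ j, (P.DN L j F * P.DX L j F' - P.DN L j F' * P.DX L j F) -
    ∑ l, sgn (ε l) • ∑ a, ∑ b, P.rho a b • (P.AL ε l a F * P.AL ε l b F')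

end legs

end PD

end defs

end Pool.Agent.MTF
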