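import Pool.Agent.MTF.P0

set_option linter.unusedSectionVars false

/-!
# MTF, part P : axioms and eigenfamilies

`PQ` : the properties (P1)-(P4) of the additional data.  `IsEF` : families of joint eigenfunctions.
-/

namespace Pool.Agent.MTF

open AffGrp

section defs
variable {G : AffGrp} {K W X : Type} [Field K] [Algebra ℂ K] [Group W] [Fintype W]
  [MulSemiringAction W K] [SMulCommClass W ℂ K] [AddCommGroup X] [DistribMulAction W X]

/-- The properties of the additional data for the Poisson structure. -/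
structure PQ (Q : TQD G K W X) (P : PD Q) : Prop where
  dd_comm : ∀ i j x, P.dd i (P.dd j x) = P.dd j (P.dd i x)
  dd_mem : ∀ i x, x ∈ Q.A → P.dd i x ∈ Q.A
  dd_y : ∀ i j, P.dd i (P.y j) = if i = j then 1 else 0
  /-- `A` is generated by the coordinates -/
  A_gen : Algebra.adjoin ℂ (Set.range P.y) = Q.A
  /-- `K` is the field of fractions of `A` -/
  frac : ∀ x : K, ∃ a ∈ Q.A, a ≠ 0 ∧ a * x ∈ Q.A
  dX_w : ∀ (w : W) m x, P.dX (w • m) (w • x) = w • P.dX m x
  /-- the centraliser of `s` acts on weight vectors through `∂_m s` -/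
  gr : ∀ (E : Rep G) (m : X) (z : Fin Q.r → K) (r : E.ι → K), Q.brK Q.c z = 0 →
    (Q.sE E).mulVec r = Q.val m • r → (Q.zE E z).mulVec r = Q.kapK (P.dXs m) z • r
  /-- `s - e` centralises `f` -/
  sf : Q.brK (Q.co P.f) (fun i => Q.c i - Q.co P.e i) = 0
  /-- the invariants are the polynomials in the coordinates of `s` -/
  AW : ∀ a ∈ Q.A, (∀ w : W, w • a = a) → ∃ p : MvPolynomial (Fin Q.r) ℂ, MvPolynomial.aeval Q.c p = a
  /-- the relations of the coordinates of `s` are those of the slice -/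
  ASl : ∀ p : MvPolynomial (Fin Q.r) ℂ, MvPolynomial.aeval Q.c p = 0 →
    ∀ s₀ : G.Lie, G.br P.f (s₀ - P.e) = 0 → MvPolynomial.eval (fun i => Q.D.repr s₀ i) p = 0
  /-- transversality -/
  sl : ∀ s₀ : G.Lie, G.br P.f (s₀ - P.e) = 0 → ∀ z : G.Lie, ∃ u v : G.Lie, G.br P.f u = 0 ∧
    z = u + G.br s₀ (G.br P.f v)
  /-- directness -/
  dir : ∀ u v : Fin Q.r → K, Q.brK (Q.co P.f) u = 0 → u = Q.brK Q.c v → u = 0
  rho_skew : ∀ a b, P.rho a b = - P.rho b a
  rho_w : ∀ (w : W) a b, w • P.rho a b = P.rho a b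
  rho_im : ∀ α : Fin Q.r → K, (∀ z, Q.brK Q.c z = 0 → ∑ a, α a * z a = 0) →
    Q.flat (Q.brK Q.c fun b => ∑ a, P.rho a b * α a) = α
  rho_ker : ∀ z, Q.brK Q.c z = 0 → ∀ b, ∑ a, P.rho a b * Q.flat z a = 0

variable {Q : TQD G K W X}
variable {L : Type} [Fintype L] [DecidableEq L]

/-- Eigenfamilies. -/
def IsEF (Q : TQD G K W X) (ε : L → Bool) (F : RR G K X L) : Prop :=
  ∀ m l, Q.s l (F.coeff m) = Q.val (sgn (ε l) • m) • F.coeff m

/-- The action of `W` on families: `(w F)_(w m) = w (F_m)`. -/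
noncomputable def wR (w : W) (F : RR G K X L) : RR G K X L :=
  AddMonoidAlgebra.ofCoeff ((F.coeff.mapRange (wO (G.pow L) w) (map_zero _)).mapDomain (fun m => w • m))

theorem wR_coeff (w : W) (F : RR G K X L) (m : X) :
    (wR w F).coeff (w • m) = wO (G.pow L) w (F.coeff m) := by
  show ((F.coeff.mapRange (wO (G.pow L) w) (map_zero _)).mapDomain (fun m => w • m)) (w • m) = _
  rw [Finsupp.mapDomain_apply (MulAction.injective w)]
  rfl

end defs

end Pool.Agent.MTF
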