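import Pool.Agent.MTF.LF3
import Pool.Agent.MTF.LB6

/-!
# MTF, part K : cylinder and decomposition of functions into families, definitions
-/

namespace Pool.Agent.MTF

open AffGrp

section
variable {G : AffGrp} {K W X : Type} [Field K] [Algebra ℂ K] [Group W] [Fintype W]
  [MulSemiringAction W K] [SMulCommClass W ℂ K] [AddCommGroup X] [DistribMulAction W X]

/-- The coordinate `i` of `Ad_k s` (in the basis `Q.D`). -/
noncomputable def TQD.adc (Q : TQD G K W X) (k : G.X) (i : Fin Q.r) : K :=
  ∑ j, Q.c j * algebraMap ℂ K (Q.D.repr (G.Ad k (Q.D j)) i)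

/-- `κ(D_j, Ad_k s)` -/
noncomputable def TQD.muv (Q : TQD G K W X) (k : G.X) (j : Fin Q.r) : K :=
  ∑ l, Q.c l * algebraMap ℂ K (G.killing (Q.D j) (G.Ad k (Q.D l)))

/-- regular `W`-invariant functions -/
structure TQD.RI (Q : TQD G K W X) {H : AffGrp} (F : H.KO K) : Prop where
  reg : Q.Reg F
  inv : ∀ w : W, wO H w F = F

/-- the value of a regular function at a point, in `K` -/
noncomputable def evK (K : Type) [Field K] [Algebra ℂ K] (a : G.X) : G.O →+* K where
  toFun f := algebraMap ℂ K (f.1 a)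
  map_one' := map_one (algebraMap ℂ K)
  map_mul' f g := map_mul (algebraMap ℂ K) (f.1 a) (g.1 a)
  map_zero' := map_zero (algebraMap ℂ K)
  map_add' f g := map_add (algebraMap ℂ K) (f.1 a) (g.1 a)

/-- the value of `H ∈ O ⊗ ℂ[𝔤*]` at the point `a` of the group and the functional `κ(-, Ad_k s)` -/
noncomputable def TQD.cyE (Q : TQD G K W X) (H : MvPolynomial (Fin Q.r) G.O) (a k : G.X) : K :=
  MvPolynomial.eval₂ (evK K a) (Q.muv k) H

end

end Pool.Agent.MTF
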