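import Pool.Agent.MTF.RA
import Pool.Agent.MTF.Y0

/-! # MTF, part P : the data for the opposite -/

set_option linter.unusedSectionVars false

namespace Pool.Agent.MTF

open AffGrp

section
variable {G : AffGrp} {K W X : Type} [Field K] [Algebra ℂ K] [Group W] [Fintype W]
  [MulSemiringAction W K] [SMulCommClass W ℂ K] [AddCommGroup X] [DistribMulAction W X]
variable {Q : TQD G K W X}
variable {P : PD Q}
variable {L : Type} [Fintype L] [DecidableEq L]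

/-- The data for the opposite: `ι` is the automorphism `x ↦ -x` of the Cartan subalgebra, `ι(s) = - Ad_γ s`. -/
structure PO (Q : TQD G K W X) (P : PD Q) (ι : K ≃ₐ[ℂ] K) (γ : G.X) : Prop where
  ii : ∀ x, ι (ι x) = x
  iw : ∀ (w : W) x, ι (w • x) = w • ι x
  iA : ∀ x, x ∈ Q.A → ι x ∈ Q.A
  idd : ∀ j x, ι (P.dd j x) = - P.dd j (ι x)
  ival : ∀ m, ι (Q.val m) = - Q.val m
  iEu : ∀ m, ∃ u : ℂ, u ≠ 0 ∧ ι (Q.Eu m) = algebraMap ℂ K u * Q.Eu m
  ic : ∀ i, ι (Q.c i) = - Q.adc γ i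

/-- `F ↦ (k ↦ ι (F (k γ⁻¹)))` -/
noncomputable def thO (ι : K ≃ₐ[ℂ] K) (γ : G.X) (L : Type) [Finite L] :
    (G.pow L).KO K →ₐ[ℂ] (G.pow L).KO K where
  toFun F := (G.pow L).mapK ι.toAlgHom (rtK (H := G.pow L) (fun _ => γ⁻¹ : L → G.X) F)
  map_one' := KO_ext fun _ => map_one ι
  map_mul' F F' := KO_ext fun k => map_mul ι (F.1 (fun l => k l * γ⁻¹)) (F'.1 (fun l => k l * γ⁻¹))
  map_zero' := KO_ext fun _ => map_zero ι
  map_add' F F' := KO_ext fun k => map_add ι (F.1 (fun l => k l * γ⁻¹)) (F'.1 (fun l => k l * γ⁻¹))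
  commutes' c := KO_ext fun _ => ι.commutes c

theorem thO_apply (ι : K ≃ₐ[ℂ] K) (γ : G.X) (F : (G.pow L).KO K) (k : L → G.X) :
    (thO ι γ L F).1 k = ι (F.1 (fun l => k l * γ⁻¹)) := rfl

theorem thO_smul (ι : K ≃ₐ[ℂ] K) (γ : G.X) (x : K) (F : (G.pow L).KO K) :
    thO ι γ L (x • F) = ι x • thO ι γ L F := KO_ext fun k => map_mul ι x (F.1 (fun l => k l * γ⁻¹))

/-- the same on families -/
noncomputable def th (X : Type) [AddCommGroup X] (ι : K ≃ₐ[ℂ] K) (γ : G.X) (L : Type) [Finite L] :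
    RR G K X L →ₐ[ℂ] RR G K X L := AddMonoidAlgebra.mapAlgHom X (thO ι γ L)

theorem th_coeff (ι : K ≃ₐ[ℂ] K) (γ : G.X) (F : RR G K X L) (m : X) :
    (th X ι γ L F).coeff m = thO ι γ L (F.coeff m) := AddMonoidAlgebra.coeff_mapAlgHom _ F m

theorem th_apply (ι : K ≃ₐ[ℂ] K) (γ : G.X) (F : RR G K X L) (m : X) (k : L → G.X) :
    ((th X ι γ L F).coeff m).1 k = ι ((F.coeff m).1 (fun l => k l * γ⁻¹)) := by
  rw [th_coeff]
  rfl

end

end Pool.Agent.MTF
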