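import Pool.Agent.MTF.Y0

set_option linter.unusedSectionVars false

namespace Pool.Agent.MTF

open AffGrp

section
variable {G : AffGrp} {K W X : Type} [Field K] [Algebra ℂ K] [Group W] [Fintype W]
  [MulSemiringAction W K] [SMulCommClass W ℂ K] [AddCommGroup X] [DistribMulAction W X]
variable {L : Type} [Finite L] [DecidableEq L]
variable {Q : TQD G K W X}

theorem y4_dec (f : G.O) : ∃ (ι : Type) (_ : Fintype ι) (a b c : ι → G.O),
    ∀ x y z : G.X, f.1 (x * y * z) = ∑ i, (a i).1 x * (b i).1 y * (c i).1 z := by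
  obtain ⟨n, a, b, h⟩ := G.mul_mem f.1 f.2
  choose m a' b' h' using fun i => G.mul_mem (a i).1 (a i).2
  refine ⟨Σ i : Fin n, Fin (m i), inferInstance, fun p => a' p.1 p.2, fun p => b' p.1 p.2,
    fun p => b p.1, fun x y z => ?_⟩
  rw [h, Fintype.sum_sigma]
  refine Finset.sum_congr rfl fun i _ => ?_
  rw [h', Finset.sum_mul]

/-- the function `x ↦ f x⁻¹` -/
def y4_inv (f : G.O) : G.O := ⟨fun x => f.1 x⁻¹, G.inv_mem f.1 f.2⟩

theorem y4_one (D : G.Lie) : D.1 (1 : G.O) = 0 := by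
  have h := D.2 1 1
  have h1 : (1 : G.O).1 1 = 1 := rfl
  rw [mul_one, h1, one_mul] at h
  linear_combination -h

theorem y4_D_inv (D : G.Lie) (f : G.O) : D.1 (y4_inv f) = - D.1 f := by
  obtain ⟨n, p, q, h⟩ := G.mul_mem f.1 f.2
  have h1 : ∑ i, p i * y4_inv (q i) = f.1 1 • (1 : G.O) := by
    apply Subtype.ext
    funext x
    have e1 : (∑ i, p i * y4_inv (q i)).1 x = ∑ i, (p i).1 x * (q i).1 x⁻¹ := by
      rw [AddSubmonoidClass.coe_finsetSum, Finset.sum_apply]
      rfl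
    rw [e1, ← h, mul_inv_cancel]
    show f.1 1 = f.1 1 * 1
    rw [mul_one]
  have h2 : y4_inv f = ∑ i, (p i).1 1 • y4_inv (q i) := by
    apply Subtype.ext
    funext x
    rw [AddSubmonoidClass.coe_finsetSum, Finset.sum_apply]
    show f.1 x⁻¹ = ∑ i, (p i).1 1 * (q i).1 x⁻¹
    rw [← h, one_mul]
  have h3 : f = ∑ i, (q i).1 1 • p i := by
    apply Subtype.ext
    funext x
    rw [AddSubmonoidClass.coe_finsetSum, Finset.sum_apply]
    show f.1 x = ∑ i, (q i).1 1 * (p i).1 x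
    have e1 := h x 1
    rw [mul_one] at e1
    rw [e1]
    exact Finset.sum_congr rfl fun i _ => mul_comm _ _
  have h4 := congrArg D.1 h1
  rw [map_smul, y4_one, smul_zero, map_sum] at h4
  have h5 : ∀ i, D.1 (p i * y4_inv (q i)) =
      (p i).1 1 * D.1 (y4_inv (q i)) + (q i).1 1 * D.1 (p i) := by
    intro i
    rw [D.2]
    have e1 : (y4_inv (q i)).1 1 = (q i).1 1 := by
      show (q i).1 1⁻¹ = _
      rw [inv_one]
    rw [e1]
  rw [Finset.sum_congr rfl fun i _ => h5 i, Finset.sum_add_distrib] at h4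
  have h6 : D.1 (y4_inv f) = ∑ i, (p i).1 1 * D.1 (y4_inv (q i)) := by
    conv_lhs => rw [h2]
    rw [map_sum]
    exact Finset.sum_congr rfl fun i _ => by rw [map_smul, smul_eq_mul]
  have h7 : D.1 f = ∑ i, (q i).1 1 * D.1 (p i) := by
    conv_lhs => rw [h3]
    rw [map_sum]
    exact Finset.sum_congr rfl fun i _ => by rw [map_smul, smul_eq_mul]
  rw [h6, h7]
  linear_combination h4

/-- `k ↦ (Ad_k D) f` as a regular function -/
theorem y4_fun (f : G.O) (D : G.Lie) {ι : Type} [Fintype ι] {a b c : ι → G.O}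
    (h : ∀ x y z : G.X, f.1 (x * y * z) = ∑ i, (a i).1 x * (b i).1 y * (c i).1 z) :
    (fun k => (G.Ad k D).1 f) = (∑ i, D.1 (b i) • (a i * y4_inv (c i)) : G.O).1 := by
  funext k
  have h1 : G.cj k f = ∑ i, ((a i).1 k * (c i).1 k⁻¹) • b i := by
    apply Subtype.ext
    funext y
    rw [AddSubmonoidClass.coe_finsetSum, Finset.sum_apply]
    show f.1 (k * y * k⁻¹) = ∑ i, ((a i).1 k * (c i).1 k⁻¹) * (b i).1 y
    rw [h]
    exact Finset.sum_congr rfl fun i _ => by ring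
  show D.1 (G.cj k f) = _
  rw [h1, map_sum, AddSubmonoidClass.coe_finsetSum, Finset.sum_apply]
  refine Finset.sum_congr rfl fun i _ => ?_
  rw [map_smul, smul_eq_mul]
  show _ = D.1 (b i) * ((a i).1 k * (c i).1 k⁻¹)
  ring

theorem y4_eval (Q : TQD G K W X) (φ : Module.Dual ℂ G.Lie) : ∃ f : G.O, ∀ D : G.Lie, φ D = D.1 f := by
  have hfin : Module.Finite ℂ G.Lie := Module.Finite.of_basis Q.D
  let T : G.O →ₗ[ℂ] Module.Dual ℂ G.Lie :=
    { toFun := fun f =>
        { toFun := fun D => D.1 f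
          map_add' := fun _ _ => rfl
          map_smul' := fun _ _ => rfl }
      map_add' := fun f g => LinearMap.ext fun D => map_add D.1 f g
      map_smul' := fun c f => LinearMap.ext fun D => map_smul D.1 c f }
  have hT : LinearMap.range T = ⊤ := by
    by_contra hne
    obtain ⟨ψ, hψ0, hψm⟩ := Submodule.exists_le_ker_of_lt_top (LinearMap.range T)
      (lt_top_iff_ne_top.2 hne)
    apply hψ0
    have h1 : (Module.evalEquiv ℂ G.Lie).symm ψ = 0 := by
      apply Subtype.ext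
      apply LinearMap.ext
      intro f
      have h2 : (T f) ((Module.evalEquiv ℂ G.Lie).symm ψ) = ψ (T f) := by
        rw [Module.apply_evalEquiv_symm_apply]
      have h3 : ψ (T f) = 0 := hψm ⟨f, rfl⟩
      exact h2.trans h3
    exact (LinearEquiv.map_eq_zero_iff _).1 h1
  obtain ⟨f, hf⟩ : φ ∈ LinearMap.range T := by rw [hT]; trivial
  exact ⟨f, fun D => by rw [← hf]; rfl⟩

/-- (row Y4) Matrix coefficients of the adjoint representation are regular.
PROOF. Every functional on `G.Lie` is `D ↦ D.1 f` for some `f : G.O`: the map `G.O → Module.Dual ℂ G.Lie`, `f ↦ (D ↦ D.1 f)`, is surjective, because `G.Lie` is finite dimensional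
(the basis `Q.D`; the functionals `f ↦ (Q.D j).1 f` are linearly independent on `G.O`, so there are `f j` with `(Q.D i).1 (f j) = if i = j then 1 else 0`).
`(G.Ad k D).1 f = D.1 (y ↦ f (k y k⁻¹))`; `G.mul_mem` twice: `f (k y k⁻¹) = ∑ a_i(k) b_i(y) c_i(k⁻¹)`, `D.1` of it is `∑ a_i(k) c_i(k⁻¹) D.1 b_i`, regular in `k` (`G.inv_mem`). -/
theorem Ad_mem (Q : TQD G K W X) (φ : Module.Dual ℂ G.Lie) (D : G.Lie) :
    (fun k => φ (G.Ad k D)) ∈ G.O := by
  obtain ⟨f, hf⟩ := y4_eval Q φ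
  obtain ⟨ι, _, a, b, c, h⟩ := y4_dec f
  have h1 : (fun k => φ (G.Ad k D)) = fun k => (G.Ad k D).1 f := funext fun k => hf _
  rw [h1, y4_fun f D h]
  exact (∑ i, D.1 (b i) • (a i * y4_inv (c i)) : G.O).2

theorem y4_der (Q : TQD G K W X) (ψ : Module.Dual ℂ G.Lie) (D D' : G.Lie) :
    D'.1 (⟨fun k => ψ (G.Ad k D), Ad_mem Q ψ D⟩ : G.O) = ψ (G.br D' D) := by
  obtain ⟨f, hf⟩ := y4_eval Q ψ
  obtain ⟨ι, _, a, b, c, h⟩ := y4_dec f
  have h1 : (⟨fun k => ψ (G.Ad k D), Ad_mem Q ψ D⟩ : G.O) =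
      ∑ i, D.1 (b i) • (a i * y4_inv (c i)) := by
    apply Subtype.ext
    rw [← y4_fun f D h]
    exact funext fun k => hf _
  have h2 : G.der D f = ∑ i, (D.1 (b i) * (c i).1 1) • a i := by
    apply Subtype.ext
    funext x
    rw [AddSubmonoidClass.coe_finsetSum, Finset.sum_apply]
    have e1 : G.lt x f = ∑ i, ((a i).1 x * (c i).1 1) • b i := by
      apply Subtype.ext
      funext y
      rw [AddSubmonoidClass.coe_finsetSum, Finset.sum_apply]
      show f.1 (x * y) = ∑ i, ((a i).1 x * (c i).1 1) * (b i).1 y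
      have e2 := h x y 1
      rw [mul_one] at e2
      rw [e2]
      exact Finset.sum_congr rfl fun i _ => by ring
    show D.1 (G.lt x f) = ∑ i, (D.1 (b i) * (c i).1 1) * (a i).1 x
    rw [e1, map_sum]
    exact Finset.sum_congr rfl fun i _ => by rw [map_smul, smul_eq_mul]; ring
  have h3 : G.der D' f = ∑ i, ((a i).1 1 * D'.1 (c i)) • b i := by
    apply Subtype.ext
    funext x
    rw [AddSubmonoidClass.coe_finsetSum, Finset.sum_apply]
    have e1 : G.lt x f = ∑ i, ((a i).1 1 * (b i).1 x) • c i := by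
      apply Subtype.ext
      funext y
      rw [AddSubmonoidClass.coe_finsetSum, Finset.sum_apply]
      show f.1 (x * y) = ∑ i, ((a i).1 1 * (b i).1 x) * (c i).1 y
      have e2 := h 1 x y
      rw [one_mul] at e2
      rw [e2]
    show D'.1 (G.lt x f) = ∑ i, ((a i).1 1 * D'.1 (c i)) * (b i).1 x
    rw [e1, map_sum]
    exact Finset.sum_congr rfl fun i _ => by rw [map_smul, smul_eq_mul]; ring
  rw [hf]
  show _ = D'.1 (G.der D f) - D.1 (G.der D' f)
  rw [h1, h2, h3, map_sum, map_sum, map_sum, ← Finset.sum_sub_distrib]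
  refine Finset.sum_congr rfl fun i _ => ?_
  rw [map_smul, map_smul, map_smul, D'.2, y4_D_inv]
  have e1 : (y4_inv (c i)).1 1 = (c i).1 1 := by
    show (c i).1 1⁻¹ = _
    rw [inv_one]
  rw [e1]
  simp only [smul_eq_mul]
  ring

theorem y4_Ad_mul (k y : G.X) (D : G.Lie) : G.Ad (k * y) D = G.Ad k (G.Ad y D) := by
  apply Subtype.ext
  apply LinearMap.ext
  intro f
  show D.1 (G.cj (k * y) f) = D.1 (G.cj y (G.cj k f))
  congr 1
  apply Subtype.ext
  funext z
  show f.1 (k * y * z * (k * y)⁻¹) = f.1 (k * (y * z * y⁻¹) * k⁻¹)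
  group

theorem y4_der' (Q : TQD G K W X) (φ : Module.Dual ℂ G.Lie) (D D' : G.Lie) (k : G.X) :
    (G.der D' (⟨fun k => φ (G.Ad k D), Ad_mem Q φ D⟩ : G.O)).1 k = φ (G.Ad k (G.br D' D)) := by
  have h1 := y4_der Q (φ ∘ₗ G.Ad k) D D'
  rw [LinearMap.comp_apply] at h1
  rw [← h1]
  show D'.1 (G.lt k _) = _
  congr 1
  apply Subtype.ext
  funext y
  show φ (G.Ad (k * y) D) = φ (G.Ad k (G.Ad y D))
  rw [y4_Ad_mul]

theorem y4_ad_add (D D' : G.Lie) : G.ad (D + D') = G.ad D + G.ad D' := by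
  apply LinearMap.ext
  intro E
  apply Subtype.ext
  apply LinearMap.ext
  intro f
  have h : G.der (D + D') f = G.der D f + G.der D' f := rfl
  show (D + D').1 (G.der E f) - E.1 (G.der (D + D') f) = _
  rw [h, map_add]
  show D.1 (G.der E f) + D'.1 (G.der E f) - (E.1 (G.der D f) + E.1 (G.der D' f)) =
    D.1 (G.der E f) - E.1 (G.der D f) + (D'.1 (G.der E f) - E.1 (G.der D' f))
  ring

theorem y4_ad_smul (c : ℂ) (D : G.Lie) : G.ad (c • D) = c • G.ad D := by
  apply LinearMap.ext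
  intro E
  apply Subtype.ext
  apply LinearMap.ext
  intro f
  have h : G.der (c • D) f = c • G.der D f := rfl
  show (c • D).1 (G.der E f) - E.1 (G.der (c • D) f) = _
  rw [h, map_smul]
  show c * D.1 (G.der E f) - c * E.1 (G.der D f) = c * (D.1 (G.der E f) - E.1 (G.der D f))
  ring

/-- the functional `D ↦ κ(E, D)` -/
noncomputable def y4_kil (E : G.Lie) : Module.Dual ℂ G.Lie where
  toFun D := G.killing E D
  map_add' D D' := by
    unfold killing
    rw [y4_ad_add, LinearMap.comp_add, map_add]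
  map_smul' c D := by
    unfold killing
    rw [y4_ad_smul, LinearMap.comp_smul, map_smul, RingHom.id_apply]

/-- the matrix coefficient -/
noncomputable def y4_m (Q : TQD G K W X) (E : G.Lie) (l : Fin Q.r) : G.O :=
  ⟨fun k => y4_kil E (G.Ad k (Q.D l)), Ad_mem Q (y4_kil E) (Q.D l)⟩

theorem y4_eq (Q : TQD G K W X) (E : G.Lie) :
    (fun k => ∑ l, Q.c l * algebraMap ℂ K (G.killing E (G.Ad k (Q.D l)))) =
      (∑ l, Q.c l • inc K (y4_m Q E l) : G.KO K).1 := by
  funext k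
  rw [KO_sum]
  rfl

/-- `k ↦ κ(E, Ad_k s)` as an element of `KO`.  PROOF of membership: `Ad_mem` for the functional `killing E`. -/
theorem mu_mem (Q : TQD G K W X) (E : G.Lie) :
    (fun k => ∑ l, Q.c l * algebraMap ℂ K (G.killing E (G.Ad k (Q.D l)))) ∈ G.KO K := by
  rw [y4_eq]
  exact (∑ l, Q.c l • inc K (y4_m Q E l) : G.KO K).2

/-- It is regular and `W`-invariant (`hT.c_mem`, `hT.c_w`). -/
theorem mu_RI (hT : TQ Q) (E : G.Lie) : Q.RI (⟨_, mu_mem Q E⟩ : G.KO K) := by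
  refine ⟨fun k => ?_, fun w => ?_⟩
  · show ∑ l, Q.c l * algebraMap ℂ K (G.killing E (G.Ad k (Q.D l))) ∈ Q.A
    exact Q.A.sum_mem fun l _ => Q.A.mul_mem (hT.c_mem l) (Q.A.algebraMap_mem _)
  · apply KO_ext
    intro k
    rw [wO_apply]
    show w • (∑ l, Q.c l * algebraMap ℂ K (G.killing E (G.Ad k (Q.D l)))) =
      ∑ l, Q.c l * algebraMap ℂ K (G.killing E (G.Ad k (Q.D l)))
    rw [Finset.smul_sum]
    refine Finset.sum_congr rfl fun l _ => ?_
    rw [smul_mul', hT.c_w, smul_algebraMap]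

/-- It is killed by `s`.
PROOF. `(Q.s1 μ) k = ∑ j l, c j * c l * (derivative of k ↦ κ(E, Ad_k D_l) along D_j)`, and this derivative at `k` is `κ(E, Ad_k [D_j, D_l])`; the sum over `j, l` vanishes because
`c j * c l` is symmetric and the bracket antisymmetric.  The derivative: `k ↦ κ(E, Ad_k D)` is `k ↦ φ (G.Ad k D)`; `y ↦ φ (G.Ad (k y) D) = (φ ∘ Ad k) (G.Ad y D)`, so it is enough that a point
derivation `D'` at `1` applied to `y ↦ ψ (G.Ad y D)` gives `ψ (G.br D' D)`: for `ψ = (D ↦ D.1 f)`: `y ↦ D.1 (z ↦ f (y z y⁻¹))`; with `f (y z u) = ∑ a(y) b(z) c(u)` the function is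
`∑ a(y) D(b) c(y⁻¹)`, `D'` of it is `∑ D'(a) D(b) c(1) - ∑ a(1) D(b) D'(c)` (`D'(y ↦ c (y⁻¹)) = - D'(c)`, Leibniz applied to `c (y y⁻¹)`), and this is
`D'(y ↦ D(z ↦ f (y z))) - D(z ↦ D'(u ↦ f (z u))) = D'.1 (G.der D f) - D.1 (G.der D' f)`. -/
theorem mu_s (E : G.Lie) : Q.s1 (⟨_, mu_mem Q E⟩ : G.KO K) = 0 := by
  have h1 : (⟨_, mu_mem Q E⟩ : G.KO K) = ∑ l, Q.c l • inc K (y4_m Q E l) :=
    Subtype.ext (y4_eq Q E)
  rw [h1]
  apply KO_ext
  intro k
  have h2 : (Q.s1 (∑ l, Q.c l • inc K (y4_m Q E l))).1 k = ∑ j, ∑ l, Q.c j * Q.c l *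
      algebraMap ℂ K (y4_kil E (G.Ad k (G.br (Q.D j) (Q.D l)))) := by
    unfold TQD.s1
    rw [LinearMap.sum_apply, KO_sum]
    refine Finset.sum_congr rfl fun j _ => ?_
    rw [LinearMap.smul_apply, KO_smul, map_sum, KO_sum, Finset.mul_sum]
    refine Finset.sum_congr rfl fun l _ => ?_
    rw [map_smul, KO_smul, derK_inc, inc_apply]
    have h3 : (G.der (Q.D j) (y4_m Q E l)).1 k = y4_kil E (G.Ad k (G.br (Q.D j) (Q.D l))) :=
      y4_der' Q (y4_kil E) (Q.D l) (Q.D j) k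
    rw [h3]; ring
  rw [h2, KO_zero]
  have h4 : ∀ D D' : G.Lie, G.br D D' = - G.br D' D := by
    intro D D'
    apply Subtype.ext
    show D.1 ∘ₗ G.der D' - D'.1 ∘ₗ G.der D = -(D'.1 ∘ₗ G.der D - D.1 ∘ₗ G.der D')
    abel
  obtain ⟨Z, hZ⟩ : ∃ Z, Z = ∑ j, ∑ l, Q.c j * Q.c l *
      algebraMap ℂ K (y4_kil E (G.Ad k (G.br (Q.D j) (Q.D l)))) := ⟨_, rfl⟩
  have h5 : Z = -Z := by
    conv_lhs => rw [hZ, Finset.sum_comm]
    rw [hZ, ← Finset.sum_neg_distrib]
    refine Finset.sum_congr rfl fun j _ => ?_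
    rw [← Finset.sum_neg_distrib]
    refine Finset.sum_congr rfl fun l _ => ?_
    rw [h4 (Q.D l) (Q.D j), map_neg, map_neg, map_neg]
    ring
  rw [← hZ]
  have : CharZero K := charZero_of_injective_algebraMap (algebraMap ℂ K).injective
  have h6 : (2 : K) * Z = 0 := by linear_combination h5
  rcases mul_eq_zero.1 h6 with h7 | h7
  · exact absurd h7 two_ne_zero
  · exact h7

end

end Pool.Agent.MTF
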