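import Pool.Agent.MTF.P0a
import Pool.Agent.MTF.Y4

/-! # MTF, part P : the adjoint representation -/

set_option linter.unusedSectionVars false

namespace Pool.Agent.MTF

open AffGrp

section
variable {G : AffGrp} {K W X : Type} [Field K] [Algebra ℂ K] [Group W] [Fintype W]
  [MulSemiringAction W K] [SMulCommClass W ℂ K] [AddCommGroup X] [DistribMulAction W X]
variable {Q : TQD G K W X}

theorem pa1_one (D : G.Lie) : D.1 1 = 0 := by
  have h3 := D.2 1 1
  have h4 : (1 : G.O).1 1 = 1 := rfl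
  rw [mul_one, h4, one_mul] at h3
  exact left_eq_add.mp h3

/-- `f ∘ inverse` -/
def pa1_inv (f : G.O) : G.O := ⟨fun x => f.1 x⁻¹, G.inv_mem f.1 f.2⟩

theorem pa1_inv_apply (f : G.O) (x : G.X) : (pa1_inv f).1 x = f.1 x⁻¹ := rfl

theorem pa1_D_inv (D : G.Lie) (f : G.O) : D.1 (pa1_inv f) = - D.1 f := by
  obtain ⟨n, a, b, h⟩ := G.mul_mem f.1 f.2
  have e1 : (f.1 1) • (1 : G.O) = ∑ i, a i * pa1_inv (b i) := by
    apply AffGrp.O_ext
    intro x
    rw [AffGrp.O_sum, AffGrp.O_smul, AffGrp.O_one, mul_one]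
    have := h x x⁻¹
    rw [mul_inv_cancel] at this
    rw [this]
    rfl
  have e2 : f = ∑ i, (b i).1 1 • a i := by
    apply AffGrp.O_ext
    intro x
    rw [AffGrp.O_sum]
    have := h x 1
    rw [mul_one] at this
    rw [this]
    exact Finset.sum_congr rfl fun i _ => mul_comm _ _
  have e3 : pa1_inv f = ∑ i, (a i).1 1 • pa1_inv (b i) := by
    apply AffGrp.O_ext
    intro x
    rw [AffGrp.O_sum, pa1_inv_apply]
    have := h 1 x⁻¹
    rw [one_mul] at this
    rw [this]
    rfl
  have e4 := congrArg D.1 e1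
  rw [map_smul, pa1_one, smul_zero, map_sum] at e4
  have e5 : ∀ i, D.1 (a i * pa1_inv (b i)) =
      (a i).1 1 * D.1 (pa1_inv (b i)) + (b i).1 1 * D.1 (a i) := by
    intro i
    have := D.2 (a i) (pa1_inv (b i))
    rw [this, pa1_inv_apply, inv_one]
  simp only [e5, Finset.sum_add_distrib] at e4
  rw [e3, map_sum]
  simp only [map_smul, smul_eq_mul]
  have e6 : D.1 f = ∑ i, (b i).1 1 * D.1 (a i) := by
    conv_lhs => rw [e2]
    rw [map_sum]
    simp only [map_smul, smul_eq_mul]
  rw [e6]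
  exact eq_neg_of_add_eq_zero_left e4.symm

theorem pa1_func (Q : TQD G K W X) (φ : Module.Dual ℂ G.Lie) : ∃ f : G.O, ∀ D : G.Lie, φ D = D.1 f := by
  have hfin : Module.Finite ℂ G.Lie := Module.Finite.of_basis Q.D
  let T : G.O →ₗ[ℂ] Module.Dual ℂ G.Lie :=
    { toFun := fun f => { toFun := fun D => D.1 f, map_add' := fun _ _ => rfl, map_smul' := fun _ _ => rfl }
      map_add' := fun f g => by
        apply LinearMap.ext
        intro D
        exact map_add D.1 f g
      map_smul' := fun c f => by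
        apply LinearMap.ext
        intro D
        exact map_smul D.1 c f }
  have hT : Function.Injective T.dualMap := by
    rw [injective_iff_map_eq_zero]
    intro Φ hΦ
    obtain ⟨D, rfl⟩ := (Module.evalEquiv ℂ G.Lie).surjective Φ
    have hD : D = 0 := by
      apply G.Lie_ext
      intro f
      exact LinearMap.congr_fun hΦ f
    rw [hD, map_zero]
  obtain ⟨f, hf⟩ := (LinearMap.dualMap_injective_iff.1 hT) φ
  exact ⟨f, fun D => by rw [← hf]; rfl⟩

theorem pa1_der (f : G.O) (D D' : G.Lie) (F : G.O) (hF : ∀ k, F.1 k = (G.Ad k D).1 f) :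
    D'.1 F = (G.br D' D).1 f := by
  obtain ⟨n, a, b, h⟩ := G.mul_mem f.1 f.2
  have hb : ∀ i, ∃ (n : ℕ) (a' b' : Fin n → G.O), ∀ x y : G.X,
    (b i).1 (x * y) = ∑ j, (a' j).1 x * (b' j).1 y := fun i => G.mul_mem (b i).1 (b i).2
  choose m a' b' h' using hb
  have hcj : ∀ k, G.cj k f = ∑ i, ∑ j, ((a i).1 k * (b' i j).1 k⁻¹) • a' i j := by
    intro k
    apply AffGrp.O_ext
    intro y
    rw [AffGrp.O_sum]
    show f.1 (k * y * k⁻¹) = _
    rw [mul_assoc, h]
    refine Finset.sum_congr rfl fun i _ => ?_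
    rw [AffGrp.O_sum, h', Finset.mul_sum]
    refine Finset.sum_congr rfl fun j _ => ?_
    rw [AffGrp.O_smul]
    ring
  have eF : F = ∑ i, ∑ j, D.1 (a' i j) • (a i * pa1_inv (b' i j)) := by
    apply AffGrp.O_ext
    intro k
    rw [hF]
    show D.1 (G.cj k f) = _
    rw [hcj, map_sum, AffGrp.O_sum]
    refine Finset.sum_congr rfl fun i _ => ?_
    rw [map_sum, AffGrp.O_sum]
    refine Finset.sum_congr rfl fun j _ => ?_
    rw [map_smul, AffGrp.O_smul, AffGrp.O_mul, pa1_inv_apply, smul_eq_mul]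
    ring
  have e1 : ∀ i j, D'.1 (a i * pa1_inv (b' i j)) =
      - ((a i).1 1 * D'.1 (b' i j)) + (b' i j).1 1 * D'.1 (a i) := by
    intro i j
    have := D'.2 (a i) (pa1_inv (b' i j))
    rw [this, pa1_inv_apply, inv_one, pa1_D_inv, mul_neg]
  have e2 : G.der D f = ∑ i, ∑ j, (D.1 (a' i j) * (b' i j).1 1) • a i := by
    apply AffGrp.O_ext
    intro x
    rw [AffGrp.der_apply, AffGrp.O_sum]
    have : G.lt x f = ∑ i, ∑ j, ((a i).1 x * (b' i j).1 1) • a' i j := by
      apply AffGrp.O_ext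
      intro y
      rw [AffGrp.O_sum]
      show f.1 (x * y) = _
      rw [h]
      refine Finset.sum_congr rfl fun i _ => ?_
      have h2 := h' i y 1
      rw [mul_one] at h2
      rw [AffGrp.O_sum, h2, Finset.mul_sum]
      refine Finset.sum_congr rfl fun j _ => ?_
      rw [AffGrp.O_smul]
      ring
    rw [this, map_sum]
    refine Finset.sum_congr rfl fun i _ => ?_
    rw [map_sum, AffGrp.O_sum]
    refine Finset.sum_congr rfl fun j _ => ?_
    rw [map_smul, AffGrp.O_smul, smul_eq_mul]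
    ring
  have e3 : G.der D' f = ∑ i, ∑ j, ((a i).1 1 * D'.1 (b' i j)) • a' i j := by
    apply AffGrp.O_ext
    intro x
    rw [AffGrp.der_apply, AffGrp.O_sum]
    have : G.lt x f = ∑ i, ∑ j, ((a i).1 1 * (a' i j).1 x) • b' i j := by
      apply AffGrp.O_ext
      intro y
      rw [AffGrp.O_sum]
      show f.1 (x * y) = _
      have h1 := h 1 (x * y)
      rw [one_mul] at h1
      rw [h1]
      refine Finset.sum_congr rfl fun i _ => ?_
      rw [AffGrp.O_sum, h', Finset.mul_sum]
      refine Finset.sum_congr rfl fun j _ => ?_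
      rw [AffGrp.O_smul]
      ring
    rw [this, map_sum]
    refine Finset.sum_congr rfl fun i _ => ?_
    rw [map_sum, AffGrp.O_sum]
    refine Finset.sum_congr rfl fun j _ => ?_
    rw [map_smul, AffGrp.O_smul, smul_eq_mul]
    ring
  rw [AffGrp.br_apply, e2, e3, eF]
  simp only [map_sum, map_smul, smul_eq_mul, e1]
  rw [← Finset.sum_sub_distrib]
  refine Finset.sum_congr rfl fun i _ => ?_
  rw [← Finset.sum_sub_distrib]
  refine Finset.sum_congr rfl fun j _ => ?_
  ring

/-- [MTF-PA1] The derivative of a matrix coefficient of the adjoint representation.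
PROOF (see also the docstring of `mu_s` in Y4.lean). Both sides are linear in `φ`, and every functional on `G.Lie` is
`D ↦ D.1 f` for some `f : G.O` (finite dimension; proof in the docstring of `Ad_mem`, Y4).  For `φ = (D ↦ D.1 f)`:
`φ (G.Ad y D) = D.1 (z ↦ f (y z y⁻¹))`.  With `f (y z u) = ∑ a(y) b(z) c(u)` (`G.mul_mem` twice) this is `∑ a(y) D(b) c(y⁻¹)`,
and `D'` of it is `∑ D'(a) D(b) c(1) - ∑ a(1) D(b) D'(c)` (`D'(y ↦ c (y⁻¹)) = - D'(c)`: Leibniz rule applied to the
function `y ↦ c' (y y⁻¹)`, constant), which is `D'(y ↦ D(z ↦ f (y z))) - D(z ↦ D'(u ↦ f (z u))) = D'.1 (G.der D f) - D.1 (G.der D' f)`. -/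
theorem der_Ad (Q : TQD G K W X) (φ : Module.Dual ℂ G.Lie) (D D' : G.Lie) :
    D'.1 ⟨fun k => φ (G.Ad k D), Ad_mem Q φ D⟩ = φ (G.br D' D) := by
  obtain ⟨f, hf⟩ := pa1_func Q φ
  rw [hf]
  exact pa1_der f D D' _ fun k => hf _

/-- [MTF-PA1] The adjoint representation, in the basis `Q.D`.
PROOF of the two fields: `G.Ad 1 = id`, `G.Ad (x * y) = G.Ad x ∘ G.Ad y` (ext on functions, `mul_assoc`), `Q.D.sum_repr`. -/
noncomputable def adR (Q : TQD G K W X) : Rep G where
  ι := Fin Q.r
  ρ := {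
    toFun := fun x => Matrix.of fun a b => Q.D.repr (G.Ad x (Q.D b)) a
    map_one' := by
      ext a b
      have h : G.Ad 1 (Q.D b) = Q.D b := by
        apply G.Lie_ext
        intro f
        show (Q.D b).1 (G.cj 1 f) = _
        have h1 : G.cj 1 f = f := by
          apply AffGrp.O_ext
          intro y
          show f.1 (1 * y * 1⁻¹) = f.1 y
          rw [one_mul, inv_one, mul_one]
        rw [h1]
      rw [Matrix.of_apply, h, Module.Basis.repr_self, Finsupp.single_apply, Matrix.one_apply]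
      simp only [eq_comm]
    map_mul' := by
      intro x y
      ext a b
      have h : G.Ad (x * y) (Q.D b) = G.Ad x (G.Ad y (Q.D b)) := by
        apply G.Lie_ext
        intro f
        show (Q.D b).1 (G.cj (x * y) f) = (Q.D b).1 (G.cj y (G.cj x f))
        have h1 : G.cj (x * y) f = G.cj y (G.cj x f) := by
          apply AffGrp.O_ext
          intro z
          show f.1 (x * y * z * (x * y)⁻¹) = f.1 (x * (y * z * y⁻¹) * x⁻¹)
          rw [mul_inv_rev]
          simp only [mul_assoc]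
        rw [h1]
      rw [Matrix.of_apply, h, Matrix.mul_apply]
      have h2 := Q.D.sum_repr (G.Ad y (Q.D b))
      conv_lhs => rw [← h2]
      rw [map_sum, map_sum, Finsupp.finsetSum_apply]
      refine Finset.sum_congr rfl fun c _ => ?_
      rw [map_smul, map_smul, Finsupp.smul_apply, Matrix.of_apply, Matrix.of_apply, smul_eq_mul, mul_comm] }
  mem := fun a b => Ad_mem Q (Q.D.coord a) (Q.D b)

/-- [MTF-PA1] PROOF. `der_Ad` with `φ = Q.D.coord a`. -/
theorem adR_d (Q : TQD G K W X) (D : G.Lie) (a b : Fin Q.r) :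
    D.1 ((adR Q).co a b) = Q.D.repr (G.br D (Q.D b)) a := by
  exact der_Ad Q (Q.D.coord a) (Q.D b) D

/-- [MTF-PA1] `s` acts in the adjoint representation by the bracket. PROOF. `adR_d`, `TQD.stc`. -/
theorem adR_sE (Q : TQD G K W X) (z : Fin Q.r → K) : (Q.sE (adR Q)).mulVec z = Q.brK Q.c z := by
  funext a
  show ∑ b, (Q.sE (adR Q)) a b * z b = ∑ j, ∑ b, Q.stc j b a • (Q.c j * z b)
  rw [Finset.sum_comm]
  refine Finset.sum_congr rfl fun b _ => ?_
  show (∑ j, Q.c j * algebraMap ℂ K ((Q.D j).1 ((adR Q).co a b))) * z b = _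
  rw [Finset.sum_mul]
  refine Finset.sum_congr rfl fun j _ => ?_
  rw [adR_d, Algebra.smul_def]
  show _ = algebraMap ℂ K (Q.D.repr (G.br (Q.D j) (Q.D b)) a) * _
  ring

end

end Pool.Agent.MTF
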