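import Pool.Agent.MTF.P0a

/-! # MTF, part P : group inverses -/

set_option linter.unusedSectionVars false

namespace Pool.Agent.MTF

open AffGrp

section
variable {G : AffGrp} {K W X : Type} [Field K] [Algebra ℂ K] [Group W] [Fintype W]
  [MulSemiringAction W K] [SMulCommClass W ℂ K] [AddCommGroup X] [DistribMulAction W X]
variable {Q : TQD G K W X}

/-- [MTF-PA2] A diagonalisable matrix has a group inverse.
PROOF. We may assume `0 ∈ Ω` (otherwise replace `Ω` by `insert 0 Ω`; the product is multiplied by `X`).  Let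
`q = ∏ a ∈ Ω \ {0}, (X - C a)`, so `X * q` kills `T` and `q.eval 0 ≠ 0`.  The polynomial `1 - C (q.eval 0)⁻¹ * q` vanishes at `0`,
so it is `X * u`.  Put `p := X * u ^ 2`, `R := aeval T p`.  `T * R * T - T = aeval T (X * ((X * u) ^ 2 - 1))` and
`(X u)^2 - 1 = (X u - 1)(X u + 1) = - C (q.eval 0)⁻¹ * q * (X u + 1)`, a multiple of `q`: so it is `0`.  `R * T * R - R =
aeval T (X * u ^ 2 * ((X u)^2 - 1))`, a multiple of `X q`. -/
theorem exists_group_inverse {F : Type} [Field F] {n : ℕ} (T : Matrix (Fin n) (Fin n) F) (Ω : Finset F)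
    (h : Polynomial.aeval T (∏ a ∈ Ω, (Polynomial.X - Polynomial.C a)) = 0) :
    ∃ R : Matrix (Fin n) (Fin n) F, T * R = R * T ∧ T * R * T = T ∧ R * T * R = R := by
  classical
  set q : Polynomial F := ∏ a ∈ Ω.erase 0, (Polynomial.X - Polynomial.C a) with hq
  have hq0 : q.eval 0 ≠ 0 := by
    rw [hq, Polynomial.eval_prod]
    refine Finset.prod_ne_zero_iff.2 fun a ha => ?_
    rw [Polynomial.eval_sub, Polynomial.eval_X, Polynomial.eval_C, zero_sub]
    exact neg_ne_zero.2 (Finset.ne_of_mem_erase ha)
  have hkill : Polynomial.aeval T (Polynomial.X * q) = 0 := by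
    by_cases h0 : (0 : F) ∈ Ω
    · have h1 := Finset.mul_prod_erase Ω (fun a => Polynomial.X - Polynomial.C a) h0
      rw [← h1, Polynomial.C_0, sub_zero] at h
      exact h
    · rw [map_mul, hq, Finset.erase_eq_of_notMem h0, h, mul_zero]
  obtain ⟨u, hu⟩ : Polynomial.X ∣ (1 - Polynomial.C (q.eval 0)⁻¹ * q : Polynomial F) := by
    rw [Polynomial.X_dvd_iff, Polynomial.coeff_zero_eq_eval_zero, Polynomial.eval_sub,
      Polynomial.eval_one, Polynomial.eval_mul, Polynomial.eval_C, inv_mul_cancel₀ hq0, sub_self]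
  have hX : Polynomial.aeval T (Polynomial.X : Polynomial F) = T := Polynomial.aeval_X T
  refine ⟨Polynomial.aeval T (Polynomial.X * u ^ 2), ?_, ?_, ?_⟩
  · have h1 : Polynomial.aeval T (Polynomial.X * (Polynomial.X * u ^ 2)) =
        Polynomial.aeval T ((Polynomial.X * u ^ 2) * Polynomial.X) := by rw [mul_comm]
    rw [map_mul (Polynomial.aeval T) Polynomial.X (Polynomial.X * u ^ 2),
      map_mul (Polynomial.aeval T) (Polynomial.X * u ^ 2) Polynomial.X, hX] at h1
    exact h1
  · have e : (Polynomial.X * (Polynomial.X * u ^ 2) * Polynomial.X : Polynomial F) =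
        Polynomial.X + (Polynomial.X * q) *
          (-(Polynomial.C (q.eval 0)⁻¹ * (Polynomial.X * u + 1))) := by
      linear_combination (-(Polynomial.X * (Polynomial.X * u + 1))) * hu
    have h1 := congrArg (Polynomial.aeval T) e
    rw [map_add, map_mul _ (Polynomial.X * q), hkill, zero_mul, add_zero] at h1
    rw [map_mul _ (Polynomial.X * (Polynomial.X * u ^ 2)), map_mul _ Polynomial.X
      (Polynomial.X * u ^ 2), hX] at h1
    exact h1
  · have e : ((Polynomial.X * u ^ 2) * Polynomial.X * (Polynomial.X * u ^ 2) : Polynomial F) =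
        Polynomial.X * u ^ 2 + (Polynomial.X * q) *
          (-(Polynomial.C (q.eval 0)⁻¹ * (Polynomial.X * u + 1) * u ^ 2)) := by
      linear_combination (-(Polynomial.X * (Polynomial.X * u + 1) * u ^ 2)) * hu
    have h1 := congrArg (Polynomial.aeval T) e
    rw [map_add, map_mul _ (Polynomial.X * q), hkill, zero_mul, add_zero] at h1
    rw [map_mul _ ((Polynomial.X * u ^ 2) * Polynomial.X), map_mul _ (Polynomial.X * u ^ 2)
      Polynomial.X, hX] at h1
    exact h1

/-- [MTF-PA2] Uniqueness.
PROOF. `e = T R = R T`, `e' = T S = S T`.  `e = T R = T S T R = e' e`, `e' = T S = T R T S = e e'`; also `e = R T = R T S T = e e'`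
(as `R T S T = R (T S T) = R T`), so `e = e'`.  `R = R T R = R e = R e' = R T S = e S = e' S = S T S = S`. -/
theorem group_inverse_unique {A : Type} [Ring A] {T R S : A} (h1 : T * R = R * T) (h2 : T * R * T = T)
    (h3 : R * T * R = R) (h1' : T * S = S * T) (h2' : T * S * T = T) (h3' : S * T * S = S) : R = S := by
  have a1 : T * R = T * S * (T * R) := by
    rw [← mul_assoc, h2']
  have a2 : T * R = T * R * (T * S) := by
    calc T * R = R * T := h1
      _ = R * (T * S * T) := by rw [h2']
      _ = (R * T) * (S * T) := by simp only [mul_assoc]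
      _ = T * R * (T * S) := by rw [← h1, ← h1']
  have a3 : T * S = T * R * (T * S) := by
    rw [← mul_assoc, h2]
  have e : T * R = T * S := a2.trans a3.symm
  calc R = R * T * R := h3.symm
    _ = R * (T * S) := by rw [mul_assoc, e]
    _ = T * S * S := by rw [← mul_assoc, ← h1, e]
    _ = S := by rw [h1', h3']

end

end Pool.Agent.MTF
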