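import Pool.Agent.MTF.P0a

/-! # MTF, part P : the Killing form in coordinates -/

set_option linter.unusedSectionVars false

namespace Pool.Agent.MTF

open AffGrp

section
variable {G : AffGrp} {K W X : Type} [Field K] [Algebra ℂ K] [Group W] [Fintype W]
  [MulSemiringAction W K] [SMulCommClass W ℂ K] [AddCommGroup X] [DistribMulAction W X]
variable {Q : TQD G K W X}

theorem pa4_br (a b : Fin Q.r) : ⁅Q.D a, Q.D b⁆ = ∑ c, Q.stc a b c • Q.D c :=
  (Q.D.sum_repr (G.br (Q.D a) (Q.D b))).symm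

theorem pa4_repr (a b p : Fin Q.r) : Q.D.repr ⁅Q.D a, Q.D b⁆ p = Q.stc a b p := rfl

theorem pa4_repr2 (a b c p : Fin Q.r) :
    Q.D.repr ⁅⁅Q.D a, Q.D b⁆, Q.D c⁆ p = ∑ l, Q.stc a b l * Q.stc l c p := by
  rw [pa4_br, sum_lie, map_sum, Finsupp.finsetSum_apply]
  refine Finset.sum_congr rfl fun l _ => ?_
  rw [smul_lie, map_smul, Finsupp.smul_apply, pa4_repr, smul_eq_mul]

theorem pa4_kap (a b : Fin Q.r) : Q.kap a b = killingForm ℂ G.Lie (Q.D a) (Q.D b) :=
  G.killing_eq _ _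

theorem pa4_comm4 {ι M : Type} [Fintype ι] [AddCommMonoid M] (F : ι → ι → ι → ι → M) :
    ∑ l, ∑ c, ∑ a, ∑ b, F l c a b = ∑ a, ∑ b, ∑ c, ∑ l, F l c a b := by
  rw [Finset.sum_congr rfl fun l _ => Finset.sum_comm, Finset.sum_comm]
  refine Finset.sum_congr rfl fun a _ => ?_
  rw [Finset.sum_congr rfl fun l _ => Finset.sum_comm, Finset.sum_comm]
  exact Finset.sum_congr rfl fun b _ => Finset.sum_comm

/-- [MTF-PA4] PROOF. `killing_eq`, symmetry of `killingForm` (`LieModule.traceForm_comm`). -/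
theorem kap_symm (a b : Fin Q.r) : Q.kap a b = Q.kap b a := by
  rw [pa4_kap, pa4_kap, LieModule.traceForm_comm]

/-- [MTF-PA4] PROOF. `lie_skew`. -/
theorem stc_skew (a b c : Fin Q.r) : Q.stc a b c = - Q.stc b a c := by
  rw [← pa4_repr, ← lie_skew (Q.D a) (Q.D b), map_neg, Finsupp.neg_apply, pa4_repr]

/-- [MTF-PA4] PROOF. `G.br (Q.D a) (Q.D b) = ∑ c, stc a b c • Q.D c` (`Q.D.sum_repr`) and the Jacobi identity (`lie_jacobi`). -/
theorem stc_jac (a b c p : Fin Q.r) : ∑ l, (Q.stc a b l * Q.stc l c p + Q.stc b c l * Q.stc l a p +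
    Q.stc c a l * Q.stc l b p) = 0 := by
  rw [Finset.sum_add_distrib, Finset.sum_add_distrib, ← pa4_repr2, ← pa4_repr2, ← pa4_repr2,
    ← Finsupp.add_apply, ← map_add, ← Finsupp.add_apply, ← map_add]
  have h : ⁅⁅Q.D a, Q.D b⁆, Q.D c⁆ + ⁅⁅Q.D b, Q.D c⁆, Q.D a⁆ + ⁅⁅Q.D c, Q.D a⁆, Q.D b⁆ = 0 := by
    have h1 := lie_jacobi (Q.D a) (Q.D b) (Q.D c)
    rw [← lie_skew (Q.D a) ⁅Q.D b, Q.D c⁆, ← lie_skew (Q.D b) ⁅Q.D c, Q.D a⁆,
      ← lie_skew (Q.D c) ⁅Q.D a, Q.D b⁆] at h1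
    have h2 : ⁅⁅Q.D a, Q.D b⁆, Q.D c⁆ + ⁅⁅Q.D b, Q.D c⁆, Q.D a⁆ + ⁅⁅Q.D c, Q.D a⁆, Q.D b⁆ =
        -(-⁅⁅Q.D b, Q.D c⁆, Q.D a⁆ + -⁅⁅Q.D c, Q.D a⁆, Q.D b⁆ + -⁅⁅Q.D a, Q.D b⁆, Q.D c⁆) := by
      abel
    rw [h2, h1, neg_zero]
  rw [h, map_zero]
  rfl

section
variable {R : Type} [CommRing R] [Algebra ℂ R]

theorem pa4_left (f : Fin Q.r → Fin Q.r → ℂ) (g : Fin Q.r → Fin Q.r → Fin Q.r → ℂ)
    (x y z : Fin Q.r → R) :
    ∑ l, ∑ c, f l c • ((∑ a, ∑ b, g a b l • (x a * y b)) * z c) =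
      ∑ a, ∑ b, ∑ c, (∑ l, g a b l * f l c) • (x a * y b * z c) := by
  have h : ∀ l c, f l c • ((∑ a, ∑ b, g a b l • (x a * y b)) * z c) =
      ∑ a, ∑ b, (g a b l * f l c) • (x a * y b * z c) := by
    intro l c
    rw [Finset.sum_mul, Finset.smul_sum]
    refine Finset.sum_congr rfl fun a _ => ?_
    rw [Finset.sum_mul, Finset.smul_sum]
    refine Finset.sum_congr rfl fun b _ => ?_
    rw [smul_mul_assoc, smul_smul, mul_comm (f l c)]
  rw [Finset.sum_congr rfl fun l _ => Finset.sum_congr rfl fun c _ => h l c, pa4_comm4]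
  refine Finset.sum_congr rfl fun a _ => Finset.sum_congr rfl fun b _ =>
    Finset.sum_congr rfl fun c _ => ?_
  rw [Finset.sum_smul]

theorem pa4_right (f : Fin Q.r → Fin Q.r → ℂ) (g : Fin Q.r → Fin Q.r → Fin Q.r → ℂ)
    (x y z : Fin Q.r → R) :
    ∑ b, ∑ l, f b l • (y b * ∑ a, ∑ c, g a c l • (x a * z c)) =
      ∑ a, ∑ b, ∑ c, (∑ l, g a c l * f b l) • (x a * y b * z c) := by
  have h := pa4_left (Q := Q) (fun l b => f b l) g x z y
  have e1 : ∑ b, ∑ l, f b l • (y b * ∑ a, ∑ c, g a c l • (x a * z c)) =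
      ∑ l, ∑ b, f b l • ((∑ a, ∑ c, g a c l • (x a * z c)) * y b) := by
    rw [Finset.sum_comm]
    refine Finset.sum_congr rfl fun l _ => Finset.sum_congr rfl fun b _ => ?_
    rw [mul_comm (y b)]
  rw [e1, h]
  refine Finset.sum_congr rfl fun a _ => ?_
  rw [Finset.sum_comm]
  refine Finset.sum_congr rfl fun b _ => Finset.sum_congr rfl fun c _ => ?_
  rw [mul_right_comm]

theorem pa4_right' (f : Fin Q.r → Fin Q.r → ℂ) (g : Fin Q.r → Fin Q.r → Fin Q.r → ℂ)
    (x y z : Fin Q.r → R) :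
    ∑ a, ∑ l, f a l • (x a * ∑ b, ∑ c, g b c l • (y b * z c)) =
      ∑ a, ∑ b, ∑ c, (∑ l, g b c l * f a l) • (x a * y b * z c) := by
  rw [pa4_right, Finset.sum_comm]
  refine Finset.sum_congr rfl fun a _ => Finset.sum_congr rfl fun b _ =>
    Finset.sum_congr rfl fun c _ => ?_
  rw [mul_comm (y b)]

theorem pa4_stc3 (a b c : Fin Q.r) :
    ∑ l, Q.stc a b l * Q.kap l c = - ∑ l, Q.stc a c l * Q.kap b l := by
  have h1 : ∑ l, Q.stc a b l * Q.kap l c = killingForm ℂ G.Lie ⁅Q.D a, Q.D b⁆ (Q.D c) := by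
    rw [pa4_br, map_sum, LinearMap.sum_apply]
    refine Finset.sum_congr rfl fun l _ => ?_
    rw [map_smul, LinearMap.smul_apply, smul_eq_mul, pa4_kap]
  have h2 : ∑ l, Q.stc a c l * Q.kap b l = killingForm ℂ G.Lie (Q.D b) ⁅Q.D a, Q.D c⁆ := by
    rw [pa4_br, map_sum]
    refine Finset.sum_congr rfl fun l _ => ?_
    rw [map_smul, smul_eq_mul, pa4_kap]
  rw [h1, h2, ← LieModule.traceForm_apply_lie_apply, ← lie_skew (Q.D a) (Q.D b), map_neg,
    LinearMap.neg_apply]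

theorem pa4_jac (a b c p : Fin Q.r) : ∑ l, Q.stc b c l * Q.stc a l p =
    ∑ l, Q.stc a b l * Q.stc l c p + ∑ l, Q.stc a c l * Q.stc b l p := by
  have h := stc_jac (Q := Q) a b c p
  rw [Finset.sum_add_distrib, Finset.sum_add_distrib] at h
  have h1 : ∑ l, Q.stc b c l * Q.stc l a p = - ∑ l, Q.stc b c l * Q.stc a l p := by
    rw [← Finset.sum_neg_distrib]
    refine Finset.sum_congr rfl fun l _ => ?_
    rw [stc_skew l a p]
    ring
  have h2 : ∑ l, Q.stc c a l * Q.stc l b p = ∑ l, Q.stc a c l * Q.stc b l p := by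
    refine Finset.sum_congr rfl fun l _ => ?_
    rw [stc_skew l b p, stc_skew c a l]
    ring
  rw [h1, h2] at h
  linear_combination -h

theorem pa4_inj (hk : ∀ D, (∀ E, G.killing D E = 0) → D = 0) (v : Fin Q.r → ℂ)
    (hv : ∀ a, ∑ b, Q.kap b a * v b = 0) : v = 0 := by
  have h1 : ∀ a, killingForm ℂ G.Lie (∑ b, v b • Q.D b) (Q.D a) = 0 := by
    intro a
    rw [map_sum, LinearMap.sum_apply, ← hv a]
    refine Finset.sum_congr rfl fun b _ => ?_
    rw [map_smul, LinearMap.smul_apply, smul_eq_mul, pa4_kap, mul_comm]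
  have h2 : ∑ b, v b • Q.D b = 0 := by
    refine hk _ fun E => ?_
    rw [G.killing_eq, ← Q.D.sum_repr E, map_sum]
    refine Finset.sum_eq_zero fun a _ => ?_
    rw [map_smul, h1, smul_zero]
  have h3 := Fintype.linearIndependent_iff.1 Q.D.linearIndependent v h2
  funext b
  exact h3 b

theorem pa4_inv (hk : ∀ D, (∀ E, G.killing D E = 0) → D = 0) :
    ∃ N : Matrix (Fin Q.r) (Fin Q.r) ℂ, (∀ a b, ∑ c, N a c * Q.kap b c = if a = b then 1 else 0) ∧
      ∀ a c, ∑ b, Q.kap b a * N b c = if a = c then 1 else 0 := by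
  obtain ⟨M, hM⟩ : ∃ M : Matrix (Fin Q.r) (Fin Q.r) ℂ, ∀ a b, M a b = Q.kap b a :=
    ⟨fun a b => Q.kap b a, fun _ _ => rfl⟩
  have hinj : Function.Injective M.mulVec := by
    intro v w h
    have h1 : v - w = 0 := by
      refine pa4_inj (Q := Q) hk _ fun a => ?_
      have h2 := congrFun h a
      have h3 : (M.mulVec (v - w)) a = 0 := by
        rw [Matrix.mulVec_sub, Pi.sub_apply, h2, sub_self]
      rw [← h3]
      refine Finset.sum_congr rfl fun b _ => ?_
      show Q.kap b a * (v - w) b = M a b * (v - w) b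
      rw [hM]
    exact sub_eq_zero.1 h1
  have hu : IsUnit M := Matrix.mulVec_injective_iff_isUnit.1 hinj
  obtain ⟨U, hU⟩ := hu
  refine ⟨((U⁻¹ : (Matrix (Fin Q.r) (Fin Q.r) ℂ)ˣ) : Matrix (Fin Q.r) (Fin Q.r) ℂ), ?_, ?_⟩
  · intro a b
    have h := congrFun (congrFun U.inv_mul a) b
    rw [hU, Matrix.mul_apply, Matrix.one_apply] at h
    rw [← h]
    refine Finset.sum_congr rfl fun c _ => ?_
    rw [hM]
  · intro a c
    have h := congrFun (congrFun U.mul_inv a) c
    rw [hU, Matrix.mul_apply, Matrix.one_apply] at h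
    rw [← h]
    refine Finset.sum_congr rfl fun b _ => ?_
    rw [hM]

/-- [MTF-PA4] -/
theorem kapK_symm (z z' : Fin Q.r → R) : Q.kapK z z' = Q.kapK z' z := by
  unfold TQD.kapK
  rw [Finset.sum_comm]
  refine Finset.sum_congr rfl fun a _ => Finset.sum_congr rfl fun b _ => ?_
  rw [kap_symm b a, mul_comm]

/-- [MTF-PA4] PROOF. definitions, `Finset.sum_comm`. -/
theorem kapK_flat (z z' : Fin Q.r → R) : Q.kapK z z' = ∑ a, Q.flat z a * z' a := by
  unfold TQD.kapK TQD.flat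
  rw [Finset.sum_comm]
  refine Finset.sum_congr rfl fun a _ => ?_
  rw [Finset.sum_mul]
  refine Finset.sum_congr rfl fun b _ => ?_
  rw [smul_mul_assoc]

/-- [MTF-PA4] -/
theorem brK_skew (z z' : Fin Q.r → R) : Q.brK z z' = - Q.brK z' z := by
  funext c
  rw [Pi.neg_apply]
  unfold TQD.brK
  rw [Finset.sum_comm, ← Finset.sum_neg_distrib]
  refine Finset.sum_congr rfl fun a _ => ?_
  rw [← Finset.sum_neg_distrib]
  refine Finset.sum_congr rfl fun b _ => ?_
  rw [stc_skew b a, mul_comm, neg_smul]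

/-- [MTF-PA4] -/
theorem brK_self (z : Fin Q.r → R) : Q.brK z z = 0 := by
  have h := brK_skew (Q := Q) z z
  have h1 : (2 : ℂ) • Q.brK z z = 0 := by
    rw [two_smul]
    nth_rewrite 1 [h]
    exact neg_add_cancel _
  calc Q.brK z z = ((1 / 2 : ℂ) * 2) • Q.brK z z := by
        norm_num
    _ = 0 := by rw [mul_smul, h1, smul_zero]

/-- [MTF-PA4] invariance of the Killing form. PROOF. `LieModule.traceForm_apply_lie_apply` for basis elements:
`∑ l, stc a b l * kap l c = - ∑ l, stc a c l * kap b l`; then expand. -/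
theorem kapK_inv (x y z : Fin Q.r → R) : Q.kapK (Q.brK x y) z = - Q.kapK y (Q.brK x z) := by
  unfold TQD.kapK TQD.brK
  rw [pa4_left, pa4_right, ← Finset.sum_neg_distrib]
  refine Finset.sum_congr rfl fun a _ => ?_
  rw [← Finset.sum_neg_distrib]
  refine Finset.sum_congr rfl fun b _ => ?_
  rw [← Finset.sum_neg_distrib]
  refine Finset.sum_congr rfl fun c _ => ?_
  rw [pa4_stc3, neg_smul]

/-- [MTF-PA4] the Jacobi identity. -/
theorem brK_jac (x y z : Fin Q.r → R) :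
    Q.brK x (Q.brK y z) = Q.brK (Q.brK x y) z + Q.brK y (Q.brK x z) := by
  funext p
  rw [Pi.add_apply]
  unfold TQD.brK
  rw [pa4_left (Q := Q) (fun l c => Q.stc l c p) (fun a b l => Q.stc a b l) x y z,
    pa4_right (Q := Q) (fun b l => Q.stc b l p) (fun a c l => Q.stc a c l) x y z,
    pa4_right' (Q := Q) (fun a l => Q.stc a l p) (fun b c l => Q.stc b c l) x y z,
    ← Finset.sum_add_distrib]
  refine Finset.sum_congr rfl fun a _ => ?_
  rw [← Finset.sum_add_distrib]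
  refine Finset.sum_congr rfl fun b _ => ?_
  rw [← Finset.sum_add_distrib]
  refine Finset.sum_congr rfl fun c _ => ?_
  rw [← add_smul, pa4_jac]

/-- [MTF-PA4] bilinearity -/
theorem brK_add (x y z : Fin Q.r → R) : Q.brK x (y + z) = Q.brK x y + Q.brK x z := by
  funext c
  rw [Pi.add_apply]
  unfold TQD.brK
  rw [← Finset.sum_add_distrib]
  refine Finset.sum_congr rfl fun a _ => ?_
  rw [← Finset.sum_add_distrib]
  refine Finset.sum_congr rfl fun b _ => ?_
  rw [Pi.add_apply, mul_add, smul_add]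

theorem brK_smul (a : R) (x y : Fin Q.r → R) : Q.brK x (a • y) = a • Q.brK x y := by
  funext c
  rw [Pi.smul_apply]
  unfold TQD.brK
  rw [Finset.smul_sum]
  refine Finset.sum_congr rfl fun a' _ => ?_
  rw [Finset.smul_sum]
  refine Finset.sum_congr rfl fun b _ => ?_
  rw [Pi.smul_apply, smul_eq_mul, smul_eq_mul, mul_smul_comm, mul_left_comm]

theorem flat_add (x y : Fin Q.r → R) : Q.flat (x + y) = Q.flat x + Q.flat y := by
  funext a
  rw [Pi.add_apply]
  unfold TQD.flat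
  rw [← Finset.sum_add_distrib]
  refine Finset.sum_congr rfl fun b _ => ?_
  rw [Pi.add_apply, smul_add]

theorem flat_smul (a : R) (x : Fin Q.r → R) : Q.flat (a • x) = a • Q.flat x := by
  funext b
  rw [Pi.smul_apply]
  unfold TQD.flat
  rw [Finset.smul_sum]
  refine Finset.sum_congr rfl fun b _ => ?_
  rw [Pi.smul_apply, smul_eq_mul, smul_eq_mul, mul_smul_comm]

/-- [MTF-PA4] The Killing form is nondegenerate: `z` is determined by `flat z`, and every covector is a `flat z`.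
PROOF. `hk` says that the complex matrix `kap` is invertible (`Matrix.mulVec` injective: for complex `x` with
`∑ b, kap b a x b = 0` put `D = ∑ x b • Q.D b`).  Multiply by the inverse matrix (entries acting by `•`). -/
theorem flat_injective (hk : ∀ D, (∀ E, G.killing D E = 0) → D = 0) {z : Fin Q.r → R}
    (h : Q.flat z = 0) : z = 0 := by
  obtain ⟨N, hN1, hN2⟩ := pa4_inv (Q := Q) hk
  funext a
  have h1 : z a = ∑ b, (∑ c, N a c * Q.kap b c) • z b := by
    rw [Finset.sum_eq_single a]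
    · rw [hN1, if_pos rfl, one_smul]
    · intro b _ hb
      rw [hN1, if_neg (Ne.symm hb), zero_smul]
    · intro h
      exact absurd (Finset.mem_univ a) h
  have h2 : ∑ b, (∑ c, N a c * Q.kap b c) • z b = ∑ c, N a c • Q.flat z c := by
    unfold TQD.flat
    rw [Finset.sum_congr rfl fun b _ => Finset.sum_smul, Finset.sum_comm]
    refine Finset.sum_congr rfl fun c _ => ?_
    rw [Finset.smul_sum]
    refine Finset.sum_congr rfl fun b _ => ?_
    rw [smul_smul]
  rw [h1, h2, h]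
  exact Finset.sum_eq_zero fun c _ => smul_zero _

theorem flat_surjective (hk : ∀ D, (∀ E, G.killing D E = 0) → D = 0) (α : Fin Q.r → R) :
    ∃ z : Fin Q.r → R, Q.flat z = α := by
  obtain ⟨N, hN1, hN2⟩ := pa4_inv (Q := Q) hk
  refine ⟨fun b => ∑ c, N b c • α c, ?_⟩
  funext a
  have h1 : α a = ∑ c, (∑ b, Q.kap b a * N b c) • α c := by
    rw [Finset.sum_eq_single a]
    · rw [hN2, if_pos rfl, one_smul]
    · intro b _ hb
      rw [hN2, if_neg (Ne.symm hb), zero_smul]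
    · intro h
      exact absurd (Finset.mem_univ a) h
  rw [h1]
  unfold TQD.flat
  rw [Finset.sum_congr rfl fun c _ => Finset.sum_smul]
  rw [Finset.sum_comm]
  refine Finset.sum_congr rfl fun b _ => ?_
  rw [Finset.smul_sum]
  refine Finset.sum_congr rfl fun c _ => ?_
  rw [smul_smul]

end

end

end Pool.Agent.MTF
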