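import Pool.Agent.MTF.PA1
import Pool.Agent.MTF.PA2
import Pool.Agent.MTF.PA4

/-! # MTF, part P : the matrix rho -/

set_option linter.unusedSectionVars false

namespace Pool.Agent.MTF

open AffGrp

section
variable {F : Type} [Field F] {n : ℕ}

theorem pa3_NT {M N : Matrix (Fin n) (Fin n) F} (hMN : M * N = 1) (hNM : N * M = 1)
    (hMs : M.transpose = M) : N.transpose = N := by
  have h1 : N.transpose * M = 1 := by
    have h2 := congrArg Matrix.transpose hMN
    rw [Matrix.transpose_mul, hMs, Matrix.transpose_one] at h2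
    exact h2
  calc N.transpose = N.transpose * (M * N) := by rw [hMN, mul_one]
    _ = N := by rw [← mul_assoc, h1, one_mul]

theorem pa3_MRN {T M N R : Matrix (Fin n) (Fin n) F} (hMN : M * N = 1) (hNM : N * M = 1)
    (hMT : M * T = -(T.transpose * M)) (h1 : T * R = R * T)
    (h2 : T * R * T = T) (h3 : R * T * R = R) : M * T * N = -T.transpose ∧ M * R * N = -R.transpose := by
  have h4 : M * T * N = -T.transpose := by
    rw [hMT, neg_mul, mul_assoc, hMN, mul_one]
  refine ⟨h4, ?_⟩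
  have hc : ∀ A B : Matrix (Fin n) (Fin n) F, (M * A * N) * (M * B * N) = M * (A * B) * N := by
    intro A B
    calc (M * A * N) * (M * B * N) = M * A * (N * M) * (B * N) := by
          simp only [mul_assoc]
      _ = M * (A * B) * N := by rw [hNM, mul_one]; simp only [mul_assoc]
  refine group_inverse_unique (T := -T.transpose) ?_ ?_ ?_ ?_ ?_ ?_
  · rw [← h4, hc, hc, h1]
  · rw [← h4, hc, hc, h2]
  · rw [← h4, hc, hc, h3]
  · rw [neg_mul_neg, neg_mul_neg, ← Matrix.transpose_mul, ← Matrix.transpose_mul, h1]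
  · rw [neg_mul_neg, mul_neg, ← Matrix.transpose_mul, ← Matrix.transpose_mul, ← mul_assoc, h2]
  · rw [neg_mul_neg, mul_neg, ← Matrix.transpose_mul, ← Matrix.transpose_mul, ← mul_assoc, h3]

theorem pa3_skew {T M N R : Matrix (Fin n) (Fin n) F} (hMN : M * N = 1) (hNM : N * M = 1)
    (hMs : M.transpose = M) (hMT : M * T = -(T.transpose * M)) (h1 : T * R = R * T)
    (h2 : T * R * T = T) (h3 : R * T * R = R) : (R * N).transpose = -(R * N) := by
  have h4 := (pa3_MRN hMN hNM hMT h1 h2 h3).2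
  rw [Matrix.transpose_mul, pa3_NT hMN hNM hMs]
  have h5 : R.transpose = -(M * R * N) := by rw [h4, neg_neg]
  rw [h5, mul_neg, ← mul_assoc, ← mul_assoc, hNM, one_mul]

theorem pa3_im {T M N R : Matrix (Fin n) (Fin n) F} (hMN : M * N = 1) (hNM : N * M = 1)
    (hMT : M * T = -(T.transpose * M)) (h1 : T * R = R * T)
    (h2 : T * R * T = T) (h3 : R * T * R = R) (α : Fin n → F)
    (hα : ∀ z, T.mulVec z = 0 → ∑ a, α a * z a = 0) :
    M.mulVec (T.mulVec ((R * N).mulVec α)) = α := by
  obtain ⟨h4, h5⟩ := pa3_MRN hMN hNM hMT h1 h2 h3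
  have h6 : M * T * (R * N) = (R * T).transpose := by
    calc M * T * (R * N) = M * T * (N * M) * R * N := by rw [hNM, mul_one]; simp only [mul_assoc]
      _ = (M * T * N) * (M * R * N) := by simp only [mul_assoc]
      _ = (R * T).transpose := by rw [h4, h5, neg_mul_neg, Matrix.transpose_mul]
  rw [Matrix.mulVec_mulVec, Matrix.mulVec_mulVec, h6, Matrix.mulVec_transpose]
  have h7 : ∀ z, T.mulVec (z - (R * T).mulVec z) = 0 := by
    intro z
    rw [Matrix.mulVec_sub, Matrix.mulVec_mulVec, ← mul_assoc, h2, sub_self]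
  funext i
  have h8 := hα _ (h7 (Pi.single i 1))
  have h9 : ∑ a, α a * (Pi.single i 1 - (R * T).mulVec (Pi.single i 1) : Fin n → F) a =
      α i - Matrix.vecMul α (R * T) i := by
    have h10 : ∀ a, α a * (Pi.single i 1 - (R * T).mulVec (Pi.single i 1) : Fin n → F) a =
        α a * (Pi.single i 1 : Fin n → F) a - α a * (R * T) a i := by
      intro a
      rw [Pi.sub_apply, mul_sub, Matrix.mulVec_single_one]
      rfl
    rw [Finset.sum_congr rfl fun a _ => h10 a, Finset.sum_sub_distrib]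
    congr 1
    rw [Finset.sum_eq_single i]
    · rw [Pi.single_eq_same, mul_one]
    · intro b _ hb
      rw [Pi.single_eq_of_ne hb, mul_zero]
    · intro h
      exact absurd (Finset.mem_univ i) h
  rw [h9] at h8
  exact (sub_eq_zero.1 h8).symm

theorem pa3_ker {T M N R : Matrix (Fin n) (Fin n) F} (hNM : N * M = 1) (h1 : T * R = R * T)
    (h3 : R * T * R = R) (z : Fin n → F) (hz : T.mulVec z = 0) :
    (R * N).mulVec (M.mulVec z) = 0 := by
  rw [Matrix.mulVec_mulVec, mul_assoc, hNM, mul_one, ← h3, mul_assoc, h1, ← mul_assoc,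
    ← Matrix.mulVec_mulVec, hz, Matrix.mulVec_zero]

theorem pa3_ext {A B : Matrix (Fin n) (Fin n) F}
    (h : ∀ y z : Fin n → F, ∑ a, y a * (A.mulVec z) a = ∑ a, y a * (B.mulVec z) a) : A = B := by
  ext i j
  have h1 := h (Pi.single i 1) (Pi.single j 1)
  have h2 : ∀ C : Matrix (Fin n) (Fin n) F,
      ∑ a, (Pi.single i 1 : Fin n → F) a * (C.mulVec (Pi.single j 1)) a = C i j := by
    intro C
    rw [Finset.sum_eq_single i]
    · rw [Pi.single_eq_same, one_mul, Matrix.mulVec_single_one]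
      rfl
    · intro b _ hb
      rw [Pi.single_eq_of_ne hb, zero_mul]
    · intro h
      exact absurd (Finset.mem_univ i) h
  rw [h2, h2] at h1
  exact h1

end

section
variable {G : AffGrp} {K W X : Type} [Field K] [Algebra ℂ K] [Group W] [Fintype W]
  [MulSemiringAction W K] [SMulCommClass W ℂ K] [AddCommGroup X] [DistribMulAction W X]
variable {Q : TQD G K W X}

/-- [MTF-PA3] The matrix `rho` of `PD` exists.
PROOF. `T := Q.sE (adR Q)`, `T.mulVec z = Q.brK Q.c z` (`adR_sE`).  `hT.dec (adR Q)` gives `Ω`, and `(Ω.image Q.val)` (`hT.val_inj`,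
`Finset.prod_image`) the hypothesis of `exists_group_inverse`: `R`.  The entries of `T` are fixed by `W` (`hT.c_w`), so
the matrix `w • R` (entrywise) is also a group inverse of `T`, equal to `R` by `group_inverse_unique`.  Let
`M : Matrix` with `flat z = M.mulVec z` over `K` (`M a b = algebraMap (kap b a)`, symmetric, invertible: `flat_injective`).  Invariance of the
form (`kapK_inv`): `M T = - Tᵀ M`.  So `M R M⁻¹` is a group inverse of `- Tᵀ`, and `- Rᵀ` too: `M R = - Rᵀ M`.
`rho a b := (R * M⁻¹) b a`; then `∑ a, rho a b * α a = (R M⁻¹ α) b`.  Skew: `(R M⁻¹)ᵀ = M⁻¹ Rᵀ = - R M⁻¹`.  `W`-invariant: `M` has complex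
entries.  `rho_im`: `α` vanishes on `ker T`; `y := M⁻¹ α` satisfies `κ(y, z) = 0` for `z ∈ ker T`.  `y - T R y` is killed by
`T`, and `κ(y - T R y, z) = 0` for all `z ∈ ker T` (as `κ(T R y, z) = - κ(R y, T z) = 0`); every `z` is `(z - T R z) + T R z`, and
`κ(y - T R y, T R z) = - κ(T (y - T R y), R z) = 0`: so `y = T R y` (nondegeneracy) and `flat (T R M⁻¹ α) = M T R y = M y = α`.
`rho_ker`: `∑ a, rho a b * flat z a = (R z) b` and `R z = R T R z = R R T z = 0`. -/
theorem exists_rho (hT : TQ Q) : ∃ rho : Matrix (Fin Q.r) (Fin Q.r) K,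
    (∀ a b, rho a b = - rho b a) ∧ (∀ (w : W) a b, w • rho a b = rho a b) ∧
    (∀ α : Fin Q.r → K, (∀ z, Q.brK Q.c z = 0 → ∑ a, α a * z a = 0) →
      Q.flat (Q.brK Q.c fun b => ∑ a, rho a b * α a) = α) ∧
    ∀ z, Q.brK Q.c z = 0 → ∀ b, ∑ a, rho a b * Q.flat z a = 0 := by
  classical
  obtain ⟨T, hT0⟩ : ∃ T : Matrix (Fin Q.r) (Fin Q.r) K, T = Q.sE (adR Q) := ⟨_, rfl⟩
  have hTz : ∀ z, T.mulVec z = Q.brK Q.c z := by
    intro z
    rw [hT0]
    exact adR_sE Q z
  have hTw : ∀ (w : W) a b, w • T a b = T a b := by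
    intro w a b
    rw [hT0]
    unfold TQD.sE
    rw [Finset.smul_sum]
    refine Finset.sum_congr rfl fun j _ => ?_
    rw [smul_mul', hT.c_w, smul_algebraMap]
  obtain ⟨Ω, hΩ⟩ := hT.dec (adR Q)
  have hΩ' : Polynomial.aeval T (∏ a ∈ Ω.image Q.val, (Polynomial.X - Polynomial.C a)) = 0 := by
    rw [Finset.prod_image fun a _ b _ h => hT.val_inj h, hT0]
    exact hΩ
  obtain ⟨R, h1, h2, h3⟩ := exists_group_inverse T _ hΩ'
  -- the Gram matrix
  obtain ⟨M, hM⟩ : ∃ M : Matrix (Fin Q.r) (Fin Q.r) K, ∀ a b, M a b = algebraMap ℂ K (Q.kap b a) :=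
    ⟨Matrix.of fun a b => algebraMap ℂ K (Q.kap b a), fun a b => rfl⟩
  have hMf : ∀ z, M.mulVec z = Q.flat z := by
    intro z
    funext a
    unfold TQD.flat
    show ∑ b, M a b * z b = _
    refine Finset.sum_congr rfl fun b _ => ?_
    rw [hM, Algebra.smul_def]
  have hMs : M.transpose = M := by
    ext a b
    rw [Matrix.transpose_apply, hM, hM, kap_symm]
  have hMu : IsUnit M := by
    rw [← Matrix.mulVec_injective_iff_isUnit]
    intro x y hxy
    have h4 : Q.flat (x - y) = 0 := by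
      rw [← hMf, Matrix.mulVec_sub, sub_eq_zero]
      exact hxy
    exact sub_eq_zero.1 (flat_injective hT.kill h4)
  have hMd : IsUnit M.det := (Matrix.isUnit_iff_isUnit_det M).1 hMu
  obtain ⟨N, hN⟩ : ∃ N : Matrix (Fin Q.r) (Fin Q.r) K, N = M⁻¹ := ⟨_, rfl⟩
  have hMN : M * N = 1 := by rw [hN, Matrix.mul_nonsing_inv _ hMd]
  have hNM : N * M = 1 := by rw [hN, Matrix.nonsing_inv_mul _ hMd]
  have hMT : M * T = -(T.transpose * M) := by
    apply pa3_ext
    intro y z
    have h4 := kapK_inv (Q := Q) Q.c y z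
    rw [kapK_flat, kapK_symm y, kapK_flat, ← hTz, ← hTz, ← hMf, ← hMf] at h4
    have h5 : ∑ a, (M.mulVec (T.mulVec y)) a * z a = ∑ a, y a * ((T.transpose * M).mulVec z) a := by
      show (M.mulVec (T.mulVec y)) ⬝ᵥ z = y ⬝ᵥ ((T.transpose * M).mulVec z)
      rw [Matrix.dotProduct_mulVec, ← Matrix.mulVec_transpose, Matrix.transpose_mul, hMs,
        Matrix.transpose_transpose, Matrix.mulVec_mulVec]
    have h6 : ∑ a, (M.mulVec (T.mulVec z)) a * y a = ∑ a, y a * ((M * T).mulVec z) a := by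
      rw [Matrix.mulVec_mulVec]
      exact Finset.sum_congr rfl fun a _ => mul_comm _ _
    rw [h5, h6] at h4
    have h7 : ∑ a, y a * ((-(T.transpose * M)).mulVec z) a = - ∑ a, y a * ((T.transpose * M).mulVec z) a := by
      rw [← Finset.sum_neg_distrib]
      refine Finset.sum_congr rfl fun a _ => ?_
      rw [Matrix.neg_mulVec, Pi.neg_apply, mul_neg]
    rw [h7, h4, neg_neg]
  -- invariance
  let φ : W → Matrix (Fin Q.r) (Fin Q.r) K →+* Matrix (Fin Q.r) (Fin Q.r) K :=
    fun w => (MulSemiringAction.toRingHom W K w).mapMatrix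
  have hφ : ∀ w A a b, φ w A a b = w • A a b := fun w A a b => rfl
  have hφT : ∀ w, φ w T = T := fun w => by
    ext a b
    rw [hφ, hTw]
  have hφM : ∀ w, φ w M = M := fun w => by
    ext a b
    rw [hφ, hM, smul_algebraMap]
  have hφN : ∀ w, φ w N = N := fun w => by
    have h4 : φ w N * M = 1 := by
      have h5 := congrArg (φ w) hNM
      rw [map_mul, hφM, map_one] at h5
      exact h5
    calc φ w N = φ w N * (M * N) := by rw [hMN, mul_one]
      _ = N := by rw [← mul_assoc, h4, one_mul]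
  have hφR : ∀ w, φ w R = R := fun w => by
    refine group_inverse_unique (T := T) ?_ ?_ ?_ h1 h2 h3
    · have h5 := congrArg (φ w) h1
      rw [map_mul, map_mul, hφT] at h5
      exact h5
    · have h5 := congrArg (φ w) h2
      rw [map_mul, map_mul, hφT] at h5
      exact h5
    · have h5 := congrArg (φ w) h3
      rw [map_mul, map_mul, hφT] at h5
      exact h5
  refine ⟨Matrix.of fun a b => (R * N) b a, ?_, ?_, ?_, ?_⟩
  · intro a b
    have h4 := congrFun (congrFun (pa3_skew hMN hNM hMs hMT h1 h2 h3) a) b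
    exact h4
  · intro w a b
    show w • (R * N) b a = (R * N) b a
    rw [← hφ, map_mul, hφR, hφN]
  · intro α hα
    rw [← hTz, ← hMf]
    refine pa3_im hMN hNM hMT h1 h2 h3 α fun z hz => hα z ?_
    rw [← hTz]
    exact hz
  · intro z hz b
    rw [← hTz] at hz
    have h4 := pa3_ker hNM h1 h3 z hz
    rw [hMf] at h4
    exact congrFun h4 b

end

end Pool.Agent.MTF
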