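import Pool.Agent.MTF.P0a
import Pool.Agent.MTF.LB1

/-! # MTF, part P : formulas for the derivations -/

set_option linter.unusedSectionVars false

namespace Pool.Agent.MTF

open AffGrp

section
variable {G : AffGrp} {K W X : Type} [Field K] [Algebra ℂ K] [Group W] [Fintype W]
  [MulSemiringAction W K] [SMulCommClass W ℂ K] [AddCommGroup X] [DistribMulAction W X]
variable {Q : TQD G K W X}
variable {P : PD Q}
variable {L : Type} [Fintype L] [DecidableEq L]

theorem pb0_mul_sub (a b c : RR G K X L) : a * (b - c) = a * b - a * c := mul_sub a b c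

theorem pb0_smul_sub (c : ℂ) (a b : RR G K X L) : c • (a - b) = c • a - c • b := smul_sub c a b

theorem pb0_ksmul_sub (c : K) (a b : RR G K X L) : c • (a - b) = c • a - c • b := smul_sub c a b

theorem pb0_neg_sub (a b : RR G K X L) : -(a - b) = b - a := neg_sub a b

theorem pb0_mul_zsmul (n : ℤ) (a b : RR G K X L) : a * n • b = n • (a * b) := mul_smul_comm n a b

theorem pb0_mul_ksmul (n : K) (a b : RR G K X L) : a * n • b = n • (a * b) := mul_smul_comm n a b

theorem pb0_sum_neg {ι : Type} (s : Finset ι) (f : ι → RR G K X L) :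
    ∑ x ∈ s, -f x = -∑ x ∈ s, f x := Finset.sum_neg_distrib f

theorem pb0_zsmul_neg (n : ℤ) (a : RR G K X L) : n • (-a) = -(n • a) := smul_neg n a

theorem pb0_neg_ksmul (c : K) (a : RR G K X L) : (-c) • a = -(c • a) := neg_smul c a

/-- [MTF-PB0] -/
theorem DL_coeff (l : L) (a : Fin Q.r) (F : RR G K X L) (m : X) :
    (PD.DL (Q := Q) l a F).coeff m = derK K (emb l (Q.D a)) (F.coeff m) := rfl

/-- [MTF-PB0] -/
theorem DN_coeff (j : Fin P.n) (F : RR G K X L) (m : X) :
    (P.DN L j F).coeff m = ((P.cd j m : ℤ) : K) • F.coeff m := by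
  show (nD ((Int.castAddHom ((G.pow L).KO K)).comp (P.cd j)) F).coeff m = _
  rw [nD_coeff]
  show ((P.cd j m : ℤ) : (G.pow L).KO K) * F.coeff m = _
  rw [← zsmul_eq_mul, Int.cast_smul_eq_zsmul]

/-- [MTF-PB0] -/
theorem DX_coeff (j : Fin P.n) (F : RR G K X L) (m : X) (k : L → G.X) :
    ((P.DX L j F).coeff m).1 k = P.dd j ((F.coeff m).1 k) := rfl

/-- [MTF-PB0] `DL` is `K`-linear. PROOF. coefficientwise, `map_smul`. -/
theorem DL_smul (l : L) (a : Fin Q.r) (x : K) (F : RR G K X L) :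
    PD.DL (Q := Q) l a (x • F) = x • PD.DL (Q := Q) l a F := by
  apply AddMonoidAlgebra.coeff_injective
  ext1 m
  exact map_smul (derK K (emb l (Q.D a))) x (F.coeff m)

/-- [MTF-PB0] -/
theorem DN_smul (j : Fin P.n) (x : K) (F : RR G K X L) : P.DN L j (x • F) = x • P.DN L j F := by
  apply AddMonoidAlgebra.coeff_injective
  ext1 m
  rw [DN_coeff]
  show ((P.cd j m : ℤ) : K) • (x • F.coeff m) = x • (P.DN L j F).coeff m
  rw [DN_coeff, smul_comm]

/-- [MTF-PB0] -/
theorem DX_smul (j : Fin P.n) (x : K) (F : RR G K X L) :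
    P.DX L j (x • F) = P.dd j x • F + x • P.DX L j F := by
  apply AddMonoidAlgebra.coeff_injective
  ext1 m
  refine KO_ext fun k => ?_
  show P.dd j (x * (F.coeff m).1 k) = P.dd j x * (F.coeff m).1 k + x * P.dd j ((F.coeff m).1 k)
  rw [Derivation.leibniz, smul_eq_mul, smul_eq_mul]
  ring

/-- [MTF-PB0] -/
theorem AL_smul (ε : L → Bool) (l : L) (a : Fin Q.r) (x : K) (F : RR G K X L) :
    P.AL ε l a (x • F) = x • P.AL ε l a F := by
  have h : ∑ j, P.sig j a • P.DN L j (x • F) = x • ∑ j, P.sig j a • P.DN L j F := by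
    rw [Finset.smul_sum]
    refine Finset.sum_congr rfl fun j _ => ?_
    rw [DN_smul, smul_comm]
  show PD.DL l a (x • F) - sgn (ε l) • ∑ j, P.sig j a • P.DN L j (x • F) =
    x • (PD.DL l a F - sgn (ε l) • ∑ j, P.sig j a • P.DN L j F)
  rw [DL_smul, h, pb0_ksmul_sub, smul_comm x (sgn (ε l))]

/-- [MTF-PB0] -/
theorem AL_add (ε : L → Bool) (l : L) (a : Fin Q.r) (F F' : RR G K X L) :
    P.AL ε l a (F + F') = P.AL ε l a F + P.AL ε l a F' := by
  have h : ∑ j, P.sig j a • P.DN L j (F + F') =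
      (∑ j, P.sig j a • P.DN L j F) + ∑ j, P.sig j a • P.DN L j F' := by
    rw [← Finset.sum_add_distrib]
    refine Finset.sum_congr rfl fun j _ => ?_
    rw [map_add, smul_add]
  show PD.DL l a (F + F') - sgn (ε l) • ∑ j, P.sig j a • P.DN L j (F + F') =
    (PD.DL l a F - sgn (ε l) • ∑ j, P.sig j a • P.DN L j F) +
      (PD.DL l a F' - sgn (ε l) • ∑ j, P.sig j a • P.DN L j F')
  rw [map_add, h, smul_add]
  abel

/-- [MTF-PB0] `AL` is a derivation. -/
theorem AL_mul (ε : L → Bool) (l : L) (a : Fin Q.r) (F F' : RR G K X L) :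
    P.AL ε l a (F * F') = F * P.AL ε l a F' + F' * P.AL ε l a F := by
  have h : ∑ j, P.sig j a • P.DN L j (F * F') =
      F * (∑ j, P.sig j a • P.DN L j F') + F' * ∑ j, P.sig j a • P.DN L j F := by
    rw [Finset.mul_sum, Finset.mul_sum, ← Finset.sum_add_distrib]
    refine Finset.sum_congr rfl fun j _ => ?_
    rw [Derivation.leibniz, smul_add, smul_eq_mul, smul_eq_mul, pb0_mul_ksmul, pb0_mul_ksmul]
  have h2 : PD.DL (Q := Q) l a (F * F') = F * PD.DL (Q := Q) l a F' + F' * PD.DL (Q := Q) l a F := by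
    rw [Derivation.leibniz, smul_eq_mul, smul_eq_mul]
  show PD.DL l a (F * F') - sgn (ε l) • ∑ j, P.sig j a • P.DN L j (F * F') =
    F * (PD.DL l a F' - sgn (ε l) • ∑ j, P.sig j a • P.DN L j F') +
      F' * (PD.DL l a F - sgn (ε l) • ∑ j, P.sig j a • P.DN L j F)
  rw [h2, h, smul_add, pb0_mul_sub, pb0_mul_sub, pb0_mul_zsmul, pb0_mul_zsmul]
  abel

/-- [MTF-PB0] constants -/
theorem DL_algebraMap (l : L) (a : Fin Q.r) (x : K) :
    PD.DL (Q := Q) l a (algebraMap K (RR G K X L) x) = 0 := by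
  rw [Algebra.algebraMap_eq_smul_one, DL_smul, Derivation.map_one_eq_zero, smul_zero]

theorem DN_algebraMap (j : Fin P.n) (x : K) : P.DN L j (algebraMap K (RR G K X L) x) = 0 := by
  rw [Algebra.algebraMap_eq_smul_one, DN_smul, Derivation.map_one_eq_zero, smul_zero]

theorem DX_algebraMap (j : Fin P.n) (x : K) :
    P.DX L j (algebraMap K (RR G K X L) x) = algebraMap K (RR G K X L) (P.dd j x) := by
  rw [Algebra.algebraMap_eq_smul_one, DX_smul, Derivation.map_one_eq_zero, smul_zero, add_zero,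
    Algebra.algebraMap_eq_smul_one]

/-- [MTF-PB0] the bracket is biadditive, `ℂ`-bilinear, satisfies the Leibniz rule and is skew symmetric (for all families). -/
theorem br_add_right (ε : L → Bool) (F F' F'' : RR G K X L) :
    P.br ε F (F' + F'') = P.br ε F F' + P.br ε F F'' := by
  have h1 : ∑ j, (P.DN L j F * P.DX L j (F' + F'') - P.DN L j (F' + F'') * P.DX L j F) =
      (∑ j, (P.DN L j F * P.DX L j F' - P.DN L j F' * P.DX L j F)) +
        ∑ j, (P.DN L j F * P.DX L j F'' - P.DN L j F'' * P.DX L j F) := by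
    rw [← Finset.sum_add_distrib]
    refine Finset.sum_congr rfl fun j _ => ?_
    rw [map_add, map_add, mul_add, add_mul]
    abel
  have h2 : ∑ l, (sgn (ε l) • ∑ a, ∑ b, P.rho a b • (P.AL ε l a F * P.AL ε l b (F' + F''))) =
      (∑ l, (sgn (ε l) • ∑ a, ∑ b, P.rho a b • (P.AL ε l a F * P.AL ε l b F'))) +
        ∑ l, sgn (ε l) • ∑ a, ∑ b, P.rho a b • (P.AL ε l a F * P.AL ε l b F'') := by
    rw [← Finset.sum_add_distrib]
    refine Finset.sum_congr rfl fun l _ => ?_
    rw [← smul_add, ← Finset.sum_add_distrib]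
    congr 1
    refine Finset.sum_congr rfl fun a _ => ?_
    rw [← Finset.sum_add_distrib]
    refine Finset.sum_congr rfl fun b _ => ?_
    rw [AL_add, mul_add, smul_add]
  unfold PD.br
  rw [h1, h2]
  abel

theorem br_smul_right (ε : L → Bool) (c : ℂ) (F F' : RR G K X L) :
    P.br ε F (c • F') = c • P.br ε F F' := by
  have hA : ∀ l a, P.AL ε l a (c • F') = c • P.AL ε l a F' := by
    intro l a
    have h : ∑ j, P.sig j a • P.DN L j (c • F') = c • ∑ j, P.sig j a • P.DN L j F' := by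
      rw [Finset.smul_sum]
      refine Finset.sum_congr rfl fun j _ => ?_
      rw [Derivation.map_smul, smul_comm]
    show PD.DL l a (c • F') - sgn (ε l) • ∑ j, P.sig j a • P.DN L j (c • F') =
      c • (PD.DL l a F' - sgn (ε l) • ∑ j, P.sig j a • P.DN L j F')
    rw [Derivation.map_smul, h, pb0_smul_sub, smul_comm c (sgn (ε l))]
  have h1 : ∑ j, (P.DN L j F * P.DX L j (c • F') - P.DN L j (c • F') * P.DX L j F) =
      c • ∑ j, (P.DN L j F * P.DX L j F' - P.DN L j F' * P.DX L j F) := by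
    rw [Finset.smul_sum]
    refine Finset.sum_congr rfl fun j _ => ?_
    rw [Derivation.map_smul, Derivation.map_smul, mul_smul_comm, smul_mul_assoc, pb0_smul_sub]
  have h2 : ∑ l, (sgn (ε l) • ∑ a, ∑ b, P.rho a b • (P.AL ε l a F * P.AL ε l b (c • F'))) =
      c • ∑ l, (sgn (ε l) • ∑ a, ∑ b, P.rho a b • (P.AL ε l a F * P.AL ε l b F')) := by
    rw [Finset.smul_sum]
    refine Finset.sum_congr rfl fun l _ => ?_
    rw [smul_comm c (sgn (ε l))]
    congr 1
    rw [Finset.smul_sum]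
    refine Finset.sum_congr rfl fun a _ => ?_
    rw [Finset.smul_sum]
    refine Finset.sum_congr rfl fun b _ => ?_
    rw [hA, mul_smul_comm, smul_comm]
  unfold PD.br
  rw [h1, h2, pb0_smul_sub]

/-- [MTF-PB0] PROOF. `AL_mul`, `Derivation.leibniz`. -/
theorem br_leibniz (ε : L → Bool) (F F' F'' : RR G K X L) :
    P.br ε F (F' * F'') = F' * P.br ε F F'' + F'' * P.br ε F F' := by
  have h1 : ∑ j, (P.DN L j F * P.DX L j (F' * F'') - P.DN L j (F' * F'') * P.DX L j F) =
      F' * (∑ j, (P.DN L j F * P.DX L j F'' - P.DN L j F'' * P.DX L j F)) +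
        F'' * ∑ j, (P.DN L j F * P.DX L j F' - P.DN L j F' * P.DX L j F) := by
    rw [Finset.mul_sum, Finset.mul_sum, ← Finset.sum_add_distrib]
    refine Finset.sum_congr rfl fun j _ => ?_
    rw [Derivation.leibniz, Derivation.leibniz, smul_eq_mul, smul_eq_mul, smul_eq_mul, smul_eq_mul]
    ring
  have h2 : ∑ l, (sgn (ε l) • ∑ a, ∑ b, P.rho a b • (P.AL ε l a F * P.AL ε l b (F' * F''))) =
      F' * (∑ l, (sgn (ε l) • ∑ a, ∑ b, P.rho a b • (P.AL ε l a F * P.AL ε l b F''))) +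
        F'' * ∑ l, sgn (ε l) • ∑ a, ∑ b, P.rho a b • (P.AL ε l a F * P.AL ε l b F') := by
    rw [Finset.mul_sum, Finset.mul_sum, ← Finset.sum_add_distrib]
    refine Finset.sum_congr rfl fun l _ => ?_
    rw [pb0_mul_zsmul, pb0_mul_zsmul, ← smul_add]
    congr 1
    rw [Finset.mul_sum, Finset.mul_sum, ← Finset.sum_add_distrib]
    refine Finset.sum_congr rfl fun a _ => ?_
    rw [Finset.mul_sum, Finset.mul_sum, ← Finset.sum_add_distrib]
    refine Finset.sum_congr rfl fun b _ => ?_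
    rw [AL_mul, pb0_mul_ksmul, pb0_mul_ksmul, ← smul_add]
    congr 1
    ring
  unfold PD.br
  rw [h1, h2, pb0_mul_sub, pb0_mul_sub]
  abel

/-- [MTF-PB0] PROOF. `rho_skew`, `Finset.sum_comm`. -/
theorem br_skew (hP : PQ Q P) (ε : L → Bool) (F F' : RR G K X L) : P.br ε F F' = - P.br ε F' F := by
  have h1 : ∑ j, (P.DN L j F' * P.DX L j F - P.DN L j F * P.DX L j F') =
      - ∑ j, (P.DN L j F * P.DX L j F' - P.DN L j F' * P.DX L j F) := by
    rw [← pb0_sum_neg]
    refine Finset.sum_congr rfl fun j _ => ?_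
    rw [pb0_neg_sub]
  have h2 : ∑ l, (sgn (ε l) • ∑ a, ∑ b, P.rho a b • (P.AL ε l a F' * P.AL ε l b F)) =
      - ∑ l, (sgn (ε l) • ∑ a, ∑ b, P.rho a b • (P.AL ε l a F * P.AL ε l b F')) := by
    rw [← pb0_sum_neg]
    refine Finset.sum_congr rfl fun l _ => ?_
    rw [← pb0_zsmul_neg]
    congr 1
    rw [Finset.sum_comm, ← pb0_sum_neg]
    refine Finset.sum_congr rfl fun a _ => ?_
    rw [← pb0_sum_neg]
    refine Finset.sum_congr rfl fun b _ => ?_
    rw [hP.rho_skew b a, pb0_neg_ksmul, mul_comm]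
  unfold PD.br
  rw [h1, h2]
  abel

end

end Pool.Agent.MTF
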