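import Pool.Agent.MTF.PB0

/-! # MTF, part P : commutators of the derivations -/

set_option linter.unusedSectionVars false

namespace Pool.Agent.MTF

open AffGrp

section
variable {G : AffGrp} {K W X : Type} [Field K] [Algebra ℂ K] [Group W] [Fintype W]
  [MulSemiringAction W K] [SMulCommClass W ℂ K] [AddCommGroup X] [DistribMulAction W X]
variable {Q : TQD G K W X}
variable {P : PD Q}
variable {L : Type} [Fintype L] [DecidableEq L]

theorem pb1b_ext {F F' : RR G K X L} (h : ∀ m, F.coeff m = F'.coeff m) : F = F' :=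
  AddMonoidAlgebra.coeff_injective (Finsupp.ext h)

theorem pb1b_dK_smul {H : AffGrp} (δ : Derivation ℂ K K) (c : K) (f : H.O) :
    dK δ (c • inc K f) = δ c • inc K f := by
  refine KO_ext fun x => ?_
  rw [dK_apply]
  show δ (c * algebraMap ℂ K (f.1 x)) = δ c * algebraMap ℂ K (f.1 x)
  rw [δ.leibniz, δ.map_algebraMap, smul_zero, zero_add, smul_eq_mul, mul_comm]

theorem pb1b_derK_dK {H : AffGrp} (δ : Derivation ℂ K K) (D : H.Lie) (F : H.KO K) :
    derK K D (dK δ F) = dK δ (derK K D F) := by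
  obtain ⟨n, c, f, rfl⟩ := KO_eq_sum F
  rw [map_sum, map_sum, map_sum, map_sum]
  refine Finset.sum_congr rfl fun i _ => ?_
  rw [pb1b_dK_smul, map_smul, map_smul, derK_inc, pb1b_dK_smul]

/-- [MTF-PB1b] PROOF. coefficientwise: `derK` is `K`-linear. -/
theorem DL_DN (l : L) (a : Fin Q.r) (j : Fin P.n) (F : RR G K X L) :
    PD.DL (Q := Q) l a (P.DN L j F) = P.DN L j (PD.DL (Q := Q) l a F) := by
  refine pb1b_ext fun m => ?_
  rw [DL_coeff, DN_coeff, DN_coeff, DL_coeff, map_smul]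

/-- [MTF-PB1b] PROOF. coefficientwise: on `∑ c_i • inc f_i` both sides are `∑ dd j c_i • inc (der f_i)` (`KO_eq_sum`, `derK_inc`). -/
theorem DL_DX (l : L) (a : Fin Q.r) (j : Fin P.n) (F : RR G K X L) :
    PD.DL (Q := Q) l a (P.DX L j F) = P.DX L j (PD.DL (Q := Q) l a F) := by
  refine pb1b_ext fun m => ?_
  exact pb1b_derK_dK (P.dd j) (emb l (Q.D a)) (F.coeff m)

/-- [MTF-PB1b] PROOF. integers are constants. -/
theorem DX_DN (i j : Fin P.n) (F : RR G K X L) : P.DX L i (P.DN L j F) = P.DN L j (P.DX L i F) := by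
  refine pb1b_ext fun m => KO_ext fun k => ?_
  rw [DX_coeff, DN_coeff, DN_coeff]
  show P.dd i (((P.cd j m : ℤ) : K) * (F.coeff m).1 k) =
    ((P.cd j m : ℤ) : K) * P.dd i ((F.coeff m).1 k)
  rw [← zsmul_eq_mul, map_zsmul, zsmul_eq_mul]

theorem DN_DN (i j : Fin P.n) (F : RR G K X L) : P.DN L i (P.DN L j F) = P.DN L j (P.DN L i F) := by
  refine pb1b_ext fun m => ?_
  rw [DN_coeff, DN_coeff, DN_coeff, DN_coeff, smul_comm]

/-- [MTF-PB1b] PROOF. `hP.dd_comm`. -/
theorem DX_DX (hP : PQ Q P) (i j : Fin P.n) (F : RR G K X L) :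
    P.DX L i (P.DX L j F) = P.DX L j (P.DX L i F) := by
  refine pb1b_ext fun m => KO_ext fun k => ?_
  exact hP.dd_comm i j ((F.coeff m).1 k)

end

end Pool.Agent.MTF
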