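import Pool.Agent.MTF.PB1a
import Pool.Agent.MTF.PB1b

/-! # MTF, part P : the system of derivations -/

set_option linter.unusedSectionVars false

namespace Pool.Agent.MTF

open AffGrp

section
variable {G : AffGrp} {K W X : Type} [Field K] [Algebra ℂ K] [Group W] [Fintype W]
  [MulSemiringAction W K] [SMulCommClass W ℂ K] [AddCommGroup X] [DistribMulAction W X]
variable {Q : TQD G K W X}
variable {P : PD Q}
variable {L : Type} [Fintype L] [DecidableEq L]

/-- The index set of the system of derivations. -/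
abbrev PIx (P : PD Q) (L : Type) : Type := (L × Fin Q.r) ⊕ (Fin P.n ⊕ Fin P.n)

/-- the derivations -/
noncomputable def pD (P : PD Q) (L : Type) [Fintype L] [DecidableEq L] :
    PIx P L → Derivation ℂ (RR G K X L) (RR G K X L)
  | Sum.inl p => PD.DL (Q := Q) p.1 p.2
  | Sum.inr (Sum.inl j) => P.DX L j
  | Sum.inr (Sum.inr j) => P.DN L j

/-- the structure constants -/
noncomputable def pc (P : PD Q) (L : Type) [Fintype L] [DecidableEq L] : PIx P L → PIx P L → PIx P L → ℂ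
  | Sum.inl p, Sum.inl q, Sum.inl t => if p.1 = q.1 ∧ q.1 = t.1 then Q.stc p.2 q.2 t.2 else 0
  | _, _, _ => 0

/-- the 1-form -/
noncomputable def pθ (P : PD Q) {L : Type} [Fintype L] [DecidableEq L] (ε : L → Bool) : PIx P L → RR G K X L
  | Sum.inl p => algebraMap K (RR G K X L) (((sgn (ε p.1) : ℤ) : K) * Q.flat Q.c p.2)
  | Sum.inr (Sum.inl _) => 0
  | Sum.inr (Sum.inr j) => algebraMap K (RR G K X L) (P.y j)

theorem pb1_r1 (a : PIx P L) (i : Fin P.n ⊕ Fin P.n) (b : PIx P L) :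
    pc P L (Sum.inr i) a b = 0 := by
  cases a <;> cases b <;> rfl

theorem pb1_r2 (a : PIx P L) (i : Fin P.n ⊕ Fin P.n) (b : PIx P L) :
    pc P L a (Sum.inr i) b = 0 := by
  cases a <;> cases b <;> rfl

theorem pb1_r3 (a : PIx P L) (i : Fin P.n ⊕ Fin P.n) (b : PIx P L) :
    pc P L a b (Sum.inr i) = 0 := by
  cases a <;> cases b <;> rfl

theorem pb1_l (p q t : L × Fin Q.r) :
    pc P L (Sum.inl p) (Sum.inl q) (Sum.inl t) =
      if p.1 = q.1 ∧ q.1 = t.1 then Q.stc p.2 q.2 t.2 else 0 := rfl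

theorem pb1_ite {a b t c d : L} {x y : ℂ} (h : ¬ (a = b ∧ b = c ∧ c = d)) :
    (if a = b ∧ b = t then x else 0) * (if t = c ∧ c = d then y else 0) = 0 := by
  by_cases h1 : a = b ∧ b = t
  · by_cases h2 : t = c ∧ c = d
    · exact absurd ⟨h1.1, h1.2.trans h2.1, h2.2⟩ h
    · rw [if_neg h2, mul_zero]
  · rw [if_neg h1, zero_mul]

theorem pb1_ite' {a t : L} {x y : ℂ} (h : t ≠ a) :
    (if a = a ∧ a = t then x else 0) * (if t = a ∧ a = a then y else 0) = 0 := by
  rw [if_neg (fun h1 => h h1.2.symm), zero_mul]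

/-- [MTF-PB1] PROOF. cases: `DL_comm_same`, `DL_comm_ne`, `DL_DN`, `DL_DX`, `DX_DN`, `DN_DN`, `DX_DX`; the sum over `PIx` splits
(`Fintype.sum_sum_type`, `Fintype.sum_prod_type`, `Finset.sum_ite_eq`). -/
theorem pD_comm (hP : PQ Q P) (i j : PIx P L) (F : RR G K X L) :
    pD P L i (pD P L j F) - pD P L j (pD P L i F) = ∑ k, pc P L i j k • pD P L k F := by
  have hz1 : ∀ (i : Fin P.n ⊕ Fin P.n) (j : PIx P L),
      ∑ k, pc P L (Sum.inr i) j k • pD P L k F = 0 := by
    intro i j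
    refine Finset.sum_eq_zero fun k _ => ?_
    rw [pb1_r1, zero_smul]
  have hz2 : ∀ (i : Fin P.n ⊕ Fin P.n) (j : PIx P L),
      ∑ k, pc P L j (Sum.inr i) k • pD P L k F = 0 := by
    intro i j
    refine Finset.sum_eq_zero fun k _ => ?_
    rw [pb1_r2, zero_smul]
  rcases i with ⟨l, a⟩ | i
  · rcases j with ⟨l', b⟩ | j
    · rw [Fintype.sum_sum_type]
      have h2 : ∑ k : Fin P.n ⊕ Fin P.n,
          pc P L (Sum.inl (l, a)) (Sum.inl (l', b)) (Sum.inr k) • pD P L (Sum.inr k) F = 0 := by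
        refine Finset.sum_eq_zero fun k _ => ?_
        rw [pb1_r3, zero_smul]
      rw [h2, add_zero, Fintype.sum_prod_type]
      show PD.DL (Q := Q) l a (PD.DL (Q := Q) l' b F) - PD.DL (Q := Q) l' b (PD.DL (Q := Q) l a F) =
        ∑ l'' : L, ∑ c : Fin Q.r, (if l = l' ∧ l' = l'' then Q.stc a b c else 0) •
          PD.DL (Q := Q) l'' c F
      by_cases h : l = l'
      · subst h
        rw [DL_comm_same, Finset.sum_eq_single l]
        · refine Finset.sum_congr rfl fun c _ => ?_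
          rw [if_pos ⟨rfl, rfl⟩]
        · intro l'' _ hl''
          refine Finset.sum_eq_zero fun c _ => ?_
          rw [if_neg (fun h1 => hl'' h1.2.symm), zero_smul]
        · intro h1
          exact absurd (Finset.mem_univ l) h1
      · rw [DL_comm_ne h, sub_self]
        symm
        refine Finset.sum_eq_zero fun l'' _ => Finset.sum_eq_zero fun c _ => ?_
        rw [if_neg (fun h1 => h h1.1), zero_smul]
    · rw [hz2]
      rcases j with j | j
      · exact sub_eq_zero.2 (DL_DX l a j F)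
      · exact sub_eq_zero.2 (DL_DN l a j F)
  · rw [hz1]
    rcases i with i | i
    · rcases j with ⟨l', b⟩ | j
      · exact sub_eq_zero.2 (DL_DX l' b i F).symm
      · rcases j with j | j
        · exact sub_eq_zero.2 (DX_DX hP i j F)
        · exact sub_eq_zero.2 (DX_DN i j F)
    · rcases j with ⟨l', b⟩ | j
      · exact sub_eq_zero.2 (DL_DN l' b i F).symm
      · rcases j with j | j
        · exact sub_eq_zero.2 (DX_DN j i F).symm
        · exact sub_eq_zero.2 (DN_DN i j F)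

/-- [MTF-PB1] PROOF. cases, `stc_skew`. -/
theorem pc_skew (i j k : PIx P L) : pc P L i j k = - pc P L j i k := by
  rcases i with ⟨l, a⟩ | i
  · rcases j with ⟨l', b⟩ | j
    · rcases k with ⟨l'', c⟩ | k
      · rw [pb1_l, pb1_l]
        show (if l = l' ∧ l' = l'' then Q.stc a b c else 0) =
          -(if l' = l ∧ l = l'' then Q.stc b a c else 0)
        by_cases h : l = l' ∧ l' = l''
        · obtain ⟨rfl, rfl⟩ := h
          rw [if_pos ⟨rfl, rfl⟩, if_pos ⟨rfl, rfl⟩, stc_skew]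
        · rw [if_neg h, if_neg (fun h1 => h ⟨h1.1.symm, h1.1.trans h1.2⟩), neg_zero]
      · rw [pb1_r3, pb1_r3, neg_zero]
    · rw [pb1_r2, pb1_r1, neg_zero]
  · rw [pb1_r1, pb1_r2, neg_zero]

/-- [MTF-PB1] PROOF. cases, `stc_jac`. -/
theorem pc_jac (i j k p : PIx P L) : ∑ l, (pc P L i j l * pc P L l k p + pc P L j k l * pc P L l i p +
    pc P L k i l * pc P L l j p) = 0 := by
  rcases i with ⟨l1, a⟩ | i
  swap
  · refine Finset.sum_eq_zero fun l _ => ?_
    rw [pb1_r1, pb1_r2 l i p, pb1_r2, zero_mul, mul_zero, zero_mul, add_zero, add_zero]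
  rcases j with ⟨l2, b⟩ | j
  swap
  · refine Finset.sum_eq_zero fun l _ => ?_
    rw [pb1_r2, pb1_r1, pb1_r2 l j p, zero_mul, zero_mul, mul_zero, add_zero, add_zero]
  rcases k with ⟨l3, c⟩ | k
  swap
  · refine Finset.sum_eq_zero fun l _ => ?_
    rw [pb1_r2 l k p, pb1_r2, pb1_r1, zero_mul, zero_mul, mul_zero, add_zero, add_zero]
  rcases p with ⟨l4, d⟩ | p
  swap
  · refine Finset.sum_eq_zero fun l _ => ?_
    rw [pb1_r3, pb1_r3, pb1_r3, mul_zero, mul_zero, mul_zero, add_zero, add_zero]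
  rw [Fintype.sum_sum_type]
  have h2 : ∑ l : Fin P.n ⊕ Fin P.n, (pc P L (Sum.inl (l1, a)) (Sum.inl (l2, b)) (Sum.inr l) *
      pc P L (Sum.inr l) (Sum.inl (l3, c)) (Sum.inl (l4, d)) +
      pc P L (Sum.inl (l2, b)) (Sum.inl (l3, c)) (Sum.inr l) *
      pc P L (Sum.inr l) (Sum.inl (l1, a)) (Sum.inl (l4, d)) +
      pc P L (Sum.inl (l3, c)) (Sum.inl (l1, a)) (Sum.inr l) *
      pc P L (Sum.inr l) (Sum.inl (l2, b)) (Sum.inl (l4, d))) = 0 := by
    refine Finset.sum_eq_zero fun l _ => ?_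
    rw [pb1_r3, pb1_r3, pb1_r3, zero_mul, zero_mul, zero_mul, add_zero, add_zero]
  rw [h2, add_zero, Fintype.sum_prod_type]
  show ∑ t : L, ∑ e : Fin Q.r,
    ((if l1 = l2 ∧ l2 = t then Q.stc a b e else 0) * (if t = l3 ∧ l3 = l4 then Q.stc e c d else 0) +
     (if l2 = l3 ∧ l3 = t then Q.stc b c e else 0) * (if t = l1 ∧ l1 = l4 then Q.stc e a d else 0) +
     (if l3 = l1 ∧ l1 = t then Q.stc c a e else 0) * (if t = l2 ∧ l2 = l4 then Q.stc e b d else 0)) = 0
  by_cases h : l1 = l2 ∧ l2 = l3 ∧ l3 = l4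
  · obtain ⟨rfl, rfl, rfl⟩ := h
    rw [Finset.sum_eq_single l1]
    · rw [← stc_jac a b c d]
      refine Finset.sum_congr rfl fun e _ => ?_
      rw [if_pos ⟨rfl, rfl⟩, if_pos ⟨rfl, rfl⟩, if_pos ⟨rfl, rfl⟩, if_pos ⟨rfl, rfl⟩,
        if_pos ⟨rfl, rfl⟩, if_pos ⟨rfl, rfl⟩]
    · intro t _ ht
      refine Finset.sum_eq_zero fun e _ => ?_
      rw [pb1_ite' ht, pb1_ite' ht, pb1_ite' ht, add_zero, add_zero]
    · intro h1
      exact absurd (Finset.mem_univ l1) h1
  · refine Finset.sum_eq_zero fun t _ => Finset.sum_eq_zero fun e _ => ?_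
    have h1 : ¬ (l2 = l3 ∧ l3 = l1 ∧ l1 = l4) := fun h1 =>
      h ⟨(h1.1.trans h1.2.1).symm, h1.1, h1.2.1.trans h1.2.2⟩
    have h3 : ¬ (l3 = l1 ∧ l1 = l2 ∧ l2 = l4) := fun h1 =>
      h ⟨h1.2.1, (h1.1.trans h1.2.1).symm, h1.1.trans (h1.2.1.trans h1.2.2)⟩
    rw [pb1_ite h, pb1_ite h1, pb1_ite h3, add_zero, add_zero]

/-- The system of derivations of the ring of families, with the canonical 1-form. -/
noncomputable def pDS (hP : PQ Q P) (ε : L → Bool) : DS (RR G K X L) (PIx P L) where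
  D := pD P L
  c := pc P L
  comm := pD_comm hP
  skew := pc_skew
  jac := pc_jac
  θ := pθ P ε

end

end Pool.Agent.MTF
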