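import Pool.Agent.MTF.PB0
import Pool.Agent.MTF.PA4

/-! # MTF, part P : commutators of the derivations -/

set_option linter.unusedSectionVars false

namespace Pool.Agent.MTF

open AffGrp

section
variable {G : AffGrp} {K W X : Type} [Field K] [Algebra ℂ K] [Group W] [Fintype W]
  [MulSemiringAction W K] [SMulCommClass W ℂ K] [AddCommGroup X] [DistribMulAction W X]
variable {Q : TQD G K W X}
variable {L : Type} [Fintype L] [DecidableEq L]

section
variable {H : AffGrp}

theorem pb1a_csmul (c : ℂ) (F : H.KO K) (x : H.X) :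
    (c • F).1 x = algebraMap ℂ K c * F.1 x := by
  have h : (c • F).1 x = c • F.1 x := rfl
  rw [h, Algebra.smul_def]

/-- the commutator of two left invariant fields -/
theorem pb1a_br (D D' : H.Lie) (F : H.KO K) :
    derK K D (derK K D' F) - derK K D' (derK K D F) = derK K (H.br D D') F := by
  have h : (derK K D ∘ₗ derK K D' - derK K D' ∘ₗ derK K D : H.KO K →ₗ[K] H.KO K) =
      derK K (H.br D D') := by
    apply KO_hom_ext
    intro f
    rw [LinearMap.sub_apply, LinearMap.comp_apply, LinearMap.comp_apply, derK_inc, derK_inc,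
      derK_inc, derK_inc, derK_inc, H.der_br]
    exact KO_ext fun x => (map_sub (algebraMap ℂ K) _ _).symm
  exact LinearMap.congr_fun h F

theorem pb1a_add (D D' : H.Lie) (F : H.KO K) :
    derK K (D + D') F = derK K D F + derK K D' F := by
  have h : (derK K (D + D') : H.KO K →ₗ[K] H.KO K) = derK K D + derK K D' := by
    apply KO_hom_ext
    intro f
    rw [LinearMap.add_apply, derK_inc, derK_inc, derK_inc]
    exact KO_ext fun x => map_add (algebraMap ℂ K) _ _
  exact LinearMap.congr_fun h F

theorem pb1a_smul (c : ℂ) (D : H.Lie) (F : H.KO K) :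
    derK K (c • D) F = c • derK K D F := by
  have h : (derK K (c • D) : H.KO K →ₗ[K] H.KO K) = algebraMap ℂ K c • derK K D := by
    apply KO_hom_ext
    intro f
    rw [LinearMap.smul_apply, derK_inc, derK_inc]
    exact KO_ext fun x => map_mul (algebraMap ℂ K) _ _
  refine (LinearMap.congr_fun h F).trans (KO_ext fun x => ?_)
  rw [LinearMap.smul_apply, KO_smul, pb1a_csmul]

theorem pb1a_zero (F : H.KO K) : derK K (0 : H.Lie) F = 0 := by
  have h := pb1a_add (0 : H.Lie) 0 F
  rw [add_zero] at h
  exact left_eq_add.1 h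

theorem pb1a_sum {κ : Type} (s : Finset κ) (c : κ → ℂ) (D : κ → H.Lie) (F : H.KO K) :
    derK K (∑ i ∈ s, c i • D i) F = ∑ i ∈ s, c i • derK K (D i) F := by
  classical
  induction s using Finset.induction_on with
  | empty => rw [Finset.sum_empty, Finset.sum_empty, pb1a_zero]
  | insert i s hi ih =>
    rw [Finset.sum_insert hi, Finset.sum_insert hi, pb1a_add, pb1a_smul, ih]

end

theorem pb1a_upd (l : L) (x y : G.X) : Function.update (1 : L → G.X) l x * Function.update (1 : L → G.X) l y =
    Function.update (1 : L → G.X) l (x * y) := by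
  funext i
  by_cases h : i = l
  · subst h
    rw [Pi.mul_apply, Function.update_self, Function.update_self, Function.update_self]
  · rw [Pi.mul_apply, Function.update_of_ne h, Function.update_of_ne h, Function.update_of_ne h,
      Pi.one_apply, mul_one]

theorem pb1a_comm {l l' : L} (h : l ≠ l') (x y : G.X) :
    Function.update (1 : L → G.X) l' y * Function.update (1 : L → G.X) l x =
    Function.update (1 : L → G.X) l x * Function.update (1 : L → G.X) l' y := by
  funext i
  rw [Pi.mul_apply, Pi.mul_apply]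
  by_cases h1 : i = l
  · subst h1
    rw [Function.update_self, Function.update_of_ne h, Pi.one_apply, one_mul, mul_one]
  · rw [Function.update_of_ne h1, Pi.one_apply, mul_one, one_mul]

theorem pb1a_sl (l : L) (D : G.Lie) (f : (G.pow L).O) :
    slO1 (1 : L → G.X) l ((G.pow L).der (emb l D) f) = G.der D (slO1 (1 : L → G.X) l f) := by
  apply Subtype.ext
  funext x
  show D.1 (slO1 (1 : L → G.X) l ((G.pow L).lt (Function.update (1 : L → G.X) l x) f)) =
    D.1 (G.lt x (slO1 (1 : L → G.X) l f))
  congr 1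
  apply Subtype.ext
  funext y
  exact congrArg f.1 (pb1a_upd l x y)

theorem pb1a_emb (l : L) (D D' : G.Lie) :
    (G.pow L).br (emb l D) (emb l D') = emb l (G.br D D') := by
  apply (G.pow L).Lie_ext
  intro f
  show D.1 (slO1 (1 : L → G.X) l ((G.pow L).der (emb l D') f)) -
    D'.1 (slO1 (1 : L → G.X) l ((G.pow L).der (emb l D) f)) =
    D.1 (G.der D' (slO1 (1 : L → G.X) l f)) - D'.1 (G.der D (slO1 (1 : L → G.X) l f))
  rw [pb1a_sl, pb1a_sl]

theorem pb1a_ne {l l' : L} (h : l ≠ l') (D D' : G.Lie) :
    (G.pow L).br (emb l D) (emb l' D') = 0 := by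
  apply (G.pow L).Lie_ext
  intro f
  obtain ⟨n, a, b, hf⟩ := (G.pow L).mul_mem f.1 f.2
  have h1 : slO1 (1 : L → G.X) l ((G.pow L).der (emb l' D') f) =
      ∑ i, D'.1 (slO1 (1 : L → G.X) l' (b i)) • slO1 (1 : L → G.X) l (a i) := by
    apply Subtype.ext
    funext x
    have h2 : slO1 (1 : L → G.X) l' ((G.pow L).lt (Function.update (1 : L → G.X) l x) f) =
        ∑ i, (a i).1 (Function.update (1 : L → G.X) l x) • slO1 (1 : L → G.X) l' (b i) := by
      apply Subtype.ext
      funext y
      refine (hf _ _).trans ?_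
      simp only [AddSubmonoidClass.coe_finsetSum, Finset.sum_apply]
      rfl
    show D'.1 (slO1 (1 : L → G.X) l' ((G.pow L).lt (Function.update (1 : L → G.X) l x) f)) = _
    rw [h2, map_sum]
    simp only [AddSubmonoidClass.coe_finsetSum, Finset.sum_apply]
    refine Finset.sum_congr rfl fun i _ => ?_
    rw [map_smul]
    exact mul_comm _ _
  have h3 : slO1 (1 : L → G.X) l' ((G.pow L).der (emb l D) f) =
      ∑ i, D.1 (slO1 (1 : L → G.X) l (a i)) • slO1 (1 : L → G.X) l' (b i) := by
    apply Subtype.ext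
    funext y
    have h2 : slO1 (1 : L → G.X) l ((G.pow L).lt (Function.update (1 : L → G.X) l' y) f) =
        ∑ i, (b i).1 (Function.update (1 : L → G.X) l' y) • slO1 (1 : L → G.X) l (a i) := by
      apply Subtype.ext
      funext x
      refine ((congrArg f.1 (pb1a_comm h x y)).trans (hf _ _)).trans ?_
      simp only [AddSubmonoidClass.coe_finsetSum, Finset.sum_apply]
      refine Finset.sum_congr rfl fun i _ => ?_
      exact mul_comm _ _
    show D.1 (slO1 (1 : L → G.X) l ((G.pow L).lt (Function.update (1 : L → G.X) l' y) f)) = _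
    rw [h2, map_sum]
    simp only [AddSubmonoidClass.coe_finsetSum, Finset.sum_apply]
    refine Finset.sum_congr rfl fun i _ => ?_
    rw [map_smul]
    exact mul_comm _ _
  show D.1 (slO1 (1 : L → G.X) l ((G.pow L).der (emb l' D') f)) -
    D'.1 (slO1 (1 : L → G.X) l' ((G.pow L).der (emb l D) f)) = 0
  rw [h1, h3, map_sum, map_sum, sub_eq_zero]
  refine Finset.sum_congr rfl fun i _ => ?_
  rw [map_smul, map_smul, smul_eq_mul, smul_eq_mul, mul_comm]

/-- [MTF-PB1a] PROOF. `K`-linear in the coefficient; for `f : (G.pow L).O`: `(G.pow L).der_br` (B0.lean) for `emb l D`, `emb l D'`, and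
`(G.pow L).br (emb l D) (emb l D') = emb l (G.br D D')` (both sides on functions `f`; `slO1`). Then `G.br (Q.D a) (Q.D b) = ∑ c, stc a b c • Q.D c`. -/
theorem DL_comm_same (l : L) (a b : Fin Q.r) (F : RR G K X L) :
    PD.DL (Q := Q) l a (PD.DL (Q := Q) l b F) - PD.DL (Q := Q) l b (PD.DL (Q := Q) l a F) =
      ∑ c, Q.stc a b c • PD.DL (Q := Q) l c F := by
  apply AddMonoidAlgebra.coeff_injective
  apply Finsupp.ext
  intro m
  rw [AddMonoidAlgebra.coeff_sub, Finsupp.sub_apply, DL_coeff, DL_coeff, DL_coeff, DL_coeff, pb1a_br,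
    pb1a_emb, AddMonoidAlgebra.coeff_sum, Finsupp.finsetSum_apply]
  have h1 : G.br (Q.D a) (Q.D b) = ∑ c, Q.stc a b c • Q.D c :=
    (Q.D.sum_repr (G.br (Q.D a) (Q.D b))).symm
  rw [h1, map_sum]
  simp only [map_smul]
  rw [pb1a_sum]
  rfl

/-- [MTF-PB1a] derivatives in different legs commute. PROOF. `K`-linearity reduces to `(G.pow L).der (emb l D)`, `(G.pow L).der (emb l' D')` on
`(G.pow L).O`; `Algebra.adjoin_induction`: on a generator `x ↦ f (x i)` at least one of them is `0`; for products use `der_leib`. -/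
theorem DL_comm_ne {l l' : L} (h : l ≠ l') (a b : Fin Q.r) (F : RR G K X L) :
    PD.DL (Q := Q) l a (PD.DL (Q := Q) l' b F) = PD.DL (Q := Q) l' b (PD.DL (Q := Q) l a F) := by
  apply AddMonoidAlgebra.coeff_injective
  apply Finsupp.ext
  intro m
  rw [DL_coeff, DL_coeff, DL_coeff, DL_coeff, ← sub_eq_zero, pb1a_br, pb1a_ne h, pb1a_zero]

end

end Pool.Agent.MTF
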