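import Pool.Agent.MTF.PB1

/-! # MTF, part P : the 2-form -/

set_option linter.unusedSectionVars false

namespace Pool.Agent.MTF

open AffGrp

theorem pb1c_nz (R : Type) [CommRing R] : (-0 : R) = 0 := neg_zero

theorem pb1c_x {R ι : Type} [CommRing R] [Algebra ℂ R] [Fintype ι] (S : DS R ι) (i j : ι) {x : R}
    (h1 : S.D i (S.θ j) = x) (h2 : S.D j (S.θ i) = 0) (h3 : ∀ k, S.c i j k • S.θ k = 0) :
    S.ω i j = x := by
  unfold DS.ω
  rw [h1, h2, Finset.sum_eq_zero fun k _ => h3 k]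
  ring

theorem pb1c_y {R ι : Type} [CommRing R] [Algebra ℂ R] [Fintype ι] (S : DS R ι) (i j : ι) {y : R}
    (h1 : S.D i (S.θ j) = 0) (h2 : S.D j (S.θ i) = y) (h3 : ∀ k, S.c i j k • S.θ k = 0) :
    S.ω i j = -y := by
  unfold DS.ω
  rw [h1, h2, Finset.sum_eq_zero fun k _ => h3 k]
  ring

theorem pb1c_z {R ι : Type} [CommRing R] [Algebra ℂ R] [Fintype ι] (S : DS R ι) (i j : ι) {z : R}
    (h1 : S.D i (S.θ j) = 0) (h2 : S.D j (S.θ i) = 0) (h3 : ∑ k, S.c i j k • S.θ k = z) :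
    S.ω i j = -z := by
  unfold DS.ω
  rw [h1, h2, h3]
  ring

section
variable {G : AffGrp} {K W X : Type} [Field K] [Algebra ℂ K] [Group W] [Fintype W]
  [MulSemiringAction W K] [SMulCommClass W ℂ K] [AddCommGroup X] [DistribMulAction W X]
variable {Q : TQD G K W X}
variable {P : PD Q}
variable {L : Type} [Fintype L] [DecidableEq L]

theorem pb1c_cr (ε : L → Bool) (i : PIx P L) (j : Fin P.n ⊕ Fin P.n) (k : PIx P L) :
    pc P L i (Sum.inr j) k • (pθ P ε k : RR G K X L) = 0 := by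
  have : pc P L i (Sum.inr j) k = 0 := by
    cases i <;> cases k <;> rfl
  rw [this, zero_smul]

theorem pb1c_th0 (ε : L → Bool) (i : PIx P L) (j : Fin P.n) :
    pD P L i (pθ P ε (Sum.inr (Sum.inl j)) : RR G K X L) = 0 := map_zero (pD P L i)

theorem pb1c_dd_flat (j : Fin P.n) (a : Fin Q.r) : P.dd j (Q.flat Q.c a) = P.sig j a := by
  unfold PD.sig TQD.flat
  rw [map_sum]
  exact Finset.sum_congr rfl fun b _ => (P.dd j).map_smul _ _

theorem pb1c_dd_int (j : Fin P.n) (z : ℤ) (x : K) : P.dd j ((z : K) * x) = (z : K) * P.dd j x := by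
  rw [Derivation.leibniz, Derivation.map_intCast, smul_zero, add_zero, smul_eq_mul]

theorem pb1c_sum (ε : L → Bool) (l l' : L) (a b : Fin Q.r) :
    ∑ k, pc P L (Sum.inl (l, a)) (Sum.inl (l', b)) k • (pθ P ε k : RR G K X L) =
      if l = l' then algebraMap K (RR G K X L)
        (((sgn (ε l) : ℤ) : K) * ∑ c, Q.stc a b c • Q.flat Q.c c) else 0 := by
  rw [Fintype.sum_sum_type]
  have h3 : ∑ k : Fin P.n ⊕ Fin P.n, pc P L (Sum.inl (l, a)) (Sum.inl (l', b)) (Sum.inr k) •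
      (pθ P ε (Sum.inr k) : RR G K X L) = 0 := by
    refine Finset.sum_eq_zero fun k _ => ?_
    have : pc P L (Sum.inl (l, a)) (Sum.inl (l', b)) (Sum.inr k) = 0 := rfl
    rw [this, zero_smul]
  rw [h3, add_zero, Fintype.sum_prod_type]
  have h4 : ∀ (t : L) (c : Fin Q.r), pc P L (Sum.inl (l, a)) (Sum.inl (l', b)) (Sum.inl (t, c)) =
      if l = l' ∧ l' = t then Q.stc a b c else 0 := fun _ _ => rfl
  have h5 : ∀ (t : L) (c : Fin Q.r), (pθ P ε (Sum.inl (t, c)) : RR G K X L) =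
      algebraMap K (RR G K X L) (((sgn (ε t) : ℤ) : K) * Q.flat Q.c c) := fun _ _ => rfl
  simp only [h4, h5]
  by_cases hl : l = l'
  · subst hl
    rw [if_pos rfl, Finset.sum_eq_single l]
    · simp only [and_self, if_true]
      rw [Finset.mul_sum, map_sum]
      refine Finset.sum_congr rfl fun c _ => ?_
      rw [mul_smul_comm]
      exact (((Algebra.ofId K (RR G K X L)).restrictScalars ℂ).toLinearMap.map_smul
        (Q.stc a b c) (((sgn (ε l) : ℤ) : K) * Q.flat Q.c c)).symm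
    · intro t _ ht
      refine Finset.sum_eq_zero fun c _ => ?_
      rw [if_neg (fun h => ht h.2.symm), zero_smul]
    · intro h
      exact absurd (Finset.mem_univ l) h
  · rw [if_neg hl]
    refine Finset.sum_eq_zero fun t _ => Finset.sum_eq_zero fun c _ => ?_
    rw [if_neg (fun h => hl h.1), zero_smul]

/-- [MTF-PB1c] The 2-form. PROOF. Unfold `DS.ω`; `DL_algebraMap`, `DN_algebraMap`, `DX_algebraMap`, `hP.dd_y`; the sum over `PIx` of the
structure constants. `ω((l,a),(l,b)) = - ε_l κ(s,[D_a,D_b])`. -/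
theorem ω_LL (hP : PQ Q P) (ε : L → Bool) (l l' : L) (a b : Fin Q.r) :
    (pDS (P := P) hP ε).ω (Sum.inl (l, a)) (Sum.inl (l', b)) =
      if l = l' then algebraMap K (RR G K X L) (- (((sgn (ε l) : ℤ) : K) * ∑ c, Q.stc a b c • Q.flat Q.c c)) else 0 := by
  refine (pb1c_z (pDS (P := P) hP ε) (Sum.inl (l, a)) (Sum.inl (l', b)) (DL_algebraMap l a _)
    (DL_algebraMap l' b _) (pb1c_sum ε l l' a b)).trans ?_
  split_ifs
  · exact (map_neg (algebraMap K (RR G K X L)) _).symm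
  · exact pb1c_nz (RR G K X L)

/-- [MTF-PB1c] `ω((l,a), ∂_j) = - ε_l κ(∂_j s, D_a)`. PROOF. `DX_algebraMap`, `P.dd j` is `ℂ`-linear and kills integers. -/
theorem ω_LX (hP : PQ Q P) (ε : L → Bool) (l : L) (a : Fin Q.r) (j : Fin P.n) :
    (pDS (P := P) hP ε).ω (Sum.inl (l, a)) (Sum.inr (Sum.inl j)) =
      algebraMap K (RR G K X L) (- (((sgn (ε l) : ℤ) : K) * P.sig j a)) := by
  refine (pb1c_y (pDS (P := P) hP ε) (Sum.inl (l, a)) (Sum.inr (Sum.inl j))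
    (pb1c_th0 ε (Sum.inl (l, a)) j) (DX_algebraMap j (((sgn (ε l) : ℤ) : K) * Q.flat Q.c a))
    (pb1c_cr (P := P) ε (Sum.inl (l, a)) (Sum.inl j))).trans ?_
  rw [pb1c_dd_int, pb1c_dd_flat]
  exact (map_neg (algebraMap K (RR G K X L)) _).symm

theorem ω_LN (hP : PQ Q P) (ε : L → Bool) (l : L) (a : Fin Q.r) (j : Fin P.n) :
    (pDS (P := P) hP ε).ω (Sum.inl (l, a)) (Sum.inr (Sum.inr j)) = 0 := by
  exact pb1c_x (pDS (P := P) hP ε) (Sum.inl (l, a)) (Sum.inr (Sum.inr j)) (DL_algebraMap l a _)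
    (DN_algebraMap j _) (pb1c_cr (P := P) ε (Sum.inl (l, a)) (Sum.inr j))

theorem ω_XX (hP : PQ Q P) (ε : L → Bool) (i j : Fin P.n) :
    (pDS (P := P) hP ε).ω (Sum.inr (Sum.inl i)) (Sum.inr (Sum.inl j)) = 0 := by
  exact pb1c_x (pDS (P := P) hP ε) (Sum.inr (Sum.inl i)) (Sum.inr (Sum.inl j))
    (pb1c_th0 ε (Sum.inr (Sum.inl i)) j) (pb1c_th0 ε (Sum.inr (Sum.inl j)) i)
    (pb1c_cr (P := P) ε (Sum.inr (Sum.inl i)) (Sum.inl j))

theorem ω_NN (hP : PQ Q P) (ε : L → Bool) (i j : Fin P.n) :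
    (pDS (P := P) hP ε).ω (Sum.inr (Sum.inr i)) (Sum.inr (Sum.inr j)) = 0 := by
  exact pb1c_x (pDS (P := P) hP ε) (Sum.inr (Sum.inr i)) (Sum.inr (Sum.inr j))
    (DN_algebraMap i _) (DN_algebraMap j _) (pb1c_cr (P := P) ε (Sum.inr (Sum.inr i)) (Sum.inr j))

/-- [MTF-PB1c] `ω(∂_i, N_j) = δ_ij`. PROOF. `D_∂i θ_Nj = dd i (y j)`, `hP.dd_y`. -/
theorem ω_XN (hP : PQ Q P) (ε : L → Bool) (i j : Fin P.n) :
    (pDS (P := P) hP ε).ω (Sum.inr (Sum.inl i)) (Sum.inr (Sum.inr j)) = if i = j then 1 else 0 := by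
  refine (pb1c_x (pDS (P := P) hP ε) (Sum.inr (Sum.inl i)) (Sum.inr (Sum.inr j))
    (DX_algebraMap i (P.y j)) (pb1c_th0 ε (Sum.inr (Sum.inr j)) i)
    (pb1c_cr (P := P) ε (Sum.inr (Sum.inl i)) (Sum.inr j))).trans ?_
  rw [hP.dd_y]
  split_ifs
  · exact map_one _
  · exact map_zero _

end

end Pool.Agent.MTF
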