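import Pool.Agent.MTF.PB2a

/-! # MTF, part P : the centraliser of s acts on eigenfamilies -/

set_option linter.unusedSectionVars false

namespace Pool.Agent.MTF

open AffGrp

section
variable {G : AffGrp} {K W X : Type} [Field K] [Algebra ℂ K] [Group W] [Fintype W]
  [MulSemiringAction W K] [SMulCommClass W ℂ K] [AddCommGroup X] [DistribMulAction W X]
variable {Q : TQD G K W X}
variable {P : PD Q}
variable {L : Type} [Fintype L] [DecidableEq L]

theorem pb2_coeff_sum {κ : Type} (t : Finset κ) (F : κ → RR G K X L) (m : X) :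
    (∑ i ∈ t, F i).coeff m = ∑ i ∈ t, (F i).coeff m := by
  classical
  induction t using Finset.induction_on with
  | empty => rfl
  | insert a t ha ih =>
    rw [Finset.sum_insert ha, Finset.sum_insert ha, ← ih]
    rfl

theorem pb2_AL_coeff (ε : L → Bool) (l : L) (a : Fin Q.r) (F : RR G K X L) (m : X) :
    (P.AL ε l a F).coeff m = derK K (emb l (Q.D a)) (F.coeff m) -
      sgn (ε l) • ∑ j, P.sig j a • (((P.cd j m : ℤ) : K) • F.coeff m) := by
  have h1 : (P.AL ε l a F).coeff m = (PD.DL (Q := Q) l a F).coeff m -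
      sgn (ε l) • (∑ j, P.sig j a • P.DN L j F).coeff m := rfl
  rw [h1, DL_coeff, pb2_coeff_sum]
  refine congrArg (fun z => derK K (emb l (Q.D a)) (F.coeff m) - sgn (ε l) • z)
    (Finset.sum_congr rfl fun j _ => ?_)
  have h2 : (P.sig j a • P.DN L j F).coeff m = P.sig j a • (P.DN L j F).coeff m := rfl
  rw [h2, DN_coeff]

/-- the value of a coefficient -/
def pb2_ev (m : X) (k : L → G.X) : RR G K X L →ₗ[K] K where
  toFun F := (F.coeff m).1 k
  map_add' _ _ := rfl
  map_smul' _ _ := rfl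

theorem pb2_ev_smul (m : X) (k : L → G.X) (x : ℂ) (F : RR G K X L) :
    pb2_ev m k (x • F) = x • pb2_ev m k F := rfl

theorem pb2_ev_brK (m : X) (k : L → G.X) (β : Fin Q.r → RR G K X L) (c : Fin Q.r) :
    pb2_ev m k (Q.flat (Q.brK (fun a => algebraMap K (RR G K X L) (Q.c a)) β) c) =
      Q.flat (Q.brK Q.c fun b => pb2_ev m k (β b)) c := by
  unfold TQD.flat TQD.brK
  rw [map_sum]
  refine Finset.sum_congr rfl fun b _ => ?_
  rw [pb2_ev_smul, map_sum]
  refine congrArg (fun z => Q.kap b c • z) (Finset.sum_congr rfl fun a _ => ?_)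
  rw [map_sum]
  refine Finset.sum_congr rfl fun b' _ => ?_
  rw [pb2_ev_smul, ← Algebra.smul_def, map_smul, smul_eq_mul]

/-- [MTF-PB2] `κ(∂_m s, z) = ∑_j m_j κ(∂_j s, z)`, `m_j` the coordinates of `m`. PROOF. `PD.dX`, `kapK_flat`. -/
theorem kapK_dXs (m : X) (z : Fin Q.r → K) :
    Q.kapK (P.dXs m) z = ∑ j, ((P.cd j m : ℤ) : K) * ∑ a, P.sig j a * z a := by
  have h1 : ∀ a, Q.flat (P.dXs m) a = ∑ j, ((P.cd j m : ℤ) : K) * P.sig j a := by
    intro a
    unfold PD.sig TQD.flat
    have h2 : ∀ b, P.dXs m b = ∑ j, ((P.cd j m : ℤ) : K) * P.dd j (Q.c b) := by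
      intro b
      show (∑ j, P.cd j m • P.dd j) (Q.c b) = _
      have h3 := map_sum (Derivation.coeFnAddMonoidHom (R := ℂ) (A := K) (M := K))
        (fun j => P.cd j m • P.dd j) Finset.univ
      have h4 := congrFun h3 (Q.c b)
      rw [Finset.sum_apply] at h4
      refine Eq.trans h4 (Finset.sum_congr rfl fun j _ => ?_)
      show P.cd j m • P.dd j (Q.c b) = _
      rw [zsmul_eq_mul]
    rw [Finset.sum_congr rfl fun b _ => congrArg (fun z => Q.kap b a • z) (h2 b)]
    simp only [Finset.smul_sum, Finset.mul_sum]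
    rw [Finset.sum_comm]
    refine Finset.sum_congr rfl fun j _ => Finset.sum_congr rfl fun b _ => ?_
    rw [mul_smul_comm]
  rw [kapK_flat, Finset.sum_congr rfl fun a _ => congrArg (fun y => y * z a) (h1 a)]
  simp only [Finset.sum_mul, Finset.mul_sum]
  rw [Finset.sum_comm]
  exact Finset.sum_congr rfl fun j _ => Finset.sum_congr rfl fun a _ => mul_assoc _ _ _

/-- [MTF-PB2] `κ(∂_m s, s) = val m`. PROOF. `hT.hw m` gives `V`, `v` with `(Q.sE V).mulVec v = Q.val m • v` and `v ≠ 0` (`pair`, `hT.Eu_ne`);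
`hP.gr V m Q.c v` (`brK_self`) and `Q.zE V Q.c = Q.sE V`. -/
theorem kapK_dXs_s (hT : TQ Q) (hP : PQ Q P) (m : X) : Q.kapK (P.dXs m) Q.c = Q.val m := by
  obtain ⟨V, v, v', hV⟩ := hT.hw m
  have h1 := hP.gr V m Q.c v (brK_self Q.c) hV.v_eig
  have h2 : Q.zE V Q.c = Q.sE V := rfl
  rw [h2, hV.v_eig] at h1
  have hv : v ≠ 0 := by
    rintro rfl
    have h3 := hV.pair
    rw [Finset.sum_congr rfl fun a _ => show (0 : V.ι → K) a * v' a = 0 from zero_mul _,
      Finset.sum_const_zero] at h3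
    exact hT.Eu_ne m h3.symm
  obtain ⟨a, ha⟩ := Function.ne_iff.1 hv
  have h3 := congrFun h1 a
  have h4 : Q.val m * v a = Q.kapK (P.dXs m) Q.c * v a := h3
  exact (mul_right_cancel₀ ha h4).symm

/-- [MTF-PB2] (P3.1): `a_l` is orthogonal to the centraliser of `s`. PROOF. Compare the coefficients at `m`: `gr_leg` for `F.coeff m`, weight
`sgn (ε l) • m`; `kapK_dXs`, `P.cd j (sgn • m) = sgn * P.cd j m`. -/
theorem AL_ker (hP : PQ Q P) {ε : L → Bool} {F : RR G K X L} (hF : IsEF Q ε F) (l : L)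
    {z : Fin Q.r → K} (hz : Q.brK Q.c z = 0) : ∑ a, z a • P.AL ε l a F = 0 := by
  refine AddMonoidAlgebra.coeff_injective (Finsupp.ext fun m => ?_)
  rw [pb2_coeff_sum]
  have h1 : ∀ a, (z a • P.AL ε l a F).coeff m = z a • derK K (emb l (Q.D a)) (F.coeff m) -
      (z a * ∑ j, ((sgn (ε l) : ℤ) : K) * (P.sig j a * ((P.cd j m : ℤ) : K))) • F.coeff m := by
    intro a
    have h2 : (z a • P.AL ε l a F).coeff m = z a • (P.AL ε l a F).coeff m := rfl
    rw [h2, pb2_AL_coeff, smul_sub, mul_smul]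
    refine congrArg (fun y => z a • derK K (emb l (Q.D a)) (F.coeff m) - z a • y) ?_
    rw [← Int.cast_smul_eq_zsmul K, Finset.smul_sum, Finset.sum_smul]
    refine Finset.sum_congr rfl fun j _ => ?_
    rw [smul_smul, smul_smul, mul_assoc]
  rw [Finset.sum_congr rfl fun a _ => h1 a, Finset.sum_sub_distrib, gr_leg hP l (hF m l) hz,
    ← Finset.sum_smul, ← sub_smul]
  have h3 : Q.kapK (P.dXs (sgn (ε l) • m)) z -
      ∑ a, z a * ∑ j, ((sgn (ε l) : ℤ) : K) * (P.sig j a * ((P.cd j m : ℤ) : K)) = 0 := by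
    rw [kapK_dXs, sub_eq_zero]
    simp only [Finset.mul_sum]
    rw [Finset.sum_comm]
    refine Finset.sum_congr rfl fun a _ => Finset.sum_congr rfl fun j _ => ?_
    rw [map_zsmul, smul_eq_mul, Int.cast_mul]
    ring
  rw [h3, zero_smul]
  rfl

/-- [MTF-PB2] `rho` inverts `ad s` on covectors with values in the ring of families that are orthogonal to the centraliser.
PROOF. `hP.rho_im` applied to the values at `m`, `k` (`AddMonoidAlgebra.ext`, `KO_ext`). -/
theorem rho_im_R (hP : PQ Q P) (α : Fin Q.r → RR G K X L)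
    (h : ∀ z : Fin Q.r → K, Q.brK Q.c z = 0 → ∑ a, z a • α a = 0) (c : Fin Q.r) :
    Q.flat (Q.brK (fun a => algebraMap K (RR G K X L) (Q.c a)) fun b => ∑ a, P.rho a b • α a) c = α c := by
  refine AddMonoidAlgebra.coeff_injective (Finsupp.ext fun m => KO_ext fun k => ?_)
  have h1 := pb2_ev_brK (Q := Q) m k (fun b => ∑ a, P.rho a b • α a) c
  have h2 : ∀ b, pb2_ev m k (∑ a, P.rho a b • α a) = ∑ a, P.rho a b * pb2_ev m k (α a) := by
    intro b
    rw [map_sum]
    refine Finset.sum_congr rfl fun a _ => ?_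
    rw [map_smul, smul_eq_mul]
  have h3 := hP.rho_im (fun a => pb2_ev m k (α a)) fun z hz => by
    have h4 := congrArg (pb2_ev m k) (h z hz)
    rw [map_sum, map_zero] at h4
    rw [← h4]
    refine Finset.sum_congr rfl fun a _ => ?_
    rw [map_smul, smul_eq_mul, mul_comm]
  have h5 := congrFun h3 c
  show pb2_ev m k (Q.flat (Q.brK (fun a => algebraMap K (RR G K X L) (Q.c a))
    fun b => ∑ a, P.rho a b • α a) c) = pb2_ev m k (α c)
  rw [h1, ← h5]
  exact congrArg (fun y => Q.flat (Q.brK Q.c y) c) (funext h2)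

end

end Pool.Agent.MTF
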