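import Pool.Agent.MTF.PB0
import Pool.Agent.MTF.PA4
import Pool.Agent.MTF.LF4
import Pool.Agent.MTF.LD1

/-! # MTF, part P : the centraliser of s acts on eigenfunctions -/

set_option linter.unusedSectionVars false

namespace Pool.Agent.MTF

open AffGrp

section
variable {G : AffGrp} {K W X : Type} [Field K] [Algebra ℂ K] [Group W] [Fintype W]
  [MulSemiringAction W K] [SMulCommClass W ℂ K] [AddCommGroup X] [DistribMulAction W X]
variable {Q : TQD G K W X}
variable {P : PD Q}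
variable {L : Type} [Fintype L] [DecidableEq L]

theorem pb2a_der {E : Rep G} {φ : E.ι → G.O}
    (h : ∀ x y a, (φ a).1 (x * y) = ∑ b, (φ b).1 x * E.ρ y b a) (D : G.Lie) (a : E.ι) :
    derK K D (inc K (φ a)) = ∑ b, algebraMap ℂ K (D.1 (E.co b a)) • inc K (φ b) := by
  apply KO_ext
  intro x
  rw [derK_inc, inc_apply, KO_sum]
  have h1 : G.lt x (φ a) = ∑ b, (φ b).1 x • E.co b a := by
    apply Subtype.ext
    funext y
    show (φ a).1 (x * y) = _
    rw [h]
    have h2 : (∑ b, (φ b).1 x • E.co b a : G.O).1 y = ∑ b, ((φ b).1 x • E.co b a : G.O).1 y := by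
      rw [AddSubmonoidClass.coe_finsetSum, Finset.sum_apply]
    rw [h2]
    rfl
  have h3 : (G.der D (φ a)).1 x = ∑ b, (φ b).1 x * D.1 (E.co b a) := by
    show D.1 (G.lt x (φ a)) = _
    rw [h1, map_sum]
    refine Finset.sum_congr rfl fun b _ => ?_
    rw [map_smul, smul_eq_mul]
  rw [h3, map_sum]
  refine Finset.sum_congr rfl fun b _ => ?_
  rw [KO_smul, inc_apply, map_mul, mul_comm]

theorem pb2a_sum {E : Rep G} {φ : E.ι → G.O}
    (h : ∀ x y a, (φ a).1 (x * y) = ∑ b, (φ b).1 x * E.ρ y b a) (z : Fin Q.r → K) (r : E.ι → K) :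
    ∑ j, z j • derK K (Q.D j) (∑ a, r a • inc K (φ a)) =
      ∑ b, ((Q.zE E z).mulVec r) b • inc K (φ b) := by
  have h1 : ∀ j, z j • derK K (Q.D j) (∑ a, r a • inc K (φ a)) =
      ∑ b, (∑ a, z j * algebraMap ℂ K ((Q.D j).1 (E.co b a)) * r a) • inc K (φ b) := by
    intro j
    rw [map_sum, Finset.smul_sum]
    have h2 : ∀ a, z j • derK K (Q.D j) (r a • inc K (φ a)) =
        ∑ b, (z j * algebraMap ℂ K ((Q.D j).1 (E.co b a)) * r a) • inc K (φ b) := by
      intro a
      rw [map_smul, pb2a_der h, Finset.smul_sum, Finset.smul_sum]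
      refine Finset.sum_congr rfl fun b _ => ?_
      rw [smul_smul, smul_smul]
      congr 1
      ring
    rw [Finset.sum_congr rfl fun a _ => h2 a, Finset.sum_comm]
    refine Finset.sum_congr rfl fun b _ => ?_
    rw [Finset.sum_smul]
  rw [Finset.sum_congr rfl fun j _ => h1 j, Finset.sum_comm]
  refine Finset.sum_congr rfl fun b _ => ?_
  rw [← Finset.sum_smul, Finset.sum_comm]
  congr 1
  show _ = ∑ a, (∑ j, z j * algebraMap ℂ K ((Q.D j).1 (E.co b a))) * r a
  refine Finset.sum_congr rfl fun a _ => ?_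
  rw [Finset.sum_mul]

theorem pb2a_rep {E : Rep G} {φ : E.ι → G.O} {n : ℕ} (c : Fin n → K) (f : Fin n → G.O)
    (h : ∀ i, f i ∈ Submodule.span ℂ (Set.range φ)) :
    ∃ r : E.ι → K, ∑ i, c i • inc K (f i) = ∑ a, r a • inc K (φ a) := by
  have h1 : ∀ i, ∃ d : E.ι → ℂ, ∑ a, d a • φ a = f i := fun i =>
    (Submodule.mem_span_range_iff_exists_fun ℂ).1 (h i)
  choose d hd using h1
  refine ⟨fun a => ∑ i, c i * algebraMap ℂ K (d i a), ?_⟩
  have h2 : ∀ i, inc K (f i) = ∑ a, algebraMap ℂ K (d i a) • inc K (φ a) := by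
    intro i
    apply KO_ext
    intro x
    rw [KO_sum, ← hd i, inc_apply]
    have h3 : (∑ a, d i a • φ a : G.O).1 x = ∑ a, d i a * (φ a).1 x := by
      rw [AddSubmonoidClass.coe_finsetSum, Finset.sum_apply]
      rfl
    rw [h3, map_sum]
    refine Finset.sum_congr rfl fun a _ => ?_
    rw [KO_smul, inc_apply, map_mul]
  have h4 : ∀ i, c i • inc K (f i) = ∑ a, (c i * algebraMap ℂ K (d i a)) • inc K (φ a) := by
    intro i
    rw [h2 i, Finset.smul_sum]
    refine Finset.sum_congr rfl fun a _ => ?_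
    rw [smul_smul]
  rw [Finset.sum_congr rfl fun i _ => h4 i, Finset.sum_comm]
  refine Finset.sum_congr rfl fun a _ => ?_
  rw [Finset.sum_smul]

/-- [MTF-PB2a] Eigenfunctions of `s`: the centraliser of `s` acts by `κ(∂_m s, z)`.
PROOF. `F = ∑ a, r a • inc K (φ a)` with `φ` as in `LP.exists_rep` (apply it to the functions of `KO_rep F`), `LP.exists_dualfam`: `α`.
`LP.s1_phi`: `Q.s1 F = ∑ b, ((Q.sE E).mulVec r) b • inc K (φ b)`, so `(Q.sE E).mulVec r = Q.val m • r` (apply `ext K (α b)`).  In the same way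
`∑ a, z a • derK K (Q.D a) F = ∑ b, ((Q.zE E z).mulVec r) b • inc K (φ b)` (`derK K D (inc K (φ a)) = ∑ b, D.1 (E.co b a) • inc K (φ b)`).
`hP.gr E m z r`. -/
theorem gr_fun (hP : PQ Q P) {F : G.KO K} {m : X} (hF : Q.s1 F = Q.val m • F)
    {z : Fin Q.r → K} (hz : Q.brK Q.c z = 0) :
    ∑ a, z a • derK K (Q.D a) F = Q.kapK (P.dXs m) z • F := by
  obtain ⟨n, c, f, rfl⟩ := KO_eq_sum F
  obtain ⟨E, φ, hφ, hrep, hspan⟩ := LP.exists_rep f
  obtain ⟨α, hα⟩ := LP.exists_dualfam hφ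
  obtain ⟨r, hr⟩ := pb2a_rep c f hspan
  rw [hr] at hF ⊢
  have hs : Q.s1 (∑ a, r a • inc K (φ a)) = ∑ b, ((Q.sE E).mulVec r) b • inc K (φ b) := by
    have h1 := pb2a_sum (Q := Q) hrep Q.c r
    have h2 : Q.s1 (∑ a, r a • inc K (φ a)) =
        ∑ j, Q.c j • derK K (Q.D j) (∑ a, r a • inc K (φ a)) := by
      unfold TQD.s1
      rw [LinearMap.sum_apply]
      rfl
    exact h2.trans h1
  have he : ∀ (u : E.ι → K) (b : E.ι), ext K (α b) (∑ a, u a • inc K (φ a)) = u b := by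
    intro u b
    rw [map_sum, Finset.sum_eq_single b]
    · rw [map_smul, ext_inc, hα, if_pos rfl, map_one, smul_eq_mul, mul_one]
    · intro a _ hab
      rw [map_smul, ext_inc, hα, if_neg (Ne.symm hab), map_zero, smul_zero]
    · intro h1
      exact absurd (Finset.mem_univ b) h1
  have hv : (Q.sE E).mulVec r = Q.val m • r := by
    funext b
    have h1 := congrArg (ext K (α b)) (hs.symm.trans hF)
    rw [he, map_smul, he] at h1
    exact h1
  have hg := hP.gr E m z r hz hv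
  rw [pb2a_sum hrep z r, hg, Finset.smul_sum]
  refine Finset.sum_congr rfl fun b _ => ?_
  rw [smul_smul]
  rfl

/-- [MTF-PB2a] The same in a leg. PROOF. `KO_ext`, slices: `derK_emb`, `LP.sl_s`, `sl_self`, `gr_fun`. -/
theorem gr_leg (hP : PQ Q P) {F : (G.pow L).KO K} {m : X} (l : L) (hF : Q.s l F = Q.val m • F)
    {z : Fin Q.r → K} (hz : Q.brK Q.c z = 0) :
    ∑ a, z a • derK K (emb l (Q.D a)) F = Q.kapK (P.dXs m) z • F := by
  apply KO_ext
  intro k
  have h1 : Q.s1 (sl K k l F) = Q.val m • sl K k l F := by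
    rw [← LP.sl_s, hF, map_smul]
  have h2 := congrArg (fun F' : G.KO K => F'.1 (k l)) (gr_fun hP h1 hz)
  have h3 : (∑ a, z a • derK K (Q.D a) (sl K k l F)).1 (k l) =
      (Q.kapK (P.dXs m) z • sl K k l F).1 (k l) := h2
  rw [KO_smul, sl_self, KO_sum] at h3
  rw [KO_smul, KO_sum, ← h3]
  refine Finset.sum_congr rfl fun a _ => ?_
  rw [KO_smul, KO_smul, derK_emb]

end

end Pool.Agent.MTF
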