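import Pool.Agent.MTF.PB1c
import Pool.Agent.MTF.PB2

/-! # MTF, part P : Hamiltonian fields -/

set_option linter.unusedSectionVars false

namespace Pool.Agent.MTF

open AffGrp

section pb3gen
variable {K R L A J : Type} [Field K] [CommRing R] [Algebra K R] [Fintype L] [Fintype A] [Fintype J]

theorem pb3_sq {s : ℤ} (hs : s * s = 1) : (s : R) * (s : R) = 1 := by
  rw [← Int.cast_mul, hs, Int.cast_one]

theorem pb3_g1 {s : ℤ} (hs : s * s = 1) (u : R) (x : K) :
    (-(s • u)) * algebraMap K R (-((s : K) * x)) = x • u := by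
  have h := pb3_sq (R := R) hs
  rw [zsmul_eq_mul, Algebra.smul_def, map_neg, map_mul, map_intCast]
  linear_combination (u * algebraMap K R x) * h

theorem pb3_ap (s : L → ℤ) (hs : ∀ l, s l * s l = 1) (rho : A → A → K) (sig : J → A → K)
    (AF D' : L → A → R) (N N' X X' : J → R) :
    (∑ l, ∑ b, -(s l • ∑ a, rho a b • AF l a) * D' l b) +
      (∑ j, N j * X' j + ∑ j, ((∑ l, ∑ a, ∑ b, (sig j b * rho a b) • AF l a) - X j) * N' j) =
    ∑ j, (N j * X' j - N' j * X j) -
      ∑ l, s l • ∑ a, ∑ b, rho a b • (AF l a * (D' l b - s l • ∑ j, sig j b • N' j)) := by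
  have h1 : ∀ l, s l • ∑ a, ∑ b, rho a b • (AF l a * (D' l b - s l • ∑ j, sig j b • N' j)) =
      (∑ b, (s l • ∑ a, rho a b • AF l a) * D' l b) -
        ∑ a, ∑ b, ∑ j, ((sig j b * rho a b) • AF l a) * N' j := by
    intro l
    have h := pb3_sq (R := R) (hs l)
    have e1 : ∑ b, (s l • ∑ a, rho a b • AF l a) * D' l b =
        ∑ a, ∑ b, (s l • (rho a b • (AF l a * D' l b))) := by
      rw [Finset.sum_comm]
      refine Finset.sum_congr rfl fun b _ => ?_
      rw [Finset.smul_sum, Finset.sum_mul]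
      refine Finset.sum_congr rfl fun a _ => ?_
      rw [zsmul_eq_mul, zsmul_eq_mul, Algebra.smul_def, Algebra.smul_def]
      ring
    rw [e1, Finset.smul_sum, ← Finset.sum_sub_distrib]
    refine Finset.sum_congr rfl fun a _ => ?_
    rw [Finset.smul_sum, ← Finset.sum_sub_distrib]
    refine Finset.sum_congr rfl fun b _ => ?_
    rw [mul_sub, smul_sub, smul_sub]
    congr 1
    rw [Finset.smul_sum, Finset.mul_sum, Finset.smul_sum, Finset.smul_sum]
    refine Finset.sum_congr rfl fun j _ => ?_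
    rw [zsmul_eq_mul, zsmul_eq_mul, Algebra.smul_def, Algebra.smul_def, Algebra.smul_def, map_mul]
    linear_combination (algebraMap K R (rho a b) * AF l a * algebraMap K R (sig j b) * N' j) * h
  have h2 : ∑ j, (∑ l, ∑ a, ∑ b, (sig j b * rho a b) • AF l a) * N' j =
      ∑ l, ∑ a, ∑ b, ∑ j, ((sig j b * rho a b) • AF l a) * N' j := by
    simp only [Finset.sum_mul]
    rw [Finset.sum_comm]
    refine Finset.sum_congr rfl fun l _ => ?_
    rw [Finset.sum_comm]
    refine Finset.sum_congr rfl fun a _ => ?_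
    rw [Finset.sum_comm]
  have h3 : ∑ l, s l • ∑ a, ∑ b, rho a b • (AF l a * (D' l b - s l • ∑ j, sig j b • N' j)) =
      (∑ l, ∑ b, (s l • ∑ a, rho a b • AF l a) * D' l b) -
        ∑ j, (∑ l, ∑ a, ∑ b, (sig j b * rho a b) • AF l a) * N' j := by
    rw [h2, ← Finset.sum_sub_distrib]
    exact Finset.sum_congr rfl fun l _ => h1 l
  rw [h3, Finset.sum_sub_distrib]
  simp only [sub_mul, neg_mul, Finset.sum_sub_distrib, Finset.sum_neg_distrib, mul_comm (X _)]
  ring

variable [Algebra ℂ R] [DecidableEq L] [DecidableEq J]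

theorem pb3_isX (S : DS R ((L × A) ⊕ (J ⊕ J))) (F : R) (Xf : ((L × A) ⊕ (J ⊕ J)) → R) (s : L → ℤ)
    (hs : ∀ l, s l * s l = 1) (rho : A → A → K) (sig : J → A → K) (AF : L → A → R) (N X' : J → R)
    (st : A → A → K)
    (hX1 : ∀ l b, Xf (Sum.inl (l, b)) = -(s l • ∑ a, rho a b • AF l a))
    (hX2 : ∀ j, Xf (Sum.inr (Sum.inl j)) = N j)
    (hX3 : ∀ j, Xf (Sum.inr (Sum.inr j)) = (∑ l, ∑ a, ∑ b, (sig j b * rho a b) • AF l a) - X' j)
    (wLL : ∀ l l' a b, S.ω (Sum.inl (l, a)) (Sum.inl (l', b)) =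
      if l = l' then algebraMap K R (-((s l : K) * st a b)) else 0)
    (wLX : ∀ l a j, S.ω (Sum.inl (l, a)) (Sum.inr (Sum.inl j)) =
      algebraMap K R (-((s l : K) * sig j a)))
    (wLN : ∀ l a j, S.ω (Sum.inl (l, a)) (Sum.inr (Sum.inr j)) = 0)
    (wXX : ∀ i j, S.ω (Sum.inr (Sum.inl i)) (Sum.inr (Sum.inl j)) = 0)
    (wNN : ∀ i j, S.ω (Sum.inr (Sum.inr i)) (Sum.inr (Sum.inr j)) = 0)
    (wXN : ∀ i j, S.ω (Sum.inr (Sum.inl i)) (Sum.inr (Sum.inr j)) = if i = j then 1 else 0)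
    (D1 : ∀ l c, S.D (Sum.inl (l, c)) F = AF l c + s l • ∑ j, sig j c • N j)
    (D2 : ∀ j, S.D (Sum.inr (Sum.inl j)) F = X' j)
    (D3 : ∀ j, S.D (Sum.inr (Sum.inr j)) F = N j)
    (inv : ∀ l c, ∑ b, st b c • ∑ a, rho a b • AF l a = AF l c) : S.IsX F Xf := by
  intro i
  rw [Fintype.sum_sum_type, Fintype.sum_sum_type, Fintype.sum_prod_type]
  rcases i with ⟨l, c⟩ | j | j
  · have e1 : ∀ l' : L, ∑ b, Xf (Sum.inl (l', b)) * S.ω (Sum.inl (l', b)) (Sum.inl (l, c)) =
        if l' = l then AF l c else 0 := by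
      intro l'
      split_ifs with hl
      · subst hl
        rw [← inv]
        refine Finset.sum_congr rfl fun b _ => ?_
        rw [wLL, if_pos rfl, hX1]
        exact pb3_g1 (hs l') _ _
      · refine Finset.sum_eq_zero fun b _ => ?_
        rw [wLL, if_neg hl, mul_zero]
    have e2 : ∀ j, Xf (Sum.inr (Sum.inl j)) * S.ω (Sum.inr (Sum.inl j)) (Sum.inl (l, c)) =
        s l • (sig j c • N j) := by
      intro j
      rw [DS.ω_skew, wLX, hX2, map_neg, neg_neg, map_mul, map_intCast, zsmul_eq_mul,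
        Algebra.smul_def]
      ring
    have e3 : ∀ j, Xf (Sum.inr (Sum.inr j)) * S.ω (Sum.inr (Sum.inr j)) (Sum.inl (l, c)) = 0 := by
      intro j
      rw [DS.ω_skew, wLN, neg_zero, mul_zero]
    rw [Finset.sum_congr rfl fun l' _ => e1 l', Finset.sum_congr rfl fun j _ => e2 j,
      Finset.sum_congr rfl fun j _ => e3 j, Finset.sum_ite_eq' Finset.univ l, if_pos (Finset.mem_univ l),
      Finset.sum_const_zero, add_zero, ← Finset.smul_sum, D1]
  · have e1 : ∀ (l : L) b, Xf (Sum.inl (l, b)) * S.ω (Sum.inl (l, b)) (Sum.inr (Sum.inl j)) =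
        ∑ a, (sig j b * rho a b) • AF l a := by
      intro l b
      rw [wLX, hX1, pb3_g1 (hs l), Finset.smul_sum]
      exact Finset.sum_congr rfl fun a _ => smul_smul _ _ _
    have e2 : ∀ i, Xf (Sum.inr (Sum.inl i)) * S.ω (Sum.inr (Sum.inl i)) (Sum.inr (Sum.inl j)) = 0 := by
      intro i
      rw [wXX, mul_zero]
    have e3 : ∀ i, Xf (Sum.inr (Sum.inr i)) * S.ω (Sum.inr (Sum.inr i)) (Sum.inr (Sum.inl j)) =
        if i = j then - Xf (Sum.inr (Sum.inr j)) else 0 := by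
      intro i
      rw [DS.ω_skew, wXN]
      by_cases h : j = i
      · subst h
        rw [if_pos rfl, if_pos rfl, mul_neg, mul_one]
      · rw [if_neg h, if_neg (Ne.symm h), neg_zero, mul_zero]
    rw [Finset.sum_congr rfl fun l _ => Finset.sum_congr rfl fun b _ => e1 l b,
      Finset.sum_congr rfl fun i _ => e2 i, Finset.sum_congr rfl fun i _ => e3 i,
      Finset.sum_const_zero, zero_add, Finset.sum_ite_eq' Finset.univ j, if_pos (Finset.mem_univ j),
      hX3, D2]
    have e4 : (∑ l, ∑ b, ∑ a, (sig j b * rho a b) • AF l a) =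
        ∑ l, ∑ a, ∑ b, (sig j b * rho a b) • AF l a :=
      Finset.sum_congr rfl fun l _ => Finset.sum_comm
    rw [e4]
    ring
  · have e1 : ∀ (l : L) b, Xf (Sum.inl (l, b)) * S.ω (Sum.inl (l, b)) (Sum.inr (Sum.inr j)) = 0 := by
      intro l b
      rw [wLN, mul_zero]
    have e2 : ∀ i, Xf (Sum.inr (Sum.inl i)) * S.ω (Sum.inr (Sum.inl i)) (Sum.inr (Sum.inr j)) =
        if i = j then Xf (Sum.inr (Sum.inl j)) else 0 := by
      intro i
      rw [wXN]
      by_cases h : i = j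
      · subst h
        rw [if_pos rfl, if_pos rfl, mul_one]
      · rw [if_neg h, if_neg h, mul_zero]
    have e3 : ∀ i, Xf (Sum.inr (Sum.inr i)) * S.ω (Sum.inr (Sum.inr i)) (Sum.inr (Sum.inr j)) = 0 := by
      intro i
      rw [wNN, mul_zero]
    rw [Finset.sum_congr rfl fun l _ => Finset.sum_congr rfl fun b _ => e1 l b,
      Finset.sum_congr rfl fun i _ => e2 i, Finset.sum_congr rfl fun i _ => e3 i,
      Finset.sum_ite_eq' Finset.univ j, if_pos (Finset.mem_univ j), hX2, D3]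
    simp only [Finset.sum_const_zero, zero_add, add_zero]

end pb3gen

theorem pb3_sgn (b : Bool) : sgn b * sgn b = 1 := by
  cases b <;> rfl

section pb3gen2
variable {G : AffGrp} {K W X : Type} [Field K] [Algebra ℂ K] [Group W] [Fintype W]
  [MulSemiringAction W K] [SMulCommClass W ℂ K] [AddCommGroup X] [DistribMulAction W X]
variable {Q : TQD G K W X}
variable {R : Type} [CommRing R] [Algebra ℂ R] [Algebra K R] [IsScalarTower ℂ K R]

theorem pb3_flat_single (z : Fin Q.r → R) (c : Fin Q.r) :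
    Q.flat z c = Q.kapK z (Pi.single c 1) := by
  rw [kapK_flat]
  rw [Finset.sum_eq_single c]
  · rw [Pi.single_eq_same, mul_one]
  · intro b _ hb
    rw [Pi.single_eq_of_ne hb, mul_zero]
  · intro h
    exact absurd (Finset.mem_univ c) h

theorem pb3_brK_single (u : Fin Q.r → R) (c d : Fin Q.r) :
    Q.brK u (Pi.single c 1) d = ∑ a, Q.stc a c d • u a := by
  unfold TQD.brK
  refine Finset.sum_congr rfl fun a _ => ?_
  rw [Finset.sum_eq_single c]
  · rw [Pi.single_eq_same, mul_one]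
  · intro b _ hb
    rw [Pi.single_eq_of_ne hb, mul_zero, smul_zero]
  · intro h
    exact absurd (Finset.mem_univ c) h

theorem pb3_flat_alg (c : Fin Q.r) :
    Q.flat (fun a => algebraMap K R (Q.c a)) c = algebraMap K R (Q.flat Q.c c) := by
  unfold TQD.flat
  rw [map_sum]
  refine Finset.sum_congr rfl fun b _ => ?_
  show Q.kap b c • algebraMap K R (Q.c b) = algebraMap K R (Q.kap b c • Q.c b)
  rw [Algebra.algebraMap_eq_smul_one, Algebra.algebraMap_eq_smul_one, smul_assoc]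

theorem pb3_inv (u : Fin Q.r → R) (c : Fin Q.r) :
    Q.flat (Q.brK (fun a => algebraMap K R (Q.c a)) u) c =
      ∑ b, (∑ d, Q.stc b c d • Q.flat Q.c d) • u b := by
  rw [pb3_flat_single, brK_skew]
  have h1 : Q.kapK (- Q.brK u fun a => algebraMap K R (Q.c a)) (Pi.single c 1) =
      - Q.kapK (Q.brK u fun a => algebraMap K R (Q.c a)) (Pi.single c 1) := by
    unfold TQD.kapK
    simp only [Pi.neg_apply, neg_mul, smul_neg, Finset.sum_neg_distrib]
  rw [h1, kapK_inv, neg_neg, kapK_flat]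
  simp only [pb3_brK_single, pb3_flat_alg, Finset.mul_sum, Finset.sum_smul]
  rw [Finset.sum_comm]
  refine Finset.sum_congr rfl fun b _ => Finset.sum_congr rfl fun d _ => ?_
  rw [mul_smul_comm, ← Algebra.smul_def, smul_assoc]

end pb3gen2

section
variable {G : AffGrp} {K W X : Type} [Field K] [Algebra ℂ K] [Group W] [Fintype W]
  [MulSemiringAction W K] [SMulCommClass W ℂ K] [AddCommGroup X] [DistribMulAction W X]
variable {Q : TQD G K W X}
variable {P : PD Q}
variable {L : Type} [Fintype L] [DecidableEq L]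

/-- The Hamiltonian field of `F`. -/
noncomputable def HX (P : PD Q) {L : Type} [Fintype L] [DecidableEq L] (ε : L → Bool) (F : RR G K X L) :
    PIx P L → RR G K X L
  | Sum.inl p => - (sgn (ε p.1) • ∑ a, P.rho a p.2 • P.AL ε p.1 a F)
  | Sum.inr (Sum.inl j) => P.DN L j F
  | Sum.inr (Sum.inr j) => (∑ l, ∑ a, ∑ b, (P.sig j b * P.rho a b) • P.AL ε l a F) - P.DX L j F

/-- [MTF-PB3] PROOF. Definitions; the sum over `PIx` splits. With `A' = P.AL ε l b F' = DL l b F' - ε_l ∑_j sig j b • DN j F'`. -/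
theorem ap_HX (hP : PQ Q P) (ε : L → Bool) (F F' : RR G K X L) :
    (pDS (P := P) hP ε).ap (HX P ε F) F' = P.br ε F F' := by
  have h := pb3_ap (K := K) (R := RR G K X L) (fun l => sgn (ε l)) (fun l => pb3_sgn (ε l))
    (fun a b => P.rho a b) (fun j b => P.sig j b) (fun l a => P.AL ε l a F)
    (fun l b => PD.DL (Q := Q) l b F') (fun j => P.DN L j F) (fun j => P.DN L j F')
    (fun j => P.DX L j F) (fun j => P.DX L j F')
  unfold DS.ap
  rw [Fintype.sum_sum_type, Fintype.sum_sum_type, Fintype.sum_prod_type]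
  exact h

theorem pb3_invR (hP : PQ Q P) {ε : L → Bool} {F : RR G K X L} (hF : IsEF Q ε F) (l : L)
    (c : Fin Q.r) : ∑ b, (∑ d, Q.stc b c d • Q.flat Q.c d) • ∑ a, P.rho a b • P.AL ε l a F =
      P.AL ε l c F :=
  (pb3_inv (Q := Q) (R := RR G K X L) (fun b => ∑ a, P.rho a b • P.AL ε l a F) c).symm.trans
    (rho_im_R hP (fun a => P.AL ε l a F) (fun _ hz => AL_ker hP hF l hz) c)

/-- [MTF-PB3] (P3.2). PROOF. Let `u_l b := ∑ a, rho a b • AL l a F`, so `X_(l,b) = - ε_l u_l b`.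
Against `(l, c)`: `∑_b X_(l,b) ω((l,b),(l,c)) + ∑_j X_∂j ω(∂_j,(l,c)) = ∑_b u_l b • ∑_d stc b c d flat(s)_d + ε_l ∑_j sig j c • DN j F` (`ε_l² = 1`, `DS.ω_skew`), and
`∑_b u_b ∑_d stc b c d flat(s)_d = κ(s, [u, D_c]) = κ([s,u], D_c) = flat (brK s u) c` (`kapK_inv`, `kapK_symm`, or directly the invariance of `kap`/`stc`), which is
`AL l c F` by `rho_im_R`, `AL_ker`; so the sum is `AL l c F + ε_l ∑ sig j c • DN j F = DL l c F`.
Against `∂_j`: `∑_(l,b) X_(l,b) ω((l,b),∂_j) + X_Nj ω(N_j,∂_j) = ∑_l ∑_b ε_l ε_l u_l b sig j b - X_Nj = DX j F`.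
Against `N_j`: `X_∂j ω(∂_j, N_j) = DN j F`. -/
theorem isX_HX (hT : TQ Q) (hP : PQ Q P) {ε : L → Bool} {F : RR G K X L} (hF : IsEF Q ε F) :
    (pDS (P := P) hP ε).IsX F (HX P ε F) :=
  pb3_isX (K := K) (R := RR G K X L) (pDS (P := P) hP ε) F (HX P ε F) (fun l => sgn (ε l))
    (fun l => pb3_sgn (ε l)) (fun a b => P.rho a b) (fun j b => P.sig j b)
    (fun l a => P.AL ε l a F) (fun j => P.DN L j F) (fun j => P.DX L j F)
    (fun a b => ∑ d, Q.stc a b d • Q.flat Q.c d)
    (fun _ _ => rfl) (fun _ => rfl) (fun _ => rfl)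
    (fun l l' a b => ω_LL hP ε l l' a b) (fun l a j => ω_LX hP ε l a j)
    (fun l a j => ω_LN hP ε l a j) (fun i j => ω_XX hP ε i j) (fun i j => ω_NN hP ε i j)
    (fun i j => ω_XN hP ε i j) (fun l c => (sub_add_cancel _ _).symm) (fun _ => rfl) (fun _ => rfl)
    (fun l c => pb3_invR hP hF l c)

end

end Pool.Agent.MTF
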