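import Pool.Agent.MTF.PB0

/-! # MTF, part P : eigenfamilies form an algebra -/

set_option linter.unusedSectionVars false

namespace Pool.Agent.MTF

open AffGrp

section
variable {G : AffGrp} {K W X : Type} [Field K] [Algebra ℂ K] [Group W] [Fintype W]
  [MulSemiringAction W K] [SMulCommClass W ℂ K] [AddCommGroup X] [DistribMulAction W X]
variable {Q : TQD G K W X}
variable {P : PD Q}
variable {L : Type} [Fintype L] [DecidableEq L]

theorem pb4a_sum {ι : Type*} {ε : L → Bool} (s : Finset ι) (F : ι → RR G K X L)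
    (h : ∀ i ∈ s, IsEF Q ε (F i)) : IsEF Q ε (∑ i ∈ s, F i) := by
  intro m l
  rw [AddMonoidAlgebra.coeff_sum, Finsupp.finsetSum_apply, map_sum, Finset.smul_sum]
  exact Finset.sum_congr rfl fun i hi => h i hi m l

theorem pb4a_single {ε : L → Bool} (m : X) (a : (G.pow L).KO K)
    (h : ∀ l, Q.s l a = Q.val (sgn (ε l) • m) • a) :
    IsEF Q ε (AddMonoidAlgebra.single m a : RR G K X L) := by
  classical
  intro n l
  rw [AddMonoidAlgebra.coeff_single, Finsupp.single_apply]
  split_ifs with hm
  · rw [← hm]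
    exact h l
  · rw [map_zero, smul_zero]

/-- [MTF-PB4a] eigenfamilies form an algebra -/
theorem IsEF_add {ε : L → Bool} {F F' : RR G K X L} (h : IsEF Q ε F) (h' : IsEF Q ε F') : IsEF Q ε (F + F') := by
  intro m l
  rw [AddMonoidAlgebra.coeff_add, Finsupp.add_apply, map_add, smul_add, h m l, h' m l]

theorem IsEF_smul {ε : L → Bool} (x : K) {F : RR G K X L} (h : IsEF Q ε F) : IsEF Q ε (x • F) := by
  intro m l
  rw [AddMonoidAlgebra.coeff_smul, Finsupp.smul_apply, map_smul, h m l, smul_comm]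

/-- [MTF-PB4a] PROOF. The coefficient at `m` of the product is a sum of products (`AddMonoidAlgebra.coeff_mul` or induction on `F`, `F'`); `LP.s_mul`. -/
theorem IsEF_mul {ε : L → Bool} {F F' : RR G K X L} (h : IsEF Q ε F) (h' : IsEF Q ε F') : IsEF Q ε (F * F') := by
  rw [AddMonoidAlgebra.mul_def]
  refine pb4a_sum _ _ fun m _ => pb4a_sum _ _ fun m' _ => pb4a_single _ _ fun l => ?_
  have h1 := LP.s_mul_eig (Q := Q) l (h m l) (h' m' l)
  rw [h1, smul_add, map_add]

end

end Pool.Agent.MTF
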