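import Pool.Agent.MTF.PB3
import Pool.Agent.MTF.PB4a

/-! # MTF, part P : the bracket of eigenfamilies -/

set_option linter.unusedSectionVars false

namespace Pool.Agent.MTF

open AffGrp

section
variable {G : AffGrp} {K W X : Type} [Field K] [Algebra ℂ K] [Group W] [Fintype W]
  [MulSemiringAction W K] [SMulCommClass W ℂ K] [AddCommGroup X] [DistribMulAction W X]
variable {Q : TQD G K W X}
variable {P : PD Q}
variable {L : Type} [Fintype L] [DecidableEq L]

/-- The kernel field `ξ_l = δ_{l,s} - ε_l ∑_j val(m_j) N_j`. -/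
noncomputable def xi (P : PD Q) {L : Type} [Fintype L] [DecidableEq L] (ε : L → Bool) (l : L) : PIx P L → RR G K X L
  | Sum.inl p => if p.1 = l then algebraMap K (RR G K X L) (Q.c p.2) else 0
  | Sum.inr (Sum.inl _) => 0
  | Sum.inr (Sum.inr j) => - (sgn (ε l) • algebraMap K (RR G K X L) (Q.val (P.mb j)))

theorem pb4_g1 {R ι : Type} [CommRing R] (t : Finset ι) (s : ℤ) (a g : ι → R) :
    ∑ j ∈ t, (-(s • a j)) * g j = -∑ j ∈ t, s • (a j * g j) := by
  rw [← Finset.sum_neg_distrib]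
  refine Finset.sum_congr rfl fun j _ => ?_
  rw [neg_mul, smul_mul_assoc]

theorem pb4_g2 {R ι : Type} [CommRing R] [Fintype ι] [DecidableEq ι] (s : ℤ) (a w : ι → R) (j : ι)
    (hw : ∀ i, w i = - (if j = i then 1 else 0)) : ∑ i, s • (a i * w i) = - (s • a j) := by
  rw [Finset.sum_eq_single j]
  · rw [hw, if_pos rfl, mul_neg, mul_one, smul_neg]
  · intro i _ hi
    rw [hw, if_neg (fun e => hi e.symm), neg_zero, mul_zero, smul_zero]
  · intro h
    exact absurd (Finset.mem_univ j) h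

theorem pb4_g3 {R ι : Type} [CommRing R] (t : Finset ι) (s : ℤ) (a w : ι → R)
    (hw : ∀ i, w i = 0) : ∑ i ∈ t, s • (a i * w i) = 0 := by
  refine Finset.sum_eq_zero fun i _ => ?_
  rw [hw, mul_zero, smul_zero]

theorem pb4_g4 {R : Type} [CommRing R] {A B : R} (hA : A = 0) (hB : B = 0) : A - B = 0 := by
  rw [hA, hB, sub_zero]

theorem pb4_g5 {R : Type} [CommRing R] {A B C : R} (hA : A = -C) (hB : B = -C) : A - B = 0 := by
  rw [hA, hB, sub_self]

theorem pb4_g6 {R : Type} [CommRing R] {A B : R} (hB : A = - B) (hB' : B = 0) : A = 0 := by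
  rw [hB, hB', neg_zero]

theorem pb4_g7 {R : Type} [CommRing R] {A B C D : R} (hB : A = D) (hC : B = 0) {E : R} (hE : C = -E) :
    A + (B + C) = D - E := by
  rw [hB, hC, hE, zero_add, sub_eq_add_neg]

theorem pb4_g8 {R : Type} [CommRing R] (b : R → R → R) (hadd : ∀ x y z, b x (y + z) = b x y + b x z)
    (hsk : ∀ x y, b x y = - b y x) (F F' F'' : R)
    (h : b F (b F' F'') + b F' (b F'' F) + b F'' (b F F') = 0) :
    b F (b F' F'') = b (b F F') F'' + b F' (b F F'') := by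
  have h0 : ∀ x, b x 0 = 0 := by
    intro x
    have := hadd x 0 0
    rw [add_zero] at this
    exact left_eq_add.1 this
  have hn : ∀ x y, b x (-y) = - b x y := by
    intro x y
    have := hadd x y (-y)
    rw [add_neg_cancel, h0] at this
    exact (neg_eq_of_add_eq_zero_right this.symm).symm
  rw [hsk F'' F, hn, hsk F'' (b F F')] at h
  linear_combination h

theorem pb4_am_mul (x : K) (F : RR G K X L) : algebraMap K (RR G K X L) x * F = x • F :=
  (Algebra.smul_def x F).symm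

theorem pb4_val (P : PD Q) (m : X) : Q.val m = ∑ j, ((P.cd j m : ℤ) : K) * Q.val (P.mb j) := by
  have h := P.mb.sum_repr m
  conv_lhs => rw [← h]
  rw [map_sum]
  refine Finset.sum_congr rfl fun j _ => ?_
  rw [map_zsmul, zsmul_eq_mul]
  rfl

theorem pb4_sgn_smul (n : ℤ) (F : RR G K X L) : n • F = ((n : ℤ) : K) • F :=
  (Int.cast_smul_eq_zsmul K n F).symm

theorem pb4_xi_sum (hP : PQ Q P) (ε : L → Bool) (l : L) (g : PIx P L → RR G K X L) :
    ∑ i, xi P ε l i * g i = (∑ b, algebraMap K (RR G K X L) (Q.c b) * g (Sum.inl (l, b))) -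
      ∑ j, sgn (ε l) • (algebraMap K (RR G K X L) (Q.val (P.mb j)) * g (Sum.inr (Sum.inr j))) := by
  rw [Fintype.sum_sum_type, Fintype.sum_sum_type, Fintype.sum_prod_type]
  show (∑ l' : L, ∑ b, (if l' = l then algebraMap K (RR G K X L) (Q.c b) else 0) *
      g (Sum.inl (l', b))) + ((∑ j : Fin P.n, (0 : RR G K X L) * g (Sum.inr (Sum.inl j))) +
      ∑ j : Fin P.n, (- (sgn (ε l) • algebraMap K (RR G K X L) (Q.val (P.mb j)))) *
        g (Sum.inr (Sum.inr j))) = _
  have h1 : (∑ l' : L, ∑ b, (if l' = l then algebraMap K (RR G K X L) (Q.c b) else 0) *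
      g (Sum.inl (l', b))) = ∑ b, algebraMap K (RR G K X L) (Q.c b) * g (Sum.inl (l, b)) := by
    rw [Finset.sum_eq_single l]
    · refine Finset.sum_congr rfl fun b _ => ?_
      rw [if_pos rfl]
    · intro l' _ h
      refine Finset.sum_eq_zero fun b _ => ?_
      rw [if_neg h, zero_mul]
    · intro h
      exact absurd (Finset.mem_univ l) h
  have h2 : (∑ j : Fin P.n, (0 : RR G K X L) * g (Sum.inr (Sum.inl j))) = 0 :=
    Finset.sum_eq_zero fun j _ => zero_mul _
  exact pb4_g7 (R := RR G K X L) h1 h2 (pb4_g1 (R := RR G K X L) _ _ _ _)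

theorem pb4_ap (hP : PQ Q P) (ε : L → Bool) (l : L) (F : RR G K X L) :
    (pDS (P := P) hP ε).ap (xi P ε l) F = (∑ b, Q.c b • PD.DL (Q := Q) l b F) -
      ∑ j, sgn (ε l) • (Q.val (P.mb j) • P.DN L j F) := by
  show ∑ i : PIx P L, xi P ε l i * pD P L i F = _
  rw [pb4_xi_sum hP ε l (fun i => pD P L i F)]
  simp only [pb4_am_mul]
  rfl

theorem pb4_sum_coeff {ι : Type} (s : Finset ι) (F : ι → RR G K X L) (m : X) :
    (∑ i ∈ s, F i).coeff m = ∑ i ∈ s, (F i).coeff m := by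
  rw [AddMonoidAlgebra.coeff_sum, Finsupp.finsetSum_apply]

theorem pb4_ap_coeff (hP : PQ Q P) (ε : L → Bool) (l : L) (F : RR G K X L) (m : X) :
    ((pDS (P := P) hP ε).ap (xi P ε l) F).coeff m =
      Q.s l (F.coeff m) - Q.val (sgn (ε l) • m) • F.coeff m := by
  rw [pb4_ap, AddMonoidAlgebra.coeff_sub, Finsupp.sub_apply, pb4_sum_coeff, pb4_sum_coeff]
  have h1 : Q.s l (F.coeff m) = ∑ b, Q.c b • derK K (emb l (Q.D b)) (F.coeff m) := by
    unfold TQD.s
    rw [LinearMap.sum_apply]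
    rfl
  rw [h1]
  have h2 : Q.val (sgn (ε l) • m) • F.coeff m =
      ∑ j, (sgn (ε l) • (Q.val (P.mb j) • P.DN L j F)).coeff m := by
    rw [map_zsmul, zsmul_eq_mul, mul_smul, pb4_val P m, Finset.sum_smul, Finset.smul_sum]
    refine Finset.sum_congr rfl fun j _ => ?_
    rw [pb4_sgn_smul, AddMonoidAlgebra.coeff_smul, Finsupp.smul_apply, AddMonoidAlgebra.coeff_smul,
      Finsupp.smul_apply, DN_coeff, smul_smul (Q.val (P.mb j)), mul_comm (Q.val (P.mb j))]
  rw [h2]
  rfl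

theorem pb4_ss (c : Fin Q.r) :
    ∑ b, Q.c b * ∑ d, Q.stc b c d • Q.flat Q.c d = 0 := by
  classical
  have h1 := kapK_inv (Q := Q) (R := K) Q.c (Pi.single c 1) Q.c
  rw [brK_self] at h1
  have h2 : Q.kapK (Pi.single c 1 : Fin Q.r → K) 0 = 0 := by
    unfold TQD.kapK
    refine Finset.sum_eq_zero fun a _ => Finset.sum_eq_zero fun b _ => ?_
    rw [Pi.zero_apply, mul_zero, smul_zero]
  rw [h2, neg_zero, kapK_symm, kapK_flat] at h1
  rw [← h1]
  have h3 : ∀ d, Q.brK Q.c (Pi.single c 1 : Fin Q.r → K) d = ∑ b, Q.stc b c d • Q.c b := by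
    intro d
    unfold TQD.brK
    refine Finset.sum_congr rfl fun b _ => ?_
    rw [Finset.sum_eq_single c]
    · rw [Pi.single_eq_same, mul_one]
    · intro a _ h
      rw [Pi.single_eq_of_ne h, mul_zero, smul_zero]
    · intro h
      exact absurd (Finset.mem_univ c) h
  simp only [h3, Finset.mul_sum]
  rw [Finset.sum_comm]
  refine Finset.sum_congr rfl fun d _ => Finset.sum_congr rfl fun b _ => ?_
  rw [mul_smul_comm, mul_smul_comm, mul_comm]

theorem pb4_valmb (hT : TQ Q) (hP : PQ Q P) (j : Fin P.n) :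
    Q.val (P.mb j) = ∑ b, P.sig j b * Q.c b := by
  rw [← kapK_dXs_s hT hP (P.mb j), kapK_dXs]
  have h : ∀ i, P.cd i (P.mb j) = if i = j then 1 else 0 := by
    intro i
    show P.mb.repr (P.mb j) i = _
    rw [Module.Basis.repr_self, Finsupp.single_apply]
    simp only [eq_comm]
  simp only [h]
  rw [Finset.sum_eq_single j]
  · rw [if_pos rfl, Int.cast_one, one_mul]
  · intro i _ hi
    rw [if_neg hi, Int.cast_zero, zero_mul]
  · intro h
    exact absurd (Finset.mem_univ j) h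

theorem pb4_sum_am {ι : Type} (s : Finset ι) (a g : ι → K) :
    ∑ b ∈ s, algebraMap K (RR G K X L) (a b) * algebraMap K (RR G K X L) (g b) =
      algebraMap K (RR G K X L) (∑ b ∈ s, a b * g b) := by
  rw [map_sum]
  exact Finset.sum_congr rfl fun b _ => (map_mul _ _ _).symm

theorem pb4_neg_am (n : ℤ) (x : K) :
    algebraMap K (RR G K X L) (-(((n : ℤ) : K) * x)) = -(n • algebraMap K (RR G K X L) x) := by
  have h : ∀ (R : Type) [CommRing R] (φ : K →+* R), φ (-(((n : ℤ) : K) * x)) = -(n • φ x) := by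
    intro R _ φ
    rw [map_neg, map_mul, map_intCast, zsmul_eq_mul]
  exact h (RR G K X L) (algebraMap K (RR G K X L))

/-- [MTF-PB4] PROOF. coefficient at `m`: `Q.s l (F.coeff m) - ε_l val m • F.coeff m`; `m = ∑ cd j m • mb j`. -/
theorem xi_ap (hP : PQ Q P) {ε : L → Bool} {F : RR G K X L} :
    IsEF Q ε F ↔ ∀ l, (pDS (P := P) hP ε).ap (xi P ε l) F = 0 := by
  constructor
  · intro h l
    apply AddMonoidAlgebra.coeff_injective
    ext1 m
    rw [pb4_ap_coeff, h m l, sub_self]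
    rfl
  · intro h m l
    have h1 := pb4_ap_coeff hP ε l F m
    rw [h l] at h1
    exact (sub_eq_zero.1 h1.symm)

/-- [MTF-PB4] `ξ_l` is in the kernel of `ω`. PROOF. against `(l', b)`: `κ(s,[s,D_b]) = 0`; against `∂_j`: `- ε_l κ(∂_j s, s) + ε_l val (mb j) = 0`
(`kapK_dXs_s` for `m = P.mb j`, `kapK_dXs`, `cd i (mb j) = δ`); against `N_j`: `0`. -/
theorem xi_ker (hT : TQ Q) (hP : PQ Q P) (ε : L → Bool) (l : L) (j : PIx P L) :
    ∑ i, xi P ε l i * (pDS (P := P) hP ε).ω i j = 0 := by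
  rw [pb4_xi_sum hP ε l (fun i => (pDS (P := P) hP ε).ω i j)]
  rcases j with ⟨l', c⟩ | j | j
  · refine pb4_g4 (R := RR G K X L) ?_ (pb4_g3 (R := RR G K X L) _ _ _ _ fun i => pb4_g6 (R := RR G K X L) (DS.ω_skew _ _ _) (ω_LN hP ε l' c i))
    simp only [ω_LL]
    by_cases h : l = l'
    · simp only [if_pos h]
      rw [pb4_sum_am]
      have h3 : ∑ b, Q.c b * (- (((sgn (ε l) : ℤ) : K) * ∑ d, Q.stc b c d • Q.flat Q.c d)) = 0 := by
        have h4 : ∀ b, Q.c b * (- (((sgn (ε l) : ℤ) : K) * ∑ d, Q.stc b c d • Q.flat Q.c d)) =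
            (-((sgn (ε l) : ℤ) : K)) * (Q.c b * ∑ d, Q.stc b c d • Q.flat Q.c d) := by
          intro b
          ring
        simp only [h4]
        rw [← Finset.mul_sum, pb4_ss, mul_zero]
      rw [h3, map_zero]
    · simp only [if_neg h, mul_zero, Finset.sum_const_zero]
  · refine pb4_g5 (R := RR G K X L) (C := sgn (ε l) • algebraMap K (RR G K X L) (Q.val (P.mb j))) ?_
      (pb4_g2 (R := RR G K X L) _ _ _ j fun i => (DS.ω_skew _ _ _).trans (congrArg Neg.neg (ω_XN hP ε j i)))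
    simp only [ω_LX]
    rw [pb4_sum_am, ← pb4_neg_am, pb4_valmb hT hP j, Finset.mul_sum, ← Finset.sum_neg_distrib]
    congr 1
    refine Finset.sum_congr rfl fun b _ => ?_
    ring
  · refine pb4_g4 (R := RR G K X L) ?_ (pb4_g3 (R := RR G K X L) _ _ _ _ fun i => ω_NN hP ε i j)
    simp only [ω_LN, mul_zero, Finset.sum_const_zero]

/-- [MTF-PB4] (P3.4). PROOF. `DS.ap_ker` (P1.lean) with `xi`: `{F,F'} = ap (HX F) F'` and `ξ_l` kills `F` and `F'`; then `xi_ap`. -/
theorem IsEF_br (hT : TQ Q) (hP : PQ Q P) {ε : L → Bool} {F F' : RR G K X L} (h : IsEF Q ε F)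
    (h' : IsEF Q ε F') : IsEF Q ε (P.br ε F F') := by
  rw [xi_ap hP]
  intro l
  rw [← ap_HX hP]
  exact DS.ap_ker _ (isX_HX hT hP h) (isX_HX hT hP h') (xi_ker hT hP ε l) ((xi_ap hP).1 h l)

/-- [MTF-PB4] the Jacobi identity. PROOF. `DS.jacobi` with `isX_HX`, `ap_HX`, `br_skew`. -/
theorem br_jacobi (hT : TQ Q) (hP : PQ Q P) {ε : L → Bool} {F F' F'' : RR G K X L} (h : IsEF Q ε F)
    (h' : IsEF Q ε F') (h'' : IsEF Q ε F'') :
    P.br ε F (P.br ε F' F'') = P.br ε (P.br ε F F') F'' + P.br ε F' (P.br ε F F'') := by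
  have h1 := DS.jacobi (pDS (P := P) hP ε) (isX_HX hT hP h) (isX_HX hT hP h') (isX_HX hT hP h'')
  simp only [ap_HX] at h1
  have hadd := br_add_right (P := P) ε
  have hsk := br_skew hP ε
  generalize P.br ε = b at *
  exact pb4_g8 (R := RR G K X L) b hadd hsk F F' F'' h1

end

end Pool.Agent.MTF
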