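import Pool.Agent.MTF.PB0

/-! # MTF, part P : equivariance of the bracket under W -/

set_option linter.unusedSectionVars false

namespace Pool.Agent.MTF

open AffGrp

section
variable {G : AffGrp} {K W X : Type} [Field K] [Algebra ℂ K] [Group W] [Fintype W]
  [MulSemiringAction W K] [SMulCommClass W ℂ K] [AddCommGroup X] [DistribMulAction W X]
variable {Q : TQD G K W X}
variable {P : PD Q}
variable {L : Type} [Fintype L] [DecidableEq L]

theorem pb6_ext {w : W} {A B : RR G K X L} (h : ∀ m, A.coeff (w • m) = B.coeff (w • m)) : A = B := by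
  apply AddMonoidAlgebra.coeff_injective
  apply Finsupp.ext
  intro m
  have := h (w⁻¹ • m)
  rwa [smul_inv_smul] at this

/-- [MTF-PB6] `wR w` is a ring homomorphism. PROOF. on singles. -/
theorem wR_add (w : W) (F F' : RR G K X L) : wR w (F + F') = wR w F + wR w F' := by
  apply pb6_ext (w := w)
  intro m
  rw [AddMonoidAlgebra.coeff_add, Finsupp.add_apply, wR_coeff, wR_coeff, wR_coeff,
    AddMonoidAlgebra.coeff_add, Finsupp.add_apply, map_add]

theorem pb6_wR_single (w : W) (m : X) (a : (G.pow L).KO K) :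
    wR w (AddMonoidAlgebra.single m a : RR G K X L) =
      AddMonoidAlgebra.single (w • m) (wO (G.pow L) w a) := by
  classical
  apply pb6_ext (w := w)
  intro m'
  rw [wR_coeff, AddMonoidAlgebra.coeff_single, AddMonoidAlgebra.coeff_single,
    Finsupp.single_apply, Finsupp.single_apply]
  by_cases h : m = m'
  · rw [if_pos h, if_pos (by rw [h])]
  · rw [if_neg h, if_neg (fun h' => h (MulAction.injective w h')), map_zero]

theorem pb6_wR_zero (w : W) : wR w (0 : RR G K X L) = 0 := by
  have := wR_add w (0 : RR G K X L) 0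
  rw [add_zero] at this
  exact left_eq_add.1 this

/-- `wR w` as an additive map -/
noncomputable def pb6_wA (w : W) : RR G K X L →+ RR G K X L where
  toFun := wR w
  map_zero' := pb6_wR_zero w
  map_add' := wR_add w

theorem wR_mul (w : W) (F F' : RR G K X L) : wR w (F * F') = wR w F * wR w F' := by
  induction F using AddMonoidAlgebra.induction_linear with
  | zero => rw [zero_mul, pb6_wR_zero, zero_mul]
  | add F G hF hG => rw [add_mul, wR_add, hF, hG, wR_add, add_mul]
  | single m a =>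
    induction F' using AddMonoidAlgebra.induction_linear with
    | zero => rw [mul_zero, pb6_wR_zero, mul_zero]
    | add F G hF hG => rw [mul_add, wR_add, hF, hG, wR_add, mul_add]
    | single m' a' =>
      rw [AddMonoidAlgebra.single_mul_single, pb6_wR_single, pb6_wR_single, pb6_wR_single,
        AddMonoidAlgebra.single_mul_single, smul_add, map_mul]

theorem pb6_wO_smul {H : AffGrp} (w : W) (x : K) (F : H.KO K) :
    wO H w (x • F) = (w • x) • wO H w F :=
  KO_ext fun y => smul_mul' w x (F.1 y)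

theorem wR_smul (w : W) (x : K) (F : RR G K X L) : wR w (x • F) = (w • x) • wR w F := by
  apply pb6_ext (w := w)
  intro m
  rw [wR_coeff, AddMonoidAlgebra.coeff_smul, AddMonoidAlgebra.coeff_smul, Finsupp.smul_apply,
    Finsupp.smul_apply, wR_coeff, pb6_wO_smul]

theorem wR_eq_iff (F : RR G K X L) : (∀ w : W, wR w F = F) ↔ ∀ (w : W) m, wO (G.pow L) w (F.coeff m) = F.coeff (w • m) := by
  constructor
  · intro h w m
    rw [← wR_coeff, h w]
  · intro h w
    apply pb6_ext (w := w)
    intro m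
    rw [wR_coeff, h]

/-- [MTF-PB6] `wR w` commutes with the derivatives along the group. PROOF. `derK_mapK`. -/
theorem DL_wR (w : W) (l : L) (a : Fin Q.r) (F : RR G K X L) :
    PD.DL (Q := Q) l a (wR w F) = wR w (PD.DL (Q := Q) l a F) := by
  apply pb6_ext (w := w)
  intro m
  rw [wR_coeff, DL_coeff, DL_coeff, wR_coeff]
  exact derK_mapK _ _ _

theorem pb6_dsum {κ : Type} (t : Finset κ) (z : κ → ℤ) (δ : κ → Derivation ℂ K K) (x : K) :
    (∑ j ∈ t, z j • δ j) x = ∑ j ∈ t, ((z j : ℤ) : K) * δ j x := by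
  classical
  induction t using Finset.induction_on with
  | empty => rfl
  | insert a s ha ih =>
    rw [Finset.sum_insert ha, Finset.sum_insert ha, Derivation.add_apply, ih]
    congr 1
    show z a • δ a x = _
    rw [zsmul_eq_mul]

theorem pb6_dK_sum {κ : Type} (t : Finset κ) (z : κ → ℤ) (δ : κ → Derivation ℂ K K) {H : AffGrp}
    (F : H.KO K) : ∑ j ∈ t, ((z j : ℤ) : H.KO K) * dK (δ j) F = dK (∑ j ∈ t, z j • δ j) F := by
  apply KO_ext
  intro x
  rw [KO_sum, dK_apply, pb6_dsum]
  refine Finset.sum_congr rfl fun j _ => ?_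
  rw [← zsmul_eq_mul, ← zsmul_eq_mul]
  rfl

theorem pb6_dd (m m' : X) (a b : (G.pow L).KO K) :
    ∑ j, P.DN L j (AddMonoidAlgebra.single m a) * P.DX L j (AddMonoidAlgebra.single m' b) =
      (AddMonoidAlgebra.single (m + m') (a * dK (P.dX m) b) : RR G K X L) := by
  have h1 : ∀ j, P.DN L j (AddMonoidAlgebra.single m a) * P.DX L j (AddMonoidAlgebra.single m' b) =
      AddMonoidAlgebra.single (m + m') (a * (((P.cd j m : ℤ) : (G.pow L).KO K) * dK (P.dd j) b)) := by
    intro j
    unfold PD.DN PD.DX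
    rw [nD_single, cD_single, AddMonoidAlgebra.single_mul_single]
    congr 1
    show ((P.cd j m : ℤ) : (G.pow L).KO K) * a * dK (P.dd j) b = _
    ring
  rw [Finset.sum_congr rfl fun j _ => h1 j]
  unfold PD.dX
  rw [← pb6_dK_sum, Finset.mul_sum]
  apply AddMonoidAlgebra.coeff_injective
  rw [AddMonoidAlgebra.coeff_sum, AddMonoidAlgebra.coeff_single, Finsupp.single_finsetSum]
  refine Finset.sum_congr rfl fun j _ => ?_
  rw [AddMonoidAlgebra.coeff_single]

/-- [MTF-PB6] The element `∑_j N_j F ⊗ ∂_j` is invariant: for all `F, F'`.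
PROOF. The coefficient form: `∑_j DN j F * DX j F' = ∑_{m,m'} F_m (dX m F'_m') e^(m+m')` (on singles `F = a e^m`, `F' = b e^m'`: `∑_j cd j m • dd j = dX m`),
`w (F_m (dX m F'_m')) = (w F_m) (dX (w m) (w F'_m'))` by `hP.dX_w`. -/
theorem DNDX_wR (hP : PQ Q P) (w : W) (F F' : RR G K X L) :
    ∑ j, P.DN L j (wR w F) * P.DX L j (wR w F') = wR w (∑ j, P.DN L j F * P.DX L j F') := by
  induction F using AddMonoidAlgebra.induction_linear with
  | zero => simp only [pb6_wR_zero, map_zero, zero_mul, Finset.sum_const_zero]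
  | add F G hF hG =>
    simp only [wR_add, map_add, add_mul, Finset.sum_add_distrib, hF, hG]
  | single m a =>
    induction F' using AddMonoidAlgebra.induction_linear with
    | zero => simp only [pb6_wR_zero, map_zero, mul_zero, Finset.sum_const_zero]
    | add F G hF hG =>
      simp only [wR_add, map_add, mul_add, Finset.sum_add_distrib, hF, hG]
    | single m' b =>
      rw [pb6_wR_single, pb6_wR_single, pb6_dd, pb6_dd, pb6_wR_single, smul_add, map_mul]
      congr 2
      apply KO_ext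
      intro x
      exact hP.dX_w w m (b.1 x)

theorem pb6_sig (hT : TQ Q) (hP : PQ Q P) (w : W) (m : X) (a : Fin Q.r) :
    ∑ j, ((P.cd j (w • m) : ℤ) : K) * P.sig j a = w • ∑ j, ((P.cd j m : ℤ) : K) * P.sig j a := by
  have h : ∀ m : X, ∑ j, ((P.cd j m : ℤ) : K) * P.sig j a =
      ∑ b, Q.kap b a • P.dX m (Q.c b) := by
    intro m
    unfold PD.sig PD.dX TQD.flat
    simp only [Finset.mul_sum, pb6_dsum, Finset.smul_sum]
    rw [Finset.sum_comm]
    refine Finset.sum_congr rfl fun b _ => Finset.sum_congr rfl fun j _ => ?_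
    rw [mul_smul_comm]
  rw [h, h, Finset.smul_sum]
  refine Finset.sum_congr rfl fun b _ => ?_
  rw [smul_comm w, ← hP.dX_w, hT.c_w]

/-- [MTF-PB6] PROOF. `∑_j sig j a • DN j F` has the coefficient `flat (dXs m) a • F_m` at `m`; `w (dXs m i) = w (dX m (c i)) = dX (w m) (w c i) = dXs (w m) i`
(`hP.dX_w`, `hT.c_w`). -/
theorem AL_wR (hT : TQ Q) (hP : PQ Q P) (w : W) (ε : L → Bool) (l : L) (a : Fin Q.r) (F : RR G K X L) :
    P.AL ε l a (wR w F) = wR w (P.AL ε l a F) := by
  have h1 : ∀ (F : RR G K X L) (m : X), (∑ j, P.sig j a • P.DN L j F).coeff m =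
      (∑ j, ((P.cd j m : ℤ) : K) * P.sig j a) • F.coeff m := by
    intro F m
    rw [AddMonoidAlgebra.coeff_sum, Finsupp.finsetSum_apply, Finset.sum_smul]
    refine Finset.sum_congr rfl fun j _ => ?_
    rw [AddMonoidAlgebra.coeff_smul, Finsupp.smul_apply, DN_coeff, smul_smul, mul_comm]
  have h2 : wR w (∑ j, P.sig j a • P.DN L j F) = ∑ j, P.sig j a • P.DN L j (wR w F) := by
    apply pb6_ext (w := w)
    intro m
    rw [h1, wR_coeff, h1, pb6_wO_smul, wR_coeff, pb6_sig hT hP]
  unfold PD.AL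
  have h3 : wR w (PD.DL (Q := Q) l a F - sgn (ε l) • ∑ j, P.sig j a • P.DN L j F) =
      wR w (PD.DL (Q := Q) l a F) - sgn (ε l) • wR w (∑ j, P.sig j a • P.DN L j F) := by
    show pb6_wA w _ = pb6_wA w _ - sgn (ε l) • pb6_wA w _
    rw [map_sub, map_zsmul]
  rw [h3, h2, DL_wR]

theorem pb6_br1 (hP : PQ Q P) (w : W) (F F' : RR G K X L) :
    ∑ j, (P.DN L j (wR w F) * P.DX L j (wR w F') - P.DN L j (wR w F') * P.DX L j (wR w F)) =
      wR w (∑ j, (P.DN L j F * P.DX L j F' - P.DN L j F' * P.DX L j F)) := by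
  have e : ∀ A B : Fin P.n → RR G K X L, ∑ j, (A j - B j) = ∑ j, A j - ∑ j, B j :=
    fun A B => Finset.sum_sub_distrib A B
  have h3 : ∀ A B : RR G K X L, wR w (A - B) = wR w A - wR w B := fun A B => map_sub (pb6_wA w) A B
  refine (e _ _).trans ?_
  refine Eq.trans ?_ (congrArg (wR w) (e _ _)).symm
  refine Eq.trans ?_ (h3 _ _).symm
  exact congrArg₂ (fun x y => x - y) (DNDX_wR hP w F F') (DNDX_wR hP w F' F)

theorem pb6_br2 (hT : TQ Q) (hP : PQ Q P) (w : W) (ε : L → Bool) (F F' : RR G K X L) :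
    ∑ l, sgn (ε l) • ∑ a, ∑ b, P.rho a b • (P.AL ε l a (wR w F) * P.AL ε l b (wR w F')) =
      wR w (∑ l, sgn (ε l) • ∑ a, ∑ b, P.rho a b • (P.AL ε l a F * P.AL ε l b F')) := by
  have h4 : ∀ (n : ℤ) (A : RR G K X L), wR w (n • A) = n • wR w A :=
    fun n A => map_zsmul (pb6_wA w) n A
  have h5 : ∀ {κ : Type} (t : Finset κ) (f : κ → RR G K X L),
      wR w (∑ i ∈ t, f i) = ∑ i ∈ t, wR w (f i) := fun t f => map_sum (pb6_wA w) f t
  rw [h5]
  refine Finset.sum_congr rfl fun l _ => ?_
  rw [h4, h5]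
  congr 1
  refine Finset.sum_congr rfl fun a _ => ?_
  rw [h5]
  refine Finset.sum_congr rfl fun b _ => ?_
  rw [wR_smul, hP.rho_w, wR_mul, AL_wR hT hP, AL_wR hT hP]

/-- [MTF-PB6] PROOF. the previous lemmas and `hP.rho_w`. -/
theorem br_wR (hT : TQ Q) (hP : PQ Q P) (w : W) (ε : L → Bool) (F F' : RR G K X L) :
    P.br ε (wR w F) (wR w F') = wR w (P.br ε F F') := by
  have h3 : ∀ A B : RR G K X L, wR w (A - B) = wR w A - wR w B := fun A B => map_sub (pb6_wA w) A B
  refine Eq.trans ?_ (h3 _ _).symm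
  exact congrArg₂ (fun x y => x - y) (pb6_br1 hP w F F') (pb6_br2 hT hP w ε F F')

end

end Pool.Agent.MTF
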