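import Pool.Agent.MTF.PB2
import Pool.Agent.MTF.PB4a
import Pool.Agent.MTF.PA1
import Pool.Agent.MTF.AG

/-! # MTF, part P : moment maps generate the action (pointwise) -/

set_option linter.unusedSectionVars false

namespace Pool.Agent.MTF

open AffGrp

section
variable {G : AffGrp} {K W X : Type} [Field K] [Algebra ℂ K] [Group W] [Fintype W]
  [MulSemiringAction W K] [SMulCommClass W ℂ K] [AddCommGroup X] [DistribMulAction W X]
variable {Q : TQD G K W X}
variable {P : PD Q}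
variable {L : Type} [Fintype L] [DecidableEq L]

theorem pb7_br_Ad (x : G.X) (D E : G.Lie) : G.br (G.Ad x D) (G.Ad x E) = G.Ad x (G.br D E) := by
  have h : ∀ (E : G.Lie) (f : G.O), G.cj x (G.der (G.Ad x E) f) = G.der E (G.cj x f) := by
    intro E f
    apply Subtype.ext
    funext y
    show E.1 (G.cj x (G.lt (x * y * x⁻¹) f)) = E.1 (G.lt y (G.cj x f))
    congr 1
    apply Subtype.ext
    funext z
    show f.1 (x * y * x⁻¹ * (x * z * x⁻¹)) = f.1 (x * (y * z) * x⁻¹)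
    congr 1
    group
  apply G.Lie_ext
  intro f
  show D.1 (G.cj x (G.der (G.Ad x E) f)) - E.1 (G.cj x (G.der (G.Ad x D) f)) =
    D.1 (G.der E (G.cj x f)) - E.1 (G.der D (G.cj x f))
  rw [h, h]

theorem pb7_Ad_Ad (y : G.X) (Z : G.Lie) : G.Ad y (G.Ad y⁻¹ Z) = Z := by
  rw [← y4_Ad_mul, mul_inv_cancel]
  apply G.Lie_ext
  intro f
  show Z.1 (G.cj 1 f) = Z.1 f
  congr 1
  apply Subtype.ext
  funext z
  show f.1 (1 * z * 1⁻¹) = f.1 z
  congr 1
  group

theorem pb7_killing (x : G.X) (D E : G.Lie) : G.killing D (G.Ad x E) = G.killing (G.Ad x⁻¹ D) E := by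
  have h0 : ∀ (y : G.X) (E : G.Lie), G.ad (G.Ad y E) = G.Ad y ∘ₗ G.ad E ∘ₗ G.Ad y⁻¹ := by
    intro y E
    apply LinearMap.ext
    intro Z
    show G.br (G.Ad y E) Z = G.Ad y (G.br E (G.Ad y⁻¹ Z))
    rw [← pb7_br_Ad, pb7_Ad_Ad]
  unfold AffGrp.killing
  rw [h0, h0, inv_inv]
  have h1 := LinearMap.trace_mul_comm ℂ (G.ad D * G.Ad x * G.ad E : Module.End ℂ G.Lie) (G.Ad x⁻¹)
  exact h1

theorem pb7_muO (Q : TQD G K W X) (D : G.Lie) : muO Q D = ∑ l, Q.c l • inc K (y4_m Q D l) :=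
  KO_ext fun x => by
    rw [muO_apply, KO_sum]
    rfl

theorem pb7_derK_muO (Q : TQD G K W X) (D E : G.Lie) (x : G.X) : (derK K E (muO Q D)).1 x =
    ∑ j, Q.c j * algebraMap ℂ K (G.killing (G.Ad x⁻¹ D) (G.br E (Q.D j))) := by
  rw [pb7_muO, map_sum, KO_sum]
  refine Finset.sum_congr rfl fun j _ => ?_
  rw [map_smul, KO_smul, derK_inc, inc_apply]
  have h3 : (G.der E (y4_m Q D j)).1 x = y4_kil D (G.Ad x (G.br E (Q.D j))) :=
    y4_der' Q (y4_kil D) (Q.D j) E x
  rw [h3]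
  show _ * algebraMap ℂ K (G.killing D (G.Ad x (G.br E (Q.D j)))) = _
  rw [pb7_killing]

theorem pb7_kil_sum (Q : TQD G K W X) (x : Fin Q.r → ℂ) (E : G.Lie) :
    G.killing (∑ b, x b • Q.D b) E = ∑ b, x b * G.killing (Q.D b) E := by
  rw [killing_eq, map_sum, LinearMap.sum_apply]
  refine Finset.sum_congr rfl fun b _ => ?_
  rw [map_smul, LinearMap.smul_apply, smul_eq_mul, killing_eq]

theorem pb7_kil (Q : TQD G K W X) (D' : G.Lie) (a j : Fin Q.r) :
    G.killing D' (G.br (Q.D a) (Q.D j)) =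
      ∑ b, (∑ i, Q.D.repr D' i * Q.stc j i b) * Q.kap b a := by
  have h1 : G.killing D' (G.br (Q.D a) (Q.D j)) = G.killing (G.br (Q.D j) D') (Q.D a) := by
    rw [killing_eq, killing_eq, ← lie_eq, ← lie_eq, LieModule.traceForm_apply_lie_apply,
      LieModule.traceForm_comm ℂ G.Lie G.Lie (Q.D j), LieModule.traceForm_apply_lie_apply]
  have h2 : G.br (Q.D j) D' = ∑ b, (∑ i, Q.D.repr D' i * Q.stc j i b) • Q.D b := by
    have h3 : G.ad (Q.D j) D' = ∑ i, Q.D.repr D' i • G.br (Q.D j) (Q.D i) := by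
      conv_lhs => rw [← Q.D.sum_repr D']
      rw [map_sum]
      exact Finset.sum_congr rfl fun i _ => map_smul _ _ _
    have h4 : ∀ i, G.br (Q.D j) (Q.D i) = ∑ b, Q.stc j i b • Q.D b := fun i =>
      (Q.D.sum_repr _).symm
    show G.ad (Q.D j) D' = _
    rw [h3]
    simp only [h4, Finset.smul_sum, Finset.sum_smul, smul_smul]
    exact Finset.sum_comm
  rw [h1, h2, pb7_kil_sum]
  rfl

theorem pb7_sl_pu (l : L) (F : G.KO K) (k : L → G.X) : sl K k l (pu K l F) = F := by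
  apply KO_ext
  intro h
  rw [sl_apply, pu_apply, Function.update_self]

theorem pb7_derK_one {H : AffGrp} (D : H.Lie) : derK K D (1 : H.KO K) = 0 := by
  have h := derK_leib D (1 : H.KO K) 1
  rw [mul_one, one_mul] at h
  exact left_eq_add.1 h

theorem pb7_DL_single (l l' : L) (D : G.Lie) (a : Fin Q.r) :
    PD.DL (Q := Q) l' a (muF Q l D) =
      AddMonoidAlgebra.single 0 (derK K (emb l' (Q.D a)) (pu K l (muO Q D))) := by
  rw [muF_apply]
  unfold PD.DL
  rw [cD_single]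
  rfl

theorem pb7_DX_single (l : L) (D : G.Lie) (j : Fin P.n) :
    P.DX L j (muF Q l D) = AddMonoidAlgebra.single 0 (dK (P.dd j) (pu K l (muO Q D))) := by
  rw [muF_apply]
  unfold PD.DX
  rw [cD_single]

theorem pb7_sm (g : (G.pow L).KO K) (F : RR G K X L) (m : X) (k : L → G.X) :
    (((AddMonoidAlgebra.single 0 g : RR G K X L) * F).coeff m).1 k = g.1 k * (F.coeff m).1 k := by
  rw [AddMonoidAlgebra.coeff_single_zero_mul]
  rfl

theorem pb7_ms (g : (G.pow L).KO K) (F : RR G K X L) (m : X) (k : L → G.X) :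
    ((F * (AddMonoidAlgebra.single 0 g : RR G K X L)).coeff m).1 k = (F.coeff m).1 k * g.1 k := by
  rw [AddMonoidAlgebra.coeff_mul_single_zero]
  rfl

theorem pb7_sub0 (x : RR G K X L) (z : ℤ) : x - z • (0 : RR G K X L) = x := by
  have h : z • (0 : RR G K X L) = (0 : RR G K X L) := smul_zero z
  rw [h]
  exact sub_zero x

/-- evaluation of a family at `(m, k)` -/
def pb7_ev (m : X) (k : L → G.X) : RR G K X L →ₗ[K] K where
  toFun F := (F.coeff m).1 k
  map_add' F F' := by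
    rw [AddMonoidAlgebra.coeff_add]
    rfl
  map_smul' a F := by
    rw [AddMonoidAlgebra.coeff_smul_apply]
    rfl

theorem pb7_ev_apply (m : X) (k : L → G.X) (F : RR G K X L) : pb7_ev m k F = (F.coeff m).1 k := rfl

theorem pb7_derK_lin (Q : TQD G K W X) (l : L) (D' : G.Lie) (F : (G.pow L).KO K) (k : L → G.X) :
    (derK K (emb l D') F).1 k = ∑ b, Q.co D' b * (derK K (emb l (Q.D b)) F).1 k := by
  obtain ⟨n, c, f, h⟩ := KO_rep F
  have h1 : ∀ E : (G.pow L).Lie, (derK K E F).1 k =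
      ∑ i, c i * algebraMap ℂ K (((G.pow L).der E (f i)).1 k) := fun E =>
      lift_apply (H := G.pow L) (H' := G.pow L) ((G.pow L).der E) F c f h k
  have h2 : emb l D' = ∑ b, Q.D.repr D' b • emb l (Q.D b) := by
    conv_lhs => rw [← Q.D.sum_repr D', map_sum]
    exact Finset.sum_congr rfl fun b _ => map_smul _ _ _
  have h3 : ∀ g : (G.pow L).O, (emb l D').1 g = ∑ b, Q.D.repr D' b * (emb l (Q.D b)).1 g := by
    intro g
    rw [h2, AddSubmonoidClass.coe_finsetSum, LinearMap.sum_apply]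
    rfl
  have h4 : ∀ i, ((G.pow L).der (emb l D') (f i)).1 k =
      ∑ b, Q.D.repr D' b * ((G.pow L).der (emb l (Q.D b)) (f i)).1 k := fun i => h3 _
  rw [h1]
  simp only [h1, h4, map_sum, map_mul, Finset.mul_sum]
  rw [Finset.sum_comm]
  refine Finset.sum_congr rfl fun b _ => Finset.sum_congr rfl fun i _ => ?_
  unfold TQD.co
  ring

/-- [MTF-PB7] The derivatives of the moment map of the leg `l`: `D_(l,a) μ_l(D) (k) = κ([s, D'], D_a)` with `D' = Ad_{k_l}⁻¹ D`.
PROOF. `muF Q l D = single 0 (pu K l (muO Q D))` (`muF_apply`).  `derK_emb`: the slice `sl K k l (pu K l (muO Q D))` is `muO Q D`.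
`muO Q D (k_l y) = ∑ j, c j * κ(D, Ad_{k_l} Ad_y D_j)`; `derK_apply`, `ext_apply`: the derivative along `D_a` at `y = 1` is `∑ j, c j * κ(D, Ad_{k_l} [D_a, D_j])`
(`der_Ad` of PA1 with `φ := κ(D, Ad_{k_l} ·)`), `κ(D, Ad_{k_l} E) = κ(Ad_{k_l}⁻¹ D, E)` (the Killing form is `Ad`-invariant: `G.Ad x` is an automorphism of the Lie
algebra, so `ad (Ad x E) = Ad x ∘ ad E ∘ Ad x⁻¹` and the trace is invariant), and `∑ c j κ(D', [D_a, D_j]) = κ([s, D'], D_a)` (`kapK_inv`, `kapK_symm`). -/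
theorem DL_mu (l : L) (D : G.Lie) (a : Fin Q.r) (k : L → G.X) :
    ((PD.DL (Q := Q) l a (muF Q l D)).coeff 0).1 k =
      Q.flat (Q.brK Q.c (Q.co (G.Ad (k l)⁻¹ D))) a := by
  rw [pb7_DL_single, AddMonoidAlgebra.coeff_single, Finsupp.single_eq_same, derK_emb, pb7_sl_pu,
    pb7_derK_muO]
  unfold TQD.flat TQD.brK TQD.co
  simp only [pb7_kil, map_sum, map_mul, Finset.mul_sum, Finset.sum_mul, Algebra.smul_def]
  rw [Finset.sum_comm]
  refine Finset.sum_congr rfl fun b _ => Finset.sum_congr rfl fun j _ =>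
    Finset.sum_congr rfl fun i _ => ?_
  ring

/-- [MTF-PB7] all other coefficients and legs vanish; `N_j μ = 0`; `∂_j μ(k) = κ(∂_j s, D')`. -/
theorem DL_mu_ne {l l' : L} (h : l' ≠ l) (D : G.Lie) (a : Fin Q.r) :
    PD.DL (Q := Q) l' a (muF Q l D) = 0 := by
  have h1 : derK K (emb l' (Q.D a)) (pu K l (muO Q D)) = 0 := by
    apply KO_ext
    intro k
    rw [derK_emb]
    have h2 : sl K k l' (pu K l (muO Q D)) = ((muO Q D).1 (k l)) • (1 : G.KO K) := by
      apply KO_ext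
      intro y
      rw [sl_apply, pu_apply, KO_smul, KO_one, mul_one, Function.update_of_ne (Ne.symm h)]
    rw [h2, map_smul, pb7_derK_one, smul_zero]
    rfl
  rw [pb7_DL_single, h1, AddMonoidAlgebra.single_zero]

theorem DN_mu (l : L) (D : G.Lie) (j : Fin P.n) : P.DN L j (muF Q l D) = 0 := by
  rw [muF_apply]
  unfold PD.DN
  rw [nD_single, map_zero, zero_mul, AddMonoidAlgebra.single_zero]

theorem DX_mu (l : L) (D : G.Lie) (j : Fin P.n) (k : L → G.X) :
    ((P.DX L j (muF Q l D)).coeff 0).1 k = ∑ b, P.sig j b * Q.co (G.Ad (k l)⁻¹ D) b := by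
  rw [pb7_DX_single, AddMonoidAlgebra.coeff_single, Finsupp.single_eq_same, dK_apply, pu_apply,
    muO_apply, map_sum]
  have h1 : ∀ i, P.dd j (Q.c i * algebraMap ℂ K (G.killing D (G.Ad (k l) (Q.D i)))) =
      ∑ b, Q.co (G.Ad (k l)⁻¹ D) b * (Q.kap i b • P.dd j (Q.c i)) := by
    intro i
    rw [Derivation.leibniz, Derivation.map_algebraMap, smul_zero, zero_add, pb7_killing]
    conv_lhs => rw [← Q.D.sum_repr (G.Ad (k l)⁻¹ D), pb7_kil_sum]
    rw [map_sum, Finset.sum_smul]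
    refine Finset.sum_congr rfl fun b _ => ?_
    rw [map_mul, kap_symm, smul_eq_mul, Algebra.smul_def]
    unfold TQD.co TQD.kap
    ring
  rw [Finset.sum_congr rfl fun i _ => h1 i, Finset.sum_comm]
  refine Finset.sum_congr rfl fun b _ => ?_
  rw [← Finset.mul_sum, mul_comm]
  rfl

/-- [MTF-PB7] (P3.7).
PROOF. Let `D' = Ad_{k_l}⁻¹ D`, with coordinates `Q.co D'` (complex numbers).  Only the degree `0` part of `μ` is nonzero, `N_j μ = 0`, `AL l' a μ = 0` for `l' ≠ l`, and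
`(AL l a μ)(k) = flat (brK c D') a`.  So at `(m, k)`: `br μ F = - ∑_j (N_j F) κ(∂_j s, D') - ε_l ∑_{a,b} rho a b flat([s,D'])_a (AL l b F)`.
`u b := ∑ a, rho a b * flat([s,D'])_a`: `brK c u = brK c D'` by `hP.rho_im` (the covector `flat [s,D']` vanishes on `z ∈ ker`: `κ([s,D'],z) = - κ(D',[s,z]) = 0`) and
`flat_injective`, so `D' - u` is in the kernel of `ad s` and `∑_b (D' - u)_b (AL l b F) = 0` (`AL_ker`, evaluated at `(m,k)`).  Hence
`br μ F = - ∑_j (N_j F) κ(∂_j s, D') - ε_l ∑_b D'_b (DL l b F - ε_l ∑_j sig j b N_j F) = - ε_l ∑_b D'_b DL l b F`. -/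
theorem br_mu (hT : TQ Q) (hP : PQ Q P) {ε : L → Bool} {F : RR G K X L} (hF : IsEF Q ε F) (l : L)
    (D : G.Lie) (m : X) (k : L → G.X) :
    ((P.br ε (muF Q l D) F).coeff m).1 k =
      - (((sgn (ε l) : ℤ) : K) * (derK K (emb l (G.Ad (k l)⁻¹ D)) (F.coeff m)).1 k) := by
  obtain ⟨D', hD'⟩ : ∃ D', D' = G.Ad (k l)⁻¹ D := ⟨_, rfl⟩
  obtain ⟨d, hd⟩ : ∃ d : Fin Q.r → K, d = Q.co D' := ⟨_, rfl⟩
  obtain ⟨α, hα⟩ : ∃ α : Fin Q.r → K, α = Q.flat (Q.brK Q.c d) := ⟨_, rfl⟩
  obtain ⟨n, hn⟩ : ∃ n : Fin P.n → K, ∀ j, n j = ((P.DN L j F).coeff m).1 k := ⟨_, fun _ => rfl⟩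
  obtain ⟨v, hv⟩ : ∃ v : Fin Q.r → K, ∀ b, v b = ((P.AL ε l b F).coeff m).1 k := ⟨_, fun _ => rfl⟩
  obtain ⟨w, hw⟩ : ∃ w : Fin Q.r → K, ∀ b, w b = (derK K (emb l (Q.D b)) (F.coeff m)).1 k :=
    ⟨_, fun _ => rfl⟩
  have hAL : ∀ b, v b = w b - ((sgn (ε l) : ℤ) : K) * ∑ j, P.sig j b * n j := by
    intro b
    rw [hv, hw, ← pb7_ev_apply]
    unfold PD.AL
    rw [map_sub, map_zsmul, zsmul_eq_mul]
    have e1 : (pb7_ev m k) (∑ j, P.sig j b • P.DN L j F) = ∑ j, P.sig j b * n j := by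
      rw [map_sum]
      refine Finset.sum_congr rfl fun j _ => ?_
      rw [map_smul, smul_eq_mul, hn]
      rfl
    rw [e1]
    rfl
  -- the bracket
  have h1 : ((P.br ε (muF Q l D) F).coeff m).1 k =
      -(∑ j, n j * ∑ b, P.sig j b * d b) -
        ((sgn (ε l) : ℤ) : K) * ∑ a, ∑ b, P.rho a b * (α a * v b) := by
    rw [← pb7_ev_apply]
    unfold PD.br
    rw [map_sub, map_sum]
    congr 1
    · rw [← Finset.sum_neg_distrib]
      refine Finset.sum_congr rfl fun j _ => ?_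
      have h2 := DX_mu (P := P) l D j k
      rw [← hD', ← hd, pb7_DX_single, AddMonoidAlgebra.coeff_single, Finsupp.single_eq_same] at h2
      rw [DN_mu, zero_mul, map_sub, map_zero, zero_sub, pb7_DX_single, pb7_ev_apply, pb7_ms, h2, hn]
    · have hS : ∀ a, ∑ j, P.sig j a • P.DN L j (muF Q l D) = 0 := fun a =>
        Finset.sum_eq_zero fun j _ => by rw [DN_mu, smul_zero]
      have hne : ∀ l' : L, l' ≠ l → ∀ a, P.AL ε l' a (muF Q l D) = 0 := by
        intro l' hl' a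
        unfold PD.AL
        rw [DL_mu_ne hl', hS]
        exact pb7_sub0 _ _
      have heq : ∀ a, P.AL ε l a (muF Q l D) = PD.DL (Q := Q) l a (muF Q l D) := by
        intro a
        unfold PD.AL
        rw [hS]
        exact pb7_sub0 _ _
      rw [Finset.sum_eq_single l]
      · rw [map_zsmul, zsmul_eq_mul, map_sum]
        congr 1
        refine Finset.sum_congr rfl fun a _ => ?_
        rw [map_sum]
        refine Finset.sum_congr rfl fun b _ => ?_
        have h2 := DL_mu (Q := Q) l D a k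
        rw [← hD', ← hd, ← hα, pb7_DL_single, AddMonoidAlgebra.coeff_single,
          Finsupp.single_eq_same] at h2
        rw [map_smul, smul_eq_mul, heq, pb7_DL_single, pb7_ev_apply, pb7_sm, h2, hv]
      · intro l' _ hl'
        simp only [hne l' hl', zero_mul, smul_zero, Finset.sum_const_zero]
      · intro h
        exact absurd (Finset.mem_univ l) h
  -- the covector
  obtain ⟨u, hu⟩ : ∃ u : Fin Q.r → K, u = fun b => ∑ a, P.rho a b * α a := ⟨_, rfl⟩
  have h2 : Q.flat (Q.brK Q.c u) = α := by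
    rw [hu]
    refine hP.rho_im α fun z hz => ?_
    rw [hα, ← kapK_flat, kapK_inv, hz]
    have h0 : Q.kapK d (0 : Fin Q.r → K) = 0 := by
      unfold TQD.kapK
      simp
    rw [h0, neg_zero]
  have h3 : Q.brK Q.c (d - u) = 0 := by
    apply flat_injective hT.kill
    have h4 : Q.flat (Q.brK Q.c (d - u)) = Q.flat (Q.brK Q.c d) + (-1 : K) • Q.flat (Q.brK Q.c u) := by
      rw [← flat_smul, ← brK_smul, ← flat_add, ← brK_add]
      congr 2
      module
    rw [h4, h2, ← hα]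
    module
  have h4 : ∑ a, (d - u) a * v a = 0 := by
    have h5 := congrArg (pb7_ev m k) (AL_ker hP hF l h3)
    rw [map_sum, map_zero] at h5
    rw [← h5]
    refine Finset.sum_congr rfl fun a _ => ?_
    rw [map_smul, smul_eq_mul, hv]
    rfl
  have h5 : ∑ a, ∑ b, P.rho a b * (α a * v b) = ∑ b, d b * v b := by
    rw [Finset.sum_comm]
    have h6 : ∀ b, ∑ a, P.rho a b * (α a * v b) = d b * v b - (d - u) b * v b := by
      intro b
      rw [Pi.sub_apply, hu]
      show _ = d b * v b - (d b - ∑ a, P.rho a b * α a) * v b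
      rw [sub_mul, sub_sub_cancel, Finset.sum_mul]
      exact Finset.sum_congr rfl fun a _ => by ring
    rw [Finset.sum_congr rfl fun b _ => h6 b, Finset.sum_sub_distrib, h4, sub_zero]
  have h6 : ∑ b, d b * v b = ∑ b, d b * w b -
      ((sgn (ε l) : ℤ) : K) * ∑ j, n j * ∑ b, P.sig j b * d b := by
    have h7 : ∑ j, n j * ∑ b, P.sig j b * d b = ∑ b, d b * ∑ j, P.sig j b * n j := by
      simp only [Finset.mul_sum]
      rw [Finset.sum_comm]
      exact Finset.sum_congr rfl fun b _ => Finset.sum_congr rfl fun j _ => by ring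
    rw [h7, Finset.mul_sum, ← Finset.sum_sub_distrib]
    refine Finset.sum_congr rfl fun b _ => ?_
    rw [hAL]
    ring
  have h7 : ((sgn (ε l) : ℤ) : K) * ((sgn (ε l) : ℤ) : K) = 1 := by
    cases ε l
    · show ((-1 : ℤ) : K) * ((-1 : ℤ) : K) = 1
      rw [Int.cast_neg, Int.cast_one]
      ring
    · show ((1 : ℤ) : K) * ((1 : ℤ) : K) = 1
      rw [Int.cast_one, mul_one]
  have h8 : (derK K (emb l D') (F.coeff m)).1 k = ∑ b, d b * w b := by
    rw [pb7_derK_lin Q, hd]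
    exact Finset.sum_congr rfl fun b _ => by rw [hw]
  rw [h1, h5, h6, ← hD', h8]
  linear_combination (∑ j, n j * ∑ b, P.sig j b * d b) * h7

end

end Pool.Agent.MTF
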