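import Pool.Agent.MTF.PB7
import Pool.Agent.MTF.F0c

/-! # MTF, part P : moment maps generate the action -/

set_option linter.unusedSectionVars false

namespace Pool.Agent.MTF

open AffGrp

section
variable {G : AffGrp} {K W X : Type} [Field K] [Algebra ℂ K] [Group W] [Fintype W]
  [MulSemiringAction W K] [SMulCommClass W ℂ K] [AddCommGroup X] [DistribMulAction W X]
variable {Q : TQD G K W X}
variable {P : PD Q}
variable {L : Type} [Fintype L] [DecidableEq L]

theorem pb8_lie_inv (H : AffGrp) (D : H.Lie) (φ : H.O) :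
    D.1 ⟨fun x => φ.1 x⁻¹, H.inv_mem φ.1 φ.2⟩ = - D.1 φ := by
  obtain ⟨n, a, b, h⟩ := H.mul_mem φ.1 φ.2
  let ai : Fin n → H.O := fun i => ⟨fun x => (a i).1 x⁻¹, H.inv_mem _ (a i).2⟩
  have h1 : φ = ∑ i, (a i).1 1 • b i := by
    apply Subtype.ext
    funext y
    have h5 := h 1 y
    rw [one_mul] at h5
    rw [h5]
    simp [Finset.sum_apply]
  have h2 : (⟨fun x => φ.1 x⁻¹, H.inv_mem φ.1 φ.2⟩ : H.O) = ∑ i, (b i).1 1 • ai i := by
    apply Subtype.ext
    funext y
    have h5 := h y⁻¹ 1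
    rw [mul_one] at h5
    show φ.1 y⁻¹ = _
    rw [h5]
    simp [Finset.sum_apply, ai, mul_comm]
  have h3 : algebraMap ℂ H.O (φ.1 1) = ∑ i, ai i * b i := by
    apply Subtype.ext
    funext y
    have h5 := h y⁻¹ y
    rw [inv_mul_cancel] at h5
    show φ.1 1 = _
    rw [h5]
    simp [Finset.sum_apply, ai]
  have h4 := congrArg D.1 h3
  rw [lie_const, map_sum] at h4
  have h6 : ∀ i, D.1 (ai i * b i) = (a i).1 1 * D.1 (b i) + (b i).1 1 * D.1 (ai i) := by
    intro i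
    have h7 := D.2 (ai i) (b i)
    have h8 : (ai i).1 1 = (a i).1 1 := by
      show (a i).1 (1 : H.X)⁻¹ = _
      rw [inv_one]
    rw [h8] at h7
    exact h7
  rw [Finset.sum_congr rfl fun i _ => h6 i, Finset.sum_add_distrib] at h4
  have h9 := congrArg D.1 h1
  have h10 := congrArg D.1 h2
  simp only [map_sum, map_smul, smul_eq_mul] at h9 h10
  rw [h10, h9]
  linear_combination -h4

theorem pb8_derK_sum {H : AffGrp} {κ : Type} (s : Finset κ) (D : κ → H.Lie) (F : H.KO K) (x : H.X) :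
    (derK K (∑ i ∈ s, D i) F).1 x = ∑ i ∈ s, (derK K (D i) F).1 x := by
  obtain ⟨n, c, f, h⟩ := KO_rep (ltK x F)
  rw [derK_apply, ext_apply _ (ltK x F) c f h]
  have h1 : ∀ i, (derK K (D i) F).1 x = ∑ j, c j * algebraMap ℂ K ((D i).1 (f j)) := by
    intro i
    rw [derK_apply, ext_apply _ (ltK x F) c f h]
  rw [Finset.sum_congr rfl fun i _ => h1 i, Finset.sum_comm]
  refine Finset.sum_congr rfl fun j _ => ?_
  rw [← Finset.mul_sum, ← map_sum]
  congr 2
  have h2 : ((∑ i ∈ s, D i : H.Lie) : Module.Dual ℂ H.O) = ∑ i ∈ s, ((D i : H.Lie) : Module.Dual ℂ H.O) := by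
    simp
  rw [h2, LinearMap.sum_apply]

theorem pb8_derK (H : AffGrp) (D : H.Lie) (F : H.KO K) (k : H.X) {n : ℕ} (f : Fin n → H.O) (c : Fin n → K)
    (h : ∀ x : H.X, F.1 (x⁻¹ * k) = ∑ i, algebraMap ℂ K ((f i).1 x) * c i) :
    ∑ i, algebraMap ℂ K (D.1 (f i)) * c i = - (derK K (H.Ad k⁻¹ D) F).1 k := by
  obtain ⟨m, a, g, hg⟩ := KO_rep F
  let g' : Fin m → H.O := fun t => ⟨fun x => (g t).1 (x⁻¹ * k), H.inv_mem _ (H.right_mem k (g t).2)⟩
  have h1 := der_expand (G := H) (A := K) D.1 f c g' a (fun x => by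
    have h2 := h x
    rw [hg] at h2
    simp only [Algebra.smul_def]
    rw [← h2]
    refine Finset.sum_congr rfl fun t _ => ?_
    show _ = algebraMap ℂ K ((g t).1 (x⁻¹ * k)) * a t
    rw [mul_comm])
  simp only [Algebra.smul_def] at h1
  rw [h1, derK_apply, ext_apply _ (ltK k F) a (fun t => H.lt k (g t)) (fun x => hg _), ← Finset.sum_neg_distrib]
  refine Finset.sum_congr rfl fun t _ => ?_
  have h3 : D.1 (g' t) = - (H.Ad k⁻¹ D).1 (H.lt k (g t)) := by
    have h4 := pb8_lie_inv H D ⟨fun x => (g t).1 (x * k), H.right_mem k (g t).2⟩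
    have h5 : (H.Ad k⁻¹ D).1 (H.lt k (g t)) = D.1 ⟨fun x => (g t).1 (x * k), H.right_mem k (g t).2⟩ := by
      show D.1 (H.cj k⁻¹ (H.lt k (g t))) = _
      congr 1
      apply Subtype.ext
      funext y
      show (g t).1 (k * (k⁻¹ * y * k⁻¹⁻¹)) = (g t).1 (y * k)
      have h6 : k * (k⁻¹ * y * k⁻¹⁻¹) = y * k := by group
      rw [h6]
    rw [h5]
    exact h4
  rw [h3, map_neg]
  ring

theorem pb8_coeff_smul (c : ℂ) (F : RR G K X L) (m : X) (k : L → G.X) :
    ((c • F).coeff m).1 k = algebraMap ℂ K c * (F.coeff m).1 k := by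
  rw [← Algebra.smul_def]
  rfl

theorem pb8_coeff_zsmul (c : ℤ) (F : RR G K X L) (m : X) (k : L → G.X) :
    ((c • F).coeff m).1 k = (c : K) * (F.coeff m).1 k := by
  rw [← zsmul_eq_mul]
  rfl

/-- the bracket as an additive map in the first argument -/
noncomputable def pb8_hom (P : PD Q) (hP : PQ Q P) (ε : L → Bool) (F : RR G K X L) : RR G K X L →+ RR G K X L :=
  AddMonoidHom.mk' (fun F' => P.br ε F' F) (fun F1 F2 => by
    rw [br_skew hP, br_add_right, br_skew hP ε F1 F, br_skew hP ε F2 F]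
    exact neg_add (P.br ε F F1) (P.br ε F F2))

theorem pb8_hom_apply (P : PD Q) (hP : PQ Q P) (ε : L → Bool) (F F' : RR G K X L) :
    pb8_hom P hP ε F F' = P.br ε F' F := rfl

theorem pb8_sgn (b : Bool) : ((sgn b : ℤ) : K) * ((sgn b : ℤ) : K) = 1 := by
  cases b <;> simp [sgn]

/-- [MTF-PB8] The derivative of the action of `G^L`.
PROOF. Fix `m`, `k` and apply everything to the coefficient at `m` and the point `k`.  `F_m (x⁻¹ k) = ∑ i, f_i(x) c_i(m,k)` for all `x : L → G.X`.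
`F_m (x⁻¹ k) = F_m (k · (k⁻¹ x⁻¹ k))`.  Let `F_m = ∑ a_t inc (g_t)` (`KO_rep`).  `∑ i, D.1 (f_i) c_i(m,k)` is the derivative (`ext`) of `x ↦ F_m (x⁻¹ k)` along `D` at `1`
(`der_expand`/`ext_apply`: two expansions of the same function have the same derivative).  The derivative of `x ↦ φ (x⁻¹)` at `1` is minus that of `φ` (`D.2` applied to `φ' (x x⁻¹)`:
from `G.mul_mem`, for `H := G.pow L`), and of `x ↦ φ (k⁻¹ x k)` along `D` is that of `φ` along `(G.pow L).Ad k⁻¹ D` (definition of `Ad`).  So the right side is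
`- ((derK K ((G.pow L).Ad k⁻¹ D)) F_m) (k)`, and `(G.pow L).Ad k⁻¹ D = ∑ l, emb l (G.Ad (k l)⁻¹ (lpr l D))` (`lie_ext`, `lpr_emb`, `lpr_Ad`).
The left side is the sum over `l` of `br_mu` (`br_skew`, `br_add_right` for additivity in the first argument), `ε_l² = 1`. -/
theorem br_muT (hT : TQ Q) (hP : PQ Q P) {ε : L → Bool} {F : RR G K X L} (hF : IsEF Q ε F)
    (D : (G.pow L).Lie) {n : ℕ} (f : Fin n → (G.pow L).O) (c : Fin n → RR G K X L)
    (h : ∀ x : L → G.X, gact x F = ∑ i, (f i).1 x • c i) :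
    P.br ε (∑ l, sgn (ε l) • muF Q l (G.lpr l D)) F = ∑ i, D.1 (f i) • c i := by
  apply RR_ext
  intro m k
  rw [← pb8_hom_apply P hP ε F, map_sum]
  simp only [map_zsmul, pb8_hom_apply]
  rw [AddMonoidAlgebra.coeff_sum, Finsupp.finsetSum_apply, KO_sum, AddMonoidAlgebra.coeff_sum,
    Finsupp.finsetSum_apply, KO_sum]
  simp only [pb8_coeff_smul, pb8_coeff_zsmul]
  have h1 : ∀ l, ((sgn (ε l) : ℤ) : K) * ((P.br ε (muF Q l (G.lpr l D)) F).coeff m).1 k =
      - (derK K (emb l (G.Ad (k l)⁻¹ (G.lpr l D))) (F.coeff m)).1 k := by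
    intro l
    rw [br_mu hT hP hF l (G.lpr l D) m k]
    have h2 := pb8_sgn (K := K) (ε l)
    linear_combination (-(derK K (emb l (G.Ad (k l)⁻¹ (G.lpr l D))) (F.coeff m)).1 k) * h2
  rw [Finset.sum_congr rfl fun l _ => h1 l, Finset.sum_neg_distrib]
  rw [pb8_derK (G.pow L) D (F.coeff m) k f (fun i => ((c i).coeff m).1 k)]
  · congr 1
    rw [← pb8_derK_sum (H := G.pow L)]
    have h3 : (G.pow L).Ad k⁻¹ D = ∑ l, emb l (G.Ad (k l)⁻¹ (G.lpr l D)) := by
      apply lie_ext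
      intro l
      rw [map_sum]
      simp only [lpr_emb]
      rw [Finset.sum_ite_eq Finset.univ l, if_pos (Finset.mem_univ _)]
      rfl
    rw [h3]
  · intro x
    have h4 := congrArg (fun F' : RR G K X L => (F'.coeff m).1 k) (h x)
    rw [gact_apply, AddMonoidAlgebra.coeff_sum, Finsupp.finsetSum_apply, KO_sum] at h4
    simp only [pb8_coeff_smul] at h4
    exact h4

end

end Pool.Agent.MTF
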