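import Pool.Agent.MTF.PB0
import Pool.Agent.MTF.AG
import Pool.Agent.MTF.LB2

/-! # MTF, part P : translations commute with the bracket -/

set_option linter.unusedSectionVars false

namespace Pool.Agent.MTF

open AffGrp

section
variable {G : AffGrp} {K W X : Type} [Field K] [Algebra ℂ K] [Group W] [Fintype W]
  [MulSemiringAction W K] [SMulCommClass W ℂ K] [AddCommGroup X] [DistribMulAction W X]
variable {Q : TQD G K W X}
variable {P : PD Q}
variable {L : Type} [Fintype L] [DecidableEq L]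

theorem pb9_AL {L' : Type} [Fintype L'] [DecidableEq L'] (Φ : RR G K X L →ₐ[K] RR G K X L')
    (e : L → L') {ε : L → Bool} {ε' : L' → Bool} (he : ∀ l, ε' (e l) = ε l)
    (hL : ∀ l a F, PD.DL (Q := Q) (e l) a (Φ F) = Φ (PD.DL (Q := Q) l a F))
    (hN : ∀ j F, P.DN L' j (Φ F) = Φ (P.DN L j F)) (l : L) (a : Fin Q.r) (F : RR G K X L) :
    P.AL ε' (e l) a (Φ F) = Φ (P.AL ε l a F) := by
  unfold PD.AL
  rw [hL, he, map_sub, map_zsmul, map_sum]
  congr 2
  refine Finset.sum_congr rfl fun j _ => ?_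
  rw [hN, map_smul]

theorem pb9_br {L' : Type} [Fintype L'] [DecidableEq L'] (Φ : RR G K X L →ₐ[K] RR G K X L')
    (e : L ≃ L') {ε : L → Bool} {ε' : L' → Bool} (he : ∀ l, ε' (e l) = ε l)
    (hL : ∀ l a F, PD.DL (Q := Q) (e l) a (Φ F) = Φ (PD.DL (Q := Q) l a F))
    (hN : ∀ j F, P.DN L' j (Φ F) = Φ (P.DN L j F))
    (hX : ∀ j F, P.DX L' j (Φ F) = Φ (P.DX L j F)) (F F' : RR G K X L) :
    P.br ε' (Φ F) (Φ F') = Φ (P.br ε F F') := by
  unfold PD.br
  rw [map_sub, map_sum, map_sum, ← Equiv.sum_comp e]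
  congr 1
  · refine Finset.sum_congr rfl fun j _ => ?_
    rw [map_sub, map_mul, map_mul, hN, hN, hX, hX]
  · refine Finset.sum_congr rfl fun l _ => ?_
    rw [map_zsmul, map_sum, he]
    congr 1
    refine Finset.sum_congr rfl fun a _ => ?_
    rw [map_sum]
    refine Finset.sum_congr rfl fun b _ => ?_
    rw [map_smul, map_mul, pb9_AL Φ e he hL hN, pb9_AL Φ e he hL hN]

/-- [MTF-PB9] PROOF. `derK_ltK`. -/
theorem DL_gact (x : L → G.X) (l : L) (a : Fin Q.r) (F : RR G K X L) :
    PD.DL (Q := Q) l a (gact x F) = gact x (PD.DL (Q := Q) l a F) := by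
  apply AddMonoidAlgebra.coeff_injective
  ext m : 1
  rw [DL_coeff, coeff_gact, coeff_gact, DL_coeff]
  exact derK_ltK (emb l (Q.D a)) (H := G.pow L) x⁻¹ (F.coeff m)

theorem DN_gact (x : L → G.X) (j : Fin P.n) (F : RR G K X L) :
    P.DN L j (gact x F) = gact x (P.DN L j F) := by
  apply AddMonoidAlgebra.coeff_injective
  ext m : 1
  rw [DN_coeff, coeff_gact, coeff_gact, DN_coeff, map_smul]

theorem DX_gact (x : L → G.X) (j : Fin P.n) (F : RR G K X L) :
    P.DX L j (gact x F) = gact x (P.DX L j F) := by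
  apply RR_ext
  intro m k
  rw [DX_coeff, gact_apply, gact_apply, DX_coeff]

/-- [MTF-PB9] PROOF. `gact x` is a `K`-algebra homomorphism. -/
theorem br_gact (x : L → G.X) (ε : L → Bool) (F F' : RR G K X L) :
    P.br ε (gact x F) (gact x F') = gact x (P.br ε F F') := by
  exact pb9_br (gact x) (Equiv.refl L) (fun _ => rfl) (fun l a F => DL_gact x l a F)
    (fun j F => DN_gact x j F) (fun j F => DX_gact x j F) F F'

/-- [MTF-PB9] relabelling of the legs. PROOF. `LP.derK_pb`-type formula: `derK K (emb (e l) D) (pb K e F) = pb K e (derK K (emb l D) F)`; the sum over the legs is reindexed by `e`. -/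
theorem br_re {L' : Type} [Fintype L'] [DecidableEq L'] (e : L ≃ L') {ε : L → Bool} {ε' : L' → Bool}
    (he : ∀ l, ε' (e l) = ε l) (F F' : RR G K X L) :
    P.br ε' (fm X (pb K e) F) (fm X (pb K e) F') = fm X (pb K e) (P.br ε F F') := by
  refine pb9_br (fm X (pb K e)) e he (fun l a F => ?_) (fun j F => ?_) (fun j F => ?_) F F'
  · apply AddMonoidAlgebra.coeff_injective
    ext m : 1
    rw [DL_coeff, coeff_fm, coeff_fm, DL_coeff]
    exact LP.derK_pb e.injective (Q.D a) l (F.coeff m)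
  · apply AddMonoidAlgebra.coeff_injective
    ext m : 1
    rw [DN_coeff, coeff_fm, coeff_fm, DN_coeff, map_smul]
  · apply RR_ext
    intro m k
    rw [DX_coeff, coeff_fm, coeff_fm]
    rfl

end

end Pool.Agent.MTF
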