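import Pool.Agent.MTF.PA4
import Pool.Agent.MTF.LF3

/-! # MTF, part P : solving equations on the slice -/

set_option linter.unusedSectionVars false

namespace Pool.Agent.MTF

open AffGrp

section
variable {G : AffGrp} {K W X : Type} [Field K] [Algebra ℂ K] [Group W] [Fintype W]
  [MulSemiringAction W K] [SMulCommClass W ℂ K] [AddCommGroup X] [DistribMulAction W X]
variable {Q : TQD G K W X}
variable {P : PD Q}

theorem pc1_char {A : Type} [CommRing A] [Algebra ℂ A] [Algebra.FiniteType ℂ A] (m : Ideal A)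
    [hm : m.IsMaximal] : ∃ χ : A →ₐ[ℂ] ℂ, ∀ a ∈ m, χ a = 0 := by
  let _ := Ideal.Quotient.field m
  have h1 : Module.Finite ℂ (A ⧸ m) := finite_of_finite_type_of_isJacobsonRing ℂ (A ⧸ m)
  have h2 : Function.Bijective (algebraMap ℂ (A ⧸ m)) :=
    IsAlgClosed.algebraMap_bijective_of_isIntegral
  let e : ℂ ≃ₐ[ℂ] (A ⧸ m) := AlgEquiv.ofBijective (Algebra.ofId ℂ (A ⧸ m)) h2
  refine ⟨(e.symm : (A ⧸ m) →ₐ[ℂ] ℂ).comp (Ideal.Quotient.mkₐ ℂ m), fun a ha => ?_⟩
  show e.symm (Ideal.Quotient.mk m a) = 0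
  rw [Ideal.Quotient.eq_zero_iff_mem.2 ha, map_zero]

theorem pc1_brK_zero {R : Type} [CommRing R] [Algebra ℂ R] (z : Fin Q.r → R) :
    Q.brK z 0 = 0 := by
  funext c
  unfold TQD.brK
  refine Finset.sum_eq_zero fun a _ => Finset.sum_eq_zero fun b _ => ?_
  rw [Pi.zero_apply, mul_zero, smul_zero]

theorem pc1_brK_map {R S : Type} [CommRing R] [Algebra ℂ R] [CommRing S] [Algebra ℂ S]
    (φ : R →ₐ[ℂ] S) (z z' : Fin Q.r → R) (c : Fin Q.r) :
    φ (Q.brK z z' c) = Q.brK (fun i => φ (z i)) (fun i => φ (z' i)) c := by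
  unfold TQD.brK
  rw [map_sum]
  refine Finset.sum_congr rfl fun a _ => ?_
  rw [map_sum]
  refine Finset.sum_congr rfl fun b _ => ?_
  rw [map_smul, map_mul]

theorem pc1_repr_br (D E : G.Lie) (c : Fin Q.r) :
    Q.D.repr (G.br D E) c = Q.brK (fun i => Q.D.repr D i) (fun i => Q.D.repr E i) c := by
  have h1 : G.br D E = ∑ a, ∑ b, (Q.D.repr D a * Q.D.repr E b) • G.br (Q.D a) (Q.D b) := by
    rw [← lie_eq]
    conv_lhs => rw [← Q.D.sum_repr D, ← Q.D.sum_repr E]
    rw [sum_lie_sum]
    refine Finset.sum_congr rfl fun a _ => Finset.sum_congr rfl fun b _ => ?_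
    rw [smul_lie, lie_smul, smul_smul, lie_eq]
  rw [h1, map_sum, Finsupp.finsetSum_apply]
  unfold TQD.brK
  refine Finset.sum_congr rfl fun a _ => ?_
  rw [map_sum, Finsupp.finsetSum_apply]
  refine Finset.sum_congr rfl fun b _ => ?_
  rw [map_smul, Finsupp.smul_apply, smul_eq_mul, smul_eq_mul, mul_comm]
  rfl

/-- [MTF-PC1] `𝔤 ⊗ A = 𝔤_f ⊗ A + [s, [f, 𝔤 ⊗ A]]`.
PROOF. Let `p = dim ker (ad f)`, `q = dim im (ad f)`, `p + q = r` (complex vectors of coordinates; `ad f z = brK (co f) z`).  Bases `b_1..b_p` of the kernel, `b'_1..b'_q` of the image.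
For a vector `c'` with coordinates in a commutative `ℂ`-algebra `R` let `M(c')` be the `r × r` matrix with the columns `b_i` and `brK c' b'_j`.  (1) For `s₀` in the slice and `c'` its
coordinates `M(c')` is surjective by `hP.sl` (`z = u + [s₀, [f, v]]`), so `det M(c') ≠ 0`.  (2) Let `B := Algebra.adjoin ℂ (Set.range Q.c) ≤ Q.A` (`hT.c_mem`), `δ := det M(Q.c) ∈ B`.
CLAIM: `δ` is a unit of `B`.  Otherwise `δ` is in a maximal ideal `𝔪` of `B`; `B` is a finitely generated `ℂ`-algebra, so `B/𝔪 = ℂ` (Nullstellensatz: `B/𝔪` is a field which is a finitely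
generated algebra, hence finite over `ℂ`, `IsAlgClosed.algebraMap_bijective_of_isIntegral` or the like) and there is `χ : B →ₐ[ℂ] ℂ` with `χ δ = 0`.
`s₀ := ∑ j, χ (c j) • Q.D j`; `hP.sf` (coordinates in `B`) and `χ` give `G.br P.f (s₀ - P.e) = 0`; `det M(s₀) = χ δ = 0`, contradiction to (1).
(3) `M(Q.c)⁻¹ = δ⁻¹ • adjugate` has entries in `B ⊆ A`.  For `α` put `(x, y) := M(Q.c)⁻¹ α`, `u := ∑ x_i b_i`, `v := ∑ y_j b'_j`. -/
theorem slice_solve (hT : TQ Q) (hP : PQ Q P) (α : Fin Q.r → K) (hα : ∀ a, α a ∈ Q.A) :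
    ∃ u v : Fin Q.r → K, (∀ a, u a ∈ Q.A) ∧ (∀ a, v a ∈ Q.A) ∧ Q.brK (Q.co P.f) u = 0 ∧
      α = u + Q.brK Q.c v := by
  classical
  let B : Subalgebra ℂ K := Algebra.adjoin ℂ (Set.range Q.c)
  have hBA : B ≤ Q.A := Algebra.adjoin_le (by rintro _ ⟨j, rfl⟩; exact hT.c_mem j)
  have : Algebra.FiniteType ℂ B :=
    (Subalgebra.fg_iff_finiteType _).1 (by
      have h := Subalgebra.fg_adjoin_finset (R := ℂ) (Finset.univ.image Q.c)
      rwa [Finset.coe_image, Finset.coe_univ, Set.image_univ] at h)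
  let cB : Fin Q.r → B := fun j => ⟨Q.c j, Algebra.subset_adjoin ⟨j, rfl⟩⟩
  -- the property
  let S : (Fin Q.r → K) → Prop := fun α => ∃ u v : Fin Q.r → K, (∀ a, u a ∈ Q.A) ∧
    (∀ a, v a ∈ Q.A) ∧ Q.brK (Q.co P.f) u = 0 ∧ α = u + Q.brK Q.c v
  have hSadd : ∀ α β, S α → S β → S (α + β) := by
    rintro α β ⟨u, v, h1, h2, h3, h4⟩ ⟨u', v', h1', h2', h3', h4'⟩
    refine ⟨u + u', v + v', fun a => Q.A.add_mem (h1 a) (h1' a),
      fun a => Q.A.add_mem (h2 a) (h2' a), ?_, ?_⟩
    · rw [brK_add, h3, h3', add_zero]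
    · rw [brK_add, h4, h4']
      abel
  have hSsmul : ∀ (x : K) α, x ∈ Q.A → S α → S (x • α) := by
    rintro x α hx ⟨u, v, h1, h2, h3, h4⟩
    refine ⟨x • u, x • v, fun a => Q.A.mul_mem hx (h1 a), fun a => Q.A.mul_mem hx (h2 a), ?_, ?_⟩
    · rw [brK_smul, h3, smul_zero]
    · rw [brK_smul, h4, smul_add]
  have hS0 : S 0 := ⟨0, 0, fun _ => Q.A.zero_mem, fun _ => Q.A.zero_mem,
    pc1_brK_zero _, by rw [pc1_brK_zero, add_zero]⟩
  have hSsum : ∀ (s : Finset (Fin Q.r)) (x : Fin Q.r → K) (β : Fin Q.r → Fin Q.r → K),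
      (∀ j, x j ∈ Q.A) → (∀ j, S (β j)) → S (∑ j ∈ s, x j • β j) := by
    intro s x β hx hβ
    induction s using Finset.induction_on with
    | empty => rw [Finset.sum_empty]; exact hS0
    | insert j s hj ih =>
      rw [Finset.sum_insert hj]
      exact hSadd _ _ (hSsmul _ _ (hx j) (hβ j)) ih
  -- the ideal
  let I : Ideal B :=
    { carrier := {b | ∀ i, S ((b : K) • Pi.single i (1 : K))}
      add_mem' := by
        intro a b ha hb i
        have := hSadd _ _ (ha i) (hb i)
        rwa [← add_smul] at this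
      zero_mem' := by
        intro i
        show S (((0 : B) : K) • Pi.single i (1 : K))
        rw [Subalgebra.coe_zero, zero_smul]
        exact hS0
      smul_mem' := by
        intro b x hx i
        have := hSsmul (b : K) _ (hBA b.2) (hx i)
        rw [smul_smul] at this
        exact this }
  have hI : I = ⊤ := by
    by_contra hne
    obtain ⟨m, hm, hIm⟩ := Ideal.exists_le_maximal I hne
    obtain ⟨χ, hχ⟩ := pc1_char m
    let s₀ : G.Lie := ∑ j, χ (cB j) • Q.D j
    have hs₀ : ∀ i, Q.D.repr s₀ i = χ (cB i) := fun i => by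
      show Q.D.repr (∑ j, χ (cB j) • Q.D j) i = _
      rw [Q.D.repr_sum_self]
    have hsl : G.br P.f (s₀ - P.e) = 0 := by
      apply Q.D.repr.injective
      rw [map_zero]
      refine Finsupp.ext fun c => ?_
      rw [pc1_repr_br, Finsupp.zero_apply]
      have h1 : Q.brK (fun i => algebraMap ℂ B (Q.D.repr P.f i))
          (fun i => cB i - algebraMap ℂ B (Q.D.repr P.e i)) c = 0 := by
        apply Subtype.ext
        have h2 := pc1_brK_map (Q := Q) B.val (fun i => algebraMap ℂ B (Q.D.repr P.f i))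
          (fun i => cB i - algebraMap ℂ B (Q.D.repr P.e i)) c
        refine h2.trans ?_
        exact congrFun hP.sf c
      have h3 := congrArg χ h1
      rw [map_zero, pc1_brK_map] at h3
      rw [← h3]
      congr 1
      · funext i
        exact (χ.commutes _).symm
      · funext i
        rw [map_sub, map_sub, Finsupp.sub_apply, hs₀, χ.commutes]
        rfl
    choose u v hu huv using fun i => hP.sl s₀ hsl (Q.D i)
    let x : Matrix (Fin Q.r) (Fin Q.r) B := fun i a =>
      algebraMap ℂ B (Q.D.repr (u i) a) +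
        Q.brK cB (fun b => algebraMap ℂ B (Q.D.repr (G.br P.f (v i)) b)) a
    have hχx : χ.mapMatrix x = 1 := by
      ext i a
      show χ (x i a) = _
      have h1 : χ (x i a) = Q.D.repr (u i) a + Q.brK (fun i => χ (cB i))
          (fun b => Q.D.repr (G.br P.f (v i)) b) a := by
        show χ (algebraMap ℂ B (Q.D.repr (u i) a) +
          Q.brK cB (fun b => algebraMap ℂ B (Q.D.repr (G.br P.f (v i)) b)) a) = _
        rw [map_add, pc1_brK_map, χ.commutes]
        refine congrArg₂ (· + ·) rfl ?_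
        refine congrArg (fun w => Q.brK (fun i => χ (cB i)) w a) ?_
        funext b
        exact χ.commutes _
      have h2 : (fun i => χ (cB i)) = fun i => Q.D.repr s₀ i := by
        funext j
        exact (hs₀ j).symm
      rw [h1, h2, ← pc1_repr_br, ← Finsupp.add_apply, ← map_add, ← huv i, Q.D.repr_self,
        Finsupp.single_apply, Matrix.one_apply]
    have hdet : χ x.det = 1 := by
      have h := AlgHom.map_det χ x
      rw [h, hχx, Matrix.det_one]
    have hSx : ∀ i, S (fun a => (x i a : K)) := by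
      intro i
      refine ⟨fun a => algebraMap ℂ K (Q.D.repr (u i) a),
        fun b => algebraMap ℂ K (Q.D.repr (G.br P.f (v i)) b), fun a => Q.A.algebraMap_mem _,
        fun a => Q.A.algebraMap_mem _, ?_, ?_⟩
      · funext c
        have h1 := pc1_brK_map (Q := Q) (Algebra.ofId ℂ K) (fun i => Q.D.repr P.f i)
          (fun a => Q.D.repr (u i) a) c
        rw [← pc1_repr_br, hu i, map_zero, Finsupp.zero_apply, map_zero] at h1
        exact h1.symm
      · funext a
        have h1 := pc1_brK_map (Q := Q) B.val cB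
          (fun b => algebraMap ℂ B (Q.D.repr (G.br P.f (v i)) b)) a
        show ((x i a : B) : K) = algebraMap ℂ K (Q.D.repr (u i) a) +
          Q.brK Q.c (fun b => algebraMap ℂ K (Q.D.repr (G.br P.f (v i)) b)) a
        show B.val (algebraMap ℂ B (Q.D.repr (u i) a) +
          Q.brK cB (fun b => algebraMap ℂ B (Q.D.repr (G.br P.f (v i)) b)) a) = _
        rw [map_add, h1, AlgHom.commutes]
        rfl
    have hδ : x.det ∈ I := by
      intro i
      have h1 : ((x.det : B) : K) • Pi.single i (1 : K) =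
          ∑ j, ((x.adjugate i j : B) : K) • (fun a => (x j a : K)) := by
        funext a
        have h2 : (x.adjugate * x) i a = (x.det • (1 : Matrix (Fin Q.r) (Fin Q.r) B)) i a := by
          rw [Matrix.adjugate_mul]
        rw [Matrix.mul_apply, Matrix.smul_apply, Matrix.one_apply, smul_eq_mul] at h2
        have h3 := congrArg B.val h2
        rw [map_sum, map_mul] at h3
        rw [Finset.sum_apply, Pi.smul_apply, smul_eq_mul]
        refine Eq.trans ?_ h3.symm
        show ((x.det : B) : K) * _ = ((x.det : B) : K) * _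
        congr 1
        rw [Pi.single_apply]
        by_cases h : i = a
        · rw [if_pos h, if_pos h.symm, map_one]
        · rw [if_neg h, if_neg fun h' => h h'.symm, map_zero]
      rw [h1]
      exact hSsum _ _ _ (fun j => hBA (x.adjugate i j).2) hSx
    have := hχ _ (hIm hδ)
    rw [hdet] at this
    exact one_ne_zero this
  have h1 : ∀ i, S (Pi.single i (1 : K)) := by
    intro i
    have h : (1 : B) ∈ I := by rw [hI]; trivial
    have h2 := h i
    rwa [Subalgebra.coe_one, one_smul] at h2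
  have h2 := hSsum Finset.univ α (fun i => Pi.single i (1 : K)) hα h1
  have h3 : ∑ j, α j • Pi.single (M := fun _ => K) j (1 : K) = α := by
    funext a
    rw [Finset.sum_apply, Finset.sum_eq_single a]
    · rw [Pi.smul_apply, Pi.single_eq_same, smul_eq_mul, mul_one]
    · intro b _ hb
      rw [Pi.smul_apply, Pi.single_eq_of_ne hb.symm, smul_zero]
    · intro h
      exact absurd (Finset.mem_univ a) h
  rw [h3] at h2
  exact h2

end

end Pool.Agent.MTF
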