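import Pool.Agent.MTF.Y7

set_option linter.unusedSectionVars false

namespace Pool.Agent.MTF

open AffGrp

section
variable {G : AffGrp} {K W X : Type} [Field K] [Algebra ℂ K] [Group W] [Fintype W]
  [MulSemiringAction W K] [SMulCommClass W ℂ K] [AddCommGroup X] [DistribMulAction W X]
variable {L : Type} [Finite L] [DecidableEq L]
variable {Q : TQD G K W X}

/-- (row Y8) the operators `s i` commute -/
theorem y8_comm (i j : L) (F : (G.pow L).KO K) : Q.s i (Q.s j F) = Q.s j (Q.s i F) := by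
  by_cases hij : i = j
  · rw [hij]
  have key : ∀ (f : (L → G.X) → ℂ) (hf : f ∈ G.powO L),
      Q.s i (Q.s j (inc (H := G.pow L) K ⟨f, hf⟩)) =
        Q.s j (Q.s i (inc (H := G.pow L) K ⟨f, hf⟩)) := by
    intro f hf
    have hf' := hf
    unfold AffGrp.powO at hf'
    induction hf' using Algebra.adjoin_induction with
    | mem f hf0 =>
      obtain ⟨l, g, rfl⟩ := hf0
      have e : inc (H := G.pow L) K ⟨fun x : L → G.X => g.1 (x l), hf⟩ = pu K l (inc K g) := rfl
      rw [e]
      have h1 : ∀ a b : L, a ≠ b → Q.s a (Q.s b (pu K l (inc K g))) = 0 := by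
        intro a b hab
        by_cases hb : b = l
        · subst hb
          rw [LP.s_pu, LP.s_pu_ne hab]
        · rw [LP.s_pu_ne hb, map_zero]
      rw [h1 i j hij, h1 j i (Ne.symm hij)]
    | algebraMap c =>
      have e : inc (H := G.pow L) K ⟨algebraMap ℂ ((L → G.X) → ℂ) c, hf⟩ =
          algebraMap K ((G.pow L).KO K) (algebraMap ℂ K c) := rfl
      rw [e, LP.s_const, LP.s_const, map_zero, map_zero]
    | add f g hf1 hg1 ih1 ih2 =>
      have e : inc (H := G.pow L) K ⟨f + g, hf⟩ =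
          inc (H := G.pow L) K ⟨f, hf1⟩ + inc (H := G.pow L) K ⟨g, hg1⟩ :=
        KO_ext fun x => map_add (algebraMap ℂ K) (f x) (g x)
      rw [e, map_add, map_add, map_add, map_add, ih1 hf1, ih2 hg1]
    | mul f g hf1 hg1 ih1 ih2 =>
      have e : inc (H := G.pow L) K ⟨f * g, hf⟩ =
          inc (H := G.pow L) K ⟨f, hf1⟩ * inc (H := G.pow L) K ⟨g, hg1⟩ :=
        KO_ext fun x => map_mul (algebraMap ℂ K) (f x) (g x)
      have h1 := ih1 hf1
      have h2 := ih2 hg1
      rw [e, LP.s_mul, LP.s_mul, map_add, map_add, LP.s_mul, LP.s_mul, LP.s_mul, LP.s_mul, h1, h2]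
      ring
  have h : (Q.s i).comp (Q.s j) = (Q.s j).comp (Q.s i) :=
    KO_hom_ext (H := G.pow L) fun f => key f.1 f.2
  exact LinearMap.congr_fun h F

/-- (row Y8) -/
theorem y8_pow (i j : L) (n : ℕ) (F : (G.pow L).KO K) :
    ((Q.s j : Module.End K ((G.pow L).KO K)) ^ n) (Q.s i F) =
      Q.s i (((Q.s j : Module.End K ((G.pow L).KO K)) ^ n) F) := by
  induction n generalizing F with
  | zero => rfl
  | succ n ih =>
    rw [pow_succ, Module.End.mul_apply, Module.End.mul_apply]
    rw [y8_comm j i F]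
    exact ih (Q.s j F)

/-- (row Y8) -/
theorem y8_aeval (i j : L) (p : Polynomial K) (F : (G.pow L).KO K) :
    (Polynomial.aeval (Q.s j) p : Module.End K ((G.pow L).KO K)) (Q.s i F) =
      Q.s i ((Polynomial.aeval (Q.s j) p : Module.End K ((G.pow L).KO K)) F) := by
  induction p using Polynomial.induction_on' with
  | add p q hp hq =>
    rw [map_add, LinearMap.add_apply, LinearMap.add_apply, hp, hq, map_add]
  | monomial n a =>
    rw [Polynomial.aeval_monomial, Module.End.mul_apply, Module.End.mul_apply, y8_pow,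
      Module.algebraMap_end_apply, Module.algebraMap_end_apply, map_smul]

theorem y8_sgn (b : Bool) {M : Type} [AddCommGroup M] (m : M) : sgn b • (sgn b • m) = m := by
  cases b
  · show (-1 : ℤ) • ((-1 : ℤ) • m) = m
    rw [neg_one_zsmul, neg_one_zsmul, neg_neg]
  · show (1 : ℤ) • ((1 : ℤ) • m) = m
    rw [one_zsmul, one_zsmul]

theorem y8_sgn_w (b : Bool) (w : W) (m : X) : w • (sgn b • m) = sgn b • (w • m) := by
  cases b
  · show w • ((-1 : ℤ) • m) = (-1 : ℤ) • (w • m)
    rw [neg_one_zsmul, neg_one_zsmul, smul_neg]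
  · show w • ((1 : ℤ) • m) = (1 : ℤ) • (w • m)
    rw [one_zsmul, one_zsmul]

/-- (row Y8) the involution `m ↦ sgn b • m` -/
def y8_e (X : Type) [AddCommGroup X] (b : Bool) : X ≃ X where
  toFun m := sgn b • m
  invFun m := sgn b • m
  left_inv m := y8_sgn b m
  right_inv m := y8_sgn b m

theorem y8_sum_equiv {M X : Type} [AddCommMonoid M] (e : X ≃ X) (f : X →₀ M) :
    ((Finsupp.equivMapDomain e f).sum fun _ a => a) = f.sum fun _ a => a := by
  rw [Finsupp.equivMapDomain_eq_mapDomain,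
    Finsupp.sum_mapDomain_index (fun _ => rfl) (fun _ _ _ => rfl)]

theorem y8_sum_w (w : W) (f : X →₀ (G.pow L).KO K) :
    ((Finsupp.mapRange (wO (G.pow L) w) (map_zero _) f).sum fun _ a => a) =
      wO (G.pow L) w (f.sum fun _ a => a) := by
  rw [Finsupp.sum_mapRange_index (fun _ => rfl), map_finsuppSum]

/-- (row Y8) A regular `W`-invariant function on which the operators `ε_i s_i` agree is the sum of a family of genus `0`.
PROOF. `exists_dec hT i₀ F`: `f`, `p`.  `T := ` the element of `RR G K X L` with `T.coeff m = f (sgn (ε i₀) • m)` (`m ↦ sgn • m` is an involution of `X`; build it from `f` with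
`Finsupp.equivMapDomain` or `∑ single`).  `tot T = F` (`Equiv.sum_comp`).  `wt`: the operators `s i`, `s i₀` commute (derivations in different legs; for `i = i₀` nothing to show)
[`derK_emb`-slices, or: both sides `K`-linear, and `der (emb i D)`, `der (emb l D')` commute on `(G.pow L).O`: `Algebra.adjoin_induction`], so
`Q.s i (f m) = (aeval (Q.s i₀) (p m)) (Q.s i F)` and `Q.s i F = sgn (ε i) • sgn (ε i₀) • Q.s i₀ F`; so `Q.s i (f m) = (sgn (ε i) * sgn (ε i₀)) • Q.s i₀ (f m) = .. • val m • f m`.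
`inv`: both `m ↦ wO w (T.coeff m)` and `m ↦ T.coeff (w • m)` are decompositions of `wO w F = F` into eigenfunctions of `s i₀` (`wO w` commutes with `s i₀`, because `w • c j = c j`: `derK_mapK`, `hT.c_w`;
`hT.val_w`), so they agree (`LP.eig_indep`).  `reg0`: `tot T = F`.  `regS`: `g = 0`. -/
theorem exists_fam (hT : TQ Q) (i₀ : L) {ε : L → Bool} {F : (G.pow L).KO K} (h : Q.RI F)
    (hs : ∀ i, sgn (ε i) • Q.s i F = sgn (ε i₀) • Q.s i₀ F) :
    ∃ T : RR G K X L, Q.Fam 0 ε T ∧ tot T = F := by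
  obtain ⟨f, p, hsum, heig, hp⟩ := exists_dec hT i₀ F
  obtain ⟨T, hTd⟩ : ∃ T : RR G K X L,
    T = AddMonoidAlgebra.ofCoeff (Finsupp.equivMapDomain (y8_e X (ε i₀)) f) := ⟨_, rfl⟩
  have hTc : ∀ m, T.coeff m = f (sgn (ε i₀) • m) := by
    intro m
    rw [hTd]
    rfl
  have htot : tot T = F := by
    rw [hTd, ← hsum]
    exact y8_sum_equiv _ f
  -- eigenfunctions of `s i₀`
  have hw0 : ∀ m, Q.s i₀ (T.coeff m) = Q.val (sgn (ε i₀) • m) • T.coeff m := by
    intro m
    rw [hTc]
    exact heig _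
  have hwt : ∀ m l, Q.s l (T.coeff m) = Q.val (sgn (ε l) • m) • T.coeff m := by
    intro m l
    have h1 : Q.s l F = sgn (ε l) • (sgn (ε i₀) • Q.s i₀ F) := by
      rw [← hs l, y8_sgn]
    have h2 : Q.s l (T.coeff m) = sgn (ε l) • (sgn (ε i₀) • Q.s i₀ (T.coeff m)) := by
      rw [hTc, hp, ← y8_aeval, h1, map_zsmul, map_zsmul, y8_aeval]
    rw [h2, hw0, map_zsmul, map_zsmul, smul_assoc, y8_sgn, smul_assoc]
  refine ⟨T, ⟨hwt, ?_, ?_, ?_⟩, htot⟩
  · intro w m
    have h1 := LP.eig_indep hT (ε i₀) i₀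
      (Finsupp.mapRange (wO (G.pow L) w) (map_zero _)
        (Finsupp.equivMapDomain (MulAction.toPerm w) T.coeff) - T.coeff) (by
        intro m
        rw [Finsupp.sub_apply, Finsupp.mapRange_apply, Finsupp.equivMapDomain_apply]
        show Q.s i₀ (wO _ w (T.coeff (w⁻¹ • m)) - T.coeff m) =
          Q.val (sgn (ε i₀) • m) • (wO _ w (T.coeff (w⁻¹ • m)) - T.coeff m)
        rw [map_sub, ← LP.wO_s hT, hw0, hw0, LP.wO_smul, ← hT.val_w, y8_sgn_w, smul_inv_smul,
          smul_sub]) (by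
        rw [Finsupp.sum_sub_index (fun _ _ _ => rfl), y8_sum_w, y8_sum_equiv]
        have h2 : (T.coeff.sum fun _ a => a) = F := htot
        rw [h2, h.inv w, sub_self])
    have h2 := DFunLike.congr_fun h1 (w • m)
    rw [Finsupp.sub_apply, Finsupp.mapRange_apply, Finsupp.equivMapDomain_apply] at h2
    have h3 : wO _ w (T.coeff (w⁻¹ • w • m)) - T.coeff (w • m) = 0 := h2
    rw [inv_smul_smul] at h3
    exact sub_eq_zero.1 h3
  · intro _
    rw [htot]
    exact h.reg
  · intro m k h0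
    exact absurd h0 (lt_irrefl 0)

/-- Conversely. -/
theorem fam_RI (hT : TQ Q) {ε : L → Bool} {T : RR G K X L} (h : Q.Fam 0 ε T) : Q.RI (tot T) := by
  refine ⟨h.reg0 rfl, fun w => ?_⟩
  have h1 : Finsupp.mapRange (wO (G.pow L) w) (map_zero _) T.coeff =
      Finsupp.equivMapDomain (MulAction.toPerm w⁻¹) T.coeff := by
    apply Finsupp.ext
    intro m
    rw [Finsupp.mapRange_apply, Finsupp.equivMapDomain_apply, h.inv]
    show T.coeff (w • m) = T.coeff (w⁻¹⁻¹ • m)
    rw [inv_inv]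
  have h2 := y8_sum_w w T.coeff
  rw [h1, y8_sum_equiv] at h2
  exact h2.symm

theorem y8_fam_s {g : ℕ} {ε : L → Bool} {T : RR G K X L} (h : Q.Fam g ε T) (i : L) :
    sgn (ε i) • Q.s i (tot T) = T.coeff.sum fun m a => Q.val m • a := by
  have h1 : Q.s i (tot T) = T.coeff.sum fun _ a => Q.s i a := map_finsuppSum (Q.s i) _ _
  rw [h1, Finsupp.sum, Finset.smul_sum]
  refine Finset.sum_congr rfl fun m _ => ?_
  rw [h.wt, map_zsmul, smul_assoc, y8_sgn]

/-- PROOF. both sides are `∑ m, val m • T.coeff m` (`sgn * sgn = 1`). -/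
theorem fam_s {g : ℕ} {ε : L → Bool} {T : RR G K X L} (h : Q.Fam g ε T) (i j : L) :
    sgn (ε i) • Q.s i (tot T) = sgn (ε j) • Q.s j (tot T) := by
  rw [y8_fam_s h i, y8_fam_s h j]

/-- PROOF. `LP.eig_indep`. -/
theorem fam_tot_inj (hT : TQ Q) {g : ℕ} {ε : L → Bool} (i : L) {T : RR G K X L} (h : Q.Fam g ε T)
    (h0 : tot T = 0) : T = 0 := by
  have h1 := LP.eig_indep hT (ε i) i T.coeff (fun m => h.wt m i) h0
  exact AddMonoidAlgebra.coeff_eq_zero.1 h1

end

end Pool.Agent.MTF
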