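import Pool.Agent.MTF.PC1
import Pool.Agent.MTF.PB2
import Pool.Agent.MTF.Y8

/-! # MTF, part P : regularity of the ingredients of the bracket -/

set_option linter.unusedSectionVars false

namespace Pool.Agent.MTF

open AffGrp

section
variable {G : AffGrp} {K W X : Type} [Field K] [Algebra ℂ K] [Group W] [Fintype W]
  [MulSemiringAction W K] [SMulCommClass W ℂ K] [AddCommGroup X] [DistribMulAction W X]
variable {Q : TQD G K W X}
variable {P : PD Q}
variable {L : Type} [Fintype L] [DecidableEq L]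

/-- [MTF-PC2] the total of an eigenfamily and the derivations. PROOF. `tot` is a ring homomorphism (`totH`), `tot (DL l a F) = derK K (emb l (Q.D a)) (tot F)`. -/
theorem tot_DL (l : L) (a : Fin Q.r) (F : RR G K X L) :
    tot (PD.DL (Q := Q) l a F) = derK K (emb l (Q.D a)) (tot F) := by
  show ((F.coeff.mapRange (derD K (emb l (Q.D a))) (map_zero _)).sum fun _ a => a) =
    derK K (emb l (Q.D a)) (F.coeff.sum fun _ a => a)
  rw [Finsupp.sum_mapRange_index (fun _ => rfl)]
  exact (map_finsuppSum (derK K (emb l (Q.D a))) _ _).symm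

theorem tot_DX (j : Fin P.n) (F : RR G K X L) (k : L → G.X) :
    (tot (P.DX L j F)).1 k = P.dd j ((tot F).1 k) := by
  have h : tot (P.DX L j F) = dK (H := G.pow L) (P.dd j) (tot F) := by
    show ((F.coeff.mapRange (dK (H := G.pow L) (P.dd j)) (map_zero _)).sum fun _ a => a) =
      dK (H := G.pow L) (P.dd j) (F.coeff.sum fun _ a => a)
    rw [Finsupp.sum_mapRange_index (fun _ => rfl)]
    exact (map_finsuppSum (dK (H := G.pow L) (P.dd j)) _ _).symm
  rw [h]
  rfl

/-- [MTF-PC2] the value of the total at a point, as a linear map -/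
noncomputable def pc2_ev (G : AffGrp) (K X L : Type) [Field K] [Algebra ℂ K] [AddCommGroup X]
    [Finite L] [DecidableEq L] (k : L → G.X) : RR G K X L →ₗ[K] K where
  toFun F := (tot F).1 k
  map_add' F F' := by
    rw [LP.tot_add]
    rfl
  map_smul' a F := by
    rw [LP.tot_smul]
    rfl

theorem pc2_ev_apply (k : L → G.X) (F : RR G K X L) : pc2_ev G K X L k F = (tot F).1 k := rfl

/-- [MTF-PC2] the bracket as a linear map -/
noncomputable def pc2_br (Q : TQD G K W X) (x : Fin Q.r → K) : (Fin Q.r → K) →ₗ[K] (Fin Q.r → K) where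
  toFun y := Q.brK x y
  map_add' y z := brK_add x y z
  map_smul' a y := brK_smul a x y

theorem pc2_br_apply (x y : Fin Q.r → K) : pc2_br Q x y = Q.brK x y := rfl

/-- [MTF-PC2] `flat` as a linear map -/
noncomputable def pc2_flat (Q : TQD G K W X) : (Fin Q.r → K) →ₗ[K] (Fin Q.r → K) where
  toFun y := Q.flat y
  map_add' y z := flat_add y z
  map_smul' a y := flat_smul a y

theorem pc2_flat_apply (y : Fin Q.r → K) : pc2_flat Q y = Q.flat y := rfl

theorem pc2_sgn (b : Bool) : ((sgn b : ℤ) : K) * ((sgn b : ℤ) : K) = 1 := by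
  cases b
  · show (((-1 : ℤ)) : K) * (((-1 : ℤ)) : K) = 1
    push_cast
    ring
  · show (((1 : ℤ)) : K) * (((1 : ℤ)) : K) = 1
    push_cast
    ring

theorem pc2_f (hP : PQ Q P) (j : Fin P.n) :
    Q.brK (Q.co P.f) (fun i => P.dd j (Q.c i)) = 0 := by
  funext c
  have h1 := congrArg (P.dd j) (congrFun hP.sf c)
  have h2 : P.dd j (Q.brK (Q.co P.f) (fun i => Q.c i - Q.co P.e i) c) =
      Q.brK (Q.co P.f) (fun i => P.dd j (Q.c i)) c := by
    unfold TQD.brK
    rw [map_sum]
    refine Finset.sum_congr rfl fun a _ => ?_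
    rw [map_sum]
    refine Finset.sum_congr rfl fun b _ => ?_
    have h3 : P.dd j (Q.co P.f a) = 0 := (P.dd j).map_algebraMap _
    have h4 : P.dd j (Q.co P.e b) = 0 := (P.dd j).map_algebraMap _
    rw [(P.dd j).map_smul, (P.dd j).leibniz, h3, map_sub, h4, sub_zero, smul_zero, add_zero,
      smul_eq_mul]
  rw [h2] at h1
  rw [h1]
  exact map_zero _

/-- [MTF-PC2] The vector `∑_j n_j ∂_j s`, `n_j = (tot (N_j F))(k)`, is regular, and `a_l = [s, v]` with `v` regular.
PROOF. `A_a := (tot (AL l a F))(k)`, `α_a := (tot (DL l a F))(k)`, in `A` (`tot_DL`, `LP.derK_mem`, `h`).  `z' := ` the vector with `flat z' = α` (`flat_surjective`, the proof shows that it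
is a complex matrix times `α`, so regular; or use the inverse matrix).  `slice_solve`: `z' = u + [s, v]`.  `A = flat (z' - ε_l ∑_j n_j ∂_j s)`, by `AL_ker` and `hP.rho_im` (applied to the covector `A`):
`A = flat (brK c w)`, so `z' - ε_l ∑ n_j ∂_j s = [s, w]` (`flat_injective`), `u - ε_l ∑_j n_j ∂_j s = [s, w - v]`, and it commutes with `f`: `brK (co f) u = 0` and `brK (co f) (∂_j s) = 0`
(apply `dd j` to `hP.sf`: `co` has complex entries, killed by `dd j`).  `hP.dir`: `u = ε_l ∑_j n_j ∂_j s` and so `[s, w - v] = 0`: `A = flat (brK c v)`. -/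
theorem key_reg (hT : TQ Q) (hP : PQ Q P) {ε : L → Bool} {F : RR G K X L} (hF : IsEF Q ε F)
    (h : Q.Reg (tot F)) (l : L) (k : L → G.X) :
    (∀ i, ∑ j, (tot (P.DN L j F)).1 k * P.dd j (Q.c i) ∈ Q.A) ∧
    ∃ v : Fin Q.r → K, (∀ a, v a ∈ Q.A) ∧ ∀ a, (tot (P.AL ε l a F)).1 k = Q.flat (Q.brK Q.c v) a := by
  obtain ⟨e, he⟩ : ∃ e : K, e = ((sgn (ε l) : ℤ) : K) := ⟨_, rfl⟩
  have hee : e * e = 1 := by
    rw [he]
    exact pc2_sgn _
  obtain ⟨n, hn⟩ : ∃ n : Fin P.n → K, n = fun j => (tot (P.DN L j F)).1 k := ⟨_, rfl⟩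
  obtain ⟨D, hD⟩ : ∃ D : Fin Q.r → K, D = ∑ j, n j • (fun i => P.dd j (Q.c i)) := ⟨_, rfl⟩
  obtain ⟨α, hα⟩ : ∃ α : Fin Q.r → K, α = fun a => (tot (PD.DL (Q := Q) l a F)).1 k := ⟨_, rfl⟩
  obtain ⟨A, hA⟩ : ∃ A : Fin Q.r → K, A = fun a => (tot (P.AL ε l a F)).1 k := ⟨_, rfl⟩
  have hαA : ∀ a, α a ∈ Q.A := by
    intro a
    rw [hα]
    simp only
    rw [tot_DL]
    exact LP.derK_mem Q.A _ h k
  have hAe : A = α + (-e) • Q.flat D := by
    funext a
    have h1 : A a = pc2_ev G K X L k (P.AL ε l a F) := by rw [hA]; rfl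
    have h2 : α a = pc2_ev G K X L k (PD.DL (Q := Q) l a F) := by rw [hα]; rfl
    have h3 : Q.flat D a = ∑ j, P.sig j a * n j := by
      rw [← pc2_flat_apply, hD, map_sum, Finset.sum_apply]
      refine Finset.sum_congr rfl fun j _ => ?_
      rw [map_smul, Pi.smul_apply, smul_eq_mul, mul_comm]
      rfl
    rw [Pi.add_apply, Pi.smul_apply, smul_eq_mul, h1, h2, h3]
    unfold PD.AL
    rw [map_sub, map_zsmul, map_sum, zsmul_eq_mul, ← he]
    have h4 : ∀ j, pc2_ev G K X L k (P.sig j a • P.DN L j F) = P.sig j a * n j := by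
      intro j
      rw [map_smul, smul_eq_mul, pc2_ev_apply, hn]
    rw [Finset.sum_congr rfl fun j _ => h4 j]
    ring
  obtain ⟨z0, hz0⟩ := flat_surjective (Q := Q) (R := Q.A) hT.kill (fun a => ⟨α a, hαA a⟩)
  obtain ⟨z', hz'⟩ : ∃ z' : Fin Q.r → K, z' = fun b => (z0 b : K) := ⟨_, rfl⟩
  have hz'A : ∀ b, z' b ∈ Q.A := by
    intro b
    rw [hz']
    exact (z0 b).2
  have hfz : Q.flat z' = α := by
    funext a
    have h1 := congrArg Subtype.val (congrFun hz0 a)
    have h2 : ((Q.flat z0 a : Q.A) : K) = Q.flat z' a := by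
      unfold TQD.flat
      rw [AddSubmonoidClass.coe_finsetSum, hz']
      rfl
    rw [← h2]
    exact h1
  obtain ⟨u, v, hu, hv, hfu, huv⟩ := slice_solve hT hP z' hz'A
  have hker : ∀ z, Q.brK Q.c z = 0 → ∑ a, A a * z a = 0 := by
    intro z hz
    have h1 := congrArg (pc2_ev G K X L k) (AL_ker hP hF l hz)
    rw [map_sum, map_zero] at h1
    rw [← h1]
    refine Finset.sum_congr rfl fun a _ => ?_
    rw [map_smul, smul_eq_mul, pc2_ev_apply, hA, mul_comm]
  have hw := hP.rho_im A hker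
  obtain ⟨w, hwd⟩ : ∃ w : Fin Q.r → K, w = fun b => ∑ a, P.rho a b * A a := ⟨_, rfl⟩
  rw [← hwd] at hw
  have h5 : z' + (-e) • D + (-1 : K) • Q.brK Q.c w = 0 := by
    refine flat_injective (Q := Q) hT.kill ?_
    rw [← pc2_flat_apply, map_add, map_add, map_smul, map_smul, pc2_flat_apply, pc2_flat_apply,
      pc2_flat_apply, hfz, hw, ← hAe, neg_one_smul, add_neg_cancel]
  have h6 : Q.brK Q.c w = z' + (-e) • D := by
    rw [neg_one_smul] at h5
    exact (add_neg_eq_zero.1 h5).symm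
  have h7 : u + (-e) • D = Q.brK Q.c (w + (-1 : K) • v) := by
    rw [brK_add, brK_smul, h6, huv, neg_one_smul]
    abel
  have h8 : Q.brK (Q.co P.f) (u + (-e) • D) = 0 := by
    rw [← pc2_br_apply, map_add, map_smul, pc2_br_apply, hfu, zero_add, hD, map_sum]
    have h9 : ∀ j, pc2_br Q (Q.co P.f) (n j • fun i => P.dd j (Q.c i)) = 0 := by
      intro j
      rw [map_smul, pc2_br_apply, pc2_f hP, smul_zero]
    rw [Finset.sum_congr rfl fun j _ => h9 j, Finset.sum_const_zero, smul_zero]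
  have h10 := hP.dir _ _ h8 h7
  have h11 : D = e • u := by
    have h12 : e • (u + (-e) • D) = 0 := by rw [h10, smul_zero]
    rw [smul_add, smul_smul, mul_neg, hee, neg_one_smul] at h12
    exact (add_neg_eq_zero.1 h12).symm
  refine ⟨fun i => ?_, v, hv, fun a => ?_⟩
  · have h12 : ∑ j, (tot (P.DN L j F)).1 k * P.dd j (Q.c i) = D i := by
      rw [hD, Finset.sum_apply, hn]
      rfl
    rw [h12, h11, Pi.smul_apply, smul_eq_mul, he]
    exact Subalgebra.mul_mem _ (intCast_mem Q.A _) (hu i)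
  · have h12 : Q.brK Q.c w = Q.brK Q.c v := by
      rw [h6, huv]
      have h13 : u + Q.brK Q.c v + (-e) • D = (u + (-e) • D) + Q.brK Q.c v := by abel
      rw [h13, h10, zero_add]
    rw [← h12, hw, hA]

end

end Pool.Agent.MTF
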