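import Pool.Agent.MTF.PC2
import Pool.Agent.MTF.PB4
import Pool.Agent.MTF.PB6
import Pool.Agent.MTF.C0

/-! # MTF, part P : the bracket of regular families of genus 0 -/

set_option linter.unusedSectionVars false

namespace Pool.Agent.MTF

open AffGrp

section
variable {G : AffGrp} {K W X : Type} [Field K] [Algebra ℂ K] [Group W] [Fintype W]
  [MulSemiringAction W K] [SMulCommClass W ℂ K] [AddCommGroup X] [DistribMulAction W X]
variable {Q : TQD G K W X}
variable {P : PD Q}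
variable {L : Type} [Fintype L] [DecidableEq L]

/-- [MTF-PC3] PROOF. `c = aeval Q.c p` (`hP.AW`); `x ↦ ∑_j n_j dd_j x` is a derivation `K → K`, so it maps `aeval Q.c p` to
`∑_i (aeval Q.c (pderiv i p)) * ∑_j n_j dd_j (Q.c i)` (`MvPolynomial` induction), and `key_reg`. -/
theorem dN_AW (hT : TQ Q) (hP : PQ Q P) {ε : L → Bool} {F : RR G K X L} (hF : IsEF Q ε F)
    (h : Q.Reg (tot F)) (l : L) (k : L → G.X) {c : K} (hc : c ∈ Q.A) (hw : ∀ w : W, w • c = c) :
    ∑ j, (tot (P.DN L j F)).1 k * P.dd j c ∈ Q.A := by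
  obtain ⟨p, rfl⟩ := hP.AW c hc hw
  have h1 := (key_reg hT hP hF h l k).1
  clear hc hw
  have key : ∀ p : MvPolynomial (Fin Q.r) ℂ, MvPolynomial.aeval Q.c p ∈ Q.A ∧
      ∑ j, (tot (P.DN L j F)).1 k * P.dd j (MvPolynomial.aeval Q.c p) ∈ Q.A := by
    intro p
    induction p using MvPolynomial.induction_on with
    | C a =>
      rw [MvPolynomial.aeval_C]
      refine ⟨Q.A.algebraMap_mem a, ?_⟩
      have h2 : ∀ j, (tot (P.DN L j F)).1 k * P.dd j (algebraMap ℂ K a) = 0 := fun j => by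
        rw [(P.dd j).map_algebraMap, mul_zero]
      rw [Finset.sum_eq_zero fun j _ => h2 j]
      exact Q.A.zero_mem
    | add p q hp hq =>
      rw [map_add]
      refine ⟨Q.A.add_mem hp.1 hq.1, ?_⟩
      have h2 : ∀ j, (tot (P.DN L j F)).1 k * P.dd j (MvPolynomial.aeval Q.c p +
          MvPolynomial.aeval Q.c q) = (tot (P.DN L j F)).1 k * P.dd j (MvPolynomial.aeval Q.c p) +
          (tot (P.DN L j F)).1 k * P.dd j (MvPolynomial.aeval Q.c q) := fun j => by
        rw [map_add, mul_add]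
      rw [Finset.sum_congr rfl fun j _ => h2 j, Finset.sum_add_distrib]
      exact Q.A.add_mem hp.2 hq.2
    | mul_X p i hp =>
      rw [map_mul, MvPolynomial.aeval_X]
      refine ⟨Q.A.mul_mem hp.1 (hT.c_mem i), ?_⟩
      have h2 : ∀ j, (tot (P.DN L j F)).1 k * P.dd j (MvPolynomial.aeval Q.c p * Q.c i) =
          MvPolynomial.aeval Q.c p * ((tot (P.DN L j F)).1 k * P.dd j (Q.c i)) +
          Q.c i * ((tot (P.DN L j F)).1 k * P.dd j (MvPolynomial.aeval Q.c p)) := fun j => by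
        rw [Derivation.leibniz, smul_eq_mul, smul_eq_mul]
        ring
      rw [Finset.sum_congr rfl fun j _ => h2 j, Finset.sum_add_distrib, ← Finset.mul_sum,
        ← Finset.mul_sum]
      exact Q.A.add_mem (Q.A.mul_mem hp.1 (h1 i)) (Q.A.mul_mem (hT.c_mem i) hp.2)
  exact (key p).2

theorem pc3_mem (hT : TQ Q) {v : Fin Q.r → K} (hv : ∀ a, v a ∈ Q.A) (a : Fin Q.r) :
    Q.flat (Q.brK Q.c v) a ∈ Q.A := by
  unfold TQD.flat TQD.brK
  exact Q.A.sum_mem fun b _ => Q.A.smul_mem (Q.A.sum_mem fun i _ => Q.A.sum_mem fun j _ =>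
    Q.A.smul_mem (Q.A.mul_mem (hT.c_mem i) (hv j)) _) _

/-- [MTF-PC3] PROOF. `key_reg` for `F`: `A = flat [s, v]`; for `F'`: `A' = flat [s, v']`.  `u b := ∑ a, rho a b * A a`: `brK c u = brK c v` (`hP.rho_im`, `flat_injective`; the covector
`flat [s,v]` vanishes on the kernel of `ad s`), so `v - u` is in the kernel of `ad s` and `∑_b A'_b (v - u)_b = κ([s,v'], v - u) = 0`: the sum is `∑_b A'_b v_b`. -/
theorem rho_reg (hT : TQ Q) (hP : PQ Q P) {ε : L → Bool} {F F' : RR G K X L} (hF : IsEF Q ε F)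
    (hF' : IsEF Q ε F') (h : Q.Reg (tot F)) (h' : Q.Reg (tot F')) (l : L) (k : L → G.X) :
    ∑ a, ∑ b, P.rho a b * ((tot (P.AL ε l a F)).1 k * (tot (P.AL ε l b F')).1 k) ∈ Q.A := by
  obtain ⟨v, hv, hA⟩ := (key_reg hT hP hF h l k).2
  obtain ⟨v', hv', hA'⟩ := (key_reg hT hP hF' h' l k).2
  simp only [hA, hA']
  have hk : ∀ x z : Fin Q.r → K, Q.brK Q.c z = 0 →
      ∑ a, Q.flat (Q.brK Q.c x) a * z a = 0 := by
    intro x z hz
    rw [← kapK_flat, kapK_inv, hz]
    unfold TQD.kapK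
    simp
  have h1 := hP.rho_im (Q.flat (Q.brK Q.c v)) (hk v)
  obtain ⟨u, hu⟩ : ∃ u : Fin Q.r → K, u = fun b => ∑ a, P.rho a b * Q.flat (Q.brK Q.c v) a :=
    ⟨_, rfl⟩
  rw [← hu] at h1
  obtain ⟨w, hw⟩ : ∃ w : Fin Q.r → K, w = u - v := ⟨_, rfl⟩
  have huw : u = v + w := by rw [hw, add_sub_cancel]
  have h2 : Q.brK Q.c w = 0 := by
    apply flat_injective hT.kill
    rw [huw, brK_add, flat_add] at h1
    exact left_eq_add.1 h1.symm
  have h3 : ∑ a, ∑ b, P.rho a b * (Q.flat (Q.brK Q.c v) a * Q.flat (Q.brK Q.c v') b) =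
      ∑ b, Q.flat (Q.brK Q.c v') b * v b := by
    have h4 : ∑ b, Q.flat (Q.brK Q.c v') b * u b = ∑ b, Q.flat (Q.brK Q.c v') b * v b := by
      rw [huw]
      simp only [Pi.add_apply, mul_add, Finset.sum_add_distrib]
      rw [hk v' w h2, add_zero]
    rw [← h4, Finset.sum_comm]
    refine Finset.sum_congr rfl fun b _ => ?_
    rw [hu, Finset.mul_sum]
    exact Finset.sum_congr rfl fun a _ => by ring
  rw [h3]
  exact Q.A.sum_mem fun b _ => Q.A.mul_mem (pc3_mem hT hv' b) (hv b)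

/-- the value of the total at a point, as a homomorphism -/
noncomputable def pc3_ev (K X : Type) [Field K] [Algebra ℂ K] [AddCommGroup X] (k : L → G.X) :
    RR G K X L →ₐ[K] K :=
  ((Pi.evalAlgHom K (fun _ : (G.pow L).X => K) k).comp ((G.pow L).KO K).val).comp (totH G K X L)

theorem pc3_ev_apply (k : L → G.X) (F : RR G K X L) : pc3_ev K X k F = (tot F).1 k := by
  rw [tot_eq]
  rfl

/-- [MTF-PC3] (P4). PROOF. `tot` is a ring homomorphism; `dN_AW` for `F` and `c = (tot F')(k)` (invariant: `wR`-invariance of `F'` gives `w • (tot F')(k) = (tot F')(k)`), the same with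
`F` and `F'` exchanged, `rho_reg`. -/
theorem br_reg0 (hT : TQ Q) (hP : PQ Q P) [Nonempty L] {ε : L → Bool} {F F' : RR G K X L}
    (hF : Q.Fam 0 ε F) (hF' : Q.Fam 0 ε F') : Q.Reg (tot (P.br ε F F')) := by
  intro k
  obtain ⟨l₀⟩ := (inferInstance : Nonempty L)
  have hinv : ∀ {F : RR G K X L}, Q.Fam 0 ε F → ∀ w : W, w • (tot F).1 k = (tot F).1 k := by
    intro F hF w
    have h1 := (fam_RI hT hF).inv w
    have h2 : (wO (G.pow L) w (tot F)).1 k = (tot F).1 k := by rw [h1]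
    rw [wO_apply] at h2
    exact h2
  have h1 := dN_AW hT hP hF.wt (hF.reg0 rfl) l₀ k (hF'.reg0 rfl k) (hinv hF')
  have h2 := dN_AW hT hP hF'.wt (hF'.reg0 rfl) l₀ k (hF.reg0 rfl k) (hinv hF)
  have h3 : (tot (P.br ε F F')).1 k =
      (∑ j, (tot (P.DN L j F)).1 k * P.dd j ((tot F').1 k) -
        ∑ j, (tot (P.DN L j F')).1 k * P.dd j ((tot F).1 k)) -
      ∑ l, sgn (ε l) • ∑ a, ∑ b, P.rho a b *
        ((tot (P.AL ε l a F)).1 k * (tot (P.AL ε l b F')).1 k) := by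
    rw [← pc3_ev_apply]
    unfold PD.br
    rw [map_sub, map_sum, map_sum, ← Finset.sum_sub_distrib]
    congr 1
    · refine Finset.sum_congr rfl fun j _ => ?_
      rw [map_sub, map_mul, map_mul, pc3_ev_apply, pc3_ev_apply, pc3_ev_apply, pc3_ev_apply,
        tot_DX, tot_DX]
    · refine Finset.sum_congr rfl fun l _ => ?_
      rw [map_zsmul, map_sum]
      congr 1
      refine Finset.sum_congr rfl fun a _ => ?_
      rw [map_sum]
      refine Finset.sum_congr rfl fun b _ => ?_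
      rw [map_smul, map_mul, smul_eq_mul, pc3_ev_apply, pc3_ev_apply]
  rw [h3]
  refine Q.A.sub_mem (Q.A.sub_mem h1 h2) (Q.A.sum_mem fun l _ => Q.A.zsmul_mem ?_ _)
  exact rho_reg hT hP hF.wt hF'.wt (hF.reg0 rfl) (hF'.reg0 rfl) l k

/-- [MTF-PC3] families of genus 0 (with at least one leg) are closed under the bracket. PROOF. `IsEF_br`, `br_wR` (`wR_eq_iff`), `br_reg0`; `regS` is empty. -/
theorem Fam0_br (hT : TQ Q) (hP : PQ Q P) [Nonempty L] {ε : L → Bool} {F F' : RR G K X L}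
    (hF : Q.Fam 0 ε F) (hF' : Q.Fam 0 ε F') : Q.Fam 0 ε (P.br ε F F') := by
  refine ⟨IsEF_br hT hP hF.wt hF'.wt, ?_, fun _ => br_reg0 hT hP hF hF', fun m k h =>
    absurd h (lt_irrefl 0)⟩
  refine (wR_eq_iff _).1 fun w => ?_
  rw [← br_wR hT hP, (wR_eq_iff F).2 hF.inv, (wR_eq_iff F').2 hF'.inv]

end

end Pool.Agent.MTF
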