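import Pool.Agent.MTF.Y0

set_option linter.unusedSectionVars false

namespace Pool.Agent.MTF

open AffGrp

section
variable {G : AffGrp} {K W X : Type} [Field K] [Algebra ℂ K] [Group W] [Fintype W]
  [MulSemiringAction W K] [SMulCommClass W ℂ K] [AddCommGroup X] [DistribMulAction W X]
variable {L : Type} [Finite L] [DecidableEq L]
variable {Q : TQD G K W X}

theorem y2_one {I : Type} (x : I → G.X) (δ : Module.Dual ℂ (G.powO I))
    (h : ∀ f g : G.powO I, δ (f * g) = f.1 x * δ g + g.1 x * δ f) : δ 1 = 0 := by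
  have h1 := h 1 1
  rw [mul_one] at h1
  have h2 : (1 : G.powO I).1 x = 1 := rfl
  rw [h2] at h1
  linear_combination -h1

/-- two point derivations at `x` which agree on the generators are equal -/
theorem y2_pder {I : Type} (x : I → G.X) (δ δ' : Module.Dual ℂ (G.powO I))
    (h : ∀ f g : G.powO I, δ (f * g) = f.1 x * δ g + g.1 x * δ f)
    (h' : ∀ f g : G.powO I, δ' (f * g) = f.1 x * δ' g + g.1 x * δ' f)
    (hg : ∀ (l : I) (g : G.O), δ (G.pull l g) = δ' (G.pull l g)) (F : G.powO I) : δ F = δ' F := by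
  obtain ⟨F, hF⟩ := F
  unfold powO at hF
  induction hF using Algebra.adjoin_induction with
  | mem F hF =>
    obtain ⟨i, f, rfl⟩ := hF
    exact hg i f
  | algebraMap c =>
    have h2 : δ (c • (1 : G.powO I)) = δ' (c • (1 : G.powO I)) := by
      rw [map_smul, map_smul, y2_one x δ h, y2_one x δ' h']
    have h1 : (⟨algebraMap ℂ _ c, Subalgebra.algebraMap_mem _ c⟩ : G.powO I) =
        c • (1 : G.powO I) := by
      apply Subtype.ext
      funext y
      show c = c * 1
      rw [mul_one]
    rw [← h1] at h2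
    exact h2
  | add F F' h1 h2 ih ih' =>
    have h4 := map_add δ (⟨F, h1⟩ : G.powO I) ⟨F', h2⟩
    have h5 := map_add δ' (⟨F, h1⟩ : G.powO I) ⟨F', h2⟩
    rw [ih, ih', ← h5] at h4
    exact h4
  | mul F F' h1 h2 ih ih' =>
    have h4 := h (⟨F, h1⟩ : G.powO I) ⟨F', h2⟩
    have h5 := h' (⟨F, h1⟩ : G.powO I) ⟨F', h2⟩
    rw [ih, ih', ← h5] at h4
    exact h4

theorem y2_diag_mem {I : Type} (b : I → G.X) {f : (I → G.X) → ℂ} (hf : f ∈ G.powO I) :
    (fun h : G.X => f (fun l => b l * h)) ∈ G.O :=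
  pow_mem G (H := G) (fun h l => b l * h) (fun l _ hg => G.left_mem (b l) hg) hf

theorem y2_upd_mem (x : L → G.X) (l : L) {f : (L → G.X) → ℂ} (hf : f ∈ G.powO L) :
    (fun y : G.X => f (fun i => x i * Function.update (1 : L → G.X) l y i)) ∈ G.O :=
  pow_mem G (H := G) (fun y i => x i * Function.update (1 : L → G.X) l y i)
    (fun i g hg => by
      by_cases hi : i = l
      · subst hi
        simp only [Function.update_self]
        exact G.left_mem _ hg
      · simp only [Function.update_of_ne hi]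
        exact G.const_mem _) hf

/-- `f ↦ (y ↦ f (b (h y)))` -/
def y2_A {I : Type} (b : I → G.X) (h : G.X) : G.powO I →ₗ[ℂ] G.O where
  toFun f := ⟨fun y => f.1 (fun l => b l * (h * y)), G.left_mem h (y2_diag_mem b f.2)⟩
  map_add' _ _ := rfl
  map_smul' _ _ := rfl

/-- `f ↦ (y ↦ f (x y_l))` -/
def y2_B (x : L → G.X) (l : L) : G.powO L →ₗ[ℂ] G.O where
  toFun f := ⟨fun y => f.1 (fun i => x i * Function.update (1 : L → G.X) l y i), y2_upd_mem x l f.2⟩
  map_add' _ _ := rfl
  map_smul' _ _ := rfl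

/-- the chain rule on regular functions -/
theorem y2_chain0 [Fintype L] (b : L → G.X) (f : G.powO L) (D : G.Lie) (h : G.X) :
    D.1 (y2_A b h f) = ∑ l, D.1 (y2_B (fun l => b l * h) l f) := by
  have hD1 : D.1 1 = 0 := by
    have h2 := D.2 1 1
    rw [mul_one] at h2
    have h3 : (1 : G.O).1 1 = 1 := rfl
    rw [h3] at h2
    linear_combination -h2
  have hA : ∀ f : G.powO L, (y2_A b h f).1 1 = f.1 (fun l => b l * h) := by
    intro f
    show f.1 (fun l => b l * (h * 1)) = _
    rw [mul_one]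
  have hB : ∀ (l : L) (f : G.powO L), (y2_B (fun l => b l * h) l f).1 1 =
      f.1 (fun l => b l * h) := by
    intro l f
    show f.1 (fun i => b i * h * Function.update (1 : L → G.X) l 1 i) = _
    have h4 : Function.update (1 : L → G.X) l 1 = 1 := Function.update_eq_self l (1 : L → G.X)
    simp only [h4, Pi.one_apply, mul_one]
  have key := y2_pder (fun l => b l * h) (D.1 ∘ₗ y2_A b h)
    (∑ l, D.1 ∘ₗ y2_B (fun l => b l * h) l) ?_ ?_ ?_ f
  · rw [LinearMap.comp_apply, LinearMap.sum_apply] at key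
    exact key
  · intro f g
    have h2 : y2_A b h (f * g) = y2_A b h f * y2_A b h g := rfl
    rw [LinearMap.comp_apply, h2, D.2, hA, hA]
    rfl
  · intro f g
    rw [LinearMap.sum_apply, LinearMap.sum_apply, LinearMap.sum_apply, Finset.mul_sum,
      Finset.mul_sum, ← Finset.sum_add_distrib]
    refine Finset.sum_congr rfl fun l _ => ?_
    have h2 : y2_B (fun l => b l * h) l (f * g) =
        y2_B (fun l => b l * h) l f * y2_B (fun l => b l * h) l g := rfl
    rw [LinearMap.comp_apply, h2, D.2, hB, hB]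
    rfl
  · intro l₀ g
    rw [LinearMap.sum_apply, Finset.sum_eq_single l₀]
    · rw [LinearMap.comp_apply, LinearMap.comp_apply]
      congr 1
      apply Subtype.ext
      funext y
      show g.1 (b l₀ * (h * y)) = g.1 (b l₀ * h * Function.update (1 : L → G.X) l₀ y l₀)
      rw [Function.update_self, mul_assoc]
    · intro l _ hl
      rw [LinearMap.comp_apply]
      have h5 : y2_B (fun l => b l * h) l (G.pull l₀ g) = g.1 (b l₀ * h) • (1 : G.O) := by
        apply Subtype.ext
        funext y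
        show g.1 (b l₀ * h * Function.update (1 : L → G.X) l y l₀) = g.1 (b l₀ * h) * 1
        rw [Function.update_of_ne (Ne.symm hl), Pi.one_apply, mul_one, mul_one]
      rw [h5, map_smul, hD1, smul_zero]
    · intro h6
      exact absurd (Finset.mem_univ l₀) h6

/-- the chain rule on regular functions -/
theorem y2_chain [Fintype L] (b : L → G.X) (f : (G.pow L).O) (D : G.Lie) (h : G.X) :
    (G.der D ⟨_, y2_diag_mem b f.2⟩).1 h =
      ∑ l, ((G.pow L).der (emb l D) f).1 (fun l => b l * h) :=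
  y2_chain0 b f D h

/-- (row Y2) Chain rule for the diagonal translation `h ↦ (b l * h)_l`.
PROOF. The map `h ↦ (b l * h)_l` is a morphism (`pow_mem`, `G.left_mem`), so both sides make sense; both are `K`-linear in `F` (`KO_eq_sum`), so it is enough to treat
`F = inc K f`, `f : (G.pow L).O`, i.e. `G.der D (f ∘ diag_b) (h) = ∑ l, (der (emb l D) f)(b h)` in `ℂ`.  `Algebra.adjoin_induction` on `f ∈ G.powO L`: generators `x ↦ g (x l₀)`:
the left side is `D (y ↦ g (b l₀ * h * y))`; on the right the term `l = l₀` is the same (`slO1`: `(emb l D).1 f = D (slO1 1 l f)`), and for `l ≠ l₀` the slice is constant and `D` kills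
constants (`D (1 * 1)`); constants; sums; products: Leibniz (`der_leib`). -/
theorem derK_diag [Fintype L] (b : L → G.X) (F : (G.pow L).KO K) (D : G.Lie) (h : G.X) :
    (derK K D (comp K (H := G.pow L) (H' := G) (fun h l => b l * h)
      (fun _ hf => pow_mem G (H := G) (fun h l => b l * h) (fun l _ hg => G.left_mem (b l) hg) hf) F)).1 h =
      ∑ l, (derK K (emb l D) F).1 (fun l => b l * h) := by
  obtain ⟨n, c, f, rfl⟩ := KO_eq_sum F
  have h1 : ∀ l : L, (derK K (emb l D) (∑ i, c i • inc K (f i))).1 (fun l => b l * h) =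
      ∑ i, c i * algebraMap ℂ K (((G.pow L).der (emb l D) (f i)).1 (fun l => b l * h)) := by
    intro l
    rw [map_sum, KO_sum]
    refine Finset.sum_congr rfl fun i _ => ?_
    rw [map_smul, KO_smul, derK_inc, inc_apply]
  rw [Finset.sum_congr rfl (fun l _ => h1 l), Finset.sum_comm, map_sum, map_sum, KO_sum]
  refine Finset.sum_congr rfl fun i _ => ?_
  rw [map_smul, map_smul, KO_smul, ← Finset.mul_sum, ← map_sum, ← y2_chain b (f i) D h,
    ← inc_apply, ← derK_inc]
  rfl

/-- `s` on the diagonal translates: the sum of the `s l`. -/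
theorem s1_diag [Fintype L] (b : L → G.X) (F : (G.pow L).KO K) (h : G.X) :
    (Q.s1 (comp K (H := G.pow L) (H' := G) (fun h l => b l * h)
      (fun _ hf => pow_mem G (H := G) (fun h l => b l * h) (fun l _ hg => G.left_mem (b l) hg) hf) F)).1 h =
      ∑ l, (Q.s l F).1 (fun l => b l * h) := by
  have h1 : ∀ F' : G.KO K, (Q.s1 F').1 h = ∑ j, Q.c j * (derK K (Q.D j) F').1 h := by
    intro F'
    unfold TQD.s1
    rw [LinearMap.sum_apply, KO_sum]
    rfl
  have h2 : ∀ l : L, (Q.s l F).1 (fun l => b l * h) =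
      ∑ j, Q.c j * (derK K (emb l (Q.D j)) F).1 (fun l => b l * h) := by
    intro l
    unfold TQD.s
    rw [LinearMap.sum_apply, KO_sum]
    rfl
  rw [h1, Finset.sum_congr rfl (fun l _ => h2 l), Finset.sum_comm]
  refine Finset.sum_congr rfl fun j _ => ?_
  rw [derK_diag, Finset.mul_sum]

theorem y2_lin {M κ : Type} [AddCommGroup M] [Module ℂ M] [Fintype κ] (gg : κ → M) :
    ∃ (n : ℕ) (φ : Fin n → M), LinearIndependent ℂ φ ∧
      ∃ r : κ → Fin n → ℂ, ∀ p, gg p = ∑ b, r p b • φ b := by
  have hV : FiniteDimensional ℂ (Submodule.span ℂ (Set.range gg)) :=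
    FiniteDimensional.span_of_finite ℂ (Set.finite_range gg)
  have hmem : ∀ p, gg p ∈ Submodule.span ℂ (Set.range gg) := fun p => Submodule.subset_span ⟨p, rfl⟩
  generalize Submodule.span ℂ (Set.range gg) = V at hV hmem
  have bs := Module.finBasis ℂ V
  refine ⟨_, fun b => V.subtype (bs b),
    bs.linearIndependent.map' V.subtype (Submodule.ker_subtype V),
    fun p b => bs.repr ⟨gg p, hmem p⟩ b, fun p => ?_⟩
  have h2 := congrArg V.subtype (bs.sum_repr ⟨gg p, hmem p⟩)
  rw [map_sum] at h2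
  simp only [map_smul] at h2
  exact h2.symm

theorem y2_comb {κ : Type} [Fintype κ] (gg : κ → G.O) (ff : κ → G.KO K) :
    ∃ (n : ℕ) (φ : Fin n → G.O) (f : Fin n → G.KO K), LinearIndependent ℂ φ ∧ ∀ a k : G.X,
      ∑ p : κ, algebraMap ℂ K ((gg p).1 a) * (ff p).1 k =
        ∑ b, algebraMap ℂ K ((φ b).1 a) * (f b).1 k := by
  obtain ⟨n, φ, hφ, r, hr⟩ := y2_lin gg
  have hg : ∀ (p : κ) (a : G.X), (gg p).1 a = ∑ b, r p b * (φ b).1 a := by
    intro p a
    have h3 : ∀ x : G.O, x.1 a = ((Pi.evalRingHom (fun _ : G.X => ℂ) a).comp G.O.val.toRingHom) x :=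
      fun _ => rfl
    rw [h3, hr p, map_sum]
    exact Finset.sum_congr rfl fun b _ => rfl
  refine ⟨n, φ, fun b => ∑ p, algebraMap ℂ K (r p b) • ff p, hφ, fun a k => ?_⟩
  have h6 : ∀ b, algebraMap ℂ K ((φ b).1 a) *
      (∑ p, algebraMap ℂ K (r p b) • ff p : G.KO K).1 k =
      ∑ p, algebraMap ℂ K ((φ b).1 a) * (algebraMap ℂ K (r p b) * (ff p).1 k) := by
    intro b
    rw [KO_sum, Finset.mul_sum]
    exact Finset.sum_congr rfl fun p _ => rfl
  rw [Finset.sum_congr rfl (fun b _ => h6 b), Finset.sum_comm]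
  refine Finset.sum_congr rfl fun p _ => ?_
  rw [hg p a, map_sum, Finset.sum_mul]
  refine Finset.sum_congr rfl fun b _ => ?_
  rw [map_mul]
  ring

theorem y2_split {I : Type} [DecidableEq I] (i : I) (f : G.powO I) :
    ∃ (n : ℕ) (g f' : Fin n → G.O),
    ∀ a k : G.X, f.1 (fun l => if l = i then a * k else k) = ∑ j, (g j).1 a * (f' j).1 k := by
  obtain ⟨f, hf⟩ := f
  unfold powO at hf
  induction hf using Algebra.adjoin_induction with
  | mem F hF =>
    obtain ⟨l, f, rfl⟩ := hF
    by_cases hl : l = i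
    · obtain ⟨n, a, b, h⟩ := G.mul_mem f.1 f.2
      refine ⟨n, a, b, fun x y => ?_⟩
      show f.1 (if l = i then x * y else y) = _
      rw [if_pos hl]
      exact h x y
    · refine ⟨1, fun _ => 1, fun _ => f, fun x y => ?_⟩
      show f.1 (if l = i then x * y else y) = _
      rw [if_neg hl, Fin.sum_univ_one]
      show f.1 y = 1 * f.1 y
      rw [one_mul]
  | algebraMap c =>
    refine ⟨1, fun _ => algebraMap ℂ _ c, fun _ => 1, fun x y => ?_⟩
    rw [Fin.sum_univ_one]
    show c = c * 1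
    rw [mul_one]
  | add F F' _ _ ih ih' =>
    obtain ⟨n, a, b, h⟩ := ih
    obtain ⟨n', a', b', h'⟩ := ih'
    refine ⟨n + n', Fin.append a a', Fin.append b b', fun x y => ?_⟩
    rw [Fin.sum_univ_add]
    simp only [Fin.append_left, Fin.append_right]
    rw [← h, ← h']
    rfl
  | mul F F' _ _ ih ih' =>
    obtain ⟨n, a, b, h⟩ := ih
    obtain ⟨n', a', b', h'⟩ := ih'
    refine ⟨n * n', fun k => a (finProdFinEquiv.symm k).1 * a' (finProdFinEquiv.symm k).2,
      fun k => b (finProdFinEquiv.symm k).1 * b' (finProdFinEquiv.symm k).2, fun x y => ?_⟩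
    show F _ * F' _ = _
    have h1 : F (fun l => if l = i then x * y else y) = _ := h x y
    have h2 : F' (fun l => if l = i then x * y else y) = _ := h' x y
    rw [h1, h2, Finset.sum_mul_sum, ← Equiv.sum_comp finProdFinEquiv,
      Fintype.sum_prod_type]
    refine Finset.sum_congr rfl fun k _ => Finset.sum_congr rfl fun l _ => ?_
    simp only [Equiv.symm_apply_apply]
    show _ = ((a k).1 x * (a' l).1 x) * ((b k).1 y * (b' l).1 y)
    ring

theorem y2_sigma (i : L) (F : (G.pow L).KO K) :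
    ∃ (κ : Type) (_ : Fintype κ) (gg : κ → G.O) (ff : κ → G.KO K), ∀ a k : G.X,
      F.1 (fun l => if l = i then a * k else k) =
        ∑ p : κ, algebraMap ℂ K ((gg p).1 a) * (ff p).1 k := by
  obtain ⟨m, c, F', hF⟩ := KO_rep F
  have h0 : ∀ j, ∃ (n : ℕ) (g f' : Fin n → G.O), ∀ a k : G.X,
      (F' j).1 (fun l => if l = i then a * k else k) = ∑ q, (g q).1 a * (f' q).1 k :=
    fun j => y2_split i (F' j)
  choose n g f' h using h0
  refine ⟨Σ j : Fin m, Fin (n j), inferInstance, fun p => g p.1 p.2,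
    fun p => c p.1 • inc K (f' p.1 p.2), fun a k => ?_⟩
  rw [Fintype.sum_sigma, hF]
  refine Finset.sum_congr rfl fun j _ => ?_
  rw [h j a k, map_sum, Finset.mul_sum]
  refine Finset.sum_congr rfl fun q _ => ?_
  rw [map_mul, KO_smul, inc_apply]
  ring

/-- Splitting a function of two legs `i`, `o` in the coordinates `a = k_i k_o⁻¹`, `k = k_o`.
PROOF. The function `y ↦ F (l ↦ if l = i then y none * y (some ()) else y (some ()))` is in `(G.pow (Option Unit)).KO K` (`comp`, `pow_mem`; the coordinate functions are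
in the algebra: `y ↦ f (y none * y (some ()))` by `G.mul_mem` and `G.pull`).  `LP.KO_split`: it is `∑ j, g j (a) * f' j (k)`; let `φ` be a basis of the span of the `g j`
(`Submodule.finBasis`), expand `g j = ∑ c j b • φ b`, `f b := ∑ j, c j b • f' j`, as a function of `k : G.X` (`comp` along `k ↦ fun _ => k`). -/
theorem split2 (i : L) (F : (G.pow L).KO K) : ∃ (n : ℕ) (φ : Fin n → G.O) (f : Fin n → G.KO K),
    LinearIndependent ℂ φ ∧ ∀ a k : G.X, F.1 (fun l => if l = i then a * k else k) =
      ∑ b, algebraMap ℂ K ((φ b).1 a) * (f b).1 k := by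
  obtain ⟨κ, hκ, gg, ff, h⟩ := y2_sigma i F
  obtain ⟨n, φ, f, hφ, h'⟩ := y2_comb gg ff
  exact ⟨n, φ, f, hφ, fun a k => (h a k).trans (h' a k)⟩

end

end Pool.Agent.MTF
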