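import Pool.Agent.MTF.PB0
import Pool.Agent.MTF.AG
import Pool.Agent.MTF.Y2

/-! # MTF, part P : derivatives and restriction -/

set_option linter.unusedSectionVars false

namespace Pool.Agent.MTF

open AffGrp

section
variable {G : AffGrp} {K W X : Type} [Field K] [Algebra ℂ K] [Group W] [Fintype W]
  [MulSemiringAction W K] [SMulCommClass W ℂ K] [AddCommGroup X] [DistribMulAction W X]
variable {Q : TQD G K W X}
variable {L : Type} [Fintype L] [DecidableEq L]

/-- [MTF-PD0] PROOF. slices, as `s_ev1` in C0.lean (with `derK_emb`). -/
theorem derK_ev1 (l : L) (D : G.Lie) (F : (G.pow (Option L)).KO K) :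
    derK K (emb l D) (ev1 K F) = ev1 K (derK K (emb (some l) D) F) := by
  apply KO_ext
  intro k
  rw [derK_emb, ev1_apply, derK_emb]
  have h1 : sl K k l (ev1 K F) = sl K (optP 1 k) (some l) F := by
    apply KO_ext
    intro h
    rw [sl_apply, ev1_apply, sl_apply]
    refine congrArg F.1 (funext fun o => ?_ : (optP 1 (Function.update k l h) : Option L → G.X) =
      Function.update (optP 1 k) (some l) h)
    cases o with
    | none => rw [Function.update_of_ne (by simp)]; rfl
    | some i =>
      by_cases hi : i = l
      · subst hi; simp [optP]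
      · rw [Function.update_of_ne (by simpa using hi)]
        show Function.update k l h i = k i
        rw [Function.update_of_ne hi]
  rw [h1]
  rfl

theorem pd0_const (D : G.Lie) (a : K) : derK K D (algebraMap K (G.KO K) a) = 0 := by
  have h1 : derK K D (1 : G.KO K) = 0 := by
    have h2 := derK_leib D (1 : G.KO K) 1
    rw [mul_one, one_mul] at h2
    exact left_eq_add.1 h2
  rw [Algebra.algebraMap_eq_smul_one, map_smul, h1, smul_zero]

/-- [MTF-PD0] A function with `F (x k_1, x k_2, k) = F (k_1, k_2, k)` (legs `none`, `some none`): the derivatives in these legs are opposite at `k_1 = k_2 = 1`.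
PROOF. The function `x ↦ F (optP x (optP x k))` is constant (`= F (optP 1 (optP 1 k))`), so `derK K D` of it vanishes; chain rule: as `derK_diag` (Y2.lean): on `inc f`, `f` in
`G.powO (Option (Option L))`, `Algebra.adjoin_induction`: for the generators `y ↦ g (y i)` check `i = none`, `i = some none`, `i = some (some l)`. -/
theorem derK_inv2 (D : G.Lie) (F : (G.pow (Option (Option L))).KO K)
    (h : ∀ (x : G.X) (k : L → G.X), F.1 (optP x (optP x k)) = F.1 (optP 1 (optP 1 k))) (k : L → G.X) :
    (derK K (emb none D) F).1 (optP 1 (optP 1 k)) + (derK K (emb (some none) D) F).1 (optP 1 (optP 1 k)) = 0 := by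
  classical
  have hπ : ∀ f ∈ (G.pow (Option (Option L))).O,
      (fun y : (G.pow Bool).X => f (optP (y true) (optP (y false) k))) ∈ (G.pow Bool).O :=
    fun _ hf => pow_mem G (H := G.pow Bool) (fun y => optP (y true) (optP (y false) k))
      (fun l g hg => by
        cases l with
        | none => exact (G.pull true ⟨g, hg⟩).2
        | some o =>
          cases o with
          | none => exact (G.pull false ⟨g, hg⟩).2
          | some l => exact const_mem (G.pow Bool) (g (k l))) hf
  obtain ⟨F', hF'⟩ : ∃ F' : (G.pow Bool).KO K, ∀ y : Bool → G.X,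
      F'.1 y = F.1 (optP (y true) (optP (y false) k)) :=
    ⟨comp K (H := G.pow (Option (Option L))) (H' := G.pow Bool)
      (fun y => optP (y true) (optP (y false) k)) hπ F, fun _ => rfl⟩
  have h1 := derK_diag (1 : Bool → G.X) F' D 1
  have h2 : comp K (H := G.pow Bool) (H' := G) (fun (h : G.X) (l : Bool) => (1 : Bool → G.X) l * h)
      (fun _ hf => pow_mem G (H := G) (fun h l => (1 : Bool → G.X) l * h)
        (fun l _ hg => G.left_mem ((1 : Bool → G.X) l) hg) hf) F' =
      algebraMap K (G.KO K) (F.1 (optP 1 (optP 1 k))) := by
    apply KO_ext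
    intro x
    refine Eq.trans (hF' _) ?_
    show F.1 (optP (1 * x) (optP (1 * x) k)) = F.1 (optP 1 (optP 1 k))
    rw [one_mul]
    exact h x k
  rw [h2, pd0_const, Fintype.sum_bool, derK_emb, derK_emb] at h1
  have h3 : sl K (fun l : Bool => (1 : Bool → G.X) l * 1) true F' =
      sl K (optP 1 (optP 1 k)) none F := by
    apply KO_ext
    intro x
    have u1 : Function.update (fun l : Bool => (1 : Bool → G.X) l * 1) true x true = x :=
      Function.update_self _ _ _
    have u2 : Function.update (fun l : Bool => (1 : Bool → G.X) l * 1) true x false = 1 := by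
      rw [Function.update_of_ne (by decide)]
      exact one_mul 1
    rw [sl_apply, sl_apply, hF', u1, u2]
    refine congrArg F.1 (funext fun o => ?_ : (optP x (optP 1 k) : Option (Option L) → G.X) =
      Function.update (optP 1 (optP 1 k)) none x)
    cases o with
    | none =>
      rw [Function.update_self]
      rfl
    | some o =>
      rw [Function.update_of_ne (by simp)]
      rfl
  have h4 : sl K (fun l : Bool => (1 : Bool → G.X) l * 1) false F' =
      sl K (optP 1 (optP 1 k)) (some none) F := by
    apply KO_ext
    intro x
    have u1 : Function.update (fun l : Bool => (1 : Bool → G.X) l * 1) false x false = x :=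
      Function.update_self _ _ _
    have u2 : Function.update (fun l : Bool => (1 : Bool → G.X) l * 1) false x true = 1 := by
      rw [Function.update_of_ne (by decide)]
      exact one_mul 1
    rw [sl_apply, sl_apply, hF', u1, u2]
    refine congrArg F.1 (funext fun o => ?_ : (optP 1 (optP x k) : Option (Option L) → G.X) =
      Function.update (optP 1 (optP 1 k)) (some none) x)
    cases o with
    | none =>
      rw [Function.update_of_ne (by simp)]
      rfl
    | some o =>
      cases o with
      | none =>
        rw [Function.update_self]
        rfl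
      | some l =>
        rw [Function.update_of_ne (by simp)]
        rfl
  rw [derK_emb, derK_emb, ← h3, ← h4]
  have e : ((1 : Bool → G.X) true * 1 : G.X) = 1 := one_mul 1
  have e' : ((1 : Bool → G.X) false * 1 : G.X) = 1 := one_mul 1
  rw [e, e'] at h1
  exact h1.symm

end

end Pool.Agent.MTF
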