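import Pool.Agent.MTF.PD0

/-! # MTF, part P : restriction of two legs of one surface (T2) is Poisson -/

set_option linter.unusedSectionVars false

namespace Pool.Agent.MTF

open AffGrp

section
variable {G : AffGrp} {K W X : Type} [Field K] [Algebra ℂ K] [Group W] [Fintype W]
  [MulSemiringAction W K] [SMulCommClass W ℂ K] [AddCommGroup X] [DistribMulAction W X]
variable {Q : TQD G K W X}
variable {P : PD Q}
variable {L : Type} [Fintype L] [DecidableEq L]

theorem pd1_ext {F F' : RR G K X L} (h : ∀ m k, (F.coeff m).1 k = (F'.coeff m).1 k) : F = F' := by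
  apply AddMonoidAlgebra.coeff_injective
  refine Finsupp.ext fun m => ?_
  exact KO_ext (h m)

theorem pd1_DN (j : Fin P.n) (F : RR G K X (Option (Option L))) :
    res2 (P.DN (Option (Option L)) j F) = P.DN L j (res2 F) := by
  apply pd1_ext
  intro m k
  rw [res2_coeff, DN_coeff, DN_coeff, KO_smul, KO_smul, res2_coeff]

theorem pd1_DX (j : Fin P.n) (F : RR G K X (Option (Option L))) :
    res2 (P.DX (Option (Option L)) j F) = P.DX L j (res2 F) := by
  apply pd1_ext
  intro m k
  rw [res2_coeff, DX_coeff, DX_coeff, res2_coeff]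

theorem pd1_DL (l : L) (a : Fin Q.r) (F : RR G K X (Option (Option L))) :
    res2 (PD.DL (Q := Q) (some (some l)) a F) = PD.DL (Q := Q) l a (res2 F) := by
  apply pd1_ext
  intro m k
  rw [res2_coeff, DL_coeff, DL_coeff]
  have h1 : (res2 F).coeff m = ev1 K (ev1 K (F.coeff m)) := by
    unfold res2
    rw [coeff_fm]
    rfl
  rw [h1, derK_ev1, derK_ev1]
  rfl

theorem pd1_AL (ε : L → Bool) (l : L) (a : Fin Q.r) (F : RR G K X (Option (Option L))) :
    res2 (P.AL (optS true (optS false ε)) (some (some l)) a F) = P.AL ε l a (res2 F) := by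
  unfold PD.AL
  rw [map_sub, map_zsmul, map_sum, pd1_DL]
  have h1 : ∀ j, res2 (P.sig j a • P.DN (Option (Option L)) j F) = P.sig j a • P.DN L j (res2 F) := fun j => by
    rw [map_smul, pd1_DN]
  rw [Finset.sum_congr rfl fun j _ => h1 j]
  rfl

theorem pd1_pt (x : G.X) (k : L → G.X) : (pt2 x)⁻¹ * optP (1 : G.X) (optP 1 k) = optP x⁻¹ (optP x⁻¹ k) := by
  funext o
  cases o with
  | none => exact mul_one _
  | some o =>
    cases o with
    | none => exact mul_one _
    | some l =>
      show (1 : G.X)⁻¹ * k l = k l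
      rw [inv_one, one_mul]

theorem pd1_inv (a : Fin Q.r) {F : RR G K X (Option (Option L))} (hF : ∀ x, gact (pt2 x) F = F) :
    res2 (PD.DL (Q := Q) none a F) + res2 (PD.DL (Q := Q) (some none) a F) = 0 := by
  apply pd1_ext
  intro m k
  have h1 : ∀ (x : G.X) (k : L → G.X), (F.coeff m).1 (optP x (optP x k)) = (F.coeff m).1 (optP 1 (optP 1 k)) := by
    intro x k
    have h2 := congrArg (fun F => (F.coeff m).1 (optP (1 : G.X) (optP 1 k))) (hF x⁻¹)
    simp only [gact_apply] at h2
    rw [pd1_pt, inv_inv] at h2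
    exact h2
  rw [AddMonoidAlgebra.coeff_add, Finsupp.add_apply, KO_add, res2_coeff, res2_coeff, DL_coeff, DL_coeff,
    derK_inv2 (Q.D a) (F.coeff m) h1 k]
  rfl

theorem pd1_one {L : Type} [Finite L] (x : RR G K X L) : (1 : ℤ) • x = x := one_zsmul x

theorem pd1_neg {L : Type} [Finite L] (x : RR G K X L) : (-1 : ℤ) • x = -x := neg_one_zsmul x

theorem pd1_ALn (ε : L → Bool) (a : Fin Q.r) {F : RR G K X (Option (Option L))} (hF : ∀ x, gact (pt2 x) F = F) :
    res2 (P.AL (optS true (optS false ε)) none a F) = - res2 (P.AL (optS true (optS false ε)) (some none) a F) := by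
  have h1 := pd1_inv (Q := Q) a hF
  have e1 : sgn (optS true (optS false ε) none) = 1 := rfl
  have e2 : sgn (optS true (optS false ε) (some none)) = -1 := rfl
  unfold PD.AL
  rw [e1, e2, pd1_one, pd1_neg, sub_neg_eq_add, map_sub, map_add]
  linear_combination h1

/-- [MTF-PD1] (P5), T2.
PROOF. `res2` is a `K`-algebra homomorphism (`res2_coeff`).  `res2 (DN j F) = DN j (res2 F)`, `res2 (DX j F) = DX j (res2 F)`, `res2 (DL (some (some l)) a F) = DL l a (res2 F)` (`derK_ev1` twice), so
`res2 (AL (some (some l)) a F) = AL l a (res2 F)` (same signs).  For invariant `F` (`gact (pt2 x) F = F`, i.e. `F_m (x⁻¹ k_1, x⁻¹ k_2, k) = F_m (k_1, k_2, k)`):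
`res2 (DL none a F) = - res2 (DL (some none) a F)` (`derK_inv2`), and as the signs are opposite `res2 (AL none a F) = - res2 (AL (some none) a F)`.  In the sum over the legs
(`Fintype.sum_option` twice) the terms `none` and `some none` have opposite signs and equal products: they cancel. -/
theorem br_res2 (ε : L → Bool) {F F' : RR G K X (Option (Option L))}
    (hF : ∀ x, gact (pt2 x) F = F) (hF' : ∀ x, gact (pt2 x) F' = F') :
    res2 (P.br (optS true (optS false ε)) F F') = P.br ε (res2 F) (res2 F') := by
  have e1 : sgn (optS true (optS false ε) none) = 1 := rfl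
  have e2 : sgn (optS true (optS false ε) (some none)) = -1 := rfl
  have e3 : ∀ l, sgn (optS true (optS false ε) (some (some l))) = sgn (ε l) := fun l => rfl
  have h1 : ∀ j, res2 (P.DN (Option (Option L)) j F * P.DX (Option (Option L)) j F' -
      P.DN (Option (Option L)) j F' * P.DX (Option (Option L)) j F) =
      P.DN L j (res2 F) * P.DX L j (res2 F') - P.DN L j (res2 F') * P.DX L j (res2 F) := fun j => by
    rw [map_sub, map_mul, map_mul, pd1_DN, pd1_DX, pd1_DN, pd1_DX]
  have h2 : ∀ o, res2 (sgn (optS true (optS false ε) o) • ∑ a, ∑ b, P.rho a b •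
      (P.AL (optS true (optS false ε)) o a F * P.AL (optS true (optS false ε)) o b F')) =
      sgn (optS true (optS false ε) o) • ∑ a, ∑ b, P.rho a b •
      (res2 (P.AL (optS true (optS false ε)) o a F) * res2 (P.AL (optS true (optS false ε)) o b F')) := fun o => by
    rw [map_zsmul, map_sum]
    refine congrArg _ (Finset.sum_congr rfl fun a _ => ?_)
    rw [map_sum]
    refine Finset.sum_congr rfl fun b _ => ?_
    rw [map_smul, map_mul]
  unfold PD.br
  rw [map_sub, map_sum, map_sum, Finset.sum_congr rfl fun j _ => h1 j, Finset.sum_congr rfl fun o _ => h2 o,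
    Fintype.sum_option, Fintype.sum_option, e1, e2, pd1_one, pd1_neg]
  have h3 : ∀ a b, res2 (P.AL (optS true (optS false ε)) none a F) * res2 (P.AL (optS true (optS false ε)) none b F') =
      res2 (P.AL (optS true (optS false ε)) (some none) a F) * res2 (P.AL (optS true (optS false ε)) (some none) b F') :=
    fun a b => by rw [pd1_ALn ε a hF, pd1_ALn ε b hF']; ring
  have h4 : ∀ l, (∑ a, ∑ b, P.rho a b • (res2 (P.AL (optS true (optS false ε)) (some (some l)) a F) *
      res2 (P.AL (optS true (optS false ε)) (some (some l)) b F')) : RR G K X L) =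
      ∑ a, ∑ b, P.rho a b • (P.AL ε l a (res2 F) * P.AL ε l b (res2 F')) := fun l => by
    refine Finset.sum_congr rfl fun a _ => Finset.sum_congr rfl fun b _ => ?_
    rw [pd1_AL, pd1_AL]
  simp only [h3, h4, e3]
  rw [add_neg_cancel_left]

end

end Pool.Agent.MTF
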