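import Pool.Agent.MTF.PD0

/-! # MTF, part P : restriction of two legs of two surfaces (T1) is Poisson -/

set_option linter.unusedSectionVars false

namespace Pool.Agent.MTF

open AffGrp

section
variable {G : AffGrp} {K W X : Type} [Field K] [Algebra ℂ K] [Group W] [Fintype W]
  [MulSemiringAction W K] [SMulCommClass W ℂ K] [AddCommGroup X] [DistribMulAction W X]
variable {Q : TQD G K W X}
variable {P : PD Q}
variable {L : Type} [Fintype L] [DecidableEq L]

open TensorProduct

variable {L' : Type} [Fintype L'] [DecidableEq L']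

/-- The restricted product, on all families. -/
noncomputable def rhoT (G : AffGrp) (K X L L' : Type) [Field K] [Algebra ℂ K] [AddCommGroup X] [Fintype L] [DecidableEq L]
    [Fintype L'] [DecidableEq L'] : RR G K X (Option L) ⊗[ℂ] RR G K X (Option L') →ₐ[ℂ]
      AddMonoidAlgebra ((G.pow (L ⊕ L')).KO K) (X × X) :=
  Algebra.TensorProduct.productMap (jL G K X L L') (jR G K X L L')

/-- [MTF-PD2] -/
theorem rhoT_coeff (F : RR G K X (Option L)) (F' : RR G K X (Option L')) (m m' : X) (k : L ⊕ L' → G.X) :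
    ((rhoT G K X L L' (F ⊗ₜ F')).coeff (m, m')).1 k =
      (F.coeff m).1 (optP 1 (k ∘ Sum.inl)) * (F'.coeff m').1 (optP 1 (k ∘ Sum.inr)) := by
  have h := congrArg (fun z => z.1 k) (coeff_jj (L := L) (L' := L') F F' m m')
  have h2 : rhoT G K X L L' (F ⊗ₜ F') = jL G K X L L' F * jR G K X L L' F' := by
    unfold rhoT
    rw [Algebra.TensorProduct.productMap_apply_tmul]
  rw [h2]
  exact h

theorem pd2_AL_smulC (ε : L → Bool) (l : L) (a : Fin Q.r) (c : ℂ) (F : RR G K X L) :
    P.AL ε l a (c • F) = c • P.AL ε l a F := by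
  unfold PD.AL
  have h1 : PD.DL (Q := Q) l a (c • F) = c • PD.DL (Q := Q) l a F := Derivation.map_smul _ c F
  have h2 : ∀ j, P.DN L j (c • F) = c • P.DN L j F := fun j => Derivation.map_smul _ c F
  simp only [h1, h2]
  have h3 : ∑ j, P.sig j a • (c • P.DN L j F) = c • ∑ j, P.sig j a • P.DN L j F := by
    rw [Finset.smul_sum]
    exact Finset.sum_congr rfl fun j _ => smul_comm _ _ _
  rw [h3, smul_comm (sgn (ε l)) c]
  exact (smul_sub (A := RR G K X L) c _ _).symm

theorem pd2_br_add (ε : L → Bool) (F F' F'' : RR G K X L) :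
    P.br ε (F + F') F'' = P.br ε F F'' + P.br ε F' F'' := by
  unfold PD.br
  have h1 : ∀ l a, P.AL ε l a (F + F') = P.AL ε l a F + P.AL ε l a F' := fun l a => AL_add ε l a F F'
  have h2 : ∀ j, P.DN L j (F + F') = P.DN L j F + P.DN L j F' := fun j => map_add _ F F'
  have h3 : ∀ j, P.DX L j (F + F') = P.DX L j F + P.DX L j F' := fun j => map_add _ F F'
  have e1 : ∑ j, (P.DN L j (F + F') * P.DX L j F'' - P.DN L j F'' * P.DX L j (F + F')) =
      ∑ j, (P.DN L j F * P.DX L j F'' - P.DN L j F'' * P.DX L j F) +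
      ∑ j, (P.DN L j F' * P.DX L j F'' - P.DN L j F'' * P.DX L j F') := by
    rw [← Finset.sum_add_distrib]
    refine Finset.sum_congr rfl fun j _ => ?_
    rw [h2, h3]
    ring
  have e2 : ∑ l, sgn (ε l) • ∑ a, ∑ b, P.rho a b • (P.AL ε l a (F + F') * P.AL ε l b F'') =
      ∑ l, sgn (ε l) • ∑ a, ∑ b, P.rho a b • (P.AL ε l a F * P.AL ε l b F'') +
      ∑ l, sgn (ε l) • ∑ a, ∑ b, P.rho a b • (P.AL ε l a F' * P.AL ε l b F'') := by
    rw [← Finset.sum_add_distrib]
    refine Finset.sum_congr rfl fun l _ => ?_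
    rw [← smul_add, ← Finset.sum_add_distrib]
    refine congrArg (fun z => sgn (ε l) • z) (Finset.sum_congr rfl fun a _ => ?_)
    rw [← Finset.sum_add_distrib]
    refine Finset.sum_congr rfl fun b _ => ?_
    rw [h1, add_mul, smul_add]
  rw [e1, e2]
  exact add_sub_add_comm (α := RR G K X L) _ _ _ _

theorem pd2_br_smul (ε : L → Bool) (c : ℂ) (F F' : RR G K X L) :
    P.br ε (c • F) F' = c • P.br ε F F' := by
  unfold PD.br
  have h1 : ∀ l a, P.AL ε l a (c • F) = c • P.AL ε l a F := fun l a => pd2_AL_smulC ε l a c F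
  have h2 : ∀ j, P.DN L j (c • F) = c • P.DN L j F := fun j => Derivation.map_smul _ c F
  have h3 : ∀ j, P.DX L j (c • F) = c • P.DX L j F := fun j => Derivation.map_smul _ c F
  have e1 : ∑ j, (P.DN L j (c • F) * P.DX L j F' - P.DN L j F' * P.DX L j (c • F)) =
      c • ∑ j, (P.DN L j F * P.DX L j F' - P.DN L j F' * P.DX L j F) := by
    rw [Finset.smul_sum]
    refine Finset.sum_congr rfl fun j _ => ?_
    rw [h2, h3, smul_mul_assoc, mul_smul_comm]
    exact (smul_sub (A := RR G K X L) c _ _).symm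
  have e2 : ∑ l, sgn (ε l) • ∑ a, ∑ b, P.rho a b • (P.AL ε l a (c • F) * P.AL ε l b F') =
      c • ∑ l, sgn (ε l) • ∑ a, ∑ b, P.rho a b • (P.AL ε l a F * P.AL ε l b F') := by
    rw [Finset.smul_sum]
    refine Finset.sum_congr rfl fun l _ => ?_
    rw [smul_comm c (sgn (ε l))]
    refine congrArg (fun z => sgn (ε l) • z) ?_
    rw [Finset.smul_sum]
    refine Finset.sum_congr rfl fun a _ => ?_
    rw [Finset.smul_sum]
    refine Finset.sum_congr rfl fun b _ => ?_
    rw [h1, smul_mul_assoc, smul_comm]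
  rw [e1, e2]
  exact (smul_sub (A := RR G K X L) c _ _).symm

/-- the bracket as a bilinear map -/
noncomputable def brL (P : PD Q) (ε : L → Bool) : RR G K X L →ₗ[ℂ] RR G K X L →ₗ[ℂ] RR G K X L :=
  LinearMap.mk₂ ℂ (P.br ε) (by
    exact pd2_br_add ε) (by
    exact pd2_br_smul ε) (by
    exact br_add_right ε) (by
    intro c F F'
    exact br_smul_right ε c F F')

theorem brL_apply (ε : L → Bool) (F F' : RR G K X L) : brL P ε F F' = P.br ε F F' := rfl

/-- the product bracket -/
noncomputable def tbL (P : PD Q) (ε : Option L → Bool) (ε' : Option L' → Bool) :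
    (RR G K X (Option L) ⊗[ℂ] RR G K X (Option L')) →ₗ[ℂ] (RR G K X (Option L) ⊗[ℂ] RR G K X (Option L')) →ₗ[ℂ]
      (RR G K X (Option L) ⊗[ℂ] RR G K X (Option L')) :=
  TensorProduct.map₂ (brL P ε) (LinearMap.mul ℂ (RR G K X (Option L'))) +
    TensorProduct.map₂ (LinearMap.mul ℂ (RR G K X (Option L))) (brL P ε')

end

end Pool.Agent.MTF
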