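import Pool.Agent.MTF.PD2

/-! # MTF, part P : the product bracket restricted to two legs of two surfaces, formula -/

set_option linter.unusedSectionVars false

namespace Pool.Agent.MTF

open AffGrp

attribute [-instance] NormedSpace.toModule NormedAlgebra.toAlgebra

theorem pd3s_sum_left {S M J : Type} [CommRing S] [Add M] (s : Finset J) (f g : J → M → S)
    (hf : ∀ j x y, f j (x + y) = f j x + f j y) (hg : ∀ j x y, g j (x + y) = g j x + g j y) (x y z : M) :
    ∑ j ∈ s, (f j (x + y) * g j z - f j z * g j (x + y)) =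
      (∑ j ∈ s, (f j x * g j z - f j z * g j x)) + ∑ j ∈ s, (f j y * g j z - f j z * g j y) := by
  rw [← Finset.sum_add_distrib]
  refine Finset.sum_congr rfl fun j _ => ?_
  rw [hf, hg]
  ring

theorem pd3s_sum_right {S M J : Type} [CommRing S] [Add M] (s : Finset J) (f g : J → M → S)
    (hf : ∀ j x y, f j (x + y) = f j x + f j y) (hg : ∀ j x y, g j (x + y) = g j x + g j y) (z x y : M) :
    ∑ j ∈ s, (f j z * g j (x + y) - f j (x + y) * g j z) =
      (∑ j ∈ s, (f j z * g j x - f j x * g j z)) + ∑ j ∈ s, (f j z * g j y - f j y * g j z) := by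
  rw [← Finset.sum_add_distrib]
  refine Finset.sum_congr rfl fun j _ => ?_
  rw [hf, hg]
  ring

theorem pd3s_rho_left {K S M J N : Type} [CommRing K] [CommRing S] [Module K S] [Add M] (s : Finset J) (t : Finset N)
    (sg : J → ℤ) (rho : N → N → K) (f : J → N → M → S) (hf : ∀ j a x y, f j a (x + y) = f j a x + f j a y)
    (x y z : M) : ∑ l ∈ s, sg l • ∑ a ∈ t, ∑ b ∈ t, rho a b • (f l a (x + y) * f l b z) =
      (∑ l ∈ s, sg l • ∑ a ∈ t, ∑ b ∈ t, rho a b • (f l a x * f l b z)) +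
        ∑ l ∈ s, sg l • ∑ a ∈ t, ∑ b ∈ t, rho a b • (f l a y * f l b z) := by
  simp only [hf, add_mul, smul_add, Finset.sum_add_distrib]

theorem pd3s_rho_right {K S M J N : Type} [CommRing K] [CommRing S] [Module K S] [Add M] (s : Finset J) (t : Finset N)
    (sg : J → ℤ) (rho : N → N → K) (f : J → N → M → S) (hf : ∀ j a x y, f j a (x + y) = f j a x + f j a y)
    (z x y : M) : ∑ l ∈ s, sg l • ∑ a ∈ t, ∑ b ∈ t, rho a b • (f l a z * f l b (x + y)) =
      (∑ l ∈ s, sg l • ∑ a ∈ t, ∑ b ∈ t, rho a b • (f l a z * f l b x)) +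
        ∑ l ∈ s, sg l • ∑ a ∈ t, ∑ b ∈ t, rho a b • (f l a z * f l b y) := by
  simp only [hf, mul_add, smul_add, Finset.sum_add_distrib]

theorem pd3s_four {S : Type} [AddCommGroup S] (a b c d a' b' c' d' : S) :
    (a + a') + (b + b') - (c + c') - (d + d') = (a + b - c - d) + (a' + b' - c' - d') := by
  abel

theorem pd3s_fin {S : Type} [CommRing S] {X1 X2 R Lf Y1 Y2 a b c d : S} (h1 : X1 * R = a) (h2 : Lf * Y1 = b)
    (h3 : X2 * R = c) (h4 : Lf * Y2 = d) : (X1 - X2) * R + Lf * (Y1 - Y2) = a + b - c - d := by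
  rw [← h1, ← h2, ← h3, ← h4]
  ring

theorem pd3s_e1 {S J : Type} [CommRing S] (s : Finset J) (p q p' q' : J → S) (r r' : S) :
    (∑ j ∈ s, (p j * q j - p' j * q' j)) * (r * r') =
      ∑ j ∈ s, (p j * r * (q j * r') - p' j * r' * (q' j * r)) := by
  rw [Finset.sum_mul]
  refine Finset.sum_congr rfl fun j _ => ?_
  ring

theorem pd3s_e3 {S J : Type} [CommRing S] (s : Finset J) (p q p' q' : J → S) (x x' : S) :
    x * x' * (∑ j ∈ s, (p j * q j - p' j * q' j)) =
      ∑ j ∈ s, (x * p j * (x' * q j) - x' * p' j * (x * q' j)) := by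
  rw [Finset.mul_sum]
  refine Finset.sum_congr rfl fun j _ => ?_
  ring

theorem pd3s_e2 {K S N I : Type} [CommRing K] [CommRing S] [Algebra K S] (t : Finset N) (i : Finset I)
    (sg : I → ℤ) (rho : N → N → K) (u v : I → N → S) (r r' : S) :
    (∑ l ∈ i, sg l • ∑ a ∈ t, ∑ b ∈ t, rho a b • (u l a * v l b)) * (r * r') =
      ∑ l ∈ i, sg l • ∑ a ∈ t, ∑ b ∈ t, rho a b • (u l a * r * (v l b * r')) := by
  have h : ∀ x y : S, x * y * (r * r') = x * r * (y * r') := fun x y => by ring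
  simp only [Finset.sum_mul, smul_mul_assoc, h]

theorem pd3s_e4 {K S N I : Type} [CommRing K] [CommRing S] [Algebra K S] (t : Finset N) (i : Finset I)
    (sg : I → ℤ) (rho : N → N → K) (u v : I → N → S) (x x' : S) :
    x * x' * (∑ l ∈ i, sg l • ∑ a ∈ t, ∑ b ∈ t, rho a b • (u l a * v l b)) =
      ∑ l ∈ i, sg l • ∑ a ∈ t, ∑ b ∈ t, rho a b • (x * u l a * (x' * v l b)) := by
  have h : ∀ y z : S, x * x' * (y * z) = x * y * (x' * z) := fun x y => by ring
  simp only [Finset.mul_sum, mul_smul_comm, h]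

section
variable {G : AffGrp} {K W X : Type} [Field K] [Algebra ℂ K] [Group W] [Fintype W]
  [MulSemiringAction W K] [SMulCommClass W ℂ K] [AddCommGroup X] [DistribMulAction W X]
variable {Q : TQD G K W X}
variable {P : PD Q}
variable {L : Type} [Fintype L] [DecidableEq L]

open TensorProduct

variable {L' : Type} [Fintype L'] [DecidableEq L']

/-- `AL` as a linear map -/
noncomputable def lAL (P : PD Q) (ε : L → Bool) (l : L) (a : Fin Q.r) : RR G K X L →ₗ[ℂ] RR G K X L where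
  toFun F := P.AL ε l a F
  map_add' := AL_add ε l a
  map_smul' := by
    intro c F
    rw [← algebraMap_smul K c F, AL_smul, algebraMap_smul]
    rfl

/-- the operator `D ⊗ 1` followed by the restriction -/
noncomputable def r1 (D : RR G K X (Option L) →ₗ[ℂ] RR G K X (Option L))
    (F : RR G K X (Option L) ⊗[ℂ] RR G K X (Option L')) : AddMonoidAlgebra ((G.pow (L ⊕ L')).KO K) (X × X) :=
  rhoT G K X L L' (TensorProduct.map D LinearMap.id F)

/-- the operator `1 ⊗ D` followed by the restriction -/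
noncomputable def r2 (D : RR G K X (Option L') →ₗ[ℂ] RR G K X (Option L'))
    (F : RR G K X (Option L) ⊗[ℂ] RR G K X (Option L')) : AddMonoidAlgebra ((G.pow (L ⊕ L')).KO K) (X × X) :=
  rhoT G K X L L' (TensorProduct.map LinearMap.id D F)

theorem pd3_r1_add (D : RR G K X (Option L) →ₗ[ℂ] RR G K X (Option L))
    (F F' : RR G K X (Option L) ⊗[ℂ] RR G K X (Option L')) : r1 D (F + F') = r1 D F + r1 D F' := by
  unfold r1
  rw [map_add, map_add]

theorem pd3_r2_add (D : RR G K X (Option L') →ₗ[ℂ] RR G K X (Option L'))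
    (F F' : RR G K X (Option L) ⊗[ℂ] RR G K X (Option L')) : r2 D (F + F') = r2 D F + r2 D F' := by
  unfold r2
  rw [map_add, map_add]

theorem pd3_r1_tmul (D : RR G K X (Option L) →ₗ[ℂ] RR G K X (Option L))
    (a : RR G K X (Option L)) (b : RR G K X (Option L')) :
    r1 D (a ⊗ₜ[ℂ] b) = jL G K X L L' (D a) * jR G K X L L' b := by
  unfold r1 rhoT
  rw [TensorProduct.map_tmul, Algebra.TensorProduct.productMap_apply_tmul]
  rfl

theorem pd3_r2_tmul (D : RR G K X (Option L') →ₗ[ℂ] RR G K X (Option L'))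
    (a : RR G K X (Option L)) (b : RR G K X (Option L')) :
    r2 D (a ⊗ₜ[ℂ] b) = jL G K X L L' a * jR G K X L L' (D b) := by
  unfold r2 rhoT
  rw [TensorProduct.map_tmul, Algebra.TensorProduct.productMap_apply_tmul]
  rfl

theorem pd3_jL_smul (c : K) (x : RR G K X (Option L)) :
    jL G K X L L' (c • x) = c • jL G K X L L' x := by
  show (AddMonoidAlgebra.mapDomainAlgHom K ((G.pow (L ⊕ L')).KO K) (AddMonoidHom.inl X X))
    ((AddMonoidAlgebra.mapAlgHom X ((pb K (Sum.inl : L → L ⊕ L')).comp (ev1 K))) (c • x)) =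
    c • (AddMonoidAlgebra.mapDomainAlgHom K ((G.pow (L ⊕ L')).KO K) (AddMonoidHom.inl X X))
    ((AddMonoidAlgebra.mapAlgHom X ((pb K (Sum.inl : L → L ⊕ L')).comp (ev1 K))) x)
  rw [map_smul, map_smul]

theorem pd3_jR_smul (c : K) (x : RR G K X (Option L')) :
    jR G K X L L' (c • x) = c • jR G K X L L' x := by
  show (AddMonoidAlgebra.mapDomainAlgHom K ((G.pow (L ⊕ L')).KO K) (AddMonoidHom.inr X X))
    ((AddMonoidAlgebra.mapAlgHom X ((pb K (Sum.inr : L' → L ⊕ L')).comp (ev1 K))) (c • x)) =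
    c • (AddMonoidAlgebra.mapDomainAlgHom K ((G.pow (L ⊕ L')).KO K) (AddMonoidHom.inr X X))
    ((AddMonoidAlgebra.mapAlgHom X ((pb K (Sum.inr : L' → L ⊕ L')).comp (ev1 K))) x)
  rw [map_smul, map_smul]

/-- [MTF-PD3] first part -/
noncomputable def pd3A (P : PD Q)
    (F F' : RR G K X (Option L) ⊗[ℂ] RR G K X (Option L')) :
    AddMonoidAlgebra ((G.pow (L ⊕ L')).KO K) (X × X) :=
  ∑ j, (r1 (P.DN (Option L) j).toLinearMap F * r1 (P.DX (Option L) j).toLinearMap F' -
        r1 (P.DN (Option L) j).toLinearMap F' * r1 (P.DX (Option L) j).toLinearMap F)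

/-- [MTF-PD3] second part -/
noncomputable def pd3B (P : PD Q)
    (F F' : RR G K X (Option L) ⊗[ℂ] RR G K X (Option L')) :
    AddMonoidAlgebra ((G.pow (L ⊕ L')).KO K) (X × X) :=
  ∑ j, (r2 (P.DN (Option L') j).toLinearMap F * r2 (P.DX (Option L') j).toLinearMap F' -
        r2 (P.DN (Option L') j).toLinearMap F' * r2 (P.DX (Option L') j).toLinearMap F)

/-- [MTF-PD3] third part -/
noncomputable def pd3C (P : PD Q) (ε : Option L → Bool)
    (F F' : RR G K X (Option L) ⊗[ℂ] RR G K X (Option L')) :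
    AddMonoidAlgebra ((G.pow (L ⊕ L')).KO K) (X × X) :=
  ∑ l, sgn (ε l) • ∑ a, ∑ b, P.rho a b • (r1 (lAL P ε l a) F * r1 (lAL P ε l b) F')

/-- [MTF-PD3] fourth part -/
noncomputable def pd3E (P : PD Q) (ε' : Option L' → Bool)
    (F F' : RR G K X (Option L) ⊗[ℂ] RR G K X (Option L')) :
    AddMonoidAlgebra ((G.pow (L ⊕ L')).KO K) (X × X) :=
  ∑ l, sgn (ε' l) • ∑ a, ∑ b, P.rho a b • (r2 (lAL P ε' l a) F * r2 (lAL P ε' l b) F')

/-- [MTF-PD3] the right side -/
noncomputable def pd3R (P : PD Q) (ε : Option L → Bool) (ε' : Option L' → Bool)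
    (F F' : RR G K X (Option L) ⊗[ℂ] RR G K X (Option L')) :
    AddMonoidAlgebra ((G.pow (L ⊕ L')).KO K) (X × X) :=
  pd3A P F F' + pd3B P F F' - pd3C P ε F F' - pd3E P ε' F F'

theorem pd3A_left (F F₂ F' : RR G K X (Option L) ⊗[ℂ] RR G K X (Option L')) :
    pd3A P (F + F₂) F' = pd3A P F F' + pd3A P F₂ F' :=
  pd3s_sum_left (S := AddMonoidAlgebra ((G.pow (L ⊕ L')).KO K) (X × X))
    (M := RR G K X (Option L) ⊗[ℂ] RR G K X (Option L')) Finset.univ (fun j => r1 (P.DN (Option L) j).toLinearMap) (fun j => r1 (P.DX (Option L) j).toLinearMap)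
    (fun _ => pd3_r1_add _) (fun _ => pd3_r1_add _) F F₂ F'

theorem pd3A_right (F F' F₂ : RR G K X (Option L) ⊗[ℂ] RR G K X (Option L')) :
    pd3A P F (F' + F₂) = pd3A P F F' + pd3A P F F₂ :=
  pd3s_sum_right (S := AddMonoidAlgebra ((G.pow (L ⊕ L')).KO K) (X × X))
    (M := RR G K X (Option L) ⊗[ℂ] RR G K X (Option L')) Finset.univ (fun j => r1 (P.DN (Option L) j).toLinearMap) (fun j => r1 (P.DX (Option L) j).toLinearMap)
    (fun _ => pd3_r1_add _) (fun _ => pd3_r1_add _) F F' F₂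

theorem pd3B_left (F F₂ F' : RR G K X (Option L) ⊗[ℂ] RR G K X (Option L')) :
    pd3B P (F + F₂) F' = pd3B P F F' + pd3B P F₂ F' :=
  pd3s_sum_left (S := AddMonoidAlgebra ((G.pow (L ⊕ L')).KO K) (X × X))
    (M := RR G K X (Option L) ⊗[ℂ] RR G K X (Option L')) Finset.univ (fun j => r2 (P.DN (Option L') j).toLinearMap) (fun j => r2 (P.DX (Option L') j).toLinearMap)
    (fun _ => pd3_r2_add _) (fun _ => pd3_r2_add _) F F₂ F'

theorem pd3B_right (F F' F₂ : RR G K X (Option L) ⊗[ℂ] RR G K X (Option L')) :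
    pd3B P F (F' + F₂) = pd3B P F F' + pd3B P F F₂ :=
  pd3s_sum_right (S := AddMonoidAlgebra ((G.pow (L ⊕ L')).KO K) (X × X))
    (M := RR G K X (Option L) ⊗[ℂ] RR G K X (Option L')) Finset.univ (fun j => r2 (P.DN (Option L') j).toLinearMap) (fun j => r2 (P.DX (Option L') j).toLinearMap)
    (fun _ => pd3_r2_add _) (fun _ => pd3_r2_add _) F F' F₂

theorem pd3C_left (ε : Option L → Bool)
    (F F₂ F' : RR G K X (Option L) ⊗[ℂ] RR G K X (Option L')) :
    pd3C P ε (F + F₂) F' = pd3C P ε F F' + pd3C P ε F₂ F' :=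
  pd3s_rho_left (S := AddMonoidAlgebra ((G.pow (L ⊕ L')).KO K) (X × X))
    (M := RR G K X (Option L) ⊗[ℂ] RR G K X (Option L')) Finset.univ Finset.univ (fun l => sgn (ε l)) P.rho (fun l a => r1 (lAL P ε l a))
    (fun _ _ => pd3_r1_add _) F F₂ F'

theorem pd3C_right (ε : Option L → Bool)
    (F F' F₂ : RR G K X (Option L) ⊗[ℂ] RR G K X (Option L')) :
    pd3C P ε F (F' + F₂) = pd3C P ε F F' + pd3C P ε F F₂ :=
  pd3s_rho_right (S := AddMonoidAlgebra ((G.pow (L ⊕ L')).KO K) (X × X))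
    (M := RR G K X (Option L) ⊗[ℂ] RR G K X (Option L')) Finset.univ Finset.univ (fun l => sgn (ε l)) P.rho (fun l a => r1 (lAL P ε l a))
    (fun _ _ => pd3_r1_add _) F F' F₂

theorem pd3E_left (ε' : Option L' → Bool)
    (F F₂ F' : RR G K X (Option L) ⊗[ℂ] RR G K X (Option L')) :
    pd3E P ε' (F + F₂) F' = pd3E P ε' F F' + pd3E P ε' F₂ F' :=
  pd3s_rho_left (S := AddMonoidAlgebra ((G.pow (L ⊕ L')).KO K) (X × X))
    (M := RR G K X (Option L) ⊗[ℂ] RR G K X (Option L')) Finset.univ Finset.univ (fun l => sgn (ε' l)) P.rho (fun l a => r2 (lAL P ε' l a))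
    (fun _ _ => pd3_r2_add _) F F₂ F'

theorem pd3E_right (ε' : Option L' → Bool)
    (F F' F₂ : RR G K X (Option L) ⊗[ℂ] RR G K X (Option L')) :
    pd3E P ε' F (F' + F₂) = pd3E P ε' F F' + pd3E P ε' F F₂ :=
  pd3s_rho_right (S := AddMonoidAlgebra ((G.pow (L ⊕ L')).KO K) (X × X))
    (M := RR G K X (Option L) ⊗[ℂ] RR G K X (Option L')) Finset.univ Finset.univ (fun l => sgn (ε' l)) P.rho (fun l a => r2 (lAL P ε' l a))
    (fun _ _ => pd3_r2_add _) F F' F₂

theorem pd3R_add_left (ε : Option L → Bool) (ε' : Option L' → Bool)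
    (F F₂ F' : RR G K X (Option L) ⊗[ℂ] RR G K X (Option L')) :
    pd3R P ε ε' (F + F₂) F' = pd3R P ε ε' F F' + pd3R P ε ε' F₂ F' := by
  unfold pd3R
  rw [pd3A_left, pd3B_left, pd3C_left, pd3E_left]
  exact pd3s_four (S := AddMonoidAlgebra ((G.pow (L ⊕ L')).KO K) (X × X)) _ _ _ _ _ _ _ _

theorem pd3R_add_right (ε : Option L → Bool) (ε' : Option L' → Bool)
    (F F' F₂ : RR G K X (Option L) ⊗[ℂ] RR G K X (Option L')) :
    pd3R P ε ε' F (F' + F₂) = pd3R P ε ε' F F' + pd3R P ε ε' F F₂ := by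
  unfold pd3R
  rw [pd3A_right, pd3B_right, pd3C_right, pd3E_right]
  exact pd3s_four (S := AddMonoidAlgebra ((G.pow (L ⊕ L')).KO K) (X × X)) _ _ _ _ _ _ _ _

theorem pd3_jL_br (ε : Option L → Bool) (x x' : RR G K X (Option L)) :
    jL G K X L L' (P.br ε x x') =
      ∑ j, (jL G K X L L' (P.DN (Option L) j x) * jL G K X L L' (P.DX (Option L) j x') -
        jL G K X L L' (P.DN (Option L) j x') * jL G K X L L' (P.DX (Option L) j x)) -
      ∑ l, sgn (ε l) • ∑ a, ∑ b, P.rho a b •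
        (jL G K X L L' (P.AL ε l a x) * jL G K X L L' (P.AL ε l b x')) := by
  unfold PD.br
  simp only [map_sub, map_sum, map_mul, map_zsmul, pd3_jL_smul]

theorem pd3_jR_br (ε : Option L' → Bool) (x x' : RR G K X (Option L')) :
    jR G K X L L' (P.br ε x x') =
      ∑ j, (jR G K X L L' (P.DN (Option L') j x) * jR G K X L L' (P.DX (Option L') j x') -
        jR G K X L L' (P.DN (Option L') j x') * jR G K X L L' (P.DX (Option L') j x)) -
      ∑ l, sgn (ε l) • ∑ a, ∑ b, P.rho a b •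
        (jR G K X L L' (P.AL ε l a x) * jR G K X L L' (P.AL ε l b x')) := by
  unfold PD.br
  simp only [map_sub, map_sum, map_mul, map_zsmul, pd3_jR_smul]

theorem pd3_tmul (ε : Option L → Bool) (ε' : Option L' → Bool)
    (a a' : RR G K X (Option L)) (b b' : RR G K X (Option L')) :
    rhoT G K X L L' (tbL P ε ε' (a ⊗ₜ[ℂ] b) (a' ⊗ₜ[ℂ] b')) =
      pd3R P ε ε' (a ⊗ₜ[ℂ] b) (a' ⊗ₜ[ℂ] b') := by
  have h1 : tbL P ε ε' (a ⊗ₜ[ℂ] b) (a' ⊗ₜ[ℂ] b') =
      P.br ε a a' ⊗ₜ[ℂ] (b * b') + (a * a') ⊗ₜ[ℂ] P.br ε' b b' := rfl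
  have h2 : ∀ (x : RR G K X (Option L)) (y : RR G K X (Option L')),
      rhoT G K X L L' (x ⊗ₜ[ℂ] y) = jL G K X L L' x * jR G K X L L' y := by
    intro x y
    unfold rhoT
    rw [Algebra.TensorProduct.productMap_apply_tmul]
  rw [h1, map_add, h2, h2, pd3_jL_br, pd3_jR_br, map_mul, map_mul]
  unfold pd3R pd3A pd3B pd3C pd3E
  simp only [pd3_r1_tmul, pd3_r2_tmul]
  have hL : ∀ (l : Option L) (c : Fin Q.r) (x : RR G K X (Option L)),
      lAL P ε l c x = P.AL ε l c x := fun _ _ _ => rfl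
  have hR : ∀ (l : Option L') (c : Fin Q.r) (x : RR G K X (Option L')),
      lAL P ε' l c x = P.AL ε' l c x := fun _ _ _ => rfl
  have hN : ∀ j (x : RR G K X (Option L)),
      (P.DN (Option L) j).toLinearMap x = P.DN (Option L) j x := fun _ _ => rfl
  have hX : ∀ j (x : RR G K X (Option L)),
      (P.DX (Option L) j).toLinearMap x = P.DX (Option L) j x := fun _ _ => rfl
  have hN' : ∀ j (x : RR G K X (Option L')),
      (P.DN (Option L') j).toLinearMap x = P.DN (Option L') j x := fun _ _ => rfl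
  have hX' : ∀ j (x : RR G K X (Option L')),
      (P.DX (Option L') j).toLinearMap x = P.DX (Option L') j x := fun _ _ => rfl
  simp only [hL, hR, hN, hX, hN', hX']
  have e1 := pd3s_e1 (S := AddMonoidAlgebra ((G.pow (L ⊕ L')).KO K) (X × X)) Finset.univ
    (fun j => jL G K X L L' (P.DN (Option L) j a)) (fun j => jL G K X L L' (P.DX (Option L) j a'))
    (fun j => jL G K X L L' (P.DN (Option L) j a')) (fun j => jL G K X L L' (P.DX (Option L) j a))
    (jR G K X L L' b) (jR G K X L L' b')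
  have e2 := pd3s_e2 (K := K) (S := AddMonoidAlgebra ((G.pow (L ⊕ L')).KO K) (X × X)) Finset.univ Finset.univ
    (fun l => sgn (ε l)) P.rho (fun l c => jL G K X L L' (P.AL ε l c a)) (fun l d => jL G K X L L' (P.AL ε l d a'))
    (jR G K X L L' b) (jR G K X L L' b')
  have e3 := pd3s_e3 (S := AddMonoidAlgebra ((G.pow (L ⊕ L')).KO K) (X × X)) Finset.univ
    (fun j => jR G K X L L' (P.DN (Option L') j b)) (fun j => jR G K X L L' (P.DX (Option L') j b'))
    (fun j => jR G K X L L' (P.DN (Option L') j b')) (fun j => jR G K X L L' (P.DX (Option L') j b))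
    (jL G K X L L' a) (jL G K X L L' a')
  have e4 := pd3s_e4 (K := K) (S := AddMonoidAlgebra ((G.pow (L ⊕ L')).KO K) (X × X)) Finset.univ Finset.univ
    (fun l => sgn (ε' l)) P.rho (fun l c => jR G K X L L' (P.AL ε' l c b)) (fun l d => jR G K X L L' (P.AL ε' l d b'))
    (jL G K X L L' a) (jL G K X L L' a')
  exact pd3s_fin (S := AddMonoidAlgebra ((G.pow (L ⊕ L')).KO K) (X × X)) e1 e3 e2 e4

/-- [MTF-PD3] The restricted product bracket.
PROOF. Both sides are bilinear in `(F, F')` (each `r1 D`, `r2 D` is linear): `TensorProduct.induction_on` twice; on pure tensors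
`tbL (a ⊗ b) (a' ⊗ b') = br a a' ⊗ (b b') + (a a') ⊗ br b b'`, `rhoT (x ⊗ y) = jL x * jR y` with `jL`, `jR` `ℂ`-algebra homomorphisms (`K`-linear as well: `rhoT ((c • x) ⊗ y) = c • rhoT (x ⊗ y)`
for `c : K`), and the definition of `PD.br`. -/
theorem rhoT_tbL (ε : Option L → Bool) (ε' : Option L' → Bool)
    (F F' : RR G K X (Option L) ⊗[ℂ] RR G K X (Option L')) :
    rhoT G K X L L' (tbL P ε ε' F F') =
      (∑ j, (r1 (P.DN (Option L) j).toLinearMap F * r1 (P.DX (Option L) j).toLinearMap F' -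
        r1 (P.DN (Option L) j).toLinearMap F' * r1 (P.DX (Option L) j).toLinearMap F)) +
      (∑ j, (r2 (P.DN (Option L') j).toLinearMap F * r2 (P.DX (Option L') j).toLinearMap F' -
        r2 (P.DN (Option L') j).toLinearMap F' * r2 (P.DX (Option L') j).toLinearMap F)) -
      (∑ l, sgn (ε l) • ∑ a, ∑ b, P.rho a b • (r1 (lAL P ε l a) F * r1 (lAL P ε l b) F')) -
      ∑ l, sgn (ε' l) • ∑ a, ∑ b, P.rho a b • (r2 (lAL P ε' l a) F * r2 (lAL P ε' l b) F') := by
  show rhoT G K X L L' (tbL P ε ε' F F') = pd3R P ε ε' F F'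
  have hz1 : ∀ F' : RR G K X (Option L) ⊗[ℂ] RR G K X (Option L'), pd3R P ε ε' 0 F' = 0 := by
    intro F'
    have h := pd3R_add_left (P := P) ε ε' 0 0 F'
    rw [add_zero] at h
    exact left_eq_add.1 h
  have hz2 : ∀ F : RR G K X (Option L) ⊗[ℂ] RR G K X (Option L'), pd3R P ε ε' F 0 = 0 := by
    intro F
    have h := pd3R_add_right (P := P) ε ε' F 0 0
    rw [add_zero] at h
    exact left_eq_add.1 h
  induction F using TensorProduct.induction_on with
  | zero => rw [hz1, map_zero, LinearMap.zero_apply, map_zero]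
  | add A B hA hB => rw [pd3R_add_left, ← hA, ← hB, map_add, LinearMap.add_apply, map_add]
  | tmul a b =>
    induction F' using TensorProduct.induction_on with
    | zero => rw [hz2, map_zero, map_zero]
    | add A B hA hB => rw [pd3R_add_right, ← hA, ← hB, map_add, map_add]
    | tmul a' b' => exact pd3_tmul ε ε' a a' b b'

end

end Pool.Agent.MTF
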