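import Pool.Agent.MTF.PD3
import Pool.Agent.MTF.LB3

/-! # MTF, part P : the product bracket restricted to two legs of two surfaces, ingredients -/

set_option linter.unusedSectionVars false

namespace Pool.Agent.MTF

attribute [-instance] NormedSpace.toModule NormedAlgebra.toAlgebra

open AffGrp

section pd4s
variable {G : AffGrp} {K X : Type} [Field K] [Algebra ℂ K] {L : Type} [Fintype L] {L' : Type} [Fintype L']

theorem pd4s_S1 (m m' : X) (k : L ⊕ L' → G.X) (a a' : RR G K X (Option L)) (b : RR G K X (Option L')) :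
    LP.slN (k ∘ Sum.inl) ((a + a').coeff m) * LP.slN (k ∘ Sum.inr) (b.coeff m') =
      LP.slN (k ∘ Sum.inl) (a.coeff m) * LP.slN (k ∘ Sum.inr) (b.coeff m') +
        LP.slN (k ∘ Sum.inl) (a'.coeff m) * LP.slN (k ∘ Sum.inr) (b.coeff m') :=
  KO_ext fun _ => add_mul (R := K) _ _ _

theorem pd4s_S2 (m m' : X) (k : L ⊕ L' → G.X) (c : ℂ) (a : RR G K X (Option L)) (b : RR G K X (Option L')) :
    LP.slN (k ∘ Sum.inl) ((c • a).coeff m) * LP.slN (k ∘ Sum.inr) (b.coeff m') =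
      c • (LP.slN (k ∘ Sum.inl) (a.coeff m) * LP.slN (k ∘ Sum.inr) (b.coeff m')) :=
  KO_ext fun y => smul_mul_assoc c ((a.coeff m).1 (optP y (k ∘ Sum.inl))) ((b.coeff m').1 (optP y (k ∘ Sum.inr)))

theorem pd4s_S3 (m m' : X) (k : L ⊕ L' → G.X) (a : RR G K X (Option L)) (b b' : RR G K X (Option L')) :
    LP.slN (k ∘ Sum.inl) (a.coeff m) * LP.slN (k ∘ Sum.inr) ((b + b').coeff m') =
      LP.slN (k ∘ Sum.inl) (a.coeff m) * LP.slN (k ∘ Sum.inr) (b.coeff m') +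
        LP.slN (k ∘ Sum.inl) (a.coeff m) * LP.slN (k ∘ Sum.inr) (b'.coeff m') :=
  KO_ext fun _ => mul_add (R := K) _ _ _

theorem pd4s_S4 (m m' : X) (k : L ⊕ L' → G.X) (c : ℂ) (a : RR G K X (Option L)) (b : RR G K X (Option L')) :
    LP.slN (k ∘ Sum.inl) (a.coeff m) * LP.slN (k ∘ Sum.inr) ((c • b).coeff m') =
      c • (LP.slN (k ∘ Sum.inl) (a.coeff m) * LP.slN (k ∘ Sum.inr) (b.coeff m')) :=
  KO_ext fun y => mul_smul_comm c ((a.coeff m).1 (optP y (k ∘ Sum.inl))) ((b.coeff m').1 (optP y (k ∘ Sum.inr)))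

end pd4s

section
variable {G : AffGrp} {K W X : Type} [Field K] [Algebra ℂ K] [Group W] [Fintype W]
  [MulSemiringAction W K] [SMulCommClass W ℂ K] [AddCommGroup X] [DistribMulAction W X]
variable {Q : TQD G K W X}
variable {P : PD Q}
variable {L : Type} [Fintype L] [DecidableEq L]

open TensorProduct

variable {L' : Type} [Fintype L'] [DecidableEq L']

/-- the value at a point, as a linear map -/
def pd4_ev {H : AffGrp} (x : H.X) : H.KO K →ₗ[K] K where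
  toFun F := F.1 x
  map_add' _ _ := rfl
  map_smul' _ _ := rfl

theorem pd4_zsmul {H : AffGrp} (z : ℤ) (F : H.KO K) (x : H.X) : (z • F).1 x = z • F.1 x :=
  map_zsmul (pd4_ev (K := K) x) z F

theorem pd4_pb {I J : Type} [Finite I] [Finite J] (u : I → J) (F : (G.pow I).KO K) :
    pb K u F = LP.pb u F := KO_ext fun _ => rfl

theorem pd4_r1_add (D : RR G K X (Option L) →ₗ[ℂ] RR G K X (Option L))
    (F F' : RR G K X (Option L) ⊗[ℂ] RR G K X (Option L')) : r1 D (F + F') = r1 D F + r1 D F' :=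
  pd3_r1_add D F F'

theorem pd4_r2_add (D : RR G K X (Option L') →ₗ[ℂ] RR G K X (Option L'))
    (F F' : RR G K X (Option L) ⊗[ℂ] RR G K X (Option L')) : r2 D (F + F') = r2 D F + r2 D F' :=
  pd3_r2_add D F F'

theorem pd4_r1_zero (D : RR G K X (Option L) →ₗ[ℂ] RR G K X (Option L)) :
    r1 D (0 : RR G K X (Option L) ⊗[ℂ] RR G K X (Option L')) = 0 :=
  (congrArg (rhoT G K X L L') (LinearMap.map_zero (TensorProduct.map D LinearMap.id))).trans
    (rhoT G K X L L').map_zero'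

theorem pd4_r2_zero (D : RR G K X (Option L') →ₗ[ℂ] RR G K X (Option L')) :
    r2 D (0 : RR G K X (Option L) ⊗[ℂ] RR G K X (Option L')) = 0 :=
  (congrArg (rhoT G K X L L') (LinearMap.map_zero (TensorProduct.map LinearMap.id D))).trans
    (rhoT G K X L L').map_zero'

/-- induction on the level of values -/
theorem pd4s_ind {A B : Type} [AddCommMonoid A] [Module ℂ A] [AddCommMonoid B] [Module ℂ B]
    {φ ψ : A ⊗[ℂ] B → K} (h0 : φ 0 = 0) (h0' : ψ 0 = 0)
    (hφ : ∀ F F', φ (F + F') = φ F + φ F') (hψ : ∀ F F', ψ (F + F') = ψ F + ψ F')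
    (ht : ∀ a b, φ (a ⊗ₜ[ℂ] b) = ψ (a ⊗ₜ[ℂ] b)) (F : A ⊗[ℂ] B) : φ F = ψ F := by
  induction F using TensorProduct.induction_on with
  | zero => rw [h0, h0']
  | tmul x y => exact ht x y
  | add x y hx hy => rw [hφ, hψ, hx, hy]

theorem pd4s_r1_zero (D : RR G K X (Option L) →ₗ[ℂ] RR G K X (Option L)) (m m' : X) (k : L ⊕ L' → G.X) :
    ((r1 D (0 : RR G K X (Option L) ⊗[ℂ] RR G K X (Option L'))).coeff (m, m')).1 k = 0 :=
  (congrArg (fun z : AddMonoidAlgebra ((G.pow (L ⊕ L')).KO K) (X × X) => (z.coeff (m, m')).1 k) (pd4_r1_zero D)).trans rfl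

theorem pd4s_r2_zero (D : RR G K X (Option L') →ₗ[ℂ] RR G K X (Option L')) (m m' : X) (k : L ⊕ L' → G.X) :
    ((r2 D (0 : RR G K X (Option L) ⊗[ℂ] RR G K X (Option L'))).coeff (m, m')).1 k = 0 :=
  (congrArg (fun z : AddMonoidAlgebra ((G.pow (L ⊕ L')).KO K) (X × X) => (z.coeff (m, m')).1 k) (pd4_r2_zero D)).trans rfl

theorem pd4s_r1_add (D : RR G K X (Option L) →ₗ[ℂ] RR G K X (Option L)) (m m' : X) (k : L ⊕ L' → G.X)
    (F F' : RR G K X (Option L) ⊗[ℂ] RR G K X (Option L')) :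
    ((r1 D (F + F')).coeff (m, m')).1 k = ((r1 D F).coeff (m, m')).1 k + ((r1 D F').coeff (m, m')).1 k :=
  (congrArg (fun z : AddMonoidAlgebra ((G.pow (L ⊕ L')).KO K) (X × X) => (z.coeff (m, m')).1 k) (pd4_r1_add D F F')).trans rfl

theorem pd4s_r2_add (D : RR G K X (Option L') →ₗ[ℂ] RR G K X (Option L')) (m m' : X) (k : L ⊕ L' → G.X)
    (F F' : RR G K X (Option L) ⊗[ℂ] RR G K X (Option L')) :
    ((r2 D (F + F')).coeff (m, m')).1 k = ((r2 D F).coeff (m, m')).1 k + ((r2 D F').coeff (m, m')).1 k :=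
  (congrArg (fun z : AddMonoidAlgebra ((G.pow (L ⊕ L')).KO K) (X × X) => (z.coeff (m, m')).1 k) (pd4_r2_add D F F')).trans rfl

theorem pd4s_rho_zero (m m' : X) :
    (rhoT G K X L L' (0 : RR G K X (Option L) ⊗[ℂ] RR G K X (Option L'))).coeff (m, m') = 0 :=
  (congrArg (fun z : AddMonoidAlgebra ((G.pow (L ⊕ L')).KO K) (X × X) => z.coeff (m, m')) (rhoT G K X L L').map_zero').trans rfl

theorem pd4s_rho_add (m m' : X) (F F' : RR G K X (Option L) ⊗[ℂ] RR G K X (Option L')) :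
    (rhoT G K X L L' (F + F')).coeff (m, m') =
      (rhoT G K X L L' F).coeff (m, m') + (rhoT G K X L L' F').coeff (m, m') :=
  (congrArg (fun z : AddMonoidAlgebra ((G.pow (L ⊕ L')).KO K) (X × X) => z.coeff (m, m')) ((rhoT G K X L L').map_add' F F')).trans rfl

theorem pd4s_der_zero {H : AffGrp} (D : H.Lie) (x : H.X) : (derK K D (0 : H.KO K)).1 x = 0 :=
  (congrArg (fun z : H.KO K => z.1 x) (LinearMap.map_zero (derK K D))).trans rfl

theorem pd4s_der_add {H : AffGrp} (D : H.Lie) (A B : H.KO K) (x : H.X) :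
    (derK K D (A + B)).1 x = (derK K D A).1 x + (derK K D B).1 x :=
  (congrArg (fun z : H.KO K => z.1 x) (LinearMap.map_add (derK K D) A B)).trans rfl

theorem pd4s_sum {n : ℕ} (z : ℤ) (c : Fin n → K) (d a b a' b' : K) (h : d = a - z • ∑ j, c j * b)
    {d' : K} (h' : d' = a' - z • ∑ j, c j * b') :
    d + d' = (a + a') - z • ∑ j, c j * (b + b') := by
  rw [h, h']
  simp only [mul_add, Finset.sum_add_distrib, smul_add]
  ring

theorem pd4_r1_tmul (D : RR G K X (Option L) →ₗ[ℂ] RR G K X (Option L))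
    (a : RR G K X (Option L)) (b : RR G K X (Option L')) (m m' : X) (k : L ⊕ L' → G.X) :
    ((r1 D (a ⊗ₜ[ℂ] b)).coeff (m, m')).1 k =
      ((D a).coeff m).1 (optP 1 (k ∘ Sum.inl)) * (b.coeff m').1 (optP 1 (k ∘ Sum.inr)) := by
  unfold r1
  rw [TensorProduct.map_tmul]
  exact rhoT_coeff _ _ m m' k

theorem pd4_r2_tmul (D : RR G K X (Option L') →ₗ[ℂ] RR G K X (Option L'))
    (a : RR G K X (Option L)) (b : RR G K X (Option L')) (m m' : X) (k : L ⊕ L' → G.X) :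
    ((r2 D (a ⊗ₜ[ℂ] b)).coeff (m, m')).1 k =
      (a.coeff m).1 (optP 1 (k ∘ Sum.inl)) * ((D b).coeff m').1 (optP 1 (k ∘ Sum.inr)) := by
  unfold r2
  rw [TensorProduct.map_tmul]
  exact rhoT_coeff _ _ m m' k

theorem pd4_rho (a : RR G K X (Option L)) (b : RR G K X (Option L')) (m m' : X) :
    (rhoT G K X L L' (a ⊗ₜ[ℂ] b)).coeff (m, m') =
      pb K Sum.inl (ev1 K (a.coeff m)) * pb K Sum.inr (ev1 K (b.coeff m')) := by
  apply KO_ext
  intro k
  rw [rhoT_coeff]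
  rfl

theorem pd4_derL (D : G.Lie) (l : L) (a : RR G K X (Option L)) (b : RR G K X (Option L'))
    (m m' : X) (k : L ⊕ L' → G.X) :
    (derK K (emb (Sum.inl l) D) ((rhoT G K X L L' (a ⊗ₜ[ℂ] b)).coeff (m, m'))).1 k =
      (derK K (emb (some l) D) (a.coeff m)).1 (optP 1 (k ∘ Sum.inl)) *
        (b.coeff m').1 (optP 1 (k ∘ Sum.inr)) := by
  rw [pd4_rho, derK_leib, pd4_pb, pd4_pb, LP.derK_pb Sum.inl_injective,
    LP.derK_pb_out (fun i => Sum.inr_ne_inl), mul_zero, zero_add, derK_ev1, KO_mul, mul_comm]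
  rfl

theorem pd4_derR (D : G.Lie) (l : L') (a : RR G K X (Option L)) (b : RR G K X (Option L'))
    (m m' : X) (k : L ⊕ L' → G.X) :
    (derK K (emb (Sum.inr l) D) ((rhoT G K X L L' (a ⊗ₜ[ℂ] b)).coeff (m, m'))).1 k =
      (a.coeff m).1 (optP 1 (k ∘ Sum.inl)) *
        (derK K (emb (some l) D) (b.coeff m')).1 (optP 1 (k ∘ Sum.inr)) := by
  rw [pd4_rho, derK_leib, pd4_pb, pd4_pb, LP.derK_pb Sum.inr_injective,
    LP.derK_pb_out (fun i => Sum.inl_ne_inr), mul_zero, add_zero, derK_ev1, KO_mul]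
  rfl

theorem pd4s_AL0 (ε : L → Bool) (l : L) (a : Fin Q.r) (F : RR G K X L) (m : X) :
    (P.AL ε l a F).coeff m = (PD.DL (Q := Q) l a F).coeff m -
      sgn (ε l) • ∑ j, P.sig j a • (P.DN L j F).coeff m := by
  unfold PD.AL
  rw [AddMonoidAlgebra.coeff_sub, Finsupp.sub_apply, AddMonoidAlgebra.coeff_smul,
    Finsupp.smul_apply, AddMonoidAlgebra.coeff_sum, Finsupp.finsetSum_apply]
  rfl

theorem pd4_AL (ε : L → Bool) (l : L) (a : Fin Q.r) (F : RR G K X L) (m : X) (x : L → G.X) :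
    ((P.AL ε l a F).coeff m).1 x = (derK K (emb l (Q.D a)) (F.coeff m)).1 x -
      sgn (ε l) • ∑ j, (P.sig j a * ((P.cd j m : ℤ) : K)) * (F.coeff m).1 x := by
  rw [pd4s_AL0, KO_sub, pd4_zsmul, KO_sum, DL_coeff]
  congr 2
  refine Finset.sum_congr rfl fun j _ => ?_
  rw [DN_coeff, KO_smul, KO_smul, mul_assoc]

/-- the value in the legs `none`, as a function on `G` -/
noncomputable def pd4_S (m m' : X) (k : L ⊕ L' → G.X) :
    RR G K X (Option L) ⊗[ℂ] RR G K X (Option L') →ₗ[ℂ] G.KO K :=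
  TensorProduct.lift (LinearMap.mk₂ ℂ (fun (a : RR G K X (Option L)) (b : RR G K X (Option L')) =>
    LP.slN (k ∘ Sum.inl) (a.coeff m) * LP.slN (k ∘ Sum.inr) (b.coeff m'))
    (pd4s_S1 m m' k) (pd4s_S2 m m' k) (pd4s_S3 m m' k) (pd4s_S4 m m' k))

theorem pd4_S_tmul (m m' : X) (k : L ⊕ L' → G.X) (a : RR G K X (Option L))
    (b : RR G K X (Option L')) : pd4_S m m' k (a ⊗ₜ[ℂ] b) =
      LP.slN (k ∘ Sum.inl) (a.coeff m) * LP.slN (k ∘ Sum.inr) (b.coeff m') := rfl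

theorem pd4_derN {I : Type} [Finite I] [DecidableEq I] (D : G.Lie) (A : (G.pow (Option I)).KO K)
    (k : I → G.X) (h : G.X) :
    (derK K D (LP.slN k A)).1 h = (derK K (emb none D) A).1 (optP h k) := by
  rw [derK_emb]
  have h1 : sl K (optP h k) none A = LP.slN k A := by
    apply KO_ext
    intro h'
    rw [sl_apply, LP.slN_apply]
    refine congrArg A.1 ?_
    funext i
    cases i with
    | none => simp [optP]
    | some i => simp [optP]
  rw [h1]
  rfl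

theorem pd4s_Sz (a : Fin Q.r) (m m' : X) (k : L ⊕ L' → G.X) :
    (derK K (Q.D a) (pd4_S m m' k (0 : RR G K X (Option L) ⊗[ℂ] RR G K X (Option L')))).1 1 = 0 :=
  (congrArg (fun z : G.KO K => (derK K (Q.D a) z).1 1) (LinearMap.map_zero (pd4_S m m' k))).trans
    (pd4s_der_zero _ _)

theorem pd4s_Sa (a : Fin Q.r) (m m' : X) (k : L ⊕ L' → G.X)
    (F F' : RR G K X (Option L) ⊗[ℂ] RR G K X (Option L')) :
    (derK K (Q.D a) (pd4_S m m' k (F + F'))).1 1 = (derK K (Q.D a) (pd4_S m m' k F)).1 1 +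
      (derK K (Q.D a) (pd4_S m m' k F')).1 1 :=
  (congrArg (fun z : G.KO K => (derK K (Q.D a) z).1 1) (LinearMap.map_add (pd4_S m m' k) F F')).trans
    (pd4s_der_add _ _ _ _)

theorem pd4s_St (a : Fin Q.r) (m m' : X) (k : L ⊕ L' → G.X) (x : RR G K X (Option L))
    (y : RR G K X (Option L')) :
    ((PD.DL (Q := Q) none a x).coeff m).1 (optP 1 (k ∘ Sum.inl)) * (y.coeff m').1 (optP 1 (k ∘ Sum.inr)) +
      (x.coeff m).1 (optP 1 (k ∘ Sum.inl)) * ((PD.DL (Q := Q) none a y).coeff m').1 (optP 1 (k ∘ Sum.inr)) =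
      (derK K (Q.D a) (LP.slN (k ∘ Sum.inl) (x.coeff m) * LP.slN (k ∘ Sum.inr) (y.coeff m'))).1 1 := by
  rw [derK_leib, KO_add, KO_mul, KO_mul, pd4_derN, pd4_derN, LP.slN_apply, LP.slN_apply, DL_coeff,
    DL_coeff, add_comm, mul_comm ((derK K (emb none (Q.D a)) (x.coeff m)).1 _)]

theorem pd4_S_der (a : Fin Q.r) (m m' : X) (k : L ⊕ L' → G.X)
    (F : RR G K X (Option L) ⊗[ℂ] RR G K X (Option L')) :
    ((r1 (PD.DL (Q := Q) none a).toLinearMap F).coeff (m, m')).1 k +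
      ((r2 (PD.DL (Q := Q) none a).toLinearMap F).coeff (m, m')).1 k =
      (derK K (Q.D a) (pd4_S m m' k F)).1 1 := by
  refine pd4s_ind
    (φ := fun F => ((r1 (PD.DL (Q := Q) none a).toLinearMap F).coeff (m, m')).1 k +
      ((r2 (PD.DL (Q := Q) none a).toLinearMap F).coeff (m, m')).1 k)
    (ψ := fun F => (derK K (Q.D a) (pd4_S m m' k F)).1 1) ?_ ?_ ?_ ?_ ?_ F
  · show ((r1 _ 0).coeff (m, m')).1 k + ((r2 _ 0).coeff (m, m')).1 k = 0
    rw [pd4s_r1_zero, pd4s_r2_zero, add_zero]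
  · exact pd4s_Sz a m m' k
  · intro x y
    show ((r1 _ (x + y)).coeff (m, m')).1 k + ((r2 _ (x + y)).coeff (m, m')).1 k = _ + _
    rw [pd4s_r1_add, pd4s_r2_add]
    exact add_add_add_comm _ _ _ _
  · exact pd4s_Sa a m m' k
  · intro x y
    show ((r1 _ (x ⊗ₜ[ℂ] y)).coeff (m, m')).1 k + ((r2 _ (x ⊗ₜ[ℂ] y)).coeff (m, m')).1 k =
      (derK K (Q.D a) (pd4_S m m' k (x ⊗ₜ[ℂ] y))).1 1
    rw [pd4_r1_tmul, pd4_r2_tmul]
    exact pd4s_St a m m' k x y

theorem pd4_S_act (m m' : X) (k : L ⊕ L' → G.X) (x y : G.X)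
    (F : RR G K X (Option L) ⊗[ℂ] RR G K X (Option L')) :
    (pd4_S m m' k (TensorProduct.map (((gact (pt1 x) : RR G K X (Option L) →ₐ[K] RR G K X (Option L)).toLinearMap).restrictScalars ℂ)
      (((gact (pt1 x) : RR G K X (Option L') →ₐ[K] RR G K X (Option L')).toLinearMap).restrictScalars ℂ) F)).1 y =
      (pd4_S m m' k F).1 (x⁻¹ * y) := by
  induction F using TensorProduct.induction_on with
  | zero =>
    rw [map_zero, map_zero]
    rfl
  | tmul a b =>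
    rw [TensorProduct.map_tmul]
    show (LP.slN (k ∘ Sum.inl) ((gact (pt1 x) a).coeff m)).1 y *
      (LP.slN (k ∘ Sum.inr) ((gact (pt1 x) b).coeff m')).1 y =
      (LP.slN (k ∘ Sum.inl) (a.coeff m)).1 (x⁻¹ * y) * (LP.slN (k ∘ Sum.inr) (b.coeff m')).1 (x⁻¹ * y)
    rw [LP.slN_apply, LP.slN_apply, LP.slN_apply, LP.slN_apply, gact_apply, gact_apply]
    have e : ∀ {I : Type} (k : I → G.X), (pt1 x)⁻¹ * optP y k = optP (x⁻¹ * y) k := by
      intro I k
      funext o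
      cases o with
      | none => rfl
      | some i =>
        show (1 : G.X)⁻¹ * k i = k i
        rw [inv_one, one_mul]
    rw [e, e]
  | add a b ha hb =>
    rw [map_add, map_add, map_add, KO_add, KO_add, ha, hb]

theorem pd4s_mz (c : K) (m m' : X) (k : L ⊕ L' → G.X) :
    c * ((rhoT G K X L L' (0 : RR G K X (Option L) ⊗[ℂ] RR G K X (Option L'))).coeff (m, m')).1 k = 0 :=
  (congrArg (fun z : (G.pow (L ⊕ L')).KO K => c * z.1 k) (pd4s_rho_zero m m')).trans (mul_zero c)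

theorem pd4s_ma (c : K) (m m' : X) (k : L ⊕ L' → G.X)
    (F F' : RR G K X (Option L) ⊗[ℂ] RR G K X (Option L')) :
    c * ((rhoT G K X L L' (F + F')).coeff (m, m')).1 k =
      c * ((rhoT G K X L L' F).coeff (m, m')).1 k + c * ((rhoT G K X L L' F').coeff (m, m')).1 k :=
  (congrArg (fun z : (G.pow (L ⊕ L')).KO K => c * z.1 k) (pd4s_rho_add m m' F F')).trans (mul_add c _ _)

/-- [MTF-PD4] PROOF. linear in `F`; pure tensors: `rhoT_coeff`. -/
theorem r1_DN (j : Fin P.n) (F : RR G K X (Option L) ⊗[ℂ] RR G K X (Option L')) (m m' : X) :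
    (r1 (P.DN (Option L) j).toLinearMap F).coeff (m, m') =
      ((P.cd j m : ℤ) : K) • (rhoT G K X L L' F).coeff (m, m') := by
  refine KO_ext fun k => pd4s_ind
    (φ := fun F => ((r1 (P.DN (Option L) j).toLinearMap F).coeff (m, m')).1 k)
    (ψ := fun F => ((P.cd j m : ℤ) : K) * ((rhoT G K X L L' F).coeff (m, m')).1 k) ?_ ?_ ?_ ?_ ?_ F
  · exact pd4s_r1_zero _ m m' k
  · exact pd4s_mz _ m m' k
  · exact fun F F' => pd4s_r1_add _ m m' k F F'
  · exact pd4s_ma _ m m' k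
  · intro x y
    show ((r1 (P.DN (Option L) j).toLinearMap (x ⊗ₜ[ℂ] y)).coeff (m, m')).1 k =
      ((P.cd j m : ℤ) : K) * ((rhoT G K X L L' (x ⊗ₜ[ℂ] y)).coeff (m, m')).1 k
    rw [pd4_r1_tmul, rhoT_coeff]
    show ((P.DN (Option L) j x).coeff m).1 _ * _ = _
    rw [DN_coeff, KO_smul, mul_assoc]

theorem r2_DN (j : Fin P.n) (F : RR G K X (Option L) ⊗[ℂ] RR G K X (Option L')) (m m' : X) :
    (r2 (P.DN (Option L') j).toLinearMap F).coeff (m, m') =
      ((P.cd j m' : ℤ) : K) • (rhoT G K X L L' F).coeff (m, m') := by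
  refine KO_ext fun k => pd4s_ind
    (φ := fun F => ((r2 (P.DN (Option L') j).toLinearMap F).coeff (m, m')).1 k)
    (ψ := fun F => ((P.cd j m' : ℤ) : K) * ((rhoT G K X L L' F).coeff (m, m')).1 k) ?_ ?_ ?_ ?_ ?_ F
  · exact pd4s_r2_zero _ m m' k
  · exact pd4s_mz _ m m' k
  · exact fun F F' => pd4s_r2_add _ m m' k F F'
  · exact pd4s_ma _ m m' k
  · intro x y
    show ((r2 (P.DN (Option L') j).toLinearMap (x ⊗ₜ[ℂ] y)).coeff (m, m')).1 k =
      ((P.cd j m' : ℤ) : K) * ((rhoT G K X L L' (x ⊗ₜ[ℂ] y)).coeff (m, m')).1 k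
    rw [pd4_r2_tmul, rhoT_coeff]
    show _ * ((P.DN (Option L') j y).coeff m').1 _ = _
    rw [DN_coeff, KO_smul, mul_left_comm]

/-- [MTF-PD4] PROOF. pure tensors, Leibniz rule of `dd j` for the product of the two values. -/
theorem r12_DX (j : Fin P.n) (F : RR G K X (Option L) ⊗[ℂ] RR G K X (Option L')) (m m' : X) (k : L ⊕ L' → G.X) :
    ((r1 (P.DX (Option L) j).toLinearMap F).coeff (m, m')).1 k +
      ((r2 (P.DX (Option L') j).toLinearMap F).coeff (m, m')).1 k =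
      P.dd j (((rhoT G K X L L' F).coeff (m, m')).1 k) := by
  refine pd4s_ind
    (φ := fun F => ((r1 (P.DX (Option L) j).toLinearMap F).coeff (m, m')).1 k +
      ((r2 (P.DX (Option L') j).toLinearMap F).coeff (m, m')).1 k)
    (ψ := fun F => P.dd j (((rhoT G K X L L' F).coeff (m, m')).1 k)) ?_ ?_ ?_ ?_ ?_ F
  · show ((r1 _ 0).coeff (m, m')).1 k + ((r2 _ 0).coeff (m, m')).1 k = 0
    rw [pd4s_r1_zero, pd4s_r2_zero, add_zero]
  · exact (congrArg (fun z : (G.pow (L ⊕ L')).KO K => P.dd j (z.1 k)) (pd4s_rho_zero m m')).trans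
      (map_zero (P.dd j))
  · intro x y
    show ((r1 _ (x + y)).coeff (m, m')).1 k + ((r2 _ (x + y)).coeff (m, m')).1 k = _ + _
    rw [pd4s_r1_add, pd4s_r2_add]
    exact add_add_add_comm _ _ _ _
  · intro F F'
    exact (congrArg (fun z : (G.pow (L ⊕ L')).KO K => P.dd j (z.1 k)) (pd4s_rho_add m m' F F')).trans
      (map_add (P.dd j) _ _)
  · intro x y
    show ((r1 _ (x ⊗ₜ[ℂ] y)).coeff (m, m')).1 k + ((r2 _ (x ⊗ₜ[ℂ] y)).coeff (m, m')).1 k =
      P.dd j (((rhoT G K X L L' (x ⊗ₜ[ℂ] y)).coeff (m, m')).1 k)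
    rw [pd4_r1_tmul, pd4_r2_tmul, rhoT_coeff]
    show P.dd j ((x.coeff m).1 _) * _ + _ * P.dd j ((y.coeff m').1 _) = _
    rw [Derivation.leibniz, smul_eq_mul, smul_eq_mul]
    ring

theorem pd4s_Az {I : Type} [Finite I] (D : (G.pow I).Lie) {n : ℕ} (z : ℤ) (c : Fin n → K) (k : I → G.X)
    {A : (G.pow I).KO K} (hA : A = 0) :
    (derK K D A).1 k - z • ∑ j, c j * A.1 k = 0 := by
  have h1 : A.1 k = 0 := by
    rw [hA]
    rfl
  have h2 : (derK K D A).1 k = 0 := by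
    rw [hA]
    exact pd4s_der_zero D k
  rw [h1, h2]
  simp only [mul_zero, Finset.sum_const_zero, smul_zero, sub_zero]

theorem pd4s_Aa {I : Type} [Finite I] (D : (G.pow I).Lie) {n : ℕ} (z : ℤ) (c : Fin n → K) (k : I → G.X)
    {A B C : (G.pow I).KO K} (hA : A = B + C) :
    (derK K D A).1 k - z • ∑ j, c j * A.1 k = ((derK K D B).1 k - z • ∑ j, c j * B.1 k) +
      ((derK K D C).1 k - z • ∑ j, c j * C.1 k) := by
  have h1 : A.1 k = B.1 k + C.1 k := by
    rw [hA]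
    rfl
  have h2 : (derK K D A).1 k = (derK K D B).1 k + (derK K D C).1 k := by
    rw [hA]
    exact pd4s_der_add D B C k
  rw [h1, h2]
  exact (pd4s_sum z c _ _ _ _ _ rfl rfl).symm

theorem pd4s_At1 (ε : L → Bool) (b : Bool) (l : L) (a : Fin Q.r)
    (x : RR G K X (Option L)) (y : RR G K X (Option L')) (m m' : X) (k : L ⊕ L' → G.X) :
    ((P.AL (optS b ε) (some l) a x).coeff m).1 (optP 1 (k ∘ Sum.inl)) * (y.coeff m').1 (optP 1 (k ∘ Sum.inr)) =
      (derK K (emb (Sum.inl l) (Q.D a)) ((rhoT G K X L L' (x ⊗ₜ[ℂ] y)).coeff (m, m'))).1 k -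
        sgn (ε l) • ∑ j, (P.sig j a * ((P.cd j m : ℤ) : K)) * ((rhoT G K X L L' (x ⊗ₜ[ℂ] y)).coeff (m, m')).1 k := by
  rw [pd4_derL, rhoT_coeff, pd4_AL, sub_mul, smul_mul_assoc, Finset.sum_mul]
  congr 2
  exact Finset.sum_congr rfl fun j _ => mul_assoc _ _ _

theorem pd4s_At2 (ε' : L' → Bool) (b : Bool) (l : L') (a : Fin Q.r)
    (x : RR G K X (Option L)) (y : RR G K X (Option L')) (m m' : X) (k : L ⊕ L' → G.X) :
    (x.coeff m).1 (optP 1 (k ∘ Sum.inl)) * ((P.AL (optS b ε') (some l) a y).coeff m').1 (optP 1 (k ∘ Sum.inr)) =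
      (derK K (emb (Sum.inr l) (Q.D a)) ((rhoT G K X L L' (x ⊗ₜ[ℂ] y)).coeff (m, m'))).1 k -
        sgn (ε' l) • ∑ j, (P.sig j a * ((P.cd j m' : ℤ) : K)) * ((rhoT G K X L L' (x ⊗ₜ[ℂ] y)).coeff (m, m')).1 k := by
  rw [pd4_derR, rhoT_coeff, pd4_AL, mul_sub, mul_smul_comm, Finset.mul_sum]
  congr 2
  exact Finset.sum_congr rfl fun j _ => mul_left_comm _ _ _

theorem pd4s_AL1 (ε : L → Bool) (b : Bool) (l : L) (a : Fin Q.r)
    (F : RR G K X (Option L) ⊗[ℂ] RR G K X (Option L')) (m m' : X) (k : L ⊕ L' → G.X) :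
    ((r1 (lAL P (optS b ε) (some l) a) F).coeff (m, m')).1 k =
      (derK K (emb (Sum.inl l) (Q.D a)) ((rhoT G K X L L' F).coeff (m, m'))).1 k -
        sgn (ε l) • ∑ j, (P.sig j a * ((P.cd j m : ℤ) : K)) * ((rhoT G K X L L' F).coeff (m, m')).1 k := by
  refine pd4s_ind
    (φ := fun F => ((r1 (lAL P (optS b ε) (some l) a) F).coeff (m, m')).1 k)
    (ψ := fun F => (derK K (emb (Sum.inl l) (Q.D a)) ((rhoT G K X L L' F).coeff (m, m'))).1 k -
        sgn (ε l) • ∑ j, (P.sig j a * ((P.cd j m : ℤ) : K)) * ((rhoT G K X L L' F).coeff (m, m')).1 k) ?_ ?_ ?_ ?_ ?_ F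
  · exact pd4s_r1_zero _ m m' k
  · exact pd4s_Az _ _ _ k (pd4s_rho_zero m m')
  · exact fun F F' => pd4s_r1_add _ m m' k F F'
  · exact fun F F' => pd4s_Aa _ _ _ k (pd4s_rho_add m m' F F')
  · exact fun x y => (pd4_r1_tmul _ x y m m' k).trans (pd4s_At1 ε b l a x y m m' k)

theorem pd4s_AL2 (ε' : L' → Bool) (b : Bool) (l : L') (a : Fin Q.r)
    (F : RR G K X (Option L) ⊗[ℂ] RR G K X (Option L')) (m m' : X) (k : L ⊕ L' → G.X) :
    ((r2 (lAL P (optS b ε') (some l) a) F).coeff (m, m')).1 k =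
      (derK K (emb (Sum.inr l) (Q.D a)) ((rhoT G K X L L' F).coeff (m, m'))).1 k -
        sgn (ε' l) • ∑ j, (P.sig j a * ((P.cd j m' : ℤ) : K)) * ((rhoT G K X L L' F).coeff (m, m')).1 k := by
  refine pd4s_ind
    (φ := fun F => ((r2 (lAL P (optS b ε') (some l) a) F).coeff (m, m')).1 k)
    (ψ := fun F => (derK K (emb (Sum.inr l) (Q.D a)) ((rhoT G K X L L' F).coeff (m, m'))).1 k -
        sgn (ε' l) • ∑ j, (P.sig j a * ((P.cd j m' : ℤ) : K)) * ((rhoT G K X L L' F).coeff (m, m')).1 k) ?_ ?_ ?_ ?_ ?_ F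
  · exact pd4s_r2_zero _ m m' k
  · exact pd4s_Az _ _ _ k (pd4s_rho_zero m m')
  · exact fun F F' => pd4s_r2_add _ m m' k F F'
  · exact fun F F' => pd4s_Aa _ _ _ k (pd4s_rho_add m m' F F')
  · exact fun x y => (pd4_r2_tmul _ x y m m' k).trans (pd4s_At2 ε' b l a x y m m' k)

/-- [MTF-PD4] PROOF. pure tensors; `derK (emb (inl l) D)` of `(pb inl f) * (pb inr f')` is `pb inl (derK (emb l D) f) * pb inr f'` (`LP.derK_pb`, `LP.derK_pb_out`, or slices), `derK_ev1`. -/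
theorem r1_AL (ε : L → Bool) (b : Bool) (l : L) (a : Fin Q.r)
    (F : RR G K X (Option L) ⊗[ℂ] RR G K X (Option L')) (m m' : X) :
    (r1 (lAL P (optS b ε) (some l) a) F).coeff (m, m') =
      derK K (emb (Sum.inl l) (Q.D a)) ((rhoT G K X L L' F).coeff (m, m')) -
        sgn (ε l) • ∑ j, (P.sig j a * ((P.cd j m : ℤ) : K)) • (rhoT G K X L L' F).coeff (m, m') := by
  apply KO_ext
  intro k
  rw [KO_sub, pd4_zsmul, KO_sum]
  exact pd4s_AL1 ε b l a F m m' k

theorem r2_AL (ε' : L' → Bool) (b : Bool) (l : L') (a : Fin Q.r)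
    (F : RR G K X (Option L) ⊗[ℂ] RR G K X (Option L')) (m m' : X) :
    (r2 (lAL P (optS b ε') (some l) a) F).coeff (m, m') =
      derK K (emb (Sum.inr l) (Q.D a)) ((rhoT G K X L L' F).coeff (m, m')) -
        sgn (ε' l) • ∑ j, (P.sig j a * ((P.cd j m' : ℤ) : K)) • (rhoT G K X L L' F).coeff (m, m') := by
  apply KO_ext
  intro k
  rw [KO_sub, pd4_zsmul, KO_sum]
  exact pd4s_AL2 ε' b l a F m m' k

/-- [MTF-PD4] the legs `none`, for invariant `F`.
PROOF. `F = ∑ t, a_t ⊗ b_t`.  For fixed `m, m', k` the function `y ↦ ∑ t, (a_t)_m (optP y (k ∘ inl)) * (b_t)_m' (optP y (k ∘ inr))` is constant: at `y = x⁻¹` it is the value of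
`rhoT ((gact (pt1 x) ⊗ gact (pt1 x)) F)`, equal to that of `rhoT F`.  Its derivative along `D_a` at `y = 1` is, by the Leibniz rule (`derK_leib` for functions on `G`, `LP.slN`),
the sum of the coefficients of `r1 (DL none a) F` and `r2 (DL none a) F` at `(m, m')`, `k`. -/
theorem r12_DL (a : Fin Q.r) (F : RR G K X (Option L) ⊗[ℂ] RR G K X (Option L'))
    (hF : ∀ x : G.X, TensorProduct.map (((gact (pt1 x) : RR G K X (Option L) →ₐ[K] RR G K X (Option L)).toLinearMap).restrictScalars ℂ)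
      (((gact (pt1 x) : RR G K X (Option L') →ₐ[K] RR G K X (Option L')).toLinearMap).restrictScalars ℂ) F = F) :
    r1 (PD.DL (Q := Q) none a).toLinearMap F + r2 (PD.DL (Q := Q) none a).toLinearMap F = 0 := by
  apply AddMonoidAlgebra.coeff_injective
  ext p : 1
  obtain ⟨m, m'⟩ := p
  apply KO_ext
  intro k
  rw [AddMonoidAlgebra.coeff_add, Finsupp.add_apply, KO_add, pd4_S_der]
  have h1 : pd4_S m m' k F = algebraMap K (G.KO K) ((pd4_S m m' k F).1 1) := by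
    apply KO_ext
    intro y
    have h2 := pd4_S_act m m' k y y F
    rw [hF y, inv_mul_cancel] at h2
    exact h2
  rw [h1, LP.lb2_derK_const]
  rfl

end

end Pool.Agent.MTF
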