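import Pool.Agent.MTF.PD4

/-! # MTF, part P : restriction of two legs of two surfaces (T1) is Poisson -/

set_option linter.unusedSectionVars false

namespace Pool.Agent.MTF

open AffGrp

section pd5gen

theorem pd5_single_mul (R X : Type) [CommRing R] [AddCommGroup X] (n : X) (a : R) (f' : AddMonoidAlgebra R (X × X)) :
    dgn R X (AddMonoidAlgebra.single (n, n) a * f') = AddMonoidAlgebra.single n a * dgn R X f' := by
  apply AddMonoidAlgebra.coeff_injective
  ext m
  rw [coeff_dgn, AddMonoidAlgebra.coeff_single_mul_eq_mul_coeff (m₁ := (m, m)) (m := (n, n)) (m - n, m - n),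
    AddMonoidAlgebra.coeff_single_mul_eq_mul_coeff (m₁ := m) (m := n) (m - n), coeff_dgn]
  · intro m' _
    constructor
    · intro h
      rw [← h, add_sub_cancel_left]
    · intro h
      rw [h, add_sub_cancel]
  · rintro ⟨m', m''⟩ _
    rw [Prod.mk_add_mk, Prod.mk.injEq, Prod.mk.injEq]
    constructor
    · rintro ⟨h, h'⟩
      exact ⟨by rw [← h, add_sub_cancel_left], by rw [← h', add_sub_cancel_left]⟩
    · rintro ⟨h, h'⟩
      exact ⟨by rw [h, add_sub_cancel], by rw [h', add_sub_cancel]⟩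

theorem pd5_dgn_single (R X : Type) [CommRing R] [AddCommGroup X] (n : X) (a : R) :
    dgn R X (AddMonoidAlgebra.single (n, n) a) = AddMonoidAlgebra.single n a := by
  classical
  apply AddMonoidAlgebra.coeff_injective
  ext m
  rw [coeff_dgn, AddMonoidAlgebra.coeff_single, AddMonoidAlgebra.coeff_single, Finsupp.single_apply,
    Finsupp.single_apply]
  by_cases h : n = m
  · rw [if_pos h, if_pos (by rw [h])]
  · rw [if_neg h, if_neg (by rw [Prod.mk.injEq]; exact fun h' => h h'.1)]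

theorem pd5_abs {K S T : Type} [Field K] [CommRing S] [CommRing T] [Algebra K S] [Algebra K T]
    {L L' A J : Type} [Fintype L] [Fintype L'] [Fintype A] [Fintype J] (d : S →+ T)
    (hc : ∀ (c : K) x, d (c • x) = c • d x) (Dg : S → Prop)
    (hm : ∀ x y, Dg x → d (x * y) = d x * d y) (ε : L → Bool) (ε' : L' → Bool) (rho : A → A → K)
    (N N' M M' X1 X2 X1' X2' : J → S) (hM : ∀ j, M j = N j) (hM' : ∀ j, M' j = N' j)
    (hN : ∀ j, Dg (N j)) (hN' : ∀ j, Dg (N' j)) (U U' : Option L → A → S) (V V' : Option L' → A → S)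
    (hU : ∀ l a, Dg (U (some l) a)) (hV : ∀ l a, Dg (V (some l) a))
    (h0 : ∀ a, V none a = - U none a) (h0' : ∀ a, V' none a = - U' none a)
    (tN tN' tX tX' : J → T) (tU tU' : L ⊕ L' → A → T)
    (e1 : ∀ j, d (N j) = tN j) (e1' : ∀ j, d (N' j) = tN' j)
    (e2 : ∀ j, d (X1 j + X2 j) = tX j) (e2' : ∀ j, d (X1' j + X2' j) = tX' j)
    (e3 : ∀ l a, d (U (some l) a) = tU (Sum.inl l) a) (e3' : ∀ l a, d (U' (some l) a) = tU' (Sum.inl l) a)
    (e4 : ∀ l a, d (V (some l) a) = tU (Sum.inr l) a) (e4' : ∀ l a, d (V' (some l) a) = tU' (Sum.inr l) a) :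
    d ((∑ j, (N j * X1' j - N' j * X1 j)) + (∑ j, (M j * X2' j - M' j * X2 j)) -
      (∑ l, sgn (optS true ε l) • ∑ a, ∑ b, rho a b • (U l a * U' l b)) -
      ∑ l, sgn (optS false ε' l) • ∑ a, ∑ b, rho a b • (V l a * V' l b)) =
    ∑ j, (tN j * tX' j - tN' j * tX j) -
      ∑ l, sgn (Sum.elim ε ε' l) • ∑ a, ∑ b, rho a b • (tU l a * tU' l b) := by
  have hA : d ((∑ j, (N j * X1' j - N' j * X1 j)) + (∑ j, (M j * X2' j - M' j * X2 j))) =
      ∑ j, (tN j * tX' j - tN' j * tX j) := by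
    rw [← Finset.sum_add_distrib, map_sum]
    refine Finset.sum_congr rfl fun j _ => ?_
    have e : N j * X1' j - N' j * X1 j + (M j * X2' j - M' j * X2 j) =
        N j * (X1' j + X2' j) - N' j * (X1 j + X2 j) := by
      rw [hM, hM']
      ring
    rw [e, map_sub, hm _ _ (hN j), hm _ _ (hN' j), e1, e1', e2, e2']
  have hB : d ((∑ l, sgn (optS true ε l) • ∑ a, ∑ b, rho a b • (U l a * U' l b)) +
      ∑ l, sgn (optS false ε' l) • ∑ a, ∑ b, rho a b • (V l a * V' l b)) =
      ∑ l, sgn (Sum.elim ε ε' l) • ∑ a, ∑ b, rho a b • (tU l a * tU' l b) := by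
    rw [Fintype.sum_option, Fintype.sum_option, Fintype.sum_sum_type]
    have s1 : sgn (optS true ε none) • ∑ a, ∑ b, rho a b • (U none a * U' none b) =
        ∑ a, ∑ b, rho a b • (U none a * U' none b) := one_smul ℤ _
    have s2 : sgn (optS false ε' none) • ∑ a, ∑ b, rho a b • (V none a * V' none b) =
        - ∑ a, ∑ b, rho a b • (U none a * U' none b) := by
      have s3 : ∑ a, ∑ b, rho a b • (V none a * V' none b) =
          ∑ a, ∑ b, rho a b • (U none a * U' none b) := by
        refine Finset.sum_congr rfl fun a _ => Finset.sum_congr rfl fun b _ => ?_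
        rw [h0, h0', neg_mul_neg]
      rw [s3]
      exact neg_one_zsmul _
    rw [s1, s2]
    have s4 : ∀ x y z : S, x + y + (-x + z) = y + z := fun x y z => by ring
    rw [s4, map_add, map_sum, map_sum]
    congr 1
    · refine Finset.sum_congr rfl fun l _ => ?_
      rw [map_zsmul, map_sum]
      congr 1
      refine Finset.sum_congr rfl fun a _ => ?_
      rw [map_sum]
      refine Finset.sum_congr rfl fun b _ => ?_
      rw [hc, hm _ _ (hU l a), e3, e3']
    · refine Finset.sum_congr rfl fun l _ => ?_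
      rw [map_zsmul, map_sum]
      congr 1
      refine Finset.sum_congr rfl fun a _ => ?_
      rw [map_sum]
      refine Finset.sum_congr rfl fun b _ => ?_
      rw [hc, hm _ _ (hV l a), e4, e4']
  have hAB : ∀ x y z : S, d (x - y - z) = d x - d (y + z) := fun x y z => by
    rw [← map_sub]
    congr 1
    ring
  rw [hAB, hA, hB]

end pd5gen

section
variable {G : AffGrp} {K W X : Type} [Field K] [Algebra ℂ K] [Group W] [Fintype W]
  [MulSemiringAction W K] [SMulCommClass W ℂ K] [AddCommGroup X] [DistribMulAction W X]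
variable {Q : TQD G K W X}
variable {P : PD Q}
variable {L : Type} [Fintype L] [DecidableEq L]

open TensorProduct

variable {L' : Type} [Fintype L'] [DecidableEq L']

/-- [MTF-PD5] PROOF. `(f * f')_(m,m) = ∑_{a+b=(m,m)} f_a f'_b`, only `a = (n,n)` occurs, then `b = (m-n,m-n)`. -/
theorem dgn_mul (R : Type) [CommRing R] {f f' : AddMonoidAlgebra R (X × X)}
    (h : ∀ m m' : X, m ≠ m' → f.coeff (m, m') = 0) : dgn R X (f * f') = dgn R X f * dgn R X f' := by
  have e : f = ∑ x ∈ f.coeff.support, AddMonoidAlgebra.single x (f.coeff x) :=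
    (AddMonoidAlgebra.sum_coeff_single f).symm
  rw [e, Finset.sum_mul, map_sum, map_sum, Finset.sum_mul]
  refine Finset.sum_congr rfl fun x hx => ?_
  obtain ⟨m, m'⟩ := x
  have hmm : m = m' := by
    by_contra hne
    exact (Finsupp.mem_support_iff.1 hx) (h m m' hne)
  subst hmm
  rw [pd5_single_mul, pd5_dgn_single]

theorem pd5_AL_coeff (ε : L → Bool) (l : L) (a : Fin Q.r) (F : RR G K X L) (m : X) :
    (P.AL ε l a F).coeff m = derK K (emb l (Q.D a)) (F.coeff m) -
      sgn (ε l) • ∑ j, (P.sig j a * ((P.cd j m : ℤ) : K)) • F.coeff m := by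
  have e : ((∑ j, P.sig j a • P.DN L j F : RR G K X L)).coeff m =
      ∑ j, (P.sig j a * ((P.cd j m : ℤ) : K)) • F.coeff m := by
    rw [AddMonoidAlgebra.coeff_sum, Finsupp.finsetSum_apply]
    refine Finset.sum_congr rfl fun j _ => ?_
    rw [AddMonoidAlgebra.coeff_smul_apply, DN_coeff, smul_smul]
  rw [← e]
  rfl

/-- values -/
theorem pd5_AL_val (ε : L → Bool) (l : L) (a : Fin Q.r) (F : RR G K X L) (m : X) (k : L → G.X) :
    ((P.AL ε l a F).coeff m).1 k = (derK K (emb l (Q.D a)) (F.coeff m)).1 k -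
      ((sgn (ε l) : ℤ) : K) * ∑ j, (P.sig j a * ((P.cd j m : ℤ) : K)) * (F.coeff m).1 k := by
  rw [pd5_AL_coeff]
  have e : ((∑ j, (P.sig j a * ((P.cd j m : ℤ) : K)) • F.coeff m : (G.pow L).KO K)).1 k =
      ∑ j, (P.sig j a * ((P.cd j m : ℤ) : K)) * (F.coeff m).1 k := by
    rw [KO_sum]
    rfl
  rw [← e, ← zsmul_eq_mul]
  rfl

theorem pd5_none1 (ε : Option L → Bool) (a : Fin Q.r)
    (F : RR G K X (Option L) ⊗[ℂ] RR G K X (Option L')) (m m' : X) (k : L ⊕ L' → G.X) :
    ((r1 (lAL P ε none a) F).coeff (m, m')).1 k =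
      ((r1 (PD.DL (Q := Q) none a).toLinearMap F).coeff (m, m')).1 k -
        ((sgn (ε none) : ℤ) : K) * ((∑ j, P.sig j a * ((P.cd j m : ℤ) : K)) *
          ((rhoT G K X L L' F).coeff (m, m')).1 k) := by
  induction F using TensorProduct.induction_on with
  | zero =>
    unfold r1
    rw [map_zero, map_zero, map_zero]
    show (0 : K) = 0 - _ * (_ * 0)
    ring
  | tmul x y =>
    unfold r1
    rw [TensorProduct.map_tmul, TensorProduct.map_tmul, rhoT_coeff, rhoT_coeff, rhoT_coeff]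
    show ((P.AL ε none a x).coeff m).1 _ * (y.coeff m').1 _ = _
    rw [pd5_AL_val, ← Finset.sum_mul]
    show _ = (derK K (emb none (Q.D a)) (x.coeff m)).1 _ * (y.coeff m').1 _ - _
    ring
  | add F F' h h' =>
    have e1 : r1 (lAL P ε none a) (F + F') = r1 (lAL P ε none a) F + r1 (lAL P ε none a) F' := by
      unfold r1
      rw [map_add, map_add]
    have e2 : r1 (PD.DL (Q := Q) none a).toLinearMap (F + F') =
        r1 (PD.DL (Q := Q) none a).toLinearMap F + r1 (PD.DL (Q := Q) none a).toLinearMap F' := by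
      unfold r1
      rw [map_add, map_add]
    rw [e1, e2, map_add]
    show ((r1 (lAL P ε none a) F).coeff (m, m')).1 k + ((r1 (lAL P ε none a) F').coeff (m, m')).1 k =
      (((r1 (PD.DL (Q := Q) none a).toLinearMap F).coeff (m, m')).1 k +
      ((r1 (PD.DL (Q := Q) none a).toLinearMap F').coeff (m, m')).1 k) - _ * (_ *
        (((rhoT G K X L L' F).coeff (m, m')).1 k + ((rhoT G K X L L' F').coeff (m, m')).1 k))
    rw [h, h']
    ring

theorem pd5_none2 (ε : Option L' → Bool) (a : Fin Q.r)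
    (F : RR G K X (Option L) ⊗[ℂ] RR G K X (Option L')) (m m' : X) (k : L ⊕ L' → G.X) :
    ((r2 (lAL P ε none a) F).coeff (m, m')).1 k =
      ((r2 (PD.DL (Q := Q) none a).toLinearMap F).coeff (m, m')).1 k -
        ((sgn (ε none) : ℤ) : K) * ((∑ j, P.sig j a * ((P.cd j m' : ℤ) : K)) *
          ((rhoT G K X L L' F).coeff (m, m')).1 k) := by
  induction F using TensorProduct.induction_on with
  | zero =>
    unfold r2
    rw [map_zero, map_zero, map_zero]
    show (0 : K) = 0 - _ * (_ * 0)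
    ring
  | tmul x y =>
    unfold r2
    rw [TensorProduct.map_tmul, TensorProduct.map_tmul, rhoT_coeff, rhoT_coeff, rhoT_coeff]
    show (x.coeff m).1 _ * ((P.AL ε none a y).coeff m').1 _ = _
    rw [pd5_AL_val, ← Finset.sum_mul]
    show _ = (x.coeff m).1 _ * (derK K (emb none (Q.D a)) (y.coeff m')).1 _ - _
    ring
  | add F F' h h' =>
    have e1 : r2 (lAL P ε none a) (F + F') = r2 (lAL P ε none a) F + r2 (lAL P ε none a) F' := by
      unfold r2
      rw [map_add, map_add]
    have e2 : r2 (PD.DL (Q := Q) none a).toLinearMap (F + F') =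
        r2 (PD.DL (Q := Q) none a).toLinearMap F + r2 (PD.DL (Q := Q) none a).toLinearMap F' := by
      unfold r2
      rw [map_add, map_add]
    rw [e1, e2, map_add]
    show ((r2 (lAL P ε none a) F).coeff (m, m')).1 k + ((r2 (lAL P ε none a) F').coeff (m, m')).1 k =
      (((r2 (PD.DL (Q := Q) none a).toLinearMap F).coeff (m, m')).1 k +
      ((r2 (PD.DL (Q := Q) none a).toLinearMap F').coeff (m, m')).1 k) - _ * (_ *
        (((rhoT G K X L L' F).coeff (m, m')).1 k + ((rhoT G K X L L' F').coeff (m, m')).1 k))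
    rw [h, h']
    ring

theorem pd5_none (ε : L → Bool) (ε' : L' → Bool) (a : Fin Q.r)
    {F : RR G K X (Option L) ⊗[ℂ] RR G K X (Option L')}
    (hF : ∀ x : G.X, TensorProduct.map (((gact (pt1 x) : RR G K X (Option L) →ₐ[K] RR G K X (Option L)).toLinearMap).restrictScalars ℂ)
      (((gact (pt1 x) : RR G K X (Option L') →ₐ[K] RR G K X (Option L')).toLinearMap).restrictScalars ℂ) F = F)
    (hd : ∀ m m' : X, m ≠ m' → (rhoT G K X L L' F).coeff (m, m') = 0) :
    r2 (lAL P (optS false ε') none a) F = - r1 (lAL P (optS true ε) none a) F := by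
  apply AddMonoidAlgebra.coeff_injective
  refine Finsupp.ext fun mm => ?_
  obtain ⟨m, m'⟩ := mm
  apply KO_ext
  intro k
  have h1 := pd5_none1 (P := P) (optS true ε) a F m m' k
  have h2 := pd5_none2 (P := P) (optS false ε') a F m m' k
  have h3 := congrArg (fun z => (z.coeff (m, m')).1 k) (r12_DL a F hF)
  have h4 : ((r1 (PD.DL (Q := Q) none a).toLinearMap F).coeff (m, m')).1 k +
      ((r2 (PD.DL (Q := Q) none a).toLinearMap F).coeff (m, m')).1 k = 0 := h3
  have h5 : (∑ j, P.sig j a * ((P.cd j m : ℤ) : K)) * ((rhoT G K X L L' F).coeff (m, m')).1 k =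
      (∑ j, P.sig j a * ((P.cd j m' : ℤ) : K)) * ((rhoT G K X L L' F).coeff (m, m')).1 k := by
    by_cases hmm : m = m'
    · rw [hmm]
    · rw [hd m m' hmm]
      show _ * (0 : K) = _ * (0 : K)
      rw [mul_zero, mul_zero]
  have e1 : ((sgn (optS true ε none) : ℤ) : K) = 1 := by
    show (((1 : ℤ)) : K) = 1
    exact Int.cast_one
  have e2 : ((sgn (optS false ε' none) : ℤ) : K) = -1 := by
    show (((-1 : ℤ)) : K) = -1
    rw [Int.cast_neg, Int.cast_one]
  rw [e1] at h1
  rw [e2] at h2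
  show ((r2 (lAL P (optS false ε') none a) F).coeff (m, m')).1 k =
    -((r1 (lAL P (optS true ε) none a) F).coeff (m, m')).1 k
  rw [h1, h2]
  linear_combination h4 - h5

theorem pd5_r1N (j : Fin P.n) {F : RR G K X (Option L) ⊗[ℂ] RR G K X (Option L')}
    (hd : ∀ m m' : X, m ≠ m' → (rhoT G K X L L' F).coeff (m, m') = 0) (m m' : X) (h : m ≠ m') :
    (r1 (P.DN (Option L) j).toLinearMap F).coeff (m, m') = 0 := by
  rw [r1_DN, hd m m' h, smul_zero]

theorem pd5_r12N (j : Fin P.n) {F : RR G K X (Option L) ⊗[ℂ] RR G K X (Option L')}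
    (hd : ∀ m m' : X, m ≠ m' → (rhoT G K X L L' F).coeff (m, m') = 0) :
    r2 (P.DN (Option L') j).toLinearMap F = r1 (P.DN (Option L) j).toLinearMap F := by
  apply AddMonoidAlgebra.coeff_injective
  refine Finsupp.ext fun mm => ?_
  obtain ⟨m, m'⟩ := mm
  rw [r1_DN, r2_DN]
  by_cases hmm : m = m'
  · rw [hmm]
  · rw [hd m m' hmm, smul_zero, smul_zero]

theorem pd5_dN (j : Fin P.n) (F : RR G K X (Option L) ⊗[ℂ] RR G K X (Option L')) :
    dgn _ X (r1 (P.DN (Option L) j).toLinearMap F) = P.DN (L ⊕ L') j (dgn _ X (rhoT G K X L L' F)) := by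
  apply AddMonoidAlgebra.coeff_injective
  refine Finsupp.ext fun m => ?_
  rw [coeff_dgn, r1_DN, DN_coeff, coeff_dgn]

theorem pd5_dX (j : Fin P.n) (F : RR G K X (Option L) ⊗[ℂ] RR G K X (Option L')) :
    dgn _ X (r1 (P.DX (Option L) j).toLinearMap F + r2 (P.DX (Option L') j).toLinearMap F) =
      P.DX (L ⊕ L') j (dgn _ X (rhoT G K X L L' F)) := by
  apply AddMonoidAlgebra.coeff_injective
  refine Finsupp.ext fun m => ?_
  apply KO_ext
  intro k
  exact r12_DX j F m m k

theorem pd5_dL (ε : L → Bool) (ε' : L' → Bool) (b : Bool) (l : L) (a : Fin Q.r)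
    (F : RR G K X (Option L) ⊗[ℂ] RR G K X (Option L')) :
    dgn _ X (r1 (lAL P (optS b ε) (some l) a) F) =
      P.AL (Sum.elim ε ε') (Sum.inl l) a (dgn _ X (rhoT G K X L L' F)) := by
  apply AddMonoidAlgebra.coeff_injective
  refine Finsupp.ext fun m => ?_
  rw [coeff_dgn, r1_AL, pd5_AL_coeff, coeff_dgn]
  rfl

theorem pd5_dR (ε : L → Bool) (ε' : L' → Bool) (b : Bool) (l : L') (a : Fin Q.r)
    (F : RR G K X (Option L) ⊗[ℂ] RR G K X (Option L')) :
    dgn _ X (r2 (lAL P (optS b ε') (some l) a) F) =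
      P.AL (Sum.elim ε ε') (Sum.inr l) a (dgn _ X (rhoT G K X L L' F)) := by
  apply AddMonoidAlgebra.coeff_injective
  refine Finsupp.ext fun m => ?_
  rw [coeff_dgn, r2_AL, pd5_AL_coeff, coeff_dgn]
  rfl

theorem pd5_r1L (ε : L → Bool) (b : Bool) (l : L) (a : Fin Q.r)
    {F : RR G K X (Option L) ⊗[ℂ] RR G K X (Option L')}
    (hd : ∀ m m' : X, m ≠ m' → (rhoT G K X L L' F).coeff (m, m') = 0) (m m' : X) (h : m ≠ m') :
    (r1 (lAL P (optS b ε) (some l) a) F).coeff (m, m') = 0 := by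
  rw [r1_AL, hd m m' h, map_zero]
  simp only [smul_zero, Finset.sum_const_zero, sub_zero]

theorem pd5_r2L (ε' : L' → Bool) (b : Bool) (l : L') (a : Fin Q.r)
    {F : RR G K X (Option L) ⊗[ℂ] RR G K X (Option L')}
    (hd : ∀ m m' : X, m ≠ m' → (rhoT G K X L L' F).coeff (m, m') = 0) (m m' : X) (h : m ≠ m') :
    (r2 (lAL P (optS b ε') (some l) a) F).coeff (m, m') = 0 := by
  rw [r2_AL, hd m m' h, map_zero]
  simp only [smul_zero, Finset.sum_const_zero, sub_zero]

theorem pd5_dgn_smul (c : K) (x : AddMonoidAlgebra ((G.pow (L ⊕ L')).KO K) (X × X)) :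
    dgn ((G.pow (L ⊕ L')).KO K) X (c • x) = c • dgn ((G.pow (L ⊕ L')).KO K) X x := by
  apply AddMonoidAlgebra.coeff_injective
  exact Finsupp.ext fun m => rfl

/-- [MTF-PD5] (P5), T1.
PROOF. `f := rhoT F`, `f' := rhoT F'` are diagonal (`hd`, `hd'`).  `rhoT_tbL`, apply `dgn` (additive; `dgn_mul`: every factor is diagonal or at least the first one).
(i) `r1 DN F = r2 DN F` is `N_j f` on the diagonal (`r1_DN`, `r2_DN`, `f` diagonal), and `r1 DX F' + r2 DX F'` is `∂_j f'` (`r12_DX`): the first two sums give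
`∑_j (N_j f · ∂_j f' - N_j f' · ∂_j f)`.  [The products `N_j f * r1 DX F'`: first factor diagonal; add the two before taking `dgn`.]
(ii) legs `some l`: `r1_AL`, `r2_AL`: on the diagonal these are `AL (inl l) a (dgn f)`, `AL (inr l') a (dgn f)` with the signs `Sum.elim ε ε'`.
(iii) legs `none` (signs `+`, `-`): `r1 (AL none a) F = r1 (DL none a) F - ∑_j sig j a • r1 (DN j) F`, `r2 (AL none a) F = r2 (DL none a) F + ∑_j sig j a • r2 (DN j) F`, so by `r12_DL` and (i) they are
opposite; the two terms cancel. -/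
theorem dgn_tbL (ε : L → Bool) (ε' : L' → Bool) {F F' : RR G K X (Option L) ⊗[ℂ] RR G K X (Option L')}
    (hF : ∀ x : G.X, TensorProduct.map (((gact (pt1 x) : RR G K X (Option L) →ₐ[K] RR G K X (Option L)).toLinearMap).restrictScalars ℂ)
      (((gact (pt1 x) : RR G K X (Option L') →ₐ[K] RR G K X (Option L')).toLinearMap).restrictScalars ℂ) F = F)
    (hF' : ∀ x : G.X, TensorProduct.map (((gact (pt1 x) : RR G K X (Option L) →ₐ[K] RR G K X (Option L)).toLinearMap).restrictScalars ℂ)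
      (((gact (pt1 x) : RR G K X (Option L') →ₐ[K] RR G K X (Option L')).toLinearMap).restrictScalars ℂ) F' = F')
    (hd : ∀ m m' : X, m ≠ m' → (rhoT G K X L L' F).coeff (m, m') = 0)
    (hd' : ∀ m m' : X, m ≠ m' → (rhoT G K X L L' F').coeff (m, m') = 0) :
    dgn _ X (rhoT G K X L L' (tbL P (optS true ε) (optS false ε') F F')) =
      P.br (Sum.elim ε ε') (dgn _ X (rhoT G K X L L' F)) (dgn _ X (rhoT G K X L L' F')) := by
  refine (congrArg (dgn _ X) (rhoT_tbL (P := P) (optS true ε) (optS false ε') F F')).trans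
    (pd5_abs (K := K) (S := AddMonoidAlgebra ((G.pow (L ⊕ L')).KO K) (X × X))
    (T := RR G K X (L ⊕ L')) (dgn ((G.pow (L ⊕ L')).KO K) X).toAddMonoidHom
    ?_ (fun x => ∀ m m' : X, m ≠ m' → x.coeff (m, m') = 0) ?_ ε ε'
    (fun a b => P.rho a b)
    (fun j => r1 (P.DN (Option L) j).toLinearMap F) (fun j => r1 (P.DN (Option L) j).toLinearMap F')
    (fun j => r2 (P.DN (Option L') j).toLinearMap F) (fun j => r2 (P.DN (Option L') j).toLinearMap F')
    (fun j => r1 (P.DX (Option L) j).toLinearMap F) (fun j => r2 (P.DX (Option L') j).toLinearMap F)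
    (fun j => r1 (P.DX (Option L) j).toLinearMap F') (fun j => r2 (P.DX (Option L') j).toLinearMap F')
    ?_ ?_ ?_ ?_
    (fun l a => r1 (lAL P (optS true ε) l a) F) (fun l a => r1 (lAL P (optS true ε) l a) F')
    (fun l a => r2 (lAL P (optS false ε') l a) F) (fun l a => r2 (lAL P (optS false ε') l a) F')
    ?_ ?_ ?_ ?_
    (fun j => P.DN (L ⊕ L') j (dgn _ X (rhoT G K X L L' F)))
    (fun j => P.DN (L ⊕ L') j (dgn _ X (rhoT G K X L L' F')))
    (fun j => P.DX (L ⊕ L') j (dgn _ X (rhoT G K X L L' F)))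
    (fun j => P.DX (L ⊕ L') j (dgn _ X (rhoT G K X L L' F')))
    (fun l a => P.AL (Sum.elim ε ε') l a (dgn _ X (rhoT G K X L L' F)))
    (fun l a => P.AL (Sum.elim ε ε') l a (dgn _ X (rhoT G K X L L' F')))
    ?_ ?_ ?_ ?_ ?_ ?_ ?_ ?_)
  · exact fun c x => pd5_dgn_smul c x
  · exact fun x y hx => dgn_mul _ hx
  · exact fun j => pd5_r12N j hd
  · exact fun j => pd5_r12N j hd'
  · exact fun j => pd5_r1N j hd
  · exact fun j => pd5_r1N j hd'
  · exact fun l a => pd5_r1L ε true l a hd
  · exact fun l a => pd5_r2L ε' false l a hd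
  · exact fun a => pd5_none ε ε' a hF hd
  · exact fun a => pd5_none ε ε' a hF' hd'
  · exact fun j => pd5_dN j F
  · exact fun j => pd5_dN j F'
  · exact fun j => pd5_dX j F
  · exact fun j => pd5_dX j F'
  · exact fun l a => pd5_dL ε ε' true l a F
  · exact fun l a => pd5_dL ε ε' true l a F'
  · exact fun l a => pd5_dR ε ε' false l a F
  · exact fun l a => pd5_dR ε ε' false l a F'

end

end Pool.Agent.MTF
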