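import Pool.Agent.MTF.PD2
import Pool.Agent.MTF.PB9

/-! # MTF, part P : brackets on the rings and their products -/

set_option linter.unusedSectionVars false

namespace Pool.Agent.MTF

open AffGrp

section
open TensorProduct
variable {A B C : Type} [AddCommMonoid A] [AddCommMonoid B] [AddCommMonoid C] [Module ℂ A]
  [Module ℂ B] [Module ℂ C]

theorem pd6_ext1 (f g : A ⊗[ℂ] B →ₗ[ℂ] C) (h : ∀ a b, f (a ⊗ₜ b) = g (a ⊗ₜ b)) (x : A ⊗[ℂ] B) :
    f x = g x := LinearMap.congr_fun (TensorProduct.ext' h) x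

theorem pd6_ext2 (f g : A ⊗[ℂ] B →ₗ[ℂ] A ⊗[ℂ] B →ₗ[ℂ] C)
    (h : ∀ a b a' b', f (a ⊗ₜ b) (a' ⊗ₜ b') = g (a ⊗ₜ b) (a' ⊗ₜ b')) (x y : A ⊗[ℂ] B) :
    f x y = g x y := by
  have h1 : f = g := TensorProduct.ext' fun a b => TensorProduct.ext' fun a' b' => h a b a' b'
  rw [h1]

end

section
variable {G : AffGrp} {K W X : Type} [Field K] [Algebra ℂ K] [Group W] [Fintype W]
  [MulSemiringAction W K] [SMulCommClass W ℂ K] [AddCommGroup X] [DistribMulAction W X]
variable {Q : TQD G K W X}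
variable {P : PD Q}
variable {L : Type} [Fintype L] [DecidableEq L]

open TensorProduct

variable {L' : Type} [Fintype L'] [DecidableEq L']

/-- the ring `A_{g;L}` is closed under the bracket -/
def Closed (hT : TQ Q) (P : PD Q) (g : ℕ) (ε : L → Bool) : Prop :=
  ∀ F F', F ∈ AG hT g ε → F' ∈ AG hT g ε → P.br ε F F' ∈ AG hT g ε

/-- the bracket of the ring -/
noncomputable def brA (hT : TQ Q) (P : PD Q) {g : ℕ} {ε : L → Bool} (h : Closed hT P g ε) :
    AG hT g ε →ₗ[ℂ] AG hT g ε →ₗ[ℂ] AG hT g ε :=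
  LinearMap.mk₂ ℂ (fun F F' => ⟨P.br ε F.1 F'.1, h F.1 F'.1 F.2 F'.2⟩) (by
    intro F F' F''
    apply Subtype.ext
    exact LinearMap.map_add₂ (brL P ε) F.1 F'.1 F''.1) (by
    intro c F F'
    apply Subtype.ext
    exact LinearMap.map_smul₂ (brL P ε) c F.1 F'.1) (by
    intro F F' F''
    apply Subtype.ext
    exact LinearMap.map_add (brL P ε F.1) F'.1 F''.1) (by
    intro c F F'
    apply Subtype.ext
    exact LinearMap.map_smul (brL P ε F.1) c F'.1)

theorem brA_val (hT : TQ Q) {g : ℕ} {ε : L → Bool} (h : Closed hT P g ε) (F F' : AG hT g ε) :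
    (brA hT P h F F').1 = P.br ε F.1 F'.1 := rfl

/-- the product bracket of two rings -/
noncomputable def tbA (hT : TQ Q) (P : PD Q) {g g' : ℕ} {ε : L → Bool} {ε' : L' → Bool} (h : Closed hT P g ε)
    (h' : Closed hT P g' ε') : (AG hT g ε ⊗[ℂ] AG hT g' ε') →ₗ[ℂ] (AG hT g ε ⊗[ℂ] AG hT g' ε') →ₗ[ℂ]
      (AG hT g ε ⊗[ℂ] AG hT g' ε') :=
  TensorProduct.map₂ (brA hT P h) (LinearMap.mul ℂ (AG hT g' ε')) +
    TensorProduct.map₂ (LinearMap.mul ℂ (AG hT g ε)) (brA hT P h')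

/-- the inclusion into the product of the rings of all families -/
noncomputable def valT (hT : TQ Q) (g g' : ℕ) (ε : L → Bool) (ε' : L' → Bool) :
    AG hT g ε ⊗[ℂ] AG hT g' ε' →ₐ[ℂ] RR G K X L ⊗[ℂ] RR G K X L' :=
  Algebra.TensorProduct.map (AG hT g ε).val (AG hT g' ε').val

theorem pd6_act (hT : TQ Q) {g : ℕ} {ε : L → Bool} (h : Closed hT P g ε) (x : L → G.X)
    (F F' : AG hT g ε) : actAG hT g ε x (brA hT P h F F') =
      brA hT P h (actAG hT g ε x F) (actAG hT g ε x F') :=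
  Subtype.ext (br_gact x ε F.1 F'.1).symm

theorem pd6_mul (hT : TQ Q) {g : ℕ} {ε : L → Bool} (x : L → G.X)
    (F F' : AG hT g ε) : actAG hT g ε x (F * F') = actAG hT g ε x F * actAG hT g ε x F' :=
  (actAG hT g ε x).map_mul' F F'

/-- [MTF-PD6] PROOF. `TensorProduct.induction_on` twice. -/
theorem valT_tbA (hT : TQ Q) {g g' : ℕ} {ε : Option L → Bool} {ε' : Option L' → Bool} (h : Closed hT P g ε)
    (h' : Closed hT P g' ε') (F F' : AG hT g ε ⊗[ℂ] AG hT g' ε') :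
    valT hT g g' ε ε' (tbA hT P h h' F F') = tbL P ε ε' (valT hT g g' ε ε' F) (valT hT g g' ε ε' F') := by
  refine pd6_ext2 ((tbA hT P h h').compr₂ (valT hT g g' ε ε').toLinearMap)
    ((tbL P ε ε').compl₁₂ (valT hT g g' ε ε').toLinearMap (valT hT g g' ε ε').toLinearMap) ?_ F F'
  intro F E F' E'
  exact LinearMap.map_add (valT hT g g' ε ε').toLinearMap
    (brA hT P h F F' ⊗ₜ[ℂ] (E * E')) ((F * F') ⊗ₜ[ℂ] brA hT P h' E E')

/-- [MTF-PD6] PROOF. pure tensors. -/
theorem rhoT_valT (hT : TQ Q) (g g' : ℕ) (ε : L → Bool) (ε' : L' → Bool)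
    (F : AG hT g (optS true ε) ⊗[ℂ] AG hT g' (optS false ε')) :
    rhoT G K X L L' (valT hT g g' (optS true ε) (optS false ε') F) = rho1 hT g g' ε ε' F := by
  exact pd6_ext1 ((rhoT G K X L L').toLinearMap ∘ₗ
    (valT hT g g' (optS true ε) (optS false ε')).toLinearMap) (rho1 hT g g' ε ε').toLinearMap
    (fun _ _ => rfl) F

/-- [MTF-PD6] PROOF. pure tensors; `pt1 x = optP x 1`. -/
theorem valT_dact (hT : TQ Q) (g g' : ℕ) (ε : L → Bool) (ε' : L' → Bool) (x : G.X)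
    (F : AG hT g (optS true ε) ⊗[ℂ] AG hT g' (optS false ε')) :
    valT hT g g' (optS true ε) (optS false ε') (dact hT g g' ε ε' x F) =
      TensorProduct.map (((gact (pt1 x) : RR G K X (Option L) →ₐ[K] RR G K X (Option L)).toLinearMap).restrictScalars ℂ)
      (((gact (pt1 x) : RR G K X (Option L') →ₐ[K] RR G K X (Option L')).toLinearMap).restrictScalars ℂ)
        (valT hT g g' (optS true ε) (optS false ε') F) := by
  exact pd6_ext1 ((valT hT g g' (optS true ε) (optS false ε')).toLinearMap ∘ₗ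
    (dact hT g g' ε ε' x).toLinearMap) (TensorProduct.map
      (((gact (pt1 x) : RR G K X (Option L) →ₐ[K] RR G K X (Option L)).toLinearMap).restrictScalars ℂ)
      (((gact (pt1 x) : RR G K X (Option L') →ₐ[K] RR G K X (Option L')).toLinearMap).restrictScalars ℂ) ∘ₗ
        (valT hT g g' (optS true ε) (optS false ε')).toLinearMap) (fun _ _ => rfl) F

/-- [MTF-PD6] the diagonal action preserves the product bracket. PROOF. pure tensors, `br_gact`, `actAG_val`. -/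
theorem dact_tbA (hT : TQ Q) {g g' : ℕ} {ε : L → Bool} {ε' : L' → Bool} (h : Closed hT P g (optS true ε))
    (h' : Closed hT P g' (optS false ε')) (x : G.X) (F F' : AG hT g (optS true ε) ⊗[ℂ] AG hT g' (optS false ε')) :
    dact hT g g' ε ε' x (tbA hT P h h' F F') = tbA hT P h h' (dact hT g g' ε ε' x F) (dact hT g g' ε ε' x F') := by
  refine pd6_ext2 ((tbA hT P h h').compr₂ (dact hT g g' ε ε' x).toLinearMap)
    ((tbA hT P h h').compl₁₂ (dact hT g g' ε ε' x).toLinearMap (dact hT g g' ε ε' x).toLinearMap)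
    ?_ F F'
  intro F E F' E'
  refine (LinearMap.map_add (dact hT g g' ε ε' x).toLinearMap
    (brA hT P h F F' ⊗ₜ[ℂ] (E * E')) ((F * F') ⊗ₜ[ℂ] brA hT P h' E E')).trans ?_
  refine congrArg₂ (· + ·) (congrArg₂ (· ⊗ₜ[ℂ] ·) ?_ ?_) (congrArg₂ (· ⊗ₜ[ℂ] ·) ?_ ?_)
  · exact pd6_act hT h (optP x 1) F F'
  · exact pd6_mul hT (optP x 1) E E'
  · exact pd6_mul hT (optP x 1) F F'
  · exact pd6_act hT h' (optP x 1) E E'

end

end Pool.Agent.MTF
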