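import Pool.Agent.MTF.PD1
import Pool.Agent.MTF.PD5
import Pool.Agent.MTF.PD6
import Pool.Agent.MTF.PC3

/-! # MTF, part P : all rings are closed under the bracket -/

set_option linter.unusedSectionVars false

namespace Pool.Agent.MTF

attribute [-instance] Subalgebra.seminormedCommRing Subalgebra.normedCommRing Subalgebra.normedRing Subalgebra.seminormedRing

open AffGrp

section
variable {G : AffGrp} {K W X : Type} [Field K] [Algebra ℂ K] [Group W] [Fintype W]
  [MulSemiringAction W K] [SMulCommClass W ℂ K] [AddCommGroup X] [DistribMulAction W X]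
variable {Q : TQD G K W X}
variable {P : PD Q}
variable {L : Type} [Fintype L] [DecidableEq L]

open TensorProduct

variable {L' : Type} [Fintype L'] [DecidableEq L']

theorem pd7s_inv (hT : TQ Q) {g g' : ℕ} {ε : L → Bool} {ε' : L' → Bool}
    {F : AG hT g (optS true ε) ⊗[ℂ] AG hT g' (optS false ε')} (hF : ∀ x, dact hT g g' ε ε' x F = F) (x : G.X) :
    dact hT g g' ε ε' x F - F ∈ I1 hT g g' ε ε' := by
  rw [hF x, sub_self]
  exact Ideal.zero_mem _

theorem pd7s_off (hT : TQ Q) {g g' : ℕ} {ε : L → Bool} {ε' : L' → Bool}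
    {F : AG hT g (optS true ε) ⊗[ℂ] AG hT g' (optS false ε')} (hF : ∀ x, dact hT g g' ε ε' x F = F) (m m' : X)
    (hm : m ≠ m') : (rhoT G K X L L' (valT hT g g' (optS true ε) (optS false ε') F)).coeff (m, m') = 0 := by
  rw [rhoT_valT]
  exact T1a (hT := hT) (g := g) (g' := g') (ε := ε) (ε' := ε') (pd7s_inv hT hF) hm

/-- [MTF-PD7] For invariants the restricted product bracket is the bracket of the restrictions.
PROOF. `rhoT_valT`, `valT_tbA`, `dgn_tbL` with `valT F`, `valT F'` (invariance: `valT_dact`; off-diagonal components: `T1a` with `hF x` giving `dact F - F = 0 ∈ I1`). -/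
theorem dgn_tbA (hT : TQ Q) {g g' : ℕ} {ε : L → Bool} {ε' : L' → Bool} (h : Closed hT P g (optS true ε))
    (h' : Closed hT P g' (optS false ε')) {F F' : AG hT g (optS true ε) ⊗[ℂ] AG hT g' (optS false ε')}
    (hF : ∀ x, dact hT g g' ε ε' x F = F) (hF' : ∀ x, dact hT g g' ε ε' x F' = F') :
    dgn _ X (rho1 hT g g' ε ε' (tbA hT P h h' F F')) =
      P.br (Sum.elim ε ε') (by exact dgn ((G.pow (L ⊕ L')).KO K) X (rho1 hT g g' ε ε' F))
        (by exact dgn ((G.pow (L ⊕ L')).KO K) X (rho1 hT g g' ε ε' F')) := by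
  rw [← rhoT_valT hT g g' ε ε' (tbA hT P h h' F F'), ← rhoT_valT hT g g' ε ε' F,
    ← rhoT_valT hT g g' ε ε' F', valT_tbA]
  exact dgn_tbL ε ε' (fun x => by rw [← valT_dact, hF x]) (fun x => by rw [← valT_dact, hF' x])
    (pd7s_off hT hF) (pd7s_off hT hF')

/-- [MTF-PD7] genus 0 with at least one leg. PROOF. `mem_AG`, `Fam0_br`. -/
theorem closed_zero (hT : TQ Q) (hP : PQ Q P) [Nonempty L] (ε : L → Bool) : Closed hT P 0 ε := by
  intro F F' hF hF'
  exact (mem_AG hT fun _ => inferInstance).2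
    (Fam0_br hT hP (AG_fam hT hF) (AG_fam hT hF'))

/-- [MTF-PD7] self-glueing raises the genus. PROOF. `C, C'` in `AG hT (g+1) ε`: `T2b` gives invariant `F, F'` with `res2 F.1 = C`, `res2 F'.1 = C'`; `F'' := ⟨br F.1 F'.1, _⟩` is invariant (`br_gact`), so
`res2 (br F.1 F'.1) ∈ AG hT (g+1) ε` (`T2a`), and it is `br C C'` (`br_res2`). -/
theorem closed_succ (hT : TQ Q) (hP : PQ Q P) (g : ℕ) (ε : L → Bool) (h : Closed hT P g (optS true (optS false ε))) :
    Closed hT P (g + 1) ε := by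
  intro C C' hC hC'
  obtain ⟨F, hF1, hF2⟩ := T2b (hT := hT) (g := g) (ε := ε) hC
  obtain ⟨F', hF1', hF2'⟩ := T2b (hT := hT) (g := g) (ε := ε) hC'
  have h1 : ∀ x, gact (pt2 x) F.1 = F.1 := fun x => congrArg Subtype.val (hF1 x)
  have h1' : ∀ x, gact (pt2 x) F'.1 = F'.1 := fun x => congrArg Subtype.val (hF1' x)
  have h2 := br_res2 (P := P) ε h1 h1'
  rw [hF2, hF2'] at h2
  rw [← h2]
  refine T2a (hT := hT) (g := g) (ε := ε)
    (F := ⟨P.br (optS true (optS false ε)) F.1 F'.1, h F.1 F'.1 F.2 F'.2⟩) fun x => ?_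
  have h3 : actAG hT g (optS true (optS false ε)) (pt2 x)
      ⟨P.br (optS true (optS false ε)) F.1 F'.1, h F.1 F'.1 F.2 F'.2⟩ =
      ⟨P.br (optS true (optS false ε)) F.1 F'.1, h F.1 F'.1 F.2 F'.2⟩ := by
    apply Subtype.ext
    show gact (pt2 x) (P.br (optS true (optS false ε)) F.1 F'.1) =
      P.br (optS true (optS false ε)) F.1 F'.1
    rw [← br_gact, h1 x, h1' x]
  rw [h3, sub_self]
  exact Ideal.zero_mem _

/-- [MTF-PD7] the sphere. PROOF. `T1b` for `L`, `L' := Empty` (or `L` twice) with `g = g' = 0`: for `L` empty use an equivalence `L ⊕ L ≃ L` and `mem_AG_re`, `br_re`.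
For `C, C' ∈ AG hT 0 (Sum.elim ε ε)` (legs `L ⊕ L`): `T1b` gives invariant `F, F'`; `tbA F F'` is invariant (`dact_tbA`); `T1a'` and `dgn_tbA`. -/
theorem pd7_join (hT : TQ Q) (hP : PQ Q P) (ε : L → Bool) (ε' : L' → Bool) :
    Closed hT P (0 + 0) (Sum.elim ε ε') := by
  intro C C' hC hC'
  have hc : Closed hT P 0 (optS true ε) := closed_zero hT hP _
  have hc' : Closed hT P 0 (optS false ε') := closed_zero hT hP _
  obtain ⟨F, hF1, hF2⟩ := T1b (hT := hT) (g := 0) (g' := 0) (ε := ε) (ε' := ε') hC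
  obtain ⟨F', hF1', hF2'⟩ := T1b (hT := hT) (g := 0) (g' := 0) (ε := ε) (ε' := ε') hC'
  have h2 := dgn_tbA hT hc hc' hF1 hF1'
  rw [hF2, hF2'] at h2
  rw [← h2]
  exact T1a' (hT := hT) (g := 0) (g' := 0) (ε := ε) (ε' := ε') (pd7s_inv hT fun x =>
    (dact_tbA hT hc hc' x F F').trans (congrArg₂ (fun A B => tbA hT P hc hc' A B) (hF1 x) (hF1' x)))

theorem closed_sphere (hT : TQ Q) (hP : PQ Q P) [IsEmpty L] (ε : L → Bool) : Closed hT P 0 ε := by
  intro C C' hC hC'
  have h := pd7_join hT hP ε ε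
  let e : L ≃ L ⊕ L := Equiv.equivOfIsEmpty L (L ⊕ L)
  have he : ∀ l, Sum.elim ε ε (e l) = ε l := fun l => isEmptyElim l
  have h1 := h _ _ ((mem_AG_re hT e he).2 hC) ((mem_AG_re hT e he).2 hC')
  rw [br_re e he] at h1
  exact (mem_AG_re hT e he).1 h1

/-- [MTF-PD7] THE RINGS ARE POISSON ALGEBRAS. PROOF. induction on `g` for all `L` at once; `closed_zero`, `closed_sphere`, `closed_succ`. -/
theorem closed_AG (hT : TQ Q) (hP : PQ Q P) (g : ℕ) (L : Type) [Fintype L] [DecidableEq L] (ε : L → Bool) :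
    Closed hT P g ε := by
  induction g generalizing L with
  | zero =>
    rcases isEmpty_or_nonempty L with hL | hL
    · exact closed_sphere hT hP ε
    · exact closed_zero hT hP ε
  | succ g ih =>
    exact closed_succ hT hP g ε (ih (Option (Option L)) (optS true (optS false ε)))

end

end Pool.Agent.MTF
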