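import Pool.Agent.MTF.RA
import Pool.Agent.MTF.F0c

/-! # MTF, part P : rationality of the action on the rings -/

set_option linter.unusedSectionVars false

namespace Pool.Agent.MTF

open AffGrp

section
variable {G : AffGrp} {K W X : Type} [Field K] [Algebra ℂ K] [Group W] [Fintype W]
  [MulSemiringAction W K] [SMulCommClass W ℂ K] [AddCommGroup X] [DistribMulAction W X]
variable {Q : TQD G K W X}
variable {L : Type} [Fintype L] [DecidableEq L]

theorem pe0_fin_rep {Y V : Type} [AddCommGroup V] [Module ℂ V] (U : Submodule ℂ V)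
    (S : Submodule ℂ (Y → ℂ)) {n : ℕ} (A : Fin n → Y → ℂ) (hA : ∀ i, A i ∈ S) (B : Fin n → V)
    (h : ∀ y, ∑ i, A i y • B i ∈ U) : ∃ (r : ℕ) (A' : Fin r → Y → ℂ) (B' : Fin r → V),
      (∀ t, A' t ∈ S) ∧ (∀ t, B' t ∈ U) ∧ (∀ y, ∑ i, A i y • B i = ∑ t, A' t y • B' t) ∧
        LinearIndependent ℂ A' := by
  classical
  set Wd : Submodule ℂ (Y → ℂ) := Submodule.span ℂ (Set.range A) with hWd
  have : FiniteDimensional ℂ Wd := FiniteDimensional.span_of_finite ℂ (Set.finite_range A)
  let b := Module.finBasis ℂ Wd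
  have hAm : ∀ i, A i ∈ Wd := fun i => Submodule.subset_span ⟨i, rfl⟩
  have hexp : ∀ i y, A i y = ∑ t, b.repr ⟨A i, hAm i⟩ t * (b t).1 y := by
    intro i y
    have h1 := b.sum_repr ⟨A i, hAm i⟩
    have h2 := congrArg (fun z : Wd => z.1 y) h1
    have h3 : (∑ t, b.repr ⟨A i, hAm i⟩ t • b t : Wd).1 y =
        ∑ t, b.repr ⟨A i, hAm i⟩ t * (b t).1 y := by
      rw [Submodule.coe_sum, Finset.sum_apply]
      rfl
    rw [← h3]
    exact h2.symm
  have hsum : ∀ y, ∑ i, A i y • B i = ∑ t, (b t).1 y • ∑ i, b.repr ⟨A i, hAm i⟩ t • B i := by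
    intro y
    simp only [Finset.smul_sum]
    rw [Finset.sum_comm]
    refine Finset.sum_congr rfl fun i _ => ?_
    rw [hexp i y, Finset.sum_smul]
    refine Finset.sum_congr rfl fun t _ => ?_
    rw [smul_smul, mul_comm]
  refine ⟨_, fun t => (b t).1, fun t => ∑ i, b.repr ⟨A i, hAm i⟩ t • B i, fun t => ?_, fun t => ?_,
    hsum, b.linearIndependent.map' (Submodule.subtype _) (Submodule.ker_subtype _)⟩
  · have h1 : Wd ≤ S := by
      rw [hWd, Submodule.span_le]
      rintro _ ⟨i, rfl⟩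
      exact hA i
    exact h1 (b t).2
  · rw [← Submodule.Quotient.mk_eq_zero, ← Module.forall_dual_apply_eq_zero_iff ℂ]
    intro θ
    have h1 : ∑ t, θ (Submodule.Quotient.mk (∑ i, b.repr ⟨A i, hAm i⟩ t • B i)) • b t = 0 := by
      apply Subtype.ext
      funext y
      have h2 := (Submodule.Quotient.mk_eq_zero U).2 (h y)
      rw [hsum y] at h2
      have h3 := congrArg θ h2
      rw [map_zero, ← Submodule.mkQ_apply, map_sum, map_sum] at h3
      have h4 : (∑ t, θ (Submodule.Quotient.mk (∑ i, b.repr ⟨A i, hAm i⟩ t • B i)) • b t : Wd).1 y =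
          ∑ t, θ (Submodule.Quotient.mk (∑ i, b.repr ⟨A i, hAm i⟩ t • B i)) * (b t).1 y := by
        rw [Submodule.coe_sum, Finset.sum_apply]
        rfl
      rw [h4]
      show _ = (0 : ℂ)
      rw [← h3]
      refine Finset.sum_congr rfl fun t _ => ?_
      rw [map_smul, map_smul, smul_eq_mul, mul_comm]
      rfl
    exact Fintype.linearIndependent_iff.1 b.linearIndependent _ h1 t

/-- a function on `X` acts on the components -/
def pe0_P (F : RR G K X L) : Prop :=
  ∃ (n : ℕ) (f : Fin n → (G.pow L).O) (B : Fin n → RR G K X L),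
    ∀ x : L → G.X, gact x F = ∑ i, (f i).1 x • B i

theorem pe0_zero : pe0_P (0 : RR G K X L) :=
  ⟨0, Fin.elim0, Fin.elim0, fun x => by rw [map_zero, Finset.univ_eq_empty, Finset.sum_empty]⟩

theorem pe0_add {F F' : RR G K X L} (h : pe0_P F) (h' : pe0_P F') : pe0_P (F + F') := by
  obtain ⟨n, f, B, h⟩ := h
  obtain ⟨n', f', B', h'⟩ := h'
  refine ⟨n + n', Fin.append f f', Fin.append B B', fun x => ?_⟩
  rw [map_add, h x, h' x, Fin.sum_univ_add]
  simp only [Fin.append_left, Fin.append_right]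

theorem pe0_single (m : X) (a : (G.pow L).KO K) : pe0_P (AddMonoidAlgebra.single m a) := by
  obtain ⟨n, c, h, rfl⟩ := KO_eq_sum a
  have h1 : (AddMonoidAlgebra.single m (∑ i, c i • inc K (h i)) : RR G K X L) =
      ∑ i, AddMonoidAlgebra.single m (c i • inc K (h i)) :=
    map_sum (AddMonoidAlgebra.singleAddHom m) _ _
  rw [h1]
  refine Finset.sum_induction _ pe0_P (fun _ _ => pe0_add) pe0_zero fun i _ => ?_
  obtain ⟨r, u, v, huv⟩ := (G.pow L).mul_mem (h i).1 (h i).2
  refine ⟨r, fun t => ⟨fun x => (u t).1 x⁻¹, (G.pow L).inv_mem _ (u t).2⟩,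
    fun t => AddMonoidAlgebra.single m (c i • inc K (v t)), fun x => ?_⟩
  have h2 : tr K x (c i • inc K (h i)) = ∑ t, (u t).1 x⁻¹ • (c i • inc K (v t)) := by
    apply KO_ext
    intro (k : L → G.X)
    rw [tr_apply, KO_sum]
    have h3 : ∀ t, ((u t).1 x⁻¹ • (c i • inc K (v t)) : (G.pow L).KO K).1 k =
        algebraMap ℂ K ((u t).1 x⁻¹) * (c i * algebraMap ℂ K ((v t).1 k)) := fun t =>
      Algebra.smul_def _ _
    simp only [h3]
    show c i * algebraMap ℂ K ((h i).1 (x⁻¹ * k : L → G.X)) = _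
    have h4 : (h i).1 (x⁻¹ * k : L → G.X) = ∑ t, (u t).1 x⁻¹ * (v t).1 k := huv x⁻¹ k
    rw [h4, map_sum, Finset.mul_sum]
    refine Finset.sum_congr rfl fun t _ => ?_
    rw [map_mul]
    ring
  have h5 : gact x (AddMonoidAlgebra.single m (c i • inc K (h i)) : RR G K X L) =
      AddMonoidAlgebra.single m (tr K x (c i • inc K (h i))) := by
    apply AddMonoidAlgebra.coeff_injective
    apply Finsupp.ext
    intro m'
    rw [coeff_gact, AddMonoidAlgebra.coeff_single, AddMonoidAlgebra.coeff_single]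
    classical
    rw [Finsupp.single_apply, Finsupp.single_apply]
    split_ifs
    · rfl
    · exact map_zero _
  rw [h5, h2]
  have h6 : (AddMonoidAlgebra.single m (∑ t, (u t).1 x⁻¹ • (c i • inc K (v t))) : RR G K X L) =
      ∑ t, AddMonoidAlgebra.single m ((u t).1 x⁻¹ • (c i • inc K (v t))) :=
    map_sum (AddMonoidAlgebra.singleAddHom m) _ _
  rw [h6]
  refine Finset.sum_congr rfl fun t _ => ?_
  exact (AddMonoidAlgebra.smul_single _ _ _).symm

theorem pe0_all (F : RR G K X L) : pe0_P F := by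
  induction F using AddMonoidAlgebra.induction_linear with
  | zero => exact pe0_zero
  | add a b ha hb => exact pe0_add ha hb
  | single m a => exact pe0_single m a

/-- [MTF-PE0] PROOF. Finitely many coefficients, each `∑ c_j inc (f_j)` (`KO_rep`); `f_j (x⁻¹ k) = ∑ a(x⁻¹) b(k)` (`(G.pow L).mul_mem`, `inv_mem`).  Sum over the support of `F.coeff`
(`AddMonoidAlgebra.sum_coeff_single`), e.g. by `AddMonoidAlgebra.induction_linear`: sums by `Fin.append`. -/
theorem gact_exp (F : RR G K X L) : ∃ (n : ℕ) (f : Fin n → (G.pow L).O) (c : Fin n → RR G K X L),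
    ∀ x : L → G.X, gact x F = ∑ i, (f i).1 x • c i := pe0_all F

/-- [MTF-PE0] the same with linearly independent `f`. PROOF. Take `n` minimal, or a basis of the span of the `f i` and collect. -/
theorem gact_exp' (F : RR G K X L) : ∃ (n : ℕ) (f : Fin n → (G.pow L).O) (c : Fin n → RR G K X L),
    LinearIndependent ℂ f ∧ ∀ x : L → G.X, gact x F = ∑ i, (f i).1 x • c i := by
  obtain ⟨n, f, B, h⟩ := gact_exp F
  obtain ⟨r, A', B', hA', -, hs, hli⟩ := pe0_fin_rep (⊤ : Submodule ℂ (RR G K X L))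
    (Subalgebra.toSubmodule (G.pow L).O) (fun i => (f i).1) (fun i => (f i).2) B
    (fun x => Submodule.mem_top)
  refine ⟨r, fun t => ⟨A' t, hA' t⟩, B', ?_, fun x => ?_⟩
  · refine LinearIndependent.of_comp (Subalgebra.val (G.pow L).O).toLinearMap ?_
    exact hli
  · rw [h x]
    exact hs x

/-- [MTF-PE0] the coefficients are in the ring.
PROOF. `f` linearly independent functions: there are points `x_1 .. x_n` with `(f_i (x_j))` invertible (the evaluation vectors `(f_i (x))_i` span `ℂⁿ`: otherwise a linear relation between the `f_i`),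
so every `c i` is a combination of the `gact x_j F`, which are in the ring (`gact_mem`). -/
theorem actR_rat (hT : TQ Q) (g : ℕ) (ε : L → Bool) (F : RA hT g ε) :
    ∃ (n : ℕ) (f : Fin n → (G.pow L).O) (c : Fin n → RA hT g ε),
      ∀ x : L → G.X, actR hT x F = ∑ i, (f i).1 x • c i := by
  obtain ⟨n, f, B, h⟩ := gact_exp (rv hT g ε F)
  obtain ⟨r, A', B', hA', hB', hs, -⟩ := pe0_fin_rep (Subalgebra.toSubmodule (AG hT g ε))
    (Subalgebra.toSubmodule (G.pow L).O) (fun i => (f i).1) (fun i => (f i).2) B (fun x => by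
      have h1 : ∑ i, (f i).1 x • B i = gact x (rv hT g ε F) := (h x).symm
      rw [h1]
      exact gact_mem hT x (rv_mem hT g ε F))
  refine ⟨r, fun t => ⟨A' t, hA' t⟩, fun t => ra hT g ε (B' t) (hB' t), fun x => ?_⟩
  apply rv_inj hT g ε
  rw [rv_actR, h x, map_sum]
  refine (hs x).trans (Finset.sum_congr rfl fun t _ => ?_)
  rw [map_smul, rv_ra]

/-- [MTF-PE0] functions on `G^(I ⊕ J)`. PROOF. `Algebra.adjoin_induction` on `f ∈ G.powO (I ⊕ J)` (as `LP.powO_split`). -/
theorem powO_sum {I J : Type} [Finite I] [Finite J] (f : (G.pow (I ⊕ J)).O) : ∃ (n : ℕ)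
    (a : Fin n → (G.pow I).O) (b : Fin n → (G.pow J).O), ∀ (x : I → G.X) (y : J → G.X),
      f.1 (Sum.elim x y) = ∑ i, (a i).1 x * (b i).1 y := by
  obtain ⟨f, hf⟩ := f
  have hf' : f ∈ G.powO (I ⊕ J) := hf
  show ∃ (n : ℕ) (a : Fin n → (G.pow I).O)
    (b : Fin n → (G.pow J).O), ∀ (k : I → G.X) (k' : J → G.X),
      f (Sum.elim k k') = ∑ j, (a j).1 k * (b j).1 k'
  clear hf
  unfold powO at hf'
  induction hf' using Algebra.adjoin_induction with
  | mem F hF =>
    obtain ⟨i, f, rfl⟩ := hF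
    cases i with
    | inl i =>
      refine ⟨1, fun _ => G.pull i f, fun _ => 1, fun k k' => ?_⟩
      rw [Fin.sum_univ_one]
      show f.1 (k i) = f.1 (k i) * 1
      rw [mul_one]
    | inr i =>
      refine ⟨1, fun _ => 1, fun _ => G.pull i f, fun k k' => ?_⟩
      rw [Fin.sum_univ_one]
      show f.1 (k' i) = 1 * f.1 (k' i)
      rw [one_mul]
  | algebraMap c =>
    refine ⟨1, fun _ => algebraMap ℂ _ c, fun _ => 1, fun k k' => ?_⟩
    rw [Fin.sum_univ_one]
    show c = c * 1
    rw [mul_one]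
  | add F F' _ _ ih ih' =>
    obtain ⟨n, a, b, h⟩ := ih
    obtain ⟨n', a', b', h'⟩ := ih'
    refine ⟨n + n', Fin.append a a', Fin.append b b', fun k k' => ?_⟩
    rw [Fin.sum_univ_add]
    simp only [Fin.append_left, Fin.append_right]
    rw [← h, ← h']
    rfl
  | mul F F' _ _ ih ih' =>
    obtain ⟨n, a, b, h⟩ := ih
    obtain ⟨n', a', b', h'⟩ := ih'
    refine ⟨n * n', fun j => a (finProdFinEquiv.symm j).1 * a' (finProdFinEquiv.symm j).2,
      fun j => b (finProdFinEquiv.symm j).1 * b' (finProdFinEquiv.symm j).2, fun k k' => ?_⟩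
    show F (Sum.elim k k') * F' (Sum.elim k k') = _
    rw [h, h', Finset.sum_mul_sum, ← Equiv.sum_comp finProdFinEquiv, Fintype.sum_prod_type]
    refine Finset.sum_congr rfl fun i _ => Finset.sum_congr rfl fun l _ => ?_
    simp only [Equiv.symm_apply_apply]
    show _ = ((a i).1 k * (a' l).1 k) * ((b i).1 k' * (b' l).1 k')
    ring

end

end Pool.Agent.MTF
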