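import Pool.Agent.MTF.PE0
import Pool.Agent.MTF.PB8
import Pool.Agent.MTF.PD7

/-! # MTF, part P : the Hamiltonian spaces of connected surfaces, ingredients -/

set_option linter.unusedSectionVars false

namespace Pool.Agent.MTF

open AffGrp

section
variable {G : AffGrp} {K W X : Type} [Field K] [Algebra ℂ K] [Group W] [Fintype W]
  [MulSemiringAction W K] [SMulCommClass W ℂ K] [AddCommGroup X] [DistribMulAction W X]
variable {Q : TQD G K W X}
variable {P : PD Q}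
variable {L : Type} [Fintype L] [DecidableEq L]

variable {I J : Type} [Fintype I] [DecidableEq I] [Fintype J] [DecidableEq J]

/-- incoming circles have sign `+`, outgoing circles have sign `-` -/
def sIJ (I J : Type) : I ⊕ J → Bool := Sum.elim (fun _ => true) (fun _ => false)

/-- the action of `G^I × G^J` -/
noncomputable def actIJ (hT : TQ Q) (g : ℕ) : (G.pow I).X × (G.pow J).X →* (RA hT g (sIJ I J) ≃ₐ[ℂ] RA hT g (sIJ I J)) where
  toFun p := actR hT (Sum.elim p.1 p.2 : I ⊕ J → G.X)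
  map_one' := by
    apply AlgEquiv.ext
    intro F
    have : (Sum.elim (1 : I → G.X) (1 : J → G.X)) = 1 := by
      funext x
      cases x <;> rfl
    exact (congrArg (fun x => actR hT x F) this).trans (actR_one hT F)
  map_mul' p q := by
    apply AlgEquiv.ext
    intro F
    have : (Sum.elim ((p * q).1 : I → G.X) ((p * q).2 : J → G.X)) = Sum.elim (p.1 : I → G.X) (p.2 : J → G.X) * Sum.elim (q.1 : I → G.X) (q.2 : J → G.X) := by
      funext x
      cases x <;> rfl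
    exact (congrArg (fun x => actR hT x F) this).trans (actR_mul hT _ _ F)

theorem actIJ_apply (hT : TQ Q) (g : ℕ) (x : I → G.X) (y : J → G.X) (a : RA hT g (sIJ I J)) :
    actIJ hT g (x, y) a = actR hT (Sum.elim x y : I ⊕ J → G.X) a := rfl

/-- the moment map of the incoming circles -/
noncomputable def muI (hT : TQ Q) (g : ℕ) (I J : Type) [Fintype I] [DecidableEq I] [Fintype J] [DecidableEq J] :
    (G.pow I).Lie →ₗ[ℂ] RA hT g (sIJ I J) := ∑ i, muR hT g (sIJ I J) (Sum.inl i) ∘ₗ G.lpr i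

/-- the moment map of the outgoing circles -/
noncomputable def nuJ (hT : TQ Q) (g : ℕ) (I J : Type) [Fintype I] [DecidableEq I] [Fintype J] [DecidableEq J] :
    (G.pow J).Lie →ₗ[ℂ] RA hT g (sIJ I J) := ∑ j, muR hT g (sIJ I J) (Sum.inr j) ∘ₗ G.lpr j

theorem muI_apply (hT : TQ Q) (g : ℕ) (D : (G.pow I).Lie) :
    muI hT g I J D = ∑ i, muR hT g (sIJ I J) (Sum.inl i) (G.lpr i D) := by
  unfold muI
  rw [LinearMap.sum_apply]
  rfl

theorem nuJ_apply (hT : TQ Q) (g : ℕ) (D : (G.pow J).Lie) :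
    nuJ hT g I J D = ∑ j, muR hT g (sIJ I J) (Sum.inr j) (G.lpr j D) := by
  unfold nuJ
  rw [LinearMap.sum_apply]
  rfl

/-- [MTF-PE1] PROOF. `actR_rat` and `powO_sum`. -/
theorem actIJ_rat (hT : TQ Q) (g : ℕ) (a : RA hT g (sIJ I J)) :
    ∃ (n : ℕ) (f : Fin n → (G.pow I).O) (f' : Fin n → (G.pow J).O) (c : Fin n → RA hT g (sIJ I J)),
      ∀ (x : (G.pow I).X) (y : (G.pow J).X), actIJ hT g (x, y) a = ∑ i, ((f i).1 x * (f' i).1 y) • c i := by
  obtain ⟨n, f, c, hf⟩ := actR_rat hT g (sIJ I J) a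
  choose m u v huv using fun i : Fin n => powO_sum (G := G) (I := I) (J := J) (f i)
  refine ⟨∑ i, m i, fun k => u (finSigmaFinEquiv.symm k).1 (finSigmaFinEquiv.symm k).2,
    fun k => v (finSigmaFinEquiv.symm k).1 (finSigmaFinEquiv.symm k).2,
    fun k => c (finSigmaFinEquiv.symm k).1, fun x y => ?_⟩
  rw [actIJ_apply, hf]
  have h1 : ∀ i : Fin n, (f i).1 (Sum.elim x y : I ⊕ J → G.X) • c i =
      ∑ k : Fin (m i), ((u i k).1 x * (v i k).1 y) • c i := by
    intro i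
    rw [← Finset.sum_smul]
    exact congrArg (fun z : ℂ => z • c i) (huv i x y)
  rw [Finset.sum_congr rfl fun i _ => h1 i]
  rw [← Equiv.sum_comp finSigmaFinEquiv (fun k : Fin (∑ i, m i) =>
    ((u (finSigmaFinEquiv.symm k).1 (finSigmaFinEquiv.symm k).2).1 x *
      (v (finSigmaFinEquiv.symm k).1 (finSigmaFinEquiv.symm k).2).1 y) •
        c (finSigmaFinEquiv.symm k).1)]
  rw [Fintype.sum_sigma]
  refine Finset.sum_congr rfl fun i _ => Finset.sum_congr rfl fun k _ => ?_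
  rw [Equiv.symm_apply_apply]

theorem pe1_Ad_mul (k y : G.X) (D : G.Lie) : G.Ad (k * y) D = G.Ad k (G.Ad y D) := by
  apply Subtype.ext
  apply LinearMap.ext
  intro f
  show D.1 (G.cj (k * y) f) = D.1 (G.cj y (G.cj k f))
  congr 1
  apply Subtype.ext
  funext z
  show f.1 (k * y * z * (k * y)⁻¹) = f.1 (k * (y * z * y⁻¹) * k⁻¹)
  group

theorem pe1_Ad_one (D : G.Lie) : G.Ad (1 : G.X) D = D := by
  apply Subtype.ext
  apply LinearMap.ext
  intro f
  show D.1 (G.cj 1 f) = D.1 f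
  congr 1
  apply Subtype.ext
  funext z
  show f.1 (1 * z * 1⁻¹) = f.1 z
  group

theorem pe1_cj_der (x : G.X) (E : G.Lie) (f : G.O) :
    G.cj x (G.der (G.Ad x E) f) = G.der E (G.cj x f) := by
  apply Subtype.ext
  funext y
  show E.1 (G.cj x (G.lt (x * y * x⁻¹) f)) = E.1 (G.lt y (G.cj x f))
  congr 1
  apply Subtype.ext
  funext z
  show f.1 (x * y * x⁻¹ * (x * z * x⁻¹)) = f.1 (x * (y * z) * x⁻¹)
  group

theorem pe1_Ad_br (x : G.X) (D E : G.Lie) :
    G.Ad x (G.br D E) = G.br (G.Ad x D) (G.Ad x E) := by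
  apply Subtype.ext
  apply LinearMap.ext
  intro f
  show D.1 (G.der E (G.cj x f)) - E.1 (G.der D (G.cj x f)) =
    D.1 (G.cj x (G.der (G.Ad x E) f)) - E.1 (G.cj x (G.der (G.Ad x D) f))
  rw [pe1_cj_der, pe1_cj_der]

/-- the adjoint action as a linear equivalence -/
noncomputable def pe1_AdE (x : G.X) : G.Lie ≃ₗ[ℂ] G.Lie :=
  LinearEquiv.ofLinearMap (G.Ad x) (G.Ad x⁻¹)
    (LinearMap.ext fun D => by
      show G.Ad x (G.Ad x⁻¹ D) = D
      rw [← pe1_Ad_mul, mul_inv_cancel, pe1_Ad_one])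
    (LinearMap.ext fun D => by
      show G.Ad x⁻¹ (G.Ad x D) = D
      rw [← pe1_Ad_mul, inv_mul_cancel, pe1_Ad_one])

theorem pe1_ad_Ad (x : G.X) (D : G.Lie) :
    G.ad (G.Ad x D) = (pe1_AdE x).conj (G.ad D) := by
  apply LinearMap.ext
  intro E
  show G.br (G.Ad x D) E = G.Ad x (G.br D (G.Ad x⁻¹ E))
  rw [pe1_Ad_br, ← pe1_Ad_mul, mul_inv_cancel, pe1_Ad_one]

/-- the Killing form is invariant -/
theorem pe1_killing (x : G.X) (D E : G.Lie) :
    G.killing (G.Ad x D) (G.Ad x E) = G.killing D E := by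
  unfold AffGrp.killing
  rw [pe1_ad_Ad, pe1_ad_Ad, ← LinearEquiv.conj_comp, LinearMap.trace_conj']

theorem pe1_killing' (x : G.X) (D E : G.Lie) :
    G.killing (G.Ad x D) E = G.killing D (G.Ad x⁻¹ E) := by
  rw [← pe1_killing x⁻¹ (G.Ad x D) E, ← pe1_Ad_mul, inv_mul_cancel, pe1_Ad_one]

/-- [MTF-PE1] equivariance of the moment maps. PROOF. `(muF Q l D)(x⁻¹ k) = κ(D, Ad_{x_l}⁻¹ Ad_{k_l} s) = κ(Ad_{x_l} D, Ad_{k_l} s)` (`muF_apply`, invariance of the Killing form under `Ad`: `G.Ad x` is an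
automorphism of the Lie algebra, `ad (Ad x E) = Ad x ∘ ad E ∘ Ad x⁻¹`, trace). -/
theorem actR_muR (hT : TQ Q) (g : ℕ) (ε : L → Bool) (l : L) (D : G.Lie) (x : L → G.X) :
    actR hT x (muR hT g ε l D) = muR hT g ε l (G.Ad (x l) D) := by
  apply rv_inj hT g ε
  rw [rv_actR, rv_muR, rv_muR]
  apply RR_ext
  intro m k
  change L → G.X at k
  rw [gact_apply, muF_apply, muF_apply, AddMonoidAlgebra.coeff_single,
    AddMonoidAlgebra.coeff_single]
  by_cases hm : (0 : X) = m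
  · rw [← hm, Finsupp.single_eq_same, Finsupp.single_eq_same]
    show (muO Q D).1 ((x⁻¹ * k : L → G.X) l) = (muO Q (G.Ad (x l) D)).1 (k l)
    rw [muO_apply, muO_apply]
    refine Finset.sum_congr rfl fun j _ => ?_
    rw [pe1_killing', ← pe1_Ad_mul]
    rfl
  · rw [Finsupp.single_eq_of_ne (Ne.symm hm), Finsupp.single_eq_of_ne (Ne.symm hm)]
    rfl

/-- [MTF-PE1] PROOF. `actR_muR`, `lpr_Ad`. -/
theorem actIJ_mu (hT : TQ Q) (g : ℕ) (x : (G.pow I).X) (y : (G.pow J).X) (D : (G.pow I).Lie) :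
    actIJ hT g (x, y) (muI hT g I J D) = muI hT g I J ((G.pow I).Ad x D) := by
  rw [actIJ_apply, muI_apply, muI_apply, map_sum]
  refine Finset.sum_congr rfl fun i _ => ?_
  rw [actR_muR, lpr_Ad]
  rfl

theorem actIJ_nu (hT : TQ Q) (g : ℕ) (x : (G.pow I).X) (y : (G.pow J).X) (D : (G.pow J).Lie) :
    actIJ hT g (x, y) (nuJ hT g I J D) = nuJ hT g I J ((G.pow J).Ad y D) := by
  rw [actIJ_apply, nuJ_apply, nuJ_apply, map_sum]
  refine Finset.sum_congr rfl fun i _ => ?_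
  rw [actR_muR, lpr_Ad]
  rfl

end

end Pool.Agent.MTF
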