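import Pool.Agent.MTF.PE1

/-! # MTF, part P : the Hamiltonian spaces of connected surfaces -/

set_option linter.unusedSectionVars false

namespace Pool.Agent.MTF

open AffGrp

section
variable {G : AffGrp} {K W X : Type} [Field K] [Algebra ℂ K] [Group W] [Fintype W]
  [MulSemiringAction W K] [SMulCommClass W ℂ K] [AddCommGroup X] [DistribMulAction W X]
variable {Q : TQD G K W X}
variable {P : PD Q}
variable {L : Type} [Fintype L] [DecidableEq L]

variable {I J : Type} [Fintype I] [DecidableEq I] [Fintype J] [DecidableEq J]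

theorem pe2_der {H : AffGrp} {A : Type} [CommRing A] [Algebra ℂ A] (D : H.O →ₗ[ℂ] ℂ) {n n' : ℕ}
    (f : Fin n → H.O) (c : Fin n → A) (f' : Fin n' → H.O) (c' : Fin n' → A) (z : H.X → A)
    (h : ∀ g, z g = ∑ i, (f i).1 g • c i) (h' : ∀ g, z g = ∑ i, (f' i).1 g • c' i) :
    ∑ i, D (f i) • c i = ∑ i, D (f' i) • c' i :=
  der_expand D f c f' c' fun g => by rw [← h, ← h']

theorem pe2_neg {A : Type} [CommRing A] [Algebra ℂ A] (B : A →ₗ[ℂ] A →ₗ[ℂ] A) (x a y : A)
    (h : B (-x) a = y) : B x a = -y := by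
  rw [map_neg, LinearMap.neg_apply] at h
  rw [← h, neg_neg]

theorem pe2_sum_neg {A ι : Type} [CommRing A] [Fintype ι] (u v : ι → A) (h : ∀ i, u i = - v i) :
    ∑ i, u i = - ∑ i, v i := by
  rw [← Finset.sum_neg_distrib]
  exact Finset.sum_congr rfl fun i _ => h i

theorem pe2_m1 {A : Type} [CommRing A] (u : A) : (-1 : ℤ) • u = -u := by
  rw [neg_one_zsmul]

theorem pe2_isEF (hT : TQ Q) {g : ℕ} {ε : L → Bool} {F : RR G K X L} (h : F ∈ AG hT g ε) : IsEF Q ε F :=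
  fun m l => (AG_fam hT h).wt m l

/-- restriction of functions along a morphism -/
def pe2_r {L L' : Type} [Finite L] [Finite L'] (π : (L' → G.X) → (L → G.X))
    (hπ : ∀ l, ∀ f ∈ G.O, (fun y => f (π y l)) ∈ (G.pow L').O) : (G.pow L).O →ₗ[ℂ] (G.pow L').O where
  toFun F := ⟨fun y => F.1 (π y), pow_mem G (H := G.pow L') π hπ F.2⟩
  map_add' _ _ := rfl
  map_smul' _ _ := rfl

/-- push forward of an element of the Lie algebra -/
theorem pe2_push {L L' : Type} [Finite L] [Finite L'] (π : (L' → G.X) → (L → G.X))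
    (hπ : ∀ l, ∀ f ∈ G.O, (fun y => f (π y l)) ∈ (G.pow L').O) (h1 : π 1 = 1) (D : (G.pow L').Lie)
    (d : L → G.Lie)
    (hd : ∀ (l : L) (f : G.O), (d l).1 f = D.1 (pe2_r π hπ (G.pull l f))) (F : (G.pow L).O) :
    (G.pl d).1 F = D.1 (pe2_r π hπ F) := by
  obtain ⟨E, hE⟩ : ∃ E : (G.pow L).Lie, ∀ F : (G.pow L).O, E.1 F = D.1 (pe2_r π hπ F) := by
    refine ⟨⟨D.1 ∘ₗ pe2_r π hπ, ?_⟩, fun F => rfl⟩
    intro f g
    have h2 := D.2 (pe2_r π hπ f) (pe2_r π hπ g)
    have h3 : pe2_r π hπ f * pe2_r π hπ g = pe2_r π hπ (f * g) := rfl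
    have h4 : ∀ f : (G.pow L).O, (pe2_r π hπ f).1 1 = f.1 1 := by
      intro f
      show f.1 (π 1) = f.1 1
      exact congrArg f.1 h1
    rw [h3, h4, h4] at h2
    exact h2
  have h5 : G.pl d = E := by
    apply lie_ext
    intro l
    rw [lpr_pl]
    apply Subtype.ext
    apply LinearMap.ext
    intro f
    rw [hd]
    exact (hE _).symm
  rw [h5, hE]

theorem pe2_gen (hT : TQ Q) (hP : PQ Q P) (g : ℕ) (ε : L → Bool) (hcl : Closed hT P g ε)
    (D : (G.pow L).Lie) (a : RA hT g ε) (n : ℕ)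
    (f : Fin n → (G.pow L).O) (c : Fin n → RA hT g ε)
    (h : ∀ x : L → G.X, actR hT x a = ∑ i, (f i).1 x • c i) :
    brR hT P hcl (∑ l, sgn (ε l) • muR hT g ε l (G.lpr l D)) a = ∑ i, D.1 (f i) • c i := by
  apply rv_inj hT g ε
  have h1 := br_muT hT hP (pe2_isEF hT (rv_mem hT g ε a)) D f (fun i => rv hT g ε (c i)) (by
    intro x
    have h2 := congrArg (rv hT g ε) (h x)
    rw [rv_actR, map_sum] at h2
    rw [h2]
    refine Finset.sum_congr rfl fun i _ => ?_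
    rw [map_smul])
  rw [rv_brR, map_sum, map_sum]
  have e1 : ∑ l, rv hT g ε (sgn (ε l) • muR hT g ε l (G.lpr l D)) =
      ∑ l, sgn (ε l) • muF Q l (G.lpr l D) := by
    refine Finset.sum_congr rfl fun l _ => ?_
    rw [map_zsmul, rv_muR]
  rw [e1, h1]
  refine Finset.sum_congr rfl fun i _ => ?_
  rw [map_smul]

theorem pe2_pi_mem (l : I ⊕ J) (f : G.X → ℂ) (hf : f ∈ G.O) :
    (fun y : I → G.X => f ((Sum.elim y (1 : J → G.X) : I ⊕ J → G.X) l)) ∈ (G.pow I).O := by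
  show _ ∈ G.powO I
  cases l with
  | inl i => exact Algebra.subset_adjoin ⟨i, ⟨f, hf⟩, rfl⟩
  | inr j => exact Subalgebra.algebraMap_mem (G.powO I) (f 1)

theorem pe2_pj_mem (l : I ⊕ J) (f : G.X → ℂ) (hf : f ∈ G.O) :
    (fun y : J → G.X => f ((Sum.elim (1 : I → G.X) y : I ⊕ J → G.X) l)) ∈ (G.pow J).O := by
  show _ ∈ G.powO J
  cases l with
  | inl i => exact Subalgebra.algebraMap_mem (G.powO J) (f 1)
  | inr j => exact Algebra.subset_adjoin ⟨j, ⟨f, hf⟩, rfl⟩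

theorem pe2_elim_one : (Sum.elim (1 : I → G.X) (1 : J → G.X) : I ⊕ J → G.X) = 1 := by
  funext x
  cases x <;> rfl

/-- [MTF-PE2] the moment map of `G^I` generates the action.
PROOF. `actR_rat`: `actR z a = ∑ F_i(z) c_i` for `z` in `G^(I ⊕ J)`.  Apply `br_muT` (through `rv`) with the element `D~ := G.pl (Sum.elim (fun i => lpr i D) 0)` of `(G.pow (I ⊕ J)).Lie`:
`∑_l ε_l muF l (lpr l D~) = ` the inclusion of `muI D` (`ε (inl i) = +`), so `br (muI D) a = ∑ D~ (F_i) c_i`, and `D~ (F) = D (x ↦ F (Sum.elim x 1))` (`lie_ext`: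
both sides define elements of the Lie algebra with the same components).  So `br (muI D) a` is the derivative of ONE expansion `x ↦ ∑ F_i (Sum.elim x 1) c_i` of `x ↦ actIJ (x, 1) a`; by `der_expand` the
derivative does not depend on the expansion. -/
theorem mu_genIJ (hT : TQ Q) (hP : PQ Q P) (g : ℕ) (D : (G.pow I).Lie) (a : RA hT g (sIJ I J)) (n : ℕ)
    (f : Fin n → (G.pow I).O) (c : Fin n → RA hT g (sIJ I J))
    (h : ∀ x : (G.pow I).X, actIJ hT g (x, 1) a = ∑ i, (f i).1 x • c i) :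
    brR hT P (closed_AG hT hP g (I ⊕ J) (sIJ I J)) (muI hT g I J D) a = ∑ i, D.1 (f i) • c i := by
  obtain ⟨n', f', c', h'⟩ := actR_rat hT g (sIJ I J) a
  have hd : ∀ (l : I ⊕ J) (φ : G.O),
      ((Sum.elim (fun i => G.lpr i D) (fun _ => 0) : I ⊕ J → G.Lie) l).1 φ =
        D.1 (pe2_r (fun y : I → G.X => (Sum.elim y (1 : J → G.X) : I ⊕ J → G.X)) pe2_pi_mem
          (G.pull l φ)) := by
    rintro (i | j) φ
    · rfl
    · exact (lie_const (G.pow I) D (φ.1 1)).symm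
  have hpush := pe2_push (fun y : I → G.X => (Sum.elim y (1 : J → G.X) : I ⊕ J → G.X)) pe2_pi_mem
    pe2_elim_one D _ hd
  have h1 := pe2_gen hT hP g (sIJ I J) (closed_AG hT hP g (I ⊕ J) (sIJ I J))
    (G.pl (Sum.elim (fun i => G.lpr i D) (fun _ => 0) : I ⊕ J → G.Lie)) a n' f' c' h'
  have h2 : ∑ l, sgn (sIJ I J l) • muR hT g (sIJ I J) l
      (G.lpr l (G.pl (Sum.elim (fun i => G.lpr i D) (fun _ => 0) : I ⊕ J → G.Lie))) =
      muI hT g I J D := by
    rw [muI_apply, Fintype.sum_sum_type]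
    simp only [lpr_pl, Sum.elim_inl, Sum.elim_inr, map_zero, smul_zero, Finset.sum_const_zero,
      add_zero]
    refine Finset.sum_congr rfl fun i _ => ?_
    show (1 : ℤ) • _ = _
    rw [one_smul]
  rw [h2] at h1
  rw [h1]
  have h3 := pe2_der D.1 f c
    (fun i => pe2_r (fun y : I → G.X => (Sum.elim y (1 : J → G.X) : I ⊕ J → G.X)) pe2_pi_mem (f' i))
    c' (fun x => actIJ hT g (x, 1) a) h (fun x => h' (Sum.elim x 1))
  rw [h3]
  refine Finset.sum_congr rfl fun i _ => ?_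
  rw [hpush]

/-- [MTF-PE2] the same for the outgoing circles (sign `-`). -/
theorem nu_genIJ (hT : TQ Q) (hP : PQ Q P) (g : ℕ) (D : (G.pow J).Lie) (a : RA hT g (sIJ I J)) (n : ℕ)
    (f : Fin n → (G.pow J).O) (c : Fin n → RA hT g (sIJ I J))
    (h : ∀ x : (G.pow J).X, actIJ hT g (1, x) a = ∑ i, (f i).1 x • c i) :
    brR hT P (closed_AG hT hP g (I ⊕ J) (sIJ I J)) (nuJ hT g I J D) a = - ∑ i, D.1 (f i) • c i := by
  obtain ⟨n', f', c', h'⟩ := actR_rat hT g (sIJ I J) a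
  have hd : ∀ (l : I ⊕ J) (φ : G.O),
      ((Sum.elim (fun _ => 0) (fun j => G.lpr j D) : I ⊕ J → G.Lie) l).1 φ =
        D.1 (pe2_r (fun y : J → G.X => (Sum.elim (1 : I → G.X) y : I ⊕ J → G.X)) pe2_pj_mem
          (G.pull l φ)) := by
    rintro (i | j) φ
    · exact (lie_const (G.pow J) D (φ.1 1)).symm
    · rfl
  have hpush := pe2_push (fun y : J → G.X => (Sum.elim (1 : I → G.X) y : I ⊕ J → G.X)) pe2_pj_mem
    pe2_elim_one D _ hd
  have h1 := pe2_gen hT hP g (sIJ I J) (closed_AG hT hP g (I ⊕ J) (sIJ I J))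
    (G.pl (Sum.elim (fun _ => 0) (fun j => G.lpr j D) : I ⊕ J → G.Lie)) a n' f' c' h'
  have h2 : ∑ l, sgn (sIJ I J l) • muR hT g (sIJ I J) l
      (G.lpr l (G.pl (Sum.elim (fun _ => 0) (fun j => G.lpr j D) : I ⊕ J → G.Lie))) =
      - nuJ hT g I J D := by
    rw [nuJ_apply, Fintype.sum_sum_type]
    simp only [lpr_pl, Sum.elim_inl, Sum.elim_inr, map_zero, smul_zero, Finset.sum_const_zero,
      zero_add]
    exact pe2_sum_neg _ _ fun j => pe2_m1 _
  rw [h2] at h1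
  rw [pe2_neg _ _ _ _ h1]
  have h3 := pe2_der D.1 f c
    (fun i => pe2_r (fun y : J → G.X => (Sum.elim (1 : I → G.X) y : I ⊕ J → G.X)) pe2_pj_mem (f' i))
    c' (fun x => actIJ hT g (1, x) a) h (fun x => h' (Sum.elim 1 x))
  rw [h3]
  congr 1
  refine Finset.sum_congr rfl fun i _ => ?_
  rw [hpush]

/-- [MTF-PE2] members of the rings are eigenfamilies. PROOF. `mem_AG` and `Fam.wt`; for `g = 0` and `L` empty there is no condition. -/
theorem AG_isEF (hT : TQ Q) {g : ℕ} {ε : L → Bool} {F : RR G K X L} (h : F ∈ AG hT g ε) : IsEF Q ε F := by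
  exact pe2_isEF hT h

/-- [MTF-PE2] the Poisson laws. PROOF. `rv_inj`, `br_skew`, `br_jacobi`, `br_leibniz`. -/
theorem brR_self (hT : TQ Q) (hP : PQ Q P) {g : ℕ} {ε : L → Bool} (h : Closed hT P g ε) (a : RA hT g ε) :
    brR hT P h a a = 0 := by
  apply rv_inj hT g ε
  rw [rv_brR, map_zero]
  have h1 := br_skew hP ε (rv hT g ε a) (rv hT g ε a)
  have h2 : (2 : ℂ) • P.br ε (rv hT g ε a) (rv hT g ε a) = 0 := by
    rw [two_smul]
    nth_rewrite 1 [h1]
    exact neg_add_cancel _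
  have h3 := congrArg (fun x => (2 : ℂ)⁻¹ • x) h2
  simp only [smul_smul, smul_zero] at h3
  rwa [inv_mul_cancel₀ (two_ne_zero), one_smul] at h3

theorem brR_jacobi (hT : TQ Q) (hP : PQ Q P) {g : ℕ} {ε : L → Bool} (h : Closed hT P g ε) (a b c : RA hT g ε) :
    brR hT P h a (brR hT P h b c) = brR hT P h (brR hT P h a b) c + brR hT P h b (brR hT P h a c) := by
  apply rv_inj hT g ε
  rw [map_add]
  exact br_jacobi hT hP (pe2_isEF hT (rv_mem hT g ε a)) (pe2_isEF hT (rv_mem hT g ε b))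
    (pe2_isEF hT (rv_mem hT g ε c))

theorem brR_leibniz (hT : TQ Q) {g : ℕ} {ε : L → Bool} (h : Closed hT P g ε) (a b c : RA hT g ε) :
    brR hT P h a (b * c) = b * brR hT P h a c + c * brR hT P h a b := by
  apply rv_inj hT g ε
  rw [map_add, map_mul (rv hT g ε), map_mul (rv hT g ε), rv_brR, rv_brR, rv_brR, map_mul (rv hT g ε)]
  exact br_leibniz ε (rv hT g ε a) (rv hT g ε b) (rv hT g ε c)

/-- The Hamiltonian space of the connected surface of genus `g` with incoming circles `I` and outgoing circles `J`. -/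
noncomputable def HA (hT : TQ Q) (hP : PQ Q P)
    (hfg : ∀ (g : ℕ) (L : Type) [Fintype L] [DecidableEq L] (ε : L → Bool), Algebra.FiniteType ℂ (RA hT g ε))
    (g : ℕ) (I J : Type) [Fintype I] [DecidableEq I] [Fintype J] [DecidableEq J] : Ham (G.pow I) (G.pow J) where
  A := RA hT g (sIJ I J)
  ft := hfg g (I ⊕ J) (sIJ I J)
  br := brR hT P (closed_AG hT hP g (I ⊕ J) (sIJ I J))
  br_self := brR_self hT hP _
  jacobi := brR_jacobi hT hP _
  leibniz := brR_leibniz hT _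
  act := actIJ hT g
  rat := actIJ_rat hT g
  act_br := fun k a b => actR_brR hT _ (Sum.elim k.1 k.2) a b
  μ := muI hT g I J
  ν := nuJ hT g I J
  μ_eq := actIJ_mu hT g
  ν_eq := actIJ_nu hT g
  μ_gen := mu_genIJ hT hP g
  ν_gen := nu_genIJ hT hP g

end

end Pool.Agent.MTF
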