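import Pool.Agent.MTF.F0c

/-! # MTF, part P : Hamiltonian reduction, a criterion -/

set_option linter.unusedSectionVars false

namespace Pool.Agent.MTF

open TensorProduct

variable {G : AffGrp}

theorem pe3_Ad_one (D : G.Lie) : G.Ad 1 D = D := by
  apply Subtype.ext
  apply LinearMap.ext
  intro f
  show D.1 (G.cj 1 f) = D.1 f
  congr 1
  apply Subtype.ext
  funext y
  show f.1 (1 * y * 1⁻¹) = f.1 y
  rw [inv_one, mul_one, one_mul]

/-- restriction of a function on `G^(I ⊕ E)` to `G^E` -/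
def pe3_rs (G : AffGrp) (I E : Type) [Finite I] [Finite E] :
    (G.pow (I ⊕ E)).O →ₗ[ℂ] (G.pow E).O where
  toFun F := ⟨fun h => F.1 (Sum.elim (1 : I → G.X) h),
    AffGrp.pow_mem G (H := G.pow E) (fun h : E → G.X => Sum.elim (1 : I → G.X) h)
      (fun l f hf => by
        cases l with
        | inl i => exact AffGrp.const_mem (G.pow E) (f 1)
        | inr e => exact (G.pull e ⟨f, hf⟩).2) F.2⟩
  map_add' _ _ := rfl
  map_smul' _ _ := rfl

theorem pe3_one (I E : Type) : (Sum.elim (1 : I → G.X) (1 : E → G.X)) = 1 := by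
  funext l
  cases l <;> rfl

theorem pe3_rs_one {I E : Type} [Finite I] [Finite E] (F : (G.pow (I ⊕ E)).O) :
    (pe3_rs G I E F).1 1 = F.1 1 := by
  show F.1 (Sum.elim (1 : I → G.X) (1 : E → G.X)) = F.1 (1 : I ⊕ E → G.X)
  rw [pe3_one]

theorem pe3_pl {I E : Type} [Finite I] [Finite E] (d : E → G.Lie) (F : (G.pow (I ⊕ E)).O) :
    (G.pl (Sum.elim (0 : I → G.Lie) d)).1 F = (G.pl d).1 (pe3_rs G I E F) := by
  have hD : ∃ D : (G.pow (I ⊕ E)).Lie, D.1 = (G.pl d).1 ∘ₗ pe3_rs G I E :=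
    ⟨⟨(G.pl d).1 ∘ₗ pe3_rs G I E, fun f g => by
      have h := (G.pl d).2 (pe3_rs G I E f) (pe3_rs G I E g)
      rw [pe3_rs_one, pe3_rs_one] at h
      exact h⟩, rfl⟩
  obtain ⟨D, hD⟩ := hD
  have h1 : G.pl (Sum.elim (0 : I → G.Lie) d) = D := by
    apply AffGrp.lie_ext
    intro l
    rw [AffGrp.lpr_pl]
    apply Subtype.ext
    apply LinearMap.ext
    intro f
    have h2 : (G.lpr l D).1 f = (G.pl d).1 (pe3_rs G I E (G.pull l f)) := by
      show D.1 (G.pull l f) = _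
      rw [hD]
      rfl
    rw [h2]
    cases l with
    | inl i =>
      have h3 : pe3_rs G I E (G.pull (Sum.inl i) f) = algebraMap ℂ (G.pow E).O (f.1 1) := rfl
      rw [h3, AffGrp.lie_const]
      rfl
    | inr e =>
      have h3 : pe3_rs G I E (G.pull (Sum.inr e) f) = G.pull e f := rfl
      rw [h3]
      have h4 := AffGrp.lpr_pl d e
      show (d e).1 f = _
      rw [← h4]
      rfl
  rw [h1, hD]
  rfl

section
variable {I J E : Type} [Finite I] [Finite J] [Finite E]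
variable (P : Ham (G.pow (I ⊕ E)) (G.pow (J ⊕ E)))

/-- [MTF-PE3] The moment map of the diagonal `G^E` generates the diagonal action.
PROOF. `P.rat a`: `act (x, y) a = ∑ f_i(x) f'_i(y) c_i`; `ract P 1 1 h a = act (Sum.elim 1 h, Sum.elim 1 h) a = ∑ f_i(Sum.elim 1 h) f'_i(Sum.elim 1 h) c_i`; the functions `h ↦ f (Sum.elim 1 h)` are in `(G.pow E).O`
(`AffGrp.pow_mem` of Leg.lean).  By `P.exp_μ`, `P.exp_ν` (`Exp.unique`): `br (μ D) a = ∑ D.1 (f'_i(1) f_i) c_i`, `br (ν D') a = - ∑ D'.1 (f_i(1) f'_i) c_i` for `D = G.pl (Sum.elim 0 d)`, and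
`(G.pl (Sum.elim 0 d)).1 f = (G.pl d).1 (h ↦ f (Sum.elim 1 h))` (`AffGrp.lie_ext`-type argument: the right side defines an element of the Lie algebra of `G^(I ⊕ E)` with the components `0`, `d`).
Leibniz rule for `(G.pl d).1` and the product `f_i(Sum.elim 1 h) f'_i(Sum.elim 1 h)`. -/
theorem exp_rμ (d : E → G.Lie) (a : P.A) :
    Exp (G.pow E) (fun h : (G.pow E).X => ract P 1 1 h a) (G.pl d) (P.br (rμ P d) a) := by
  obtain ⟨n, f, f', c, h⟩ := P.rat a
  have e1 := (P.exp_μ (G.pl (Sum.elim (0 : I → G.Lie) d)) a).unique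
    (f := fun i => (f' i).1 1 • f i) (c := c) (fun g => by
      rw [h g 1]
      refine Finset.sum_congr rfl fun i _ => ?_
      show _ = ((f' i).1 1 * (f i).1 g) • c i
      rw [mul_comm])
  have e2 := (P.exp_ν (G.pl (Sum.elim (0 : J → G.Lie) d)) a).unique
    (f := fun i => (f i).1 1 • f' i) (c := c) (fun g => by
      rw [h 1 g]
      rfl)
  refine ⟨n, fun i => pe3_rs G I E (f i) * pe3_rs G J E (f' i), c, fun x => h _ _, ?_⟩
  have e3 : P.br (rμ P d) a = P.br (P.μ (G.pl (Sum.elim (0 : I → G.Lie) d))) a +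
      - P.br (P.ν (G.pl (Sum.elim (0 : J → G.Lie) d))) a := by
    show P.br (P.μ _ - P.ν _) a = _
    rw [map_sub, LinearMap.sub_apply, sub_eq_add_neg]
  rw [e3, e1, e2, ← Finset.sum_add_distrib]
  refine Finset.sum_congr rfl fun i _ => ?_
  rw [← add_smul, (G.pl d).2, pe3_rs_one, pe3_rs_one, map_smul, map_smul, pe3_pl, pe3_pl,
    smul_eq_mul, smul_eq_mul, add_comm]

/-- [MTF-PE3] If `T h - a ∈ U` for all `h` then the derivative is in `U`.
PROOF. For a linear functional `φ` vanishing on `U`: `∑ φ(c_i) f_i = φ(a) • 1` as functions, apply `D` (`AffGrp.lie_one`).  A vector killed by all functionals vanishing on `U` is in `U`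
(`Submodule.exists_le_ker_of_notMem` or dual annihilators). -/
theorem Exp.memP {H : AffGrp} {A : Type} [CommRing A] [Algebra ℂ A] {T : H.X → A} {D : H.Lie} {y a : A} (h : Exp H T D y)
    (U : Submodule ℂ A) (hU : ∀ x, T x - a ∈ U) : y ∈ U := by
  obtain ⟨n, f, c, h1, rfl⟩ := h
  have h2 := der_expand D.1 f (fun i => U.mkQ (c i)) (fun _ : Fin 1 => (1 : H.O))
    (fun _ => U.mkQ a) (fun g => by
      have h3 : U.mkQ (T g) = U.mkQ a := by
        rw [← sub_eq_zero, ← map_sub]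
        exact (Submodule.Quotient.mk_eq_zero U).2 (hU g)
      rw [h1 g, map_sum] at h3
      rw [Finset.sum_congr rfl fun i _ => (map_smul U.mkQ ((f i).1 g) (c i)).symm, h3]
      simp)
  have h4 : U.mkQ (∑ i, D.1 (f i) • c i) = 0 := by
    rw [map_sum, Finset.sum_congr rfl fun i _ => map_smul U.mkQ (D.1 (f i)) (c i), h2]
    simp [AffGrp.lie_one]
  exact (Submodule.Quotient.mk_eq_zero U).1 h4

/-- [MTF-PE3] PROOF. `exp_rμ`, `Exp.memP` with `U = (rI P).restrictScalars ℂ`. -/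
theorem br_rμ_memP {a : P.A} (ha : a ∈ rinv P) (d : E → G.Lie) : P.br (rμ P d) a ∈ rI P := by
  exact Exp.memP (exp_rμ P d a) ((rI P).restrictScalars ℂ) (fun x => ha x)

/-- [MTF-PE3] PROOF. `Submodule.span_induction` on `i ∈ rI P`: for `i = x * rμ d`: `PAlg.br_mul`, `br_rμ_memP`. -/
theorem br_rI_rinv {i a : P.A} (hi : i ∈ rI P) (ha : a ∈ rinv P) : P.br i a ∈ rI P := by
  unfold rI at hi
  induction hi using Submodule.span_induction with
  | mem x hx =>
    obtain ⟨d, rfl⟩ := hx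
    exact br_rμ_memP P ha d
  | zero =>
    rw [map_zero, LinearMap.zero_apply]
    exact Ideal.zero_mem _
  | add x y _ _ hx hy =>
    rw [map_add, LinearMap.add_apply]
    exact Ideal.add_mem _ hx hy
  | smul r x hx' hx =>
    rw [smul_eq_mul, PAlg.br_mul]
    exact Ideal.add_mem _ (Ideal.mul_mem_left _ _ hx) (Ideal.mul_mem_right _ _ hx')

/-- [MTF-PE3] strictly invariant elements are in `rinv` -/
theorem rinv_of_inv {a : P.A} (ha : ∀ h : E → G.X, ract P 1 1 h a = a) : a ∈ rinv P := by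
  intro h
  rw [ha h, sub_self]
  exact Ideal.zero_mem _

/-- [MTF-PE3] PROOF. `P.act` is a homomorphism and `(Sum.elim 1 h) * (Sum.elim g 1) = (Sum.elim g 1) * (Sum.elim 1 h)`. -/
theorem ract_comm (g : I → G.X) (k : J → G.X) (h : E → G.X) (a : P.A) :
    ract P 1 1 h (ract P g k 1 a) = ract P g k 1 (ract P 1 1 h a) := by
  have h1 : ∀ (I : Type) (g : I → G.X), (Sum.elim (1 : I → G.X) h) * (Sum.elim g (1 : E → G.X)) =
      (Sum.elim g (1 : E → G.X)) * (Sum.elim (1 : I → G.X) h) := by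
    intro I g
    funext l
    cases l with
    | inl i =>
      show (1 : G.X) * g i = g i * 1
      rw [one_mul, mul_one]
    | inr e =>
      show h e * 1 = 1 * h e
      rw [one_mul, mul_one]
  obtain ⟨u, hu⟩ : ∃ u : (G.pow (I ⊕ E)).X × (G.pow (J ⊕ E)).X,
    u = (Sum.elim (1 : I → G.X) h, Sum.elim (1 : J → G.X) h) := ⟨_, rfl⟩
  obtain ⟨v, hv⟩ : ∃ v : (G.pow (I ⊕ E)).X × (G.pow (J ⊕ E)).X,
    v = (Sum.elim g (1 : E → G.X), Sum.elim k (1 : E → G.X)) := ⟨_, rfl⟩
  have h3 : u * v = v * u := by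
    rw [hu, hv]
    exact Prod.ext (h1 I g) (h1 J k)
  have h2 : P.act u * P.act v = P.act v * P.act u := by
    rw [← map_mul, ← map_mul, h3]
  have h4 : P.act u (P.act v a) = P.act v (P.act u a) :=
    congrArg (fun e : P.A ≃ₐ[ℂ] P.A => e a) h2
  subst hu
  subst hv
  exact h4

/-- [MTF-PE3] PROOF. `P.μ_eq`, `AffGrp.Ad_pl`, `G.Ad 1 = id`, `G.Ad x 0 = 0`. -/
theorem ract_μ (h : E → G.X) (d : I → G.Lie) :
    ract P 1 1 h (P.μ (G.pl (Sum.elim d 0))) = P.μ (G.pl (Sum.elim d 0)) := by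
  show P.act (Sum.elim (1 : I → G.X) h, Sum.elim (1 : J → G.X) h) (P.μ _) = _
  rw [P.μ_eq, AffGrp.Ad_pl]
  congr 2
  funext x
  cases x with
  | inl i => exact pe3_Ad_one (d i)
  | inr e => exact map_zero (G.Ad (h e))

theorem ract_ν (h : E → G.X) (d : J → G.Lie) :
    ract P 1 1 h (P.ν (G.pl (Sum.elim d 0))) = P.ν (G.pl (Sum.elim d 0)) := by
  show P.act (Sum.elim (1 : I → G.X) h, Sum.elim (1 : J → G.X) h) (P.ν _) = _
  rw [P.ν_eq, AffGrp.Ad_pl]
  congr 2
  funext x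
  cases x with
  | inl i => exact pe3_Ad_one (d i)
  | inr e => exact map_zero (G.Ad (h e))

end

end Pool.Agent.MTF
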