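import Pool.Agent.MTF.PE3

/-! # MTF, part P : Hamiltonian reduction, a criterion -/

set_option linter.unusedSectionVars false

namespace Pool.Agent.MTF

open TensorProduct

variable {G : AffGrp}

/-- [MTF-PE4] CRITERION. `Ψ` is a linear map that induces the reduction.
PROOF. (6) every `a ∈ rinv P` is `a₀ + i` with `a₀` strictly invariant and `i ∈ rI P`: `h1` gives `q` with `Ψ a = ι q`, `h2` gives `a₀` with `Ψ a₀ = ι q`, `a - a₀ ∈ rinv P`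
(`rinv_of_inv`), `Ψ (a - a₀) = 0`, `h3`.
`φ a :=` the element of `Q.A` with `ι (φ a) = Ψ a` (unique by `hι`).  It is an algebra homomorphism on `rinv P`: for products write `a = a₀ + i`, `b = b₀ + j`, `a b = a₀ b₀ + (element of rI P)`, `h4`, `h5`; `h5'`.
Surjective: `h2`.  Kernel: `h3`, `h4`.  Bracket: `{a, b} = {a₀, b₀} + {a₀, j} + {i, b}`, the last two in `rI P` (`br_rI_rinv`, `PAlg.br_skew`), `{a₀, b₀}` strictly invariant (`P.act_br`): so `{a, b} ∈ rinv P`, and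
`Ψ {a, b} = Ψ {a₀, b₀} = ι (Q.br q q')` (`h4`, `h6`).  `act_mem`: `ract_comm`, `ract_rI`.  `h7`, `h8`, `h9`, `ract_μ`, `ract_ν`. -/
theorem isRed_of {I J E : Type} [Finite I] [Finite J] [Finite E] (P : Ham (G.pow (I ⊕ E)) (G.pow (J ⊕ E)))
    (Q : Ham (G.pow I) (G.pow J)) {M : Type} [CommRing M] [Algebra ℂ M] (ι : Q.A →ₐ[ℂ] M)
    (hι : Function.Injective ι) (Ψ : P.A →ₗ[ℂ] M)
    (h1 : ∀ a, a ∈ rinv P → ∃ q, Ψ a = ι q)
    (h2 : ∀ q, ∃ a, (∀ h : E → G.X, ract P 1 1 h a = a) ∧ Ψ a = ι q)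
    (h3 : ∀ a, a ∈ rinv P → Ψ a = 0 → a ∈ rI P)
    (h4 : ∀ a, a ∈ rI P → Ψ a = 0)
    (h5 : ∀ a b, (∀ h : E → G.X, ract P 1 1 h a = a) → (∀ h : E → G.X, ract P 1 1 h b = b) → Ψ (a * b) = Ψ a * Ψ b)
    (h5' : Ψ 1 = 1)
    (h6 : ∀ a b q q', (∀ h : E → G.X, ract P 1 1 h a = a) → (∀ h : E → G.X, ract P 1 1 h b = b) → Ψ a = ι q → Ψ b = ι q' →
      Ψ (P.br a b) = ι (Q.br q q'))
    (h7 : ∀ (g : I → G.X) (k : J → G.X) a q, Ψ a = ι q → Ψ (ract P g k 1 a) = ι (Q.act (g, k) q))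
    (h8 : ∀ d : I → G.Lie, Ψ (P.μ (G.pl (Sum.elim d 0))) = ι (Q.μ (G.pl d)))
    (h9 : ∀ d : J → G.Lie, Ψ (P.ν (G.pl (Sum.elim d 0))) = ι (Q.ν (G.pl d))) : IsRed P Q := by
  -- ideal inside
  have hI : ∀ a, a ∈ rI P → a ∈ rinv P := fun a ha h =>
    Ideal.sub_mem _ (ract_rI P 1 1 h ha) ha
  -- decomposition
  have hdec : ∀ a, a ∈ rinv P → ∃ a₀, (∀ h : E → G.X, ract P 1 1 h a₀ = a₀) ∧
      a - a₀ ∈ rI P ∧ Ψ a = Ψ a₀ := by
    intro a ha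
    obtain ⟨q, hq⟩ := h1 a ha
    obtain ⟨a₀, hs, h0⟩ := h2 q
    have e1 : a - a₀ ∈ rinv P := (rinv P).sub_mem ha (rinv_of_inv P hs)
    have e2 : Ψ (a - a₀) = 0 := by rw [map_sub, hq, h0, sub_self]
    exact ⟨a₀, hs, h3 _ e1 e2, hq.trans h0.symm⟩
  have hmul : ∀ a b, a ∈ rinv P → b ∈ rinv P → Ψ (a * b) = Ψ a * Ψ b := by
    intro a b ha hb
    obtain ⟨a₀, sa, ia, ea⟩ := hdec a ha
    obtain ⟨b₀, sb, ib, eb⟩ := hdec b hb
    have e1 : a * b - a₀ * b₀ ∈ rI P := by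
      have e2 : a * b - a₀ * b₀ = (a - a₀) * b + a₀ * (b - b₀) := by ring
      rw [e2]
      exact Ideal.add_mem _ (Ideal.mul_mem_right _ _ ia) (Ideal.mul_mem_left _ _ ib)
    have e3 := h4 _ e1
    rw [map_sub, sub_eq_zero] at e3
    rw [e3, h5 a₀ b₀ sa sb, ea, eb]
  have hbr : ∀ a b, a ∈ rinv P → b ∈ rinv P → ∃ a₀ b₀,
      (∀ h : E → G.X, ract P 1 1 h a₀ = a₀) ∧ (∀ h : E → G.X, ract P 1 1 h b₀ = b₀) ∧
      Ψ a = Ψ a₀ ∧ Ψ b = Ψ b₀ ∧ P.br a b - P.br a₀ b₀ ∈ rI P := by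
    intro a b ha hb
    obtain ⟨a₀, sa, ia, ea⟩ := hdec a ha
    obtain ⟨b₀, sb, ib, eb⟩ := hdec b hb
    refine ⟨a₀, b₀, sa, sb, ea, eb, ?_⟩
    have e1 : P.br a b - P.br a₀ b₀ = P.br (a - a₀) b - P.br (b - b₀) a₀ := by
      rw [P.toPAlg.br_skew (b - b₀) a₀, map_sub, map_sub, LinearMap.sub_apply]
      ring
    rw [e1]
    exact Ideal.sub_mem _ (br_rI_rinv P ia hb) (br_rI_rinv P ib (rinv_of_inv P sa))
  have sbr : ∀ a₀ b₀, (∀ h : E → G.X, ract P 1 1 h a₀ = a₀) →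
      (∀ h : E → G.X, ract P 1 1 h b₀ = b₀) → ∀ h : E → G.X, ract P 1 1 h (P.br a₀ b₀) = P.br a₀ b₀ := by
    intro a₀ b₀ sa sb h
    have e1 : ract P 1 1 h (P.br a₀ b₀) = P.br (ract P 1 1 h a₀) (ract P 1 1 h b₀) := P.act_br _ _ _
    rw [e1, sa, sb]
  -- the homomorphism
  have hf : ∀ a : rinv P, ι ((h1 a.1 a.2).choose) = Ψ a.1 := fun a => (h1 a.1 a.2).choose_spec.symm
  let φ : rinv P →ₐ[ℂ] Q.A :=
    { toFun := fun a => (h1 a.1 a.2).choose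
      map_one' := hι (by
        rw [hf, map_one]
        exact h5')
      map_mul' := fun a b => hι (by
        rw [hf, map_mul, hf, hf]
        exact hmul a.1 b.1 a.2 b.2)
      map_zero' := hι (by
        rw [hf, map_zero]
        exact map_zero Ψ)
      map_add' := fun a b => hι (by
        rw [hf, map_add, hf, hf]
        exact map_add Ψ a.1 b.1)
      commutes' := fun c => hι (by
        rw [hf, AlgHom.commutes]
        show Ψ (algebraMap ℂ P.A c) = algebraMap ℂ M c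
        rw [Algebra.algebraMap_eq_smul_one, map_smul, h5', ← Algebra.algebraMap_eq_smul_one]) }
  have hφ : ∀ a : rinv P, ι (φ a) = Ψ a.1 := hf
  refine ⟨fun a b => ?_, fun g k a h => ?_, fun d => rinv_of_inv P fun h => ract_μ P h d,
    fun d => rinv_of_inv P fun h => ract_ν P h d, φ, fun q => ?_, fun a => ⟨fun h0 => ?_, fun h0 => ?_⟩,
    fun a b c hc => ?_, fun g k a b hb => ?_, fun d a ha => ?_, fun d a ha => ?_⟩
  · obtain ⟨a₀, b₀, sa, sb, ea, eb, hm⟩ := hbr a.1 b.1 a.2 b.2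
    have e1 := (rinv P).add_mem (hI _ hm) (rinv_of_inv P (sbr a₀ b₀ sa sb))
    rwa [sub_add_cancel] at e1
  · have e1 : ract P 1 1 h (ract P g k 1 a.1) - ract P g k 1 a.1 =
        ract P g k 1 (ract P 1 1 h a.1 - a.1) := by
      rw [ract_comm, map_sub]
    rw [e1]
    exact ract_rI P g k 1 (a.2 h)
  · obtain ⟨a, sa, ea⟩ := h2 q
    refine ⟨⟨a, rinv_of_inv P sa⟩, hι ?_⟩
    rw [hφ]
    exact ea
  · refine h3 _ a.2 ?_
    rw [← hφ, h0, map_zero]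
  · apply hι
    rw [hφ, map_zero]
    exact h4 _ h0
  · apply hι
    rw [hφ, hc]
    obtain ⟨a₀, b₀, sa, sb, ea, eb, hm⟩ := hbr a.1 b.1 a.2 b.2
    have e1 := h4 _ hm
    rw [map_sub, sub_eq_zero] at e1
    rw [e1]
    exact h6 a₀ b₀ (φ a) (φ b) sa sb (by rw [hφ, ea]) (by rw [hφ, eb])
  · apply hι
    rw [hφ, hb]
    exact h7 g k a.1 (φ a) (hφ a).symm
  · apply hι
    rw [hφ, ha]
    exact h8 d
  · apply hι
    rw [hφ, ha]
    exact h9 d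

end Pool.Agent.MTF
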