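import Pool.Agent.MTF.PE2

/-! # MTF, part P : relabelling of the circles -/

set_option linter.unusedSectionVars false

namespace Pool.Agent.MTF

open AffGrp

section
variable {G : AffGrp} {K W X : Type} [Field K] [Algebra ℂ K] [Group W] [Fintype W]
  [MulSemiringAction W K] [SMulCommClass W ℂ K] [AddCommGroup X] [DistribMulAction W X]
variable {Q : TQD G K W X}
variable {P : PD Q}

variable {I J I' J' : Type} [Fintype I] [DecidableEq I] [Fintype J] [DecidableEq J] [Fintype I'] [DecidableEq I']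
  [Fintype J'] [DecidableEq J']

/-- [MTF-PE5] PROOF. The isomorphism is `re hT g (Equiv.sumCongr u v) _`: `re_brR`; `re_actR` (`(Sum.elim x' y') ∘ sumCongr u v = Sum.elim (x' ∘ u) (y' ∘ v)`); `re_muR`, `lpr i (lmap u D) = lpr (u i) D`
(`lpr_lmap`), reindexing of the sums by `u`, `v` (`Equiv.sum_comp`). -/
theorem HA_rel (hT : TQ Q) (hP : PQ Q P)
    (hfg : ∀ (g : ℕ) (L : Type) [Fintype L] [DecidableEq L] (ε : L → Bool), Algebra.FiniteType ℂ (RA hT g ε))
    (g : ℕ) (u : I ≃ I') (v : J ≃ J') : ((HA hT hP hfg g I J).pull u v).Iso (HA hT hP hfg g I' J') := by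
  have he : ∀ l : I ⊕ J, sIJ I' J' (Equiv.sumCongr u v l) = sIJ I J l := by
    rintro (i | j) <;> rfl
  refine ⟨re hT g (Equiv.sumCongr u v) he, fun a b => ?_, fun k a => ?_, fun D => ?_, fun D => ?_⟩
  · exact re_brR hT (Equiv.sumCongr u v) he (closed_AG hT hP g (I ⊕ J) (sIJ I J))
      (closed_AG hT hP g (I' ⊕ J') (sIJ I' J')) a b
  · have h1 : (Sum.elim (k.1 : I' → G.X) (k.2 : J' → G.X)) ∘ (Equiv.sumCongr u v) =
        Sum.elim ((k.1 : I' → G.X) ∘ u) ((k.2 : J' → G.X) ∘ v) := by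
      funext l
      rcases l with i | j <;> rfl
    have h2 := re_actR hT (g := g) (Equiv.sumCongr u v) he
      (Sum.elim (k.1 : I' → G.X) (k.2 : J' → G.X)) a
    rw [h1] at h2
    exact h2
  · show re hT g (Equiv.sumCongr u v) he (muI hT g I J (G.lmap u D)) = muI hT g I' J' D
    rw [muI_apply, muI_apply, map_sum, ← Equiv.sum_comp u]
    refine Finset.sum_congr rfl fun i _ => ?_
    rw [re_muR, lpr_lmap]
    rfl
  · show re hT g (Equiv.sumCongr u v) he (nuJ hT g I J (G.lmap v D)) = nuJ hT g I' J' D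
    rw [nuJ_apply, nuJ_apply, map_sum, ← Equiv.sum_comp v]
    refine Finset.sum_congr rfl fun i _ => ?_
    rw [re_muR, lpr_lmap]
    rfl

end

end Pool.Agent.MTF
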