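import Pool.Agent.MTF.PE2
import Pool.Agent.MTF.PE4

/-! # MTF, part P : joining two circles of one surface -/

set_option linter.unusedSectionVars false

namespace Pool.Agent.MTF

open AffGrp

section
variable {G : AffGrp} {K W X : Type} [Field K] [Algebra ℂ K] [Group W] [Fintype W]
  [MulSemiringAction W K] [SMulCommClass W ℂ K] [AddCommGroup X] [DistribMulAction W X]
variable {Q : TQD G K W X}
variable {P : PD Q}

variable {I J : Type} [Fintype I] [DecidableEq I] [Fintype J] [DecidableEq J]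

/-- the relabelling `(I ⊕ PUnit) ⊕ (J ⊕ PUnit) ≃ Option (Option (I ⊕ J))` -/
def e2 (I J : Type) : (I ⊕ PUnit) ⊕ (J ⊕ PUnit) ≃ Option (Option (I ⊕ J)) where
  toFun := Sum.elim (Sum.elim (fun i => some (some (Sum.inl i))) (fun _ => none))
    (Sum.elim (fun j => some (some (Sum.inr j))) (fun _ => some none))
  invFun o := o.elim (Sum.inl (Sum.inr PUnit.unit)) (fun o => o.elim (Sum.inr (Sum.inr PUnit.unit))
    (Sum.elim (fun i => Sum.inl (Sum.inl i)) (fun j => Sum.inr (Sum.inl j))))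
  left_inv := by
    rintro ((i | ⟨⟩) | (j | ⟨⟩)) <;> rfl
  right_inv := by
    rintro (_ | (_ | (i | j))) <;> rfl

theorem e2_sign (l : (I ⊕ PUnit) ⊕ (J ⊕ PUnit)) :
    optS true (optS false (sIJ I J)) (e2 I J l) = sIJ (I ⊕ PUnit) (J ⊕ PUnit) l := by
  rcases l with ((i | ⟨⟩) | (j | ⟨⟩)) <;> rfl


theorem pe6s_span {R S D E : Type} [CommRing R] [CommRing S] (e : R ≃+* S) (f : D → R) (k : E → S)
    (σ : D → E) (hσ : Function.Surjective σ) (h : ∀ d, e (f d) = k (σ d)) (a : R) :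
    a ∈ Ideal.span (Set.range f) ↔ e a ∈ Ideal.span (Set.range k) := by
  have h1 : (Ideal.span (Set.range f)).map (e : R ≃+* S) = Ideal.span (Set.range k) := by
    rw [Ideal.map_span]
    congr 1
    ext y
    constructor
    · rintro ⟨_, ⟨d, rfl⟩, rfl⟩
      exact ⟨σ d, (h d).symm⟩
    · rintro ⟨y, rfl⟩
      obtain ⟨d, rfl⟩ := hσ y
      exact ⟨f d, ⟨d, rfl⟩, h d⟩
  rw [← h1]
  exact Ideal.apply_mem_of_equiv_iff.symm

theorem pe6s_map_sub {R S : Type} [CommRing R] [CommRing S] (e : R ≃+* S) {a b c : R} (h : c = a - b) :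
    e c = e a - e b := by
  rw [h, map_sub]

theorem pe6s_sub {R S : Type} [CommRing R] [CommRing S] (e : R ≃+* S) (I : Ideal R) (J : Ideal S)
    (hIJ : ∀ a, a ∈ I ↔ e a ∈ J) {a b : R} {c : S} (hc : e a = c) (h : a - b ∈ I) : c - e b ∈ J := by
  rw [← hc, ← map_sub]
  exact (hIJ _).1 h

theorem pe6s_sub0 {R S : Type} [CommRing R] [CommRing S] (e : R ≃+* S) {a b : R} {c d : S}
    (h1 : e a = c + d) (h2 : e b = d) : e (a - b) = c := by
  rw [map_sub, h1, h2, add_sub_cancel_right]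


section pe6
variable (hT : TQ Q) (hP : PQ Q P)
    (hfg : ∀ (g : ℕ) (L : Type) [Fintype L] [DecidableEq L] (ε : L → Bool), Algebra.FiniteType ℂ (RA hT g ε))
    (g : ℕ)

variable (I J) in
/-- the relabelling of the ring -/
noncomputable def pe6R : RA hT g (sIJ (I ⊕ PUnit) (J ⊕ PUnit)) ≃ₐ[ℂ] RA hT g (optS true (optS false (sIJ I J))) :=
  re hT g (e2 I J) e2_sign

theorem pe6_act (x : I → G.X) (y : J → G.X) (h : G.X) (a : (HA hT hP hfg g (I ⊕ PUnit) (J ⊕ PUnit)).A) :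
    pe6R I J hT g (ract (HA hT hP hfg g (I ⊕ PUnit) (J ⊕ PUnit)) x y (fun _ => h) a) =
      actR hT (optP h (optP h (Sum.elim x y))) (pe6R I J hT g a) := by
  refine Eq.trans ?_ (re_actR hT (e2 I J) e2_sign (optP h (optP h (Sum.elim x y))) a)
  show re hT g (e2 I J) e2_sign (actR hT (Sum.elim (Sum.elim x (fun _ => h)) (Sum.elim y (fun _ => h))) a) = _
  refine congrArg (fun u => re hT g (e2 I J) e2_sign (actR hT u a)) (funext fun l => ?_)
  rcases l with ((i | ⟨⟩) | (j | ⟨⟩)) <;> rfl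

theorem pe6_mu (d : I ⊕ PUnit → G.Lie) :
    pe6R I J hT g ((HA hT hP hfg g (I ⊕ PUnit) (J ⊕ PUnit)).μ (G.pl d)) =
      (∑ i, muR hT g (optS true (optS false (sIJ I J))) (some (some (Sum.inl i))) (d (Sum.inl i))) +
        muR hT g (optS true (optS false (sIJ I J))) none (d (Sum.inr PUnit.unit)) := by
  show re hT g (e2 I J) e2_sign (muI hT g (I ⊕ PUnit) (J ⊕ PUnit) (G.pl d)) = _
  rw [muI_apply, map_sum, Fintype.sum_sum_type]
  congr 1
  · refine Finset.sum_congr rfl fun i _ => ?_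
    rw [re_muR, lpr_pl]
    rfl
  · rw [Finset.univ_unique, Finset.sum_singleton, re_muR, lpr_pl]
    rfl

theorem pe6_nu (d : J ⊕ PUnit → G.Lie) :
    pe6R I J hT g ((HA hT hP hfg g (I ⊕ PUnit) (J ⊕ PUnit)).ν (G.pl d)) =
      (∑ i, muR hT g (optS true (optS false (sIJ I J))) (some (some (Sum.inr i))) (d (Sum.inl i))) +
        muR hT g (optS true (optS false (sIJ I J))) (some none) (d (Sum.inr PUnit.unit)) := by
  show re hT g (e2 I J) e2_sign (nuJ hT g (I ⊕ PUnit) (J ⊕ PUnit) (G.pl d)) = _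
  rw [nuJ_apply, map_sum, Fintype.sum_sum_type]
  congr 1
  · refine Finset.sum_congr rfl fun i _ => ?_
    rw [re_muR, lpr_pl]
    rfl
  · rw [Finset.univ_unique, Finset.sum_singleton, re_muR, lpr_pl]
    rfl

theorem pe6_rμ (d : PUnit → G.Lie) :
    pe6R I J hT g (rμ (HA hT hP hfg g (I ⊕ PUnit) (J ⊕ PUnit)) d) =
      muR hT g (optS true (optS false (sIJ I J))) none (d PUnit.unit) -
        muR hT g (optS true (optS false (sIJ I J))) (some none) (d PUnit.unit) := by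
  show pe6R I J hT g ((HA hT hP hfg g (I ⊕ PUnit) (J ⊕ PUnit)).μ (G.pl (Sum.elim (0 : I → G.Lie) d)) -
    (HA hT hP hfg g (I ⊕ PUnit) (J ⊕ PUnit)).ν (G.pl (Sum.elim (0 : J → G.Lie) d))) = _
  refine (map_sub (pe6R I J hT g) _ _).trans ?_
  rw [pe6_mu, pe6_nu]
  have h1 : ∀ i : I, muR hT g (optS true (optS false (sIJ I J))) (some (some (Sum.inl i)))
      ((Sum.elim (0 : I → G.Lie) d) (Sum.inl i)) = 0 := fun i => map_zero _
  have h2 : ∀ i : J, muR hT g (optS true (optS false (sIJ I J))) (some (some (Sum.inr i)))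
      ((Sum.elim (0 : J → G.Lie) d) (Sum.inl i)) = 0 := fun i => map_zero _
  rw [Finset.sum_congr rfl fun i _ => h1 i, Finset.sum_congr rfl fun i _ => h2 i, Finset.sum_const_zero,
    Finset.sum_const_zero, zero_add, zero_add]
  rfl

variable (I J) in
/-- the relabelling as an isomorphism onto the ring of families -/
noncomputable def pe6s_E : RA hT g (sIJ (I ⊕ PUnit) (J ⊕ PUnit)) ≃+* AG hT g (optS true (optS false (sIJ I J))) :=
  ((pe6R I J hT g).trans (raE hT g (optS true (optS false (sIJ I J))))).toRingEquiv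

theorem pe6_I (a : (HA hT hP hfg g (I ⊕ PUnit) (J ⊕ PUnit)).A) :
    a ∈ rI (HA hT hP hfg g (I ⊕ PUnit) (J ⊕ PUnit)) ↔ raE hT g _ (pe6R I J hT g a) ∈ I2 hT g (sIJ I J) := by
  unfold rI I2
  exact pe6s_span (pe6s_E I J hT g) _ _ (fun d => d PUnit.unit) (fun D => ⟨fun _ => D, rfl⟩)
    (fun d => pe6s_map_sub (raE hT g (optS true (optS false (sIJ I J)))).toRingEquiv (pe6_rμ hT hP hfg g d)) a

theorem pe6_res2_gact {L : Type} [Finite L] [DecidableEq L] (z : L → G.X) (F : RR G K X (Option (Option L))) :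
    res2 (gact (optP 1 (optP 1 z)) F) = gact z (res2 F) := by
  apply RR_ext
  intro m k
  rw [res2_coeff, gact_apply, gact_apply, res2_coeff]
  refine congrArg (F.coeff m).1 (funext fun o => ?_)
  rcases o with _ | (_ | l)
  · show (1 : G.X)⁻¹ * 1 = 1
    rw [inv_one, one_mul]
  · show (1 : G.X)⁻¹ * 1 = 1
    rw [inv_one, one_mul]
  · rfl

theorem pe6_res2_muF {L : Type} [Finite L] [DecidableEq L] (l : L) (D : G.Lie) :
    res2 (muF Q (some (some l)) D) = muF Q l D := by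
  rw [muF_apply, muF_apply]
  unfold res2 fm
  rw [AddMonoidAlgebra.mapAlgHom_single]
  rfl

variable (I J) in
/-- the restriction -/
noncomputable def pe6Ψ : RA hT g (sIJ (I ⊕ PUnit) (J ⊕ PUnit)) →ₗ[ℂ] RR G K X (I ⊕ J) :=
  (res2.restrictScalars ℂ).toLinearMap ∘ₗ (rv hT g (optS true (optS false (sIJ I J)))).toLinearMap ∘ₗ
    (pe6R I J hT g).toLinearMap

theorem pe6Ψ_apply (a : RA hT g (sIJ (I ⊕ PUnit) (J ⊕ PUnit))) :
    pe6Ψ I J hT g a = res2 (rv hT g _ (pe6R I J hT g a)) := rfl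

variable (I J) in
/-- the restriction, with the ring structure of the Hamiltonian space -/
noncomputable def pe6Ψ' : (HA hT hP hfg g (I ⊕ PUnit) (J ⊕ PUnit)).A →ₗ[ℂ] RR G K X (I ⊕ J) := pe6Ψ I J hT g

/-- the inclusion, with the ring structure of the Hamiltonian space -/
noncomputable def pe6ι : (HA hT hP hfg g I J).A →ₐ[ℂ] RR G K X (I ⊕ J) := rv hT g (sIJ I J)

theorem pe6ι_apply (a : RA hT g (sIJ I J)) : pe6ι hT hP hfg g a = rv hT g (sIJ I J) a := rfl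

theorem pe6ι_inj : Function.Injective (pe6ι (I := I) (J := J) hT hP hfg g) := rv_inj hT g (sIJ I J)

theorem pe6s_pt2 (x : G.X) : optP x (optP x (Sum.elim (1 : I → G.X) (1 : J → G.X))) = pt2 x := by
  funext o
  rcases o with _ | (_ | (i | j)) <;> rfl

theorem pe6s_act (x : G.X) (a : (HA hT hP hfg g (I ⊕ PUnit) (J ⊕ PUnit)).A) :
    pe6R I J hT g (ract (HA hT hP hfg g (I ⊕ PUnit) (J ⊕ PUnit)) 1 1 (fun _ => x) a) =
      actR hT (pt2 x) (pe6R I J hT g a) := by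
  rw [← pe6s_pt2 (I := I) (J := J) x]
  exact pe6_act hT hP hfg g (1 : I → G.X) (1 : J → G.X) x a

theorem pe6s_hinv (a : (HA hT hP hfg g (I ⊕ PUnit) (J ⊕ PUnit)).A)
    (ha : ∀ h : PUnit → G.X, ract (HA hT hP hfg g (I ⊕ PUnit) (J ⊕ PUnit)) 1 1 h a = a) (x : G.X) :
    gact (pt2 x) (rv hT g _ (pe6R I J hT g a)) = rv hT g _ (pe6R I J hT g a) := by
  have h1 := pe6s_act hT hP hfg g x a
  rw [ha] at h1
  exact (congrArg (rv hT g _) h1).symm

theorem pe6s_actE (x : G.X) (a : (HA hT hP hfg g (I ⊕ PUnit) (J ⊕ PUnit)).A) :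
    pe6s_E I J hT g (ract (HA hT hP hfg g (I ⊕ PUnit) (J ⊕ PUnit)) 1 1 (fun _ => x) a) =
      actAG hT g (optS true (optS false (sIJ I J))) (pt2 x) (raE hT g _ (pe6R I J hT g a)) :=
  congrArg (raE hT g _) (pe6s_act hT hP hfg g x a)

theorem pe6s_h1 (a : (HA hT hP hfg g (I ⊕ PUnit) (J ⊕ PUnit)).A)
    (ha : a ∈ rinv (HA hT hP hfg g (I ⊕ PUnit) (J ⊕ PUnit))) :
    ∃ q, pe6Ψ' I J hT hP hfg g a = pe6ι hT hP hfg (g + 1) q := by
  refine ⟨ra hT (g + 1) (sIJ I J) _ (T2a (F := raE hT g _ (pe6R I J hT g a)) (fun x => ?_)), rfl⟩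
  exact pe6s_sub (pe6s_E I J hT g) (rI (HA hT hP hfg g (I ⊕ PUnit) (J ⊕ PUnit))) (I2 hT g (sIJ I J))
    (pe6_I hT hP hfg g) (pe6s_actE hT hP hfg g x a) (ha (fun _ => x))

theorem pe6s_h3 (a : (HA hT hP hfg g (I ⊕ PUnit) (J ⊕ PUnit)).A)
    (ha : a ∈ rinv (HA hT hP hfg g (I ⊕ PUnit) (J ⊕ PUnit))) (h0 : pe6Ψ' I J hT hP hfg g a = 0) :
    a ∈ rI (HA hT hP hfg g (I ⊕ PUnit) (J ⊕ PUnit)) := by
  refine (pe6_I hT hP hfg g a).2 (T2c (F := raE hT g _ (pe6R I J hT g a)) (fun x => ?_) h0)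
  exact pe6s_sub (pe6s_E I J hT g) (rI (HA hT hP hfg g (I ⊕ PUnit) (J ⊕ PUnit))) (I2 hT g (sIJ I J))
    (pe6_I hT hP hfg g) (pe6s_actE hT hP hfg g x a) (ha (fun _ => x))

theorem pe6s_h2 (q : (HA hT hP hfg (g + 1) I J).A) :
    ∃ a, (∀ h : PUnit → G.X, ract (HA hT hP hfg g (I ⊕ PUnit) (J ⊕ PUnit)) 1 1 h a = a) ∧
      pe6Ψ' I J hT hP hfg g a = pe6ι hT hP hfg (g + 1) q := by
  obtain ⟨F, hF, hF'⟩ := T2b (rv_mem hT (g + 1) (sIJ I J) q)
  have h3 : raE hT g (optS true (optS false (sIJ I J))) (pe6R I J hT g ((pe6s_E I J hT g).symm F)) = F :=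
    (pe6s_E I J hT g).apply_symm_apply F
  refine ⟨(pe6s_E I J hT g).symm F, ?_, ?_⟩
  · intro h
    apply (pe6s_E I J hT g).injective
    refine (pe6s_actE hT hP hfg g (h PUnit.unit) ((pe6s_E I J hT g).symm F)).trans ?_
    rw [h3]
    refine (hF (h PUnit.unit)).trans ?_
    exact ((pe6s_E I J hT g).apply_symm_apply F).symm
  · refine Eq.trans ?_ hF'
    exact congrArg (fun u : AG hT g (optS true (optS false (sIJ I J))) => res2 u.1) h3

theorem pe6s_h4 (a : (HA hT hP hfg g (I ⊕ PUnit) (J ⊕ PUnit)).A)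
    (ha : a ∈ rI (HA hT hP hfg g (I ⊕ PUnit) (J ⊕ PUnit))) : pe6Ψ' I J hT hP hfg g a = 0 :=
  T2d ((pe6_I hT hP hfg g a).1 ha)

theorem pe6s_h5 (a b : (HA hT hP hfg g (I ⊕ PUnit) (J ⊕ PUnit)).A) :
    pe6Ψ' I J hT hP hfg g (a * b) = pe6Ψ' I J hT hP hfg g a * pe6Ψ' I J hT hP hfg g b := by
  show res2 (rv hT g _ (pe6R I J hT g (a * b))) = res2 (rv hT g _ (pe6R I J hT g a)) * res2 (rv hT g _ (pe6R I J hT g b))
  rw [← map_mul res2, ← map_mul (rv hT g _)]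
  exact congrArg (fun u => res2 (rv hT g _ u)) (map_mul (pe6R I J hT g) a b)

theorem pe6s_h5' : pe6Ψ' I J hT hP hfg g 1 = 1 := by
  show res2 (rv hT g _ (pe6R I J hT g 1)) = 1
  have h1 : pe6R I J hT g (1 : RA hT g (sIJ (I ⊕ PUnit) (J ⊕ PUnit))) = 1 := map_one _
  exact (congrArg (fun u => res2 (rv hT g _ u)) h1).trans (by rw [map_one, map_one])

theorem pe6s_h6 (a b : (HA hT hP hfg g (I ⊕ PUnit) (J ⊕ PUnit)).A) (q q' : (HA hT hP hfg (g + 1) I J).A)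
    (ha : ∀ h : PUnit → G.X, ract (HA hT hP hfg g (I ⊕ PUnit) (J ⊕ PUnit)) 1 1 h a = a)
    (hb : ∀ h : PUnit → G.X, ract (HA hT hP hfg g (I ⊕ PUnit) (J ⊕ PUnit)) 1 1 h b = b)
    (hq : pe6Ψ' I J hT hP hfg g a = pe6ι hT hP hfg (g + 1) q)
    (hq' : pe6Ψ' I J hT hP hfg g b = pe6ι hT hP hfg (g + 1) q') :
    pe6Ψ' I J hT hP hfg g ((HA hT hP hfg g (I ⊕ PUnit) (J ⊕ PUnit)).br a b) =
      pe6ι hT hP hfg (g + 1) ((HA hT hP hfg (g + 1) I J).br q q') := by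
  have h1 := br_res2 (P := P) (sIJ I J) (pe6s_hinv hT hP hfg g a ha) (pe6s_hinv hT hP hfg g b hb)
  show res2 (rv hT g _ (pe6R I J hT g (brR hT P (closed_AG hT hP g _ _) a b))) = P.br (sIJ I J) (rv hT (g + 1) (sIJ I J) q) (rv hT (g + 1) (sIJ I J) q')
  have h2 : pe6R I J hT g (brR hT P (closed_AG hT hP g _ _) a b) =
      brR hT P (closed_AG hT hP g _ _) (pe6R I J hT g a) (pe6R I J hT g b) := re_brR hT _ _ _ _ a b
  refine (congrArg (fun u => res2 (rv hT g _ u)) h2).trans ?_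
  show res2 (P.br _ (rv hT g _ (pe6R I J hT g a)) (rv hT g _ (pe6R I J hT g b))) = _
  refine h1.trans ?_
  exact congrArg₂ (P.br (sIJ I J)) hq hq'

theorem pe6s_h7 (x : I → G.X) (y : J → G.X) (a : (HA hT hP hfg g (I ⊕ PUnit) (J ⊕ PUnit)).A)
    (q : (HA hT hP hfg (g + 1) I J).A)
    (hq : pe6Ψ' I J hT hP hfg g a = pe6ι hT hP hfg (g + 1) q) :
    pe6Ψ' I J hT hP hfg g (ract (HA hT hP hfg g (I ⊕ PUnit) (J ⊕ PUnit)) x y 1 a) =
      pe6ι hT hP hfg (g + 1) ((HA hT hP hfg (g + 1) I J).act (x, y) q) := by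
  have h1 := pe6_act hT hP hfg g x y 1 a
  show res2 (rv hT g _ (pe6R I J hT g (ract (HA hT hP hfg g (I ⊕ PUnit) (J ⊕ PUnit)) x y (fun _ => 1) a))) =
    gact (Sum.elim x y) (rv hT (g + 1) (sIJ I J) q)
  rw [h1, rv_actR, pe6_res2_gact]
  exact congrArg (gact (Sum.elim x y)) hq

theorem pe6s_h8 (d : I → G.Lie) :
    pe6Ψ' I J hT hP hfg g ((HA hT hP hfg g (I ⊕ PUnit) (J ⊕ PUnit)).μ (G.pl (Sum.elim d 0))) =
      pe6ι hT hP hfg (g + 1) ((HA hT hP hfg (g + 1) I J).μ (G.pl d)) := by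
  show res2 (rv hT g _ (pe6R I J hT g _)) = rv hT (g + 1) (sIJ I J) (muI hT (g + 1) I J (G.pl d))
  rw [pe6_mu, muI_apply]
  have h1 : muR hT g (optS true (optS false (sIJ I J))) none ((Sum.elim d (0 : PUnit.{1} → G.Lie)) (Sum.inr PUnit.unit)) = 0 :=
    map_zero _
  rw [h1, add_zero, map_sum, map_sum, map_sum]
  refine Finset.sum_congr rfl fun i _ => ?_
  rw [rv_muR, rv_muR, pe6_res2_muF, lpr_pl]
  rfl

theorem pe6s_h9 (d : J → G.Lie) :
    pe6Ψ' I J hT hP hfg g ((HA hT hP hfg g (I ⊕ PUnit) (J ⊕ PUnit)).ν (G.pl (Sum.elim d 0))) =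
      pe6ι hT hP hfg (g + 1) ((HA hT hP hfg (g + 1) I J).ν (G.pl d)) := by
  show res2 (rv hT g _ (pe6R I J hT g _)) = rv hT (g + 1) (sIJ I J) (nuJ hT (g + 1) I J (G.pl d))
  rw [pe6_nu, nuJ_apply]
  have h1 : muR hT g (optS true (optS false (sIJ I J))) (some none) ((Sum.elim d (0 : PUnit.{1} → G.Lie)) (Sum.inr PUnit.unit)) = 0 :=
    map_zero _
  rw [h1, add_zero, map_sum, map_sum, map_sum]
  refine Finset.sum_congr rfl fun i _ => ?_
  rw [rv_muR, rv_muR, pe6_res2_muF, lpr_pl]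
  rfl

end pe6

/-- [MTF-PE6] T2.
PROOF. `isRed_of` with `E = PUnit`, `M := RR G K X (I ⊕ J)`, `ι := rv`, `Ψ a := res2 (rv (re hT g (e2 I J) e2_sign a))`.  Under `R := re hT g (e2 I J) e2_sign` the diagonal action `ract 1 1 h` is
`actR (pt2 (h PUnit.unit))` (`re_actR`: `pt2 x ∘ e2 = Sum.elim (Sum.elim 1 (fun _ => x)) (Sum.elim 1 (fun _ => x))`), `rμ d` is `muR none (d unit) - muR (some none) (d unit)` (`re_muR`; `muI`, `nuJ` of
`pl (Sum.elim 0 d)`: only the last circle contributes), so `rI` corresponds to `I2` (through `raE`, `Ideal.map`/`span` of the images of the generators under the ring isomorphism).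
`h1`: `T2a`; `h2`: `T2b`; `h3`: `T2c`; `h4`: `T2d`; `h5`, `h5'`: `res2`, `rv` are ring homomorphisms; `h6`: `re_brR`, `rv_brR`, `br_res2`; `h7`: `ract g k 1` becomes
`actR (optP 1 (optP 1 (Sum.elim g k)))` and `res2 (gact (optP 1 (optP 1 z)) F) = gact z (res2 F)` (`res2_coeff`, `gact_apply`); `h8`, `h9`: `res2 (muF Q (some (some l)) D) = muF Q l D`. -/
theorem HA_t2 (hT : TQ Q) (hP : PQ Q P)
    (hfg : ∀ (g : ℕ) (L : Type) [Fintype L] [DecidableEq L] (ε : L → Bool), Algebra.FiniteType ℂ (RA hT g ε))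
    (g : ℕ) : IsRed (HA hT hP hfg g (I ⊕ PUnit) (J ⊕ PUnit)) (HA hT hP hfg (g + 1) I J) := by
  exact @isRed_of G I J PUnit _ _ _ (HA hT hP hfg g (I ⊕ PUnit) (J ⊕ PUnit)) (HA hT hP hfg (g + 1) I J)
    (RR G K X (I ⊕ J)) inferInstance inferInstance (pe6ι hT hP hfg (g + 1)) (pe6ι_inj hT hP hfg (g + 1))
    (pe6Ψ' I J hT hP hfg g) (pe6s_h1 hT hP hfg g) (pe6s_h2 hT hP hfg g) (pe6s_h3 hT hP hfg g)
    (pe6s_h4 hT hP hfg g) (fun a b _ _ => pe6s_h5 hT hP hfg g a b) (pe6s_h5' hT hP hfg g)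
    (pe6s_h6 hT hP hfg g) (pe6s_h7 hT hP hfg g) (pe6s_h8 hT hP hfg g) (pe6s_h9 hT hP hfg g)

end

end Pool.Agent.MTF
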