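import Pool.Agent.MTF.PE2
import Pool.Agent.MTF.PE4

/-! # MTF, part P : joining two surfaces, translation to T1 -/

set_option linter.unusedSectionVars false

namespace Pool.Agent.MTF

open AffGrp

section
variable {G : AffGrp} {K W X : Type} [Field K] [Algebra ℂ K] [Group W] [Fintype W]
  [MulSemiringAction W K] [SMulCommClass W ℂ K] [AddCommGroup X] [DistribMulAction W X]
variable {Q : TQD G K W X}
variable {P : PD Q}

open TensorProduct

variable {I J I' J' : Type} [Fintype I] [DecidableEq I] [Fintype J] [DecidableEq J] [Fintype I'] [DecidableEq I']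
  [Fintype J'] [DecidableEq J']

/-- the relabelling `(I ⊕ PUnit) ⊕ J ≃ Option (I ⊕ J)` -/
def e1 (I J : Type) : (I ⊕ PUnit) ⊕ J ≃ Option (I ⊕ J) where
  toFun := Sum.elim (Sum.elim (fun i => some (Sum.inl i)) (fun _ => none)) (fun j => some (Sum.inr j))
  invFun o := o.elim (Sum.inl (Sum.inr PUnit.unit)) (Sum.elim (fun i => Sum.inl (Sum.inl i)) Sum.inr)
  left_inv := by
    rintro ((i | ⟨⟩) | j) <;> rfl
  right_inv := by
    rintro (_ | (i | j)) <;> rfl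

/-- the relabelling `I ⊕ (J ⊕ PUnit) ≃ Option (I ⊕ J)` -/
def e1' (I J : Type) : I ⊕ (J ⊕ PUnit) ≃ Option (I ⊕ J) where
  toFun := Sum.elim (fun i => some (Sum.inl i)) (Sum.elim (fun j => some (Sum.inr j)) (fun _ => none))
  invFun o := o.elim (Sum.inr (Sum.inr PUnit.unit)) (Sum.elim Sum.inl (fun j => Sum.inr (Sum.inl j)))
  left_inv := by
    rintro (i | (j | ⟨⟩)) <;> rfl
  right_inv := by
    rintro (_ | (i | j)) <;> rfl

theorem e1_sign (l : (I ⊕ PUnit) ⊕ J) : optS true (sIJ I J) (e1 I J l) = sIJ (I ⊕ PUnit) J l := by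
  rcases l with ((i | ⟨⟩) | j) <;> rfl

theorem e1'_sign (l : I ⊕ (J ⊕ PUnit)) : optS false (sIJ I J) (e1' I J l) = sIJ I (J ⊕ PUnit) l := by
  rcases l with (i | (j | ⟨⟩)) <;> rfl

/-- the relabelling `(I ⊕ J) ⊕ (I' ⊕ J') ≃ (I ⊕ I') ⊕ (J ⊕ J')` of signs -/
theorem ssc_sign (l : (I ⊕ J) ⊕ (I' ⊕ J')) :
    sIJ (I ⊕ I') (J ⊕ J') (Equiv.sumSumSumComm I J I' J' l) = Sum.elim (sIJ I J) (sIJ I' J') l := by
  rcases l with ((i | j) | (i | j)) <;> rfl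

/-- `RA ⊗ RA ≃ AG ⊗ AG` after relabelling -/
noncomputable def R1 (hT : TQ Q) (g g' : ℕ) (I J I' J' : Type) [Fintype I] [DecidableEq I] [Fintype J] [DecidableEq J]
    [Fintype I'] [DecidableEq I'] [Fintype J'] [DecidableEq J'] :
    (RA hT g (sIJ (I ⊕ PUnit) J) ⊗[ℂ] RA hT g' (sIJ I' (J' ⊕ PUnit))) ≃ₐ[ℂ]
      (AG hT g (optS true (sIJ I J)) ⊗[ℂ] AG hT g' (optS false (sIJ I' J'))) :=
  Algebra.TensorProduct.congr ((re hT g (e1 I J) e1_sign).trans (raE hT g _))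
    ((re hT g' (e1' I' J') e1'_sign).trans (raE hT g' _))

/-- `RA` of the joined surface in the ring of all families -/
noncomputable def iot1 (hT : TQ Q) (g : ℕ) (I J I' J' : Type) [Fintype I] [DecidableEq I] [Fintype J] [DecidableEq J]
    [Fintype I'] [DecidableEq I'] [Fintype J'] [DecidableEq J'] :
    RA hT g (sIJ (I ⊕ I') (J ⊕ J')) →ₐ[ℂ] RR G K X ((I ⊕ J) ⊕ (I' ⊕ J')) :=
  ((fm X (pb K (Equiv.sumSumSumComm I J I' J').symm)).restrictScalars ℂ).comp (rv hT g (sIJ (I ⊕ I') (J ⊕ J')))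

/-- the restriction -/
noncomputable def Psi1 (hT : TQ Q) (g g' : ℕ) (I J I' J' : Type) [Fintype I] [DecidableEq I] [Fintype J] [DecidableEq J]
    [Fintype I'] [DecidableEq I'] [Fintype J'] [DecidableEq J'] :
    (RA hT g (sIJ (I ⊕ PUnit) J) ⊗[ℂ] RA hT g' (sIJ I' (J' ⊕ PUnit))) →ₗ[ℂ] RR G K X ((I ⊕ J) ⊕ (I' ⊕ J')) :=
  ((dgn _ X).restrictScalars ℂ) ∘ₗ (rho1 hT g g' (sIJ I J) (sIJ I' J')).toLinearMap ∘ₗ (R1 hT g g' I J I' J').toLinearMap

/-- the product space -/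
noncomputable def B1 (hT : TQ Q) (hP : PQ Q P)
    (hfg : ∀ (g : ℕ) (L : Type) [Fintype L] [DecidableEq L] (ε : L → Bool), Algebra.FiniteType ℂ (RA hT g ε))
    (g g' : ℕ) (I J I' J' : Type) [Fintype I] [DecidableEq I] [Fintype J] [DecidableEq J]
    [Fintype I'] [DecidableEq I'] [Fintype J'] [DecidableEq J'] :
    Ham (G.pow ((I ⊕ I') ⊕ PUnit)) (G.pow ((J ⊕ J') ⊕ PUnit)) :=
  ((HA hT hP hfg g (I ⊕ PUnit) J).pull
        (Sum.map Sum.inl id : I ⊕ PUnit → (I ⊕ I') ⊕ PUnit)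
        (Sum.inl ∘ Sum.inl : J → (J ⊕ J') ⊕ PUnit)).box
      ((HA hT hP hfg g' I' (J' ⊕ PUnit)).pull
        (Sum.inl ∘ Sum.inr : I' → (I ⊕ I') ⊕ PUnit)
        (Sum.map Sum.inr id : J' ⊕ PUnit → (J ⊕ J') ⊕ PUnit))

variable (hT : TQ Q) (hP : PQ Q P)
    (hfg : ∀ (g : ℕ) (L : Type) [Fintype L] [DecidableEq L] (ε : L → Bool), Algebra.FiniteType ℂ (RA hT g ε))
    (g g' : ℕ)

theorem pe7_R1_tmul (a : RA hT g (sIJ (I ⊕ PUnit) J)) (b : RA hT g' (sIJ I' (J' ⊕ PUnit))) :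
    R1 hT g g' I J I' J' (a ⊗ₜ[ℂ] b) =
      raE hT g _ (re hT g (e1 I J) e1_sign a) ⊗ₜ[ℂ] raE hT g' _ (re hT g' (e1' I' J') e1'_sign b) := rfl

theorem pe7_act (x : Option (I ⊕ J) → G.X) (y : (I ⊕ PUnit) ⊕ J → G.X) (h : y = x ∘ e1 I J)
    (a : RA hT g (sIJ (I ⊕ PUnit) J)) :
    raE hT g (optS true (sIJ I J)) (re hT g (e1 I J) e1_sign (actR hT y a)) =
      actAG hT g (optS true (sIJ I J)) x (raE hT g _ (re hT g (e1 I J) e1_sign a)) := by
  rw [h, re_actR]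
  rfl

theorem pe7_act' (x : Option (I' ⊕ J') → G.X) (y : I' ⊕ (J' ⊕ PUnit) → G.X) (h : y = x ∘ e1' I' J')
    (a : RA hT g' (sIJ I' (J' ⊕ PUnit))) :
    raE hT g' (optS false (sIJ I' J')) (re hT g' (e1' I' J') e1'_sign (actR hT y a)) =
      actAG hT g' (optS false (sIJ I' J')) x (raE hT g' _ (re hT g' (e1' I' J') e1'_sign a)) := by
  rw [h, re_actR]
  rfl

theorem pe7_muI (d : I → G.Lie) :
    muI hT g I J (G.pl d) = ∑ i, muR hT g (sIJ I J) (Sum.inl i) (d i) := by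
  rw [muI_apply]
  exact Finset.sum_congr rfl fun i _ => by rw [lpr_pl]

theorem pe7_nuJ (d : J → G.Lie) :
    nuJ hT g I J (G.pl d) = ∑ j, muR hT g (sIJ I J) (Sum.inr j) (d j) := by
  rw [nuJ_apply]
  exact Finset.sum_congr rfl fun i _ => by rw [lpr_pl]

theorem pe7_mu (D : G.Lie) :
    raE hT g (optS true (sIJ I J)) (re hT g (e1 I J) e1_sign
      (muR hT g (sIJ (I ⊕ PUnit) J) (Sum.inl (Sum.inr PUnit.unit)) D)) = muAG hT g (optS true (sIJ I J)) none D := by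
  rw [re_muR]
  rfl

theorem pe7_nu (D : G.Lie) :
    raE hT g' (optS false (sIJ I' J')) (re hT g' (e1' I' J') e1'_sign
      (muR hT g' (sIJ I' (J' ⊕ PUnit)) (Sum.inr (Sum.inr PUnit.unit)) D)) = muAG hT g' (optS false (sIJ I' J')) none D := by
  rw [re_muR]
  rfl

theorem pe7_Bμ (d : PUnit → G.Lie) :
    (B1 hT hP hfg g g' I J I' J').μ (G.pl (Sum.elim (0 : I ⊕ I' → G.Lie) d)) =
      muR hT g (sIJ (I ⊕ PUnit) J) (Sum.inl (Sum.inr PUnit.unit)) (d PUnit.unit) ⊗ₜ[ℂ]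
        (1 : RA hT g' (sIJ I' (J' ⊕ PUnit))) := by
  show muI hT g (I ⊕ PUnit) J (G.lmap (Sum.map Sum.inl id : I ⊕ PUnit → (I ⊕ I') ⊕ PUnit)
      (G.pl (Sum.elim (0 : I ⊕ I' → G.Lie) d))) ⊗ₜ[ℂ] (1 : RA hT g' (sIJ I' (J' ⊕ PUnit))) +
    (1 : RA hT g (sIJ (I ⊕ PUnit) J)) ⊗ₜ[ℂ] muI hT g' I' (J' ⊕ PUnit) (G.lmap (Sum.inl ∘ Sum.inr : I' → (I ⊕ I') ⊕ PUnit)
      (G.pl (Sum.elim (0 : I ⊕ I' → G.Lie) d))) = _
  rw [lmap_pl, lmap_pl, pe7_muI, pe7_muI, Fintype.sum_sum_type]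
  have h1 : ∑ i : I, muR hT g (sIJ (I ⊕ PUnit) J) (Sum.inl (Sum.inl i))
      ((Sum.elim (0 : I ⊕ I' → G.Lie) d ∘ (Sum.map Sum.inl id : I ⊕ PUnit → (I ⊕ I') ⊕ PUnit)) (Sum.inl i)) = 0 :=
    Finset.sum_eq_zero fun i _ => map_zero _
  have h2 : ∑ i : I', muR hT g' (sIJ I' (J' ⊕ PUnit)) (Sum.inl i)
      ((Sum.elim (0 : I ⊕ I' → G.Lie) d ∘ (Sum.inl ∘ Sum.inr : I' → (I ⊕ I') ⊕ PUnit)) i) = 0 :=
    Finset.sum_eq_zero fun i _ => map_zero _
  rw [h1, h2, zero_add, TensorProduct.tmul_zero, add_zero, Finset.univ_unique, Finset.sum_singleton]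
  rfl

theorem pe7_Bν (d : PUnit → G.Lie) :
    (B1 hT hP hfg g g' I J I' J').ν (G.pl (Sum.elim (0 : J ⊕ J' → G.Lie) d)) =
      (1 : RA hT g (sIJ (I ⊕ PUnit) J)) ⊗ₜ[ℂ]
        muR hT g' (sIJ I' (J' ⊕ PUnit)) (Sum.inr (Sum.inr PUnit.unit)) (d PUnit.unit) := by
  show nuJ hT g (I ⊕ PUnit) J (G.lmap (Sum.inl ∘ Sum.inl : J → (J ⊕ J') ⊕ PUnit)
      (G.pl (Sum.elim (0 : J ⊕ J' → G.Lie) d))) ⊗ₜ[ℂ] (1 : RA hT g' (sIJ I' (J' ⊕ PUnit))) +
    (1 : RA hT g (sIJ (I ⊕ PUnit) J)) ⊗ₜ[ℂ] nuJ hT g' I' (J' ⊕ PUnit) (G.lmap (Sum.map Sum.inr id : J' ⊕ PUnit → (J ⊕ J') ⊕ PUnit)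
      (G.pl (Sum.elim (0 : J ⊕ J' → G.Lie) d))) = _
  rw [lmap_pl, lmap_pl, pe7_nuJ, pe7_nuJ, Fintype.sum_sum_type]
  have h1 : ∑ i : J', muR hT g' (sIJ I' (J' ⊕ PUnit)) (Sum.inr (Sum.inl i))
      ((Sum.elim (0 : J ⊕ J' → G.Lie) d ∘ (Sum.map Sum.inr id : J' ⊕ PUnit → (J ⊕ J') ⊕ PUnit)) (Sum.inl i)) = 0 :=
    Finset.sum_eq_zero fun i _ => map_zero _
  have h2 : ∑ i : J, muR hT g (sIJ (I ⊕ PUnit) J) (Sum.inr i)
      ((Sum.elim (0 : J ⊕ J' → G.Lie) d ∘ (Sum.inl ∘ Sum.inl : J → (J ⊕ J') ⊕ PUnit)) i) = 0 :=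
    Finset.sum_eq_zero fun i _ => map_zero _
  rw [h1, h2, zero_add, TensorProduct.zero_tmul, zero_add, Finset.univ_unique, Finset.sum_singleton]
  rfl

theorem pe7_br (a a' : RA hT g (sIJ (I ⊕ PUnit) J)) :
    raE hT g (optS true (sIJ I J)) (re hT g (e1 I J) e1_sign (brR hT P (closed_AG hT hP g ((I ⊕ PUnit) ⊕ J) (sIJ (I ⊕ PUnit) J)) a a')) =
      brA hT P (closed_AG hT hP g (Option (I ⊕ J)) (optS true (sIJ I J)))
        (raE hT g (optS true (sIJ I J)) (re hT g (e1 I J) e1_sign a))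
        (raE hT g (optS true (sIJ I J)) (re hT g (e1 I J) e1_sign a')) := by
  rw [re_brR hT (e1 I J) e1_sign _ (closed_AG hT hP g (Option (I ⊕ J)) (optS true (sIJ I J)))]
  exact raE_brR hT _ _ _

theorem pe7_br' (a a' : RA hT g' (sIJ I' (J' ⊕ PUnit))) :
    raE hT g' (optS false (sIJ I' J')) (re hT g' (e1' I' J') e1'_sign (brR hT P (closed_AG hT hP g' (I' ⊕ (J' ⊕ PUnit)) (sIJ I' (J' ⊕ PUnit))) a a')) =
      brA hT P (closed_AG hT hP g' (Option (I' ⊕ J')) (optS false (sIJ I' J')))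
        (raE hT g' (optS false (sIJ I' J')) (re hT g' (e1' I' J') e1'_sign a))
        (raE hT g' (optS false (sIJ I' J')) (re hT g' (e1' I' J') e1'_sign a')) := by
  rw [re_brR hT (e1' I' J') e1'_sign _ (closed_AG hT hP g' (Option (I' ⊕ J')) (optS false (sIJ I' J')))]
  exact raE_brR hT _ _ _

theorem pe7_ext2 (M N : PAlg) {C : Type} [AddCommMonoid C] [Module ℂ C] (R : M.A ⊗[ℂ] N.A → C)
    (hadd : ∀ x y, R (x + y) = R x + R y) (h0 : R 0 = 0) (T : C →ₗ[ℂ] C →ₗ[ℂ] C)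
    (h : ∀ a b a' b', R (M.br a a' ⊗ₜ[ℂ] (b * b') + (a * a') ⊗ₜ[ℂ] N.br b b') =
      T (R (a ⊗ₜ[ℂ] b)) (R (a' ⊗ₜ[ℂ] b'))) (x y : M.A ⊗[ℂ] N.A) : R (tbr M N x y) = T (R x) (R y) := by
  induction x using TensorProduct.induction_on with
  | zero => simp only [map_zero, LinearMap.zero_apply, h0]
  | add x x' hx hx' => rw [map_add, LinearMap.add_apply, hadd, hx, hx', hadd, map_add, LinearMap.add_apply]
  | tmul a b =>
    induction y using TensorProduct.induction_on with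
    | zero => simp only [map_zero, h0]
    | add y y' hy hy' => rw [map_add, hadd, hy, hy', hadd, map_add]
    | tmul a' b' => rw [tbr_tmul, h]

theorem pe7_tbA_tmul {L L' : Type} [Fintype L] [DecidableEq L] [Fintype L'] [DecidableEq L'] {ε : L → Bool}
    {ε' : L' → Bool} (h : Closed hT P g ε) (h' : Closed hT P g' ε') (F F' : AG hT g ε) (H H' : AG hT g' ε') :
    tbA hT P h h' (F ⊗ₜ[ℂ] H) (F' ⊗ₜ[ℂ] H') =
      brA hT P h F F' ⊗ₜ[ℂ] (H * H') + (F * F') ⊗ₜ[ℂ] brA hT P h' H H' := rfl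

theorem pe7_pure (a a' : RA hT g (sIJ (I ⊕ PUnit) J)) (b b' : RA hT g' (sIJ I' (J' ⊕ PUnit))) :
    R1 hT g g' I J I' J' (brR hT P (closed_AG hT hP g ((I ⊕ PUnit) ⊕ J) (sIJ (I ⊕ PUnit) J)) a a' ⊗ₜ[ℂ] (b * b') +
      (a * a') ⊗ₜ[ℂ] brR hT P (closed_AG hT hP g' (I' ⊕ (J' ⊕ PUnit)) (sIJ I' (J' ⊕ PUnit))) b b') =
    tbA hT P (closed_AG hT hP g (Option (I ⊕ J)) (optS true (sIJ I J)))
      (closed_AG hT hP g' (Option (I' ⊕ J')) (optS false (sIJ I' J')))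
      (R1 hT g g' I J I' J' (a ⊗ₜ[ℂ] b)) (R1 hT g g' I J I' J' (a' ⊗ₜ[ℂ] b')) := by
  refine (map_add (R1 hT g g' I J I' J') _ _).trans ?_
  rw [pe7_R1_tmul, pe7_R1_tmul, pe7_R1_tmul, pe7_R1_tmul, pe7_br hT hP g, pe7_br' hT hP g', pe7_tbA_tmul]
  have h1 : raE hT g' (optS false (sIJ I' J')) (re hT g' (e1' I' J') e1'_sign (b * b')) =
    raE hT g' (optS false (sIJ I' J')) (re hT g' (e1' I' J') e1'_sign b) *
      raE hT g' (optS false (sIJ I' J')) (re hT g' (e1' I' J') e1'_sign b') :=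
    (congrArg _ (map_mul (re hT g' (e1' I' J') e1'_sign) b b')).trans (map_mul (raE hT g' _) _ _)
  have h2 : raE hT g (optS true (sIJ I J)) (re hT g (e1 I J) e1_sign (a * a')) =
    raE hT g (optS true (sIJ I J)) (re hT g (e1 I J) e1_sign a) *
      raE hT g (optS true (sIJ I J)) (re hT g (e1 I J) e1_sign a') :=
    (congrArg _ (map_mul (re hT g (e1 I J) e1_sign) a a')).trans (map_mul (raE hT g _) _ _)
  rw [h1, h2]

/-- [MTF-PE7] the diagonal action of the circle. PROOF. pure tensors; `re_actR`; `pt1 x ∘ e1 = Sum.elim (Sum.elim 1 (fun _ => x)) 1` etc. -/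
theorem R1_ract (h : PUnit → G.X) (a : (B1 hT hP hfg g g' I J I' J').A) :
    R1 hT g g' I J I' J' (ract (B1 hT hP hfg g g' I J I' J') 1 1 h a) =
      dact hT g g' (sIJ I J) (sIJ I' J') (h PUnit.unit) (R1 hT g g' I J I' J' a) := by
  have e : ((R1 hT g g' I J I' J').toLinearMap ∘ₗ (ract (B1 hT hP hfg g g' I J I' J') 1 1 h).toLinearMap :
      (RA hT g (sIJ (I ⊕ PUnit) J) ⊗[ℂ] RA hT g' (sIJ I' (J' ⊕ PUnit))) →ₗ[ℂ]
        (AG hT g (optS true (sIJ I J)) ⊗[ℂ] AG hT g' (optS false (sIJ I' J')))) =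
      (dact hT g g' (sIJ I J) (sIJ I' J') (h PUnit.unit)).toLinearMap ∘ₗ (R1 hT g g' I J I' J').toLinearMap := by
    apply TensorProduct.ext'
    intro a b
    show R1 hT g g' I J I' J' (actR hT _ a ⊗ₜ[ℂ] actR hT _ b) =
      dact hT g g' (sIJ I J) (sIJ I' J') (h PUnit.unit) (R1 hT g g' I J I' J' (a ⊗ₜ[ℂ] b))
    rw [pe7_R1_tmul, pe7_R1_tmul, pe7_act hT g (optP (h PUnit.unit) 1), pe7_act' hT g' (optP (h PUnit.unit) 1)]
    · rfl
    · funext l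
      rcases l with i | (j | ⟨⟩) <;> rfl
    · funext l
      rcases l with (i | ⟨⟩) | j <;> rfl
  exact LinearMap.congr_fun e a

/-- [MTF-PE7] the moment map of the circle. PROOF. definition of `rμ`, `bμ`, `bν`, `pull`; `lmap_pl`; only the circle `PUnit` contributes; `re_muR`. -/
theorem R1_rμ (d : PUnit → G.Lie) :
    R1 hT g g' I J I' J' (rμ (B1 hT hP hfg g g' I J I' J') d) =
      muAG hT g (optS true (sIJ I J)) none (d PUnit.unit) ⊗ₜ[ℂ] (1 : AG hT g' (optS false (sIJ I' J'))) -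
        (1 : AG hT g (optS true (sIJ I J))) ⊗ₜ[ℂ] muAG hT g' (optS false (sIJ I' J')) none (d PUnit.unit) := by
  have e : rμ (B1 hT hP hfg g g' I J I' J') d =
      (muR hT g (sIJ (I ⊕ PUnit) J) (Sum.inl (Sum.inr PUnit.unit)) (d PUnit.unit) ⊗ₜ[ℂ]
        (1 : RA hT g' (sIJ I' (J' ⊕ PUnit))) - (1 : RA hT g (sIJ (I ⊕ PUnit) J)) ⊗ₜ[ℂ]
        muR hT g' (sIJ I' (J' ⊕ PUnit)) (Sum.inr (Sum.inr PUnit.unit)) (d PUnit.unit) :
        RA hT g (sIJ (I ⊕ PUnit) J) ⊗[ℂ] RA hT g' (sIJ I' (J' ⊕ PUnit))) := by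
    rw [← pe7_Bμ hT hP hfg g g' (I := I) (I' := I') (J := J) (J' := J') d,
      ← pe7_Bν hT hP hfg g g' (I := I) (I' := I') (J := J) (J' := J') d]
    rfl
  refine (congrArg (R1 hT g g' I J I' J') e).trans ?_
  rw [map_sub, pe7_R1_tmul, pe7_R1_tmul, pe7_mu, pe7_nu, map_one, map_one, map_one, map_one]

/-- [MTF-PE7] PROOF. `rI`, `I1` are spanned by corresponding elements (`R1_rμ`) under the ring isomorphism `R1`. -/
theorem R1_rI (a : (B1 hT hP hfg g g' I J I' J').A) :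
    a ∈ rI (B1 hT hP hfg g g' I J I' J') ↔ R1 hT g g' I J I' J' a ∈ I1 hT g g' (sIJ I J) (sIJ I' J') := by
  constructor
  · intro h
    unfold rI at h
    refine Submodule.span_induction (p := fun (a : (B1 hT hP hfg g g' I J I' J').A) _ =>
      R1 hT g g' I J I' J' a ∈ I1 hT g g' (sIJ I J) (sIJ I' J')) ?_ ?_ ?_ ?_ h
    · rintro _ ⟨d, rfl⟩
      rw [R1_rμ]
      exact Ideal.subset_span ⟨d PUnit.unit, rfl⟩
    · have h0 : R1 hT g g' I J I' J' 0 = 0 := map_zero _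
      have h1 : R1 hT g g' I J I' J' (0 : (B1 hT hP hfg g g' I J I' J').A) = 0 := h0
      rw [h1]
      exact Ideal.zero_mem _
    · intro x y _ _ hx hy
      have h1 : R1 hT g g' I J I' J' (x + y) = R1 hT g g' I J I' J' x + R1 hT g g' I J I' J' y :=
        map_add (R1 hT g g' I J I' J') x y
      rw [h1]
      exact Ideal.add_mem _ hx hy
    · intro c x _ hx
      have h1 : R1 hT g g' I J I' J' (c • x) = R1 hT g g' I J I' J' c * R1 hT g g' I J I' J' x :=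
        map_mul (R1 hT g g' I J I' J') c x
      rw [h1]
      exact Ideal.mul_mem_left _ _ hx
  · intro h
    have key : ∀ y, y ∈ I1 hT g g' (sIJ I J) (sIJ I' J') →
        ((R1 hT g g' I J I' J').symm y : (B1 hT hP hfg g g' I J I' J').A) ∈ rI (B1 hT hP hfg g g' I J I' J') := by
      intro y hy
      unfold I1 at hy
      refine Submodule.span_induction (p := fun y _ =>
        ((R1 hT g g' I J I' J').symm y : (B1 hT hP hfg g g' I J I' J').A) ∈ rI (B1 hT hP hfg g g' I J I' J'))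
        ?_ ?_ ?_ ?_ hy
      · rintro _ ⟨D, rfl⟩
        have h2 := R1_rμ hT hP hfg g g' (I := I) (I' := I') (J := J) (J' := J') fun _ => D
        have h3 : (R1 hT g g' I J I' J').symm (muAG hT g (optS true (sIJ I J)) none D ⊗ₜ[ℂ]
            (1 : AG hT g' (optS false (sIJ I' J'))) - (1 : AG hT g (optS true (sIJ I J))) ⊗ₜ[ℂ]
            muAG hT g' (optS false (sIJ I' J')) none D) = rμ (B1 hT hP hfg g g' I J I' J') fun _ => D := by
          rw [← h2]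
          exact (R1 hT g g' I J I' J').symm_apply_apply _
        have h4 : rμ (B1 hT hP hfg g g' I J I' J') (fun _ => D) ∈ rI (B1 hT hP hfg g g' I J I' J') :=
          Ideal.subset_span ⟨_, rfl⟩
        rw [← h3] at h4
        exact h4
      · have h1 : (R1 hT g g' I J I' J').symm 0 = 0 := map_zero _
        rw [h1]
        exact Ideal.zero_mem _
      · intro x y _ _ hx hy
        have h1 : (R1 hT g g' I J I' J').symm (x + y) = (R1 hT g g' I J I' J').symm x +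
            (R1 hT g g' I J I' J').symm y := map_add _ x y
        rw [h1]
        exact Ideal.add_mem _ hx hy
      · intro c x _ hx
        have h1 : (R1 hT g g' I J I' J').symm (c • x) = (R1 hT g g' I J I' J').symm c *
            (R1 hT g g' I J I' J').symm x := map_mul _ c x
        rw [h1]
        exact Ideal.mul_mem_left _ _ hx
    have h5 := key _ h
    have h6 : (R1 hT g g' I J I' J').symm (R1 hT g g' I J I' J' a) = a :=
      (R1 hT g g' I J I' J').symm_apply_apply _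
    rw [h6] at h5
    exact h5

/-- [MTF-PE7] the bracket. PROOF. pure tensors twice: `re_brR`, `raE_brR`, `tbr_tmul`. -/
theorem R1_br (a b : (B1 hT hP hfg g g' I J I' J').A) :
    R1 hT g g' I J I' J' ((B1 hT hP hfg g g' I J I' J').br a b) =
      tbA hT P (closed_AG hT hP g _ _) (closed_AG hT hP g' _ _) (R1 hT g g' I J I' J' a) (R1 hT g g' I J I' J' b) := by
  exact pe7_ext2 (HA hT hP hfg g (I ⊕ PUnit) J).toPAlg (HA hT hP hfg g' I' (J' ⊕ PUnit)).toPAlg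
    (R1 hT g g' I J I' J') (map_add (R1 hT g g' I J I' J')) (map_zero (R1 hT g g' I J I' J'))
    (tbA hT P (closed_AG hT hP g (Option (I ⊕ J)) (optS true (sIJ I J)))
      (closed_AG hT hP g' (Option (I' ⊕ J')) (optS false (sIJ I' J'))))
    (fun a b a' b' => pe7_pure hT hP g g' a a' b b') a b

end

end Pool.Agent.MTF
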