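import Pool.Agent.MTF.PE7

/-! # MTF, part P : joining two surfaces -/

set_option linter.unusedSectionVars false

namespace Pool.Agent.MTF

open AffGrp

section
variable {G : AffGrp} {K W X : Type} [Field K] [Algebra ℂ K] [Group W] [Fintype W]
  [MulSemiringAction W K] [SMulCommClass W ℂ K] [AddCommGroup X] [DistribMulAction W X]
variable {Q : TQD G K W X}
variable {P : PD Q}

open TensorProduct

variable {I J I' J' : Type} [Fintype I] [DecidableEq I] [Fintype J] [DecidableEq J] [Fintype I'] [DecidableEq I']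
  [Fintype J'] [DecidableEq J']
variable (hT : TQ Q) (hP : PQ Q P)
    (hfg : ∀ (g : ℕ) (L : Type) [Fintype L] [DecidableEq L] (ε : L → Bool), Algebra.FiniteType ℂ (RA hT g ε))
    (g g' : ℕ)


/-- the restriction of the product of two families -/
noncomputable def pe8s_dr {L L' : Type} [Finite L] [DecidableEq L] [Finite L'] [DecidableEq L']
    (F : RR G K X (Option L)) (F' : RR G K X (Option L')) : RR G K X (L ⊕ L') :=
  dgn ((G.pow (L ⊕ L')).KO K) X (rr1 (L := L) (L' := L') F F')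

theorem pe8_Psi1_tmul' (b : RA hT g (sIJ (I ⊕ PUnit) J)) (c : RA hT g' (sIJ I' (J' ⊕ PUnit))) :
    Psi1 hT g g' I J I' J' (b ⊗ₜ c) =
      pe8s_dr (rv hT g _ (re hT g (e1 I J) e1_sign b)) (rv hT g' _ (re hT g' (e1' I' J') e1'_sign c)) :=
  congrArg (dgn ((G.pow ((I ⊕ J) ⊕ (I' ⊕ J'))).KO K) X) (rho1_tmul hT g g' (sIJ I J) (sIJ I' J')
    (raE hT g _ (re hT g (e1 I J) e1_sign b)) (raE hT g' _ (re hT g' (e1' I' J') e1'_sign c)))

/-- the value of `Psi1` on pure tensors -/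
theorem pe8_Psi1_tmul (b : RA hT g (sIJ (I ⊕ PUnit) J)) (c : RA hT g' (sIJ I' (J' ⊕ PUnit))) (m : X)
    (k : (I ⊕ J) ⊕ (I' ⊕ J') → G.X) :
    ((Psi1 hT g g' I J I' J' (b ⊗ₜ c)).coeff m).1 k =
      ((rv hT g _ (re hT g (e1 I J) e1_sign b)).coeff m).1 (optP 1 (k ∘ Sum.inl)) *
        ((rv hT g' _ (re hT g' (e1' I' J') e1'_sign c)).coeff m).1 (optP 1 (k ∘ Sum.inr)) := by
  rw [pe8_Psi1_tmul']
  unfold pe8s_dr
  rw [coeff_dgn, rr1_coeff]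

theorem pe8_act_tmul (x : (I ⊕ I') → G.X) (y : (J ⊕ J') → G.X) (b : RA hT g (sIJ (I ⊕ PUnit) J))
    (c : RA hT g' (sIJ I' (J' ⊕ PUnit))) :
    ract (B1 hT hP hfg g g' I J I' J') x y 1 (b ⊗ₜ[ℂ] c : RA hT g (sIJ (I ⊕ PUnit) J) ⊗[ℂ] RA hT g' (sIJ I' (J' ⊕ PUnit))) =
      (actR hT (Sum.elim (Sum.elim (x ∘ Sum.inl) 1) (y ∘ Sum.inl)) b ⊗ₜ[ℂ]
        actR hT (Sum.elim (x ∘ Sum.inr) (Sum.elim (y ∘ Sum.inr) 1)) c :
        RA hT g (sIJ (I ⊕ PUnit) J) ⊗[ℂ] RA hT g' (sIJ I' (J' ⊕ PUnit))) := by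
  have h1 : ract (B1 hT hP hfg g g' I J I' J') x y 1 (b ⊗ₜ[ℂ] c : RA hT g (sIJ (I ⊕ PUnit) J) ⊗[ℂ] RA hT g' (sIJ I' (J' ⊕ PUnit))) =
      (actR hT (Sum.elim ((Sum.elim x 1 : (I ⊕ I') ⊕ PUnit.{1} → G.X) ∘ (Sum.map Sum.inl id : I ⊕ PUnit.{1} → (I ⊕ I') ⊕ PUnit.{1}))
          ((Sum.elim y 1 : (J ⊕ J') ⊕ PUnit.{1} → G.X) ∘ (Sum.inl ∘ Sum.inl : J → (J ⊕ J') ⊕ PUnit.{1}))) b ⊗ₜ[ℂ]
        actR hT (Sum.elim ((Sum.elim x 1 : (I ⊕ I') ⊕ PUnit.{1} → G.X) ∘ (Sum.inl ∘ Sum.inr : I' → (I ⊕ I') ⊕ PUnit.{1}))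
          ((Sum.elim y 1 : (J ⊕ J') ⊕ PUnit.{1} → G.X) ∘ (Sum.map Sum.inr id : J' ⊕ PUnit.{1} → (J ⊕ J') ⊕ PUnit.{1}))) c :
        RA hT g (sIJ (I ⊕ PUnit) J) ⊗[ℂ] RA hT g' (sIJ I' (J' ⊕ PUnit))) := rfl
  refine h1.trans ?_
  have h2 : (Sum.elim ((Sum.elim x 1 : (I ⊕ I') ⊕ PUnit.{1} → G.X) ∘ (Sum.map Sum.inl id : I ⊕ PUnit.{1} → (I ⊕ I') ⊕ PUnit.{1}))
          ((Sum.elim y 1 : (J ⊕ J') ⊕ PUnit.{1} → G.X) ∘ (Sum.inl ∘ Sum.inl : J → (J ⊕ J') ⊕ PUnit.{1}))) =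
      (Sum.elim (Sum.elim (x ∘ Sum.inl) 1) (y ∘ Sum.inl)) := by
    funext l
    rcases l with ((i | ⟨⟩) | j) <;> rfl
  have h3 : (Sum.elim ((Sum.elim x 1 : (I ⊕ I') ⊕ PUnit.{1} → G.X) ∘ (Sum.inl ∘ Sum.inr : I' → (I ⊕ I') ⊕ PUnit.{1}))
          ((Sum.elim y 1 : (J ⊕ J') ⊕ PUnit.{1} → G.X) ∘ (Sum.map Sum.inr id : J' ⊕ PUnit.{1} → (J ⊕ J') ⊕ PUnit.{1}))) =
      (Sum.elim (x ∘ Sum.inr) (Sum.elim (y ∘ Sum.inr) 1)) := by
    funext l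
    rcases l with (i | (j | ⟨⟩)) <;> rfl
  exact congrArg₂ (fun u v => (actR hT u b ⊗ₜ[ℂ] actR hT v c :
        RA hT g (sIJ (I ⊕ PUnit) J) ⊗[ℂ] RA hT g' (sIJ I' (J' ⊕ PUnit)))) h2 h3

theorem pe8_gact1 {L : Type} [Finite L] [DecidableEq L] (z : L → G.X) (F : RR G K X (Option L)) (m : X) (k : L → G.X) :
    ((gact (optP 1 z) F).coeff m).1 (optP 1 k) = (F.coeff m).1 (optP 1 (z⁻¹ * k)) := by
  rw [gact_apply]
  refine congrArg (F.coeff m).1 (funext fun o => ?_)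
  rcases o with _ | l
  · show (1 : G.X)⁻¹ * 1 = 1
    rw [inv_one, one_mul]
  · rfl

theorem pe8_reL (x : I → G.X) (y : J → G.X) (b : RA hT g (sIJ (I ⊕ PUnit) J)) :
    rv hT g _ (re hT g (e1 I J) e1_sign (actR hT (Sum.elim (Sum.elim x 1) y) b)) =
      gact (optP 1 (Sum.elim x y)) (rv hT g _ (re hT g (e1 I J) e1_sign b)) := by
  have h1 := re_actR hT (e1 I J) e1_sign (optP 1 (Sum.elim x y)) b
  have h2 : (optP 1 (Sum.elim x y) : Option (I ⊕ J) → G.X) ∘ (e1 I J) = Sum.elim (Sum.elim x 1) y := by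
    funext l
    rcases l with ((i | ⟨⟩) | j) <;> rfl
  rw [h2] at h1
  rw [h1, rv_actR]

theorem pe8_reR (x : I' → G.X) (y : J' → G.X) (b : RA hT g' (sIJ I' (J' ⊕ PUnit))) :
    rv hT g' _ (re hT g' (e1' I' J') e1'_sign (actR hT (Sum.elim x (Sum.elim y 1)) b)) =
      gact (optP 1 (Sum.elim x y)) (rv hT g' _ (re hT g' (e1' I' J') e1'_sign b)) := by
  have h1 := re_actR hT (e1' I' J') e1'_sign (optP 1 (Sum.elim x y)) b
  have h2 : (optP 1 (Sum.elim x y) : Option (I' ⊕ J') → G.X) ∘ (e1' I' J') = Sum.elim x (Sum.elim y 1) := by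
    funext l
    rcases l with (i | (j | ⟨⟩)) <;> rfl
  rw [h2] at h1
  rw [h1, rv_actR]

theorem pe8_act_pure (x : (I ⊕ I') → G.X) (y : (J ⊕ J') → G.X) (b : RA hT g (sIJ (I ⊕ PUnit) J))
    (c : RA hT g' (sIJ I' (J' ⊕ PUnit))) :
    Psi1 hT g g' I J I' J' (actR hT (Sum.elim (Sum.elim (x ∘ Sum.inl) 1) (y ∘ Sum.inl)) b ⊗ₜ[ℂ]
        actR hT (Sum.elim (x ∘ Sum.inr) (Sum.elim (y ∘ Sum.inr) 1)) c) =
      gact (Sum.elim x y ∘ Equiv.sumSumSumComm I J I' J') (Psi1 hT g g' I J I' J' (b ⊗ₜ[ℂ] c)) := by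
  apply RR_ext
  intro m (k : (I ⊕ J) ⊕ (I' ⊕ J') → G.X)
  rw [pe8_Psi1_tmul, gact_apply, pe8_Psi1_tmul, pe8_reL, pe8_reR, pe8_gact1, pe8_gact1]
  have h1 : (Sum.elim (x ∘ Sum.inl) (y ∘ Sum.inl) : I ⊕ J → G.X)⁻¹ * (k ∘ Sum.inl) =
      ((Sum.elim x y ∘ Equiv.sumSumSumComm I J I' J')⁻¹ * k) ∘ Sum.inl := by
    funext l
    rcases l with (i | j) <;> rfl
  have h2 : (Sum.elim (x ∘ Sum.inr) (y ∘ Sum.inr) : I' ⊕ J' → G.X)⁻¹ * (k ∘ Sum.inr) =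
      ((Sum.elim x y ∘ Equiv.sumSumSumComm I J I' J')⁻¹ * k) ∘ Sum.inr := by
    funext l
    rcases l with (i | j) <;> rfl
  rw [h1, h2]

/-- [MTF-PE8] the remaining circles. PROOF. linear in `a`; pure tensors: `rr1_coeff`, `gact_apply`, `re_actR`. -/
theorem Psi1_act (x : (I ⊕ I') → G.X) (y : (J ⊕ J') → G.X) (a : (B1 hT hP hfg g g' I J I' J').A) :
    Psi1 hT g g' I J I' J' (ract (B1 hT hP hfg g g' I J I' J') x y 1 a) =
      gact (Sum.elim x y ∘ Equiv.sumSumSumComm I J I' J') (Psi1 hT g g' I J I' J' a) := by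
  refine TensorProduct.induction_on (motive := fun a => Psi1 hT g g' I J I' J' (ract (B1 hT hP hfg g g' I J I' J') x y 1 a) =
      gact (Sum.elim x y ∘ Equiv.sumSumSumComm I J I' J') (Psi1 hT g g' I J I' J' a)) a ?_ ?_ ?_
  · have h1 : ract (B1 hT hP hfg g g' I J I' J') x y 1
      (0 : RA hT g (sIJ (I ⊕ PUnit) J) ⊗[ℂ] RA hT g' (sIJ I' (J' ⊕ PUnit))) = 0 := map_zero _
    refine (congrArg (Psi1 hT g g' I J I' J') h1).trans ?_
    exact (map_zero (Psi1 hT g g' I J I' J')).trans ((map_zero (gact (Sum.elim x y ∘ Equiv.sumSumSumComm I J I' J'))).symm.trans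
      (congrArg (gact (Sum.elim x y ∘ Equiv.sumSumSumComm I J I' J')) (map_zero (Psi1 hT g g' I J I' J')).symm))
  · intro b c
    exact (congrArg (Psi1 hT g g' I J I' J') (pe8_act_tmul hT hP hfg g g' x y b c)).trans (pe8_act_pure hT g g' x y b c)
  · intro u v hu hv
    have h1 : ract (B1 hT hP hfg g g' I J I' J') x y 1 (u + v) =
      ract (B1 hT hP hfg g g' I J I' J') x y 1 u + ract (B1 hT hP hfg g g' I J I' J') x y 1 v := map_add _ _ _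
    refine (congrArg (Psi1 hT g g' I J I' J') h1).trans ?_
    refine (map_add (Psi1 hT g g' I J I' J') _ _).trans ?_
    refine (congrArg₂ (· + ·) hu hv).trans ?_
    exact (map_add (gact (Sum.elim x y ∘ Equiv.sumSumSumComm I J I' J')) _ _).symm.trans
      (congrArg (gact (Sum.elim x y ∘ Equiv.sumSumSumComm I J I' J')) (map_add (Psi1 hT g g' I J I' J') _ _).symm)

theorem pe8_cs0 {R X : Type} [CommRing R] [AddCommGroup X] (r : R) :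
    (AddMonoidAlgebra.single (0 : X) r).coeff 0 = r := Finsupp.single_eq_same

theorem pe8_cs1 {R X : Type} [CommRing R] [AddCommGroup X] {m : X} (h : m ≠ 0) (r : R) :
    (AddMonoidAlgebra.single (0 : X) r).coeff m = 0 := Finsupp.single_eq_of_ne h

theorem pe8_dgn_muL {L L' : Type} [Finite L] [DecidableEq L] [Finite L'] [DecidableEq L'] (l : L) (D : G.Lie) :
    pe8s_dr (muF Q (some l) D) (1 : RR G K X (Option L')) = (muF Q (Sum.inl l) D : RR G K X (L ⊕ L')) := by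
  apply RR_ext
  intro m k
  unfold pe8s_dr
  rw [coeff_dgn, rr1_coeff, muF_apply, muF_apply, AddMonoidAlgebra.one_def]
  by_cases h : m = 0
  · subst h
    rw [pe8_cs0, pe8_cs0, pe8_cs0]
    exact mul_one _
  · rw [pe8_cs1 h, pe8_cs1 h, pe8_cs1 h]
    exact mul_zero _

theorem pe8_dgn_muR {L L' : Type} [Finite L] [DecidableEq L] [Finite L'] [DecidableEq L'] (l : L') (D : G.Lie) :
    pe8s_dr (1 : RR G K X (Option L)) (muF Q (some l) D) = (muF Q (Sum.inr l) D : RR G K X (L ⊕ L')) := by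
  apply RR_ext
  intro m k
  unfold pe8s_dr
  rw [coeff_dgn, rr1_coeff, muF_apply, muF_apply, AddMonoidAlgebra.one_def]
  by_cases h : m = 0
  · subst h
    rw [pe8_cs0, pe8_cs0, pe8_cs0]
    exact one_mul _
  · rw [pe8_cs1 h, pe8_cs1 h, pe8_cs1 h]
    exact mul_zero _

theorem pe8_PsiL (l : (I ⊕ PUnit) ⊕ J) (l' : I ⊕ J) (hl : e1 I J l = some l') (D : G.Lie) :
    Psi1 hT g g' I J I' J' (muR hT g (sIJ (I ⊕ PUnit) J) l D ⊗ₜ (1 : RA hT g' (sIJ I' (J' ⊕ PUnit)))) =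
      muF Q (Sum.inl l') D := by
  rw [pe8_Psi1_tmul', re_muR, rv_muR, hl, map_one, map_one]
  exact pe8_dgn_muL l' D

theorem pe8_PsiR (l : I' ⊕ (J' ⊕ PUnit)) (l' : I' ⊕ J') (hl : e1' I' J' l = some l') (D : G.Lie) :
    Psi1 hT g g' I J I' J' ((1 : RA hT g (sIJ (I ⊕ PUnit) J)) ⊗ₜ muR hT g' (sIJ I' (J' ⊕ PUnit)) l D) =
      muF Q (Sum.inr l') D := by
  rw [pe8_Psi1_tmul', re_muR, rv_muR, hl, map_one, map_one]
  exact pe8_dgn_muR l' D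

theorem pe8_fm_muF {L L' : Type} [Finite L] [DecidableEq L] [Finite L'] [DecidableEq L'] (e : L ≃ L') (l : L) (D : G.Lie) :
    fm X (pb K e) (muF Q l D) = muF Q (e l) D := by
  rw [muF_apply, muF_apply]
  unfold fm
  rw [AddMonoidAlgebra.mapAlgHom_single]
  rfl

theorem pe8_iot_mu (l : (I ⊕ I') ⊕ (J ⊕ J')) (D : G.Lie) :
    iot1 hT (g + g') I J I' J' (muR hT (g + g') (sIJ (I ⊕ I') (J ⊕ J')) l D) =
      muF Q ((Equiv.sumSumSumComm I J I' J').symm l) D :=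
  pe8_fm_muF (Equiv.sumSumSumComm I J I' J').symm l D

/-- [MTF-PE8] PROOF. `μ (pl (Sum.elim d 0))` of the product is `∑_i μ_i ⊗ 1 + 1 ⊗ ∑_i' μ_i'` over the circles of `I`, `I'`; `Psi1 (muR (inl (inl i)) D ⊗ 1) = muF (inl (inl i)) D`. -/
theorem Psi1_μ (d : (I ⊕ I') → G.Lie) :
    Psi1 hT g g' I J I' J' ((B1 hT hP hfg g g' I J I' J').μ (G.pl (Sum.elim d 0))) =
      iot1 hT (g + g') I J I' J' ((HA hT hP hfg (g + g') (I ⊕ I') (J ⊕ J')).μ (G.pl d)) := by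
  have h1 : (B1 hT hP hfg g g' I J I' J').μ (G.pl (Sum.elim d (0 : PUnit.{1} → G.Lie))) =
      (muI hT g (I ⊕ PUnit) J (G.lmap (Sum.map Sum.inl id : I ⊕ PUnit.{1} → (I ⊕ I') ⊕ PUnit.{1}) (G.pl (Sum.elim d 0))) ⊗ₜ[ℂ]
          (1 : RA hT g' (sIJ I' (J' ⊕ PUnit))) +
        (1 : RA hT g (sIJ (I ⊕ PUnit) J)) ⊗ₜ[ℂ]
          muI hT g' I' (J' ⊕ PUnit) (G.lmap (Sum.inl ∘ Sum.inr : I' → (I ⊕ I') ⊕ PUnit.{1}) (G.pl (Sum.elim d 0))) :
        RA hT g (sIJ (I ⊕ PUnit) J) ⊗[ℂ] RA hT g' (sIJ I' (J' ⊕ PUnit))) := rfl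
  refine (congrArg (Psi1 hT g g' I J I' J') h1).trans ?_
  show _ = iot1 hT (g + g') I J I' J' (muI hT (g + g') (I ⊕ I') (J ⊕ J') (G.pl d))
  rw [map_add, muI_apply, muI_apply, muI_apply, TensorProduct.sum_tmul, TensorProduct.tmul_sum, map_sum, map_sum, map_sum,
    Fintype.sum_sum_type, Fintype.sum_sum_type]
  congr 1
  · rw [Finset.univ_unique (α := PUnit.{1}), Finset.sum_singleton]
    have h2 : Psi1 hT g g' I J I' J' (muR hT g (sIJ (I ⊕ PUnit) J) (Sum.inl (Sum.inr default))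
        (G.lpr (Sum.inr default) (G.lmap (Sum.map Sum.inl id : I ⊕ PUnit.{1} → (I ⊕ I') ⊕ PUnit.{1}) (G.pl (Sum.elim d 0)))) ⊗ₜ
          (1 : RA hT g' (sIJ I' (J' ⊕ PUnit)))) = 0 := by
      rw [lpr_lmap, lpr_pl]
      have h3 : (Sum.elim d (0 : PUnit.{1} → G.Lie)) ((Sum.map Sum.inl id : I ⊕ PUnit.{1} → (I ⊕ I') ⊕ PUnit.{1}) (Sum.inr default)) = 0 := rfl
      rw [h3, map_zero, TensorProduct.zero_tmul, map_zero]
    rw [h2, add_zero]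
    refine Finset.sum_congr rfl fun i _ => ?_
    rw [pe8_PsiL hT g g' _ (Sum.inl i) rfl, pe8_iot_mu, lpr_lmap, lpr_pl, lpr_pl]
    rfl
  · refine Finset.sum_congr rfl fun i _ => ?_
    rw [pe8_PsiR hT g g' _ (Sum.inl i) rfl, pe8_iot_mu, lpr_lmap, lpr_pl, lpr_pl]
    rfl

theorem Psi1_ν (d : (J ⊕ J') → G.Lie) :
    Psi1 hT g g' I J I' J' ((B1 hT hP hfg g g' I J I' J').ν (G.pl (Sum.elim d 0))) =
      iot1 hT (g + g') I J I' J' ((HA hT hP hfg (g + g') (I ⊕ I') (J ⊕ J')).ν (G.pl d)) := by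
  have h1 : (B1 hT hP hfg g g' I J I' J').ν (G.pl (Sum.elim d (0 : PUnit.{1} → G.Lie))) =
      (nuJ hT g (I ⊕ PUnit) J (G.lmap (Sum.inl ∘ Sum.inl : J → (J ⊕ J') ⊕ PUnit.{1}) (G.pl (Sum.elim d 0))) ⊗ₜ[ℂ]
          (1 : RA hT g' (sIJ I' (J' ⊕ PUnit))) +
        (1 : RA hT g (sIJ (I ⊕ PUnit) J)) ⊗ₜ[ℂ]
          nuJ hT g' I' (J' ⊕ PUnit) (G.lmap (Sum.map Sum.inr id : J' ⊕ PUnit.{1} → (J ⊕ J') ⊕ PUnit.{1}) (G.pl (Sum.elim d 0))) :
        RA hT g (sIJ (I ⊕ PUnit) J) ⊗[ℂ] RA hT g' (sIJ I' (J' ⊕ PUnit))) := rfl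
  refine (congrArg (Psi1 hT g g' I J I' J') h1).trans ?_
  show _ = iot1 hT (g + g') I J I' J' (nuJ hT (g + g') (I ⊕ I') (J ⊕ J') (G.pl d))
  rw [map_add, nuJ_apply, nuJ_apply, nuJ_apply, TensorProduct.sum_tmul, TensorProduct.tmul_sum, map_sum, map_sum, map_sum,
    Fintype.sum_sum_type, Fintype.sum_sum_type]
  congr 1
  · refine Finset.sum_congr rfl fun i _ => ?_
    rw [pe8_PsiL hT g g' _ (Sum.inr i) rfl, pe8_iot_mu, lpr_lmap, lpr_pl, lpr_pl]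
    rfl
  · rw [Finset.univ_unique (α := PUnit.{1}), Finset.sum_singleton]
    have h2 : Psi1 hT g g' I J I' J' ((1 : RA hT g (sIJ (I ⊕ PUnit) J)) ⊗ₜ
        muR hT g' (sIJ I' (J' ⊕ PUnit)) (Sum.inr (Sum.inr default))
        (G.lpr (Sum.inr default) (G.lmap (Sum.map Sum.inr id : J' ⊕ PUnit.{1} → (J ⊕ J') ⊕ PUnit.{1}) (G.pl (Sum.elim d 0))))) = 0 := by
      rw [lpr_lmap, lpr_pl]
      have h3 : (Sum.elim d (0 : PUnit.{1} → G.Lie)) ((Sum.map Sum.inr id : J' ⊕ PUnit.{1} → (J ⊕ J') ⊕ PUnit.{1}) (Sum.inr default)) = 0 := rfl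
      rw [h3, map_zero, TensorProduct.tmul_zero, map_zero]
    rw [h2, add_zero]
    refine Finset.sum_congr rfl fun i _ => ?_
    rw [pe8_PsiR hT g g' _ (Sum.inr i) rfl, pe8_iot_mu, lpr_lmap, lpr_pl, lpr_pl]
    rfl

theorem pe8_iot1_inj (g : ℕ) : Function.Injective (iot1 (Q := Q) hT g I J I' J') := by
  intro a b h
  apply rv_inj hT g
  have h1 : fm X (pb K (Equiv.sumSumSumComm I J I' J').symm) (rv hT g _ a) =
    fm X (pb K (Equiv.sumSumSumComm I J I' J').symm) (rv hT g _ b) := h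
  rw [← fm_pb_symm' (Equiv.sumSumSumComm I J I' J') (rv hT g _ a), h1, fm_pb_symm']

theorem pe8_iot_sub (F : RR G K X ((I ⊕ J) ⊕ (I' ⊕ J'))) (g : ℕ) (h : F ∈ AG hT g (Sum.elim (sIJ I J) (sIJ I' J'))) :
    ∃ q : RA hT g (sIJ (I ⊕ I') (J ⊕ J')), F = iot1 hT g I J I' J' q := by
  refine ⟨ra hT g _ (fm X (pb K (Equiv.sumSumSumComm I J I' J')) F) ((mem_AG_re hT _ ssc_sign).2 h), ?_⟩
  exact (fm_pb_symm (Equiv.sumSumSumComm I J I' J') F).symm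

theorem pe8_iot_mem (g : ℕ) (q : RA hT g (sIJ (I ⊕ I') (J ⊕ J'))) :
    iot1 hT g I J I' J' q ∈ AG hT g (Sum.elim (sIJ I J) (sIJ I' J')) := by
  have h1 : ∀ l, Sum.elim (sIJ I J) (sIJ I' J') ((Equiv.sumSumSumComm I J I' J').symm l) = sIJ (I ⊕ I') (J ⊕ J') l := by
    intro l
    rw [← ssc_sign, Equiv.apply_symm_apply]
  exact (mem_AG_re hT (Equiv.sumSumSumComm I J I' J').symm h1).2 (rv_mem hT g _ q)

/-! abstract lemmas -/

theorem pe8s_sub_mem {T : Type} {_ : Ring T} (p : T → Prop) {u v x : T} (h : p x) (e : x + v = u) : p (u - v) := by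
  rw [← e, add_sub_cancel_right]
  exact h

theorem pe8s_map_add {A T : Type} {_ : Semiring A} {_ : Semiring T} {_ : Algebra ℂ A} {_ : Algebra ℂ T} (R : A ≃ₐ[ℂ] T)
    (a b : A) : R (a + b) = R a + R b := map_add R a b

theorem pe8s_map_mul {A T : Type} {_ : Semiring A} {_ : Semiring T} {_ : Algebra ℂ A} {_ : Algebra ℂ T} (R : A ≃ₐ[ℂ] T)
    (a b : A) : R (a * b) = R a * R b := map_mul R a b

theorem pe8s_map_one {A T : Type} {_ : Semiring A} {_ : Semiring T} {_ : Algebra ℂ A} {_ : Algebra ℂ T} (R : A ≃ₐ[ℂ] T) :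
    R 1 = 1 := map_one R

theorem pe8s_map_sub {A T : Type} {_ : CommRing A} {_ : CommRing T} {_ : Algebra ℂ A} {_ : Algebra ℂ T} (R : A ≃ₐ[ℂ] T)
    (a b : A) : R (a - b) = R a - R b := map_sub R a b

theorem pe8s_comp_mul {A T M₂ M : Type} {_ : Semiring A} {_ : Semiring T} {_ : Algebra ℂ A} {_ : Algebra ℂ T}
    {_ : Semiring M₂} {_ : Algebra ℂ M₂} {_ : Mul M} (R : A ≃ₐ[ℂ] T) (ρ : T →ₐ[ℂ] M₂) (d : M₂ → M) (a b : A)
    (h : d (ρ (R a) * ρ (R b)) = d (ρ (R a)) * d (ρ (R b))) :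
    d (ρ (R (a * b))) = d (ρ (R a)) * d (ρ (R b)) := by
  rw [map_mul, map_mul]
  exact h

theorem pe8s_comp_one {A T M₂ M : Type} {_ : Semiring A} {_ : Semiring T} {_ : Algebra ℂ A} {_ : Algebra ℂ T}
    {_ : Semiring M₂} {_ : Algebra ℂ M₂} {_ : One M} (R : A ≃ₐ[ℂ] T) (ρ : T →ₐ[ℂ] M₂) (d : M₂ → M) (h : d 1 = 1) :
    d (ρ (R 1)) = 1 := by
  rw [map_one, map_one]
  exact h

/-! the wrapper -/
section wrap
variable (G K X) (I J I' J')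

/-- wrapper of the ring of families -/
def pe8sM : Type := RR G K X ((I ⊕ J) ⊕ (I' ⊕ J'))

noncomputable instance pe8sM_ring : CommRing (pe8sM G K X I J I' J') :=
  (AddMonoidAlgebra.commRing : CommRing (AddMonoidAlgebra ((G.pow ((I ⊕ J) ⊕ (I' ⊕ J'))).KO K) X))

noncomputable instance pe8sM_alg : Algebra ℂ (pe8sM G K X I J I' J') :=
  (AddMonoidAlgebra.algebra : Algebra ℂ (AddMonoidAlgebra ((G.pow ((I ⊕ J) ⊕ (I' ⊕ J'))).KO K) X))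

end wrap

/-- the restriction, with the ring structure of the Hamiltonian space -/
noncomputable def pe8sΨ (hT : TQ Q) (hP : PQ Q P)
    (hfg : ∀ (g : ℕ) (L : Type) [Fintype L] [DecidableEq L] (ε : L → Bool), Algebra.FiniteType ℂ (RA hT g ε))
    (g g' : ℕ) (I J I' J' : Type) [Fintype I] [DecidableEq I] [Fintype J] [DecidableEq J]
    [Fintype I'] [DecidableEq I'] [Fintype J'] [DecidableEq J'] :
    (B1 hT hP hfg g g' I J I' J').A →ₗ[ℂ] pe8sM G K X I J I' J' := Psi1 hT g g' I J I' J'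

/-- the inclusion, with the ring structure of the Hamiltonian space -/
noncomputable def pe8sι (hT : TQ Q) (hP : PQ Q P)
    (hfg : ∀ (g : ℕ) (L : Type) [Fintype L] [DecidableEq L] (ε : L → Bool), Algebra.FiniteType ℂ (RA hT g ε))
    (g : ℕ) (I J I' J' : Type) [Fintype I] [DecidableEq I] [Fintype J] [DecidableEq J]
    [Fintype I'] [DecidableEq I'] [Fintype J'] [DecidableEq J'] :
    (HA hT hP hfg g (I ⊕ I') (J ⊕ J')).A →ₐ[ℂ] pe8sM G K X I J I' J' := iot1 hT g I J I' J'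

theorem pe8sι_inj : Function.Injective (pe8sι hT hP hfg g I J I' J') := pe8_iot1_inj hT g

theorem pe8_inv {a : (B1 hT hP hfg g g' I J I' J').A}
    (ha : ∀ h : PUnit → G.X, ract (B1 hT hP hfg g g' I J I' J') 1 1 h a = a) (x : G.X) :
    dact hT g g' (sIJ I J) (sIJ I' J') x (R1 hT g g' I J I' J' a) = R1 hT g g' I J I' J' a := by
  have h2 := R1_ract hT hP hfg g g' (fun _ => x) a
  rw [ha] at h2
  exact h2.symm

theorem pe8s_rinv {a : (B1 hT hP hfg g g' I J I' J').A} (ha : a ∈ rinv (B1 hT hP hfg g g' I J I' J')) (x : G.X) :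
    ∃ z, z ∈ I1 hT g g' (sIJ I J) (sIJ I' J') ∧
      z + R1 hT g g' I J I' J' a = dact hT g g' (sIJ I J) (sIJ I' J') x (R1 hT g g' I J I' J' a) :=
  ⟨_, (R1_rI hT hP hfg g g' _).1 (ha (fun _ => x)), ((pe8s_map_add (R1 hT g g' I J I' J') _ _).symm.trans
    (congrArg (R1 hT g g' I J I' J') (sub_add_cancel _ a))).trans (R1_ract hT hP hfg g g' (fun _ => x) a)⟩

theorem pe8s_h1 (a : (B1 hT hP hfg g g' I J I' J').A) (ha : a ∈ rinv (B1 hT hP hfg g g' I J I' J')) :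
    ∃ q, pe8sΨ hT hP hfg g g' I J I' J' a = pe8sι hT hP hfg (g + g') I J I' J' q := by
  have h := T1a' (F := R1 hT g g' I J I' J' a) fun x => (pe8s_rinv hT hP hfg g g' ha x).elim fun _ h =>
    pe8s_sub_mem (· ∈ I1 hT g g' (sIJ I J) (sIJ I' J')) h.1 h.2
  exact pe8_iot_sub hT _ (g + g') h

theorem pe8s_h2 (q : (HA hT hP hfg (g + g') (I ⊕ I') (J ⊕ J')).A) :
    ∃ a, (∀ h : PUnit → G.X, ract (B1 hT hP hfg g g' I J I' J') 1 1 h a = a) ∧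
      pe8sΨ hT hP hfg g g' I J I' J' a = pe8sι hT hP hfg (g + g') I J I' J' q := by
  obtain ⟨F, hF, hF'⟩ := T1b (pe8_iot_mem hT (g + g') q)
  obtain ⟨a, rfl⟩ : ∃ a : (B1 hT hP hfg g g' I J I' J').A, R1 hT g g' I J I' J' a = F :=
    ⟨(R1 hT g g' I J I' J').symm F, (R1 hT g g' I J I' J').apply_symm_apply F⟩
  refine ⟨a, fun h => (R1 hT g g' I J I' J').injective ?_, hF'⟩
  exact (R1_ract hT hP hfg g g' h a).trans (hF (h PUnit.unit))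

theorem pe8s_h3 (a : (B1 hT hP hfg g g' I J I' J').A) (ha : a ∈ rinv (B1 hT hP hfg g g' I J I' J'))
    (h0 : pe8sΨ hT hP hfg g g' I J I' J' a = 0) : a ∈ rI (B1 hT hP hfg g g' I J I' J') :=
  (R1_rI hT hP hfg g g' a).2 (T1c (fun x => (pe8s_rinv hT hP hfg g g' ha x).elim fun _ h =>
    pe8s_sub_mem (· ∈ I1 hT g g' (sIJ I J) (sIJ I' J')) h.1 h.2) h0)

theorem pe8s_d0 (L : Type) [Finite L] : dgn ((G.pow L).KO K) X 0 = 0 := map_zero _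

theorem pe8s_h4 (a : (B1 hT hP hfg g g' I J I' J').A) (ha : a ∈ rI (B1 hT hP hfg g g' I J I' J')) :
    pe8sΨ hT hP hfg g g' I J I' J' a = 0 :=
  (congrArg (dgn ((G.pow ((I ⊕ J) ⊕ (I' ⊕ J'))).KO K) X) (T1d ((R1_rI hT hP hfg g g' a).1 ha))).trans (pe8s_d0 _)

theorem pe8s_h5 (a b : (B1 hT hP hfg g g' I J I' J').A)
    (ha : ∀ h : PUnit → G.X, ract (B1 hT hP hfg g g' I J I' J') 1 1 h a = a)
    (_ : ∀ h : PUnit → G.X, ract (B1 hT hP hfg g g' I J I' J') 1 1 h b = b) :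
    pe8sΨ hT hP hfg g g' I J I' J' (a * b) =
      pe8sΨ hT hP hfg g g' I J I' J' a * pe8sΨ hT hP hfg g g' I J I' J' b :=
  pe8s_comp_mul (R1 hT g g' I J I' J') (rho1 hT g g' (sIJ I J) (sIJ I' J')) (dgn ((G.pow ((I ⊕ J) ⊕ (I' ⊕ J'))).KO K) X) a b
    (dgn_mul _ fun _ _ h => T1a (fun x => (pe8s_rinv hT hP hfg g g' (rinv_of_inv _ ha) x).elim fun _ h =>
      pe8s_sub_mem (· ∈ I1 hT g g' (sIJ I J) (sIJ I' J')) h.1 h.2) h)

theorem pe8s_d1 (L : Type) [Finite L] : dgn ((G.pow L).KO K) X 1 = 1 := by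
  apply RR_ext
  intro m k
  rw [coeff_dgn, AddMonoidAlgebra.one_def, AddMonoidAlgebra.one_def]
  by_cases h : m = 0
  · subst h
    rw [pe8_cs0]
    exact congrArg (fun u : (G.pow L).KO K => u.1 k) (pe8_cs0 (X := X × X) (1 : (G.pow L).KO K))
  · have h' : (m, m) ≠ (0 : X × X) := fun h2 => h (congrArg Prod.fst h2)
    rw [pe8_cs1 h, pe8_cs1 h']

theorem pe8s_h5' : pe8sΨ hT hP hfg g g' I J I' J' 1 = 1 :=
  pe8s_comp_one (R1 hT g g' I J I' J') (rho1 hT g g' (sIJ I J) (sIJ I' J')) (dgn ((G.pow ((I ⊕ J) ⊕ (I' ⊕ J'))).KO K) X)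
    (pe8s_d1 _)

theorem pe8s_h6 (a b : (B1 hT hP hfg g g' I J I' J').A) (q q' : (HA hT hP hfg (g + g') (I ⊕ I') (J ⊕ J')).A)
    (ha : ∀ h : PUnit → G.X, ract (B1 hT hP hfg g g' I J I' J') 1 1 h a = a)
    (hb : ∀ h : PUnit → G.X, ract (B1 hT hP hfg g g' I J I' J') 1 1 h b = b)
    (hq : pe8sΨ hT hP hfg g g' I J I' J' a = pe8sι hT hP hfg (g + g') I J I' J' q)
    (hq' : pe8sΨ hT hP hfg g g' I J I' J' b = pe8sι hT hP hfg (g + g') I J I' J' q') :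
    pe8sΨ hT hP hfg g g' I J I' J' ((B1 hT hP hfg g g' I J I' J').br a b) =
      pe8sι hT hP hfg (g + g') I J I' J' ((HA hT hP hfg (g + g') (I ⊕ I') (J ⊕ J')).br q q') := by
  have h1 := R1_br hT hP hfg g g' a b
  refine (congrArg (fun u => dgn _ X (rho1 hT g g' (sIJ I J) (sIJ I' J') u)) h1).trans ?_
  refine (dgn_tbA hT _ _ (pe8_inv hT hP hfg g g' ha) (pe8_inv hT hP hfg g g' hb)).trans ?_
  refine (congrArg₂ (P.br (Sum.elim (sIJ I J) (sIJ I' J'))) hq hq').trans ?_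
  have h2 : ∀ l, Sum.elim (sIJ I J) (sIJ I' J') ((Equiv.sumSumSumComm I J I' J').symm l) = sIJ (I ⊕ I') (J ⊕ J') l := by
    intro l
    rw [← ssc_sign, Equiv.apply_symm_apply]
  exact br_re (P := P) (Equiv.sumSumSumComm I J I' J').symm h2 (rv hT (g + g') (sIJ (I ⊕ I') (J ⊕ J')) q)
    (rv hT (g + g') (sIJ (I ⊕ I') (J ⊕ J')) q')

theorem pe8s_h7a (x : (I ⊕ I') → G.X) (y : (J ⊕ J') → G.X) (F : RR G K X ((I ⊕ I') ⊕ (J ⊕ J'))) :
    gact (Sum.elim x y ∘ Equiv.sumSumSumComm I J I' J') (fm X (pb K (Equiv.sumSumSumComm I J I' J').symm) F) =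
      fm X (pb K (Equiv.sumSumSumComm I J I' J').symm) (gact (Sum.elim x y) F) := by
  apply RR_ext
  intro m (k : (I ⊕ J) ⊕ (I' ⊕ J') → G.X)
  rw [gact_apply, coeff_fm, coeff_fm, pb_apply, pb_apply, gact_apply]
  refine congrArg (F.coeff m).1 (funext fun l => ?_)
  rcases l with ((i | i) | (j | j)) <;> rfl

theorem pe8s_h7 (x : (I ⊕ I') → G.X) (y : (J ⊕ J') → G.X) (a : (B1 hT hP hfg g g' I J I' J').A)
    (q : (HA hT hP hfg (g + g') (I ⊕ I') (J ⊕ J')).A)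
    (hq : pe8sΨ hT hP hfg g g' I J I' J' a = pe8sι hT hP hfg (g + g') I J I' J' q) :
    pe8sΨ hT hP hfg g g' I J I' J' (ract (B1 hT hP hfg g g' I J I' J') x y 1 a) =
      pe8sι hT hP hfg (g + g') I J I' J' ((HA hT hP hfg (g + g') (I ⊕ I') (J ⊕ J')).act (x, y) q) :=
  (Psi1_act hT hP hfg g g' x y a).trans ((congrArg (gact (Sum.elim x y ∘ Equiv.sumSumSumComm I J I' J')) hq).trans
    (pe8s_h7a x y (rv hT (g + g') (sIJ (I ⊕ I') (J ⊕ J')) q)))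

theorem pe8s_h8 (d : (I ⊕ I') → G.Lie) :
    pe8sΨ hT hP hfg g g' I J I' J' ((B1 hT hP hfg g g' I J I' J').μ (G.pl (Sum.elim d 0))) =
      pe8sι hT hP hfg (g + g') I J I' J' ((HA hT hP hfg (g + g') (I ⊕ I') (J ⊕ J')).μ (G.pl d)) :=
  Psi1_μ hT hP hfg g g' d

theorem pe8s_h9 (d : (J ⊕ J') → G.Lie) :
    pe8sΨ hT hP hfg g g' I J I' J' ((B1 hT hP hfg g g' I J I' J').ν (G.pl (Sum.elim d 0))) =
      pe8sι hT hP hfg (g + g') I J I' J' ((HA hT hP hfg (g + g') (I ⊕ I') (J ⊕ J')).ν (G.pl d)) :=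
  Psi1_ν hT hP hfg g g' d

/-- [MTF-PE8] T1.
PROOF. `isRed_of` with `M := RR G K X ((I ⊕ J) ⊕ (I' ⊕ J'))`, `ι := iot1`, `Ψ := Psi1`; `R1_ract`, `R1_rI` translate `rinv`, `rI`.  `h1`: `T1a'` and `mem_AG_re` for `sumSumSumComm` (`ssc_sign`);
`h2`: `T1b` (with `mem_AG_re`); `h3`: `T1c`; `h4`: `T1d`; `h5`: `rho1` is a ring homomorphism, `dgn_mul` (off-diagonal components vanish by `T1a`); `h5'`; `h6`: `R1_br`, `dgn_tbA` and `br_re`;
`h7`: `Psi1_act` and `fm (pb e.symm) (gact z F) = gact (z ∘ e) (fm (pb e.symm) F)`; `h8`, `h9`: `Psi1_μ`, `Psi1_ν`. -/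
theorem HA_t1 : IsRed (B1 hT hP hfg g g' I J I' J') (HA hT hP hfg (g + g') (I ⊕ I') (J ⊕ J')) := by
  refine isRed_of (B1 hT hP hfg g g' I J I' J') (HA hT hP hfg (g + g') (I ⊕ I') (J ⊕ J'))
    (M := pe8sM G K X I J I' J') (pe8sι hT hP hfg (g + g') I J I' J') (pe8sι_inj hT hP hfg (g + g'))
    (pe8sΨ hT hP hfg g g' I J I' J') ?_ ?_ ?_ ?_ ?_ ?_ ?_ ?_ ?_ ?_
  · exact pe8s_h1 hT hP hfg g g'
  · exact pe8s_h2 hT hP hfg g g'
  · exact pe8s_h3 hT hP hfg g g'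
  · exact pe8s_h4 hT hP hfg g g'
  · exact pe8s_h5 hT hP hfg g g'
  · exact pe8s_h5' hT hP hfg g g'
  · exact pe8s_h6 hT hP hfg g g'
  · exact pe8s_h7 hT hP hfg g g'
  · exact pe8s_h8 hT hP hfg g g'
  · exact pe8s_h9 hT hP hfg g g'

end

end Pool.Agent.MTF
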