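import Pool.Agent.MTF.PA1
import Pool.Agent.MTF.PA4
import Pool.Agent.MTF.Y0

/-! # MTF, part P : density of the conjugates of the slice -/

set_option linter.unusedSectionVars false

namespace Pool.Agent.MTF

open AffGrp

section
variable {G : AffGrp} {K W X : Type} [Field K] [Algebra ℂ K] [Group W] [Fintype W]
  [MulSemiringAction W K] [SMulCommClass W ℂ K] [AddCommGroup X] [DistribMulAction W X]
variable {Q : TQD G K W X}
variable {P : PD Q}

theorem pf0_br_Ad (x : G.X) (D E : G.Lie) : G.br (G.Ad x D) (G.Ad x E) = G.Ad x (G.br D E) := by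
  have h : ∀ (E : G.Lie) (f : G.O), G.cj x (G.der (G.Ad x E) f) = G.der E (G.cj x f) := by
    intro E f
    apply Subtype.ext
    funext y
    show E.1 (G.cj x (G.lt (x * y * x⁻¹) f)) = E.1 (G.lt y (G.cj x f))
    congr 1
    apply Subtype.ext
    funext z
    show f.1 (x * y * x⁻¹ * (x * z * x⁻¹)) = f.1 (x * (y * z) * x⁻¹)
    group
  apply G.Lie_ext
  intro f
  show D.1 (G.cj x (G.der (G.Ad x E) f)) - E.1 (G.cj x (G.der (G.Ad x D) f)) =
    D.1 (G.der E (G.cj x f)) - E.1 (G.der D (G.cj x f))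
  rw [h, h]

theorem pf0_Ad_one (Z : G.Lie) : G.Ad 1 Z = Z := by
  apply G.Lie_ext
  intro f
  show Z.1 (G.cj 1 f) = Z.1 f
  congr 1
  apply Subtype.ext
  funext z
  show f.1 (1 * z * 1⁻¹) = f.1 z
  group

theorem pf0_Ad_Ad (y : G.X) (Z : G.Lie) : G.Ad y (G.Ad y⁻¹ Z) = Z := by
  rw [← y4_Ad_mul, mul_inv_cancel, pf0_Ad_one]

/-- [MTF-PF0] PROOF. `Q.D.sum_repr`, bilinearity of the bracket, `TQD.stc`. -/
theorem br_repr (D E : G.Lie) (i : Fin Q.r) :
    Q.D.repr (G.br D E) i = Q.brK (fun a => Q.D.repr D a) (fun a => Q.D.repr E a) i := by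
  have h : G.br D E = ∑ a, ∑ b, (Q.D.repr D a * Q.D.repr E b) • G.br (Q.D a) (Q.D b) := by
    rw [← lie_eq]
    conv_lhs => rw [← Q.D.sum_repr D, ← Q.D.sum_repr E]
    rw [sum_lie]
    refine Finset.sum_congr rfl fun a _ => ?_
    rw [lie_sum]
    refine Finset.sum_congr rfl fun b _ => ?_
    rw [smul_lie, lie_smul, smul_smul]
    rfl
  rw [h, map_sum, Finsupp.finsetSum_apply]
  refine Finset.sum_congr rfl fun a _ => ?_
  rw [map_sum, Finsupp.finsetSum_apply]
  refine Finset.sum_congr rfl fun b _ => ?_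
  rw [map_smul, Finsupp.smul_apply, smul_eq_mul, smul_eq_mul, mul_comm]
  rfl

/-- [MTF-PF0] the same over `K` -/
theorem co_br (D E : G.Lie) : Q.co (G.br D E) = Q.brK (Q.co D) (Q.co E) := by
  funext i
  show algebraMap ℂ K (Q.D.repr (G.br D E) i) = _
  rw [br_repr]
  show algebraMap ℂ K (∑ a, ∑ b, Q.stc a b i • (Q.D.repr D a * Q.D.repr E b)) =
    ∑ a, ∑ b, Q.stc a b i • (algebraMap ℂ K (Q.D.repr D a) * algebraMap ℂ K (Q.D.repr E b))
  rw [map_sum]
  refine Finset.sum_congr rfl fun a _ => ?_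
  rw [map_sum]
  refine Finset.sum_congr rfl fun b _ => ?_
  rw [smul_eq_mul, map_mul, map_mul, Algebra.smul_def]

/-- [MTF-PF0] PROOF. bilinearity, `TQD.kap`. -/
theorem killing_repr (D E : G.Lie) :
    G.killing D E = Q.kapK (fun a => Q.D.repr D a) (fun a => Q.D.repr E a) := by
  rw [G.killing_eq]
  conv_lhs => rw [← Q.D.sum_repr D, ← Q.D.sum_repr E]
  rw [map_sum (killingForm ℂ G.Lie), LinearMap.sum_apply]
  refine Finset.sum_congr rfl fun a _ => ?_
  rw [map_sum]
  refine Finset.sum_congr rfl fun b _ => ?_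
  rw [map_smul, map_smul, LinearMap.smul_apply, smul_eq_mul, smul_eq_mul, smul_eq_mul, ← pa4_kap]
  ring

/-- [MTF-PF0] `Ad` preserves the Killing form. PROOF. `G.ad (G.Ad x D) = G.Ad x ∘ G.ad D ∘ G.Ad x⁻¹` (`G.Ad x (G.br D E) = G.br (G.Ad x D) (G.Ad x E)`), trace. -/
theorem killing_Ad (x : G.X) (D E : G.Lie) : G.killing (G.Ad x D) (G.Ad x E) = G.killing D E := by
  have h0 : ∀ (y : G.X) (E : G.Lie), G.ad (G.Ad y E) = G.Ad y ∘ₗ G.ad E ∘ₗ G.Ad y⁻¹ := by
    intro y E
    apply LinearMap.ext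
    intro Z
    show G.br (G.Ad y E) Z = G.Ad y (G.br E (G.Ad y⁻¹ Z))
    rw [← pf0_br_Ad, pf0_Ad_Ad]
  have h1 : ∀ Z, G.Ad x⁻¹ (G.Ad x Z) = Z := by
    intro Z
    have := pf0_Ad_Ad x⁻¹ Z
    rwa [inv_inv] at this
  have h2 : G.ad (G.Ad x D) ∘ₗ G.ad (G.Ad x E) =
      (G.Ad x * (G.ad D * G.ad E) : Module.End ℂ G.Lie) * G.Ad x⁻¹ := by
    rw [h0, h0]
    apply LinearMap.ext
    intro Z
    show G.Ad x (G.ad D (G.Ad x⁻¹ (G.Ad x (G.ad E (G.Ad x⁻¹ Z))))) = G.Ad x (G.ad D (G.ad E (G.Ad x⁻¹ Z)))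
    rw [h1]
  have h3 : (G.Ad x⁻¹ * (G.Ad x * (G.ad D * G.ad E)) : Module.End ℂ G.Lie) = G.ad D ∘ₗ G.ad E := by
    apply LinearMap.ext
    intro Z
    exact h1 _
  unfold AffGrp.killing
  rw [h2, LinearMap.trace_mul_comm, h3]

/-- evaluation at the identity -/
def pf0_ev (G : AffGrp) (x : G.X) : G.O →ₐ[ℂ] ℂ where
  toFun f := f.1 x
  map_one' := rfl
  map_mul' _ _ := rfl
  map_zero' := rfl
  map_add' _ _ := rfl
  commutes' _ := rfl

theorem pf0_chain {A : Type} [CommRing A] [Algebra ℂ A] (ε : A →ₐ[ℂ] ℂ) (δ : A →ₗ[ℂ] ℂ)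
    (hδ : ∀ f g, δ (f * g) = ε f * δ g + ε g * δ f) {n : ℕ} (f : Fin n → A)
    (p : MvPolynomial (Fin n) ℂ) :
    δ (MvPolynomial.aeval f p) =
      ∑ i, MvPolynomial.eval (fun j => ε (f j)) (MvPolynomial.pderiv i p) * δ (f i) := by
  have h1 : δ 1 = 0 := by
    have := hδ 1 1
    rw [mul_one, map_one ε, one_mul] at this
    exact left_eq_add.1 this
  have hε : ∀ p : MvPolynomial (Fin n) ℂ, ε (MvPolynomial.aeval f p) =
      MvPolynomial.eval (fun j => ε (f j)) p := by
    intro p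
    have := MvPolynomial.comp_aeval_apply (f := f) ε p
    rw [this]
    rfl
  induction p using MvPolynomial.induction_on with
  | C a =>
    rw [MvPolynomial.aeval_C, Algebra.algebraMap_eq_smul_one, map_smul, h1, smul_zero]
    symm
    refine Finset.sum_eq_zero fun i _ => ?_
    rw [MvPolynomial.pderiv_C, map_zero, zero_mul]
  | add p q hp hq =>
    rw [map_add, map_add, hp, hq, ← Finset.sum_add_distrib]
    refine Finset.sum_congr rfl fun i _ => ?_
    rw [map_add, map_add, add_mul]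
  | mul_X p j hp =>
    rw [map_mul, MvPolynomial.aeval_X, hδ, hp, hε, Finset.mul_sum]
    have h2 : ∀ i, MvPolynomial.eval (fun j => ε (f j)) (MvPolynomial.pderiv i (p * MvPolynomial.X j)) *
        δ (f i) = ε (f j) * (MvPolynomial.eval (fun j => ε (f j)) (MvPolynomial.pderiv i p) * δ (f i)) +
          MvPolynomial.eval (fun j => ε (f j)) p * (if i = j then δ (f i) else 0) := by
      intro i
      rw [MvPolynomial.pderiv_mul, MvPolynomial.pderiv_X, map_add, map_mul, map_mul,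
        MvPolynomial.eval_X]
      by_cases hij : i = j
      · subst hij
        rw [Pi.single_eq_same, map_one, if_pos rfl]
        ring
      · rw [Pi.single_eq_of_ne (fun h => hij h.symm), map_zero, if_neg hij]
        ring
    rw [Finset.sum_congr rfl fun i _ => h2 i, Finset.sum_add_distrib, ← Finset.mul_sum Finset.univ _
      (MvPolynomial.eval (fun j => ε (f j)) p), Finset.sum_ite_eq' Finset.univ j,
      if_pos (Finset.mem_univ j), add_comm]

/-- [MTF-PF0] chain rule for a point derivation. PROOF. `MvPolynomial.induction_on`. -/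
theorem lie_aeval (D : G.Lie) {n : ℕ} (f : Fin n → G.O) (p : MvPolynomial (Fin n) ℂ) :
    D.1 (MvPolynomial.aeval f p) =
      ∑ i, MvPolynomial.eval (fun j => (f j).1 1) (MvPolynomial.pderiv i p) * D.1 (f i) :=
  pf0_chain (pf0_ev G 1) D.1 D.2 f p

theorem pf0_aeval {n : ℕ} (f : Fin n → G.O) (p : MvPolynomial (Fin n) ℂ) (x : G.X) :
    (MvPolynomial.aeval f p).1 x = MvPolynomial.eval (fun j => (f j).1 x) p := by
  have := MvPolynomial.comp_aeval_apply (f := f) (pf0_ev G x) p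
  exact this

/-- a polynomial vanishing on a line -/
theorem pf0_line {n : ℕ} (a b : Fin n → ℂ) (p : MvPolynomial (Fin n) ℂ)
    (h : ∀ t : ℂ, MvPolynomial.eval (fun i => a i + t * b i) p = 0) :
    ∑ i, MvPolynomial.eval a (MvPolynomial.pderiv i p) * b i = 0 := by
  let f : Fin n → Polynomial ℂ := fun i => Polynomial.C (a i) + Polynomial.C (b i) * Polynomial.X
  have h1 : MvPolynomial.aeval f p = 0 := by
    apply Polynomial.funext
    intro t
    have h2 := MvPolynomial.comp_aeval_apply (f := f) (Polynomial.aeval t : Polynomial ℂ →ₐ[ℂ] ℂ) p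
    have h3 : (fun i => (Polynomial.aeval t : Polynomial ℂ →ₐ[ℂ] ℂ) (f i)) = fun i => a i + t * b i := by
      funext i
      show (Polynomial.aeval t) (Polynomial.C (a i) + Polynomial.C (b i) * Polynomial.X) = _
      rw [map_add, map_mul, Polynomial.aeval_C, Polynomial.aeval_C, Polynomial.aeval_X, mul_comm]
      rfl
    rw [h3] at h2
    have h4 : MvPolynomial.aeval (fun i => a i + t * b i) p = MvPolynomial.eval (fun i => a i + t * b i) p := rfl
    rw [h4, h t] at h2
    rw [Polynomial.eval_zero]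
    rw [← h2]
    rfl
  let ε : Polynomial ℂ →ₐ[ℂ] ℂ := Polynomial.aeval 0
  let δ : Polynomial ℂ →ₗ[ℂ] ℂ := ε.toLinearMap ∘ₗ Polynomial.derivative
  have h2 := pf0_chain ε δ (by
    intro f g
    show ε (Polynomial.derivative (f * g)) = ε f * ε (Polynomial.derivative g) + ε g * ε (Polynomial.derivative f)
    rw [Polynomial.derivative_mul, map_add, map_mul, map_mul]
    ring) f p
  rw [h1, map_zero] at h2
  have h3 : (fun j => ε (f j)) = a := by
    funext j
    simp [ε, f]
  have h4 : ∀ j, δ (f j) = b j := by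
    intro j
    simp [δ, ε, f]
  rw [h3] at h2
  rw [h2]
  exact Finset.sum_congr rfl fun i _ => by rw [h4]

/-- slice points -/
def pf0_V (P : PD Q) (H : MvPolynomial (Fin Q.r) ℂ) : Prop :=
  ∀ (k : G.X) (s₀ : G.Lie), G.br P.f (s₀ - P.e) = 0 →
    MvPolynomial.eval (fun i => Q.D.repr (G.Ad k s₀) i) H = 0

theorem pf0_step (hP : PQ Q P) (H : MvPolynomial (Fin Q.r) ℂ) (hV : pf0_V P H) (i : Fin Q.r) :
    pf0_V P (MvPolynomial.pderiv i H) := by
  intro k s₀ hs
  have ha : ∀ D : G.Lie, ∑ i, MvPolynomial.eval (fun i => Q.D.repr (G.Ad k s₀) i)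
      (MvPolynomial.pderiv i H) * Q.D.repr (G.Ad k (G.br D s₀)) i = 0 := by
    intro D
    let f : Fin Q.r → G.O := fun i => ⟨fun y => (Q.D.coord i ∘ₗ G.Ad k) (G.Ad y s₀),
      Ad_mem Q (Q.D.coord i ∘ₗ G.Ad k) s₀⟩
    have h1 : MvPolynomial.aeval f H = 0 := by
      apply AffGrp.O_ext
      intro y
      rw [pf0_aeval]
      have h2 := hV (k * y) s₀ hs
      rw [y4_Ad_mul] at h2
      exact h2
    have h2 := lie_aeval D f H
    rw [h1, map_zero] at h2
    have h3 : (fun j => (f j).1 1) = fun i => Q.D.repr (G.Ad k s₀) i := by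
      funext j
      show Q.D.repr (G.Ad k (G.Ad 1 s₀)) j = _
      rw [pf0_Ad_one]
    rw [h3] at h2
    rw [h2]
    refine Finset.sum_congr rfl fun i _ => ?_
    have h4 := der_Ad Q (Q.D.coord i ∘ₗ G.Ad k) s₀ D
    have h5 : D.1 (f i) = Q.D.repr (G.Ad k (G.br D s₀)) i := h4
    rw [h5]
  have hb : ∀ u : G.Lie, G.br P.f u = 0 → ∑ i, MvPolynomial.eval (fun i => Q.D.repr (G.Ad k s₀) i)
      (MvPolynomial.pderiv i H) * Q.D.repr (G.Ad k u) i = 0 := by
    intro u hu
    apply pf0_line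
    intro t
    have h1 : G.br P.f (s₀ + t • u - P.e) = 0 := by
      have h2 : s₀ + t • u - P.e = (s₀ - P.e) + t • u := by abel
      have h3 : G.br P.f (s₀ + t • u - P.e) = G.ad P.f ((s₀ - P.e) + t • u) := by rw [h2]; rfl
      rw [h3, map_add, map_smul]
      show G.br P.f (s₀ - P.e) + t • G.br P.f u = 0
      rw [hs, hu, smul_zero, add_zero]
    have h2 := hV k _ h1
    rw [← h2]
    congr 2
    funext i
    rw [map_add, map_smul, map_add, map_smul]
    rfl
  have hc : ∀ z : G.Lie, ∑ i, MvPolynomial.eval (fun i => Q.D.repr (G.Ad k s₀) i)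
      (MvPolynomial.pderiv i H) * Q.D.repr (G.Ad k z) i = 0 := by
    intro z
    obtain ⟨u, v, hu, rfl⟩ := hP.sl s₀ hs z
    have h1 : G.br s₀ (G.br P.f v) = - G.br (G.br P.f v) s₀ := by
      rw [← lie_eq, ← lie_eq, ← lie_eq, lie_skew]
    have h2 : ∀ i, MvPolynomial.eval (fun i => Q.D.repr (G.Ad k s₀) i) (MvPolynomial.pderiv i H) *
        Q.D.repr (G.Ad k (u + G.br s₀ (G.br P.f v))) i =
        MvPolynomial.eval (fun i => Q.D.repr (G.Ad k s₀) i) (MvPolynomial.pderiv i H) *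
          Q.D.repr (G.Ad k u) i -
        MvPolynomial.eval (fun i => Q.D.repr (G.Ad k s₀) i) (MvPolynomial.pderiv i H) *
          Q.D.repr (G.Ad k (G.br (G.br P.f v) s₀)) i := by
      intro i
      rw [h1, map_add, map_neg, map_add, map_neg, Finsupp.add_apply, Finsupp.neg_apply]
      ring
    rw [Finset.sum_congr rfl fun i _ => h2 i, Finset.sum_sub_distrib, hb u hu, ha, sub_zero]
  have h1 := hc (G.Ad k⁻¹ (Q.D i))
  rw [pf0_Ad_Ad, Q.D.repr_self] at h1
  rw [Finset.sum_eq_single i] at h1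
  · rwa [Finsupp.single_eq_same, mul_one] at h1
  · intro j _ hj
    rw [Finsupp.single_apply, if_neg (fun h => hj h.symm), mul_zero]
  · intro h
    exact absurd (Finset.mem_univ i) h

theorem pf0_zero (hP : PQ Q P) (n : ℕ) : ∀ H : MvPolynomial (Fin Q.r) ℂ, H.totalDegree ≤ n →
    pf0_V P H → H = 0 := by
  induction n with
  | zero =>
    intro H hn hV
    have h1 := MvPolynomial.totalDegree_eq_zero_iff_eq_C.1 (Nat.le_zero.1 hn)
    have h2 := hV 1 P.e (by
      have h3 : G.br P.f (P.e - P.e) = G.ad P.f (P.e - P.e) := rfl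
      rw [h3, sub_self, map_zero])
    rw [h1, MvPolynomial.eval_C] at h2
    rw [h1, h2, map_zero]
  | succ n ih =>
    intro H hn hV
    have h1 : ∀ i, MvPolynomial.pderiv i H = 0 := by
      intro i
      apply ih _ _ (pf0_step hP H hV i)
      apply Finset.sup_le
      intro m hm
      rw [MvPolynomial.mem_support_iff, MvPolynomial.coeff_pderiv] at hm
      have h2 : m + Finsupp.single i 1 ∈ H.support := by
        rw [MvPolynomial.mem_support_iff]
        exact left_ne_zero_of_mul hm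
      have h3 := MvPolynomial.le_totalDegree h2
      have h4 : ((m + Finsupp.single i 1).sum fun _ e => e) = (m.sum fun _ e => e) + 1 := by
        rw [Finsupp.sum_add_index' (fun _ => rfl) (fun _ _ _ => rfl), Finsupp.sum_single_index rfl]
      omega
    apply ih H _ hV
    apply Finset.sup_le
    intro m hm
    by_cases h0 : m = 0
    · subst h0
      simp
    · exfalso
      obtain ⟨i, hi⟩ := Finsupp.ne_iff.1 h0
      have h2 := congrArg (MvPolynomial.coeff (m - Finsupp.single i 1)) (h1 i)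
      have h3 : m - Finsupp.single i 1 + Finsupp.single i 1 = m := by
        apply tsub_add_cancel_of_le
        rw [Finsupp.single_le_iff]
        exact Nat.one_le_iff_ne_zero.2 hi
      rw [MvPolynomial.coeff_pderiv, h3, MvPolynomial.coeff_zero] at h2
      rcases mul_eq_zero.1 h2 with h | h
      · exact MvPolynomial.mem_support_iff.1 hm h
      · exact absurd h (Nat.cast_add_one_ne_zero _)

/-- [MTF-PF0] THE CONJUGATES OF `s` ARE DENSE.
PROOF. Slice points: `s₀` with `G.br P.f (s₀ - P.e) = 0`.  Let `V(H)` be the statement: for all `k` and all slice points `s₀`, `eval (fun i => Q.D.repr (G.Ad k s₀) i) H = 0`.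
(1) the hypothesis implies `V(H)`: `H_k := H` with `X_i` replaced by `∑_j C (repr (G.Ad k (D j)) i) * X_j`; `aeval Q.c H_k = aeval (Q.adc k) H = 0`, so `hP.ASl` gives `eval (repr s₀) H_k = 0`.
(2) `V(H)` implies `V(pderiv i H)` for all `i`: fix `k`, `s₀`.  For `D` in the Lie algebra apply `D.1` to the function `y ↦ eval (repr (G.Ad (k * y) s₀)) H = 0` in `G.O` (`Ad_mem`): by `lie_aeval`, `der_Ad`:
`∑_i (∂_i H)(Ad_k s₀) * repr (Ad_k (br D s₀)) i = 0`.  For `u` with `G.br P.f u = 0`: `t ↦ eval (repr (Ad_k (s₀ + t u))) H` vanishes for all `t`, its derivative at `0` is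
`∑_i (∂_i H)(Ad_k s₀) * repr (Ad_k u) i = 0`.  By `hP.sl` every `z` is `u + br s₀ (br P.f v)`, so `∑_i (∂_i H)(Ad_k s₀) * repr (Ad_k z) i = 0` for all `z`; take `z = Ad_{k⁻¹} (D j)`.
(3) `V(H)` implies `H = 0` by strong induction on the degree: all `pderiv i H` have smaller degree, so they vanish, `H` is a constant, and it vanishes at `s₀ = P.e`. -/
theorem dense_s (hT : TQ Q) (hP : PQ Q P) (H : MvPolynomial (Fin Q.r) ℂ)
    (h : ∀ k : G.X, MvPolynomial.aeval (Q.adc k) H = 0) : H = 0 := by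
  apply pf0_zero hP H.totalDegree H le_rfl
  intro k s₀ hs
  let F : Fin Q.r → MvPolynomial (Fin Q.r) ℂ := fun i =>
    ∑ j, MvPolynomial.C (Q.D.repr (G.Ad k (Q.D j)) i) * MvPolynomial.X j
  have h1 : MvPolynomial.aeval Q.c (MvPolynomial.aeval F H) = 0 := by
    rw [MvPolynomial.comp_aeval_apply, ← h k]
    congr 2
    funext i
    show MvPolynomial.aeval Q.c (∑ j, MvPolynomial.C (Q.D.repr (G.Ad k (Q.D j)) i) *
      MvPolynomial.X j) = ∑ j, Q.c j * algebraMap ℂ K (Q.D.repr (G.Ad k (Q.D j)) i)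
    rw [map_sum]
    refine Finset.sum_congr rfl fun j _ => ?_
    rw [map_mul, MvPolynomial.aeval_C, MvPolynomial.aeval_X, mul_comm]
  have h2 := hP.ASl _ h1 s₀ hs
  have h3 : MvPolynomial.eval (fun i => Q.D.repr s₀ i) (MvPolynomial.aeval F H) =
      MvPolynomial.eval (fun i => MvPolynomial.eval (fun i => Q.D.repr s₀ i) (F i)) H := by
    have := MvPolynomial.comp_aeval_apply (f := F)
      (MvPolynomial.aeval (fun i => Q.D.repr s₀ i) : MvPolynomial (Fin Q.r) ℂ →ₐ[ℂ] ℂ) H
    exact this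
  rw [h3] at h2
  rw [← h2]
  congr 2
  funext i
  show _ = MvPolynomial.eval (fun i => Q.D.repr s₀ i) (∑ j, MvPolynomial.C (Q.D.repr (G.Ad k (Q.D j)) i) *
      MvPolynomial.X j)
  conv_lhs => rw [← Q.D.sum_repr s₀]
  rw [map_sum, map_sum, map_sum, Finsupp.finsetSum_apply]
  refine Finset.sum_congr rfl fun j _ => ?_
  rw [map_smul, map_smul, Finsupp.smul_apply, map_mul, MvPolynomial.eval_C, MvPolynomial.eval_X,
    smul_eq_mul, mul_comm]

end

end Pool.Agent.MTF
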