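import Pool.Agent.MTF.Y4
import Pool.Agent.MTF.Y2

set_option linter.unusedSectionVars false

namespace Pool.Agent.MTF

open AffGrp

section
variable {G : AffGrp} {K W X : Type} [Field K] [Algebra ℂ K] [Group W] [Fintype W]
  [MulSemiringAction W K] [SMulCommClass W ℂ K] [AddCommGroup X] [DistribMulAction W X]
variable {L : Type} [Finite L] [DecidableEq L]
variable {Q : TQD G K W X}

/-- the pullback of regular functions along `k ↦ k_i k_o⁻¹` -/
theorem quo_mem (i o : L) (f : G.O) : (fun k : L → G.X => f.1 (k i * (k o)⁻¹)) ∈ (G.pow L).O := by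
  obtain ⟨n, a, b, h⟩ := G.mul_mem f.1 f.2
  have e : (fun k : L → G.X => f.1 (k i * (k o)⁻¹)) =
      (∑ t, (G.pull i (a t)) * (G.pull o ⟨_, G.inv_mem (b t).1 (b t).2⟩) : G.powO L).1 := by
    funext k
    rw [h]
    have e1 := map_sum (G.powO L).val
      (fun t => (G.pull i (a t)) * (G.pull o ⟨_, G.inv_mem (b t).1 (b t).2⟩)) Finset.univ
    have e2 := congrFun e1 k
    rw [Finset.sum_apply] at e2
    exact e2.symm
  rw [e]
  exact (∑ t, (G.pull i (a t)) * (G.pull o ⟨_, G.inv_mem (b t).1 (b t).2⟩) : G.powO L).2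

/-- the constants of the cylinder polynomials, as elements of `KO` -/
noncomputable def y5_C (K : Type) [Field K] [Algebra ℂ K] (i o : L) : G.O →+* (G.pow L).KO K where
  toFun f := inc K (H := G.pow L) ⟨_, quo_mem i o f⟩
  map_one' := KO_ext fun _ => map_one (algebraMap ℂ K)
  map_mul' f g := KO_ext fun k => map_mul (algebraMap ℂ K) (f.1 (k i * (k o)⁻¹)) (g.1 (k i * (k o)⁻¹))
  map_zero' := KO_ext fun _ => map_zero (algebraMap ℂ K)
  map_add' f g := KO_ext fun k => map_add (algebraMap ℂ K) (f.1 (k i * (k o)⁻¹)) (g.1 (k i * (k o)⁻¹))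

theorem y5_C_apply (i o : L) (f : G.O) (k : L → G.X) :
    (y5_C K i o f).1 k = algebraMap ℂ K (f.1 (k i * (k o)⁻¹)) := rfl

/-- the function `k ↦ H(k_i k_o⁻¹, κ(-, Ad_{k_o} s))` as an element of `KO` -/
noncomputable def y5_F (Q : TQD G K W X) (i o : L) :
    MvPolynomial (Fin Q.r) G.O →+* (G.pow L).KO K :=
  MvPolynomial.eval₂Hom (y5_C K i o) (fun j => pu K o (⟨_, mu_mem Q (Q.D j)⟩ : G.KO K))

theorem y5_F_C (Q : TQD G K W X) (i o : L) (f : G.O) :
    y5_F Q i o (MvPolynomial.C f) = y5_C K i o f := by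
  unfold y5_F
  exact MvPolynomial.eval₂Hom_C _ _ _

theorem y5_F_X (Q : TQD G K W X) (i o : L) (j : Fin Q.r) :
    y5_F Q i o (MvPolynomial.X j) = pu K o (⟨_, mu_mem Q (Q.D j)⟩ : G.KO K) := by
  unfold y5_F
  exact MvPolynomial.eval₂Hom_X' _ _ _

theorem y5_F_apply (Q : TQD G K W X) (i o : L) (H : MvPolynomial (Fin Q.r) G.O) (k : L → G.X) :
    (y5_F Q i o H).1 k = Q.cyE H (k i * (k o)⁻¹) (k o) := by
  unfold TQD.cyE
  induction H using MvPolynomial.induction_on with
  | C f =>
    rw [y5_F_C, MvPolynomial.eval₂_C]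
    rfl
  | add p q hp hq =>
    rw [map_add, KO_add, hp, hq, MvPolynomial.eval₂_add]
  | mul_X p j hp =>
    rw [map_mul, KO_mul, hp, MvPolynomial.eval₂_mul, MvPolynomial.eval₂_X, y5_F_X]
    rfl

theorem y5_derK_one {H : AffGrp} (D : H.Lie) : derK K D (1 : H.KO K) = 0 := by
  have h := derK_leib D (1 : H.KO K) 1
  rw [one_mul, one_mul] at h
  exact left_eq_add.1 h

theorem y5_s1_const (Q : TQD G K W X) (a : K) : Q.s1 (a • (1 : G.KO K)) = 0 := by
  rw [map_smul]
  have : Q.s1 (1 : G.KO K) = 0 := by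
    unfold TQD.s1
    rw [LinearMap.sum_apply]
    refine Finset.sum_eq_zero fun j _ => ?_
    rw [LinearMap.smul_apply, y5_derK_one, smul_zero]
  rw [this, smul_zero]

/-- the case of two legs -/
theorem y5_bool (Q : TQD G K W X) (f : G.O) :
    Q.s true (y5_C K true false f) + Q.s false (y5_C K true false f) = 0 := by
  apply KO_ext
  intro k
  have h := s1_diag (Q := Q) k (y5_C K true false f) 1
  have e : (comp K (H := G.pow Bool) (H' := G) (fun h l => k l * h)
      (fun _ hf => pow_mem G (H := G) (fun h l => k l * h) (fun l _ hg => G.left_mem (k l) hg) hf)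
      (y5_C K true false f)) = (algebraMap ℂ K (f.1 (k true * (k false)⁻¹))) • (1 : G.KO K) := by
    apply KO_ext
    intro y
    rw [KO_smul, KO_one, mul_one]
    show algebraMap ℂ K (f.1 (k true * y * (k false * y)⁻¹)) = _
    congr 2
    group
  rw [e, y5_s1_const, Fintype.sum_bool] at h
  have e2 : (fun l => k l * 1 : Bool → G.X) = k := by
    funext l
    exact mul_one _
  rw [e2] at h
  rw [KO_add, ← h]
  rfl

/-- the case of the constants -/
theorem y5_const (Q : TQD G K W X) {i o : L} (hio : i ≠ o) (f : G.O) :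
    Q.s i (y5_C K i o f) + Q.s o (y5_C K i o f) = 0 := by
  have hu : Function.Injective (fun b : Bool => if b = true then i else o) := by
    intro a b hab
    cases a <;> cases b
    · rfl
    · exact absurd hab (by simpa using hio.symm)
    · exact absurd hab (by simpa using hio)
    · rfl
  have e : y5_C K i o f = LP.pb (fun b : Bool => if b = true then i else o) (y5_C K true false f) :=
    KO_ext fun _ => rfl
  have e1 := LP.s_pb (Q := Q) hu true (y5_C K true false f)
  have e2 := LP.s_pb (Q := Q) hu false (y5_C K true false f)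
  have e1' : Q.s i (y5_C K i o f) =
      LP.pb (fun b : Bool => if b = true then i else o) (Q.s true (y5_C K true false f)) := by
    rw [e]
    exact e1
  have e2' : Q.s o (y5_C K i o f) =
      LP.pb (fun b : Bool => if b = true then i else o) (Q.s false (y5_C K true false f)) := by
    rw [e]
    exact e2
  rw [e1', e2', ← map_add, y5_bool, map_zero]

/-- (row Y5) The functions `k ↦ H(k_i k_o⁻¹, κ(-, Ad_{k_o} s))` are in `KO`, regular, `W`-invariant and killed by `s_i + s_o`.
PROOF. `MvPolynomial.induction_on H`: constants `C f`: `quo_mem`; sums; products with `X j`: `mu_mem`.  Regular and invariant: `mu_RI`, pointwise.  `s_i + s_o` is a derivation (`LP.s_mul`), so it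
is enough to treat the generators: for `C f`: `f (k_i z (k_o z)⁻¹) = f (k_i k_o⁻¹)`, i.e. `(Q.s i + Q.s o)` of it is `0`: for `f' (x, y) = f (x y⁻¹) = ∑ a(x) b(y⁻¹)`:
`derK (emb i D) + derK (emb o D)` at `k` is `D` applied to `z ↦ ∑ a(k_i z) b(k_o⁻¹) + ..`, Leibniz for `z ↦ ∑ a(k_i z) b(z⁻¹ k_o⁻¹)`, which is constant.  (Or use the chain rule `derK_diag` of Y2
for the two legs.)  For `X j`: `k ↦ μ_j(k_o)` is `pu K o μ_j`: `LP.s_pu`, `LP.s_pu_ne`, `mu_s`. -/
theorem cyl_mem (Q : TQD G K W X) (i o : L) (H : MvPolynomial (Fin Q.r) G.O) :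
    (fun k : L → G.X => Q.cyE H (k i * (k o)⁻¹) (k o)) ∈ (G.pow L).KO K := by
  have e : (fun k : L → G.X => Q.cyE H (k i * (k o)⁻¹) (k o)) = (y5_F Q i o H).1 :=
    funext fun k => (y5_F_apply Q i o H k).symm
  rw [e]
  exact (y5_F Q i o H).2

theorem y5_eq (Q : TQD G K W X) (i o : L) (H : MvPolynomial (Fin Q.r) G.O) :
    (⟨_, cyl_mem Q i o H⟩ : (G.pow L).KO K) = y5_F Q i o H :=
  KO_ext fun k => (y5_F_apply Q i o H k).symm

theorem cyl_RI (hT : TQ Q) (i o : L) (H : MvPolynomial (Fin Q.r) G.O) :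
    Q.RI (⟨_, cyl_mem Q i o H⟩ : (G.pow L).KO K) := by
  rw [y5_eq]
  induction H using MvPolynomial.induction_on with
  | C f =>
    rw [y5_F_C]
    refine ⟨fun k => ?_, fun w => KO_ext fun k => ?_⟩
    · rw [y5_C_apply]
      exact Subalgebra.algebraMap_mem _ _
    · rw [wO_apply, y5_C_apply]
      exact smul_algebraMap w (f.1 (k i * (k o)⁻¹))
  | add p q hp hq =>
    rw [map_add]
    refine ⟨fun k => ?_, fun w => ?_⟩
    · rw [KO_add]
      exact Subalgebra.add_mem _ (hp.reg k) (hq.reg k)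
    · rw [map_add, hp.inv, hq.inv]
  | mul_X p j hp =>
    rw [map_mul, y5_F_X]
    refine ⟨fun k => ?_, fun w => ?_⟩
    · rw [KO_mul]
      exact Subalgebra.mul_mem _ (hp.reg k) ((mu_RI hT (Q.D j)).reg (k o))
    · rw [map_mul, hp.inv]
      congr 1
      apply KO_ext
      intro k
      have := (mu_RI hT (Q.D j)).inv w
      exact congrFun (congrArg Subtype.val this) (k o)

theorem cyl_s (hT : TQ Q) {i o : L} (hio : i ≠ o) (H : MvPolynomial (Fin Q.r) G.O) :
    Q.s i (⟨_, cyl_mem Q i o H⟩ : (G.pow L).KO K) + Q.s o (⟨_, cyl_mem Q i o H⟩ : (G.pow L).KO K) = 0 := by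
  rw [y5_eq]
  induction H using MvPolynomial.induction_on with
  | C f =>
    rw [y5_F_C]
    exact y5_const Q hio f
  | add p q hp hq =>
    rw [map_add, map_add, map_add]
    calc _ = (Q.s i (y5_F Q i o p) + Q.s o (y5_F Q i o p)) +
        (Q.s i (y5_F Q i o q) + Q.s o (y5_F Q i o q)) := by abel
      _ = 0 := by rw [hp, hq, add_zero]
  | mul_X p j hp =>
    rw [map_mul, y5_F_X, LP.s_mul, LP.s_mul, LP.s_pu, LP.s_pu_ne hio, mu_s, map_zero, mul_zero,
      zero_add, zero_add, ← mul_add, hp, mul_zero]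

end

end Pool.Agent.MTF
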