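import Pool.Agent.MTF.Y1

set_option linter.unusedSectionVars false

namespace Pool.Agent.MTF

open AffGrp

section
variable {G : AffGrp} {K W X : Type} [Field K] [Algebra ℂ K] [Group W] [Fintype W]
  [MulSemiringAction W K] [SMulCommClass W ℂ K] [AddCommGroup X] [DistribMulAction W X]
variable {L : Type} [Finite L] [DecidableEq L]
variable {Q : TQD G K W X}

/-- density of the values in the coordinates `Q.muv` -/
theorem y6_dense (hT : TQ Q) (hd : ∀ H : MvPolynomial (Fin Q.r) ℂ,
      (∀ k : G.X, MvPolynomial.aeval (Q.adc k) H = 0) → H = 0)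
    (P : MvPolynomial (Fin Q.r) ℂ) (hP : ∀ k : G.X, MvPolynomial.aeval (Q.muv k) P = 0) : P = 0 := by
  classical
  obtain ⟨M, -, M', hM', hMM⟩ := adc_muv hT
  have hmul : (Matrix.of M) * (Matrix.of M') = (1 : Matrix (Fin Q.r) (Fin Q.r) ℂ) := by
    ext i j
    rw [Matrix.mul_apply, Matrix.one_apply]
    exact hMM i j
  have hmul' : (Matrix.of M') * (Matrix.of M) = (1 : Matrix (Fin Q.r) (Fin Q.r) ℂ) :=
    mul_eq_one_comm.1 hmul
  have hmm : ∀ i j, ∑ l, M' i l * M l j = if i = j then 1 else 0 := by
    intro i j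
    have := congrFun (congrFun hmul' i) j
    rw [Matrix.mul_apply, Matrix.one_apply] at this
    exact this
  let g : Fin Q.r → MvPolynomial (Fin Q.r) ℂ :=
    fun j => ∑ i, MvPolynomial.C (M' j i) * MvPolynomial.X i
  let g' : Fin Q.r → MvPolynomial (Fin Q.r) ℂ :=
    fun i => ∑ l, MvPolynomial.C (M i l) * MvPolynomial.X l
  have h1 : MvPolynomial.aeval g P = 0 := by
    apply hd
    intro k
    have h2 : (MvPolynomial.aeval (Q.adc k)).comp (MvPolynomial.aeval g) =
        (MvPolynomial.aeval (Q.muv k) : MvPolynomial (Fin Q.r) ℂ →ₐ[ℂ] K) := by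
      apply MvPolynomial.algHom_ext
      intro j
      rw [AlgHom.comp_apply, MvPolynomial.aeval_X, MvPolynomial.aeval_X, hM' k j]
      show MvPolynomial.aeval (Q.adc k) (∑ i, MvPolynomial.C (M' j i) * MvPolynomial.X i) = _
      rw [map_sum]
      refine Finset.sum_congr rfl fun i _ => ?_
      rw [map_mul, MvPolynomial.aeval_X, MvPolynomial.aeval_C]
    have h3 := congrArg (fun f => f P) h2
    simp only [AlgHom.comp_apply] at h3
    rw [h3]
    exact hP k
  have h4 : (MvPolynomial.aeval g').comp (MvPolynomial.aeval g) =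
      AlgHom.id ℂ (MvPolynomial (Fin Q.r) ℂ) := by
    apply MvPolynomial.algHom_ext
    intro j
    rw [AlgHom.comp_apply, MvPolynomial.aeval_X, AlgHom.id_apply]
    show MvPolynomial.aeval g' (∑ i, MvPolynomial.C (M' j i) * MvPolynomial.X i) = _
    rw [map_sum]
    have h5 : ∀ i, MvPolynomial.aeval g' (MvPolynomial.C (M' j i) * MvPolynomial.X i) =
        ∑ l, MvPolynomial.C (M' j i * M i l) * MvPolynomial.X l := by
      intro i
      rw [map_mul, MvPolynomial.aeval_X, MvPolynomial.aeval_C]
      show algebraMap ℂ (MvPolynomial (Fin Q.r) ℂ) (M' j i) *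
        (∑ l, MvPolynomial.C (M i l) * MvPolynomial.X l) = _
      rw [Finset.mul_sum]
      refine Finset.sum_congr rfl fun l _ => ?_
      rw [MvPolynomial.C_mul, mul_assoc]
      rfl
    simp only [h5]
    rw [Finset.sum_comm]
    have h6 : ∀ l, ∑ i, MvPolynomial.C (M' j i * M i l) * MvPolynomial.X l =
        (if j = l then (MvPolynomial.X l : MvPolynomial (Fin Q.r) ℂ) else 0) := by
      intro l
      rw [← Finset.sum_mul, ← map_sum, hmm j l]
      split_ifs
      · rw [map_one, one_mul]
      · rw [map_zero, zero_mul]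
    simp only [h6]
    rw [Finset.sum_ite_eq]
    simp
  have h7 := congrArg (fun f => f P) h4
  simp only [AlgHom.comp_apply, AlgHom.id_apply] at h7
  rw [h1, map_zero] at h7
  exact h7.symm

/-- (row Y6) Injectivity.  `hd`: density of `G · S` (`Model.dense_s`).
PROOF. Write `H = ∑ b, C (φ b) * map (algebraMap ℂ G.O) (H b)` with `φ` linearly independent (the coefficients of `H` span a finite dimensional subspace of `G.O`; take a basis
and expand).  `Q.cyE H a k = ∑ b, algebraMap (φ b a) * aeval (Q.muv k) (H b)`.  For fixed `k` this vanishes for all `a`: `∑ b, x b * algebraMap (φ b a) = 0`, so `x b = 0` (dual functionals and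
`ext_aux` of KO.lean): `aeval (Q.muv k) (H b) = 0` for all `k`; change the variables (`adc_muv`): `aeval (Q.adc k) (H' b) = 0`, `H' b = aeval (fun j => ∑ i, C (M' j i) * X i) (H b)`, so `H' b = 0`,
`H b = 0` (inverse substitution). -/
theorem cyE_inj (hT : TQ Q) (hd : ∀ H : MvPolynomial (Fin Q.r) ℂ,
      (∀ k : G.X, MvPolynomial.aeval (Q.adc k) H = 0) → H = 0)
    (H : MvPolynomial (Fin Q.r) G.O) (h : ∀ a k : G.X, Q.cyE H a k = 0) : H = 0 := by
  classical
  have hval : ∀ (φ : Module.Dual ℂ G.O) (k : G.X),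
      ∑ d ∈ H.support, (∏ i ∈ d.support, Q.muv k i ^ d i) *
        algebraMap ℂ K (φ (MvPolynomial.coeff d H)) = 0 := by
    intro φ k
    let e := H.support.equivFin
    have h0 : ∀ F : (Fin Q.r →₀ ℕ) → K, ∑ d ∈ H.support, F d =
        ∑ i : Fin H.support.card, F (e.symm i).1 := by
      intro F
      rw [← Finset.sum_coe_sort]
      exact (Equiv.sum_comp e.symm (fun d : H.support => F d.1)).symm
    rw [h0]
    apply ext_aux φ (fun i => ∏ j ∈ (e.symm i).1.support, Q.muv k j ^ (e.symm i).1 j)
      (fun i => MvPolynomial.coeff (e.symm i).1 H)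
    intro a
    have h1 := h a k
    unfold TQD.cyE at h1
    rw [MvPolynomial.eval₂_eq] at h1
    rw [← h0 (fun d => (∏ i ∈ d.support, Q.muv k i ^ d i) *
      algebraMap ℂ K ((MvPolynomial.coeff d H).1 a)), ← h1]
    refine Finset.sum_congr rfl fun d _ => ?_
    rw [mul_comm]
    rfl
  have hφ : ∀ (φ : Module.Dual ℂ G.O) (d : Fin Q.r →₀ ℕ), φ (MvPolynomial.coeff d H) = 0 := by
    intro φ d
    have h2 := y6_dense hT hd
      (∑ d ∈ H.support, MvPolynomial.monomial d (φ (MvPolynomial.coeff d H))) (by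
        intro k
        rw [map_sum, ← hval φ k]
        refine Finset.sum_congr rfl fun d _ => ?_
        rw [MvPolynomial.aeval_monomial, mul_comm]
        rfl)
    by_cases hd' : d ∈ H.support
    · have h3 := congrArg (MvPolynomial.coeff d) h2
      rw [MvPolynomial.coeff_sum, MvPolynomial.coeff_zero] at h3
      simp only [MvPolynomial.coeff_monomial] at h3
      rw [Finset.sum_ite_eq' H.support d (fun d => φ (MvPolynomial.coeff d H)), if_pos hd'] at h3
      exact h3
    · rw [MvPolynomial.notMem_support_iff.1 hd', map_zero]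
  apply MvPolynomial.ext
  intro d
  rw [MvPolynomial.coeff_zero, ← Module.forall_dual_apply_eq_zero_iff ℂ]
  exact fun φ => hφ φ d

end

end Pool.Agent.MTF
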