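import Pool.Agent.MTF.Y3
import Pool.Agent.MTF.Y5
import Pool.Agent.MTF.Y6
import Pool.Agent.MTF.Y8

set_option linter.unusedSectionVars false

namespace Pool.Agent.MTF

open AffGrp

section
variable {G : AffGrp} {K W X : Type} [Field K] [Algebra ℂ K] [Group W] [Fintype W]
  [MulSemiringAction W K] [SMulCommClass W ℂ K] [AddCommGroup X] [DistribMulAction W X]
variable {L : Type} [Finite L] [DecidableEq L]
variable {Q : TQD G K W X}

/-- (row Y9) THE CYLINDER: families of genus `0` with two legs, `i` of sign `+` and `o` of sign `-`.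
PROOF. `fam_RI`, `fam_s` (`sgn true = 1`, `sgn false = -1`), `cyl_surj`. -/
theorem cyl_fam (hT : TQ Q) {i o : L} (hio : i ≠ o) (hL : ∀ l, l = i ∨ l = o) {ε : L → Bool}
    (hi : ε i = true) (ho : ε o = false) {T : RR G K X L} (h : Q.Fam 0 ε T) :
    ∃ H : MvPolynomial (Fin Q.r) G.O, ∀ k, (tot T).1 k = Q.cyE H (k i * (k o)⁻¹) (k o) := by
  have h2 := fam_s h i o
  rw [hi, ho] at h2
  refine cyl_surj hT hio hL (fam_RI hT h) ?_
  have h3 : sgn true = 1 := rfl
  have h4 : sgn false = -1 := rfl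
  rw [h3, h4, one_smul, neg_smul, one_smul] at h2
  rw [h2, neg_add_cancel]

/-- PROOF. `exists_fam` with `cyl_RI`, `cyl_s`. -/
theorem cyl_fam' (hT : TQ Q) {i o : L} (hio : i ≠ o) (hL : ∀ l, l = i ∨ l = o) {ε : L → Bool}
    (hi : ε i = true) (ho : ε o = false) (H : MvPolynomial (Fin Q.r) G.O) :
    ∃ T : RR G K X L, Q.Fam 0 ε T ∧ ∀ k, (tot T).1 k = Q.cyE H (k i * (k o)⁻¹) (k o) := by
  have h1 := cyl_s hT hio H
  have h2 : ∀ l, sgn (ε l) • Q.s l (⟨_, cyl_mem Q i o H⟩ : (G.pow L).KO K) =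
      sgn (ε i) • Q.s i (⟨_, cyl_mem Q i o H⟩ : (G.pow L).KO K) := by
    intro l
    rcases hL l with rfl | rfl
    · rfl
    · have h3 : sgn true = 1 := rfl
      have h4 : sgn false = -1 := rfl
      rw [hi, ho, h3, h4, one_smul, neg_smul, one_smul]
      exact (eq_neg_of_add_eq_zero_left h1).symm
  obtain ⟨T, hT1, hT2⟩ := exists_fam hT i (ε := ε) (cyl_RI hT i o H) h2
  refine ⟨T, hT1, fun k => ?_⟩
  rw [hT2]

/-- PROOF. `cyE_inj` (every pair `(a, k)` is `(k i * (k o)⁻¹, k o)`). -/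
theorem cyl_inj (hT : TQ Q) (hd : ∀ H : MvPolynomial (Fin Q.r) ℂ,
      (∀ k : G.X, MvPolynomial.aeval (Q.adc k) H = 0) → H = 0) {i o : L} (hio : i ≠ o)
    (H : MvPolynomial (Fin Q.r) G.O) (h : ∀ k : L → G.X, Q.cyE H (k i * (k o)⁻¹) (k o) = 0) :
    H = 0 := by
  refine cyE_inj hT hd H fun a k => ?_
  have h1 := h fun l => if l = i then a * k else k
  rw [if_pos rfl, if_neg hio.symm, mul_inv_cancel_right] at h1
  exact h1

/-- THE DISC: PROOF. `fam_RI`, `exists_fam`. -/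
theorem disc_fam (hT : TQ Q) {ε : L → Bool} (i : L) (hL : ∀ l, l = i) (F : (G.pow L).KO K) :
    Q.RI F ↔ ∃ T : RR G K X L, Q.Fam 0 ε T ∧ tot T = F := by
  constructor
  · intro h
    exact exists_fam hT i h fun j => by rw [hL j]
  · rintro ⟨T, h1, rfl⟩
    exact fam_RI hT h1

end

end Pool.Agent.MTF
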