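import Pool.Agent.MTF.RA
import Pool.Agent.MTF.PE1
import Pool.Agent.MTF.Y9
import Pool.Agent.MTF.PC3

/-! # MTF, part P : functions on the cylinder -/

set_option linter.unusedSectionVars false

namespace Pool.Agent.MTF

open AffGrp

section
variable {G : AffGrp} {K W X : Type} [Field K] [Algebra ℂ K] [Group W] [Fintype W]
  [MulSemiringAction W K] [SMulCommClass W ℂ K] [AddCommGroup X] [DistribMulAction W X]
variable {Q : TQD G K W X}
variable {P : PD Q}
variable {L : Type} [Fintype L] [DecidableEq L]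

/-- two elements of the ring with the same total are equal -/
theorem pf1_inj (hT : TQ Q) [Nonempty L] {ε : L → Bool} (a b : RA hT 0 ε)
    (h : ∀ k, (tot (rv hT 0 ε a)).1 k = (tot (rv hT 0 ε b)).1 k) : a = b := by
  obtain ⟨l₀⟩ := (inferInstance : Nonempty L)
  have h1 : Q.Fam 0 ε (rv hT 0 ε (a - b)) := AG_fam hT (rv_mem hT 0 ε (a - b))
  have h2 : rv hT 0 ε (a - b) = 0 := by
    refine fam_tot_inj hT l₀ h1 ?_
    rw [tot_eq, map_sub, map_sub, ← tot_eq, ← tot_eq]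
    apply KO_ext
    intro k
    rw [KO_sub, h k, sub_self, KO_zero]
  rw [map_sub, sub_eq_zero] at h2
  exact rv_inj hT 0 ε h2

/-- the total, as a homomorphism to the functions -/
noncomputable def pf1_psi (hT : TQ Q) (ε : L → Bool) : RA hT 0 ε →ₐ[ℂ] ((L → G.X) → K) :=
  Pi.algHom ℂ (fun _ : L → G.X => K) fun k =>
    ((pc3_ev K X k).restrictScalars ℂ).comp (rv hT 0 ε)

theorem pf1_psi_apply (hT : TQ Q) (ε : L → Bool) (a : RA hT 0 ε) (k : L → G.X) :
    pf1_psi hT ε a k = (tot (rv hT 0 ε a)).1 k := pc3_ev_apply k (rv hT 0 ε a)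

/-- the evaluation, as a homomorphism -/
noncomputable def pf1_cy (Q : TQD G K W X) (a k : G.X) :
    MvPolynomial (Fin Q.r) G.O →ₐ[ℂ] K :=
  { MvPolynomial.eval₂Hom (evK K a) (Q.muv k) with
    commutes' := fun c => by
      show MvPolynomial.eval₂ (evK K a) (Q.muv k) (MvPolynomial.C (algebraMap ℂ G.O c)) = _
      rw [MvPolynomial.eval₂_C]
      rfl }

theorem pf1_cy_apply (Q : TQD G K W X) (a k : G.X) (H : MvPolynomial (Fin Q.r) G.O) :
    pf1_cy Q a k H = Q.cyE H a k := rfl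

/-- the evaluation at all points -/
noncomputable def pf1_chi (Q : TQD G K W X) :
    MvPolynomial (Fin Q.r) G.O →ₐ[ℂ] ((PUnit ⊕ PUnit → G.X) → K) :=
  Pi.algHom ℂ (fun _ : PUnit ⊕ PUnit → G.X => K) fun k =>
    pf1_cy Q (k (Sum.inl PUnit.unit) * (k (Sum.inr PUnit.unit))⁻¹) (k (Sum.inr PUnit.unit))

theorem pf1_chi_apply (Q : TQD G K W X) (H : MvPolynomial (Fin Q.r) G.O)
    (k : PUnit ⊕ PUnit → G.X) : pf1_chi Q H k =
      Q.cyE H (k (Sum.inl PUnit.unit) * (k (Sum.inr PUnit.unit))⁻¹) (k (Sum.inr PUnit.unit)) := rfl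

theorem pf1_L (l : PUnit ⊕ PUnit) : l = Sum.inl PUnit.unit ∨ l = Sum.inr PUnit.unit := by
  rcases l with l | l
  · exact Or.inl rfl
  · exact Or.inr rfl

/-- the derivatives of a function of `k_i k_o⁻¹` in the two legs -/
theorem pf1_D (D : G.Lie) {F : (G.pow (PUnit ⊕ PUnit)).KO K} {f : G.O}
    (h : ∀ k, F.1 k = algebraMap ℂ K (f.1 (k (Sum.inl PUnit.unit) * (k (Sum.inr PUnit.unit))⁻¹)))
    (k : PUnit ⊕ PUnit → G.X) :
    (derK K (emb (Sum.inr PUnit.unit) D) F).1 k = - (derK K (emb (Sum.inl PUnit.unit) D) F).1 k := by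
  obtain ⟨g, hg⟩ : ∃ g : G.O, ∀ y, g.1 y = f.1 (k (Sum.inl PUnit.unit) * y * (k (Sum.inr PUnit.unit))⁻¹) :=
    ⟨⟨_, G.left_mem (k (Sum.inl PUnit.unit)) (G.right_mem (k (Sum.inr PUnit.unit))⁻¹ f.2)⟩,
      fun y => rfl⟩
  rw [derK_emb, derK_emb, derK_apply, derK_apply]
  have h1 : ltK (k (Sum.inl PUnit.unit)) (sl K k (Sum.inl PUnit.unit) F) = inc K g := by
    apply KO_ext
    intro y
    have h2 : (ltK (k (Sum.inl PUnit.unit)) (sl K k (Sum.inl PUnit.unit) F)).1 y =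
      F.1 (Function.update k (Sum.inl PUnit.unit) (k (Sum.inl PUnit.unit) * y)) := rfl
    rw [h2, h, inc_apply, hg, Function.update_self,
      Function.update_of_ne (by simp : (Sum.inr PUnit.unit : PUnit ⊕ PUnit) ≠ Sum.inl PUnit.unit)]
  have h3 : ltK (k (Sum.inr PUnit.unit)) (sl K k (Sum.inr PUnit.unit) F) = inc K (y4_inv g) := by
    apply KO_ext
    intro y
    have h2 : (ltK (k (Sum.inr PUnit.unit)) (sl K k (Sum.inr PUnit.unit) F)).1 y =
      F.1 (Function.update k (Sum.inr PUnit.unit) (k (Sum.inr PUnit.unit) * y)) := rfl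
    have h4 : (y4_inv g).1 y = g.1 y⁻¹ := rfl
    rw [h2, h, inc_apply, h4, hg, Function.update_self,
      Function.update_of_ne (by simp : (Sum.inl PUnit.unit : PUnit ⊕ PUnit) ≠ Sum.inr PUnit.unit),
      mul_inv_rev, mul_assoc]
  rw [h1, h3, ext_inc, ext_inc, y4_D_inv, map_neg]

theorem pf1_AL (hT : TQ Q) {F : RR G K X (PUnit ⊕ PUnit)} {f : G.O}
    (h : ∀ k, (tot F).1 k = algebraMap ℂ K (f.1 (k (Sum.inl PUnit.unit) * (k (Sum.inr PUnit.unit))⁻¹)))
    (a : Fin Q.r) (k : PUnit ⊕ PUnit → G.X) :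
    (tot (P.AL (sIJ PUnit PUnit) (Sum.inr PUnit.unit) a F)).1 k =
      - (tot (P.AL (sIJ PUnit PUnit) (Sum.inl PUnit.unit) a F)).1 k := by
  have h1 : ∀ l : PUnit ⊕ PUnit, (tot (P.AL (sIJ PUnit PUnit) l a F)).1 k =
      (derK K (emb l (Q.D a)) (tot F)).1 k - sgn (sIJ PUnit PUnit l) •
        ∑ j, P.sig j a * (tot (P.DN (PUnit ⊕ PUnit) j F)).1 k := by
    intro l
    rw [← pc3_ev_apply]
    unfold PD.AL
    rw [map_sub, map_zsmul, map_sum, pc3_ev_apply, tot_DL]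
    congr 2
    refine Finset.sum_congr rfl fun j _ => ?_
    rw [map_smul, smul_eq_mul, pc3_ev_apply]
  have h2 : sgn (sIJ PUnit PUnit (Sum.inl PUnit.unit)) = 1 := rfl
  have h3 : sgn (sIJ PUnit PUnit (Sum.inr PUnit.unit)) = -1 := rfl
  rw [h1, h1, h2, h3, pf1_D (Q.D a) h k, one_smul, neg_smul, one_smul]
  ring

/-- [MTF-PF1] The ring of the cylinder.
PROOF. `mem_AG` (`Nonempty`), `cyl_fam` (`i := Sum.inl unit`, `o := Sum.inr unit`, `hL`), `cyl_fam'`, `cyl_inj`, `fam_tot_inj`.  The map `a ↦ H` is well defined and injective, it is a homomorphism because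
`a ↦ tot a` (`totH`) and `H ↦ Q.cyE H a k` (`MvPolynomial.eval₂Hom`) are ring homomorphisms; surjective by `cyl_fam'`.  (`AlgEquiv.ofBijective`; `ℂ`-linear.) -/
theorem cyl_equiv (hT : TQ Q) (hd : ∀ H : MvPolynomial (Fin Q.r) ℂ,
      (∀ k : G.X, MvPolynomial.aeval (Q.adc k) H = 0) → H = 0) :
    ∃ Θ : RA hT 0 (sIJ PUnit PUnit) ≃ₐ[ℂ] MvPolynomial (Fin Q.r) G.O, ∀ a (k : PUnit ⊕ PUnit → G.X),
      (tot (rv hT 0 (sIJ PUnit PUnit) a)).1 k =
        Q.cyE (Θ a) (k (Sum.inl PUnit.unit) * (k (Sum.inr PUnit.unit))⁻¹) (k (Sum.inr PUnit.unit)) := by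
  have hi : sIJ PUnit PUnit (Sum.inl PUnit.unit) = true := rfl
  have ho : sIJ PUnit PUnit (Sum.inr PUnit.unit) = false := rfl
  have hio : (Sum.inl PUnit.unit : PUnit ⊕ PUnit) ≠ Sum.inr PUnit.unit := by simp
  have hne : (0 : ℕ) = 0 → Nonempty (PUnit ⊕ PUnit) := fun _ => ⟨Sum.inl PUnit.unit⟩
  have hψ : Function.Injective (pf1_psi hT (sIJ PUnit PUnit)) := by
    intro a b hab
    exact pf1_inj hT a b fun k => by
      rw [← pf1_psi_apply, ← pf1_psi_apply, hab]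
  have hχ : Function.Injective (pf1_chi Q) := by
    rw [injective_iff_map_eq_zero]
    intro H hH
    refine cyl_inj hT hd hio H fun k => ?_
    rw [← pf1_chi_apply, hH]
    rfl
  have hr : (pf1_psi hT (sIJ PUnit PUnit)).range = (pf1_chi Q).range := by
    ext x
    constructor
    · rintro ⟨a, rfl⟩
      obtain ⟨H, hH⟩ := cyl_fam hT hio pf1_L hi ho ((mem_AG hT hne).1 (rv_mem hT 0 (sIJ PUnit PUnit) a))
      refine ⟨H, ?_⟩
      funext k
      exact ((pf1_chi_apply Q H k).trans (hH k).symm).trans (pf1_psi_apply hT _ a k).symm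
    · rintro ⟨H, rfl⟩
      obtain ⟨T, hT1, hT2⟩ := cyl_fam' hT hio pf1_L hi ho H
      refine ⟨ra hT 0 (sIJ PUnit PUnit) T ((mem_AG hT hne).2 hT1), ?_⟩
      funext k
      refine (pf1_psi_apply hT _ _ k).trans ?_
      rw [rv_ra]
      exact (hT2 k).trans (pf1_chi_apply Q H k).symm
  refine ⟨((AlgEquiv.ofInjective _ hψ).trans (Subalgebra.equivOfEq _ _ hr)).trans
    (AlgEquiv.ofInjective _ hχ).symm, fun a k => ?_⟩
  rw [← pf1_psi_apply, ← pf1_chi_apply]
  refine congrFun (?_ : pf1_psi hT (sIJ PUnit PUnit) a = _) k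
  have h1 : ∀ z : (pf1_chi Q).range, pf1_chi Q ((AlgEquiv.ofInjective _ hχ).symm z) = z.1 := by
    intro z
    have h2 := congrArg Subtype.val ((AlgEquiv.ofInjective (pf1_chi Q) hχ).apply_symm_apply z)
    exact h2
  exact (h1 ((Subalgebra.equivOfEq _ _ hr) (AlgEquiv.ofInjective _ hψ a))).symm

/-- [MTF-PF1] Two elements of the ring with the same total are equal. PROOF. `fam_tot_inj`, `rv_inj`. -/
theorem RA_tot_inj (hT : TQ Q) [Nonempty L] {ε : L → Bool} (a b : RA hT 0 ε)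
    (h : ∀ k, (tot (rv hT 0 ε a)).1 k = (tot (rv hT 0 ε b)).1 k) : a = b := by
  exact pf1_inj hT a b h

/-- [MTF-PF1] PROOF. `gact` is `fm X (tr K x)`, `tot_fm`. -/
theorem tot_actR (hT : TQ Q) {g : ℕ} {ε : L → Bool} (x : L → G.X) (a : RA hT g ε) (k : L → G.X) :
    (tot (rv hT g ε (actR hT x a))).1 k = (tot (rv hT g ε a)).1 (x⁻¹ * k) := by
  rw [rv_actR]
  unfold gact
  rw [tot_fm, tr_apply]

/-- [MTF-PF1] PROOF. `muF_apply`, `tot` of `single 0 a` is `a`, `muO_apply`. -/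
theorem tot_muR (hT : TQ Q) (g : ℕ) (ε : L → Bool) (l : L) (D : G.Lie) (k : L → G.X) :
    (tot (rv hT g ε (muR hT g ε l D))).1 k = ∑ j, Q.c j * algebraMap ℂ K (G.killing D (G.Ad (k l) (Q.D j))) := by
  rw [rv_muR, muF_apply]
  have h1 : tot (AddMonoidAlgebra.single (0 : X) (pu K l (muO Q D)) : RR G K X L) =
      pu K l (muO Q D) := by
    unfold tot
    rw [AddMonoidAlgebra.coeff_single]
    exact Finsupp.sum_single_index rfl
  rw [h1, pu_apply, muO_apply]

/-- [MTF-PF1] Functions of `a = k_i k_o⁻¹` Poisson commute.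
PROOF. `Fam0_br`, `fam_tot_inj`: it is enough that the total of the bracket vanishes.  `tot` is a ring homomorphism (`tot_eq`, `totH`).  `tot (DX j F) = 0` (`tot_DX`, `Derivation.map_algebraMap`).
`tot (DL (inr unit) a F) = - tot (DL (inl unit) a F)` (`tot_DL`): at `k` the first is the point derivation `D a` applied to `y ↦ f (k_i (k_o y)⁻¹) = f (k_i y⁻¹ k_o⁻¹)`, the second to
`y ↦ f (k_i y k_o⁻¹)`; a point derivation `D` satisfies `D (y ↦ φ y⁻¹) = - D φ` (`y4_D_inv`).  So `tot (AL (inr unit) a F) = - tot (AL (inl unit) a F)` (`sgn true = 1`, `sgn false = -1`), the same for `F'`, and the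
two terms `l = inl unit`, `l = inr unit` of `∑_l sgn (ε l) • ∑ rho a b (AL a F) (AL b F')` cancel. -/
theorem cyl_br (hT : TQ Q) (hP : PQ Q P) {F F' : RR G K X (PUnit ⊕ PUnit)}
    (hF : Q.Fam 0 (sIJ PUnit PUnit) F) (hF' : Q.Fam 0 (sIJ PUnit PUnit) F') {f f' : G.O}
    (h : ∀ k, (tot F).1 k = algebraMap ℂ K (f.1 (k (Sum.inl PUnit.unit) * (k (Sum.inr PUnit.unit))⁻¹)))
    (h' : ∀ k, (tot F').1 k = algebraMap ℂ K (f'.1 (k (Sum.inl PUnit.unit) * (k (Sum.inr PUnit.unit))⁻¹))) :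
    P.br (sIJ PUnit PUnit) F F' = 0 := by
  have h0 := Fam0_br hT hP hF hF'
  refine fam_tot_inj hT (Sum.inl PUnit.unit) h0 ?_
  apply KO_ext
  intro k
  have h3 : (tot (P.br (sIJ PUnit PUnit) F F')).1 k =
      (∑ j, (tot (P.DN (PUnit ⊕ PUnit) j F)).1 k * P.dd j ((tot F').1 k) -
        ∑ j, (tot (P.DN (PUnit ⊕ PUnit) j F')).1 k * P.dd j ((tot F).1 k)) -
      ∑ l, sgn (sIJ PUnit PUnit l) • ∑ a, ∑ b, P.rho a b *
        ((tot (P.AL (sIJ PUnit PUnit) l a F)).1 k * (tot (P.AL (sIJ PUnit PUnit) l b F')).1 k) := by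
    rw [← pc3_ev_apply]
    unfold PD.br
    rw [map_sub, map_sum, map_sum, ← Finset.sum_sub_distrib]
    congr 1
    · refine Finset.sum_congr rfl fun j _ => ?_
      rw [map_sub, map_mul, map_mul, pc3_ev_apply, pc3_ev_apply, pc3_ev_apply, pc3_ev_apply,
        tot_DX, tot_DX]
    · refine Finset.sum_congr rfl fun l _ => ?_
      rw [map_zsmul, map_sum]
      congr 1
      refine Finset.sum_congr rfl fun a _ => ?_
      rw [map_sum]
      refine Finset.sum_congr rfl fun b _ => ?_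
      rw [map_smul, map_mul, smul_eq_mul, pc3_ev_apply, pc3_ev_apply]
  have h4 : ∀ j, P.dd j ((tot F').1 k) = 0 := fun j => by
    rw [h', Derivation.map_algebraMap]
  have h5 : ∀ j, P.dd j ((tot F).1 k) = 0 := fun j => by
    rw [h, Derivation.map_algebraMap]
  have h6 : sgn (sIJ PUnit PUnit (Sum.inl PUnit.unit)) = 1 := rfl
  have h7 : sgn (sIJ PUnit PUnit (Sum.inr PUnit.unit)) = -1 := rfl
  have hsum : ∀ g : PUnit ⊕ PUnit → K, ∑ l, g l = g (Sum.inl PUnit.unit) + g (Sum.inr PUnit.unit) :=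
    fun g => (Fintype.sum_sum_type g).trans
      (congrArg₂ (· + ·) (Fintype.sum_unique _) (Fintype.sum_unique _))
  rw [h3, KO_zero, hsum, h6, h7, one_smul, neg_smul, one_smul]
  have h9 : ∑ a, ∑ b, P.rho a b *
        ((tot (P.AL (sIJ PUnit PUnit) (Sum.inr PUnit.unit) a F)).1 k *
          (tot (P.AL (sIJ PUnit PUnit) (Sum.inr PUnit.unit) b F')).1 k) =
      ∑ a, ∑ b, P.rho a b *
        ((tot (P.AL (sIJ PUnit PUnit) (Sum.inl PUnit.unit) a F)).1 k *
          (tot (P.AL (sIJ PUnit PUnit) (Sum.inl PUnit.unit) b F')).1 k) := by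
    refine Finset.sum_congr rfl fun a _ => Finset.sum_congr rfl fun b _ => ?_
    rw [pf1_AL hT h a k, pf1_AL hT h' b k, neg_mul_neg]
  rw [h9, Finset.sum_eq_zero fun j _ => by rw [h4, mul_zero],
    Finset.sum_eq_zero fun j _ => by rw [h5, mul_zero]]
  ring

end

end Pool.Agent.MTF
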