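import Pool.Agent.MTF.PF0
import Pool.Agent.MTF.F0c
import Pool.Agent.MTF.C2D

/-! # MTF, part P : functions on the cotangent bundle of G -/

set_option linter.unusedSectionVars false

namespace Pool.Agent.MTF

open AffGrp

section
variable {G : AffGrp} {K W X : Type} [Field K] [Algebra ℂ K] [Group W] [Fintype W]
  [MulSemiringAction W K] [SMulCommClass W ℂ K] [AddCommGroup X] [DistribMulAction W X]
variable {Q : TQD G K W X}

/-- evaluation -/
def evO (G : AffGrp) (x : G.X) : G.O →+* ℂ where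
  toFun f := f.1 x
  map_one' := rfl
  map_mul' _ _ := rfl
  map_zero' := rfl
  map_add' _ _ := rfl

/-- the value of `H ∈ O ⊗ ℂ[𝔤*]` at `(x, ξ)` -/
noncomputable def ctE (Q : TQD G K W X) (H : MvPolynomial (Fin Q.r) G.O) (x : G.X) (ξ : Module.Dual ℂ G.Lie) : ℂ :=
  MvPolynomial.eval₂ (evO G x) (fun j => ξ (Q.D j)) H

/-- [MTF-PF2] PROOF. For fixed `x` the polynomial with the coefficients evaluated at `x` vanishes at all points of `ℂ^r` (`ξ := ` the functional with arbitrary values on the basis, `Q.D.constr`), so it is zero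
(`MvPolynomial.funext`). -/
theorem ctE_inj (H : MvPolynomial (Fin Q.r) G.O) (h : ∀ x ξ, ctE Q H x ξ = 0) : H = 0 := by
  have h1 : ∀ x, MvPolynomial.map (evO G x) H = 0 := by
    intro x
    refine MvPolynomial.funext fun v => ?_
    have h2 := h x (Q.D.constr ℂ v)
    unfold ctE at h2
    have h3 : (fun j => (Q.D.constr ℂ v) (Q.D j)) = v := by
      funext j
      exact Q.D.constr_basis ℂ v j
    rw [h3] at h2
    rw [MvPolynomial.eval_map, h2, map_zero]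
  refine MvPolynomial.ext _ _ fun m => ?_
  apply Subtype.ext
  funext x
  have h2 := congrArg (MvPolynomial.coeff m) (h1 x)
  rw [MvPolynomial.coeff_map, MvPolynomial.coeff_zero] at h2
  rw [MvPolynomial.coeff_zero]
  exact h2

theorem pf2_sub (H H' : MvPolynomial (Fin Q.r) G.O) (x : G.X) (ξ : Module.Dual ℂ G.Lie) :
    ctE Q (H - H') x ξ = ctE Q H x ξ - ctE Q H' x ξ :=
  map_sub (MvPolynomial.eval₂Hom (evO G x) fun j => ξ (Q.D j)) H H'

/-- the functional on one copy -/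
noncomputable def pf2_L (G : AffGrp) (ξ : Module.Dual ℂ (G.pow PUnit).Lie) : Module.Dual ℂ G.Lie :=
  ξ ∘ₗ (G.pl (L := PUnit)).toLinearMap ∘ₗ (LinearMap.pi fun _ => LinearMap.id)

theorem pf2_L_apply (ξ : Module.Dual ℂ (G.pow PUnit).Lie) (D : G.Lie) :
    pf2_L G ξ D = ξ (G.pl fun _ => D) := rfl

/-- the homomorphism -/
noncomputable def pf2_Φ (Q : TQD G K W X) : MvPolynomial (Fin Q.r) G.O →ₐ[ℂ]
    ((G.pow PUnit).X × Module.Dual ℂ (G.pow PUnit).Lie → ℂ) where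
  toRingHom := RingHom.pi fun p : (G.pow PUnit).X × Module.Dual ℂ (G.pow PUnit).Lie =>
    MvPolynomial.eval₂Hom (evO G (p.1 PUnit.unit)) (fun j => pf2_L G p.2 (Q.D j))
  commutes' c := by
    funext p
    show MvPolynomial.eval₂Hom (evO G (p.1 PUnit.unit)) (fun j => pf2_L G p.2 (Q.D j))
      (MvPolynomial.C (algebraMap ℂ G.O c)) = c
    rw [MvPolynomial.eval₂Hom_C]
    rfl

theorem pf2_Φ_apply (H : MvPolynomial (Fin Q.r) G.O) (x : PUnit → G.X)
    (ξ : Module.Dual ℂ (G.pow PUnit).Lie) :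
    pf2_Φ Q H (x, ξ) = ctE Q H (x PUnit.unit) (pf2_L G ξ) := rfl

theorem pf2_Φ_C (f : G.O) : pf2_Φ Q (MvPolynomial.C f) = fun p => f.1 (p.1 PUnit.unit) := by
  funext p
  exact MvPolynomial.eval₂Hom_C _ _ _

theorem pf2_Φ_X (j : Fin Q.r) : pf2_Φ Q (MvPolynomial.X j) = fun p => p.2 (G.pl fun _ => Q.D j) := by
  funext p
  exact MvPolynomial.eval₂Hom_X' _ _ _

theorem pf2_Φ_mem (H : MvPolynomial (Fin Q.r) G.O) : pf2_Φ Q H ∈ (G.pow PUnit).cotO := by
  induction H using MvPolynomial.induction_on with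
  | C f =>
    rw [pf2_Φ_C]
    have hf : (fun x : PUnit → G.X => f.1 (x PUnit.unit)) ∈ G.powO PUnit :=
      Algebra.subset_adjoin ⟨PUnit.unit, f, rfl⟩
    exact Algebra.subset_adjoin (Or.inl ⟨⟨_, hf⟩, rfl⟩)
  | add p q hp hq =>
    rw [map_add]
    exact add_mem hp hq
  | mul_X p j hp =>
    rw [map_mul]
    refine mul_mem hp ?_
    rw [pf2_Φ_X]
    exact Algebra.subset_adjoin (Or.inr ⟨_, rfl⟩)

theorem pf2_Φ_inj : Function.Injective (pf2_Φ Q) := by
  intro H H' h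
  rw [← sub_eq_zero]
  refine ctE_inj _ fun x ξ => ?_
  rw [pf2_sub, sub_eq_zero]
  have h1 := congrFun h ((fun _ => x), ξ ∘ₗ G.lpr PUnit.unit)
  rw [pf2_Φ_apply, pf2_Φ_apply] at h1
  have h2 : pf2_L G (ξ ∘ₗ G.lpr PUnit.unit) = ξ := by
    apply LinearMap.ext
    intro D
    rw [pf2_L_apply, LinearMap.comp_apply, AffGrp.lpr_pl]
  rw [h2] at h1
  exact h1

theorem pf2_pow (f : (G.pow PUnit).O) : ∃ g : G.O, f.1 = fun x => g.1 (x PUnit.unit) := by
  obtain ⟨f, hf⟩ := f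
  have h1 : (G.pow PUnit).O ≤ (AlgHom.pi (R := ℂ) (A := fun _ : PUnit → G.X => ℂ)
      (fun x => (Pi.evalAlgHom ℂ (fun _ : G.X => ℂ) (x PUnit.unit)).comp G.O.val) :
        G.O →ₐ[ℂ] ((PUnit → G.X) → ℂ)).range := by
    refine Algebra.adjoin_le ?_
    rintro F ⟨i, g, rfl⟩
    exact ⟨g, rfl⟩
  obtain ⟨g, hg⟩ := h1 hf
  exact ⟨g, hg.symm⟩

theorem pf2_Φ_surj : (G.pow PUnit).cotO ≤ (pf2_Φ Q).range := by
  refine Algebra.adjoin_le ?_
  rintro F (⟨f, rfl⟩ | ⟨D, rfl⟩)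
  · obtain ⟨g, hg⟩ := pf2_pow f
    refine ⟨MvPolynomial.C g, ?_⟩
    show pf2_Φ Q (MvPolynomial.C g) = fun p => f.1 p.1
    rw [pf2_Φ_C, hg]
  · refine ⟨∑ j, MvPolynomial.C (algebraMap ℂ G.O (Q.D.repr (G.lpr PUnit.unit D) j)) *
      MvPolynomial.X j, ?_⟩
    show pf2_Φ Q _ = fun p => p.2 D
    funext p
    rw [map_sum, Finset.sum_apply]
    have h1 : D = G.pl fun _ => G.lpr PUnit.unit D := by
      apply AffGrp.lie_ext
      intro l
      rw [AffGrp.lpr_pl]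
    have h2 : ∀ ξ : Module.Dual ℂ (G.pow PUnit).Lie, ∑ j, Q.D.repr (G.lpr PUnit.unit D) j *
        pf2_L G ξ (Q.D j) = ξ D := by
      intro ξ
      have h3 : ξ D = pf2_L G ξ (G.lpr PUnit.unit D) := by
        rw [pf2_L_apply, ← h1]
      rw [h3]
      conv_rhs => rw [← Q.D.sum_repr (G.lpr PUnit.unit D)]
      rw [map_sum]
      refine Finset.sum_congr rfl fun j _ => ?_
      rw [map_smul, smul_eq_mul]
    rw [← h2 p.2]
    refine Finset.sum_congr rfl fun j _ => ?_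
    rw [map_mul, Pi.mul_apply, pf2_Φ_C, pf2_Φ_X]
    rfl

/-- [MTF-PF2] the functions on the cotangent bundle of `G^PUnit`.
PROOF. The homomorphism `H ↦ ((x, ξ) ↦ ctE Q H (x unit) (D ↦ ξ (G.pl fun _ => D)))` (values in `cotO`: `MvPolynomial.induction_on`: `C f ↦ f (x unit)`, `X j ↦ ξ (..)`); injective: `ctE_inj`
(`G.pl` is bijective, every functional on `G.Lie` occurs); surjective: `Algebra.adjoin_induction` on `cotO`: a function `f` in `(G.pow PUnit).O` is `x ↦ f' (x unit)` with `f' ∈ G.O` (`AffGrp.powO`,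
`Algebra.adjoin_induction`), and `D = G.pl fun _ => lpr unit D = ∑_j repr _ j • G.pl fun _ => Q.D j`. -/
theorem cot_equiv (Q : TQD G K W X) : ∃ Θ : MvPolynomial (Fin Q.r) G.O ≃ₐ[ℂ] (G.pow PUnit).cotO,
    ∀ H (x : PUnit → G.X) (ξ : Module.Dual ℂ (G.pow PUnit).Lie), (Θ H).1 (x, ξ) =
      ctE Q H (x PUnit.unit) (ξ ∘ₗ (G.pl (L := PUnit)).toLinearMap ∘ₗ (LinearMap.pi fun _ => LinearMap.id)) := by
  let Ψ : MvPolynomial (Fin Q.r) G.O →ₐ[ℂ] (G.pow PUnit).cotO := (pf2_Φ Q).codRestrict _ pf2_Φ_mem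
  have h1 : Function.Bijective Ψ := by
    constructor
    · intro H H' h
      exact pf2_Φ_inj (congrArg Subtype.val h)
    · intro F
      obtain ⟨H, hH⟩ := pf2_Φ_surj (Q := Q) F.2
      exact ⟨H, Subtype.ext hH⟩
  exact ⟨AlgEquiv.ofBijective Ψ h1, fun H x ξ => rfl⟩

/-- the translation of functions -/
def pf2_tr (G : AffGrp) (h k : G.X) : G.O →+* G.O where
  toFun f := ⟨fun x => f.1 (h⁻¹ * x * k), G.left_mem h⁻¹ (G.right_mem k f.2)⟩
  map_one' := rfl
  map_mul' _ _ := rfl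
  map_zero' := rfl
  map_add' _ _ := rfl

theorem pf2_dual (ξ : Module.Dual ℂ G.Lie) (D : G.Lie) :
    ∑ j, Q.D.repr D j * ξ (Q.D j) = ξ D := by
  conv_rhs => rw [← Q.D.sum_repr D]
  rw [map_sum]
  refine Finset.sum_congr rfl fun j _ => ?_
  rw [map_smul, smul_eq_mul]

theorem pf2_muv (y : G.X) (D : G.Lie) : ∑ i, algebraMap ℂ K (Q.D.repr D i) * Q.muv y i =
    ∑ l, Q.c l * algebraMap ℂ K (G.killing D (G.Ad y (Q.D l))) := by
  have h1 : ∀ l, algebraMap ℂ K (G.killing D (G.Ad y (Q.D l))) =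
      ∑ i, algebraMap ℂ K (Q.D.repr D i) * algebraMap ℂ K (G.killing (Q.D i) (G.Ad y (Q.D l))) := by
    intro l
    have h2 := pf2_dual (Q := Q) ((killD G).flip (G.Ad y (Q.D l))) D
    rw [LinearMap.flip_apply, killD_apply] at h2
    rw [← h2, map_sum]
    refine Finset.sum_congr rfl fun i _ => ?_
    rw [map_mul]
    rfl
  simp only [h1]
  unfold TQD.muv
  simp only [Finset.mul_sum]
  rw [Finset.sum_comm]
  refine Finset.sum_congr rfl fun l _ => Finset.sum_congr rfl fun i _ => ?_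
  ring

theorem pf2_Ad_mul (k y : G.X) (D : G.Lie) : G.Ad (k * y) D = G.Ad k (G.Ad y D) := by
  apply Subtype.ext
  apply LinearMap.ext
  intro f
  show D.1 (G.cj (k * y) f) = D.1 (G.cj y (G.cj k f))
  congr 1
  apply Subtype.ext
  funext z
  show f.1 (k * y * z * (k * y)⁻¹) = f.1 (k * (y * z * y⁻¹) * k⁻¹)
  group

theorem pf2_kAd (k y : G.X) (D E : G.Lie) :
    G.killing (G.Ad k D) (G.Ad y E) = G.killing D (G.Ad (k⁻¹ * y) E) := by
  have h1 : G.Ad y E = G.Ad k (G.Ad (k⁻¹ * y) E) := by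
    rw [← pf2_Ad_mul, mul_inv_cancel_left]
  rw [h1, killing_Ad]

/-- [MTF-PF2] the action. PROOF. `H' := ` the image of `H` under the ring homomorphism `C f ↦ C (x ↦ f (h⁻¹ x k))`, `X j ↦ ∑ i, C (repr (G.Ad k (D j)) i) * X i`; `muv (k⁻¹ y) j = κ(D j, Ad_{k⁻¹ y} s) =
κ(Ad_k (D j), Ad_y s)` (`killing_Ad`, linear in the first argument). -/
theorem cy_act (h k : G.X) (H : MvPolynomial (Fin Q.r) G.O) : ∃ H' : MvPolynomial (Fin Q.r) G.O,
    (∀ a y, Q.cyE H' a y = Q.cyE H (h⁻¹ * a * k) (k⁻¹ * y)) ∧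
    ∀ x ξ, ctE Q H' x ξ = ctE Q H (h⁻¹ * x * k) (ξ ∘ₗ G.Ad k) := by
  refine ⟨MvPolynomial.eval₂Hom (MvPolynomial.C.comp (pf2_tr G h k)) (fun j => ∑ i,
    MvPolynomial.C (algebraMap ℂ G.O (Q.D.repr (G.Ad k (Q.D j)) i)) * MvPolynomial.X i) H, ?_, ?_⟩
  · intro a y
    have h1 : (MvPolynomial.eval₂Hom (evK K a) (Q.muv y)).comp
        (MvPolynomial.eval₂Hom (MvPolynomial.C.comp (pf2_tr G h k)) (fun j => ∑ i,
    MvPolynomial.C (algebraMap ℂ G.O (Q.D.repr (G.Ad k (Q.D j)) i)) * MvPolynomial.X i)) =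
        MvPolynomial.eval₂Hom (evK K (h⁻¹ * a * k)) (Q.muv (k⁻¹ * y)) := by
      refine MvPolynomial.ringHom_ext ?_ ?_
      · intro f
        rw [RingHom.comp_apply, MvPolynomial.eval₂Hom_C, RingHom.comp_apply,
          MvPolynomial.eval₂Hom_C, MvPolynomial.eval₂Hom_C]
        rfl
      · intro j
        rw [RingHom.comp_apply, MvPolynomial.eval₂Hom_X', MvPolynomial.eval₂Hom_X', map_sum]
        have h2 : ∀ i, MvPolynomial.eval₂Hom (evK K a) (Q.muv y)
            (MvPolynomial.C (algebraMap ℂ G.O (Q.D.repr (G.Ad k (Q.D j)) i)) *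
              MvPolynomial.X i) = algebraMap ℂ K (Q.D.repr (G.Ad k (Q.D j)) i) * Q.muv y i := by
          intro i
          rw [map_mul, MvPolynomial.eval₂Hom_C, MvPolynomial.eval₂Hom_X']
          rfl
        rw [Finset.sum_congr rfl fun i _ => h2 i, pf2_muv]
        unfold TQD.muv
        refine Finset.sum_congr rfl fun l _ => ?_
        rw [pf2_kAd]
    exact RingHom.congr_fun h1 H
  · intro x ξ
    have h1 : (MvPolynomial.eval₂Hom (evO G x) (fun j => ξ (Q.D j))).comp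
        (MvPolynomial.eval₂Hom (MvPolynomial.C.comp (pf2_tr G h k)) (fun j => ∑ i,
    MvPolynomial.C (algebraMap ℂ G.O (Q.D.repr (G.Ad k (Q.D j)) i)) * MvPolynomial.X i)) =
        MvPolynomial.eval₂Hom (evO G (h⁻¹ * x * k)) (fun j => (ξ ∘ₗ G.Ad k) (Q.D j)) := by
      refine MvPolynomial.ringHom_ext ?_ ?_
      · intro f
        rw [RingHom.comp_apply, MvPolynomial.eval₂Hom_C, RingHom.comp_apply,
          MvPolynomial.eval₂Hom_C, MvPolynomial.eval₂Hom_C]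
        rfl
      · intro j
        rw [RingHom.comp_apply, MvPolynomial.eval₂Hom_X', MvPolynomial.eval₂Hom_X', map_sum]
        have h2 : ∀ i, MvPolynomial.eval₂Hom (evO G x) (fun j => ξ (Q.D j))
            (MvPolynomial.C (algebraMap ℂ G.O (Q.D.repr (G.Ad k (Q.D j)) i)) *
              MvPolynomial.X i) = Q.D.repr (G.Ad k (Q.D j)) i * ξ (Q.D i) := by
          intro i
          rw [map_mul, MvPolynomial.eval₂Hom_C, MvPolynomial.eval₂Hom_X']
          rfl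
        rw [Finset.sum_congr rfl fun i _ => h2 i]
        exact pf2_dual _ _
    exact RingHom.congr_fun h1 H

/-- [MTF-PF2] the moment map of the left action. PROOF. `H' := ∑ j, C (x ↦ repr (G.Ad x⁻¹ D) j) * X j` (`Ad_mem`, `G.inv_mem`), `killing_Ad`. -/
theorem cy_mu (D : G.Lie) : ∃ H' : MvPolynomial (Fin Q.r) G.O,
    (∀ a y, Q.cyE H' a y = ∑ j, Q.c j * algebraMap ℂ K (G.killing D (G.Ad (a * y) (Q.D j)))) ∧
    ∀ x ξ, ctE Q H' x ξ = ξ (G.Ad x⁻¹ D) := by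
  refine ⟨∑ j, MvPolynomial.C (⟨fun x => Q.D.repr (G.Ad x⁻¹ D) j,
    G.inv_mem _ (Ad_mem Q (Q.D.coord j) D)⟩ : G.O) * MvPolynomial.X j, ?_, ?_⟩
  · intro a y
    show MvPolynomial.eval₂Hom (evK K a) (Q.muv y) _ = _
    rw [map_sum]
    have h2 : ∀ j, MvPolynomial.eval₂Hom (evK K a) (Q.muv y)
        (MvPolynomial.C (⟨fun x => Q.D.repr (G.Ad x⁻¹ D) j,
          G.inv_mem _ (Ad_mem Q (Q.D.coord j) D)⟩ : G.O) * MvPolynomial.X j) =
        algebraMap ℂ K (Q.D.repr (G.Ad a⁻¹ D) j) * Q.muv y j := by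
      intro j
      rw [map_mul, MvPolynomial.eval₂Hom_C, MvPolynomial.eval₂Hom_X']
      rfl
    rw [Finset.sum_congr rfl fun i _ => h2 i, pf2_muv]
    refine Finset.sum_congr rfl fun l _ => ?_
    rw [pf2_kAd, inv_inv]
  · intro x ξ
    show MvPolynomial.eval₂Hom (evO G x) (fun j => ξ (Q.D j)) _ = _
    rw [map_sum]
    have h2 : ∀ j, MvPolynomial.eval₂Hom (evO G x) (fun j => ξ (Q.D j))
        (MvPolynomial.C (⟨fun x => Q.D.repr (G.Ad x⁻¹ D) j,
          G.inv_mem _ (Ad_mem Q (Q.D.coord j) D)⟩ : G.O) * MvPolynomial.X j) =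
        Q.D.repr (G.Ad x⁻¹ D) j * ξ (Q.D j) := by
      intro j
      rw [map_mul, MvPolynomial.eval₂Hom_C, MvPolynomial.eval₂Hom_X']
      rfl
    rw [Finset.sum_congr rfl fun i _ => h2 i]
    exact pf2_dual _ _

/-- [MTF-PF2] the moment map of the right action. PROOF. `H' := ∑ j, C (repr D j) * X j`. -/
theorem cy_nu (D : G.Lie) : ∃ H' : MvPolynomial (Fin Q.r) G.O,
    (∀ a y, Q.cyE H' a y = ∑ j, Q.c j * algebraMap ℂ K (G.killing D (G.Ad y (Q.D j)))) ∧
    ∀ x ξ, ctE Q H' x ξ = ξ D := by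
  refine ⟨∑ j, MvPolynomial.C (algebraMap ℂ G.O (Q.D.repr D j)) * MvPolynomial.X j, ?_, ?_⟩
  · intro a y
    show MvPolynomial.eval₂Hom (evK K a) (Q.muv y) _ = _
    rw [map_sum]
    have h2 : ∀ j, MvPolynomial.eval₂Hom (evK K a) (Q.muv y)
        (MvPolynomial.C (algebraMap ℂ G.O (Q.D.repr D j)) * MvPolynomial.X j) =
        algebraMap ℂ K (Q.D.repr D j) * Q.muv y j := by
      intro j
      rw [map_mul, MvPolynomial.eval₂Hom_C, MvPolynomial.eval₂Hom_X']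
      rfl
    rw [Finset.sum_congr rfl fun i _ => h2 i, pf2_muv]
  · intro x ξ
    show MvPolynomial.eval₂Hom (evO G x) (fun j => ξ (Q.D j)) _ = _
    rw [map_sum]
    have h2 : ∀ j, MvPolynomial.eval₂Hom (evO G x) (fun j => ξ (Q.D j))
        (MvPolynomial.C (algebraMap ℂ G.O (Q.D.repr D j)) * MvPolynomial.X j) =
        Q.D.repr D j * ξ (Q.D j) := by
      intro j
      rw [map_mul, MvPolynomial.eval₂Hom_C, MvPolynomial.eval₂Hom_X']
      rfl
    rw [Finset.sum_congr rfl fun i _ => h2 i]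
    exact pf2_dual _ _

/-- [MTF-PF2] functions of `x` alone. PROOF. `f := ` the constant coefficient of `H`; `ctE_inj` for `H - C f`. -/
theorem cy_const (H : MvPolynomial (Fin Q.r) G.O) (h : ∀ x ξ η, ctE Q H x ξ = ctE Q H x η) :
    ∃ f : G.O, H = MvPolynomial.C f := by
  refine ⟨MvPolynomial.constantCoeff H, ?_⟩
  rw [← sub_eq_zero]
  refine ctE_inj _ fun x ξ => ?_
  rw [pf2_sub, h x ξ 0, sub_eq_zero]
  have h1 : ctE Q H x 0 = evO G x (MvPolynomial.constantCoeff H) :=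
    MvPolynomial.eval₂Hom_zero'_apply _ _
  have h2 : ctE Q (MvPolynomial.C (MvPolynomial.constantCoeff H)) x ξ =
      evO G x (MvPolynomial.constantCoeff H) := MvPolynomial.eval₂Hom_C _ _ _
  rw [h1, h2]

end

end Pool.Agent.MTF
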