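import Pool.Agent.MTF.PF1
import Pool.Agent.MTF.PF2
import Pool.Agent.MTF.PE2

/-! # MTF, part P : the cylinder -/

set_option linter.unusedSectionVars false

namespace Pool.Agent.MTF

open AffGrp

section
variable {G : AffGrp} {K W X : Type} [Field K] [Algebra ℂ K] [Group W] [Fintype W]
  [MulSemiringAction W K] [SMulCommClass W ℂ K] [AddCommGroup X] [DistribMulAction W X]
variable {Q : TQD G K W X}
variable {P : PD Q}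

/-- polynomials are determined by their values -/
theorem pf3_key (hT : TQ Q) (hP : PQ Q P) (H H' : MvPolynomial (Fin Q.r) G.O)
    (h : ∀ k : PUnit.{1} ⊕ PUnit.{1} → G.X, Q.cyE H (k (Sum.inl PUnit.unit) * (k (Sum.inr PUnit.unit))⁻¹) (k (Sum.inr PUnit.unit)) =
      Q.cyE H' (k (Sum.inl PUnit.unit) * (k (Sum.inr PUnit.unit))⁻¹) (k (Sum.inr PUnit.unit))) : H = H' := by
  have h0 : (Sum.inl PUnit.unit : PUnit.{1} ⊕ PUnit.{1}) ≠ Sum.inr PUnit.unit := by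
    intro h
    cases h
  apply sub_eq_zero.1
  refine cyl_inj hT (fun H h => dense_s hT hP H h) h0 (H - H') fun k => ?_
  have h1 := h k
  unfold TQD.cyE at h1 ⊢
  rw [MvPolynomial.eval₂_sub, h1, sub_self]

/-- the homomorphism of the functionals -/
noncomputable def pf3_fun (ξ : Module.Dual ℂ (G.pow PUnit.{1}).Lie) : Module.Dual ℂ G.Lie :=
  ξ ∘ₗ (G.pl (L := PUnit)).toLinearMap ∘ₗ (LinearMap.pi fun _ => LinearMap.id)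

theorem pf3_fun_apply (ξ : Module.Dual ℂ (G.pow PUnit.{1}).Lie) (D : G.Lie) :
    pf3_fun ξ D = ξ (G.pl fun _ => D) := rfl

theorem pf3_fun_Ad (ξ : Module.Dual ℂ (G.pow PUnit.{1}).Lie) (k : (G.pow PUnit.{1}).X) :
    pf3_fun (ξ ∘ₗ (G.pow PUnit.{1}).Ad k) = pf3_fun ξ ∘ₗ G.Ad (k PUnit.unit) := by
  apply LinearMap.ext
  intro D
  show ξ ((G.pow PUnit.{1}).Ad k (G.pl fun _ => D)) = ξ (G.pl fun _ => G.Ad (k PUnit.unit) D)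
  rw [Ad_pl]

theorem pf3_fun_lpr (ξ : Module.Dual ℂ G.Lie) : pf3_fun (ξ ∘ₗ G.lpr PUnit.unit) = ξ := by
  apply LinearMap.ext
  intro D
  show ξ (G.lpr PUnit.unit (G.pl fun _ => D)) = ξ D
  rw [lpr_pl]

theorem pf3_pl (D : (G.pow PUnit.{1}).Lie) : (G.pl fun _ => G.lpr PUnit.unit D) = D := pl_lpr D

theorem pf3_muI (hT : TQ Q) (D : (G.pow PUnit.{1}).Lie) :
    muI hT 0 PUnit.{1} PUnit.{1} D = muR hT 0 (sIJ PUnit.{1} PUnit.{1}) (Sum.inl PUnit.unit) (G.lpr PUnit.unit D) := by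
  rw [muI_apply]
  exact Fintype.sum_unique _

theorem pf3_nuJ (hT : TQ Q) (D : (G.pow PUnit.{1}).Lie) :
    nuJ hT 0 PUnit.{1} PUnit.{1} D = muR hT 0 (sIJ PUnit.{1} PUnit.{1}) (Sum.inr PUnit.unit) (G.lpr PUnit.unit D) := by
  rw [nuJ_apply]
  exact Fintype.sum_unique _

theorem pf3_br (hT : TQ Q) (hP : PQ Q P) (Θ : RA hT 0 (sIJ PUnit.{1} PUnit.{1}) ≃ₐ[ℂ] MvPolynomial (Fin Q.r) G.O)
    (hΘ : ∀ a (k : PUnit.{1} ⊕ PUnit.{1} → G.X),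
      (tot (rv hT 0 (sIJ PUnit.{1} PUnit.{1}) a)).1 k =
        Q.cyE (Θ a) (k (Sum.inl PUnit.unit) * (k (Sum.inr PUnit.unit))⁻¹) (k (Sum.inr PUnit.unit)))
    (a b : RA hT 0 (sIJ PUnit.{1} PUnit.{1})) (f f' : G.O) (ha : Θ a = MvPolynomial.C f) (hb : Θ b = MvPolynomial.C f') :
    brR hT P (closed_AG hT hP 0 (PUnit.{1} ⊕ PUnit.{1}) (sIJ PUnit.{1} PUnit.{1})) a b = 0 := by
  apply rv_inj
  rw [rv_brR, map_zero]
  refine cyl_br hT hP ((mem_AG hT fun _ => ⟨Sum.inl PUnit.unit⟩).1 (rv_mem hT 0 _ a)) ((mem_AG hT fun _ => ⟨Sum.inl PUnit.unit⟩).1 (rv_mem hT 0 _ b)) (f := f) (f' := f') (fun k => ?_) fun k => ?_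
  · rw [hΘ, ha]
    exact MvPolynomial.eval₂_C _ _ _
  · rw [hΘ, hb]
    exact MvPolynomial.eval₂_C _ _ _

theorem pf3_main (hT : TQ Q) (hP : PQ Q P) : ∃ Θ : RA hT 0 (sIJ PUnit.{1} PUnit.{1}) ≃ₐ[ℂ] (G.pow PUnit.{1}).cotO,
    (∀ h k a x ξ, (Θ (actIJ hT 0 (h, k) a)).1 (x, ξ) =
      (Θ a).1 (h⁻¹ * x * G.rb (Equiv.refl PUnit.{1}) k, ξ ∘ₗ (G.pow PUnit.{1}).Ad (G.rb (Equiv.refl PUnit.{1}) k))) ∧
    (∀ D x ξ, (Θ (muI hT 0 PUnit.{1} PUnit.{1} D)).1 (x, ξ) = ξ ((G.pow PUnit.{1}).Ad x⁻¹ D)) ∧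
    (∀ D x ξ, (Θ (nuJ hT 0 PUnit.{1} PUnit.{1} D)).1 (x, ξ) = ξ (G.lmap (Equiv.refl PUnit.{1}) D)) ∧
    ∀ a b : RA hT 0 (sIJ PUnit.{1} PUnit.{1}), (∀ x ξ η, (Θ a).1 (x, ξ) = (Θ a).1 (x, η)) →
      (∀ x ξ η, (Θ b).1 (x, ξ) = (Θ b).1 (x, η)) →
        brR hT P (closed_AG hT hP 0 (PUnit.{1} ⊕ PUnit.{1}) (sIJ PUnit.{1} PUnit.{1})) a b = 0 := by
  obtain ⟨Θ1, h1⟩ := cyl_equiv hT (fun H h => dense_s hT hP H h)
  obtain ⟨Θ2, h2'⟩ := cot_equiv Q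
  have h2 : ∀ H (x : PUnit.{1} → G.X) (ξ : Module.Dual ℂ (G.pow PUnit.{1}).Lie), (Θ2 H).1 (x, ξ) =
      ctE Q H (x PUnit.unit) (pf3_fun ξ) := h2'
  have e1 : ∀ a, (Θ1.trans Θ2) a = Θ2 (Θ1 a) := fun _ => rfl
  refine ⟨Θ1.trans Θ2, fun h k a x ξ => ?_, fun D x ξ => ?_, fun D x ξ => ?_, fun a b ha hb => ?_⟩
  · obtain ⟨H', h3, h4⟩ := cy_act (Q := Q) (h PUnit.unit) (k PUnit.unit) (Θ1 a)
    have h5 : Θ1 (actIJ hT 0 (h, k) a) = H' := by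
      refine pf3_key hT hP _ _ fun κ => ?_
      rw [← h1, actIJ_apply, tot_actR, h1, h3]
      have e2 : ((Sum.elim h k : PUnit.{1} ⊕ PUnit.{1} → G.X)⁻¹ * κ) (Sum.inl PUnit.unit) = (h PUnit.unit)⁻¹ * κ (Sum.inl PUnit.unit) := rfl
      have e3 : ((Sum.elim h k : PUnit.{1} ⊕ PUnit.{1} → G.X)⁻¹ * κ) (Sum.inr PUnit.unit) = (k PUnit.unit)⁻¹ * κ (Sum.inr PUnit.unit) := rfl
      rw [e2, e3]
      congr 1
      group
    rw [e1, e1, h5]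
    refine (h2 H' x ξ).trans ((h4 _ _).trans ?_)
    refine Eq.trans ?_ (h2 (Θ1 a) (h⁻¹ * x * G.rb (Equiv.refl PUnit.{1}) k) (ξ ∘ₗ (G.pow PUnit.{1}).Ad (G.rb (Equiv.refl PUnit.{1}) k))).symm
    rw [pf3_fun_Ad]
    rfl
  · obtain ⟨H', h3, h4⟩ := cy_mu (Q := Q) (G.lpr PUnit.unit D)
    have h5 : Θ1 (muI hT 0 PUnit.{1} PUnit.{1} D) = H' := by
      refine pf3_key hT hP _ _ fun κ => ?_
      rw [← h1, pf3_muI, tot_muR, h3, inv_mul_cancel_right]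
    rw [e1, h5]
    refine (h2 H' x ξ).trans ((h4 _ _).trans ?_)
    rw [pf3_fun_apply]
    have e2 : (G.pl fun _ : PUnit.{1} => G.Ad (x PUnit.unit)⁻¹ (G.lpr PUnit.unit D)) = (G.pow PUnit.{1}).Ad x⁻¹ D := by
      apply lie_ext
      intro l
      rw [lpr_pl]
      rfl
    rw [e2]
  · obtain ⟨H', h3, h4⟩ := cy_nu (Q := Q) (G.lpr PUnit.unit D)
    have h5 : Θ1 (nuJ hT 0 PUnit.{1} PUnit.{1} D) = H' := by
      refine pf3_key hT hP _ _ fun κ => ?_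
      rw [← h1, pf3_nuJ, tot_muR, h3]
    rw [e1, h5]
    refine (h2 H' x ξ).trans ((h4 _ _).trans ?_)
    rw [pf3_fun_apply, pf3_pl]
    rfl
  · have h3 : ∀ a, (∀ x ξ η, ((Θ1.trans Θ2) a).1 (x, ξ) = ((Θ1.trans Θ2) a).1 (x, η)) → ∃ f : G.O, Θ1 a = MvPolynomial.C f := by
      intro a ha
      refine cy_const (Q := Q) (Θ1 a) fun x ξ η => ?_
      have h4 := ha (fun _ => x) (ξ ∘ₗ G.lpr PUnit.unit) (η ∘ₗ G.lpr PUnit.unit)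
      rw [e1] at h4
      have h5 := (h2 (Θ1 a) (fun _ => x) (ξ ∘ₗ G.lpr PUnit.unit)).symm.trans (h4.trans (h2 (Θ1 a) (fun _ => x) (η ∘ₗ G.lpr PUnit.unit)))
      rw [pf3_fun_lpr, pf3_fun_lpr] at h5
      exact h5
    obtain ⟨f, hf⟩ := h3 a ha
    obtain ⟨f', hf'⟩ := h3 b hb
    exact pf3_br hT hP Θ1 h1 a b f f' hf hf'

/-- [MTF-PF3] THE CYLINDER.
PROOF. `Θ := (cyl_equiv ..).trans (cot_equiv Q)` (`hd := dense_s hT hP`).  All identities are checked on polynomials: `cyl_inj` (every pair `(a, y)` is `(k_i k_o⁻¹, k_o)`) says that a polynomial `H` is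
determined by the values `Q.cyE H a y`.  Action: `Θ₁ (act (h,k) a) = H'` for the `H'` of `cy_act` applied to `H = Θ₁ a`, because both have the same values (`tot_actR`: `(h⁻¹ k_i) (k⁻¹ k_o)⁻¹ = h⁻¹ (k_i k_o⁻¹) k`).
Moment maps: `muI hT 0 PUnit PUnit D = muR .. (inl unit) (lpr unit D)` (sum over `PUnit`), `tot_muR`, `cy_mu` with `k_i = (k_i k_o⁻¹) k_o`; `cy_nu`.
`(G.pow PUnit).Ad x (G.pl d) = G.pl fun l => G.Ad (x l) (d l)` (`Ad_pl`), `G.lmap (Equiv.refl PUnit) D = D`, `G.rb (Equiv.refl _) k = k`.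
Last clause: `cy_const` gives `Θ₁ a = C f`, `Θ₁ b = C f'`, `Q.cyE (C f) a y = algebraMap ℂ K (f a)`, and `cyl_br`, `rv_inj`, `rv_brR`. -/
theorem HA_cyl (hT : TQ Q) (hP : PQ Q P)
    (hfg : ∀ (g : ℕ) (L : Type) [Fintype L] [DecidableEq L] (ε : L → Bool), Algebra.FiniteType ℂ (RA hT g ε)) :
    IsCyl G (Equiv.refl PUnit) (HA hT hP hfg 0 PUnit PUnit) := by
  exact pf3_main hT hP

end

end Pool.Agent.MTF
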