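import Pool.Agent.MTF.PC1
import Pool.Agent.MTF.PF0

/-! # MTF, part P : the slice and the generic point of the slice -/

set_option linter.unusedSectionVars false

namespace Pool.Agent.MTF

open AffGrp

section
variable {G : AffGrp} {K W X : Type} [Field K] [Algebra ℂ K] [Group W] [Fintype W]
  [MulSemiringAction W K] [SMulCommClass W ℂ K] [AddCommGroup X] [DistribMulAction W X]
variable {Q : TQD G K W X}
variable {P : PD Q}

/-- the point of the Lie algebra with the coordinates `p i (s₀)` -/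
noncomputable def spt (Q : TQD G K W X) (p : Fin Q.r → MvPolynomial (Fin Q.r) ℂ) (s₀ : G.Lie) : G.Lie :=
  ∑ i, MvPolynomial.eval (fun i => Q.D.repr s₀ i) (p i) • Q.D i

/-- [MTF-PF4] -/
theorem spt_repr (p : Fin Q.r → MvPolynomial (Fin Q.r) ℂ) (s₀ : G.Lie) (i : Fin Q.r) :
    Q.D.repr (spt Q p s₀) i = MvPolynomial.eval (fun i => Q.D.repr s₀ i) (p i) := by
  unfold spt
  rw [Q.D.repr_sum_self]

/-- [MTF-PF4] PROOF. `hP.ASl` for `p - q`. -/
theorem slice_ev (hP : PQ Q P) {p q : MvPolynomial (Fin Q.r) ℂ} (h : MvPolynomial.aeval Q.c p = MvPolynomial.aeval Q.c q)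
    {s₀ : G.Lie} (hs : G.br P.f (s₀ - P.e) = 0) :
    MvPolynomial.eval (fun i => Q.D.repr s₀ i) p = MvPolynomial.eval (fun i => Q.D.repr s₀ i) q := by
  have h1 := hP.ASl (p - q) (by rw [map_sub, h, sub_self]) s₀ hs
  rw [map_sub] at h1
  exact sub_eq_zero.1 h1

theorem pf4_co_add (D E : G.Lie) : Q.co (D + E) = Q.co D + Q.co E := by
  funext a
  show algebraMap ℂ K (Q.D.repr (D + E) a) = algebraMap ℂ K (Q.D.repr D a) + algebraMap ℂ K (Q.D.repr E a)
  rw [map_add, Finsupp.add_apply, map_add]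

theorem pf4_co_zero : Q.co (0 : G.Lie) = 0 := by
  funext a
  show algebraMap ℂ K (Q.D.repr 0 a) = 0
  rw [map_zero, Finsupp.zero_apply, map_zero]

/-- [MTF-PF4] `s` is a `K`-valued point of the slice.
PROOF. `z := Q.c - Q.co P.e`, `brK (co f) z = 0` (`hP.sf`).  Let `κ_1 .. κ_m` be a `ℂ`-basis of the span of the entries of `z` in `K`, `z = ∑_l κ_l z^(l)` with complex vectors `z^(l)`; linear independence gives
`G.br P.f (z^(l)) = 0` (`co_br`/`br_repr`).  The polynomial `p(e + ∑_l T_l z^(l))` in `ℂ[T_1..T_m]` vanishes at all points of `ℂ^m` (`h`), so it is zero (`MvPolynomial.funext`); put `T_l = κ_l`. -/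
theorem slice_K (hP : PQ Q P) (p : MvPolynomial (Fin Q.r) ℂ)
    (h : ∀ s₀ : G.Lie, G.br P.f (s₀ - P.e) = 0 → MvPolynomial.eval (fun i => Q.D.repr s₀ i) p = 0) :
    MvPolynomial.aeval Q.c p = 0 := by
  classical
  let z : Fin Q.r → K := fun i => Q.c i - Q.co P.e i
  let V : Submodule ℂ K := Submodule.span ℂ (Set.range z)
  have hfin : Module.Finite ℂ V := FiniteDimensional.span_of_finite ℂ (Set.finite_range z)
  let b := Module.finBasis ℂ V
  have hzV : ∀ i, z i ∈ V := fun i => Submodule.subset_span ⟨i, rfl⟩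
  let zl : Fin (Module.finrank ℂ V) → Fin Q.r → ℂ := fun l i => b.repr ⟨z i, hzV i⟩ l
  have hz : ∀ i, z i = ∑ l, zl l i • (b l : K) := by
    intro i
    have h1 := b.sum_repr ⟨z i, hzV i⟩
    have h2 := congrArg V.subtype h1
    rw [map_sum] at h2
    exact h2.symm
  have hli : LinearIndependent ℂ (fun l => (b l : K)) :=
    b.linearIndependent.map' V.subtype (Submodule.ker_subtype V)
  have hbr : ∀ l, G.br P.f (∑ i, zl l i • Q.D i) = 0 := by
    have h1 : ∀ c, ∑ l, (∑ a, ∑ b', Q.stc a b' c * (Q.D.repr P.f a * zl l b')) • (b l : K) = 0 := by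
      intro c
      have h2 := congrFun hP.sf c
      rw [Pi.zero_apply] at h2
      rw [← h2]
      show _ = ∑ a, ∑ b', Q.stc a b' c • (Q.co P.f a * z b')
      rw [Finset.sum_congr rfl fun l _ => Finset.sum_smul, Finset.sum_comm]
      refine Finset.sum_congr rfl fun a _ => ?_
      rw [Finset.sum_congr rfl fun l _ => Finset.sum_smul, Finset.sum_comm]
      refine Finset.sum_congr rfl fun b' _ => ?_
      rw [hz b', Finset.mul_sum, Finset.smul_sum]
      refine Finset.sum_congr rfl fun l _ => ?_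
      show _ = Q.stc a b' c • (algebraMap ℂ K (Q.D.repr P.f a) * zl l b' • (b l : K))
      rw [← Algebra.smul_def, smul_smul, smul_smul, mul_assoc]
    intro l
    apply Q.D.repr.injective
    rw [map_zero]
    refine Finsupp.ext fun c => ?_
    rw [br_repr, Finsupp.zero_apply]
    have h2 := Fintype.linearIndependent_iff.1 hli _ (h1 c) l
    rw [← h2]
    unfold TQD.brK
    refine Finset.sum_congr rfl fun a _ => Finset.sum_congr rfl fun b' _ => ?_
    rw [Q.D.repr_sum_self, smul_eq_mul]
  let sT : (Fin (Module.finrank ℂ V) → ℂ) → G.Lie := fun T =>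
    P.e + ∑ l, T l • ∑ i, zl l i • Q.D i
  have hsT : ∀ T, G.br P.f (sT T - P.e) = 0 := by
    intro T
    have h1 : sT T - P.e = ∑ l, T l • ∑ i, zl l i • Q.D i := by
      show P.e + _ - P.e = _
      rw [add_sub_cancel_left]
    rw [h1]
    show G.ad P.f _ = 0
    rw [map_sum]
    refine Finset.sum_eq_zero fun l _ => ?_
    rw [map_smul]
    show T l • G.br P.f _ = 0
    rw [hbr, smul_zero]
  have hrT : ∀ T i, Q.D.repr (sT T) i = Q.D.repr P.e i + ∑ l, T l * zl l i := by
    intro T i
    show Q.D.repr (P.e + _) i = _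
    rw [map_add, Finsupp.add_apply, map_sum, Finsupp.finsetSum_apply]
    congr 1
    refine Finset.sum_congr rfl fun l _ => ?_
    rw [map_smul, Finsupp.smul_apply, Q.D.repr_sum_self, smul_eq_mul]
  let g : Fin Q.r → MvPolynomial (Fin (Module.finrank ℂ V)) ℂ := fun i =>
    MvPolynomial.C (Q.D.repr P.e i) + ∑ l, MvPolynomial.X l * MvPolynomial.C (zl l i)
  have hp' : MvPolynomial.aeval g p = 0 := by
    apply MvPolynomial.funext
    intro T
    rw [map_zero, ← h (sT T) (hsT T)]
    have h1 := MvPolynomial.comp_aeval_apply (f := g) (MvPolynomial.aeval (R := ℂ) T) p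
    have h2 : (fun i => (MvPolynomial.aeval (R := ℂ) T) (g i)) = fun i => Q.D.repr (sT T) i := by
      funext i
      show MvPolynomial.aeval (R := ℂ) T (MvPolynomial.C (Q.D.repr P.e i) +
        ∑ l, MvPolynomial.X l * MvPolynomial.C (zl l i)) = _
      rw [hrT, map_add, map_sum, MvPolynomial.aeval_C]
      congr 1
      refine Finset.sum_congr rfl fun l _ => ?_
      rw [map_mul, MvPolynomial.aeval_X, MvPolynomial.aeval_C]
      rfl
    rw [h2, MvPolynomial.aeval_eq_eval, MvPolynomial.aeval_eq_eval] at h1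
    exact h1
  have h1 := MvPolynomial.comp_aeval_apply (f := g)
    (MvPolynomial.aeval (R := ℂ) (fun l => (b l : K))) p
  have h2 : (fun i => (MvPolynomial.aeval (R := ℂ) (fun l => (b l : K))) (g i)) = Q.c := by
    funext i
    show MvPolynomial.aeval (R := ℂ) (fun l => (b l : K)) (MvPolynomial.C (Q.D.repr P.e i) +
      ∑ l, MvPolynomial.X l * MvPolynomial.C (zl l i)) = _
    rw [map_add, map_sum, MvPolynomial.aeval_C]
    have h3 : Q.c i = algebraMap ℂ K (Q.D.repr P.e i) + z i := by
      show Q.c i = Q.co P.e i + (Q.c i - Q.co P.e i)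
      ring
    rw [h3, hz i]
    congr 1
    refine Finset.sum_congr rfl fun l _ => ?_
    rw [map_mul, MvPolynomial.aeval_X, MvPolynomial.aeval_C, Algebra.smul_def, mul_comm]
  rw [h2, hp', map_zero] at h1
  exact h1.symm

/-- [MTF-PF4] evaluation of the bracket and of the Killing form. PROOF. `br_repr`, `killing_repr`, `spt_repr`, `TQD.brK`, `TQD.kapK`: the entries of `brK Q.c (aeval Q.c ∘ p)` are `aeval Q.c` of
`∑ a, ∑ b, C (stc a b c) * (X a * p b)`. -/
theorem spt_br (hP : PQ Q P) {p q : Fin Q.r → MvPolynomial (Fin Q.r) ℂ}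
    (h : Q.brK Q.c (fun i => MvPolynomial.aeval Q.c (p i)) = fun i => MvPolynomial.aeval Q.c (q i))
    {s₀ : G.Lie} (hs : G.br P.f (s₀ - P.e) = 0) : G.br s₀ (spt Q p s₀) = spt Q q s₀ := by
  apply Q.D.repr.injective
  refine Finsupp.ext fun c => ?_
  rw [br_repr, spt_repr]
  have h1 : MvPolynomial.aeval Q.c (∑ a, ∑ b, MvPolynomial.C (Q.stc a b c) *
      (MvPolynomial.X a * p b)) = MvPolynomial.aeval Q.c (q c) := by
    rw [← congrFun h c, map_sum]
    refine Finset.sum_congr rfl fun a _ => ?_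
    rw [map_sum]
    refine Finset.sum_congr rfl fun b _ => ?_
    rw [map_mul, map_mul, MvPolynomial.aeval_C, MvPolynomial.aeval_X, Algebra.smul_def]
  have h2 := slice_ev hP h1 hs
  rw [← h2, map_sum]
  refine Finset.sum_congr rfl fun a _ => ?_
  rw [map_sum]
  refine Finset.sum_congr rfl fun b _ => ?_
  rw [map_mul, map_mul, MvPolynomial.eval_C, MvPolynomial.eval_X, ← spt_repr, smul_eq_mul]

theorem spt_br_f (hP : PQ Q P) {p : Fin Q.r → MvPolynomial (Fin Q.r) ℂ}
    (h : Q.brK (Q.co P.f) (fun i => MvPolynomial.aeval Q.c (p i)) = 0)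
    {s₀ : G.Lie} (hs : G.br P.f (s₀ - P.e) = 0) : G.br P.f (spt Q p s₀) = 0 := by
  apply Q.D.repr.injective
  rw [map_zero]
  refine Finsupp.ext fun c => ?_
  rw [br_repr, Finsupp.zero_apply]
  have h1 : MvPolynomial.aeval Q.c (∑ a, ∑ b, MvPolynomial.C (Q.stc a b c) *
      (MvPolynomial.C (Q.D.repr P.f a) * p b)) = MvPolynomial.aeval Q.c (0 : MvPolynomial (Fin Q.r) ℂ) := by
    have h0 := congrFun h c
    rw [Pi.zero_apply] at h0
    rw [map_zero, ← h0, map_sum]
    refine Finset.sum_congr rfl fun a _ => ?_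
    rw [map_sum]
    refine Finset.sum_congr rfl fun b _ => ?_
    rw [map_mul, map_mul, MvPolynomial.aeval_C, MvPolynomial.aeval_C, Algebra.smul_def]
    rfl
  have h2 := slice_ev hP h1 hs
  rw [map_zero] at h2
  rw [← h2, map_sum]
  refine Finset.sum_congr rfl fun a _ => ?_
  rw [map_sum]
  refine Finset.sum_congr rfl fun b _ => ?_
  rw [map_mul, map_mul, MvPolynomial.eval_C, MvPolynomial.eval_C, ← spt_repr, smul_eq_mul]

theorem spt_kap (hP : PQ Q P) {p q : Fin Q.r → MvPolynomial (Fin Q.r) ℂ} {t : MvPolynomial (Fin Q.r) ℂ}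
    (h : Q.kapK (fun i => MvPolynomial.aeval Q.c (p i)) (fun i => MvPolynomial.aeval Q.c (q i)) = MvPolynomial.aeval Q.c t)
    {s₀ : G.Lie} (hs : G.br P.f (s₀ - P.e) = 0) :
    G.killing (spt Q p s₀) (spt Q q s₀) = MvPolynomial.eval (fun i => Q.D.repr s₀ i) t := by
  rw [killing_repr (Q := Q)]
  have h1 : MvPolynomial.aeval Q.c (∑ a, ∑ b, MvPolynomial.C (Q.kap a b) *
      (p a * q b)) = MvPolynomial.aeval Q.c t := by
    rw [← h, map_sum]
    refine Finset.sum_congr rfl fun a _ => ?_
    rw [map_sum]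
    refine Finset.sum_congr rfl fun b _ => ?_
    rw [map_mul, map_mul, MvPolynomial.aeval_C, Algebra.smul_def]
  have h2 := slice_ev hP h1 hs
  rw [← h2, map_sum]
  refine Finset.sum_congr rfl fun a _ => ?_
  rw [map_sum]
  refine Finset.sum_congr rfl fun b _ => ?_
  rw [map_mul, map_mul, MvPolynomial.eval_C, ← spt_repr, ← spt_repr, smul_eq_mul]

theorem pf4_smul_co (w : W) (D : G.Lie) (a : Fin Q.r) : w • Q.co D a = Q.co D a := by
  show w • algebraMap ℂ K (Q.D.repr D a) = algebraMap ℂ K (Q.D.repr D a)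
  exact smul_algebraMap w _

theorem pf4_smul_brK (w : W) (x y : Fin Q.r → K) (c : Fin Q.r) :
    w • Q.brK x y c = Q.brK (fun i => w • x i) (fun i => w • y i) c := by
  unfold TQD.brK
  rw [Finset.smul_sum]
  refine Finset.sum_congr rfl fun a _ => ?_
  rw [Finset.smul_sum]
  refine Finset.sum_congr rfl fun b _ => ?_
  rw [smul_comm, smul_mul']

theorem pf4_smul_flat (w : W) (x : Fin Q.r → K) (c : Fin Q.r) :
    w • Q.flat x c = Q.flat (fun i => w • x i) c := by
  unfold TQD.flat
  rw [Finset.smul_sum]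
  refine Finset.sum_congr rfl fun a _ => ?_
  rw [smul_comm]

theorem pf4_brK_sub (x y z : Fin Q.r → K) : Q.brK x (y - z) = Q.brK x y - Q.brK x z := by
  have h := brK_add (Q := Q) x (y - z) z
  rw [sub_add_cancel] at h
  rw [h, add_sub_cancel_right]

theorem pf4_brK_sum {ι : Type} (s : Finset ι) (x : Fin Q.r → K) (t : ι → K) (y : ι → Fin Q.r → K) :
    Q.brK x (∑ i ∈ s, t i • y i) = ∑ i ∈ s, t i • Q.brK x (y i) := by
  classical
  induction s using Finset.induction_on with
  | empty => rw [Finset.sum_empty, Finset.sum_empty]; exact pc1_brK_zero _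
  | insert i s hi ih =>
    rw [Finset.sum_insert hi, Finset.sum_insert hi, brK_add, ih, brK_smul]

theorem pf4_sum_co (t : Fin Q.r → K) : ∑ b, t b • Q.co (Q.D b) = t := by
  funext a
  rw [Finset.sum_apply, Finset.sum_eq_single a]
  · show t a * algebraMap ℂ K (Q.D.repr (Q.D a) a) = t a
    rw [Q.D.repr_self, Finsupp.single_eq_same, map_one, mul_one]
  · intro b _ hb
    show t b * algebraMap ℂ K (Q.D.repr (Q.D b) a) = 0
    rw [Q.D.repr_self, Finsupp.single_eq_of_ne hb.symm, map_zero, mul_zero]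
  · intro h
    exact absurd (Finset.mem_univ a) h

/-- [MTF-PF4] The kernel of `ad s` and `𝔤_f` are dual.
PROOF. `slice_solve` for the vectors `co (D b)`: `co (D b) = u_b + brK c v_b`.  UNIQUENESS (`hP.dir`): (*) if `brK (co f) u = 0` and `u = brK c v` then `u = 0`.  So `w • u_b = u_b` (apply `w` to the equation, `hT.c_w`,
difference of the two equations).  `λ_K(u) := ∑ i, u i * algebraMap ℂ K (lam (D i))`.  Let `z` be the vector with `flat z b = λ_K(u_b)` (complex inverse of the matrix `kap`, so `z i ∈ A` and `W`-invariant;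
or `flat_surjective`, `flat_injective` for `w • z - z`, and regularity from the explicit inverse).  `brK c z = 0`: by nondegeneracy (`flat_injective`) and `kapK_inv` it is enough that `kapK (brK c (co (D b'))) z = 0`:
this is `∑_b t_b flat z b = λ_K(∑_b t_b u_b)` with `t := brK c (co (D b'))`, and `∑_b t_b u_b = t - brK c (∑_b t_b v_b) = brK c (co (D b') - ..)` commutes with `f`, so it is `0` by (*).
For `v` with `br f v = 0`: `kapK (co v) z = λ_K(∑_b v_b u_b)` and `∑_b v_b u_b - co v = - brK c (∑_b v_b v_b)` is `0` by (*). -/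
theorem slice_dual (hT : TQ Q) (hP : PQ Q P) (lam : Module.Dual ℂ G.Lie) : ∃ z : Fin Q.r → K,
    (∀ i, z i ∈ Q.A) ∧ (∀ (w : W) i, w • z i = z i) ∧ Q.brK Q.c z = 0 ∧
      ∀ v : G.Lie, G.br P.f v = 0 → Q.kapK (Q.co v) z = algebraMap ℂ K (lam v) := by
  classical
  have hco : ∀ D a, Q.co D a ∈ Q.A := fun D a => Q.A.algebraMap_mem _
  choose u v hu hv huf huv using fun b => slice_solve hT hP (Q.co (Q.D b)) (hco _)
  have huw : ∀ (w : W) b i, w • u b i = u b i := by
    intro w b
    have h1 : Q.brK (Q.co P.f) (fun i => w • u b i - u b i) = 0 := by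
      have h2 : Q.brK (Q.co P.f) (fun i => w • u b i) = 0 := by
        funext c
        have h3 := pf4_smul_brK w (Q.co P.f) (u b) c
        rw [huf b, Pi.zero_apply, smul_zero] at h3
        rw [Pi.zero_apply, h3]
        congr 1
        funext i
        exact (pf4_smul_co w _ _).symm
      have h4 := pf4_brK_sub (Q := Q) (Q.co P.f) (fun i => w • u b i) (u b)
      rw [h2, huf b, sub_self] at h4
      exact h4
    have h5 : (fun i => w • u b i - u b i) = Q.brK Q.c (fun i => v b i - w • v b i) := by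
      have h6 := pf4_brK_sub (Q := Q) Q.c (v b) (fun i => w • v b i)
      have h7 : (fun i => v b i - w • v b i) = v b - fun i => w • v b i := rfl
      rw [h7, h6]
      funext c
      have h8 := congrFun (huv b) c
      rw [Pi.add_apply] at h8
      have h9 : w • Q.co (Q.D b) c = w • (u b c + Q.brK Q.c (v b) c) := by rw [← h8]
      rw [pf4_smul_co, smul_add, pf4_smul_brK, h8] at h9
      have h10 : (fun i => w • Q.c i) = Q.c := funext fun i => hT.c_w w i
      rw [h10] at h9
      rw [Pi.sub_apply]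
      linear_combination -h9
    have h11 := hP.dir _ _ h1 h5
    intro i
    have := congrFun h11 i
    exact sub_eq_zero.1 this
  let lamK : (Fin Q.r → K) → K := fun u => ∑ i, u i * algebraMap ℂ K (lam (Q.D i))
  obtain ⟨z', hz'⟩ := flat_surjective (Q := Q) (R := Q.A) hT.kill
    (fun b => ⟨lamK (u b), Q.A.sum_mem fun i _ => Q.A.mul_mem (hu b i) (Q.A.algebraMap_mem _)⟩)
  let z : Fin Q.r → K := fun i => (z' i : K)
  have hz : ∀ b, Q.flat z b = lamK (u b) := by
    intro b
    have h1 := congrArg Subtype.val (congrFun hz' b)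
    refine Eq.trans ?_ h1
    unfold TQD.flat
    rw [AddSubmonoidClass.coe_finsetSum]
    rfl
  have hsum : ∀ t : Fin Q.r → K, ∑ b, t b * lamK (u b) = lamK (∑ b, t b • u b) := by
    intro t
    show ∑ b, t b * ∑ i, u b i * algebraMap ℂ K (lam (Q.D i)) =
      ∑ i, (∑ b, t b • u b) i * algebraMap ℂ K (lam (Q.D i))
    rw [Finset.sum_congr rfl fun b _ => Finset.mul_sum _ _ _, Finset.sum_comm]
    refine Finset.sum_congr rfl fun i _ => ?_
    rw [Finset.sum_apply, Finset.sum_mul]
    refine Finset.sum_congr rfl fun b _ => ?_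
    rw [Pi.smul_apply, smul_eq_mul, mul_assoc]
  have hkap : ∀ t : Fin Q.r → K, Q.kapK t z = lamK (∑ b, t b • u b) := by
    intro t
    rw [kapK_symm, kapK_flat, ← hsum]
    refine Finset.sum_congr rfl fun b _ => ?_
    rw [hz, mul_comm]
  have hU : ∀ t : Fin Q.r → K, ∑ b, t b • u b = t - Q.brK Q.c (∑ b, t b • v b) := by
    intro t
    rw [pf4_brK_sum]
    have h1 : ∑ b, t b • Q.co (Q.D b) = ∑ b, t b • u b + ∑ b, t b • Q.brK Q.c (v b) := by
      rw [← Finset.sum_add_distrib]
      refine Finset.sum_congr rfl fun b _ => ?_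
      rw [← smul_add, ← huv b]
    rw [pf4_sum_co] at h1
    exact eq_sub_of_add_eq h1.symm
  have hUf : ∀ t : Fin Q.r → K, Q.brK (Q.co P.f) (∑ b, t b • u b) = 0 := by
    intro t
    rw [pf4_brK_sum]
    refine Finset.sum_eq_zero fun b _ => ?_
    rw [huf b, smul_zero]
  refine ⟨z, fun i => (z' i).2, ?_, ?_, ?_⟩
  · intro w
    have h1 : (fun i => w • z i - z i) = 0 := by
      refine flat_injective (Q := Q) hT.kill ?_
      funext b
      have h2 := pf4_smul_flat w z b
      have h3 := congrFun (flat_add (Q := Q) (fun i => w • z i - z i) z) b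
      rw [Pi.add_apply] at h3
      have h4 : ((fun i => w • z i - z i) + z) = fun i => w • z i := by
        funext i
        rw [Pi.add_apply, sub_add_cancel]
      rw [h4, ← h2, hz] at h3
      have h5 : w • lamK (u b) = lamK (u b) := by
        show w • ∑ i, u b i * algebraMap ℂ K (lam (Q.D i)) = _
        rw [Finset.smul_sum]
        refine Finset.sum_congr rfl fun i _ => ?_
        rw [smul_mul', huw, smul_algebraMap]
      rw [h5] at h3
      rw [Pi.zero_apply]
      linear_combination -h3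
    intro i
    exact sub_eq_zero.1 (congrFun h1 i)
  · refine flat_injective (Q := Q) hT.kill ?_
    funext b'
    rw [Pi.zero_apply]
    have h1 : Q.flat (Q.brK Q.c z) b' = Q.kapK (Q.co (Q.D b')) (Q.brK Q.c z) := by
      rw [kapK_symm, kapK_flat, Finset.sum_eq_single b']
      · show _ = _ * algebraMap ℂ K (Q.D.repr (Q.D b') b')
        rw [Q.D.repr_self, Finsupp.single_eq_same, map_one, mul_one]
      · intro b _ hb
        show _ * algebraMap ℂ K (Q.D.repr (Q.D b') b) = 0
        rw [Q.D.repr_self, Finsupp.single_eq_of_ne hb, map_zero, mul_zero]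
      · intro h
        exact absurd (Finset.mem_univ b') h
    have h2 := kapK_inv (Q := Q) Q.c (Q.co (Q.D b')) z
    rw [h1]
    have h3 : Q.kapK (Q.brK Q.c (Q.co (Q.D b'))) z = 0 := by
      rw [hkap]
      have h4 : ∑ b, (Q.brK Q.c (Q.co (Q.D b'))) b • u b = 0 := by
        refine hP.dir _ (Q.co (Q.D b') - ∑ b, (Q.brK Q.c (Q.co (Q.D b'))) b • v b) (hUf _) ?_
        rw [hU, pf4_brK_sub]
      rw [h4]
      exact Finset.sum_eq_zero fun i _ => by rw [Pi.zero_apply, zero_mul]
    rw [h3] at h2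
    linear_combination h2
  · intro x hx
    rw [hkap]
    have h4 : ∑ b, Q.co x b • u b - Q.co x = 0 := by
      refine hP.dir _ (- ∑ b, Q.co x b • v b) ?_ ?_
      · rw [pf4_brK_sub, hUf, ← co_br, hx, pf4_co_zero, sub_self]
      · rw [hU]
        have h5 := pf4_brK_sub (Q := Q) Q.c 0 (∑ b, Q.co x b • v b)
        rw [zero_sub, pc1_brK_zero, zero_sub] at h5
        rw [h5]
        abel
    rw [sub_eq_zero.1 h4]
    show ∑ i, algebraMap ℂ K (Q.D.repr x i) * algebraMap ℂ K (lam (Q.D i)) = _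
    conv_rhs => rw [← Q.D.sum_repr x]
    rw [map_sum, map_sum]
    refine Finset.sum_congr rfl fun i _ => ?_
    rw [map_smul, smul_eq_mul, map_mul]

/-- [MTF-PF4] PROOF. `slice_dual`, `hP.AW` (`z i = aeval Q.c (p i)`), `z₀ := spt Q p s₀`, `spt_br`; the last property: evaluate `∑ ∑ kap a b • (repr v a) * p b` with `slice_ev`, `killing_repr`. -/
theorem slice_dual_pt (hT : TQ Q) (hP : PQ Q P) (lam : Module.Dual ℂ G.Lie) {s₀ : G.Lie} (hs : G.br P.f (s₀ - P.e) = 0) :
    ∃ z : G.Lie, G.br s₀ z = 0 ∧ ∀ v : G.Lie, G.br P.f v = 0 → G.killing v z = lam v := by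
  obtain ⟨z, hzA, hzw, hz0, hzv⟩ := slice_dual hT hP lam
  choose p hp using fun i => hP.AW (z i) (hzA i) (fun w => hzw w i)
  have hpz : (fun i => MvPolynomial.aeval Q.c (p i)) = z := funext hp
  refine ⟨spt Q p s₀, ?_, ?_⟩
  · have h1 := spt_br hP (p := p) (q := fun _ => 0) (by
      rw [hpz, hz0]
      funext i
      rw [map_zero]
      rfl) hs
    rw [h1]
    unfold spt
    exact Finset.sum_eq_zero fun i _ => by rw [map_zero, zero_smul]
  · intro v hv
    have h0 : v = spt Q (fun i => MvPolynomial.C (Q.D.repr v i)) s₀ := by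
      unfold spt
      conv_lhs => rw [← Q.D.sum_repr v]
      refine Finset.sum_congr rfl fun i _ => ?_
      rw [MvPolynomial.eval_C]
    have h1 := spt_kap hP (p := fun i => MvPolynomial.C (Q.D.repr v i)) (q := p)
      (t := MvPolynomial.C (lam v)) (by
        rw [hpz, MvPolynomial.aeval_C, ← hzv v hv]
        congr 1
        funext i
        rw [MvPolynomial.aeval_C]
        rfl) hs
    rw [← h0, MvPolynomial.eval_C] at h1
    exact h1

end

end Pool.Agent.MTF
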