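import Pool.Agent.MTF.PD6

/-!
# MTF, part P : the rings `A_{g;L}` as types with fast instances

`RA hT g ε` is the ring `AG hT g ε`; `rv : RA →ₐ RR` the inclusion, `ra` the constructor, `raE : RA ≃ₐ AG`.
`brR` the bracket, `re` relabelling, `actR` the action, `muR` the moment maps.
-/

set_option linter.unusedSectionVars false

namespace Pool.Agent.MTF

open AffGrp TensorProduct

section
variable {G : AffGrp} {K W X : Type} [Field K] [Algebra ℂ K] [Group W] [Fintype W]
  [MulSemiringAction W K] [SMulCommClass W ℂ K] [AddCommGroup X] [DistribMulAction W X]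
variable {Q : TQD G K W X}
variable {P : PD Q}
variable {L L' : Type} [Fintype L] [DecidableEq L] [Fintype L'] [DecidableEq L']

/-- the ring `A_{g;L}` -/
def RA (hT : TQ Q) (g : ℕ) (ε : L → Bool) : Type := AG hT g ε

noncomputable instance instRA (hT : TQ Q) (g : ℕ) (ε : L → Bool) : CommRing (RA hT g ε) :=
  instRR (AG hT g ε)

noncomputable instance instRAalg (hT : TQ Q) (g : ℕ) (ε : L → Bool) : Algebra ℂ (RA hT g ε) :=
  (inferInstance : Algebra ℂ (AG hT g ε))

variable (hT : TQ Q) (g : ℕ) (ε : L → Bool)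

/-- the inclusion into the ring of all families -/
noncomputable def rv : RA hT g ε →ₐ[ℂ] RR G K X L where
  toFun F := Subtype.val F
  map_one' := rfl
  map_mul' _ _ := rfl
  map_zero' := rfl
  map_add' _ _ := rfl
  commutes' _ := rfl

theorem rv_inj : Function.Injective (rv hT g ε) := Subtype.val_injective

theorem rv_mem (a : RA hT g ε) : rv hT g ε a ∈ AG hT g ε := Subtype.property a

/-- the constructor -/
def ra (F : RR G K X L) (h : F ∈ AG hT g ε) : RA hT g ε := ⟨F, h⟩

theorem rv_ra (F : RR G K X L) (h : F ∈ AG hT g ε) : rv hT g ε (ra hT g ε F h) = F := rfl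

/-- `RA` and `AG` -/
noncomputable def raE : RA hT g ε ≃ₐ[ℂ] AG hT g ε where
  toFun F := ⟨rv hT g ε F, rv_mem hT g ε F⟩
  invFun F := ra hT g ε F.1 F.2
  left_inv _ := rfl
  right_inv _ := rfl
  map_mul' _ _ := rfl
  map_add' _ _ := rfl
  commutes' _ := rfl

theorem raE_val (a : RA hT g ε) : (raE hT g ε a).1 = rv hT g ε a := rfl

variable {g ε}

/-- the bracket -/
noncomputable def brR (P : PD Q) (h : Closed hT P g ε) :
    RA hT g ε →ₗ[ℂ] RA hT g ε →ₗ[ℂ] RA hT g ε :=
  LinearMap.mk₂ ℂ (fun F F' => ra hT g ε (P.br ε (rv hT g ε F) (rv hT g ε F'))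
      (h _ _ (rv_mem hT g ε F) (rv_mem hT g ε F')))
    (fun F F' H => rv_inj hT g ε (by
      rw [rv_ra, map_add, map_add, rv_ra, rv_ra]
      exact congrArg (fun u => u (rv hT g ε H)) (map_add (brL P ε) (rv hT g ε F) (rv hT g ε F'))))
    (fun c F F' => rv_inj hT g ε (by
      rw [rv_ra, map_smul, map_smul, rv_ra]
      exact congrArg (fun u => u (rv hT g ε F')) (map_smul (brL P ε) c (rv hT g ε F))))
    (fun F F' H => rv_inj hT g ε (by
      rw [rv_ra, map_add, map_add, rv_ra, rv_ra]
      exact map_add (brL P ε (rv hT g ε F)) (rv hT g ε F') (rv hT g ε H)))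
    (fun c F F' => rv_inj hT g ε (by
      rw [rv_ra, map_smul, map_smul, rv_ra]
      exact map_smul (brL P ε (rv hT g ε F)) c (rv hT g ε F')))

theorem rv_brR (h : Closed hT P g ε) (a b : RA hT g ε) :
    rv hT g ε (brR hT P h a b) = P.br ε (rv hT g ε a) (rv hT g ε b) := rfl

theorem raE_brR (h : Closed hT P g ε) (a b : RA hT g ε) :
    raE hT g ε (brR hT P h a b) = brA hT P h (raE hT g ε a) (raE hT g ε b) := rfl

/-- the action of `G^L` -/
noncomputable def actR (x : L → G.X) : RA hT g ε ≃ₐ[ℂ] RA hT g ε :=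
  AlgEquiv.ofAlgHom
    { toFun := fun F => ra hT g ε (gact x (rv hT g ε F)) (gact_mem hT x (rv_mem hT g ε F))
      map_one' := rv_inj hT g ε (by rw [rv_ra, map_one, map_one])
      map_mul' := fun F F' => rv_inj hT g ε (by rw [rv_ra, map_mul, map_mul, map_mul, rv_ra, rv_ra])
      map_zero' := rv_inj hT g ε (by rw [rv_ra, map_zero, map_zero])
      map_add' := fun F F' => rv_inj hT g ε (by rw [rv_ra, map_add, map_add, map_add, rv_ra, rv_ra])
      commutes' := fun c => rv_inj hT g ε (by
        rw [rv_ra, AlgHom.commutes]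
        exact ((gact x).restrictScalars ℂ).commutes c) }
    { toFun := fun F => ra hT g ε (gact x⁻¹ (rv hT g ε F)) (gact_mem hT x⁻¹ (rv_mem hT g ε F))
      map_one' := rv_inj hT g ε (by rw [rv_ra, map_one, map_one])
      map_mul' := fun F F' => rv_inj hT g ε (by rw [rv_ra, map_mul, map_mul, map_mul, rv_ra, rv_ra])
      map_zero' := rv_inj hT g ε (by rw [rv_ra, map_zero, map_zero])
      map_add' := fun F F' => rv_inj hT g ε (by rw [rv_ra, map_add, map_add, map_add, rv_ra, rv_ra])
      commutes' := fun c => rv_inj hT g ε (by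
        rw [rv_ra, AlgHom.commutes]
        exact ((gact x⁻¹).restrictScalars ℂ).commutes c) }
    (by
      apply AlgHom.ext
      intro F
      apply rv_inj hT g ε
      show gact x (gact x⁻¹ (rv hT g ε F)) = rv hT g ε F
      rw [← gact_mul, mul_inv_cancel, gact_one])
    (by
      apply AlgHom.ext
      intro F
      apply rv_inj hT g ε
      show gact x⁻¹ (gact x (rv hT g ε F)) = rv hT g ε F
      rw [← gact_mul, inv_mul_cancel, gact_one])

theorem rv_actR (x : L → G.X) (F : RA hT g ε) : rv hT g ε (actR hT x F) = gact x (rv hT g ε F) := rfl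

theorem actR_mul (x y : L → G.X) (F : RA hT g ε) : actR hT (x * y) F = actR hT x (actR hT y F) :=
  rv_inj hT g ε (gact_mul x y (rv hT g ε F))

theorem actR_one (F : RA hT g ε) : actR hT (1 : L → G.X) F = F :=
  rv_inj hT g ε (gact_one (rv hT g ε F))

theorem actR_brR (h : Closed hT P g ε) (x : L → G.X) (a b : RA hT g ε) :
    actR hT x (brR hT P h a b) = brR hT P h (actR hT x a) (actR hT x b) :=
  rv_inj hT g ε (br_gact x ε (rv hT g ε a) (rv hT g ε b)).symm

variable (g ε) in
/-- the moment map of the leg `l` -/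
noncomputable def muR (l : L) : G.Lie →ₗ[ℂ] RA hT g ε where
  toFun D := ra hT g ε (muF Q l D) (muF_mem hT g ε l D)
  map_add' D D' := rv_inj hT g ε (map_add (muF Q l) D D')
  map_smul' c D := rv_inj hT g ε (map_smul (muF Q l) c D)

theorem rv_muR (l : L) (D : G.Lie) : rv hT g ε (muR hT g ε l D) = muF Q l D := rfl

variable {ε' : L' → Bool}

theorem fm_pb_symm (e : L ≃ L') (F : RR G K X L) : fm X (pb K e.symm) (fm X (pb K e) F) = F := by
  apply RR_ext
  intro m k
  rw [coeff_fm, coeff_fm, pb_apply, pb_apply]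
  exact congrArg (F.coeff m).1 (funext fun l => by simp : ((k ∘ e.symm) ∘ e : L → G.X) = k)

theorem fm_pb_symm' (e : L ≃ L') (F : RR G K X L') : fm X (pb K e) (fm X (pb K e.symm) F) = F := by
  apply RR_ext
  intro m k
  rw [coeff_fm, coeff_fm, pb_apply, pb_apply]
  exact congrArg (F.coeff m).1 (funext fun l => by simp : ((k ∘ e) ∘ e.symm : L' → G.X) = k)

variable (g) in
/-- relabelling of the legs -/
noncomputable def re (e : L ≃ L') (he : ∀ l, ε' (e l) = ε l) : RA hT g ε ≃ₐ[ℂ] RA hT g ε' where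
  toFun F := ra hT g ε' (fm X (pb K e) (rv hT g ε F)) ((mem_AG_re hT e he).2 (rv_mem hT g ε F))
  invFun F := ra hT g ε (fm X (pb K e.symm) (rv hT g ε' F))
    ((mem_AG_re hT e.symm (fun l' => by rw [← he, Equiv.apply_symm_apply])).2 (rv_mem hT g ε' F))
  left_inv F := rv_inj hT g ε (fm_pb_symm e (rv hT g ε F))
  right_inv F := rv_inj hT g ε' (fm_pb_symm' e (rv hT g ε' F))
  map_mul' F F' := rv_inj hT g ε' (map_mul (fm X (pb K e)) (rv hT g ε F) (rv hT g ε F'))
  map_add' F F' := rv_inj hT g ε' (map_add (fm X (pb K e)) (rv hT g ε F) (rv hT g ε F'))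
  commutes' c := rv_inj hT g ε' (((fm X (pb K (G := G) e)).restrictScalars ℂ).commutes c)

theorem rv_re (e : L ≃ L') (he : ∀ l, ε' (e l) = ε l) (F : RA hT g ε) :
    rv hT g ε' (re hT g e he F) = fm X (pb K e) (rv hT g ε F) := rfl

theorem re_brR (e : L ≃ L') (he : ∀ l, ε' (e l) = ε l) (h : Closed hT P g ε) (h' : Closed hT P g ε')
    (a b : RA hT g ε) : re hT g e he (brR hT P h a b) = brR hT P h' (re hT g e he a) (re hT g e he b) :=
  rv_inj hT g ε' (br_re e he (rv hT g ε a) (rv hT g ε b)).symm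

theorem re_actR (e : L ≃ L') (he : ∀ l, ε' (e l) = ε l) (x : L' → G.X) (a : RA hT g ε) :
    re hT g e he (actR hT (x ∘ e) a) = actR hT x (re hT g e he a) := by
  apply rv_inj hT g ε'
  show fm X (pb K e) (gact (x ∘ e) (rv hT g ε a)) = gact x (fm X (pb K e) (rv hT g ε a))
  apply RR_ext
  intro m k
  rw [coeff_fm, pb_apply, gact_apply, gact_apply, coeff_fm, pb_apply]
  rfl

theorem re_muR (e : L ≃ L') (he : ∀ l, ε' (e l) = ε l) (l : L) (D : G.Lie) :
    re hT g e he (muR hT g ε l D) = muR hT g ε' (e l) D := by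
  apply rv_inj hT g ε'
  show fm X (pb K e) (muF Q l D) = muF Q (e l) D
  rw [muF_apply, muF_apply]
  unfold fm
  rw [AddMonoidAlgebra.mapAlgHom_single]
  rfl

end

end Pool.Agent.MTF
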