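import Pool.Agent.MTF.PF4
import Pool.Agent.MTF.RA
import Pool.Agent.MTF.PE1
import Pool.Agent.MTF.Y9
import Pool.Agent.MTF.PF2

/-! # MTF, part P : the ring of the disc -/

set_option linter.unusedSectionVars false

namespace Pool.Agent.MTF

open AffGrp

section
variable {G : AffGrp} {K W X : Type} [Field K] [Algebra ℂ K] [Group W] [Fintype W]
  [MulSemiringAction W K] [SMulCommClass W ℂ K] [AddCommGroup X] [DistribMulAction W X]
variable {Q : TQD G K W X}
variable {P : PD Q}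

theorem pf5_abs {A B R S : Type} [CommRing A] [CommRing B] [CommRing R] [CommRing S] (T : A →+* B)
    (hT : Function.Injective T) (Φ₁ : R →+* B) (Φ₂ : R →+* S) (hs : Function.Surjective Φ₂)
    (hk : ∀ r, Φ₁ r = 0 ↔ Φ₂ r = 0) (h1 : ∀ a, ∃ r, Φ₁ r = T a) (h2 : ∀ r, ∃ a, T a = Φ₁ r) :
    ∃ Θ : A ≃+* S, ∀ a r, Φ₁ r = T a → Θ a = Φ₂ r := by
  choose ρ hρ using h1
  have key : ∀ r r', Φ₁ r = Φ₁ r' ↔ Φ₂ r = Φ₂ r' := by
    intro r r'
    have h := hk (r - r')
    rw [map_sub, map_sub, sub_eq_zero, sub_eq_zero] at h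
    exact h
  let f : A →+* S :=
    { toFun := fun a => Φ₂ (ρ a)
      map_one' := by
        rw [← map_one Φ₂]
        exact (key _ _).1 (by rw [hρ, map_one, map_one])
      map_mul' := fun a b => by
        rw [← map_mul Φ₂]
        exact (key _ _).1 (by rw [hρ, map_mul, map_mul, hρ, hρ])
      map_zero' := by
        rw [← map_zero Φ₂]
        exact (key _ _).1 (by rw [hρ, map_zero, map_zero])
      map_add' := fun a b => by
        rw [← map_add Φ₂]
        exact (key _ _).1 (by rw [hρ, map_add, map_add, hρ, hρ]) }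
  have hf : ∀ a r, Φ₁ r = T a → f a = Φ₂ r := by
    intro a r h
    show Φ₂ (ρ a) = Φ₂ r
    exact (key _ _).1 (by rw [hρ, h])
  have hb : Function.Bijective f := by
    constructor
    · intro a b h
      have h3 : Φ₂ (ρ a) = Φ₂ (ρ b) := h
      rw [← key, hρ, hρ] at h3
      exact hT h3
    · intro s
      obtain ⟨r, rfl⟩ := hs s
      obtain ⟨a, ha⟩ := h2 r
      exact ⟨a, hf a r ha.symm⟩
  exact ⟨RingEquiv.ofBijective f hb, hf⟩

theorem pf5_lin {Z K : Type} [Field K] [Algebra ℂ K] {n : ℕ} (c : Fin n → K) (f : Fin n → Z → ℂ) :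
    ∃ (m : ℕ) (d : Fin m → K) (b : Fin m → Z → ℂ), (∀ j, b j ∈ Submodule.span ℂ (Set.range f)) ∧
      LinearIndependent ℂ b ∧ ∀ x, ∑ i, c i * algebraMap ℂ K (f i x) = ∑ j, b j x • d j := by
  let V0 : Submodule ℂ (Z → ℂ) := Submodule.span ℂ (Set.range f)
  have hfin : Module.Finite ℂ V0 := FiniteDimensional.span_of_finite ℂ (Set.finite_range f)
  let b := Module.finBasis ℂ V0
  have hf0 : ∀ i, f i ∈ V0 := fun i => Submodule.subset_span ⟨i, rfl⟩
  refine ⟨Module.finrank ℂ V0, fun j => ∑ i, b.repr ⟨f i, hf0 i⟩ j • c i, fun j => (b j).1,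
    fun j => (b j).2, b.linearIndependent.map' V0.subtype (Submodule.ker_subtype V0), fun x => ?_⟩
  have hfx : ∀ i, f i x = ∑ j, b.repr ⟨f i, hf0 i⟩ j * (b j).1 x := by
    intro i
    have h1 := b.sum_repr ⟨f i, hf0 i⟩
    have h2 := congrArg V0.subtype h1
    rw [map_sum] at h2
    have h3 := congrFun h2 x
    rw [Finset.sum_apply] at h3
    exact h3.symm
  have h1 : ∀ j, (b j).1 x • ∑ i, b.repr ⟨f i, hf0 i⟩ j • c i =
      ∑ i, c i * algebraMap ℂ K (b.repr ⟨f i, hf0 i⟩ j * (b j).1 x) := by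
    intro j
    rw [Finset.smul_sum]
    refine Finset.sum_congr rfl fun i _ => ?_
    rw [smul_smul, Algebra.smul_def, mul_comm, mul_comm ((b j).1 x)]
  rw [Finset.sum_congr rfl fun j _ => h1 j, Finset.sum_comm]
  refine Finset.sum_congr rfl fun i _ => ?_
  rw [hfx, map_sum, Finset.mul_sum]

theorem pf5_lin2 {Z K : Type} [Field K] [Algebra ℂ K] (V : Submodule ℂ K) {m : ℕ} (d : Fin m → K)
    (b : Fin m → Z → ℂ) (hli : LinearIndependent ℂ b) (h : ∀ x, ∑ j, b j x • d j ∈ V) (j : Fin m) :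
    d j ∈ V := by
  rw [← Submodule.Quotient.mk_eq_zero, ← Submodule.mkQ_apply, ← Module.forall_dual_apply_eq_zero_iff ℂ]
  intro g
  have h1 : ∑ j, g (V.mkQ (d j)) • b j = 0 := by
    funext x
    have h2 : V.mkQ (∑ j, b j x • d j) = 0 := by
      rw [Submodule.mkQ_apply, Submodule.Quotient.mk_eq_zero]
      exact h x
    have h3 := congrArg g h2
    rw [map_sum, map_sum, map_zero] at h3
    rw [Finset.sum_apply, Pi.zero_apply, ← h3]
    refine Finset.sum_congr rfl fun j _ => ?_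
    rw [map_smul, map_smul, smul_eq_mul, mul_comm]
    rfl
  exact Fintype.linearIndependent_iff.1 hli _ h1 j

variable {L : Type} [Finite L] [DecidableEq L]

/-- the pullbacks of the regular functions -/
noncomputable def pf5_i (G : AffGrp) (K : Type) [Field K] [Algebra ℂ K] (l : L) : G.O →+* (G.pow L).KO K where
  toFun f := pu K l (inc K f)
  map_one' := KO_ext fun _ => map_one (algebraMap ℂ K)
  map_mul' f g := KO_ext fun k => map_mul (algebraMap ℂ K) (f.1 (k l)) (g.1 (k l))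
  map_zero' := KO_ext fun _ => map_zero (algebraMap ℂ K)
  map_add' f g := KO_ext fun k => map_add (algebraMap ℂ K) (f.1 (k l)) (g.1 (k l))

/-- the functions on the disc -/
noncomputable def pf5_1 (Q : TQD G K W X) (l : L) : MvPolynomial (Fin Q.r) G.O →+* (G.pow L).KO K :=
  MvPolynomial.eval₂Hom (pf5_i G K l) (fun i => algebraMap K ((G.pow L).KO K) (Q.c i))

theorem pf5_1_apply (l : L) (H : MvPolynomial (Fin Q.r) G.O) (k : L → G.X) :
    (pf5_1 Q l H).1 k = MvPolynomial.eval₂ (evK K (k l)) Q.c H := by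
  induction H using MvPolynomial.induction_on with
  | C f =>
    rw [MvPolynomial.eval₂_C]
    unfold pf5_1
    rw [MvPolynomial.eval₂Hom_C]
    rfl
  | add p q hp hq => rw [map_add, KO_add, MvPolynomial.eval₂_add, hp, hq]
  | mul_X p i hp =>
    rw [map_mul, KO_mul, MvPolynomial.eval₂_mul, MvPolynomial.eval₂_X, hp]
    congr 1
    unfold pf5_1
    rw [MvPolynomial.eval₂Hom_X']
    rfl

theorem pf5_aeval (x : G.X) (H : MvPolynomial (Fin Q.r) G.O) :
    MvPolynomial.eval₂ (evK K x) Q.c H = MvPolynomial.aeval Q.c (MvPolynomial.map (evO G x) H) := by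
  rw [MvPolynomial.aeval_def, MvPolynomial.eval₂_map]
  rfl

/-- the functions on `G × S` -/
noncomputable def pf5_2 (Q : TQD G K W X) (e f : G.Lie) : MvPolynomial (Fin Q.r) G.O →+* G.slO e f :=
  MvPolynomial.eval₂Hom
    ({ toFun := fun f' => ⟨fun p => f'.1 p.1, Algebra.subset_adjoin (Or.inl ⟨f', rfl⟩)⟩
       map_one' := rfl
       map_mul' := fun _ _ => rfl
       map_zero' := rfl
       map_add' := fun _ _ => rfl } : G.O →+* G.slO e f)
    (fun i => (⟨fun p => Q.D.coord i p.2.1, Algebra.subset_adjoin (Or.inr ⟨Q.D.coord i, rfl⟩)⟩ : G.slO e f))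

theorem pf5_2_apply (e f : G.Lie) (H : MvPolynomial (Fin Q.r) G.O) (x : G.X) (s : G.Sl e f) :
    (pf5_2 Q e f H).1 (x, s) =
      MvPolynomial.eval (fun i => Q.D.repr s.1 i) (MvPolynomial.map (evO G x) H) := by
  rw [MvPolynomial.eval_map]
  induction H using MvPolynomial.induction_on with
  | C f =>
    rw [MvPolynomial.eval₂_C]
    unfold pf5_2
    rw [MvPolynomial.eval₂Hom_C]
    rfl
  | add p q hp hq =>
    rw [map_add, MvPolynomial.eval₂_add, ← hp, ← hq]
    rfl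
  | mul_X p i hp =>
    rw [map_mul, MvPolynomial.eval₂_mul, MvPolynomial.eval₂_X, ← hp]
    have h1 : pf5_2 Q e f (MvPolynomial.X i) =
        (⟨fun p => Q.D.coord i p.2.1, Algebra.subset_adjoin (Or.inr ⟨Q.D.coord i, rfl⟩)⟩ : G.slO e f) := by
      unfold pf5_2
      rw [MvPolynomial.eval₂Hom_X']
    rw [h1]
    rfl

theorem pf5_2_surj (e f : G.Lie) : Function.Surjective (pf5_2 Q e f) := by
  rintro ⟨F, hF⟩
  have h : ∃ H, (pf5_2 Q e f H).1 = F := by
    unfold slO at hF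
    induction hF using Algebra.adjoin_induction with
    | mem F hF =>
      rcases hF with ⟨f', rfl⟩ | ⟨l, rfl⟩
      · refine ⟨MvPolynomial.C f', funext fun p => ?_⟩
        obtain ⟨x, s⟩ := p
        rw [pf5_2_apply, MvPolynomial.map_C, MvPolynomial.eval_C]
        rfl
      · refine ⟨∑ i, MvPolynomial.C (algebraMap ℂ G.O (l (Q.D i))) * MvPolynomial.X i, funext fun p => ?_⟩
        obtain ⟨x, s⟩ := p
        rw [pf5_2_apply, map_sum, map_sum]
        show _ = l s.1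
        conv_rhs => rw [← Q.D.sum_repr s.1, map_sum]
        refine Finset.sum_congr rfl fun i _ => ?_
        rw [map_mul, map_mul, MvPolynomial.map_C, MvPolynomial.map_X, MvPolynomial.eval_C,
          MvPolynomial.eval_X, map_smul, smul_eq_mul, mul_comm]
        rfl
    | algebraMap c =>
      refine ⟨MvPolynomial.C (algebraMap ℂ G.O c), funext fun p => ?_⟩
      obtain ⟨x, s⟩ := p
      rw [pf5_2_apply, MvPolynomial.map_C, MvPolynomial.eval_C]
      rfl
    | add F F' _ _ ih ih' =>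
      obtain ⟨H, rfl⟩ := ih
      obtain ⟨H', rfl⟩ := ih'
      exact ⟨H + H', by rw [map_add]; rfl⟩
    | mul F F' _ _ ih ih' =>
      obtain ⟨H, rfl⟩ := ih
      obtain ⟨H', rfl⟩ := ih'
      exact ⟨H * H', by rw [map_mul]; rfl⟩
  obtain ⟨H, hH⟩ := h
  exact ⟨H, Subtype.ext hH⟩

theorem pf5_ker (hP : PQ Q P) (l : L) (H : MvPolynomial (Fin Q.r) G.O) :
    pf5_1 Q l H = 0 ↔ pf5_2 Q P.e P.f H = 0 := by
  constructor
  · intro h
    apply Subtype.ext
    funext p
    obtain ⟨x, s⟩ := p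
    rw [pf5_2_apply]
    show _ = (0 : ℂ)
    refine hP.ASl _ ?_ s.1 s.2
    rw [← pf5_aeval]
    have h1 := pf5_1_apply l H (fun _ => x)
    rw [h] at h1
    exact h1.symm
  · intro h
    apply KO_ext
    intro k
    rw [pf5_1_apply, pf5_aeval]
    show _ = (0 : K)
    refine slice_K hP _ fun s₀ hs => ?_
    have h1 := pf5_2_apply P.e P.f H (k l) ⟨s₀, hs⟩
    rw [h] at h1
    exact h1.symm

theorem pf5_RI (hT : TQ Q) (l : L) (H : MvPolynomial (Fin Q.r) G.O) : Q.RI (pf5_1 Q l H) := by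
  constructor
  · intro k
    rw [pf5_1_apply, pf5_aeval]
    have h1 : Algebra.adjoin ℂ (Set.range Q.c) ≤ Q.A :=
      Algebra.adjoin_le (Set.range_subset_iff.2 hT.c_mem)
    apply h1
    rw [← MvPolynomial.aeval_range]
    exact ⟨_, rfl⟩
  · intro w
    apply KO_ext
    intro k
    rw [wO_apply, pf5_1_apply, pf5_aeval]
    have h1 := MvPolynomial.comp_aeval_apply (f := Q.c) (MulSemiringAction.toAlgHom ℂ K w)
      (MvPolynomial.map (evO G (k l)) H)
    have h2 : (fun i => (MulSemiringAction.toAlgHom ℂ K w) (Q.c i)) = Q.c :=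
      funext fun i => hT.c_w w i
    rw [h2] at h1
    exact h1

/-- the invariant regular elements of the field -/
def pf5_V (Q : TQD G K W X) : Submodule ℂ K where
  carrier := {a | a ∈ Q.A ∧ ∀ w : W, w • a = a}
  add_mem' := by
    rintro a b ⟨ha, ha'⟩ ⟨hb, hb'⟩
    exact ⟨Q.A.add_mem ha hb, fun w => by rw [smul_add, ha', hb']⟩
  zero_mem' := ⟨Q.A.zero_mem, fun w => smul_zero w⟩
  smul_mem' := by
    rintro c a ⟨ha, ha'⟩
    exact ⟨Q.A.smul_mem ha c, fun w => by rw [smul_comm, ha']⟩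

theorem pf5_surj (hP : PQ Q P) (l : L) (hL : ∀ i, i = l) (F : (G.pow L).KO K) (h : Q.RI F) :
    ∃ H, pf5_1 Q l H = F := by
  classical
  obtain ⟨n, c, f, hF⟩ := KO_rep F
  obtain ⟨m, d, b, hb, hli, hd⟩ := pf5_lin c (fun i x => (f i).1 x)
  have hbO : ∀ j, b j ∈ (G.pow L).O := by
    intro j
    have h1 : Submodule.span ℂ (Set.range fun i x => (f i).1 x) ≤ Subalgebra.toSubmodule (G.pow L).O := by
      rw [Submodule.span_le]
      rintro _ ⟨i, rfl⟩
      exact (f i).2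
    exact h1 (hb j)
  have hdV : ∀ j, d j ∈ pf5_V Q := by
    refine pf5_lin2 (pf5_V Q) d b hli fun x => ?_
    rw [← hd]
    have h1 := hF x
    rw [← h1]
    refine ⟨h.reg x, fun w => ?_⟩
    rw [← wO_apply, h.inv]
  choose p hp using fun j => hP.AW (d j) (hdV j).1 (hdV j).2
  let b' : Fin m → G.O := fun j =>
    ⟨fun x => b j (fun _ => x), pow_mem G (H := G) (fun x _ => x) (fun _ _ hf => hf) (hbO j)⟩
  refine ⟨∑ j, MvPolynomial.C (b' j) * MvPolynomial.map (algebraMap ℂ G.O) (p j), KO_ext fun k => ?_⟩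
  rw [map_sum, KO_sum, hF]
  refine Eq.trans ?_ (hd k).symm
  refine Finset.sum_congr rfl fun j _ => ?_
  rw [pf5_1_apply, pf5_aeval, map_mul, map_mul, MvPolynomial.map_C, MvPolynomial.aeval_C,
    MvPolynomial.map_map]
  have h1 : (evO G (k l)).comp (algebraMap ℂ G.O) = RingHom.id ℂ := RingHom.ext fun _ => rfl
  have h2 : (fun _ => k l : L → G.X) = k := funext fun i => by rw [hL i]
  rw [h1, MvPolynomial.map_id, hp, Algebra.smul_def]
  congr 2
  show b j (fun _ => k l) = b j k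
  rw [h2]

theorem pf5_der (D : G.Lie) (l : L) (k : L → G.X) (H : MvPolynomial (Fin Q.r) G.O) :
    (derK K (emb l D) (pf5_1 Q l H)).1 k = MvPolynomial.aeval Q.c
      (∑ μ ∈ H.support, MvPolynomial.monomial μ (D.1 (G.lt (k l) (MvPolynomial.coeff μ H)))) := by
  rw [derK_emb]
  have h1 : sl K k l (pf5_1 Q l H) = ∑ μ ∈ H.support,
      (∏ i, Q.c i ^ μ i) • inc K (MvPolynomial.coeff μ H) := by
    apply KO_ext
    intro h
    rw [sl_apply, pf5_1_apply, Function.update_self, MvPolynomial.eval₂_eq', KO_sum]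
    refine Finset.sum_congr rfl fun μ _ => ?_
    rw [KO_smul, mul_comm]
    rfl
  rw [h1, map_sum, KO_sum, map_sum]
  refine Finset.sum_congr rfl fun μ _ => ?_
  rw [map_smul, KO_smul, derK_inc, MvPolynomial.aeval_monomial, mul_comm,
    Finsupp.prod_fintype _ _ (fun i => pow_zero _)]
  rfl

theorem pf5_der2 (D : G.Lie) (x : G.X) (e f : G.Lie) (s : G.Sl e f) (H : MvPolynomial (Fin Q.r) G.O) :
    D.1 ⟨fun y => (pf5_2 Q e f H).1 (x * y, s), G.slO_mem (pf5_2 Q e f H) x s⟩ =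
      MvPolynomial.eval (fun i => Q.D.repr s.1 i)
      (∑ μ ∈ H.support, MvPolynomial.monomial μ (D.1 (G.lt x (MvPolynomial.coeff μ H)))) := by
  have h1 : (⟨fun y => (pf5_2 Q e f H).1 (x * y, s), G.slO_mem (pf5_2 Q e f H) x s⟩ : G.O) =
      ∑ μ ∈ H.support, (∏ i, Q.D.repr s.1 i ^ μ i) • G.lt x (MvPolynomial.coeff μ H) := by
    apply Subtype.ext
    funext y
    have h4 : ∀ (s : Finset (Fin Q.r →₀ ℕ)) (g : (Fin Q.r →₀ ℕ) → G.O),
        (∑ j ∈ s, g j).1 y = ∑ j ∈ s, (g j).1 y := by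
      classical
      intro s g
      induction s using Finset.induction_on with
      | empty => rw [Finset.sum_empty, Finset.sum_empty]; rfl
      | insert a s ha ih => rw [Finset.sum_insert ha, Finset.sum_insert ha, ← ih]; rfl
    rw [h4]
    show (pf5_2 Q e f H).1 (x * y, s) = _
    rw [pf5_2_apply, MvPolynomial.eval_map, MvPolynomial.eval₂_eq']
    refine Finset.sum_congr rfl fun μ _ => ?_
    rw [mul_comm]
    rfl
  rw [h1, map_sum, map_sum]
  refine Finset.sum_congr rfl fun μ _ => ?_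
  rw [map_smul, smul_eq_mul, MvPolynomial.eval_monomial, mul_comm,
    Finsupp.prod_fintype _ _ (fun i => pow_zero _)]

/-- [MTF-PF5] THE RING OF THE DISC.
PROOF. `R := MvPolynomial (Fin Q.r) G.O`.  `Φ₁ : R →ₐ[ℂ] (G.pow (PUnit ⊕ PEmpty)).KO K`, `H ↦ (k ↦ eval₂ (evK K (k (inl unit))) Q.c H)`; `Φ₂ : R →ₐ[ℂ] G.slO P.e P.f`,
`H ↦ ((x, s) ↦ eval₂ (evO G x) (fun i => Q.D.repr s.1 i) H)` (membership: `MvPolynomial.induction_on`).
`ker Φ₁ = ker Φ₂`: fix `x` and map the coefficients by `evO G x` to get `H_x ∈ MvPolynomial (Fin Q.r) ℂ`: `aeval Q.c H_x = 0` iff `H_x` vanishes on the slice (`hP.ASl`, `slice_K`).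
`Φ₂` is surjective: `Algebra.adjoin_induction` (a linear functional is `∑ i, repr s i * l (D i)`).
The range of `Φ₁` consists of the `F` with `Q.RI F`: `hT.c_mem`, `hT.c_w`; conversely `F = ∑ i, c i • inc K (f i)` with linearly independent `f i` (`KO_rep`, choose `n` minimal); there are points `x_j` with
`(f_i (x_j))` invertible, so the `c i` are complex combinations of the values of `F`: in `A` and invariant; `hP.AW`: `c i = aeval Q.c (p i)`, `H := ∑ i, C (f i) * map (algebraMap ℂ G.O) (p i)`.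
(the functions of `G.pow (PUnit ⊕ PEmpty)` are those of `G`: for `f ∈ (G.pow _).O` the function `x ↦ f (fun _ => x)` is in `G.O`, `powO`, `Algebra.adjoin_induction`.)
By `disc_fam` (`i := inl unit`), `mem_AG`, `fam_tot_inj` the map `a ↦ tot (rv a)` is an isomorphism of `RA` and this range.  So `RA ≃ R / ker ≃ slO` (`Ideal.quotientKerAlgEquivOfSurjective`), or define the map
`RA → slO` by `Function.surjInv` and check that it is bijective.
For `a` and `x` take `H` with `Φ₁ H = tot a`: `p := H_x`, `q D := ∑ over the monomials μ of H : monomial μ (D.1 (G.lt x (coeff μ H)))`; `derK_emb`, `derK K D (c • inc K f) = c • inc K (G.der D f)`. -/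
theorem disc_equiv (hT : TQ Q) (hP : PQ Q P) : ∃ Θ : RA hT 0 (sIJ PUnit PEmpty) ≃ₐ[ℂ] G.slO P.e P.f,
    ∀ (a : RA hT 0 (sIJ PUnit PEmpty)) (x : G.X), ∃ (p : MvPolynomial (Fin Q.r) ℂ) (q : G.Lie → MvPolynomial (Fin Q.r) ℂ),
      (∀ k : PUnit ⊕ PEmpty → G.X, k (Sum.inl PUnit.unit) = x →
        (tot (rv hT 0 (sIJ PUnit PEmpty) a)).1 k = MvPolynomial.aeval Q.c p ∧
        ∀ D, (derK K (emb (Sum.inl PUnit.unit) D) (tot (rv hT 0 (sIJ PUnit PEmpty) a))).1 k = MvPolynomial.aeval Q.c (q D)) ∧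
      ∀ s : G.Sl P.e P.f, (Θ a).1 (x, s) = MvPolynomial.eval (fun i => Q.D.repr s.1 i) p ∧
        ∀ D : G.Lie, D.1 ⟨fun y => (Θ a).1 (x * y, s), G.slO_mem (Θ a) x s⟩ =
          MvPolynomial.eval (fun i => Q.D.repr s.1 i) (q D) := by
  let T : RA hT 0 (sIJ PUnit PEmpty) →ₐ[ℂ] (G.pow (PUnit ⊕ PEmpty)).KO K :=
    ((totH G K X (PUnit ⊕ PEmpty)).restrictScalars ℂ).comp (rv hT 0 (sIJ PUnit PEmpty))
  have hTa : ∀ a, T a = tot (rv hT 0 (sIJ PUnit PEmpty) a) := fun a => (tot_eq _).symm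
  have hL : ∀ i : PUnit ⊕ PEmpty, i = Sum.inl PUnit.unit := by
    rintro (i | i)
    · rfl
    · exact i.elim
  have hne : (0 : ℕ) = 0 → Nonempty (PUnit ⊕ PEmpty) := fun _ => ⟨Sum.inl PUnit.unit⟩
  have hTi : Function.Injective T := by
    rw [injective_iff_map_eq_zero]
    intro a ha
    apply rv_inj
    rw [map_zero]
    rw [hTa] at ha
    exact fam_tot_inj hT (Sum.inl PUnit.unit) ((mem_AG hT hne).1 (rv_mem hT 0 _ a)) ha
  have h1 : ∀ a, ∃ r, pf5_1 Q (Sum.inl PUnit.unit : PUnit ⊕ PEmpty) r = T a := by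
    intro a
    rw [hTa]
    exact pf5_surj hP _ hL _ (fam_RI hT ((mem_AG hT hne).1 (rv_mem hT 0 _ a)))
  have h2 : ∀ r, ∃ a, T a = pf5_1 Q (Sum.inl PUnit.unit : PUnit ⊕ PEmpty) r := by
    intro r
    obtain ⟨F, hF, hF'⟩ := (disc_fam hT (ε := sIJ PUnit PEmpty) (Sum.inl PUnit.unit) hL _).1
      (pf5_RI hT (Sum.inl PUnit.unit : PUnit ⊕ PEmpty) r)
    refine ⟨ra hT 0 _ F ((mem_AG hT hne).2 hF), ?_⟩
    rw [hTa, rv_ra, hF']
  obtain ⟨Θ, hΘ⟩ := pf5_abs (A := RA hT 0 (sIJ PUnit PEmpty)) (B := (G.pow (PUnit ⊕ PEmpty)).KO K)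
    (R := MvPolynomial (Fin Q.r) G.O) (S := G.slO P.e P.f) T.toRingHom hTi
    (pf5_1 Q (Sum.inl PUnit.unit : PUnit ⊕ PEmpty))
    (pf5_2 Q P.e P.f) (pf5_2_surj P.e P.f) (pf5_ker hP _) h1 h2
  refine ⟨AlgEquiv.ofRingEquiv (f := Θ) fun c => ?_, fun a x => ?_⟩
  · have h3 := hΘ (algebraMap ℂ _ c) (MvPolynomial.C (algebraMap ℂ G.O c)) (by
      show _ = T (algebraMap ℂ _ c)
      rw [AlgHom.commutes]
      apply KO_ext
      intro k
      rw [pf5_1_apply, MvPolynomial.eval₂_C]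
      rfl)
    rw [h3]
    apply Subtype.ext
    funext p
    obtain ⟨x, s⟩ := p
    rw [pf5_2_apply, MvPolynomial.map_C, MvPolynomial.eval_C]
    rfl
  · obtain ⟨H, hH⟩ := h1 a
    have h3 : Θ a = pf5_2 Q P.e P.f H := hΘ a H hH
    refine ⟨MvPolynomial.map (evO G x) H, fun D => ∑ μ ∈ H.support, MvPolynomial.monomial μ
      (D.1 (G.lt x (MvPolynomial.coeff μ H))), fun k hk => ⟨?_, fun D => ?_⟩, fun s => ⟨?_, fun D => ?_⟩⟩
    · rw [← hTa, ← hH, pf5_1_apply, hk, pf5_aeval]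
    · rw [← hTa, ← hH, pf5_der, hk]
    · show (Θ a).1 (x, s) = _
      rw [h3, pf5_2_apply]
    · rw [← pf5_der2]
      congr 1
      apply Subtype.ext
      funext y
      show (Θ a).1 (x * y, s) = _
      rw [h3]

end

end Pool.Agent.MTF
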