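import Pool.Agent.MTF.PF4
import Pool.Agent.MTF.PE1
import Pool.Agent.MTF.PC3

/-! # MTF, part P : the bracket of functions on the disc -/

set_option linter.unusedSectionVars false

namespace Pool.Agent.MTF

open AffGrp

section
variable {G : AffGrp} {K W X : Type} [Field K] [Algebra ℂ K] [Group W] [Fintype W]
  [MulSemiringAction W K] [SMulCommClass W ℂ K] [AddCommGroup X] [DistribMulAction W X]
variable {Q : TQD G K W X}
variable {P : PD Q}
variable {L : Type} [Fintype L] [DecidableEq L]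

theorem pf6_ext {H : AffGrp} (E : H.Lie) {n : ℕ} (c : Fin n → K) (f : Fin n → H.O) {F : H.KO K}
    (hf : ∀ x, F.1 x = ∑ i, c i * algebraMap ℂ K ((f i).1 x)) :
    ext K E.1 F = ∑ i, c i * algebraMap ℂ K (E.1 (f i)) := by
  have h : F = ∑ i, c i • inc K (f i) := by
    apply KO_ext
    intro x
    rw [hf, KO_sum]
    rfl
  rw [h, map_sum]
  refine Finset.sum_congr rfl fun i _ => ?_
  rw [map_smul, smul_eq_mul, ext_inc]

theorem pf6_kapK_map {R S : Type} [CommRing R] [Algebra ℂ R] [CommRing S] [Algebra ℂ S]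
    (φ : R →ₐ[ℂ] S) (z z' : Fin Q.r → R) :
    φ (Q.kapK z z') = Q.kapK (fun i => φ (z i)) (fun i => φ (z' i)) := by
  unfold TQD.kapK
  rw [map_sum]
  refine Finset.sum_congr rfl fun a _ => ?_
  rw [map_sum]
  refine Finset.sum_congr rfl fun b _ => ?_
  rw [map_smul, map_mul]

theorem pf6_tot_wR (w : W) (F : RR G K X L) : tot (wR w F) = wO (G.pow L) w (tot F) := by
  show (((F.coeff.mapRange (wO (G.pow L) w) (map_zero _)).mapDomain (fun m => w • m)).sum fun _ a => a) =
    wO (G.pow L) w (F.coeff.sum fun _ a => a)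
  rw [Finsupp.sum_mapDomain_index (fun _ => rfl) (fun _ _ _ => rfl), Finsupp.sum_mapRange_index (fun _ => rfl)]
  exact (map_finsuppSum (wO (G.pow L) w) _ _).symm

/-- invariant elements have invariant totals -/
theorem pf6_inv {H : RR G K X L} {w : W} (h : wR w H = H) (k : L → G.X) : w • (tot H).1 k = (tot H).1 k := by
  have h1 : (wO (G.pow L) w (tot H)).1 k = (tot H).1 k := by rw [← pf6_tot_wR, h]
  rw [wO_apply] at h1
  exact h1

theorem pf6_rho (hT : TQ Q) (hP : PQ Q P) (v v' : Fin Q.r → K) :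
    ∑ a, ∑ b, P.rho a b * (Q.flat (Q.brK Q.c v) a * Q.flat (Q.brK Q.c v') b) = Q.kapK (Q.brK Q.c v') v := by
  have hk : ∀ x z : Fin Q.r → K, Q.brK Q.c z = 0 →
      ∑ a, Q.flat (Q.brK Q.c x) a * z a = 0 := by
    intro x z hz
    rw [← kapK_flat, kapK_inv, hz]
    unfold TQD.kapK
    simp
  have h1 := hP.rho_im (Q.flat (Q.brK Q.c v)) (hk v)
  obtain ⟨u, hu⟩ : ∃ u : Fin Q.r → K, u = fun b => ∑ a, P.rho a b * Q.flat (Q.brK Q.c v) a :=
    ⟨_, rfl⟩
  rw [← hu] at h1
  obtain ⟨w, hw⟩ : ∃ w : Fin Q.r → K, w = u - v := ⟨_, rfl⟩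
  have huw : u = v + w := by rw [hw, add_sub_cancel]
  have h2 : Q.brK Q.c w = 0 := by
    apply flat_injective hT.kill
    rw [huw, brK_add, flat_add] at h1
    exact left_eq_add.1 h1.symm
  have h4 : ∑ b, Q.flat (Q.brK Q.c v') b * u b = ∑ b, Q.flat (Q.brK Q.c v') b * v b := by
    rw [huw]
    simp only [Pi.add_apply, mul_add, Finset.sum_add_distrib]
    rw [hk v' w h2, add_zero]
  rw [kapK_flat, ← h4, Finset.sum_comm]
  refine Finset.sum_congr rfl fun b _ => ?_
  rw [hu, Finset.mul_sum]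
  exact Finset.sum_congr rfl fun a _ => by ring

/-- the value of the bracket -/
theorem pf6_br {ε : L → Bool} {F F' : RR G K X L} (k : L → G.X) : (tot (P.br ε F F')).1 k =
      (∑ j, (tot (P.DN L j F)).1 k * P.dd j ((tot F').1 k) -
        ∑ j, (tot (P.DN L j F')).1 k * P.dd j ((tot F).1 k)) -
      ∑ l, sgn (ε l) • ∑ a, ∑ b, P.rho a b *
        ((tot (P.AL ε l a F)).1 k * (tot (P.AL ε l b F')).1 k) := by
  rw [← pc3_ev_apply]
  unfold PD.br
  rw [map_sub, map_sum, map_sum, ← Finset.sum_sub_distrib]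
  congr 1
  · refine Finset.sum_congr rfl fun j _ => ?_
    rw [map_sub, map_mul, map_mul, pc3_ev_apply, pc3_ev_apply, pc3_ev_apply, pc3_ev_apply,
      tot_DX, tot_DX]
  · refine Finset.sum_congr rfl fun l _ => ?_
    rw [map_zsmul, map_sum]
    congr 1
    refine Finset.sum_congr rfl fun a _ => ?_
    rw [map_sum]
    refine Finset.sum_congr rfl fun b _ => ?_
    rw [map_smul, map_mul, smul_eq_mul, pc3_ev_apply, pc3_ev_apply]

/-- `A = α - ε flat N` -/
theorem pf6_AL {ε : L → Bool} (l : L) (a : Fin Q.r) (F : RR G K X L) (k : L → G.X) :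
    (tot (P.AL ε l a F)).1 k = (derK K (emb l (Q.D a)) (tot F)).1 k -
      sgn (ε l) • Q.flat (fun i => ∑ j, (tot (P.DN L j F)).1 k * P.dd j (Q.c i)) a := by
  have h3 : Q.flat (fun i => ∑ j, (tot (P.DN L j F)).1 k * P.dd j (Q.c i)) a =
      ∑ j, P.sig j a * (tot (P.DN L j F)).1 k := by
    unfold PD.sig TQD.flat
    simp only [Finset.smul_sum, Finset.sum_mul]
    rw [Finset.sum_comm]
    refine Finset.sum_congr rfl fun j _ => Finset.sum_congr rfl fun b _ => ?_
    rw [smul_mul_assoc, mul_comm]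
  rw [h3, ← tot_DL, ← pc3_ev_apply]
  unfold PD.AL
  rw [map_sub, map_zsmul, map_sum, pc3_ev_apply]
  congr 2
  refine Finset.sum_congr rfl fun j _ => ?_
  rw [map_smul, smul_eq_mul, pc3_ev_apply]

theorem pf6_sum_flat (s : Finset W) (z : W → Fin Q.r → K) (a : Fin Q.r) :
    Q.flat (Q.brK Q.c (∑ w ∈ s, z w)) a = ∑ w ∈ s, Q.flat (Q.brK Q.c (z w)) a := by
  rw [← pc2_br_apply, map_sum, ← pc2_flat_apply, map_sum, Finset.sum_apply]
  rfl

theorem pf6_w_flat (hT : TQ Q) (w : W) (z : Fin Q.r → K) (a : Fin Q.r) :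
    w • Q.flat (Q.brK Q.c z) a = Q.flat (Q.brK Q.c (fun i => w • z i)) a := by
  unfold TQD.flat
  rw [Finset.smul_sum]
  refine Finset.sum_congr rfl fun b _ => ?_
  rw [smul_comm w]
  congr 1
  have h := pc1_brK_map (Q := Q) (MulSemiringAction.toAlgHom ℂ K w) Q.c z b
  have h2 : (fun i => (MulSemiringAction.toAlgHom ℂ K w) (Q.c i)) = Q.c := funext fun i => hT.c_w w i
  rw [h2] at h
  exact h

theorem pf6_single (w : W) (a : K) (ha : w • a = a) :
    wR w (AddMonoidAlgebra.single (0 : X) (algebraMap K ((G.pow L).KO K) a) : RR G K X L) =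
      AddMonoidAlgebra.single (0 : X) (algebraMap K ((G.pow L).KO K) a) := by
  rw [pb6_wR_single, smul_zero]
  congr 1
  apply KO_ext
  intro x
  rw [wO_apply]
  exact ha

theorem pf6_tot_single (a : K) (k : L → G.X) :
    (tot (AddMonoidAlgebra.single (0 : X) (algebraMap K ((G.pow L).KO K) a) : RR G K X L)).1 k = a := by
  unfold tot
  rw [AddMonoidAlgebra.coeff_single, Finsupp.sum_single_index rfl]
  rfl

/-- [MTF-PF6] PROOF. `hF.inv`, reindexing the sum. -/
theorem tot_inv {ε : L → Bool} {F : RR G K X L} {g : ℕ} (hF : Q.Fam g ε F) (w : W) (k : L → G.X) :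
    w • (tot F).1 k = (tot F).1 k := by
  exact pf6_inv ((wR_eq_iff F).2 hF.inv w) k

/-- [MTF-PF6] The ingredients of the bracket, as polynomials in the coordinates of `s`.
PROOF. `key_reg` with `l := inl unit`: the vector `N_i := ∑_j n_j dd_j (c i)` is in `A`; `v` in `A` with `A_a = flat (brK c v) a`.  INVARIANCE: `w • N_i = N_i` and `w • A_a = A_a`: `w (n_j)` and `dd_j` transform by
`hP.dX_w` (as in `DNDX_wR`, `AL_wR` of PB6 for the invariant family `F`, `wR_eq_iff`; `tot_inv` for `wR`-invariant elements; concretely `∑_j DN j F * DX j (single 0 (constant c i))` and `AL ε l a F` are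
`wR`-invariant elements of `RR`, and `w • (tot H).1 k = (tot H).1 k` for `wR`-invariant `H`).  Replace `v` by `(Fintype.card W)⁻¹ ∑_w w • v` (`c` and `A_a` are invariant, `flat`, `brK` have complex coefficients).
`hP.AW` for the `N_i` and the `v_i`.  `brK (co f) N = 0`: apply `dd j` to `hP.sf` and sum. -/
theorem disc_loc (hT : TQ Q) (hP : PQ Q P) [Nonempty L] {ε : L → Bool} {F : RR G K X L}
    (hF : Q.Fam 0 ε F) (l : L) (k : L → G.X) : ∃ ν η : Fin Q.r → MvPolynomial (Fin Q.r) ℂ,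
      (∀ i, MvPolynomial.aeval Q.c (ν i) = ∑ j, (tot (P.DN L j F)).1 k * P.dd j (Q.c i)) ∧
      (Q.brK (Q.co P.f) (fun i => MvPolynomial.aeval Q.c (ν i)) = 0) ∧
      ∀ a, (tot (P.AL ε l a F)).1 k = Q.flat (Q.brK Q.c fun i => MvPolynomial.aeval Q.c (η i)) a := by
  obtain ⟨hN, v, hv, hA⟩ := key_reg hT hP hF.wt (hF.reg0 rfl) l k
  have hFw := (wR_eq_iff F).2 hF.inv
  have hNw : ∀ (w : W) i, w • (∑ j, (tot (P.DN L j F)).1 k * P.dd j (Q.c i)) =
      ∑ j, (tot (P.DN L j F)).1 k * P.dd j (Q.c i) := by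
    intro w i
    have h1 : (∑ j, (tot (P.DN L j F)).1 k * P.dd j (Q.c i)) = (tot (∑ j, P.DN L j F * P.DX L j
        (AddMonoidAlgebra.single (0 : X) (algebraMap K ((G.pow L).KO K) (Q.c i)) : RR G K X L))).1 k := by
      rw [← pc3_ev_apply, map_sum]
      refine Finset.sum_congr rfl fun j _ => ?_
      rw [map_mul, pc3_ev_apply, pc3_ev_apply, tot_DX, pf6_tot_single]
    rw [h1]
    refine pf6_inv ?_ k
    rw [← DNDX_wR hP, hFw, pf6_single w _ (hT.c_w w i)]
  have hAw : ∀ (w : W) a, w • (tot (P.AL ε l a F)).1 k = (tot (P.AL ε l a F)).1 k := by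
    intro w a
    refine pf6_inv ?_ k
    rw [← AL_wR hT hP, hFw]
  have hc0 : ((Fintype.card W : ℂ)) ≠ 0 := by exact_mod_cast Fintype.card_ne_zero
  have hN' : ∀ i, ∃ p : MvPolynomial (Fin Q.r) ℂ,
      MvPolynomial.aeval Q.c p = ∑ j, (tot (P.DN L j F)).1 k * P.dd j (Q.c i) := fun i =>
    hP.AW _ (hN i) fun w => hNw w i
  have hv' : ∀ i, ∃ p : MvPolynomial (Fin Q.r) ℂ,
      MvPolynomial.aeval Q.c p = (Fintype.card W : ℂ)⁻¹ • ∑ w : W, w • v i := by
    intro i
    refine hP.AW _ (Q.A.smul_mem (Q.A.sum_mem fun w _ => hT.wA w _ (hv i)) _) fun w => ?_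
    rw [smul_comm w, Finset.smul_sum]
    congr 1
    refine Fintype.sum_equiv (Equiv.mulLeft w) _ _ fun w' => ?_
    rw [smul_smul]
    rfl
  choose ν hν using hN'
  choose η hη using hv'
  refine ⟨ν, η, hν, ?_, fun a => ?_⟩
  · have h1 : (fun i => MvPolynomial.aeval Q.c (ν i)) =
        ∑ j, (tot (P.DN L j F)).1 k • fun i => P.dd j (Q.c i) := by
      funext i
      rw [hν, Finset.sum_apply]
      rfl
    rw [h1, ← pc2_br_apply, map_sum]
    refine Finset.sum_eq_zero fun j _ => ?_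
    rw [map_smul, pc2_br_apply, pc2_f hP, smul_zero]
  · have h1 : (fun i => MvPolynomial.aeval Q.c (η i)) =
        (algebraMap ℂ K (Fintype.card W : ℂ)⁻¹) • ∑ w : W, fun i => w • v i := by
      funext i
      rw [hη, Pi.smul_apply, Finset.sum_apply, smul_eq_mul, Algebra.smul_def]
    rw [h1, brK_smul, flat_smul, Pi.smul_apply, pf6_sum_flat]
    have h2 : ∀ w : W, Q.flat (Q.brK Q.c (fun i => w • v i)) a = (tot (P.AL ε l a F)).1 k := by
      intro w
      rw [← pf6_w_flat hT, ← hA a, hAw]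
    rw [Finset.sum_congr rfl fun w _ => h2 w, Finset.sum_const, Finset.card_univ, smul_eq_mul,
      ← Algebra.smul_def, ← Nat.cast_smul_eq_nsmul ℂ, smul_smul, inv_mul_cancel₀ hc0, one_smul]

/-- [MTF-PF6] PROOF. a derivation of `K` and a polynomial (`Derivation.leibniz`, `MvPolynomial.induction_on`; `∑_j n_j dd_j` is a derivation). -/
theorem dN_aeval (n : Fin P.n → K) (p : MvPolynomial (Fin Q.r) ℂ) :
    ∑ j, n j * P.dd j (MvPolynomial.aeval Q.c p) =
      ∑ i, MvPolynomial.aeval Q.c (MvPolynomial.pderiv i p) * ∑ j, n j * P.dd j (Q.c i) := by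
  classical
  induction p using MvPolynomial.induction_on with
  | C a =>
    have h2 : ∀ j, n j * P.dd j (MvPolynomial.aeval Q.c (MvPolynomial.C a)) = 0 := fun j => by
      rw [MvPolynomial.aeval_C, (P.dd j).map_algebraMap, mul_zero]
    have h3 : ∀ i, MvPolynomial.aeval Q.c (MvPolynomial.pderiv i (MvPolynomial.C a)) *
        ∑ j, n j * P.dd j (Q.c i) = 0 := fun i => by
      rw [MvPolynomial.pderiv_C, map_zero, zero_mul]
    rw [Finset.sum_congr rfl fun j _ => h2 j, Finset.sum_congr rfl fun i _ => h3 i, Finset.sum_const_zero,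
      Finset.sum_const_zero]
  | add p q hp hq =>
    simp only [map_add, mul_add, add_mul, Finset.sum_add_distrib, hp, hq]
  | mul_X p i hp =>
    have h2 : ∀ j, n j * P.dd j (MvPolynomial.aeval Q.c (p * MvPolynomial.X i)) =
        MvPolynomial.aeval Q.c p * (n j * P.dd j (Q.c i)) +
        Q.c i * (n j * P.dd j (MvPolynomial.aeval Q.c p)) := fun j => by
      rw [map_mul, MvPolynomial.aeval_X, Derivation.leibniz, smul_eq_mul, smul_eq_mul]
      ring
    have h3 : ∀ i', MvPolynomial.aeval Q.c (MvPolynomial.pderiv i' (p * MvPolynomial.X i)) *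
        ∑ j, n j * P.dd j (Q.c i') =
        (if i' = i then MvPolynomial.aeval Q.c p * ∑ j, n j * P.dd j (Q.c i) else 0) +
        Q.c i * (MvPolynomial.aeval Q.c (MvPolynomial.pderiv i' p) * ∑ j, n j * P.dd j (Q.c i')) := fun i' => by
      rw [Derivation.leibniz, smul_eq_mul, smul_eq_mul, map_add, map_mul, map_mul, MvPolynomial.aeval_X, add_mul]
      congr 1
      · by_cases h : i' = i
        · subst h
          rw [if_pos rfl, MvPolynomial.pderiv_X_self, map_one, mul_one]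
        · rw [if_neg h, MvPolynomial.pderiv_X_of_ne (Ne.symm h), map_zero, mul_zero, zero_mul]
      · ring
    rw [Finset.sum_congr rfl fun j _ => h2 j, Finset.sum_congr rfl fun i' _ => h3 i', Finset.sum_add_distrib,
      Finset.sum_add_distrib, ← Finset.mul_sum, ← Finset.mul_sum, ← Finset.mul_sum, hp,
      Finset.sum_ite_eq' Finset.univ i, if_pos (Finset.mem_univ _)]

/-- [MTF-PF6] the derivative along the group at a point of the slice.
PROOF. `tot (AL ε l a F) = tot (DL l a F) - ε_l ∑_j sig j a * tot (DN j F)` (`ε_l = 1`), `tot_DL`, `PD.sig`: `∑_j sig j a n_j = flat N a`; so `aeval Q.c (q (D a)) = flat N a + flat (brK c (aeval ∘ η)) a`; `slice_ev`,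
`killing_repr`, `br_repr`. -/
theorem disc_q (hT : TQ Q) (hP : PQ Q P) {ε : L → Bool} {l : L} (hl : ε l = true) {F : RR G K X L} {k : L → G.X}
    {ν η : Fin Q.r → MvPolynomial (Fin Q.r) ℂ}
    (h1 : ∀ i, MvPolynomial.aeval Q.c (ν i) = ∑ j, (tot (P.DN L j F)).1 k * P.dd j (Q.c i))
    (h2 : ∀ a, (tot (P.AL ε l a F)).1 k = Q.flat (Q.brK Q.c fun i => MvPolynomial.aeval Q.c (η i)) a)
    {D : G.Lie} {q : MvPolynomial (Fin Q.r) ℂ} (hq : (derK K (emb l D) (tot F)).1 k = MvPolynomial.aeval Q.c q)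
    {s₀ : G.Lie} (hs : G.br P.f (s₀ - P.e) = 0) :
    MvPolynomial.eval (fun i => Q.D.repr s₀ i) q =
      G.killing (spt Q ν s₀) D + G.killing (G.br s₀ (spt Q η s₀)) D := by
  have hD : (derK K (emb l D) (tot F)).1 k = ∑ a, algebraMap ℂ K (Q.D.repr D a) *
      (derK K (emb l (Q.D a)) (tot F)).1 k := by
    have h3 : ∀ E : G.Lie, (derK K (emb l E) (tot F)).1 k = (derK K E (sl K k l (tot F))).1 (k l) := fun E =>
      derK_emb E l (tot F) k
    simp only [h3]
    simp only [derK_apply]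
    obtain ⟨n, c, f, hf⟩ := KO_rep (ltK (k l) (sl K k l (tot F)))
    have h4 : ∀ E : G.Lie, ext K E.1 (ltK (k l) (sl K k l (tot F))) = ∑ i, c i * algebraMap ℂ K (E.1 (f i)) := by
      intro E
      exact pf6_ext E c f hf
    simp only [h4, Finset.mul_sum]
    rw [Finset.sum_comm]
    refine Finset.sum_congr rfl fun i _ => ?_
    conv_lhs => rw [← Q.D.sum_repr D]
    have h5 : (∑ a, Q.D.repr D a • Q.D a : G.Lie).1 (f i) = ∑ a, Q.D.repr D a * (Q.D a).1 (f i) := by
      rw [Submodule.coe_sum, LinearMap.sum_apply]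
      rfl
    rw [h5, map_sum, Finset.mul_sum]
    refine Finset.sum_congr rfl fun a _ => ?_
    rw [map_mul]
    ring
  have hs1 : sgn (ε l) = 1 := by rw [hl]; rfl
  have hal : ∀ a, (derK K (emb l (Q.D a)) (tot F)).1 k =
      Q.flat (fun i => MvPolynomial.aeval Q.c (ν i)) a +
        Q.flat (Q.brK Q.c fun i => MvPolynomial.aeval Q.c (η i)) a := by
    intro a
    have h3 := pf6_AL (P := P) (ε := ε) l a F k
    rw [hs1, one_smul, h2 a] at h3
    have h4 : (fun i => MvPolynomial.aeval Q.c (ν i)) = fun i => ∑ j, (tot (P.DN L j F)).1 k * P.dd j (Q.c i) :=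
      funext h1
    rw [h4, h3]
    ring
  have e1 : MvPolynomial.aeval Q.c q = MvPolynomial.aeval Q.c
      (Q.kapK ν (fun a => MvPolynomial.C (Q.D.repr D a)) +
        Q.kapK (Q.brK (fun i => MvPolynomial.X i) η) (fun a => MvPolynomial.C (Q.D.repr D a))) := by
    rw [map_add, pf6_kapK_map, pf6_kapK_map, ← hq, hD, kapK_flat, kapK_flat, ← Finset.sum_add_distrib]
    refine Finset.sum_congr rfl fun a _ => ?_
    rw [hal, MvPolynomial.aeval_C]
    have h3 : (fun i => MvPolynomial.aeval Q.c (Q.brK (fun i => (MvPolynomial.X i : MvPolynomial (Fin Q.r) ℂ)) η i)) =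
        Q.brK Q.c fun i => MvPolynomial.aeval Q.c (η i) := by
      funext i
      rw [pc1_brK_map]
      simp only [MvPolynomial.aeval_X]
    rw [h3]
    ring
  rw [slice_ev hP e1 hs, map_add]
  have hφ : ∀ x : MvPolynomial (Fin Q.r) ℂ, MvPolynomial.eval (fun i => Q.D.repr s₀ i) x =
      (MvPolynomial.aeval (fun i => Q.D.repr s₀ i) : MvPolynomial (Fin Q.r) ℂ →ₐ[ℂ] ℂ) x := fun x =>
    (RingHom.congr_fun (MvPolynomial.coe_aeval_eq_eval (fun i => Q.D.repr s₀ i)) x).symm
  rw [hφ, hφ, pf6_kapK_map, pf6_kapK_map, killing_repr (Q := Q), killing_repr (Q := Q)]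
  have e2 : ∀ i, (MvPolynomial.aeval (fun i => Q.D.repr s₀ i) : MvPolynomial (Fin Q.r) ℂ →ₐ[ℂ] ℂ)
      (Q.brK (fun i => MvPolynomial.X i) η i) = Q.D.repr (G.br s₀ (spt Q η s₀)) i := by
    intro i
    rw [pc1_brK_map, br_repr]
    simp only [MvPolynomial.aeval_X, spt_repr]
    rfl
  simp only [e2, MvPolynomial.aeval_C, spt_repr]
  rfl

/-- [MTF-PF6] the bracket at a point of the slice (one leg, of sign `+`).
PROOF. `tot` is a ring homomorphism; the sum over `L` has one term.  `∑_j n_j dd_j (aeval Q.c p') = ∑_i aeval (pderiv i p') * aeval (ν i)` (`dN_aeval`, `tot_DX`);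
`∑_ab rho a b A_a A'_b = ∑_b A'_b v_b = kapK (brK c v') v` for `A = flat (brK c v)`, `A' = flat (brK c v')` (as in `rho_reg`: `u_b := ∑_a rho a b A_a` satisfies `brK c u = brK c v` (`hP.rho_im`, `flat_injective`) and
`∑_b A'_b (u - v)_b = kapK (brK c v') (u - v) = 0` by `kapK_inv`).  So `(tot (br F F')).1 k` is `aeval Q.c` of an explicit polynomial; `slice_ev`, `spt_repr`, `killing_repr`, `br_repr`. -/
theorem disc_B (hT : TQ Q) (hP : PQ Q P) {ε : L → Bool} {l : L} (hL : ∀ l', l' = l) (hl : ε l = true)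
    {F F' : RR G K X L} {k : L → G.X} {ν η ν' η' : Fin Q.r → MvPolynomial (Fin Q.r) ℂ} {p p' t : MvPolynomial (Fin Q.r) ℂ}
    (h0 : (tot F).1 k = MvPolynomial.aeval Q.c p) (h0' : (tot F').1 k = MvPolynomial.aeval Q.c p')
    (h1 : ∀ i, MvPolynomial.aeval Q.c (ν i) = ∑ j, (tot (P.DN L j F)).1 k * P.dd j (Q.c i))
    (h1' : ∀ i, MvPolynomial.aeval Q.c (ν' i) = ∑ j, (tot (P.DN L j F')).1 k * P.dd j (Q.c i))
    (h2 : ∀ a, (tot (P.AL ε l a F)).1 k = Q.flat (Q.brK Q.c fun i => MvPolynomial.aeval Q.c (η i)) a)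
    (h2' : ∀ a, (tot (P.AL ε l a F')).1 k = Q.flat (Q.brK Q.c fun i => MvPolynomial.aeval Q.c (η' i)) a)
    (ht : (tot (P.br ε F F')).1 k = MvPolynomial.aeval Q.c t)
    {s₀ : G.Lie} (hs : G.br P.f (s₀ - P.e) = 0) :
    MvPolynomial.eval (fun i => Q.D.repr s₀ i) t =
      (∑ i, MvPolynomial.eval (fun i => Q.D.repr s₀ i) (MvPolynomial.pderiv i p') * Q.D.repr (spt Q ν s₀) i) -
      (∑ i, MvPolynomial.eval (fun i => Q.D.repr s₀ i) (MvPolynomial.pderiv i p) * Q.D.repr (spt Q ν' s₀) i) -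
      G.killing (G.br s₀ (spt Q η' s₀)) (spt Q η s₀) := by
  have hs1 : sgn (ε l) = 1 := by rw [hl]; rfl
  have hu : (Finset.univ : Finset L) = {l} := by
    ext x
    simp [hL x]
  have e0 := pf6_br (P := P) (ε := ε) (F := F) (F' := F') k
  rw [h0, h0', dN_aeval, dN_aeval, hu, Finset.sum_singleton, hs1, one_smul] at e0
  simp only [h2, h2', ← h1, ← h1'] at e0
  rw [pf6_rho hT hP, ht] at e0
  have e1 : MvPolynomial.aeval Q.c t = MvPolynomial.aeval Q.c
      ((∑ i, MvPolynomial.pderiv i p' * ν i) - (∑ i, MvPolynomial.pderiv i p * ν' i) -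
        Q.kapK (Q.brK (fun i => MvPolynomial.X i) η') η) := by
    rw [e0, map_sub, map_sub, map_sum, map_sum, pf6_kapK_map]
    have h3 : (fun i => MvPolynomial.aeval Q.c (Q.brK (fun i => (MvPolynomial.X i : MvPolynomial (Fin Q.r) ℂ)) η' i)) =
        Q.brK Q.c fun i => MvPolynomial.aeval Q.c (η' i) := by
      funext i
      rw [pc1_brK_map]
      simp only [MvPolynomial.aeval_X]
    rw [h3]
    simp only [map_mul]
  have hφ : ∀ x : MvPolynomial (Fin Q.r) ℂ, MvPolynomial.eval (fun i => Q.D.repr s₀ i) x =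
      (MvPolynomial.aeval (fun i => Q.D.repr s₀ i) : MvPolynomial (Fin Q.r) ℂ →ₐ[ℂ] ℂ) x := fun x =>
    (RingHom.congr_fun (MvPolynomial.coe_aeval_eq_eval (fun i => Q.D.repr s₀ i)) x).symm
  rw [slice_ev hP e1 hs, map_sub, map_sub, map_sum, map_sum, hφ (Q.kapK _ _), pf6_kapK_map, killing_repr (Q := Q)]
  have e2 : ∀ i, (MvPolynomial.aeval (fun i => Q.D.repr s₀ i) : MvPolynomial (Fin Q.r) ℂ →ₐ[ℂ] ℂ)
      (Q.brK (fun i => MvPolynomial.X i) η' i) = Q.D.repr (G.br s₀ (spt Q η' s₀)) i := by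
    intro i
    rw [pc1_brK_map, br_repr]
    simp only [MvPolynomial.aeval_X, spt_repr]
    rfl
  simp only [e2, map_mul, spt_repr]
  rfl

end

end Pool.Agent.MTF
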