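import Pool.Agent.MTF.PF5
import Pool.Agent.MTF.PF6
import Pool.Agent.MTF.PE2
import Pool.Agent.MTF.PF1

/-! # MTF, part P : the disc -/

set_option linter.unusedSectionVars false

namespace Pool.Agent.MTF

open AffGrp

section
variable {G : AffGrp} {K W X : Type} [Field K] [Algebra ℂ K] [Group W] [Fintype W]
  [MulSemiringAction W K] [SMulCommClass W ℂ K] [AddCommGroup X] [DistribMulAction W X]
variable {Q : TQD G K W X}
variable {P : PD Q}

theorem pf7_hasDeriv {n : ℕ} (p : MvPolynomial (Fin n) ℂ) (x y : Fin n → ℂ) :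
    HasDerivAt (fun t : ℂ => MvPolynomial.eval (fun i => x i + t * y i) p)
      (∑ i, MvPolynomial.eval x (MvPolynomial.pderiv i p) * y i) 0 := by
  induction p using MvPolynomial.induction_on with
  | C a =>
    simp only [MvPolynomial.eval_C, MvPolynomial.pderiv_C, map_zero, zero_mul, Finset.sum_const_zero]
    exact hasDerivAt_const _ _
  | add p q hp hq =>
    simp only [map_add, add_mul, Finset.sum_add_distrib]
    exact hp.add hq
  | mul_X p j hp =>
    have h1 : HasDerivAt (fun t : ℂ => x j + t * y j) (y j) 0 := by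
      have h2 := ((hasDerivAt_id (0 : ℂ)).mul_const (y j)).const_add (x j)
      rw [one_mul] at h2
      exact h2
    have h3 := hp.mul h1
    have h4 : ∑ i, MvPolynomial.eval x (MvPolynomial.pderiv i (p * MvPolynomial.X j)) * y i =
        (∑ i, MvPolynomial.eval x (MvPolynomial.pderiv i p) * y i) * (x j + 0 * y j) +
          MvPolynomial.eval (fun i => x i + 0 * y i) p * y j := by
      have h5 : (fun i => x i + 0 * y i) = x := funext fun i => by ring
      rw [h5, zero_mul, add_zero, Finset.sum_mul]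
      have h6 : MvPolynomial.eval x p * y j =
          ∑ i, MvPolynomial.eval x (p * (Pi.single i (1 : MvPolynomial (Fin n) ℂ) : Fin n → MvPolynomial (Fin n) ℂ) j) * y i := by
        rw [Finset.sum_eq_single j]
        · rw [Pi.single_eq_same, mul_one]
        · intro i _ hi
          rw [Pi.single_eq_of_ne (Ne.symm hi), mul_zero, map_zero, zero_mul]
        · intro h
          exact absurd (Finset.mem_univ j) h
      rw [h6, ← Finset.sum_add_distrib]
      refine Finset.sum_congr rfl fun i _ => ?_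
      rw [MvPolynomial.pderiv_mul, MvPolynomial.pderiv_X, map_add, map_mul, MvPolynomial.eval_X]
      ring
    rw [h4]
    simp only [map_mul, MvPolynomial.eval_X]
    exact h3

theorem pf7_kf (D E : G.Lie) : G.killing D E = killingForm ℂ G.Lie D E := G.killing_eq _ _

theorem pf7_comm (D E : G.Lie) : G.killing D E = G.killing E D := by
  rw [pf7_kf, pf7_kf, LieModule.traceForm_comm]

theorem pf7_sub (D E F : G.Lie) : G.killing D (E - F) = G.killing D E - G.killing D F := by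
  rw [pf7_kf, pf7_kf, pf7_kf, map_sub]

theorem pf7_zero (D : G.Lie) : G.killing 0 D = 0 := by
  rw [pf7_kf, map_zero, LinearMap.zero_apply]

theorem pf7_sum {n : ℕ} (D : G.Lie) (c : Fin n → ℂ) (E : Fin n → G.Lie) :
    G.killing D (∑ j, c j • E j) = ∑ j, c j * G.killing D (E j) := by
  rw [pf7_kf, map_sum]
  refine Finset.sum_congr rfl fun j _ => ?_
  rw [map_smul, smul_eq_mul, pf7_kf]

/-- invariance -/
theorem pf7_inv (x y z : G.Lie) : G.killing (G.br x y) z = G.killing x (G.br y z) := by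
  rw [pf7_kf, pf7_kf]
  exact LieModule.traceForm_apply_lie_apply ℂ G.Lie G.Lie x y z

theorem pf7_br_sub (x y z : G.Lie) : G.br (x - y) z = G.br x z - G.br y z := by
  show ⁅x - y, z⁆ = ⁅x, z⁆ - ⁅y, z⁆
  rw [sub_lie]

theorem pf7_skew (x y : G.Lie) : G.br x y = - G.br y x := (lie_skew x y).symm

/-- [MTF-PF7] derivative of a polynomial along a line. PROOF. `MvPolynomial.induction_on`, `deriv_add`, `deriv_mul` (differentiability: same induction; or `HasDerivAt`). -/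
theorem deriv_line {n : ℕ} (p : MvPolynomial (Fin n) ℂ) (x y : Fin n → ℂ) :
    deriv (fun t : ℂ => MvPolynomial.eval (fun i => x i + t * y i) p) 0 =
      ∑ i, MvPolynomial.eval x (MvPolynomial.pderiv i p) * y i := by
  exact (pf7_hasDeriv p x y).deriv

/-- the property of the isomorphism -/
def pf7_Th (hT : TQ Q) (P : PD Q) (Θ : RA hT 0 (sIJ PUnit PEmpty) ≃ₐ[ℂ] G.slO P.e P.f) : Prop :=
    ∀ (a : RA hT 0 (sIJ PUnit PEmpty)) (x : G.X), ∃ (p : MvPolynomial (Fin Q.r) ℂ) (q : G.Lie → MvPolynomial (Fin Q.r) ℂ),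
      (∀ k : PUnit ⊕ PEmpty → G.X, k (Sum.inl PUnit.unit) = x →
        (tot (rv hT 0 (sIJ PUnit PEmpty) a)).1 k = MvPolynomial.aeval Q.c p ∧
        ∀ D, (derK K (emb (Sum.inl PUnit.unit) D) (tot (rv hT 0 (sIJ PUnit PEmpty) a))).1 k = MvPolynomial.aeval Q.c (q D)) ∧
      ∀ s : G.Sl P.e P.f, (Θ a).1 (x, s) = MvPolynomial.eval (fun i => Q.D.repr s.1 i) p ∧
        ∀ D : G.Lie, D.1 ⟨fun y => (Θ a).1 (x * y, s), G.slO_mem (Θ a) x s⟩ =
          MvPolynomial.eval (fun i => Q.D.repr s.1 i) (q D)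

theorem pf7_val (hT : TQ Q) (hP : PQ Q P) {Θ : RA hT 0 (sIJ PUnit PEmpty) ≃ₐ[ℂ] G.slO P.e P.f}
    (hΘ : pf7_Th hT P Θ) (a : RA hT 0 (sIJ PUnit PEmpty)) (x : G.X) (s : G.Sl P.e P.f)
    (p : MvPolynomial (Fin Q.r) ℂ) (k : PUnit ⊕ PEmpty → G.X) (hk : k (Sum.inl PUnit.unit) = x)
    (h : (tot (rv hT 0 (sIJ PUnit PEmpty) a)).1 k = MvPolynomial.aeval Q.c p) :
    (Θ a).1 (x, s) = MvPolynomial.eval (fun i => Q.D.repr s.1 i) p := by
  obtain ⟨p', q', h1, h2⟩ := hΘ a x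
  rw [(h2 s).1]
  exact slice_ev hP ((h1 k hk).1.symm.trans h) s.2

theorem pf7_act (hT : TQ Q) (hP : PQ Q P) {Θ : RA hT 0 (sIJ PUnit PEmpty) ≃ₐ[ℂ] G.slO P.e P.f}
    (hΘ : pf7_Th hT P Θ) (h : PUnit → G.X) (k : PEmpty → G.X) (a : RA hT 0 (sIJ PUnit PEmpty)) (x : G.X)
    (s : G.Sl P.e P.f) : (Θ (actIJ hT 0 (h, k) a)).1 (x, s) = (Θ a).1 ((h PUnit.unit)⁻¹ * x, s) := by
  obtain ⟨p, q, h1, h2⟩ := hΘ a ((h PUnit.unit)⁻¹ * x)
  rw [(h2 s).1]
  refine pf7_val hT hP hΘ _ x s p (fun _ => x) rfl ?_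
  rw [actIJ_apply, tot_actR]
  exact (h1 _ rfl).1

theorem pf7_mu (hT : TQ Q) (hP : PQ Q P) {Θ : RA hT 0 (sIJ PUnit PEmpty) ≃ₐ[ℂ] G.slO P.e P.f}
    (hΘ : pf7_Th hT P Θ) (D : (G.pow PUnit).Lie) (x : G.X) (s : G.Sl P.e P.f) :
    (Θ (muI hT 0 PUnit PEmpty D)).1 (x, s) = G.killing (G.lpr PUnit.unit D) (G.Ad x s.1) := by
  have h1 : muI hT 0 PUnit PEmpty D = muR hT 0 (sIJ PUnit PEmpty) (Sum.inl PUnit.unit) (G.lpr PUnit.unit D) := by
    rw [muI_apply]
    exact Fintype.sum_unique _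
  rw [h1, pf7_val hT hP hΘ _ x s (∑ j, MvPolynomial.X j * MvPolynomial.C (G.killing (G.lpr PUnit.unit D) (G.Ad x (Q.D j))))
    (fun _ => x) rfl]
  · rw [map_sum]
    conv_rhs => rw [← Q.D.sum_repr s.1, map_sum]
    rw [Finset.sum_congr rfl fun j _ => map_smul (G.Ad x) (Q.D.repr s.1 j) (Q.D j), pf7_sum]
    refine Finset.sum_congr rfl fun j _ => ?_
    rw [map_mul, MvPolynomial.eval_X, MvPolynomial.eval_C]
  · rw [tot_muR, map_sum]
    refine Finset.sum_congr rfl fun j _ => ?_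
    rw [map_mul, MvPolynomial.aeval_X, MvPolynomial.aeval_C]

theorem pf7_dF (hT : TQ Q) (hP : PQ Q P) {Θ : RA hT 0 (sIJ PUnit PEmpty) ≃ₐ[ℂ] G.slO P.e P.f}
    (a : RA hT 0 (sIJ PUnit PEmpty)) (x : G.X) {p : MvPolynomial (Fin Q.r) ℂ} {q : G.Lie → MvPolynomial (Fin Q.r) ℂ}
    (h2 : ∀ s : G.Sl P.e P.f, (Θ a).1 (x, s) = MvPolynomial.eval (fun i => Q.D.repr s.1 i) p ∧
        ∀ D : G.Lie, D.1 ⟨fun y => (Θ a).1 (x * y, s), G.slO_mem (Θ a) x s⟩ =
          MvPolynomial.eval (fun i => Q.D.repr s.1 i) (q D)) (s : G.Sl P.e P.f) (B v : G.Lie) (hv : G.ad P.f v = 0) :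
    G.dF (Θ a) x s B v hv = MvPolynomial.eval (fun i => Q.D.repr s.1 i) (q B) +
      ∑ i, MvPolynomial.eval (fun i => Q.D.repr s.1 i) (MvPolynomial.pderiv i p) * Q.D.repr v i := by
  unfold AffGrp.dF
  rw [(h2 s).2 B, ← deriv_line]
  congr 2
  funext t
  rw [(h2 _).1]
  congr 2
  funext i
  show Q.D.repr (s.1 + t • v) i = _
  rw [map_add, map_smul, Finsupp.add_apply, Finsupp.smul_apply, smul_eq_mul]

theorem pf7_br (hT : TQ Q) (hP : PQ Q P) {Θ : RA hT 0 (sIJ PUnit PEmpty) ≃ₐ[ℂ] G.slO P.e P.f}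
    (hΘ : pf7_Th hT P Θ) (a : RA hT 0 (sIJ PUnit PEmpty)) (x : G.X) (s : G.Sl P.e P.f) :
    ∃ (A u : G.Lie) (hu : G.ad P.f u = 0),
      (∀ (B v : G.Lie) (hv : G.ad P.f v = 0),
        G.killing u B - G.killing v A - G.killing s.1 (G.br A B) = G.dF (Θ a) x s B v hv) ∧
      ∀ b, (Θ (brR hT P (closed_AG hT hP 0 (PUnit ⊕ PEmpty) (sIJ PUnit PEmpty)) a b)).1 (x, s) = G.dF (Θ b) x s A u hu := by
  have : Nonempty (PUnit ⊕ PEmpty) := ⟨Sum.inl PUnit.unit⟩
  have hs : G.br P.f (s.1 - P.e) = 0 := s.2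
  have hfam : ∀ b : RA hT 0 (sIJ PUnit PEmpty), Q.Fam 0 (sIJ PUnit PEmpty) (rv hT 0 (sIJ PUnit PEmpty) b) := fun b =>
    (mem_AG hT fun _ => inferInstance).1 (rv_mem hT 0 (sIJ PUnit PEmpty) b)
  have hl : sIJ PUnit PEmpty (Sum.inl PUnit.unit) = true := rfl
  have hL : ∀ l' : PUnit ⊕ PEmpty, l' = Sum.inl PUnit.unit := by
    rintro (l | l)
    · rfl
    · exact l.elim
  obtain ⟨p, q, h1, h2⟩ := hΘ a x
  obtain ⟨ν, η, hν, hνf, hη⟩ := disc_loc hT hP (hfam a) (Sum.inl PUnit.unit) (fun _ => x)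
  have hq : ∀ D, MvPolynomial.eval (fun i => Q.D.repr s.1 i) (q D) =
      G.killing (spt Q ν s.1) D + G.killing (G.br s.1 (spt Q η s.1)) D := fun D =>
    disc_q hT hP hl hν hη ((h1 (fun _ => x) rfl).2 D) hs
  have hu : G.ad P.f (spt Q ν s.1) = 0 := spt_br_f hP hνf hs
  let β : Module.Dual ℂ G.Lie :=
    ∑ i, MvPolynomial.eval (fun i => Q.D.repr s.1 i) (MvPolynomial.pderiv i p) • Q.D.coord i
  have hβ : ∀ v, β v = ∑ i, MvPolynomial.eval (fun i => Q.D.repr s.1 i) (MvPolynomial.pderiv i p) * Q.D.repr v i := by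
    intro v
    show (∑ i, MvPolynomial.eval (fun i => Q.D.repr s.1 i) (MvPolynomial.pderiv i p) • Q.D.coord i) v = _
    rw [LinearMap.sum_apply]
    rfl
  obtain ⟨z, hz, hz'⟩ := slice_dual_pt hT hP (killingForm ℂ G.Lie (spt Q η s.1) - β) hs
  have hz2 : ∀ v, G.br P.f v = 0 → G.killing v z = G.killing v (spt Q η s.1) - β v := by
    intro v hv
    rw [hz' v hv, LinearMap.sub_apply, ← pf7_kf, pf7_comm]
  have hA : ∀ v, G.br P.f v = 0 → G.killing v (z - spt Q η s.1) = - β v := by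
    intro v hv
    rw [pf7_sub, hz2 v hv]
    ring
  refine ⟨z - spt Q η s.1, spt Q ν s.1, hu, fun B v hv => ?_, fun b => ?_⟩
  · rw [pf7_dF hT hP a x h2 s B v hv, hq, ← hβ, hA v hv]
    have h3 : G.killing s.1 (G.br (z - spt Q η s.1) B) = - G.killing (G.br s.1 (spt Q η s.1)) B := by
      rw [pf7_br_sub, pf7_sub, ← pf7_inv, ← pf7_inv, hz, pf7_zero, zero_sub]
    rw [h3]
    ring
  · obtain ⟨p', q', h1', h2'⟩ := hΘ b x
    obtain ⟨ν', η', hν', hνf', hη'⟩ := disc_loc hT hP (hfam b) (Sum.inl PUnit.unit) (fun _ => x)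
    have hq' : ∀ D, MvPolynomial.eval (fun i => Q.D.repr s.1 i) (q' D) =
        G.killing (spt Q ν' s.1) D + G.killing (G.br s.1 (spt Q η' s.1)) D := fun D =>
      disc_q hT hP hl hν' hη' ((h1' (fun _ => x) rfl).2 D) hs
    obtain ⟨t, q'', h1'', h2''⟩ := hΘ (brR hT P (closed_AG hT hP 0 (PUnit ⊕ PEmpty) (sIJ PUnit PEmpty)) a b) x
    have ht := (h1'' (fun _ => x) rfl).1
    rw [rv_brR] at ht
    rw [(h2'' s).1, disc_B hT hP hL hl (h1 (fun _ => x) rfl).1 (h1' (fun _ => x) rfl).1 hν hν' hη hη' ht hs,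
      pf7_dF hT hP b x h2' s _ _ hu, hq', hA _ (spt_br_f hP hνf' hs), ← hβ, pf7_sub]
    have h3 : G.killing (G.br s.1 (spt Q η' s.1)) z = 0 := by
      rw [pf7_skew, pf7_kf, map_neg, LinearMap.neg_apply, ← pf7_kf, pf7_inv, hz, pf7_comm, pf7_zero, neg_zero]
    rw [h3]
    ring

/-- [MTF-PF7] THE DISC.
PROOF. `Θ` of `disc_equiv`.  Action: `tot_actR` (the value of `act (h,k) a` at `x` is the value of `a` at `h⁻¹ x`, both polynomials in `Q.c`; `slice_ev`).  Moment map: `muI = muR (inl unit) (lpr unit D)`, `tot_muR`: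
the polynomial `∑ j, C (killing D (G.Ad x (D j))) * X j`, `slice_ev`.
Bracket: `a`, `x`, `s` given.  `p`, `q` of `disc_equiv` for `a`, `x`; `ν`, `η` of `disc_loc` for `F = rv a` (`rv_mem`, `mem_AG`), `l = inl unit`, `k := fun _ => x` on `inl unit`.  `u := spt Q ν s.1` (`spt_br_f`), `v₀ := spt Q η s.1`.
`β v := ∑_i eval (pderiv i p) * repr v i`.  `slice_dual_pt` with `lam v := killing v v₀ - β v`: `z` with `br s z = 0` and `killing v z = killing v v₀ - β v` for `v` commuting with `f`.  `A := z - v₀`.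
FIRST CLAIM: `dF (Θ a) x s B v = eval (q B) + β v` (`deriv_line`, `Sl.add`: the coordinates of `s + t v` are `repr s i + t * repr v i`) `= killing u B + killing (br s v₀) B + β v` (`disc_q`) and
`killing u B - killing v A - killing s (br A B) = killing u B - (killing v z - killing v v₀) - killing s (br z B) + killing s (br v₀ B)`; `killing s (br z B) = killing (br s z) B = 0`,
`killing s (br v₀ B) = killing (br s v₀) B` (invariance of the Killing form: `killing_eq`, `LieModule.traceForm_apply_lie_apply`).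
SECOND CLAIM: for `b` take `p'`, `q'`, `ν'`, `η'`, `u'`, `v₀'`, `β'` and the polynomial `t` of `disc_equiv` for `br a b`, `x`: by `disc_B`: `(Θ (br a b)).1 (x, s) = β' u - β u' - killing (br s v₀') v₀`, and
`dF (Θ b) x s A u = killing u' A + killing (br s v₀') A + β' u` with `A = z - v₀`: `killing u' z = killing u' v₀ - β u'` (`u'` commutes with `f`), `killing (br s v₀') z = - killing v₀' (br s z) = 0`. -/
theorem HA_disc (hT : TQ Q) (hP : PQ Q P)
    (hfg : ∀ (g : ℕ) (L : Type) [Fintype L] [DecidableEq L] (ε : L → Bool), Algebra.FiniteType ℂ (RA hT g ε)) :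
    IsKostant G P.e P.f (HA hT hP hfg 0 PUnit PEmpty) := by
  obtain ⟨Θ, hΘ⟩ := disc_equiv hT hP
  have hΘ' : pf7_Th hT P Θ := hΘ
  exact ⟨Θ, fun h k a x s => pf7_act hT hP hΘ' h k a x s, fun D x s => pf7_mu hT hP hΘ' D x s,
    fun a x s => pf7_br hT hP hΘ' a x s⟩

end

end Pool.Agent.MTF
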