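import Pool.Agent.MTF.P0b

/-! # MTF, part P : the opposite: families -/

set_option linter.unusedSectionVars false

namespace Pool.Agent.MTF

open AffGrp

section
variable {G : AffGrp} {K W X : Type} [Field K] [Algebra ℂ K] [Group W] [Fintype W]
  [MulSemiringAction W K] [SMulCommClass W ℂ K] [AddCommGroup X] [DistribMulAction W X]
variable {Q : TQD G K W X}
variable {P : PD Q}
variable {L : Type} [Fintype L] [DecidableEq L]

variable {ι : K ≃ₐ[ℂ] K} {γ : G.X}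

theorem pg1_Ad_mul (x y : G.X) (D : G.Lie) : G.Ad (x * y) D = G.Ad x (G.Ad y D) := by
  apply Subtype.ext
  apply LinearMap.ext
  intro f
  show D.1 (G.cj (x * y) f) = D.1 (G.cj y (G.cj x f))
  congr 1
  apply Subtype.ext
  funext z
  show f.1 (x * y * z * (x * y)⁻¹) = f.1 (x * (y * z * y⁻¹) * x⁻¹)
  rw [mul_inv_rev]
  simp only [mul_assoc]

theorem pg1_Ad_one (D : G.Lie) : G.Ad 1 D = D := by
  apply Subtype.ext
  apply LinearMap.ext
  intro f
  show D.1 (G.cj 1 f) = D.1 f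
  congr 1
  apply Subtype.ext
  funext z
  show f.1 (1 * z * 1⁻¹) = f.1 z
  rw [inv_one, one_mul, mul_one]

theorem pg1_Ad_inv (x : G.X) (D : G.Lie) : G.Ad x⁻¹ (G.Ad x D) = D := by
  rw [← pg1_Ad_mul, inv_mul_cancel, pg1_Ad_one]

theorem pg1_mat (Q : TQD G K W X) (x : G.X) (j k : Fin Q.r) :
    ∑ i, Q.D.repr (G.Ad x⁻¹ (Q.D i)) k * Q.D.repr (G.Ad x (Q.D j)) i = if j = k then 1 else 0 := by
  have h := congrArg (fun Z => Q.D.repr (G.Ad x⁻¹ Z) k) (Q.D.sum_repr (G.Ad x (Q.D j)))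
  simp only [pg1_Ad_inv, map_sum, map_smul, Finsupp.coe_finsetSum, Finset.sum_apply, Finsupp.smul_apply,
    smul_eq_mul, Module.Basis.repr_self, Finsupp.single_apply] at h
  rw [← h]
  exact Finset.sum_congr rfl fun i _ => mul_comm _ _

theorem pg1_ext_Ad (x : G.X) (D : G.Lie) (F : G.KO K) :
    ext K (G.Ad x D).1 F = ext K D.1 (ltK x (rtK x⁻¹ F)) := by
  obtain ⟨n, c, f, h⟩ := KO_rep F
  rw [ext_apply (G.Ad x D).1 F c f h, ext_apply D.1 (ltK x (rtK x⁻¹ F)) c (fun i => G.cj x (f i)) (fun y => h _)]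
  rfl

theorem pg1_ext_sum {n : ℕ} (a : Fin n → ℂ) (D : Fin n → G.Lie) (F : G.KO K) :
    ext K (∑ i, a i • D i : G.Lie).1 F = ∑ i, algebraMap ℂ K (a i) * ext K (D i).1 F := by
  obtain ⟨m, c, f, h⟩ := KO_rep F
  rw [ext_apply _ F c f h]
  have h1 : ∀ i, ext K (D i).1 F = ∑ t, c t * algebraMap ℂ K ((D i).1 (f t)) := fun i => ext_apply _ F c f h
  simp only [h1, Finset.mul_sum]
  rw [Finset.sum_comm]
  refine Finset.sum_congr rfl fun t _ => ?_
  have h2 : (∑ i, a i • D i : G.Lie).1 (f t) = ∑ i, a i * (D i).1 (f t) := by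
    rw [AddSubmonoidClass.coe_finsetSum, LinearMap.sum_apply]
    rfl
  rw [h2, map_sum, Finset.mul_sum]
  refine Finset.sum_congr rfl fun i _ => ?_
  rw [map_mul]
  ring

theorem pg1_derK_sum {n : ℕ} (a : Fin n → ℂ) (D : Fin n → G.Lie) (l : L) (F : (G.pow L).KO K) :
    derK K (emb l (∑ i, a i • D i : G.Lie)) F = ∑ i, algebraMap ℂ K (a i) • derK K (emb l (D i)) F := by
  apply KO_ext
  intro k
  rw [derK_emb, derK_apply, pg1_ext_sum, KO_sum]
  refine Finset.sum_congr rfl fun i _ => ?_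
  rw [KO_smul, derK_emb, derK_apply]

/-- [MTF-PG1] PROOF. `ι(s) = - Ad_γ s` implies `ι(s) = - Ad_γ⁻¹ s`: apply `ι` (the matrix of `Ad_γ` is complex) and `Ad_γ⁻¹`. -/
theorem PO_inv (h : PO Q P ι γ) : PO Q P ι γ⁻¹ := by
  refine ⟨h.ii, h.iw, h.iA, h.idd, h.ival, h.iEu, fun k => ?_⟩
  have h1 : ∀ i, Q.c i = - ∑ j, ι (Q.c j) * algebraMap ℂ K (Q.D.repr (G.Ad γ (Q.D j)) i) := by
    intro i
    have h2 := congrArg ι (h.ic i)
    rw [h.ii, map_neg] at h2
    rw [h2]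
    unfold TQD.adc
    rw [map_sum]
    refine congrArg _ (Finset.sum_congr rfl fun j _ => ?_)
    rw [map_mul]
    exact congrArg _ (ι.commutes _)
  unfold TQD.adc
  have h3 : ∑ i, Q.c i * algebraMap ℂ K (Q.D.repr (G.Ad γ⁻¹ (Q.D i)) k) =
      - ∑ j, ι (Q.c j) * algebraMap ℂ K (∑ i, Q.D.repr (G.Ad γ⁻¹ (Q.D i)) k * Q.D.repr (G.Ad γ (Q.D j)) i) := by
    simp only [map_sum, Finset.mul_sum]
    rw [Finset.sum_comm, ← Finset.sum_neg_distrib]
    refine Finset.sum_congr rfl fun i _ => ?_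
    conv_lhs => rw [h1 i]
    rw [neg_mul, Finset.sum_mul]
    refine congrArg _ (Finset.sum_congr rfl fun j _ => ?_)
    rw [map_mul]
    ring
  rw [h3]
  simp only [pg1_mat]
  rw [neg_neg, Finset.sum_eq_single k]
  · simp
  · intro j _ hj
    rw [if_neg hj]
    simp
  · intro hk
    exact absurd (Finset.mem_univ k) hk

/-- [MTF-PG1] PROOF. `k * x * γ⁻¹ = k γ⁻¹ * (γ x γ⁻¹)`: derive along `x`; `derK_mapK`, `derK_emb`, `G.Ad γ D = D ∘ cj γ`. -/
theorem derK_thO (ι : K ≃ₐ[ℂ] K) (γ : G.X) (l : L) (D : G.Lie) (F : (G.pow L).KO K) :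
    derK K (emb l D) (thO ι γ L F) = thO ι γ L (derK K (emb l (G.Ad γ D)) F) := by
  apply KO_ext
  intro k
  have h1 : derK K (emb l D) (thO ι γ L F) =
      (G.pow L).mapK ι.toAlgHom (derK K (emb l D) (rtK (H := G.pow L) (fun _ => γ⁻¹ : L → G.X) F)) :=
    derK_mapK _ _ _
  rw [h1, thO_apply]
  show ι _ = _
  refine congrArg ι ?_
  rw [derK_emb, derK_apply, derK_emb, derK_apply, pg1_ext_Ad]
  refine congrArg _ (KO_ext fun y => ?_)
  show F.1 (fun i => Function.update k l (k l * y) i * γ⁻¹) =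
    F.1 (Function.update (fun l => k l * γ⁻¹) l (k l * γ⁻¹ * (γ * y * γ⁻¹)))
  refine congrArg F.1 (funext fun i => ?_)
  by_cases hi : i = l
  · subst hi
    rw [Function.update_self, Function.update_self]
    group
  · rw [Function.update_of_ne hi, Function.update_of_ne hi]

/-- [MTF-PG1] PROOF. `Q.s l (thO F) = ∑_j c_j • thO (derK (emb l (Ad_γ D_j)) F) = ∑_i (adc γ i) • thO (derK (emb l (D_i)) F)`, `adc γ i = - ι (c i)`, `thO_smul`. -/
theorem s_thO (h : PO Q P ι γ) (l : L) (F : (G.pow L).KO K) : Q.s l (thO ι γ L F) = - thO ι γ L (Q.s l F) := by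
  have h1 : Q.s l (thO ι γ L F) = ∑ j, Q.c j • thO ι γ L (derK K (emb l (G.Ad γ (Q.D j))) F) := by
    unfold TQD.s
    rw [LinearMap.sum_apply]
    refine Finset.sum_congr rfl fun j _ => ?_
    rw [LinearMap.smul_apply, derK_thO]
  have h2 : thO ι γ L (Q.s l F) = ∑ i, ι (Q.c i) • thO ι γ L (derK K (emb l (Q.D i)) F) := by
    unfold TQD.s
    rw [LinearMap.sum_apply, map_sum]
    refine Finset.sum_congr rfl fun i _ => ?_
    rw [LinearMap.smul_apply, thO_smul]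
  have h3 : ∀ j, thO ι γ L (derK K (emb l (G.Ad γ (Q.D j))) F) =
      ∑ i, algebraMap ℂ K (Q.D.repr (G.Ad γ (Q.D j)) i) • thO ι γ L (derK K (emb l (Q.D i)) F) := by
    intro j
    conv_lhs => rw [← Q.D.sum_repr (G.Ad γ (Q.D j))]
    rw [pg1_derK_sum, map_sum]
    refine Finset.sum_congr rfl fun i _ => ?_
    rw [thO_smul]
    exact congrArg (· • _) (ι.commutes _)
  rw [h1, h2, ← Finset.sum_neg_distrib]
  simp only [h3, Finset.smul_sum]
  rw [Finset.sum_comm]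
  refine Finset.sum_congr rfl fun i _ => ?_
  rw [h.ic i, neg_smul, neg_neg, TQD.adc, Finset.sum_smul]
  refine Finset.sum_congr rfl fun j _ => ?_
  rw [smul_smul]

/-- [MTF-PG1] PROOF. `tot_eq`; on singles. -/
theorem tot_th (F : RR G K X L) : tot (th X ι γ L F) = thO ι γ L (tot F) := by
  rw [tot_eq, tot_eq]
  induction F using AddMonoidAlgebra.induction_linear with
  | zero => simp
  | add a b ha hb => simp only [map_add, ha, hb]
  | single m a => simp [th, totH]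

/-- [MTF-PG1] families are mapped to families.
PROOF. `wt`: `s_thO`, `thO_smul`, `h.ival`. `inv`: `h.iw`, `th_apply`, `wO_apply`. `reg0`: `tot_th`, `h.iA`. `regS`: `(Eu m ^ (g-1))⁻¹ * ι y = ι ((ι (Eu m) ^ (g-1))⁻¹ * y)` (`h.ii`) and `ι (Eu m) = u * Eu m`. -/
theorem Fam_th (h : PO Q P ι γ) {g : ℕ} {ε : L → Bool} {F : RR G K X L} (hF : Q.Fam g ε F) :
    Q.Fam g ε (th X ι γ L F) := by
  refine ⟨fun m l => ?_, fun w m => ?_, fun hg x => ?_, fun m k hg => ?_⟩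
  · rw [th_coeff, s_thO h, hF.wt m l, thO_smul, h.ival, neg_smul, neg_neg]
  · apply KO_ext
    intro k
    rw [wO_apply, th_apply, th_apply, ← hF.inv, wO_apply, h.iw]
  · rw [tot_th, thO_apply]
    exact h.iA _ (hF.reg0 hg _)
  · rw [th_apply]
    obtain ⟨u, hu, he⟩ := h.iEu m
    have h1 := h.iA _ (hF.regS m (fun l => k l * γ⁻¹) hg)
    have h2 : (Q.Eu m ^ (g - 1))⁻¹ * ι ((F.coeff m).1 (fun l => k l * γ⁻¹)) =
        algebraMap ℂ K (u ^ (g - 1)) * ι ((Q.Eu m ^ (g - 1))⁻¹ * (F.coeff m).1 (fun l => k l * γ⁻¹)) := by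
      have h5 : ∀ (e y : K), ι e = algebraMap ℂ K u * e → (e ^ (g - 1))⁻¹ * ι y =
          algebraMap ℂ K (u ^ (g - 1)) * ι ((e ^ (g - 1))⁻¹ * y) := by
        intro e y hey
        have h6 : algebraMap ℂ K u ^ (g - 1) ≠ 0 := pow_ne_zero _ ((map_ne_zero (algebraMap ℂ K)).2 hu)
        have h7 : ι (e ^ (g - 1)) = algebraMap ℂ K u ^ (g - 1) * e ^ (g - 1) := by
          rw [map_pow ι, hey, mul_pow]
        rw [map_mul, map_inv₀, h7, map_pow (algebraMap ℂ K), mul_inv, ← mul_assoc, ← mul_assoc, mul_inv_cancel₀ h6, one_mul]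
      exact h5 _ _ he
    rw [h2]
    exact Q.A.mul_mem (Subalgebra.algebraMap_mem _ _) h1

/-- [MTF-PG1] the rings are preserved.
PROOF. `mem_AG` and `Fam_th`, except for the sphere: `mem_AG0`: `F.coeff m` is the value at `1` of `F' : RR G K X PUnit`, `Q.Fam 0 (fun _ => true) F'`.  `F'' := gact (fun _ => γ⁻¹) (th X ι γ PUnit F')` is a family
(`Fam_th`, `Fam_tr` of C0) with `(F''.coeff m).1 (fun _ => 1) = ι ((F'.coeff m).1 (fun _ => γ * 1 * γ⁻¹)) = ι ((F'.coeff m).1 (fun _ => 1))`. -/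
theorem th_AG (hT : TQ Q) (h : PO Q P ι γ) {g : ℕ} {ε : L → Bool} {F : RR G K X L} (hF : F ∈ AG hT g ε) :
    th X ι γ L F ∈ AG hT g ε := by
  by_cases h1 : g = 0 ∧ IsEmpty L
  · obtain ⟨rfl, h2⟩ := h1
    obtain ⟨F', h3, h4⟩ := (mem_AG0 hT).1 hF
    refine (mem_AG0 hT).2 ⟨gact (fun _ => γ⁻¹ : PUnit → G.X) (th X ι γ PUnit F'), Fam_tr (Fam_th h h3) _, fun m k => ?_⟩
    rw [gact_apply, th_apply, th_apply, h4]
    refine congrArg ι (congrArg (F'.coeff m).1 (funext fun l => ?_))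
    show (1 : G.X) = (γ⁻¹)⁻¹ * 1 * γ⁻¹
    group
  · have h2 : g = 0 → Nonempty L := fun h3 => by
      by_contra h4
      exact h1 ⟨h3, not_nonempty_iff.1 h4⟩
    exact (mem_AG hT h2).2 (Fam_th h ((mem_AG hT h2).1 hF))

/-- [MTF-PG1] PROOF. `h.ii`, `k γ⁻¹ γ = k`. -/
theorem th_th (h : PO Q P ι γ) (F : RR G K X L) : th X ι γ⁻¹ L (th X ι γ L F) = F := by
  apply RR_ext
  intro m k
  rw [th_apply, th_apply, h.ii]
  refine congrArg (F.coeff m).1 (funext fun l => ?_)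
  show k l * (γ⁻¹)⁻¹ * γ⁻¹ = k l
  group

theorem th_th' (h : PO Q P ι γ) (F : RR G K X L) : th X ι γ L (th X ι γ⁻¹ L F) = F := by
  apply RR_ext
  intro m k
  rw [th_apply, th_apply, h.ii]
  refine congrArg (F.coeff m).1 (funext fun l => ?_)
  show k l * γ⁻¹ * (γ⁻¹)⁻¹ = k l
  group

/-- [MTF-PG1] left and right translations commute. -/
theorem th_gact (ι : K ≃ₐ[ℂ] K) (γ : G.X) (x : L → G.X) (F : RR G K X L) :
    th X ι γ L (gact x F) = gact x (th X ι γ L F) := by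
  apply RR_ext
  intro m k
  rw [th_apply, gact_apply, gact_apply, th_apply]
  refine congrArg ι (congrArg (F.coeff m).1 (funext fun l => ?_))
  show (x l)⁻¹ * (k l * γ⁻¹) = (x l)⁻¹ * k l * γ⁻¹
  rw [mul_assoc]

/-- [MTF-PG1] the moment maps. PROOF. degree `0`; at `k`: `ι (∑_j c_j κ(D, Ad_{k γ⁻¹} D_j)) = ∑_j ι(c_j) κ(D, Ad_k Ad_γ⁻¹ D_j) = - ∑_j (adc γ j) κ(D, Ad_k Ad_γ⁻¹ D_j) = - ∑_i c_i κ(D, Ad_k Ad_γ⁻¹ Ad_γ D_i)`
(`muF_apply`, `muO_apply`, `TQD.adc`, linearity of `E ↦ κ(D, Ad_k Ad_γ⁻¹ E)`). -/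
theorem th_muF (h : PO Q P ι γ) (l : L) (D : G.Lie) : th X ι γ L (muF Q l D) = - muF Q l D := by
  rw [muF_apply]
  have h1 : th X ι γ L (AddMonoidAlgebra.single (0 : X) (pu K l (muO Q D))) =
      AddMonoidAlgebra.single (0 : X) (thO ι γ L (pu K l (muO Q D))) := by
    simp [th]
  rw [h1, ← AddMonoidAlgebra.single_neg]
  refine congrArg _ (KO_ext fun k => ?_)
  rw [thO_apply, KO_neg, pu_apply, pu_apply, muO_apply, muO_apply, map_sum, ← Finset.sum_neg_distrib]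
  have h2 : ∀ j, ι (Q.c j * algebraMap ℂ K (G.killing D (G.Ad (k l * γ⁻¹) (Q.D j)))) =
      - ∑ i, Q.c i * algebraMap ℂ K (Q.D.repr (G.Ad γ (Q.D i)) j * G.killing D (G.Ad (k l * γ⁻¹) (Q.D j))) := by
    intro j
    have h3 : ι (algebraMap ℂ K (G.killing D (G.Ad (k l * γ⁻¹) (Q.D j)))) =
      algebraMap ℂ K (G.killing D (G.Ad (k l * γ⁻¹) (Q.D j))) := ι.commutes _
    rw [map_mul, h.ic j, h3, TQD.adc, neg_mul, Finset.sum_mul]
    refine congrArg _ (Finset.sum_congr rfl fun i _ => ?_)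
    rw [map_mul, mul_assoc]
  simp only [h2]
  rw [Finset.sum_neg_distrib, Finset.sum_neg_distrib, Finset.sum_comm]
  refine congrArg _ (Finset.sum_congr rfl fun i _ => ?_)
  rw [← Finset.mul_sum, ← map_sum]
  refine congrArg _ (congrArg _ ?_)
  have h4 : G.Ad (k l) (Q.D i) = ∑ j, Q.D.repr (G.Ad γ (Q.D i)) j • G.Ad (k l * γ⁻¹) (Q.D j) := by
    have h5 : k l = k l * γ⁻¹ * γ := by group
    conv_lhs => rw [h5, pg1_Ad_mul, ← Q.D.sum_repr (G.Ad γ (Q.D i))]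
    rw [map_sum]
    exact Finset.sum_congr rfl fun j _ => map_smul _ _ _
  rw [h4, ← killD_apply, map_sum]
  refine Finset.sum_congr rfl fun j _ => ?_
  rw [map_smul, killD_apply, smul_eq_mul]

end

end Pool.Agent.MTF
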