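import Pool.Agent.MTF.P0b
import Pool.Agent.MTF.PF0
import Pool.Agent.MTF.PB2
import Pool.Agent.MTF.PA2

/-! # MTF, part P : the opposite: the bracket -/

set_option linter.unusedSectionVars false

namespace Pool.Agent.MTF

open AffGrp

section
variable {G : AffGrp} {K W X : Type} [Field K] [Algebra ℂ K] [Group W] [Fintype W]
  [MulSemiringAction W K] [SMulCommClass W ℂ K] [AddCommGroup X] [DistribMulAction W X]
variable {Q : TQD G K W X}
variable {P : PD Q}

variable {ι : K ≃ₐ[ℂ] K} {γ : G.X}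

/-- every vector is the sum of an element of the centraliser of `s` and a bracket with `s` -/
theorem pg2_dec (hT : TQ Q) (w : Fin Q.r → K) :
    ∃ z v : Fin Q.r → K, Q.brK Q.c z = 0 ∧ w = z + Q.brK Q.c v := by
  classical
  obtain ⟨T, hT0⟩ : ∃ T : Matrix (Fin Q.r) (Fin Q.r) K, T = Q.sE (adR Q) := ⟨_, rfl⟩
  have hTz : ∀ z, T.mulVec z = Q.brK Q.c z := by
    intro z
    rw [hT0]
    exact adR_sE Q z
  obtain ⟨Ω, hΩ⟩ := hT.dec (adR Q)
  have hΩ' : Polynomial.aeval T (∏ a ∈ Ω.image Q.val, (Polynomial.X - Polynomial.C a)) = 0 := by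
    rw [Finset.prod_image fun a _ b _ h => hT.val_inj h, hT0]
    exact hΩ
  obtain ⟨R, h1, h2, h3⟩ := exists_group_inverse T _ hΩ'
  refine ⟨w - T.mulVec (R.mulVec w), R.mulVec w, ?_, ?_⟩
  · rw [← hTz, Matrix.mulVec_sub, Matrix.mulVec_mulVec, Matrix.mulVec_mulVec, mul_assoc, h1, ← mul_assoc, h2,
      sub_self]
  · rw [← hTz]
    abel

/-- [MTF-PG2] `rho` is unique.
PROOF. `S := ` the operator `brK Q.c` on `Fin Q.r → K`.  By `hT.dec (adR Q)` (`adR_sE`: `Q.sE (adR Q)` is the matrix of `S`) `S` is annihilated by a product of distinct linear factors (`hT.val_inj`), so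
`ker S ∩ im S = 0` and every vector is `z + [s, w]` with `z ∈ ker S`.  Every covector `α` is `flat z + α₁` with `z ∈ ker S` and `α₁ = flat (brK c w)`, which vanishes on `ker S` (`kapK_flat`, `kapK_inv`).
`u b := ∑ a, P.rho a b * α₁ a`, `u' b := ∑ a, R a b * α₁ a`: `brK c (u - u') = 0` (`hP.rho_im`, `h2`, `flat_injective`), and `u - u'` is orthogonal to `flat z'` for `z' ∈ ker S` (skew symmetry, `rho_ker`, `h3`), so
`u - u' ∈ im S` (orthogonal complement of `ker S` for `kapK`: a vector `v = z + [s,w]` orthogonal to `ker S`: `kapK z z' = 0` for all `z' ∈ ker S`, and `kapK z (im S) = 0`, so `z = 0`).  Hence `u = u'`, and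
`∑ a, P.rho a b * α a = u b = u' b = ∑ a, R a b * α a` for every `α`. -/
theorem rho_unique (hT : TQ Q) (hP : PQ Q P) (R : Matrix (Fin Q.r) (Fin Q.r) K) (h1 : ∀ a b, R a b = - R b a)
    (h2 : ∀ α : Fin Q.r → K, (∀ z, Q.brK Q.c z = 0 → ∑ a, α a * z a = 0) →
      Q.flat (Q.brK Q.c fun b => ∑ a, R a b * α a) = α)
    (h3 : ∀ z, Q.brK Q.c z = 0 → ∀ b, ∑ a, R a b * Q.flat z a = 0) : R = P.rho := by
  classical
  -- the difference
  have hs : ∀ a b, R a b - P.rho a b = - (R b a - P.rho b a) := by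
    intro a b
    rw [h1 a b, hP.rho_skew a b]
    ring
  have hk : ∀ z, Q.brK Q.c z = 0 → ∀ b, ∑ a, (R a b - P.rho a b) * Q.flat z a = 0 := by
    intro z hz b
    have e : ∀ a, (R a b - P.rho a b) * Q.flat z a = R a b * Q.flat z a - P.rho a b * Q.flat z a :=
      fun a => sub_mul _ _ _
    rw [Finset.sum_congr rfl fun a _ => e a, Finset.sum_sub_distrib, h3 z hz b, hP.rho_ker z hz b,
      sub_zero]
  have key : ∀ (α : Fin Q.r → K) b, ∑ a, (R a b - P.rho a b) * α a = 0 := by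
    intro α
    obtain ⟨w, hw⟩ := flat_surjective (Q := Q) hT.kill α
    obtain ⟨z, v, hz, hv⟩ := pg2_dec hT w
    have hα : α = Q.flat z + Q.flat (Q.brK Q.c v) := by rw [← hw, hv, flat_add]
    have horth : ∀ z', Q.brK Q.c z' = 0 → ∑ a, Q.flat (Q.brK Q.c v) a * z' a = 0 := by
      intro z' hz'
      rw [← kapK_flat, kapK_inv, hz']
      have h0 : Q.kapK v (0 : Fin Q.r → K) = 0 := by
        unfold TQD.kapK
        exact Finset.sum_eq_zero fun a _ => Finset.sum_eq_zero fun b _ => by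
          rw [Pi.zero_apply, mul_zero, smul_zero]
      rw [h0, neg_zero]
    have hd1 := h2 _ horth
    have hd2 := hP.rho_im _ horth
    obtain ⟨u, hu⟩ : ∃ u : Fin Q.r → K, u = fun b => ∑ a, R a b * Q.flat (Q.brK Q.c v) a := ⟨_, rfl⟩
    obtain ⟨u', hu'⟩ : ∃ u' : Fin Q.r → K, u' = fun b => ∑ a, P.rho a b * Q.flat (Q.brK Q.c v) a :=
      ⟨_, rfl⟩
    rw [← hu] at hd1
    rw [← hu'] at hd2
    have hfs : ∀ x y : Fin Q.r → K, Q.flat (x - y) = Q.flat x - Q.flat y := by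
      intro x y
      have e := flat_add (Q := Q) (x - y) y
      rw [sub_add_cancel] at e
      rw [e, add_sub_cancel_right]
    have hbs : ∀ x y : Fin Q.r → K, Q.brK Q.c (x - y) = Q.brK Q.c x - Q.brK Q.c y := by
      intro x y
      have e := brK_add (Q := Q) Q.c (x - y) y
      rw [sub_add_cancel] at e
      rw [e, add_sub_cancel_right]
    have hker : Q.brK Q.c (u - u') = 0 := by
      apply flat_injective (Q := Q) hT.kill
      rw [hbs, hfs, hd1, hd2, sub_self]
    have huu : ∀ b, (u - u') b = ∑ a, (R a b - P.rho a b) * Q.flat (Q.brK Q.c v) a := by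
      intro b
      rw [Pi.sub_apply, hu, hu']
      show (∑ a, R a b * Q.flat (Q.brK Q.c v) a) - (∑ a, P.rho a b * Q.flat (Q.brK Q.c v) a) = _
      rw [← Finset.sum_sub_distrib]
      exact Finset.sum_congr rfl fun a _ => (sub_mul _ _ _).symm
    have hperp : ∀ z', Q.brK Q.c z' = 0 → Q.kapK (u - u') z' = 0 := by
      intro z' hz'
      rw [kapK_symm, kapK_flat]
      have e1 : ∀ b, Q.flat z' b * (u - u') b =
          ∑ a, Q.flat (Q.brK Q.c v) a * (-((R b a - P.rho b a) * Q.flat z' b)) := by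
        intro b
        rw [huu b, Finset.mul_sum]
        refine Finset.sum_congr rfl fun a _ => ?_
        rw [hs a b]
        ring
      rw [Finset.sum_congr rfl fun b _ => e1 b, Finset.sum_comm]
      refine Finset.sum_eq_zero fun a _ => ?_
      rw [← Finset.mul_sum, Finset.sum_neg_distrib, hk z' hz' a, neg_zero, mul_zero]
    have hall : ∀ y : Fin Q.r → K, Q.kapK (u - u') y = 0 := by
      intro y
      obtain ⟨z', v', hz', hv'⟩ := pg2_dec hT y
      have e2 : Q.kapK (u - u') y = Q.kapK (u - u') z' + Q.kapK (u - u') (Q.brK Q.c v') := by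
        rw [hv', kapK_flat, kapK_flat, kapK_flat, ← Finset.sum_add_distrib]
        exact Finset.sum_congr rfl fun a _ => mul_add _ _ _
      have e3 : Q.kapK (u - u') (Q.brK Q.c v') = 0 := by
        have e4 := kapK_inv (Q := Q) Q.c (u - u') v'
        rw [hker] at e4
        have h0 : Q.kapK (0 : Fin Q.r → K) v' = 0 := by
          unfold TQD.kapK
          exact Finset.sum_eq_zero fun a _ => Finset.sum_eq_zero fun b _ => by
            rw [Pi.zero_apply, zero_mul, smul_zero]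
        rw [h0] at e4
        exact neg_eq_zero.1 e4.symm
      rw [e2, hperp z' hz', e3, add_zero]
    have hz0 : u - u' = 0 := by
      apply flat_injective (Q := Q) hT.kill
      funext a
      have e5 := hall (Pi.single a 1)
      rw [kapK_flat] at e5
      rw [Finset.sum_eq_single a] at e5
      · rw [Pi.single_eq_same, mul_one] at e5
        exact e5
      · intro b _ hb
        rw [Pi.single_eq_of_ne hb, mul_zero]
      · intro h
        exact absurd (Finset.mem_univ a) h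
    intro b
    have e6 : ∑ a, (R a b - P.rho a b) * α a =
        ∑ a, (R a b - P.rho a b) * Q.flat z a +
          ∑ a, (R a b - P.rho a b) * Q.flat (Q.brK Q.c v) a := by
      rw [hα, ← Finset.sum_add_distrib]
      exact Finset.sum_congr rfl fun a _ => mul_add _ _ _
    rw [e6, hk z hz b, ← huu b, hz0, zero_add]
    rfl
  ext a b
  have e7 := key (Pi.single a 1) b
  rw [Finset.sum_eq_single a] at e7
  · rw [Pi.single_eq_same, mul_one] at e7
    exact sub_eq_zero.1 e7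
  · intro c _ hc
    rw [Pi.single_eq_of_ne hc, mul_zero]
  · intro h
    exact absurd (Finset.mem_univ a) h

/-- [MTF-PG2] the matrix of `Ad_γ` -/
noncomputable def gm (Q : TQD G K W X) (γ : G.X) (a b : Fin Q.r) : ℂ := Q.D.repr (G.Ad γ (Q.D b)) a

/-- the matrix of `Ad_γ` over `K` acting on vectors -/
noncomputable def pg2_g (Q : TQD G K W X) (γ : G.X) (z : Fin Q.r → K) (a : Fin Q.r) : K :=
  ∑ b, algebraMap ℂ K (gm Q γ a b) * z b

/-- the transposed matrix -/
noncomputable def pg2_t (Q : TQD G K W X) (γ : G.X) (z : Fin Q.r → K) (b : Fin Q.r) : K :=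
  ∑ a, algebraMap ℂ K (gm Q γ a b) * z a

theorem pg2_gm_mul (x y : G.X) (a b : Fin Q.r) : gm Q (x * y) a b = ∑ c, gm Q x a c * gm Q y c b := by
  have e := congrFun (congrFun ((adR Q).ρ.map_mul x y) a) b
  exact e

theorem pg2_gm_one (a b : Fin Q.r) : gm Q (1 : G.X) a b = if a = b then 1 else 0 := by
  have e := congrFun (congrFun ((adR Q).ρ.map_one) a) b
  exact e

theorem pg2_gg (x y : G.X) (hxy : x * y = 1) (z : Fin Q.r → K) : pg2_g Q x (pg2_g Q y z) = z := by
  classical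
  funext a
  unfold pg2_g
  have e1 : ∀ c, algebraMap ℂ K (gm Q x a c) * ∑ b, algebraMap ℂ K (gm Q y c b) * z b =
      ∑ b, algebraMap ℂ K (gm Q x a c * gm Q y c b) * z b := by
    intro c
    rw [Finset.mul_sum]
    refine Finset.sum_congr rfl fun b _ => ?_
    rw [map_mul, mul_assoc]
  rw [Finset.sum_congr rfl fun c _ => e1 c, Finset.sum_comm]
  have e2 : ∀ b, ∑ c, algebraMap ℂ K (gm Q x a c * gm Q y c b) * z b =
      algebraMap ℂ K (if a = b then 1 else 0) * z b := by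
    intro b
    rw [← Finset.sum_mul, ← map_sum, ← pg2_gm_mul, hxy, pg2_gm_one]
  rw [Finset.sum_congr rfl fun b _ => e2 b, Finset.sum_eq_single a]
  · rw [if_pos rfl, map_one, one_mul]
  · intro b _ hb
    rw [if_neg (Ne.symm hb), map_zero, zero_mul]
  · intro h
    exact absurd (Finset.mem_univ a) h

theorem pg2_tt (x y : G.X) (hxy : x * y = 1) (z : Fin Q.r → K) : pg2_t Q y (pg2_t Q x z) = z := by
  classical
  funext b
  unfold pg2_t
  have e1 : ∀ c, algebraMap ℂ K (gm Q y c b) * ∑ a, algebraMap ℂ K (gm Q x a c) * z a =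
      ∑ a, algebraMap ℂ K (gm Q x a c * gm Q y c b) * z a := by
    intro c
    rw [Finset.mul_sum]
    refine Finset.sum_congr rfl fun a _ => ?_
    rw [map_mul]
    ring
  rw [Finset.sum_congr rfl fun c _ => e1 c, Finset.sum_comm]
  have e2 : ∀ a, ∑ c, algebraMap ℂ K (gm Q x a c * gm Q y c b) * z a =
      algebraMap ℂ K (if a = b then 1 else 0) * z a := by
    intro a
    rw [← Finset.sum_mul, ← map_sum, ← pg2_gm_mul, hxy, pg2_gm_one]
  rw [Finset.sum_congr rfl fun a _ => e2 a, Finset.sum_eq_single b]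
  · rw [if_pos rfl, map_one, one_mul]
  · intro a _ ha
    rw [if_neg ha, map_zero, zero_mul]
  · intro h
    exact absurd (Finset.mem_univ b) h

theorem pg2_br_Ad (x : G.X) (D E : G.Lie) : G.br (G.Ad x D) (G.Ad x E) = G.Ad x (G.br D E) := by
  have h : ∀ (E : G.Lie) (f : G.O), G.cj x (G.der (G.Ad x E) f) = G.der E (G.cj x f) := by
    intro E f
    apply Subtype.ext
    funext y
    show E.1 (G.cj x (G.lt (x * y * x⁻¹) f)) = E.1 (G.lt y (G.cj x f))
    congr 1
    apply Subtype.ext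
    funext z
    show f.1 (x * y * x⁻¹ * (x * z * x⁻¹)) = f.1 (x * (y * z) * x⁻¹)
    congr 1
    group
  apply G.Lie_ext
  intro f
  show D.1 (G.cj x (G.der (G.Ad x E) f)) - E.1 (G.cj x (G.der (G.Ad x D) f)) =
    D.1 (G.der E (G.cj x f)) - E.1 (G.der D (G.cj x f))
  rw [h, h]

/-- the structure constants are invariant -/
theorem pg2_stc (γ : G.X) (p q c' : Fin Q.r) :
    ∑ a, ∑ b, Q.stc a b c' * (gm Q γ a p * gm Q γ b q) = ∑ c, gm Q γ c' c * Q.stc p q c := by
  have e1 := br_repr (Q := Q) (G.Ad γ (Q.D p)) (G.Ad γ (Q.D q)) c'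
  rw [pg2_br_Ad] at e1
  have e2 : G.Ad γ (G.br (Q.D p) (Q.D q)) = ∑ c, Q.stc p q c • G.Ad γ (Q.D c) := by
    conv_lhs => rw [← Q.D.sum_repr (G.br (Q.D p) (Q.D q))]
    rw [map_sum]
    refine Finset.sum_congr rfl fun c _ => ?_
    rw [map_smul]
    rfl
  rw [e2, map_sum, Finsupp.finsetSum_apply] at e1
  have e3 : ∀ c, (Q.D.repr (Q.stc p q c • G.Ad γ (Q.D c))) c' = gm Q γ c' c * Q.stc p q c := by
    intro c
    rw [map_smul, Finsupp.smul_apply, smul_eq_mul, mul_comm]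
    rfl
  rw [Finset.sum_congr rfl fun c _ => e3 c] at e1
  rw [e1]
  rfl

/-- the Gram matrix is invariant -/
theorem pg2_kap (γ : G.X) (p q : Fin Q.r) :
    ∑ a, ∑ b, Q.kap a b * (gm Q γ a p * gm Q γ b q) = Q.kap p q := by
  have e1 := killing_repr (Q := Q) (G.Ad γ (Q.D p)) (G.Ad γ (Q.D q))
  rw [killing_Ad] at e1
  exact e1.symm

theorem pg2_brg (γ : G.X) (z z' : Fin Q.r → K) :
    Q.brK (pg2_g Q γ z) (pg2_g Q γ z') = pg2_g Q γ (Q.brK z z') := by
  funext c'
  have e1 : Q.brK (pg2_g Q γ z) (pg2_g Q γ z') c' =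
      ∑ p, ∑ q, (∑ a, ∑ b, Q.stc a b c' * (gm Q γ a p * gm Q γ b q)) • (z p * z' q) := by
    unfold TQD.brK pg2_g
    have e2 : ∀ a b, Q.stc a b c' • ((∑ p, algebraMap ℂ K (gm Q γ a p) * z p) *
        ∑ q, algebraMap ℂ K (gm Q γ b q) * z' q) =
        ∑ p, ∑ q, (Q.stc a b c' * (gm Q γ a p * gm Q γ b q)) • (z p * z' q) := by
      intro a b
      rw [Finset.sum_mul_sum, Finset.smul_sum]
      refine Finset.sum_congr rfl fun p _ => ?_
      rw [Finset.smul_sum]
      refine Finset.sum_congr rfl fun q _ => ?_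
      rw [Algebra.smul_def, Algebra.smul_def, map_mul, map_mul]
      ring
    rw [Finset.sum_congr rfl fun a _ => Finset.sum_congr rfl fun b _ => e2 a b]
    have e3 : ∀ a, ∑ b, ∑ p, ∑ q, (Q.stc a b c' * (gm Q γ a p * gm Q γ b q)) • (z p * z' q) =
        ∑ p, ∑ q, ∑ b, (Q.stc a b c' * (gm Q γ a p * gm Q γ b q)) • (z p * z' q) := by
      intro a
      rw [Finset.sum_comm]
      exact Finset.sum_congr rfl fun p _ => Finset.sum_comm
    rw [Finset.sum_congr rfl fun a _ => e3 a, Finset.sum_comm]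
    refine Finset.sum_congr rfl fun p _ => ?_
    rw [Finset.sum_comm]
    refine Finset.sum_congr rfl fun q _ => ?_
    rw [Finset.sum_smul]
    exact Finset.sum_congr rfl fun a _ => (Finset.sum_smul ..).symm
  rw [e1]
  have e4 : ∀ p q, (∑ a, ∑ b, Q.stc a b c' * (gm Q γ a p * gm Q γ b q)) • (z p * z' q) =
      ∑ c, algebraMap ℂ K (gm Q γ c' c) * (Q.stc p q c • (z p * z' q)) := by
    intro p q
    rw [pg2_stc, Finset.sum_smul]
    refine Finset.sum_congr rfl fun c _ => ?_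
    rw [mul_smul, Algebra.smul_def (gm Q γ c' c)]
  rw [Finset.sum_congr rfl fun p _ => Finset.sum_congr rfl fun q _ => e4 p q]
  have e5 : ∀ p, ∑ q, ∑ c, algebraMap ℂ K (gm Q γ c' c) * (Q.stc p q c • (z p * z' q)) =
      ∑ c, ∑ q, algebraMap ℂ K (gm Q γ c' c) * (Q.stc p q c • (z p * z' q)) := fun p =>
    Finset.sum_comm
  rw [Finset.sum_congr rfl fun p _ => e5 p, Finset.sum_comm]
  unfold pg2_g TQD.brK
  refine Finset.sum_congr rfl fun c _ => ?_
  rw [Finset.mul_sum]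
  refine Finset.sum_congr rfl fun p _ => ?_
  rw [Finset.mul_sum]

theorem pg2_flatg (γ : G.X) (z : Fin Q.r → K) : pg2_t Q γ (Q.flat (pg2_g Q γ z)) = Q.flat z := by
  funext q
  unfold pg2_t TQD.flat pg2_g
  have e1 : ∀ a, algebraMap ℂ K (gm Q γ a q) *
      (∑ b, Q.kap b a • ∑ p, algebraMap ℂ K (gm Q γ b p) * z p) =
      ∑ p, (∑ b, Q.kap b a * (gm Q γ b p * gm Q γ a q)) • z p := by
    intro a
    rw [Finset.mul_sum]
    have e2 : ∀ b, algebraMap ℂ K (gm Q γ a q) * (Q.kap b a • ∑ p, algebraMap ℂ K (gm Q γ b p) * z p) =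
        ∑ p, (Q.kap b a * (gm Q γ b p * gm Q γ a q)) • z p := by
      intro b
      rw [Finset.smul_sum, Finset.mul_sum]
      refine Finset.sum_congr rfl fun p _ => ?_
      rw [Algebra.smul_def, Algebra.smul_def, map_mul, map_mul]
      ring
    rw [Finset.sum_congr rfl fun b _ => e2 b, Finset.sum_comm]
    exact Finset.sum_congr rfl fun p _ => (Finset.sum_smul ..).symm
  rw [Finset.sum_congr rfl fun a _ => e1 a, Finset.sum_comm]
  refine Finset.sum_congr rfl fun p _ => ?_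
  rw [← Finset.sum_smul, Finset.sum_comm, pg2_kap]

/-- `g` and its transpose are adjoint -/
theorem pg2_adj (γ : G.X) (α z : Fin Q.r → K) :
    ∑ b, pg2_t Q γ α b * z b = ∑ a, α a * pg2_g Q γ z a := by
  unfold pg2_t pg2_g
  have e1 : ∀ b, (∑ a, algebraMap ℂ K (gm Q γ a b) * α a) * z b =
      ∑ a, α a * (algebraMap ℂ K (gm Q γ a b) * z b) := by
    intro b
    rw [Finset.sum_mul]
    refine Finset.sum_congr rfl fun a _ => ?_
    ring
  rw [Finset.sum_congr rfl fun b _ => e1 b, Finset.sum_comm]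
  exact Finset.sum_congr rfl fun a _ => (Finset.mul_sum ..).symm

theorem pg2_g_neg (γ : G.X) (z : Fin Q.r → K) : pg2_g Q γ (-z) = - pg2_g Q γ z := by
  funext a
  unfold pg2_g
  rw [Pi.neg_apply, ← Finset.sum_neg_distrib]
  exact Finset.sum_congr rfl fun b _ => by rw [Pi.neg_apply, mul_neg]

/-- `ι` on vectors -/
def pg2_i (ι : K ≃ₐ[ℂ] K) {n : ℕ} (z : Fin n → K) (a : Fin n) : K := ι (z a)

theorem pg2_ibr (ι : K ≃ₐ[ℂ] K) (z z' : Fin Q.r → K) :
    Q.brK (pg2_i ι z) (pg2_i ι z') = pg2_i ι (Q.brK z z') := by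
  funext c
  unfold TQD.brK pg2_i
  rw [map_sum]
  refine Finset.sum_congr rfl fun a _ => ?_
  rw [map_sum]
  refine Finset.sum_congr rfl fun b _ => ?_
  rw [map_smul, map_mul]

theorem pg2_iflat (ι : K ≃ₐ[ℂ] K) (z : Fin Q.r → K) : Q.flat (pg2_i ι z) = pg2_i ι (Q.flat z) := by
  funext a
  unfold TQD.flat pg2_i
  rw [map_sum]
  refine Finset.sum_congr rfl fun b _ => ?_
  rw [map_smul]

theorem pg2_ig (ι : K ≃ₐ[ℂ] K) (γ : G.X) (z : Fin Q.r → K) :
    pg2_i ι (pg2_g Q γ z) = pg2_g Q γ (pg2_i ι z) := by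
  funext a
  unfold pg2_g pg2_i
  rw [map_sum]
  refine Finset.sum_congr rfl fun b _ => ?_
  rw [map_mul, AlgEquiv.commutes]

theorem pg2_ii (h : PO Q P ι γ) (z : Fin Q.r → K) : pg2_i ι (pg2_i ι z) = z :=
  funext fun a => h.ii (z a)

theorem pg2_br_neg (z z' : Fin Q.r → K) : Q.brK (-z) z' = - Q.brK z z' := by
  funext c
  unfold TQD.brK
  rw [Pi.neg_apply, ← Finset.sum_neg_distrib]
  refine Finset.sum_congr rfl fun a _ => ?_
  rw [← Finset.sum_neg_distrib]
  refine Finset.sum_congr rfl fun b _ => ?_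
  rw [Pi.neg_apply, neg_mul, smul_neg]

theorem pg2_flat_neg (z : Fin Q.r → K) : Q.flat (-z) = - Q.flat z := by
  funext c
  unfold TQD.flat
  rw [Pi.neg_apply, ← Finset.sum_neg_distrib]
  refine Finset.sum_congr rfl fun a _ => ?_
  rw [Pi.neg_apply, smul_neg]

theorem pg2_adc (k : G.X) : Q.adc k = pg2_g Q k Q.c := by
  funext i
  unfold TQD.adc pg2_g
  exact Finset.sum_congr rfl fun j _ => mul_comm _ _

/-- `c = - g (ι c)` -/
theorem pg2_c (h : PO Q P ι γ) : pg2_g Q γ (pg2_i ι Q.c) = - Q.c := by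
  have e1 : pg2_i ι Q.c = - pg2_g Q γ Q.c := by
    funext i
    show ι (Q.c i) = _
    rw [h.ic i, pg2_adc]
    rfl
  rw [← pg2_ig]
  have e2 : pg2_g Q γ Q.c = - pg2_i ι Q.c := by rw [e1, neg_neg]
  rw [e2]
  have e3 : pg2_i ι (-pg2_i ι Q.c) = - pg2_i ι (pg2_i ι Q.c) :=
    funext fun a => map_neg ι _
  rw [e3, pg2_ii h]

theorem pg2_theta (h : PO Q P ι γ) (z : Fin Q.r → K) :
    Q.brK Q.c (pg2_g Q γ (pg2_i ι z)) = - pg2_g Q γ (pg2_i ι (Q.brK Q.c z)) := by
  have e1 : Q.c = - pg2_g Q γ (pg2_i ι Q.c) := by rw [pg2_c h, neg_neg]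
  conv_lhs => rw [e1]
  rw [pg2_br_neg, pg2_brg, pg2_ibr]

theorem pg2_i_zero (ι : K ≃ₐ[ℂ] K) {n : ℕ} : pg2_i ι (0 : Fin n → K) = 0 := funext fun _ => map_zero ι

theorem pg2_g_zero (γ : G.X) : pg2_g Q γ (0 : Fin Q.r → K) = 0 := by
  funext a
  unfold pg2_g
  exact Finset.sum_eq_zero fun b _ => by rw [Pi.zero_apply, mul_zero]

/-- [MTF-PG2] PROOF. `g := gm Q γ`.  Let `R a b := - ∑_{a', b'} g⁻¹ a a' * g⁻¹ b b' * ι (rho a' b')`, `g⁻¹ = gm Q γ⁻¹`; show that `R` satisfies the hypotheses of `rho_unique`, then multiply by `g`.  With `(Ad_γ z) a := ∑_b g a b z b`: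
`brK (Ad_γ z) (Ad_γ z') = Ad_γ (brK z z')`, `kapK (Ad_γ z) (Ad_γ z') = kapK z z'` (`killing_Ad`; complex matrices), `brK (ι z) (ι z') = ι (brK z z')`, `h.ic` : `ι c = - Ad_γ c`; so for
`z^θ := Ad_γ⁻¹ (ι z)`: `brK c (z^θ) = - (brK c z)^θ`, `kapK z^θ z'^θ = ι (kapK z z')`, and the kernel of `ad s` is stable under `z ↦ z^θ`.  `rho^θ` (the transported form) satisfies
`brK c (rho^θ α) = - α^♯` for `α` orthogonal to the kernel; `R = - rho^θ`. -/
theorem rho_iota (hT : TQ Q) (hP : PQ Q P) (h : PO Q P ι γ) (a b : Fin Q.r) :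
    ι (P.rho a b) = - ∑ a', ∑ b', algebraMap ℂ K (gm Q γ a a' * gm Q γ b b') * P.rho a' b' := by
  classical
  obtain ⟨R, hR⟩ : ∃ R : Matrix (Fin Q.r) (Fin Q.r) K, ∀ a b, R a b =
      - ∑ a', ∑ b', algebraMap ℂ K (gm Q γ a a' * gm Q γ b b') * ι (P.rho a' b') :=
    ⟨Matrix.of fun a b => - ∑ a', ∑ b', algebraMap ℂ K (gm Q γ a a' * gm Q γ b b') * ι (P.rho a' b'),
      fun _ _ => rfl⟩
  -- the action of `R` on covectors
  have hRα : ∀ α : Fin Q.r → K, (fun b => ∑ a, R a b * α a) =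
      - pg2_g Q γ (pg2_i ι fun b' => ∑ a', P.rho a' b' * pg2_i ι (pg2_t Q γ α) a') := by
    intro α
    funext b
    show ∑ a, R a b * α a = - ∑ b', algebraMap ℂ K (gm Q γ b b') *
      ι (∑ a', P.rho a' b' * ι (∑ a, algebraMap ℂ K (gm Q γ a a') * α a))
    have e1 : ∀ a, R a b * α a = - ∑ b', ∑ a', algebraMap ℂ K (gm Q γ b b') *
        (ι (P.rho a' b') * (algebraMap ℂ K (gm Q γ a a') * α a)) := by
      intro a
      rw [hR, neg_mul, Finset.sum_mul, Finset.sum_comm]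
      congr 1
      have e2 : ∀ a', (∑ b', algebraMap ℂ K (gm Q γ a a' * gm Q γ b b') * ι (P.rho a' b')) * α a =
          ∑ b', algebraMap ℂ K (gm Q γ b b') *
            (ι (P.rho a' b') * (algebraMap ℂ K (gm Q γ a a') * α a)) := by
        intro a'
        rw [Finset.sum_mul]
        refine Finset.sum_congr rfl fun b' _ => ?_
        rw [map_mul]
        ring
      exact Finset.sum_congr rfl fun a' _ => e2 a'
    rw [Finset.sum_congr rfl fun a _ => e1 a, Finset.sum_neg_distrib, Finset.sum_comm]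
    congr 1
    refine Finset.sum_congr rfl fun b' _ => ?_
    rw [Finset.sum_comm, map_sum, Finset.mul_sum]
    refine Finset.sum_congr rfl fun a' _ => ?_
    rw [map_mul, h.ii, ← Finset.mul_sum, ← Finset.mul_sum]
  have hres : R = P.rho := by
    refine rho_unique hT hP R ?_ ?_ ?_
    · intro a b
      rw [hR, hR, neg_neg, ← Finset.sum_neg_distrib, Finset.sum_comm]
      refine Finset.sum_congr rfl fun b' _ => ?_
      rw [← Finset.sum_neg_distrib]
      refine Finset.sum_congr rfl fun a' _ => ?_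
      rw [hP.rho_skew a' b', map_neg, mul_comm (gm Q γ a b')]
      ring
    · intro α hα
      rw [hRα]
      obtain ⟨β, hβ⟩ : ∃ β : Fin Q.r → K, β = pg2_i ι (pg2_t Q γ α) := ⟨_, rfl⟩
      rw [← hβ]
      have hβo : ∀ z, Q.brK Q.c z = 0 → ∑ a, β a * z a = 0 := by
        intro z hz
        have e1 : ∑ a, β a * z a = ι (∑ a, α a * pg2_g Q γ (pg2_i ι z) a) := by
          rw [← pg2_adj, map_sum]
          refine Finset.sum_congr rfl fun a _ => ?_
          rw [map_mul, hβ]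
          show ι (pg2_t Q γ α a) * z a = ι (pg2_t Q γ α a) * ι (ι (z a))
          rw [h.ii]
        rw [e1, hα _ (by rw [pg2_theta h, hz, pg2_i_zero, pg2_g_zero, neg_zero]), map_zero]
      have e2 := hP.rho_im β hβo
      obtain ⟨u, hu⟩ : ∃ u : Fin Q.r → K, u = fun b' => ∑ a', P.rho a' b' * β a' := ⟨_, rfl⟩
      rw [← hu] at e2 ⊢
      have e3 : Q.brK Q.c (-pg2_g Q γ (pg2_i ι u)) = pg2_g Q γ (pg2_i ι (Q.brK Q.c u)) := by
        rw [brK_skew, pg2_br_neg, neg_neg, brK_skew, pg2_theta h, neg_neg]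
      rw [e3]
      have e4 : pg2_t Q γ (Q.flat (pg2_g Q γ (pg2_i ι (Q.brK Q.c u)))) = pg2_t Q γ α := by
        rw [pg2_flatg, pg2_iflat, e2, hβ, pg2_ii h]
      have e5 := congrArg (pg2_t Q γ⁻¹) e4
      rw [pg2_tt γ γ⁻¹ (mul_inv_cancel γ), pg2_tt γ γ⁻¹ (mul_inv_cancel γ)] at e5
      exact e5
    · intro z hz b
      obtain ⟨z', hz'⟩ : ∃ z' : Fin Q.r → K, z' = pg2_i ι (pg2_g Q γ⁻¹ z) := ⟨_, rfl⟩
      have e1 : z = pg2_g Q γ (pg2_i ι z') := by
        rw [hz', pg2_ii h, pg2_gg γ γ⁻¹ (mul_inv_cancel γ)]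
      have e2 : Q.brK Q.c z' = 0 := by
        have e3 := hz
        rw [e1, pg2_theta h, neg_eq_zero] at e3
        have e4 := congrArg (pg2_g Q γ⁻¹) e3
        rw [pg2_gg γ⁻¹ γ (inv_mul_cancel γ), pg2_g_zero] at e4
        have e5 := congrArg (pg2_i ι) e4
        rw [pg2_ii h, pg2_i_zero] at e5
        exact e5
      have e6 := congrFun (hRα (Q.flat z)) b
      have e7 : pg2_i ι (pg2_t Q γ (Q.flat z)) = Q.flat z' := by
        rw [e1, pg2_flatg, pg2_iflat, pg2_ii h]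
      rw [e7] at e6
      have e8 : (fun b' => ∑ a', P.rho a' b' * Q.flat z' a') = 0 := funext fun b' => hP.rho_ker z' e2 b'
      rw [e8, pg2_i_zero, pg2_g_zero, neg_zero] at e6
      exact e6
  rw [← hres, hR, map_neg, map_sum]
  congr 1
  refine Finset.sum_congr rfl fun a' _ => ?_
  rw [map_sum]
  refine Finset.sum_congr rfl fun b' _ => ?_
  rw [map_mul, AlgEquiv.commutes, h.ii, hres]

/-- [MTF-PG2] PROOF. `ι (∂_j c_i) = - ∂_j (ι c_i) = ∂_j (adc γ i) = ∑_b g_ib ∂_j c_b`; `sig j a = κ(∂_j s, D_a) = κ(Ad_γ ∂_j s, Ad_γ D_a)` (`killing_Ad`). -/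
theorem sig_iota (h : PO Q P ι γ) (j : Fin P.n) (a : Fin Q.r) :
    ∑ b, algebraMap ℂ K (gm Q γ b a) * ι (P.sig j b) = P.sig j a := by
  have e1 : pg2_i ι (fun i => P.dd j (Q.c i)) = pg2_g Q γ (fun i => P.dd j (Q.c i)) := by
    funext i
    show ι (P.dd j (Q.c i)) = ∑ b, algebraMap ℂ K (gm Q γ i b) * P.dd j (Q.c b)
    rw [h.idd, h.ic, map_neg, neg_neg, pg2_adc]
    unfold pg2_g
    rw [map_sum]
    refine Finset.sum_congr rfl fun b _ => ?_
    rw [Derivation.leibniz, Derivation.map_algebraMap, smul_zero, add_zero, smul_eq_mul]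
  have e2 : pg2_t Q γ (pg2_i ι (Q.flat fun i => P.dd j (Q.c i))) = Q.flat fun i => P.dd j (Q.c i) := by
    rw [← pg2_iflat, e1, pg2_flatg]
  exact congrFun e2 a

end

end Pool.Agent.MTF
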