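import Pool.Agent.MTF.PG1
import Pool.Agent.MTF.PG2
import Pool.Agent.MTF.PE2

/-! # MTF, part P : the opposite: the bracket -/

set_option linter.unusedSectionVars false

namespace Pool.Agent.MTF

attribute [-instance] SeminormedRing.toRing NormedRing.toRing SeminormedCommRing.toCommRing NormedCommRing.toCommRing
  NormedField.toField NormedDivisionRing.toDivisionRing BooleanRing.toRing BooleanRing.toCommRing
  IdemSemiring.toSemiring IdemCommSemiring.toCommSemiring IdemCommSemiring.toIdemSemiring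
  LinearOrderedAddCommGroupWithTop.toSubNegMonoid EuclideanDomain.toCommRing littleWedderburn
  SeminormedAddCommGroup.toAddCommGroup NormedAddCommGroup.toAddCommGroup SeminormedAddGroup.toAddGroup
  NormedAddGroup.toAddGroup Field.toEuclideanDomain

open AffGrp

/-- interchange of sums -/
theorem pg3_swap {M : Type} [AddCommMonoid M] {n : ℕ} (f : Fin n → Fin n → Fin n → Fin n → M) :
    ∑ a, ∑ b, ∑ a', ∑ b', f a b a' b' = ∑ a', ∑ b', ∑ a, ∑ b, f a b a' b' := by
  have h1 : ∀ a, ∑ b, ∑ a', ∑ b', f a b a' b' = ∑ a', ∑ b, ∑ b', f a b a' b' := fun a =>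
    Finset.sum_comm
  simp only [h1]
  rw [Finset.sum_comm]
  refine Finset.sum_congr rfl fun a' _ => ?_
  have h2 : ∀ a, ∑ b, ∑ b', f a b a' b' = ∑ b', ∑ b, f a b a' b' := fun a => Finset.sum_comm
  simp only [h2]
  rw [Finset.sum_comm]

/-- a sum of products, transported by a matrix -/
theorem pg3_sum {K R : Type} [CommRing K] [CommRing R] [Algebra K R] {n : ℕ}
    (rho rho' g : Fin n → Fin n → K) (u v : Fin n → R)
    (h : ∀ a b, rho' a b = - ∑ a', ∑ b', (g a a' * g b b') * rho a' b') :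
    ∑ a, ∑ b, rho a b • ((∑ a', g a' a • u a') * (∑ b', g b' b • v b')) =
      - ∑ a, ∑ b, rho' a b • (u a * v b) := by
  have e1 : ∀ a b, rho a b • ((∑ a', g a' a • u a') * (∑ b', g b' b • v b')) =
      ∑ a', ∑ b', ((g a' a * g b' b) * rho a b) • (u a' * v b') := by
    intro a b
    rw [Finset.sum_mul_sum, Finset.smul_sum]
    refine Finset.sum_congr rfl fun a' _ => ?_
    rw [Finset.smul_sum]
    refine Finset.sum_congr rfl fun b' _ => ?_
    rw [smul_mul_smul_comm, smul_smul, mul_comm (rho a b)]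
  have e2 : ∀ a b, rho' a b • (u a * v b) =
      - ∑ a', ∑ b', ((g a a' * g b b') * rho a' b') • (u a * v b) := by
    intro a b
    rw [h, neg_smul, Finset.sum_smul]
    congr 1
    exact Finset.sum_congr rfl fun a' _ => Finset.sum_smul
  simp only [e1, e2, Finset.sum_neg_distrib, neg_neg]
  rw [pg3_swap fun a b a' b' => ((g a' a * g b' b) * rho a b) • (u a' * v b')]

section
variable {G : AffGrp} {K W X : Type} [Field K] [Algebra ℂ K] [Group W] [Fintype W]
  [MulSemiringAction W K] [SMulCommClass W ℂ K] [AddCommGroup X] [DistribMulAction W X]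
variable {Q : TQD G K W X}
variable {P : PD Q}
variable {L : Type} [Fintype L] [DecidableEq L]

variable {ι : K ≃ₐ[ℂ] K} {γ : G.X}

theorem pg3_sum_sub {I : Type} (s : Finset I) (f g : I → RR G K X L) :
    ∑ x ∈ s, (f x - g x) = ∑ x ∈ s, f x - ∑ x ∈ s, g x := Finset.sum_sub_distrib f g

theorem pg3_neg {a b : RR G K X L} (h : a = -b) : b = -a := by
  rw [h]
  exact (neg_neg b).symm

theorem pg3_csmul (c : ℂ) (F : RR G K X L) : c • F = algebraMap ℂ K c • F := by
  apply RR_ext
  intro m k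
  rw [AddMonoidAlgebra.coeff_smul_apply, AddMonoidAlgebra.coeff_smul_apply]
  exact Algebra.smul_def c ((F.coeff m).1 k)

theorem pg3_th_smul (x : K) (F : RR G K X L) : th X ι γ L (x • F) = ι x • th X ι γ L F := by
  apply RR_ext
  intro m k
  rw [th_apply, AddMonoidAlgebra.coeff_smul_apply, AddMonoidAlgebra.coeff_smul_apply]
  refine (map_mul ι x _).trans ?_
  rw [← th_apply]
  rfl

/-- [MTF-PG3] PROOF. coefficients: `nD_coeff`, `th_coeff`, `map_mul`, integers. -/
theorem th_DN (j : Fin P.n) (F : RR G K X L) : P.DN L j (th X ι γ L F) = th X ι γ L (P.DN L j F) := by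
  apply RR_ext
  intro m k
  rw [DN_coeff, th_apply, DN_coeff]
  refine Eq.trans ?_ (map_mul ι _ _).symm
  rw [map_intCast]
  rfl

theorem th_DX (h : PO Q P ι γ) (j : Fin P.n) (F : RR G K X L) :
    P.DX L j (th X ι γ L F) = - th X ι γ L (P.DX L j F) := by
  apply RR_ext
  intro m k
  rw [DX_coeff, th_apply]
  have h1 := h.idd j ((F.coeff m).1 (fun l => k l * γ⁻¹))
  have h2 : ((-th X ι γ L (P.DX L j F)).coeff m).1 k = -((th X ι γ L (P.DX L j F)).coeff m).1 k := rfl
  rw [h2, th_apply, DX_coeff, h1, neg_neg]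

/-- [MTF-PG3] PROOF. `derK_thO`, `G.Ad γ (D a) = ∑ b, gm Q γ b a • D b`. -/
theorem th_DL (l : L) (a : Fin Q.r) (F : RR G K X L) :
    PD.DL (Q := Q) l a (th X ι γ L F) = ∑ b, gm Q γ b a • th X ι γ L (PD.DL (Q := Q) l b F) := by
  apply RR_ext
  intro m k
  rw [← pb7_ev_apply m k (∑ b, gm Q γ b a • th X ι γ L (PD.DL (Q := Q) l b F)), map_sum, DL_coeff,
    th_coeff, derK_thO, thO_apply, pb7_derK_lin Q, map_sum]
  refine Finset.sum_congr rfl fun b _ => ?_
  rw [map_mul, pg3_csmul, map_smul, pb7_ev_apply, th_apply, DL_coeff]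
  refine congrArg₂ (· * ·) ?_ rfl
  exact ι.commutes _

/-- [MTF-PG3] PROOF. `th_DL`, `th_DN`, `sig_iota`; `th (x • F) = ι x • th F`. -/
theorem th_AL (h : PO Q P ι γ) (ε : L → Bool) (l : L) (a : Fin Q.r) (F : RR G K X L) :
    P.AL ε l a (th X ι γ L F) = ∑ b, gm Q γ b a • th X ι γ L (P.AL ε l b F) := by
  have h1 : ∑ j, P.sig j a • P.DN L j (th X ι γ L F) =
      ∑ b, gm Q γ b a • ∑ j, ι (P.sig j b) • th X ι γ L (P.DN L j F) := by
    have h2 : ∀ j, P.sig j a • P.DN L j (th X ι γ L F) =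
        ∑ b, gm Q γ b a • ι (P.sig j b) • th X ι γ L (P.DN L j F) := by
      intro j
      rw [← sig_iota h j a, th_DN, Finset.sum_smul]
      refine Finset.sum_congr rfl fun b _ => ?_
      rw [pg3_csmul, smul_smul]
    simp only [h2]
    rw [Finset.sum_comm]
    refine Finset.sum_congr rfl fun b _ => ?_
    rw [Finset.smul_sum]
  have h3 : ∀ b, th X ι γ L (P.AL ε l b F) = th X ι γ L (PD.DL (Q := Q) l b F) -
      sgn (ε l) • ∑ j, ι (P.sig j b) • th X ι γ L (P.DN L j F) := by
    intro b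
    show th X ι γ L (PD.DL l b F - sgn (ε l) • ∑ j, P.sig j b • P.DN L j F) = _
    rw [map_sub, map_zsmul, map_sum]
    congr 2
    exact Finset.sum_congr rfl fun j _ => pg3_th_smul _ _
  show PD.DL l a (th X ι γ L F) - sgn (ε l) • ∑ j, P.sig j a • P.DN L j (th X ι γ L F) = _
  rw [th_DL, h1, Finset.smul_sum, ← pg3_sum_sub]
  refine Finset.sum_congr rfl fun b _ => ?_
  rw [h3, pb0_smul_sub, smul_comm (gm Q γ b a) (sgn (ε l))]

/-- [MTF-PG3] PROOF. `th_DN`, `th_DX` for the first sum.  Second: `∑_ab rho a b • (AL a (th F) * AL b (th F')) = ∑_{a'b'} (∑_ab g_{a'a} g_{b'b} rho a b) • th (AL a' F) * th (AL b' F')`, and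
`∑_ab g_{a'a} g_{b'b} rho a b = - ι (rho a' b')` (`rho_iota`). -/
theorem br_th (hT : TQ Q) (hP : PQ Q P) (h : PO Q P ι γ) (ε : L → Bool) (F F' : RR G K X L) :
    P.br ε (th X ι γ L F) (th X ι γ L F') = - th X ι γ L (P.br ε F F') := by
  have h1 : ∑ j, (P.DN L j (th X ι γ L F) * P.DX L j (th X ι γ L F') -
      P.DN L j (th X ι γ L F') * P.DX L j (th X ι γ L F)) =
      - th X ι γ L (∑ j, (P.DN L j F * P.DX L j F' - P.DN L j F' * P.DX L j F)) := by
    rw [map_sum, ← pb0_sum_neg]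
    refine Finset.sum_congr rfl fun j _ => ?_
    rw [th_DN, th_DN, th_DX h, th_DX h, map_sub, map_mul, map_mul]
    ring
  have h2 : ∀ l, ∑ a, ∑ b, P.rho a b • (P.AL ε l a (th X ι γ L F) * P.AL ε l b (th X ι γ L F')) =
      - th X ι γ L (∑ a, ∑ b, P.rho a b • (P.AL ε l a F * P.AL ε l b F')) := by
    intro l
    have h3 : ∀ (F : RR G K X L) (a : Fin Q.r), P.AL ε l a (th X ι γ L F) =
        ∑ b, algebraMap ℂ K (gm Q γ b a) • th X ι γ L (P.AL ε l b F) := by
      intro F a
      rw [th_AL h]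
      exact Finset.sum_congr rfl fun b _ => pg3_csmul _ _
    simp only [h3]
    rw [pg3_sum P.rho (fun a b => ι (P.rho a b)) (fun a b => algebraMap ℂ K (gm Q γ a b))
      (fun a => th X ι γ L (P.AL ε l a F)) (fun b => th X ι γ L (P.AL ε l b F')) (fun a b => by
        rw [rho_iota hT hP h a b]
        simp only [map_mul]), map_sum]
    congr 1
    refine Finset.sum_congr rfl fun a _ => ?_
    rw [map_sum]
    refine Finset.sum_congr rfl fun b _ => ?_
    rw [pg3_th_smul, map_mul]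
  unfold PD.br
  rw [h1, map_sub, map_sum (th X ι γ L) (fun l => sgn (ε l) • ∑ a, ∑ b, P.rho a b •
    (P.AL ε l a F * P.AL ε l b F'))]
  simp only [h2, map_zsmul, pb0_zsmul_neg, pb0_sum_neg]
  ring

/-- [MTF-PG3] the automorphism of the ring -/
noncomputable def thR (hT : TQ Q) (h : PO Q P ι γ) (g : ℕ) (ε : L → Bool) : RA hT g ε ≃ₐ[ℂ] RA hT g ε :=
  AlgEquiv.ofAlgHom
    { toFun := fun F => ra hT g ε (th X ι γ L (rv hT g ε F)) (th_AG hT h (rv_mem hT g ε F))
      map_one' := rv_inj hT g ε (by rw [rv_ra, map_one, map_one])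
      map_mul' := fun F F' => rv_inj hT g ε (by rw [rv_ra, map_mul, map_mul, map_mul, rv_ra, rv_ra])
      map_zero' := rv_inj hT g ε (by rw [rv_ra, map_zero, map_zero])
      map_add' := fun F F' => rv_inj hT g ε (by rw [rv_ra, map_add, map_add, map_add, rv_ra, rv_ra])
      commutes' := fun c => rv_inj hT g ε (by
        rw [rv_ra, AlgHom.commutes]
        exact (th X ι γ L).commutes c) }
    { toFun := fun F => ra hT g ε (th X ι γ⁻¹ L (rv hT g ε F)) (th_AG hT (PO_inv h) (rv_mem hT g ε F))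
      map_one' := rv_inj hT g ε (by rw [rv_ra, map_one, map_one])
      map_mul' := fun F F' => rv_inj hT g ε (by rw [rv_ra, map_mul, map_mul, map_mul, rv_ra, rv_ra])
      map_zero' := rv_inj hT g ε (by rw [rv_ra, map_zero, map_zero])
      map_add' := fun F F' => rv_inj hT g ε (by rw [rv_ra, map_add, map_add, map_add, rv_ra, rv_ra])
      commutes' := fun c => rv_inj hT g ε (by
        rw [rv_ra, AlgHom.commutes]
        exact (th X ι γ⁻¹ L).commutes c) }
    (by
      apply AlgHom.ext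
      intro F
      apply rv_inj hT g ε
      exact th_th' h (rv hT g ε F))
    (by
      apply AlgHom.ext
      intro F
      apply rv_inj hT g ε
      exact th_th h (rv hT g ε F))

theorem rv_thR (hT : TQ Q) (h : PO Q P ι γ) (g : ℕ) (ε : L → Bool) (F : RA hT g ε) :
    rv hT g ε (thR hT h g ε F) = th X ι γ L (rv hT g ε F) := rfl

/-- [MTF-PG3] THE OPPOSITE. PROOF. `thR`: `rv_inj`, `br_th`, `th_gact`, `th_muF`, `muI_apply`, `nuJ_apply`, `Ham.neg`. -/
theorem HA_op (hT : TQ Q) (hP : PQ Q P) (h : PO Q P ι γ)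
    (hfg : ∀ (g : ℕ) (L : Type) [Fintype L] [DecidableEq L] (ε : L → Bool), Algebra.FiniteType ℂ (RA hT g ε))
    (g : ℕ) (I J : Type) [Fintype I] [DecidableEq I] [Fintype J] [DecidableEq J] :
    (HA hT hP hfg g I J).Iso (HA hT hP hfg g I J).neg := by
  refine ⟨thR hT h g (sIJ I J), fun a b => ?_, fun k a => ?_, fun D => ?_, fun D => ?_⟩
  · apply rv_inj hT g (sIJ I J)
    exact pg3_neg (br_th hT hP h (sIJ I J) (rv hT g (sIJ I J) a) (rv hT g (sIJ I J) b))
  · apply rv_inj hT g (sIJ I J)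
    exact th_gact ι γ (Sum.elim k.1 k.2) (rv hT g (sIJ I J) a)
  · show thR hT h g (sIJ I J) (muI hT g I J D) = - muI hT g I J D
    rw [muI_apply, map_sum]
    refine pe2_sum_neg _ _ fun i => ?_
    apply rv_inj hT g (sIJ I J)
    exact th_muF h _ _
  · show thR hT h g (sIJ I J) (nuJ hT g I J D) = - nuJ hT g I J D
    rw [nuJ_apply, map_sum]
    refine pe2_sum_neg _ _ fun i => ?_
    apply rv_inj hT g (sIJ I J)
    exact th_muF h _ _

end

end Pool.Agent.MTF
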