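import Pool.Agent.MTF.PE5
import Pool.Agent.MTF.PE6
import Pool.Agent.MTF.PE8
import Pool.Agent.MTF.PF3
import Pool.Agent.MTF.PF7
import Pool.Agent.MTF.PG3
import Pool.Agent.MTF.F17
import Pool.Agent.MTF.FG5

/-! # MTF, part P : the building blocks -/

set_option linter.unusedSectionVars false

namespace Pool.Agent.MTF

open AffGrp

section
variable {G : AffGrp} {K W X : Type} [Field K] [Algebra ℂ K] [Group W] [Fintype W]
  [MulSemiringAction W K] [SMulCommClass W ℂ K] [AddCommGroup X] [DistribMulAction W X]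
variable {Q : TQD G K W X}
variable {P : PD Q}

section
variable {ι : K ≃ₐ[ℂ] K} {γ : G.X}

/-- finite generation, in the form used here -/
theorem fgR (hT : TQ Q)
    (hFin : ∀ (L : Type) [Finite L] [DecidableEq L] [Nonempty L], FGA hT 0 (fun _ : L => true))
    (g : ℕ) (L : Type) [Fintype L] [DecidableEq L] (ε : L → Bool) : Algebra.FiniteType ℂ (RA hT g ε) :=
  (fg_all hT hFin g L ε).equiv (raE hT g ε).symm

variable (hT : TQ Q) (hP : PQ Q P)
    (hfg : ∀ (g : ℕ) (L : Type) [Fintype L] [DecidableEq L] (ε : L → Bool), Algebra.FiniteType ℂ (RA hT g ε))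

/-- The building blocks for all finite types. -/
noncomputable def HB (g : ℕ) (I J : Type) [Finite I] [Finite J] : Ham (G.pow I) (G.pow J) :=
  @HA G K W X _ _ _ _ _ _ _ _ Q P hT hP hfg g I J (Fintype.ofFinite I) (Classical.decEq I)
    (Fintype.ofFinite J) (Classical.decEq J)

theorem HB_eq (g : ℕ) (I J : Type) [iI : Fintype I] [dI : DecidableEq I] [iJ : Fintype J] [dJ : DecidableEq J] :
    HB hT hP hfg g I J = HA hT hP hfg g I J := by
  unfold HB
  have h1 : Fintype.ofFinite I = iI := Subsingleton.elim _ _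
  have h2 : Classical.decEq I = dI := Subsingleton.elim _ _
  have h3 : Fintype.ofFinite J = iJ := Subsingleton.elim _ _
  have h4 : Classical.decEq J = dJ := Subsingleton.elim _ _
  rw [h1, h2, h3, h4]

theorem HB_rel (g : ℕ) (I J I' J' : Type) [Finite I] [Finite J] [Finite I'] [Finite J'] (u : I ≃ I')
    (v : J ≃ J') : ((HB hT hP hfg g I J).pull u v).Iso (HB hT hP hfg g I' J') := by
  have := Fintype.ofFinite I
  have := Fintype.ofFinite J
  have := Fintype.ofFinite I'
  have := Fintype.ofFinite J'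
  classical
  rw [HB_eq, HB_eq]
  exact HA_rel hT hP hfg g u v

theorem HB_t1 (g g' : ℕ) (I J I' J' : Type) [Finite I] [Finite J] [Finite I'] [Finite J'] :
    IsRed (((HB hT hP hfg g (I ⊕ PUnit) J).pull
        (Sum.map Sum.inl id : I ⊕ PUnit → (I ⊕ I') ⊕ PUnit)
        (Sum.inl ∘ Sum.inl : J → (J ⊕ J') ⊕ PUnit)).box
      ((HB hT hP hfg g' I' (J' ⊕ PUnit)).pull
        (Sum.inl ∘ Sum.inr : I' → (I ⊕ I') ⊕ PUnit)
        (Sum.map Sum.inr id : J' ⊕ PUnit → (J ⊕ J') ⊕ PUnit))) (HB hT hP hfg (g + g') (I ⊕ I') (J ⊕ J')) := by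
  have := Fintype.ofFinite I
  have := Fintype.ofFinite J
  have := Fintype.ofFinite I'
  have := Fintype.ofFinite J'
  classical
  rw [HB_eq, HB_eq, HB_eq]
  exact HA_t1 hT hP hfg g g'

theorem HB_t2 (g : ℕ) (I J : Type) [Finite I] [Finite J] :
    IsRed (HB hT hP hfg g (I ⊕ PUnit) (J ⊕ PUnit)) (HB hT hP hfg (g + 1) I J) := by
  have := Fintype.ofFinite I
  have := Fintype.ofFinite J
  classical
  rw [HB_eq, HB_eq]
  exact HA_t2 hT hP hfg g

theorem HB_cyl : IsCyl G (Equiv.refl PUnit) (HB hT hP hfg 0 PUnit PUnit) := by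
  rw [HB_eq]
  exact HA_cyl hT hP hfg

theorem HB_disc : IsKostant G P.e P.f (HB hT hP hfg 0 PUnit PEmpty) := by
  rw [HB_eq]
  exact HA_disc hT hP hfg

theorem HB_op (h : PO Q P ι γ) (g : ℕ) (I J : Type) [Finite I] [Finite J] :
    (HB hT hP hfg g I J).Iso (HB hT hP hfg g I J).neg := by
  have := Fintype.ofFinite I
  have := Fintype.ofFinite J
  classical
  rw [HB_eq]
  exact HA_op hT hP h hfg g I J

theorem HB_mt (hmt : ∀ (g : ℕ) (I J : Type) [Fintype I] [DecidableEq I] [Fintype J] [DecidableEq J],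
    InMT (HA hT hP hfg g I J).toPAlg) (g : ℕ) (I J : Type) [Finite I] [Finite J] :
    InMT (HB hT hP hfg g I J).toPAlg := by
  have := Fintype.ofFinite I
  have := Fintype.ofFinite J
  classical
  rw [HB_eq]
  exact hmt g I J

theorem TQ_cr (hT : TQ Q) : ∃ R : Module.Dual ℂ G.O, R 1 = 1 ∧ (∀ x f, R (G.lt x f) = R f) ∧
    ∀ (x : G.X) (f f' : G.O), (∀ y, f'.1 y = f.1 (y * x)) → R f' = R f := by
  obtain ⟨R, h1, h2, h3⟩ := hT.cr
  refine ⟨R, h1, h2, fun x f f' h => ?_⟩
  rw [← h3 x f]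
  congr 1
  apply Subtype.ext
  funext y
  exact h y

/-- The building blocks have all the properties. -/
theorem BB_HB (h : PO Q P ι γ) (hmt : ∀ (g : ℕ) (I J : Type) [Fintype I] [DecidableEq I] [Fintype J] [DecidableEq J],
    InMT (HA hT hP hfg g I J).toPAlg) : BB G P.e P.f (fun g I J _ _ => HB hT hP hfg g I J) where
  rel := fun g I J I' J' => HB_rel hT hP hfg g I J I' J'
  t1 := fun g g' I J I' J' => HB_t1 hT hP hfg g g' I J I' J'
  t2 := fun g I J => HB_t2 hT hP hfg g I J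
  cyl := HB_cyl hT hP hfg
  disc := HB_disc hT hP hfg
  mt := fun g I J => HB_mt hT hP hfg hmt g I J
  op := fun g I J => HB_op hT hP hfg h g I J
  cr := TQ_cr hT

/-- The conjecture for the groups with the data. -/
theorem tqft_of_TQ (h : PO Q P ι γ) (hmt : ∀ (g : ℕ) (I J : Type) [Fintype I] [DecidableEq I] [Fintype J] [DecidableEq J],
    InMT (HA hT hP hfg g I J).toPAlg) : TQFT G P.e P.f :=
  tqft_of_blocks (BB_HB hT hP hfg h hmt)

end

end

end Pool.Agent.MTF
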