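import Pool.Agent.MTF.Stmt

/-!
# MTF : the literal composition `(M^op × N) //_0 H`

With the conventions of `Ham` the reduction `IsComp M N P` is the reduction of `M × N`; the literal
composition of the category `MT` is the reduction of `M^op × N`, that is `IsComp M.neg N P`.  For
morphisms isomorphic to their opposites both agree.
-/

namespace Pool.Agent.MTF

open TensorProduct

section
variable {G H K : AffGrp} {M M' : Ham G H} {N : Ham H K} {P : Ham G K}

theorem IsComp.congr_left (h : M.Iso M') (hc : IsComp M N P) : IsComp M' N P := by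
  obtain ⟨e, e1, e2, e3, e4⟩ := h
  obtain ⟨φ, h1, h2, h3, h4, h5, h6, h7, h8, h9, h10⟩ := hc
  let E : (M.A ⊗[ℂ] N.A) ≃ₐ[ℂ] (M'.A ⊗[ℂ] N.A) := Algebra.TensorProduct.congr e AlgEquiv.refl
  have hE : ∀ a b, E (a ⊗ₜ b) = e a ⊗ₜ b := fun a b => rfl
  have hEs : ∀ a b, E.symm (a ⊗ₜ b) = e.symm a ⊗ₜ b := fun a b => rfl
  -- the ideals
  have hI1 : ∀ a ∈ tI M N, E a ∈ tI M' N := by
    have : tI M N ≤ (tI M' N).comap (E : (M.A ⊗[ℂ] N.A) →+* (M'.A ⊗[ℂ] N.A)) := by
      unfold tI
      rw [Ideal.span_le]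
      rintro _ ⟨D, rfl⟩
      refine Ideal.subset_span ⟨D, ?_⟩
      show _ = E (M.ν D ⊗ₜ[ℂ] (1 : N.A) - (1 : M.A) ⊗ₜ[ℂ] N.μ D)
      rw [map_sub, hE, hE, e4, map_one]
    exact fun a ha => this ha
  have hI2 : ∀ a ∈ tI M' N, E.symm a ∈ tI M N := by
    have : tI M' N ≤ (tI M N).comap (E.symm : (M'.A ⊗[ℂ] N.A) →+* (M.A ⊗[ℂ] N.A)) := by
      unfold tI
      rw [Ideal.span_le]
      rintro _ ⟨D, rfl⟩
      refine Ideal.subset_span ⟨D, ?_⟩
      show _ = E.symm (M'.ν D ⊗ₜ[ℂ] (1 : N.A) - (1 : M'.A) ⊗ₜ[ℂ] N.μ D)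
      rw [map_sub, hEs, hEs, ← e4, e.symm_apply_apply, map_one]
    exact fun a ha => this ha
  have hI : ∀ a, a ∈ tI M' N ↔ E.symm a ∈ tI M N := fun a =>
    ⟨hI2 a, fun h => by
      have := hI1 _ h
      rwa [E.apply_symm_apply] at this⟩
  -- the actions
  have hT : ∀ g h k a, E.symm (tact M' N g h k a) = tact M N g h k (E.symm a) := by
    intro g h k a
    induction a using TensorProduct.induction_on with
    | zero => simp only [map_zero]
    | add a b ha hb => simp only [map_add, ha, hb]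
    | tmul a b =>
      rw [tact_tmul, hEs, hEs, tact_tmul]
      congr 1
      rw [AlgEquiv.symm_apply_eq, e2, e.apply_symm_apply]
  -- the brackets
  have hB : ∀ a b, E.symm (tbr M'.toPAlg N.toPAlg a b) = tbr M.toPAlg N.toPAlg (E.symm a) (E.symm b) := by
    intro a b
    induction a using TensorProduct.induction_on with
    | zero => simp only [map_zero, LinearMap.zero_apply]
    | add a a' ha ha' => simp only [map_add, LinearMap.add_apply, ha, ha']
    | tmul a c =>
      induction b using TensorProduct.induction_on with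
      | zero => simp only [map_zero]
      | add b b' hb hb' => simp only [map_add, hb, hb']
      | tmul b d =>
        have hs : e.symm (M'.br a b) = M.br (e.symm a) (e.symm b) := by
          rw [AlgEquiv.symm_apply_eq, e1, e.apply_symm_apply, e.apply_symm_apply]
        show E.symm (M'.br a b ⊗ₜ (c * d) + (a * b) ⊗ₜ N.br c d) =
          M.br (e.symm a) (e.symm b) ⊗ₜ (c * d) + (e.symm a * e.symm b) ⊗ₜ N.br c d
        rw [map_add, hEs, hEs, hs, map_mul]
  have hm : ∀ a, a ∈ tinv M' N ↔ E.symm a ∈ tinv M N := by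
    intro a
    show (∀ h, tact M' N 1 h 1 a - a ∈ tI M' N) ↔ ∀ h, tact M N 1 h 1 (E.symm a) - E.symm a ∈ tI M N
    refine forall_congr' fun h => ?_
    rw [hI, map_sub, hT]
  let r : tinv M' N →ₐ[ℂ] tinv M N :=
    ((E.symm : (M'.A ⊗[ℂ] N.A) →ₐ[ℂ] (M.A ⊗[ℂ] N.A)).comp (tinv M' N).val).codRestrict (tinv M N)
      (fun a => (hm a.1).1 a.2)
  have hr : ∀ a, (r a).1 = E.symm a.1 := fun a => rfl
  refine ⟨φ.comp r, ?_, ?_, ?_, ?_, ?_, ?_, ?_, ?_, ?_, ?_⟩
  · intro p
    obtain ⟨a, rfl⟩ := h1 p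
    refine ⟨⟨E a.1, (hm _).2 (by rw [E.symm_apply_apply]; exact a.2)⟩, ?_⟩
    show φ (r _) = φ a
    congr 1
    apply Subtype.ext
    rw [hr]
    exact E.symm_apply_apply _
  · intro a
    rw [AlgHom.comp_apply, h2, hr, ← hI]
  · intro a b c hc
    rw [AlgHom.comp_apply, AlgHom.comp_apply, AlgHom.comp_apply]
    apply h3
    rw [hr, hr, hr, hc, hB]
  · intro a b
    rw [hm, hB]
    exact h4 (r a) (r b)
  · intro g k a b hb
    rw [AlgHom.comp_apply, AlgHom.comp_apply]
    apply h5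
    rw [hr, hr, hb, hT]
  · intro g k a
    rw [hm, hT]
    exact h6 g k (r a)
  · intro D a ha
    rw [AlgHom.comp_apply]
    apply h7
    rw [hr, ha, hEs, ← e3, e.symm_apply_apply]
  · intro D
    rw [hm, hEs, ← e3, e.symm_apply_apply]
    exact h8 D
  · intro D a ha
    rw [AlgHom.comp_apply]
    apply h9
    rw [hr, ha, hEs, map_one]
  · intro D
    rw [hm, hEs, map_one]
    exact h10 D

end

end Pool.Agent.MTF
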