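import Pool.Agent.MTF.PI

/-!
# MTF : the final form of the statement, with the literal composition of `MT`
-/

namespace Pool.Agent.MTF

open TensorProduct

variable (G : AffGrp)

/-- A two-dimensional topological quantum field theory with values in `MT` that sends the circle to
`G` and the disc to `G × S`, `S = e + 𝔤_f`: for all finite sets `I`, `J` (of incoming and outgoing
circles) and every cobordism `Σ` a space `η Σ : G^I → G^J`, such that

* diffeomorphic cobordisms have isomorphic spaces,
* `η (Σ' ∘ Σ)` is `(η(Σ)^op × η(Σ')) //_0 G^J` (the composition of `MT`), and it is also the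
  reduction of `η(Σ) × η(Σ')`,
* the mapping cylinders of bijections (in particular the identities and the symmetries) are sent to
  the cotangent bundles of `G^I` with the corresponding actions,
* disjoint unions are sent to products,
* the disc is sent to the Kostant-Whittaker variety `G × S`,
* all `η Σ` are integral, generically symplectic, and isomorphic to their opposites. -/
def MTTQFT (e f : G.Lie) : Prop :=
  ∃ η : ∀ (I J : Type) [Finite I] [Finite J], Cob I J → Ham (G.pow I) (G.pow J),
    (∀ (I J : Type) [Finite I] [Finite J] (S T : Cob I J), S.Iso T → (η I J S).Iso (η I J T)) ∧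
    (∀ (I J K : Type) [Finite I] [Finite J] [Finite K] (S : Cob I J) (T : Cob J K),
      IsComp (η I J S).neg (η J K T) (η I K (S.comp T)) ∧
      IsComp (η I J S) (η J K T) (η I K (S.comp T))) ∧
    (∀ (I J : Type) [Finite I] [Finite J] (u : I ≃ J), IsCyl G u (η I J (Cob.cyl u))) ∧
    (∀ (I J I' J' : Type) [Finite I] [Finite J] [Finite I'] [Finite J'] (S : Cob I J)
      (T : Cob I' J'), IsUnion G (η I J S) (η I' J' T) (η (I ⊕ I') (J ⊕ J') (S.union T))) ∧
    IsKostant G e f (η PUnit PEmpty Cob.disc) ∧
    ∀ (I J : Type) [Finite I] [Finite J] (S : Cob I J),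
      InMT (η I J S).toPAlg ∧ (η I J S).Iso (η I J S).neg

theorem mttqft_of_tqft {e f : G.Lie} (h : TQFT G e f) : MTTQFT G e f := by
  obtain ⟨η, h1, h2, h3, h4, h5, h6⟩ := h
  refine ⟨η, h1, fun I J K _ _ _ S T => ⟨?_, h2 I J K S T⟩, h3, h4, h5, h6⟩
  exact (h2 I J K S T).congr_left (h6 I J S).2

end Pool.Agent.MTF
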