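import Pool.Agent.MTF.QF
import Pool.Agent.MTF.PE2

/-! # MTF, part Q : the Hamiltonian spaces of connected surfaces lie in `MT` -/

set_option linter.unusedSectionVars false

namespace Pool.Agent.MTF

open AffGrp

section
variable {G : AffGrp} {K W X : Type} [Field K] [Algebra ℂ K] [Group W] [Fintype W]
  [MulSemiringAction W K] [SMulCommClass W ℂ K] [AddCommGroup X] [DistribMulAction W X]
variable {Q : TQD G K W X} {P : PD Q}

/-- [MTF-P9] the Hamiltonian spaces of connected surfaces are integral and generically symplectic. -/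
theorem inMT_HA (hT : TQ Q) (hP : PQ Q P) (hG : IsDomain G.O)
    (hfg : ∀ (g : ℕ) (L : Type) [Fintype L] [DecidableEq L] (ε : L → Bool), Algebra.FiniteType ℂ (RA hT g ε))
    (g : ℕ) (I J : Type) [Fintype I] [DecidableEq I] [Fintype J] [DecidableEq J] :
    InMT (HA hT hP hfg g I J).toPAlg :=
  inMT_AG hT hP hG (g := g) (ε := sIJ I J) (HA hT hP hfg g I J).toPAlg (rv hT g (sIJ I J))
    (rv_inj hT g (sIJ I J))
    (fun F => ⟨fun h => ⟨ra hT g (sIJ I J) F h, rfl⟩, fun ⟨a, h⟩ => h ▸ rv_mem hT g (sIJ I J) a⟩)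
    (fun a b => rv_brR hT (closed_AG hT hP g (I ⊕ J) (sIJ I J)) a b)

end

end Pool.Agent.MTF
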