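import Pool.Agent.MTF.PH
import Pool.Agent.MTF.PJ
import Pool.Agent.MTF.QG

/-! # MTF, part P : the theorem for groups with the data -/

set_option linter.unusedSectionVars false

namespace Pool.Agent.MTF

open AffGrp

section
variable {G : AffGrp} {K W X : Type} [Field K] [Algebra ℂ K] [Group W] [Fintype W]
  [MulSemiringAction W K] [SMulCommClass W ℂ K] [AddCommGroup X] [DistribMulAction W X]
variable {Q : TQD G K W X} {P : PD Q} {ι : K ≃ₐ[ℂ] K} {γ : G.X}

/-- The theorem for groups with the data. -/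
theorem mttqft_of_data (hT : TQ Q) (hP : PQ Q P) (hO : PO Q P ι γ) (hG : IsDomain G.O)
    (hFin : ∀ (L : Type) [Finite L] [DecidableEq L] [Nonempty L], FGA hT 0 (fun _ : L => true)) :
    MTTQFT G P.e P.f :=
  mttqft_of_tqft G (tqft_of_TQ hT hP (fun g L _ _ ε => fgR hT hFin g L ε) hO
    (fun g I J _ _ _ _ => inMT_HA hT hP hG _ g I J))

end

end Pool.Agent.MTF
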