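import Pool.Agent.MTF.Defs

namespace Pool.Agent.MTF

namespace AffGrp
variable (G : AffGrp)

/-- the pullback `f ↦ (x ↦ f (x i))` -/
def pull {I : Type} (i : I) : G.O →ₐ[ℂ] G.powO I where
  toFun f := ⟨fun x => f.1 (x i), Algebra.subset_adjoin ⟨i, f, rfl⟩⟩
  map_one' := rfl
  map_mul' _ _ := rfl
  map_zero' := rfl
  map_add' _ _ := rfl
  commutes' _ := rfl

theorem powO_fg {I : Type} [Finite I] : (G.powO I).FG := by
  classical
  obtain ⟨s, hs⟩ := G.fg
  let t : Set ((I → G.X) → ℂ) := ⋃ i : I, (fun f : G.X → ℂ => fun x : I → G.X => f (x i)) '' (s : Set (G.X → ℂ))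
  have ht : t.Finite := Set.finite_iUnion fun i => s.finite_toSet.image _
  refine ⟨ht.toFinset, ?_⟩
  rw [Set.Finite.coe_toFinset]
  apply le_antisymm
  · apply Algebra.adjoin_le
    intro F hF
    obtain ⟨i, hi⟩ := Set.mem_iUnion.1 hF
    obtain ⟨f, hf, rfl⟩ := hi
    refine Algebra.subset_adjoin ⟨i, ⟨f, ?_⟩, rfl⟩
    rw [← hs]
    exact Algebra.subset_adjoin hf
  · apply Algebra.adjoin_le
    rintro F ⟨i, f, rfl⟩
    let c : (G.X → ℂ) →ₐ[ℂ] ((I → G.X) → ℂ) :=
      { toFun := fun f => fun x => f (x i)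
        map_one' := rfl
        map_mul' := fun _ _ => rfl
        map_zero' := rfl
        map_add' := fun _ _ => rfl
        commutes' := fun _ => rfl }
    have h1 : Algebra.adjoin ℂ (s : Set (G.X → ℂ)) ≤ (Algebra.adjoin ℂ t).comap c := by
      apply Algebra.adjoin_le
      intro g hg
      exact Algebra.subset_adjoin (Set.mem_iUnion.2 ⟨i, g, hg, rfl⟩)
    have h2 : f.1 ∈ Algebra.adjoin ℂ (s : Set (G.X → ℂ)) := by
      rw [hs]
      exact f.2
    exact h1 h2

/-- the group `G^I` -/
def pow (I : Type) [Finite I] : AffGrp where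
  X := I → G.X
  O := G.powO I
  fg := G.powO_fg
  pts := by
    intro φ
    choose x hx using fun i => G.pts (φ.comp (G.pull i))
    refine ⟨x, ?_⟩
    rintro ⟨f, hf⟩
    unfold powO at hf
    induction hf using Algebra.adjoin_induction with
    | mem F hF =>
      obtain ⟨i, f, rfl⟩ := hF
      exact hx i f
    | algebraMap c => exact φ.commutes c
    | add F F' h h' ih ih' =>
      have := map_add φ (⟨F, h⟩ : G.powO I) ⟨F', h'⟩
      rw [ih, ih'] at this
      exact this
    | mul F F' h h' ih ih' =>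
      have := map_mul φ (⟨F, h⟩ : G.powO I) ⟨F', h'⟩
      rw [ih, ih'] at this
      exact this
  sep := by
    intro x y h
    funext i
    exact G.sep _ _ fun f hf => h _ (G.pull i ⟨f, hf⟩).2
  mul_mem := by
    intro f hf
    unfold powO at hf
    induction hf using Algebra.adjoin_induction with
    | mem F hF =>
      obtain ⟨i, f, rfl⟩ := hF
      obtain ⟨n, a, b, h⟩ := G.mul_mem f.1 f.2
      exact ⟨n, fun k => G.pull i (a k), fun k => G.pull i (b k), fun x y => h (x i) (y i)⟩
    | algebraMap c =>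
      refine ⟨1, fun _ => algebraMap ℂ _ c, fun _ => 1, fun x y => ?_⟩
      simp [Pi.algebraMap_apply]
    | add F F' _ _ ih ih' =>
      obtain ⟨n, a, b, h⟩ := ih
      obtain ⟨n', a', b', h'⟩ := ih'
      refine ⟨n + n', Fin.append a a', Fin.append b b', fun x y => ?_⟩
      rw [Fin.sum_univ_add]
      simp only [Fin.append_left, Fin.append_right]
      rw [← h, ← h']
      rfl
    | mul F F' _ _ ih ih' =>
      obtain ⟨n, a, b, h⟩ := ih
      obtain ⟨n', a', b', h'⟩ := ih'
      refine ⟨n * n', fun k => a (finProdFinEquiv.symm k).1 * a' (finProdFinEquiv.symm k).2,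
        fun k => b (finProdFinEquiv.symm k).1 * b' (finProdFinEquiv.symm k).2, fun x y => ?_⟩
      show F (x * y) * F' (x * y) = _
      rw [h, h', Finset.sum_mul_sum, ← Equiv.sum_comp finProdFinEquiv, Fintype.sum_prod_type]
      refine Finset.sum_congr rfl fun k _ => Finset.sum_congr rfl fun l _ => ?_
      simp only [Equiv.symm_apply_apply]
      show _ = ((a k).1 x * (a' l).1 x) * ((b k).1 y * (b' l).1 y)
      ring
  inv_mem := by
    intro f hf
    unfold powO at hf
    show (fun x : I → G.X => f x⁻¹) ∈ G.powO I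
    induction hf using Algebra.adjoin_induction with
    | mem F hF =>
      obtain ⟨i, f, rfl⟩ := hF
      exact (G.pull i ⟨_, G.inv_mem f.1 f.2⟩).2
    | algebraMap c => exact Subalgebra.algebraMap_mem _ c
    | add F F' _ _ ih ih' => exact Subalgebra.add_mem _ ih ih'
    | mul F F' _ _ ih ih' => exact Subalgebra.mul_mem _ ih ih'

end AffGrp

end Pool.Agent.MTF
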