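import Mathlib

/-! # MTF, part Q (generically symplectic) : extension of derivations in characteristic 0 (pure algebra) -/

namespace Pool.Agent.MTF.QA

/-- [MTF-QA1] Formal smoothness of `A → E` for a domain `A` inside a field `E` of characteristic 0.
PROOF. Let `F = FractionRing A`, with `Algebra F E` (`FractionRing.liftAlgebra` or `IsFractionRing.lift`), scalar tower `A F E`.
`Algebra.FormallySmooth A F`: localisation (`Algebra.FormallySmooth.of_isLocalization (nonZeroDivisors A)`).
`Algebra.FormallySmooth F E`: `F` has characteristic 0; a transcendence basis `v` of `E / F` (`exists_isTranscendenceBasis'` / `exists_isTranscendenceBasis F E`), `E` is algebraic over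
`IntermediateField.adjoin F (Set.range v)` (`IsTranscendenceBasis.isAlgebraic_field` or similar), hence separable (characteristic 0: `Algebra.IsAlgebraic.isSeparable_of_perfectField`),
`Algebra.FormallySmooth.of_algebraicIndependent_of_isSeparable` (Mathlib/RingTheory/Smooth/Field.lean).
`Algebra.FormallySmooth.comp A F E`. -/
theorem formallySmooth {A E : Type} [CommRing A] [IsDomain A] [Field E] [CharZero E] [Algebra A E]
    (hinj : Function.Injective (algebraMap A E)) : Algebra.FormallySmooth A E := by
  have hfs : FaithfulSMul A E := (faithfulSMul_iff_algebraMap_injective A E).2 hinj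
  let _ : Algebra (FractionRing A) E := FractionRing.liftAlgebra A E
  have hst : IsScalarTower A (FractionRing A) E := FractionRing.isScalarTower_liftAlgebra A E
  have hch : CharZero (FractionRing A) := (algebraMap (FractionRing A) E).charZero
  have h1 : Algebra.FormallySmooth A (FractionRing A) := .of_isLocalization (nonZeroDivisors A)
  obtain ⟨s, hs⟩ := exists_isTranscendenceBasis (FractionRing A) E
  have h3 : Algebra.IsAlgebraic (IntermediateField.adjoin (FractionRing A) (Set.range ((↑) : s → E))) E :=
    hs.isAlgebraic_field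
  have h2 : Algebra.FormallySmooth (FractionRing A) E := .of_algebraicIndependent_of_isSeparable hs.1
  exact .comp A (FractionRing A) E

theorem qa1_inj {A E : Type} [CommRing A] [Field E] [Algebra ℂ A] [Algebra A E] [Algebra ℂ E]
    [IsScalarTower ℂ A E] [Algebra.FormallySmooth A E] :
    Function.Injective (KaehlerDifferential.mapBaseChange ℂ A E) := by
  have h1 : Subsingleton (Algebra.H1Cotangent A E) := Algebra.FormallySmooth.subsingleton_h1Cotangent
  rw [injective_iff_map_eq_zero]
  intro x hx
  obtain ⟨y, rfl⟩ := (Algebra.H1Cotangent.exact_δ_mapBaseChange ℂ A E x).1 hx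
  rw [Subsingleton.elim y 0, map_zero]

/-- [MTF-QA1] Extension of derivations.
PROOF. `B := TrivSqZeroExt E E` (elements `inl x + inr y`), with the `A`-algebra structure `φ : a ↦ inl (algebraMap A E a) + inr (D a)` (a ring homomorphism because
`D` is a derivation), a local instance `letI : Algebra A B := φ.toAlgebra`.  `I := RingHom.ker (TrivSqZeroExt.fstHom..)` = the ideal of the elements `inr y`, `I ^ 2 = 0`, nilpotent.
The isomorphism `B ⧸ I ≃ E` gives an `A`-algebra homomorphism `g : E →ₐ[A] B ⧸ I`, `x ↦ mk (inl x)` (it commutes with `A`: `inl (algebraMap a)` and `φ a` differ by `inr (D a) ∈ I`).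
`Algebra.FormallySmooth.exists_lift I ⟨2, _⟩ g` gives `f : E →ₐ[A] B` with `mk (f x) = mk (inl x)`, so `fst (f x) = x`.  `D' x := snd (f x)`:
additive; `snd (f (x y)) = snd (f x * f y) = x • snd (f y) + y • snd (f x)`.  `snd (f (algebraMap a)) = snd (φ a) = D a`.  `ℂ`-linear: `f (algebraMap ℂ E c) = f (algebraMap A E (algebraMap ℂ A c)) = φ (algebraMap ℂ A c)`,
`snd = D (algebraMap ℂ A c) = 0`, and then `D' (c • x) = D' (algebraMap ℂ E c * x) = c • D' x` (Leibniz rule). -/
theorem exists_ext {A E : Type} [CommRing A] [IsDomain A] [Field E] [Algebra ℂ A] [Algebra A E] [Algebra ℂ E]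
    [IsScalarTower ℂ A E] (hinj : Function.Injective (algebraMap A E)) (D : Derivation ℂ A E) :
    ∃ D' : Derivation ℂ E E, ∀ a : A, D' (algebraMap A E a) = D a := by
  have hch : CharZero E := (algebraMap ℂ E).charZero_iff (algebraMap ℂ E).injective |>.1 inferInstance
  have hsm := formallySmooth (A := A) (E := E) hinj
  have hker : LinearMap.ker (KaehlerDifferential.mapBaseChange ℂ A E) = ⊥ :=
    LinearMap.ker_eq_bot.2 qa1_inj
  obtain ⟨r, hr⟩ := LinearMap.exists_leftInverse_of_injective (KaehlerDifferential.mapBaseChange ℂ A E) hker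
  refine ⟨((LinearMap.liftBaseChange E D.liftKaehlerDifferential) ∘ₗ r).compDer (KaehlerDifferential.D ℂ E), fun a => ?_⟩
  have h1 : KaehlerDifferential.mapBaseChange ℂ A E (TensorProduct.tmul A 1 (KaehlerDifferential.D ℂ A a)) =
      KaehlerDifferential.D ℂ E (algebraMap A E a) := by
    rw [KaehlerDifferential.mapBaseChange_tmul, one_smul, KaehlerDifferential.map_D]
  have h2 : r (KaehlerDifferential.D ℂ E (algebraMap A E a)) = TensorProduct.tmul A 1 (KaehlerDifferential.D ℂ A a) := by
    rw [← h1]
    exact LinearMap.congr_fun hr _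
  show LinearMap.liftBaseChange E D.liftKaehlerDifferential (r (KaehlerDifferential.D ℂ E (algebraMap A E a))) = D a
  rw [h2, LinearMap.liftBaseChange_tmul, one_smul]
  exact D.liftKaehlerDifferential_comp_D a

end Pool.Agent.MTF.QA
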