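import Mathlib

/-! # MTF, part Q : linear algebra (pure algebra) -/

namespace Pool.Agent.MTF.QA

/-- [MTF-QA2] A vector of `F^n` that is killed by every linear form killing all `v s` is a linear combination of the `v s`.
PROOF. If `w` is not in `Submodule.span F (Set.range v)`: `Submodule.exists_le_ker_of_notMem` gives a linear form `g` with `g w ≠ 0`, `g (v s) = 0`; `f i := g (Pi.single i 1)`,
`g x = ∑ i, f i * x i` (`LinearMap.pi_apply_eq_sum_univ`): contradiction.  So `w` is in the span: `Submodule.mem_span_range_iff_exists_finsupp` / `Finsupp.mem_span_range_iff_exists_finsupp`;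
enumerate the support (`Finset.equivFin`). -/
theorem span_of_ann {F S : Type} [Field F] {n : ℕ} (v : S → Fin n → F) (w : Fin n → F)
    (h : ∀ f : Fin n → F, (∀ s, ∑ i, f i * v s i = 0) → ∑ i, f i * w i = 0) :
    ∃ (m : ℕ) (u : Fin m → F) (s : Fin m → S), ∀ i, w i = ∑ t, u t * v (s t) i := by
  have hw : w ∈ Submodule.span F (Set.range v) := by
    by_contra hw
    obtain ⟨g, hg1, hg2⟩ := Submodule.exists_le_ker_of_notMem hw
    have hg : ∀ x : Fin n → F, g x = ∑ i, g (Pi.single i 1) * x i := by
      intro x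
      rw [LinearMap.pi_apply_eq_sum_univ g x]
      refine Finset.sum_congr rfl fun i _ => ?_
      rw [smul_eq_mul, mul_comm]
      congr 2
      funext j
      rw [Pi.single_apply]
      by_cases hij : i = j
      · rw [if_pos hij, if_pos hij.symm]
      · rw [if_neg hij, if_neg (fun h => hij h.symm)]
    apply hg1
    rw [hg]
    apply h
    intro s
    rw [← hg]
    exact hg2 (Submodule.subset_span ⟨s, rfl⟩)
  rw [Finsupp.mem_span_range_iff_exists_finsupp] at hw
  obtain ⟨c, hc⟩ := hw
  refine ⟨c.support.card, fun t => c (c.support.equivFin.symm t).1, fun t => (c.support.equivFin.symm t).1, ?_⟩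
  intro i
  rw [← hc, Finsupp.sum, Finset.sum_apply, ← Finset.sum_coe_sort]
  exact (Fintype.sum_equiv c.support.equivFin.symm _ _ fun t => rfl).symm

/-- [MTF-QA2] The kernel of a matrix after extension of scalars.
PROOF. Let `q : Fin N → E` be a basis of the `k`-subspace of `E` spanned by the `z i` (finite-dimensional; `Module.finBasis`), `z i = ∑ t, algebraMap (ζ t i) * q t` with `ζ t i : k`.  For every
row `i`: `0 = ∑ j, T i j * z j = ∑ t, (∑ j, T i j * ζ t j) • q t`, and the `q t` are linearly independent over `k`. -/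
theorem ker_base {k E : Type} [Field k] [Field E] [Algebra k E] {n m : ℕ} (T : Fin m → Fin n → k) (z : Fin n → E)
    (hz : ∀ i, ∑ j, algebraMap k E (T i j) * z j = 0) :
    ∃ (N : ℕ) (q : Fin N → E) (ζ : Fin N → Fin n → k), (∀ t i, ∑ j, T i j * ζ t j = 0) ∧
      ∀ j, z j = ∑ t, q t * algebraMap k E (ζ t j) := by
  have hfin : FiniteDimensional k (Submodule.span k (Set.range z)) :=
    FiniteDimensional.span_of_finite k (Set.finite_range z)
  let b := Module.finBasis k (Submodule.span k (Set.range z))
  have hm : ∀ j, z j ∈ Submodule.span k (Set.range z) := fun j => Submodule.subset_span ⟨j, rfl⟩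
  have hz1 : ∀ j, z j = ∑ t, (b t : E) * algebraMap k E (b.repr ⟨z j, hm j⟩ t) := by
    intro j
    have h1 := congrArg Subtype.val (b.sum_repr ⟨z j, hm j⟩)
    have h2 : ((∑ t, b.repr ⟨z j, hm j⟩ t • b t : Submodule.span k (Set.range z)) : E) =
        ∑ t, b.repr ⟨z j, hm j⟩ t • (b t : E) := by
      rw [Submodule.coe_sum]
      rfl
    rw [h2] at h1
    have h3 : ∑ t, b.repr ⟨z j, hm j⟩ t • (b t : E) = z j := h1
    refine h3.symm.trans ?_
    refine Finset.sum_congr rfl fun t _ => ?_
    rw [Algebra.smul_def, mul_comm]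
  refine ⟨_, fun t => (b t : E), fun t j => b.repr ⟨z j, hm j⟩ t, ?_, hz1⟩
  intro t i
  have hli : LinearIndependent k (fun t => (b t : E)) :=
    b.linearIndependent.map' (Submodule.subtype _) (Submodule.ker_subtype _)
  have h3 : ∑ t, (∑ j, T i j * b.repr ⟨z j, hm j⟩ t) • (b t : E) = 0 := by
    rw [← hz i]
    have h4 : ∀ j, algebraMap k E (T i j) * z j =
        ∑ t, (T i j * b.repr ⟨z j, hm j⟩ t) • (b t : E) := by
      intro j
      conv_lhs => rw [hz1 j]
      rw [Finset.mul_sum]
      refine Finset.sum_congr rfl fun t _ => ?_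
      rw [Algebra.smul_def, map_mul]
      ring
    rw [Finset.sum_congr rfl fun j _ => h4 j, Finset.sum_comm]
    refine Finset.sum_congr rfl fun t _ => ?_
    rw [Finset.sum_smul]
  exact Fintype.linearIndependent_iff.1 hli _ h3 t

end Pool.Agent.MTF.QA
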