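import Pool.Agent.MTF.QA1
import Pool.Agent.MTF.QA2
import Pool.Agent.MTF.Defs

/-! # MTF, part Q : the criterion (pure algebra) -/

namespace Pool.Agent.MTF.QA

/-- the Hamiltonian derivation -/
noncomputable def qa3_ham {A : Type} [CommRing A] [Algebra ℂ A] (br : A →ₗ[ℂ] A →ₗ[ℂ] A)
    (hleib : ∀ a b c, br a (b * c) = b * br a c + c * br a b) (a : A) :
    Derivation ℂ A (FractionRing A) :=
  Derivation.mk' ((IsScalarTower.toAlgHom ℂ A (FractionRing A)).toLinearMap ∘ₗ br a) (fun x y => by
    show algebraMap A (FractionRing A) (br a (x * y)) =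
      x • algebraMap A (FractionRing A) (br a y) + y • algebraMap A (FractionRing A) (br a x)
    rw [hleib, map_add, map_mul, map_mul, Algebra.smul_def, Algebra.smul_def])

theorem qa3_ham_apply {A : Type} [CommRing A] [Algebra ℂ A] (br : A →ₗ[ℂ] A →ₗ[ℂ] A)
    (hleib : ∀ a b c, br a (b * c) = b * br a c + c * br a b) (a x : A) :
    qa3_ham br hleib a x = algebraMap A (FractionRing A) (br a x) := rfl

theorem qa3_sum {A : Type} [CommRing A] [Algebra ℂ A] {m : ℕ} (u : Fin m → FractionRing A)
    (d : Fin m → Derivation ℂ A (FractionRing A)) (x : A) :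
    (∑ p, u p • d p) x = ∑ p, u p * d p x := by
  have h := map_sum (Derivation.coeFnAddMonoidHom (R := ℂ) (A := A) (M := FractionRing A))
    (fun p => u p • d p) Finset.univ
  have h2 := congrFun h x
  rw [Finset.sum_apply] at h2
  exact h2

/-- the composition of a derivation with the inclusion of the fraction field, extended to `E` and
restricted to `R` -/
theorem qa3_der {A R E : Type} [CommRing A] [IsDomain A] [Algebra ℂ A] [CommRing R] [Algebra ℂ R]
    [Field E] [Algebra ℂ E] [Algebra R E] [IsScalarTower ℂ R E] (i : A →ₐ[ℂ] R)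
    (hinj : Function.Injective ((algebraMap R E).comp i.toRingHom))
    (D : Derivation ℂ A (FractionRing A)) :
    ∃ D' : Derivation ℂ R E, ∀ a : A, D' (i a) = IsFractionRing.lift hinj (D a) := by
  let _ : Algebra A E := ((algebraMap R E).comp i.toRingHom).toAlgebra
  have : IsScalarTower ℂ A E := IsScalarTower.of_algebraMap_eq fun c => by
    show algebraMap ℂ E c = algebraMap R E (i (algebraMap ℂ A c))
    rw [i.commutes, ← IsScalarTower.algebraMap_apply ℂ R E]
  have hlin : ∀ (c : ℂ) (x : FractionRing A), IsFractionRing.lift hinj (c • x) =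
      c • IsFractionRing.lift hinj x := by
    intro c x
    rw [Algebra.smul_def, map_mul, IsScalarTower.algebraMap_apply ℂ A (FractionRing A),
      IsFractionRing.lift_algebraMap, Algebra.smul_def]
    congr 1
    show algebraMap R E (i (algebraMap ℂ A c)) = algebraMap ℂ E c
    rw [i.commutes, ← IsScalarTower.algebraMap_apply ℂ R E]
  let L : A →ₗ[ℂ] E :=
    { toFun := fun a => IsFractionRing.lift hinj (D a)
      map_add' := fun a b => by rw [map_add, map_add]
      map_smul' := fun c a => by rw [Derivation.map_smul, hlin]; rfl }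
  let DE : Derivation ℂ A E := Derivation.mk' L (fun x y => by
    show IsFractionRing.lift hinj (D (x * y)) =
      algebraMap R E (i x) * IsFractionRing.lift hinj (D y) +
        algebraMap R E (i y) * IsFractionRing.lift hinj (D x)
    rw [Derivation.leibniz, map_add, Algebra.smul_def, Algebra.smul_def, map_mul, map_mul,
      IsFractionRing.lift_algebraMap, IsFractionRing.lift_algebraMap]
    rfl)
  obtain ⟨D₁, hD₁⟩ := exists_ext (A := A) (E := E) hinj DE
  refine ⟨D₁.compAlgebraMap R, fun a => ?_⟩
  exact hD₁ a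

/-- the criterion for the algebra `A` -/
theorem qa3_core {A R E ι : Type} [CommRing A] [IsDomain A] [Algebra ℂ A] [CommRing R]
    [Algebra ℂ R] [Field E] [Algebra ℂ E] [Algebra R E] [IsScalarTower ℂ R E] [Fintype ι]
    (hft : Algebra.FiniteType ℂ A) (br : A →ₗ[ℂ] A →ₗ[ℂ] A) (hskew : ∀ a b, br a b = - br b a)
    (hleib : ∀ a b c, br a (b * c) = b * br a c + c * br a b)
    (i : A →ₐ[ℂ] R) (hinj : Function.Injective ((algebraMap R E).comp i.toRingHom))
    (Dk : ι → Derivation ℂ R R) (X : A → ι → R) (ω : ι → ι → R)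
    (hap : ∀ x y : A, ∑ k, X x k * Dk k (i y) = i (br x y))
    (hX : ∀ (x : A) (j : ι), ∑ k, X x k * ω k j = Dk j (i x))
    (hann : ∀ Y : ι → E, (∀ x : A, ∑ k, Y k * algebraMap R E (Dk k (i x)) = 0) →
      ∀ j, ∑ k, Y k * algebraMap R E (ω k j) = 0)
    (hdec : ∀ D' : Derivation ℂ R E, ∃ Z : ι → E, ∀ x, D' x = ∑ k, Z k * algebraMap R E (Dk k x))
    (D : Derivation ℂ A (FractionRing A)) :
    ∃ (n : ℕ) (u : Fin n → FractionRing A) (a : Fin n → A),
      ∀ b, D b = ∑ i, u i * algebraMap A (FractionRing A) (br (a i) b) := by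
  obtain ⟨s, hs⟩ := hft.out
  obtain ⟨n, b, hb⟩ : ∃ (n : ℕ) (b : Fin n → A), Set.range b = (s : Set A) := by
    refine ⟨s.card, fun t => (s.equivFin.symm t : A), ?_⟩
    ext x
    constructor
    · rintro ⟨t, rfl⟩
      exact (s.equivFin.symm t).2
    · intro hx
      exact ⟨s.equivFin ⟨x, hx⟩, by simp⟩
  have hj : ∀ x, IsFractionRing.lift hinj (algebraMap A (FractionRing A) x) =
      algebraMap R E (i x) := fun x => IsFractionRing.lift_algebraMap hinj x
  have hjinj : Function.Injective (IsFractionRing.lift hinj : FractionRing A →+* E) :=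
    (IsFractionRing.lift hinj : FractionRing A →+* E).injective
  have claim : ∀ f : Fin n → FractionRing A,
      (∀ a : A, ∑ t, f t * algebraMap A (FractionRing A) (br a (b t)) = 0) →
      ∑ t, f t * D (b t) = 0 := by
    intro f hf
    obtain ⟨D', hD'⟩ := qa3_der i hinj D
    obtain ⟨Z, hZ⟩ := hdec D'
    have h1 : ∀ x : A, ∑ k, (∑ t, IsFractionRing.lift hinj (f t) * algebraMap R E (X (b t) k)) *
        algebraMap R E (Dk k (i x)) = 0 := by
      intro x
      have e1 : ∀ t, IsFractionRing.lift hinj (f t) * algebraMap R E (i (br (b t) x)) =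
          - IsFractionRing.lift hinj (f t * algebraMap A (FractionRing A) (br x (b t))) := by
        intro t
        rw [map_mul, hj, hskew (b t) x, map_neg, map_neg, mul_neg]
      calc ∑ k, (∑ t, IsFractionRing.lift hinj (f t) * algebraMap R E (X (b t) k)) *
            algebraMap R E (Dk k (i x))
          = ∑ k, ∑ t, IsFractionRing.lift hinj (f t) *
              (algebraMap R E (X (b t) k) * algebraMap R E (Dk k (i x))) := by
            refine Finset.sum_congr rfl fun k _ => ?_
            rw [Finset.sum_mul]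
            exact Finset.sum_congr rfl fun t _ => mul_assoc _ _ _
        _ = ∑ t, IsFractionRing.lift hinj (f t) * algebraMap R E (i (br (b t) x)) := by
            rw [Finset.sum_comm]
            refine Finset.sum_congr rfl fun t _ => ?_
            rw [← Finset.mul_sum, ← hap, map_sum]
            congr 1
            exact Finset.sum_congr rfl fun k _ => (map_mul _ _ _).symm
        _ = - IsFractionRing.lift hinj
              (∑ t, f t * algebraMap A (FractionRing A) (br x (b t))) := by
            rw [map_sum, ← Finset.sum_neg_distrib]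
            exact Finset.sum_congr rfl fun t _ => e1 t
        _ = 0 := by rw [hf x, map_zero, neg_zero]
    have h2 := hann _ h1
    have h3 : ∀ j', ∑ t, IsFractionRing.lift hinj (f t) * algebraMap R E (Dk j' (i (b t))) = 0 := by
      intro j'
      rw [← h2 j']
      calc ∑ t, IsFractionRing.lift hinj (f t) * algebraMap R E (Dk j' (i (b t)))
          = ∑ t, ∑ k, IsFractionRing.lift hinj (f t) *
              (algebraMap R E (X (b t) k) * algebraMap R E (ω k j')) := by
            refine Finset.sum_congr rfl fun t _ => ?_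
            rw [← Finset.mul_sum, ← hX, map_sum]
            congr 1
            exact Finset.sum_congr rfl fun k _ => map_mul _ _ _
        _ = _ := by
            rw [Finset.sum_comm]
            refine Finset.sum_congr rfl fun k _ => ?_
            rw [Finset.sum_mul]
            exact Finset.sum_congr rfl fun t _ => (mul_assoc _ _ _).symm
    apply hjinj
    rw [map_zero, map_sum]
    calc ∑ t, IsFractionRing.lift hinj (f t * D (b t))
        = ∑ t, ∑ k, Z k * (IsFractionRing.lift hinj (f t) *
            algebraMap R E (Dk k (i (b t)))) := by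
          refine Finset.sum_congr rfl fun t _ => ?_
          rw [map_mul, ← hD', hZ, Finset.mul_sum]
          exact Finset.sum_congr rfl fun k _ => by ring
      _ = ∑ k, Z k * ∑ t, IsFractionRing.lift hinj (f t) * algebraMap R E (Dk k (i (b t))) := by
          rw [Finset.sum_comm]
          exact Finset.sum_congr rfl fun k _ => (Finset.mul_sum _ _ _).symm
      _ = 0 := Finset.sum_eq_zero fun k _ => by rw [h3, mul_zero]
  obtain ⟨m, u, a, hu⟩ := span_of_ann
    (fun (a : A) (t : Fin n) => algebraMap A (FractionRing A) (br a (b t)))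
    (fun t => D (b t)) claim
  refine ⟨m, u, a, fun x => ?_⟩
  have h4 : D = ∑ p, u p • qa3_ham br hleib (a p) := by
    refine Derivation.ext_of_adjoin_eq_top (s : Set A) hs ?_
    rw [← hb]
    rintro _ ⟨t, rfl⟩
    rw [hu t, qa3_sum]
    exact Finset.sum_congr rfl fun p _ => rfl
  rw [h4, qa3_sum]
  exact Finset.sum_congr rfl fun p _ => rfl

/-- [MTF-QA3] The criterion.
PROOF.  `M.A` is a domain: `a ↦ algebraMap R E (i a)` is an injective ring homomorphism into a field.  Let `F = FractionRing M.A`, `j : F →ₐ[ℂ] E` the extension (`IsFractionRing.liftAlgHom`,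
`IsFractionRing.lift_algebraMap`): `j (algebraMap M.A F a) = algebraMap R E (i a)`; `j` is injective (`F` is a field).  `M.ft`: `M.A` is generated by finitely many elements `b : Fin n → M.A`
(`Algebra.FiniteType.out : (⊤ : Subalgebra ℂ M.A).FG`, a finset; enumerate it).  Let `D : Derivation ℂ M.A F`.
(1) CLAIM: for `f : Fin n → F` with `∑ t, f t * algebraMap M.A F (M.br a (b t)) = 0` for all `a : M.A`, one has `∑ t, f t * D (b t) = 0`.  PROOF: put `Y k := ∑ t, j (f t) * algebraMap R E (X (b t) k)`.  For `a : M.A`: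
`∑ k, Y k * algebraMap R E (Dk k (i a)) = ∑ t, j (f t) * algebraMap R E (i (M.br (b t) a)) = - j (∑ t, f t * algebraMap M.A F (M.br a (b t))) = 0` (`hap`, `PAlg.br_skew` or `M.br_self`).  `hann`: for all `j'`
`0 = ∑ k, Y k * algebraMap R E (ω k j') = ∑ t, j (f t) * algebraMap R E (Dk j' (i (b t)))` (`hX`).
The derivation `j ∘ D : M.A → E` (`E` an `M.A`-algebra by `(algebraMap R E).comp i`, local instances; `Derivation.mk'`) extends to a derivation `D₁` of `E` (`exists_ext` of QA1.lean); `D' := D₁ ∘ algebraMap R E` is a derivation `R → E`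
(`Derivation.compAlgebraMap R D₁`), `D' (i a) = j (D a)`; `hdec`: `D' = ∑ Z k * Dk k`.  So
`j (∑ t, f t * D (b t)) = ∑ t, j (f t) * D' (i (b t)) = ∑ k, Z k * ∑ t, j (f t) * algebraMap R E (Dk k (i (b t))) = 0`, and `j` is injective.
(2) `span_of_ann` (QA2.lean) with `v a t := algebraMap M.A F (M.br a (b t))`, `w t := D (b t)`: `D (b t) = ∑ p, u p * algebraMap M.A F (M.br (a p) (b t))` for all `t`.
(3) `x ↦ ∑ p, u p * algebraMap M.A F (M.br (a p) x)` is a derivation of `M.A` with values in `F` (`M.leibniz`, linearity of `M.br`), it agrees with `D` on the generators `b t`: equal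
(`Derivation.ext_of_adjoin_eq_top` or `Derivation.eqOn_adjoin`, or `Algebra.adjoin_induction`). -/
theorem symp (M : PAlg) {R : Type} [CommRing R] [Algebra ℂ R] (i : M.A →ₐ[ℂ] R) (hi : Function.Injective i)
    {ι : Type} [Fintype ι] (Dk : ι → Derivation ℂ R R) (X : M.A → ι → R) (ω : ι → ι → R)
    (hap : ∀ x y : M.A, ∑ k, X x k * Dk k (i y) = i (M.br x y))
    (hX : ∀ (x : M.A) (j : ι), ∑ k, X x k * ω k j = Dk j (i x))
    {E : Type} [Field E] [Algebra ℂ E] [Algebra R E] [IsScalarTower ℂ R E] (hE : Function.Injective (algebraMap R E))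
    (hann : ∀ Y : ι → E, (∀ x : M.A, ∑ k, Y k * algebraMap R E (Dk k (i x)) = 0) →
      ∀ j, ∑ k, Y k * algebraMap R E (ω k j) = 0)
    (hdec : ∀ D' : Derivation ℂ R E, ∃ Z : ι → E, ∀ x, D' x = ∑ k, Z k * algebraMap R E (Dk k x)) :
    InMT M := by
  have hinj : Function.Injective ((algebraMap R E).comp i.toRingHom) := fun x y h => hi (hE h)
  have : IsDomain M.A := hinj.isDomain ((algebraMap R E).comp i.toRingHom)
  have hskew : ∀ a b, M.br a b = - M.br b a := by
    intro a b
    have h := M.br_self (a + b)
    simp only [map_add, LinearMap.add_apply, M.br_self, zero_add, add_zero] at h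
    exact eq_neg_of_add_eq_zero_right h
  exact ⟨hinj.isDomain ((algebraMap R E).comp i.toRingHom), fun D => qa3_core M.ft M.br hskew M.leibniz i hinj Dk X ω hap hX hann hdec D⟩

end Pool.Agent.MTF.QA
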