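import Pool.Agent.MTF.P0a

/-! # MTF, part Q : the rings of families are domains -/

set_option linter.unusedSectionVars false

namespace Pool.Agent.MTF

open AffGrp

theorem qb1a_claim {G : AffGrp} (hG : IsDomain G.O) (L : Type) [Finite L] (T : Finset L) :
    ∀ (F F' : (G.pow L).O) (k₀ : L → G.X),
      (∀ k : L → G.X, (∀ i, i ∉ T → k i = k₀ i) → F.1 k * F'.1 k = 0) →
      (∀ k : L → G.X, (∀ i, i ∉ T → k i = k₀ i) → F.1 k = 0) ∨
      (∀ k : L → G.X, (∀ i, i ∉ T → k i = k₀ i) → F'.1 k = 0) := by
  classical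
  induction T using Finset.induction_on with
  | empty =>
    intro F F' k₀ h
    have h1 := h k₀ (fun _ _ => rfl)
    rcases mul_eq_zero.1 h1 with h2 | h2
    · left
      intro k hk
      have : k = k₀ := funext fun i => hk i (Finset.notMem_empty i)
      rw [this]
      exact h2
    · right
      intro k hk
      have : k = k₀ := funext fun i => hk i (Finset.notMem_empty i)
      rw [this]
      exact h2
  | insert l T hl ih =>
    intro F F' k₀ h
    by_contra hcon
    push Not at hcon
    obtain ⟨⟨k1, hk1, h1⟩, ⟨k2, hk2, h2⟩⟩ := hcon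
    have key : ∀ x : G.X,
        (∀ k : L → G.X, (∀ i, i ∉ T → k i = Function.update k₀ l x i) → F.1 k = 0) ∨
        (∀ k : L → G.X, (∀ i, i ∉ T → k i = Function.update k₀ l x i) → F'.1 k = 0) := by
      intro x
      apply ih F F' (Function.update k₀ l x)
      intro k hk
      apply h k
      intro i hi
      rw [Finset.mem_insert, not_or] at hi
      rw [hk i hi.2, Function.update_of_ne hi.1]
    have hag : ∀ (k : L → G.X), (∀ i, i ∉ insert l T → k i = k₀ i) → ∀ x : G.X,
        ∀ i, i ∉ T → Function.update k l x i = Function.update k₀ l x i := by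
      intro k hk x i hi
      by_cases hil : i = l
      · subst hil
        rw [Function.update_self, Function.update_self]
      · rw [Function.update_of_ne hil, Function.update_of_ne hil]
        exact hk i (by rw [Finset.mem_insert, not_or]; exact ⟨hil, hi⟩)
    have hprod : slO1 k1 l F * slO1 k2 l F' = 0 := by
      apply Subtype.ext
      funext x
      show F.1 (Function.update k1 l x) * F'.1 (Function.update k2 l x) = 0
      rcases key x with h3 | h3
      · rw [h3 _ (hag k1 hk1 x), zero_mul]
      · rw [h3 _ (hag k2 hk2 x), mul_zero]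
    rcases mul_eq_zero.1 hprod with h3 | h3
    · apply h1
      have h4 : F.1 (Function.update k1 l (k1 l)) = 0 :=
        congrFun (congrArg Subtype.val h3) (k1 l)
      rwa [Function.update_eq_self] at h4
    · apply h2
      have h4 : F'.1 (Function.update k2 l (k2 l)) = 0 :=
        congrFun (congrArg Subtype.val h3) (k2 l)
      rwa [Function.update_eq_self] at h4

/-- [MTF-QB1] `G^L` is connected if `G` is.
PROOF. `G.pow L` has `X = L → G.X`, `O = G.powO L`; the slice `h ↦ F (Function.update k l h)` of `F ∈ (G.pow L).O` is in `G.O` (`slO1 k l F`, Leg.lean).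
CLAIM by `Finset.induction_on T`: for all `F F' : (G.pow L).O`, `k₀ : L → G.X`: if `F.1 k * F'.1 k = 0` for all `k` that agree with `k₀` outside of `T`, then `F.1 k = 0` for all these `k` or
`F'.1 k = 0` for all these `k`.  `T = ∅`: clear.  `insert l T`: otherwise there are `k1`, `k2`, agreeing with `k₀` outside of `insert l T`, with `F.1 k1 ≠ 0`, `F'.1 k2 ≠ 0`.  For every `h : G.X` the
induction hypothesis for `T` and `Function.update k₀ l h` says that `F` or `F'` vanishes at all `k` with `k l = h` which agree with `k₀` outside of `insert l T`.  So the product of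
`f := slO1 k1 l F` and `f' := slO1 k2 l F'` in `G.O` is `0`, hence one of them is `0` (`G.O` is a domain), but `f.1 (k1 l) = F.1 k1 ≠ 0`, `f'.1 (k2 l) = F'.1 k2 ≠ 0` (`Function.update_eq_self`).
`T = Finset.univ` gives `F = 0` or `F' = 0`.  `1 ≠ 0` since `G.X` is nonempty. -/
theorem pow_domain {G : AffGrp} (hG : IsDomain G.O) (L : Type) [Finite L] : IsDomain (G.pow L).O := by
  have := Fintype.ofFinite L
  have hn : Nontrivial (G.pow L).O := by
    refine ⟨0, 1, fun h => ?_⟩
    have h1 : (0 : ℂ) = 1 := congrFun (congrArg Subtype.val h) (1 : L → G.X)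
    exact zero_ne_one h1
  have hz : NoZeroDivisors (G.pow L).O := by
    constructor
    intro F F' h
    rcases qb1a_claim hG L Finset.univ F F' 1 (fun k _ => congrFun (congrArg Subtype.val h) k)
      with h1 | h1
    · left
      apply Subtype.ext
      funext k
      exact h1 k fun i hi => absurd (Finset.mem_univ i) hi
    · right
      apply Subtype.ext
      funext k
      exact h1 k fun i hi => absurd (Finset.mem_univ i) hi
  exact NoZeroDivisors.to_isDomain _

/-- QB1b: a nonzero value of a family gives a regular function nonzero at the same point -/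
theorem qb1b_coord {H : AffGrp} (K : Type) [Field K] [Algebra ℂ K] (F : H.KO K) (u : Module.Dual ℂ K) :
    ∃ f : H.O, ∀ y, f.1 y = u (F.1 y) := by
  obtain ⟨n, c, f, h⟩ := KO_rep F
  refine ⟨∑ i, u (c i) • f i, fun y => ?_⟩
  have h1 : (∑ i, u (c i) • f i : H.O).1 y = ∑ i, u (c i) * (f i).1 y := by
    simp [Finset.sum_apply]
  rw [h1, h y, map_sum]
  refine Finset.sum_congr rfl fun i _ => ?_
  rw [mul_comm (c i), ← Algebra.smul_def, map_smul, smul_eq_mul, mul_comm]

theorem qb1b_point {H : AffGrp} (K : Type) [Field K] [Algebra ℂ K] (F : H.KO K) (hF : F ≠ 0) :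
    ∃ f : H.O, f ≠ 0 ∧ ∀ y, f.1 y ≠ 0 → F.1 y ≠ 0 := by
  have hx : ∃ x, F.1 x ≠ 0 := by
    by_contra hc
    push Not at hc
    exact hF (KO_ext fun x => by rw [hc x, KO_zero])
  obtain ⟨x, hx⟩ := hx
  have hu : ∃ u : Module.Dual ℂ K, u (F.1 x) ≠ 0 := by
    by_contra hc
    push Not at hc
    exact hx ((Module.forall_dual_apply_eq_zero_iff ℂ _).1 hc)
  obtain ⟨u, hu⟩ := hu
  obtain ⟨f, hf⟩ := qb1b_coord K F u
  refine ⟨f, ?_, fun y hy h0 => ?_⟩
  · intro h0
    apply hu
    rw [← hf x, h0]
    rfl
  · apply hy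
    rw [hf y, h0, map_zero]

/-- [MTF-QB1]
PROOF. Let `F, F' ≠ 0` in `H.KO K`: `F.1 x ≠ 0`, `F'.1 x' ≠ 0`.  There is a `ℂ`-linear `u : K → ℂ` with `u (F.1 x) ≠ 0` (`Module.forall_dual_apply_eq_zero_iff ℂ`); `f := (y ↦ u (F.1 y))` is a regular function
(`KO_rep`: `u (∑ c_i * algebraMap (f_i y)) = ∑ u (c_i) * f_i y`, as in the proof of `AffGrp.ext_aux` in KO.lean), nonzero at `x`; the same for `F'`: `f'`.  `f * f' ≠ 0` in `H.O`, so there is `y` with `f y ≠ 0`, `f' y ≠ 0`,
so `F.1 y ≠ 0`, `F'.1 y ≠ 0`, and `F * F' ≠ 0` at `y` because `K` is a field. -/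
theorem KO_domain {H : AffGrp} (hH : IsDomain H.O) (K : Type) [Field K] [Algebra ℂ K] : IsDomain (H.KO K) := by
  have := hH
  have hnz : NoZeroDivisors (H.KO K) := by
    refine ⟨?_⟩
    intro F F' h
    by_contra hc
    push Not at hc
    obtain ⟨f, hf0, hf⟩ := qb1b_point K F hc.1
    obtain ⟨f', hf0', hf'⟩ := qb1b_point K F' hc.2
    have hm : f * f' ≠ 0 := mul_ne_zero hf0 hf0'
    apply hm
    apply Subtype.ext
    funext y
    show f.1 y * f'.1 y = 0
    by_contra h1
    have h2 : f.1 y ≠ 0 := left_ne_zero_of_mul h1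
    have h3 : f'.1 y ≠ 0 := right_ne_zero_of_mul h1
    have h4 : F.1 y * F'.1 y = 0 := by
      rw [← KO_mul, h, KO_zero]
    exact mul_ne_zero (hf y h2) (hf' y h3) h4
  have hnt : Nontrivial (H.KO K) := by
    refine ⟨⟨0, 1, fun h => ?_⟩⟩
    have h1 : (0 : H.KO K).1 1 = (1 : H.KO K).1 1 := by rw [h]
    rw [KO_zero, KO_one] at h1
    exact zero_ne_one h1
  exact NoZeroDivisors.to_isDomain _

/-- [MTF-QB1]
PROOF. `b` gives an additive isomorphism `X ≃+ (Fin n → ℤ)` (`b.equivFun`); `UniqueSums X` (`UniqueProds`/`UniqueSums` instances: `Pi`, `ℤ` ordered; transport along an isomorphism `AddEquiv.uniqueSums_iff` or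
`UniqueSums.of_injective_addHom`).  `NoZeroDivisors (AddMonoidAlgebra S X)` (Mathlib/Algebra/MonoidAlgebra/NoZeroDivisors.lean), nontrivial. -/
theorem amA_domain {S X : Type} [CommRing S] [AddCommGroup X] (hS : IsDomain S) {n : ℕ} (b : Module.Basis (Fin n) ℤ X) :
    IsDomain (AddMonoidAlgebra S X) := by
  have := hS
  have : UniqueSums X :=
    UniqueSums.of_injective_addHom (b.equivFun.toAddEquiv : X →ₙ+ (Fin n → ℤ)) b.equivFun.injective inferInstance
  have : NoZeroDivisors (AddMonoidAlgebra S X) := inferInstance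
  have : Nontrivial (AddMonoidAlgebra S X) := inferInstance
  exact NoZeroDivisors.to_isDomain _

theorem RR_domain {G : AffGrp} {K W X : Type} [Field K] [Algebra ℂ K] [Group W] [AddCommGroup X] {Q : TQD G K W X}
    (P : PD Q) (hG : IsDomain G.O) (L : Type) [Finite L] : IsDomain (RR G K X L) :=
  amA_domain (KO_domain (pow_domain hG L) K) P.mb

end Pool.Agent.MTF
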