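import Pool.Agent.MTF.P0a

/-! # MTF, part Q : derivations of `K` -/

set_option linter.unusedSectionVars false

namespace Pool.Agent.MTF

open AffGrp

section
variable {G : AffGrp} {K W X : Type} [Field K] [Algebra ℂ K] [Group W] [Fintype W]
  [MulSemiringAction W K] [SMulCommClass W ℂ K] [AddCommGroup X] [DistribMulAction W X]
variable {Q : TQD G K W X} {P : PD Q}

omit [Fintype W] [MulSemiringAction W K] [SMulCommClass W ℂ K] [DistribMulAction W X] in
/-- the right side is a derivation -/
theorem qc1a_T_mul {E : Type} [Field E] [Algebra ℂ E] [Algebra K E]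
    (δ : Derivation ℂ K E) (x y : K) :
    ∑ j, algebraMap K E (P.dd j (x * y)) * δ (P.y j) =
      algebraMap K E x * (∑ j, algebraMap K E (P.dd j y) * δ (P.y j)) +
        algebraMap K E y * (∑ j, algebraMap K E (P.dd j x) * δ (P.y j)) := by
  rw [Finset.mul_sum, Finset.mul_sum, ← Finset.sum_add_distrib]
  apply Finset.sum_congr rfl
  intro j _
  rw [Derivation.leibniz, smul_eq_mul, smul_eq_mul, map_add, map_mul, map_mul]
  ring

omit [Fintype W] [MulSemiringAction W K] [SMulCommClass W ℂ K] [DistribMulAction W X] in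
/-- products -/
theorem qc1a_mul {E : Type} [Field E] [Algebra ℂ E] [Algebra K E]
    (δ : Derivation ℂ K E) {x y : K} (hx : δ x = ∑ j, algebraMap K E (P.dd j x) * δ (P.y j))
    (hy : δ y = ∑ j, algebraMap K E (P.dd j y) * δ (P.y j)) :
    δ (x * y) = ∑ j, algebraMap K E (P.dd j (x * y)) * δ (P.y j) := by
  rw [qc1a_T_mul δ, ← hx, ← hy, Derivation.leibniz, Algebra.smul_def, Algebra.smul_def]

/-- [MTF-QC1] The derivations of `K` are the combinations of the `dd j`.
PROOF. `δ' := δ - ∑ j, δ (P.y j) • (dd j followed by algebraMap)` is a derivation `K → E` which kills the `P.y i` (`hP.dd_y`), so it kills `Algebra.adjoin ℂ (Set.range P.y) = Q.A` (`hP.A_gen`,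
`Derivation.eqOn_adjoin` or `Algebra.adjoin_induction`).  For `x : K` take `a ∈ Q.A`, `a ≠ 0`, `a * x ∈ Q.A` (`hP.frac`): `0 = δ' (a * x) = a • δ' x + x • δ' a = a • δ' x` and `algebraMap K E a ≠ 0`. -/
theorem dec_K (hP : PQ Q P) {E : Type} [Field E] [Algebra ℂ E] [Algebra K E] [IsScalarTower ℂ K E]
    (δ : Derivation ℂ K E) (x : K) : δ x = ∑ j, algebraMap K E (P.dd j x) * δ (P.y j) := by
  have hA : ∀ x ∈ Q.A, δ x = ∑ j, algebraMap K E (P.dd j x) * δ (P.y j) := by
    intro x hx
    rw [← hP.A_gen] at hx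
    induction hx using Algebra.adjoin_induction with
    | mem x hx =>
      obtain ⟨i, rfl⟩ := hx
      rw [Finset.sum_eq_single i]
      · rw [hP.dd_y, if_pos rfl, map_one, one_mul]
      · intro j _ hj
        rw [hP.dd_y, if_neg hj, map_zero, zero_mul]
      · intro hi
        exact absurd (Finset.mem_univ i) hi
    | algebraMap r =>
      rw [Derivation.map_algebraMap]
      symm
      apply Finset.sum_eq_zero
      intro j _
      rw [Derivation.map_algebraMap, map_zero, zero_mul]
    | add x y _ _ hx hy =>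
      rw [map_add, hx, hy, ← Finset.sum_add_distrib]
      apply Finset.sum_congr rfl
      intro j _
      rw [map_add, map_add, add_mul]
    | mul x y _ _ hx hy => exact qc1a_mul δ hx hy
  obtain ⟨a, ha, ha0, hax⟩ := hP.frac x
  have h1 := hA _ hax
  rw [qc1a_T_mul δ, Derivation.leibniz, Algebra.smul_def, Algebra.smul_def, ← hA a ha] at h1
  have h2 := add_right_cancel h1
  exact mul_left_cancel₀ ((map_ne_zero_iff _ (algebraMap K E).injective).2 ha0) h2

theorem qc1b_inv (hT : TQ Q) (hP : PQ Q P) {E : Type} [Field E] [Algebra ℂ E] [Algebra K E] [IsScalarTower ℂ K E]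
    (δ : Derivation ℂ K E) (h : ∀ a ∈ Q.A, (∀ w : W, w • a = a) → δ a = 0) (x : K)
    (hx : ∀ w : W, w • x = x) : δ x = 0 := by
  classical
  obtain ⟨a, ha, ha0, hax⟩ := hP.frac x
  obtain ⟨N, hN⟩ : ∃ N : K, N = ∏ w : W, w • a := ⟨_, rfl⟩
  have hNA : N ∈ Q.A := by
    rw [hN]
    exact Subalgebra.prod_mem _ fun w _ => hT.wA w a ha
  have hNw : ∀ v : W, v • N = N := by
    intro v
    rw [hN, Finset.smul_prod']
    refine Fintype.prod_equiv (Equiv.mulLeft v) _ _ fun w => ?_
    rw [Equiv.coe_mulLeft, mul_smul]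
  have hN0 : N ≠ 0 := by
    rw [hN, Finset.prod_ne_zero_iff]
    intro w _ h0
    exact ha0 ((smul_eq_zero_iff_eq w).1 h0)
  have hNx : N * x ∈ Q.A := by
    have e : N * x = (∏ w ∈ Finset.univ.erase (1 : W), w • a) * (a * x) := by
      rw [hN, ← Finset.mul_prod_erase Finset.univ (fun w : W => w • a) (Finset.mem_univ 1), one_smul]
      ring
    rw [e]
    exact Subalgebra.mul_mem _ (Subalgebra.prod_mem _ fun w _ => hT.wA w a ha) hax
  have h1 : δ N = 0 := h N hNA hNw
  have h2 : δ (N * x) = 0 := h _ hNx fun w => by rw [smul_mul', hNw, hx]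
  rw [δ.leibniz, h1, smul_zero, add_zero] at h2
  exact (smul_eq_zero.1 h2).resolve_left hN0

theorem qc1b_poly {K E : Type} [Field K] [Algebra ℂ K] [Field E] [Algebra ℂ E] [Algebra K E]
    [IsScalarTower ℂ K E] (δ : Derivation ℂ K E) (k : Subfield K) (hk : ∀ c : k, δ (c : K) = 0)
    (x : K) (p : Polynomial k) :
    δ (Polynomial.aeval x p) = (Polynomial.aeval x (Polynomial.derivative p)) • δ x := by
  induction p using Polynomial.induction_on' with
  | add p q hp hq => rw [map_add, map_add, hp, hq, map_add, map_add, add_smul]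
  | monomial n c =>
    have hc : δ (algebraMap k K c) = 0 := hk c
    rw [Polynomial.aeval_monomial, δ.leibniz, hc, smul_zero, add_zero, δ.leibniz_pow,
      Polynomial.derivative_monomial, Polynomial.aeval_monomial, map_mul, map_natCast,
      ← Nat.cast_smul_eq_nsmul K, smul_smul, smul_smul]

/-- [MTF-QC1] A derivation that kills the invariant polynomial functions is `0`.
PROOF.  (1) `δ` kills all `x : K` with `w • x = x` for all `w`: take `a ∈ Q.A`, `a ≠ 0`, `a * x ∈ Q.A` (`hP.frac`) and `N := ∏ w : W, w • a` (in `Q.A` by `hT.wA`, invariant, nonzero); `N * x ∈ Q.A`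
(`N = a * ∏ w ≠ 1`), invariant: `0 = δ (N * x) = N • δ x + x • δ N = N • δ x`.
(2) Let `k := FixedPoints.subfield W K`; `K / k` is algebraic (finite: `FixedPoints` instances), separable (characteristic 0), and `δ` is `k`-linear by (1): a derivation over `k`.  For `x : K` let `p = minpoly k x`:
`0 = δ (aeval x p) = (aeval x p.derivative) • δ x` (`Derivation.map_aeval`) and `aeval x p.derivative ≠ 0` (separable).  [Or: `Ω[K⁄k] = 0`, `Algebra.FormallyUnramified.of_isSeparable`.]
[Elementary alternative to (2): let `q` be a monic polynomial of minimal degree with coefficients in `k` and `q(x) = 0`, its derivative is not `0` at `x`.] -/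
theorem kill_K (hT : TQ Q) (hP : PQ Q P) {E : Type} [Field E] [Algebra ℂ E] [Algebra K E] [IsScalarTower ℂ K E]
    (δ : Derivation ℂ K E) (h : ∀ a ∈ Q.A, (∀ w : W, w • a = a) → δ a = 0) (x : K) : δ x = 0 := by
  have hk : ∀ c : FixedPoints.subfield W K, δ (c : K) = 0 := fun c =>
    qc1b_inv hT hP δ h c.1 fun w => c.2 w
  have h1 := qc1b_poly δ (FixedPoints.subfield W K) hk x (minpoly (FixedPoints.subfield W K) x)
  have hs : (minpoly (FixedPoints.subfield W K) x).Separable :=
    Algebra.IsSeparable.isSeparable (FixedPoints.subfield W K) x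
  have h2 := hs.aeval_derivative_ne_zero (minpoly.aeval _ x)
  rw [minpoly.aeval, map_zero] at h1
  exact (smul_eq_zero.1 h1.symm).resolve_left h2

end

end Pool.Agent.MTF
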