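import Pool.Agent.MTF.F0c
import Pool.Agent.MTG.Y1

/-! # MTF, part Q : derivations of the functions on a group -/

set_option linter.unusedSectionVars false

namespace Pool.Agent.MTF

open AffGrp

/-- [MTF-QC2a] Point derivations at `1` with values in a ring `E`.
PROOF. Choose `x_a ∈ H.O` with `x_a.1 1 = 0`, `(b a').1 x_a = δ_{a a'}`: the functionals `(b a).1` on `H.O` are linearly independent (`b` is a basis, `Submodule.subtype` injective), so there are `x_a` with
`(b a').1 x_a = δ` (finite families of independent functionals: `Module.Dual`/`LinearIndependent` evaluation: `exists_dual_..`, e.g. the linear map `H.O → (ι → ℂ)`, `f ↦ ((b a).1 f)_a` is surjective because its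
dual map is injective: `LinearMap.dualMap_injective_iff`); replace `x_a` by `x_a - x_a(1)` (`lie_one`).
Let `f : H.O` and `g := f - f(1) - ∑ a, (b a).1 f • x_a`: `g.1 1 = 0` and `D.1 g = 0` for all `D : H.Lie`.  Then `g ∈ 𝔪²`, where `𝔪` is the ideal `{f | f.1 1 = 0}`, `𝔪² := Ideal.span`-products: otherwise there is a
linear functional `u` on `H.O` with `u = 0` on `𝔪²` and on `1`, `u g ≠ 0` (`Submodule.exists_le_ker_of_notMem` for `𝔪² ⊔ span {1}`: `g` is not in it, since `g = y + c • 1` with `y ∈ 𝔪²` gives `c = 0` at the point `1`); `u` is a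
point derivation (`(f - f(1)) (f' - f'(1)) ∈ 𝔪²`), `u ∈ H.Lie`, contradiction.
`lam` vanishes on `𝔪²` and on `1` (by `hlam`), so `lam f = ∑ a, (b a).1 f • lam x_a`; `Y a := lam x_a`. -/
theorem pt_der {H : AffGrp} {ι : Type} [Fintype ι] (b : Module.Basis ι ℂ H.Lie) {E : Type} [CommRing E] [Algebra ℂ E]
    (lam : H.O →ₗ[ℂ] E) (hlam : ∀ f g : H.O, lam (f * g) = f.1 1 • lam g + g.1 1 • lam f) :
    ∃ Y : ι → E, ∀ f, lam f = ∑ a, (b a).1 f • Y a := by
  classical
  obtain ⟨Φ, hΦ⟩ : ∃ Φ : H.O →ₗ[ℂ] (ι → ℂ), ∀ f a, Φ f a = (b a).1 f :=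
    ⟨LinearMap.pi fun a => (b a).1, fun f a => rfl⟩
  have hker : LinearMap.ker Φ ≤ LinearMap.ker lam := by
    intro f hf
    rw [LinearMap.mem_ker] at hf ⊢
    rw [← Module.forall_dual_apply_eq_zero_iff ℂ]
    intro u
    have hu : u ∘ₗ lam ∈ H.Lie := by
      intro f g
      show u (lam (f * g)) = f.1 1 * u (lam g) + g.1 1 * u (lam f)
      rw [hlam, map_add, map_smul, map_smul, smul_eq_mul, smul_eq_mul]
    have h1 := b.sum_repr ⟨u ∘ₗ lam, hu⟩
    have h2 := congrArg (fun D : H.Lie => D.1 f) h1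
    have h3 : (∑ a, b.repr ⟨u ∘ₗ lam, hu⟩ a • b a : H.Lie).1 f =
        ∑ a, b.repr ⟨u ∘ₗ lam, hu⟩ a * (b a).1 f := by
      rw [AddSubmonoidClass.coe_finsetSum, LinearMap.sum_apply]
      rfl
    have h4 : u (lam f) = ∑ a, b.repr ⟨u ∘ₗ lam, hu⟩ a * (b a).1 f := by
      rw [← h3]
      exact h2.symm
    rw [h4]
    refine Finset.sum_eq_zero fun a _ => ?_
    have h5 : (b a).1 f = 0 := by
      rw [← hΦ, hf]
      rfl
    rw [h5, mul_zero]
  obtain ⟨ψ, hψ⟩ := LinearMap.exists_extend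
    (((LinearMap.ker Φ).liftQ lam hker) ∘ₗ Φ.quotKerEquivRange.symm.toLinearMap)
  have hψf : ∀ f, ψ (Φ f) = lam f := by
    intro f
    have h1 := LinearMap.congr_fun hψ ⟨Φ f, LinearMap.mem_range_self Φ f⟩
    have h2 : Φ.quotKerEquivRange.symm ⟨Φ f, LinearMap.mem_range_self Φ f⟩ =
        (LinearMap.ker Φ).mkQ f := by
      rw [LinearEquiv.symm_apply_eq]
      rfl
    rw [LinearMap.comp_apply, LinearMap.comp_apply] at h1
    have h3 : ψ (Φ f) = (LinearMap.ker Φ).liftQ lam hker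
        (Φ.quotKerEquivRange.symm ⟨Φ f, LinearMap.mem_range_self Φ f⟩) := h1
    rw [h3, h2]
    rfl
  refine ⟨fun a => ψ (Pi.single a 1), fun f => ?_⟩
  rw [← hψf, LinearMap.pi_apply_eq_sum_univ ψ (Φ f)]
  refine Finset.sum_congr rfl fun a _ => ?_
  rw [hΦ]
  congr 2
  funext j
  by_cases h : a = j
  · subst h
    simp
  · simp [h, Pi.single_apply, Ne.symm h]

/-- tensors with arbitrary finite index types -/
theorem QC2b_tens {G G' : AffGrp} {R : Type} [CommRing R] [Algebra ℂ R] {ι κ : Type} [Fintype ι] [Fintype κ]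
    (φ : G.O →ₗ[ℂ] R) (ψ : G'.O →ₗ[ℂ] R) (a : ι → G.O) (b : ι → G'.O) (a' : κ → G.O) (b' : κ → G'.O)
    (h : ∀ x y, ∑ i, (a i).1 x * (b i).1 y = ∑ i, (a' i).1 x * (b' i).1 y) :
    ∑ i, φ (a i) * ψ (b i) = ∑ i, φ (a' i) * ψ (b' i) := by
  have h1 := AffGrp.tens_eq φ ψ (fun i => a ((Fintype.equivFin ι).symm i))
    (fun i => b ((Fintype.equivFin ι).symm i)) (fun i => a' ((Fintype.equivFin κ).symm i))
    (fun i => b' ((Fintype.equivFin κ).symm i)) (by
      intro x y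
      rw [Equiv.sum_comp (Fintype.equivFin ι).symm (fun i => (a i).1 x * (b i).1 y),
        Equiv.sum_comp (Fintype.equivFin κ).symm (fun i => (a' i).1 x * (b' i).1 y)]
      exact h x y)
  rw [Equiv.sum_comp (Fintype.equivFin ι).symm (fun i => φ (a i) * ψ (b i)),
    Equiv.sum_comp (Fintype.equivFin κ).symm (fun i => φ (a' i) * ψ (b' i))] at h1
  exact h1

/-- `mulFun` as a linear map -/
noncomputable def QC2b_lin {G : AffGrp} {R : Type} [CommRing R] [Algebra ℂ R] (φ ψ : G.O →ₗ[ℂ] R) :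
    G.O →ₗ[ℂ] R where
  toFun := AffGrp.Pt.mulFun φ ψ
  map_add' := by
    intro f g
    obtain ⟨n, a, b, h⟩ := G.mul_mem f.1 f.2
    obtain ⟨m, a', b', h'⟩ := G.mul_mem g.1 g.2
    rw [AffGrp.Pt.mulFun_eq _ _ f a b h, AffGrp.Pt.mulFun_eq _ _ g a' b' h',
      AffGrp.Pt.mulFun_eq _ _ (f + g) (Fin.append a a') (Fin.append b b') (by
        intro x y
        rw [O_add, h, h', Fin.sum_univ_add]
        simp only [Fin.append_left, Fin.append_right])]
    rw [Fin.sum_univ_add]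
    simp only [Fin.append_left, Fin.append_right]
  map_smul' := by
    intro c f
    obtain ⟨n, a, b, h⟩ := G.mul_mem f.1 f.2
    rw [AffGrp.Pt.mulFun_eq _ _ f a b h, AffGrp.Pt.mulFun_eq _ _ (c • f) (fun i => c • a i) b (by
        intro x y
        rw [O_smul, h, Finset.mul_sum]
        exact Finset.sum_congr rfl fun i _ => by rw [O_smul]; ring)]
    rw [RingHom.id_apply, Finset.smul_sum]
    refine Finset.sum_congr rfl fun i _ => ?_
    rw [map_smul, smul_mul_assoc]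

theorem QC2b_lin_eq {G : AffGrp} {R : Type} [CommRing R] [Algebra ℂ R] (φ ψ : G.O →ₗ[ℂ] R)
    (f : G.O) {n : ℕ} (a b : Fin n → G.O)
    (h : ∀ x y, f.1 (x * y) = ∑ i, (a i).1 x * (b i).1 y) :
    QC2b_lin φ ψ f = ∑ i, φ (a i) * ψ (b i) := AffGrp.Pt.mulFun_eq φ ψ f a b h

/-- `∑ a_i⁻ b_i = f(1)` -/
theorem QC2b_inv {H : AffGrp} (f : H.O) {n : ℕ} (a b : Fin n → H.O)
    (h : ∀ x y, f.1 (x * y) = ∑ i, (a i).1 x * (b i).1 y) :
    ∑ i, AffGrp.Pt.invO H (a i) * b i = algebraMap ℂ H.O (f.1 1) := by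
  apply AffGrp.O_ext
  intro x
  rw [AffGrp.O_sum]
  have h1 := h x⁻¹ x
  rw [inv_mul_cancel] at h1
  exact h1.symm

/-- `∑ D(b_i) a_i = der D f` -/
theorem QC2b_der {H : AffGrp} (D : H.Lie) (f : H.O) {n : ℕ} (a b : Fin n → H.O)
    (h : ∀ x y, f.1 (x * y) = ∑ i, (a i).1 x * (b i).1 y) :
    H.der D f = ∑ i, D.1 (b i) • a i := by
  apply AffGrp.O_ext
  intro x
  rw [AffGrp.O_sum]
  have h1 : H.lt x f = ∑ i, (a i).1 x • b i := by
    apply AffGrp.O_ext
    intro y
    rw [AffGrp.O_sum]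
    exact h x y
  have h2 : (H.der D f).1 x = D.1 (H.lt x f) := rfl
  rw [h2, h1, map_sum]
  refine Finset.sum_congr rfl fun i _ => ?_
  rw [map_smul, O_smul, smul_eq_mul, mul_comm]

/-- [MTF-QC2b] The derivations of the functions on a group are combinations of the left invariant fields.
PROOF. For `f : H.O` put `lam f := ∑ i, i0 (a_i⁻) * δ (b_i)` where `f (x y) = ∑ a_i x * b_i y` (`H.mul_mem`), `a_i⁻ (x) = a_i (x⁻¹)` (`H.inv_mem`, `AffGrp.Pt.invO`), `i0 = algebraMap H.O E`.  Well-defined and linear: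
`AffGrp.tens_aux` (MTG/Y1.lean) with `φ := i0 ∘ invO`, `ψ := δ` (both `ℂ`-linear); see `AffGrp.Pt.mulFun`, `mulFun_eq` (MTG/Y1.lean), which may be used directly: `lam f = mulFun (i0 ∘ invO) δ f`.
`lam` is a point derivation: for `f f'` with `a_i, b_i`, `a'_j, b'_j`: `lam (f f') = ∑ i0 (a_i⁻ a'_j⁻) (b_i δ b'_j + b'_j δ b_i)` and `∑ i0 (a_i⁻) i0 (b_i) = f(1)` (as functions `∑ a_i (x⁻¹) b_i (x) = f (x⁻¹ x)`).
`pt_der` gives `Y`.  Finally `δ f = ∑ i, i0 (a_i) * lam (b_i)`: with `b_i (x y) = ∑_j c_ij x * d_ij y` it is `∑ i0 (a_i * c_ij⁻) * δ (d_ij)` and `∑ a_i (x) c_ij (x⁻¹) d_ij (y) = f (x x⁻¹ y) = f y`, so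
`∑ i0 (a_i * c_ij⁻) * δ (d_ij) = δ f` by `AffGrp.tens_aux` (compare with the representation `1 ⊗ f`).  And `∑ i, i0 (a_i) * (b a).1 (b_i) = i0 (H.der (b a) f)`, since `(H.der D f).1 x = D.1 (y ↦ f (x y)) = ∑ a_i x * D.1 (b_i)`. -/
theorem dec_O {H : AffGrp} {ι : Type} [Fintype ι] (b : Module.Basis ι ℂ H.Lie) {E : Type} [CommRing E] [Algebra ℂ E]
    [Algebra H.O E] [IsScalarTower ℂ H.O E] (δ : Derivation ℂ H.O E) :
    ∃ Y : ι → E, ∀ f : H.O, δ f = ∑ a, Y a * algebraMap H.O E (H.der (b a) f) := by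
  classical
  let i0 : H.O →ₐ[ℂ] E := IsScalarTower.toAlgHom ℂ H.O E
  have hi0 : ∀ f, i0 f = algebraMap H.O E f := fun f => rfl
  let φ : H.O →ₗ[ℂ] E := i0.toLinearMap ∘ₗ (AffGrp.Pt.invO H).toLinearMap
  have hφ : ∀ f, φ f = i0 (AffGrp.Pt.invO H f) := fun f => rfl
  let ψ : H.O →ₗ[ℂ] E := δ.toLinearMap
  have hψ : ∀ f, ψ f = δ f := fun f => rfl
  have hleib : ∀ f g : H.O, δ (f * g) = i0 f * δ g + i0 g * δ f := by
    intro f g
    rw [Derivation.leibniz, Algebra.smul_def, Algebra.smul_def]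
    rfl
  let lam := QC2b_lin φ ψ
  have hlam : ∀ f g : H.O, lam (f * g) = f.1 1 • lam g + g.1 1 • lam f := by
    intro f g
    obtain ⟨n, a, b', h⟩ := H.mul_mem f.1 f.2
    obtain ⟨m, c, d, h'⟩ := H.mul_mem g.1 g.2
    have e1 := QC2b_lin_eq φ ψ f a b' h
    have e2 := QC2b_lin_eq φ ψ g c d h'
    have e3 := QC2b_lin_eq φ ψ (f * g) (n := n * m)
          (fun k => a (finProdFinEquiv.symm k).1 * c (finProdFinEquiv.symm k).2)
          (fun k => b' (finProdFinEquiv.symm k).1 * d (finProdFinEquiv.symm k).2) (by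
            intro x y
            rw [O_mul, h, h', Finset.sum_mul_sum, ← Equiv.sum_comp finProdFinEquiv,
              Fintype.sum_prod_type]
            refine Finset.sum_congr rfl fun k _ => Finset.sum_congr rfl fun l _ => ?_
            simp only [Equiv.symm_apply_apply, O_mul]
            ring)
    have e4 : ∑ i, φ (a i) * i0 (b' i) = algebraMap ℂ E (f.1 1) := by
      have h5 := congrArg i0 (QC2b_inv f a b' h)
      rw [map_sum, AlgHom.commutes] at h5
      rw [← h5]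
      exact Finset.sum_congr rfl fun i _ => (map_mul i0 _ _).symm
    have e5 : ∑ i, φ (c i) * i0 (d i) = algebraMap ℂ E (g.1 1) := by
      have h5 := congrArg i0 (QC2b_inv g c d h')
      rw [map_sum, AlgHom.commutes] at h5
      rw [← h5]
      exact Finset.sum_congr rfl fun i _ => (map_mul i0 _ _).symm
    have e6 : lam (f * g) = (∑ i, φ (a i) * i0 (b' i)) * (∑ j, φ (c j) * ψ (d j)) +
        (∑ j, φ (c j) * i0 (d j)) * (∑ i, φ (a i) * ψ (b' i)) := by
      rw [Finset.sum_mul_sum, Finset.sum_mul_sum, Finset.sum_comm (s := (Finset.univ : Finset (Fin m))),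
        ← Finset.sum_add_distrib]
      refine e3.trans ?_
      rw [← Equiv.sum_comp finProdFinEquiv, Fintype.sum_prod_type]
      refine Finset.sum_congr rfl fun k _ => ?_
      rw [← Finset.sum_add_distrib]
      refine Finset.sum_congr rfl fun l _ => ?_
      simp only [Equiv.symm_apply_apply]
      have e7 : φ (a k * c l) = φ (a k) * φ (c l) := by
        rw [hφ, hφ, hφ, map_mul, map_mul]
      rw [e7, hψ, hψ, hψ, hleib]
      ring
    rw [e6, e4, e5, ← e1, ← e2, Algebra.smul_def, Algebra.smul_def]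
  obtain ⟨Y, hY⟩ := pt_der b lam hlam
  refine ⟨Y, fun f => ?_⟩
  obtain ⟨n, a, b', h⟩ := H.mul_mem f.1 f.2
  have hc : ∀ i, ∃ (m : ℕ) (c d : Fin m → H.O), ∀ x y : H.X,
      (b' i).1 (x * y) = ∑ j, (c j).1 x * (d j).1 y := fun i => H.mul_mem (b' i).1 (b' i).2
  choose m c d hcd using hc
  have e1 : δ f = ∑ i, i0 (a i) * lam (b' i) := by
    have h1 : ∀ i, i0 (a i) * lam (b' i) = ∑ j, i0 (a i * AffGrp.Pt.invO H (c i j)) * ψ (d i j) := by
      intro i
      have h2 := QC2b_lin_eq φ ψ (b' i) (c i) (d i) (hcd i)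
      have h3 : lam (b' i) = ∑ j, φ (c i j) * ψ (d i j) := h2
      rw [h3, Finset.mul_sum]
      refine Finset.sum_congr rfl fun j _ => ?_
      rw [hφ, map_mul, mul_assoc]
    simp only [h1]
    have h2 := QC2b_tens (G := H) (G' := H) i0.toLinearMap ψ
      (ι := Σ i : Fin n, Fin (m i)) (κ := Fin 1) (fun p => a p.1 * AffGrp.Pt.invO H (c p.1 p.2))
      (fun p => d p.1 p.2) (fun _ => 1) (fun _ => f) (by
        intro x y
        rw [Fintype.sum_sigma, Fin.sum_univ_one]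
        have h3 : ∀ i, ∑ j, (a i * AffGrp.Pt.invO H (c i j)).1 x * (d i j).1 y =
            (a i).1 x * (b' i).1 (x⁻¹ * y) := by
          intro i
          rw [hcd, Finset.mul_sum]
          refine Finset.sum_congr rfl fun j _ => ?_
          rw [O_mul]
          have h4 : (AffGrp.Pt.invO H (c i j)).1 x = (c i j).1 x⁻¹ := rfl
          rw [h4, mul_assoc]
        simp only [h3]
        rw [← h, O_one, one_mul, mul_inv_cancel_left])
    rw [Fintype.sum_sigma, Fin.sum_univ_one] at h2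
    have h3 : i0.toLinearMap (1 : H.O) = 1 := map_one i0
    rw [h3, one_mul] at h2
    exact h2.symm
  rw [e1]
  have e2 : ∀ k, algebraMap H.O E (H.der (b k) f) = ∑ i, (b k).1 (b' i) • i0 (a i) := by
    intro k
    rw [QC2b_der (b k) f a b' h, ← hi0, map_sum]
    exact Finset.sum_congr rfl fun i _ => map_smul i0 _ _
  simp only [e2, hY, Finset.mul_sum]
  rw [Finset.sum_comm]
  refine Finset.sum_congr rfl fun k _ => Finset.sum_congr rfl fun i _ => ?_
  rw [mul_smul_comm, mul_smul_comm, mul_comm]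

/-- [MTF-QC2b] A basis of the Lie algebra of `G^L`. PROOF. `G.pl : (L → G.Lie) ≃ₗ[ℂ] (G.pow L).Lie` (F0c.lean), `pl_single`, `Pi.basis fun _ => D`, reindexed (`Equiv.sigmaEquivProd`). -/
theorem exists_basis_pow {G : AffGrp} (L : Type) [Fintype L] [DecidableEq L] {r : ℕ} (D : Module.Basis (Fin r) ℂ G.Lie) :
    ∃ b : Module.Basis (L × Fin r) ℂ (G.pow L).Lie, ∀ l a, b (l, a) = emb l (D a) := by
  refine ⟨((Pi.basis (fun _ : L => D)).map (G.pl (L := L))).reindex (Equiv.sigmaEquivProd L (Fin r)), fun l a => ?_⟩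
  rw [Module.Basis.reindex_apply, Module.Basis.map_apply]
  have h1 : (Equiv.sigmaEquivProd L (Fin r)).symm (l, a) = ⟨l, a⟩ := rfl
  rw [h1, Pi.basis_apply]
  exact AffGrp.pl_single l (D a)

end Pool.Agent.MTF
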