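import Pool.Agent.MTF.QC1
import Pool.Agent.MTF.QC2
import Pool.Agent.MTF.PB1

/-! # MTF, part Q : derivations of the ring of families -/

set_option linter.unusedSectionVars false

namespace Pool.Agent.MTF

open AffGrp

section
variable {G : AffGrp} {K W X : Type} [Field K] [Algebra ℂ K] [Group W] [Fintype W]
  [MulSemiringAction W K] [SMulCommClass W ℂ K] [AddCommGroup X] [DistribMulAction W X]
variable {Q : TQD G K W X} {P : PD Q}
variable {L : Type} [Fintype L] [DecidableEq L]

/-- the inclusion of the regular functions on `G^L` into the ring of families -/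
noncomputable def inR (K X : Type) [Field K] [Algebra ℂ K] [AddCommGroup X] {G : AffGrp} {L : Type} [Fintype L] :
    (G.pow L).O →ₐ[ℂ] RR G K X L where
  toFun f := AddMonoidAlgebra.single 0 (inc K f)
  map_one' := by
    rw [show inc K (1 : (G.pow L).O) = 1 from KO_ext fun x => map_one (algebraMap ℂ K)]
    rfl
  map_mul' f f' := by
    rw [inc_mul, AddMonoidAlgebra.single_mul_single, add_zero]
  map_zero' := by
    rw [show inc K (0 : (G.pow L).O) = 0 from KO_ext fun x => map_zero (algebraMap ℂ K), AddMonoidAlgebra.single_zero]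
  map_add' f f' := by
    rw [show inc K (f + f') = inc K f + inc K f' from KO_ext fun x => map_add (algebraMap ℂ K) _ _,
      AddMonoidAlgebra.single_add]
  commutes' c := by
    rw [show inc K (algebraMap ℂ (G.pow L).O c) = algebraMap ℂ ((G.pow L).KO K) c from KO_ext fun x => rfl]
    rfl

theorem qc3_K (hP : PQ Q P) {E : Type} [Field E] [Algebra ℂ E] (φ : K →ₐ[ℂ] E) (d : K →ₗ[ℂ] E)
    (hd : ∀ x y, d (x * y) = φ x * d y + φ y * d x) (x : K) :
    d x = ∑ j, φ (P.dd j x) * d (P.y j) := by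
  letI : Algebra K E := φ.toRingHom.toAlgebra
  haveI : IsScalarTower ℂ K E := IsScalarTower.of_algebraMap_eq fun c => (φ.commutes c).symm
  exact dec_K hP (Derivation.mk' d fun a b => hd a b) x

theorem qc3_O {H : AffGrp} {ι : Type} [Fintype ι] (b : Module.Basis ι ℂ H.Lie) {E : Type}
    [CommRing E] [Algebra ℂ E] (φ : H.O →ₐ[ℂ] E) (d : H.O →ₗ[ℂ] E)
    (hd : ∀ x y, d (x * y) = φ x * d y + φ y * d x) :
    ∃ Y : ι → E, ∀ f, d f = ∑ a, Y a * φ (H.der (b a) f) := by
  letI : Algebra H.O E := φ.toRingHom.toAlgebra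
  haveI : IsScalarTower ℂ H.O E := IsScalarTower.of_algebraMap_eq fun c => (φ.commutes c).symm
  exact dec_O b (Derivation.mk' d fun a b => hd a b)

theorem qc3_i1 (x : K) : algebraMap K (RR G K X L) x =
    AddMonoidAlgebra.single 0 (algebraMap K ((G.pow L).KO K) x) := by
  rfl

theorem qc3_single (x : K) (f : (G.pow L).O) (m : X) :
    (AddMonoidAlgebra.single m (x • inc K f) : RR G K X L) =
      algebraMap K (RR G K X L) x * inR K X f * AddMonoidAlgebra.single m 1 := by
  have h2 : inR K X f = (AddMonoidAlgebra.single 0 (inc K f) : RR G K X L) := rfl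
  rw [h2, qc3_i1, AddMonoidAlgebra.single_mul_single, AddMonoidAlgebra.single_mul_single, add_zero,
    zero_add, mul_one, Algebra.smul_def]

theorem qc3_DL_i2 (l : L) (a : Fin Q.r) (f : (G.pow L).O) :
    PD.DL (Q := Q) l a (inR K X f) = inR K X ((G.pow L).der (emb l (Q.D a)) f) := by
  have h2 : ∀ f : (G.pow L).O, inR K X f = (AddMonoidAlgebra.single 0 (inc K f) : RR G K X L) :=
    fun _ => rfl
  unfold PD.DL
  rw [h2, cD_single, derD_apply, derK_inc, ← h2]

theorem qc3_DX_i2 (j : Fin P.n) (f : (G.pow L).O) : P.DX L j (inR K X f) = 0 := by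
  have h2 : inR K X f = (AddMonoidAlgebra.single 0 (inc K f) : RR G K X L) := rfl
  unfold PD.DX
  rw [h2, cD_single]
  have h3 : dK (P.dd j) (inc K f) = 0 := KO_ext fun x => by
    rw [dK_apply]
    show P.dd j (algebraMap ℂ K (f.1 x)) = 0
    exact (P.dd j).map_algebraMap _
  rw [h3, AddMonoidAlgebra.single_zero]

theorem qc3_DN_i2 (j : Fin P.n) (f : (G.pow L).O) : P.DN L j (inR K X f) = 0 := by
  have h2 : inR K X f = (AddMonoidAlgebra.single 0 (inc K f) : RR G K X L) := rfl
  unfold PD.DN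
  rw [h2, nD_single, map_zero, zero_mul, AddMonoidAlgebra.single_zero]

theorem qc3_DL_e (l : L) (a : Fin Q.r) (m : X) :
    PD.DL (Q := Q) l a (AddMonoidAlgebra.single m 1 : RR G K X L) = 0 := by
  unfold PD.DL
  rw [cD_single, Derivation.map_one_eq_zero, AddMonoidAlgebra.single_zero]

theorem qc3_DX_e (j : Fin P.n) (m : X) :
    P.DX L j (AddMonoidAlgebra.single m 1 : RR G K X L) = 0 := by
  unfold PD.DX
  rw [cD_single, Derivation.map_one_eq_zero, AddMonoidAlgebra.single_zero]

theorem qc3_DN_e (j : Fin P.n) (m : X) :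
    P.DN L j (AddMonoidAlgebra.single m 1 : RR G K X L) =
      P.cd j m • (AddMonoidAlgebra.single m 1 : RR G K X L) := by
  unfold PD.DN
  rw [nD_single]
  apply AddMonoidAlgebra.coeff_injective
  rw [AddMonoidAlgebra.coeff_smul, AddMonoidAlgebra.coeff_single, AddMonoidAlgebra.coeff_single,
    Finsupp.smul_single]
  congr 1
  show ((P.cd j m : ℤ) : (G.pow L).KO K) * 1 = P.cd j m • (1 : (G.pow L).KO K)
  rw [zsmul_eq_mul]

/-- [MTF-QC3] The derivations of the ring of families.
PROOF. Let `i0 = algebraMap (RR G K X L) E`, `i1 = algebraMap K (RR G K X L)`, `i2 = inR K X`, `e m = single m 1`.  `RR` is spanned additively by the products `i1 x * i2 f * e m`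
(`AddMonoidAlgebra.induction_linear`, `KO_eq_sum`: `single m (x • inc f) = i1 x * i2 f * e m`).  Both sides of the claim are derivations `RR → E` (`Derivation.mk'` or check: additive, Leibniz), so it is enough
to compare them on `i1 x`, `i2 f`, `e m`:
`DL l a`: kills `i1 x` (`DL_algebraMap`) and `e m`; `DL l a (i2 f) = i2 ((G.pow L).der (emb l (Q.D a)) f)` (`cD_single`, `derD_apply`, `derK_inc`).
`DX j`: `i1 x ↦ i1 (dd j x)` (`DX_algebraMap`); kills `i2 f` and `e m` (`cD_single`, `dd j` kills complex numbers).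
`DN j`: kills `i1 x` (`DN_algebraMap`), `i2 f`; `e m ↦ cd j m • e m` (`nD_single`).
`Z (inl (l,a))`: from `dec_O` for the basis of `exists_basis_pow L Q.D` and the derivation `δ ∘ i2` of `(G.pow L).O` (local `Algebra (G.pow L).O E` through `i0.comp i2`; `Fintype.sum_prod_type`).
`Z (inr (inl j)) := δ (i1 (P.y j))`: `dec_K` for `δ ∘ i1` (local `Algebra K E` through `i0.comp i1`, `Derivation.compAlgebraMap`).
`Z (inr (inr j)) := δ (e (mb j)) * i0 (e (- mb j))`: `m ↦ δ (e m) * i0 (e (-m))` is additive (`e (m + m') = e m * e m'`, `e m * e (-m) = 1`), so it is `∑ j, cd j m * Z (inr (inr j))`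
(`m = ∑ j, cd j m • mb j`, `P.mb.sum_repr`; `map_zsmul`). -/
theorem dec_R (hP : PQ Q P) {E : Type} [Field E] [Algebra ℂ E] [Algebra (RR G K X L) E] [IsScalarTower ℂ (RR G K X L) E]
    (δ : Derivation ℂ (RR G K X L) E) :
    ∃ Z : PIx P L → E, ∀ F, δ F = ∑ i, Z i * algebraMap (RR G K X L) E (pD P L i F) := by
  classical
  obtain ⟨b, hb⟩ := exists_basis_pow L Q.D
  obtain ⟨A0, hA0⟩ : ∃ A0 : RR G K X L →ₐ[ℂ] E, ∀ F, A0 F = algebraMap (RR G K X L) E F :=
    ⟨IsScalarTower.toAlgHom ℂ (RR G K X L) E, fun _ => rfl⟩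
  have hδ : ∀ F F' : RR G K X L, δ (F * F') = A0 F * δ F' + A0 F' * δ F := by
    intro F F'
    rw [δ.leibniz, Algebra.smul_def, Algebra.smul_def, hA0, hA0]
  -- the constants
  obtain ⟨i1, hi1⟩ : ∃ i1 : K →ₐ[ℂ] RR G K X L, ∀ x, i1 x = algebraMap K (RR G K X L) x :=
    ⟨{ toRingHom := algebraMap K (RR G K X L)
       commutes' := fun c => rfl }, fun _ => rfl⟩
  have hK := qc3_K hP (A0.comp i1) (δ.toLinearMap ∘ₗ i1.toLinearMap) (fun x y => by
    show δ (i1 (x * y)) = A0 (i1 x) * δ (i1 y) + A0 (i1 y) * δ (i1 x)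
    rw [map_mul, hδ])
  obtain ⟨Y, hY⟩ := qc3_O b (A0.comp (inR K X)) (δ.toLinearMap ∘ₗ (inR K X).toLinearMap)
    (fun x y => by
      show δ (inR K X (x * y)) = A0 (inR K X x) * δ (inR K X y) + A0 (inR K X y) * δ (inR K X x)
      rw [map_mul, hδ])
  obtain ⟨e, he⟩ : ∃ e : X → RR G K X L, ∀ m, e m = AddMonoidAlgebra.single m 1 := ⟨_, fun _ => rfl⟩
  have he0 : e 0 = 1 := he 0
  have hem : ∀ m m', e (m + m') = e m * e m' := by
    intro m m'
    rw [he, he, he, AddMonoidAlgebra.single_mul_single, mul_one]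
  have hinv : ∀ m, A0 (e (-m)) * A0 (e m) = 1 := by
    intro m
    rw [← map_mul, ← hem, neg_add_cancel, he0, map_one]
  let ψ : X →+ E := AddMonoidHom.mk' (fun m => δ (e m) * A0 (e (-m))) (fun m m' => by
    rw [hem, hδ, neg_add, hem, map_mul]
    linear_combination (A0 (e (-m')) * δ (e m')) * hinv m + (A0 (e (-m)) * δ (e m)) * hinv m')
  have hψ : ∀ m, ψ m = δ (e m) * A0 (e (-m)) := fun _ => rfl
  have hψs : ∀ m, ψ m = ∑ j, (P.cd j m : E) * ψ (P.mb j) := by
    intro m
    conv_lhs => rw [← P.mb.sum_repr m, map_sum]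
    refine Finset.sum_congr rfl fun j _ => ?_
    rw [map_zsmul, zsmul_eq_mul]
    rfl
  refine ⟨fun i => match i with
    | Sum.inl p => Y p
    | Sum.inr (Sum.inl j) => δ (i1 (P.y j))
    | Sum.inr (Sum.inr j) => ψ (P.mb j), ?_⟩
  -- the right side
  obtain ⟨Z, hZ⟩ : ∃ Z : PIx P L → E, Z = fun i => match i with
    | Sum.inl p => Y p
    | Sum.inr (Sum.inl j) => δ (i1 (P.y j))
    | Sum.inr (Sum.inr j) => ψ (P.mb j) := ⟨_, rfl⟩
  rw [← hZ]
  have hZ1 : ∀ p, Z (Sum.inl p) = Y p := fun p => by rw [hZ]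
  have hZ2 : ∀ j, Z (Sum.inr (Sum.inl j)) = δ (i1 (P.y j)) := fun p => by rw [hZ]
  have hZ3 : ∀ j, Z (Sum.inr (Sum.inr j)) = ψ (P.mb j) := fun p => by rw [hZ]
  have hsplit : ∀ F, ∑ i, Z i * A0 (pD P L i F) =
      ∑ p : L × Fin Q.r, Y p * A0 (PD.DL (Q := Q) p.1 p.2 F) +
        (∑ j, δ (i1 (P.y j)) * A0 (P.DX L j F) + ∑ j, ψ (P.mb j) * A0 (P.DN L j F)) := by
    intro F
    rw [Fintype.sum_sum_type, Fintype.sum_sum_type]
    simp only [hZ1, hZ2, hZ3]
    rfl
  have hmul : ∀ F F' : RR G K X L, δ F = ∑ i, Z i * A0 (pD P L i F) →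
      δ F' = ∑ i, Z i * A0 (pD P L i F') → δ (F * F') = ∑ i, Z i * A0 (pD P L i (F * F')) := by
    intro F F' h h'
    rw [hδ, h, h', Finset.mul_sum, Finset.mul_sum, ← Finset.sum_add_distrib]
    refine Finset.sum_congr rfl fun i _ => ?_
    rw [(pD P L i).leibniz, smul_eq_mul, smul_eq_mul, map_add, map_mul, map_mul]
    ring
  have hadd : ∀ F F' : RR G K X L, δ F = ∑ i, Z i * A0 (pD P L i F) →
      δ F' = ∑ i, Z i * A0 (pD P L i F') → δ (F + F') = ∑ i, Z i * A0 (pD P L i (F + F')) := by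
    intro F F' h h'
    rw [map_add, h, h', ← Finset.sum_add_distrib]
    refine Finset.sum_congr rfl fun i _ => ?_
    rw [map_add, map_add, mul_add]
  have hzero : δ (0 : RR G K X L) = ∑ i, Z i * A0 (pD P L i 0) := by
    rw [map_zero]
    refine (Finset.sum_eq_zero fun i _ => ?_).symm
    rw [map_zero, map_zero, mul_zero]
  have g1 : ∀ x : K, δ (i1 x) = ∑ i, Z i * A0 (pD P L i (i1 x)) := by
    intro x
    have h1 : δ (i1 x) = ∑ j, A0 (i1 (P.dd j x)) * δ (i1 (P.y j)) := hK x
    rw [hsplit, h1, hi1 x]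
    simp only [DL_algebraMap, DN_algebraMap, map_zero, mul_zero, Finset.sum_const_zero, zero_add,
      add_zero]
    refine Finset.sum_congr rfl fun j _ => ?_
    rw [DX_algebraMap, ← hi1, mul_comm]
  have g2 : ∀ f : (G.pow L).O, δ (inR K X f) = ∑ i, Z i * A0 (pD P L i (inR K X f)) := by
    intro f
    have h1 : δ (inR K X f) = ∑ p, Y p * A0 (inR K X ((G.pow L).der (b p) f)) := hY f
    rw [hsplit, h1]
    simp only [qc3_DX_i2, qc3_DN_i2, map_zero, mul_zero, Finset.sum_const_zero, add_zero]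
    refine Finset.sum_congr rfl fun p _ => ?_
    rw [qc3_DL_i2, ← hb]
  have g3 : ∀ m : X, δ (e m) = ∑ i, Z i * A0 (pD P L i (e m)) := by
    intro m
    rw [hsplit, he m]
    simp only [qc3_DL_e, qc3_DX_e, qc3_DN_e, map_zero, mul_zero, Finset.sum_const_zero, zero_add]
    rw [← he m]
    have h1 : δ (e m) = ψ m * A0 (e m) := by
      rw [hψ, mul_assoc, hinv, mul_one]
    rw [h1, hψs m, Finset.sum_mul]
    refine Finset.sum_congr rfl fun j _ => ?_
    rw [map_zsmul, zsmul_eq_mul]
    ring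
  have main : ∀ F : RR G K X L, δ F = ∑ i, Z i * A0 (pD P L i F) := by
    intro F
    induction F using AddMonoidAlgebra.induction_linear with
    | zero => exact hzero
    | add F F' h h' => exact hadd F F' h h'
    | single m a =>
      obtain ⟨n, c, f, rfl⟩ := KO_eq_sum a
      have h1 : ∀ s : Finset (Fin n), δ (AddMonoidAlgebra.single m (∑ i ∈ s, c i • inc K (f i))) =
          ∑ i, Z i * A0 (pD P L i (AddMonoidAlgebra.single m (∑ i ∈ s, c i • inc K (f i)))) := by
        intro s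
        induction s using Finset.induction_on with
        | empty =>
          rw [Finset.sum_empty, AddMonoidAlgebra.single_zero]
          exact hzero
        | insert i s hi ih =>
          rw [Finset.sum_insert hi, AddMonoidAlgebra.single_add]
          refine hadd _ _ ?_ ih
          rw [qc3_single]
          refine hmul _ _ (hmul _ _ ?_ (g2 (f i))) ?_
          · rw [← hi1]
            exact g1 (c i)
          · rw [← he m]
            exact g3 m
      exact h1 Finset.univ
  intro F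
  rw [main F]
  refine Finset.sum_congr rfl fun i _ => ?_
  rw [hA0]

end

end Pool.Agent.MTF
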