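import Pool.Agent.MTF.PB6
import Pool.Agent.MTF.PB4a
import Pool.Agent.MTF.AG

/-! # MTF, part Q : invariant constants, clearing denominators -/

set_option linter.unusedSectionVars false

namespace Pool.Agent.MTF

open AffGrp

section
variable {G : AffGrp} {K W X : Type} [Field K] [Algebra ℂ K] [Group W] [Fintype W]
  [MulSemiringAction W K] [SMulCommClass W ℂ K] [AddCommGroup X] [DistribMulAction W X]
variable {Q : TQD G K W X} {P : PD Q}
variable {L : Type} [Fintype L] [DecidableEq L]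

/-- [MTF-QD1a] Invariant polynomial functions are in all rings `A_{g;L}`.
PROOF. First `Q.Fam g ε (algebraMap K (RR G K X L) a)` for all `L`, `g`, `ε`: `algebraMap K (RR G K X L) a = single 0 (algebraMap K _ a)`, its coefficient at `m` is `0` for `m ≠ 0`.  `wt`: `s_const`, `val 0 = 0`;
`inv`: `hw`, `w • 0 = 0`; `reg0`: `tot` is the function `a` (`tot_eq`, `totH` is an algebra homomorphism); `regS`: `hT.Eu_zero`.
If `g = 0 → Nonempty L`: `mem_AG`.  Otherwise (sphere) `mem_AG_sph` with `F' = algebraMap K (RR G K X (Option L)) a` (`fm X (ev1 K)` is a `K`-algebra homomorphism: `AlgHom.commutes`). -/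
theorem const_mem_AG (hT : TQ Q) (g : ℕ) (ε : L → Bool) {a : K} (ha : a ∈ Q.A) (hw : ∀ w : W, w • a = a) :
    algebraMap K (RR G K X L) a ∈ AG hT g ε := by
  by_cases h : g = 0 ∧ IsEmpty L
  · obtain ⟨rfl, h2⟩ := h
    refine (mem_AG_sph hT h2).2 ⟨algebraMap K (RR G K X (Option L)) a, Fam_const hT 0 (optS true ε) ha hw, ?_⟩
    exact (fm X (ev1 K)).commutes a
  · refine (mem_AG hT fun h1 => ?_).2 (Fam_const hT g ε ha hw)
    by_contra h2
    exact h ⟨h1, not_nonempty_iff.1 h2⟩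

/-- [MTF-QD1a] PROOF. `wR_coeff` (every `m` is `w • (w⁻¹ • m)`), `LP.wO_s` / `s_wO` (C0.lean), `LP.wO_smul`, `hT.val_w`, `smul_comm` of `w` and the integer `sgn (ε l)`. -/
theorem IsEF_wR (hT : TQ Q) {ε : L → Bool} {F : RR G K X L} (h : IsEF Q ε F) (w : W) : IsEF Q ε (wR w F) := by
  intro m l
  obtain ⟨m', rfl⟩ : ∃ m' : X, m = w • m' := ⟨w⁻¹ • m, (smul_inv_smul w m).symm⟩
  rw [wR_coeff, s_wO hT.c_w, h m' l, LP.wO_smul, ← hT.val_w]
  have h1 : w • (sgn (ε l) • m') = sgn (ε l) • (w • m') :=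
    map_zsmul (DistribSMul.toAddMonoidHom X w) (sgn (ε l)) m'
  rw [h1]

theorem wR_wR (w w' : W) (F : RR G K X L) : wR w (wR w' F) = wR (w * w') F := by
  refine RR_ext fun m => ?_
  obtain ⟨m', rfl⟩ : ∃ m' : X, m = (w * w') • m' := ⟨(w * w')⁻¹ • m, (smul_inv_smul (w * w') m).symm⟩
  rw [wR_coeff, mul_smul, wR_coeff, wR_coeff]
  intro x
  rw [wO_apply, wO_apply, wO_apply, mul_smul]

/-- [MTF-QD1a] -/
theorem wR_one (F : RR G K X L) : wR (1 : W) F = F := by
  refine RR_ext fun m => ?_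
  have h := wR_coeff (1 : W) F m
  rw [one_smul] at h
  rw [h]
  intro x
  rw [wO_apply, one_smul]

/-- finitely many conditions, each satisfied by a nonzero element of `A` and stable under multiples -/
theorem qd1b_fin {ι : Type} (S : Finset ι) (p : ι → K → Prop) (h : ∀ i ∈ S, ∃ d ∈ Q.A, d ≠ 0 ∧ p i d)
    (hm : ∀ i ∈ S, ∀ a ∈ Q.A, ∀ d, p i d → p i (a * d)) :
    ∃ d ∈ Q.A, d ≠ 0 ∧ ∀ i ∈ S, p i d := by
  classical
  induction S using Finset.induction_on with
  | empty => exact ⟨1, one_mem _, one_ne_zero, fun i hi => absurd hi (Finset.notMem_empty i)⟩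
  | insert j T hj ih =>
    obtain ⟨d, hd, hd0, hdp⟩ := ih (fun i hi => h i (Finset.mem_insert_of_mem hi))
      (fun i hi => hm i (Finset.mem_insert_of_mem hi))
    obtain ⟨e, he, he0, hep⟩ := h j (Finset.mem_insert_self j T)
    refine ⟨d * e, mul_mem hd he, mul_ne_zero hd0 he0, fun i hi => ?_⟩
    rcases Finset.mem_insert.1 hi with rfl | hi'
    · exact hm i hi d hd e hep
    · rw [mul_comm]
      exact hm i hi e he d (hdp i hi')

/-- common denominators of one function -/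
theorem qd1b_one (hP : PQ Q P) (f : (G.pow L).KO K) : ∃ d ∈ Q.A, d ≠ 0 ∧ ∀ k, d * f.1 k ∈ Q.A := by
  obtain ⟨n, c, f', hf⟩ := KO_rep f
  obtain ⟨d, hd, hd0, hdp⟩ := qd1b_fin (Q := Q) (Finset.univ : Finset (Fin n)) (fun i d => d * c i ∈ Q.A)
    (fun i _ => hP.frac (c i)) (fun i _ a ha d hd => by
      show a * d * c i ∈ Q.A
      rw [mul_assoc]
      exact mul_mem ha hd)
  refine ⟨d, hd, hd0, fun k => ?_⟩
  rw [hf, Finset.mul_sum]
  refine Subalgebra.sum_mem _ fun i _ => ?_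
  rw [← mul_assoc]
  exact mul_mem (hdp i (Finset.mem_univ i)) (Subalgebra.algebraMap_mem _ _)

theorem qd1b_sum {κ : Type} (t : Finset κ) (f : κ → (G.pow L).KO K) (k : (G.pow L).X) :
    (∑ i ∈ t, f i).1 k = ∑ i ∈ t, (f i).1 k := by
  classical
  induction t using Finset.induction_on with
  | empty => rfl
  | insert a t ha ih =>
    rw [Finset.sum_insert ha, Finset.sum_insert ha, ← ih]
    rfl

/-- [MTF-QD1b] Common denominators.
PROOF. Let `S` be the (finite) support of `F.coeff`.  For `m ∈ S`, `F.coeff m = ∑ c_i * f_i` (`KO_rep`); `hP.frac` for the `c_i` and the product of the denominators give `d_m ∈ Q.A`, `d_m ≠ 0`, with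
`d_m * (F.coeff m).1 k ∈ Q.A` for all `k`.  `d := (∏ m ∈ S, d_m) * (∏ m ∈ S, Q.Eu m ^ (g - 1))`, `a := ∏ w : W, w • d` (in `Q.A`: `hT.wA`; invariant: `Fintype.prod_equiv` by left multiplication; `≠ 0`; a multiple of `d` by an
element of `Q.A`: the factor `w = 1`).  Then `a * (F.coeff m).1 k` and `(Q.Eu m ^ (g - 1))⁻¹ * (a * (F.coeff m).1 k)` are in `Q.A` for all `m`, `k` (for `m ∉ S` they are `0`).
`Q.Fam g ε (a • F)`: `wt` from `hF`, `inv` from `hw` (`wR_eq_iff`, PB6) and the invariance of `a`, `reg0`: `tot` is the sum of the coefficients; `regS`.  `mem_AG hT hg`. -/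
theorem exists_clear (hT : TQ Q) (hP : PQ Q P) {g : ℕ} {ε : L → Bool} (hg : g = 0 → Nonempty L) {F : RR G K X L}
    (hF : IsEF Q ε F) (hw : ∀ w : W, wR w F = F) :
    ∃ a ∈ Q.A, a ≠ 0 ∧ (∀ w : W, w • a = a) ∧ a • F ∈ AG hT g ε := by
  classical
  have hinv := (wR_eq_iff F).1 hw
  obtain ⟨d, hd, hd0, hdp⟩ := qd1b_fin (Q := Q) F.coeff.support
    (fun m d => ∀ k, d * (F.coeff m).1 k ∈ Q.A ∧ (Q.Eu m ^ (g - 1))⁻¹ * (d * (F.coeff m).1 k) ∈ Q.A)
    (fun m _ => by
      obtain ⟨d, hd, hd0, hdp⟩ := qd1b_one hP (F.coeff m)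
      refine ⟨Q.Eu m ^ (g - 1) * d, mul_mem (pow_mem (hT.Eu_mem m) _) hd,
        mul_ne_zero (pow_ne_zero _ (hT.Eu_ne m)) hd0, fun k => ⟨?_, ?_⟩⟩
      · rw [mul_assoc]
        exact mul_mem (pow_mem (hT.Eu_mem m) _) (hdp k)
      · rw [mul_assoc, inv_mul_cancel_left₀ (pow_ne_zero _ (hT.Eu_ne m))]
        exact hdp k)
    (fun m _ a ha d hd k => by
      refine ⟨?_, ?_⟩
      · rw [mul_assoc]
        exact mul_mem ha (hd k).1
      · rw [mul_assoc, mul_left_comm]
        exact mul_mem ha (hd k).2)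
  obtain ⟨a, ha⟩ : ∃ a : K, a = ∏ w : W, w • d := ⟨_, rfl⟩
  have hwd0 : ∀ w : W, w • d ≠ 0 := by
    intro w h
    apply hd0
    have h2 := congrArg (fun x => w⁻¹ • x) h
    simpa using h2
  have haA : a ∈ Q.A := by
    rw [ha]
    exact prod_mem fun w _ => hT.wA w d hd
  have ha0 : a ≠ 0 := by
    rw [ha]
    exact Finset.prod_ne_zero_iff.2 fun w _ => hwd0 w
  have hai : ∀ w : W, w • a = a := by
    intro w
    rw [ha]
    have h1 : w • ∏ w' : W, w' • d = ∏ w' : W, w • (w' • d) := by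
      exact map_prod (MulSemiringAction.toRingHom W K w) _ _
    rw [h1]
    refine Fintype.prod_equiv (Equiv.mulLeft w) _ _ fun w' => ?_
    rw [Equiv.coe_mulLeft, mul_smul]
  have had : ∃ b ∈ Q.A, a = b * d := by
    refine ⟨∏ w ∈ Finset.univ.erase (1 : W), w • d, prod_mem fun w _ => hT.wA w d hd, ?_⟩
    have h1 := Finset.mul_prod_erase Finset.univ (fun w : W => w • d) (Finset.mem_univ 1)
    rw [ha, ← h1, one_smul, mul_comm]
  obtain ⟨b, hb, hab⟩ := had
  have hc : ∀ m, (a • F).coeff m = a • F.coeff m := fun m => rfl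
  have hreg : ∀ m k, ((a • F).coeff m).1 k ∈ Q.A ∧ (Q.Eu m ^ (g - 1))⁻¹ * ((a • F).coeff m).1 k ∈ Q.A := by
    intro m k
    have h1 : ((a • F).coeff m).1 k = a * (F.coeff m).1 k := rfl
    rw [h1]
    by_cases hm : m ∈ F.coeff.support
    · have h2 := hdp m hm k
      rw [hab, mul_assoc]
      refine ⟨mul_mem hb h2.1, ?_⟩
      rw [mul_left_comm]
      exact mul_mem hb h2.2
    · have h3 : F.coeff m = 0 := Finsupp.notMem_support_iff.1 hm
      have h4 : (F.coeff m).1 k = 0 := by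
        rw [h3]
        rfl
      rw [h4, mul_zero, mul_zero]
      exact ⟨zero_mem _, zero_mem _⟩
  refine ⟨a, haA, ha0, hai, (mem_AG hT hg).2 ⟨?_, ?_, ?_, ?_⟩⟩
  · intro m l
    rw [hc, map_smul, hF m l, smul_comm]
  · intro w m
    rw [hc, hc, ← hinv w m]
    refine KO_ext fun x => ?_
    show w • (a * (F.coeff m).1 x) = a * (w • (F.coeff m).1 x)
    rw [smul_mul', hai]
  · intro _ x
    unfold tot
    rw [Finsupp.sum, qd1b_sum]
    exact Subalgebra.sum_mem _ fun m _ => (hreg m x).1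
  · intro m k _
    exact (hreg m k).2

end

end Pool.Agent.MTF
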