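import Pool.Agent.MTF.QD1
import Pool.Agent.MTF.QC1

/-! # MTF, part Q : derivations that kill `A_{g;L}` kill all eigenfamilies -/

set_option linter.unusedSectionVars false

namespace Pool.Agent.MTF

open AffGrp

section
variable {G : AffGrp} {K W X : Type} [Field K] [Algebra ℂ K] [Group W] [Fintype W]
  [MulSemiringAction W K] [SMulCommClass W ℂ K] [AddCommGroup X] [DistribMulAction W X]
variable {Q : TQD G K W X} {P : PD Q}
variable {L : Type} [Fintype L] [DecidableEq L]
variable {E : Type} [Field E] [Algebra ℂ E] [Algebra (RR G K X L) E] [IsScalarTower ℂ (RR G K X L) E]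

/-- [MTF-QD2a] PROOF. `kill_K` (QC1) for the derivation `δ ∘ algebraMap K (RR ..)` of `K` (local instance `Algebra K E` through `(algebraMap (RR ..) E).comp (algebraMap K (RR ..))`, then
`Derivation.compAlgebraMap`, or build the derivation with `Derivation.mk'`), `const_mem_AG`. -/
theorem kill_const (hT : TQ Q) (hP : PQ Q P) {g : ℕ} {ε : L → Bool} (δ : Derivation ℂ (RR G K X L) E)
    (hδ : ∀ F ∈ AG hT g ε, δ F = 0) (x : K) : δ (algebraMap K (RR G K X L) x) = 0 := by
  let _ : Algebra K E := ((algebraMap (RR G K X L) E).comp (algebraMap K (RR G K X L))).toAlgebra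
  have hst : IsScalarTower ℂ K E := by
    apply IsScalarTower.of_algebraMap_eq
    intro c
    show algebraMap ℂ E c = algebraMap (RR G K X L) E (algebraMap K (RR G K X L) (algebraMap ℂ K c))
    rw [← IsScalarTower.algebraMap_apply ℂ K (RR G K X L), ← IsScalarTower.algebraMap_apply ℂ (RR G K X L) E]
  let δ' : Derivation ℂ K E := Derivation.mk'
    ((δ : RR G K X L →ₗ[ℂ] E) ∘ₗ (IsScalarTower.toAlgHom ℂ K (RR G K X L)).toLinearMap) (by
      intro a b
      show δ (algebraMap K (RR G K X L) (a * b)) =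
        algebraMap (RR G K X L) E (algebraMap K (RR G K X L) a) * δ (algebraMap K (RR G K X L) b) +
        algebraMap (RR G K X L) E (algebraMap K (RR G K X L) b) * δ (algebraMap K (RR G K X L) a)
      rw [map_mul, Derivation.leibniz, Algebra.smul_def, Algebra.smul_def])
  exact kill_K hT hP δ' (fun a ha hw => hδ _ (const_mem_AG hT g ε ha hw)) x

/-- [MTF-QD2a] PROOF. `x • F = algebraMap x * F` (`Algebra.smul_def`), Leibniz rule. -/
theorem kill_smul {δ : Derivation ℂ (RR G K X L) E} (h : ∀ x : K, δ (algebraMap K (RR G K X L) x) = 0) (x : K)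
    (F : RR G K X L) : δ (x • F) = algebraMap (RR G K X L) E (algebraMap K (RR G K X L) x) * δ F := by
  rw [Algebra.smul_def x F, Derivation.leibniz, h, smul_zero, add_zero, Algebra.smul_def]

/-- [MTF-QD2a] The average of `b F`. PROOF. `wR_add`-type additivity over the finite sum, `wR_wR`, reindex the sum by left multiplication (`Fintype.sum_equiv (Equiv.mulLeft w)`). -/
theorem avg_inv (F : RR G K X L) (w : W) : wR w (∑ v : W, wR v F) = ∑ v : W, wR v F := by
  have h1 : wR w (∑ v : W, wR v F) = ∑ v : W, wR w (wR v F) :=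
    map_sum (AddMonoidHom.mk' (wR w : RR G K X L → RR G K X L) (wR_add w)) _ _
  rw [h1, ← Equiv.sum_comp (Equiv.mulLeft w) (fun v => wR v F)]
  exact Finset.sum_congr rfl fun v _ => wR_wR w v F

/-- [MTF-QD2b] A derivation that kills `A_{g;L}` kills the invariant eigenfamilies: `exists_clear`, `kill_smul`; the image of `a ≠ 0` in `E` is not `0`
(ring homomorphism from the field `K` to the nontrivial ring `E`). -/
theorem kill_inv (hT : TQ Q) (hP : PQ Q P) {g : ℕ} {ε : L → Bool} (hg : g = 0 → Nonempty L) (δ : Derivation ℂ (RR G K X L) E)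
    (hδ : ∀ F ∈ AG hT g ε, δ F = 0) {F : RR G K X L} (hF : IsEF Q ε F) (hw : ∀ w : W, wR w F = F) : δ F = 0 := by
  obtain ⟨a, _, ha0, _, hmem⟩ := exists_clear hT hP hg hF hw
  have h1 := hδ _ hmem
  rw [kill_smul (kill_const hT hP δ hδ)] at h1
  refine (mul_eq_zero.1 h1).resolve_left ?_
  exact (map_ne_zero ((algebraMap (RR G K X L) E).comp (algebraMap K (RR G K X L)))).2 ha0

/-- [MTF-QD2b] A linear combination of averages. PROOF. `hT.db 0` gives `a_i`, `b_i` with `∑ a_i b_i = Q.Δ 0 ≠ 0` (`hT.Δ_ne`), `∑ a_i (w • b_i) = 0` for `w ≠ 1` (`w • 0 = 0`).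
`∑ w, wR w (b_i • F) = ∑ w, (w • b_i) • wR w F` (`wR_smul`).  By `hF'` for `b_i`: `0 = ∑ i, a_i * δ (∑ w, wR w (b_i • F)) = ∑ w, (∑ i, a_i (w • b_i)) * δ (wR w F) = (Q.Δ 0) * δ F` (`kill_smul`, `wR_one`). -/
theorem kill_of_avg (hT : TQ Q) {δ : Derivation ℂ (RR G K X L) E} (h : ∀ x : K, δ (algebraMap K (RR G K X L) x) = 0)
    {F : RR G K X L} (hF' : ∀ b : K, δ (∑ w : W, wR w (b • F)) = 0) : δ F = 0 := by
  classical
  obtain ⟨n, a, b, _, _, hab, hab'⟩ := hT.db 0
  obtain ⟨ι, hι⟩ : ∃ ι : K →+* E, ι = (algebraMap (RR G K X L) E).comp (algebraMap K (RR G K X L)) :=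
    ⟨_, rfl⟩
  have hsm : ∀ (x : K) (F : RR G K X L), δ (x • F) = ι x * δ F := by
    intro x F
    rw [kill_smul h, hι]
    rfl
  have h1 : ∀ i, ∑ w : W, ι (w • b i) * δ (wR w F) = 0 := by
    intro i
    have h2 := hF' (b i)
    rw [map_sum] at h2
    rw [← h2]
    refine Finset.sum_congr rfl fun w _ => ?_
    rw [wR_smul, hsm]
  have h2 : ∑ w : W, ι (∑ i, a i * (w • b i)) * δ (wR w F) = 0 := by
    have h3 : ∑ i, ι (a i) * ∑ w : W, ι (w • b i) * δ (wR w F) = 0 :=
      Finset.sum_eq_zero fun i _ => by rw [h1, mul_zero]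
    rw [← h3]
    simp only [Finset.mul_sum]
    rw [Finset.sum_comm]
    refine Finset.sum_congr rfl fun w _ => ?_
    rw [map_sum, Finset.sum_mul]
    refine Finset.sum_congr rfl fun i _ => ?_
    rw [map_mul, mul_assoc]
  rw [Finset.sum_eq_single (1 : W)] at h2
  · simp only [one_smul, wR_one] at h2
    rw [hab] at h2
    refine (mul_eq_zero.1 h2).resolve_left ?_
    exact (map_ne_zero ι).2 (hT.Δ_ne 0)
  · intro w _ hw
    rw [hab' w (smul_zero w) hw, map_zero, zero_mul]
  · intro h3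
    exact absurd (Finset.mem_univ _) h3

/-- [MTF-QD2b] PROOF. `kill_of_avg`, `kill_inv`, `avg_inv`; `IsEF_smul`, `IsEF_wR`, `IsEF_add` (PB4a) for the sum. -/
theorem kill_EF_ns (hT : TQ Q) (hP : PQ Q P) {g : ℕ} {ε : L → Bool} (hg : g = 0 → Nonempty L) (δ : Derivation ℂ (RR G K X L) E)
    (hδ : ∀ F ∈ AG hT g ε, δ F = 0) {F : RR G K X L} (hF : IsEF Q ε F) : δ F = 0 := by
  refine kill_of_avg hT (kill_const hT hP δ hδ) fun b => ?_
  refine kill_inv hT hP hg δ hδ ?_ (avg_inv (b • F))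
  have h0 : IsEF Q ε (0 : RR G K X L) := by
    have h1 := IsEF_smul (0 : K) hF
    rwa [zero_smul] at h1
  exact Finset.sum_induction _ (IsEF Q ε) (fun _ _ h h' => IsEF_add h h') h0
    fun w _ => IsEF_wR hT (IsEF_smul b hF) w

end

end Pool.Agent.MTF
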