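import Pool.Agent.MTF.QD2
import Pool.Agent.MTF.LB5
import Pool.Agent.MTF.LB6

/-! # MTF, part Q : eigenfunctions; the sphere -/

set_option linter.unusedSectionVars false

namespace Pool.Agent.MTF

open AffGrp

section
variable {G : AffGrp} {K W X : Type} [Field K] [Algebra ℂ K] [Group W] [Fintype W]
  [MulSemiringAction W K] [SMulCommClass W ℂ K] [AddCommGroup X] [DistribMulAction W X]
variable {Q : TQD G K W X} {P : PD Q}
variable {L : Type} [Fintype L] [DecidableEq L]

/-- [MTF-QD3a] An eigenfunction of weight `m` with nonzero value at `1`.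
PROOF. `hT.hw m` gives `V`, `v`, `v'`: `φ := ∑ a, ∑ b, (v' a * v b) • inc K (V.co a b)`, `φ (k) = ∑ v' a ρ(k)_ab v b`.  `φ (1) = ∑ a, v' a * v a = Q.Eu m ≠ 0` (`pair`, `hT.Eu_ne`).
`Q.s1 (inc K (V.co a b)) = ∑ c, Q.sE V c b • inc K (V.co a c)` (`derK_inc`, `Rep.der_co`; or the lemma `LP.s1_co` in LB6.lean), so `Q.s1 φ = ∑ a, ∑ c, v' a * ((Q.sE V).mulVec v) c • inc K (V.co a c)` and `v_eig`. -/
theorem exists_phi (hT : TQ Q) (m : X) : ∃ φ : G.KO K, φ.1 1 ≠ 0 ∧ Q.s1 φ = Q.val m • φ := by
  obtain ⟨V, v, v', h⟩ := hT.hw m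
  refine ⟨∑ a, ∑ b, (v' a * v b) • inc K (V.co a b), ?_, ?_⟩
  · have h1 : (∑ a, ∑ b, (v' a * v b) • inc K (V.co a b) : G.KO K).1 1 = Q.Eu m := by
      rw [← h.pair, KO_sum]
      refine Finset.sum_congr rfl fun a _ => ?_
      rw [KO_sum]
      rw [Finset.sum_eq_single a]
      · rw [KO_smul, inc_apply]
        have h2 : (V.co a a).1 1 = 1 := by
          show V.ρ 1 a a = 1
          rw [map_one, Matrix.one_apply_eq]
        rw [h2, map_one, mul_one, mul_comm]
      · intro b _ hb
        rw [KO_smul, inc_apply]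
        have h2 : (V.co a b).1 1 = 0 := by
          show V.ρ 1 a b = 0
          rw [map_one, Matrix.one_apply_ne (Ne.symm hb)]
        rw [h2, map_zero, mul_zero]
      · intro h3
        exact absurd (Finset.mem_univ a) h3
    rw [h1]
    exact hT.Eu_ne m
  · rw [map_sum, Finset.smul_sum]
    refine Finset.sum_congr rfl fun a _ => ?_
    rw [map_sum]
    simp only [map_smul, LP.s1_co]
    simp only [Finset.smul_sum, smul_smul]
    rw [Finset.sum_comm]
    refine Finset.sum_congr rfl fun c _ => ?_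
    rw [← Finset.sum_smul]
    congr 1
    have h2 : ∑ b, Q.sE V c b * v b = Q.val m * v c := congrFun h.v_eig c
    calc ∑ b, v' a * v b * Q.sE V c b = v' a * ∑ b, Q.sE V c b * v b := by
          rw [Finset.mul_sum]
          refine Finset.sum_congr rfl fun b _ => ?_
          ring
      _ = Q.val m * (v' a * v c) := by rw [h2]; ring

/-- [MTF-QD3a] A joint eigenfunction on `G^L`.
PROOF. `φ_l` from `exists_phi` for the weight `sgn (ε l) • m`; `Φ := ∏ l, pu K l φ_l`; `Φ (1) = ∏ φ_l (1) ≠ 0` (`KO_prod`, `pu_apply`).  `Q.s l` is a derivation (`LP.s_mul`), `Q.s l (pu K l φ_l) = pu K l (Q.s1 φ_l)` (`LP.s_pu`),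
`Q.s l (pu K l' φ) = 0` for `l' ≠ l` (`LP.s_pu_ne`).  Prove by `Finset.induction_on`: for every finset `S` of legs `Q.s l (∏ i ∈ S, pu K i (φ i)) = (if l ∈ S then Q.val (sgn (ε l) • m) else 0) • ∏ ..` (`LP.s_mul_eig`). -/
theorem exists_Phi (hT : TQ Q) (ε : L → Bool) (m : X) :
    ∃ Φ : (G.pow L).KO K, Φ ≠ 0 ∧ ∀ l, Q.s l Φ = Q.val (sgn (ε l) • m) • Φ := by
  choose φ hφ1 hφ2 using fun l : L => exists_phi hT (sgn (ε l) • m)
  refine ⟨∏ l, pu K l (φ l), ?_, ?_⟩
  · intro h0
    have h1 : (∏ l, pu K l (φ l) : (G.pow L).KO K).1 1 = 0 := by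
      rw [h0]
      rfl
    rw [KO_prod] at h1
    obtain ⟨l, _, hl⟩ := Finset.prod_eq_zero_iff.1 h1
    exact hφ1 l hl
  · intro l
    have h2 : ∀ S : Finset L, Q.s l (∏ i ∈ S, pu K i (φ i)) =
        (if l ∈ S then Q.val (sgn (ε l) • m) else 0) • ∏ i ∈ S, pu K i (φ i) := by
      intro S
      induction S using Finset.induction_on with
      | empty =>
        rw [Finset.prod_empty, if_neg (Finset.notMem_empty l), zero_smul]
        have h3 := LP.s_const (Q := Q) l (1 : K)
        rwa [map_one] at h3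
      | insert i S hi ih =>
        rw [Finset.prod_insert hi]
        by_cases hil : i = l
        · subst hil
          have h3 : Q.s i (pu K i (φ i)) = Q.val (sgn (ε i) • m) • pu K i (φ i) := by
            rw [LP.s_pu, hφ2, map_smul]
          rw [LP.s_mul_eig i h3 ih, if_neg hi, add_zero, if_pos (Finset.mem_insert_self i S)]
        · have h3 : Q.s l (pu K i (φ i)) = (0 : K) • pu K i (φ i) := by
            rw [LP.s_pu_ne (fun h => hil h.symm), zero_smul]
          rw [LP.s_mul_eig l h3 ih, zero_add]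
          congr 1
          by_cases hl : l ∈ S
          · rw [if_pos hl, if_pos (Finset.mem_insert_of_mem hl)]
          · rw [if_neg hl, if_neg]
            intro h4
            rcases Finset.mem_insert.1 h4 with h5 | h5
            · exact hil h5.symm
            · exact hl h5
    rw [h2, if_pos (Finset.mem_univ l)]

/-- [MTF-QD3b] Restriction to `1` in the leg `none` commutes with `W`. PROOF. coefficients: `coeff_fm`, `wR_coeff`, `wO_ev1`; every weight is `w • (w⁻¹ • m)`. -/
theorem wR_ev1 (w : W) (F : RR G K X (Option L)) : wR w (fm X (ev1 K) F) = fm X (ev1 K) (wR w F) := by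
  ext m
  obtain ⟨m', rfl⟩ : ∃ m', m = w • m' := ⟨w⁻¹ • m, by rw [smul_inv_smul]⟩
  rw [wR_coeff, coeff_fm, coeff_fm, wR_coeff, wO_ev1]

variable {E : Type} [Field E] [Algebra ℂ E] [Algebra (RR G K X L) E] [IsScalarTower ℂ (RR G K X L) E]

/-- [MTF-QD3b] -/
theorem qd3b_EF [IsEmpty L] {ε : L → Bool} {m : X} {φ : G.KO K} (hφ : Q.s1 φ = Q.val m • φ) :
    IsEF Q (optS true ε) (AddMonoidAlgebra.single m (pu K none φ) : RR G K X (Option L)) := by
  intro m' l
  obtain rfl : l = none := by
    cases l with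
    | none => rfl
    | some l => exact isEmptyElim l
  have hsgn : sgn (optS true ε none) • m = m := by
    show (1 : ℤ) • m = m
    exact one_smul ℤ m
  rw [AddMonoidAlgebra.coeff_single]
  by_cases h : m = m'
  · subst h
    rw [Finsupp.single_eq_same, hsgn, LP.s_pu, hφ, map_smul]
  · rw [Finsupp.single_eq_of_ne' h, smul_zero, map_zero]

/-- [MTF-QD3b] -/
theorem qd3b_sum {L : Type} [Fintype L] [DecidableEq L] {ε : L → Bool} (s : Finset W)
    (F : W → RR G K X L) (h : ∀ w, IsEF Q ε (F w)) : IsEF Q ε (∑ w ∈ s, F w) := by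
  classical
  induction s using Finset.induction_on with
  | empty =>
    rw [Finset.sum_empty]
    intro m l
    rw [AddMonoidAlgebra.coeff_zero, Finsupp.zero_apply, smul_zero, map_zero]
  | insert a s ha ih =>
    rw [Finset.sum_insert ha]
    exact IsEF_add (h a) ih

/-- [MTF-QD3b] -/
theorem qd3b_fm (m : X) (φ : G.KO K) : fm X (ev1 K) (AddMonoidAlgebra.single m (pu K none φ) : RR G K X (Option L)) =
    φ.1 1 • (AddMonoidAlgebra.single m 1 : RR G K X L) := by
  ext m' k
  rw [coeff_fm, AddMonoidAlgebra.coeff_smul, AddMonoidAlgebra.coeff_single, AddMonoidAlgebra.coeff_single, Finsupp.smul_apply]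
  by_cases h : m = m'
  · subst h
    rw [Finsupp.single_eq_same, Finsupp.single_eq_same, ev1_apply, pu_apply]
    show φ.1 1 = φ.1 1 * 1
    rw [mul_one]
  · rw [Finsupp.single_eq_of_ne' h, Finsupp.single_eq_of_ne' h, smul_zero, map_zero]

/-- [MTF-QD3b] The sphere.
PROOF. `h := kill_const hT hP δ hδ`.  CLAIM `δ (single m 1) = 0` for all `m : X`.  Let `φ` be as in `exists_phi`, `F' := single m (pu K none φ) : RR G K X (Option L)`; `IsEF Q (optS true ε) F'` (only the leg `none`; `LP.s_pu`;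
`sgn true • m = m`).  `F'' := fm X (ev1 K) F' = single m (algebraMap K _ (φ.1 1)) = φ.1 1 • single m 1` (`coeff_fm`, `ev1_apply`, `pu_apply`, `optP`).  For `b : K`: `T := ∑ w, wR w (b • F')` is an invariant eigenfamily
(`avg_inv`, `IsEF_wR`, `IsEF_smul`, `IsEF_add`), `exists_clear` for the legs `Option L` (nonempty): `a • T ∈ AG hT 0 (optS true ε)`, so (`mem_AG`, `mem_AG_sph`) `fm X (ev1 K) (a • T) ∈ AG hT 0 ε`, and it is
`a • ∑ w, wR w (b • F'')` (`wR_ev1`, `map_smul`, `map_sum`).  So `δ (∑ w, wR w (b • F'')) = 0` (`kill_smul`, `a ≠ 0`), `kill_of_avg`: `δ F'' = 0`, `kill_smul`: `δ (single m 1) = 0`.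
Every `F : RR G K X L` is a sum of `single m c`, and `c = algebraMap K _ x` because `L → G.X` has one point (`L` is empty): `single m c = x • single m 1`, `kill_smul`. -/
theorem kill_sph (hT : TQ Q) (hP : PQ Q P) [IsEmpty L] {ε : L → Bool} (δ : Derivation ℂ (RR G K X L) E)
    (hδ : ∀ F ∈ AG hT 0 ε, δ F = 0) (F : RR G K X L) : δ F = 0 := by
  have h := kill_const hT hP δ hδ
  have hinj : ∀ x : K, x ≠ 0 → algebraMap (RR G K X L) E (algebraMap K (RR G K X L) x) ≠ 0 := by
    intro x hx hx0
    exact hx ((map_eq_zero ((algebraMap (RR G K X L) E).comp (algebraMap K (RR G K X L)))).1 hx0)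
  have hcl : ∀ m : X, δ (AddMonoidAlgebra.single m 1 : RR G K X L) = 0 := by
    intro m
    obtain ⟨φ, h1, hφ⟩ := exists_phi hT m
    have hF' := qd3b_EF (L := L) (ε := ε) hφ
    have hFF := qd3b_fm (L := L) m φ
    have hav : ∀ b : K, δ (∑ w : W, wR w (b • (φ.1 1 • (AddMonoidAlgebra.single m 1 : RR G K X L)))) = 0 := by
      intro b
      have hT1 : IsEF Q (optS true ε) (∑ w : W, wR w (b • (AddMonoidAlgebra.single m (pu K none φ) : RR G K X (Option L)))) :=
        qd3b_sum _ _ fun w => IsEF_wR hT (IsEF_smul b hF') w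
      obtain ⟨a, -, ha, -, hmem⟩ := exists_clear hT hP (g := 0) (fun _ => ⟨none⟩) hT1
        (fun w => avg_inv (b • (AddMonoidAlgebra.single m (pu K none φ) : RR G K X (Option L))) w)
      rw [mem_AG hT (fun _ => ⟨none⟩)] at hmem
      have hin := (mem_AG_sph hT (L := L) inferInstance (ε := ε)).2 ⟨_, hmem, rfl⟩
      rw [map_smul, map_sum] at hin
      have hsum : (∑ w : W, fm X (ev1 K) (wR w (b • (AddMonoidAlgebra.single m (pu K none φ) : RR G K X (Option L)))))
          = ∑ w : W, wR w (b • (φ.1 1 • (AddMonoidAlgebra.single m 1 : RR G K X L))) := by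
        refine Finset.sum_congr rfl fun w _ => ?_
        rw [← wR_ev1, map_smul, hFF]
      rw [hsum] at hin
      have h2 := hδ _ hin
      rw [kill_smul h] at h2
      exact (mul_eq_zero.1 h2).resolve_left (hinj a ha)
    have h3 := kill_of_avg hT h hav
    rw [kill_smul h] at h3
    exact (mul_eq_zero.1 h3).resolve_left (hinj _ h1)
  induction F using AddMonoidAlgebra.induction_linear with
  | zero => exact map_zero δ
  | add F F' h1 h2 => rw [map_add, h1, h2, add_zero]
  | single m c =>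
    have hc : (AddMonoidAlgebra.single m c : RR G K X L) = c.1 isEmptyElim • (AddMonoidAlgebra.single m 1 : RR G K X L) := by
      ext m' k
      rw [AddMonoidAlgebra.coeff_smul, AddMonoidAlgebra.coeff_single, AddMonoidAlgebra.coeff_single, Finsupp.smul_apply]
      by_cases h : m = m'
      · subst h
        rw [Finsupp.single_eq_same, Finsupp.single_eq_same]
        have hk : k = isEmptyElim := funext fun l => isEmptyElim l
        rw [hk]
        show c.1 isEmptyElim = c.1 isEmptyElim * 1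
        rw [mul_one]
      · rw [Finsupp.single_eq_of_ne' h, Finsupp.single_eq_of_ne' h, smul_zero]
    rw [hc, kill_smul h, hcl, mul_zero]

/-- A derivation that kills `A_{g;L}` kills all eigenfamilies. -/
theorem kill_EF (hT : TQ Q) (hP : PQ Q P) {g : ℕ} {ε : L → Bool} (δ : Derivation ℂ (RR G K X L) E)
    (hδ : ∀ F ∈ AG hT g ε, δ F = 0) {F : RR G K X L} (hF : IsEF Q ε F) : δ F = 0 := by
  by_cases hg : g = 0 ∧ IsEmpty L
  · obtain ⟨rfl, hL⟩ := hg
    exact kill_sph hT hP δ hδ F
  · refine kill_EF_ns hT hP (fun h => ?_) δ hδ hF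
    by_contra h3
    exact hg ⟨h, not_nonempty_iff.1 h3⟩

end

end Pool.Agent.MTF
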