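import Pool.Agent.MTF.QD3
import Pool.Agent.MTF.PB1
import Pool.Agent.MTF.PA1
import Pool.Agent.MTG.Y1

/-! # MTF, part Q : the annihilator of `A_{g;L}`, first part -/

set_option linter.unusedSectionVars false

namespace Pool.Agent.MTF

open AffGrp

section
variable {G : AffGrp} {K W X : Type} [Field K] [Algebra ℂ K] [Group W] [Fintype W]
  [MulSemiringAction W K] [SMulCommClass W ℂ K] [AddCommGroup X] [DistribMulAction W X]
variable {Q : TQD G K W X} {P : PD Q}
variable {L : Type} [Fintype L] [DecidableEq L]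
variable {E : Type} [Field E] [Algebra ℂ E] [Algebra (RR G K X L) E] [IsScalarTower ℂ (RR G K X L) E]

/-- the derivation `∑ Y_i D_i` -/
noncomputable def dYE (P : PD Q) (Y : PIx P L → E) : Derivation ℂ (RR G K X L) E :=
  Derivation.mk'
    { toFun := fun F => ∑ i, Y i * algebraMap (RR G K X L) E (pD P L i F)
      map_add' := fun F F' => by
        simp only [map_add, mul_add, Finset.sum_add_distrib]
      map_smul' := fun c F => by
        rw [RingHom.id_apply, Finset.smul_sum]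
        refine Finset.sum_congr rfl fun i _ => ?_
        have h : algebraMap (RR G K X L) E (c • pD P L i F) = c • algebraMap (RR G K X L) E (pD P L i F) :=
          map_smul (IsScalarTower.toAlgHom ℂ (RR G K X L) E) c (pD P L i F)
        rw [Derivation.map_smul, h, mul_smul_comm] }
    (fun F F' => by
      show ∑ i, Y i * algebraMap (RR G K X L) E (pD P L i (F * F')) =
        F • (∑ i, Y i * algebraMap (RR G K X L) E (pD P L i F')) +
          F' • (∑ i, Y i * algebraMap (RR G K X L) E (pD P L i F))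
      rw [Algebra.smul_def, Algebra.smul_def, Finset.mul_sum, Finset.mul_sum, ← Finset.sum_add_distrib]
      refine Finset.sum_congr rfl fun i _ => ?_
      rw [Derivation.leibniz, smul_eq_mul, smul_eq_mul, map_add, map_mul, map_mul]
      ring)

theorem dYE_apply (P : PD Q) (Y : PIx P L → E) (F : RR G K X L) :
    dYE P Y F = ∑ i, Y i * algebraMap (RR G K X L) E (pD P L i F) := rfl

/-- the image of `x : K` in `E` -/
noncomputable def iK (G : AffGrp) (K X L : Type) [Field K] [Algebra ℂ K] [AddCommGroup X] [Finite L] (E : Type) [Field E]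
    [Algebra (RR G K X L) E] : K →+* E := (algebraMap (RR G K X L) E).comp (algebraMap K (RR G K X L))

/-- [MTF-QE1a] The coefficients of the `∂_j` vanish.
PROOF. `kill_const` for `dYE P Y` and `x = P.y j`: `pD i` of a constant: `DL_algebraMap`, `DN_algebraMap`, `DX_algebraMap`, `hP.dd_y`; the sum over `PIx` splits (`Fintype.sum_sum_type`). -/
theorem ann_X (hT : TQ Q) (hP : PQ Q P) {g : ℕ} {ε : L → Bool} {Y : PIx P L → E}
    (hY : ∀ F ∈ AG hT g ε, ∑ i, Y i * algebraMap (RR G K X L) E (pD P L i F) = 0) (j : Fin P.n) :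
    Y (Sum.inr (Sum.inl j)) = 0 := by
  have h1 : ∀ x : K, dYE P Y (algebraMap K (RR G K X L) x) = 0 :=
    fun x => kill_const hT hP (dYE P Y) (fun F hF => by rw [dYE_apply]; exact hY F hF) x
  have h2 := h1 (P.y j)
  rw [dYE_apply, Fintype.sum_sum_type, Fintype.sum_sum_type] at h2
  have h3 : ∑ p : L × Fin Q.r, Y (Sum.inl p) *
      algebraMap (RR G K X L) E (pD P L (Sum.inl p) (algebraMap K (RR G K X L) (P.y j))) = 0 :=
    Finset.sum_eq_zero fun p _ => by
      rw [show pD P L (Sum.inl p) (algebraMap K (RR G K X L) (P.y j)) = 0 from DL_algebraMap p.1 p.2 (P.y j),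
        map_zero, mul_zero]
  have h4 : ∑ i : Fin P.n, Y (Sum.inr (Sum.inr i)) *
      algebraMap (RR G K X L) E (pD P L (Sum.inr (Sum.inr i)) (algebraMap K (RR G K X L) (P.y j))) = 0 :=
    Finset.sum_eq_zero fun i _ => by
      rw [show pD P L (Sum.inr (Sum.inr i)) (algebraMap K (RR G K X L) (P.y j)) = 0 from DN_algebraMap i (P.y j),
        map_zero, mul_zero]
  have h5 : ∀ i : Fin P.n, pD P L (Sum.inr (Sum.inl i)) (algebraMap K (RR G K X L) (P.y j)) =
      algebraMap K (RR G K X L) (if i = j then 1 else 0) := by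
    intro i
    rw [← hP.dd_y i j]
    exact DX_algebraMap i (P.y j)
  have h6 : ∑ i : Fin P.n, Y (Sum.inr (Sum.inl i)) *
      algebraMap (RR G K X L) E (pD P L (Sum.inr (Sum.inl i)) (algebraMap K (RR G K X L) (P.y j))) =
        Y (Sum.inr (Sum.inl j)) := by
    rw [Finset.sum_eq_single j]
    · rw [h5, if_pos rfl, map_one, map_one, mul_one]
    · intro i _ hi
      rw [h5, if_neg hi, map_zero, map_zero, mul_zero]
    · intro h
      exact absurd (Finset.mem_univ j) h
  rw [h3, h4, h6, zero_add, add_zero] at h2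
  exact h2

/-- [MTF-QE1a] The derivative of an eigenfamily concentrated in one weight.
PROOF. `IsEF` for `single m Φ` (the other coefficients vanish), `kill_EF` for `dYE P Y`; `DL l a (single m Φ) = single m (derK K (emb l (Q.D a)) Φ)` (`cD_single`), `DN j (single m Φ) = single m ((cd j m) • Φ) = cd j m • single m Φ`
(`nD_single`), `ann_X`; `Fintype.sum_sum_type`. -/
theorem ann_single (hT : TQ Q) (hP : PQ Q P) {g : ℕ} {ε : L → Bool} {Y : PIx P L → E}
    (hY : ∀ F ∈ AG hT g ε, ∑ i, Y i * algebraMap (RR G K X L) E (pD P L i F) = 0) {m : X} {Φ : (G.pow L).KO K}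
    (hΦ : ∀ l, Q.s l Φ = Q.val (sgn (ε l) • m) • Φ) :
    ∑ p : L × Fin Q.r, Y (Sum.inl p) * algebraMap (RR G K X L) E (AddMonoidAlgebra.single m (derK K (emb p.1 (Q.D p.2)) Φ)) +
      (∑ j, Y (Sum.inr (Sum.inr j)) * ((P.cd j m : ℤ) : E)) *
        algebraMap (RR G K X L) E (AddMonoidAlgebra.single m Φ) = 0 := by
  have hEF : IsEF Q ε (AddMonoidAlgebra.single m Φ : RR G K X L) := by
    intro m' l
    rw [AddMonoidAlgebra.coeff_single]
    by_cases h : m = m'
    · subst h
      rw [Finsupp.single_eq_same]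
      exact hΦ l
    · rw [Finsupp.single_eq_of_ne' h, map_zero, smul_zero]
  have h1 : dYE P Y (AddMonoidAlgebra.single m Φ) = 0 :=
    kill_EF hT hP (dYE P Y) (fun F hF => by rw [dYE_apply]; exact hY F hF) hEF
  rw [dYE_apply, Fintype.sum_sum_type, Fintype.sum_sum_type] at h1
  have h3 : ∑ i : Fin P.n, Y (Sum.inr (Sum.inl i)) *
      algebraMap (RR G K X L) E (pD P L (Sum.inr (Sum.inl i)) (AddMonoidAlgebra.single m Φ)) = 0 :=
    Finset.sum_eq_zero fun i _ => by
      rw [ann_X hT hP hY i, zero_mul]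
  have h4 : ∀ i : Fin P.n, pD P L (Sum.inr (Sum.inr i)) (AddMonoidAlgebra.single m Φ) =
      (P.cd i m) • (AddMonoidAlgebra.single m Φ : RR G K X L) := by
    intro i
    show nD ((Int.castAddHom ((G.pow L).KO K)).comp (P.cd i)) (AddMonoidAlgebra.single m Φ) = _
    rw [nD_single]
    show AddMonoidAlgebra.single m (((P.cd i m : ℤ) : (G.pow L).KO K) * Φ) = _
    rw [← zsmul_eq_mul]
    apply AddMonoidAlgebra.coeff_injective
    rw [AddMonoidAlgebra.coeff_single, ← Finsupp.smul_single]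
    rfl
  have h5 : ∑ i : Fin P.n, Y (Sum.inr (Sum.inr i)) *
      algebraMap (RR G K X L) E (pD P L (Sum.inr (Sum.inr i)) (AddMonoidAlgebra.single m Φ)) =
      (∑ j, Y (Sum.inr (Sum.inr j)) * ((P.cd j m : ℤ) : E)) *
        algebraMap (RR G K X L) E (AddMonoidAlgebra.single m Φ) := by
    rw [Finset.sum_mul]
    refine Finset.sum_congr rfl fun i _ => ?_
    rw [h4, map_zsmul, zsmul_eq_mul, mul_assoc]
  have h6 : ∑ p : L × Fin Q.r, Y (Sum.inl p) *
      algebraMap (RR G K X L) E (pD P L (Sum.inl p) (AddMonoidAlgebra.single m Φ)) =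
      ∑ p : L × Fin Q.r, Y (Sum.inl p) *
        algebraMap (RR G K X L) E (AddMonoidAlgebra.single m (derK K (emb p.1 (Q.D p.2)) Φ)) := by
    refine Finset.sum_congr rfl fun p _ => ?_
    congr 2
    show cD (derD K (emb p.1 (Q.D p.2))) (AddMonoidAlgebra.single m Φ) = _
    rw [cD_single]
    rfl
  rw [h3, h5, h6, zero_add] at h1
  exact h1

theorem qe1b_same (l : L) (D : G.Lie) (g : G.KO K) :
    derK K (emb l D) (pu K l g) = pu K l (derK K D g) := by
  apply KO_ext
  intro k
  rw [derK_emb, pu_apply]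
  have hs : sl K k l (pu K l g) = g := by
    apply KO_ext
    intro h
    rw [sl_apply, pu_apply, Function.update_self]
  rw [hs]

theorem qe1b_ne {i l : L} (h : i ≠ l) (D : G.Lie) (g : G.KO K) :
    derK K (emb i D) (pu K l g) = 0 := by
  apply KO_ext
  intro k
  rw [derK_emb]
  have hs : sl K k i (pu K l g) = algebraMap K (G.KO K) (g.1 (k l)) := by
    apply KO_ext
    intro h'
    rw [sl_apply, pu_apply, Function.update_of_ne (Ne.symm h)]
    rfl
  rw [hs, LP.lb2_derK_const]
  rfl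

/-- the coordinate `b` of `Ad_k s` -/
noncomputable def qe1b_phi (Q : TQD G K W X) (b : Fin Q.r) : G.KO K :=
  ∑ j, Q.c j • inc K ((adR Q).co b j)

theorem qe1b_der (Q : TQD G K W X) (a b j : Fin Q.r) :
    G.der (Q.D a) ((adR Q).co b j) = ∑ e : Fin Q.r, Q.stc a j e • (adR Q).co b e := by
  rw [(adR Q).der_co (Q.D a) b j]
  refine Finset.sum_congr rfl fun e _ => ?_
  have h1 : (adR Q).d (Q.D a) e j = Q.stc a j e := adR_d Q (Q.D a) e j
  rw [h1]

theorem qe1b_inc (c : Fin Q.r → ℂ) (f : Fin Q.r → G.O) :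
    inc K (∑ e, c e • f e) = ∑ e, algebraMap ℂ K (c e) • inc K (f e) := by
  apply KO_ext
  intro x
  rw [KO_sum, inc_apply, AffGrp.O_sum, map_sum]
  refine Finset.sum_congr rfl fun e _ => ?_
  rw [AffGrp.O_smul, map_mul, KO_smul, inc_apply]

theorem qe1b_derphi (Q : TQD G K W X) (a b : Fin Q.r) :
    derK K (Q.D a) (qe1b_phi Q b) =
      ∑ j, ∑ e, (Q.c j * algebraMap ℂ K (Q.stc a j e)) • inc K ((adR Q).co b e) := by
  unfold qe1b_phi
  rw [map_sum]
  refine Finset.sum_congr rfl fun j _ => ?_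
  rw [map_smul, derK_inc, qe1b_der, qe1b_inc, Finset.smul_sum]
  refine Finset.sum_congr rfl fun e _ => ?_
  rw [smul_smul]

theorem qe1b_s1 (Q : TQD G K W X) (b : Fin Q.r) : Q.s1 (qe1b_phi Q b) = 0 := by
  have h1 : ∀ e, ∑ a, ∑ j, Q.c a * (Q.c j * algebraMap ℂ K (Q.stc a j e)) = 0 := by
    intro e
    have h2 := congrFun (brK_self (Q := Q) Q.c) e
    rw [Pi.zero_apply] at h2
    rw [← h2]
    unfold TQD.brK
    refine Finset.sum_congr rfl fun a _ => Finset.sum_congr rfl fun j _ => ?_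
    rw [Algebra.smul_def]
    ring
  rw [LP.lb2_s1_apply]
  have h3 : ∑ a, Q.c a • derK K (Q.D a) (qe1b_phi Q b) =
      ∑ e, (∑ a, ∑ j, Q.c a * (Q.c j * algebraMap ℂ K (Q.stc a j e))) • inc K ((adR Q).co b e) := by
    simp only [qe1b_derphi, Finset.smul_sum, Finset.sum_smul, smul_smul]
    rw [Finset.sum_congr rfl fun a _ => Finset.sum_comm]
    rw [Finset.sum_comm]
  rw [h3]
  exact Finset.sum_eq_zero fun e _ => by rw [h1 e, zero_smul]

/-- the pullback of the leg `l` in `E` -/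
noncomputable def qe1b_psi (X E : Type) [AddCommGroup X] [Field E] [Algebra (RR G K X L) E] (l : L) :
    G.KO K →+* E :=
  (algebraMap (RR G K X L) E).comp
    ((AddMonoidAlgebra.singleZeroRingHom).comp ((pu K l : G.KO K →ₐ[K] (G.pow L).KO K) : G.KO K →+* (G.pow L).KO K))

theorem qe1b_psi_apply (l : L) (F : G.KO K) : qe1b_psi X E l F =
    algebraMap (RR G K X L) E (AddMonoidAlgebra.single 0 (pu K l F)) := rfl

theorem qe1b_psi_smul (l : L) (x : K) (F : G.KO K) :
    qe1b_psi X E l (x • F) = iK G K X L E x * qe1b_psi X E l F := by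
  rw [Algebra.smul_def, map_mul]
  rfl

theorem qe1b_iK (c : ℂ) : iK G K X L E (algebraMap ℂ K c) = algebraMap ℂ E c := by
  rw [IsScalarTower.algebraMap_apply ℂ (RR G K X L) E]
  rfl

/-- [MTF-QE1b] The leg components centralise `s`.
PROOF. Fix `l`.  For `b : Fin Q.r` let `φ_b := ∑ j, Q.c j • inc K ((adR Q).co b j) ∈ G.KO K` (`φ_b (k)` = coordinate `b` of `Ad_k s`).  `derK K (Q.D a) φ_b = ∑ e, (∑ j, Q.stc a j e • Q.c j) • inc K ((adR Q).co b e)`
(`derK_inc`, `Rep.der_co` (MTG/B0.lean), `adR_d` (PA1.lean), `TQD.stc`), so `Q.s1 φ_b = ∑ e, (Q.brK Q.c Q.c e) • .. = 0` (`brK_self`).  `Φ_b := pu K l φ_b`: `Q.s l Φ_b = 0`, `Q.s l' Φ_b = 0` (`LP.s_pu`, `LP.s_pu_ne`), so `ann_single`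
applies with `m = 0` (`Q.val (sgn • 0) = 0`); the second sum vanishes (`cd j 0 = 0`); `derK K (emb l' D) (pu K l φ) = 0` for `l' ≠ l`, `derK K (emb l D) (pu K l φ) = pu K l (derK K D φ)` (`derK_emb`; see the proofs of `LP.s_pu`, `LP.s_pu_ne` in
LB2.lean).  With `M b e := algebraMap _ E (single 0 (pu K l (inc K ((adR Q).co b e))))` and `u e := ∑ a, ∑ j, Q.stc a j e • (Y (inl (l,a)) * iK (Q.c j))` this says `∑ e, u e * M b e = 0` for all `b`.
Multiply by `M' b' b := algebraMap _ E (single 0 (pu K l (inc K f)))`, `f = (x ↦ (adR Q).ρ x⁻¹ b' b)` (`G.inv_mem`), and add over `b`: `∑ b, M' b' b * M b e = if b' = e then 1 else 0` (`ρ x⁻¹ * ρ x = 1`; all these maps are ring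
homomorphisms), so `u = 0`.  `u = Q.brK Y_l (iK ∘ Q.c)`, `brK_skew`. -/
theorem ann_L (hT : TQ Q) (hP : PQ Q P) {g : ℕ} {ε : L → Bool} {Y : PIx P L → E}
    (hY : ∀ F ∈ AG hT g ε, ∑ i, Y i * algebraMap (RR G K X L) E (pD P L i F) = 0) (l : L) :
    Q.brK (fun a => iK G K X L E (Q.c a)) (fun a => Y (Sum.inl (l, a))) = 0 := by
  classical
  have hann : ∀ b : Fin Q.r, ∑ a, Y (Sum.inl (l, a)) * qe1b_psi X E l (derK K (Q.D a) (qe1b_phi Q b)) = 0 := by
    intro b
    have h1 := ann_single hT hP hY (m := 0) (Φ := pu K l (qe1b_phi Q b)) (fun l' => by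
      rw [smul_zero, map_zero, zero_smul]
      by_cases h : l' = l
      · rw [h, LP.s_pu, qe1b_s1, map_zero]
      · exact LP.s_pu_ne h _)
    have h2 : ∑ j, Y (Sum.inr (Sum.inr j)) * ((P.cd j (0 : X) : ℤ) : E) = 0 :=
      Finset.sum_eq_zero fun j _ => by rw [map_zero, Int.cast_zero, mul_zero]
    rw [h2, zero_mul, add_zero, Fintype.sum_prod_type, Finset.sum_eq_single l] at h1
    · rw [← h1]
      refine Finset.sum_congr rfl fun a _ => ?_
      rw [qe1b_same, qe1b_psi_apply]
    · intro l' _ hl'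
      refine Finset.sum_eq_zero fun a _ => ?_
      rw [qe1b_ne hl', AddMonoidAlgebra.single_zero, map_zero, mul_zero]
    · intro h
      exact absurd (Finset.mem_univ l) h
  have hu : ∀ b : Fin Q.r, ∑ e, Q.brK (fun a => Y (Sum.inl (l, a))) (fun a => iK G K X L E (Q.c a)) e *
      qe1b_psi X E l (inc K ((adR Q).co b e)) = 0 := by
    intro b
    rw [← hann b]
    unfold TQD.brK
    simp only [qe1b_derphi, map_sum, Finset.mul_sum, Finset.sum_mul, qe1b_psi_smul, map_mul, qe1b_iK]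
    rw [Finset.sum_comm]
    refine Finset.sum_congr rfl fun a _ => ?_
    rw [Finset.sum_comm]
    refine Finset.sum_congr rfl fun j _ => Finset.sum_congr rfl fun e _ => ?_
    rw [Algebra.smul_def]
    ring
  have hinv : ∀ b' e : Fin Q.r, ∑ b, qe1b_psi X E l (inc K ⟨fun x => (adR Q).ρ x⁻¹ b' b, G.inv_mem _ ((adR Q).mem b' b)⟩) *
      qe1b_psi X E l (inc K ((adR Q).co b e)) = if b' = e then 1 else 0 := by
    intro b' e
    rw [Finset.sum_congr rfl fun b _ => (map_mul (qe1b_psi X E l) _ _).symm, ← map_sum]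
    have h1 : ∑ b, inc K (⟨fun x => (adR Q).ρ x⁻¹ b' b, G.inv_mem _ ((adR Q).mem b' b)⟩ : G.O) *
        inc K ((adR Q).co b e) = if b' = e then (1 : G.KO K) else 0 := by
      apply KO_ext
      intro x
      rw [KO_sum]
      have h2 : ∀ b, (inc K (⟨fun x => (adR Q).ρ x⁻¹ b' b, G.inv_mem _ ((adR Q).mem b' b)⟩ : G.O) *
          inc K ((adR Q).co b e)).1 x = algebraMap ℂ K ((adR Q).ρ x⁻¹ b' b * (adR Q).ρ x b e) :=
        fun b => (map_mul (algebraMap ℂ K) _ _).symm
      rw [Finset.sum_congr rfl fun b _ => h2 b, ← map_sum]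
      have h3 : ∑ b, (adR Q).ρ x⁻¹ b' b * (adR Q).ρ x b e = (1 : Matrix (adR Q).ι (adR Q).ι ℂ) b' e := by
        rw [← map_one (adR Q).ρ, ← inv_mul_cancel x, map_mul, Matrix.mul_apply]
      rw [h3]
      by_cases h : b' = e
      · rw [if_pos h, h, KO_one]
        have h4 : (1 : Matrix (adR Q).ι (adR Q).ι ℂ) e e = 1 := Matrix.one_apply_eq e
        rw [h4, map_one]
      · rw [if_neg h, KO_zero]
        have h4 : (1 : Matrix (adR Q).ι (adR Q).ι ℂ) b' e = 0 := Matrix.one_apply_ne h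
        rw [h4, map_zero]
    rw [h1]
    split_ifs
    · exact map_one _
    · exact map_zero _
  have hz : Q.brK (fun a => Y (Sum.inl (l, a))) (fun a => iK G K X L E (Q.c a)) = 0 := by
    funext e'
    have h1 : ∑ b, qe1b_psi X E l (inc K ⟨fun x => (adR Q).ρ x⁻¹ e' b, G.inv_mem _ ((adR Q).mem e' b)⟩) *
        ∑ e, Q.brK (fun a => Y (Sum.inl (l, a))) (fun a => iK G K X L E (Q.c a)) e *
          qe1b_psi X E l (inc K ((adR Q).co b e)) = 0 :=
      Finset.sum_eq_zero fun b _ => by rw [hu b, mul_zero]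
    simp only [Finset.mul_sum] at h1
    rw [Finset.sum_comm] at h1
    have h2 : ∀ e, ∑ b, qe1b_psi X E l (inc K ⟨fun x => (adR Q).ρ x⁻¹ e' b, G.inv_mem _ ((adR Q).mem e' b)⟩) *
        (Q.brK (fun a => Y (Sum.inl (l, a))) (fun a => iK G K X L E (Q.c a)) e *
          qe1b_psi X E l (inc K ((adR Q).co b e))) =
        Q.brK (fun a => Y (Sum.inl (l, a))) (fun a => iK G K X L E (Q.c a)) e * if e' = e then 1 else 0 := by
      intro e
      rw [← hinv e' e, Finset.mul_sum]
      exact Finset.sum_congr rfl fun b _ => by ring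
    rw [Finset.sum_congr rfl fun e _ => h2 e] at h1
    simpa using h1
  rw [brK_skew, hz, neg_zero]

end

end Pool.Agent.MTF
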