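import Pool.Agent.MTF.QE1
import Pool.Agent.MTF.QA2
import Pool.Agent.MTF.PB1c
import Pool.Agent.MTF.PB2

/-! # MTF, part Q : the annihilator of `A_{g;L}`, second part -/

set_option linter.unusedSectionVars false

namespace Pool.Agent.MTF

open AffGrp

section
variable {G : AffGrp} {K W X : Type} [Field K] [Algebra ℂ K] [Group W] [Fintype W]
  [MulSemiringAction W K] [SMulCommClass W ℂ K] [AddCommGroup X] [DistribMulAction W X]
variable {Q : TQD G K W X} {P : PD Q}
variable {L : Type} [Fintype L] [DecidableEq L]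
variable {E : Type} [Field E] [Algebra ℂ E] [Algebra (RR G K X L) E] [IsScalarTower ℂ (RR G K X L) E]

theorem qe2_iK_smul (c : ℂ) (x : K) : iK G K X L E (c • x) = c • iK G K X L E x := by
  show algebraMap (RR G K X L) E (algebraMap K (RR G K X L) (c • x)) =
    c • algebraMap (RR G K X L) E (algebraMap K (RR G K X L) x)
  have h1 : algebraMap K (RR G K X L) (c • x) = c • algebraMap K (RR G K X L) x := by
    rw [Algebra.algebraMap_eq_smul_one, Algebra.algebraMap_eq_smul_one, smul_assoc]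
  rw [h1]
  exact map_smul (IsScalarTower.toAlgHom ℂ (RR G K X L) E) c (algebraMap K (RR G K X L) x)

theorem qe2_iK_mul (x : K) (m : X) (Ψ : (G.pow L).KO K) :
    iK G K X L E x * algebraMap (RR G K X L) E (AddMonoidAlgebra.single m Ψ) =
      algebraMap (RR G K X L) E (AddMonoidAlgebra.single m (x • Ψ)) := by
  show algebraMap (RR G K X L) E (algebraMap K (RR G K X L) x) *
    algebraMap (RR G K X L) E (AddMonoidAlgebra.single m Ψ) = _
  rw [← map_mul, ← Algebra.smul_def, AddMonoidAlgebra.smul_single]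

theorem qe2_single_sum {κ : Type} (s : Finset κ) (m : X) (Ψ : κ → (G.pow L).KO K) :
    algebraMap (RR G K X L) E (AddMonoidAlgebra.single m (∑ i ∈ s, Ψ i)) =
      ∑ i ∈ s, algebraMap (RR G K X L) E (AddMonoidAlgebra.single m (Ψ i)) := by
  classical
  induction s using Finset.induction_on with
  | empty => rw [Finset.sum_empty, Finset.sum_empty, AddMonoidAlgebra.single_zero, map_zero]
  | insert a s ha ih =>
    rw [Finset.sum_insert ha, Finset.sum_insert ha, AddMonoidAlgebra.single_add, map_add, ih]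

/-- [MTF-QE2a] The centraliser of `s` over `E`.
PROOF. `ker_base` (QA2.lean) for the field extension `iK : K → E` (`letI : Algebra K E := (iK G K X L E).toAlgebra`), `T i j := ∑ a, Q.stc a j i • Q.c a`: `Q.brK Q.c z i = ∑ j, T i j * z j` (over `K` and over `E`: `iK` of a complex
multiple: `iK (c • x) = c • iK x`, scalar towers). -/
theorem cent_base {z : Fin Q.r → E} (hz : Q.brK (fun a => iK G K X L E (Q.c a)) z = 0) :
    ∃ (N : ℕ) (q : Fin N → E) (ζ : Fin N → Fin Q.r → K), (∀ t, Q.brK Q.c (ζ t) = 0) ∧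
      ∀ a, z a = ∑ t, q t * iK G K X L E (ζ t a) := by
  classical
  let instKE : Algebra K E := (iK G K X L E).toAlgebra
  have hal : ∀ x : K, algebraMap K E x = iK G K X L E x := fun _ => rfl
  obtain ⟨N, q, ζ, h1, h2⟩ := QA.ker_base (k := K) (E := E)
    (fun i j : Fin Q.r => ∑ a, Q.stc a j i • Q.c a) z (fun i => by
      have h := congrFun hz i
      refine Eq.trans ?_ h
      show _ = ∑ a, ∑ b, Q.stc a b i • (iK G K X L E (Q.c a) * z b)
      rw [Finset.sum_comm]
      refine Finset.sum_congr rfl fun j _ => ?_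
      rw [hal, map_sum, Finset.sum_mul]
      refine Finset.sum_congr rfl fun a _ => ?_
      rw [qe2_iK_smul, smul_mul_assoc])
  refine ⟨N, q, ζ, fun t => ?_, fun a => h2 a⟩
  funext i
  refine Eq.trans ?_ (h1 t i)
  show ∑ a, ∑ b, Q.stc a b i • (Q.c a * ζ t b) = _
  rw [Finset.sum_comm]
  refine Finset.sum_congr rfl fun j _ => ?_
  rw [Finset.sum_mul]
  refine Finset.sum_congr rfl fun a _ => ?_
  rw [smul_mul_assoc]

/-- [MTF-QE2a] The centraliser of `s` acts on joint eigenfunctions through `∂_m s`.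
PROOF. `cent_base`: `z a = ∑ t, q t * iK (ζ t a)`.  The left side is `∑ t, q t * algebraMap _ E (single m (∑ a, ζ t a • derK K (emb l (Q.D a)) Φ))` (`iK x * algebraMap (single m Ψ) = algebraMap (single m (x • Ψ))`), `gr_leg` (PB2a.lean) with the weight
`sgn b • m`, `kapK_dXs` (PB2.lean), `P.cd j (sgn b • m) = sgn b * P.cd j m`. -/
theorem cent_act (hP : PQ Q P) {z : Fin Q.r → E} (hz : Q.brK (fun a => iK G K X L E (Q.c a)) z = 0) {m : X} {b : Bool} {l : L}
    {Φ : (G.pow L).KO K} (hΦ : Q.s l Φ = Q.val (sgn b • m) • Φ) :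
    ∑ a, z a * algebraMap (RR G K X L) E (AddMonoidAlgebra.single m (derK K (emb l (Q.D a)) Φ)) =
      (((sgn b : ℤ) : E) * ∑ j, ((P.cd j m : ℤ) : E) * ∑ a, iK G K X L E (P.sig j a) * z a) *
        algebraMap (RR G K X L) E (AddMonoidAlgebra.single m Φ) := by
  classical
  obtain ⟨N, q, ζ, h1, h2⟩ := cent_base hz
  have h3 : ∀ t, ∑ a, iK G K X L E (ζ t a) *
      algebraMap (RR G K X L) E (AddMonoidAlgebra.single m (derK K (emb l (Q.D a)) Φ)) =
      (((sgn b : ℤ) : E) * ∑ j, ((P.cd j m : ℤ) : E) * ∑ a, iK G K X L E (P.sig j a) *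
        iK G K X L E (ζ t a)) * algebraMap (RR G K X L) E (AddMonoidAlgebra.single m Φ) := by
    intro t
    have h4 : ∑ a, iK G K X L E (ζ t a) *
      algebraMap (RR G K X L) E (AddMonoidAlgebra.single m (derK K (emb l (Q.D a)) Φ)) =
        algebraMap (RR G K X L) E (AddMonoidAlgebra.single m
          (∑ a, ζ t a • derK K (emb l (Q.D a)) Φ)) := by
      rw [qe2_single_sum]
      exact Finset.sum_congr rfl fun a _ => qe2_iK_mul _ _ _
    rw [h4, gr_leg hP l hΦ (h1 t), ← qe2_iK_mul, kapK_dXs]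
    congr 1
    rw [map_sum, Finset.mul_sum]
    refine Finset.sum_congr rfl fun j _ => ?_
    rw [map_mul, map_sum, map_intCast, map_zsmul, smul_eq_mul, Int.cast_mul, mul_assoc]
    simp only [map_mul]
  have h5 : ∀ a, z a * algebraMap (RR G K X L) E
      (AddMonoidAlgebra.single m (derK K (emb l (Q.D a)) Φ)) =
      ∑ t, q t * (iK G K X L E (ζ t a) * algebraMap (RR G K X L) E
        (AddMonoidAlgebra.single m (derK K (emb l (Q.D a)) Φ))) := by
    intro a
    rw [h2 a, Finset.sum_mul]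
    exact Finset.sum_congr rfl fun t _ => mul_assoc _ _ _
  rw [Finset.sum_congr rfl fun a _ => h5 a, Finset.sum_comm]
  have h6 : ∀ t, ∑ a, q t * (iK G K X L E (ζ t a) * algebraMap (RR G K X L) E
        (AddMonoidAlgebra.single m (derK K (emb l (Q.D a)) Φ))) =
      q t * (((sgn b : ℤ) : E) * ∑ j, ((P.cd j m : ℤ) : E) * ∑ a, iK G K X L E (P.sig j a) *
        iK G K X L E (ζ t a)) * algebraMap (RR G K X L) E (AddMonoidAlgebra.single m Φ) := by
    intro t
    rw [← Finset.mul_sum, h3]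
    exact (mul_assoc _ _ _).symm
  rw [Finset.sum_congr rfl fun t _ => h6 t, ← Finset.sum_mul]
  congr 1
  have h7 : ∀ t, q t * (((sgn b : ℤ) : E) * ∑ j, ((P.cd j m : ℤ) : E) *
      ∑ a, iK G K X L E (P.sig j a) * iK G K X L E (ζ t a)) =
      ((sgn b : ℤ) : E) * ∑ j, ((P.cd j m : ℤ) : E) *
        ∑ a, iK G K X L E (P.sig j a) * (q t * iK G K X L E (ζ t a)) := by
    intro t
    rw [mul_left_comm, Finset.mul_sum]
    congr 1
    refine Finset.sum_congr rfl fun j _ => ?_
    rw [mul_left_comm, Finset.mul_sum]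
    congr 1
    exact Finset.sum_congr rfl fun a _ => mul_left_comm _ _ _
  rw [Finset.sum_congr rfl fun t _ => h7 t, ← Finset.mul_sum]
  congr 1
  rw [Finset.sum_comm]
  refine Finset.sum_congr rfl fun j _ => ?_
  rw [← Finset.mul_sum, Finset.sum_comm]
  congr 1
  refine Finset.sum_congr rfl fun a _ => ?_
  rw [← Finset.mul_sum, h2 a]

/-- [MTF-QE2b] The torus components.
PROOF. `m := P.mb j`, `Φ` from `exists_Phi`, `ann_single`; the sum over `L × Fin Q.r` is a double sum (`Fintype.sum_prod_type`), for every `l` use `cent_act` with `z = Y_l`, `ann_L`.  `P.cd i (P.mb j) = if i = j then 1 else 0`.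
So `(∑ l, sgn * ∑ a, iK (sig j a) * Y (inl (l,a)) + Y (inr (inr j))) * algebraMap (single m Φ) = 0` and `algebraMap (single m Φ) ≠ 0` (`hinj`, `Φ ≠ 0`). -/
theorem ann_N (hT : TQ Q) (hP : PQ Q P) (hinj : Function.Injective (algebraMap (RR G K X L) E)) {g : ℕ} {ε : L → Bool}
    {Y : PIx P L → E} (hY : ∀ F ∈ AG hT g ε, ∑ i, Y i * algebraMap (RR G K X L) E (pD P L i F) = 0) (j : Fin P.n) :
    Y (Sum.inr (Sum.inr j)) =
      - ∑ l, ((sgn (ε l) : ℤ) : E) * ∑ a, iK G K X L E (P.sig j a) * Y (Sum.inl (l, a)) := by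
  classical
  obtain ⟨Φ, hΦ0, hΦ⟩ := exists_Phi (L := L) hT ε (P.mb j)
  have h1 := ann_single hT hP hY hΦ
  have hcd : ∀ i, P.cd i (P.mb j) = if i = j then 1 else 0 := by
    intro i
    show P.mb.coord i (P.mb j) = _
    rw [Module.Basis.coord_apply, Module.Basis.repr_self, Finsupp.single_apply]
    exact if_congr eq_comm rfl rfl
  have hsum : ∀ f : Fin P.n → E, ∑ i, ((P.cd i (P.mb j) : ℤ) : E) * f i = f j := by
    intro f
    rw [Finset.sum_eq_single j]
    · rw [hcd, if_pos rfl, Int.cast_one, one_mul]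
    · intro i _ hi
      rw [hcd, if_neg hi, Int.cast_zero, zero_mul]
    · intro h0
      exact absurd (Finset.mem_univ _) h0
  have h2 : ∑ i, Y (Sum.inr (Sum.inr i)) * ((P.cd i (P.mb j) : ℤ) : E) =
      Y (Sum.inr (Sum.inr j)) := by
    refine Eq.trans (Finset.sum_congr rfl fun i _ => mul_comm _ _) ?_
    exact hsum fun i => Y (Sum.inr (Sum.inr i))
  have h3 : ∑ p : L × Fin Q.r, Y (Sum.inl p) * algebraMap (RR G K X L) E
      (AddMonoidAlgebra.single (P.mb j) (derK K (emb p.1 (Q.D p.2)) Φ)) =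
      (∑ l, ((sgn (ε l) : ℤ) : E) * ∑ a, iK G K X L E (P.sig j a) * Y (Sum.inl (l, a))) *
        algebraMap (RR G K X L) E (AddMonoidAlgebra.single (P.mb j) Φ) := by
    rw [Fintype.sum_prod_type, Finset.sum_mul]
    refine Finset.sum_congr rfl fun l _ => ?_
    have h4 := cent_act (P := P) hP (z := fun a => Y (Sum.inl (l, a))) (ann_L hT hP hY l)
      (hΦ l)
    rw [hsum] at h4
    exact h4
  rw [h2, h3, ← add_mul] at h1
  have h5 : algebraMap (RR G K X L) E (AddMonoidAlgebra.single (P.mb j) Φ) ≠ 0 := by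
    rw [Ne, ← map_zero (algebraMap (RR G K X L) E)]
    intro h6
    have h7 := hinj h6
    rw [AddMonoidAlgebra.single_eq_zero] at h7
    exact hΦ0 h7
  rcases mul_eq_zero.1 h1 with h6 | h6
  · linear_combination h6
  · exact absurd h6 h5

/-- [MTF-QE2c] (ANN) The annihilator of `A_{g;L}` is in the kernel of the 2-form.
PROOF. Cases for `j`; the sum over `PIx` splits (`Fintype.sum_sum_type`, `Fintype.sum_prod_type`); `Y (inr (inl i)) = 0` (`ann_X`).  The values of `ω`: `ω_LL`, `ω_LX`, `ω_LN`, `ω_XX`, `ω_XN`, `ω_NN` (PB1c.lean) and `DS.ω_skew`.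
`j = inl (l', b)`: only `∑ a, Y (inl (l',a)) * iK (- (sgn * ∑ c, Q.stc a b c • Q.flat Q.c c))` remains; `∑ a, ∑ c, Q.stc a b c • (Y_a * flat(c)_c) = kapK (brK Y_l' e_b) c = - kapK (brK e_b Y_l') c = kapK .. = ± kapK e_b (brK c Y_l') = 0` by
`kapK_inv`, `kapK_symm`, `brK_skew`, `kapK_flat` over `E` (`e_b = Pi.single b 1`) and `ann_L`.
`j = inr (inl j)`: `∑ (l,a), Y (inl (l,a)) * iK (- (sgn * sig j a)) - Y (inr (inr j)) = 0` by `ann_N`.
`j = inr (inr j)`: `Y (inr (inl j)) = 0`. -/
theorem ann (hT : TQ Q) (hP : PQ Q P) (hinj : Function.Injective (algebraMap (RR G K X L) E)) {g : ℕ} {ε : L → Bool}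
    {Y : PIx P L → E} (hY : ∀ F ∈ AG hT g ε, ∑ i, Y i * algebraMap (RR G K X L) E (pD P L i F) = 0) (j : PIx P L) :
    ∑ i, Y i * algebraMap (RR G K X L) E ((pDS (P := P) hP ε).ω i j) = 0 := by
  classical
  have hX := fun i => ann_X (P := P) hT hP hY i
  have hsk := fun i j => (pDS (P := P) (L := L) hP ε).ω_skew i j
  have hiK : ∀ x : K, algebraMap (RR G K X L) E (algebraMap K (RR G K X L) x) = iK G K X L E x :=
    fun _ => rfl
  rw [Fintype.sum_sum_type, Fintype.sum_sum_type]
  have hX0 : ∑ i, Y (Sum.inr (Sum.inl i)) *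
      algebraMap (RR G K X L) E ((pDS (P := P) hP ε).ω (Sum.inr (Sum.inl i)) j) = 0 :=
    Finset.sum_eq_zero fun i _ => by rw [hX, zero_mul]
  rw [hX0, zero_add]
  rcases j with ⟨l', b⟩ | j | j
  · have h1 : ∑ i, Y (Sum.inr (Sum.inr i)) * algebraMap (RR G K X L) E
        ((pDS (P := P) hP ε).ω (Sum.inr (Sum.inr i)) (Sum.inl (l', b))) = 0 := by
      refine Finset.sum_eq_zero fun i _ => ?_
      rw [hsk, ω_LN, map_neg, map_zero, neg_zero, mul_zero]
    rw [h1, add_zero, Fintype.sum_prod_type]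
    have h2 : ∀ l, ∑ a, Y (Sum.inl (l, a)) * algebraMap (RR G K X L) E
        ((pDS (P := P) hP ε).ω (Sum.inl (l, a)) (Sum.inl (l', b))) =
        if l = l' then ∑ a, Y (Sum.inl (l', a)) *
          iK G K X L E (- (((sgn (ε l') : ℤ) : K) * ∑ c, Q.stc a b c • Q.flat Q.c c)) else 0 := by
      intro l
      split_ifs with h
      · subst h
        refine Finset.sum_congr rfl fun a _ => ?_
        rw [ω_LL, if_pos rfl, hiK]
      · refine Finset.sum_eq_zero fun a _ => ?_
        rw [ω_LL, if_neg h, map_zero, mul_zero]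
    rw [Finset.sum_congr rfl fun l _ => h2 l, Finset.sum_ite_eq' Finset.univ l',
      if_pos (Finset.mem_univ _)]
    obtain ⟨c', hc'⟩ : ∃ c' : Fin Q.r → E, c' = fun a => iK G K X L E (Q.c a) := ⟨_, rfl⟩
    obtain ⟨y, hy⟩ : ∃ y : Fin Q.r → E, y = fun a => Y (Sum.inl (l', a)) := ⟨_, rfl⟩
    have hL : Q.brK c' y = 0 := by
      rw [hc', hy]
      exact ann_L hT hP hY l'
    have hfl : ∀ c, iK G K X L E (Q.flat Q.c c) = Q.flat c' c := by
      intro c
      show iK G K X L E (∑ b, Q.kap b c • Q.c b) = ∑ b, Q.kap b c • c' b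
      rw [map_sum]
      refine Finset.sum_congr rfl fun d _ => ?_
      rw [qe2_iK_smul, hc']
    have h3 : ∀ c, Q.brK y (Pi.single b (1 : E)) c = ∑ a, Q.stc a b c • y a := by
      intro c
      show ∑ a, ∑ d, Q.stc a d c • (y a * (Pi.single b (1 : E) : Fin Q.r → E) d) = _
      refine Finset.sum_congr rfl fun a _ => ?_
      rw [Finset.sum_eq_single b]
      · rw [Pi.single_eq_same, mul_one]
      · intro d _ hd
        rw [Pi.single_eq_of_ne hd, mul_zero, smul_zero]
      · intro h0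
        exact absurd (Finset.mem_univ _) h0
    have h4 : Q.kapK c' (Q.brK y (Pi.single b (1 : E))) = 0 := by
      rw [kapK_symm, kapK_inv, brK_skew y c', hL, neg_zero, kapK_flat]
      rw [neg_eq_zero]
      refine Finset.sum_eq_zero fun a _ => ?_
      rw [Pi.zero_apply, mul_zero]
    rw [kapK_flat] at h4
    have h5 : ∀ a, Y (Sum.inl (l', a)) *
        iK G K X L E (- (((sgn (ε l') : ℤ) : K) * ∑ c, Q.stc a b c • Q.flat Q.c c)) =
        (-((sgn (ε l') : ℤ) : E)) * ∑ c, Q.flat c' c * (Q.stc a b c • y a) := by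
      intro a
      rw [map_neg, map_mul, map_intCast, map_sum, hy, Finset.mul_sum, ← Finset.sum_neg_distrib,
        Finset.mul_sum, Finset.mul_sum]
      refine Finset.sum_congr rfl fun c _ => ?_
      rw [qe2_iK_smul, hfl, mul_smul_comm, mul_smul_comm]
      rw [mul_smul_comm, ← smul_neg, mul_smul_comm]
      congr 1
      ring
    rw [Finset.sum_congr rfl fun a _ => h5 a, ← Finset.mul_sum, Finset.sum_comm]
    have h6 : ∑ c, ∑ a, Q.flat c' c * (Q.stc a b c • y a) = 0 := by
      refine Eq.trans (Finset.sum_congr rfl fun c _ => ?_) h4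
      rw [h3, Finset.mul_sum]
    rw [h6, mul_zero]
  · have h1 : ∑ i, Y (Sum.inr (Sum.inr i)) * algebraMap (RR G K X L) E
        ((pDS (P := P) hP ε).ω (Sum.inr (Sum.inr i)) (Sum.inr (Sum.inl j))) =
        - Y (Sum.inr (Sum.inr j)) := by
      rw [Finset.sum_eq_single j]
      · rw [hsk, ω_XN, if_pos rfl, map_neg, map_one, mul_neg, mul_one]
      · intro i _ hi
        rw [hsk, ω_XN, if_neg (Ne.symm hi), map_neg, map_zero, neg_zero, mul_zero]
      · intro h0
        exact absurd (Finset.mem_univ _) h0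
    rw [h1, ann_N hT hP hinj hY j, neg_neg, Fintype.sum_prod_type, ← Finset.sum_add_distrib]
    refine Finset.sum_eq_zero fun l _ => ?_
    rw [Finset.mul_sum, ← Finset.sum_add_distrib]
    refine Finset.sum_eq_zero fun a _ => ?_
    rw [ω_LX, hiK, map_neg, map_mul, map_intCast]
    ring
  · have h1 : ∑ i, Y (Sum.inr (Sum.inr i)) * algebraMap (RR G K X L) E
        ((pDS (P := P) hP ε).ω (Sum.inr (Sum.inr i)) (Sum.inr (Sum.inr j))) = 0 := by
      refine Finset.sum_eq_zero fun i _ => ?_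
      rw [ω_NN, map_zero, mul_zero]
    rw [h1, add_zero]
    refine Finset.sum_eq_zero fun p _ => ?_
    obtain ⟨l, a⟩ := p
    rw [ω_LN, map_zero, mul_zero]

end

end Pool.Agent.MTF
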