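import Pool.Agent.MTF.QA3
import Pool.Agent.MTF.QB1
import Pool.Agent.MTF.QC3
import Pool.Agent.MTF.QE2
import Pool.Agent.MTF.PB3

/-! # MTF, part Q : the varieties `A_{g;L}` are generically symplectic -/

set_option linter.unusedSectionVars false

namespace Pool.Agent.MTF

open AffGrp

section
variable {G : AffGrp} {K W X : Type} [Field K] [Algebra ℂ K] [Group W] [Fintype W]
  [MulSemiringAction W K] [SMulCommClass W ℂ K] [AddCommGroup X] [DistribMulAction W X]
variable {Q : TQD G K W X} {P : PD Q}
variable {L : Type} [Fintype L] [DecidableEq L]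

/-- The Poisson varieties `A_{g;L}` are integral and generically symplectic: `M` is a Poisson algebra with an
isomorphism `i` onto `A_{g;L}`. -/
theorem inMT_AG (hT : TQ Q) (hP : PQ Q P) (hG : IsDomain G.O) {g : ℕ} {ε : L → Bool} (M : PAlg)
    (i : M.A →ₐ[ℂ] RR G K X L) (hi : Function.Injective i) (hr : ∀ F, F ∈ AG hT g ε ↔ ∃ a, i a = F)
    (hbr : ∀ a b, i (M.br a b) = P.br ε (i a) (i b)) : InMT M := by
  have hR : IsDomain (RR G K X L) := RR_domain P hG L
  have hm : ∀ a, i a ∈ AG hT g ε := fun a => (hr _).2 ⟨a, rfl⟩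
  refine QA.symp M i hi (pD P L) (fun x => HX P ε (i x)) (fun k j => (pDS (P := P) hP ε).ω k j) ?_ ?_
    (E := FractionRing (RR G K X L)) (IsFractionRing.injective (RR G K X L) (FractionRing (RR G K X L))) ?_ ?_
  · intro x y
    rw [hbr]
    exact ap_HX hP ε (i x) (i y)
  · intro x j
    exact isX_HX hT hP (AG_fam hT (hm x)).wt j
  · intro Y hY j
    refine ann (g := g) hT hP (IsFractionRing.injective (RR G K X L) (FractionRing (RR G K X L))) (fun F hF => ?_) j
    obtain ⟨a, rfl⟩ := (hr F).1 hF
    exact hY a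
  · exact fun D' => dec_R hP D'

end

end Pool.Agent.MTF
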