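import Pool.Agent.MTF.Pow

/-!
# MTF : the statement

`TQFT G e f` : there is a two-dimensional topological quantum field theory with values in `MT` that
sends the circle to `G` and the disc to `G × S`, `S = e + 𝔤_f`.
-/

namespace Pool.Agent.MTF

open TensorProduct

namespace AffGrp
variable (G : AffGrp)

/-- the pullback `F ↦ (y ↦ F (y ∘ u))` -/
def pre {I J : Type} (u : I → J) : G.powO I →ₐ[ℂ] G.powO J where
  toFun F := ⟨fun y => F.1 (y ∘ u), by
    obtain ⟨F, hF⟩ := F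
    unfold powO at hF ⊢
    show (fun y : J → G.X => F (y ∘ u)) ∈ _
    induction hF using Algebra.adjoin_induction with
    | mem F hF =>
      obtain ⟨i, f, rfl⟩ := hF
      exact Algebra.subset_adjoin ⟨u i, f, rfl⟩
    | algebraMap c => exact Subalgebra.algebraMap_mem _ c
    | add F F' _ _ ih ih' => exact Subalgebra.add_mem _ ih ih'
    | mul F F' _ _ ih ih' => exact Subalgebra.mul_mem _ ih ih'⟩
  map_one' := rfl
  map_mul' _ _ := rfl
  map_zero' := rfl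
  map_add' _ _ := rfl
  commutes' _ := rfl

/-- The homomorphism `G^J → G^I`, `y ↦ y ∘ u`. -/
def rb {I J : Type} [Finite I] [Finite J] (u : I → J) (y : (G.pow J).X) : (G.pow I).X :=
  fun i => y (u i)

/-- The derivative `Lie (G^J) → Lie (G^I)` of the homomorphism `y ↦ y ∘ u`. -/
def lmap {I J : Type} [Finite I] [Finite J] (u : I → J) : (G.pow J).Lie →ₗ[ℂ] (G.pow I).Lie where
  toFun D := ⟨D.1 ∘ₗ (G.pre u).toLinearMap, fun f g => by
    have h := D.2 (G.pre u f) (G.pre u g)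
    have h1 : G.pre u (f * g) = G.pre u f * G.pre u g := rfl
    exact (congrArg D.1 h1).trans h⟩
  map_add' _ _ := rfl
  map_smul' _ _ := rfl

/-- The derivative `Lie (G^I) → Lie G` of the projection `x ↦ x i`. -/
def lpr {I : Type} [Finite I] (i : I) : (G.pow I).Lie →ₗ[ℂ] G.Lie where
  toFun D := ⟨D.1 ∘ₗ (G.pull i).toLinearMap, fun f g => by
    have h := D.2 (G.pull i f) (G.pull i g)
    have h1 : G.pull i (f * g) = G.pull i f * G.pull i g := rfl
    exact (congrArg D.1 h1).trans h⟩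
  map_add' _ _ := rfl
  map_smul' _ _ := rfl

/-- The regular functions on `T^*G = G × 𝔤^*` (left trivialisation). -/
def cotO : Subalgebra ℂ (G.X × Module.Dual ℂ G.Lie → ℂ) :=
  Algebra.adjoin ℂ ({F | ∃ f : G.O, F = fun p => f.1 p.1} ∪ {F | ∃ D : G.Lie, F = fun p => p.2 D})

/-- The slice `e + 𝔤_f`. -/
def Sl (e f : G.Lie) : Type := {s : G.Lie // G.br f (s - e) = 0}

/-- The regular functions on `G × S`. -/
def slO (e f : G.Lie) : Subalgebra ℂ (G.X × G.Sl e f → ℂ) :=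
  Algebra.adjoin ℂ ({F | ∃ f : G.O, F = fun p => f.1 p.1} ∪
    {F | ∃ l : Module.Dual ℂ G.Lie, F = fun p => l p.2.1})

theorem slO_mem {e f : G.Lie} (F : G.slO e f) (x : G.X) (s : G.Sl e f) :
    (fun y => F.1 (x * y, s)) ∈ G.O := by
  obtain ⟨F, hF⟩ := F
  unfold slO at hF
  show (fun y => F (x * y, s)) ∈ G.O
  induction hF using Algebra.adjoin_induction with
  | mem F hF =>
    rcases hF with ⟨f, rfl⟩ | ⟨l, rfl⟩
    · exact G.left_mem x f.2
    · exact Subalgebra.algebraMap_mem _ (l s.1)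
  | algebraMap c => exact Subalgebra.algebraMap_mem _ c
  | add F F' _ _ ih ih' => exact Subalgebra.add_mem _ ih ih'
  | mul F F' _ _ ih ih' => exact Subalgebra.mul_mem _ ih ih'

/-- `s + t v` -/
def Sl.add {G : AffGrp} {e f : G.Lie} (s : G.Sl e f) (v : G.Lie) (hv : G.ad f v = 0) (t : ℂ) :
    G.Sl e f :=
  ⟨s.1 + t • v, by
    have h := s.2
    have h1 : s.1 + t • v - e = (s.1 - e) + t • v := by abel
    have h2 : G.br f (s.1 + t • v - e) = G.ad f (s.1 + t • v - e) := rfl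
    rw [h2, h1, map_add, map_smul, hv, smul_zero, add_zero]
    exact h⟩

/-- The derivative of the function `F` on `G × S` at `(x, s)` in the direction of the tangent vector
`(D, v)`, `D ∈ 𝔤` (left trivialisation), `v ∈ 𝔤_f`. -/
noncomputable def dF {e f : G.Lie} (F : G.slO e f) (x : G.X) (s : G.Sl e f) (D v : G.Lie)
    (hv : G.ad f v = 0) : ℂ :=
  D.1 ⟨fun y => F.1 (x * y, s), G.slO_mem F x s⟩ + deriv (fun t : ℂ => F.1 (x, s.add v hv t)) 0

end AffGrp

variable (G : AffGrp)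

/-- `P` is the cotangent bundle of `G^I` with the actions of `G^I` (by left multiplication) and of
`G^J` (by right multiplication, through the bijection `u : I ≃ J`). For `u = Equiv.refl` this is the
identity morphism of `G^I`, in general it is the isomorphism of `G^I` and `G^J` given by `u`. -/
def IsCyl {I J : Type} [Finite I] [Finite J] (u : I ≃ J) (P : Ham (G.pow I) (G.pow J)) : Prop :=
  ∃ Θ : P.A ≃ₐ[ℂ] (G.pow I).cotO,
    (∀ h k a x ξ, (Θ (P.act (h, k) a)).1 (x, ξ) =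
      (Θ a).1 (h⁻¹ * x * G.rb u k, ξ ∘ₗ (G.pow I).Ad (G.rb u k))) ∧
    (∀ D x ξ, (Θ (P.μ D)).1 (x, ξ) = ξ ((G.pow I).Ad x⁻¹ D)) ∧
    (∀ D x ξ, (Θ (P.ν D)).1 (x, ξ) = ξ (G.lmap u D)) ∧
    ∀ a b : P.A, (∀ x ξ η, (Θ a).1 (x, ξ) = (Θ a).1 (x, η)) →
      (∀ x ξ η, (Θ b).1 (x, ξ) = (Θ b).1 (x, η)) → P.br a b = 0

/-- `P` is the product of `M` and `N`. -/
def IsUnion {I J I' J' : Type} [Finite I] [Finite J] [Finite I'] [Finite J']
    (M : Ham (G.pow I) (G.pow J)) (N : Ham (G.pow I') (G.pow J'))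
    (P : Ham (G.pow (I ⊕ I')) (G.pow (J ⊕ J'))) : Prop :=
  ∃ Θ : (M.A ⊗[ℂ] N.A) ≃ₐ[ℂ] P.A,
    (∀ a b, Θ (tbr M.toPAlg N.toPAlg a b) = P.br (Θ a) (Θ b)) ∧
    (∀ h k a b, P.act (h, k) (Θ (a ⊗ₜ b)) =
      Θ (M.act (G.rb Sum.inl h, G.rb Sum.inl k) a ⊗ₜ N.act (G.rb Sum.inr h, G.rb Sum.inr k) b)) ∧
    (∀ D, P.μ D = Θ (M.μ (G.lmap Sum.inl D) ⊗ₜ 1 + 1 ⊗ₜ N.μ (G.lmap Sum.inr D))) ∧
    ∀ D, P.ν D = Θ (M.ν (G.lmap Sum.inl D) ⊗ₜ 1 + 1 ⊗ₜ N.ν (G.lmap Sum.inr D))

/-- `P` is the symplectic variety `G × S ⊂ T^*G`, `S = e + 𝔤_f`, with `G` acting by left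
multiplication and moment map `(x, s) ↦ Ad x s` (`𝔤 = 𝔤^*` by the Killing form). The bracket is
given by the restriction `κ(u, B) - κ(v, A) - κ(s, [A, B])` of the canonical symplectic form:
`{a, b} = d b (X)` for the vector field `X` with `ω(X, -) = d a`. -/
def IsKostant (e f : G.Lie) (P : Ham (G.pow PUnit) (G.pow PEmpty)) : Prop :=
  ∃ Θ : P.A ≃ₐ[ℂ] G.slO e f,
    (∀ h k a x s, (Θ (P.act (h, k) a)).1 (x, s) = (Θ a).1 ((h PUnit.unit)⁻¹ * x, s)) ∧
    (∀ D x s, (Θ (P.μ D)).1 (x, s) = G.killing (G.lpr PUnit.unit D) (G.Ad x s.1)) ∧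
    ∀ a x s, ∃ (A u : G.Lie) (hu : G.ad f u = 0),
      (∀ (B v : G.Lie) (hv : G.ad f v = 0),
        G.killing u B - G.killing v A - G.killing s.1 (G.br A B) = G.dF (Θ a) x s B v hv) ∧
      ∀ b, (Θ (P.br a b)).1 (x, s) = G.dF (Θ b) x s A u hu

/-- A two-dimensional TQFT with values in `MT`, `S^1 ↦ G`, disc `↦ G × S`. -/
def TQFT (e f : G.Lie) : Prop :=
  ∃ η : ∀ (I J : Type) [Finite I] [Finite J], Cob I J → Ham (G.pow I) (G.pow J),
    (∀ (I J : Type) [Finite I] [Finite J] (S T : Cob I J), S.Iso T → (η I J S).Iso (η I J T)) ∧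
    (∀ (I J K : Type) [Finite I] [Finite J] [Finite K] (S : Cob I J) (T : Cob J K),
      IsComp (η I J S) (η J K T) (η I K (S.comp T))) ∧
    (∀ (I J : Type) [Finite I] [Finite J] (u : I ≃ J), IsCyl G u (η I J (Cob.cyl u))) ∧
    (∀ (I J I' J' : Type) [Finite I] [Finite J] [Finite I'] [Finite J'] (S : Cob I J)
      (T : Cob I' J'), IsUnion G (η I J S) (η I' J' T) (η (I ⊕ I') (J ⊕ J') (S.union T))) ∧
    IsKostant G e f (η PUnit PEmpty Cob.disc) ∧
    ∀ (I J : Type) [Finite I] [Finite J] (S : Cob I J),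
      InMT (η I J S).toPAlg ∧ (η I J S).Iso (η I J S).neg

/-- `(e, h, f)` is a principal `sl_2`-triple: the centraliser of `e` has the least possible
dimension. -/
def Principal (e h f : G.Lie) : Prop :=
  G.br h e = (2 : ℂ) • e ∧ G.br h f = (-2 : ℂ) • f ∧ G.br e f = h ∧
    ∀ x : G.Lie, Module.finrank ℂ (LinearMap.ker (G.ad e)) ≤ Module.finrank ℂ (LinearMap.ker (G.ad x))

end Pool.Agent.MTF
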