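import Pool.Agent.MTF.Leg

/-!
# MTF : the TQ datum

`TQD` : data, `TQ` : the properties used in parts L (weight sections, strong lifts) and C (joining and
self-glueing).  `K` is a field over `ℂ` with an action of the finite group `W`, `A ⊂ K` the ring of
polynomial functions on the Cartan subalgebra, `X` the weight lattice.
-/

namespace Pool.Agent.MTF

open AffGrp

/-- An algebraic matrix representation. -/
structure Rep (G : AffGrp) where
  ι : Type
  [ft : Fintype ι]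
  [de : DecidableEq ι]
  ρ : G.X →* Matrix ι ι ℂ
  mem : ∀ a b, (fun x => ρ x a b) ∈ G.O

attribute [instance] Rep.ft Rep.de

/-- matrix coefficients -/
def Rep.co {G : AffGrp} (E : Rep G) (a b : E.ι) : G.O := ⟨_, E.mem a b⟩

/-- `F ↦ (y ↦ F (y x))` on regular functions -/
def AffGrp.rt (G : AffGrp) (x : G.X) : G.O →ₗ[ℂ] G.O where
  toFun f := ⟨fun y => f.1 (y * x), G.right_mem x f.2⟩
  map_add' _ _ := rfl
  map_smul' _ _ := rfl

/-- the sign `±1` of a leg: `true` is `+`, `false` is `-` -/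
def sgn (b : Bool) : ℤ := if b then 1 else -1

section act
variable {K W : Type} [Field K] [Algebra ℂ K] [Group W] [MulSemiringAction W K] [SMulCommClass W ℂ K]

/-- The action of `W` on functions, through the coefficients. -/
def wO (H : AffGrp) (w : W) : H.KO K →+* H.KO K := H.mapK (MulSemiringAction.toAlgHom ℂ K w)

theorem wO_apply (H : AffGrp) (w : W) (F : H.KO K) (x : H.X) : (wO H w F).1 x = w • F.1 x := rfl

end act

/-- The data. `A` the polynomial functions, `val` the weights as linear forms, `N` the norm of a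
weight, `Eu` the Euler class, `sg` the sign of `W`, `Δ l` the discriminant of the stabiliser of `l`,
`s = ∑ c j • D j` the generic slice element. -/
structure TQD (G : AffGrp) (K W X : Type) [Field K] [Algebra ℂ K] [Group W] [AddCommGroup X] where
  A : Subalgebra ℂ K
  val : X →+ K
  N : X → ℕ
  Eu : X → K
  sg : W → ℤˣ
  Δ : X → K
  r : ℕ
  D : Module.Basis (Fin r) ℂ G.Lie
  c : Fin r → K

/-- Families `(F_m)`, `m ∈ X`, of functions on `G^L`. -/
abbrev RR (G : AffGrp) (K X L : Type) [Field K] [Algebra ℂ K] [Finite L] :=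
  AddMonoidAlgebra ((G.pow L).KO K) X

section defs

variable {G : AffGrp} {K W X : Type} [Field K] [Algebra ℂ K] [Group W] [Fintype W]
  [MulSemiringAction W K] [SMulCommClass W ℂ K] [AddCommGroup X] [DistribMulAction W X]
variable {L : Type} [Finite L]

/-- The sum of all components. -/
noncomputable def tot (F : RR G K X L) : (G.pow L).KO K := F.coeff.sum fun _ a => a

namespace TQD

variable (Q : TQD G K W X)

/-- The derivation `s` of functions on `G` (one leg). -/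
noncomputable def s1 : G.KO K →ₗ[K] G.KO K := ∑ j, Q.c j • derK K (Q.D j)

/-- The derivation `s` in the leg `l`. -/
noncomputable def s [DecidableEq L] (l : L) : (G.pow L).KO K →ₗ[K] (G.pow L).KO K :=
  ∑ j, Q.c j • derK K (emb l (Q.D j))

/-- The matrix of `s` in a representation. -/
noncomputable def sE (E : Rep G) : Matrix E.ι E.ι K :=
  fun a b => ∑ j, Q.c j * algebraMap ℂ K ((Q.D j).1 (E.co a b))

open Classical in
/-- `D_l (x) = Δ_l⁻¹ ∑_{w ∈ W_l} sg(w) w(x)`. -/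
noncomputable def Dav (l : X) (x : K) : K :=
  (Q.Δ l)⁻¹ * ∑ w : W, if w • l = l then ((Q.sg w : ℤ) : K) * (w • x) else 0

/-- Regular functions: those with values in `A`. -/
def Reg {H : AffGrp} (F : H.KO K) : Prop := ∀ x, F.1 x ∈ Q.A

/-- The families of genus `g` with signs `ε`.  For `g = 0` this is only used for nonempty `L`. -/
structure Fam [DecidableEq L] (g : ℕ) (ε : L → Bool) (F : RR G K X L) : Prop where
  wt : ∀ m l, Q.s l (F.coeff m) = Q.val (sgn (ε l) • m) • F.coeff m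
  inv : ∀ (w : W) m, wO _ w (F.coeff m) = F.coeff (w • m)
  reg0 : g = 0 → Q.Reg (tot F)
  regS : ∀ m k, 0 < g → (Q.Eu m ^ (g - 1))⁻¹ * (F.coeff m).1 k ∈ Q.A

/-- Families with values in `E` (a slot of sign `+`). -/
structure Fam1 [DecidableEq L] (g : ℕ) (ε : L → Bool) (E : Rep G) (φ : E.ι → RR G K X L) : Prop where
  fam : ∀ a, Q.Fam g ε (φ a)
  slot : ∀ m a, ∑ b, Q.sE E a b • (φ b).coeff m = Q.val m • (φ a).coeff m

/-- Families with values in the dual of `E` (a slot of sign `-`). -/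
structure Fam1' [DecidableEq L] (g : ℕ) (ε : L → Bool) (E : Rep G) (φ : E.ι → RR G K X L) : Prop where
  fam : ∀ a, Q.Fam g ε (φ a)
  slot : ∀ m a, ∑ b, Q.sE E b a • (φ b).coeff m = Q.val m • (φ a).coeff m

/-- Families with values in `Hom(E', E)`. -/
structure Fam2 [DecidableEq L] (g : ℕ) (ε : L → Bool) (E E' : Rep G)
    (φ : E.ι → E'.ι → RR G K X L) : Prop where
  fam : ∀ a a', Q.Fam g ε (φ a a')
  slot : ∀ m a a', ∑ b, Q.sE E a b • (φ b a').coeff m = Q.val m • (φ a a').coeff m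
  slot' : ∀ m a a', ∑ b, Q.sE E' b a' • (φ a b).coeff m = Q.val m • (φ a a').coeff m

/-- `support ⊂ W l ∪ {N < N l}`. -/
def SuppLe (l : X) (F : RR G K X L) : Prop :=
  ∀ m, F.coeff m ≠ 0 → (∃ w : W, m = w • l) ∨ Q.N m < Q.N l

/-- `Hom_J(E, E')`: matrices with entries in `A^W` intertwining `s`. -/
structure HomJ (E E' : Rep G) (T : Matrix E'.ι E.ι K) : Prop where
  mem : ∀ a b, T a b ∈ Q.A
  inv : ∀ (w : W) a b, w • T a b = T a b
  comm : Q.sE E' * T = T * Q.sE E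

/-- `V` is a highest weight representation for `l`, with the weight sections `v` and `v'` (of the
dual). -/
structure HW (l : X) (V : Rep G) (v v' : V.ι → K) : Prop where
  v_mem : ∀ a, v a ∈ Q.A
  v'_mem : ∀ a, v' a ∈ Q.A
  v_inv : ∀ w : W, w • l = l → ∀ a, w • v a = v a
  v'_inv : ∀ w : W, w • l = l → ∀ a, w • v' a = v' a
  v_eig : (Q.sE V).mulVec v = Q.val l • v
  v'_eig : (Q.sE V).vecMul v' = Q.val l • v'
  pair : ∑ a, v a * v' a = Q.Eu l
  uniq : ∀ r : V.ι → K, (Q.sE V).mulVec r = Q.val l • r → (∃ x : K, r = x • v) ∧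
      ((∀ a, r a ∈ Q.A) → ∃ x ∈ Q.A, r = x • v)
  uniq' : ∀ r : V.ι → K, (Q.sE V).vecMul r = Q.val l • r → (∃ x : K, r = x • v') ∧
      ((∀ a, r a ∈ Q.A) → ∃ x ∈ Q.A, r = x • v')
  wts : ∀ (m : X) (r : V.ι → K), r ≠ 0 → ((Q.sE V).mulVec r = Q.val m • r ∨
      (Q.sE V).vecMul r = Q.val m • r) → (∃ w : W, m = w • l) ∨ Q.N m < Q.N l

end TQD

/-- The properties. -/
structure TQ (Q : TQD G K W X) : Prop where
  wA : ∀ (w : W) x, x ∈ Q.A → w • x ∈ Q.A
  val_mem : ∀ m, Q.val m ∈ Q.A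
  val_inj : Function.Injective Q.val
  val_w : ∀ (w : W) m, Q.val (w • m) = w • Q.val m
  N_w : ∀ (w : W) m, Q.N (w • m) = Q.N m
  N_neg : ∀ m, Q.N (-m) = Q.N m
  Eu_mem : ∀ m, Q.Eu m ∈ Q.A
  Eu_ne : ∀ m, Q.Eu m ≠ 0
  Eu_w : ∀ (w : W) m, Q.Eu (w • m) = w • Q.Eu m
  Eu_neg : ∀ m, ∃ u : ℂ, u ≠ 0 ∧ Q.Eu (-m) = algebraMap ℂ K u * Q.Eu m
  Eu_zero : Q.Eu 0 = 1
  Eu_add : ∀ m m', ∃ a ∈ Q.A, Q.Eu m * Q.Eu m' = a * Q.Eu (m + m')
  sg_one : Q.sg 1 = 1
  sg_mul : ∀ w w' : W, Q.sg (w * w') = Q.sg w * Q.sg w'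
  Δ_mem : ∀ m, Q.Δ m ∈ Q.A
  Δ_ne : ∀ m, Q.Δ m ≠ 0
  Δ_w : ∀ (w : W) m, w • m = m → w • Q.Δ m = ((Q.sg w : ℤ) : K) * Q.Δ m
  /-- divisibility of antisymmetric elements -/
  Dav_mem : ∀ l x, x ∈ Q.A → Q.Dav l x ∈ Q.A
  /-- dual bases of `A` over `A^{W_l}` -/
  db : ∀ l, ∃ (n : ℕ) (a b : Fin n → K), (∀ i, a i ∈ Q.A) ∧ (∀ i, b i ∈ Q.A) ∧
    (∑ i, a i * b i = Q.Δ l) ∧ ∀ w : W, w • l = l → w ≠ 1 → ∑ i, a i * (w • b i) = 0
  c_mem : ∀ j, Q.c j ∈ Q.A
  c_w : ∀ (w : W) j, w • Q.c j = Q.c j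
  /-- decomposition -/
  dec : ∀ E : Rep G, ∃ Ω : Finset X,
    Polynomial.aeval (Q.sE E) (∏ m ∈ Ω, (Polynomial.X - Polynomial.C (Q.val m))) = 0
  /-- pole bound -/
  pb : ∀ (l : X) (F : X →₀ G.KO K), (∀ m, Q.s1 (F m) = Q.val m • F m) →
    Q.Reg (F.sum fun _ a => a) → (∀ m, F m ≠ 0 → Q.N m ≤ Q.N l) → Q.Reg (Q.Eu l • F l)
  /-- frames of the weight sections -/
  fl : ∀ (E : Rep G) (l : X), ∃ (n : ℕ) (e : Fin n → E.ι → K) (c : Fin n → (E.ι → K) →ₗ[K] K),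
    (∀ j, (∀ a, e j a ∈ Q.A) ∧ (Q.sE E).mulVec (e j) = Q.val l • e j) ∧
    ∀ r : E.ι → K, (Q.sE E).mulVec r = Q.val l • r → (r = ∑ j, c j r • e j) ∧
      ((∀ a, r a ∈ Q.A) → ∀ j, c j r ∈ Q.A)
  /-- strong lifts, all signs `+` -/
  sl : ∀ (L : Type) [Finite L] [Fintype L] [DecidableEq L] [Nonempty L] (l : X) (f : L → G.KO K)
    (a : K), a ∈ Q.A → (∀ i, Q.s1 (f i) = Q.val l • f i ∧ Q.Reg (f i)) →
    ∃ T : RR G K X L, Q.Fam 0 (fun _ => true) T ∧ Q.SuppLe l T ∧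
      ∀ k, (T.coeff l).1 k = (Q.Eu l)⁻¹ * Q.Dav l (a * ∏ i, (f i).1 (k i))
  /-- highest weight representations -/
  hw : ∀ l : X, ∃ (V : Rep G) (v v' : V.ι → K), Q.HW (W := W) l V v v'
  /-- complete reducibility -/
  cr : ∃ I : Module.Dual ℂ G.O, I 1 = 1 ∧ (∀ x f, I (G.lt x f) = I f) ∧ ∀ x f, I (G.rt x f) = I f
  kill : ∀ D : G.Lie, (∀ E, G.killing D E = 0) → D = 0
  /-- extension from the slice -/
  ext : ∀ (E : Rep G) (P : E.ι → K), (∀ a, P a ∈ Q.A) → (∀ (w : W) a, w • P a = P a) →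
    (Q.sE E).mulVec P = 0 → ∃ p : E.ι → MvPolynomial (Fin Q.r) ℂ,
      (∀ a, MvPolynomial.aeval Q.c (p a) = P a) ∧
      ∀ (g : G.X) (y : Fin Q.r → ℂ) (a : E.ι),
        MvPolynomial.eval (fun i => Q.D.repr (G.Ad g (∑ j, y j • Q.D j)) i) (p a) =
          ∑ b, E.ρ g a b * MvPolynomial.eval y (p b)

end defs

end Pool.Agent.MTF
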