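import Pool.Agent.MTF.Y0

set_option linter.unusedSectionVars false

namespace Pool.Agent.MTF

open AffGrp

section
variable {G : AffGrp} {K W X : Type} [Field K] [Algebra ℂ K] [Group W] [Fintype W]
  [MulSemiringAction W K] [SMulCommClass W ℂ K] [AddCommGroup X] [DistribMulAction W X]
variable {L : Type} [Finite L] [DecidableEq L]
variable {Q : TQD G K W X}

theorem y1_dualfam {ι V : Type} [Fintype ι] [DecidableEq ι] [AddCommGroup V] [Module ℂ V] {φ : ι → V}
    (hφ : LinearIndependent ℂ φ) :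
    ∃ α : ι → Module.Dual ℂ V, ∀ a b, α a (φ b) = if a = b then 1 else 0 := by
  have h1 : ∀ a : ι, ∃ g : V →ₗ[ℂ] ℂ, g ∘ₗ (Submodule.span ℂ (Set.range φ)).subtype =
      (Module.Basis.span hφ).coord a := fun a => LinearMap.exists_extend _
  choose α hα using h1
  refine ⟨α, fun a b => ?_⟩
  have h2 := LinearMap.congr_fun (hα a) (Module.Basis.span hφ b)
  rw [LinearMap.comp_apply, Module.Basis.coord_apply, Module.Basis.repr_self] at h2
  have h3 : (Submodule.span ℂ (Set.range φ)).subtype (Module.Basis.span hφ b) = φ b :=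
    congrArg Subtype.val (Module.Basis.span_apply hφ b)
  rw [h3] at h2
  rw [h2, Finsupp.single_apply]
  by_cases hab : a = b
  · rw [if_pos hab, if_pos hab.symm]
  · rw [if_neg hab, if_neg (Ne.symm hab)]

/-- (row Y1) A regular `W`-invariant function killed by `s` is `k ↦ H(Ad_k s)`.
PROOF. `KO_rep F`: `F = ∑ c_i f_i`.  `LP.exists_rep f`: `E`, `φ` linearly independent, `f i ∈ span (range φ)`; so `F = ∑ a, P a • inc K (φ a)`, `P : E.ι → K`.
Dual functionals `α a : Module.Dual ℂ G.O`, `α a (φ b) = if a = b then 1 else 0` (`LinearIndependent`, extend a basis; or `LinearMap.exists_extend` of the coordinate of the span).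
`P a = ext K (α a) F`: so `P a ∈ A` (`LP.ext_mem`) and `w • P a = P a` (`ext_mapK`, `h.inv`).  `0 = Q.s1 F = ∑ a, P a • ∑ b, sE b a • inc (φ b)` (`LP.s1_phi`); apply
`ext K (α b)`: `∑ a, sE b a * P a = 0`, i.e. `(Q.sE E).mulVec P = 0`.  `hT.ext E P` gives `p`.
`φ a (k) = φ a (1 * k) = ∑ b, φ b (1) * E.ρ k b a`, so `F k = ∑ b, φ b (1) * ∑ a, E.ρ k b a * P a`.  CLAIM: `∑ a, E.ρ k b a * P a = aeval (Q.adc k) (p b)`: the second
property of `p` is an identity of polynomials in `y` (`MvPolynomial.funext`): `aeval (fun i => ∑ j, C (repr (Ad k (D j)) i) * X j) (p b) = ∑ a, C (E.ρ k b a) * p a`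
(`repr (Ad k (∑ y j • D j)) i = ∑ j, y j * repr (Ad k (D j)) i`); apply `aeval Q.c`.  `H := ∑ b, C (φ b 1) * p b`. -/
theorem kostant1 (hT : TQ Q) {F : G.KO K} (h : Q.RI F) (hs : Q.s1 F = 0) :
    ∃ H : MvPolynomial (Fin Q.r) ℂ, ∀ k, F.1 k = MvPolynomial.aeval (Q.adc k) H := by
  obtain ⟨n, c, f, hF⟩ := KO_eq_sum F
  obtain ⟨E, φ, hφ, hrho, hspan⟩ := LP.exists_rep f
  obtain ⟨α, hα⟩ := y1_dualfam hφ
  have hf : ∀ i, f i = ∑ a, α a (f i) • φ a := by
    intro i
    obtain ⟨d, hd⟩ := (Submodule.mem_span_range_iff_exists_fun ℂ).1 (hspan i)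
    have h1 : ∀ b, α b (f i) = d b := by
      intro b
      rw [← hd, map_sum, Finset.sum_eq_single b]
      · rw [map_smul, hα, if_pos rfl, smul_eq_mul, mul_one]
      · intro a _ hab
        rw [map_smul, hα, if_neg (Ne.symm hab), smul_zero]
      · intro h; exact absurd (Finset.mem_univ b) h
    rw [Finset.sum_congr rfl fun a _ => by rw [h1 a]]
    exact hd.symm
  have hP : ∀ a, ext K (α a) F = ∑ i, c i * algebraMap ℂ K (α a (f i)) := by
    intro a
    rw [hF, map_sum]
    refine Finset.sum_congr rfl fun i _ => ?_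
    rw [map_smul, ext_inc, smul_eq_mul]
  have hFx : ∀ x, F.1 x = ∑ a, ext K (α a) F * algebraMap ℂ K ((φ a).1 x) := by
    intro x
    have h1 : ∀ i, (f i).1 x = ∑ a, α a (f i) * (φ a).1 x := by
      intro i
      have h2 := congrArg (fun g : G.O => g.1 x) (hf i)
      have h3 : (∑ a, α a (f i) • φ a : G.O).1 x = ∑ a, α a (f i) * (φ a).1 x := by
        rw [AddSubmonoidClass.coe_finsetSum, Finset.sum_apply]
        rfl
      exact h2.trans h3
    conv_lhs => rw [hF]
    rw [KO_sum]
    simp only [hP, Finset.sum_mul]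
    rw [Finset.sum_comm]
    refine Finset.sum_congr rfl fun i _ => ?_
    rw [KO_smul, inc_apply, h1 i, map_sum, Finset.mul_sum]
    refine Finset.sum_congr rfl fun a _ => ?_
    rw [map_mul, mul_assoc]
  have hFe : F = ∑ a, ext K (α a) F • inc K (φ a) := by
    apply KO_ext
    intro x
    rw [hFx x, KO_sum]
    rfl
  have hPA : ∀ a, ext K (α a) F ∈ Q.A := fun a => LP.ext_mem Q.A h.reg (α a)
  have hPw : ∀ (w : W) a, w • ext K (α a) F = ext K (α a) F := by
    intro w a
    have h1 := ext_mapK (α a) (MulSemiringAction.toAlgHom ℂ K w) F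
    have h2 : G.mapK (MulSemiringAction.toAlgHom ℂ K w) F = F := h.inv w
    rw [h2] at h1
    exact h1.symm
  have hPe : (Q.sE E).mulVec (fun a => ext K (α a) F) = 0 := by
    funext b
    have h1 : Q.s1 F = ∑ a, ext K (α a) F • ∑ b, Q.sE E b a • inc K (φ b) := by
      conv_lhs => rw [hFe]
      rw [map_sum]
      refine Finset.sum_congr rfl fun a _ => ?_
      rw [map_smul, LP.s1_phi hrho]
    rw [hs] at h1
    have h2 := congrArg (ext K (α b)) h1
    rw [map_zero, map_sum] at h2
    rw [Pi.zero_apply, h2]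
    show ∑ a, Q.sE E b a * ext K (α a) F = _
    refine Finset.sum_congr rfl fun a _ => ?_
    rw [map_smul, map_sum, Finset.sum_eq_single b]
    · rw [map_smul, ext_inc, hα, if_pos rfl, map_one, smul_eq_mul, smul_eq_mul, mul_one, mul_comm]
    · intro b' _ hb
      rw [map_smul, ext_inc, hα, if_neg (Ne.symm hb), map_zero, smul_zero]
    · intro h; exact absurd (Finset.mem_univ b) h
  obtain ⟨p, hp1, hp2⟩ := hT.ext E (fun a => ext K (α a) F) hPA hPw hPe
  have claim : ∀ (k : G.X) (b : E.ι), ∑ a, algebraMap ℂ K (E.ρ k b a) * ext K (α a) F =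
      MvPolynomial.aeval (Q.adc k) (p b) := by
    intro k b
    have h1 : MvPolynomial.bind₁ (fun i => ∑ j, MvPolynomial.C (Q.D.repr (G.Ad k (Q.D j)) i) *
        MvPolynomial.X j) (p b) = ∑ a, MvPolynomial.C (E.ρ k b a) * p a := by
      apply MvPolynomial.funext
      intro y
      have h2 := hp2 k y b
      have h3 : MvPolynomial.eval y (MvPolynomial.bind₁ (fun i => ∑ j,
          MvPolynomial.C (Q.D.repr (G.Ad k (Q.D j)) i) * MvPolynomial.X j) (p b)) =
          MvPolynomial.eval (fun i => Q.D.repr (G.Ad k (∑ j, y j • Q.D j)) i) (p b) := by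
        have h4 : (fun i => Q.D.repr (G.Ad k (∑ j, y j • Q.D j)) i) = fun i =>
            MvPolynomial.eval y (∑ j, MvPolynomial.C (Q.D.repr (G.Ad k (Q.D j)) i) *
              MvPolynomial.X j) := by
          funext i
          rw [map_sum, map_sum, Finsupp.finsetSum_apply, map_sum]
          refine Finset.sum_congr rfl fun j _ => ?_
          rw [map_smul, map_smul, Finsupp.smul_apply, map_mul, MvPolynomial.eval_C,
            MvPolynomial.eval_X, smul_eq_mul, mul_comm]
        rw [h4]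
        have h5 := MvPolynomial.aeval_bind₁ (R := ℂ) (S := ℂ) y (fun i => ∑ j,
          MvPolynomial.C (Q.D.repr (G.Ad k (Q.D j)) i) * MvPolynomial.X j) (p b)
        simpa [MvPolynomial.coe_aeval_eq_eval] using h5
      rw [h3, h2, map_sum]
      refine Finset.sum_congr rfl fun a _ => ?_
      rw [map_mul, MvPolynomial.eval_C]
    have h6 := congrArg (MvPolynomial.aeval Q.c) h1
    rw [MvPolynomial.aeval_bind₁, map_sum] at h6
    have h7 : (fun i => MvPolynomial.aeval Q.c (∑ j, MvPolynomial.C (Q.D.repr (G.Ad k (Q.D j)) i) *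
        MvPolynomial.X j)) = Q.adc k := by
      funext i
      rw [map_sum]
      refine Finset.sum_congr rfl fun j _ => ?_
      rw [map_mul, MvPolynomial.aeval_C, MvPolynomial.aeval_X, mul_comm]
    rw [h7] at h6
    rw [h6]
    refine Finset.sum_congr rfl fun a _ => ?_
    rw [map_mul, MvPolynomial.aeval_C, hp1]
  refine ⟨∑ b, MvPolynomial.C ((φ b).1 1) * p b, fun k => ?_⟩
  rw [hFx k, map_sum]
  have h8 : ∀ b, MvPolynomial.aeval (Q.adc k) (MvPolynomial.C ((φ b).1 1) * p b) =
      ∑ a, algebraMap ℂ K ((φ b).1 1) * (algebraMap ℂ K (E.ρ k b a) * ext K (α a) F) := by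
    intro b
    rw [map_mul, MvPolynomial.aeval_C, ← claim k b, Finset.mul_sum]
  rw [Finset.sum_congr rfl fun b _ => h8 b, Finset.sum_comm]
  refine Finset.sum_congr rfl fun a _ => ?_
  have h9 := hrho 1 k a
  rw [one_mul] at h9
  rw [h9, map_sum, Finset.mul_sum]
  refine Finset.sum_congr rfl fun b _ => ?_
  rw [map_mul]
  ring

theorem y1_ad_add (E E' : G.Lie) : G.ad (E + E') = G.ad E + G.ad E' := by
  apply LinearMap.ext
  intro F
  apply Subtype.ext
  apply LinearMap.ext
  intro f
  have h : G.der (E + E') f = G.der E f + G.der E' f := rfl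
  show (E + E').1 (G.der F f) - F.1 (G.der (E + E') f) =
    (E.1 (G.der F f) - F.1 (G.der E f)) + (E'.1 (G.der F f) - F.1 (G.der E' f))
  rw [h, map_add]
  show (E.1 (G.der F f) + E'.1 (G.der F f)) - _ = _
  ring

theorem y1_ad_smul (a : ℂ) (E : G.Lie) : G.ad (a • E) = a • G.ad E := by
  apply LinearMap.ext
  intro F
  apply Subtype.ext
  apply LinearMap.ext
  intro f
  have h : G.der (a • E) f = a • G.der E f := rfl
  show (a • E).1 (G.der F f) - F.1 (G.der (a • E) f) = a * (E.1 (G.der F f) - F.1 (G.der E f))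
  rw [h, map_smul]
  show a * E.1 (G.der F f) - a * F.1 (G.der E f) = _
  ring

/-- the Killing form, linear in the second variable -/
noncomputable def y1_kl (D : G.Lie) : G.Lie →ₗ[ℂ] ℂ where
  toFun E := G.killing D E
  map_add' E E' := by
    show LinearMap.trace ℂ G.Lie (G.ad D ∘ₗ G.ad (E + E')) = _
    rw [y1_ad_add, LinearMap.comp_add, map_add]
    rfl
  map_smul' a E := by
    show LinearMap.trace ℂ G.Lie (G.ad D ∘ₗ G.ad (a • E)) = _
    rw [y1_ad_smul, LinearMap.comp_smul, map_smul]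
    rfl

theorem y1_kl_comm (D E : G.Lie) : G.killing D E = G.killing E D := by
  show LinearMap.trace ℂ G.Lie (G.ad D ∘ₗ G.ad E) = LinearMap.trace ℂ G.Lie (G.ad E ∘ₗ G.ad D)
  exact LinearMap.trace_mul_comm ℂ (G.ad D) (G.ad E)

theorem y1_kl_sum (Q : TQD G K W X) (D E : G.Lie) :
    G.killing D E = ∑ i, Q.D.repr E i * G.killing D (Q.D i) := by
  have h1 : y1_kl D E = y1_kl D (∑ i, Q.D.repr E i • Q.D i) := by rw [Q.D.sum_repr]
  rw [map_sum] at h1
  refine h1.trans (Finset.sum_congr rfl fun i _ => ?_)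
  rw [map_smul]
  rfl

/-- The Gram matrix of the Killing form is invertible.
PROOF. `g j i := G.killing (D j) (D i)`; `G.killing (D j)` is linear in the second variable (trace), so `Q.muv k j = ∑ i, g j i * Q.adc k i` (expand `Ad k (D l)` in the basis).
The matrix `g` has trivial left kernel: `∑ j, v j * g j i = 0` for all `i` gives `killing (∑ v j • D j) E = 0` for all `E`, so `∑ v j • D j = 0` (`hT.kill`), `v = 0`.  So it is
invertible (`Matrix.exists_vecMul_eq_zero_iff` / `det ≠ 0`) and `M := g⁻¹`. -/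
theorem adc_muv (hT : TQ Q) : ∃ M : Fin Q.r → Fin Q.r → ℂ,
    (∀ k i, Q.adc k i = ∑ j, algebraMap ℂ K (M i j) * Q.muv k j) ∧
    ∃ M' : Fin Q.r → Fin Q.r → ℂ, (∀ k j, Q.muv k j = ∑ i, algebraMap ℂ K (M' j i) * Q.adc k i) ∧
      ∀ i j, ∑ l, M i l * M' l j = if i = j then 1 else 0 := by
  let g : Matrix (Fin Q.r) (Fin Q.r) ℂ := fun j i => G.killing (Q.D j) (Q.D i)
  have hg : ∀ k j, Q.muv k j = ∑ i, algebraMap ℂ K (g j i) * Q.adc k i := by
    intro k j
    show ∑ l, Q.c l * algebraMap ℂ K (G.killing (Q.D j) (G.Ad k (Q.D l))) = _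
    have h1 : ∀ l, Q.c l * algebraMap ℂ K (G.killing (Q.D j) (G.Ad k (Q.D l))) =
        ∑ i, algebraMap ℂ K (g j i) * (Q.c l * algebraMap ℂ K (Q.D.repr (G.Ad k (Q.D l)) i)) := by
      intro l
      rw [y1_kl_sum Q, map_sum, Finset.mul_sum]
      refine Finset.sum_congr rfl fun i _ => ?_
      rw [map_mul]
      show _ = algebraMap ℂ K (G.killing (Q.D j) (Q.D i)) * _
      ring
    rw [Finset.sum_congr rfl fun l _ => h1 l, Finset.sum_comm]
    refine Finset.sum_congr rfl fun i _ => ?_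
    rw [← Finset.mul_sum]
    rfl
  have hdet : g.det ≠ 0 := by
    intro h0
    obtain ⟨v, hv, hvg⟩ := Matrix.exists_vecMul_eq_zero_iff.2 h0
    apply hv
    have h1 : ∑ j, v j • Q.D j = 0 := by
      apply hT.kill
      intro E
      rw [y1_kl_sum Q]
      refine Finset.sum_eq_zero fun i _ => ?_
      have h2 : G.killing (∑ j, v j • Q.D j) (Q.D i) = ∑ j, v j * g j i := by
        rw [y1_kl_comm]
        show y1_kl (Q.D i) (∑ j, v j • Q.D j) = _
        rw [map_sum]
        refine Finset.sum_congr rfl fun j _ => ?_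
        rw [map_smul]
        show v j * G.killing (Q.D i) (Q.D j) = v j * G.killing (Q.D j) (Q.D i)
        rw [y1_kl_comm]
      have h3 : ∑ j, v j * g j i = 0 := congrFun hvg i
      rw [h2, h3, mul_zero]
    funext j
    have h4 := congrArg (fun x => Q.D.repr x j) h1
    simpa [Finsupp.single_apply] using h4
  have hu : IsUnit g.det := isUnit_iff_ne_zero.2 hdet
  have hinv : ∀ i j, ∑ l, g⁻¹ i l * g l j = if i = j then 1 else 0 := by
    intro i j
    have h1 := congrFun (congrFun (Matrix.nonsing_inv_mul g hu) i) j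
    rw [Matrix.mul_apply, Matrix.one_apply] at h1
    exact h1
  refine ⟨fun i j => g⁻¹ i j, fun k i => ?_, fun j i => g j i, hg, hinv⟩
  rw [Finset.sum_congr rfl fun j _ => by rw [hg k j]]
  simp only [Finset.mul_sum]
  rw [Finset.sum_comm, Finset.sum_eq_single i]
  · have h5 : ∀ j, algebraMap ℂ K (g⁻¹ i j) * (algebraMap ℂ K (g j i) * Q.adc k i) =
        algebraMap ℂ K (g⁻¹ i j * g j i) * Q.adc k i := by
      intro j
      rw [map_mul, mul_assoc]
    rw [Finset.sum_congr rfl fun j _ => h5 j, ← Finset.sum_mul, ← map_sum, hinv, if_pos rfl, map_one,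
      one_mul]
  · intro i' _ hi
    have h5 : ∀ j, algebraMap ℂ K (g⁻¹ i j) * (algebraMap ℂ K (g j i') * Q.adc k i') =
        algebraMap ℂ K (g⁻¹ i j * g j i') * Q.adc k i' := by
      intro j
      rw [map_mul, mul_assoc]
    rw [Finset.sum_congr rfl fun j _ => h5 j, ← Finset.sum_mul, ← map_sum, hinv, if_neg (Ne.symm hi),
      map_zero, zero_mul]
  · intro h; exact absurd (Finset.mem_univ i) h

/-- the same with the coordinates `Q.muv`: substitute `X i ↦ ∑ j, C (M i j) * X j`. -/
theorem kostant1' (hT : TQ Q) {F : G.KO K} (h : Q.RI F) (hs : Q.s1 F = 0) :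
    ∃ H : MvPolynomial (Fin Q.r) ℂ, ∀ k, F.1 k = MvPolynomial.aeval (Q.muv k) H := by
  obtain ⟨H, hH⟩ := kostant1 hT h hs
  obtain ⟨M, hM, -⟩ := adc_muv hT
  refine ⟨MvPolynomial.bind₁ (fun i => ∑ j, MvPolynomial.C (M i j) * MvPolynomial.X j) H, fun k => ?_⟩
  rw [hH k, MvPolynomial.aeval_bind₁]
  congr 2
  funext i
  rw [hM k i, map_sum]
  refine Finset.sum_congr rfl fun j _ => ?_
  rw [map_mul, MvPolynomial.aeval_C, MvPolynomial.aeval_X]

end

end Pool.Agent.MTF
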