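import Pool.Agent.MTF.Y1
import Pool.Agent.MTF.Y2

set_option linter.unusedSectionVars false

namespace Pool.Agent.MTF

open AffGrp

/-- dual functionals of a linearly independent finite family -/
theorem y3_dual {V : Type} [AddCommGroup V] [Module ℂ V] {n : ℕ} {φ : Fin n → V}
    (hφ : LinearIndependent ℂ φ) :
    ∃ α : Fin n → Module.Dual ℂ V, ∀ a b, α a (φ b) = if a = b then 1 else 0 := by
  have h : Function.Injective (Fintype.linearCombination ℂ φ) := by
    rw [← LinearMap.ker_eq_bot, LinearMap.ker_eq_bot']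
    intro m hm
    rw [Fintype.linearCombination_apply] at hm
    exact funext (Fintype.linearIndependent_iff.1 hφ m hm)
  obtain ⟨g, hg⟩ := LinearMap.exists_leftInverse_of_injective (Fintype.linearCombination ℂ φ)
    (LinearMap.ker_eq_bot.2 h)
  refine ⟨fun a => (LinearMap.proj a) ∘ₗ g, fun a b => ?_⟩
  have e1 : φ b = Fintype.linearCombination ℂ φ (Pi.single b (1 : ℂ)) := by
    rw [Fintype.linearCombination_apply_single, one_smul]
  have e2 := LinearMap.congr_fun hg (Pi.single b (1 : ℂ))
  rw [LinearMap.comp_apply, LinearMap.id_apply, ← e1] at e2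
  rw [LinearMap.comp_apply, e2, LinearMap.proj_apply, Pi.single_apply]

section
variable {G : AffGrp} {K W X : Type} [Field K] [Algebra ℂ K] [Group W] [Fintype W]
  [MulSemiringAction W K] [SMulCommClass W ℂ K] [AddCommGroup X] [DistribMulAction W X]
variable {L : Type} [Finite L] [DecidableEq L]
variable {Q : TQD G K W X}

/-- the translate of the leg `i` is a morphism -/
theorem y3_mem (i : L) (k : G.X) {f : (L → G.X) → ℂ} (hf : f ∈ (G.pow L).O) :
    (fun a : G.X => f (fun l => if l = i then a * k else k)) ∈ G.O := by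
  refine pow_mem G (H := G) (fun (a : G.X) (l : L) => if l = i then a * k else k) (fun l g hg => ?_) hf
  by_cases hl : l = i
  · simp only [hl, if_true]
    exact G.right_mem k hg
  · simp only [hl, if_false]
    exact G.const_mem _

/-- the slice `a ↦ F (l ↦ if l = i then a * k else k)` -/
def y3_F (K : Type) [Field K] [Algebra ℂ K] (i : L) (k : G.X) : (G.pow L).KO K →ₐ[K] G.KO K :=
  comp K (H := G.pow L) (H' := G) (fun (a : G.X) (l : L) => if l = i then a * k else k)
    (fun _ hf => y3_mem i k hf)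

theorem y3_F_apply (i : L) (k a : G.X) (F : (G.pow L).KO K) :
    (y3_F K i k F).1 a = F.1 (fun l => if l = i then a * k else k) := rfl

/-- The coefficients of the splitting are values of functionals. -/
theorem y3_coef (i : L) (F : (G.pow L).KO K) {n : ℕ} {φ : Fin n → G.O} {f : Fin n → G.KO K}
    (h : ∀ a k : G.X, F.1 (fun l => if l = i then a * k else k) =
      ∑ b, algebraMap ℂ K ((φ b).1 a) * (f b).1 k)
    {α : Fin n → Module.Dual ℂ G.O} (hα : ∀ a b, α a (φ b) = if a = b then 1 else 0)
    (b : Fin n) (k : G.X) : (f b).1 k = ext K (α b) (y3_F K i k F) := by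
  classical
  rw [ext_apply (α b) (y3_F K i k F) (fun c => (f c).1 k) φ (fun a => by
    rw [y3_F_apply, h]
    exact Finset.sum_congr rfl fun c _ => mul_comm _ _)]
  rw [Finset.sum_eq_single b]
  · rw [hα, if_pos rfl, map_one, mul_one]
  · intro c _ hc
    rw [hα, if_neg (Ne.symm hc), map_zero, mul_zero]
  · intro hb
    exact absurd (Finset.mem_univ b) hb

/-- Linear independence of the `φ b` over `K`. -/
theorem y3_indep {n : ℕ} {φ : Fin n → G.O} (hφ : LinearIndependent ℂ φ) {c : Fin n → K}
    (h : ∀ a : G.X, ∑ b, algebraMap ℂ K ((φ b).1 a) * c b = 0) (b : Fin n) : c b = 0 := by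
  classical
  obtain ⟨α, hα⟩ := y3_dual hφ
  have h1 := ext_aux (K := K) (α b) c φ (fun x => by
    rw [← h x]
    exact Finset.sum_congr rfl fun c _ => mul_comm _ _)
  rw [Finset.sum_eq_single b] at h1
  · rwa [hα, if_pos rfl, map_one, mul_one] at h1
  · intro c _ hc
    rw [hα, if_neg (Ne.symm hc), map_zero, mul_zero]
  · intro hb
    exact absurd (Finset.mem_univ b) hb

/-- `s1` of the components -/
theorem y3_s1 {i o : L} (hio : i ≠ o) (hL : ∀ l, l = i ∨ l = o)
    {F : (G.pow L).KO K} (hs : Q.s i F + Q.s o F = 0) {n : ℕ} {φ : Fin n → G.O} {f : Fin n → G.KO K}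
    (hφ : LinearIndependent ℂ φ)
    (h : ∀ a k : G.X, F.1 (fun l => if l = i then a * k else k) =
      ∑ b, algebraMap ℂ K ((φ b).1 a) * (f b).1 k) (b : Fin n) : Q.s1 (f b) = 0 := by
  classical
  have := Fintype.ofFinite L
  apply KO_ext
  intro k
  rw [KO_zero]
  refine y3_indep hφ (c := fun b => (Q.s1 (f b)).1 k) (fun a => ?_) b
  have h1 := s1_diag (Q := Q) (fun l : L => if l = i then a else (1 : G.X)) F k
  have e1 : comp K (H := G.pow L) (H' := G) (fun h l => (if l = i then a else (1 : G.X)) * h)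
      (fun _ hf => pow_mem G (H := G) (fun h l => (if l = i then a else (1 : G.X)) * h)
        (fun l _ hg => G.left_mem (if l = i then a else (1 : G.X)) hg) hf) F =
      ∑ b, algebraMap ℂ K ((φ b).1 a) • f b := by
    apply KO_ext
    intro x
    rw [KO_sum, comp_apply]
    have e2 : (fun l : L => (if l = i then a else (1 : G.X)) * x) =
        fun l => if l = i then a * x else x := by
      funext l
      by_cases hl : l = i
      · simp [hl]
      · simp [hl]
    rw [e2, h]
    rfl
  rw [e1, map_sum, KO_sum] at h1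
  have e3 : ∑ l : L, (Q.s l F).1 (fun l => (if l = i then a else (1 : G.X)) * k) = 0 := by
    have hU : (Finset.univ : Finset L) = {i, o} := by
      ext l
      simp only [Finset.mem_univ, Finset.mem_insert, Finset.mem_singleton, true_iff]
      exact hL l
    rw [hU, Finset.sum_insert (by simpa using hio), Finset.sum_singleton, ← KO_add, hs, KO_zero]
  rw [e3] at h1
  rw [← h1]
  refine Finset.sum_congr rfl fun b _ => ?_
  rw [map_smul, KO_smul]

theorem y3_RI (hT : TQ Q) (i : L) {F : (G.pow L).KO K} (hF : Q.RI F) {n : ℕ} {φ : Fin n → G.O}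
    {f : Fin n → G.KO K} (hφ : LinearIndependent ℂ φ)
    (h : ∀ a k : G.X, F.1 (fun l => if l = i then a * k else k) =
      ∑ b, algebraMap ℂ K ((φ b).1 a) * (f b).1 k) (b : Fin n) : Q.RI (f b) := by
  obtain ⟨α, hα⟩ := y3_dual hφ
  have hc := y3_coef i F h hα
  refine ⟨fun k => ?_, fun w => ?_⟩
  · rw [hc]
    exact LP.ext_mem (F := y3_F K i k F) Q.A (fun x => hF.reg (fun l => if l = i then x * k else k)) (α b)
  · apply KO_ext
    intro k
    rw [wO_apply, hc]
    have e1 : wO G w (y3_F K i k F) = y3_F K i k F := by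
      apply KO_ext
      intro x
      rw [wO_apply, y3_F_apply]
      have := congrArg (fun F' : (G.pow L).KO K => F'.1 (fun l => if l = i then x * k else k)) (hF.inv w)
      exact this
    have e2 := ext_mapK (α b) (MulSemiringAction.toAlgHom ℂ K w) (y3_F K i k F)
    have e3 : G.mapK (MulSemiringAction.toAlgHom ℂ K w) (y3_F K i k F) = y3_F K i k F := e1
    rw [e3] at e2
    exact e2.symm

/-- (row Y3) Functions of two legs killed by `s_i + s_o`.
PROOF. `split2 i F`: `φ`, `f`.  Dual functionals `α b` of `φ` (as in Y1).  For fixed `k` the function `a ↦ F (l ↦ if l = i then a * k else k)` is in `G.KO K`, equal to `∑ b, (f b k) • inc (φ b)`,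
so `f b k = ext K (α b) (..)`: `f b` has values in `A` (`LP.ext_mem`) and is `W`-invariant (`ext_mapK`).  `s`: for fixed `a` put `bb l := if l = i then a else 1`; the function
`k ↦ F (bb l * k)` is `∑ b, φ b (a) • f b`; by `s1_diag` `(Q.s1 (..)) k = (Q.s i F + Q.s o F) (..) = 0` (`hL`, `hio`: the sum over `L` has the two terms `i`, `o`).
So `∑ b, φ b (a) * (Q.s1 (f b)) k = 0` for all `a`; linear independence over `K` of the functions `φ b` (`ext K (α b)`) gives `Q.s1 (f b) = 0`.
`kostant1'`: `H b` with `f b k = aeval (Q.muv k) (H b)`.  `H := ∑ b, C (φ b) * MvPolynomial.map (algebraMap ℂ G.O) (H b)`; `F k = F (l ↦ if l = i then (k i * (k o)⁻¹) * k o else k o)`. -/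
theorem cyl_surj (hT : TQ Q) {i o : L} (hio : i ≠ o) (hL : ∀ l, l = i ∨ l = o)
    {F : (G.pow L).KO K} (h : Q.RI F) (hs : Q.s i F + Q.s o F = 0) :
    ∃ H : MvPolynomial (Fin Q.r) G.O, ∀ k, F.1 k = Q.cyE H (k i * (k o)⁻¹) (k o) := by
  obtain ⟨n, φ, f, hφ, hf⟩ := split2 i F
  have h1 := fun b => kostant1' hT (y3_RI hT i h hφ hf b) (y3_s1 hio hL hs hφ hf b)
  choose H hH using h1
  refine ⟨∑ b, MvPolynomial.C (φ b) * MvPolynomial.map (algebraMap ℂ G.O) (H b), fun k => ?_⟩
  have e1 : k = fun l => if l = i then (k i * (k o)⁻¹) * k o else k o := by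
    funext l
    rcases hL l with rfl | rfl
    · rw [if_pos rfl, inv_mul_cancel_right]
    · rw [if_neg (Ne.symm hio)]
  have e2 : F.1 k = F.1 (fun l => if l = i then (k i * (k o)⁻¹) * k o else k o) := congrArg F.1 e1
  rw [e2, hf]
  unfold TQD.cyE
  rw [MvPolynomial.eval₂_sum]
  refine Finset.sum_congr rfl fun b _ => ?_
  rw [MvPolynomial.eval₂_mul, MvPolynomial.eval₂_C, MvPolynomial.eval₂_map, hH]
  have e3 : (evK K (k i * (k o)⁻¹)).comp (algebraMap ℂ G.O) = algebraMap ℂ K := by
    ext c
    rfl
  rw [e3]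
  rfl

end

end Pool.Agent.MTF
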