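import Pool.Agent.MTF.Y0

set_option linter.unusedSectionVars false

namespace Pool.Agent.MTF

open AffGrp

section
variable {G : AffGrp} {K W X : Type} [Field K] [Algebra ℂ K] [Group W] [Fintype W]
  [MulSemiringAction W K] [SMulCommClass W ℂ K] [AddCommGroup X] [DistribMulAction W X]
variable {L : Type} [Finite L] [DecidableEq L]
variable {Q : TQD G K W X}

/-- a larger product kills as well -/
theorem y7_mono {M V : Type} [AddCommGroup M] [Module K M] (S : Module.End K M) (v : V → K)
    {Ω Ω' : Finset V} (h : Ω ⊆ Ω') (x : M)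
    (hx : (Polynomial.aeval S (∏ m ∈ Ω, (Polynomial.X - Polynomial.C (v m))) : Module.End K M) x
      = 0) :
    (Polynomial.aeval S (∏ m ∈ Ω', (Polynomial.X - Polynomial.C (v m))) : Module.End K M) x = 0 := by
  classical
  rw [← Finset.prod_sdiff h, map_mul, Module.End.mul_apply, hx, map_zero]

/-- Lagrange decomposition -/
theorem y7_lag {M V : Type} [AddCommGroup M] [Module K M] (S : Module.End K M) (v : V → K)
    (hv : Function.Injective v) (Ω : Finset V) (x : M)
    (hx : (Polynomial.aeval S (∏ m ∈ Ω, (Polynomial.X - Polynomial.C (v m))) : Module.End K M) x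
      = 0) :
    ∃ p : V → Polynomial K, (∀ m, m ∉ Ω → p m = 0) ∧
      (∑ m ∈ Ω, (Polynomial.aeval S (p m) : Module.End K M) x = x) ∧
      ∀ m, S ((Polynomial.aeval S (p m) : Module.End K M) x) =
        v m • (Polynomial.aeval S (p m) : Module.End K M) x := by
  classical
  refine ⟨fun m => if m ∈ Ω then Lagrange.basis Ω v m else 0, fun m hm => if_neg hm, ?_, ?_⟩
  · rcases Ω.eq_empty_or_nonempty with h | h
    · subst h
      rw [Finset.prod_empty, map_one] at hx
      rw [Finset.sum_empty]
      exact hx.symm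
    · have h1 : ∑ m ∈ Ω, (if m ∈ Ω then Lagrange.basis Ω v m else 0) = 1 := by
        rw [← Lagrange.sum_basis (hv.injOn (s := (Ω : Set V))) h]
        exact Finset.sum_congr rfl fun m hm => if_pos hm
      have h2 := congrArg (fun q => (Polynomial.aeval S q : Module.End K M) x) h1
      simp only [map_sum, map_one, LinearMap.sum_apply, Module.End.one_apply] at h2
      exact h2
  · intro m
    by_cases hm : m ∈ Ω
    · simp only [if_pos hm]
      have h1 : (Polynomial.X - Polynomial.C (v m)) * Lagrange.basis Ω v m =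
          (∏ j ∈ Ω.erase m, Polynomial.C (v m - v j)⁻¹) *
            ∏ m ∈ Ω, (Polynomial.X - Polynomial.C (v m)) := by
        rw [← Finset.mul_prod_erase Ω (fun m => Polynomial.X - Polynomial.C (v m)) hm]
        unfold Lagrange.basis Lagrange.basisDivisor
        rw [Finset.prod_mul_distrib]
        ring
      have h2 := congrArg (fun q => (Polynomial.aeval S q : Module.End K M) x) h1
      simp only [map_mul, Module.End.mul_apply, hx, map_zero, map_sub, Polynomial.aeval_X,
        Polynomial.aeval_C, LinearMap.sub_apply, Module.algebraMap_end_apply] at h2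
      exact sub_eq_zero.1 h2
    · simp only [if_neg hm, map_zero, LinearMap.zero_apply, smul_zero]

theorem y7_mem_iSup {M V : Type} [AddCommGroup M] [Module K M] (S : Module.End K M) (v : V → K)
    (hv : Function.Injective v) (Ω : Finset V) (x : M)
    (hx : (Polynomial.aeval S (∏ m ∈ Ω, (Polynomial.X - Polynomial.C (v m))) : Module.End K M) x
      = 0) : x ∈ ⨆ m, Module.End.eigenspace S (v m) := by
  obtain ⟨p, _, h1, h2⟩ := y7_lag S v hv Ω x hx
  rw [← h1]
  exact Submodule.sum_mem _ fun m _ => Submodule.mem_iSup_of_mem m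
    (Module.End.mem_eigenspace_iff.2 (h2 m))

/-- one leg -/
theorem y7_one (hT : TQ Q) (f : G.O) :
    inc K f ∈ ⨆ m, Module.End.eigenspace (Q.s1 : Module.End K (G.KO K)) (Q.val m) := by
  obtain ⟨E, φ, _, hφ, hf⟩ := LP.exists_rep (fun _ : Fin 1 => f)
  have hf0 := hf 0
  obtain ⟨Ω, hΩ⟩ := hT.dec E
  have hs := fun a => LP.s1_phi (Q := Q) hφ a
  -- the map from vectors
  let T : (E.ι → K) →ₗ[K] G.KO K := Fintype.linearCombination K (fun a => inc K (φ a))
  have hTa : ∀ v, T v = ∑ a, v a • inc K (φ a) := fun v => rfl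
  have hTs : ∀ v, Q.s1 (T v) = T ((Q.sE E).mulVec v) := by
    intro v
    rw [hTa, hTa, map_sum]
    simp only [map_smul, hs, Matrix.mulVec, dotProduct, Finset.smul_sum, Finset.sum_smul]
    rw [Finset.sum_comm]
    refine Finset.sum_congr rfl fun b _ => Finset.sum_congr rfl fun a _ => ?_
    rw [smul_smul, mul_comm]
  have hvec : ∀ v : E.ι → K, v ∈ ⨆ m, Module.End.eigenspace
      (Matrix.toLinAlgEquiv' (Q.sE E) : Module.End K (E.ι → K)) (Q.val m) := by
    intro v
    refine y7_mem_iSup _ Q.val hT.val_inj Ω v ?_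
    have h1 : (Polynomial.aeval (Matrix.toLinAlgEquiv' (Q.sE E) : Module.End K (E.ι → K))
        (∏ m ∈ Ω, (Polynomial.X - Polynomial.C (Q.val m))) : Module.End K (E.ι → K)) =
        Matrix.toLinAlgEquiv' (Polynomial.aeval (Q.sE E)
          (∏ m ∈ Ω, (Polynomial.X - Polynomial.C (Q.val m)))) :=
      Polynomial.aeval_algHom_apply (Matrix.toLinAlgEquiv' (R := K) (n := E.ι)) _ _
    rw [h1, hΩ, map_zero, LinearMap.zero_apply]
  have hT' : ∀ v : E.ι → K, T v ∈ ⨆ m, Module.End.eigenspace (Q.s1 : Module.End K (G.KO K))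
      (Q.val m) := by
    intro v
    refine Submodule.iSup_induction _ (motive := fun u => T u ∈ ⨆ m, Module.End.eigenspace
      (Q.s1 : Module.End K (G.KO K)) (Q.val m)) (hvec v) (fun m u hu => ?_) ?_ (fun u u' hu hu' => ?_)
    · refine Submodule.mem_iSup_of_mem m (Module.End.mem_eigenspace_iff.2 ?_)
      rw [hTs, ← map_smul]
      congr 1
      exact Module.End.mem_eigenspace_iff.1 hu
    · rw [map_zero]
      exact zero_mem _
    · rw [map_add]
      exact add_mem hu hu'
  have hinc : ∀ g ∈ Submodule.span ℂ (Set.range φ), inc K g ∈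
      ⨆ m, Module.End.eigenspace (Q.s1 : Module.End K (G.KO K)) (Q.val m) := by
    intro g hg
    induction hg using Submodule.span_induction with
    | mem g hg =>
      obtain ⟨a, rfl⟩ := hg
      have h1 : inc K (φ a) = T (Pi.single a 1) := by
        rw [hTa, Finset.sum_eq_single a]
        · rw [Pi.single_eq_same, one_smul]
        · intro b _ hb
          rw [Pi.single_eq_of_ne hb, zero_smul]
        · intro h
          exact absurd (Finset.mem_univ a) h
      rw [h1]
      exact hT' _
    | zero =>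
      have h1 : inc K (0 : G.O) = 0 := KO_ext fun x => map_zero (algebraMap ℂ K)
      rw [h1]
      exact zero_mem _
    | add g g' _ _ h h' =>
      have h1 : inc K (g + g') = inc K g + inc K g' :=
        KO_ext fun x => map_add (algebraMap ℂ K) (g.1 x) (g'.1 x)
      rw [h1]
      exact add_mem h h'
    | smul c g _ h =>
      have h1 : inc K (c • g) = algebraMap ℂ K c • inc K g :=
        KO_ext fun x => map_mul (algebraMap ℂ K) c (g.1 x)
      rw [h1]
      exact Submodule.smul_mem _ _ h
  exact hinc f hf0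

/-- the sum of the eigenspaces is everything -/
theorem y7_all (hT : TQ Q) (i : L) (F : (G.pow L).KO K) :
    F ∈ ⨆ m, Module.End.eigenspace (Q.s i : Module.End K ((G.pow L).KO K)) (Q.val m) := by
  have hmul : ∀ F F' : (G.pow L).KO K,
      F ∈ (⨆ m, Module.End.eigenspace (Q.s i : Module.End K ((G.pow L).KO K)) (Q.val m)) →
      F' ∈ (⨆ m, Module.End.eigenspace (Q.s i : Module.End K ((G.pow L).KO K)) (Q.val m)) →
      F * F' ∈ ⨆ m, Module.End.eigenspace (Q.s i : Module.End K ((G.pow L).KO K)) (Q.val m) := by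
    intro F F' hF hF'
    refine Submodule.iSup_induction _ (motive := fun u => u * F' ∈ ⨆ m, Module.End.eigenspace
      (Q.s i : Module.End K ((G.pow L).KO K)) (Q.val m)) hF (fun m u hu => ?_) ?_ (fun u u' hu hu' => ?_)
    · refine Submodule.iSup_induction _ (motive := fun u' => u * u' ∈ ⨆ m, Module.End.eigenspace
        (Q.s i : Module.End K ((G.pow L).KO K)) (Q.val m)) hF' (fun m' u' hu' => ?_) ?_ (fun w w' hw hw' => ?_)
      · refine Submodule.mem_iSup_of_mem (m + m') (Module.End.mem_eigenspace_iff.2 ?_)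
        rw [map_add]
        exact LP.s_mul_eig i (Module.End.mem_eigenspace_iff.1 hu)
          (Module.End.mem_eigenspace_iff.1 hu')
      · rw [mul_zero]
        exact zero_mem _
      · rw [mul_add]
        exact add_mem hw hw'
    · rw [zero_mul]
      exact zero_mem _
    · rw [add_mul]
      exact add_mem hu hu'
  have hconst : ∀ a : K, algebraMap K ((G.pow L).KO K) a ∈
      ⨆ m, Module.End.eigenspace (Q.s i : Module.End K ((G.pow L).KO K)) (Q.val m) := by
    intro a
    refine Submodule.mem_iSup_of_mem 0 (Module.End.mem_eigenspace_iff.2 ?_)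
    rw [map_zero, zero_smul]
    exact LP.s_const i a
  have hpu : ∀ (j : L) (f : G.O), pu K j (inc K f) ∈
      ⨆ m, Module.End.eigenspace (Q.s i : Module.End K ((G.pow L).KO K)) (Q.val m) := by
    intro j f
    by_cases hij : i = j
    · subst hij
      refine Submodule.iSup_induction _ (motive := fun u => pu K i u ∈ ⨆ m,
        Module.End.eigenspace (Q.s i : Module.End K ((G.pow L).KO K)) (Q.val m)) (y7_one hT f) (fun m u hu => ?_) ?_ (fun u u' hu hu' => ?_)
      · refine Submodule.mem_iSup_of_mem m (Module.End.mem_eigenspace_iff.2 ?_)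
        rw [LP.s_pu, Module.End.mem_eigenspace_iff.1 hu, map_smul]
      · rw [map_zero]
        exact zero_mem _
      · rw [map_add]
        exact add_mem hu hu'
    · refine Submodule.mem_iSup_of_mem 0 (Module.End.mem_eigenspace_iff.2 ?_)
      rw [map_zero, zero_smul]
      exact LP.s_pu_ne hij _
  have hinc : ∀ (f : (L → G.X) → ℂ) (hf : f ∈ G.powO L), inc K (⟨f, hf⟩ : (G.pow L).O) ∈
      ⨆ m, Module.End.eigenspace (Q.s i : Module.End K ((G.pow L).KO K)) (Q.val m) := by
    intro f hf
    have hf' := hf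
    unfold powO at hf'
    induction hf' using Algebra.adjoin_induction with
    | mem f h =>
      obtain ⟨j, g, rfl⟩ := h
      exact hpu j g
    | algebraMap c =>
      exact hconst (algebraMap ℂ K c)
    | add f f' h h' ih ih' =>
      have h1 : inc K (⟨f + f', hf⟩ : (G.pow L).O) =
          inc K (⟨f, h⟩ : (G.pow L).O) + inc K (⟨f', h'⟩ : (G.pow L).O) :=
        KO_ext fun x => map_add (algebraMap ℂ K) (f x) (f' x)
      rw [h1]
      exact add_mem (ih h) (ih' h')
    | mul f f' h h' ih ih' =>
      have h1 : inc K (⟨f * f', hf⟩ : (G.pow L).O) =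
          inc K (⟨f, h⟩ : (G.pow L).O) * inc K (⟨f', h'⟩ : (G.pow L).O) :=
        KO_ext fun x => map_mul (algebraMap ℂ K) (f x) (f' x)
      rw [h1]
      exact hmul _ _ (ih h) (ih' h')
  obtain ⟨n, c, f, rfl⟩ := KO_eq_sum F
  exact Submodule.sum_mem _ fun j _ => Submodule.smul_mem _ _ (hinc (f j).1 (f j).2)

/-- (row Y7) Every function is annihilated by a product of `s_i - val m`.
PROOF. One leg first: for `f : G.O` (`LP.exists_rep`, one function): `f ∈ span (φ)`, `Q.s1 (inc (φ a)) = ∑ b, sE b a • inc (φ b)` (`LP.s1_phi`), so for every polynomial `p` over `K`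
`(aeval Q.s1 p) (inc (φ a)) = ∑ b, (aeval (sE) p) b a • inc (φ b)` (induction on `p`; `aeval` in `Module.End K (G.KO K)` and in matrices), and `hT.dec E` gives `Ω` with
`aeval (sE) (∏ m ∈ Ω, (X - C (val m))) = 0`.  A product over a larger finset is a multiple, so finitely many `f` have a common `Ω`.
On `G^L`: the slice map `sl K k i` satisfies `sl K k i (Q.s i F) = Q.s1 (sl K k i F)` (`KO_ext`, `derK_emb`, `Function.update_idem`), so `sl K k i ((aeval (Q.s i) p) F) = (aeval Q.s1 p) (sl K k i F)`.
`F = ∑ c_j inc (f_j)`, `f_j` a sum of products of one-leg functions (`Algebra.adjoin_induction`), so all slices `sl K k i F` are combinations of finitely many `inc (g)`, `g : G.O`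
(independent of `k`): take `Ω` for those `g`; then `(..) F` has all slices `0`, and `F.1 k = (sl K k i F).1 (k i)` (`sl_self`). -/
theorem exists_ann (hT : TQ Q) (i : L) (F : (G.pow L).KO K) : ∃ Ω : Finset X,
    (Polynomial.aeval (Q.s i) (∏ m ∈ Ω, (Polynomial.X - Polynomial.C (Q.val m))) :
      Module.End K ((G.pow L).KO K)) F = 0 := by
  classical
  refine Submodule.iSup_induction _ (motive := fun F => ∃ Ω : Finset X,
    (Polynomial.aeval (Q.s i) (∏ m ∈ Ω, (Polynomial.X - Polynomial.C (Q.val m))) :
      Module.End K ((G.pow L).KO K)) F = 0) (y7_all hT i F) (fun m u hu => ?_) ?_ (fun u u' hu hu' => ?_)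
  · refine ⟨{m}, ?_⟩
    rw [Finset.prod_singleton, map_sub, Polynomial.aeval_X, Polynomial.aeval_C,
      LinearMap.sub_apply, Module.algebraMap_end_apply, Module.End.mem_eigenspace_iff.1 hu, sub_self]
  · exact ⟨∅, map_zero _⟩
  · obtain ⟨Ω, h⟩ := hu
    obtain ⟨Ω', h'⟩ := hu'
    refine ⟨Ω ∪ Ω', ?_⟩
    rw [map_add, y7_mono (Q.s i) Q.val Finset.subset_union_left u h,
      y7_mono (Q.s i) Q.val Finset.subset_union_right u' h', add_zero]

/-- Decomposition into eigenfunctions.
PROOF. Lagrange: `Ω` from `exists_ann`; `F m := (∏ m' ∈ Ω \ {m}, (val m - val m')⁻¹ • (Q.s i - val m')) F` for `m ∈ Ω`, `val` injective.  `(Q.s i - val m) (F m) = 0` and `∑ m ∈ Ω, F m = F` because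
`∑ m ∈ Ω, Lagrange.basis Ω val m = 1` (`Lagrange.sum_basis`).  [`Module.End` version: `aeval (Q.s i)` of the Lagrange basis polynomials.]  The polynomial `p m` with `F m = (aeval (Q.s i) (p m)) F` is part
of the statement. -/
theorem exists_dec (hT : TQ Q) (i : L) (F : (G.pow L).KO K) : ∃ (f : X →₀ (G.pow L).KO K)
    (p : X → Polynomial K), (f.sum fun _ a => a) = F ∧ (∀ m, Q.s i (f m) = Q.val m • f m) ∧
      ∀ m, f m = (Polynomial.aeval (Q.s i) (p m) : Module.End K ((G.pow L).KO K)) F := by
  obtain ⟨Ω, hΩ⟩ := exists_ann hT i F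
  obtain ⟨p, hp, h1, h2⟩ := y7_lag (Q.s i : Module.End K ((G.pow L).KO K)) Q.val hT.val_inj Ω F hΩ
  refine ⟨Finsupp.onFinset Ω (fun m => (Polynomial.aeval (Q.s i) (p m) :
    Module.End K ((G.pow L).KO K)) F) (fun m hm => ?_), p, ?_, fun m => ?_, fun m => rfl⟩
  · by_contra h
    apply hm
    rw [hp m h, map_zero, LinearMap.zero_apply]
  · rw [Finsupp.onFinset_sum _ (fun m => rfl)]
    exact h1
  · exact h2 m

end

end Pool.Agent.MTF
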